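import Pool.Agent.Lib.AMU.LimA1

/-!
# Section B (helper27): the Galois argument
-/

set_option autoImplicit false

open Filter Topology

namespace Pool.Agent.AMU.Lim

/-! ## Ring homomorphisms and the invariants -/

section maps

variable {K K' : Type} [Field K] [Field K'] (φ : K →+* K')

theorem map_smat (A : K) (a n : ℤ) : φ (smat A a n) = smat (φ A) a n := by
  simp [smat, map_zpow₀]

theorem map_qdim (A : K) (n : ℤ) : φ (qdim A n) = qdim (φ A) n := map_smat φ A 1 n

theorem map_twist (A : K) (n : ℤ) : φ (twist A n) = twist (φ A) n := by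
  simp [twist, map_zpow₀]

variable {N : ℕ} (opp : ZMod N → ZMod N) (w : List (ZMod N)) (ord : ℕ → ℤ) (m : ℕ)

theorem map_weight (A : K) (lam : ZMod N → ℕ) (n : ℤ) (s : List ℤ) :
    φ (weight opp w ord m A lam n s) = weight opp w ord m (φ A) lam n s := by
  unfold weight
  rw [map_mul, map_mul, map_list_prod, map_prod, map_prod, List.map_map]
  congr 1
  · congr 1
    · congr 1
      apply List.map_congr_left
      intro i _
      simp [map_smat]
    · apply Finset.prod_congr rfl
      intro i _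
      rw [map_prod]
      apply Finset.prod_congr rfl
      intro j _
      rw [map_inv₀, map_qdim]
  · apply Finset.prod_congr rfl
    intro u _
    rw [map_div₀, map_twist, map_twist]

theorem map_rawZ (p : ℕ) (A : K) (lam : ZMod N → ℕ) :
    φ (rawZ opp w ord m p A lam) = rawZ opp w ord m p (φ A) lam := by
  unfold rawZ
  rw [map_sum]
  apply Finset.sum_congr rfl
  intro n _
  rw [map_sum]
  apply Finset.sum_congr rfl
  intro e _
  rw [apply_ite φ, map_mul, map_weight, amp_map, map_zero]
  have : (fun x => φ (qdim A x)) = qdim (φ A) := by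
    funext x
    exact map_qdim φ A x
  rw [this]

theorem map_Z (p : ℕ) (A : K) (lam : ZMod N → ℕ) (c : ℕ) :
    φ (Z opp w ord p A lam c) = Z opp w ord p (φ A) lam c := by
  unfold Z
  rw [map_mul, map_sum, map_div₀, map_zpow₀]
  congr 1
  · have h2 : φ 2 = 2 := map_ofNat φ 2
    simp [h2]
  · apply Finset.sum_congr rfl
    intro i _
    rw [map_mul, map_mul, map_rawZ]
    simp

end maps

/-! ## Matrices of finite order -/

/-- The trace of a matrix of finite order is a sum of roots of unity. -/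
theorem trace_finite_order {d : ℕ} {T : Matrix (Fin d) (Fin d) ℂ} {n : ℕ} (_hn : 0 < n)
    (hT : T ^ n = 1) :
    ∃ M : Multiset ℂ, M.card = d ∧ (∀ r ∈ M, r ^ n = 1) ∧ T.trace = M.sum := by
  refine ⟨T.charpoly.roots, ?_, ?_, Matrix.trace_eq_sum_roots_charpoly T⟩
  · have h := (IsAlgClosed.splits T.charpoly).natDegree_eq_card_roots
    rw [← h, Matrix.charpoly_natDegree_eq_dim, Fintype.card_fin]
  · intro r hr
    have h1 : Polynomial.IsRoot T.charpoly r := (Polynomial.mem_roots'.1 hr).2
    have h2 : r ∈ spectrum ℂ T := Matrix.mem_spectrum_iff_isRoot_charpoly.2 h1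
    have h3 : r ^ n ∈ spectrum ℂ (T ^ n) := spectrum.pow_mem_pow T n h2
    rw [hT] at h3
    rcases Nat.eq_zero_or_pos d with hd | hd
    · subst hd
      exfalso
      have : T.charpoly.roots.card = 0 := by
        have h := (IsAlgClosed.splits T.charpoly).natDegree_eq_card_roots
        rw [← h, Matrix.charpoly_natDegree_eq_dim, Fintype.card_fin]
      rw [Multiset.card_eq_zero] at this
      rw [this] at hr
      simp at hr
    · have : Nonempty (Fin d) := ⟨⟨0, hd⟩⟩
      rw [spectrum.one_eq] at h3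
      simpa using h3

/-- An element of finite order in the projective group, with determinant a root of unity. -/
theorem finite_order_of_pgl {d : ℕ} {T : GL (Fin d) ℂ} {n k : ℕ} (hn : 0 < n)
    (hTn : ((T : GL (Fin d) ℂ) : PGL d) ^ n = 1) (hk : 0 < k)
    (hdet : (T : Matrix (Fin d) (Fin d) ℂ).det ^ k = 1) :
    ∃ l, 0 < l ∧ (T : Matrix (Fin d) (Fin d) ℂ) ^ l = 1 := by
  rcases Nat.eq_zero_or_pos d with hd | hd
  · subst hd
    exact ⟨1, one_pos, Subsingleton.elim _ _⟩
  · have h1 : T ^ n ∈ Subgroup.center (GL (Fin d) ℂ) := by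
      rw [← QuotientGroup.eq_one_iff, QuotientGroup.mk_pow]
      exact hTn
    rw [Matrix.GeneralLinearGroup.mem_center_iff_val_mem_range_scalar] at h1
    obtain ⟨μ, hμ⟩ := h1
    have h2 : (T : Matrix (Fin d) (Fin d) ℂ) ^ n = Matrix.scalar (Fin d) μ := by
      rw [hμ]; simp
    have h3 : μ ^ (d * k) = 1 := by
      have h4 := congrArg Matrix.det h2
      rw [Matrix.det_pow] at h4
      have h5 : (Matrix.scalar (Fin d) μ).det = μ ^ d := by
        simp [Matrix.scalar_apply, Matrix.det_diagonal]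
      rw [h5] at h4
      rw [pow_mul, ← h4, ← pow_mul, mul_comm n k, pow_mul, hdet, one_pow]
    refine ⟨n * (d * k), by positivity, ?_⟩
    rw [pow_mul, h2, ← map_pow, h3, map_one]

/-! ## The bound -/

variable {N : ℕ} {opp : ZMod N → ZMod N} {Γ : Type} [Group Γ] {s : ZMod N → Γ}

theorem root_norm {K : Type} [Field K] (φ : K →+* ℂ) {r : K} {n : ℕ} (hn : 0 < n)
    (hr : r ^ n = 1) : ‖φ r‖ = 1 := by
  have h : (φ r) ^ n = 1 := by rw [← map_pow, hr, map_one]
  have h2 := congrArg norm h
  rw [norm_pow, norm_one] at h2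
  exact (pow_eq_one_iff_of_nonneg (norm_nonneg _) hn.ne').1 h2

theorem gal_bound {c p : ℕ} (hp : Odd p) {A A' : ℂ} (hA : IsPrimitiveRoot A (2 * p))
    (hA' : IsPrimitiveRoot A' (2 * p)) {lam : ZMod N → ℕ} {d : ℕ} {ρ : Γ →* PGL d}
    (hρ : IsWRT opp s c p A lam ρ) {γ : Γ} (hγ : IsOfFinOrder (ρ γ))
    {w w' : List (ZMod N)} (hw : w ≠ []) (hwγ : (w.map s).prod = γ)
    (hw' : w' ≠ []) (hw'1 : (w'.map s).prod = 1) {ord ord' : ℕ → ℤ}
    (ho : Function.Injective ord) (ho' : Function.Injective ord') :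
    ‖Z opp w ord p A' lam c‖ ≤ ‖Z opp w' ord' p A' lam c‖ := by
  have hp0 : 0 < 2 * p := by
    rcases hp with ⟨k, rfl⟩
    omega
  -- the field of the algebraic numbers
  obtain ⟨K, hK⟩ : ∃ K : IntermediateField ℚ ℂ, K = algebraicClosure ℚ ℂ := ⟨_, rfl⟩
  have hroot : ∀ (r : ℂ) (n : ℕ), 0 < n → r ^ n = 1 → r ∈ K := by
    intro r n hn hr
    rw [hK, mem_algebraicClosure_iff']
    refine IsIntegral.of_pow hn ?_
    rw [hr]
    exact isIntegral_one
  have hAK : A ∈ K := hroot A (2 * p) hp0 hA.pow_eq_one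
  obtain ⟨a, ha⟩ : ∃ a : K, (a : ℂ) = A := ⟨⟨A, hAK⟩, rfl⟩
  have hKint : ∀ x : K, IsIntegral ℚ x ∧ ((minpoly ℚ x).map (algebraMap ℚ ℂ)).Splits := by
    intro x
    refine ⟨?_, IsAlgClosed.splits _⟩
    have hx : (x : ℂ) ∈ algebraicClosure ℚ ℂ := by
      rw [← hK]; exact x.2
    rw [mem_algebraicClosure_iff'] at hx
    exact (isIntegral_algHom_iff K.val K.val.injective).1 hx
  have hmin : Polynomial.aeval A' (minpoly ℚ a) = 0 := by
    have h1 : minpoly ℚ a = minpoly ℚ A := by
      rw [← ha]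
      exact (minpoly.algHom_eq K.val K.val.injective a).symm
    have h2 : Polynomial.cyclotomic (2 * p) ℚ = minpoly ℚ A :=
      Polynomial.cyclotomic_eq_minpoly_rat hA hp0
    have h3 : Polynomial.cyclotomic (2 * p) ℚ = minpoly ℚ A' :=
      Polynomial.cyclotomic_eq_minpoly_rat hA' hp0
    rw [h1, ← h2, h3]
    exact minpoly.aeval ℚ A'
  obtain ⟨φ, hφ⟩ := IntermediateField.exists_algHom_of_splits_of_aeval hKint hmin
  -- the comparison
  have key : ∀ (v : List (ZMod N)) (o : ℕ → ℤ) (ε : ℂ) (M : Multiset ℂ) (n k : ℕ), 0 < n → 0 < k →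
      ε ^ k = 1 → (∀ r ∈ M, r ^ n = 1) → M.sum = ε * Z opp v o p A lam c →
      ∃ (M' : Multiset K), M'.map (K.val : K →+* ℂ) = M ∧ (∀ r ∈ M', r ^ n = 1) ∧
        ‖Z opp v o p A' lam c‖ = ‖(M'.map (φ : K →+* ℂ)).sum‖ := by
    intro v o ε M n k hn hk hε hM hsum
    have hε' : ε ∈ K := hroot ε k hk hε
    obtain ⟨e, he⟩ : ∃ e : K, (e : ℂ) = ε := ⟨⟨ε, hε'⟩, rfl⟩
    have hek : e ^ k = 1 := by
      apply Subtype.ext
      push_cast
      rw [he, hε]
    obtain ⟨M', hM'⟩ : ∃ M' : Multiset K, M'.map (K.val : K →+* ℂ) = M := by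
      refine ⟨M.pmap (fun r hr => (⟨r, hroot r n hn hr⟩ : K)) hM, ?_⟩
      rw [Multiset.map_pmap]
      have : (M.pmap (fun r (_ : r ^ n = 1) => r) hM) = M := by
        rw [Multiset.pmap_eq_map, Multiset.map_id']
      exact this
    refine ⟨M', hM', ?_, ?_⟩
    · intro r hr
      apply Subtype.ext
      have : (r : ℂ) ∈ M := by
        rw [← hM']
        exact Multiset.mem_map_of_mem (K.val : K →+* ℂ) hr
      push_cast
      exact hM _ this
    · have h1 : M'.sum = e * Z opp v o p a lam c := by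
        apply Subtype.ext
        have h2 : (M'.sum : ℂ) = M.sum := by
          rw [← hM']
          exact map_multiset_sum (K.val : K →+* ℂ) M'
        have h3 : ((Z opp v o p a lam c : K) : ℂ) = Z opp v o p A lam c := by
          rw [← ha]
          exact map_Z (K.val : K →+* ℂ) opp v o p a lam c
        show ((M'.sum : K) : ℂ) = (e : ℂ) * ((Z opp v o p a lam c : K) : ℂ)
        rw [h2, h3, he, hsum]
      have h4 := congrArg (φ : K →+* ℂ) h1
      rw [map_mul, map_Z, map_multiset_sum] at h4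
      have h5 : (φ : K →+* ℂ) a = A' := hφ
      rw [h5] at h4
      rw [h4, norm_mul, root_norm (φ : K →+* ℂ) hk hek, one_mul]
  -- the word of value `1`
  have hone : ‖Z opp w' ord' p A' lam c‖ = d := by
    obtain ⟨T, hT, ⟨k, hk, hdet⟩, hZ⟩ := hρ 1
    obtain ⟨ε, ⟨k', hk', hε⟩, htr⟩ := hZ w' hw' hw'1 ord' ho'
    rw [map_one] at hT
    rcases Nat.eq_zero_or_pos d with hd | hd
    · subst hd
      have h0 : (T : Matrix (Fin 0) (Fin 0) ℂ).trace = 0 := by simp
      rw [h0] at htr
      obtain ⟨M', hM', -, hn⟩ := key w' ord' ε 0 1 k' one_pos hk' hε (by simp) (by simpa using htr)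
      have : M' = 0 := by
        rwa [Multiset.map_eq_zero] at hM'
      rw [hn, this]
      simp
    · have h1 : T ∈ Subgroup.center (GL (Fin d) ℂ) := by
        rw [← QuotientGroup.eq_one_iff]
        exact hT
      rw [Matrix.GeneralLinearGroup.mem_center_iff_val_mem_range_scalar] at h1
      obtain ⟨μ, hμ⟩ := h1
      have h3 : μ ^ (d * k) = 1 := by
        rw [← hμ] at hdet
        have h5 : (Matrix.scalar (Fin d) μ).det = μ ^ d := by
          simp [Matrix.scalar_apply, Matrix.det_diagonal]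
        rw [h5, ← pow_mul] at hdet
        exact hdet
      have h6 : (T : Matrix (Fin d) (Fin d) ℂ).trace = (Multiset.replicate d μ).sum := by
        rw [← hμ, Multiset.sum_replicate]
        simp [Matrix.scalar_apply, Matrix.trace_diagonal]
      rw [h6] at htr
      obtain ⟨M', hM', hr, hn⟩ := key w' ord' ε (Multiset.replicate d μ) (d * k) k' (by positivity)
        hk' hε (by
          intro r hr
          rw [Multiset.eq_of_mem_replicate hr, h3]) htr
      have hμK : μ ∈ K := hroot μ (d * k) (by positivity) h3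
      have hM'' : M' = Multiset.replicate d (⟨μ, hμK⟩ : K) := by
        rw [Multiset.eq_replicate]
        constructor
        · have := congrArg Multiset.card hM'
          simpa using this
        · intro b hb
          have : (b : ℂ) ∈ Multiset.replicate d μ := by
            rw [← hM']
            exact Multiset.mem_map_of_mem (K.val : K →+* ℂ) hb
          exact Subtype.ext (Multiset.eq_of_mem_replicate this)
      have hμ1 : (⟨μ, hμK⟩ : K) ^ (d * k) = 1 := by
        apply Subtype.ext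
        push_cast
        exact h3
      rw [hn, hM'', Multiset.map_replicate, Multiset.sum_replicate, nsmul_eq_mul, norm_mul,
        root_norm (φ : K →+* ℂ) (by positivity) hμ1, mul_one]
      simp
  -- the word of `γ`
  rw [hone]
  obtain ⟨T, hT, ⟨k, hk, hdet⟩, hZ⟩ := hρ γ
  obtain ⟨ε, ⟨k', hk', hε⟩, htr⟩ := hZ w hw hwγ ord ho
  obtain ⟨n, hn, hTn⟩ := isOfFinOrder_iff_pow_eq_one.1 hγ
  rw [← hT] at hTn
  obtain ⟨l, hl, hTl⟩ := finite_order_of_pgl hn hTn hk hdet
  obtain ⟨M, hMc, hMr, hMs⟩ := trace_finite_order hl hTl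
  rw [hMs] at htr
  obtain ⟨M', hM', hr, hnn⟩ := key w ord ε M l k' hl hk' hε hMr htr
  rw [hnn]
  have hc : M'.card = d := by
    have := congrArg Multiset.card hM'
    rw [Multiset.card_map, hMc] at this
    exact this
  have h1 : ‖(M'.map (φ : K →+* ℂ)).sum‖ ≤ ((M'.map (φ : K →+* ℂ)).map fun x => ‖x‖).sum :=
    norm_multiset_sum_le _
  refine h1.trans ?_
  rw [Multiset.map_map]
  have h2 : (M'.map ((fun x => ‖x‖) ∘ (φ : K →+* ℂ))) = M'.map fun _ => (1 : ℝ) := by
    apply Multiset.map_congr rfl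
    intro x hx
    exact root_norm (φ : K →+* ℂ) hl (hr x hx)
  rw [h2]
  simp [hc]

end Pool.Agent.AMU.Lim
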