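import Pool.Agent.Lib.AMU.LimA3

/-!
# Row C18: the closed surface
-/

set_option autoImplicit false

open Filter Topology

namespace Pool.Agent.AMU.Lim

private theorem r1_four (g : ℕ) : ((2 * g : ℕ) : ZMod (4 * g)) + ((2 * g : ℕ) : ZMod (4 * g)) = 0 := by
  rw [← Nat.cast_add, show 2 * g + 2 * g = 4 * g by ring, ZMod.natCast_self]

theorem glue_closed {g : ℕ} (hg : 1 ≤ g) : Glue (closedOpp g) := by
  refine ⟨by omega, fun i => ?_, fun i h => ?_⟩
  · unfold closedOpp
    rw [add_assoc, r1_four, add_zero]
  · unfold closedOpp at h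
    rw [add_eq_left, ZMod.natCast_eq_zero_iff] at h
    have := Nat.le_of_dvd (by omega) h
    omega

theorem chiT_closed {g : ℕ} (hg : 1 ≤ g) : chiT (closedOpp g) 1 = 2 - 2 * g := by
  unfold chiT
  have h := canon_card _ (glue_closed hg)
  have h2 : (canonN (closedOpp g)).card = 2 * g := by omega
  rw [h2]
  push_cast
  ring

/-- the iterates of the permutation of the corners -/
private theorem r1_iter {g : ℕ} (i : ZMod (4 * g)) (k : ℕ) :
    ((fun j : ZMod (4 * g) => closedOpp g j + 1)^[k]) i = i + k * (2 * g + 1 : ℕ) := by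
  induction k with
  | zero => simp
  | succ k ih =>
    rw [Function.iterate_succ_apply', ih]
    unfold closedOpp
    push_cast
    ring

private theorem r1_sq (g : ℕ) : ((2 * g + 1 : ℕ) : ZMod (4 * g)) * ((2 * g + 1 : ℕ) : ZMod (4 * g)) = 1 := by
  have h : (2 * g + 1) * (2 * g + 1) = 4 * g * (g + 1) + 1 := by ring
  rw [← Nat.cast_mul, h, Nat.cast_add, Nat.cast_mul, ZMod.natCast_self, zero_mul, zero_add,
    Nat.cast_one]

private theorem r1_orbit {g : ℕ} (hg : 1 ≤ g) (i : ZMod (4 * g)) :
    ∃ k < 4 * g, ((fun j : ZMod (4 * g) => closedOpp g j + 1)^[k]) i = 0 := by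
  haveI : NeZero (4 * g) := ⟨by omega⟩
  refine ⟨(-i * ((2 * g + 1 : ℕ) : ZMod (4 * g))).val, ZMod.val_lt _, ?_⟩
  rw [r1_iter, ZMod.natCast_zmod_val, mul_assoc, r1_sq, mul_one, add_neg_cancel]

/-- One vertex. -/
theorem vertices_closed {g : ℕ} (hg : 1 ≤ g) : vertices (closedOpp g) = [0] := by
  unfold vertices
  obtain ⟨n, hn⟩ : ∃ n, 4 * g = n + 1 := ⟨4 * g - 1, by omega⟩
  have h1 : List.range (4 * g) = 0 :: (List.range n).map Nat.succ := by
    rw [hn, List.range_succ_eq_map]
  conv_lhs => arg 2; rw [h1]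
  rw [List.filter_cons_of_pos]
  · congr 1
    rw [List.filter_eq_nil_iff]
    intro i hi
    rw [List.mem_map] at hi
    obtain ⟨j, hj, rfl⟩ := hi
    rw [List.mem_range] at hj
    rw [List.all_eq_true]
    intro hall
    obtain ⟨k, hk, h2⟩ := r1_orbit hg ((j.succ : ℕ) : ZMod (4 * g))
    have h3 := hall k (List.mem_range.2 hk)
    rw [decide_eq_true_eq, h2] at h3
    simp at h3
  · rw [List.all_eq_true]
    intro k _
    rw [decide_eq_true_eq]
    exact Nat.zero_le _

private theorem r1_col (n : ℤ) (s : List ℤ) (i : ℕ) : col n s i = n + lev s i := rfl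

private theorem r1_adm {g : ℕ} (hg : 1 ≤ g) (w : List (ZMod (4 * g))) (ord : ℕ → ℤ) (m p : ℕ)
    (n : ℤ) (s : List ℤ) (hs : s.length = 2 * (w.length * m)) :
    Admissible (closedOpp g) w ord m p n s ↔
      CoreAdm (closedOpp g) w ord m (fun s => 0 < n + s ∧ n + s < p) s := by
  haveI : NeZero (4 * g) := ⟨by omega⟩
  set L := ends (chords w m) with hL
  have hlen : L.length = s.length := by
    rw [hL, ends_length, chords_length, hs]
  unfold Admissible CoreAdm
  constructor
  · rintro ⟨h1, h2, h3, h4⟩
    refine ⟨h1, h2, ?_, h4⟩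
    have hN : lev s (corner (closedOpp g) w L (4 * g)) = 0 := by
      rw [corner_top _ _ (by omega), hlen]
      unfold lev
      rw [List.take_length, h2]
    have h0 : lev s (corner (closedOpp g) w L 0) = 0 := by
      rw [corner_zero]
      rfl
    have hstep : ∀ i : ZMod (4 * g), lev s (corner (closedOpp g) w L (closedOpp g i + 1).val) =
        lev s (corner (closedOpp g) w L i.val) := by
      intro i
      have h5 := h3 i.val (ZMod.val_lt i)
      rw [ZMod.natCast_zmod_val, r1_col, r1_col] at h5
      have h6 : lev s (corner (closedOpp g) w L ((closedOpp g i).val + 1)) =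
          lev s (corner (closedOpp g) w L i.val) := by
        rw [← hL] at h5
        linarith
      rw [← h6]
      by_cases h7 : (closedOpp g i).val + 1 < 4 * g
      · have h8 : (closedOpp g i + 1).val = (closedOpp g i).val + 1 := by
          rw [ZMod.val_add, ZMod.val_one'' (by omega), Nat.mod_eq_of_lt h7]
        rw [h8]
      · have h9 : (closedOpp g i).val + 1 = 4 * g := by
          have := ZMod.val_lt (closedOpp g i)
          omega
        have h8 : (closedOpp g i + 1).val = 0 := by
          rw [ZMod.val_add, ZMod.val_one'' (by omega), h9, Nat.mod_self]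
        rw [h8, h9, h0, hN]
    have hit : ∀ (k : ℕ) (i : ZMod (4 * g)), lev s (corner (closedOpp g) w L
        (((fun j : ZMod (4 * g) => closedOpp g j + 1)^[k]) i).val) =
        lev s (corner (closedOpp g) w L i.val) := by
      intro k i
      induction k with
      | zero => rfl
      | succ k ih => rw [Function.iterate_succ_apply', hstep, ih]
    intro j hj
    obtain ⟨k, _, hk⟩ := r1_orbit hg ((j : ℕ) : ZMod (4 * g))
    have h10 := hit k ((j : ℕ) : ZMod (4 * g))
    rw [hk, ZMod.val_zero, h0, ZMod.val_natCast, Nat.mod_eq_of_lt hj] at h10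
    exact h10.symm
  · rintro ⟨h1, h2, h3, h4⟩
    refine ⟨h1, h2, ?_, h4⟩
    have hN : lev s (corner (closedOpp g) w L (4 * g)) = 0 := by
      rw [corner_top _ _ (by omega), hlen]
      unfold lev
      rw [List.take_length, h2]
    intro j hj
    rw [r1_col, r1_col, h3 j hj]
    congr 1
    have hlt := ZMod.val_lt (closedOpp g ((j : ℕ) : ZMod (4 * g)))
    rcases Nat.lt_or_ge ((closedOpp g ((j : ℕ) : ZMod (4 * g))).val + 1) (4 * g) with h5 | h5
    · exact (h3 _ h5).symm
    · have h6 : (closedOpp g ((j : ℕ) : ZMod (4 * g))).val + 1 = 4 * g := by omega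
      rw [h6]
      exact hN.symm

/-- All corners have the same colour `n`: the corners are cyclically permuted by
`i ↦ opp i + 1 = i + 2 g + 1`; `smat A 1 = qdim A`. -/
theorem rawZ_closed {g : ℕ} (hg : 1 ≤ g) (w : List (ZMod (4 * g))) (ord : ℕ → ℤ) (m p : ℕ)
    (A : ℂ) :
    rawZ (closedOpp g) w ord m p A (fun _ => 1) =
      ∑ n ∈ Finset.range p, colG (closedOpp g) w ord m 1 A p n := by
  unfold rawZ colG coreG
  refine Finset.sum_congr rfl fun n _ => Finset.sum_congr rfl fun b _ => ?_
  set s : List ℤ := List.ofFn fun i => sgn (b i) with hs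
  have hlen : s.length = 2 * (w.length * m) := by
    rw [hs, List.length_ofFn]
  have hadm := r1_adm hg w ord m p (n : ℤ) s hlen
  by_cases h : Admissible (closedOpp g) w ord m p (n : ℤ) s
  · rw [if_pos h, if_pos (hadm.1 h)]
    have h1 := amp_shift (qdim A) A (rank (closedOpp g) w ord) (n : ℤ) (chords w m) 0 s
    rw [add_zero] at h1
    rw [h1]
    congr 1
    unfold weight
    rw [vertices_closed hg]
    simp only [List.map_cons, List.map_nil, List.prod_cons, List.prod_nil, mul_one, zpow_one,
      corner_zero, add_zero]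
    rfl
  · rw [if_neg h, if_neg (fun h' => h (hadm.2 h'))]

end Pool.Agent.AMU.Lim
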