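import Pool.Agent.Lib.AMU.LimO0
import Pool.Agent.Lib.AMU.LimR1
import Pool.Agent.Lib.AMU.GalB

/-!
# Row C19: section C, closed surfaces
-/

set_option autoImplicit false

open Filter Topology

namespace Pool.Agent.AMU.Lim

theorem Z_closed {g : ℕ} (hg : 1 ≤ g) (w : List (ZMod (4 * g))) (ord : ℕ → ℤ) (p : ℕ) (A : ℂ)
    (c : ℕ) : Z (closedOpp g) w ord p A (fun _ => 1) c =
      Np (closedOpp g) A p * ∑ n ∈ Finset.range p, colT (closedOpp g) w ord c 1 A p n := by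
  rw [Z_eq]
  congr 1
  simp only [rawZ_closed hg]
  exact colComb_sum c (Finset.range p) fun m n => colG (closedOpp g) w ord m 1 A p n

/-- The normalization is the same for both words (and not zero); `rawZ_closed`, `main_lim` for `w`
and for `w1` (`colComb_core_w1`, `invSum_tendsto`), `compare` with `X = Σ colT w`,
`Y1 = Y2 = ‖Σ colT w1‖`, `f1 = f2 = (c + 1) * invSum`. -/
theorem closed_bound {g : ℕ} (hg : 2 ≤ g) {Γ : Type} [Group Γ] {s : ZMod (4 * g) → Γ}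
    (hs : ∀ i, s i * s (closedOpp g i) = 1) {c : ℕ} (hc : Even c) {γ : Γ}
    {w : List (ZMod (4 * g))} (hw : w ≠ []) (hwγ : (w.map s).prod = γ) {ord : ℕ → ℤ}
    (ho : Function.Injective ord)
    (hinf : ∀ p0 : ℕ, ∃ p, p0 ≤ p ∧ Odd p ∧ ∃ A : ℂ, IsPrimitiveRoot A (2 * p) ∧
      ∃ (d : ℕ) (ρ : Γ →* PGL d), IsWRT (closedOpp g) s c p A (fun _ => 1) ρ ∧
        IsOfFinOrder (ρ γ))
    {L : ℝ} (hL : Tendsto (fun x : ℝ => x ^ (2 * g - 2) * coreCol (closedOpp g) w ord c 1 x)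
      (𝓝[≠] 0) (𝓝 L)) : |L| ≤ c + 1 := by
  have hg1 : 1 ≤ g := by omega
  have hG := glue_closed hg1
  have hχ := chiT_closed hg1
  have hχκ : chiT (closedOpp g) 1 = -((2 * g - 2 : ℕ) : ℤ) := by
    rw [hχ]; omega
  have hχ2 : chiT (closedOpp g) 1 ≤ -2 := by omega
  have hχe : Even (chiT (closedOpp g) 1) := by
    rw [hχ]; exact ⟨1 - g, by ring⟩
  have hκ : 2 ≤ 2 * g - 2 := by omega
  have hκe : Even (2 * g - 2) := ⟨g - 1, by omega⟩
  obtain ⟨C, hC⟩ := main_lim w ord hG hw hc hχ2 hχe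
  obtain ⟨C1, hC1⟩ := main_lim (w1 (closedOpp g)) ord1 hG (w1_ne _) hc hχ2 hχe
  set f1 : ℝ → ℝ := fun x => (c + 1) * ∑' i : ℤ, ((x + i) ^ (2 * g - 2))⁻¹ with hf1
  have hf1nn : ∀ x, 0 ≤ f1 x := by
    intro x
    refine mul_nonneg (by positivity) (tsum_nonneg fun i => ?_)
    exact inv_nonneg.2 (hκe.pow_nonneg _)
  have hzs : ∀ a, zs (coreCol (closedOpp g) (w1 (closedOpp g)) ord1 c 1) a = zs f1 a :=
    fun a => zs_congr fun x hx => coreCol_w1 hG hc hκ hχκ hx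
  have hzsnn : ∀ a, 0 ≤ zs f1 a := fun a => Finset.sum_nonneg fun k _ => hf1nn _
  have hper1 : ∀ x, f1 (x + 1) = f1 x := by
    intro x
    simp only [hf1, invSum_periodic]
  have hb1 : ∀ δ : ℝ, 0 < δ → ∃ C : ℝ, ∀ x : ℝ, δ ≤ x → x ≤ 1 - δ → |f1 x| ≤ C := by
    intro δ hδ
    obtain ⟨B, hB⟩ := invSum_bound hκ δ hδ
    refine ⟨(c + 1) * B, fun x hx1 hx2 => ?_⟩
    simp only [hf1]
    rw [abs_mul, abs_of_nonneg (by positivity : (0 : ℝ) ≤ (c : ℝ) + 1)]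
    exact mul_le_mul_of_nonneg_left (hB x hx1 hx2) (by positivity)
  have hL1 : Tendsto (fun x : ℝ => x ^ (2 * g - 2) * f1 x) (𝓝[≠] 0) (𝓝 (c + 1)) := by
    have h1 := (invSum_tendsto hκ).const_mul ((c : ℝ) + 1)
    rw [mul_one] at h1
    refine h1.congr fun x => ?_
    simp only [hf1]
    ring
  let X : ℕ → ℕ → ℂ := fun a p =>
    ∑ n ∈ Finset.range p, colT (closedOpp g) w ord c 1 (Aj a p) p n
  let X1 : ℕ → ℕ → ℂ := fun a p =>
    ∑ n ∈ Finset.range p, colT (closedOpp g) (w1 (closedOpp g)) ord1 c 1 (Aj a p) p n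
  have hY : ∀ a : ℕ, ∀ᶠ p : ℕ in atTop, Odd p → |‖X1 a p‖ - zs f1 a| ≤ C1 := by
    intro a
    filter_upwards [hC1 a] with p hp hodd
    have h1 := hp hodd
    rw [hzs] at h1
    refine le_trans ?_ h1
    have h2 := abs_norm_sub_norm_le (X1 a p) ((zs f1 a : ℝ) : ℂ)
    rw [Complex.norm_real, Real.norm_of_nonneg (hzsnn a)] at h2
    exact h2
  have key := compare hκ hκe (coreCol_periodic w ord c 1) hper1 hper1
    (coreCol_bound w ord hG c hχ2) hb1 hb1 hL hL1 hL1 X (fun a p => ‖X1 a p‖)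
    (fun a p => ‖X1 a p‖) hC hY hY (fun _ _ => norm_nonneg _) (fun _ _ => norm_nonneg _) (by
      intro p0
      obtain ⟨p, hp, hodd, A, hA, d, ρ, hρ, hfin⟩ := hinf (max p0 3)
      have hp3 : 3 ≤ p := (le_max_right _ _).trans hp
      refine ⟨p, (le_max_left _ _).trans hp, hodd, fun a => ?_⟩
      have h1 := gal_bound hodd hA (Aj_prim (a := a) hodd) hρ hfin hw hwγ (w1_ne _) (w1_val hs) ho
        ord1_inj
      rw [Z_closed hg1, Z_closed hg1, norm_mul, norm_mul] at h1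
      have h2 : ‖X a p‖ ≤ ‖X1 a p‖ := le_of_mul_le_mul_left h1
        (norm_pos_iff.2 (Np_ne _ hodd hp3 (Aj_prim hodd)))
      rw [← sq]
      exact pow_le_pow_left₀ (norm_nonneg _) h2 2)
  have h3 : |L| ^ 2 ≤ ((c : ℝ) + 1) ^ 2 := by
    rw [sq_abs, sq ((c : ℝ) + 1)]
    exact key
  exact (sq_le_sq₀ (abs_nonneg L) (by positivity)).1 h3

end Pool.Agent.AMU.Lim
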