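import Pool.Agent.Lib.AMU.LimS2

/-!
# Row C14: the comparison of the leading terms
-/

set_option autoImplicit false

open Filter Topology

namespace Pool.Agent.AMU.Lim

/-- For every `a` take `p` large: `|Σ f| ≤ sqrt ((Σ f1 + C) (Σ f2 + C)) + C`; divide by `J ^ κ`,
`J = 4 * 2 ^ a`, and let `a → ∞` (`zeta_lim`). -/
theorem compare {κ : ℕ} (hκ : 2 ≤ κ) (hκe : Even κ) {f f1 f2 : ℝ → ℝ}
    (hper : ∀ x, f (x + 1) = f x) (hper1 : ∀ x, f1 (x + 1) = f1 x)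
    (hper2 : ∀ x, f2 (x + 1) = f2 x)
    (hb : ∀ δ : ℝ, 0 < δ → ∃ C : ℝ, ∀ x : ℝ, δ ≤ x → x ≤ 1 - δ → |f x| ≤ C)
    (hb1 : ∀ δ : ℝ, 0 < δ → ∃ C : ℝ, ∀ x : ℝ, δ ≤ x → x ≤ 1 - δ → |f1 x| ≤ C)
    (hb2 : ∀ δ : ℝ, 0 < δ → ∃ C : ℝ, ∀ x : ℝ, δ ≤ x → x ≤ 1 - δ → |f2 x| ≤ C)
    {L L1 L2 : ℝ} (hL : Tendsto (fun x : ℝ => x ^ κ * f x) (𝓝[≠] 0) (𝓝 L))
    (hL1 : Tendsto (fun x : ℝ => x ^ κ * f1 x) (𝓝[≠] 0) (𝓝 L1))
    (hL2 : Tendsto (fun x : ℝ => x ^ κ * f2 x) (𝓝[≠] 0) (𝓝 L2))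
    (X : ℕ → ℕ → ℂ) (Y1 Y2 : ℕ → ℕ → ℝ) {C C1 C2 : ℝ}
    (hX : ∀ a : ℕ, ∀ᶠ p : ℕ in atTop, Odd p →
      ‖X a p - ((zs f a : ℝ) : ℂ)‖ ≤ C)
    (hY1 : ∀ a : ℕ, ∀ᶠ p : ℕ in atTop, Odd p →
      |Y1 a p - zs f1 a| ≤ C1)
    (hY2 : ∀ a : ℕ, ∀ᶠ p : ℕ in atTop, Odd p →
      |Y2 a p - zs f2 a| ≤ C2)
    (h1 : ∀ a p, 0 ≤ Y1 a p) (h2 : ∀ a p, 0 ≤ Y2 a p)
    (hinf : ∀ p0 : ℕ, ∃ p, p0 ≤ p ∧ Odd p ∧ ∀ a, ‖X a p‖ ^ 2 ≤ Y1 a p * Y2 a p) :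
    L ^ 2 ≤ L1 * L2 := by
  have hζ0 := zeta_pos hκ
  have t0 := zeta_lim hκ hκe hper hb hL
  have t1 := zeta_lim hκ hκe hper1 hb1 hL1
  have t2 := zeta_lim hκ hκe hper2 hb2 hL2
  generalize (∑' k : ℕ, 1 / ((k : ℝ) + 1) ^ κ) = ζ at hζ0 t0 t1 t2
  obtain ⟨u, hu⟩ : ∃ u : ℕ → ℝ, ∀ a, u a = (((4 * 2 ^ a : ℕ) : ℝ) ^ κ)⁻¹ := ⟨_, fun _ => rfl⟩
  simp only [← hu] at t0 t1 t2
  have hu0 : Tendsto u atTop (𝓝 0) := by
    have h3 : Tendsto (fun a : ℕ => (((4 * 2 ^ a : ℕ) : ℝ) ^ κ)⁻¹) atTop (𝓝 0) := by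
      refine tendsto_inv_atTop_zero.comp ?_
      refine (tendsto_pow_atTop (by omega : κ ≠ 0)).comp ?_
      refine tendsto_natCast_atTop_atTop.comp ?_
      refine tendsto_atTop_mono (fun a => ?_) tendsto_id
      have : a < 2 ^ a := Nat.lt_two_pow_self
      show a ≤ 4 * 2 ^ a
      omega
    exact h3.congr fun a => (hu a).symm
  have hupos : ∀ a : ℕ, 0 ≤ u a := fun a => by
    rw [hu]
    positivity
  have key : ∀ a, zs f a ^ 2 ≤ (zs f1 a + C1) * (zs f2 a + C2) +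
      2 * C * (|zs f a| + C) + C ^ 2 := by
    intro a
    obtain ⟨p0, hp0⟩ := eventually_atTop.1 ((hX a).and ((hY1 a).and (hY2 a)))
    obtain ⟨p, hp, hodd, hle⟩ := hinf p0
    obtain ⟨e0, e1, e2⟩ := hp0 p hp
    replace e0 := e0 hodd
    replace e1 := e1 hodd
    replace e2 := e2 hodd
    have hC : 0 ≤ C := (norm_nonneg _).trans e0
    have hn : ‖((zs f a : ℝ) : ℂ)‖ = |zs f a| := by
      rw [Complex.norm_real, Real.norm_eq_abs]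
    have hx1 : |zs f a| ≤ ‖X a p‖ + C := by
      have h3 := norm_sub_norm_le ((zs f a : ℝ) : ℂ) (X a p)
      rw [norm_sub_rev, hn] at h3
      linarith
    have hx2 : ‖X a p‖ ≤ |zs f a| + C := by
      have h3 := norm_sub_norm_le (X a p) ((zs f a : ℝ) : ℂ)
      rw [hn] at h3
      linarith
    have hy : Y1 a p * Y2 a p ≤ (zs f1 a + C1) * (zs f2 a + C2) :=
      mul_le_mul (by linarith [(abs_le.1 e1).2]) (by linarith [(abs_le.1 e2).2]) (h2 a p)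
        (by linarith [h1 a p, (abs_le.1 e1).2])
    have hl := hle a
    have h4 : |zs f a| ^ 2 ≤ (‖X a p‖ + C) ^ 2 := pow_le_pow_left₀ (abs_nonneg _) hx1 2
    rw [sq_abs] at h4
    nlinarith [mul_le_mul_of_nonneg_left hx2 hC]
  have key2 : ∀ a, (u a * zs f a) ^ 2 ≤ (u a * zs f1 a + u a * C1) * (u a * zs f2 a + u a * C2) +
      2 * C * (u a * |u a * zs f a| + u a * (u a * C)) + (u a) ^ 2 * C ^ 2 := by
    intro a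
    have h3 := mul_le_mul_of_nonneg_left (key a) (sq_nonneg (u a))
    rw [abs_mul, abs_of_nonneg (hupos a)]
    nlinarith
  have lim1 : Tendsto (fun a => (u a * zs f a) ^ 2) atTop (𝓝 ((2 * ζ * L) ^ 2)) := t0.pow 2
  have lim2 : Tendsto (fun a => (u a * zs f1 a + u a * C1) * (u a * zs f2 a + u a * C2) +
      2 * C * (u a * |u a * zs f a| + u a * (u a * C)) + (u a) ^ 2 * C ^ 2) atTop
      (𝓝 ((2 * ζ * L1 + 0 * C1) * (2 * ζ * L2 + 0 * C2) +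
        2 * C * (0 * |2 * ζ * L| + 0 * (0 * C)) + 0 ^ 2 * C ^ 2)) :=
    (((t1.add (hu0.mul_const C1)).mul (t2.add (hu0.mul_const C2))).add
      (((hu0.mul t0.abs).add (hu0.mul (hu0.mul_const C))).const_mul (2 * C))).add
      ((hu0.pow 2).mul_const (C ^ 2))
  have h3 := le_of_tendsto_of_tendsto' lim1 lim2 key2
  have h4 : (2 * ζ) ^ 2 * L ^ 2 ≤ (2 * ζ) ^ 2 * (L1 * L2) := by nlinarith
  exact le_of_mul_le_mul_left h4 (by positivity)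

end Pool.Agent.AMU.Lim
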