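import Pool.Agent.Lib.AMU.LimW1

/-!
# Row C16: the state sum of the word `w1`
-/

set_option autoImplicit false

open Filter Topology

namespace Pool.Agent.AMU.Lim

variable {N : ℕ} {opp : ZMod N → ZMod N}

theorem W2_take_sum (s : List ℤ) (k : ℕ) : (s.take k).sum = ∑ i ∈ Finset.range k, s.getD i 0 := by
  induction k with
  | zero => simp
  | succ k ih =>
    rw [List.take_add_one, List.sum_append, ih, Finset.sum_range_succ]
    congr 1
    cases h : s[k]? with
    | none => simp [List.getD, h]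
    | some a => simp [List.getD, h]

theorem W2_lev (s : List ℤ) (k : ℕ) : lev s k = ∑ i ∈ Finset.range k, s.getD i 0 :=
  W2_take_sum s k

/-- The lists of steps with nonzero amplitude. -/
structure W2Good (m : ℕ) (e : ℕ → ℤ) (s : List ℤ) : Prop where
  len : s.length = 4 * m
  a1 : ∀ i < m, s.getD i 0 = e i
  a2 : ∀ i < m, s.getD (2 * m - 1 - i) 0 = -e i
  a3 : ∀ i < m, s.getD (2 * m + i) 0 = e i
  a4 : ∀ i < m, s.getD (4 * m - 1 - i) 0 = -e i

namespace W2Good

variable {m : ℕ} {e : ℕ → ℤ} {s : List ℤ}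

theorem l1 (h : W2Good m e s) {k : ℕ} (hk : k ≤ m) : lev s k = ∑ i ∈ Finset.range k, e i := by
  rw [W2_lev]
  refine Finset.sum_congr rfl fun i hi => h.a1 i ?_
  have := Finset.mem_range.1 hi
  omega

theorem l2 (h : W2Good m e s) {j : ℕ} (hj : j ≤ m) :
    lev s (m + j) = ∑ i ∈ Finset.range (m - j), e i := by
  induction j with
  | zero => exact h.l1 le_rfl
  | succ j ih =>
    have h1 := ih (by omega)
    have h2 := h.a2 (m - 1 - j) (by omega)
    rw [show 2 * m - 1 - (m - 1 - j) = m + j by omega] at h2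
    rw [show m + (j + 1) = m + j + 1 by ring, W2_lev, Finset.sum_range_succ, ← W2_lev, h1, h2,
      show m - j = (m - 1 - j) + 1 by omega, Finset.sum_range_succ,
      show m - (j + 1) = m - 1 - j by omega]
    ring

theorem l3 (h : W2Good m e s) {j : ℕ} (hj : j ≤ m) :
    lev s (2 * m + j) = ∑ i ∈ Finset.range j, e i := by
  induction j with
  | zero =>
    have := h.l2 (le_refl m)
    rw [Nat.sub_self, ← two_mul] at this
    simpa using this
  | succ j ih =>
    rw [show 2 * m + (j + 1) = 2 * m + j + 1 by ring, W2_lev, Finset.sum_range_succ, ← W2_lev,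
      ih (by omega), h.a3 j (by omega), Finset.sum_range_succ]

theorem l4 (h : W2Good m e s) {j : ℕ} (hj : j ≤ m) :
    lev s (3 * m + j) = ∑ i ∈ Finset.range (m - j), e i := by
  induction j with
  | zero =>
    have := h.l3 (le_refl m)
    rw [show 3 * m + 0 = 2 * m + m by ring, this, Nat.sub_zero]
  | succ j ih =>
    have h1 := ih (by omega)
    have h2 := h.a4 (m - 1 - j) (by omega)
    rw [show 4 * m - 1 - (m - 1 - j) = 3 * m + j by omega] at h2
    rw [show 3 * m + (j + 1) = 3 * m + j + 1 by ring, W2_lev, Finset.sum_range_succ, ← W2_lev, h1,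
      h2, show m - j = (m - 1 - j) + 1 by omega, Finset.sum_range_succ,
      show m - (j + 1) = m - 1 - j by omega]
    ring

theorem l0 (_h : W2Good m e s) : lev s 0 = 0 := by simp [lev]

theorem l2m (h : W2Good m e s) : lev s (2 * m) = 0 := by
  have := h.l3 (Nat.zero_le m)
  simpa using this

theorem l4m (h : W2Good m e s) : lev s (4 * m) = 0 := by
  have := h.l4 (le_refl m)
  rw [Nat.sub_self] at this
  rw [show 4 * m = 3 * m + m by ring, this]
  simp

theorem sum (h : W2Good m e s) : s.sum = 0 := by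
  have := h.l4m
  rw [lev, List.take_of_length_le (by rw [h.len])] at this
  exact this

theorem corner (h : W2Good m e s) (hG : Glue opp) {j : ℕ} (hj : j ≤ N) :
    lev s (corner opp (w1 opp) (ends (chords (w1 opp) m)) j) = 0 := by
  rw [corner_w1 m hG j hj]
  split_ifs
  · exact h.l0
  · exact h.l2m
  · exact h.l4m

theorem adm (h : W2Good m e s) (hG : Glue opp) (ok : ℤ → Prop)
    (hok : ∀ i ≤ s.length, ok (lev s i)) : CoreAdm opp (w1 opp) ord1 m ok s := by
  refine ⟨hok, h.sum, fun j hj => h.corner hG hj.le, fun k hk u hu => ?_⟩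
  obtain ⟨r1, r2, r3, r4⟩ := rank_w1 m hG hu
  have hk2 : k < 2 := hk
  interval_cases k
  · rw [r1, r4]
    have e1 := h.a1 (m - 1 - u) (by omega)
    have e2 := h.a4 (m - 1 - u) (by omega)
    rw [show 4 * m - 1 - (m - 1 - u) = 3 * m + u by omega] at e2
    rw [e1, e2, neg_neg]
  · rw [r3, r2]
    have e1 := h.a3 (m - 1 - u) (by omega)
    have e2 := h.a2 (m - 1 - u) (by omega)
    rw [show 2 * m + (m - 1 - u) = 3 * m - 1 - u by omega] at e1
    rw [show 2 * m - 1 - (m - 1 - u) = m + u by omega] at e2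
    rw [e1, e2, neg_neg]

theorem cond (h : W2Good m e s) : ∀ i < m, s.getD i 0 + s.getD (2 * m - 1 - i) 0 = 0 ∧
    s.getD (2 * m + i) 0 + s.getD (4 * m - 1 - i) 0 = 0 := by
  intro i hi
  rw [h.a1 i hi, h.a2 i hi, h.a3 i hi, h.a4 i hi]
  exact ⟨by ring, by ring⟩

end W2Good

/-- The weight of a good list. -/
theorem W2_weight {K : Type} [Field K] (hG : Glue opp) {m : ℕ} {e : ℕ → ℤ} {s : List ℤ}
    (h : W2Good m e s) (d : ℤ → K) (hd : ∀ x, d x ≠ 0) (A : K) (E : ℤ) :
    d 0 ^ E *
      (∏ i ∈ (Finset.range N).filter (fun i : ℕ => i < (opp (i : ZMod N)).val),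
        ∏ j ∈ Finset.Icc (corner opp (w1 opp) (ends (chords (w1 opp) m)) i)
          (corner opp (w1 opp) (ends (chords (w1 opp) m)) (i + 1)), (d (lev s j))⁻¹) *
      amp d A (rank opp (w1 opp) ord1) (chords (w1 opp) m) 0 s =
    d 0 ^ (E - (canonN opp).card) * d (∑ i ∈ Finset.range m, e i) := by
  have hN : 0 < N := hG.pos
  have : NeZero N := ⟨hN.ne'⟩
  have h0 : 0 < (opp 0).val := by
    rcases Nat.eq_zero_or_pos (opp 0).val with h0 | h0
    · exact absurd ((ZMod.val_eq_zero _).1 h0) (hG.ne 0)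
    · exact h0
  have hmem : 0 ∈ canonN opp := by
    simp only [canonN, Finset.mem_filter, Finset.mem_range]
    exact ⟨hN, by simpa using h0⟩
  rw [amp_w1 m hG d A 0 s h.len, if_pos h.cond]
  change d 0 ^ E * (∏ i ∈ canonN opp, _) * _ = _
  rw [← Finset.mul_prod_erase _ _ hmem]
  -- other canonical sides
  have hoth : ∀ i ∈ (canonN opp).erase 0,
      ∏ j ∈ Finset.Icc (corner opp (w1 opp) (ends (chords (w1 opp) m)) i)
          (corner opp (w1 opp) (ends (chords (w1 opp) m)) (i + 1)), (d (lev s j))⁻¹ = (d 0)⁻¹ := by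
    intro i hi
    rw [Finset.mem_erase] at hi
    obtain ⟨hi0, hi⟩ := hi
    simp only [canonN, Finset.mem_filter, Finset.mem_range] at hi
    have hne : i ≠ (opp 0).val := by
      intro hcon
      have h3 := hi.2
      rw [hcon, ZMod.natCast_zmod_val, hG.inv, ZMod.val_zero] at h3
      omega
    have heq : corner opp (w1 opp) (ends (chords (w1 opp) m)) (i + 1) =
        corner opp (w1 opp) (ends (chords (w1 opp) m)) i := by
      rw [corner_w1 m hG i hi.1.le, corner_w1 m hG (i + 1) hi.1, if_neg (by omega), if_neg hi0]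
      by_cases h4 : i ≤ (opp 0).val
      · rw [if_pos h4, if_pos (by omega)]
      · rw [if_neg h4, if_neg (by omega)]
    rw [heq, Finset.Icc_self, Finset.prod_singleton, h.corner hG hi.1.le]
  rw [Finset.prod_congr rfl hoth, Finset.prod_const, Finset.card_erase_of_mem hmem]
  have hc0 : corner opp (w1 opp) (ends (chords (w1 opp) m)) 0 = 0 := by
    rw [corner_w1 m hG 0 (Nat.zero_le _), if_pos rfl]
  have hc1 : corner opp (w1 opp) (ends (chords (w1 opp) m)) (0 + 1) = 2 * m := by
    rw [corner_w1 m hG (0 + 1) hN, if_neg (by omega), if_pos (by omega)]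
  rw [hc0, hc1]
  set g : ℕ → K := fun k => d (∑ i ∈ Finset.range k, e i) with hg
  have hg0 : ∀ k, g k ≠ 0 := fun k => hd _
  have hI : ∏ j ∈ Finset.Icc 0 (2 * m), (d (lev s j))⁻¹ =
      (∏ j ∈ Finset.range m, g j)⁻¹ * (∏ j ∈ Finset.range (m + 1), g j)⁻¹ := by
    rw [show Finset.Icc 0 (2 * m) = Finset.range (m + (m + 1)) by
      ext x; simp only [Finset.mem_Icc, Finset.mem_range]; omega]
    rw [Finset.prod_range_add, ← Finset.prod_inv_distrib, ← Finset.prod_inv_distrib]
    congr 1
    · refine Finset.prod_congr rfl fun j hj => ?_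
      rw [h.l1 (Finset.mem_range.1 hj).le]
    · rw [← Finset.prod_range_reflect]
      refine Finset.prod_congr rfl fun j hj => ?_
      have hj' := Finset.mem_range.1 hj
      rw [show m + 1 - 1 - j = m - j by omega, h.l2 (by omega)]
      rw [show m - (m - j) = j by omega]
  have hA : ∏ i ∈ Finset.range m, (d (col 0 s (i + 1)) * d (col 0 s (2 * m + i + 1))) =
      (∏ i ∈ Finset.range m, g (i + 1)) * ∏ i ∈ Finset.range m, g (i + 1) := by
    rw [← Finset.prod_mul_distrib]
    refine Finset.prod_congr rfl fun i hi => ?_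
    have hi' := Finset.mem_range.1 hi
    have e1 := h.l1 (show i + 1 ≤ m by omega)
    have e2 := h.l3 (show i + 1 ≤ m by omega)
    rw [lev] at e1 e2
    rw [col, col, zero_add, zero_add, e1, show 2 * m + i + 1 = 2 * m + (i + 1) by ring, e2]
  rw [hI, hA]
  have hs1 : ∏ j ∈ Finset.range (m + 1), g j = (∏ i ∈ Finset.range m, g (i + 1)) * g 0 :=
    Finset.prod_range_succ' g m
  have hs2 : ∏ j ∈ Finset.range (m + 1), g j = (∏ j ∈ Finset.range m, g j) * g m :=
    Finset.prod_range_succ g m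
  have hP1 : ∏ j ∈ Finset.range m, g j ≠ 0 := Finset.prod_ne_zero_iff.2 fun _ _ => hg0 _
  have hP2 : ∏ i ∈ Finset.range m, g (i + 1) ≠ 0 := Finset.prod_ne_zero_iff.2 fun _ _ => hg0 _
  have hg00 : g 0 = d 0 := by simp [hg]
  have hcard : (canonN opp).card = ((canonN opp).card - 1) + 1 := by
    have := Finset.card_pos.2 ⟨0, hmem⟩
    omega
  have hgm : d (∑ i ∈ Finset.range m, e i) = g m := rfl
  have hrel : (∏ i ∈ Finset.range m, g (i + 1)) * d 0 = (∏ j ∈ Finset.range m, g j) * g m := by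
    rw [← hs2, hs1, hg00]
  rw [hgm, hs2]
  have hd0 := hd 0
  have hgm0 := hg0 m
  have hz : d 0 ^ (E - ((canonN opp).card : ℤ)) = d 0 ^ E * ((d 0)⁻¹ ^ ((canonN opp).card - 1)) *
      (d 0)⁻¹ := by
    rw [zpow_sub₀ hd0, zpow_natCast, div_eq_mul_inv, ← inv_pow]
    conv_lhs => rw [hcard, pow_succ]
    ring
  rw [hz]
  generalize (∏ i ∈ Finset.range m, g (i + 1)) = a at hrel hP2 ⊢
  generalize (∏ j ∈ Finset.range m, g j) = b at hrel hP1 ⊢
  generalize d 0 ^ E = D
  generalize (d 0)⁻¹ ^ ((canonN opp).card - 1) = D'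
  field_simp
  linear_combination (D * D' * (a * d 0 + b * g m)) * hrel

theorem W2_getD_ofFn {n : ℕ} (f : Fin n → ℤ) (i : ℕ) :
    (List.ofFn f).getD i 0 = if h : i < n then f ⟨i, h⟩ else 0 := by
  rw [List.getD_eq_getElem?_getD, List.getElem?_ofFn]
  split_ifs with h <;> simp

/-- The colouring of the strands. -/
def W2Phi (opp : ZMod N → ZMod N) (m : ℕ) (ε : Fin m → Bool)
    (i : Fin (2 * ((w1 opp).length * m))) : Bool :=
  if h1 : (i : ℕ) < m then ε ⟨i, h1⟩
  else if h2 : (i : ℕ) < 2 * m then !(ε ⟨2 * m - 1 - i, by omega⟩)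
  else if h3 : (i : ℕ) < 3 * m then ε ⟨i - 2 * m, by omega⟩
  else !(ε ⟨4 * m - 1 - i, by
    have h4 : (i : ℕ) < 2 * (2 * m) := i.2
    omega⟩)

/-- The signs as a function of the position. -/
def W2e {m : ℕ} (ε : Fin m → Bool) (i : ℕ) : ℤ := if h : i < m then sgn (ε ⟨i, h⟩) else 0

theorem W2_good (m : ℕ) (ε : Fin m → Bool) :
    W2Good m (W2e ε) (List.ofFn fun i => sgn (W2Phi opp m ε i)) := by
  have hl : 2 * ((w1 opp).length * m) = 4 * m := by
    show 2 * (2 * m) = 4 * m
    ring
  refine ⟨by rw [List.length_ofFn, hl], fun i hi => ?_, fun i hi => ?_, fun i hi => ?_,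
    fun i hi => ?_⟩
  · rw [W2_getD_ofFn, dif_pos (by rw [hl]; omega)]
    simp only [W2Phi, W2e, hi, dif_pos]
  · rw [W2_getD_ofFn, dif_pos (by rw [hl]; omega)]
    have e1 : 2 * m - 1 - (2 * m - 1 - i) = i := by omega
    simp only [W2Phi, W2e]
    rw [dif_neg (by omega), dif_pos (by omega), dif_pos hi]
    simp only [e1]
    cases ε ⟨i, hi⟩ <;> rfl
  · rw [W2_getD_ofFn, dif_pos (by rw [hl]; omega)]
    have e1 : 2 * m + i - 2 * m = i := by omega
    simp only [W2Phi, W2e]
    rw [dif_neg (by omega), dif_neg (by omega), dif_pos (by omega), dif_pos hi]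
    simp only [e1]
  · rw [W2_getD_ofFn, dif_pos (by rw [hl]; omega)]
    have e1 : 4 * m - 1 - (4 * m - 1 - i) = i := by omega
    simp only [W2Phi, W2e]
    rw [dif_neg (by omega), dif_neg (by omega), dif_neg (by omega), dif_pos hi]
    simp only [e1]
    cases ε ⟨i, hi⟩ <;> rfl

theorem W2_sgn_inj {a b : Bool} (h : sgn a = sgn b) : a = b := by
  cases a <;> cases b <;> first | rfl | (exact absurd h (by decide))

theorem W2_sgn_neg {a b : Bool} (h : sgn a + sgn b = 0) : b = !a := by
  cases a <;> cases b <;> first | rfl | (exact absurd h (by decide))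

theorem W2_Phi_inj (m : ℕ) : Function.Injective (W2Phi opp m) := by
  intro ε ε' h
  funext i
  have h1 := congrFun h ⟨i, by
    show (i : ℕ) < 2 * (2 * m)
    omega⟩
  simpa [W2Phi] using h1

/-- The colourings with nonzero contribution. -/
theorem W2_mem_range (hG : Glue opp) (m : ℕ) (b : Fin (2 * ((w1 opp).length * m)) → Bool)
    (ok : ℤ → Prop) (hadm : CoreAdm opp (w1 opp) ord1 m ok (List.ofFn fun i => sgn (b i)))
    (hc : ∀ i < m, (List.ofFn fun i => sgn (b i)).getD i 0 +
        (List.ofFn fun i => sgn (b i)).getD (2 * m - 1 - i) 0 = 0 ∧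
      (List.ofFn fun i => sgn (b i)).getD (2 * m + i) 0 +
        (List.ofFn fun i => sgn (b i)).getD (4 * m - 1 - i) 0 = 0) :
    b ∈ Set.range (W2Phi opp m) := by
  have hl : 2 * ((w1 opp).length * m) = 4 * m := by
    show 2 * (2 * m) = 4 * m
    ring
  have hget : ∀ (i : ℕ) (hi : i < 4 * m), (List.ofFn fun i => sgn (b i)).getD i 0 =
      sgn (b ⟨i, by rw [hl]; exact hi⟩) := by
    intro i hi
    rw [W2_getD_ofFn, dif_pos (by rw [hl]; exact hi)]
  have hr : ∀ i (hi : i < m), sgn (b ⟨i, by rw [hl]; omega⟩) +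
      sgn (b ⟨4 * m - 1 - i, by rw [hl]; omega⟩) = 0 := by
    intro i hi
    obtain ⟨r1, r2, r3, r4⟩ := rank_w1 m hG (show m - 1 - i < m by omega)
    have h1 := hadm.2.2.2 0 (by show 0 < 2; omega) (m - 1 - i) (by omega)
    rw [r1, r4, show m - 1 - (m - 1 - i) = i by omega,
      show 3 * m + (m - 1 - i) = 4 * m - 1 - i by omega, hget i (by omega),
      hget _ (by omega)] at h1
    rw [h1]; ring
  refine ⟨fun i => b ⟨i, by rw [hl]; omega⟩, ?_⟩
  funext ⟨i, hi⟩
  rw [hl] at hi
  simp only [W2Phi]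
  split_ifs with h1 h2 h3
  · rfl
  · have h4 := (hc (2 * m - 1 - i) (by omega)).1
    rw [show 2 * m - 1 - (2 * m - 1 - i) = i by omega, hget _ (by omega), hget _ (by omega)] at h4
    exact (W2_sgn_neg h4).symm
  · have h4 := (hc (i - 2 * m) (by omega)).2
    rw [show 2 * m + (i - 2 * m) = i by omega, hget _ (by omega), hget _ (by omega)] at h4
    have h5 := hr (i - 2 * m) (by omega)
    exact W2_sgn_inj (by linarith)
  · have h5 := hr (4 * m - 1 - i) (by omega)
    have h6 := W2_sgn_neg h5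
    simp only [show 4 * m - 1 - (4 * m - 1 - i) = i by omega] at h6
    exact h6.symm

/-- The states with nonzero amplitude are `(ε, -ε reversed, ε, -ε reversed)`, `ε` a list of `m`
signs, with the weight `d 0 ^ (e - r) * d (Σ ε)`, `r = card (canonN opp)`; for `m` even
`d (Σ ε) = y + Σ ε`, and the sum over `ε` is `2 ^ m * y`. -/
theorem core_w1 (hG : Glue opp) {m : ℕ} (hm : Even m) (e : ℤ) {y : ℝ}
    (hy : ∀ s : ℤ, y + s ≠ 0) :
    core opp (w1 opp) ord1 m e y = 2 ^ m * y ^ chiT opp e := by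
  classical
  unfold core coreG
  set d : ℤ → ℝ := fun s => (-1) ^ s * (y + s) with hd
  have hd0 : ∀ s, d s ≠ 0 := fun s => mul_ne_zero (zpow_ne_zero _ (by norm_num)) (hy s)
  have hd00 : d 0 = y := by simp [hd]
  have key := Fintype.sum_of_injective (W2Phi opp m) (W2_Phi_inj m)
    (fun ε => d 0 ^ (e - (canonN opp).card) * d (∑ i ∈ Finset.range m, W2e ε i))
    (fun b => if CoreAdm opp (w1 opp) ord1 m (fun _ => True) (List.ofFn fun i => sgn (b i)) then
      d 0 ^ e *
      (∏ i ∈ (Finset.range N).filter (fun i : ℕ => i < (opp (i : ZMod N)).val),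
        ∏ j ∈ Finset.Icc (corner opp (w1 opp) (ends (chords (w1 opp) m)) i)
          (corner opp (w1 opp) (ends (chords (w1 opp) m)) (i + 1)),
            (d (lev (List.ofFn fun i => sgn (b i)) j))⁻¹) *
      (∏ u ∈ Finset.range m, ((1 : ℝ) / 1)) *
      amp d (-1) (rank opp (w1 opp) ord1) (chords (w1 opp) m) 0 (List.ofFn fun i => sgn (b i))
    else 0) ?_ ?_
  · rw [← key]
    have hval : ∀ ε : Fin m → Bool, d (∑ i ∈ Finset.range m, W2e ε i) =
        y + ((∑ i : Fin m, sgn (ε i) : ℤ) : ℝ) := by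
      intro ε
      have h1 : ∑ i ∈ Finset.range m, W2e ε i = ∑ i : Fin m, sgn (ε i) := by
        rw [Finset.sum_range]
        refine Finset.sum_congr rfl fun i _ => ?_
        simp [W2e]
      rw [h1]
      have h2 : Even (∑ i : Fin m, sgn (ε i)) := by
        have h3 : ∀ i : Fin m, Even (sgn (ε i) - 1) := by
          intro i
          cases ε i <;> decide
        have h4 : Even (∑ i : Fin m, (sgn (ε i) - 1)) := by
          refine Finset.sum_induction _ Even (fun _ _ => Even.add) (by simp) fun i _ => h3 i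
        rw [Finset.sum_sub_distrib] at h4
        simp only [Finset.sum_const, Finset.card_univ, Fintype.card_fin, nsmul_eq_mul,
          mul_one] at h4
        have h5 : Even ((m : ℕ) : ℤ) := by exact_mod_cast hm
        have := h4.add h5
        simpa using this
      simp only [hd]
      rw [h2.neg_one_zpow, one_mul]
    simp_rw [hval]
    rw [← Finset.mul_sum, Finset.sum_add_distrib, Finset.sum_const, Finset.card_univ]
    have hflip : ∑ ε : Fin m → Bool, ((∑ i : Fin m, sgn (ε i) : ℤ) : ℝ) = 0 := by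
      have h1 : ∑ ε : Fin m → Bool, ((∑ i : Fin m, sgn (ε i) : ℤ) : ℝ) =
          ∑ ε : Fin m → Bool, ((∑ i : Fin m, sgn (!(ε i)) : ℤ) : ℝ) := by
        refine Finset.sum_nbij' (fun ε i => !(ε i)) (fun ε i => !(ε i)) ?_ ?_ ?_ ?_ ?_ <;>
          intros <;> simp
      have h2 : ∑ ε : Fin m → Bool, ((∑ i : Fin m, sgn (!(ε i)) : ℤ) : ℝ) =
          -∑ ε : Fin m → Bool, ((∑ i : Fin m, sgn (ε i) : ℤ) : ℝ) := by
        rw [← Finset.sum_neg_distrib]
        refine Finset.sum_congr rfl fun ε _ => ?_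
        have : ∑ i : Fin m, sgn (!(ε i)) = -∑ i : Fin m, sgn (ε i) := by
          rw [← Finset.sum_neg_distrib]
          refine Finset.sum_congr rfl fun i _ => ?_
          cases ε i <;> rfl
        rw [this]; push_cast; ring
      linarith
    rw [hflip, add_zero, hd00]
    simp only [Fintype.card_pi, Fintype.card_bool, Finset.prod_const, Finset.card_univ,
      Fintype.card_fin, nsmul_eq_mul]
    have hy0 : y ≠ 0 := by have := hy 0; simpa using this
    rw [chiT, show e + 1 - ((canonN opp).card : ℤ) = (e - (canonN opp).card) + 1 by ring,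
      zpow_add_one₀ hy0]
    push_cast
    ring
  · intro b hb
    by_cases hadm : CoreAdm opp (w1 opp) ord1 m (fun _ => True) (List.ofFn fun i => sgn (b i))
    · rw [if_pos hadm, amp_w1 m hG d (-1) 0 _ (by
        rw [List.length_ofFn]
        show 2 * (2 * m) = 4 * m
        ring), if_neg, mul_zero]
      intro hc
      exact hb (W2_mem_range hG m b _ hadm hc)
    · rw [if_neg hadm]
  · intro ε
    have hg := W2_good (opp := opp) m ε
    rw [if_pos (hg.adm hG _ fun _ _ => trivial), ← W2_weight hG hg d hd0 (-1) e]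
    simp

private noncomputable def W2U (c : ℕ) : ℝ :=
  ∑ i ∈ Finset.range (c + 1), (-1) ^ i * ((c - i).choose i : ℝ) * 2 ^ (c - 2 * i)

private theorem W2U_eq (c n : ℕ) (hn : c / 2 < n) :
    ∑ i ∈ Finset.range n, (-1) ^ i * ((c - i).choose i : ℝ) * 2 ^ (c - 2 * i) = W2U c := by
  have key : ∀ k, c / 2 < k → ∑ i ∈ Finset.range k,
      (-1) ^ i * ((c - i).choose i : ℝ) * (2 : ℝ) ^ (c - 2 * i) =
      ∑ i ∈ Finset.range (c / 2 + 1), (-1) ^ i * ((c - i).choose i : ℝ) * 2 ^ (c - 2 * i) := by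
    intro k hk
    symm
    refine Finset.sum_subset (Finset.range_subset_range.2 hk) fun i _ hi => ?_
    rw [Finset.mem_range, not_lt] at hi
    rw [Nat.choose_eq_zero_of_lt (by omega)]
    simp
  rw [key n hn, W2U, key (c + 1) (by omega)]

private theorem W2U_rec (c : ℕ) : W2U (c + 2) = 2 * W2U (c + 1) - W2U c := by
  rw [← W2U_eq (c + 2) (c + 3) (by omega), ← W2U_eq (c + 1) (c + 3) (by omega),
    ← W2U_eq c (c + 2) (by omega)]
  rw [Finset.sum_range_succ' _ (c + 2), Finset.sum_range_succ' _ (c + 2)]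
  have h1 : ∀ i ∈ Finset.range (c + 2),
      (-1) ^ (i + 1) * ((c + 2 - (i + 1)).choose (i + 1) : ℝ) *
        (2 : ℝ) ^ (c + 2 - 2 * (i + 1)) =
      2 * ((-1) ^ (i + 1) * ((c + 1 - (i + 1)).choose (i + 1) : ℝ) *
        2 ^ (c + 1 - 2 * (i + 1))) -
      (-1) ^ i * ((c - i).choose i : ℝ) * 2 ^ (c - 2 * i) := by
    intro i _
    by_cases hi : c < 2 * i
    · rw [Nat.choose_eq_zero_of_lt (show c + 2 - (i + 1) < i + 1 by omega),
        Nat.choose_eq_zero_of_lt (show c + 1 - (i + 1) < i + 1 by omega),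
        Nat.choose_eq_zero_of_lt (show c - i < i by omega)]
      simp
    · have e1 : c + 2 - (i + 1) = (c - i) + 1 := by omega
      have e2 : c + 1 - (i + 1) = c - i := by omega
      have e3 : c + 2 - 2 * (i + 1) = c - 2 * i := by omega
      rw [e1, e2, e3, Nat.choose_succ_succ]
      by_cases hi2 : c = 2 * i
      · rw [Nat.choose_eq_zero_of_lt (show c - i < i + 1 by omega)]
        push_cast
        ring
      · rw [show c - 2 * i = (c + 1 - 2 * (i + 1)) + 1 by omega, pow_succ]
        push_cast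
        ring
  rw [Finset.sum_congr rfl h1, Finset.sum_sub_distrib, ← Finset.mul_sum]
  have h2 : (2 : ℝ) ^ (c + 2 - 2 * 0) = 2 * 2 ^ (c + 1 - 2 * 0) := by
    rw [show c + 2 - 2 * 0 = (c + 1 - 2 * 0) + 1 by omega, pow_succ]; ring
  rw [h2]
  simp
  ring

private theorem W2U_val (c : ℕ) : W2U c = c + 1 ∧ W2U (c + 1) = c + 2 := by
  induction c with
  | zero => constructor <;> simp [W2U, Finset.sum_range_succ]
  | succ c ih =>
    refine ⟨?_, ?_⟩
    · rw [ih.2]; push_cast; ring
    · rw [W2U_rec, ih.1, ih.2]; push_cast; ring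

/-- `Σ (-1)^i C(c-i,i) 2^(c-2i) = c + 1` (Chebyshev polynomials of the second kind at `1`). -/
theorem colComb_two (c : ℕ) : colComb c (fun m => (2 : ℝ) ^ m) = c + 1 := by
  rw [colComb, W2U_eq c _ (by omega)]
  exact (W2U_val c).1

theorem colComb_core_w1 (hG : Glue opp) {c : ℕ} (hc : Even c) (e : ℤ) {y : ℝ}
    (hy : ∀ s : ℤ, y + s ≠ 0) :
    (colComb c fun m => core opp (w1 opp) ord1 m e y) = (c + 1) * y ^ chiT opp e := by
  rw [← colComb_two c, colComb, colComb, Finset.sum_mul]
  refine Finset.sum_congr rfl fun i _ => ?_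
  have hm : Even (c - 2 * i) := by
    rcases le_or_gt (2 * i) c with h | h
    · rw [Nat.even_sub h]
      simp [hc]
    · rw [Nat.sub_eq_zero_of_le h.le]
      exact Even.zero
  rw [core_w1 hG hm e hy]
  ring

end Pool.Agent.AMU.Lim
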