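import Pool.Agent.Lib.AMU.LimDefs

/-!
# Row P1: orthogonality
-/

set_option autoImplicit false

open Filter Topology

namespace Pool.Agent.AMU.Lim

private theorem P1_ne_zero {p : ℕ} (hp : Odd p) {A : ℂ} (hA : IsPrimitiveRoot A (2 * p)) :
    A ≠ 0 := by
  refine hA.ne_zero ?_
  have := hp.pos
  omega

private theorem P1_per {p : ℕ} {A : ℂ} (hA : IsPrimitiveRoot A (2 * p)) (k : ℤ) :
    A ^ (2 * (p : ℤ) * k) = 1 := by
  rw [zpow_mul]
  have : A ^ (2 * (p : ℤ)) = 1 := by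
    have h := hA.pow_eq_one
    rw [← zpow_natCast] at h
    push_cast at h
    exact h
  rw [this, one_zpow]

/-- The sum over all residues. -/
private theorem P1_geom {p : ℕ} (hp : Odd p) {A : ℂ} (hA : IsPrimitiveRoot A (2 * p)) (k : ℤ) :
    ∑ a ∈ Finset.range p, A ^ (2 * (a : ℤ) * k) = if (p : ℤ) ∣ k then (p : ℂ) else 0 := by
  have hpow : ∀ a : ℕ, A ^ (2 * (a : ℤ) * k) = (A ^ (2 * k)) ^ a := by
    intro a
    rw [← zpow_natCast, ← zpow_mul]
    congr 1
    ring
  simp only [hpow]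
  split_ifs with h
  · obtain ⟨l, rfl⟩ := h
    have : A ^ (2 * ((p : ℤ) * l)) = 1 := by
      have := P1_per hA l
      rwa [mul_assoc] at this
    simp [this]
  · have hne : A ^ (2 * k) ≠ 1 := by
      intro h1
      rw [hA.zpow_eq_one_iff_dvd] at h1
      push_cast at h1
      exact h (Int.dvd_of_mul_dvd_mul_left (by norm_num) h1)
    rw [geom_sum_eq hne]
    have : (A ^ (2 * k)) ^ p = 1 := by
      rw [← zpow_natCast, ← zpow_mul]
      have := P1_per hA k
      rw [← this]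
      congr 1
      ring
    rw [this]
    simp

/-- Even functions of period `p`. -/
private theorem P1_half {p : ℕ} (hp : Odd p) (f : ℕ → ℂ) (h0 : f 0 = 0)
    (hf : ∀ a, a ≤ p → f (p - a) = f a) :
    ∑ a ∈ Finset.range p, f a = 2 * ∑ a ∈ (Finset.range p).filter Odd, f a := by
  have h1 := Finset.sum_filter_add_sum_filter_not (Finset.range p) (fun a => Odd a) f
  have h2 : ∑ a ∈ (Finset.range p).filter (fun a => ¬ Odd a), f a =
      ∑ a ∈ (Finset.range p).filter Odd, f a := by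
    have h3 : ∑ a ∈ (Finset.range p).filter (fun a => ¬ Odd a), f a =
        ∑ a ∈ (Finset.range p).filter (fun a => ¬ Odd a ∧ a ≠ 0), f a := by
      symm
      refine Finset.sum_subset ?_ ?_
      · intro a ha
        rw [Finset.mem_filter] at ha ⊢
        exact ⟨ha.1, ha.2.1⟩
      · intro a ha hna
        rw [Finset.mem_filter] at ha hna
        by_cases ha0 : a = 0
        · rw [ha0, h0]
        · exact absurd ⟨ha.1, ha.2, ha0⟩ hna
    rw [h3]
    refine Finset.sum_nbij' (fun a => p - a) (fun a => p - a) ?_ ?_ ?_ ?_ ?_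
    · intro a ha
      rw [Finset.mem_filter, Finset.mem_range] at ha ⊢
      obtain ⟨h4, h5, h6⟩ := ha
      rw [Nat.not_odd_iff_even] at h5
      exact ⟨by omega, Nat.Odd.sub_even h4.le hp h5⟩
    · intro a ha
      rw [Finset.mem_filter, Finset.mem_range] at ha ⊢
      obtain ⟨h4, h5⟩ := ha
      have : 0 < a := h5.pos
      refine ⟨by omega, ?_, by omega⟩
      rw [Nat.not_odd_iff_even]
      exact Nat.Odd.sub_odd hp h5
    · intro a ha
      rw [Finset.mem_filter, Finset.mem_range] at ha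
      show p - (p - a) = a
      omega
    · intro a ha
      rw [Finset.mem_filter, Finset.mem_range] at ha
      show p - (p - a) = a
      omega
    · intro a ha
      rw [Finset.mem_filter, Finset.mem_range] at ha
      exact (hf a (by omega)).symm
  rw [← h1, h2]
  ring

/-- `Σ over odd a < p = (1/2) Σ over a mod p` of `(ω^(an) - ω^(-an)) (ω^(an') - ω^(-an'))`,
`ω = A ^ 2`. -/
theorem smat_orth {p : ℕ} (hp : Odd p) {A : ℂ} (hA : IsPrimitiveRoot A (2 * p)) {n n' : ℕ}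
    (hn : 0 < n) (hnp : n < p) (hn' : 0 < n') (hnp' : n' < p) :
    ∑ a ∈ (Finset.range p).filter Odd, smat A a n * smat A a n' =
      kap A p * ((if n = n' then 1 else 0) + (if n + n' = p then 1 else 0)) := by
  have hA0 := P1_ne_zero hp hA
  obtain ⟨f, hf⟩ : ∃ f : ℕ → ℂ, f = fun a : ℕ =>
      (A ^ (2 * (a : ℤ) * n) - A ^ (-(2 * (a : ℤ) * n))) *
        (A ^ (2 * (a : ℤ) * n') - A ^ (-(2 * (a : ℤ) * n'))) := ⟨_, rfl⟩
  have hterm : ∀ a : ℕ, smat A a n * smat A a n' =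
      (-1) ^ ((n : ℤ) + n') / (A ^ (2 : ℤ) - A ^ (-2 : ℤ)) ^ 2 * f a := by
    intro a
    rw [hf]
    unfold smat
    have hs : ((-1 : ℂ)) ^ ((a : ℤ) + n) * (-1) ^ ((a : ℤ) + n') = (-1) ^ ((n : ℤ) + n') := by
      rw [← zpow_add₀ (by norm_num)]
      have : (a : ℤ) + n + (a + n') = 2 * a + (n + n') := by ring
      rw [this, zpow_add₀ (by norm_num), zpow_mul]
      norm_num
    rw [← hs]
    generalize A ^ (2 : ℤ) - A ^ (-2 : ℤ) = D
    ring
  have hexp : ∀ a : ℕ, f a = A ^ (2 * (a : ℤ) * (n + n')) + A ^ (2 * (a : ℤ) * (-(n + n'))) -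
      A ^ (2 * (a : ℤ) * (n - n')) - A ^ (2 * (a : ℤ) * (n' - n)) := by
    intro a
    rw [hf]
    have e1 : 2 * (a : ℤ) * (n + n') = 2 * (a : ℤ) * n + 2 * (a : ℤ) * n' := by ring
    have e2 : 2 * (a : ℤ) * (-(n + n')) = -(2 * (a : ℤ) * n) + -(2 * (a : ℤ) * n') := by ring
    have e3 : 2 * (a : ℤ) * (n - n') = 2 * (a : ℤ) * n + -(2 * (a : ℤ) * n') := by ring
    have e4 : 2 * (a : ℤ) * (n' - n) = 2 * (a : ℤ) * n' + -(2 * (a : ℤ) * n) := by ring
    rw [e1, e2, e3, e4, zpow_add₀ hA0, zpow_add₀ hA0, zpow_add₀ hA0, zpow_add₀ hA0]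
    ring
  have hf0 : f 0 = 0 := by
    rw [hf]
    simp
  have hfr : ∀ a, a ≤ p → f (p - a) = f a := by
    intro a ha
    rw [hf]
    have hx : ∀ x : ℤ, A ^ (2 * ((p - a : ℕ) : ℤ) * x) = A ^ (-(2 * (a : ℤ) * x)) := by
      intro x
      rw [Nat.cast_sub ha]
      have : 2 * ((p : ℤ) - a) * x = 2 * p * x + -(2 * a * x) := by ring
      rw [this, zpow_add₀ hA0, P1_per hA, one_mul]
    have hx' : ∀ x : ℤ, A ^ (-(2 * ((p - a : ℕ) : ℤ) * x)) = A ^ (2 * (a : ℤ) * x) := by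
      intro x
      rw [zpow_neg, hx, zpow_neg, inv_inv]
    show (A ^ (2 * ((p - a : ℕ) : ℤ) * n) - A ^ (-(2 * ((p - a : ℕ) : ℤ) * n))) *
      (A ^ (2 * ((p - a : ℕ) : ℤ) * n') - A ^ (-(2 * ((p - a : ℕ) : ℤ) * n'))) = _
    rw [hx, hx', hx, hx']
    ring
  have hsum : ∑ a ∈ Finset.range p, f a =
      2 * p * ((if n + n' = p then 1 else 0) - (if n = n' then 1 else 0)) := by
    simp only [hexp]
    rw [Finset.sum_sub_distrib, Finset.sum_sub_distrib, Finset.sum_add_distrib,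
      P1_geom hp hA, P1_geom hp hA, P1_geom hp hA, P1_geom hp hA]
    have d1 : ((p : ℤ) ∣ (n : ℤ) + n') ↔ n + n' = p := by
      constructor
      · intro h
        have h' : p ∣ n + n' := by exact_mod_cast h
        obtain ⟨k, hk⟩ := h'
        have h1 : k = 1 := by
          rcases k with _ | _ | k
          · omega
          · rfl
          · exfalso
            have h3 : p * (k + 1 + 1) = p * k + 2 * p := by ring
            have h4 : 0 ≤ p * k := Nat.zero_le _
            omega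
        rw [hk, h1, mul_one]
      · intro h
        rw [← h]
        push_cast
        exact dvd_rfl
    have d2 : ((p : ℤ) ∣ (n : ℤ) - n') ↔ n = n' := by
      constructor
      · intro h
        have h2 : |(n : ℤ) - n'| < p := by
          rw [abs_lt]
          constructor <;> omega
        have h3 := Int.eq_zero_of_abs_lt_dvd h h2
        omega
      · intro h
        rw [h, sub_self]
        exact dvd_zero _
    have d3 : ((p : ℤ) ∣ (n' : ℤ) - n) ↔ n = n' := by
      rw [← d2, ← dvd_neg, neg_sub]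
    have d4 : ((p : ℤ) ∣ -((n : ℤ) + n')) ↔ n + n' = p := by
      rw [dvd_neg, d1]
    simp only [d1, d2, d3, d4]
    split_ifs <;> ring
  have hhalf := P1_half hp f hf0 hfr
  have hodd : ∑ a ∈ (Finset.range p).filter Odd, f a =
      p * ((if n + n' = p then 1 else 0) - (if n = n' then 1 else 0)) := by
    have h2 : (2 : ℂ) ≠ 0 := by norm_num
    apply mul_left_cancel₀ h2
    rw [← hhalf, hsum]
    ring
  simp only [hterm]
  rw [← Finset.mul_sum, hodd]
  unfold kap
  by_cases h1 : n = n'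
  · have h2 : ¬ n + n' = p := by
      intro h
      rw [← h1] at h
      obtain ⟨k, hk⟩ := hp
      omega
    rw [if_pos h1, if_neg h2, h1]
    have hs : ((-1 : ℂ)) ^ ((n' : ℤ) + n') = 1 := by
      rw [← two_mul, zpow_mul]
      norm_num
    rw [hs]
    ring
  · rw [if_neg h1]
    by_cases h2 : n + n' = p
    · rw [if_pos h2]
      have hs : ((-1 : ℂ)) ^ ((n : ℤ) + n') = -1 := by
        have : ((n : ℤ) + n') = ((n + n' : ℕ) : ℤ) := by push_cast; ring
        rw [this, h2, zpow_natCast]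
        exact hp.neg_one_pow
      rw [hs]
      ring
    · rw [if_neg h2]
      ring

/-- `qdim (p - n) = qdim n` for `p` odd. -/
theorem qdim_refl {p : ℕ} (hp : Odd p) {A : ℂ} (hA : IsPrimitiveRoot A (2 * p)) (n : ℤ) :
    qdim A (p - n) = qdim A n := by
  have hA0 := P1_ne_zero hp hA
  unfold qdim smat
  have e1 : A ^ (2 * (1 : ℤ) * (p - n)) = A ^ (-(2 * (1 : ℤ) * n)) := by
    have : 2 * (1 : ℤ) * (p - n) = 2 * p * 1 + -(2 * 1 * n) := by ring
    rw [this, zpow_add₀ hA0, P1_per hA, one_mul]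
  have e2 : A ^ (-(2 * (1 : ℤ) * (p - n))) = A ^ (2 * (1 : ℤ) * n) := by
    rw [zpow_neg, e1, zpow_neg, inv_inv]
  have e3 : ((-1 : ℂ)) ^ (1 + ((p : ℤ) - n)) = -(-1) ^ (1 + n) := by
    have h1 : (1 + ((p : ℤ) - n)) = (p : ℤ) + (1 + n) + 2 * (-n) := by ring
    rw [h1, zpow_add₀ (by norm_num), zpow_add₀ (by norm_num), zpow_mul (-1 : ℂ) 2 (-n),
      zpow_natCast, hp.neg_one_pow]
    norm_num
  rw [e1, e2, e3]
  ring

private theorem P1_den {p : ℕ} (hp : Odd p) (hp3 : 3 ≤ p) {A : ℂ}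
    (hA : IsPrimitiveRoot A (2 * p)) : A ^ (2 : ℤ) - A ^ (-2 : ℤ) ≠ 0 := by
  have hA0 := P1_ne_zero hp hA
  intro h
  have h1 : A ^ (4 : ℤ) = 1 := by
    have h2 : A ^ (4 : ℤ) = A ^ (2 : ℤ) * A ^ (2 : ℤ) := by
      rw [← zpow_add₀ hA0]
      norm_num
    rw [h2]
    nth_rewrite 1 [sub_eq_zero.1 h]
    rw [← zpow_add₀ hA0]
    norm_num
  rw [hA.zpow_eq_one_iff_dvd] at h1
  have h3 : (2 * p) ∣ 4 := by exact_mod_cast h1
  have h4 := Nat.le_of_dvd (by norm_num) h3
  omega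

theorem qdim_ne {p : ℕ} (hp : Odd p) {A : ℂ} (hA : IsPrimitiveRoot A (2 * p)) {n : ℤ}
    (hn : 0 < n) (hnp : n < p) : qdim A n ≠ 0 := by
  have hA0 := P1_ne_zero hp hA
  have hp3 : 3 ≤ p := by
    obtain ⟨k, hk⟩ := hp
    omega
  unfold qdim smat
  refine mul_ne_zero (zpow_ne_zero _ (by norm_num)) (div_ne_zero ?_ (P1_den hp hp3 hA))
  intro h
  have h1 : A ^ (4 * n) = 1 := by
    have h2 : A ^ (4 * n) = A ^ (2 * 1 * n) * A ^ (2 * 1 * n) := by
      rw [← zpow_add₀ hA0]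
      congr 1
      ring
    rw [h2]
    nth_rewrite 1 [sub_eq_zero.1 h]
    rw [← zpow_add₀ hA0]
    have : -(2 * 1 * n) + 2 * 1 * n = 0 := by ring
    rw [this, zpow_zero]
  rw [hA.zpow_eq_one_iff_dvd] at h1
  push_cast at h1
  have h2 : (p : ℤ) ∣ 2 * n := by
    have h3 : 2 * (p : ℤ) ∣ 2 * (2 * n) := by
      have : 2 * (2 * n) = 4 * n := by ring
      rwa [this]
    exact Int.dvd_of_mul_dvd_mul_left (by norm_num) h3
  have h4 : IsCoprime (p : ℤ) 2 := by
    obtain ⟨k, hk⟩ := hp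
    refine ⟨1, -k, ?_⟩
    rw [hk]
    push_cast
    ring
  have h5 := h4.dvd_of_dvd_mul_left h2
  have h6 := Int.le_of_dvd hn h5
  omega

theorem kap_ne {p : ℕ} (hp : Odd p) (hp3 : 3 ≤ p) {A : ℂ} (hA : IsPrimitiveRoot A (2 * p)) :
    kap A p ≠ 0 := by
  unfold kap
  refine div_ne_zero (neg_ne_zero.2 ?_) (pow_ne_zero _ (P1_den hp hp3 hA))
  exact_mod_cast (by omega : p ≠ 0)

/-- `smat` is real on the unit circle. -/
theorem smat_conj {A : ℂ} (hA : ‖A‖ = 1) (a n : ℤ) :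
    (starRingEnd ℂ) (smat A a n) = smat A a n := by
  have hc : (starRingEnd ℂ) A = A⁻¹ := (Complex.inv_eq_conj hA).symm
  unfold smat
  simp only [map_mul, map_div₀, map_sub, map_zpow₀, hc, map_neg, map_one, inv_zpow', neg_neg]
  congr 1
  rw [← neg_sub (A ^ (2 * a * n)), ← neg_sub (A ^ (2 : ℤ)), neg_div_neg_eq]

end Pool.Agent.AMU.Lim
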