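import Pool.Agent.Lib.AMU.LimM1
import Pool.Agent.Lib.AMU.LimM2
import Pool.Agent.Lib.AMU.LimW2
import Pool.Agent.Lib.AMU.PunA

/-!
# Sections C, P: common part of the assembly
-/

set_option autoImplicit false

open Filter Topology

namespace Pool.Agent.AMU.Lim

theorem frac_ne {a k : ℕ} (hk : 0 < k) (hkJ : k < 4 * 2 ^ a) (s : ℤ) :
    (k : ℝ) / (4 * 2 ^ a) + s ≠ 0 := by
  intro h
  have hJ : (0 : ℝ) < 4 * 2 ^ a := by positivity
  have h1 : (k : ℝ) = -s * (4 * 2 ^ a) := by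
    field_simp at h
    linarith
  have h2 : (k : ℤ) = -s * (4 * 2 ^ a) := by exact_mod_cast h1
  have h3 : (0 : ℤ) < k := by exact_mod_cast hk
  have h4 : (k : ℤ) < 4 * 2 ^ a := by exact_mod_cast hkJ
  have h5 : (0 : ℤ) < 4 * 2 ^ a := by positivity
  have h6 : 0 < -s := by
    by_contra hcon
    push Not at hcon
    nlinarith
  nlinarith

theorem zs_congr {E : Type} [AddCommMonoid E] {f f' : ℝ → E} {a : ℕ}
    (h : ∀ x : ℝ, (∀ s : ℤ, x + s ≠ 0) → f x = f' x) : zs f a = zs f' a := by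
  unfold zs
  refine Finset.sum_congr rfl fun k hk => ?_
  rw [Finset.mem_Ico] at hk
  exact h _ fun s => frac_ne (by omega) hk.2 s

theorem colComb_sum {K : Type} [Field K] {ι : Type} (c : ℕ) (t : Finset ι) (G : ℕ → ι → K) :
    (colComb c fun m => ∑ n ∈ t, G m n) = ∑ n ∈ t, colComb c fun m => G m n := by
  unfold colComb
  rw [Finset.sum_comm]
  refine Finset.sum_congr rfl fun i _ => ?_
  rw [Finset.mul_sum]

theorem colComb_mul {K : Type} [Field K] (c : ℕ) (G : ℕ → K) (b : K) :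
    (colComb c fun m => b * G m) = b * colComb c G := by
  unfold colComb
  rw [Finset.mul_sum]
  refine Finset.sum_congr rfl fun i _ => ?_
  ring

theorem colComb_congr {K : Type} [Field K] {c : ℕ} (hc : Even c) {G G' : ℕ → K}
    (h : ∀ m, Even m → G m = G' m) : colComb c G = colComb c G' := by
  unfold colComb
  refine Finset.sum_congr rfl fun i hi => ?_
  rw [h]
  rw [Finset.mem_range] at hi
  obtain ⟨b, rfl⟩ := hc
  exact ⟨b - i, by omega⟩

/-- The normalization. -/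
noncomputable def Np {N : ℕ} (opp : ZMod N → ZMod N) (A : ℂ) (p : ℕ) : ℂ :=
  (-(A ^ (2 : ℤ) - A ^ (-2 : ℤ)) ^ 2 / p) ^ (eulerChar opp / 2) / 2

theorem Z_eq {N : ℕ} (opp : ZMod N → ZMod N) (w : List (ZMod N)) (ord : ℕ → ℤ) (p : ℕ) (A : ℂ)
    (lam : ZMod N → ℕ) (c : ℕ) :
    Z opp w ord p A lam c = Np opp A p * colComb c fun m => rawZ opp w ord m p A lam := rfl

theorem Np_ne {N : ℕ} (opp : ZMod N → ZMod N) {p : ℕ} (hp : Odd p) (hp3 : 3 ≤ p) {A : ℂ}
    (hA : IsPrimitiveRoot A (2 * p)) : Np opp A p ≠ 0 := by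
  have h1 := kap_ne hp hp3 hA
  unfold kap at h1
  have h2 : (A ^ (2 : ℤ) - A ^ (-2 : ℤ)) ^ 2 ≠ 0 := by
    intro h
    rw [h, div_zero] at h1
    exact h1 rfl
  have h3 : (p : ℂ) ≠ 0 := by
    have : p ≠ 0 := by omega
    exact_mod_cast this
  unfold Np
  refine div_ne_zero (zpow_ne_zero _ ?_) two_ne_zero
  exact div_ne_zero (neg_ne_zero.2 h2) h3

section

variable {N : ℕ} {opp : ZMod N → ZMod N} (w : List (ZMod N)) (ord : ℕ → ℤ)

theorem coreCol_periodic (c : ℕ) (e : ℤ) (x : ℝ) :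
    coreCol opp w ord c e (x + 1) = coreCol opp w ord c e x := by
  unfold coreCol
  simp only [coreSum_periodic]

theorem coreCol_bound (hG : Glue opp) (c : ℕ) {e : ℤ} (he : chiT opp e ≤ -2) :
    ∀ δ : ℝ, 0 < δ → ∃ C : ℝ, ∀ x : ℝ, δ ≤ x → x ≤ 1 - δ → |coreCol opp w ord c e x| ≤ C := by
  intro δ hδ
  have h1 : ∀ m, ∃ C : ℝ, ∀ x : ℝ, δ ≤ x → x ≤ 1 - δ → |coreSum opp w ord m e x| ≤ C :=
    fun m => coreSum_bound w ord m hG he δ hδ
  choose C hC using h1
  refine ⟨∑ i ∈ Finset.range (c / 2 + 1), ((c - i).choose i : ℝ) * C (c - 2 * i), ?_⟩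
  intro x hx1 hx2
  unfold coreCol
  refine (Finset.abs_sum_le_sum_abs _ _).trans (Finset.sum_le_sum fun i _ => ?_)
  rw [abs_mul, abs_mul, abs_pow, abs_neg, abs_one, one_pow, one_mul, Nat.abs_cast]
  exact mul_le_mul_of_nonneg_left (hC _ x hx1 hx2) (Nat.cast_nonneg _)

/-- The sum over the zeros for the word `w1`. -/
theorem coreCol_w1 (hG : Glue opp) {c : ℕ} (hc : Even c) {e : ℤ} {κ : ℕ} (hκ : 2 ≤ κ)
    (he : chiT opp e = -κ) {x : ℝ} (hx : ∀ s : ℤ, x + s ≠ 0) :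
    coreCol opp (w1 opp) ord1 c e x = (c + 1) * ∑' i : ℤ, ((x + i) ^ κ)⁻¹ := by
  rw [coreCol_eq _ _ hG (by omega) hx, ← tsum_mul_left]
  refine tsum_congr fun i => ?_
  rw [colComb_core_w1 hG hc, he, zpow_neg, zpow_natCast]
  intro s
  have := hx (i + s)
  push_cast at this
  rwa [add_assoc]

end

theorem w1_ne {N : ℕ} (opp : ZMod N → ZMod N) : w1 opp ≠ [] := by
  unfold w1; simp

theorem w1_val {N : ℕ} {opp : ZMod N → ZMod N} {Γ : Type} [Group Γ] {s : ZMod N → Γ}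
    (hs : ∀ i, s i * s (opp i) = 1) : ((w1 opp).map s).prod = 1 := by
  unfold w1
  simp only [List.map_cons, List.map_nil, List.prod_cons, List.prod_nil, mul_one]
  exact hs 0

theorem ord1_inj : Function.Injective ord1 := by
  intro a b h
  unfold ord1 at h
  exact_mod_cast h

end Pool.Agent.AMU.Lim
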