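import Pool.Agent.Lib.AMU.PunD
import Pool.Agent.Lib.AMU.LimO0
import Pool.Agent.Lib.AMU.GalB

/-!
# Row P5: section P, punctured surfaces
-/

set_option autoImplicit false

open Filter Topology

namespace Pool.Agent.AMU.Lim

section

variable {N : ℕ} {opp : ZMod N → ZMod N}

/-- The sum of the squares for the word `w1`. -/
theorem sq_lim (hG : Glue opp) {c : ℕ} (hc : Even c) {κ : ℕ} (hκ : 2 ≤ κ)
    (he : 2 * chiT opp 0 = -κ) :
    ∃ C : ℝ, ∀ a : ℕ, ∀ᶠ p : ℕ in atTop, Odd p →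
      |∑ n ∈ Finset.range p, ‖colT opp (w1 opp) ord1 c 0 (Aj a p) p n‖ ^ 2 -
        zs (fun x : ℝ => ((c : ℝ) + 1) ^ 2 * ∑' i : ℤ, ((x + i) ^ κ)⁻¹) a| ≤ C := by
  obtain ⟨C, hC⟩ := pole_sum (poleData_sq (w1 opp) ord1 hG (w1_ne opp) hc (e := 0) (by omega))
    (fun a p => by
      have h0 : colT opp (w1 opp) ord1 c 0 (Aj a p) p 0 = 0 := by
        unfold colT colComb
        refine Finset.sum_eq_zero fun i _ => ?_
        simp only [colG_zero, mul_zero]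
      rw [h0, norm_zero]
      norm_num)
  refine ⟨C, fun a => ?_⟩
  filter_upwards [hC a] with p hp hodd
  have h1 := hp hodd
  have h2 : zs (fun x : ℝ => ∑' i : ℤ,
      ((((colComb c fun m => core opp (w1 opp) ord1 m 0 (x + i)) ^ 2 : ℝ) : ℂ))) a =
      ((zs (fun x : ℝ => ((c : ℝ) + 1) ^ 2 * ∑' i : ℤ, ((x + i) ^ κ)⁻¹) a : ℝ) : ℂ) := by
    have h3 : ((zs (fun x : ℝ => ((c : ℝ) + 1) ^ 2 * ∑' i : ℤ, ((x + i) ^ κ)⁻¹) a : ℝ) : ℂ) =
        zs (fun x : ℝ => ((((c : ℝ) + 1) ^ 2 * ∑' i : ℤ, ((x + i) ^ κ)⁻¹ : ℝ) : ℂ)) a := by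
      unfold zs
      rw [Complex.ofReal_sum]
    rw [h3]
    refine zs_congr fun x hx => ?_
    rw [← tsum_mul_left, Complex.ofReal_tsum]
    refine tsum_congr fun i => ?_
    have hy : ∀ s : ℤ, (x + i) + s ≠ 0 := by
      intro s
      have := hx (i + s)
      push_cast at this
      rwa [add_assoc]
    rw [colComb_core_w1 hG hc 0 hy, mul_pow, ← zpow_natCast ((x + i) ^ chiT opp 0) 2, ← zpow_mul,
      mul_comm (chiT opp 0), Nat.cast_ofNat, he, zpow_neg, zpow_natCast]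
  rw [h2, ← Complex.ofReal_sum, ← Complex.ofReal_sub, Complex.norm_real, Real.norm_eq_abs] at h1
  exact h1

end

/-- `gal_bound` for every colouring, `pun_ineq`, `compare` with `X = Σ colT w` (`main_lim`),
`Y1 = Σ ‖colT w1 c‖ ^ 2`, `Y2 = Σ ‖colT w1 0‖ ^ 2` (`poleData_sq`, `pole_sum`,
`colComb_core_w1`), `f1 = (c + 1) ^ 2 * invSum`, `f2 = invSum`. -/
theorem punctured_bound {N : ℕ} [NeZero N] {opp : ZMod N → ZMod N} (hG : Glue opp) (hN : 4 ≤ N)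
    {Γ : Type} [Group Γ] {s : ZMod N → Γ} (hs : ∀ i, s i * s (opp i) = 1) {c : ℕ} (hc : Even c)
    {γ : Γ} {w : List (ZMod N)} (hw : w ≠ []) (hwγ : (w.map s).prod = γ) {ord : ℕ → ℤ}
    (ho : Function.Injective ord)
    (hinf : ∀ p0 : ℕ, ∃ p, p0 ≤ p ∧ Odd p ∧ ∃ A : ℂ, IsPrimitiveRoot A (2 * p) ∧
      ∀ lam, IsColouring opp p lam →
        ∃ (d : ℕ) (ρ : Γ →* PGL d), IsWRT opp s c p A lam ρ ∧ IsOfFinOrder (ρ γ))
    {L : ℝ} (hL : Tendsto (fun x : ℝ => x ^ (N - 2) *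
      coreCol opp w ord c (1 - ((canonN opp).card : ℤ)) x) (𝓝[≠] 0) (𝓝 L)) : |L| ≤ c + 1 := by
  have hcard := canon_card opp hG
  have hχκ : chiT opp (1 - ((canonN opp).card : ℤ)) = -((N - 2 : ℕ) : ℤ) := by
    unfold chiT; omega
  have hχ2 : chiT opp (1 - ((canonN opp).card : ℤ)) ≤ -2 := by omega
  have hχe : Even (chiT opp (1 - ((canonN opp).card : ℤ))) :=
    ⟨1 - (canonN opp).card, by unfold chiT; ring⟩
  have hχ0 : 2 * chiT opp 0 = -((N - 2 : ℕ) : ℤ) := by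
    unfold chiT; omega
  have hκ : 2 ≤ N - 2 := by omega
  have hκe : Even (N - 2) := ⟨(canonN opp).card - 1, by omega⟩
  obtain ⟨C, hC⟩ := main_lim w ord hG hw hc hχ2 hχe
  obtain ⟨C1, hC1⟩ := sq_lim hG hc hκ hχ0
  obtain ⟨C2, hC2⟩ := sq_lim hG (c := 0) ⟨0, rfl⟩ hκ hχ0
  have hper : ∀ b : ℝ, ∀ x : ℝ, b * ∑' i : ℤ, ((x + 1 + i) ^ (N - 2))⁻¹ =
      b * ∑' i : ℤ, ((x + i) ^ (N - 2))⁻¹ := by
    intro b x
    rw [invSum_periodic]
  have hb : ∀ b : ℝ, ∀ δ : ℝ, 0 < δ → ∃ C : ℝ, ∀ x : ℝ, δ ≤ x → x ≤ 1 - δ →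
      |b * ∑' i : ℤ, ((x + i) ^ (N - 2))⁻¹| ≤ C := by
    intro b δ hδ
    obtain ⟨B, hB⟩ := invSum_bound hκ δ hδ
    refine ⟨|b| * B, fun x hx1 hx2 => ?_⟩
    rw [abs_mul]
    exact mul_le_mul_of_nonneg_left (hB x hx1 hx2) (abs_nonneg b)
  have hLb : ∀ b : ℝ, Tendsto (fun x : ℝ => x ^ (N - 2) *
      (b * ∑' i : ℤ, ((x + i) ^ (N - 2))⁻¹)) (𝓝[≠] 0) (𝓝 b) := by
    intro b
    have h1 := (invSum_tendsto hκ).const_mul b
    rw [mul_one] at h1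
    refine h1.congr fun x => ?_
    ring
  have key := compare hκ hκe (coreCol_periodic w ord c _) (hper (((c : ℝ) + 1) ^ 2))
    (hper ((((0 : ℕ) : ℝ) + 1) ^ 2)) (coreCol_bound w ord hG c hχ2) (hb _) (hb _) hL (hLb _)
    (hLb _) (fun a p => ∑ n ∈ Finset.range p,
      colT opp w ord c (1 - ((canonN opp).card : ℤ)) (Aj a p) p n)
    (fun a p => ∑ n ∈ Finset.range p, ‖colT opp (w1 opp) ord1 c 0 (Aj a p) p n‖ ^ 2)
    (fun a p => ∑ n ∈ Finset.range p, ‖colT opp (w1 opp) ord1 0 0 (Aj a p) p n‖ ^ 2)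
    hC hC1 hC2 (fun _ _ => Finset.sum_nonneg fun _ _ => by positivity)
    (fun _ _ => Finset.sum_nonneg fun _ _ => by positivity) (by
      intro p0
      obtain ⟨p, hp, hodd, A, hA, hall⟩ := hinf (max p0 3)
      have hp3 : 3 ≤ p := (le_max_right _ _).trans hp
      refine ⟨p, (le_max_left _ _).trans hp, hodd, fun a => ?_⟩
      refine pun_ineq w ord hG hc hodd hp3 (Aj_prim hodd) fun lam hlam => ?_
      obtain ⟨d, ρ, hρ, hfin⟩ := hall lam hlam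
      exact gal_bound hodd hA (Aj_prim (a := a) hodd) hρ hfin hw hwγ (w1_ne _) (w1_val hs) ho
        ord1_inj)
  have h3 : |L| ^ 2 ≤ ((c : ℝ) + 1) ^ 2 := by
    rw [sq_abs]
    simpa using key
  exact (sq_le_sq₀ (abs_nonneg L) (by positivity)).1 h3

end Pool.Agent.AMU.Lim
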