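import Pool.Agent.Lib.AMU.Fun6

/-!
# The functional on words as a sum over the labels of the strands
-/

set_option autoImplicit false

namespace Pool.Agent.AMU

open Matrix

section paths

variable {R : Type} [CommRing R]

/-- The entries of a product of matrices. -/
theorem prod_entry (n : ℕ) (M : Fin (n + 1) → Matrix Bool Bool R) (i c : Bool) :
    (List.ofFn M).prod i c = ∑ a : Fin (n + 1) → Bool, if a 0 = i then
      ∏ k : Fin (n + 1), M k (a k) (if h : k.val + 1 < n + 1 then a ⟨k.val + 1, h⟩ else c)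
      else 0 := by
  induction n generalizing i c with
  | zero =>
    rw [List.ofFn_succ, List.ofFn_zero, List.prod_cons, List.prod_nil, mul_one]
    rw [Fintype.sum_eq_single (fun _ => i)]
    · simp
    · intro a ha
      rw [if_neg]
      intro h
      apply ha
      funext k
      rw [Fin.eq_zero k, h]
  | succ n ih =>
    have hL : (List.ofFn M).prod i c = ∑ a : Fin (n + 1) → Bool, M 0 i (a 0) *
        ∏ k : Fin (n + 1), M k.succ (a k)
          (if h : k.val + 1 < n + 1 then a ⟨k.val + 1, h⟩ else c) := by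
      rw [List.ofFn_succ, List.prod_cons, Matrix.mul_apply]
      simp_rw [ih, Finset.mul_sum]
      rw [Finset.sum_comm]
      refine Finset.sum_congr rfl fun a _ => ?_
      rw [Fintype.sum_eq_single (a 0)]
      · rw [if_pos rfl]
      · intro b hb
        rw [if_neg (fun h => hb h.symm), mul_zero]
    rw [hL, ← (Fin.consEquiv (fun _ : Fin (n + 2) => Bool)).sum_comp, Fintype.sum_prod_type,
      Fintype.sum_eq_single i]
    · refine Finset.sum_congr rfl fun a _ => ?_
      rw [if_pos (by simp [Fin.consEquiv]), Fin.prod_univ_succ (n := n + 1)]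
      refine congrArg₂ _ ?_ (Finset.prod_congr rfl fun k _ => ?_)
      · rfl
      · simp only [Fin.consEquiv, Fin.val_succ, Nat.add_lt_add_iff_right]
        rfl
    · intro b hb
      refine Finset.sum_eq_zero fun a _ => ?_
      rw [if_neg]
      simpa [Fin.consEquiv] using hb

/-- The trace of a product of matrices. -/
theorem trace_entry (n : ℕ) (hn : 0 < n) (M : Fin n → Matrix Bool Bool R) :
    (List.ofFn M).prod.trace = ∑ a : Fin n → Bool,
      ∏ k : Fin n, M k (a k) (a ⟨(k.val + 1) % n, Nat.mod_lt _ hn⟩) := by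
  obtain ⟨n, rfl⟩ : ∃ k, n = k + 1 := ⟨n - 1, by omega⟩
  unfold Matrix.trace
  simp only [Matrix.diag_apply, prod_entry]
  rw [Finset.sum_comm]
  refine Finset.sum_congr rfl fun a _ => ?_
  rw [Fintype.sum_eq_single (a 0)]
  · rw [if_pos rfl]
    refine Finset.prod_congr rfl fun k _ => ?_
    congr 1
    split_ifs with h
    · congr 1
      apply Fin.ext
      exact (Nat.mod_eq_of_lt h).symm
    · have hk : k.val + 1 = n + 1 := by have := k.isLt; omega
      congr 1
      apply Fin.ext
      simp [hk]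
  · intro b hb
    rw [if_neg (fun h => hb h.symm)]

end paths

section

variable {N : ℕ} (opp : ZMod N → ZMod N)

/-- The strands of the cables of the words `w j` (`m j` parallel copies): `(j, k, u)`. -/
abbrev ST {r : ℕ} (w : Fin r → List (ZMod N)) (m : Fin r → ℕ) : Type :=
  Σ j : Fin r, Fin (w j).length × Fin (m j)

/-- The letter of a strand. -/
def stLet {r : ℕ} {w : Fin r → List (ZMod N)} {m : Fin r → ℕ} (i : ST w m) : ZMod N :=
  (w i.1).getD i.2.1 0

/-- The next strand. -/
def stNxt {r : ℕ} {w : Fin r → List (ZMod N)} {m : Fin r → ℕ} (i : ST w m) : ST w m :=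
  ⟨i.1, (⟨(i.2.1.val + 1) % (w i.1).length, Nat.mod_lt _ (Nat.zero_lt_of_lt i.2.1.isLt)⟩, i.2.2)⟩

/-- The labelled strand. -/
def stStr {r : ℕ} {w : Fin r → List (ZMod N)} {m : Fin r → ℕ} (lab : ST w m × Bool → Bool)
    (i : ST w m) : Strand N :=
  if (stLet i).val < (opp (stLet i)).val then (stLet i, lab (i, false), lab (i, true))
  else (opp (stLet i), lab (i, true), lab (i, false))

/-- The sign of a strand. -/
def stSgn {r : ℕ} {w : Fin r → List (ZMod N)} {m : Fin r → ℕ} (i : ST w m) : ℝ :=
  if (stLet i).val < (opp (stLet i)).val then 1 else -1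

theorem glet_eq {r : ℕ} {w : Fin r → List (ZMod N)} {m : Fin r → ℕ} (lab : ST w m × Bool → Bool)
    (i : ST w m) : glet opp (stLet i) (lab (i, false)) (lab (i, true)) =
      MvPolynomial.C (stSgn opp i) * MvPolynomial.X (stStr opp lab i) := by
  unfold glet stSgn stStr
  split_ifs <;> simp

theorem trw_eq (w : List (ZMod N)) (hw : 0 < w.length) :
    trw opp w = ∑ lab : Fin w.length × Bool → Bool, ∏ k : Fin w.length,
      (glet opp (w.getD k 0) (lab (k, false)) (lab (k, true)) *
        MvPolynomial.C (ep (lab (k, true))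
          (lab (⟨(k.val + 1) % w.length, Nat.mod_lt _ hw⟩, false)))) := by
  have h1 : (w.map (mlet opp)) = List.ofFn fun k : Fin w.length => mlet opp (w.getD k 0) := by
    apply List.ext_getElem
    · simp
    · intro i h1 h2
      simp at h1
      simp
  rw [trw, h1, trace_entry _ hw]
  simp only [mlet]
  simp_rw [Finset.prod_univ_sum, Fintype.piFinset_univ]
  rw [← Fintype.sum_prod_type']
  refine Finset.sum_nbij' (fun ab => fun kb => if kb.2 then ab.2 kb.1 else ab.1 kb.1)
    (fun lab => (fun k => lab (k, false), fun k => lab (k, true))) ?_ ?_ ?_ ?_ ?_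
  · intro _ _; exact Finset.mem_univ _
  · intro _ _; exact Finset.mem_univ _
  · intro ab _; rfl
  · intro lab _
    funext kb
    rcases kb with ⟨k, _ | _⟩ <;> rfl
  · intro ab _; rfl

/-- The labellings of all strands. -/
def labEquiv {r : ℕ} (w : Fin r → List (ZMod N)) (m : Fin r → ℕ) :
    ((c : Σ j : Fin r, Fin (m j)) → (Fin (w c.1).length × Bool → Bool)) ≃
      (ST w m × Bool → Bool) where
  toFun F := fun x => F ⟨x.1.1, x.1.2.2⟩ (x.1.2.1, x.2)
  invFun G := fun c x => G (⟨c.1, (x.1, c.2)⟩, x.2)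
  left_inv _ := rfl
  right_inv _ := rfl

theorem prod_trw {r : ℕ} (w : Fin r → List (ZMod N)) (hw : ∀ j, w j ≠ []) (m : Fin r → ℕ) :
    ∏ j, trw opp (w j) ^ m j = ∑ lab : ST w m × Bool → Bool, ∏ i : ST w m,
      (MvPolynomial.C (stSgn opp i * ep (lab (i, true)) (lab (stNxt i, false))) *
        MvPolynomial.X (stStr opp lab i)) := by
  have hl : ∀ j, 0 < (w j).length := fun j => List.length_pos_of_ne_nil (hw j)
  have h1 : ∏ j, trw opp (w j) ^ m j = ∏ c : Σ j : Fin r, Fin (m j), trw opp (w c.1) := by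
    rw [Fintype.prod_sigma]
    refine Finset.prod_congr rfl fun j _ => ?_
    simp
  rw [h1]
  simp_rw [fun c : Σ j : Fin r, Fin (m j) => trw_eq opp (w c.1) (hl c.1)]
  rw [Finset.prod_univ_sum, Fintype.piFinset_univ, ← (labEquiv w m).sum_comp]
  refine Finset.sum_congr rfl fun F _ => ?_
  rw [Fintype.prod_sigma, Fintype.prod_sigma]
  refine Finset.prod_congr rfl fun j _ => ?_
  rw [Fintype.prod_prod_type, Finset.prod_comm]
  refine Finset.prod_congr rfl fun u _ => Finset.prod_congr rfl fun k _ => ?_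
  have := glet_eq opp (labEquiv w m F) ⟨j, (k, u)⟩
  simp only [stNxt, MvPolynomial.C_mul]
  rw [mul_assoc, mul_comm (MvPolynomial.C (ep _ _)), ← mul_assoc, ← this]
  rfl

variable [NeZero N] (hinv : ∀ i, opp (opp i) = i) (hne : ∀ i, opp i ≠ i)

include hinv hne in
theorem polyF_sum (y : ℝ) (hy : ∀ k : ℤ, y ≠ k) (e : ℤ) {r : ℕ} (w : Fin r → List (ZMod N))
    (hw : ∀ j, w j ≠ []) (m : Fin r → ℕ) (L : List (ST w m)) (hL : L.Nodup) (hL2 : ∀ i, i ∈ L) :
    polyF opp y e (∏ j, trw opp (w j) ^ m j) =
      ∑ lab : ST w m × Bool → Bool,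
        (∏ i : ST w m, stSgn opp i * ep (lab (i, true)) (lab (stNxt i, false))) *
          term opp y e (L.map (stStr opp lab)) := by
  rw [prod_trw opp w hw m, map_sum]
  refine Finset.sum_congr rfl fun lab _ => ?_
  rw [Finset.prod_mul_distrib, ← map_prod, MvPolynomial.C_mul', map_smul, smul_eq_mul]
  congr 1
  rw [← polyF_prod opp y hy e hinv hne, List.map_map]
  congr 1
  rw [← List.prod_toFinset _ hL]
  refine Finset.prod_congr ?_ fun _ _ => rfl
  ext i
  simp [hL2]

/-- The functional on words. -/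
theorem Fun_words (e : ℤ) {x : ℝ} (hx : ∀ k : ℤ, x ≠ k) {r : ℕ} (w : Fin r → List (ZMod N))
    (hw : ∀ j, w j ≠ []) (m : Fin r → ℕ) (L : List (ST w m)) (hL : L.Nodup) (hL2 : ∀ i, i ∈ L) :
    Fun opp hinv hne e x
        (∑ j, Multiset.replicate (m j) (((w j).map PresentedGroup.of).prod)) =
      ∑' k : ℤ, ∑ lab : ST w m × Bool → Bool,
        (∏ i : ST w m, stSgn opp i * ep (lab (i, true)) (lab (stNxt i, false))) *
          term opp (x + k) e (L.map (stStr opp lab)) := by
  unfold Fun
  refine tsum_congr fun k => ?_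
  rw [← polyF_sum opp hinv hne (x + k) (ne_shift hx k) e w hw m L hL hL2,
    ← rF_mk opp hinv hne (x + k) (ne_shift hx k) e]
  congr 1
  rw [map_prod, ← Multiset.coe_mapAddMonoidHom, map_sum, Multiset.prod_sum]
  refine Finset.prod_congr rfl fun j _ => ?_
  rw [Multiset.coe_mapAddMonoidHom, Multiset.map_replicate, Multiset.prod_replicate, map_pow,
    trace_homR]

end

end Pool.Agent.AMU
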