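import Pool.Agent.Lib.AMU.TerM
import Pool.Agent.Lib.AMU.Fun7

/-!
# Section T: the terminal evaluation of the functional `Fun` (helper79)
-/

set_option autoImplicit false

namespace Pool.Agent.AMU.Ter

/-- The expansion of the functional of section F. -/
theorem expHyp_Fun {N : ℕ} [NeZero N] (opp : ZMod N → ZMod N) (hinv : ∀ i, opp (opp i) = i)
    (hne : ∀ i, opp i ≠ i) (e : ℤ) :
    ExpHyp opp (fun i => (PresentedGroup.of i : PuncturedGroup opp)) e
      (Fun opp hinv hne e) := by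
  intro r w m L hw hL hL2 x hx
  exact Fun_words opp hinv hne e hx w hw m L hL hL2

/-- The expansion descends along group homomorphisms. -/
theorem ExpHyp.map {N : ℕ} [NeZero N] {opp : ZMod N → ZMod N} {Γ Γ' : Type} [Group Γ] [Group Γ']
    {s : ZMod N → Γ} {e : ℤ} {F : ℝ → Multiset Γ → ℝ} (h : ExpHyp opp s e F) (π : Γ →* Γ')
    {F' : ℝ → Multiset Γ' → ℝ}
    (hF' : ∀ x : ℝ, (∀ k : ℤ, x ≠ k) → ∀ M : Multiset Γ, F' x (M.map π) = F x M) :
    ExpHyp opp (fun i => π (s i)) e F' := by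
  intro r w m L hw hL hL2 x hx
  rw [← h r w m L hw hL hL2 x hx, ← hF' x hx]
  congr 1
  rw [← Multiset.coe_mapAddMonoidHom, map_sum]
  refine Finset.sum_congr rfl fun j _ => ?_
  rw [Multiset.coe_mapAddMonoidHom, Multiset.map_replicate, map_list_prod, List.map_map]
  rfl

end Pool.Agent.AMU.Ter
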