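import Pool.Agent.Lib.AMU.Vert6

/-!
# The functional of the closed surface group: the regular polygon with opposite sides glued
-/

set_option autoImplicit false

namespace Pool.Agent.AMU

section closed

variable {g : ℕ}

theorem closed_inv (i : ZMod (4 * g)) : closedOpp g (closedOpp g i) = i := by
  unfold closedOpp
  rw [add_assoc, ← Nat.cast_add, show 2 * g + 2 * g = 4 * g by ring, ZMod.natCast_self, add_zero]

theorem closed_ne (hg : 1 ≤ g) (i : ZMod (4 * g)) : closedOpp g i ≠ i := by
  intro h
  unfold closedOpp at h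
  rw [add_eq_left, ZMod.natCast_eq_zero_iff] at h
  have := Nat.le_of_dvd (by omega) h
  omega

theorem closed_coprime : Nat.Coprime (4 * g) (2 * g + 1) := by
  have h1 : Nat.Coprime (2 * g + 1) 2 := by
    rw [Nat.coprime_two_right]
    exact ⟨g, rfl⟩
  have h2 : Nat.Coprime (2 * g + 1) (2 * g) := by
    rw [Nat.coprime_self_add_left]
    exact Nat.coprime_one_left _
  rw [show 4 * g = 2 * (2 * g) by ring]
  exact (Nat.Coprime.mul_right h1 h2).symm

/-- The corners in the order around the vertex. -/
noncomputable def cornerEquiv (hg : 1 ≤ g) : Fin (4 * g) ≃ ZMod (4 * g) :=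
  haveI : NeZero (4 * g) := ⟨by omega⟩
  Equiv.ofBijective (fun k : Fin (4 * g) => ((k.val * (2 * g + 1) : ℕ) : ZMod (4 * g))) (by
    rw [Fintype.bijective_iff_injective_and_card]
    refine ⟨fun a b h => ?_, by rw [Fintype.card_fin, ZMod.card]⟩
    have h1 := (ZMod.natCast_eq_natCast_iff _ _ _).1 h
    have h2 : a.val ≡ b.val [MOD 4 * g] := Nat.ModEq.cancel_right_of_coprime closed_coprime h1
    exact Fin.ext (Nat.ModEq.eq_of_lt_of_lt h2 a.isLt b.isLt))

theorem cornerEquiv_apply (hg : 1 ≤ g) (k : Fin (4 * g)) :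
    cornerEquiv hg k = ((k.val * (2 * g + 1) : ℕ) : ZMod (4 * g)) := rfl

theorem corner_succ (k : ℕ) :
    (((k + 1) * (2 * g + 1) : ℕ) : ZMod (4 * g)) =
      closedOpp g ((k * (2 * g + 1) : ℕ) : ZMod (4 * g)) + 1 := by
  unfold closedOpp
  push_cast
  ring

theorem corner_zero (hg : 1 ≤ g) (k : Fin (4 * g)) (hk : k.val = 0) : cornerEquiv hg k = 0 := by
  rw [cornerEquiv_apply, hk]
  simp

theorem corner_next (hg : 1 ≤ g) (k : Fin (4 * g)) (h : k.val + 1 < 4 * g) :
    cornerEquiv hg ⟨k.val + 1, h⟩ = closedOpp g (cornerEquiv hg k) + 1 := by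
  rw [cornerEquiv_apply, cornerEquiv_apply]
  exact corner_succ k.val

theorem corner_last (hg : 1 ≤ g) (k : Fin (4 * g)) (h : k.val + 1 = 4 * g) :
    closedOpp g (cornerEquiv hg k) + 1 = 0 := by
  rw [cornerEquiv_apply, ← corner_succ, h]
  rw [Nat.cast_mul, ZMod.natCast_self, zero_mul]

theorem closed_bij (hg : 1 ≤ g) : Function.Bijective fun v : ZMod (4 * g) => closedOpp g v + 1 := by
  have : NeZero (4 * g) := ⟨by omega⟩
  refine ⟨fun a b h => ?_, fun b => ⟨closedOpp g (b - 1), ?_⟩⟩
  · have h1 : closedOpp g a = closedOpp g b := add_right_cancel h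
    rw [← closed_inv a, h1, closed_inv]
  · show closedOpp g (closedOpp g (b - 1)) + 1 = b
    rw [closed_inv, sub_add_cancel]

theorem closed_conn (hg : 1 ≤ g) [NeZero (4 * g)] : Conn (closedOpp g) := by
  intro ε h j
  obtain ⟨⟨k, hk⟩, rfl⟩ := (cornerEquiv hg).surjective j
  induction k with
  | zero => rw [corner_zero hg _ rfl]
  | succ k ih =>
    have h1 := ih (by omega)
    rw [← h1]
    have h2 := corner_next hg ⟨k, by omega⟩ hk
    have h3 : cornerEquiv hg ⟨k + 1, hk⟩ ≠ 0 := by
      rw [← corner_zero hg ⟨0, by omega⟩ rfl]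
      intro h4
      have := congrArg Fin.val ((cornerEquiv hg).injective h4)
      simp at this
    rw [h _ h3, h2, add_sub_cancel_right, closed_inv]

variable [NeZero (4 * g)]

theorem closed_card (hg : 1 ≤ g) : (canon (closedOpp g)).card = 2 * g := by
  have := card_eq (closedOpp g) closed_inv (closed_ne hg)
  omega

theorem closed_hc (hg : 2 ≤ g) : (1 : ℤ) + 1 - (canon (closedOpp g)).card ≤ -2 := by
  rw [closed_card (by omega)]
  push_cast
  omega

theorem closed_even (hg : 1 ≤ g) : Even (canon (closedOpp g)).card := by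
  rw [closed_card hg]
  exact even_two_mul g

omit [NeZero (4 * g)] in
theorem lift_of {α : Type} (R : Set (FreeGroup α)) :
    FreeGroup.lift (PresentedGroup.of (rels := R)) = PresentedGroup.mk R := by
  apply FreeGroup.ext_hom
  intro a
  rw [FreeGroup.lift_apply_of]
  rfl

end closed

/-- The projection to the closed surface group. -/
noncomputable def proj (g : ℕ) : PuncturedGroup (closedOpp g) →* SurfaceGroup g :=
  PresentedGroup.toGroup (f := PresentedGroup.of) (by
    intro r hr
    rw [lift_of]
    exact PresentedGroup.one_of_mem (Or.inl hr))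

theorem proj_mk (g : ℕ) (a : FreeGroup (ZMod (4 * g))) :
    proj g (PresentedGroup.mk _ a) = PresentedGroup.mk _ a := by
  have h : (proj g).comp (PresentedGroup.mk _) = PresentedGroup.mk (closedRels g) := by
    apply FreeGroup.ext_hom
    intro i
    show proj g (PresentedGroup.of i) = _
    exact PresentedGroup.toGroup.of _
  exact DFunLike.congr_fun h a

theorem proj_of (g : ℕ) (i : ZMod (4 * g)) :
    proj g (PresentedGroup.of i) = PresentedGroup.of i := PresentedGroup.toGroup.of _

theorem proj_surj (g : ℕ) : Function.Surjective (proj g) := by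
  intro γ
  obtain ⟨a, rfl⟩ := PresentedGroup.mk_surjective _ γ
  exact ⟨_, proj_mk g a⟩

/-- A lift to the free group. -/
noncomputable def liftC (g : ℕ) : SurfaceGroup g → PuncturedGroup (closedOpp g) :=
  Function.surjInv (proj_surj g)

theorem proj_liftC (g : ℕ) (γ : SurfaceGroup g) : proj g (liftC g γ) = γ :=
  Function.surjInv_eq _ γ

section final

variable {g : ℕ} [NeZero (4 * g)]

theorem proj_ker (hg : 2 ≤ g) {x : ℝ} (hx : ∀ k : ℤ, x ≠ k) (n : PuncturedGroup (closedOpp g))
    (hn : proj g n = 1) :
    n ∈ KF (closedOpp g) closed_inv (closed_ne (by omega)) 1 (closed_hc hg) hx := by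
  obtain ⟨a, rfl⟩ := PresentedGroup.mk_surjective _ n
  rw [proj_mk] at hn
  have h1 : a ∈ Subgroup.normalClosure (closedRels g) := PresentedGroup.mk_eq_one_iff.1 hn
  have hnorm : (KF (closedOpp g) closed_inv (closed_ne (by omega)) 1 (closed_hc hg) hx).Normal :=
    KF_normal _ _ _ _ _ _
  have h2 : Subgroup.normalClosure (closedRels g) ≤
      (KF (closedOpp g) closed_inv (closed_ne (by omega)) 1 (closed_hc hg) hx).comap
        (PresentedGroup.mk (puncturedRels (closedOpp g))) := by
    apply Subgroup.normalClosure_le_normal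
    rintro r (hr | hr)
    · rw [SetLike.mem_coe, Subgroup.mem_comap, PresentedGroup.one_of_mem hr]
      exact Subgroup.one_mem _
    · rw [SetLike.mem_coe, Subgroup.mem_comap]
      rw [Set.mem_singleton_iff] at hr
      have h3 : PresentedGroup.mk (puncturedRels (closedOpp g)) r =
          ((List.ofFn fun k : Fin (4 * g) => cornerEquiv (show 1 ≤ g by omega) k).map
            PresentedGroup.of).prod := by
        rw [hr, map_list_prod, List.map_map]
        congr 1
        unfold vertexWord
        rw [List.map_map]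
        apply List.ext_getElem
        · simp
        · intro i h1 h2
          simp [cornerEquiv_apply]
          rfl
      rw [h3]
      exact vertex_mem (closedOpp g) closed_inv (closed_ne (by omega)) (closed_conn (by omega))
        (closed_even (by omega)) (closed_hc hg) hx (cornerEquiv (show 1 ≤ g by omega))
        (corner_zero _) (corner_next _) (corner_last _) (closed_bij (by omega))
  exact h2 h1

/-- The functional of the closed surface group. -/
noncomputable def FunC (hg : 2 ≤ g) (x : ℝ) (M : Multiset (SurfaceGroup g)) : ℝ :=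
  FunQ (closedOpp g) closed_inv (closed_ne (show 1 ≤ g by omega)) 1 x (liftC g) M

theorem FunC_map (hg : 2 ≤ g) {x : ℝ} (hx : ∀ k : ℤ, x ≠ k)
    (M : Multiset (PuncturedGroup (closedOpp g))) :
    FunC hg x (M.map (proj g)) =
      Fun (closedOpp g) closed_inv (closed_ne (show 1 ≤ g by omega)) 1 x M :=
  FunQ_map _ _ _ 1 (closed_hc hg) hx (proj g) (liftC g) (proj_liftC g) (proj_ker hg hx) M

theorem traceFun_FunC (hg : 2 ≤ g) {x : ℝ} (hx : ∀ k : ℤ, x ≠ k) : TraceFun (FunC hg x) :=
  traceFun_FunQ _ _ _ 1 (closed_hc hg) hx (proj g) (liftC g) (proj_liftC g) (proj_ker hg hx)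

end final

end Pool.Agent.AMU
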