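import Pool.Agent.Lib.AMU.RecMain
import Pool.Agent.Lib.AMU.TerFun
import Pool.Agent.Lib.AMU.LimO1
import Pool.Agent.Lib.AMU.PunE
import Pool.Agent.Lib.AMU.Vert7

/-!
# Assembly, part 0: the value of the functional on the empty product
-/

set_option autoImplicit false

open Filter Topology

namespace Pool.Agent.AMU.Asm

section

variable {N : ℕ} [NeZero N] (opp : ZMod N → ZMod N)
variable (hinv : ∀ i, opp (opp i) = i) (hne : ∀ i, opp i ≠ i)

theorem Fun_zero (e : ℤ) {x : ℝ} (hx : ∀ k : ℤ, x ≠ k) :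
    Fun opp hinv hne e x 0 = ∑' k : ℤ, dl (x + k) 0 ^ (e + 1 - (canon opp).card) := by
  unfold Fun
  refine tsum_congr fun k => ?_
  rw [Multiset.map_zero, Multiset.prod_zero, ← map_one (Ideal.Quotient.mk (detIdeal opp)),
    rF_mk opp hinv hne (x + k) (ne_shift hx k)]
  have h := polyF_prod opp (x + k) (ne_shift hx k) e hinv hne []
  rw [List.map_nil, List.prod_nil] at h
  rw [h]
  have hy0 : dl (x + k) 0 ≠ 0 := dl_ne (ne_shift hx k) 0
  have hB : Bal opp ([] : List (Strand N × Bool)) := fun _ _ => rfl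
  show termS opp (x + k) e [] = _
  unfold termS
  rw [if_pos hB, bdry_eq_W opp hinv hne _ _ hB]
  have h1 : ((List.range N).flatMap fun j : ℕ =>
      sideWord opp ([] : List (Strand N × Bool)) (j : ZMod N)) = [] := by
    rw [List.flatMap_eq_nil_iff]
    intro j _
    unfold sideWord
    split_ifs <;> rfl
  have h2 : (W (x + k) 0 [] : Module.End ℝ Fn) = 1 := rfl
  have hyne : x + k ≠ 0 := by
    have := ne_shift hx k 0
    simpa using this
  rw [h1, h2, tau_one hyne, mul_one]
  have h3 : ∀ i ∈ canon opp, wprod (x + k) 0 (steps ([] : List (Strand N × Bool)) i) =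
      (dl (x + k) 0)⁻¹ := fun i _ => rfl
  rw [Finset.prod_congr rfl h3, Finset.prod_const, zpow_sub₀ hy0, zpow_natCast, inv_pow,
    div_eq_mul_inv]

theorem lim_zero (e : ℤ) (κ : ℕ) (hκ : (κ : ℤ) = (canon opp).card - e - 1) (hκ2 : 2 ≤ κ)
    (hκe : Even κ) :
    Tendsto (fun x : ℝ => x ^ κ * Fun opp hinv hne e x 0) (𝓝[≠] 0) (𝓝 1) := by
  have h := Ter.ter_lim {0} (fun _ => -(κ : ℤ)) (fun _ _ => by omega) κ hκ2 hκe (by simp)
  rw [if_pos ⟨0, by simp, rfl⟩] at h
  refine h.congr' ?_
  filter_upwards [Rec.eventually_not_int] with x hx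
  rw [Fun_zero opp hinv hne e hx]
  congr 1
  refine tsum_congr fun k => ?_
  rw [Finset.prod_singleton]
  congr 1
  omega

theorem termEval_punctured (hN : 4 ≤ N) :
    TermEval opp (fun i => (PresentedGroup.of i : PuncturedGroup opp)) False
      (Fun opp hinv hne (1 - ((canon opp).card : ℤ))) (N - 2) := by
  have hc := card_eq opp hinv hne
  refine Ter.termEval_of_exp opp hinv hne (by omega) _ False (1 - ((canon opp).card : ℤ))
    (fun h => h.elim) (fun _ => by omega) _ (Ter.expHyp_Fun opp hinv hne _) (N - 2) (by omega)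
    (by omega) ?_
  exact ⟨(canon opp).card - 1, by omega⟩

end

section closed

variable {g : ℕ} [NeZero (4 * g)]

theorem termEval_closed (hg : 2 ≤ g) :
    TermEval (closedOpp g) (fun i => (PresentedGroup.of i : SurfaceGroup g)) True
      (FunC hg) (2 * g - 2) := by
  have hc := closed_card (g := g) (by omega)
  have h1 := Ter.ExpHyp.map (Ter.expHyp_Fun (closedOpp g) closed_inv
    (closed_ne (show 1 ≤ g by omega)) 1) (proj g) (F' := FunC hg)
    (fun x hx M => FunC_map hg hx M)
  have h2 : (fun i => proj g (PresentedGroup.of i)) =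
      (fun i => (PresentedGroup.of i : SurfaceGroup g)) := funext fun i => proj_of g i
  rw [h2] at h1
  refine Ter.termEval_of_exp (closedOpp g) closed_inv (closed_ne (show 1 ≤ g by omega))
    (by omega) _ True 1 (fun _ => rfl) (fun h => (h trivial).elim) _ h1 (2 * g - 2)
    (by rw [hc]; omega) (by omega) ?_
  exact ⟨g - 1, by omega⟩

theorem lim_zero_closed (hg : 2 ≤ g) :
    Tendsto (fun x : ℝ => x ^ (2 * g - 2) * FunC hg x 0) (𝓝[≠] 0) (𝓝 1) := by
  have hc := closed_card (g := g) (by omega)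
  have h := lim_zero (closedOpp g) closed_inv (closed_ne (show 1 ≤ g by omega)) 1 (2 * g - 2)
    (by rw [hc]; omega) (by omega) ⟨g - 1, by omega⟩
  refine h.congr' ?_
  filter_upwards [Rec.eventually_not_int] with x hx
  rw [← FunC_map hg hx 0, Multiset.map_zero]

end closed

end Pool.Agent.AMU.Asm
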