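import Pool.Agent.Lib.AMU.Asm0

/-!
# Assembly, part 1
-/

set_option autoImplicit false

open Filter Topology

namespace Pool.Agent.AMU.Asm

theorem exists_word {N : ℕ} {opp : ZMod N → ZMod N} {Γ : Type} [Group Γ] {s : ZMod N → Γ}
    (hs : ∀ i, s i * s (opp i) = 1) (hgen : Subgroup.closure (Set.range s) = ⊤) (γ : Γ) :
    ∃ w : List (ZMod N), w ≠ [] ∧ (w.map s).prod = γ := by
  have h : ∀ γ : Γ, ∃ w : List (ZMod N), (w.map s).prod = γ := by
    intro γ
    have hγ : γ ∈ Subgroup.closure (Set.range s) := by rw [hgen]; trivial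
    refine Subgroup.closure_induction (p := fun γ _ => ∃ w : List (ZMod N), (w.map s).prod = γ)
      ?_ ⟨[], rfl⟩ ?_ ?_ hγ
    · rintro _ ⟨i, rfl⟩
      exact ⟨[i], by simp⟩
    · rintro a b _ _ ⟨u, rfl⟩ ⟨v, rfl⟩
      exact ⟨u ++ v, by simp⟩
    · rintro a _ ⟨u, rfl⟩
      refine ⟨(u.map opp).reverse, ?_⟩
      clear * - hs
      induction u with
      | nil => simp
      | cons i u ih =>
        rw [List.map_cons, List.map_cons, List.prod_cons, mul_inv_rev, List.reverse_cons,
          List.map_append, List.prod_append, ih]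
        simp only [List.map_cons, List.map_nil, List.prod_cons, List.prod_nil, mul_one]
        congr 1
        exact (inv_eq_of_mul_eq_one_right (hs i)).symm
  obtain ⟨w, hw⟩ := h γ
  by_cases h0 : w = []
  · refine ⟨[0, opp 0], by simp, ?_⟩
    rw [← hw, h0]
    simp [hs]
  · exact ⟨w, h0, hw⟩

theorem coreCol_eq {N : ℕ} (opp : ZMod N → ZMod N) (w : List (ZMod N)) (ord : ℕ → ℤ) (c : ℕ)
    (e : ℤ) (x : ℝ) {Γ : Type} (F : Multiset Γ → ℝ) (γ : Γ)
    (h : ∀ i ≤ c / 2, F (Multiset.replicate (c - 2 * i) γ) = coreSum opp w ord (c - 2 * i) e x) :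
    coreCol opp w ord c e x = ∑ i ∈ Finset.range (c / 2 + 1),
        (-1) ^ i * ((c - i).choose i : ℝ) * F (Multiset.replicate (c - 2 * i) γ) := by
  unfold coreCol
  refine Finset.sum_congr rfl fun i hi => ?_
  rw [h i (by have := Finset.mem_range.1 hi; omega)]

section punctured

variable {N : ℕ} [NeZero N] (opp : ZMod N → ZMod N)
variable (hinv : ∀ i, opp (opp i) = i) (hne : ∀ i, opp i ≠ i)

omit [NeZero N] in
theorem punctured_rel (i : ZMod N) :
    (PresentedGroup.of i : PuncturedGroup opp) * PresentedGroup.of (opp i) = 1 := by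
  have := PresentedGroup.one_of_mem (rels := puncturedRels opp)
    (x := FreeGroup.of i * FreeGroup.of (opp i)) ⟨i, rfl⟩
  rwa [map_mul] at this

theorem canonN_card (hG : Lim.Glue opp) : (Lim.canonN opp).card = (canon opp).card := by
  have h1 := Lim.canon_card opp hG
  have h2 := card_eq opp hG.inv hG.ne
  omega

theorem punctured_main (hN : 4 ≤ N)
    (H : HypModel opp (fun i => (PresentedGroup.of i : PuncturedGroup opp)) False)
    (hK : ∀ (w : List (ZMod N)), w ≠ [] → ∀ ord : ℕ → ℤ, Function.Injective ord → ∀ m : ℕ,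
      Even m → ∀ (e : ℤ) (x : ℝ), (∀ k : ℤ, x ≠ k) →
      Fun opp hinv hne e x (Multiset.replicate m ((w.map PresentedGroup.of).prod)) =
        coreSum opp w ord m e x)
    {c : ℕ} (hc : Even c) (hc0 : 0 < c) {γ : PuncturedGroup opp} (hγ : γ ≠ 1)
    (hs : ¬ IsSimple opp (fun i => (PresentedGroup.of i : PuncturedGroup opp)) γ)
    (hp : ¬ IsProperPower γ) :
    ∃ p₀ : ℕ, ∀ p, p₀ ≤ p → Odd p → ∀ A : ℂ, IsPrimitiveRoot A (2 * p) →
      ∃ lam, IsColouring opp p lam ∧ ∀ (d : ℕ) (ρ : PuncturedGroup opp →* PGL d),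
        IsWRT opp (fun i => PresentedGroup.of i) c p A lam ρ → ¬ IsOfFinOrder (ρ γ) := by
  by_contra hcon
  push Not at hcon
  have hG : Lim.Glue opp := ⟨by omega, hinv, hne⟩
  have hcard := card_eq opp hinv hne
  have he : (1 - ((canon opp).card : ℤ)) + 1 - (canon opp).card ≤ -2 := by omega
  obtain ⟨L, hL1, hL2⟩ := Rec.recursion hinv hne H
    (fun x hx => traceFun_Fun opp hinv hne hx (1 - ((canon opp).card : ℤ)) he)
    (termEval_punctured opp hinv hne hN)
    (lim_zero opp hinv hne (1 - ((canon opp).card : ℤ)) (N - 2) (by omega) (by omega)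
      ⟨(canon opp).card - 1, by omega⟩) hc hc0 hγ hs hp
  obtain ⟨w, hw, hwγ⟩ := exists_word (opp := opp)
    (s := fun i => (PresentedGroup.of i : PuncturedGroup opp)) (punctured_rel opp)
    (PresentedGroup.closure_range_of _) γ
  have hb := Lim.punctured_bound hG hN (punctured_rel opp) hc hw hwγ (ord := fun k => (k : ℤ))
    Nat.cast_injective hcon (L := L) (by
      refine hL2.congr' ?_
      filter_upwards [Rec.eventually_not_int] with x hx
      congr 1
      rw [canonN_card opp hG]
      symm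
      refine coreCol_eq opp w _ c _ x (Fun opp hinv hne (1 - ((canon opp).card : ℤ)) x) γ
        fun i hi => ?_
      rw [← hwγ]
      exact hK w hw _ Nat.cast_injective _ (by
        obtain ⟨d, rfl⟩ := hc
        exact ⟨d - i, by omega⟩) _ x hx)
  have := le_abs_self L
  linarith

end punctured

section closed

theorem closed_rel {g : ℕ} (i : ZMod (4 * g)) :
    (PresentedGroup.of i : SurfaceGroup g) * PresentedGroup.of (closedOpp g i) = 1 := by
  have := PresentedGroup.one_of_mem (rels := closedRels g)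
    (x := FreeGroup.of i * FreeGroup.of (closedOpp g i)) (Or.inl ⟨i, rfl⟩)
  rwa [map_mul] at this

theorem closed_main {g : ℕ} (hg : 2 ≤ g)
    (H : HypModel (closedOpp g) (fun i => (PresentedGroup.of i : SurfaceGroup g)) True)
    (hK : ∀ [NeZero (4 * g)], ∀ (w : List (ZMod (4 * g))), w ≠ [] → ∀ ord : ℕ → ℤ,
      Function.Injective ord → ∀ m : ℕ, Even m → ∀ (e : ℤ) (x : ℝ), (∀ k : ℤ, x ≠ k) →
      Fun (closedOpp g) closed_inv (closed_ne (show 1 ≤ g by omega)) e x
        (Multiset.replicate m ((w.map PresentedGroup.of).prod)) =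
        coreSum (closedOpp g) w ord m e x)
    {c : ℕ} (hc : Even c) (hc0 : 0 < c) {γ : SurfaceGroup g} (hγ : γ ≠ 1)
    (hs : ¬ IsSimple (closedOpp g) (fun i => (PresentedGroup.of i : SurfaceGroup g)) γ)
    (hp : ¬ IsProperPower γ) :
    ∃ p₀ : ℕ, ∀ p, p₀ ≤ p → Odd p → ∀ A : ℂ, IsPrimitiveRoot A (2 * p) →
      ∀ (d : ℕ) (ρ : SurfaceGroup g →* PGL d),
        IsWRT (closedOpp g) (fun i => PresentedGroup.of i) c p A (fun _ => 1) ρ →
        ¬ IsOfFinOrder (ρ γ) := by
  by_contra hcon
  push Not at hcon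
  have : NeZero (4 * g) := ⟨by omega⟩
  obtain ⟨L, hL1, hL2⟩ := Rec.recursion closed_inv (closed_ne (show 1 ≤ g by omega)) H
    (fun x hx => traceFun_FunC hg hx) (termEval_closed hg) (lim_zero_closed hg) hc hc0 hγ hs hp
  obtain ⟨w, hw, hwγ⟩ := exists_word (opp := closedOpp g)
    (s := fun i => (PresentedGroup.of i : SurfaceGroup g)) closed_rel
    (PresentedGroup.closure_range_of _) γ
  have hb := Lim.closed_bound hg closed_rel hc hw hwγ (ord := fun k => (k : ℤ))
    Nat.cast_injective hcon (L := L) (by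
      refine hL2.congr' ?_
      filter_upwards [Rec.eventually_not_int] with x hx
      congr 1
      symm
      refine coreCol_eq (closedOpp g) w _ c _ x (FunC hg x) γ fun i hi => ?_
      have h1 := FunC_map hg hx
        (Multiset.replicate (c - 2 * i) ((w.map PresentedGroup.of).prod))
      rw [Multiset.map_replicate, map_list_prod, List.map_map] at h1
      have h2 : (proj g ∘ PresentedGroup.of) =
          (fun i => (PresentedGroup.of i : SurfaceGroup g)) := funext fun i => proj_of g i
      rw [h2, hwγ] at h1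
      rw [h1]
      exact hK w hw _ Nat.cast_injective _ (by
        obtain ⟨d, rfl⟩ := hc
        exact ⟨d - i, by omega⟩) _ x hx)
  have := le_abs_self L
  linarith

end closed

end Pool.Agent.AMU.Asm
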