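import Pool.Agent.Lib.AMU.Con6

/-!
# The functional on even cables is the classical state sum (section K)
-/

set_option autoImplicit false

namespace Pool.Agent.AMU.Con

section final

variable {N : ℕ} [NeZero N] (opp : ZMod N → ZMod N) {w : List (ZMod N)} {m : ℕ} (ord : ℕ → ℤ)
  (hinv : ∀ i, opp (opp i) = i) (hne : ∀ i, opp i ≠ i)
  (Q : List (S1 w m × Bool)) (hn : Q.Nodup) (ha : ∀ x, x ∈ Q)
  (hs : Q.Pairwise fun a b => ptKey opp w ord (em a) < ptKey opp w ord (em b))
  (hperm : (Q.map em).Perm (ends (chords w m)))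

/-- The number of the side of a point. -/
def gs (x : S1 w m × Bool) : ℕ := (sd opp x).val

theorem gs_lt (x : S1 w m × Bool) : gs opp x < N := ZMod.val_lt _

theorem filter_sd (j : ℕ) (hj : j < N) :
    Q.filter (fun x => decide (gs opp x = j)) =
      Q.filter fun x => decide (sd opp x = (j : ZMod N)) := by
  refine List.filter_congr fun x _ => ?_
  have h : gs opp x = j ↔ sd opp x = (j : ZMod N) := by
    unfold gs
    constructor
    · rintro rfl
      simp
    · intro h
      rw [h, ZMod.val_cast_of_lt hj]
  simp only [h]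

theorem filter_sd' (i : ZMod N) :
    Q.filter (fun x => decide (sd opp x = i)) = Q.filter fun x => decide (gs opp x = i.val) := by
  rw [filter_sd opp Q i.val (ZMod.val_lt i)]
  simp

theorem filter_ge (j : ℕ) (hj : N ≤ j) : Q.filter (fun x => decide (gs opp x = j)) = [] := by
  rw [List.filter_eq_nil_iff]
  intro x _
  have := gs_lt opp x
  simp only [decide_eq_true_eq]
  omega

theorem filter_all : Q.filter (fun x => decide (gs opp x < N)) = Q := by
  rw [List.filter_eq_self]
  intro x _
  simpa using gs_lt opp x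

include hs in
omit [NeZero N] in
theorem gs_mono : Q.Pairwise fun a b => gs opp a ≤ gs opp b := by
  refine hs.imp ?_
  intro a b hab
  rw [ptKey_em, ptKey_em, Prod.Lex.lt_iff] at hab
  simp only [ofLex_toLex] at hab
  unfold gs
  rcases hab with h | ⟨h, -⟩ <;> omega

theorem BalQ_iff (σ : S1 w m × Bool → Bool) : BalQ opp Q σ ↔
    ∀ j : ℕ, stepSum ((Q.filter fun x => decide (gs opp x = j)).map σ) = 0 := by
  constructor
  · intro h j
    by_cases hj : j < N
    · rw [filter_sd opp Q j hj]
      exact h _
    · rw [filter_ge opp Q j (by omega)]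
      rfl
  · intro h i
    rw [filter_sd']
    exact h _

include hinv hne hn ha hs

theorem bdry_SS (y : ℝ) (lab : S1 w m × Bool → Bool) (ε : S1 w m → Bool)
    (hB : BalQ opp Q (sg opp ε)) :
    bdry opp y (SS opp Q lab ε) = W y 0 (Q.map fun x => (sg opp ε x, lab x)) := by
  have h := (W_sides Q (gs opp) (gs_mono opp ord Q hs) y (sg opp ε) lab
    ((BalQ_iff opp Q _).1 hB) N).1
  rw [filter_all] at h
  rw [h]
  unfold bdry
  congr 1
  refine List.map_congr_left fun j hj => ?_
  rw [List.mem_range] at hj
  rw [sideWord_SS opp ord hinv hne Q hn ha hs, filter_sd opp Q j hj]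

theorem termS_SS (y : ℝ) (e : ℤ) (lab : S1 w m × Bool → Bool) (ε : S1 w m → Bool) :
    termS opp y e (SS opp Q lab ε) = (open Classical in if BalQ opp Q (sg opp ε) then
      dl y 0 ^ (e + 1) * (∏ i ∈ canon opp,
        wprod y 0 ((Q.filter fun x => decide (sd opp x = i)).map (sg opp ε))) *
          Phi y (Q.map fun x => (sg opp ε x, lab x)) else 0) := by
  classical
  unfold termS
  have hB := Bal_SS opp ord hinv hne Q hn ha hs lab ε
  by_cases h : BalQ opp Q (sg opp ε)
  · rw [if_pos (hB.2 h), if_pos h, bdry_SS opp ord hinv hne Q hn ha hs y lab ε h]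
    unfold Phi
    congr 2
    refine Finset.prod_congr rfl fun i hi => ?_
    rw [steps_SS opp hinv Q lab ε i (by simpa [canon] using hi)]
  · rw [if_neg (fun h1 => h (hB.1 h1)), if_neg h]

omit hinv hne hn ha

include hperm

omit [NeZero N] in
theorem corner_eq (j : ℕ) : corner opp w (ends (chords w m)) j = cnt Q (gs opp) j := by
  unfold corner cnt
  rw [← hperm.countP_eq, List.countP_map]
  rfl

omit [NeZero N] in
theorem getD_rank (σ : S1 w m × Bool → Bool) (x : S1 w m × Bool) (hx : x ∈ Q) :
    ((Q.map σ).map sgn).getD (rank opp w ord (ends (chords w m)) (em x)) 0 = sgn (σ x) := by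
  obtain ⟨Q1, Q2, rfl⟩ := List.append_of_mem hx
  have h1 : (Q1 ++ x :: Q2).map em = Q1.map em ++ em x :: Q2.map em := by simp
  rw [h1] at hperm
  have h2 : Srt opp w ord (Q1.map em ++ em x :: Q2.map em) := by
    unfold Srt
    rw [← h1, List.pairwise_map]
    exact hs
  rw [rank_eq_length opp w ord _ _ _ _ hperm h2, List.length_map]
  simp [List.getD]

include ha in
theorem CoreAdm_iff (σ : S1 w m × Bool → Bool) :
    CoreAdm opp w ord m (fun _ => True) ((Q.map σ).map sgn) ↔
      BalQ opp Q σ ∧ ∀ z, σ (z, false) = !σ (z, true) := by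
  have hg := gs_mono opp ord Q hs
  have hlev : ∀ j : ℕ, lev ((Q.map σ).map sgn) (corner opp w (ends (chords w m)) j) =
      stepSum ((Q.filter fun x => decide (gs opp x < j)).map σ) := by
    intro j
    rw [corner_eq opp ord Q hs hperm]
    unfold lev cnt
    rw [← List.map_take, ← List.map_take, take_countP_lt Q (gs opp) hg, map_sgn_sum]
  constructor
  · rintro ⟨-, h1, h2, h3⟩
    have h4 : ∀ j ≤ N, stepSum ((Q.filter fun x => decide (gs opp x < j)).map σ) = 0 := by
      intro j hj
      rcases Nat.lt_or_ge j N with h | h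
      · rw [← hlev]
        exact h2 j h
      · have : j = N := by omega
        rw [this, filter_all]
        rw [map_sgn_sum] at h1
        exact h1
    constructor
    · intro i
      rw [filter_sd']
      have h5 := h4 (i.val + 1) (ZMod.val_lt i)
      rw [filter_lt_succ Q (gs opp) hg, List.map_append, stepSum_append,
        h4 i.val (ZMod.val_lt i).le, zero_add] at h5
      exact h5
    · intro z
      have h5 := h3 z.2.1 z.2.1.isLt z.2.2 z.2.2.isLt
      have e1 : ((z.2.1.val, z.2.2.val, false) : Pt) = em (z, false) := rfl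
      have e2 : ((z.2.1.val, z.2.2.val, true) : Pt) = em (z, true) := rfl
      rw [e1, e2, getD_rank opp ord Q hs hperm σ _ (ha _),
        getD_rank opp ord Q hs hperm σ _ (ha _)] at h5
      revert h5
      cases σ (z, false) <;> cases σ (z, true) <;> simp [sgn]
  · rintro ⟨h1, h2⟩
    have h3 := (BalQ_iff opp Q σ).1 h1
    have h4 : ∀ j : ℕ, stepSum ((Q.filter fun x => decide (gs opp x < j)).map σ) = 0 :=
      fun j => (W_sides Q (gs opp) hg 0 σ σ h3 j).2
    refine ⟨fun _ _ => trivial, ?_, fun j _ => ?_, ?_⟩
    · rw [map_sgn_sum]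
      have := h4 N
      rwa [filter_all] at this
    · rw [hlev]
      exact h4 j
    · intro k hk u hu
      have e1 : ((k, u, false) : Pt) = em (mk1 (w := w) (m := m) ⟨k, hk⟩ ⟨u, hu⟩, false) := rfl
      have e2 : ((k, u, true) : Pt) = em (mk1 (w := w) (m := m) ⟨k, hk⟩ ⟨u, hu⟩, true) := rfl
      rw [e1, e2, getD_rank opp ord Q hs hperm σ _ (ha _),
        getD_rank opp ord Q hs hperm σ _ (ha _), h2, sgn_not]

/-- The weights of the intervals. -/
theorem weights_eq (y : ℝ) (σ : S1 w m × Bool → Bool) (hB : BalQ opp Q σ) :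
    (∏ i ∈ (Finset.range N).filter (fun i : ℕ => i < (opp (i : ZMod N)).val),
        ∏ j ∈ Finset.Icc (corner opp w (ends (chords w m)) i)
          (corner opp w (ends (chords w m)) (i + 1)),
            (dl y (lev ((Q.map σ).map sgn) j))⁻¹) =
      ∏ i ∈ canon opp, wprod y 0 ((Q.filter fun x => decide (sd opp x = i)).map σ) := by
  have hg := gs_mono opp ord Q hs
  have h3 := (BalQ_iff opp Q σ).1 hB
  refine Finset.prod_nbij' (fun i => (i : ZMod N)) (fun i => i.val) ?_ ?_ ?_ ?_ ?_
  · intro i hi
    simp only [Finset.mem_filter, Finset.mem_range] at hi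
    simp only [canon, Finset.mem_filter, Finset.mem_univ, true_and]
    rw [ZMod.val_cast_of_lt hi.1]
    exact hi.2
  · intro i hi
    simp only [canon, Finset.mem_filter, Finset.mem_univ, true_and] at hi
    simp only [Finset.mem_filter, Finset.mem_range]
    refine ⟨ZMod.val_lt i, ?_⟩
    simpa using hi
  · intro i hi
    simp only [Finset.mem_filter, Finset.mem_range] at hi
    exact ZMod.val_cast_of_lt hi.1
  · intro i _
    simp
  · intro i hi
    simp only [Finset.mem_filter, Finset.mem_range] at hi
    rw [corner_eq opp ord Q hs hperm, corner_eq opp ord Q hs hperm,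
      prod_Icc_eq Q (gs opp) hg y σ i (W_sides Q (gs opp) hg 0 σ σ h3 i).2,
      filter_sd opp Q i hi.1]

end final

section final2

variable {N : ℕ} [NeZero N] (opp : ZMod N → ZMod N) {w : List (ZMod N)} {m : ℕ}

/-- The canonical end of a strand. -/
def cp (z : S1 w m) : S1 w m × Bool := if isC opp (z, false) then (z, false) else (z, true)

variable (hinv : ∀ i, opp (opp i) = i) (hne : ∀ i, opp i ≠ i)

include hinv hne

theorem cp_of (x : S1 w m × Bool) : cp opp x.1 = if isC opp x then x else mate x := by
  obtain ⟨z, b⟩ := x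
  have h := isC_mate opp hinv hne (z, false)
  have e : mate (z, false) = (z, true) := rfl
  rw [e] at h
  unfold cp
  cases b
  · simp only [e]
  · simp only [h]
    cases isC opp (z, false) <;> rfl

/-- Sums over the opposite steps. -/
theorem sum_opposite (H : (S1 w m × Bool → Bool) → ℝ) (P : (S1 w m × Bool → Bool) → Prop) :
    (open Classical in ∑ σ : S1 w m × Bool → Bool,
      if P σ ∧ ∀ z, σ (z, false) = !σ (z, true) then H σ else 0) =
    (open Classical in ∑ ε : S1 w m → Bool, if P (sg opp ε) then H (sg opp ε) else 0) := by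
  classical
  have h1 : (∑ σ : S1 w m × Bool → Bool,
      if P σ ∧ ∀ z, σ (z, false) = !σ (z, true) then H σ else 0) =
      ∑ σ ∈ Finset.univ.filter (fun σ : S1 w m × Bool → Bool => ∀ z, σ (z, false) = !σ (z, true)),
        if P σ then H σ else 0 := by
    rw [Finset.sum_filter]
    refine Finset.sum_congr rfl fun σ _ => ?_
    by_cases h2 : ∀ z, σ (z, false) = !σ (z, true)
    · rw [if_pos h2]
      by_cases h3 : P σ
      · rw [if_pos ⟨h3, h2⟩, if_pos h3]
      · rw [if_neg (fun h => h3 h.1), if_neg h3]
    · rw [if_neg h2, if_neg (fun h => h2 h.2)]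
  rw [h1]
  refine Finset.sum_nbij' (fun σ => fun z => σ (cp opp z)) (fun ε => sg opp ε) ?_ ?_ ?_ ?_ ?_
  · intro σ _
    exact Finset.mem_univ _
  · intro ε _
    rw [Finset.mem_filter]
    refine ⟨Finset.mem_univ _, fun z => ?_⟩
    exact sg_mate opp hinv hne ε (z, true)
  · intro σ hσ
    rw [Finset.mem_filter] at hσ
    funext x
    have h2 : σ (mate x) = !σ x := by
      obtain ⟨z, b⟩ := x
      cases b
      · have := hσ.2 z
        show σ (z, true) = !σ (z, false)
        rw [this, Bool.not_not]
      · exact hσ.2 z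
    show (if isC opp x = true then σ (cp opp x.1) else !σ (cp opp x.1)) = σ x
    rw [cp_of opp hinv hne x]
    by_cases hx : isC opp x = true
    · rw [if_pos hx, if_pos hx]
    · rw [if_neg hx, if_neg hx, h2, Bool.not_not]
  · intro ε _
    funext z
    have hc : isC opp (cp opp z) = true ∧ (cp opp z).1 = z := by
      unfold cp
      by_cases hz : isC opp (z, false) = true
      · rw [if_pos hz]; exact ⟨hz, rfl⟩
      · rw [if_neg hz]
        refine ⟨?_, rfl⟩
        have h := isC_mate opp hinv hne (z, false)
        have e : mate (z, false) = (z, true) := rfl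
        rw [e] at h
        rw [h]
        simpa using hz
    show sg opp ε (cp opp z) = ε z
    unfold sg
    rw [if_pos hc.1, hc.2]
  · intro σ hσ
    rw [Finset.mem_filter] at hσ
    have : sg opp (fun z => σ (cp opp z)) = σ := by
      funext x
      have h2 : σ (mate x) = !σ x := by
        obtain ⟨z, b⟩ := x
        cases b
        · have := hσ.2 z
          show σ (z, true) = !σ (z, false)
          rw [this, Bool.not_not]
        · exact hσ.2 z
      show (if isC opp x = true then σ (cp opp x.1) else !σ (cp opp x.1)) = σ x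
      rw [cp_of opp hinv hne x]
      by_cases hx : isC opp x = true
      · rw [if_pos hx, if_pos hx]
      · rw [if_neg hx, if_neg hx, h2, Bool.not_not]
    rw [this]

omit hinv hne in
theorem prod_sgn (hm : Even m) : ∏ i : S1 w m, stSgn opp i = 1 := by
  rw [Fintype.prod_sigma, Fin.prod_univ_one, Fintype.prod_prod_type]
  refine Finset.prod_eq_one fun k _ => ?_
  have h : ∀ u : Fin m, stSgn opp (⟨0, (k, u)⟩ : S1 w m) =
      if (w.getD k 0).val < (opp (w.getD k 0)).val then 1 else -1 := fun u => rfl
  simp only [h]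
  rw [Finset.prod_const, Finset.card_univ, Fintype.card_fin]
  split_ifs
  · exact one_pow _
  · exact hm.neg_one_pow

end final2

section main

variable {N : ℕ} [NeZero N] (opp : ZMod N → ZMod N) (hinv : ∀ i, opp (opp i) = i)
  (hne : ∀ i, opp i ≠ i) (w : List (ZMod N)) (ord : ℕ → ℤ)
  (hord : Function.Injective ord) (m : ℕ) (hm : Even m) (e : ℤ)

include hinv hne hord hm

/-- The classical state sum at `y` as a sum over labels. -/
theorem core_eq {y : ℝ} (hy : ∀ k : ℤ, y ≠ k) (Q : List (S1 w m × Bool)) (hn : Q.Nodup)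
    (ha : ∀ x, x ∈ Q)
    (hs : Q.Pairwise fun a b => ptKey opp w ord (em a) < ptKey opp w ord (em b))
    (hperm : (Q.map em).Perm (ends (chords w m))) :
    ∑ lab : S1 w m × Bool → Bool,
        (∏ i : S1 w m, stSgn opp i * ep (lab (i, true)) (lab (stNxt i, false))) *
          term opp y e ((LQ opp Q).map (stStr opp lab)) = core opp w ord m e y := by
  classical
  have hy0 : dl y 0 ≠ 0 := dl_ne hy 0
  have hlen : Q.length = 2 * (w.length * m) := by
    have := hperm.length_eq
    rw [List.length_map, length_ends, length_chords] at this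
    exact this
  obtain ⟨T, hT1, hT2⟩ := amp_rep opp w ord hy (chords w m)
    (nodup_ends.map (ptKey_inj opp w ord hne hord))
  rw [length_chords] at hT1
  have hsrt : Srt opp w ord (Q.map em) := by
    unfold Srt
    rw [List.pairwise_map]
    exact hs
  -- the amplitude
  have hamp : ∀ σ : S1 w m × Bool → Bool,
      amp (dl y) (-1) (rank opp w ord) (chords w m) 0 ((Q.map σ).map sgn) =
      dl y 0 * ∑ lab : S1 w m × Bool → Bool, Phi y (Q.map fun x => (σ x, lab x)) *
        ∏ i : S1 w m, ep (lab (i, true)) (lab (stNxt i, false)) := by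
    intro σ
    rw [hT1 (Q.map σ) (by rw [List.length_map, hlen]), sumB_enum Q hn ha _ hlen.symm]
    congr 1
    refine Finset.sum_congr rfl fun lab _ => ?_
    rw [List.zip_map']
    congr 1
    have h1 : Q.map lab = (Q.map em).map (Function.extend em lab fun _ => false) := by
      rw [List.map_map]
      refine List.map_congr_left fun x _ => ?_
      simp only [Function.comp_apply]
      rw [em_inj.extend_apply]
    rw [h1, hT2 _ hperm hsrt, sgc_chords opp w ord hne hord m hm, one_mul]
    exact prod_chords lab _ fun x => em_inj.extend_apply _ _ _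
  -- the right side
  have hR : core opp w ord m e y = ∑ ε : S1 w m → Bool,
      if BalQ opp Q (sg opp ε) then dl y 0 ^ (e + 1) * (∏ i ∈ canon opp,
        wprod y 0 ((Q.filter fun x => decide (sd opp x = i)).map (sg opp ε))) *
          ∑ lab : S1 w m × Bool → Bool, Phi y (Q.map fun x => (sg opp ε x, lab x)) *
            ∏ i : S1 w m, ep (lab (i, true)) (lab (stNxt i, false)) else 0 := by
    rw [← sum_opposite opp hinv hne (fun σ => dl y 0 ^ (e + 1) * (∏ i ∈ canon opp,
        wprod y 0 ((Q.filter fun x => decide (sd opp x = i)).map σ)) *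
          ∑ lab : S1 w m × Bool → Bool, Phi y (Q.map fun x => (σ x, lab x)) *
            ∏ i : S1 w m, ep (lab (i, true)) (lab (stNxt i, false))) (BalQ opp Q)]
    have hcore : core opp w ord m e y = sumB (2 * (w.length * m)) (fun bs =>
        if CoreAdm opp w ord m (fun _ => True) (bs.map sgn) then
        dl y 0 ^ e *
        (∏ i ∈ (Finset.range N).filter (fun i : ℕ => i < (opp (i : ZMod N)).val),
          ∏ j ∈ Finset.Icc (corner opp w (ends (chords w m)) i)
            (corner opp w (ends (chords w m)) (i + 1)),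
              (dl y (lev (bs.map sgn) j))⁻¹) *
        (∏ u ∈ Finset.range m, ((1 : ℝ) / 1)) *
        amp (dl y) (-1) (rank opp w ord) (chords w m) 0 (bs.map sgn)
        else 0) := by
      rw [sumB_eq_sum]
      unfold core coreG
      refine Finset.sum_congr rfl fun b _ => ?_
      rw [List.map_ofFn]
      rfl
    rw [hcore, sumB_enum Q hn ha _ hlen.symm]
    refine Finset.sum_congr rfl fun σ _ => ?_
    have hadm := CoreAdm_iff opp ord Q ha hs hperm σ
    by_cases hc : CoreAdm opp w ord m (fun _ => True) ((Q.map σ).map sgn)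
    · rw [if_pos hc, if_pos (hadm.1 hc), hamp, weights_eq opp ord Q hs hperm y σ (hadm.1 hc).1,
        zpow_add_one₀ hy0]
      simp only [div_one, Finset.prod_const_one, mul_one]
      ring
    · rw [if_neg hc, if_neg (fun h => hc (hadm.2 h))]
  rw [hR]
  have hterm : ∀ lab : S1 w m × Bool → Bool,
      term opp y e ((LQ opp Q).map (stStr opp lab)) = ∑ ε : S1 w m → Bool,
        if BalQ opp Q (sg opp ε) then dl y 0 ^ (e + 1) * (∏ i ∈ canon opp,
        wprod y 0 ((Q.filter fun x => decide (sd opp x = i)).map (sg opp ε))) *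
          Phi y (Q.map fun x => (sg opp ε x, lab x)) else 0 := by
    intro lab
    unfold term
    rw [sumSteps_enum (LQ opp Q) (LQ_nodup opp hinv hne Q hn) (LQ_mem opp hinv hne Q ha)]
    refine Finset.sum_congr rfl fun ε _ => ?_
    exact termS_SS opp ord hinv hne Q hn ha hs y e lab ε
  simp only [hterm, Finset.prod_mul_distrib, prod_sgn opp hm, one_mul]
  simp only [Finset.mul_sum]
  rw [Finset.sum_comm]
  refine Finset.sum_congr rfl fun ε _ => ?_
  by_cases hB : BalQ opp Q (sg opp ε)
  · simp only [if_pos hB]
    refine Finset.sum_congr rfl fun lab _ => ?_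
    ring
  · simp only [if_neg hB, mul_zero, Finset.sum_const_zero]

end main

end Pool.Agent.AMU.Con

namespace Pool.Agent.AMU

/-- **Section K.** The functional on even cables is the classical state sum. -/
theorem Fun_eq_coreSum {N : ℕ} [NeZero N] (opp : ZMod N → ZMod N) (hinv : ∀ i, opp (opp i) = i)
    (hne : ∀ i, opp i ≠ i) (w : List (ZMod N)) (hw : w ≠ []) (ord : ℕ → ℤ)
    (hord : Function.Injective ord) (m : ℕ) (hm : Even m) (e : ℤ) (x : ℝ)
    (hx : ∀ k : ℤ, x ≠ k) :
    Fun opp hinv hne e x (Multiset.replicate m ((w.map PresentedGroup.of).prod)) =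
      coreSum opp w ord m e x := by
  obtain ⟨Q, hn, ha, hs, hperm⟩ := Con.exists_Q (w := w) (m := m) opp ord hne hord
  have h := Fun_words opp hinv hne e hx (fun _ : Fin 1 => w) (fun _ => hw) (fun _ => m)
    (Con.LQ opp Q) (Con.LQ_nodup opp hinv hne Q hn) (Con.LQ_mem opp hinv hne Q ha)
  rw [Fin.sum_univ_one] at h
  rw [h]
  unfold coreSum
  refine tsum_congr fun k => ?_
  exact Con.core_eq opp hinv hne w ord hord m hm e (ne_shift hx k) Q hn ha hs hperm

end Pool.Agent.AMU
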