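import Pool.Agent.Lib.AMU.Cor8

/-!
# Section D, part 9: the final model gives a hyperbolic model (continued)
-/

set_option autoImplicit false

namespace Pool.Agent.AMU.Cor

open Matrix

section model

variable {N : ℕ} {opp : ZMod N → ZMod N} {Γ : Type} [Group Γ] {s : ZMod N → Γ} {closed : Prop}
  (M : CModel opp s closed) {r : ℕ} (l : Fin r → Γ)

open Classical in
/-- The signs. -/
noncomputable def msg (g : Γ) (i : ZMod N) : Bool :=
  if Ori l g then decide (OnR M.hol M.A g i) else !decide (OnR M.hol M.A g⁻¹ i)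

variable {M l}

open Classical in
theorem msg_true {g : Γ} (h : Ori l g) (i : ZMod N) :
    msg M l g i = true ↔ OnR M.hol M.A g i := by
  unfold msg
  rw [if_pos h, decide_eq_true_iff]

open Classical in
theorem msg_false {g : Γ} (h : Ori l g) (i : ZMod N) :
    msg M l g i = false ↔ ¬ OnR M.hol M.A g i := by
  unfold msg
  rw [if_pos h, decide_eq_false_iff_not]

open Classical in
theorem msg_true' {g : Γ} (h : ¬ Ori l g) (i : ZMod N) :
    msg M l g i = true ↔ ¬ OnR M.hol M.A g⁻¹ i := by
  unfold msg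
  rw [if_neg h, Bool.not_eq_true', decide_eq_false_iff_not]

open Classical in
theorem msg_false' {g : Γ} (h : ¬ Ori l g) (i : ZMod N) :
    msg M l g i = false ↔ OnR M.hol M.A g⁻¹ i := by
  unfold msg
  rw [if_neg h, Bool.not_eq_false', decide_eq_true_iff]

theorem onR_start {g : Γ} (hg : g ≠ 1) (i : ZMod N) :
    OnR M.hol M.A ((s i)⁻¹ * g * s i) (opp i + 1) ↔ OnR M.hol M.A g i := by
  have h1 : (s i)⁻¹ * g * s i ≠ 1 := by
    intro h
    apply hg
    have : g = s i * ((s i)⁻¹ * g * s i) * (s i)⁻¹ := by group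
    rw [this, h]
    group
  unfold OnR
  rw [← M.corner _ _ h1, map_mul, map_mul, map_inv, axN_conj]
  obtain ⟨c, hc, he⟩ := M.glueA i
  rw [he, axN_smul]
  exact mul_pos_iff_of_pos_left hc

theorem onR_end {g : Γ} (hg : g ≠ 1) (i : ZMod N) :
    OnR M.hol M.A ((s i)⁻¹ * g * s i) (opp i) ↔ OnR M.hol M.A g (i + 1) := by
  unfold OnR
  rw [← M.corner _ _ hg, map_mul, map_mul, map_inv, axN_conj]
  obtain ⟨c, hc, he⟩ := M.glueB i
  rw [he, axN_smul]
  exact mul_pos_iff_of_pos_left hc

theorem conj_s (g : Γ) (i : ZMod N) : IsConj g ((s i)⁻¹ * g * s i) :=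
  isConj_iff.2 ⟨(s i)⁻¹, by group⟩

theorem inv_s (g : Γ) (i : ZMod N) : ((s i)⁻¹ * g * s i)⁻¹ = (s i)⁻¹ * g⁻¹ * s i := by group

variable (M l)

/-- The corner model of a family. -/
noncomputable def toCorner
    (horb : closed → ∀ i j : ZMod N, ∃ k : ℕ, (fun i => opp (i - 1))^[k] i = j)
    (hl : ∀ j, l j ≠ 1) (hdiff : ∀ i j, i ≠ j → ¬ IsConj (l i) (l j)⁻¹) :
    CornerModel opp s closed where
  hol := M.hol
  hyp := M.hyp
  disc := M.disc
  Q := M.A
  Q_symm := M.A_symm
  Q_psd := M.A_psd
  Q_conv := M.conv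
  sg := msg M l
  sg_true := by
    intro g i hg h
    by_cases ho : Ori l g
    · exact axisFun_nrm_nonneg (M.hyp g hg) (le_of_lt ((msg_true ho i).1 h))
    · refine axisFun_nrm_nonneg (M.hyp g hg) ?_
      have h1 := not_lt.1 ((msg_true' ho i).1 h)
      rw [map_inv, axN_inv _ (M.A_symm i)] at h1
      linarith
  sg_false := by
    intro g i hg h
    by_cases ho : Ori l g
    · exact axisFun_nrm_nonpos (M.hyp g hg) (not_lt.1 ((msg_false ho i).1 h))
    · refine axisFun_nrm_nonpos (M.hyp g hg) ?_
      have h1 := le_of_lt ((msg_false' ho i).1 h)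
      rw [map_inv, axN_inv _ (M.A_symm i)] at h1
      linarith
  sg_inv := by
    intro g i hg
    have h1 := ori_inv (fun g hg => not_conj_inv' M.hyp hg) hl hdiff hg
    by_cases ho : Ori l g
    · have h2 : ¬ Ori l g⁻¹ := fun h => h1.1 h ho
      unfold msg
      rw [if_pos ho, if_neg h2, inv_inv]
    · have h2 : Ori l g⁻¹ := h1.2 ho
      unfold msg
      rw [if_neg ho, if_pos h2, Bool.not_not]
  sg_start := by
    intro g i hg
    have hc := conj_s (s := s) g i
    rw [Bool.eq_iff_iff]
    by_cases ho : Ori l g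
    · rw [msg_true ho, msg_true ((ori_iff hc).1 ho), onR_start hg]
    · rw [msg_true' ho, msg_true' (fun h => ho ((ori_iff hc).2 h)), inv_s,
        onR_start (inv_ne_one.2 hg)]
  sg_end := by
    intro g i hg
    have hc := conj_s (s := s) g i
    rw [Bool.eq_iff_iff]
    by_cases ho : Ori l g
    · rw [msg_true ho, msg_true ((ori_iff hc).1 ho), onR_end hg]
    · rw [msg_true' ho, msg_true' (fun h => ho ((ori_iff hc).2 h)), inv_s,
        onR_end (inv_ne_one.2 hg)]
  exists_cross := by
    intro g hg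
    by_cases ho : Ori l g
    · obtain ⟨k, i, j, h1, h2⟩ := M.exists_cross g hg
      have ho' := (ori_iff (isConj_iff.2 ⟨k, rfl⟩ : IsConj g (k * g * k⁻¹))).1 ho
      refine ⟨k, i, j, ?_⟩
      rw [(msg_true ho' i).2 h1, (msg_false ho' j).2 h2]
      decide
    · obtain ⟨k, i, j, h1, h2⟩ := M.exists_cross g⁻¹ (inv_ne_one.2 hg)
      have ho' : ¬ Ori l (k * g * k⁻¹) := fun h => ho
        ((ori_iff (isConj_iff.2 ⟨k, rfl⟩ : IsConj g (k * g * k⁻¹))).2 h)
      have e : (k * g * k⁻¹)⁻¹ = k * g⁻¹ * k⁻¹ := by group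
      rw [← e] at h1 h2
      refine ⟨k, i, j, ?_⟩
      rw [(msg_false' ho' i).2 h1, (msg_true' ho' j).2 h2]
      decide
  finite_cross := by
    intro g hg
    by_cases ho : Ori l g
    · refine (M.finite_cross g hg).subset ?_
      rintro h ⟨hc, i, j, hij⟩
      refine ⟨hc, ?_⟩
      have ho' := (ori_iff hc).1 ho
      cases h1 : msg M l h i with
      | true =>
        cases h2 : msg M l h j with
        | true => exact absurd (h1.trans h2.symm) hij
        | false => exact ⟨i, j, (msg_true ho' i).1 h1, (msg_false ho' j).1 h2⟩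
      | false =>
        cases h2 : msg M l h j with
        | true => exact ⟨j, i, (msg_true ho' j).1 h2, (msg_false ho' i).1 h1⟩
        | false => exact absurd (h1.trans h2.symm) hij
    · refine ((M.finite_cross g⁻¹ (inv_ne_one.2 hg)).image (fun h => h⁻¹)).subset ?_
      rintro h ⟨hc, i, j, hij⟩
      refine ⟨h⁻¹, ⟨isConj_inv hc, ?_⟩, inv_inv h⟩
      have ho' : ¬ Ori l h := fun h1 => ho ((ori_iff hc).2 h1)
      cases h1 : msg M l h i with
      | true =>
        cases h2 : msg M l h j with
        | true => exact absurd (h1.trans h2.symm) hij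
        | false => exact ⟨j, i, (msg_false' ho' j).1 h2, (msg_true' ho' i).1 h1⟩
      | false =>
        cases h2 : msg M l h j with
        | true => exact ⟨i, j, (msg_false' ho' i).1 h1, (msg_true' ho' j).1 h2⟩
        | false => exact absurd (h1.trans h2.symm) hij
  P := Ori l
  P_conj := fun g h hc => (ori_iff hc).1
  cycle := by
    intro g n u h hg hP hpp hn h0 h1 hmin hsg hnext
    have hP' : ∀ k ≤ n, Ori l (h k) := by
      intro k
      induction k with
      | zero =>
        intro _
        rw [h0]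
        exact hP
      | succ k ih =>
        intro hk
        rw [hnext k (by omega)]
        exact (ori_iff (conj_s _ _)).1 (ih (by omega))
    refine M.cycle g n u h hg hpp hn h0 h1 hmin ⟨?_, ?_, hnext⟩
    · intro k hk
      exact (msg_true (hP' k hk.le) _).1 (hsg k hk).1
    · intro k hk
      exact (msg_false (hP' k hk.le) _).1 (hsg k hk).2
  θ := M.θ
  θ_opp := M.θ_opp
  θ_sq := M.θ_sq
  sign := by
    intro g n u h hg hP hn h0 h1 hsg hnext hprod
    have hP' : ∀ k ≤ n, Ori l (h k) := by
      intro k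
      induction k with
      | zero =>
        intro _
        rw [h0]
        exact hP
      | succ k ih =>
        intro hk
        rw [hnext k (by omega)]
        exact (ori_iff (conj_s _ _)).1 (ih (by omega))
    refine M.sign g n u h hg hn h0 h1 ⟨?_, ?_, hnext⟩ hprod
    · intro k hk
      exact (msg_true (hP' k hk.le) _).1 (hsg k hk).1
    · intro k hk
      exact (msg_false (hP' k hk.le) _).1 (hsg k hk).2
  uncut := by
    intro hcl g hg hrel hsg
    have hconj : ∀ i j : ZMod N, Ori l (g i) ↔ Ori l (g j) := by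
      have step : ∀ i, Ori l (g i) ↔ Ori l (g (opp (i - 1))) := by
        intro i
        rw [hrel i]
        exact ori_iff (conj_s _ _)
      have iter : ∀ (k : ℕ) (i : ZMod N),
          Ori l (g i) ↔ Ori l (g ((fun i => opp (i - 1))^[k] i)) := by
        intro k
        induction k with
        | zero => exact fun i => Iff.rfl
        | succ k ih =>
          intro i
          rw [Function.iterate_succ_apply]
          exact (step i).trans (ih _)
      intro i j
      obtain ⟨k, hk⟩ := horb hcl i j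
      rw [← hk]
      exact iter k i
    by_cases ho : Ori l (g 0)
    · have ho' : ∀ i, Ori l (g i) := fun i => (hconj 0 i).1 ho
      obtain ⟨i, hi⟩ := M.uncutR hcl g hg hrel (fun i => (msg_true (ho' i) i).1 (hsg i))
      refine ⟨i, ?_⟩
      rw [msg_true (ho' i), msg_true (ho' i)]
      exact hi
    · have ho' : ∀ i, ¬ Ori l (g i) := fun i h => ho ((hconj 0 i).2 h)
      obtain ⟨i, hi⟩ := M.uncutL hcl (fun i => (g i)⁻¹) (fun i => inv_ne_one.2 (hg i))
        (fun i => by rw [hrel i, inv_s]) (fun i => (msg_true' (ho' i) i).1 (hsg i))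
      refine ⟨i, ?_⟩
      rw [msg_true' (ho' i), msg_true' (ho' i)]
      exact hi

end model

/-- The vertex permutation of the polygon with opposite sides identified has one orbit. -/
theorem closed_orb (g : ℕ) (hg : 1 ≤ g) (i j : ZMod (4 * g)) :
    ∃ k : ℕ, (fun i => closedOpp g (i - 1))^[k] i = j := by
  have : NeZero (4 * g) := ⟨by omega⟩
  have h1 : ∀ (k : ℕ) (i : ZMod (4 * g)), (fun i => closedOpp g (i - 1))^[k] i =
      i + (k : ZMod (4 * g)) * ((2 * g : ℕ) - 1) := by
    intro k
    induction k with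
    | zero => intro i; simp
    | succ k ih =>
      intro i
      rw [Function.iterate_succ_apply, ih]
      unfold closedOpp
      push_cast
      ring
  have h2 : (((2 * g : ℕ) : ZMod (4 * g)) - 1) * (((2 * g : ℕ) : ZMod (4 * g)) - 1) = 1 := by
    have h3 : ((4 * g : ℕ) : ZMod (4 * g)) = 0 := ZMod.natCast_self _
    have h4 : (((2 * g : ℕ) : ZMod (4 * g)) - 1) * (((2 * g : ℕ) : ZMod (4 * g)) - 1) =
        ((4 * g : ℕ) : ZMod (4 * g)) * ((g : ZMod (4 * g)) - 1) + 1 := by
      push_cast
      ring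
    rw [h4, h3, zero_mul, zero_add]
  refine ⟨((j - i) * ((2 * g : ℕ) - 1)).val, ?_⟩
  rw [h1, ZMod.natCast_zmod_val, mul_assoc, h2, mul_one, add_sub_cancel]

end Pool.Agent.AMU.Cor

namespace Pool.Agent.AMU

/-- SECTION D: every geometric model gives a hyperbolic model. -/
noncomputable def CModel.toHyp {N : ℕ} {opp : ZMod N → ZMod N} {Γ : Type} [Group Γ]
    {s : ZMod N → Γ} {closed : Prop} (M : CModel opp s closed) (hN : 3 ≤ N)
    (hopp : ∀ i, opp (opp i) = i) (hne : ∀ i, opp i ≠ i) (hs : ∀ i, s i * s (opp i) = 1)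
    (horb : closed → ∀ i j : ZMod N, ∃ k : ℕ, (fun i => opp (i - 1))^[k] i = j) :
    HypModel opp s closed where
  hol := M.hol
  hyp := M.hyp
  disc := M.disc
  good := fun r l hl hpp htr hdiff =>
    (Cor.toCorner M l horb hl (fun i j hij => (hdiff i j hij).2)).exists_good hN hopp hne hs
      r l hl (fun j => Or.inl ⟨j, IsConj.refl _⟩) hpp htr hdiff

end Pool.Agent.AMU
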