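import Pool.Agent.Lib.AMU.Geo01

/-!
# Row H11: hyperbolic matrices, orientation of the axis (pure linear algebra)
-/

set_option autoImplicit false

namespace Pool.Agent.AMU.Geo

open Matrix

/-- `v vᵀ`. -/
def vv (x y : ℝ) : M2 := !![x * x, x * y; x * y, y * y]

private theorem H11a_l {l : ℝ} (hl : 1 < |l|) : l ≠ 0 ∧ l - l⁻¹ ≠ 0 ∧ 1 < l ^ 2 ∧ (l⁻¹) ^ 2 < 1 := by
  have h0 : l ≠ 0 := by
    rintro rfl
    rw [abs_zero] at hl
    linarith
  have h1 : 1 < l ^ 2 := by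
    rw [← sq_abs]
    nlinarith
  have h2 : (l⁻¹) ^ 2 < 1 := by
    rw [inv_pow]
    exact inv_lt_one_of_one_lt₀ h1
  refine ⟨h0, fun h => ?_, h1, h2⟩
  have h3 : l * l = 1 := by
    have : l * (l - l⁻¹) = 0 := by rw [h, mul_zero]
    rw [mul_sub, mul_inv_cancel₀ h0] at this
    linarith
  rw [pow_two] at h1
  linarith

private theorem H11a_conj {h M D : M2} (hh : h.det = 1) (e : M * h = h * D) :
    M = h * D * h⁻¹ := by
  rw [← e, Matrix.mul_assoc, Matrix.mul_nonsing_inv _ (by rw [hh]; exact isUnit_one),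
    Matrix.mul_one]

/-- Diagonalization with a given first eigenvector. -/
private theorem H11a_tri {M : M2} (hM : M.det = 1) {x y l : ℝ} (hl : 1 < |l|)
    (e1 : M 0 0 * x + M 0 1 * y = l * x) (e2 : M 1 0 * x + M 1 1 * y = l * y)
    (h0 : x ≠ 0 ∨ y ≠ 0) :
    ∃ h : M2, h.det = 1 ∧ h 0 0 = x ∧ h 1 0 = y ∧ M = h * !![l, 0; 0, l⁻¹] * h⁻¹ := by
  obtain ⟨hl0, hl1, -, -⟩ := H11a_l hl
  rw [Matrix.det_fin_two] at hM
  have hr : 0 < x ^ 2 + y ^ 2 := by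
    rcases h0 with h | h
    · have := sq_nonneg y
      positivity
    · have := sq_nonneg x
      positivity
  -- the trace
  have hch : (M 0 0 - l) * (M 1 1 - l) - M 0 1 * M 1 0 = 0 := by
    rcases h0 with h | h
    · have h3 : x * ((M 0 0 - l) * (M 1 1 - l) - M 0 1 * M 1 0) = 0 := by
        linear_combination (M 1 1 - l) * e1 - M 0 1 * e2
      exact (mul_eq_zero.1 h3).resolve_left h
    · have h3 : y * ((M 0 0 - l) * (M 1 1 - l) - M 0 1 * M 1 0) = 0 := by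
        linear_combination (M 0 0 - l) * e2 - M 1 0 * e1
      exact (mul_eq_zero.1 h3).resolve_left h
  obtain ⟨m, hm⟩ : ∃ m : ℝ, m = l⁻¹ := ⟨_, rfl⟩
  have hlm : l * m = 1 := by rw [hm, mul_inv_cancel₀ hl0]
  have ht : M 0 0 + M 1 1 = l + m := by
    have h3 : l * (M 0 0 + M 1 1 - (l + m)) = 0 := by
      linear_combination hM - hch - hlm
    have := (mul_eq_zero.1 h3).resolve_left hl0
    linarith
  have hml : m - l ≠ 0 := by
    rw [hm]
    intro h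
    exact hl1 (by linarith)
  obtain ⟨N, hN⟩ : ∃ N : ℝ, N = (x ^ 2 + y ^ 2) * (m - l) := ⟨_, rfl⟩
  have hN0 : N ≠ 0 := by
    rw [hN]
    exact mul_ne_zero hr.ne' hml
  obtain ⟨q0, hq0⟩ : ∃ q0 : ℝ, q0 = ((M 0 0 - l) * (-y) + M 0 1 * x) / N := ⟨_, rfl⟩
  obtain ⟨q1, hq1⟩ : ∃ q1 : ℝ, q1 = (M 1 0 * (-y) + (M 1 1 - l) * x) / N := ⟨_, rfl⟩
  have hq0' : N * q0 = (M 0 0 - l) * (-y) + M 0 1 * x := by
    rw [hq0, mul_div_cancel₀ _ hN0]
  have hq1' : N * q1 = M 1 0 * (-y) + (M 1 1 - l) * x := by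
    rw [hq1, mul_div_cancel₀ _ hN0]
  have hd : x * q1 - q0 * y = 1 := by
    apply mul_left_cancel₀ hN0
    have : N * (x * q1 - q0 * y) = x * (N * q1) - y * (N * q0) := by ring
    rw [this, hq0', hq1', hN]
    linear_combination (-y) * e2 - x * e1 + (x ^ 2 + y ^ 2) * ht
  have f1 : M 0 0 * q0 + M 0 1 * q1 = m * q0 := by
    apply mul_left_cancel₀ hN0
    have e : N * (M 0 0 * q0 + M 0 1 * q1) = M 0 0 * (N * q0) + M 0 1 * (N * q1) := by ring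
    have e' : N * (m * q0) = m * (N * q0) := by ring
    rw [e, e', hq0', hq1']
    linear_combination y * hM - y * hlm + (M 0 1 * x - y * M 0 0 + y * l - y * l) * ht
  have f2 : M 1 0 * q0 + M 1 1 * q1 = m * q1 := by
    apply mul_left_cancel₀ hN0
    have e : N * (M 1 0 * q0 + M 1 1 * q1) = M 1 0 * (N * q0) + M 1 1 * (N * q1) := by ring
    have e' : N * (m * q1) = m * (N * q1) := by ring
    rw [e, e', hq0', hq1']
    linear_combination (-x) * hM + x * hlm + (M 1 1 * x - y * M 1 0) * ht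
  refine ⟨!![x, q0; y, q1], ?_, rfl, rfl, ?_⟩
  · rw [Matrix.det_fin_two_of]
    exact hd
  · rw [← hm]
    apply H11a_conj
    · rw [Matrix.det_fin_two_of]
      exact hd
    · ext i j
      fin_cases i <;> fin_cases j
      · show (M * !![x, q0; y, q1]) 0 0 = (!![x, q0; y, q1] * !![l, 0; 0, m]) 0 0
        rw [Matrix.mul_apply, Matrix.mul_apply, Fin.sum_univ_two, Fin.sum_univ_two]
        show M 0 0 * x + M 0 1 * y = x * l + q0 * 0
        linear_combination e1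
      · show (M * !![x, q0; y, q1]) 0 1 = (!![x, q0; y, q1] * !![l, 0; 0, m]) 0 1
        rw [Matrix.mul_apply, Matrix.mul_apply, Fin.sum_univ_two, Fin.sum_univ_two]
        show M 0 0 * q0 + M 0 1 * q1 = x * 0 + q0 * m
        linear_combination f1
      · show (M * !![x, q0; y, q1]) 1 0 = (!![x, q0; y, q1] * !![l, 0; 0, m]) 1 0
        rw [Matrix.mul_apply, Matrix.mul_apply, Fin.sum_univ_two, Fin.sum_univ_two]
        show M 1 0 * x + M 1 1 * y = y * l + q1 * 0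
        linear_combination e2
      · show (M * !![x, q0; y, q1]) 1 1 = (!![x, q0; y, q1] * !![l, 0; 0, m]) 1 1
        rw [Matrix.mul_apply, Matrix.mul_apply, Fin.sum_univ_two, Fin.sum_univ_two]
        show M 1 0 * q0 + M 1 1 * q1 = y * 0 + q1 * m
        linear_combination f2

/-- Diagonalization. -/
theorem diag {M : M2} (hM : M.det = 1) (ht : 2 < |M.trace|) :
    ∃ (h : M2) (l : ℝ), h.det = 1 ∧ 1 < |l| ∧ M = h * !![l, 0; 0, l⁻¹] * h⁻¹ := by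
  obtain ⟨t, htt⟩ : ∃ t : ℝ, t = M.trace := ⟨_, rfl⟩
  rw [← htt] at ht
  have htt' : t = M 0 0 + M 1 1 := by rw [htt, Matrix.trace_fin_two]
  have hM' := hM
  rw [Matrix.det_fin_two] at hM'
  -- the root
  obtain ⟨l, hl, hle⟩ : ∃ l : ℝ, 1 < |l| ∧ l ^ 2 - t * l + 1 = 0 := by
    have hD : 0 < t ^ 2 - 4 := by
      have : 2 ^ 2 < |t| ^ 2 := by
        rw [pow_two, pow_two]
        nlinarith
      rw [sq_abs] at this
      linarith
    obtain ⟨s, hs0, hs⟩ : ∃ s : ℝ, 0 < s ∧ s ^ 2 = t ^ 2 - 4 :=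
      ⟨Real.sqrt (t ^ 2 - 4), Real.sqrt_pos.2 hD, Real.sq_sqrt hD.le⟩
    rcases lt_abs.1 ht with h | h
    · refine ⟨(t + s) / 2, ?_, by nlinarith⟩
      rw [abs_of_pos (by linarith)]
      linarith
    · refine ⟨(t - s) / 2, ?_, by nlinarith⟩
      rw [abs_of_neg (by linarith)]
      linarith
  obtain ⟨hl0, hl1, hl2, -⟩ := H11a_l hl
  have hch : (M 0 0 - l) * (M 1 1 - l) - M 0 1 * M 1 0 = 0 := by
    rw [htt'] at hle
    linear_combination hle + hM'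
  have key : ∃ x y : ℝ, (x ≠ 0 ∨ y ≠ 0) ∧ M 0 0 * x + M 0 1 * y = l * x ∧
      M 1 0 * x + M 1 1 * y = l * y := by
    by_cases h1 : M 0 1 = 0
    · by_cases h2 : M 1 0 = 0
      · rw [h1, zero_mul, sub_zero] at hch
        rcases mul_eq_zero.1 hch with h3 | h3
        · exact ⟨1, 0, Or.inl one_ne_zero, by linear_combination h3, by rw [h2]; ring⟩
        · exact ⟨0, 1, Or.inr one_ne_zero, by rw [h1]; ring, by linear_combination h3⟩
      · exact ⟨l - M 1 1, M 1 0, Or.inr h2, by linear_combination -hch, by ring⟩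
    · exact ⟨M 0 1, l - M 0 0, Or.inl h1, by ring, by linear_combination -hch⟩
  obtain ⟨x, y, h0, e1, e2⟩ := key
  obtain ⟨h, hh, -, -, he⟩ := H11a_tri hM hl e1 e2 h0
  exact ⟨h, l, hh, hl, he⟩

/-- The axis functional in the coordinates of `diag`. -/
theorem axN_diag {h : M2} (hh : h.det = 1) {l : ℝ} (hl : 1 < |l|) (X : M2) (hX : Sym X) :
    axN (h * !![l, 0; 0, l⁻¹] * h⁻¹) X = (l ^ 2 - (l⁻¹) ^ 2) * (act h⁻¹ X) 0 1 := by
  have hY : Sym (act h⁻¹ X) := act_sym _ hX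
  conv_lhs => rw [← act_inv_right hh X]
  rw [axN_act hh, axN_eq]
  unfold Sym at hY
  rw [hY]
  show (l + l⁻¹) * (-(0 * (act h⁻¹ X) 0 0) - l⁻¹ * (act h⁻¹ X) 0 1 + l * (act h⁻¹ X) 0 1 +
    0 * (act h⁻¹ X) 1 1) = _
  ring

private theorem H11a_det3 (h A B C : M2) (hA : Sym A) (hB : Sym B) (hC : Sym C) :
    det3 (act h A) (act h B) (act h C) = h.det ^ 3 * det3 A B C := by
  unfold Sym at hA hB hC
  unfold det3
  rw [Matrix.det_fin_three, Matrix.det_fin_three, Matrix.det_fin_two]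
  simp only [act, Matrix.mul_apply, Fin.sum_univ_two, Matrix.transpose_apply, Matrix.of_apply,
    Matrix.cons_val', Matrix.cons_val_zero, Matrix.cons_val_one, Matrix.cons_val_fin_one,
    Matrix.cons_val, hA, hB, hC]
  ring

private def H11a_E0 : M2 := !![1, 0; 0, 0]
private def H11a_E1 : M2 := !![0, 0; 0, 1]

/-- Orientation: if the axis leaves through the side from `P` (on the right) to `R` (not on the right)
with inner normal `w`, the attracting point is outside and the repelling point is inside. In the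
coordinates of `diag`, `w = act h w'` with `w' 1 1 < 0 < w' 0 0`. -/
theorem orient {h : M2} (hh : h.det = 1) {l : ℝ} (hl : 1 < |l|) {P R w : M2} (hP : PD P)
    (hR : PD R) (hw : Sym w)
    (hdet : ∃ c : ℝ, 0 < c ∧ ∀ X : M2, Sym X → det3 P R X = c * lor w X)
    (h1 : 0 < axN (h * !![l, 0; 0, l⁻¹] * h⁻¹) P)
    (h2 : axN (h * !![l, 0; 0, l⁻¹] * h⁻¹) R ≤ 0) :
    (act h⁻¹ w) 1 1 < 0 ∧ 0 < (act h⁻¹ w) 0 0 := by
  obtain ⟨hl0, hl1, hl2, hl3⟩ := H11a_l hl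
  obtain ⟨c, hc, hdet⟩ := hdet
  have hi : h⁻¹.det ≠ 0 := by
    rw [det_inv_one hh]
    exact one_ne_zero
  have hP' : PD (act h⁻¹ P) := pd_act hi hP
  have hR' : PD (act h⁻¹ R) := pd_act hi hR
  have hd' : ∀ Y : M2, Sym Y →
      det3 (act h⁻¹ P) (act h⁻¹ R) Y = c * lor (act h⁻¹ w) Y := by
    intro Y hY
    have e1 : det3 P R (act h Y) = det3 (act h⁻¹ P) (act h⁻¹ R) Y := by
      conv_lhs => rw [← act_inv_right hh P, ← act_inv_right hh R]
      rw [H11a_det3 _ _ _ _ (pd_sym hP') (pd_sym hR') hY, hh, one_pow, one_mul]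
    have e2 : lor w (act h Y) = lor (act h⁻¹ w) Y := by
      rw [lor_comm, lor_act_left hh, lor_comm]
    rw [← e1, ← e2]
    exact hdet _ (act_sym _ hY)
  rw [axN_diag hh hl P (pd_sym hP)] at h1
  rw [axN_diag hh hl R (pd_sym hR)] at h2
  have hpos : 0 < l ^ 2 - (l⁻¹) ^ 2 := by linarith
  have hP01 : 0 < (act h⁻¹ P) 0 1 := (mul_pos_iff_of_pos_left hpos).1 h1
  have hR01 : (act h⁻¹ R) 0 1 ≤ 0 := by
    by_contra hcon
    push Not at hcon
    have := mul_pos hpos hcon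
    linarith
  have hP11 := pd_pos' hP'
  have hR11 := pd_pos' hR'
  have hP00 := hP'.2.1
  have hR00 := hR'.2.1
  have k0 := hd' H11a_E0 (by simp [Sym, H11a_E0])
  have k1 := hd' H11a_E1 (by simp [Sym, H11a_E1])
  have f0 : det3 (act h⁻¹ P) (act h⁻¹ R) H11a_E0 =
      (act h⁻¹ P) 1 1 * (act h⁻¹ R) 0 1 - (act h⁻¹ P) 0 1 * (act h⁻¹ R) 1 1 := by
    unfold det3 H11a_E0
    rw [Matrix.det_fin_three]
    simp
  have f1 : det3 (act h⁻¹ P) (act h⁻¹ R) H11a_E1 =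
      (act h⁻¹ P) 0 1 * (act h⁻¹ R) 0 0 - (act h⁻¹ P) 0 0 * (act h⁻¹ R) 0 1 := by
    unfold det3 H11a_E1
    rw [Matrix.det_fin_three]
    simp
  have g0 : lor (act h⁻¹ w) H11a_E0 = (act h⁻¹ w) 1 1 / 2 := by
    unfold lor H11a_E0
    simp
  have g1 : lor (act h⁻¹ w) H11a_E1 = (act h⁻¹ w) 0 0 / 2 := by
    unfold lor H11a_E1
    simp
  rw [f0, g0] at k0
  rw [f1, g1] at k1
  constructor
  · by_contra hcon
    push Not at hcon
    have a1 : 0 ≤ c * ((act h⁻¹ w) 1 1 / 2) := mul_nonneg hc.le (by linarith)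
    have a2 : (act h⁻¹ P) 1 1 * (act h⁻¹ R) 0 1 ≤ 0 := mul_nonpos_of_nonneg_of_nonpos hP11.le hR01
    have a3 : 0 < (act h⁻¹ P) 0 1 * (act h⁻¹ R) 1 1 := mul_pos hP01 hR11
    linarith
  · by_contra hcon
    push Not at hcon
    have a1 : c * ((act h⁻¹ w) 0 0 / 2) ≤ 0 :=
      mul_nonpos_of_nonneg_of_nonpos hc.le (by linarith)
    have a2 : (act h⁻¹ P) 0 0 * (act h⁻¹ R) 0 1 ≤ 0 := mul_nonpos_of_nonneg_of_nonpos hP00.le hR01
    have a3 : 0 < (act h⁻¹ P) 0 1 * (act h⁻¹ R) 0 0 := mul_pos hP01 hR00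
    linarith

/-- The attracting eigenvector is outside of the exit wall. -/
theorem orient_attr {M : M2} (hM : M.det = 1) {x y l : ℝ} (hl : 1 < |l|)
    (e1 : M 0 0 * x + M 0 1 * y = l * x) (e2 : M 1 0 * x + M 1 1 * y = l * y)
    (h0 : x ≠ 0 ∨ y ≠ 0) {P R w : M2} (hP : PD P) (hR : PD R) (hw : Sym w)
    (hdet : ∃ c : ℝ, 0 < c ∧ ∀ X : M2, Sym X → det3 P R X = c * lor w X)
    (h1 : 0 < axN M P) (h2 : axN M R ≤ 0) : lor w (vv x y) < 0 := by
  obtain ⟨h, hh, hx, hy, he⟩ := H11a_tri hM hl e1 e2 h0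
  rw [he] at h1 h2
  have h3 := (orient hh hl hP hR hw hdet h1 h2).1
  have h4 : vv x y = act h H11a_E0 := by
    unfold vv act H11a_E0
    ext i j
    fin_cases i <;> fin_cases j <;>
      simp [Matrix.mul_apply, Fin.sum_univ_two, Matrix.transpose_apply, hx, hy, mul_comm]
  have h5 : lor w (vv x y) = (act h⁻¹ w) 1 1 / 2 := by
    rw [h4, lor_comm, lor_act_left hh]
    unfold lor H11a_E0
    simp
  rw [h5]
  linarith

/-- A matrix which commutes with a hyperbolic matrix is diagonal in the same basis. -/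
theorem comm_diag {h U : M2} (hh : h.det = 1) {l : ℝ} (hl : 1 < |l|) (hU : U.det = 1)
    (hc : U * (h * !![l, 0; 0, l⁻¹] * h⁻¹) = (h * !![l, 0; 0, l⁻¹] * h⁻¹) * U) :
    ∃ m : ℝ, m ≠ 0 ∧ U = h * !![m, 0; 0, m⁻¹] * h⁻¹ := by
  obtain ⟨hl0, hl1, hl2, hl3⟩ := H11a_l hl
  have hu : IsUnit h.det := by rw [hh]; exact isUnit_one
  have hi1 : h⁻¹ * h = 1 := Matrix.nonsing_inv_mul _ hu
  have hi2 : h * h⁻¹ = 1 := Matrix.mul_nonsing_inv _ hu
  obtain ⟨V, hV⟩ : ∃ V : M2, V = h⁻¹ * U * h := ⟨_, rfl⟩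
  have hUV : U = h * V * h⁻¹ := by
    rw [hV]
    calc U = (h * h⁻¹) * U * (h * h⁻¹) := by rw [hi2, Matrix.one_mul, Matrix.mul_one]
      _ = h * (h⁻¹ * U * h) * h⁻¹ := by simp only [Matrix.mul_assoc]
  have hVD : V * !![l, 0; 0, l⁻¹] = !![l, 0; 0, l⁻¹] * V := by
    have e : h⁻¹ * (U * (h * !![l, 0; 0, l⁻¹] * h⁻¹)) * h =
        h⁻¹ * ((h * !![l, 0; 0, l⁻¹] * h⁻¹) * U) * h := by rw [hc]
    have e1 : h⁻¹ * (U * (h * !![l, 0; 0, l⁻¹] * h⁻¹)) * h = V * !![l, 0; 0, l⁻¹] := by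
      calc h⁻¹ * (U * (h * !![l, 0; 0, l⁻¹] * h⁻¹)) * h
          = (h⁻¹ * U * h) * !![l, 0; 0, l⁻¹] * (h⁻¹ * h) := by simp only [Matrix.mul_assoc]
        _ = V * !![l, 0; 0, l⁻¹] := by rw [hi1, Matrix.mul_one, hV]
    have e2 : h⁻¹ * ((h * !![l, 0; 0, l⁻¹] * h⁻¹) * U) * h = !![l, 0; 0, l⁻¹] * V := by
      calc h⁻¹ * ((h * !![l, 0; 0, l⁻¹] * h⁻¹) * U) * h
          = (h⁻¹ * h) * !![l, 0; 0, l⁻¹] * (h⁻¹ * U * h) := by simp only [Matrix.mul_assoc]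
        _ = !![l, 0; 0, l⁻¹] * V := by rw [hi1, Matrix.one_mul, hV]
    rw [← e1, e, e2]
  have v01 : V 0 1 = 0 := by
    have e := congrFun (congrFun hVD 0) 1
    rw [Matrix.mul_apply, Matrix.mul_apply, Fin.sum_univ_two, Fin.sum_univ_two] at e
    have e' : V 0 0 * 0 + V 0 1 * l⁻¹ = l * V 0 1 + 0 * V 1 1 := e
    have e3 : (l - l⁻¹) * V 0 1 = 0 := by linear_combination -e'
    exact (mul_eq_zero.1 e3).resolve_left hl1
  have v10 : V 1 0 = 0 := by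
    have e := congrFun (congrFun hVD 1) 0
    rw [Matrix.mul_apply, Matrix.mul_apply, Fin.sum_univ_two, Fin.sum_univ_two] at e
    have e' : V 1 0 * l + V 1 1 * 0 = 0 * V 0 0 + l⁻¹ * V 1 0 := e
    have e3 : (l - l⁻¹) * V 1 0 = 0 := by linear_combination e'
    exact (mul_eq_zero.1 e3).resolve_left hl1
  have hVd : V 0 0 * V 1 1 = 1 := by
    have e : V.det = 1 := by
      rw [hV, Matrix.det_mul, Matrix.det_mul, det_inv_one hh, hU, hh]
      ring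
    rw [Matrix.det_fin_two, v01, zero_mul, sub_zero] at e
    exact e
  have hm : V 0 0 ≠ 0 := by
    intro h0
    rw [h0, zero_mul] at hVd
    exact zero_ne_one hVd
  refine ⟨V 0 0, hm, ?_⟩
  have e : V = !![V 0 0, 0; 0, (V 0 0)⁻¹] := by
    ext i j
    fin_cases i <;> fin_cases j
    · rfl
    · exact v01
    · exact v10
    · show V 1 1 = (V 0 0)⁻¹
      exact (inv_eq_of_mul_eq_one_right hVd).symm
  rw [hUV]
  conv_lhs => rw [e]

private theorem H11b_dg_mul (m n : ℝ) :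
    (!![m, 0; 0, m⁻¹] * !![n, 0; 0, n⁻¹] : M2) = !![m * n, 0; 0, (m * n)⁻¹] := by
  ext i j
  fin_cases i <;> fin_cases j <;> simp [Matrix.mul_apply, Fin.sum_univ_two, mul_comm]

private theorem H11b_pow {h : M2} (hh : h.det = 1) (m : ℝ) (q : ℕ) :
    (h * !![m, 0; 0, m⁻¹] * h⁻¹) ^ q = h * !![m ^ q, 0; 0, (m ^ q)⁻¹] * h⁻¹ := by
  have hu : IsUnit h.det := by rw [hh]; exact isUnit_one
  have hi1 : h⁻¹ * h = 1 := Matrix.nonsing_inv_mul _ hu
  have hi2 : h * h⁻¹ = 1 := Matrix.mul_nonsing_inv _ hu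
  induction q with
  | zero =>
    rw [pow_zero, pow_zero, inv_one]
    have : (!![1, 0; 0, 1] : M2) = 1 := Matrix.one_fin_two.symm
    rw [this, Matrix.mul_one, hi2]
  | succ q ih =>
    rw [pow_succ, ih, pow_succ, ← H11b_dg_mul]
    calc h * !![m ^ q, 0; 0, (m ^ q)⁻¹] * h⁻¹ * (h * !![m, 0; 0, m⁻¹] * h⁻¹)
        = h * !![m ^ q, 0; 0, (m ^ q)⁻¹] * (h⁻¹ * h) * !![m, 0; 0, m⁻¹] * h⁻¹ := by
          simp only [Matrix.mul_assoc]
      _ = _ := by rw [hi1, Matrix.mul_one]; simp only [Matrix.mul_assoc]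

private theorem H11b_inv {h : M2} (hh : h.det = 1) {m : ℝ} (hm : m ≠ 0) :
    (h * !![m, 0; 0, m⁻¹] * h⁻¹)⁻¹ = h * !![m⁻¹, 0; 0, (m⁻¹)⁻¹] * h⁻¹ := by
  have hu : IsUnit h.det := by rw [hh]; exact isUnit_one
  have hi1 : h⁻¹ * h = 1 := Matrix.nonsing_inv_mul _ hu
  have hi2 : h * h⁻¹ = 1 := Matrix.mul_nonsing_inv _ hu
  apply Matrix.inv_eq_right_inv
  calc h * !![m, 0; 0, m⁻¹] * h⁻¹ * (h * !![m⁻¹, 0; 0, (m⁻¹)⁻¹] * h⁻¹)
      = h * (!![m, 0; 0, m⁻¹] * (h⁻¹ * h) * !![m⁻¹, 0; 0, (m⁻¹)⁻¹]) * h⁻¹ := by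
        simp only [Matrix.mul_assoc]
    _ = h * !![m * m⁻¹, 0; 0, (m * m⁻¹)⁻¹] * h⁻¹ := by rw [hi1, Matrix.mul_one, H11b_dg_mul]
    _ = 1 := by
      rw [mul_inv_cancel₀ hm, inv_one]
      have : (!![1, 0; 0, 1] : M2) = 1 := Matrix.one_fin_two.symm
      rw [this, Matrix.mul_one, hi2]

private theorem H11b_lor {h : M2} (hh : h.det = 1) (n : ℝ) {w X : M2} (hX : Sym X) (hw : Sym w) :
    2 * lor w (act (h * !![n, 0; 0, n⁻¹] * h⁻¹) X) =
      (act h⁻¹ w) 0 0 * (act h⁻¹ X) 1 1 * (n⁻¹) ^ 2 +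
        (act h⁻¹ w) 1 1 * (act h⁻¹ X) 0 0 * n ^ 2 - 2 * (act h⁻¹ w) 0 1 * (act h⁻¹ X) 0 1 * (n * n⁻¹) := by
  have e : act (h * !![n, 0; 0, n⁻¹] * h⁻¹) X = act h (act !![n, 0; 0, n⁻¹] (act h⁻¹ X)) := by
    rw [act_act, act_act]
  rw [e, lor_comm, lor_act_left hh, lor_comm]
  have hY : Sym (act h⁻¹ X) := act_sym _ hX
  have hv : Sym (act h⁻¹ w) := act_sym _ hw
  unfold Sym at hY hv
  generalize act h⁻¹ X = Y at hY ⊢
  generalize act h⁻¹ w = v at hv ⊢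
  unfold lor
  simp only [act, Matrix.mul_apply, Fin.sum_univ_two, Matrix.transpose_apply, Matrix.of_apply,
    Matrix.cons_val', Matrix.cons_val_zero, Matrix.cons_val_one, Matrix.cons_val_fin_one, hY, hv]
  ring

private theorem H11b_big {a : ℝ} (ha : 1 < a) {A : ℝ} (hA : 0 < A) (B C : ℝ) :
    ∃ q : ℕ, 0 < q ∧ 0 < A * a ^ q + B * (a⁻¹) ^ q + C := by
  obtain ⟨n, hn⟩ := pow_unbounded_of_one_lt ((|B| + |C|) / A) ha
  have ha0 : 0 < a := by linarith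
  refine ⟨n + 1, Nat.succ_pos _, ?_⟩
  have h1 : a ^ n ≤ a ^ (n + 1) := pow_le_pow_right₀ ha.le (Nat.le_succ n)
  have h2 : |B| + |C| < A * a ^ (n + 1) := by
    rw [div_lt_iff₀ hA] at hn
    nlinarith
  have h3 : (a⁻¹) ^ (n + 1) ≤ 1 := pow_le_one₀ (inv_nonneg.2 ha0.le) (inv_le_one_of_one_le₀ ha.le)
  have h4 : 0 ≤ (a⁻¹) ^ (n + 1) := by positivity
  have h5 : -|B| ≤ B * (a⁻¹) ^ (n + 1) := by
    have h6 : |B * (a⁻¹) ^ (n + 1)| ≤ |B| := by
      rw [abs_mul, abs_of_nonneg h4]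
      exact mul_le_of_le_one_right (abs_nonneg B) h3
    linarith [neg_abs_le (B * (a⁻¹) ^ (n + 1))]
  have h6 := neg_abs_le C
  linarith

/-- If the powers of `U` move a point to the outer side of the exit wall `w` of the hyperbolic
matrix `M`, and `U` commutes with `M`, then large powers of `U` move the point across the wall
`M w` in the same direction. -/
theorem attract {M U : M2} (hM : M.det = 1) (ht : 2 < |M.trace|) (hU : U.det = 1)
    (hUt : 2 < |U.trace|) (hc : U * M = M * U) {P R w X : M2} (hP : PD P) (hR : PD R)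
    (hX : PD X) (hw : Sym w)
    (hdet : ∃ c : ℝ, 0 < c ∧ ∀ X : M2, Sym X → det3 P R X = c * lor w X)
    (h1 : 0 < axN M P) (h2 : axN M R ≤ 0)
    (hq : ∀ q : ℕ, 0 < q → lor w (act (U ^ q) X) ≤ 0) :
    (∃ q : ℕ, lor (act M w) (act (U ^ q) X) < 0) ∧
    (∃ q : ℕ, 0 < lor (act M w) (act ((U ^ q)⁻¹) X)) ∧
    ∀ q : ℕ, M ≠ (U ^ q)⁻¹ := by
  obtain ⟨h, l, hh, hl, he⟩ := diag hM ht
  obtain ⟨hl0, hl1, hl2, hl3⟩ := H11a_l hl
  rw [he] at h1 h2 hc
  obtain ⟨m, hm, hUm⟩ := comm_diag hh hl hU hc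
  obtain ⟨ho1, ho2⟩ := orient hh hl hP hR hw hdet h1 h2
  have hi : h⁻¹.det ≠ 0 := by
    rw [det_inv_one hh]
    exact one_ne_zero
  have hX' : PD (act h⁻¹ X) := pd_act hi hX
  have hX00 := hX'.2.1
  have hX11 := pd_pos' hX'
  have hXs := pd_sym hX
  have hu : IsUnit h.det := by rw [hh]; exact isUnit_one
  have hi1 : h⁻¹ * h = 1 := Matrix.nonsing_inv_mul _ hu
  have hi2 : h * h⁻¹ = 1 := Matrix.mul_nonsing_inv _ hu
  -- the absolute value of m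
  have htr : U.trace = m + m⁻¹ := by
    rw [hUm, Matrix.trace_mul_comm, ← Matrix.mul_assoc, hi1, Matrix.one_mul, Matrix.trace_fin_two]
    rfl
  have hm2 : 0 < m ^ 2 := by positivity
  have hmne : m ^ 2 ≠ 1 := by
    intro h3
    rw [htr] at hUt
    have h4 : m⁻¹ = m := by
      apply inv_eq_of_mul_eq_one_right
      rw [← pow_two, h3]
    rw [h4] at hUt
    have h5 : |m + m| ^ 2 = 4 := by
      rw [sq_abs]
      linear_combination 4 * h3
    nlinarith [abs_nonneg (m + m)]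
  have hm1 : 1 < m ^ 2 := by
    by_contra hcon
    push Not at hcon
    have h3 : m ^ 2 < 1 := lt_of_le_of_ne hcon hmne
    have h4 : 1 < (m ^ 2)⁻¹ := (one_lt_inv₀ hm2).2 h3
    obtain ⟨q, hq0, hqq⟩ := H11b_big h4 (mul_pos ho2 hX11)
      ((act h⁻¹ w) 1 1 * (act h⁻¹ X) 0 0) (-(2 * (act h⁻¹ w) 0 1 * (act h⁻¹ X) 0 1))
    have h5 := hq q hq0
    have h6 := H11b_lor hh (m ^ q) hXs hw
    rw [← H11b_pow hh, ← hUm, mul_inv_cancel₀ (pow_ne_zero q hm), mul_one] at h6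
    have e1 : ((m ^ q)⁻¹) ^ 2 = ((m ^ 2)⁻¹) ^ q := by
      rw [inv_pow, inv_pow, ← pow_mul, ← pow_mul, mul_comm]
    have e2 : (m ^ q) ^ 2 = (((m ^ 2)⁻¹)⁻¹) ^ q := by
      rw [inv_inv, ← pow_mul, ← pow_mul, mul_comm]
    rw [e1, e2] at h6
    linarith
  have hMw : act M w = act h (act !![l, 0; 0, l⁻¹] (act h⁻¹ w)) := by
    rw [he, act_act, act_act]
  have hMs : Sym (act M w) := act_sym _ hw
  have w00 : (act h⁻¹ (act M w)) 0 0 = l ^ 2 * (act h⁻¹ w) 0 0 := by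
    rw [hMw, act_inv_left hh]
    generalize act h⁻¹ w = v
    simp only [act, Matrix.mul_apply, Fin.sum_univ_two, Matrix.transpose_apply, Matrix.of_apply,
      Matrix.cons_val', Matrix.cons_val_zero, Matrix.cons_val_one, Matrix.cons_val_fin_one]
    ring
  have w11 : (act h⁻¹ (act M w)) 1 1 = (l⁻¹) ^ 2 * (act h⁻¹ w) 1 1 := by
    rw [hMw, act_inv_left hh]
    generalize act h⁻¹ w = v
    simp only [act, Matrix.mul_apply, Fin.sum_univ_two, Matrix.transpose_apply, Matrix.of_apply,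
      Matrix.cons_val', Matrix.cons_val_zero, Matrix.cons_val_one, Matrix.cons_val_fin_one]
    ring
  have hl4 : 0 < (l⁻¹) ^ 2 := by positivity
  refine ⟨?_, ?_, ?_⟩
  · obtain ⟨q, hq0, hqq⟩ := H11b_big hm1 (A := -((l⁻¹) ^ 2 * (act h⁻¹ w) 1 1 * (act h⁻¹ X) 0 0))
      (by
        have := mul_pos (mul_pos hl4 (neg_pos.2 ho1)) hX00
        linarith)
      (-(l ^ 2 * (act h⁻¹ w) 0 0 * (act h⁻¹ X) 1 1))
      (2 * (act h⁻¹ (act M w)) 0 1 * (act h⁻¹ X) 0 1)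
    refine ⟨q, ?_⟩
    have h6 := H11b_lor hh (m ^ q) hXs hMs
    rw [← H11b_pow hh, ← hUm, mul_inv_cancel₀ (pow_ne_zero q hm), mul_one, w00, w11] at h6
    have e1 : ((m ^ q)⁻¹) ^ 2 = ((m ^ 2)⁻¹) ^ q := by
      rw [inv_pow, inv_pow, ← pow_mul, ← pow_mul, mul_comm]
    have e2 : (m ^ q) ^ 2 = (m ^ 2) ^ q := by
      rw [← pow_mul, ← pow_mul, mul_comm]
    rw [e1, e2] at h6
    linarith
  · obtain ⟨q, hq0, hqq⟩ := H11b_big hm1 (A := l ^ 2 * (act h⁻¹ w) 0 0 * (act h⁻¹ X) 1 1)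
      (mul_pos (mul_pos (by linarith) ho2) hX11)
      ((l⁻¹) ^ 2 * (act h⁻¹ w) 1 1 * (act h⁻¹ X) 0 0)
      (-(2 * (act h⁻¹ (act M w)) 0 1 * (act h⁻¹ X) 0 1))
    refine ⟨q, ?_⟩
    have h6 := H11b_lor hh ((m ^ q)⁻¹) hXs hMs
    rw [← H11b_inv hh (pow_ne_zero q hm), ← H11b_pow hh, ← hUm, inv_inv,
      inv_mul_cancel₀ (pow_ne_zero q hm), mul_one, w00, w11] at h6
    have e1 : ((m ^ q)⁻¹) ^ 2 = ((m ^ 2)⁻¹) ^ q := by
      rw [inv_pow, inv_pow, ← pow_mul, ← pow_mul, mul_comm]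
    have e2 : (m ^ q) ^ 2 = (m ^ 2) ^ q := by
      rw [← pow_mul, ← pow_mul, mul_comm]
    rw [e1, e2] at h6
    linarith
  · intro q hcon
    rw [hUm, H11b_pow hh, H11b_inv hh (pow_ne_zero q hm), he] at hcon
    have e : !![l, 0; 0, l⁻¹] = (!![(m ^ q)⁻¹, 0; 0, ((m ^ q)⁻¹)⁻¹] : M2) := by
      have e1 := congrArg (fun Z : M2 => h⁻¹ * Z * h) hcon
      have e2 : ∀ D : M2, h⁻¹ * (h * D * h⁻¹) * h = D := by
        intro D
        calc h⁻¹ * (h * D * h⁻¹) * h = (h⁻¹ * h) * D * (h⁻¹ * h) := by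
              simp only [Matrix.mul_assoc]
          _ = D := by rw [hi1, Matrix.one_mul, Matrix.mul_one]
      rwa [e2, e2] at e1
    have e3 : l = (m ^ q)⁻¹ := congrFun (congrFun e 0) 0
    have e4 : l ^ 2 = ((m ^ 2) ^ q)⁻¹ := by
      rw [e3, inv_pow, ← pow_mul, ← pow_mul, mul_comm]
    have e5 : 1 ≤ (m ^ 2) ^ q := one_le_pow₀ hm1.le
    have e6 : ((m ^ 2) ^ q)⁻¹ ≤ 1 := inv_le_one_of_one_le₀ e5
    linarith

end Pool.Agent.AMU.Geo
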