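import Pool.Agent.Lib.AMU.Geo10
import Pool.Agent.Lib.AMU.Geo11

/-!
# Row H14: the sign of the trace
-/

set_option autoImplicit false

namespace Pool.Agent.AMU.Geo

open Matrix

variable {g : ℕ}

/-- The sign function. -/
def th (g : ℕ) (i : ZMod (4 * g)) : ℤ := if i.val < 2 * g then -1 else 1

private theorem H14a_opp (hg : 2 ≤ g) (i : ZMod (4 * g)) :
    (i.val < 2 * g ∧ (closedOpp g i).val = i.val + 2 * g) ∨
      (2 * g ≤ i.val ∧ (closedOpp g i).val + 2 * g = i.val) := by
  have : NeZero (4 * g) := ⟨by omega⟩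
  have h1 : closedOpp g i = i + h2 g := rfl
  have h3 := ZMod.val_add i (h2 g)
  have hlt : i.val < 4 * g := ZMod.val_lt i
  have h2 : (h2 g).val = 2 * g := by
    unfold Geo.h2
    rw [ZMod.val_natCast, Nat.mod_eq_of_lt (by omega)]
  rw [h1, h3, h2]
  rcases lt_or_ge i.val (2 * g) with h | h
  · left
    exact ⟨h, Nat.mod_eq_of_lt (by omega)⟩
  · right
    refine ⟨h, ?_⟩
    rw [Nat.mod_eq_sub_mod (by omega), Nat.mod_eq_of_lt (by omega)]
    omega

theorem th_opp (hg : 2 ≤ g) (i : ZMod (4 * g)) : th g (closedOpp g i) = -th g i := by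
  unfold th
  rcases H14a_opp hg i with ⟨h1, h2⟩ | ⟨h1, h2⟩
  · rw [if_pos h1, if_neg (by omega), neg_neg]
  · have : NeZero (4 * g) := ⟨by omega⟩
    have hlt : i.val < 4 * g := ZMod.val_lt i
    rw [if_neg (by omega : ¬ i.val < 2 * g), if_pos (by omega)]

/-- The component of `(x, y)` along the direction of the side `i`. -/
noncomputable def comp (g : ℕ) (i : ZMod (4 * g)) (x y : ℝ) : ℝ :=
  Real.cos (i.val * xx g) * x - Real.sin (i.val * xx g) * y

/-- The orthogonal component. -/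
noncomputable def comp' (g : ℕ) (i : ZMod (4 * g)) (x y : ℝ) : ℝ :=
  Real.sin (i.val * xx g) * x + Real.cos (i.val * xx g) * y

theorem lor_W_vv (hg : 2 ≤ g) (i : ZMod (4 * g)) (x y : ℝ) :
    2 * lor (W g i) (vv x y) =
      aa g * comp' g i x y ^ 2 - (kap g - SS g) * comp g i x y ^ 2 := by
  unfold W fam W0
  rw [act_Rt_diag]
  unfold lor vv comp comp'
  simp only [Matrix.of_apply, Matrix.cons_val', Matrix.cons_val_zero, Matrix.cons_val_one,
    Matrix.cons_val_fin_one]
  ring

private theorem H14a_cos (hg : 2 ≤ g) (m : ℤ) :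
    (|m| < 2 * g → Real.sin (xx g) ≤ Real.cos (m * xx g)) ∧
    (2 * g < |m| → |m| < 4 * g → Real.cos (m * xx g) ≤ -Real.sin (xx g)) := by
  have hx := xx_pos hg
  have hm := xx_mul hg
  have hpi := Real.pi_pos
  have h2 := two_g_xx hg
  push_cast at h2
  have e0 : Real.cos (m * xx g) = Real.cos ((|m| : ℤ) * xx g) := by
    rw [← Real.cos_abs, abs_mul, abs_of_pos hx, Int.cast_abs]
  have hm0 : (0 : ℝ) ≤ ((|m| : ℤ) : ℝ) := by exact_mod_cast abs_nonneg m
  constructor
  · intro h
    have h3 : ((|m| : ℤ) : ℝ) ≤ 2 * g - 1 := by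
      have : |m| ≤ 2 * (g : ℤ) - 1 := by omega
      exact_mod_cast this
    rw [e0]
    have e1 : Real.sin (xx g) = Real.cos ((2 * g - 1) * xx g) := by
      rw [← Real.cos_pi_div_two_sub]
      congr 1
      linarith
    rw [e1]
    refine Real.cos_le_cos_of_nonneg_of_le_pi (mul_nonneg hm0 hx.le) ?_ ?_
    · nlinarith
    · exact mul_le_mul_of_nonneg_right h3 hx.le
  · intro h h'
    have h3 : (2 * g + 1 : ℝ) ≤ ((|m| : ℤ) : ℝ) := by
      have : 2 * (g : ℤ) + 1 ≤ |m| := by omega
      exact_mod_cast this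
    have h4 : ((|m| : ℤ) : ℝ) ≤ 4 * g := by
      have : |m| ≤ 4 * (g : ℤ) := by omega
      exact_mod_cast this
    rw [e0]
    have e1 : -Real.sin (xx g) = Real.cos ((2 * g + 1) * xx g) := by
      rw [← Real.cos_add_pi_div_two]
      congr 1
      linarith
    rw [e1]
    refine Real.cos_le_cos_of_nonneg_of_le_pi (by positivity) ?_ ?_
    · nlinarith
    · exact mul_le_mul_of_nonneg_right h3 hx.le

private theorem H14a_alg {a ki c s p p' q' : ℝ} (ha : a * ki = 1) (hki : 0 < ki)
    (hcs : s ^ 2 ≤ a ^ 2 * c ^ 2) (hc : c ≠ 0) (h2 : a * q' ^ 2 < ki * p' ^ 2)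
    (hP : ki * p = c * p' + s * q') : 0 < c * (p * p') := by
  have ha0 : 0 < a := by
    by_contra h
    push Not at h
    nlinarith
  have hc2 : 0 < c ^ 2 := by positivity
  have e1 : (s * q') ^ 2 < (c * p') ^ 2 := by
    have h3 : s ^ 2 * q' ^ 2 ≤ a ^ 2 * c ^ 2 * q' ^ 2 := mul_le_mul_of_nonneg_right hcs (sq_nonneg _)
    have h4 : (a * c ^ 2) * (a * q' ^ 2) < (a * c ^ 2) * (ki * p' ^ 2) :=
      mul_lt_mul_of_pos_left h2 (by positivity)
    have h5 : (a * c ^ 2) * (ki * p' ^ 2) = c ^ 2 * p' ^ 2 := by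
      calc (a * c ^ 2) * (ki * p' ^ 2) = (a * ki) * (c ^ 2 * p' ^ 2) := by ring
        _ = _ := by rw [ha, one_mul]
    nlinarith
  have e2 := sq_lt_sq.1 e1
  have e3 : 0 < (c * p') * (c * p' + s * q') := by
    have h3 : 0 < |c * p'| := lt_of_le_of_lt (abs_nonneg _) e2
    have h4 : |c * p'| * |s * q'| < |c * p'| * |c * p'| := mul_lt_mul_of_pos_left e2 h3
    rw [← abs_mul, abs_mul_abs_self] at h4
    have h5 := neg_abs_le (c * p' * (s * q'))
    nlinarith
  rw [← hP] at e3
  have e4 : 0 < ki * (c * (p * p')) := by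
    calc (0 : ℝ) < (c * p') * (ki * p) := e3
      _ = _ := by ring
  exact (mul_pos_iff_of_pos_left hki).1 e4

/-- One step: `(x, y)` is the attracting vector, `(x', y') = s_i⁻¹ (x, y)` is attracting for the next
element, the next exit side is `j`. -/
theorem sign_step (hg : 2 ≤ g) (i j : ZMod (4 * g)) (hij : j ≠ closedOpp g i) {x y x' y' : ℝ}
    (e1 : x' = (sm g (i + h2 g)) 0 0 * x + (sm g (i + h2 g)) 0 1 * y)
    (e2 : y' = (sm g (i + h2 g)) 1 0 * x + (sm g (i + h2 g)) 1 1 * y)
    (h1 : lor (W g i) (vv x y) < 0) (h2 : lor (W g j) (vv x' y') < 0) :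
    0 < ((th g i * (if (closedOpp g i).val < j.val then 1 else -1) : ℤ) : ℝ) *
      (comp g i x y * comp g j x' y') := by
  have : NeZero (4 * g) := ⟨by omega⟩
  have hki := ki_pos hg
  have ha := aa_mul hg
  set m : ℤ := (j.val : ℤ) - i.val with hm
  have hi4 : i.val < 4 * g := ZMod.val_lt i
  have hj4 : j.val < 4 * g := ZMod.val_lt j
  have hjv : (closedOpp g i).val ≠ j.val := fun h => hij (ZMod.val_injective _ h).symm
  obtain ⟨hc1, hc2⟩ := H14a_cos hg m
  have hsx := sin_xx_pos hg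
  -- the bound for the sine
  have hcs : |m| < 2 * g ∨ (2 * g < |m| ∧ |m| < 4 * g) →
      Real.sin (m * xx g) ^ 2 ≤ aa g ^ 2 * Real.cos (m * xx g) ^ 2 ∧
        Real.cos (m * xx g) ≠ 0 := by
    intro h
    have h1 : Real.sin (xx g) ^ 2 ≤ Real.cos (m * xx g) ^ 2 := by
      rcases h with h | ⟨h, h'⟩
      · have := hc1 h
        nlinarith
      · have := hc2 h h'
        nlinarith
    constructor
    · have h2 := Real.sin_sq_add_cos_sq (m * xx g)
      have h3 := Real.sin_sq_add_cos_sq (xx g)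
      have h4 := kap_sin hg
      have h5 := one_lt_kap hg
      have h6 : kap g ≤ aa g := by unfold aa; linarith [SS_pos hg]
      have h7 : Real.cos (xx g) ^ 2 ≤ aa g ^ 2 * Real.sin (xx g) ^ 2 := by
        rw [← h4, mul_pow]
        exact mul_le_mul_of_nonneg_right (pow_le_pow_left₀ (by linarith) h6 2) (sq_nonneg _)
      have h8 : aa g ^ 2 * Real.sin (xx g) ^ 2 ≤ aa g ^ 2 * Real.cos (m * xx g) ^ 2 :=
        mul_le_mul_of_nonneg_left h1 (sq_nonneg _)
      linarith
    · intro h0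
      rw [h0] at h1
      nlinarith
  -- the entries of the inverse of the side pairing
  have hsm : sm g (i + Geo.h2 g) =
      act (Rt (i.val * xx g)) !![kap g - SS g, 0; 0, aa g] := by
    unfold sm
    rw [h2_int, fam_add_int hg, act_Rt_add]
    congr 1
    have e : (((2 * g : ℕ) : ℤ) : ℝ) * xx g = Real.pi / 2 := by
      rw [← two_g_xx hg]; push_cast; ring
    rw [e]
    unfold T0
    rw [act_Rt_diag, Real.cos_pi_div_two, Real.sin_pi_div_two]
    norm_num
  rw [hsm, act_Rt_diag] at e1 e2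
  simp only [Matrix.of_apply, Matrix.cons_val', Matrix.cons_val_zero, Matrix.cons_val_one,
    Matrix.cons_val_fin_one] at e1 e2
  have hw2 := lor_W_vv hg j x' y'
  have h2' : aa g * comp' g j x' y' ^ 2 < (kap g - SS g) * comp g j x' y' ^ 2 := by linarith
  have hφ : (m : ℝ) * xx g = j.val * xx g - i.val * xx g := by
    rw [hm]; push_cast; ring
  have hP : (kap g - SS g) * comp g i x y =
      Real.cos (m * xx g) * comp g j x' y' + Real.sin (m * xx g) * comp' g j x' y' := by
    have k1 : Real.cos (m * xx g) * comp g j x' y' + Real.sin (m * xx g) * comp' g j x' y' =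
        Real.cos (j.val * xx g - m * xx g) * x' - Real.sin (j.val * xx g - m * xx g) * y' := by
      rw [Real.cos_sub, Real.sin_sub]
      unfold comp comp'
      ring
    have k2 : (j.val : ℝ) * xx g - m * xx g = i.val * xx g := by rw [hφ]; ring
    rw [k1, k2, e1, e2]
    unfold comp
    have k3 := Real.sin_sq_add_cos_sq (i.val * xx g)
    have k4 : Real.cos (i.val * xx g) ^ 2 = 1 - Real.sin (i.val * xx g) ^ 2 := by linarith
    have k5 : Real.cos (i.val * xx g) ^ 3 =
        Real.cos (i.val * xx g) * (1 - Real.sin (i.val * xx g) ^ 2) := by rw [← k4]; ring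
    ring_nf
    rw [k5, k4]
    ring
  have key : ∀ h : |m| < 2 * g ∨ (2 * g < |m| ∧ |m| < 4 * g),
      0 < Real.cos (m * xx g) * (comp g i x y * comp g j x' y') := fun h =>
    H14a_alg ha hki (hcs h).1 (hcs h).2 h2' hP
  have hpos : |m| < 2 * g → 0 < comp g i x y * comp g j x' y' := by
    intro h
    have h1 := key (Or.inl h)
    have h2 : 0 < Real.cos (m * xx g) := lt_of_lt_of_le hsx (hc1 h)
    exact (mul_pos_iff_of_pos_left h2).1 h1
  have hneg : (2 * g < |m| ∧ |m| < 4 * g) → comp g i x y * comp g j x' y' < 0 := by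
    intro h
    have h1 := key (Or.inr h)
    have h2 : Real.cos (m * xx g) < 0 := by
      have := hc2 h.1 h.2
      linarith
    by_contra hc
    push Not at hc
    nlinarith
  unfold th
  rcases H14a_opp hg i with ⟨k1, k2⟩ | ⟨k1, k2⟩
  · rw [if_pos k1]
    by_cases h : (closedOpp g i).val < j.val
    · rw [if_pos h]
      have h3 := hneg (by
        have : m = |m| := (abs_of_nonneg (by omega)).symm
        omega)
      push_cast
      linarith
    · rw [if_neg h]
      have h3 := hpos (by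
        rw [abs_lt]
        omega)
      push_cast
      linarith
  · rw [if_neg (by omega : ¬ i.val < 2 * g)]
    by_cases h : (closedOpp g i).val < j.val
    · rw [if_pos h]
      have h3 := hpos (by
        rw [abs_lt]
        omega)
      push_cast
      linarith
    · rw [if_neg h]
      have h3 := hneg (by
        have : -m = |m| := (abs_of_nonpos (by omega)).symm
        omega)
      push_cast
      linarith

/-- Products of the first letters. -/
private def H14b_P (u : ℕ → ZMod (4 * g)) (k : ℕ) : SurfaceGroup g :=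
  ((List.range k).map fun k => ss g (u k)).prod

private theorem H14b_P_succ (u : ℕ → ZMod (4 * g)) (k : ℕ) :
    H14b_P u (k + 1) = H14b_P u k * ss g (u k) := by
  unfold H14b_P; rw [List.range_succ, List.map_append, List.prod_append]; simp

/-- The attracting vector of the element `k`. -/
private noncomputable def H14b_v (hg : 2 ≤ g) (u : ℕ → ZMod (4 * g)) (v0 : Fin 2 → ℝ) (k : ℕ) :
    Fin 2 → ℝ :=
  Hm hg (H14b_P u k)⁻¹ *ᵥ v0

private theorem H14b_v_succ (hg : 2 ≤ g) (u : ℕ → ZMod (4 * g)) (v0 : Fin 2 → ℝ) (k : ℕ) :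
    H14b_v hg u v0 (k + 1) = sm g (u k + h2 g) *ᵥ H14b_v hg u v0 k := by
  unfold H14b_v
  rw [H14b_P_succ, _root_.mul_inv_rev, Hm_mul, ss_inv, Hm_ss, Matrix.mulVec_mulVec]

private theorem H14b_conj (hg : 2 ≤ g) (γ : SurfaceGroup g) (n : ℕ) (u : ℕ → ZMod (4 * g))
    (h : ℕ → SurfaceGroup g) (h0 : h 0 = γ)
    (hs : IsStrand (ss g) (hol hg) (Q g) n u h) (k : ℕ) (hk : k ≤ n) :
    h k = (H14b_P u k)⁻¹ * γ * H14b_P u k := by
  induction k with
  | zero => simp [H14b_P, h0]
  | succ k ih =>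
    rw [hs.next k (by omega), ih (by omega), H14b_P_succ]; group

private theorem H14b_eig (hg : 2 ≤ g) (γ : SurfaceGroup g) (n : ℕ) (u : ℕ → ZMod (4 * g))
    (h : ℕ → SurfaceGroup g) (h0 : h 0 = γ)
    (hs : IsStrand (ss g) (hol hg) (Q g) n u h) {v0 : Fin 2 → ℝ} {l : ℝ}
    (e : Hm hg γ *ᵥ v0 = l • v0) (k : ℕ) (hk : k ≤ n) :
    Hm hg (h k) *ᵥ H14b_v hg u v0 k = l • H14b_v hg u v0 k := by
  rw [H14b_conj hg γ n u h h0 hs k hk]
  unfold H14b_v
  rw [Matrix.mulVec_mulVec, ← Hm_mul, mul_assoc, mul_assoc, mul_inv_cancel, mul_one, Hm_mul,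
    ← Matrix.mulVec_mulVec, e, Matrix.mulVec_smul]

private theorem H14b_ne (hg : 2 ≤ g) (u : ℕ → ZMod (4 * g)) {v0 : Fin 2 → ℝ} (hv : v0 ≠ 0)
    (k : ℕ) : H14b_v hg u v0 k ≠ 0 := by
  intro h
  apply hv
  have h1 : Hm hg (H14b_P u k) *ᵥ H14b_v hg u v0 k = v0 := by
    unfold H14b_v
    rw [Matrix.mulVec_mulVec, ← Hm_mul, mul_inv_cancel, Hm_one, Matrix.one_mulVec]
  rw [h, Matrix.mulVec_zero] at h1
  exact h1.symm

/-- The exit side is not the side through which the strand enters. -/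
private theorem H14b_entry (hg : 2 ≤ g) (n : ℕ) (u : ℕ → ZMod (4 * g))
    (h : ℕ → SurfaceGroup g) (hs : IsStrand (ss g) (hol hg) (Q g) n u h) (k : ℕ) (hk : k < n) :
    ¬ OnR (hol hg) (Q g) (h (k + 1)) (closedOpp g (u k)) := by
  have h1 := hs.exitL k hk
  rw [onR_iff] at h1 ⊢
  have h2' : h k = ss g (u k) * h (k + 1) * (ss g (u k))⁻¹ := by
    rw [hs.next k hk]; group
  have h3 := axN_ga hg (ss g (u k)) (h (k + 1)) (Q g (u k + h2 g))
  rw [← h2', ga_ss, sm_QB hg] at h3
  rw [h3] at h1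
  exact h1

/-- The sign of the trace along the cycle. -/
theorem sign (hg : 2 ≤ g) (γ : SurfaceGroup g) (n : ℕ) (u : ℕ → ZMod (4 * g))
    (h : ℕ → SurfaceGroup g) (hγ : γ ≠ 1) (hn : 0 < n) (h0 : h 0 = γ) (h1 : h n = γ)
    (hs : IsStrand (ss g) (hol hg) (Q g) n u h)
    (hprod : ((List.range n).map fun k => ss g (u k)).prod = γ) :
    0 < ((∏ k ∈ Finset.range n, th g (u k) *
      (if (closedOpp g (u k)).val < (u ((k + 1) % n)).val then 1 else -1) : ℤ) : ℝ) *
      (hol hg γ).1.trace := by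
  have hMd : (Hm hg γ).det = 1 := det_Hm hg γ
  obtain ⟨p, l, hp, hl, hM⟩ := diag hMd (hyp hg γ hγ)
  have hl0 : l ≠ 0 := by rintro rfl; simp at hl; linarith
  have hpi : p⁻¹ * p = 1 := Matrix.nonsing_inv_mul _ (by rw [hp]; exact isUnit_one)
  -- the eigenvector
  set v0 : Fin 2 → ℝ := p *ᵥ ![1, 0] with hv0
  have e0 : Hm hg γ *ᵥ v0 = l • v0 := by
    rw [hM, hv0, Matrix.mulVec_mulVec, Matrix.mul_assoc, hpi, Matrix.mul_one,
      ← Matrix.mulVec_mulVec, ← Matrix.mulVec_smul]
    congr 1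
    ext i; fin_cases i <;> simp [Matrix.mulVec, dotProduct, Fin.sum_univ_two]
  have hv : v0 ≠ 0 := by
    intro hz
    have : p⁻¹ *ᵥ v0 = ![1, 0] := by rw [hv0, Matrix.mulVec_mulVec, hpi, Matrix.one_mulVec]
    rw [hz, Matrix.mulVec_zero] at this
    have := congrFun this 0
    simp at this
  have htr : (hol hg γ).1.trace = l + l⁻¹ := by
    show (Hm hg γ).trace = _
    rw [hM, Matrix.trace_mul_comm, ← Matrix.mul_assoc, hpi, Matrix.one_mul, Matrix.trace_fin_two]
    simp
  -- the last vector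
  have hn' : H14b_v hg u v0 n = l⁻¹ • v0 := by
    have e1 : Hm hg γ⁻¹ *ᵥ (Hm hg γ *ᵥ v0) = v0 := by
      rw [Matrix.mulVec_mulVec, ← Hm_mul, inv_mul_cancel, Hm_one, Matrix.one_mulVec]
    rw [e0, Matrix.mulVec_smul] at e1
    have e2 : H14b_v hg u v0 n = Hm hg γ⁻¹ *ᵥ v0 := by
      unfold H14b_v H14b_P; rw [hprod]
    rw [e2]
    conv_rhs => rw [← e1]
    rw [smul_smul, inv_mul_cancel₀ hl0, one_smul]
  have hu : ∀ k, k < n → u (k % n) = u k := fun k hk => by rw [Nat.mod_eq_of_lt hk]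
  -- the exit sides
  have hout : ∀ k, k ≤ n → lor (W g (u (k % n)))
      (vv (H14b_v hg u v0 k 0) (H14b_v hg u v0 k 1)) < 0 := by
    have hlt : ∀ k, k < n → lor (W g (u k))
        (vv (H14b_v hg u v0 k 0) (H14b_v hg u v0 k 1)) < 0 := by
      intro k hk
      have e3 := H14b_eig hg γ n u h h0 hs e0 k hk.le
      have e4 := congrFun e3 0
      have e5 := congrFun e3 1
      simp only [Matrix.mulVec, dotProduct, Fin.sum_univ_two, Pi.smul_apply, smul_eq_mul]
        at e4 e5
      have hne : H14b_v hg u v0 k 0 ≠ 0 ∨ H14b_v hg u v0 k 1 ≠ 0 := by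
        by_contra hc
        push Not at hc
        apply H14b_ne hg u hv k
        ext i; fin_cases i
        · exact hc.1
        · exact hc.2
      have h2' := hs.exitR k hk
      have h3 := hs.exitL k hk
      rw [onR_iff] at h2' h3
      exact orient_attr (det_Hm hg (h k)) hl e4 e5 hne (pd_Q hg (u k)) (pd_Q hg (u k + 1))
        (sym_W (u k)) (det3_side hg (u k)) h2' (not_lt.mp h3)
    intro k hk
    rcases hk.lt_or_eq with hk | hk
    · rw [hu k hk]; exact hlt k hk
    · have h2' := hlt 0 hn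
      have h3 : H14b_v hg u v0 0 = v0 := by
        unfold H14b_v H14b_P; simp [Hm_one]
      rw [h3] at h2'
      rw [hk, Nat.mod_self, hn']
      have h4 : vv ((l⁻¹ • v0) 0) ((l⁻¹ • v0) 1) = (l⁻¹ ^ 2) • vv (v0 0) (v0 1) := by
        unfold vv
        ext i j
        fin_cases i <;> fin_cases j <;> simp <;> ring
      rw [h4, lor_smul_right]
      exact mul_neg_of_pos_of_neg (by positivity) h2'
  -- the product of the components
  set a : ℕ → ℝ := fun k =>
    comp g (u (k % n)) (H14b_v hg u v0 k 0) (H14b_v hg u v0 k 1) with ha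
  set c : ℕ → ℤ := fun k => th g (u k) *
    (if (closedOpp g (u k)).val < (u ((k + 1) % n)).val then 1 else -1) with hc
  have hstep : ∀ k, k < n → 0 < ((c k : ℤ) : ℝ) * (a k * a (k + 1)) := by
    intro k hk
    have e3 := H14b_v_succ hg u v0 k
    have e4 := congrFun e3 0
    have e5 := congrFun e3 1
    simp only [Matrix.mulVec, dotProduct, Fin.sum_univ_two] at e4 e5
    have hij : u ((k + 1) % n) ≠ closedOpp g (u k) := by
      intro he
      apply H14b_entry hg n u h hs k hk
      rw [← he]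
      rcases Nat.lt_or_ge (k + 1) n with hk' | hk'
      · rw [Nat.mod_eq_of_lt hk']; exact hs.exitR _ hk'
      · have hk2 : k + 1 = n := by omega
        rw [hk2, Nat.mod_self, h1, ← h0]; exact hs.exitR 0 hn
    have h2' := hout k hk.le
    rw [hu k hk] at h2'
    have := sign_step hg (u k) (u ((k + 1) % n)) hij e4 e5 h2' (hout (k + 1) hk)
    simp only [ha, hc]
    rw [hu k hk]
    exact this
  have ha0 : a 0 ≠ 0 := by
    intro hz
    have := hstep 0 hn
    rw [hz] at this
    simp at this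
  have hind : ∀ m, m ≤ n → 0 < ((∏ k ∈ Finset.range m, c k : ℤ) : ℝ) * (a 0 * a m) := by
    intro m
    induction m with
    | zero =>
      intro _
      simp only [Finset.range_zero, Finset.prod_empty, Int.cast_one, one_mul]
      exact mul_self_pos.mpr ha0
    | succ m ih =>
      intro hm
      have h2' := ih (by omega)
      have h3 := hstep m (by omega)
      have h4 := mul_pos h2' h3
      have h5 : a m ≠ 0 := by
        intro hz; rw [hz] at h3; simp at h3
      have h6 : 0 < a m ^ 2 := by positivity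
      rw [Finset.prod_range_succ]
      push_cast
      push_cast at h4
      have h7 : 0 < ((∏ k ∈ Finset.range m, ((c k : ℤ) : ℝ)) * (c m : ℝ) * (a 0 * a (m + 1))) *
          a m ^ 2 := by
        calc 0 < _ := h4
          _ = _ := by ring
      exact (mul_pos_iff_of_pos_right h6).mp h7
  have h2' := hind n le_rfl
  have h3 : a n = l⁻¹ * a 0 := by
    have h3 : H14b_v hg u v0 0 = v0 := by
      unfold H14b_v H14b_P; simp [Hm_one]
    simp only [ha]
    rw [hn', h3, Nat.mod_self, Nat.zero_mod]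
    unfold comp
    simp only [Pi.smul_apply, smul_eq_mul]
    ring
  rw [h3] at h2'
  rw [htr]
  have h4 : 0 < a 0 ^ 2 := by positivity
  have h5 : 0 < ((∏ k ∈ Finset.range n, c k : ℤ) : ℝ) * l⁻¹ := by
    have : 0 < (((∏ k ∈ Finset.range n, c k : ℤ) : ℝ) * l⁻¹) * a 0 ^ 2 := by
      calc 0 < _ := h2'
        _ = _ := by ring
    exact (mul_pos_iff_of_pos_right h4).mp this
  have h6 : l + l⁻¹ = l⁻¹ * (l ^ 2 + 1) := by field_simp
  rw [h6, ← mul_assoc]
  exact mul_pos h5 (by positivity)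

end Pool.Agent.AMU.Geo
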