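import Pool.Agent.Lib.AMU.Geo10

/-!
# Row H15: no strand cuts off all corners
-/

set_option autoImplicit false

namespace Pool.Agent.AMU.Geo

open Matrix

variable {g : ℕ}

private theorem H15_sm_int (hg : 2 ≤ g) (n : ℤ) :
    sm g (n : ZMod (4 * g)) = Rt (n * xx g) * T0 g * Rt (-(n * xx g)) := by
  unfold sm
  rw [fam_int hg, act_Rt]

private theorem H15_prod (hg : 2 ≤ g) (n : ℕ) :
    Hm hg (arc g (-1) (h2 g - 1) n) =
      Rt (-xx g) * (T0 g * Rt ((2 * g - 1) * xx g)) ^ n * Rt (xx g - n * ((2 * g - 1) * xx g)) := by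
  induction n with
  | zero => rw [arc_zero, Hm_one, pow_zero, Matrix.mul_one, ← Rt_add]; simp [Rt_zero]
  | succ n ih =>
    have h1 : (-1 + (n : ZMod (4 * g)) * (h2 g - 1) : ZMod (4 * g)) =
        ((-1 + (n : ℤ) * (((2 * g : ℕ) : ℤ) - 1) : ℤ) : ZMod (4 * g)) := by
      rw [h2_int]; push_cast; ring
    rw [arc_succ, Hm_mul, ih, Hm_ss, h1, H15_sm_int hg, pow_succ]
    have h2 : ((-1 + (n : ℤ) * (((2 * g : ℕ) : ℤ) - 1) : ℤ) : ℝ) * xx g =
        -(xx g - n * ((2 * g - 1) * xx g)) := by push_cast; ring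
    have h3 : Rt (-(-(xx g - n * ((2 * g - 1) * xx g)))) =
        Rt ((2 * g - 1) * xx g) * Rt (xx g - ((n + 1 : ℕ) : ℝ) * ((2 * g - 1) * xx g)) := by
      rw [← Rt_add]; congr 1; push_cast; ring
    have h4 : Rt (xx g - n * ((2 * g - 1) * xx g)) * Rt (-(xx g - n * ((2 * g - 1) * xx g))) = 1 := by
      rw [← Rt_add]; simp [Rt_zero]
    rw [h2, h3]
    calc _ = Rt (-xx g) * (T0 g * Rt ((2 * g - 1) * xx g)) ^ n *
          (Rt (xx g - n * ((2 * g - 1) * xx g)) * Rt (-(xx g - n * ((2 * g - 1) * xx g)))) *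
          (T0 g * Rt ((2 * g - 1) * xx g)) *
            Rt (xx g - ((n + 1 : ℕ) : ℝ) * ((2 * g - 1) * xx g)) := by
          simp only [Matrix.mul_assoc]
      _ = _ := by rw [h4, Matrix.mul_one]; simp only [Matrix.mul_assoc]

private theorem H15_M (hg : 2 ≤ g) : T0 g * Rt ((2 * g - 1) * xx g) =
    !![aa g * Real.sin (xx g), aa g * Real.cos (xx g);
      -((kap g - SS g) * Real.cos (xx g)), (kap g - SS g) * Real.sin (xx g)] := by
  have h1 : (2 * g - 1) * xx g = Real.pi / 2 - xx g := by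
    have := two_g_xx hg; push_cast at this; linarith
  rw [h1]
  unfold T0 Rt
  rw [Real.cos_pi_div_two_sub, Real.sin_pi_div_two_sub]
  ext i j
  fin_cases i <;> fin_cases j <;> simp [Matrix.mul_apply, Fin.sum_univ_two]

/-- Powers of a matrix with trace `2 cos x` and determinant one. -/
private theorem H15_pow {M : M2} {x : ℝ} (hd : M.det = 1)
    (ht : M 0 0 + M 1 1 = 2 * Real.cos x) (n : ℕ) :
    Real.sin x • M ^ n = Real.sin (n * x) • M - Real.sin ((n - 1) * x) • (1 : M2) := by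
  have hM : M * M = (2 * Real.cos x) • M - (1 : M2) := by
    rw [Matrix.det_fin_two] at hd
    rw [← ht]
    ext i j
    fin_cases i <;> fin_cases j <;> simp [Matrix.mul_apply, Fin.sum_univ_two] <;> linarith
  induction n with
  | zero => simp
  | succ n ih =>
    rw [pow_succ, ← Matrix.smul_mul, ih, Matrix.sub_mul, Matrix.smul_mul, Matrix.smul_mul, hM,
      Matrix.one_mul]
    have e1 : Real.sin (((n + 1 : ℕ) : ℝ) * x) =
        2 * Real.cos x * Real.sin (n * x) - Real.sin ((n - 1) * x) := by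
      have a1 : ((n + 1 : ℕ) : ℝ) * x = n * x + x := by push_cast; ring
      have a2 : ((n : ℝ) - 1) * x = n * x - x := by ring
      rw [a1, a2, Real.sin_add, Real.sin_sub]; ring
    have e2 : (((n + 1 : ℕ) : ℝ) - 1) * x = n * x := by push_cast; ring
    rw [e1, e2, smul_sub, sub_smul, smul_smul]
    have e3 : (Real.sin (n * x) * (2 * Real.cos x)) = (2 * Real.cos x * Real.sin (n * x)) := by
      ring
    rw [e3]
    abel

private theorem H15_K (hg : 2 ≤ g) : (T0 g * Rt ((2 * g - 1) * xx g)) ^ (2 * g) =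
    !![SS g, aa g * kap g; -((kap g - SS g) * kap g), -SS g] := by
  have hs := sin_xx_pos hg
  have hks := kap_sin hg
  have hm := aa_mul hg
  have hsc := Real.sin_sq_add_cos_sq (xx g)
  have hd : (T0 g * Rt ((2 * g - 1) * xx g)).det = 1 := by
    rw [Matrix.det_mul, det_T0 hg, det_Rt, one_mul]
  have ht : (T0 g * Rt ((2 * g - 1) * xx g)) 0 0 + (T0 g * Rt ((2 * g - 1) * xx g)) 1 1 =
      2 * Real.cos (xx g) := by
    rw [H15_M hg, ← hks]; unfold aa; simp; ring
  have h := H15_pow hd ht (2 * g)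
  have h1 : Real.sin (((2 * g : ℕ) : ℝ) * xx g) = 1 := by
    rw [two_g_xx hg, Real.sin_pi_div_two]
  have h2 : Real.sin ((((2 * g : ℕ) : ℝ) - 1) * xx g) = Real.cos (xx g) := by
    have := two_g_xx hg
    rw [show (((2 * g : ℕ) : ℝ) - 1) * xx g = Real.pi / 2 - xx g by rw [sub_mul, this]; ring,
      Real.sin_pi_div_two_sub]
  rw [h1, h2, one_smul, H15_M hg] at h
  have h3 : Real.sin (xx g) • (T0 g * Rt ((2 * g - 1) * xx g)) ^ (2 * g) =
      Real.sin (xx g) • !![SS g, aa g * kap g; -((kap g - SS g) * kap g), -SS g] := by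
    rw [H15_M hg, h, ← hks]
    ext i j
    fin_cases i <;> fin_cases j <;> simp [aa] <;> ring
  exact smul_right_injective _ hs.ne' h3

private theorem H15_Q0 (hg : 2 ≤ g) : Q0 g = Real.sin (xx g) •
    !![aa g * kap g, SS g; SS g, (kap g - SS g) * kap g] := by
  have hks := kap_sin hg
  unfold Q0
  rw [← hks]
  ext i j
  fin_cases i <;> fin_cases j <;> simp <;> ring

/-- The half turn around the corner. -/
private theorem H15_sum (hg : 2 ≤ g) :
    Q0 g + act !![SS g, aa g * kap g; -((kap g - SS g) * kap g), -SS g] (Q0 g) =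
      (2 * (kap g ^ 2 + SS g ^ 2)) • act (Rt (xx g)) (Q0 g) := by
  have h1 : act (Rt (xx g)) (Q0 g) = Real.sin (xx g) •
      !![aa g * kap g, -SS g; -SS g, (kap g - SS g) * kap g] := by
    have h := Q_eq hg 1
    have h2 : Q g 1 = act (Rt (xx g)) (Q0 g) := by
      have := fam_int hg (Q0 g) 1
      unfold Q
      simpa using this
    have hv : ((1 : ZMod (4 * g)).val : ℝ) = 1 := by
      have : Fact (1 < 4 * g) := ⟨by omega⟩
      rw [ZMod.val_one]; simp
    rw [← h2, h, hv]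
    have hks := kap_sin hg
    have e : (2 * (1 : ℝ) - 1) * xx g = xx g := by ring
    rw [e, ← hks]
    ext i j
    fin_cases i <;> fin_cases j <;> simp [aa] <;> ring
  rw [h1, H15_Q0 hg, act_smul, smul_comm, ← smul_add]
  congr 1
  have h2 := SS_sq hg
  have h3 : kap g ^ 2 - SS g ^ 2 = 1 := by linarith
  unfold act aa
  ext i j
  fin_cases i <;> fin_cases j <;>
    simp only [Matrix.mul_apply, Fin.sum_univ_two, Matrix.transpose_apply, Matrix.of_apply,
      Matrix.cons_val', Matrix.cons_val_zero, Matrix.cons_val_one, Matrix.cons_val_fin_one,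
      Matrix.add_apply, Matrix.smul_apply, smul_eq_mul, Fin.zero_eta, Fin.mk_one, Fin.isValue]
  · linear_combination ((kap g + SS g) * kap g * (kap g ^ 2 - 1)) * h3
  · linear_combination (-(SS g * (1 + 3 * kap g ^ 2))) * h3
  · linear_combination (-(SS g * (1 + 3 * kap g ^ 2))) * h3
  · linear_combination (kap g * (kap g - SS g) * (kap g ^ 2 - 1)) * h3

/-- Two opposite neighbours of the vertex: `Q (-1)` and its image under the half turn around the
corner `0`. -/
theorem neighbours (hg : 2 ≤ g) :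
    ∃ c : ℝ, 0 < c ∧ Q g (-1) + ga hg (arc g (-1) (h2 g - 1) (2 * g)) (Q g (h2 g - 1)) =
      c • Q g 0 := by
  have hk := one_lt_kap hg
  have hS := SS_pos hg
  refine ⟨2 * (kap g ^ 2 + SS g ^ 2), by positivity, ?_⟩
  have q0 : Q g 0 = Q0 g := by
    have := fam_int hg (Q0 g) 0
    unfold Q
    simpa [Rt_zero, act_one] using this
  have q1 : Q g (-1) = act (Rt (-xx g)) (Q0 g) := by
    have := fam_int hg (Q0 g) (-1)
    unfold Q
    simpa using this
  have q2 : Q g (h2 g - 1) = act (Rt ((2 * g - 1) * xx g)) (Q0 g) := by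
    have := fam_int hg (Q0 g) (((2 * g : ℕ) : ℤ) - 1)
    unfold Q
    rw [h2_int]
    push_cast at this ⊢
    exact this
  have q3 : act (Rt (xx g - ((2 * g : ℕ) : ℝ) * ((2 * g - 1) * xx g))) (Q g (h2 g - 1)) = Q0 g := by
    rw [q2, ← act_Rt_add]
    have e : xx g - ((2 * g : ℕ) : ℝ) * ((2 * g - 1) * xx g) + (2 * g - 1) * xx g =
        0 + ((1 - g : ℤ) : ℝ) * Real.pi := by
      rw [← xx_mul hg]; push_cast; ring
    rw [e, act_Rt_period, Rt_zero, act_one]
  have q4 : ga hg (arc g (-1) (h2 g - 1) (2 * g)) (Q g (h2 g - 1)) =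
      act (Rt (-xx g)) (act !![SS g, aa g * kap g; -((kap g - SS g) * kap g), -SS g] (Q0 g)) := by
    unfold ga
    rw [H15_prod hg, H15_K hg, ← act_act, ← act_act, q3]
  rw [q1, q4, ← act_add, H15_sum hg, act_smul, ← act_Rt_add, neg_add_cancel, Rt_zero, act_one, q0]

/-- The elements of the strand around the vertex. -/
theorem around (hg : 2 ≤ g) (s : ZMod (4 * g) → SurfaceGroup g)
    (h : ∀ i, s (closedOpp g (i - 1)) = (ss g (i - 1))⁻¹ * s i * ss g (i - 1)) (n : ℕ) :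
    s (n * (h2 g - 1)) =
      (arc g (-1) (h2 g - 1) n)⁻¹ * s 0 * arc g (-1) (h2 g - 1) n := by
  induction n with
  | zero => simp [arc_zero]
  | succ n ih =>
    have h1 := h (n * (h2 g - 1))
    have h2' : closedOpp g ((n : ZMod (4 * g)) * (h2 g - 1) - 1) =
        ((n + 1 : ℕ) : ZMod (4 * g)) * (h2 g - 1) := by
      unfold closedOpp; push_cast; ring
    have h3 : (n : ZMod (4 * g)) * (h2 g - 1) - 1 = -1 + (n : ZMod (4 * g)) * (h2 g - 1) := by
      ring
    rw [h2', ih, h3] at h1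
    rw [h1, arc_succ]
    group

private theorem H15_half (hg : 2 ≤ g) (s : ZMod (4 * g) → SurfaceGroup g)
    (h : ∀ i, s (closedOpp g (i - 1)) = (ss g (i - 1))⁻¹ * s i * ss g (i - 1)) :
    s (h2 g) = (arc g (-1) (h2 g - 1) (2 * g))⁻¹ * s 0 * arc g (-1) (h2 g - 1) (2 * g) := by
  rw [← around hg s h (2 * g)]
  congr 1
  have h1 : ((2 * g : ℕ) : ZMod (4 * g)) * h2 g = 0 := by
    unfold h2
    rw [← Nat.cast_mul, show 2 * g * (2 * g) = 4 * g * g by ring, Nat.cast_mul,
      ZMod.natCast_self, zero_mul]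
  have h2' := h2_add_h2 (g := g)
  rw [mul_sub, h1, mul_one]
  show h2 g = 0 - h2 g
  rw [zero_sub]
  exact eq_neg_of_add_eq_zero_left h2'

/-- The values of the axis functional at the two neighbours. -/
private theorem H15_val (hg : 2 ≤ g) (s : ZMod (4 * g) → SurfaceGroup g)
    (h : ∀ i, s (closedOpp g (i - 1)) = (ss g (i - 1))⁻¹ * s i * ss g (i - 1)) :
    ∃ c : ℝ, 0 < c ∧ axN (Hm hg (s 0)) (Q g (-1)) + axN (Hm hg (s (h2 g))) (Q g (h2 g - 1)) =
      c * axN (Hm hg (s 0)) (Q g 0) := by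
  obtain ⟨c, hc, e⟩ := neighbours hg
  refine ⟨c, hc, ?_⟩
  have h1 := H15_half hg s h
  have h2' : s 0 = arc g (-1) (h2 g - 1) (2 * g) * s (h2 g) *
      (arc g (-1) (h2 g - 1) (2 * g))⁻¹ := by
    rw [h1]; group
  have h3 := axN_ga hg (arc g (-1) (h2 g - 1) (2 * g)) (s (h2 g)) (Q g (h2 g - 1))
  rw [← h2'] at h3
  rw [← h3, ← axN_add, e, axN_smul]

theorem uncutR (hg : 2 ≤ g) (s : ZMod (4 * g) → SurfaceGroup g)
    (h : ∀ i, s (closedOpp g (i - 1)) = (ss g (i - 1))⁻¹ * s i * ss g (i - 1))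
    (hR : ∀ i, OnR (hol hg) (Q g) (s i) i) :
    ∃ i, OnR (hol hg) (Q g) (s i) (i - 1) ∨ OnR (hol hg) (Q g) (s i) (i + 1) := by
  by_contra hc
  push Not at hc
  obtain ⟨c, hc0, e⟩ := H15_val hg s h
  have h1 := (hc 0).1
  have h2' := (hc (h2 g)).1
  have h3 := hR 0
  rw [onR_iff] at h1 h2' h3
  rw [zero_sub] at h1
  have := mul_pos hc0 h3
  linarith [not_lt.mp h1, not_lt.mp h2']

theorem uncutL (hg : 2 ≤ g) (s : ZMod (4 * g) → SurfaceGroup g)
    (h : ∀ i, s (closedOpp g (i - 1)) = (ss g (i - 1))⁻¹ * s i * ss g (i - 1))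
    (hR : ∀ i, ¬ OnR (hol hg) (Q g) (s i) i) :
    ∃ i, ¬ OnR (hol hg) (Q g) (s i) (i - 1) ∨ ¬ OnR (hol hg) (Q g) (s i) (i + 1) := by
  by_contra hc
  push Not at hc
  obtain ⟨c, hc0, e⟩ := H15_val hg s h
  have h1 := (hc 0).1
  have h2' := (hc (h2 g)).1
  have h3 := hR 0
  rw [onR_iff] at h1 h2' h3
  rw [zero_sub] at h1
  have := mul_nonneg hc0.le (neg_nonneg.mpr (not_lt.mp h3))
  linarith

end Pool.Agent.AMU.Geo
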