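import Pool.Agent.Lib.AMU.Geo13
import Pool.Agent.Lib.AMU.Geo14
import Pool.Agent.Lib.AMU.Geo15

/-!
# Section H: the model of the closed surface
-/

set_option autoImplicit false

namespace Pool.Agent.AMU

open Matrix Geo

theorem Geo.psd_of_pd {X : Matrix (Fin 2) (Fin 2) ℝ} (h : PD X) :
    0 ≤ X 0 0 ∧ 0 ≤ X 1 1 ∧ 0 ≤ X.det :=
  ⟨h.2.1.le, (pd_pos' h).le, h.2.2.le⟩

theorem Geo.ne_of_pd {X : Matrix (Fin 2) (Fin 2) ℝ} (h : PD X) : X ≠ 0 := by
  intro h0; have := h.2.1; rw [h0] at this; simp at this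

/-- The hyperbolic model of the closed surface of genus `g`. -/
noncomputable def closedModel {g : ℕ} (hg : 2 ≤ g) :
    CModel (closedOpp g) (fun i => (PresentedGroup.of i : SurfaceGroup g)) True where
  hol := Geo.hol hg
  hyp := Geo.hyp hg
  disc := Geo.disc hg
  A := Geo.Q g
  B := fun i => Geo.Q g (i + 1)
  A_symm := fun i => sym_Q i
  B_symm := fun i => sym_Q (i + 1)
  A_psd := fun i => psd_of_pd (pd_Q hg i)
  B_psd := fun i => psd_of_pd (pd_Q hg (i + 1))
  A_ne := fun i => ne_of_pd (pd_Q hg i)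
  B_ne := fun i => ne_of_pd (pd_Q hg (i + 1))
  conv := fun i j k hij hjk => det3_Q hg i j k hij hjk
  glueA := fun i => ⟨1, one_pos, by
    have h := sm_QA hg i
    rw [← Hm_ss hg i] at h
    rw [one_smul]; exact h⟩
  glueB := fun i => ⟨1, one_pos, by
    have h := sm_QB hg i
    rw [← Hm_ss hg i] at h
    rw [one_smul]; exact h⟩
  corner := fun _ _ _ => Iff.rfl
  exists_cross := Geo.exists_cross hg
  finite_cross := Geo.finite_cross hg
  cycle := Geo.cycle hg
  θ := Geo.th g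
  θ_opp := Geo.th_opp hg
  θ_sq := fun i => by unfold Geo.th; split_ifs <;> simp
  sign := Geo.sign hg
  uncutR := fun _ s _ h hR => Geo.uncutR hg s h hR
  uncutL := fun _ s _ h hR => Geo.uncutL hg s h hR

end Pool.Agent.AMU
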