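import Pool.Agent.Lib.AMU.Sch6

/-!
# Schottky geometry, part 7: the sign of the trace along a strand, the model

Main result: `schottky`: the geometric model of every punctured surface.
-/

set_option autoImplicit false

namespace Pool.Agent.AMU.Sch

open Matrix

variable {N : ℕ} (opp : ZMod N → ZMod N)

/-- The sign of a side. -/
def th (i : ZMod N) : ℤ := if i.val < (opp i).val then 1 else -1

theorem th_cast (i : ZMod N) : (th opp i : ℝ) = ep opp i := by
  unfold th ep
  split_ifs <;> simp

theorem th_sq (i : ZMod N) : th opp i = 1 ∨ th opp i = -1 := by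
  unfold th
  split_ifs <;> simp

theorem cs_prod (u : ℕ → ZMod N) (m : ℕ) : ∀ j,
    cs opp (u j) ((List.range' (j + 1) m).map u) =
      (∏ k ∈ Finset.range m, ep opp (u (j + k)) * sgv (opp (u (j + k))) (u (j + k + 1))) *
        ep opp (u (j + m)) := by
  induction m with
  | zero =>
    intro j
    rw [Finset.prod_range_zero, one_mul, add_zero]
    rfl
  | succ m ih =>
    intro j
    rw [List.range'_succ, List.map_cons, cs_cons, ih (j + 1), Finset.prod_range_succ']
    have e : ∀ k, ep opp (u (j + 1 + k)) * sgv (opp (u (j + 1 + k))) (u (j + 1 + k + 1)) =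
        ep opp (u (j + (k + 1))) * sgv (opp (u (j + (k + 1)))) (u (j + (k + 1) + 1)) := by
      intro k
      rw [show j + 1 + k = j + (k + 1) by ring]
    rw [Finset.prod_congr rfl (fun k _ => e k), add_zero, show j + 1 + m = j + (m + 1) by ring]
    ring

theorem lst_range (u : ℕ → ZMod N) (m : ℕ) : ∀ j,
    lst (u j) ((List.range' (j + 1) m).map u) = u (j + m) := by
  induction m with
  | zero => intro j; rfl
  | succ m ih =>
    intro j
    rw [List.range'_succ, List.map_cons, lst_cons, ih (j + 1), show j + 1 + m = j + (m + 1) by ring]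

theorem sign_prod (u : ℕ → ZMod N) (m : ℕ) :
    ((∏ k ∈ Finset.range (m + 1), th opp (u k) *
      (if (opp (u k)).val < (u ((k + 1) % (m + 1))).val then 1 else -1) : ℤ) : ℝ) =
    cs opp (u 0) ((List.range' 1 m).map u) * sgv (opp (u m)) (u 0) := by
  have h1 := cs_prod opp u m 0
  rw [zero_add] at h1
  rw [h1, Finset.prod_range_succ, Nat.mod_self]
  push_cast
  have e : ∀ k ∈ Finset.range m, ((th opp (u k) : ℝ) *
      (if (opp (u k)).val < (u ((k + 1) % (m + 1))).val then 1 else -1)) =
      ep opp (u (0 + k)) * sgv (opp (u (0 + k))) (u (0 + k + 1)) := by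
    intro k hk
    rw [Finset.mem_range] at hk
    rw [th_cast, zero_add, Nat.mod_eq_of_lt (by omega)]
    rfl
  rw [Finset.prod_congr rfl e, th_cast, zero_add]
  unfold sgv
  ring

theorem Rd_range (u : ℕ → ZMod N) (m : ℕ) : ∀ k,
    (∀ j, k ≤ j → j + 1 < k + m → u (j + 1) ≠ opp (u j)) →
    Rd opp ((List.range' k m).map u) := by
  induction m with
  | zero => intro k _; exact Rd_nil opp
  | succ m ih =>
    intro k h
    rw [List.range'_succ, List.map_cons]
    match m, ih with
    | 0, _ => exact Rd_single opp _
    | m + 1, ih =>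
      have h1 := ih (k + 1) (fun j h1 h2 => h j (by omega) (by omega))
      rw [List.range'_succ, List.map_cons] at h1 ⊢
      exact (Rd_cons_cons opp _ _ _).mpr ⟨h k le_rfl (by omega), h1⟩

section

variable [NeZero N] (hop : ∀ i, opp (opp i) = i) (hne : ∀ i, opp i ≠ i)

theorem sign (g : PuncturedGroup opp) (n : ℕ) (u : ℕ → ZMod N)
    (h : ℕ → PuncturedGroup opp) (hn : 0 < n) (h0 : h 0 = g)
    (hs : IsStrand (st opp) (hol opp hop hne) AA n u h)
    (hprod : ((List.range n).map fun k => st opp (u k)).prod = g) :
    0 < ((∏ k ∈ Finset.range n, th opp (u k) *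
      (if (opp (u k)).val < (u ((k + 1) % n)).val then 1 else -1) : ℤ) : ℝ) *
        (hol opp hop hne g).1.trace := by
  obtain ⟨w, hw, rfl⟩ := strand_start opp hop hne hn h0 hs
  have hstr := strand opp hop hne hw h0 hs
  have hcons : ∀ j, 0 ≤ j → j + 1 < 0 + n → u (j + 1) ≠ opp (u j) := by
    intro j _ hj
    obtain ⟨h1, -, h2⟩ := hstr j (by omega)
    obtain ⟨-, -, h3⟩ := hstr (j + 1) (by omega)
    have h2 := h2 (by omega)
    have h3 := h3 (by omega)
    rw [← List.rotate_rotate] at h3
    obtain ⟨a, t, e, hc1, hc2⟩ := h1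
    rw [e] at h2 h3
    rw [List.head?_cons, Option.some_inj] at h2
    rw [List.rotate_cons_succ, List.rotate_zero] at h3
    rw [← h2]
    match t, hc1, h3 with
    | [], _, h3 =>
      rw [List.nil_append, List.head?_cons, Option.some_inj] at h3
      rw [← h3]
      exact (hne a).symm
    | b :: s, hc1, h3 =>
      rw [List.cons_append, List.head?_cons, Option.some_inj] at h3
      rw [← h3]
      exact ((Rd_cons_cons opp a b s).mp hc1).1
  have hRd := Rd_range opp u n 0 hcons
  have hev : ev opp ((List.range' 0 n).map u) = ev opp w := by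
    rw [← hprod]
    unfold ev
    rw [List.map_map, ← List.range_eq_range']
    rfl
  obtain ⟨a, t, e, hc⟩ := hw
  have hw' : (List.range' 0 n).map u = w := by
    refine ev_inj opp hop hne _ _ hRd ?_ hev
    rw [e]
    exact hc.1
  obtain ⟨m, rfl⟩ : ∃ m, n = m + 1 := ⟨n - 1, by omega⟩
  rw [List.range'_succ, List.map_cons, e] at hw'
  injection hw' with ha ht
  rw [zero_add] at ht
  subst ha
  rw [sign_prod, ht, e]
  have h1 := (trace_cyc opp hop hne hc).2
  have h2 := sgv_rp hc.2
  have h3 : lst (u 0) t = u m := by
    have := lst_range u m 0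
    rw [zero_add, zero_add, ht] at this
    exact this
  rw [h3] at h1 h2
  have h4 : 0 < (cs opp (u 0) t * (rp (u 0) - rp (opp (u m))) *
      (hol opp hop hne (ev opp (u 0 :: t))).1.trace) *
      (sgv (opp (u m)) (u 0) * (rp (u 0) - rp (opp (u m)))) := mul_pos h1 h2
  have h5 : (cs opp (u 0) t * (rp (u 0) - rp (opp (u m))) *
      (hol opp hop hne (ev opp (u 0 :: t))).1.trace) *
      (sgv (opp (u m)) (u 0) * (rp (u 0) - rp (opp (u m)))) =
      (cs opp (u 0) t * sgv (opp (u m)) (u 0) *
        (hol opp hop hne (ev opp (u 0 :: t))).1.trace) * (rp (u 0) - rp (opp (u m))) ^ 2 := by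
    ring
  rw [h5] at h4
  have h6 : (0 : ℝ) < (rp (u 0) - rp (opp (u m))) ^ 2 := by
    have : (rp (u 0) : ℝ) - rp (opp (u m)) ≠ 0 := by
      intro h
      rw [h, mul_zero] at h2
      exact lt_irrefl _ h2
    positivity
  exact (mul_pos_iff_of_pos_right h6).mp h4

include hop hne in
/-- **The Schottky model.** -/
theorem schottky_model :
    Nonempty (CModel opp (fun i => (PresentedGroup.of i : PuncturedGroup opp)) False) :=
  ⟨{ hol := hol opp hop hne
     hyp := fun g hg => hyp opp hop hne hg
     disc := disc opp hop hne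
     A := AA
     B := BB
     A_symm := fun _ => rfl
     B_symm := fun _ => rfl
     A_psd := fun _ => pf_psd _
     B_psd := fun _ => pf_psd _
     A_ne := fun _ => pf_ne _
     B_ne := fun _ => pf_ne _
     conv := conv_AA
     glueA := glueAA opp hop hne
     glueB := glueBB opp hop hne
     corner := fun g i hg => corner opp hop hne g i hg
     exists_cross := fun g hg => exists_cross opp hop hne g hg
     finite_cross := fun g _ => finite_cross opp hop hne g
     cycle := fun g n u h _ hp hn h0 hn' hmin hs =>
       cycle opp hop hne g n u h hp hn h0 hn' hmin hs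
     θ := th opp
     θ_opp := fun i => by
       have h1 := ep_opp opp hop hne i
       rw [← th_cast, ← th_cast] at h1
       exact_mod_cast h1
     θ_sq := th_sq opp
     sign := fun g n u h _ hn h0 _ hs hprod => sign opp hop hne g n u h hn h0 hs hprod
     uncutR := fun h => h.elim
     uncutL := fun h => h.elim }⟩

end

end Pool.Agent.AMU.Sch

namespace Pool.Agent.AMU

/-- **Section I: the geometric model of a punctured surface.** -/
theorem schottky {N : ℕ} [NeZero N] (opp : ZMod N → ZMod N) (hop : ∀ i, opp (opp i) = i)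
    (hne : ∀ i, opp i ≠ i) :
    Nonempty (CModel opp (fun i => (PresentedGroup.of i : PuncturedGroup opp)) False) :=
  Sch.schottky_model opp hop hne

end Pool.Agent.AMU
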