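import Pool.Agent.Lib.AMU.Asm1
import Pool.Agent.Lib.AMU.Con7
import Pool.Agent.Lib.AMU.GeoMain
import Pool.Agent.Lib.AMU.Sch7
import Pool.Agent.Lib.AMU.Cor9

/-!
# Assembly, part 2: the two main theorems
-/

set_option autoImplicit false

namespace Pool.Agent.AMU.Asm

/-- The closed surfaces. -/
theorem closed_final {g : ℕ} (hg : 2 ≤ g) {c : ℕ} (hc : Even c) (hc0 : 0 < c)
    {γ : SurfaceGroup g} (hγ : γ ≠ 1)
    (hs : ¬ IsSimple (closedOpp g) (fun i => (PresentedGroup.of i : SurfaceGroup g)) γ)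
    (hp : ¬ IsProperPower γ) :
    ∃ p₀ : ℕ, ∀ p, p₀ ≤ p → Odd p → ∀ A : ℂ, IsPrimitiveRoot A (2 * p) →
      ∀ (d : ℕ) (ρ : SurfaceGroup g →* PGL d),
        IsWRT (closedOpp g) (fun i => PresentedGroup.of i) c p A (fun _ => 1) ρ →
        ¬ IsOfFinOrder (ρ γ) := by
  have : NeZero (4 * g) := ⟨by omega⟩
  have H : HypModel (closedOpp g) (fun i => (PresentedGroup.of i : SurfaceGroup g)) True :=
    CModel.toHyp (closedModel hg) (by omega) closed_inv (closed_ne (show 1 ≤ g by omega))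
      closed_rel (fun _ => Cor.closed_orb g (by omega))
  exact closed_main hg H (fun w hw ord hord m hm e x hx =>
    Fun_eq_coreSum (closedOpp g) closed_inv (closed_ne (show 1 ≤ g by omega)) w hw ord hord m hm
      e x hx) hc hc0 hγ hs hp

/-- The punctured surfaces. -/
theorem punctured_final {N : ℕ} (hN : 4 ≤ N) (opp : ZMod N → ZMod N)
    (hinv : ∀ i, opp (opp i) = i) (hne : ∀ i, opp i ≠ i) {c : ℕ} (hc : Even c) (hc0 : 0 < c)
    {γ : PuncturedGroup opp} (hγ : γ ≠ 1)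
    (hs : ¬ IsSimple opp (fun i => (PresentedGroup.of i : PuncturedGroup opp)) γ)
    (hp : ¬ IsProperPower γ) :
    ∃ p₀ : ℕ, ∀ p, p₀ ≤ p → Odd p → ∀ A : ℂ, IsPrimitiveRoot A (2 * p) →
      ∃ lam, IsColouring opp p lam ∧ ∀ (d : ℕ) (ρ : PuncturedGroup opp →* PGL d),
        IsWRT opp (fun i => PresentedGroup.of i) c p A lam ρ → ¬ IsOfFinOrder (ρ γ) := by
  have : NeZero N := ⟨by omega⟩
  obtain ⟨M⟩ := schottky opp hinv hne
  have H : HypModel opp (fun i => (PresentedGroup.of i : PuncturedGroup opp)) False :=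
    CModel.toHyp M (by omega) hinv hne (punctured_rel opp) (fun h => h.elim)
  exact punctured_main opp hinv hne hN H (fun w hw ord hord m hm e x hx =>
    Fun_eq_coreSum opp hinv hne w hw ord hord m hm e x hx) hc hc0 hγ hs hp

end Pool.Agent.AMU.Asm
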