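import Pool.Agent.Lib.AMU.Fun3

/-!
# The amplitudes at `A = -1` as contractions: the operators (section K)
-/

set_option autoImplicit false

namespace Pool.Agent.AMU.Con

/-! ## Sums over lists of Booleans -/

/-- The sum over the lists of length `k`. -/
def sumB : ℕ → (List Bool → ℝ) → ℝ
  | 0, f => f []
  | k + 1, f => sumB k (fun a => f (true :: a)) + sumB k (fun a => f (false :: a))

theorem sumB_congr (k : ℕ) {f g : List Bool → ℝ} (h : ∀ a, a.length = k → f a = g a) :
    sumB k f = sumB k g := by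
  induction k generalizing f g with
  | zero => exact h [] rfl
  | succ k ih =>
    simp only [sumB]
    rw [ih (fun a ha => h (true :: a) (by simp [ha])), ih (fun a ha => h (false :: a) (by simp [ha]))]

theorem sumB_add (k : ℕ) (f g : List Bool → ℝ) :
    sumB k (fun a => f a + g a) = sumB k f + sumB k g := by
  induction k generalizing f g with
  | zero => rfl
  | succ k ih => simp only [sumB, ih]; ring

theorem sumB_mul (k : ℕ) (c : ℝ) (f : List Bool → ℝ) :
    sumB k (fun a => c * f a) = c * sumB k f := by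
  induction k generalizing f with
  | zero => rfl
  | succ k ih => simp only [sumB, ih]; ring

theorem sumB_neg (k : ℕ) (f : List Bool → ℝ) :
    sumB k (fun a => -f a) = -sumB k f := by
  have := sumB_mul k (-1) f
  simpa using this

theorem sumB_zero (k : ℕ) : sumB k (fun _ => 0) = 0 := by
  have := sumB_mul k 0 (fun _ => 0)
  simpa using this

theorem sumB_append (a b : ℕ) (f : List Bool → ℝ) :
    sumB (a + b) f = sumB a (fun α => sumB b (fun β => f (α ++ β))) := by
  induction a generalizing f with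
  | zero => simp [sumB]
  | succ a ih =>
    rw [show a + 1 + b = (a + b) + 1 by omega]
    simp only [sumB, ih, List.cons_append]

theorem sumB_pair (a b : ℕ) (f : List Bool → ℝ) :
    sumB (a + 2 + b) f = sumB a (fun α => sumB b (fun β =>
      f (α ++ [true, true] ++ β) + f (α ++ [true, false] ++ β) +
      (f (α ++ [false, true] ++ β) + f (α ++ [false, false] ++ β)))) := by
  rw [add_assoc, sumB_append]
  refine sumB_congr a fun α _ => ?_
  rw [show 2 + b = (b + 1) + 1 by omega]
  simp only [sumB, ← sumB_add]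
  refine sumB_congr b fun β _ => ?_
  simp

theorem sumB_eq_sum (k : ℕ) (f : List Bool → ℝ) :
    sumB k f = ∑ b : Fin k → Bool, f (List.ofFn b) := by
  induction k generalizing f with
  | zero => simp [sumB]
  | succ k ih =>
    simp only [sumB, ih]
    rw [← (Fin.consEquiv (fun _ : Fin (k + 1) => Bool)).sum_comp, Fintype.sum_prod_type,
      Fintype.sum_bool]
    simp [Fin.consEquiv]

/-! ## The scalar of a boundary word -/

/-- The scalar of a boundary word. -/
noncomputable def Phi (y : ℝ) (l : List (Bool × Bool)) : ℝ := tau y (W y 0 l)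

theorem Phi_same (y : ℝ) (q1 q2 : List (Bool × Bool)) (ε x x' : Bool) :
    Phi y (q1 ++ [(ε, x), (ε, x')] ++ q2) = Phi y (q1 ++ [(ε, x'), (ε, x)] ++ q2) := by
  unfold Phi
  rw [W_pair_same]

theorem Phi_nil2 (y : ℝ) (q1 q2 : List (Bool × Bool)) :
    Phi y (q1 ++ q2) =
      tau y ((W y 0 q1 : Module.End ℝ Fn) * W y (stepSum (q1.map Prod.fst)) q2) := by
  unfold Phi
  rw [W_append, zero_add]
  rfl

theorem pr_sub_op (y : ℝ) (s : ℤ) (b : Bool) :
    (pr y s b true false : Module.End ℝ Fn) - pr y s b false true = dl y (s + sgn b) • 1 := by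
  refine LinearMap.ext fun φ => ?_
  rw [← neg_sub (pr y s b false true)]
  show -(pr y s b false true φ - pr y s b true false φ) = _
  rw [pr_sub]
  simp

theorem pr_swap_op (y : ℝ) (s : ℤ) (b a a' : Bool) :
    (pr y s b a' a : Module.End ℝ Fn) = pr y s b a a' + (dl y (s + sgn b) * ep a a') • 1 :=
  LinearMap.ext fun φ => pr_swap y s b a a' φ

theorem pr_add_op (y : ℝ) (s : ℤ) (a a' : Bool) :
    (pr y s true a a' : Module.End ℝ Fn) + pr y s false a a' = (dl y s * ep a a') • 1 :=
  LinearMap.ext fun φ => pr_add y s a a' φ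

theorem Phi_contract (y : ℝ) (q1 q2 : List (Bool × Bool)) (ε : Bool) :
    Phi y (q1 ++ [(ε, true), (!ε, false)] ++ q2) - Phi y (q1 ++ [(ε, false), (!ε, true)] ++ q2) =
      dl y (stepSum (q1.map Prod.fst) + sgn ε) * Phi y (q1 ++ q2) := by
  rw [Phi_nil2 y q1 q2]
  unfold Phi
  rw [W_pair, W_pair, ← map_sub, ← mul_sub, ← sub_mul, pr_sub_op]
  simp

theorem Phi_swap (y : ℝ) (q1 q2 : List (Bool × Bool)) (ε x x' : Bool) :
    Phi y (q1 ++ [(ε, x'), (!ε, x)] ++ q2) = Phi y (q1 ++ [(ε, x), (!ε, x')] ++ q2) +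
      dl y (stepSum (q1.map Prod.fst) + sgn ε) * ep x x' * Phi y (q1 ++ q2) := by
  rw [Phi_nil2 y q1 q2]
  unfold Phi
  rw [W_pair, W_pair, pr_swap_op y _ ε x x', add_mul, mul_add, map_add]
  simp

theorem Phi_sum (y : ℝ) (q1 q2 : List (Bool × Bool)) (x x' : Bool) :
    Phi y (q1 ++ [(true, x), (false, x')] ++ q2) + Phi y (q1 ++ [(false, x), (true, x')] ++ q2) =
      dl y (stepSum (q1.map Prod.fst)) * ep x x' * Phi y (q1 ++ q2) := by
  rw [Phi_nil2 y q1 q2]
  unfold Phi
  have h1 := W_pair y q1 q2 true x x'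
  have h2 := W_pair y q1 q2 false x x'
  simp only [Bool.not_true, Bool.not_false] at h1 h2
  rw [h1, h2, ← map_add, ← mul_add, ← add_mul, pr_add_op]
  simp

/-! ## Representations of amplitudes by tensors -/

/-- The tensor `T` represents the amplitude `f` with `k` points. -/
def Rep (y : ℝ) (k : ℕ) (T : List Bool → ℝ) (f : Amp ℝ) : Prop :=
  ∀ bs : List Bool, bs.length = k →
    f 0 (bs.map sgn) = dl y 0 * sumB k (fun a => Phi y (bs.zip a) * T a)

theorem Rep_nil {y : ℝ} (hy : ∀ k : ℤ, y ≠ k) : Rep y 0 (fun _ => 1) (fun n _ => dl y n) := by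
  intro bs hbs
  rw [List.length_eq_zero_iff] at hbs
  subst hbs
  have h1 : tau y (LinearMap.id : Fn →ₗ[ℝ] Fn) = 1 := tau_one (by simpa using hy 0)
  simp [sumB, Phi, W, h1]

theorem split_pair (l : List Bool) (i k : ℕ) (hi : i ≤ k) (hl : l.length = k + 2) :
    ∃ (l1 : List Bool) (x x' : Bool) (l2 : List Bool), l1.length = i ∧ l2.length = k - i ∧
      l = l1 ++ [x, x'] ++ l2 := by
  have h1 : (l.drop i).length = k - i + 2 := by rw [List.length_drop]; omega
  obtain ⟨x, m, hm⟩ : ∃ x m, l.drop i = x :: m := by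
    cases h : l.drop i with
    | nil => rw [h] at h1; simp at h1
    | cons x m => exact ⟨x, m, rfl⟩
  rw [hm] at h1
  obtain ⟨x', m', hm'⟩ : ∃ x m', m = x :: m' := by
    cases h : m with
    | nil => rw [h] at h1; simp at h1
    | cons x m => exact ⟨x, m, rfl⟩
  rw [hm'] at h1 hm
  refine ⟨l.take i, x, x', m', ?_, ?_, ?_⟩
  · rw [List.length_take]; omega
  · simp at h1; omega
  · rw [List.append_assoc]
    show l = l.take i ++ (x :: x' :: m')
    rw [← hm, List.take_append_drop]

theorem sgn_add_eq_zero (a b : Bool) : sgn a + sgn b = 0 ↔ b = !a := by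
  cases a <;> cases b <;> simp [sgn]

theorem zip_three (b1 b2 a1 a2 : List Bool) (e e' x x' : Bool) (h1 : b1.length = a1.length) :
    (b1 ++ [e, e'] ++ b2).zip (a1 ++ [x, x'] ++ a2) =
      b1.zip a1 ++ [(e, x), (e', x')] ++ b2.zip a2 := by
  rw [List.append_assoc, List.append_assoc, List.zip_append h1]
  simp

theorem fst_zip (b1 a1 : List Bool) (h : b1.length = a1.length) :
    (b1.zip a1).map Prod.fst = b1 := by
  rw [List.map_fst_zip (by omega)]

theorem parts_pair (α : List Bool) (x x' : Bool) (β : List Bool) (i : ℕ) (hα : α.length = i) :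
    (α ++ [x, x'] ++ β).getD i false = x ∧ (α ++ [x, x'] ++ β).getD (i + 1) false = x' ∧
      (α ++ [x, x'] ++ β).take i = α ∧ (α ++ [x, x'] ++ β).drop (i + 2) = β := by
  rw [← hα]
  refine ⟨by simp [List.getD], ?_, by simp [List.take_append], by simp [List.drop_append]⟩
  rw [List.append_assoc]
  simp [List.getD, List.getElem?_append_right]

theorem map_sgn_sum (l : List Bool) : (l.map sgn).sum = stepSum l := rfl

/-- The cup is a contraction. -/
theorem Rep_cup {y : ℝ} {k : ℕ} {T : List Bool → ℝ} {f : Amp ℝ} (hf : Rep y k T f) (i : ℕ)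
    (hi : i ≤ k) :
    Rep y (k + 2) (fun a => -ep (a.getD i false) (a.getD (i + 1) false) *
      T (a.take i ++ a.drop (i + 2))) (cup (dl y) i f) := by
  intro bs hbs
  obtain ⟨b1, e, e', b2, hb1, hb2, rfl⟩ := split_pair bs i k hi hbs
  have hlen : k + 2 = i + 2 + (k - i) := by omega
  have hk : k = i + (k - i) := by omega
  have e1 : ((b1 ++ [e, e'] ++ b2).map sgn).getD i 0 = sgn e := by
    rw [← hb1]; simp [List.getD]
  have e2 : ((b1 ++ [e, e'] ++ b2).map sgn).getD (i + 1) 0 = sgn e' := by
    rw [← hb1]; simp [List.getD, List.getElem?_append_right]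
  have e3 : col 0 ((b1 ++ [e, e'] ++ b2).map sgn) (i + 1) = stepSum b1 + sgn e := by
    rw [← hb1]; simp [col, List.take_append, stepSum, List.take_of_length_le]
  have e4 : ((b1 ++ [e, e'] ++ b2).map sgn).take i ++
      ((b1 ++ [e, e'] ++ b2).map sgn).drop (i + 2) = (b1 ++ b2).map sgn := by
    rw [← hb1]; simp [List.take_append, List.drop_append]
  unfold cup
  rw [e1, e2, e3, e4, hlen, sumB_pair]
  have hR : sumB i (fun α => sumB (k - i) (fun β =>
      Phi y ((b1 ++ [e, e'] ++ b2).zip (α ++ [true, true] ++ β)) *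
        (-ep ((α ++ [true, true] ++ β).getD i false) ((α ++ [true, true] ++ β).getD (i + 1) false) *
          T ((α ++ [true, true] ++ β).take i ++ (α ++ [true, true] ++ β).drop (i + 2))) +
      Phi y ((b1 ++ [e, e'] ++ b2).zip (α ++ [true, false] ++ β)) *
        (-ep ((α ++ [true, false] ++ β).getD i false)
          ((α ++ [true, false] ++ β).getD (i + 1) false) *
          T ((α ++ [true, false] ++ β).take i ++ (α ++ [true, false] ++ β).drop (i + 2))) +
      (Phi y ((b1 ++ [e, e'] ++ b2).zip (α ++ [false, true] ++ β)) *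
        (-ep ((α ++ [false, true] ++ β).getD i false)
          ((α ++ [false, true] ++ β).getD (i + 1) false) *
          T ((α ++ [false, true] ++ β).take i ++ (α ++ [false, true] ++ β).drop (i + 2))) +
      Phi y ((b1 ++ [e, e'] ++ b2).zip (α ++ [false, false] ++ β)) *
        (-ep ((α ++ [false, false] ++ β).getD i false)
          ((α ++ [false, false] ++ β).getD (i + 1) false) *
          T ((α ++ [false, false] ++ β).take i ++ (α ++ [false, false] ++ β).drop (i + 2)))))) =
      sumB i (fun α => sumB (k - i) (fun β =>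
        (Phi y (b1.zip α ++ [(e, true), (e', false)] ++ b2.zip β) -
          Phi y (b1.zip α ++ [(e, false), (e', true)] ++ b2.zip β)) * T (α ++ β))) := by
    refine sumB_congr i fun α hα => sumB_congr (k - i) fun β hβ => ?_
    have g : ∀ x x' : Bool, (α ++ [x, x'] ++ β).getD i false = x ∧
        (α ++ [x, x'] ++ β).getD (i + 1) false = x' ∧
        (α ++ [x, x'] ++ β).take i ++ (α ++ [x, x'] ++ β).drop (i + 2) = α ++ β := by
      intro x x'
      rw [← hα]
      refine ⟨by simp [List.getD], by simp [List.getD, List.getElem?_append_right],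
        by simp [List.take_append, List.drop_append]⟩
    have z : ∀ x x' : Bool, (b1 ++ [e, e'] ++ b2).zip (α ++ [x, x'] ++ β) =
        b1.zip α ++ [(e, x), (e', x')] ++ b2.zip β :=
      fun x x' => zip_three b1 b2 α β e e' x x' (by rw [hb1, hα])
    simp only [z, (g _ _).1, (g _ _).2.1, (g _ _).2.2]
    simp only [ep]
    ring
  rw [hR]
  by_cases he : sgn e + sgn e' = 0
  · rw [if_pos he]
    rw [sgn_add_eq_zero] at he
    subst he
    rw [hf (b1 ++ b2) (by simp [hb1, hb2]; omega)]
    conv_lhs => rw [hk, sumB_append]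
    rw [mul_left_comm, ← sumB_mul]
    congr 1
    refine sumB_congr i fun α hα => ?_
    rw [← sumB_mul]
    refine sumB_congr (k - i) fun β hβ => ?_
    rw [Phi_contract, fst_zip _ _ (by rw [hb1, hα]), List.zip_append (by rw [hb1, hα])]
    ring
  · rw [if_neg he]
    rw [sgn_add_eq_zero] at he
    have he' : e' = e := by
      revert he; cases e <;> cases e' <;> simp
    subst he'
    have : ∀ α β : List Bool, (Phi y (b1.zip α ++ [(e', true), (e', false)] ++ b2.zip β) -
          Phi y (b1.zip α ++ [(e', false), (e', true)] ++ b2.zip β)) * T (α ++ β) =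
          0 * T (α ++ β) := by
      intro α β
      rw [Phi_same, sub_self]
    simp only [this, zero_mul, sumB_zero, mul_zero]

/-- The crossing at `A = -1` exchanges the labels. -/
theorem Rep_cross {y : ℝ} (hy : ∀ k : ℤ, y ≠ k) {k : ℕ} {T : List Bool → ℝ} {f : Amp ℝ}
    (hf : Rep y k T f) (i : ℕ) (hi : i + 2 ≤ k) :
    Rep y k (fun a => -T (a.take i ++ [a.getD (i + 1) false, a.getD i false] ++ a.drop (i + 2)))
      (cross (dl y) (-1) i f) := by
  intro bs hbs
  obtain ⟨k', rfl⟩ : ∃ k', k = k' + 2 := ⟨k - 2, by omega⟩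
  obtain ⟨b1, e, e', b2, hb1, hb2, rfl⟩ := split_pair bs i k' (by omega) hbs
  have hlen : k' + 2 = i + 2 + (k' - i) := by omega
  have e1 : ((b1 ++ [e, e'] ++ b2).map sgn).getD i 0 = sgn e := by
    rw [← hb1]; simp [List.getD]
  have e2 : ((b1 ++ [e, e'] ++ b2).map sgn).getD (i + 1) 0 = sgn e' := by
    rw [← hb1]; simp [List.getD, List.getElem?_append_right]
  have e3 : col 0 ((b1 ++ [e, e'] ++ b2).map sgn) (i + 1) = stepSum b1 + sgn e := by
    rw [← hb1]; simp [col, List.take_append, stepSum, List.take_of_length_le]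
  have e3' : col 0 ((b1 ++ [e, e'] ++ b2).map sgn) i = stepSum b1 := by
    rw [← hb1]; simp [col, List.take_append, stepSum]
  have e5 : ((b1 ++ [e, e'] ++ b2).map sgn).take i ++ [1, -1] ++
      ((b1 ++ [e, e'] ++ b2).map sgn).drop (i + 2) = (b1 ++ [true, false] ++ b2).map sgn := by
    rw [← hb1]; simp [List.take_append, List.drop_append, sgn]
  have e6 : ((b1 ++ [e, e'] ++ b2).map sgn).take i ++ [-1, 1] ++
      ((b1 ++ [e, e'] ++ b2).map sgn).drop (i + 2) = (b1 ++ [false, true] ++ b2).map sgn := by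
    rw [← hb1]; simp [List.take_append, List.drop_append, sgn]
  have g : ∀ α : List Bool, α.length = i → ∀ β : List Bool, ∀ x x' : Bool,
      (α ++ [x, x'] ++ β).getD i false = x ∧
      (α ++ [x, x'] ++ β).getD (i + 1) false = x' ∧
      (α ++ [x, x'] ++ β).take i = α ∧ (α ++ [x, x'] ++ β).drop (i + 2) = β := by
    intro α hα β x x'
    rw [← hα]
    refine ⟨by simp [List.getD], by simp [List.getD, List.getElem?_append_right],
      by simp [List.take_append], by simp [List.drop_append]⟩
  -- the values of the amplitude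
  have val : ∀ c c' : Bool, f 0 ((b1 ++ [c, c'] ++ b2).map sgn) =
      dl y 0 * sumB i (fun α => sumB (k' - i) (fun β =>
        Phi y (b1.zip α ++ [(c, true), (c', true)] ++ b2.zip β) * T (α ++ [true, true] ++ β) +
        Phi y (b1.zip α ++ [(c, true), (c', false)] ++ b2.zip β) * T (α ++ [true, false] ++ β) +
        (Phi y (b1.zip α ++ [(c, false), (c', true)] ++ b2.zip β) * T (α ++ [false, true] ++ β) +
        Phi y (b1.zip α ++ [(c, false), (c', false)] ++ b2.zip β) *
          T (α ++ [false, false] ++ β)))) := by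
    intro c c'
    rw [hf (b1 ++ [c, c'] ++ b2) (by simp [hb1, hb2]; omega), hlen, sumB_pair]
    congr 1
    refine sumB_congr i fun α hα => sumB_congr (k' - i) fun β hβ => ?_
    have z : ∀ x x' : Bool, (b1 ++ [c, c'] ++ b2).zip (α ++ [x, x'] ++ β) =
        b1.zip α ++ [(c, x), (c', x')] ++ b2.zip β :=
      fun x x' => zip_three b1 b2 α β c c' x x' (by rw [hb1, hα])
    simp only [z]
  have rhs : sumB (k' + 2) (fun a => Phi y ((b1 ++ [e, e'] ++ b2).zip a) *
      -T (a.take i ++ [a.getD (i + 1) false, a.getD i false] ++ a.drop (i + 2))) =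
      -sumB i (fun α => sumB (k' - i) (fun β =>
        Phi y (b1.zip α ++ [(e, true), (e', true)] ++ b2.zip β) * T (α ++ [true, true] ++ β) +
        Phi y (b1.zip α ++ [(e, true), (e', false)] ++ b2.zip β) * T (α ++ [false, true] ++ β) +
        (Phi y (b1.zip α ++ [(e, false), (e', true)] ++ b2.zip β) * T (α ++ [true, false] ++ β) +
        Phi y (b1.zip α ++ [(e, false), (e', false)] ++ b2.zip β) *
          T (α ++ [false, false] ++ β)))) := by
    rw [hlen, sumB_pair, ← sumB_neg]
    refine sumB_congr i fun α hα => ?_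
    rw [← sumB_neg]
    refine sumB_congr (k' - i) fun β hβ => ?_
    have z : ∀ x x' : Bool, (b1 ++ [e, e'] ++ b2).zip (α ++ [x, x'] ++ β) =
        b1.zip α ++ [(e, x), (e', x')] ++ b2.zip β :=
      fun x x' => zip_three b1 b2 α β e e' x x' (by rw [hb1, hα])
    simp only [z, (g α hα β _ _).1, (g α hα β _ _).2.1, (g α hα β _ _).2.2.1,
      (g α hα β _ _).2.2.2]
    ring
  rw [rhs]
  unfold cross tl
  rw [e1, e2, e3, e3', e5, e6]
  by_cases he : sgn e + sgn e' = 0
  · rw [if_pos he]
    rw [sgn_add_eq_zero] at he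
    subst he
    rw [val e (!e), val true false, val false true]
    have hd := dl_ne hy (stepSum b1)
    have hA : (-1 : ℝ)⁻¹ = -1 := by norm_num
    rw [hA]
    have key : ∀ X Y Y' Z : ℝ, X + dl y (stepSum b1 + sgn e) / dl y (stepSum b1) * (Y + Y') = Z →
        -1 * (dl y 0 * X) + -1 * (dl y (stepSum b1 + sgn e) / dl y (stepSum b1) *
          (dl y 0 * Y + dl y 0 * Y')) = dl y 0 * -Z := by
      intro X Y Y' Z h
      rw [← h]; ring
    apply key
    rw [← sumB_add]
    rw [← sumB_mul, ← sumB_add]
    refine sumB_congr i fun α hα => ?_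
    rw [← sumB_add, ← sumB_mul, ← sumB_add]
    refine sumB_congr (k' - i) fun β hβ => ?_
    have hf1 : (b1.zip α).map Prod.fst = b1 := fst_zip _ _ (by rw [hb1, hα])
    have s1 := Phi_sum y (b1.zip α) (b2.zip β) true true
    have s2 := Phi_sum y (b1.zip α) (b2.zip β) true false
    have s3 := Phi_sum y (b1.zip α) (b2.zip β) false true
    have s4 := Phi_sum y (b1.zip α) (b2.zip β) false false
    have w2 := Phi_swap y (b1.zip α) (b2.zip β) e true false
    have w3 := Phi_swap y (b1.zip α) (b2.zip β) e false true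
    rw [hf1] at s1 s2 s3 s4 w2 w3
    simp only [ep] at s1 s2 s3 s4 w2 w3
    generalize dl y (stepSum b1 + sgn e) = D at *
    generalize dl y (stepSum b1) = d at *
    generalize Phi y (b1.zip α ++ b2.zip β) = P0 at *
    generalize Phi y (b1.zip α ++ [(e, true), (!e, false)] ++ b2.zip β) = P1 at *
    generalize Phi y (b1.zip α ++ [(e, false), (!e, true)] ++ b2.zip β) = P2 at *
    have a1 : Phi y (b1.zip α ++ [(false, true), (true, true)] ++ b2.zip β) =
      -Phi y (b1.zip α ++ [(true, true), (false, true)] ++ b2.zip β) := by linarith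
    have a2 : Phi y (b1.zip α ++ [(false, true), (true, false)] ++ b2.zip β) =
      -(d * P0) - Phi y (b1.zip α ++ [(true, true), (false, false)] ++ b2.zip β) := by linarith
    have a3 : Phi y (b1.zip α ++ [(false, false), (true, true)] ++ b2.zip β) =
      d * P0 - Phi y (b1.zip α ++ [(true, false), (false, true)] ++ b2.zip β) := by linarith
    have a4 : Phi y (b1.zip α ++ [(false, false), (true, false)] ++ b2.zip β) =
      -Phi y (b1.zip α ++ [(true, false), (false, false)] ++ b2.zip β) := by linarith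
    rw [a1, a2, a3, a4]
    have c2 : P2 = P1 - D * P0 := by linarith
    rw [c2]
    field_simp
    ring
  · rw [if_neg he, mul_zero, add_zero, val e e']
    rw [sgn_add_eq_zero] at he
    have he' : e' = e := by
      revert he; cases e <;> cases e' <;> simp
    subst he'
    rw [neg_one_mul, ← mul_neg]
    congr 2
    refine sumB_congr i fun α hα => sumB_congr (k' - i) fun β hβ => ?_
    rw [Phi_same y _ _ e' false true]
    ring

/-- Insertion of a chord. -/
theorem Rep_insert {y : ℝ} (hy : ∀ k : ℤ, y ≠ k) {k : ℕ} {T : List Bool → ℝ} {f : Amp ℝ}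
    (hf : Rep y k T f) (i t : ℕ) (hi : i + t ≤ k) :
    ∃ T', Rep y (k + 2) T' (insertChord (dl y) (-1) i (i + 1 + t) f) ∧
      ∀ (A : List Bool) (x : Bool) (B : List Bool) (z : Bool) (C : List Bool),
        A.length = i → B.length = t →
        T' (A ++ x :: (B ++ z :: C)) = (-1) ^ (t + 1) * ep x z * T (A ++ B ++ C) := by
  have hj : i + 1 + t - 1 - i = t := by omega
  unfold insertChord
  rw [hj]
  clear hj
  induction t with
  | zero =>
    refine ⟨_, Rep_cup hf i (by omega), ?_⟩
    intro A x B z C hA hB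
    rw [List.length_eq_zero_iff] at hB
    subst hB
    have e : A ++ x :: ([] ++ z :: C) = A ++ [x, z] ++ C := by simp
    obtain ⟨p1, p2, p3, p4⟩ := parts_pair A x z C i hA
    rw [e]
    show -ep _ _ * T _ = _
    rw [p1, p2, p3, p4]
    simp
  | succ t ih =>
    obtain ⟨T1, h1, h2⟩ := ih (by omega)
    rw [List.range'_concat, List.foldl_append, List.foldl_cons, List.foldl_nil]
    refine ⟨_, Rep_cross hy h1 (i + 1 + 1 * t) (by omega), ?_⟩
    intro A x B z C hA hB
    obtain ⟨B', b, rfl⟩ : ∃ B' b, B = B' ++ [b] := by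
      rcases List.eq_nil_or_concat B with h | ⟨B', b, h⟩
      · rw [h] at hB; simp at hB
      · exact ⟨B', b, by simpa using h⟩
    have hB' : B'.length = t := by simpa using hB
    have hl : (A ++ x :: B').length = i + 1 + 1 * t := by simp [hA, hB']; omega
    have e : A ++ x :: (B' ++ [b] ++ z :: C) = (A ++ x :: B') ++ [b, z] ++ C := by simp
    obtain ⟨q3, q4, q1, q2⟩ := parts_pair (A ++ x :: B') b z C (i + 1 + 1 * t) hl
    rw [e]
    show -T1 _ = _
    rw [q1, q2, q3, q4]
    have e' : A ++ x :: B' ++ [z, b] ++ C = A ++ x :: (B' ++ z :: (b :: C)) := by simp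
    rw [e', h2 A x B' z (b :: C) hA hB']
    have e'' : A ++ B' ++ (b :: C) = A ++ (B' ++ [b]) ++ C := by simp
    rw [e'']
    ring

end Pool.Agent.AMU.Con
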