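import Pool.Agent.Lib.AMU.Con1

/-!
# The amplitudes at `A = -1` as contractions: the tensor of a list of chords (section K)
-/

set_option autoImplicit false

namespace Pool.Agent.AMU.Con

section

variable {N : ℕ} (opp : ZMod N → ZMod N) (w : List (ZMod N)) (ord : ℕ → ℤ)

/-- The list `Q` is sorted by the positions on the boundary. -/
def Srt (Q : List Pt) : Prop := Q.Pairwise fun a b => ptKey opp w ord a < ptKey opp w ord b

theorem exists_srt (P : List Pt) (hP : (P.map (ptKey opp w ord)).Nodup) :
    ∃ Q : List Pt, Q.Perm P ∧ Srt opp w ord Q := by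
  refine ⟨P.mergeSort (fun a b => decide (ptKey opp w ord a ≤ ptKey opp w ord b)),
    List.mergeSort_perm _ _, ?_⟩
  have h1 : (P.mergeSort (fun a b => decide (ptKey opp w ord a ≤ ptKey opp w ord b))).Pairwise
      (fun a b => decide (ptKey opp w ord a ≤ ptKey opp w ord b) = true) := by
    apply List.pairwise_mergeSort
    · intro a b c hab hbc
      simp only [decide_eq_true_eq] at *
      exact hab.trans hbc
    · intro a b
      simp only [Bool.or_eq_true, decide_eq_true_eq]
      exact le_total _ _
  have h2 : ((P.mergeSort (fun a b => decide (ptKey opp w ord a ≤ ptKey opp w ord b))).map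
      (ptKey opp w ord)).Nodup :=
    ((List.mergeSort_perm P _).map _).nodup_iff.2 hP
  rw [List.Nodup, List.pairwise_map] at h2
  unfold Srt
  refine (h1.and h2).imp ?_
  rintro a b ⟨hab, hne⟩
  simp only [decide_eq_true_eq] at hab
  exact lt_of_le_of_ne hab hne

theorem rank_eq_length (Q1 Q2 P : List Pt) (x : Pt) (hperm : (Q1 ++ x :: Q2).Perm P)
    (hs : Srt opp w ord (Q1 ++ x :: Q2)) : rank opp w ord P x = Q1.length := by
  unfold rank
  unfold Srt at hs
  rw [← hperm.countP_eq, List.countP_append, List.countP_cons]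
  rw [List.pairwise_append, List.pairwise_cons] at hs
  obtain ⟨-, ⟨h2, -⟩, h3⟩ := hs
  have e1 : Q1.countP (fun y => decide (ptKey opp w ord y < ptKey opp w ord x)) = Q1.length := by
    rw [List.countP_eq_length]
    intro a ha
    simpa using h3 a ha x (by simp)
  have e2 : Q2.countP (fun y => decide (ptKey opp w ord y < ptKey opp w ord x)) = 0 := by
    rw [List.countP_eq_zero]
    intro a ha
    simpa using (h2 a ha).le
  rw [e1, e2]
  simp

theorem ends_cons (c : Pt × Pt) (L : List (Pt × Pt)) : ends (c :: L) = c.1 :: c.2 :: ends L := by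
  simp [ends]

theorem split_srt (c : Pt × Pt) (L : List (Pt × Pt)) (Q : List Pt)
    (hperm : Q.Perm (ends (c :: L))) (hs : Srt opp w ord Q) :
    ∃ (A B C : List Pt) (p q : Pt), Q = A ++ p :: (B ++ q :: C) ∧
      ((p = c.1 ∧ q = c.2) ∨ (p = c.2 ∧ q = c.1)) ∧ (A ++ B ++ C).Perm (ends L) ∧
      Srt opp w ord (A ++ B ++ C) ∧ rank opp w ord (ends (c :: L)) p = A.length ∧
      rank opp w ord (ends (c :: L)) q = A.length + 1 + B.length := by
  have key : ∀ p q : Pt, Q.Perm (p :: q :: ends L) → ptKey opp w ord p ≤ ptKey opp w ord q →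
      ∃ A B C : List Pt, Q = A ++ p :: (B ++ q :: C) ∧ (A ++ B ++ C).Perm (ends L) := by
    intro p q hpq hlt
    have hp : p ∈ Q := hpq.mem_iff.2 (by simp)
    obtain ⟨A, D, rfl⟩ := List.append_of_mem hp
    have h1 : (A ++ D).Perm (q :: ends L) := by
      have := (List.perm_middle (a := p) (l₁ := A) (l₂ := D)).symm.trans hpq
      exact this.cons_inv
    have hq : q ∈ A ++ D := h1.mem_iff.2 (by simp)
    have hqD : q ∈ D := by
      rcases List.mem_append.1 hq with h | h
      · exfalso
        unfold Srt at hs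
        rw [List.pairwise_append] at hs
        exact absurd (hs.2.2 q h p (by simp)) (not_lt.2 hlt)
      · exact h
    obtain ⟨B, C, rfl⟩ := List.append_of_mem hqD
    refine ⟨A, B, C, rfl, ?_⟩
    have h2 : (A ++ (B ++ q :: C)).Perm (q :: (A ++ B ++ C)) := by
      rw [← List.append_assoc]
      exact List.perm_middle
    exact (h2.symm.trans h1).cons_inv
  have fin : ∀ A B C : List Pt, ∀ p q : Pt, Q = A ++ p :: (B ++ q :: C) →
      Srt opp w ord (A ++ B ++ C) ∧ rank opp w ord (ends (c :: L)) p = A.length ∧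
      rank opp w ord (ends (c :: L)) q = A.length + 1 + B.length := by
    intro A B C p q hQ
    subst hQ
    refine ⟨?_, rank_eq_length opp w ord A _ _ p hperm hs, ?_⟩
    · unfold Srt at hs ⊢
      refine hs.sublist ?_
      rw [List.append_assoc]
      refine List.Sublist.append_left ?_ A
      refine List.Sublist.cons _ ?_
      exact List.Sublist.append_left (List.sublist_cons_self _ _) B
    · have e : A ++ p :: (B ++ q :: C) = (A ++ p :: B) ++ q :: C := by simp
      rw [e] at hperm hs
      rw [rank_eq_length opp w ord _ _ _ q hperm hs]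
      simp
      omega
  rw [ends_cons] at hperm
  rcases le_total (ptKey opp w ord c.1) (ptKey opp w ord c.2) with h | h
  · obtain ⟨A, B, C, hQ, hP⟩ := key c.1 c.2 hperm h
    rw [← ends_cons] at hperm
    exact ⟨A, B, C, c.1, c.2, hQ, Or.inl ⟨rfl, rfl⟩, hP, fin A B C _ _ hQ⟩
  · obtain ⟨A, B, C, hQ, hP⟩ := key c.2 c.1 (hperm.trans (List.Perm.swap _ _ _)) h
    rw [← ends_cons] at hperm
    exact ⟨A, B, C, c.2, c.1, hQ, Or.inr ⟨rfl, rfl⟩, hP, fin A B C _ _ hQ⟩

/-- The sign of a list of chords. -/
noncomputable def sgc : List (Pt × Pt) → ℝ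
  | [] => 1
  | c :: L =>
    (if rank opp w ord (ends (c :: L)) c.1 < rank opp w ord (ends (c :: L)) c.2 then 1 else -1) *
      (-1) ^ (max (rank opp w ord (ends (c :: L)) c.1) (rank opp w ord (ends (c :: L)) c.2) -
        min (rank opp w ord (ends (c :: L)) c.1) (rank opp w ord (ends (c :: L)) c.2)) * sgc L

theorem amp_rep {y : ℝ} (hy : ∀ k : ℤ, y ≠ k) (L : List (Pt × Pt))
    (hL : ((ends L).map (ptKey opp w ord)).Nodup) :
    ∃ T : List Bool → ℝ, Rep y (2 * L.length) T (amp (dl y) (-1) (rank opp w ord) L) ∧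
      ∀ Q : List Pt, Q.Perm (ends L) → Srt opp w ord Q → ∀ l : Pt → Bool,
        T (Q.map l) = sgc opp w ord L * (L.map fun c => ep (l c.1) (l c.2)).prod := by
  induction L with
  | nil =>
    refine ⟨fun _ => 1, ?_, ?_⟩
    · simpa [amp] using Rep_nil hy
    · intro Q hQ _ l
      simp [sgc]
  | cons c L ih =>
    have hL' : ((ends L).map (ptKey opp w ord)).Nodup := by
      rw [ends_cons, List.map_cons, List.map_cons, List.nodup_cons, List.nodup_cons] at hL
      exact hL.2.2
    obtain ⟨T, hT1, hT2⟩ := ih hL'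
    obtain ⟨Q0, hQ0p, hQ0s⟩ := exists_srt opp w ord (ends (c :: L)) hL
    obtain ⟨A0, B0, C0, p0, q0, hQ0, hpq0, hperm0, -, hr1, hr2⟩ :=
      split_srt opp w ord c L Q0 hQ0p hQ0s
    have hlen : A0.length + B0.length + C0.length = 2 * L.length := by
      have := hperm0.length_eq
      simp only [List.length_append] at this
      rw [this]
      simp only [ends, List.length_flatMap, List.length_cons, List.length_nil]
      simp [mul_comm]
    have hmin : min (rank opp w ord (ends (c :: L)) c.1) (rank opp w ord (ends (c :: L)) c.2) =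
        A0.length := by
      rcases hpq0 with ⟨h1, h2⟩ | ⟨h1, h2⟩ <;> rw [← h1, ← h2, hr1, hr2] <;> omega
    have hmax : max (rank opp w ord (ends (c :: L)) c.1) (rank opp w ord (ends (c :: L)) c.2) =
        A0.length + 1 + B0.length := by
      rcases hpq0 with ⟨h1, h2⟩ | ⟨h1, h2⟩ <;> rw [← h1, ← h2, hr1, hr2] <;> omega
    obtain ⟨T', hT'1, hT'2⟩ := Rep_insert hy hT1 A0.length B0.length (by omega)
    refine ⟨T', ?_, ?_⟩
    · have e : amp (dl y) (-1) (rank opp w ord) (c :: L) =
          insertChord (dl y) (-1) A0.length (A0.length + 1 + B0.length)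
            (amp (dl y) (-1) (rank opp w ord) L) := by
        rw [amp, hmin, hmax]
      rw [e, List.length_cons, mul_add, mul_one]
      exact hT'1
    · intro Q hQp hQs l
      obtain ⟨A, B, C, p, q, hQ, hpq, hperm, hs, hr1', hr2'⟩ := split_srt opp w ord c L Q hQp hQs
      have hA : A.length = A0.length := by
        rw [← hmin]
        rcases hpq with ⟨h1, h2⟩ | ⟨h1, h2⟩ <;> rw [← h1, ← h2, hr1', hr2'] <;> omega
      have hB : A.length + 1 + B.length = A0.length + 1 + B0.length := by
        rw [← hmax]
        rcases hpq with ⟨h1, h2⟩ | ⟨h1, h2⟩ <;> rw [← h1, ← h2, hr1', hr2'] <;> omega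
      have hB' : B.length = B0.length := by omega
      rw [hQ, List.map_append, List.map_cons, List.map_append, List.map_cons,
        hT'2 _ _ _ _ _ (by simpa using hA) (by simpa using hB'), ← List.map_append,
        ← List.map_append, hT2 _ hperm hs l, sgc, hmin, hmax, List.map_cons, List.prod_cons]
      have ht : A0.length + 1 + B0.length - A0.length = B0.length + 1 := by omega
      rw [ht]
      rcases hpq with ⟨h1, h2⟩ | ⟨h1, h2⟩
      · rw [← h1, ← h2, hr1', hr2', if_pos (by omega)]
        ring
      · rw [← h1, ← h2, hr1', hr2', if_neg (by omega), ep_symm (l q) (l p)]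
        ring

end

end Pool.Agent.AMU.Con
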