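import Pool.Agent.Lib.AMU.Con2

/-!
# The signs of the chords of a cable with an even number of strands (section K)
-/

set_option autoImplicit false

namespace Pool.Agent.AMU.Con

section

variable {N : ℕ} (opp : ZMod N → ZMod N) (w : List (ZMod N)) (ord : ℕ → ℤ)

/-- The position of the block of a point. -/
def bk (x : Pt) : ℤ ×ₗ ℤ :=
  toLex (((ptSide opp w x).val : ℤ),
    if (ptSide opp w x).val < (opp (ptSide opp w x)).val then ord x.1 else -ord x.1)

theorem ptKey_lt_iff (x y : Pt) : ptKey opp w ord x < ptKey opp w ord y ↔
    bk opp w ord x < bk opp w ord y ∨ (bk opp w ord x = bk opp w ord y ∧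
      (if x.2.2 then (x.2.1 : ℤ) else -(x.2.1 : ℤ)) <
        (if y.2.2 then (y.2.1 : ℤ) else -(y.2.1 : ℤ))) := by
  simp only [ptKey, bk, Prod.Lex.lt_iff, ofLex_toLex, toLex_inj, Prod.mk.injEq]
  tauto

variable [NeZero N]

theorem bk_inj (hne : ∀ i, opp i ≠ i) (hord : Function.Injective ord) {x y : Pt}
    (h : bk opp w ord x = bk opp w ord y) : x.1 = y.1 ∧ x.2.2 = y.2.2 := by
  simp only [bk, toLex_inj, Prod.mk.injEq, Nat.cast_inj] at h
  obtain ⟨h1, h2⟩ := h
  have h1' := ZMod.val_injective N h1
  rw [h1'] at h2
  have h3 : x.1 = y.1 := by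
    split_ifs at h2
    · exact hord h2
    · exact hord (neg_injective h2)
  refine ⟨h3, ?_⟩
  unfold ptSide at h1'
  rw [h3] at h1'
  by_contra hb
  cases hx : x.2.2 <;> cases hz : y.2.2 <;> rw [hx, hz] at hb h1' <;>
    simp only [if_true, Bool.false_eq_true, if_false, not_true] at h1' hb
  · exact hne _ h1'.symm
  · exact hne _ h1'

theorem ptKey_inj (hne : ∀ i, opp i ≠ i) (hord : Function.Injective ord) :
    Function.Injective (ptKey opp w ord) := by
  intro x y h
  have h1 : ¬ ptKey opp w ord x < ptKey opp w ord y := by rw [h]; exact lt_irrefl _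
  have h2 : ¬ ptKey opp w ord y < ptKey opp w ord x := by rw [h]; exact lt_irrefl _
  rw [ptKey_lt_iff, not_or] at h1 h2
  have h3 : bk opp w ord x = bk opp w ord y :=
    le_antisymm (not_lt.1 h2.1) (not_lt.1 h1.1)
  obtain ⟨h4, h5⟩ := bk_inj opp w ord hne hord h3
  have h6 := h1.2
  have h7 := h2.2
  rw [not_and] at h6 h7
  have h8 := not_lt.1 (h6 h3)
  have h9 := not_lt.1 (h7 h3.symm)
  obtain ⟨k, u, b⟩ := x
  obtain ⟨k', u', b'⟩ := y
  simp only at h4 h5
  subst h4 h5
  simp only at h8 h9
  have : u = u' := by
    cases b <;> simp at h8 h9 <;> omega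
  rw [this]

/-- Comparison of points in different blocks. -/
theorem key_lt_block (hne : ∀ i, opp i ≠ i) (hord : Function.Injective ord) {x y : Pt}
    (h : ¬ (x.1 = y.1 ∧ x.2.2 = y.2.2)) :
    ptKey opp w ord x < ptKey opp w ord y ↔ bk opp w ord x < bk opp w ord y := by
  rw [ptKey_lt_iff]
  constructor
  · rintro (h1 | ⟨h1, -⟩)
    · exact h1
    · exact absurd (bk_inj opp w ord hne hord h1) h
  · exact fun h1 => Or.inl h1

omit [NeZero N] in
/-- Comparison of points in the same block. -/
theorem key_lt_same (k u u' : ℕ) (b : Bool) :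
    ptKey opp w ord (k, u, b) < ptKey opp w ord (k, u', b) ↔ if b then u < u' else u' < u := by
  rw [ptKey_lt_iff]
  have : bk opp w ord (k, u, b) = bk opp w ord (k, u', b) := rfl
  rw [this]
  cases b <;> simp

/-- The chords of the letter `k` from the strand `u` on. -/
def tailb (m k u : ℕ) : List (Pt × Pt) :=
  (List.range' u (m - u)).map fun v => ((k, v, true), ((k + 1) % w.length, v, false))

/-- The chords of the letters before `k`. -/
def lowc (m k : ℕ) : List (Pt × Pt) :=
  (List.range k).reverse.flatMap fun j => tailb w m j 0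

omit [NeZero N] in
theorem chords_eq (m : ℕ) : chords w m = lowc w m w.length := by
  unfold chords lowc tailb
  simp [List.range_eq_range']

omit [NeZero N] in
theorem lowc_succ (m k : ℕ) : lowc w m (k + 1) = tailb w m k 0 ++ lowc w m k := by
  unfold lowc
  rw [List.range_succ, List.reverse_append]
  simp

omit [NeZero N] in
theorem tailb_succ (m k u : ℕ) (hu : u < m) : tailb w m k u =
    ((k, u, true), ((k + 1) % w.length, u, false)) :: tailb w m k (u + 1) := by
  unfold tailb
  obtain ⟨d, hd⟩ : ∃ d, m - u = d + 1 := ⟨m - u - 1, by omega⟩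
  rw [hd, List.range'_succ, List.map_cons, show m - (u + 1) = d by omega]

/-- The points between `p` and `q`. -/
def btw (p q : Pt) (z : Pt) : Bool :=
  decide (ptKey opp w ord p ≤ ptKey opp w ord z ∧ ptKey opp w ord z < ptKey opp w ord q)

omit [NeZero N] in
theorem countP_btw (p q : Pt) (h : ptKey opp w ord p < ptKey opp w ord q) (P : List Pt) :
    P.countP (fun z => decide (ptKey opp w ord z < ptKey opp w ord q)) =
      P.countP (fun z => decide (ptKey opp w ord z < ptKey opp w ord p)) +
        P.countP (btw opp w ord p q) := by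
  induction P with
  | nil => rfl
  | cons z P ih =>
    simp only [List.countP_cons, ih, btw, decide_eq_true_eq]
    by_cases h1 : ptKey opp w ord z < ptKey opp w ord p
    · have h2 : ptKey opp w ord z < ptKey opp w ord q := h1.trans h
      have h3 : ¬ (ptKey opp w ord p ≤ ptKey opp w ord z ∧
        ptKey opp w ord z < ptKey opp w ord q) := fun h4 => absurd h1 (not_lt.2 h4.1)
      rw [if_pos h1, if_pos h2, if_neg h3]
      omega
    · by_cases h2 : ptKey opp w ord z < ptKey opp w ord q
      · rw [if_neg h1, if_pos h2, if_pos ⟨not_lt.1 h1, h2⟩]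
        omega
      · rw [if_neg h1, if_neg h2, if_neg (fun h4 => h2 h4.2)]
        omega

omit [NeZero N] in
theorem ends_append (L L' : List (Pt × Pt)) : ends (L ++ L') = ends L ++ ends L' := by
  simp [ends]

theorem even_sum_list (l : List ℕ) (h : ∀ a ∈ l, Even a) : Even l.sum := by
  induction l with
  | nil => exact ⟨0, rfl⟩
  | cons a l ih =>
    rw [List.sum_cons]
    exact (h a (by simp)).add (ih fun b hb => h b (by simp [hb]))

omit [NeZero N] in
theorem countP_ends_tailb (m k u : ℕ) (f : Pt → Bool) :
    (ends (tailb w m k u)).countP f = ((List.range' u (m - u)).map fun v =>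
      (if f (k, v, true) then 1 else 0) + (if f ((k + 1) % w.length, v, false) then 1 else 0)).sum := by
  unfold ends tailb
  rw [List.countP_flatMap]
  rw [List.map_map]
  congr 1
  refine List.map_congr_left fun v _ => ?_
  simp only [Function.comp_apply, List.countP_cons, List.countP_nil, zero_add]
  rw [add_comm]

theorem even_btw (hne : ∀ i, opp i ≠ i) (hord : Function.Injective ord) (m : ℕ) (hm : Even m)
    (k u : ℕ) (hk : k < w.length) (p q : Pt) (hpq : ptKey opp w ord p < ptKey opp w ord q)
    (h : (p = (k, u, true) ∧ q = ((k + 1) % w.length, u, false)) ∨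
      (p = ((k + 1) % w.length, u, false) ∧ q = (k, u, true))) :
    Even ((ends (tailb w m k (u + 1) ++ lowc w m k)).countP (btw opp w ord p q)) := by
  rw [ends_append, List.countP_append]
  refine Even.add ?_ ?_
  · rw [countP_ends_tailb]
    refine even_sum_list _ ?_
    intro a ha
    rw [List.mem_map] at ha
    obtain ⟨v, hv, rfl⟩ := ha
    have hv' : u < v := by
      rw [List.mem_range'_1] at hv; omega
    rcases h with ⟨rfl, rfl⟩ | ⟨rfl, rfl⟩
    · have hb : bk opp w ord (k, u, true) < bk opp w ord ((k + 1) % w.length, u, false) :=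
        (key_lt_block opp w ord hne hord (by simp)).1 hpq
      have h1 : btw opp w ord (k, u, true) ((k + 1) % w.length, u, false) (k, v, true) = true := by
        unfold btw
        rw [decide_eq_true_eq]
        refine ⟨le_of_lt ((key_lt_same opp w ord k u v true).2 (by simpa using hv')), ?_⟩
        exact (key_lt_block opp w ord hne hord (by simp)).2 hb
      have h2 : btw opp w ord (k, u, true) ((k + 1) % w.length, u, false)
          ((k + 1) % w.length, v, false) = true := by
        unfold btw
        rw [decide_eq_true_eq]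
        refine ⟨le_of_lt ((key_lt_block opp w ord hne hord (by simp)).2 hb), ?_⟩
        exact (key_lt_same opp w ord _ v u false).2 (by simpa using hv')
      rw [h1, h2]
      exact ⟨1, by simp⟩
    · have h1 : btw opp w ord ((k + 1) % w.length, u, false) (k, u, true) (k, v, true) = false := by
        unfold btw
        rw [decide_eq_false_iff_not]
        rintro ⟨-, h2⟩
        rw [key_lt_same] at h2
        simp at h2
        omega
      have h2 : btw opp w ord ((k + 1) % w.length, u, false) (k, u, true)
          ((k + 1) % w.length, v, false) = false := by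
        unfold btw
        rw [decide_eq_false_iff_not]
        rintro ⟨h3, -⟩
        have h4 : ptKey opp w ord ((k + 1) % w.length, v, false) <
            ptKey opp w ord ((k + 1) % w.length, u, false) :=
          (key_lt_same opp w ord _ v u false).2 (by simpa using hv')
        exact absurd h4 (not_lt.2 h3)
      rw [h1, h2]
      exact ⟨0, by simp⟩
  · have e : ends (lowc w m k) = (List.range k).reverse.flatMap fun j => ends (tailb w m j 0) := by
      unfold lowc ends
      rw [List.flatMap_assoc]
    rw [e, List.countP_flatMap]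
    refine even_sum_list _ ?_
    intro a ha
    rw [List.mem_map] at ha
    obtain ⟨j, hj, rfl⟩ := ha
    rw [List.mem_reverse, List.mem_range] at hj
    rw [Function.comp_apply, countP_ends_tailb]
    -- independence of the strand
    have hj1 : (j + 1) % w.length = j + 1 := Nat.mod_eq_of_lt (by omega)
    have hk1 : (k + 1) % w.length ≠ j + 1 := by
      rcases Nat.lt_or_ge (k + 1) w.length with h1 | h1
      · rw [Nat.mod_eq_of_lt h1]; omega
      · have : k + 1 = w.length := by omega
        rw [this, Nat.mod_self]; omega
    have hind : ∀ z : Pt, ¬ (z.1 = k ∧ z.2.2 = true) →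
        ¬ (z.1 = (k + 1) % w.length ∧ z.2.2 = false) → ∀ v : ℕ,
        btw opp w ord p q z = btw opp w ord p q (z.1, v, z.2.2) := by
      intro z hz1 hz2 v
      have hb : bk opp w ord (z.1, v, z.2.2) = bk opp w ord z := rfl
      have hp : ¬ (p.1 = z.1 ∧ p.2.2 = z.2.2) ∧ ¬ (z.1 = q.1 ∧ z.2.2 = q.2.2) ∧
          ¬ (z.1 = p.1 ∧ z.2.2 = p.2.2) := by
        rcases h with ⟨rfl, rfl⟩ | ⟨rfl, rfl⟩
        · refine ⟨fun h1 => hz1 ⟨h1.1.symm, h1.2.symm⟩, fun h1 => hz2 h1, fun h1 => hz1 h1⟩
        · refine ⟨fun h1 => hz2 ⟨h1.1.symm, h1.2.symm⟩, fun h1 => hz1 h1, fun h1 => hz2 h1⟩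
      have e1 : ptKey opp w ord p ≤ ptKey opp w ord z ↔
          ptKey opp w ord p ≤ ptKey opp w ord (z.1, v, z.2.2) := by
        rw [← not_lt, ← not_lt, key_lt_block opp w ord hne hord hp.2.2,
          key_lt_block opp w ord hne hord (x := (z.1, v, z.2.2)) hp.2.2, hb]
      have e2 : ptKey opp w ord z < ptKey opp w ord q ↔
          ptKey opp w ord (z.1, v, z.2.2) < ptKey opp w ord q := by
        rw [key_lt_block opp w ord hne hord hp.2.1,
          key_lt_block opp w ord hne hord (x := (z.1, v, z.2.2)) hp.2.1, hb]
      unfold btw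
      simp only [e1, e2]
    have hconst : ∀ v : ℕ,
        (if btw opp w ord p q (j, v, true) then 1 else 0) +
          (if btw opp w ord p q ((j + 1) % w.length, v, false) then 1 else 0) =
        (if btw opp w ord p q (j, 0, true) then 1 else 0) +
          (if btw opp w ord p q ((j + 1) % w.length, 0, false) then 1 else 0) := by
      intro v
      rw [hind (j, v, true) (by simp; omega) (by simp) 0,
        hind ((j + 1) % w.length, v, false) (by simp) (by
          simp only [and_true]; rw [hj1]; exact fun h1 => hk1 h1.symm) 0]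
    simp only [hconst]
    rw [List.map_const', List.sum_replicate, List.length_range', smul_eq_mul]
    exact (by simpa using hm : Even (m - 0)).mul_right _

/-- The contribution of one chord to the sign. -/
theorem sgc_cons (hne : ∀ i, opp i ≠ i) (hord : Function.Injective ord) (m : ℕ) (hm : Even m)
    (k u : ℕ) (hk : k < w.length) :
    sgc opp w ord (((k, u, true), ((k + 1) % w.length, u, false)) ::
      (tailb w m k (u + 1) ++ lowc w m k)) =
    (if bk opp w ord (k, 0, true) < bk opp w ord ((k + 1) % w.length, 0, false) then -1 else 1) *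
      sgc opp w ord (tailb w m k (u + 1) ++ lowc w m k) := by
  rw [sgc]
  set p : Pt := (k, u, true) with hp
  set q : Pt := ((k + 1) % w.length, u, false) with hq
  set L := tailb w m k (u + 1) ++ lowc w m k with hL
  have hbp : bk opp w ord (k, 0, true) = bk opp w ord p := rfl
  have hbq : bk opp w ord ((k + 1) % w.length, 0, false) = bk opp w ord q := rfl
  rw [hbp, hbq]
  have r1 : rank opp w ord (ends ((p, q) :: L)) p =
      (ends L).countP (fun z => decide (ptKey opp w ord z < ptKey opp w ord p)) +
        if ptKey opp w ord q < ptKey opp w ord p then 1 else 0 := by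
    rw [ends_cons, rank, List.countP_cons, List.countP_cons]
    simp
  have r2 : rank opp w ord (ends ((p, q) :: L)) q =
      (ends L).countP (fun z => decide (ptKey opp w ord z < ptKey opp w ord q)) +
        if ptKey opp w ord p < ptKey opp w ord q then 1 else 0 := by
    rw [ends_cons, rank, List.countP_cons, List.countP_cons]
    simp
  have hlt : ptKey opp w ord p < ptKey opp w ord q ↔ bk opp w ord p < bk opp w ord q :=
    key_lt_block opp w ord hne hord (by simp [hp, hq])
  by_cases h : ptKey opp w ord p < ptKey opp w ord q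
  · rw [if_pos (hlt.1 h)]
    rw [if_neg (not_lt.2 h.le), add_zero] at r1
    rw [if_pos h, countP_btw opp w ord p q h] at r2
    obtain ⟨d, hd⟩ := even_btw opp w ord hne hord m hm k u hk p q h (Or.inl ⟨rfl, rfl⟩)
    rw [← hL] at hd
    rw [hd] at r2
    rw [r1, r2, if_pos (by omega)]
    set a := (ends L).countP (fun z => decide (ptKey opp w ord z < ptKey opp w ord p))
    have : max a (a + (d + d) + 1) - min a (a + (d + d) + 1) = 2 * d + 1 := by omega
    rw [this, pow_succ, pow_mul]
    norm_num
  · have hne' : ptKey opp w ord p ≠ ptKey opp w ord q := by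
      intro h1
      have := ptKey_inj opp w ord hne hord h1
      simp [hp, hq] at this
    have h' : ptKey opp w ord q < ptKey opp w ord p := lt_of_le_of_ne (not_lt.1 h) hne'.symm
    rw [if_neg (fun h1 => h (hlt.2 h1))]
    rw [if_pos h', countP_btw opp w ord q p h'] at r1
    rw [if_neg h, add_zero] at r2
    obtain ⟨d, hd⟩ := even_btw opp w ord hne hord m hm k u hk q p h' (Or.inr ⟨rfl, rfl⟩)
    rw [← hL] at hd
    rw [hd] at r1
    rw [r1, r2, if_neg (by omega)]
    set a := (ends L).countP (fun z => decide (ptKey opp w ord z < ptKey opp w ord q))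
    have : max (a + (d + d) + 1) a - min (a + (d + d) + 1) a = 2 * d + 1 := by omega
    rw [this, pow_succ, pow_mul]
    norm_num

/-- The sign of an even cable. -/
theorem sgc_chords (hne : ∀ i, opp i ≠ i) (hord : Function.Injective ord) (m : ℕ) (hm : Even m) :
    sgc opp w ord (chords w m) = 1 := by
  have h1 : ∀ k < w.length, ∀ d u : ℕ, u + d = m →
      sgc opp w ord (tailb w m k u ++ lowc w m k) =
      (if bk opp w ord (k, 0, true) < bk opp w ord ((k + 1) % w.length, 0, false) then -1 else 1) ^ d
        * sgc opp w ord (lowc w m k) := by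
    intro k hk d
    induction d with
    | zero =>
      intro u hu
      have : tailb w m k u = [] := by
        unfold tailb
        rw [show m - u = 0 by omega]
        rfl
      rw [this, List.nil_append, pow_zero, one_mul]
    | succ d ih =>
      intro u hu
      rw [tailb_succ w m k u (by omega), List.cons_append,
        sgc_cons opp w ord hne hord m hm k u hk, ih (u + 1) (by omega), pow_succ]
      ring
  have h2 : ∀ k ≤ w.length, sgc opp w ord (lowc w m k) = 1 := by
    intro k
    induction k with
    | zero =>
      intro _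
      rfl
    | succ k ih =>
      intro hk
      rw [lowc_succ, h1 k (by omega) m 0 (by omega), ih (by omega), mul_one]
      split_ifs
      · exact hm.neg_one_pow
      · exact one_pow _
  rw [chords_eq]
  exact h2 _ le_rfl

end

end Pool.Agent.AMU.Con
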