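import Pool.Agent.Lib.AMU.Con3

/-!
# Sorted lists and enumerations (section K)
-/

set_option autoImplicit false

namespace Pool.Agent.AMU.Con

/-! ## Generalities -/

theorem exists_sorted {α κ : Type} [LinearOrder κ] (key : α → κ) (P : List α)
    (hP : (P.map key).Nodup) :
    ∃ Q : List α, Q.Perm P ∧ Q.Pairwise fun a b => key a < key b := by
  refine ⟨P.mergeSort (fun a b => decide (key a ≤ key b)), List.mergeSort_perm _ _, ?_⟩
  have h1 : (P.mergeSort (fun a b => decide (key a ≤ key b))).Pairwise
      (fun a b => decide (key a ≤ key b) = true) := by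
    apply List.pairwise_mergeSort
    · intro a b c hab hbc
      simp only [decide_eq_true_eq] at *
      exact hab.trans hbc
    · intro a b
      simp only [Bool.or_eq_true, decide_eq_true_eq]
      exact le_total _ _
  have h2 : ((P.mergeSort (fun a b => decide (key a ≤ key b))).map key).Nodup :=
    ((List.mergeSort_perm P _).map _).nodup_iff.2 hP
  rw [List.Nodup, List.pairwise_map] at h2
  refine (h1.and h2).imp ?_
  rintro a b ⟨hab, hne⟩
  simp only [decide_eq_true_eq] at hab
  exact lt_of_le_of_ne hab hne

/-- Sums over functions on an enumerated type. -/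
theorem sumB_enum {ι : Type} [Fintype ι] [DecidableEq ι] (Q : List ι) (hn : Q.Nodup)
    (ha : ∀ x, x ∈ Q) (k : ℕ) (hk : k = Q.length) (f : List Bool → ℝ) :
    sumB k f = ∑ e : ι → Bool, f (Q.map e) := by
  subst hk
  rw [sumB_eq_sum, ← (Equiv.arrowCongr (List.Nodup.getEquivOfForallMemList Q hn ha)
    (Equiv.refl Bool)).symm.sum_comp]
  refine Finset.sum_congr rfl fun e _ => ?_
  congr 1
  refine List.ext_getElem (by simp) fun i h1 h2 => ?_
  simp [Equiv.arrowCongr]

theorem sumSteps_eq_sumB {α : Type} (L : List α) (F : List (α × Bool) → ℝ) :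
    sumSteps L F = sumB L.length (fun a => F (L.zip a)) := by
  induction L generalizing F with
  | nil => rfl
  | cons x L ih =>
    simp only [sumSteps, List.length_cons, sumB, ih, List.zip_cons_cons]

theorem sumSteps_enum {α ι : Type} [Fintype ι] [DecidableEq ι] (Q : List ι) (hn : Q.Nodup)
    (ha : ∀ x, x ∈ Q) (g : ι → α) (F : List (α × Bool) → ℝ) :
    sumSteps (Q.map g) F = ∑ e : ι → Bool, F (Q.map fun z => (g z, e z)) := by
  rw [sumSteps_eq_sumB, sumB_enum Q hn ha _ (by simp)]
  refine Finset.sum_congr rfl fun e _ => ?_
  rw [List.zip_map']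

/-! ## Sorted lists -/

section sorted

variable {α : Type} (Q : List α) (g : α → ℕ)

theorem filter_lt_succ (hs : Q.Pairwise fun a b => g a ≤ g b) (j : ℕ) :
    Q.filter (fun x => decide (g x < j + 1)) =
      Q.filter (fun x => decide (g x < j)) ++ Q.filter (fun x => decide (g x = j)) := by
  induction Q with
  | nil => rfl
  | cons a Q ih =>
    rw [List.pairwise_cons] at hs
    obtain ⟨h1, h2⟩ := hs
    have ih' := ih h2
    simp only [List.filter_cons, decide_eq_true_eq]
    rcases lt_trichotomy (g a) j with h | h | h
    · rw [if_pos (by omega), if_pos h, if_neg (by omega), ih', List.cons_append]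
    · have e : Q.filter (fun x => decide (g x < j)) = [] := by
        rw [List.filter_eq_nil_iff]
        intro x hx
        have := h1 x hx
        simp only [decide_eq_true_eq]
        omega
      rw [if_pos (by omega), if_neg (by omega), if_pos h, ih', e, List.nil_append, List.nil_append]
    · rw [if_neg (by omega), if_neg (by omega), if_neg (by omega), ih']

theorem take_countP_lt (hs : Q.Pairwise fun a b => g a ≤ g b) (j : ℕ) :
    Q.take (Q.countP fun x => decide (g x < j)) = Q.filter (fun x => decide (g x < j)) := by
  induction Q with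
  | nil => rfl
  | cons a Q ih =>
    rw [List.pairwise_cons] at hs
    obtain ⟨h1, h2⟩ := hs
    have ih' := ih h2
    simp only [List.filter_cons, List.countP_cons, decide_eq_true_eq]
    by_cases h : g a < j
    · rw [if_pos h, if_pos h, List.take_succ_cons, ih']
    · rw [if_neg h, if_neg h]
      have e : Q.filter (fun x => decide (g x < j)) = [] := by
        rw [List.filter_eq_nil_iff]
        intro x hx
        have := h1 x hx
        simp only [decide_eq_true_eq]
        omega
      rw [e, List.countP_eq_length_filter, e]
      rfl

/-- The number of elements before the class `j`. -/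
def cnt (j : ℕ) : ℕ := Q.countP fun x => decide (g x < j)

theorem cnt_succ (hs : Q.Pairwise fun a b => g a ≤ g b) (j : ℕ) :
    cnt Q g (j + 1) = cnt Q g j + (Q.filter (fun x => decide (g x = j))).length := by
  unfold cnt
  rw [List.countP_eq_length_filter, List.countP_eq_length_filter, filter_lt_succ Q g hs,
    List.length_append]

theorem take_mid (hs : Q.Pairwise fun a b => g a ≤ g b) (j t : ℕ)
    (ht : t ≤ (Q.filter (fun x => decide (g x = j))).length) :
    Q.take (cnt Q g j + t) = Q.filter (fun x => decide (g x < j)) ++
      (Q.filter (fun x => decide (g x = j))).take t := by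
  have h1 : Q.take (cnt Q g j + t) = (Q.take (cnt Q g (j + 1))).take (cnt Q g j + t) := by
    rw [List.take_take, min_eq_left]
    rw [cnt_succ Q g hs]; omega
  rw [h1]
  unfold cnt
  rw [take_countP_lt Q g hs, filter_lt_succ Q g hs, List.take_append,
    List.countP_eq_length_filter]
  rw [List.take_of_length_le (by omega)]
  congr 2
  omega

end sorted

/-- The product of the weights over the intervals of a side. -/
theorem wprod_eq_prod (y : ℝ) (s : ℤ) (l : List Bool) :
    wprod y s l = ∏ t ∈ Finset.range (l.length + 1), (dl y (s + stepSum (l.take t)))⁻¹ := by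
  induction l generalizing s with
  | nil => simp [wprod]
  | cons b l ih =>
    rw [wprod, ih, List.length_cons, Finset.prod_range_succ' _ (l.length + 1)]
    simp only [List.take_zero, stepSum_nil, add_zero, List.take_succ_cons, stepSum_cons]
    rw [mul_comm]
    simp only [add_assoc]

/-- The product of the weights over an interval of levels. -/
theorem prod_Icc_eq {α : Type} (Q : List α) (g : α → ℕ)
    (hs : Q.Pairwise fun a b => g a ≤ g b) (y : ℝ) (σ : α → Bool) (j : ℕ)
    (h0 : stepSum ((Q.filter (fun x => decide (g x < j))).map σ) = 0) :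
    (∏ t ∈ Finset.Icc (cnt Q g j) (cnt Q g (j + 1)), (dl y (lev ((Q.map σ).map sgn) t))⁻¹) =
      wprod y 0 ((Q.filter (fun x => decide (g x = j))).map σ) := by
  have e1 : Finset.Icc (cnt Q g j) (cnt Q g (j + 1)) =
      Finset.Ico (cnt Q g j) (cnt Q g (j + 1) + 1) := by
    ext t
    simp only [Finset.mem_Icc, Finset.mem_Ico]
    omega
  rw [e1, Finset.prod_Ico_eq_prod_range, wprod_eq_prod, cnt_succ Q g hs, List.length_map]
  have e2 : cnt Q g j + (Q.filter (fun x => decide (g x = j))).length + 1 - cnt Q g j =
      (Q.filter (fun x => decide (g x = j))).length + 1 := by omega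
  rw [e2]
  refine Finset.prod_congr rfl fun t ht => ?_
  rw [Finset.mem_range] at ht
  congr 2
  unfold lev
  rw [← List.map_take, ← List.map_take, take_mid Q g hs j t (by omega), List.map_append,
    map_sgn_sum, stepSum_append, h0, List.map_take]

/-- The operator of the boundary is the product of the operators of the sides. -/
theorem W_sides {α : Type} (Q : List α) (g : α → ℕ)
    (hs : Q.Pairwise fun a b => g a ≤ g b) (y : ℝ) (σ l : α → Bool)
    (h0 : ∀ j : ℕ, stepSum ((Q.filter (fun x => decide (g x = j))).map σ) = 0) (j : ℕ) :
    (W y 0 ((Q.filter (fun x => decide (g x < j))).map fun x => (σ x, l x)) : Module.End ℝ Fn) =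
      ((List.range j).map fun i =>
        (W y 0 ((Q.filter (fun x => decide (g x = i))).map fun x => (σ x, l x)) :
          Module.End ℝ Fn)).prod ∧
      stepSum ((Q.filter (fun x => decide (g x < j))).map σ) = 0 := by
  induction j with
  | zero =>
    simp only [Nat.not_lt_zero, decide_false, List.filter_false, List.map_nil, List.range_zero,
      List.prod_nil, W, stepSum_nil, and_true]
    rfl
  | succ j ih =>
    obtain ⟨ih1, ih2⟩ := ih
    have h1 : stepSum (((Q.filter (fun x => decide (g x < j))).map fun x => (σ x, l x)).map
        Prod.fst) = 0 := by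
      rw [List.map_map]
      exact ih2
    constructor
    · rw [filter_lt_succ Q g hs, List.map_append, W_append, h1, add_zero, List.range_succ,
        List.map_append, List.prod_append, ← ih1]
      simp only [List.map_cons, List.map_nil, List.prod_cons, List.prod_nil, mul_one]
      rfl
    · rw [filter_lt_succ Q g hs, List.map_append, stepSum_append, ih2, h0 j, add_zero]

end Pool.Agent.AMU.Con
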