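import Pool.Agent.Lib.AMU.Con4
import Pool.Agent.Lib.AMU.Fun7

/-!
# The points of the diagram of a cable (section K)
-/

set_option autoImplicit false

namespace Pool.Agent.AMU.Con

section points

variable {N : ℕ} (w : List (ZMod N)) (m : ℕ)

/-- The strands of one cable. -/
abbrev S1 : Type := ST (fun _ : Fin 1 => w) (fun _ => m)

variable {w m}

/-- The strand `u` of the letter `k`. -/
def mk1 (k : Fin w.length) (u : Fin m) : S1 w m := ⟨0, (k, u)⟩

theorem mk1_eta (z : S1 w m) : mk1 z.2.1 z.2.2 = z := by
  obtain ⟨j, k, u⟩ := z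
  have : j = 0 := Subsingleton.elim _ _
  subst this
  rfl

/-- The point. -/
def em (x : S1 w m × Bool) : Pt := (x.1.2.1.val, x.1.2.2.val, x.2)

theorem em_inj : Function.Injective (em (w := w) (m := m)) := by
  rintro ⟨z, b⟩ ⟨z', b'⟩ h
  simp only [em, Prod.mk.injEq] at h
  obtain ⟨h1, h2, h3⟩ := h
  rw [← mk1_eta z, ← mk1_eta z']
  have e1 : z.2.1 = z'.2.1 := Fin.ext h1
  have e2 : z.2.2 = z'.2.2 := Fin.ext h2
  rw [e1, e2, h3]

/-- The other end. -/
def mate (x : S1 w m × Bool) : S1 w m × Bool := (x.1, !x.2)

theorem mate_mate (x : S1 w m × Bool) : mate (mate x) = x := by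
  simp [mate]

theorem mem_chords (c : Pt × Pt) : c ∈ chords w m ↔
    ∃ k < w.length, ∃ u < m, c = ((k, u, true), ((k + 1) % w.length, u, false)) := by
  unfold chords
  simp only [List.mem_flatMap, List.mem_reverse, List.mem_range, List.mem_map]
  constructor
  · rintro ⟨k, hk, u, hu, rfl⟩
    exact ⟨k, hk, u, hu, rfl⟩
  · rintro ⟨k, hk, u, hu, rfl⟩
    exact ⟨k, hk, u, hu, rfl⟩

theorem mem_ends (x : Pt) : x ∈ ends (chords w m) ↔ x.1 < w.length ∧ x.2.1 < m := by
  unfold ends
  rw [List.mem_flatMap]
  constructor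
  · rintro ⟨c, hc, hx⟩
    rw [mem_chords] at hc
    obtain ⟨k, hk, u, hu, rfl⟩ := hc
    simp only [List.mem_cons, List.not_mem_nil, or_false] at hx
    rcases hx with rfl | rfl
    · exact ⟨hk, hu⟩
    · exact ⟨Nat.mod_lt _ (by omega), hu⟩
  · rintro ⟨h1, h2⟩
    obtain ⟨k, u, b⟩ := x
    simp only at h1 h2
    cases b
    · by_cases hk : k = 0
      · refine ⟨((w.length - 1, u, true), ((w.length - 1 + 1) % w.length, u, false)),
          (mem_chords _).2 ⟨w.length - 1, by omega, u, h2, rfl⟩, ?_⟩
        have : (w.length - 1 + 1) % w.length = k := by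
          rw [show w.length - 1 + 1 = w.length by omega, Nat.mod_self, hk]
        rw [this]
        simp
      · refine ⟨((k - 1, u, true), ((k - 1 + 1) % w.length, u, false)),
          (mem_chords _).2 ⟨k - 1, by omega, u, h2, rfl⟩, ?_⟩
        have : (k - 1 + 1) % w.length = k := by
          rw [show k - 1 + 1 = k by omega, Nat.mod_eq_of_lt h1]
        rw [this]
        simp
    · exact ⟨_, (mem_chords _).2 ⟨k, h1, u, h2, rfl⟩, by simp⟩

theorem nodup_chords : (chords w m).Nodup := by
  unfold chords
  rw [List.nodup_flatMap]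
  constructor
  · intro k _
    refine (List.nodup_range).map ?_
    intro u u' h
    simp only [Prod.mk.injEq] at h
    exact h.1.2.1
  · refine (List.nodup_reverse.2 List.nodup_range).imp ?_
    intro k k' hkk' c hc hc'
    rw [List.mem_map] at hc hc'
    obtain ⟨u, -, rfl⟩ := hc
    obtain ⟨u', -, h⟩ := hc'
    simp only [Prod.mk.injEq] at h
    exact hkk' h.1.1.symm

theorem nodup_ends : (ends (chords w m)).Nodup := by
  unfold ends
  rw [List.nodup_flatMap]
  constructor
  · intro c hc
    rw [mem_chords] at hc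
    obtain ⟨k, hk, u, hu, rfl⟩ := hc
    simp
  · have h := nodup_chords (w := w) (m := m)
    rw [List.Nodup] at h
    refine List.Pairwise.imp_of_mem ?_ h
    intro c d hc hd hcd
    rw [mem_chords] at hc hd
    obtain ⟨k, hk, u, hu, rfl⟩ := hc
    obtain ⟨k', hk', u', hu', rfl⟩ := hd
    intro x hx hx'
    simp only [List.mem_cons, List.not_mem_nil, or_false] at hx hx'
    apply hcd
    rcases hx with rfl | rfl <;> rcases hx' with h1 | h1 <;> simp only [Prod.mk.injEq] at h1
    · obtain ⟨rfl, rfl, -⟩ := h1; rfl
    · exact absurd h1.2.2 (by simp)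
    · exact absurd h1.2.2 (by simp)
    · obtain ⟨h1, rfl, -⟩ := h1
      have : k = k' := by
        rcases Nat.lt_or_ge (k + 1) w.length with h2 | h2
        · rcases Nat.lt_or_ge (k' + 1) w.length with h3 | h3
          · rw [Nat.mod_eq_of_lt h2, Nat.mod_eq_of_lt h3] at h1
            omega
          · have h4 : k' + 1 = w.length := by omega
            rw [Nat.mod_eq_of_lt h2, h4, Nat.mod_self] at h1
            omega
        · have h5 : k + 1 = w.length := by omega
          rcases Nat.lt_or_ge (k' + 1) w.length with h3 | h3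
          · rw [Nat.mod_eq_of_lt h3, h5, Nat.mod_self] at h1
            omega
          · omega
      rw [this]

/-- The points in the order of the boundary. -/
theorem exists_Q [NeZero N] (opp : ZMod N → ZMod N) (ord : ℕ → ℤ) (hne : ∀ i, opp i ≠ i)
    (hord : Function.Injective ord) :
    ∃ Q : List (S1 w m × Bool), Q.Nodup ∧ (∀ x, x ∈ Q) ∧
      Q.Pairwise (fun a b => ptKey opp w ord (em a) < ptKey opp w ord (em b)) ∧
      (Q.map em).Perm (ends (chords w m)) := by
  classical
  have hU : ((Finset.univ : Finset (S1 w m × Bool)).toList.map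
      (fun x => ptKey opp w ord (em x))).Nodup := by
    refine (Finset.nodup_toList _).map ?_
    intro a b h
    exact em_inj (ptKey_inj opp w ord hne hord h)
  obtain ⟨Q, hp, hs⟩ := exists_sorted (fun x : S1 w m × Bool => ptKey opp w ord (em x))
    (Finset.univ : Finset (S1 w m × Bool)).toList hU
  have hn : Q.Nodup := hp.nodup_iff.2 (Finset.nodup_toList _)
  have ha : ∀ x, x ∈ Q := fun x => hp.mem_iff.2 (by simp)
  refine ⟨Q, hn, ha, hs, ?_⟩
  rw [List.perm_ext_iff_of_nodup (hn.map em_inj) nodup_ends]
  intro x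
  rw [mem_ends, List.mem_map]
  constructor
  · rintro ⟨z, -, rfl⟩
    exact ⟨z.1.2.1.isLt, z.1.2.2.isLt⟩
  · rintro ⟨h1, h2⟩
    exact ⟨(mk1 ⟨x.1, h1⟩ ⟨x.2.1, h2⟩, x.2.2), ha _, rfl⟩

theorem length_ends (L : List (Pt × Pt)) : (ends L).length = 2 * L.length := by
  simp [ends, mul_comm]

theorem length_chords : (chords w m).length = w.length * m := by
  simp [chords]

theorem prod_map_range (g : ℕ → ℝ) (n : ℕ) :
    ((List.range n).map g).prod = ∏ i : Fin n, g i.val := by
  induction n with
  | zero => simp
  | succ n ih =>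
    rw [List.range_succ, List.map_append, List.prod_append, ih, Fin.prod_univ_castSucc]
    simp

/-- The product over the chords. -/
theorem prod_chords (f : S1 w m × Bool → Bool) (hf : Pt → Bool)
    (h : ∀ x, hf (em x) = f x) :
    ((chords w m).map fun c => ep (hf c.1) (hf c.2)).prod =
      ∏ i : S1 w m, ep (f (i, true)) (f (stNxt i, false)) := by
  have h1 : (chords w m).map (fun c => ep (hf c.1) (hf c.2)) =
      (List.range w.length).reverse.flatMap fun k =>
        (List.range m).map fun u => ep (hf (k, u, true)) (hf ((k + 1) % w.length, u, false)) := by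
    unfold chords
    rw [List.map_flatMap]
    simp [Function.comp_def]
  have h2 : ∀ l : List ℕ, (l.flatMap fun k =>
        (List.range m).map fun u => ep (hf (k, u, true)) (hf ((k + 1) % w.length, u, false))).prod =
      (l.map fun k => ∏ u : Fin m,
        ep (hf (k, u.val, true)) (hf ((k + 1) % w.length, u.val, false))).prod := by
    intro l
    induction l with
    | nil => rfl
    | cons k l ih =>
      rw [List.flatMap_cons, List.prod_append, ih, List.map_cons, List.prod_cons]
      congr 1
      exact prod_map_range _ m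
  rw [h1, h2, List.map_reverse, List.prod_reverse, prod_map_range]
  rw [Fintype.prod_sigma, Fin.prod_univ_one, Fintype.prod_prod_type]
  refine Finset.prod_congr rfl fun k _ => Finset.prod_congr rfl fun u _ => ?_
  rw [← h, ← h]
  rfl

end points

end Pool.Agent.AMU.Con
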