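import Pool.Agent.Lib.AMU.Con5

/-!
# The sides of the diagram of a cable (section K)
-/

set_option autoImplicit false

namespace Pool.Agent.AMU.Con

section sides

variable {N : ℕ} (opp : ZMod N → ZMod N) {w : List (ZMod N)} {m : ℕ} (ord : ℕ → ℤ)

/-- The side of a point. -/
def sd (x : S1 w m × Bool) : ZMod N := ptSide opp w (em x)

theorem sd_eq (x : S1 w m × Bool) : sd opp x = if x.2 then opp (stLet x.1) else stLet x.1 := rfl

variable (hinv : ∀ i, opp (opp i) = i) (hne : ∀ i, opp i ≠ i)

include hinv in
theorem sd_mate (x : S1 w m × Bool) : sd opp (mate x) = opp (sd opp x) := by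
  rw [sd_eq, sd_eq]
  obtain ⟨z, b⟩ := x
  cases b
  · rfl
  · simp [mate, hinv]

/-- The point lies on a canonical side. -/
def isC (x : S1 w m × Bool) : Bool := decide ((sd opp x).val < (opp (sd opp x)).val)

variable [NeZero N]

include hinv hne in
theorem isC_mate (x : S1 w m × Bool) : isC opp (mate x) = !isC opp x := by
  unfold isC
  rw [sd_mate opp hinv, hinv]
  have := val_ne opp hne (sd opp x)
  by_cases h : (sd opp x).val < (opp (sd opp x)).val
  · have h' : ¬ ((opp (sd opp x)).val < (sd opp x).val) := by omega
    simp [h, h']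
  · have h' : (opp (sd opp x)).val < (sd opp x).val := by omega
    simp [h, h']

/-- The steps of the points. -/
def sg (ε : S1 w m → Bool) (x : S1 w m × Bool) : Bool := if isC opp x then ε x.1 else !ε x.1

include hinv hne in
theorem sg_mate (ε : S1 w m → Bool) (x : S1 w m × Bool) :
    sg opp ε (mate x) = !sg opp ε x := by
  unfold sg
  rw [isC_mate opp hinv hne]
  cases isC opp x <;> simp [mate]

omit [NeZero N] in
include hinv in
theorem stStr_eq (lab : S1 w m × Bool → Bool) (x : S1 w m × Bool) (hx : isC opp x = true) :
    stStr opp lab x.1 = (sd opp x, lab x, lab (mate x)) := by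
  obtain ⟨z, b⟩ := x
  unfold isC at hx
  rw [decide_eq_true_eq] at hx
  rw [sd_eq] at hx ⊢
  unfold stStr
  cases b
  · simp only [Bool.false_eq_true, if_false] at hx ⊢
    rw [if_pos hx]
    rfl
  · simp only [if_true, hinv] at hx ⊢
    rw [if_neg (by omega)]
    rfl

variable (Q : List (S1 w m × Bool))

/-- The enumeration of the strands. -/
def LQ : List (S1 w m) := (Q.filter (isC opp)).map Prod.fst

include hinv hne in
theorem LQ_nodup (hQ : Q.Nodup) : (LQ opp Q).Nodup := by
  unfold LQ
  refine List.Nodup.map_on ?_ (hQ.filter _)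
  intro x hx y hy hxy
  rw [List.mem_filter] at hx hy
  obtain ⟨z, b⟩ := x
  obtain ⟨z', b'⟩ := y
  simp only at hxy
  subst hxy
  by_contra h
  have hb : b' = !b := by
    cases b <;> cases b' <;> simp at h ⊢
  have h1 := isC_mate opp hinv hne (z, b)
  have h2 : mate (z, b) = (z, b') := by rw [hb]; rfl
  rw [h2, hy.2, hx.2] at h1
  simp at h1

include hinv hne in
theorem LQ_mem (hQ : ∀ x, x ∈ Q) (z : S1 w m) : z ∈ LQ opp Q := by
  unfold LQ
  rw [List.mem_map]
  by_cases h : isC opp (z, false) = true
  · exact ⟨(z, false), List.mem_filter.2 ⟨hQ _, h⟩, rfl⟩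
  · refine ⟨mate (z, false), List.mem_filter.2 ⟨hQ _, ?_⟩, rfl⟩
    rw [isC_mate opp hinv hne]
    simpa using h

/-- The labelled strands with steps. -/
def SS (lab : S1 w m × Bool → Bool) (ε : S1 w m → Bool) : List (Strand N × Bool) :=
  (LQ opp Q).map fun z => (stStr opp lab z, ε z)

include hinv in
theorem filter_SS (lab : S1 w m × Bool → Bool) (ε : S1 w m → Bool) (i : ZMod N)
    (hi : i.val < (opp i).val) :
    (SS opp Q lab ε).filter (fun t => decide (t.1.1 = i)) =
      (Q.filter fun x => decide (sd opp x = i)).map
        fun x => ((i, lab x, lab (mate x)), sg opp ε x) := by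
  unfold SS LQ
  rw [List.map_map, List.filter_map, List.filter_filter]
  have e1 : Q.filter (fun a => ((fun t : Strand N × Bool => decide (t.1.1 = i)) ∘
      (fun z => (stStr opp lab z, ε z)) ∘ Prod.fst) a && isC opp a) =
      Q.filter fun x => decide (sd opp x = i) := by
    refine List.filter_congr fun x _ => ?_
    by_cases hx : isC opp x = true
    · simp only [Function.comp_apply, stStr_eq opp hinv lab x hx, hx, Bool.and_true]
    · have h1 : ¬ (sd opp x = i) := by
        intro h
        apply hx
        unfold isC
        rw [h]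
        simpa using hi
      simp [hx, h1]
  rw [e1]
  refine List.map_congr_left fun x hx => ?_
  have hx' : sd opp x = i := by simpa using (List.mem_filter.1 hx).2
  have hc : isC opp x = true := by
    unfold isC
    rw [hx']
    simpa using hi
  simp only [Function.comp_apply]
  rw [stStr_eq opp hinv lab x hc, hx']
  unfold sg
  rw [if_pos hc]

include hinv in
theorem steps_SS (lab : S1 w m × Bool → Bool) (ε : S1 w m → Bool) (i : ZMod N)
    (hi : i.val < (opp i).val) :
    steps (SS opp Q lab ε) i = (Q.filter fun x => decide (sd opp x = i)).map (sg opp ε) := by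
  unfold steps
  rw [filter_SS opp hinv Q lab ε i hi, List.map_map]
  rfl

omit [NeZero N] in
theorem ptKey_em (x : S1 w m × Bool) : ptKey opp w ord (em x) =
    toLex (((sd opp x).val : ℤ), toLex (if isC opp x then ord x.1.2.1.val else -ord x.1.2.1.val,
      if x.2 then (x.1.2.2.val : ℤ) else -(x.1.2.2.val : ℤ))) := by
  unfold ptKey isC
  simp only [decide_eq_true_eq]
  rfl

include hinv hne in
theorem key_mate (x y : S1 w m × Bool) (h : sd opp x = sd opp y)
    (hk : ptKey opp w ord (em x) < ptKey opp w ord (em y)) :
    ptKey opp w ord (em (mate y)) < ptKey opp w ord (em (mate x)) := by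
  have hc : isC opp x = isC opp y := by unfold isC; rw [h]
  rw [ptKey_em, ptKey_em, isC_mate opp hinv hne, isC_mate opp hinv hne, sd_mate opp hinv,
    sd_mate opp hinv]
  rw [ptKey_em, ptKey_em] at hk
  rw [← h, ← hc]
  rw [← h, ← hc] at hk
  simp only [Prod.Lex.lt_iff, ofLex_toLex, lt_irrefl, false_or, true_and] at hk ⊢
  have e1 : ∀ z : S1 w m × Bool, (mate z).1 = z.1 := fun _ => rfl
  have e2 : ∀ z : S1 w m × Bool, (mate z).2 = !z.2 := fun _ => rfl
  rw [e1, e1, e2, e2]
  have e3 : ∀ (b : Bool) (u : ℕ), (if (!b) = true then (u : ℤ) else -(u : ℤ)) =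
      -(if b = true then (u : ℤ) else -(u : ℤ)) := by
    intro b u
    cases b <;> simp
  rw [e3, e3]
  revert hk
  cases isC opp x <;> intro hk
  · simp only [Bool.false_eq_true, if_false, Bool.not_false, if_true] at hk ⊢
    rcases hk with h1 | ⟨h1, h2⟩
    · left; omega
    · right; exact ⟨by omega, by omega⟩
  · simp only [Bool.not_true, Bool.false_eq_true, if_false, if_true] at hk ⊢
    rcases hk with h1 | ⟨h1, h2⟩
    · left; omega
    · right; exact ⟨by omega, by omega⟩

include hinv hne in
theorem mate_filter (hn : Q.Nodup) (ha : ∀ x, x ∈ Q)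
    (hs : Q.Pairwise fun a b => ptKey opp w ord (em a) < ptKey opp w ord (em b)) (i : ZMod N) :
    (Q.filter fun x => decide (sd opp x = i)).reverse.map mate =
      Q.filter fun x => decide (sd opp x = opp i) := by
  have hmi : Function.Injective (mate (w := w) (m := m)) :=
    Function.LeftInverse.injective mate_mate
  refine List.Perm.eq_of_pairwise
    (le := fun a b => ptKey opp w ord (em a) < ptKey opp w ord (em b)) ?_ ?_ (hs.filter _) ?_
  · intro a b _ _ h1 h2
    exact absurd h1 (lt_asymm h2)
  · rw [List.pairwise_map, List.pairwise_reverse]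
    refine List.Pairwise.imp_of_mem ?_ (hs.filter (fun x => decide (sd opp x = i)))
    intro a b hma hmb hab
    have h1 : sd opp a = i := by simpa using (List.mem_filter.1 hma).2
    have h2 : sd opp b = i := by simpa using (List.mem_filter.1 hmb).2
    exact key_mate opp ord hinv hne a b (h1.trans h2.symm) hab
  · rw [List.perm_ext_iff_of_nodup ((List.nodup_reverse.2 (hn.filter _)).map hmi) (hn.filter _)]
    intro x
    simp only [List.mem_map, List.mem_reverse, List.mem_filter, decide_eq_true_eq]
    constructor
    · rintro ⟨z, ⟨-, hz⟩, rfl⟩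
      exact ⟨ha _, by rw [sd_mate opp hinv, hz]⟩
    · rintro ⟨-, hx⟩
      exact ⟨mate x, ⟨ha _, by rw [sd_mate opp hinv, hx, hinv]⟩, mate_mate x⟩

include hinv hne in
theorem sideWord_SS (hn : Q.Nodup) (ha : ∀ x, x ∈ Q)
    (hs : Q.Pairwise fun a b => ptKey opp w ord (em a) < ptKey opp w ord (em b))
    (lab : S1 w m × Bool → Bool) (ε : S1 w m → Bool) (j : ZMod N) :
    sideWord opp (SS opp Q lab ε) j =
      (Q.filter fun x => decide (sd opp x = j)).map fun x => (sg opp ε x, lab x) := by
  unfold sideWord
  by_cases hj : j.val < (opp j).val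
  · rw [if_pos hj, filter_SS opp hinv Q lab ε j hj, List.map_map]
    rfl
  · have hj' : (opp j).val < (opp (opp j)).val := by
      have := val_ne opp hne j
      rw [hinv]
      omega
    rw [if_neg hj, filter_SS opp hinv Q lab ε (opp j) hj', List.map_map]
    have h1 := mate_filter opp ord hinv hne Q hn ha hs (opp j)
    rw [hinv] at h1
    rw [← h1, List.map_map, ← List.map_reverse]
    refine List.map_congr_left fun x _ => ?_
    simp only [Function.comp_apply]
    rw [sg_mate opp hinv hne]

/-- The balance on all sides. -/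
def BalQ (σ : S1 w m × Bool → Bool) : Prop :=
  ∀ i : ZMod N, stepSum ((Q.filter fun x => decide (sd opp x = i)).map σ) = 0

include hinv hne in
theorem Bal_SS (hn : Q.Nodup) (ha : ∀ x, x ∈ Q)
    (hs : Q.Pairwise fun a b => ptKey opp w ord (em a) < ptKey opp w ord (em b))
    (lab : S1 w m × Bool → Bool) (ε : S1 w m → Bool) :
    Bal opp (SS opp Q lab ε) ↔ BalQ opp Q (sg opp ε) := by
  constructor
  · intro h i
    by_cases hi : i.val < (opp i).val
    · rw [← steps_SS opp hinv Q lab ε i hi]
      exact h i hi
    · have hi' : (opp i).val < (opp (opp i)).val := by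
        have := val_ne opp hne i
        rw [hinv]
        omega
      have h1 := mate_filter opp ord hinv hne Q hn ha hs (opp i)
      rw [hinv] at h1
      have h2 := h (opp i) hi'
      rw [steps_SS opp hinv Q lab ε (opp i) hi'] at h2
      have h3 : ((Q.filter fun x => decide (sd opp x = opp i)).reverse.map mate).map (sg opp ε) =
          (((Q.filter fun x => decide (sd opp x = opp i)).map (sg opp ε)).map (!·)).reverse := by
        rw [List.map_map, List.map_map, ← List.map_reverse]
        refine List.map_congr_left fun x _ => ?_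
        simp only [Function.comp_apply]
        rw [sg_mate opp hinv hne]
      rw [← h1, h3, stepSum_reverse, stepSum_map_not, h2, neg_zero]
  · intro h i hi
    rw [steps_SS opp hinv Q lab ε i hi]
    exact h i

end sides

end Pool.Agent.AMU.Con
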