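import Pool.Agent.Lib.AMU.Corner

/-!
# Section D, part 1: the order of oriented axes

`CorLt G H`: the normalized axis form of `G` is smaller than the one of `H`, i.e. the right half
plane of the axis of `G` is contained in the one of `H`.
-/

set_option autoImplicit false

namespace Pool.Agent.AMU.Cor

open Matrix

/-- The axis functional. -/
def axisFun (g Q : Matrix (Fin 2) (Fin 2) ℝ) : ℝ := (!![0, -1; 1, 0] * g * Q).trace

/-! ### Binary quadratic forms -/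

theorem cor_form_pos {β m γ : ℝ} (hβ : 0 < β) (hd : m ^ 2 < 4 * β * γ) (x y : ℝ)
    (h : ¬ (x = 0 ∧ y = 0)) : 0 < β * y ^ 2 + m * (x * y) + γ * x ^ 2 := by
  by_cases hx : x = 0
  · have hy : y ≠ 0 := fun hy => h ⟨hx, hy⟩
    subst hx
    have : 0 < y ^ 2 := by positivity
    nlinarith
  · have hx2 : 0 < x ^ 2 := by positivity
    have h1 : 0 < (4 * β * γ - m ^ 2) * x ^ 2 := mul_pos (by linarith) hx2
    have h2 : 0 ≤ (2 * β * y + m * x) ^ 2 := sq_nonneg _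
    have h3 : 0 < (4 * β) * (β * y ^ 2 + m * (x * y) + γ * x ^ 2) := by nlinarith
    exact (mul_pos_iff_of_pos_left (by linarith)).1 h3

theorem cor_psd_pos {β m γ : ℝ} (hβ : 0 < β) (hd : m ^ 2 < 4 * β * γ) {a b c : ℝ} (ha : 0 ≤ a)
    (hc : 0 ≤ c) (hdet : b ^ 2 ≤ a * c) (hne : ¬ (a = 0 ∧ c = 0)) :
    0 < β * c + m * b + γ * a := by
  rcases ha.eq_or_lt with h0 | h0
  · subst h0
    have hb : b = 0 := by
      have : b ^ 2 ≤ 0 := by simpa using hdet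
      exact pow_eq_zero_iff (two_ne_zero) |>.1 (le_antisymm this (sq_nonneg b))
    have hc' : 0 < c := lt_of_le_of_ne hc fun h => hne ⟨rfl, h.symm⟩
    subst hb
    simp only [mul_zero, add_zero]
    exact mul_pos hβ hc'
  · have h1 : 0 < (4 * β * γ - m ^ 2) * a ^ 2 := mul_pos (by linarith) (by positivity)
    have h2 : 0 ≤ (2 * β * b + m * a) ^ 2 := sq_nonneg _
    have h3 : 0 ≤ 4 * β ^ 2 * (a * c - b ^ 2) := mul_nonneg (by positivity) (by linarith)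
    have h4 : 0 < (4 * β * a) * (β * c + m * b + γ * a) := by nlinarith
    exact (mul_pos_iff_of_pos_left (by positivity)).1 h4

/-! ### Entries -/

theorem sl_mul (A B : SpecialLinearGroup (Fin 2) ℝ) : (A * B).1 = A.1 * B.1 := rfl

theorem sl_one : (1 : SpecialLinearGroup (Fin 2) ℝ).1 = 1 := rfl

theorem sl_inv (A : SpecialLinearGroup (Fin 2) ℝ) :
    (A⁻¹).1 = !![A.1 1 1, -A.1 0 1; -A.1 1 0, A.1 0 0] := by
  change adjugate A.1 = _
  rw [adjugate_fin_two]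

theorem sl_det (A : SpecialLinearGroup (Fin 2) ℝ) : A.1 0 0 * A.1 1 1 - A.1 0 1 * A.1 1 0 = 1 := by
  rw [← det_fin_two]
  exact A.2

/-! ### Normalization of the sign -/

/-- The element up to sign with a nonnegative trace. -/
noncomputable def nrm (G : SpecialLinearGroup (Fin 2) ℝ) : SpecialLinearGroup (Fin 2) ℝ :=
  ⟨if 0 ≤ G.1.trace then G.1 else -G.1, by
    split_ifs
    · exact G.2
    · rw [det_neg, Fintype.card_fin, G.2]
      norm_num⟩

theorem nrm_pos {G : SpecialLinearGroup (Fin 2) ℝ} (h : 0 ≤ G.1.trace) : (nrm G).1 = G.1 :=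
  if_pos h

theorem nrm_neg {G : SpecialLinearGroup (Fin 2) ℝ} (h : ¬ 0 ≤ G.1.trace) : (nrm G).1 = -G.1 :=
  if_neg h

theorem trace_conj_sl (G K : SpecialLinearGroup (Fin 2) ℝ) :
    (K * G * K⁻¹).1.trace = G.1.trace := by
  have h : (K * G * K⁻¹).1 = K.1 * G.1 * (K⁻¹).1 := rfl
  have h2 : (K⁻¹).1 * K.1 = 1 := by
    rw [← sl_mul, inv_mul_cancel, sl_one]
  rw [h, trace_mul_comm, ← mul_assoc, h2, one_mul]

theorem trace_inv_sl (G : SpecialLinearGroup (Fin 2) ℝ) : (G⁻¹).1.trace = G.1.trace := by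
  rw [sl_inv, trace_fin_two, trace_fin_two]
  simp [add_comm]

theorem nrm_inv (G : SpecialLinearGroup (Fin 2) ℝ) : nrm G⁻¹ = (nrm G)⁻¹ := by
  apply Subtype.ext
  by_cases h : 0 ≤ G.1.trace
  · rw [nrm_pos (by rwa [trace_inv_sl]), sl_inv, sl_inv, nrm_pos h]
  · rw [nrm_neg (by rwa [trace_inv_sl]), sl_inv, sl_inv, nrm_neg h]
    ext i j
    fin_cases i <;> fin_cases j <;> simp

theorem nrm_conj (G K : SpecialLinearGroup (Fin 2) ℝ) :
    nrm (K * G * K⁻¹) = K * nrm G * K⁻¹ := by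
  apply Subtype.ext
  have h : (K * G * K⁻¹).1 = K.1 * G.1 * (K⁻¹).1 := rfl
  have h' : (K * nrm G * K⁻¹).1 = K.1 * (nrm G).1 * (K⁻¹).1 := rfl
  by_cases h0 : 0 ≤ G.1.trace
  · rw [nrm_pos (by rwa [trace_conj_sl]), h, h', nrm_pos h0]
  · rw [nrm_neg (by rwa [trace_conj_sl]), h, h', nrm_neg h0, Matrix.mul_neg, Matrix.neg_mul]

theorem nrm_trace_sq (G : SpecialLinearGroup (Fin 2) ℝ) :
    (nrm G).1.trace ^ 2 = G.1.trace ^ 2 := by
  by_cases h : 0 ≤ G.1.trace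
  · rw [nrm_pos h]
  · rw [nrm_neg h, trace_neg, neg_sq]

theorem nrm_abs_trace (G : SpecialLinearGroup (Fin 2) ℝ) :
    |(nrm G).1.trace| = |G.1.trace| := by
  by_cases h : 0 ≤ G.1.trace
  · rw [nrm_pos h]
  · rw [nrm_neg h, trace_neg, abs_neg]

theorem nrm_comm (G H : SpecialLinearGroup (Fin 2) ℝ) :
    nrm G * nrm H * (nrm G)⁻¹ * (nrm H)⁻¹ = G * H * G⁻¹ * H⁻¹ := by
  apply Subtype.ext
  have h : (G * H * G⁻¹ * H⁻¹).1 = G.1 * H.1 * (G⁻¹).1 * (H⁻¹).1 := rfl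
  have h' : (nrm G * nrm H * (nrm G)⁻¹ * (nrm H)⁻¹).1 =
    (nrm G).1 * (nrm H).1 * (nrm G⁻¹).1 * (nrm H⁻¹).1 := by
    rw [nrm_inv, nrm_inv]
    rfl
  rw [h, h']
  by_cases h1 : 0 ≤ G.1.trace
  · by_cases h2 : 0 ≤ H.1.trace
    · rw [nrm_pos h1, nrm_pos h2, nrm_pos (G := G⁻¹) (by rwa [trace_inv_sl]),
        nrm_pos (G := H⁻¹) (by rwa [trace_inv_sl])]
    · rw [nrm_pos h1, nrm_neg h2, nrm_pos (G := G⁻¹) (by rwa [trace_inv_sl]),
        nrm_neg (G := H⁻¹) (by rwa [trace_inv_sl])]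
      simp only [Matrix.mul_neg, Matrix.neg_mul, neg_neg]
  · by_cases h2 : 0 ≤ H.1.trace
    · rw [nrm_neg h1, nrm_pos h2, nrm_neg (G := G⁻¹) (by rwa [trace_inv_sl]),
        nrm_pos (G := H⁻¹) (by rwa [trace_inv_sl])]
      simp only [Matrix.mul_neg, Matrix.neg_mul, neg_neg]
    · rw [nrm_neg h1, nrm_neg h2, nrm_neg (G := G⁻¹) (by rwa [trace_inv_sl]),
        nrm_neg (G := H⁻¹) (by rwa [trace_inv_sl])]
      simp only [Matrix.mul_neg, Matrix.neg_mul, neg_neg]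

/-- The corner model with consistent signs; `P` is the set of the elements whose cycles are known
to give the element. -/
structure CornerModel {N : ℕ} (opp : ZMod N → ZMod N) {Γ : Type} [Group Γ] (s : ZMod N → Γ)
    (closed : Prop) where
  hol : Γ →* SpecialLinearGroup (Fin 2) ℝ
  hyp : ∀ g : Γ, g ≠ 1 → 2 < |(hol g).1.trace|
  disc : ∀ T : ℝ, {t : ℝ | t ≤ T ∧ ∃ g : Γ, |(hol g).1.trace| = t}.Finite
  Q : ZMod N → Matrix (Fin 2) (Fin 2) ℝ
  Q_symm : ∀ i, Q i 1 0 = Q i 0 1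
  Q_psd : ∀ i, 0 ≤ Q i 0 0 ∧ 0 ≤ Q i 1 1 ∧ 0 ≤ (Q i).det
  Q_conv : ∀ i j k : ZMod N, i.val < j.val → j.val < k.val → 0 < det3 (Q i) (Q j) (Q k)
  sg : Γ → ZMod N → Bool
  sg_true : ∀ g i, g ≠ 1 → sg g i = true → 0 ≤ axisFun (nrm (hol g)).1 (Q i)
  sg_false : ∀ g i, g ≠ 1 → sg g i = false → axisFun (nrm (hol g)).1 (Q i) ≤ 0
  sg_inv : ∀ g i, g ≠ 1 → sg g⁻¹ i = !sg g i
  sg_start : ∀ g i, g ≠ 1 → sg ((s i)⁻¹ * g * s i) (opp i + 1) = sg g i
  sg_end : ∀ g i, g ≠ 1 → sg ((s i)⁻¹ * g * s i) (opp i) = sg g (i + 1)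
  exists_cross : ∀ g : Γ, g ≠ 1 → ∃ k : Γ, ∃ i j, sg (k * g * k⁻¹) i ≠ sg (k * g * k⁻¹) j
  finite_cross : ∀ g : Γ, g ≠ 1 → {h : Γ | IsConj g h ∧ ∃ i j, sg h i ≠ sg h j}.Finite
  P : Γ → Prop
  P_conj : ∀ g h, IsConj g h → P g → P h
  cycle : ∀ (g : Γ) (n : ℕ) (u : ℕ → ZMod N) (h : ℕ → Γ), g ≠ 1 → P g → ¬ IsProperPower g →
    0 < n → h 0 = g → h n = g → (∀ k < n, 0 < k → h k ≠ g) →
    (∀ k < n, sg (h k) (u k) = true ∧ sg (h k) (u k + 1) = false) →
    (∀ k < n, h (k + 1) = (s (u k))⁻¹ * h k * s (u k)) →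
    ((List.range n).map fun k => s (u k)).prod = g
  θ : ZMod N → ℤ
  θ_opp : ∀ i, θ (opp i) = -θ i
  θ_sq : ∀ i, θ i = 1 ∨ θ i = -1
  sign : ∀ (g : Γ) (n : ℕ) (u : ℕ → ZMod N) (h : ℕ → Γ), g ≠ 1 → P g →
    0 < n → h 0 = g → h n = g →
    (∀ k < n, sg (h k) (u k) = true ∧ sg (h k) (u k + 1) = false) →
    (∀ k < n, h (k + 1) = (s (u k))⁻¹ * h k * s (u k)) →
    ((List.range n).map fun k => s (u k)).prod = g →
    0 < ((∏ k ∈ Finset.range n, θ (u k) *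
      (if (opp (u k)).val < (u ((k + 1) % n)).val then 1 else -1) : ℤ) : ℝ) * (hol g).1.trace
  uncut : closed → ∀ (g : ZMod N → Γ), (∀ i, g i ≠ 1) →
    (∀ i, g (opp (i - 1)) = (s (i - 1))⁻¹ * g i * s (i - 1)) →
    (∀ i, sg (g i) i = true) → ∃ i, sg (g i) (i - 1) = true ∨ sg (g i) (i + 1) = true

/-! ### The normalized axis form -/

/-- The normalized axis form. -/
noncomputable def nform (G : Matrix (Fin 2) (Fin 2) ℝ) (x y : ℝ) : ℝ :=
  (G 0 1 * y ^ 2 + (G 0 0 - G 1 1) * (x * y) - G 1 0 * x ^ 2) / Real.sqrt (G.trace ^ 2 - 4)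

/-- The order of the oriented axes. -/
def CorLt (G H : SpecialLinearGroup (Fin 2) ℝ) : Prop :=
  ∀ x y : ℝ, ¬ (x = 0 ∧ y = 0) → nform G.1 x y < nform H.1 x y

theorem CorLt.trans {G H K : SpecialLinearGroup (Fin 2) ℝ} (h : CorLt G H) (h' : CorLt H K) :
    CorLt G K := fun x y hxy => (h x y hxy).trans (h' x y hxy)

theorem CorLt.irrefl (G : SpecialLinearGroup (Fin 2) ℝ) : ¬ CorLt G G := fun h =>
  lt_irrefl _ (h 1 0 fun h => one_ne_zero h.1)

theorem CorLt.asymm {G H : SpecialLinearGroup (Fin 2) ℝ} (h : CorLt G H) : ¬ CorLt H G :=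
  fun h' => CorLt.irrefl G (h.trans h')

theorem nform_inv (G : SpecialLinearGroup (Fin 2) ℝ) (x y : ℝ) :
    nform (G⁻¹).1 x y = -nform G.1 x y := by
  have h1 := sl_inv G
  have h2 : (G⁻¹).1.trace = G.1.trace := by
    rw [h1, trace_fin_two, trace_fin_two]
    simp [add_comm]
  unfold nform
  rw [h2, h1, ← neg_div]
  congr 1
  simp only [of_apply, cons_val', cons_val_zero, cons_val_one, empty_val', cons_val_fin_one]
  ring

theorem CorLt.inv {G H : SpecialLinearGroup (Fin 2) ℝ} (h : CorLt G H) : CorLt H⁻¹ G⁻¹ := by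
  intro x y hxy
  rw [nform_inv, nform_inv]
  exact neg_lt_neg (h x y hxy)

theorem corLt_inv {G H : SpecialLinearGroup (Fin 2) ℝ} : CorLt H⁻¹ G⁻¹ ↔ CorLt G H :=
  ⟨fun h => by simpa using h.inv, fun h => h.inv⟩

theorem nform_conj (G K : SpecialLinearGroup (Fin 2) ℝ) (x y : ℝ) :
    nform (K * G * K⁻¹).1 x y =
      nform G.1 (K.1 1 1 * x - K.1 0 1 * y) (-K.1 1 0 * x + K.1 0 0 * y) := by
  have hd := sl_det K
  have h2 := trace_conj_sl G K
  unfold nform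
  rw [h2]
  congr 1
  have h1 : (K * G * K⁻¹).1 = K.1 * G.1 * !![K.1 1 1, -K.1 0 1; -K.1 1 0, K.1 0 0] := by
    rw [← sl_inv]
    rfl
  rw [h1]
  simp only [mul_apply, Fin.sum_univ_two, of_apply, cons_val', cons_val_zero, cons_val_one,
    empty_val', cons_val_fin_one]
  ring

theorem CorLt.conj {G H : SpecialLinearGroup (Fin 2) ℝ} (h : CorLt G H)
    (K : SpecialLinearGroup (Fin 2) ℝ) : CorLt (K * G * K⁻¹) (K * H * K⁻¹) := by
  intro x y hxy
  rw [nform_conj, nform_conj]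
  refine h _ _ fun h0 => hxy ?_
  have hd := sl_det K
  obtain ⟨h1, h2⟩ := h0
  constructor
  · linear_combination K.1 0 0 * h1 + K.1 0 1 * h2 - x * hd
  · linear_combination K.1 1 0 * h1 + K.1 1 1 * h2 - y * hd

/-- The coefficients of a difference. -/
theorem CorLt.coeff {G H : SpecialLinearGroup (Fin 2) ℝ} (h : CorLt G H) :
    ∃ β m γ : ℝ, 0 < β ∧ m ^ 2 < 4 * β * γ ∧
      β = H.1 0 1 / Real.sqrt (H.1.trace ^ 2 - 4) - G.1 0 1 / Real.sqrt (G.1.trace ^ 2 - 4) ∧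
      m = (H.1 0 0 - H.1 1 1) / Real.sqrt (H.1.trace ^ 2 - 4) -
        (G.1 0 0 - G.1 1 1) / Real.sqrt (G.1.trace ^ 2 - 4) ∧
      γ = -H.1 1 0 / Real.sqrt (H.1.trace ^ 2 - 4) +
        G.1 1 0 / Real.sqrt (G.1.trace ^ 2 - 4) := by
  refine ⟨_, _, _, ?_, ?_, rfl, rfl, rfl⟩
  · have h1 := h 0 1 (fun h => one_ne_zero h.2)
    unfold nform at h1
    simp only [one_pow, mul_one, mul_zero, add_zero, ne_eq, OfNat.ofNat_ne_zero,
      not_false_eq_true, zero_pow, sub_zero] at h1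
    linarith
  · set p := Real.sqrt (G.1.trace ^ 2 - 4)
    set q := Real.sqrt (H.1.trace ^ 2 - 4)
    have hβ : 0 < H.1 0 1 / q - G.1 0 1 / p := by
      have h1 := h 0 1 (fun h => one_ne_zero h.2)
      unfold nform at h1
      simp only [one_pow, mul_one, mul_zero, add_zero, ne_eq, OfNat.ofNat_ne_zero,
        not_false_eq_true, zero_pow, sub_zero] at h1
      linarith
    set β := H.1 0 1 / q - G.1 0 1 / p with hβd
    set m := (H.1 0 0 - H.1 1 1) / q - (G.1 0 0 - G.1 1 1) / p with hmd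
    set γ := -H.1 1 0 / q + G.1 1 0 / p with hγd
    have h1 := h (2 * β) (-m) (fun h => by nlinarith [h.1])
    have h2 : nform H.1 (2 * β) (-m) - nform G.1 (2 * β) (-m) =
        β * (4 * β * γ - m ^ 2) := by
      unfold nform
      change (H.1 0 1 * (-m) ^ 2 + (H.1 0 0 - H.1 1 1) * (2 * β * -m) - H.1 1 0 * (2 * β) ^ 2) / q -
        (G.1 0 1 * (-m) ^ 2 + (G.1 0 0 - G.1 1 1) * (2 * β * -m) - G.1 1 0 * (2 * β) ^ 2) / p = _
      have h3 : (H.1 0 1 * (-m) ^ 2 + (H.1 0 0 - H.1 1 1) * (2 * β * -m) - H.1 1 0 * (2 * β) ^ 2) / q -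
        (G.1 0 1 * (-m) ^ 2 + (G.1 0 0 - G.1 1 1) * (2 * β * -m) - G.1 1 0 * (2 * β) ^ 2) / p =
        (H.1 0 1 / q - G.1 0 1 / p) * m ^ 2 -
          ((H.1 0 0 - H.1 1 1) / q - (G.1 0 0 - G.1 1 1) / p) * (2 * β * m) +
          (-H.1 1 0 / q + G.1 1 0 / p) * (4 * β ^ 2) := by ring
      rw [h3, ← hβd, ← hmd, ← hγd]
      ring
    have h3 : 0 < β * (4 * β * γ - m ^ 2) := by
      rw [← h2]
      linarith
    have h4 := (mul_pos_iff_of_pos_left hβ).1 h3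
    linarith

/-- The order and the corners. -/
theorem CorLt.not_corner {G H : SpecialLinearGroup (Fin 2) ℝ} (h : CorLt G H)
    (hG : 4 < G.1.trace ^ 2) (hH : 4 < H.1.trace ^ 2) {Q : Matrix (Fin 2) (Fin 2) ℝ}
    (hs : Q 1 0 = Q 0 1) (hp : 0 ≤ Q 0 0 ∧ 0 ≤ Q 1 1 ∧ 0 ≤ Q.det)
    (hne : ¬ (Q 0 0 = 0 ∧ Q 1 1 = 0)) (h1 : 0 ≤ axisFun G.1 Q) (h2 : axisFun H.1 Q ≤ 0) :
    False := by
  obtain ⟨β, m, γ, hβ, hd, eβ, em, eγ⟩ := h.coeff
  have hp' : 0 < Real.sqrt (G.1.trace ^ 2 - 4) := Real.sqrt_pos.2 (by linarith)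
  have hq' : 0 < Real.sqrt (H.1.trace ^ 2 - 4) := Real.sqrt_pos.2 (by linarith)
  have hdet : Q 0 1 ^ 2 ≤ Q 0 0 * Q 1 1 := by
    have := hp.2.2
    rw [det_fin_two, hs] at this
    nlinarith
  have h3 := cor_psd_pos hβ hd hp.1 hp.2.1 hdet hne
  have e : ∀ M : Matrix (Fin 2) (Fin 2) ℝ,
      axisFun M Q = M 0 1 * Q 1 1 + (M 0 0 - M 1 1) * Q 0 1 - M 1 0 * Q 0 0 := by
    intro M
    unfold axisFun
    simp only [trace_fin_two, mul_apply, Fin.sum_univ_two, of_apply, cons_val', cons_val_zero,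
      cons_val_one, empty_val', cons_val_fin_one, hs]
    ring
  rw [e] at h1 h2
  have h4 : β * Q 1 1 + m * Q 0 1 + γ * Q 0 0 =
      (H.1 0 1 * Q 1 1 + (H.1 0 0 - H.1 1 1) * Q 0 1 - H.1 1 0 * Q 0 0) /
        Real.sqrt (H.1.trace ^ 2 - 4) -
      (G.1 0 1 * Q 1 1 + (G.1 0 0 - G.1 1 1) * Q 0 1 - G.1 1 0 * Q 0 0) /
        Real.sqrt (G.1.trace ^ 2 - 4) := by
    rw [eβ, em, eγ]
    ring
  rw [h4] at h3
  have h5 := div_nonpos_of_nonpos_of_nonneg h2 hq'.le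
  have h6 := div_nonneg h1 hp'.le
  linarith

/-- The trace of a commutator. -/
theorem trace_comm_sl (G H : SpecialLinearGroup (Fin 2) ℝ) :
    4 * ((G * H * G⁻¹ * H⁻¹).1.trace - 2) =
      ((G.1 0 0 - G.1 1 1) * (H.1 0 0 - H.1 1 1) + 2 * G.1 0 1 * H.1 1 0 +
        2 * G.1 1 0 * H.1 0 1) ^ 2 - (G.1.trace ^ 2 - 4) * (H.1.trace ^ 2 - 4) := by
  have hG := sl_det G
  have hH := sl_det H
  have h1 : (G * H * G⁻¹ * H⁻¹).1 = G.1 * H.1 * !![G.1 1 1, -G.1 0 1; -G.1 1 0, G.1 0 0] *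
      !![H.1 1 1, -H.1 0 1; -H.1 1 0, H.1 0 0] := by
    rw [← sl_inv, ← sl_inv]
    rfl
  rw [h1]
  simp only [trace_fin_two, mul_apply, Fin.sum_univ_two, of_apply, cons_val', cons_val_zero,
    cons_val_one, empty_val', cons_val_fin_one]
  generalize G.1 0 0 = a at *
  generalize G.1 0 1 = b at *
  generalize G.1 1 0 = c at *
  generalize G.1 1 1 = d at *
  generalize H.1 0 0 = a' at *
  generalize H.1 0 1 = b' at *
  generalize H.1 1 0 = c' at *
  generalize H.1 1 1 = d' at *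
  have key : 4 * (((a * a' + b * c') * d + (a * b' + b * d') * -c) * d' +
      ((a * a' + b * c') * -b + (a * b' + b * d') * a) * -c' +
      (((c * a' + d * c') * d + (c * b' + d * d') * -c) * -b' +
      ((c * a' + d * c') * -b + (c * b' + d * d') * a) * a') -
      2 * (a * d - b * c) * (a' * d' - b' * c')) =
      ((a - d) * (a' - d') + 2 * b * c' + 2 * c * b') ^ 2 -
      ((a + d) ^ 2 - 4 * (a * d - b * c)) * ((a' + d') ^ 2 - 4 * (a' * d' - b' * c')) := by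
    ring
  rw [hG, hH] at key
  linear_combination key

/-- Disjoint axes: one of the four quadrants is empty. -/
theorem corLt_cases {G H : SpecialLinearGroup (Fin 2) ℝ} (hG : 4 < G.1.trace ^ 2)
    (hH : 4 < H.1.trace ^ 2) (h : 2 < (G * H * G⁻¹ * H⁻¹).1.trace) :
    CorLt G H ∨ CorLt H G ∨ CorLt G⁻¹ H ∨ CorLt H G⁻¹ := by
  have hc := trace_comm_sl G H
  have eG := sl_det G
  have eH := sl_det H
  set p := Real.sqrt (G.1.trace ^ 2 - 4) with hp
  set q := Real.sqrt (H.1.trace ^ 2 - 4) with hq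
  have hp0 : 0 < p := Real.sqrt_pos.2 (by linarith)
  have hq0 : 0 < q := Real.sqrt_pos.2 (by linarith)
  have hp2 : p ^ 2 = G.1.trace ^ 2 - 4 := Real.sq_sqrt (by linarith)
  have hq2 : q ^ 2 = H.1.trace ^ 2 - 4 := Real.sq_sqrt (by linarith)
  set S := (G.1 0 0 - G.1 1 1) * (H.1 0 0 - H.1 1 1) + 2 * G.1 0 1 * H.1 1 0 +
        2 * G.1 1 0 * H.1 0 1 with hS
  have h1 : (p * q) ^ 2 < S ^ 2 := by
    rw [mul_pow, hp2, hq2]
    linarith
  have h2 : p * q < |S| := lt_of_pow_lt_pow_left₀ 2 (abs_nonneg _) (by rwa [sq_abs])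
  have nG : ∀ x y, nform G.1 x y =
      (G.1 0 1 * y ^ 2 + (G.1 0 0 - G.1 1 1) * (x * y) - G.1 1 0 * x ^ 2) / p := fun _ _ => rfl
  have nH : ∀ x y, nform H.1 x y =
      (H.1 0 1 * y ^ 2 + (H.1 0 0 - H.1 1 1) * (x * y) - H.1 1 0 * x ^ 2) / q := fun _ _ => rfl
  rw [trace_fin_two] at hp2 hq2
  have aH : (H.1 0 0 - H.1 1 1) ^ 2 + 4 * (H.1 0 1 * H.1 1 0) = q ^ 2 := by
    linear_combination -hq2 - 4 * eH
  have aG : (G.1 0 0 - G.1 1 1) ^ 2 + 4 * (G.1 0 1 * G.1 1 0) = p ^ 2 := by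
    linear_combination -hp2 - 4 * eG
  -- the two definite combinations
  have main : ∀ e : ℝ, e ^ 2 = 1 → p * q < -e * S →
      (∀ x y : ℝ, ¬ (x = 0 ∧ y = 0) → 0 < nform H.1 x y + e * nform G.1 x y) ∨
      (∀ x y : ℝ, ¬ (x = 0 ∧ y = 0) → nform H.1 x y + e * nform G.1 x y < 0) := by
    intro e he hlt
    set β := H.1 0 1 / q + e * (G.1 0 1 / p) with hβ
    set m := (H.1 0 0 - H.1 1 1) / q + e * ((G.1 0 0 - G.1 1 1) / p) with hm
    set γ := -H.1 1 0 / q + e * (-G.1 1 0 / p) with hγ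
    have hform : ∀ x y : ℝ, nform H.1 x y + e * nform G.1 x y =
        β * y ^ 2 + m * (x * y) + γ * x ^ 2 := by
      intro x y
      rw [nG, nH, hβ, hm, hγ]
      ring
    have hdisc : m ^ 2 < 4 * β * γ := by
      have h3 : m ^ 2 - 4 * β * γ = 2 + 2 * e * S / (p * q) := by
        rw [hβ, hm, hγ, hS]
        field_simp
        linear_combination p ^ 2 * aH + q ^ 2 * e ^ 2 * aG + p ^ 2 * q ^ 2 * he
      have h4 : 1 < -(e * S / (p * q)) := by
        rw [← neg_div, lt_div_iff₀ (mul_pos hp0 hq0)]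
        linarith
      have h5 : 2 * e * S / (p * q) = 2 * (e * S / (p * q)) := by ring
      linarith
    have hβ0 : β ≠ 0 := by
      intro h0
      rw [h0, mul_zero, zero_mul] at hdisc
      exact absurd hdisc (not_lt.2 (sq_nonneg m))
    rcases lt_or_gt_of_ne hβ0 with hneg | hpos
    · right
      intro x y hxy
      rw [hform]
      have := cor_form_pos (β := -β) (m := -m) (γ := -γ) (by linarith)
        (by rw [neg_sq]; linarith) x y hxy
      linarith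
    · left
      intro x y hxy
      rw [hform]
      exact cor_form_pos hpos hdisc x y hxy
  rcases abs_cases S with ⟨hS1, hS2⟩ | ⟨hS1, hS2⟩
  · rw [hS1] at h2
    rcases main (-1) (by norm_num) (by linarith) with h | h
    · left
      intro x y hxy
      have := h x y hxy
      linarith
    · right; left
      intro x y hxy
      have := h x y hxy
      linarith
  · rw [hS1] at h2
    rcases main 1 (by norm_num) (by linarith) with h | h
    · right; right; left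
      intro x y hxy
      rw [nform_inv]
      have := h x y hxy
      linarith
    · right; right; right
      intro x y hxy
      rw [nform_inv]
      have := h x y hxy
      linarith

end Pool.Agent.AMU.Cor
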