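import Pool.Agent.Lib.AMU.Cor1

/-!
# Section D, part 2: the signs of the corners
-/

set_option autoImplicit false

namespace Pool.Agent.AMU.Cor

open Matrix

section signs

variable {N : ℕ} [NeZero N]

/-- No four alternating corners. -/
def NoAlt (f : ZMod N → Bool) : Prop :=
  ∀ i j k l : ZMod N, i.val < j.val → j.val < k.val → k.val < l.val → f i = f k → f j = f l →
    f i = f j

theorem cor_val_succ (a : ZMod N) :
    (a.val + 1 < N ∧ (a + 1).val = a.val + 1) ∨ (a.val + 1 = N ∧ (a + 1).val = 0) := by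
  have h1 : a.val < N := ZMod.val_lt a
  have h2 : (a + 1).val = (a.val + 1) % N := by
    rw [← ZMod.val_natCast, Nat.cast_add, Nat.cast_one, ZMod.natCast_zmod_val]
  rcases Nat.lt_or_ge (a.val + 1) N with h | h
  · left
    exact ⟨h, by rw [h2, Nat.mod_eq_of_lt h]⟩
  · right
    have h3 : a.val + 1 = N := by omega
    exact ⟨h3, by rw [h2, h3, Nat.mod_self]⟩

theorem cor_val_ne {f : ZMod N → Bool} {a b : ZMod N} (h : f a ≠ f b) : a.val ≠ b.val :=
  fun he => h (by rw [ZMod.val_injective N he])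

theorem cor_exists_exit {f : ZMod N → Bool} (h : ∃ i j, f i ≠ f j) :
    ∃ i, f i = true ∧ f (i + 1) = false := by
  by_contra hcon
  have h1 : ∀ i, f i = true → f (i + 1) = true := by
    intro i hi
    by_contra h2
    exact hcon ⟨i, hi, by simpa using h2⟩
  have h2 : ∀ i, f i = true → ∀ n : ℕ, f (i + n) = true := by
    intro i hi n
    induction n with
    | zero => simpa using hi
    | succ n ih =>
      have := h1 _ ih
      rw [Nat.cast_add, Nat.cast_one, ← add_assoc]
      exact this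
  have h3 : ∀ i j, f i = true → f j = true := by
    intro i j hi
    have := h2 i hi (j - i).val
    rwa [ZMod.natCast_zmod_val, add_sub_cancel] at this
  obtain ⟨i, j, hij⟩ := h
  cases hi : f i with
  | true =>
    rw [hi, h3 i j hi] at hij
    exact hij rfl
  | false =>
    cases hj : f j with
    | true =>
      rw [h3 j i hj] at hi
      exact Bool.noConfusion hi
    | false =>
      rw [hi, hj] at hij
      exact hij rfl

theorem cor_exists_entry {f : ZMod N → Bool} (h : ∃ i j, f i ≠ f j) :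
    ∃ i, f i = false ∧ f (i + 1) = true := by
  obtain ⟨i, h1, h2⟩ := cor_exists_exit (f := fun i => !f i) (by
    obtain ⟨i, j, hij⟩ := h
    exact ⟨i, j, by simpa using hij⟩)
  exact ⟨i, by simpa using h1, by simpa using h2⟩

omit [NeZero N] in
theorem NoAlt.not {f : ZMod N → Bool} (h : NoAlt f) : NoAlt fun i => !f i := by
  intro i j k l hij hjk hkl h1 h2
  have := h i j k l hij hjk hkl (by simpa using h1) (by simpa using h2)
  simp [this]

omit [NeZero N] in
theorem NoAlt.absurd {f : ZMod N → Bool} (h : NoAlt f) {i j k l : ZMod N} (c : Bool)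
    (hij : i.val < j.val) (hjk : j.val < k.val) (hkl : k.val < l.val) (hi : f i = c)
    (hj : f j = !c) (hk : f k = c) (hl : f l = !c) : False := by
  have := h i j k l hij hjk hkl (hi.trans hk.symm) (hj.trans hl.symm)
  rw [hi, hj] at this
  cases c <;> simp at this

private theorem cor_unique_aux {f : ZMod N → Bool} (h : NoAlt f) {i j : ZMod N}
    (hi : f i = true) (hi' : f (i + 1) = false) (hj : f j = true) (hj' : f (j + 1) = false)
    (hlt : i.val < j.val) : False := by
  have hjN := ZMod.val_lt j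
  have n1 : (i + 1).val ≠ j.val := cor_val_ne (f := f) (by rw [hi', hj]; decide)
  have n2 : (j + 1).val ≠ i.val := cor_val_ne (f := f) (by rw [hj', hi]; decide)
  rcases cor_val_succ i with ⟨_, e1⟩ | ⟨_, e1⟩
  · rcases cor_val_succ j with ⟨_, e2⟩ | ⟨_, e2⟩
    · exact h.absurd (i := i) (j := i + 1) (k := j) (l := j + 1) true (by omega) (by omega)
        (by omega) hi hi' hj hj'
    · exact h.absurd (i := j + 1) (j := i) (k := i + 1) (l := j) false (by omega) (by omega)
        (by omega) hj' hi hi' hj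
  · omega

theorem cor_unique_exit {f : ZMod N → Bool} (h : NoAlt f) {i j : ZMod N}
    (hi : f i = true) (hi' : f (i + 1) = false) (hj : f j = true) (hj' : f (j + 1) = false) :
    i = j := by
  rcases lt_trichotomy i.val j.val with h1 | h1 | h1
  · exact (cor_unique_aux h hi hi' hj hj' h1).elim
  · exact ZMod.val_injective N h1
  · exact (cor_unique_aux h hj hj' hi hi' h1).elim

theorem cor_unique_entry {f : ZMod N → Bool} (h : NoAlt f) {i j : ZMod N}
    (hi : f i = false) (hi' : f (i + 1) = true) (hj : f j = false) (hj' : f (j + 1) = true) :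
    i = j :=
  cor_unique_exit h.not (by simp [hi]) (by simp [hi']) (by simp [hj]) (by simp [hj'])

/-- The cyclic interval between two sides. -/
def VArc (a b i : ZMod N) : Prop :=
  (a.val < b.val ∧ a.val < i.val ∧ i.val < b.val) ∨
    (b.val < a.val ∧ (i.val < b.val ∨ a.val < i.val))

theorem cor_arc_true {f : ZMod N → Bool} (h : NoAlt f) {a b i : ZMod N} (ha : f a = false)
    (hb : f b = true) (hb' : f (b + 1) = false) (hi : f i = true) (hne : i ≠ b) :
    VArc a b i := by
  have n1 : a.val ≠ b.val := cor_val_ne (f := f) (by rw [ha, hb]; decide)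
  have n2 : a.val ≠ i.val := cor_val_ne (f := f) (by rw [ha, hi]; decide)
  have n3 : (b + 1).val ≠ i.val := cor_val_ne (f := f) (by rw [hb', hi]; decide)
  have n4 : i.val ≠ b.val := fun h => hne (ZMod.val_injective N h)
  have hiN := ZMod.val_lt i
  have haN := ZMod.val_lt a
  by_contra hcon
  unfold VArc at hcon
  rcases lt_or_gt_of_ne n1 with hab | hab
  · rcases lt_or_gt_of_ne n2 with hai | hai
    · -- a < b < i
      rcases cor_val_succ b with ⟨_, e2⟩ | ⟨_, e2⟩
      · exact h.absurd (i := a) (j := b) (k := b + 1) (l := i) false (by omega) (by omega)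
          (by omega) ha hb hb' hi
      · omega
    · rcases cor_val_succ b with ⟨_, e2⟩ | ⟨_, e2⟩
      · exact h.absurd (i := i) (j := a) (k := b) (l := b + 1) true (by omega) (by omega)
          (by omega) hi ha hb hb'
      · exact h.absurd (i := b + 1) (j := i) (k := a) (l := b) false (by omega) (by omega)
          (by omega) hb' hi ha hb
  · rcases cor_val_succ b with ⟨_, e2⟩ | ⟨_, e2⟩
    · exact h.absurd (i := b) (j := b + 1) (k := i) (l := a) true (by omega) (by omega)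
        (by omega) hb hb' hi ha
    · omega

theorem cor_arc_false {f : ZMod N → Bool} (h : NoAlt f) {a b i : ZMod N} (ha : f a = false)
    (ha' : f (a + 1) = true) (hb : f b = true) (hi : f i = false) (hne : i ≠ a) :
    ¬ VArc a b i := by
  have n1 : a.val ≠ b.val := cor_val_ne (f := f) (by rw [ha, hb]; decide)
  have n2 : b.val ≠ i.val := cor_val_ne (f := f) (by rw [hb, hi]; decide)
  have n3 : (a + 1).val ≠ i.val := cor_val_ne (f := f) (by rw [ha', hi]; decide)
  have n4 : i.val ≠ a.val := fun h => hne (ZMod.val_injective N h)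
  have hiN := ZMod.val_lt i
  have haN := ZMod.val_lt b
  intro hcon
  unfold VArc at hcon
  rcases hcon with ⟨h1, h2, h3⟩ | ⟨h1, h2 | h2⟩
  · rcases cor_val_succ a with ⟨_, e2⟩ | ⟨_, e2⟩
    · exact h.absurd (i := a) (j := a + 1) (k := i) (l := b) false (by omega) (by omega)
        (by omega) ha ha' hi hb
    · omega
  · rcases cor_val_succ a with ⟨_, e2⟩ | ⟨_, e2⟩
    · exact h.absurd (i := i) (j := b) (k := a) (l := a + 1) false (by omega) (by omega)
        (by omega) hi hb ha ha'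
    · exact h.absurd (i := a + 1) (j := i) (k := b) (l := a) true (by omega) (by omega)
        (by omega) ha' hi hb ha
  · rcases cor_val_succ a with ⟨_, e2⟩ | ⟨_, e2⟩
    · exact h.absurd (i := b) (j := a) (k := a + 1) (l := i) true (by omega) (by omega)
        (by omega) hb ha ha' hi
    · omega

/-! ### Keys -/

/-- The cyclic interval between two keys. -/
def KArc (A B K : ℤ ×ₗ ℤ) : Prop := (A < B ∧ A < K ∧ K < B) ∨ (B < A ∧ (K < B ∨ A < K))

omit [NeZero N] in
theorem cor_karc_iff {a b i : ZMod N} (hab : a.val ≠ b.val) (ha : i.val ≠ a.val)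
    (hb : i.val ≠ b.val) (x y z : ℤ) :
    KArc (toLex ((a.val : ℤ), x)) (toLex ((b.val : ℤ), y)) (toLex ((i.val : ℤ), z)) ↔
      VArc a b i := by
  unfold KArc VArc
  simp only [Prod.Lex.toLex_lt_toLex]
  omega

omit [NeZero N] in
theorem cor_karc_right {a b : ZMod N} (hab : a.val ≠ b.val) (x y z : ℤ) :
    KArc (toLex ((a.val : ℤ), x)) (toLex ((b.val : ℤ), y)) (toLex ((b.val : ℤ), z)) ↔
      (toLex ((b.val : ℤ), z) : ℤ ×ₗ ℤ) < toLex ((b.val : ℤ), y) := by
  unfold KArc
  simp only [Prod.Lex.toLex_lt_toLex, true_and, lt_self_iff_false, false_or]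
  omega

omit [NeZero N] in
theorem cor_karc_left {a b : ZMod N} (hab : a.val ≠ b.val) (x y z : ℤ) :
    KArc (toLex ((a.val : ℤ), x)) (toLex ((b.val : ℤ), y)) (toLex ((a.val : ℤ), z)) ↔
      (toLex ((a.val : ℤ), x) : ℤ ×ₗ ℤ) < toLex ((a.val : ℤ), z) := by
  unfold KArc
  simp only [Prod.Lex.toLex_lt_toLex, true_and, lt_self_iff_false, false_or]
  omega

end signs

/-- The combinatorial noncrossing condition. -/
theorem cor_noncross_of_arc {α : Type*} [LinearOrder α] {A B A' B' : α}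
    {P : α → Prop} (hP : ∀ x, P x ↔ (A' < B' ∧ A' < x ∧ x < B') ∨ (B' < A' ∧ (x < B' ∨ A' < x)))
    (h : (P A ∧ P B) ∨ (¬ P A ∧ ¬ P B)) :
    ¬ (min A' B' < min A B ∧ min A B < max A' B' ∧ max A' B' < max A B) := by
  rintro ⟨h1, h2, h3⟩
  rw [hP, hP] at h
  rcases le_total A' B' with h4 | h4 <;> rcases le_total A B with h5 | h5 <;>
    simp only [min_eq_left, min_eq_right, max_eq_left, max_eq_right, h4, h5] at h1 h2 h3
  · have hl : A' < B' := h1.trans h2
    rcases h with ⟨_, h6⟩ | ⟨h6, _⟩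
    · rcases h6 with ⟨_, _, h7⟩ | ⟨h7, _⟩
      · exact absurd h7 (not_lt.2 h3.le)
      · exact absurd h7 (not_lt.2 hl.le)
    · exact h6 (Or.inl ⟨hl, h1, h2⟩)
  · have hl : A' < B' := h1.trans h2
    rcases h with ⟨h6, _⟩ | ⟨_, h6⟩
    · rcases h6 with ⟨_, _, h7⟩ | ⟨h7, _⟩
      · exact absurd h7 (not_lt.2 h3.le)
      · exact absurd h7 (not_lt.2 hl.le)
    · exact h6 (Or.inl ⟨hl, h1, h2⟩)
  · have hl : B' < A' := h1.trans h2
    rcases h with ⟨h6, _⟩ | ⟨_, h6⟩
    · rcases h6 with ⟨h7, _⟩ | ⟨_, h7 | h7⟩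
      · exact absurd h7 (not_lt.2 hl.le)
      · exact absurd h7 (not_lt.2 h1.le)
      · exact absurd h7 (not_lt.2 h2.le)
    · exact h6 (Or.inr ⟨hl, Or.inr h3⟩)
  · have hl : B' < A' := h1.trans h2
    rcases h with ⟨_, h6⟩ | ⟨h6, _⟩
    · rcases h6 with ⟨h7, _⟩ | ⟨_, h7 | h7⟩
      · exact absurd h7 (not_lt.2 hl.le)
      · exact absurd h7 (not_lt.2 h1.le)
      · exact absurd h7 (not_lt.2 h2.le)
    · exact h6 (Or.inr ⟨hl, Or.inr h3⟩)

/-! ### The signs of an element -/

theorem cor_axisFun (M Q : Matrix (Fin 2) (Fin 2) ℝ) (hs : Q 1 0 = Q 0 1) :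
    axisFun M Q = M 0 1 * Q 1 1 + (M 0 0 - M 1 1) * Q 0 1 - M 1 0 * Q 0 0 := by
  unfold axisFun
  simp only [trace_fin_two, mul_apply, Fin.sum_univ_two, of_apply, cons_val', cons_val_zero,
    cons_val_one, empty_val', cons_val_fin_one, hs]
  ring

theorem cor_det3 (P Q R : Matrix (Fin 2) (Fin 2) ℝ) :
    det3 P Q R = P 1 1 * (Q 0 1 * R 0 0 - Q 0 0 * R 0 1) -
      P 0 1 * (Q 1 1 * R 0 0 - Q 0 0 * R 1 1) + P 0 0 * (Q 1 1 * R 0 1 - Q 0 1 * R 1 1) := by
  unfold det3
  rw [det_fin_three]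
  simp only [of_apply, cons_val', cons_val_zero, cons_val_one, empty_val', cons_val_fin_one,
    cons_val]
  ring

theorem cor_four {G P Q R S : Matrix (Fin 2) (Fin 2) ℝ} (hP : P 1 0 = P 0 1) (hQ : Q 1 0 = Q 0 1)
    (hR : R 1 0 = R 0 1) (hS : S 1 0 = S 0 1) (h1 : 0 < det3 P Q R) (h2 : 0 < det3 P Q S)
    (h3 : 0 < det3 P R S) (h4 : 0 < det3 Q R S) (n1 : 0 ≤ axisFun G P) (n2 : axisFun G Q ≤ 0)
    (n3 : 0 ≤ axisFun G R) (n4 : axisFun G S ≤ 0) :
    G 0 1 = 0 ∧ G 1 0 = 0 ∧ G 0 0 = G 1 1 := by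
  have key : det3 Q R S * axisFun G P - det3 P R S * axisFun G Q + det3 P Q S * axisFun G R -
      det3 P Q R * axisFun G S = 0 := by
    rw [cor_axisFun _ _ hP, cor_axisFun _ _ hQ, cor_axisFun _ _ hR, cor_axisFun _ _ hS,
      cor_det3, cor_det3, cor_det3, cor_det3]
    ring
  have e1 := mul_nonneg h4.le n1
  have e2 := mul_nonneg h3.le (neg_nonneg.2 n2)
  have e3 := mul_nonneg h2.le n3
  have e4 := mul_nonneg h1.le (neg_nonneg.2 n4)
  have z1 : axisFun G P = 0 := by
    have : det3 Q R S * axisFun G P = 0 := by linarith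
    rcases mul_eq_zero.1 this with h | h
    · exact absurd h h4.ne'
    · exact h
  have z2 : axisFun G Q = 0 := by
    have : det3 P R S * axisFun G Q = 0 := by linarith
    rcases mul_eq_zero.1 this with h | h
    · exact absurd h h3.ne'
    · exact h
  have z3 : axisFun G R = 0 := by
    have : det3 P Q S * axisFun G R = 0 := by linarith
    rcases mul_eq_zero.1 this with h | h
    · exact absurd h h2.ne'
    · exact h
  rw [cor_axisFun _ _ hP] at z1
  rw [cor_axisFun _ _ hQ] at z2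
  rw [cor_axisFun _ _ hR] at z3
  rw [cor_det3] at h1
  have w1 : G 0 1 * (P 1 1 * (Q 0 1 * R 0 0 - Q 0 0 * R 0 1) -
      P 0 1 * (Q 1 1 * R 0 0 - Q 0 0 * R 1 1) + P 0 0 * (Q 1 1 * R 0 1 - Q 0 1 * R 1 1)) = 0 := by
    linear_combination (Q 0 1 * R 0 0 - Q 0 0 * R 0 1) * z1 -
      (P 0 1 * R 0 0 - P 0 0 * R 0 1) * z2 + (P 0 1 * Q 0 0 - P 0 0 * Q 0 1) * z3
  have w2 : (G 0 0 - G 1 1) * (P 1 1 * (Q 0 1 * R 0 0 - Q 0 0 * R 0 1) -
      P 0 1 * (Q 1 1 * R 0 0 - Q 0 0 * R 1 1) + P 0 0 * (Q 1 1 * R 0 1 - Q 0 1 * R 1 1)) = 0 := by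
    linear_combination -(Q 1 1 * R 0 0 - Q 0 0 * R 1 1) * z1 +
      (P 1 1 * R 0 0 - P 0 0 * R 1 1) * z2 - (P 1 1 * Q 0 0 - P 0 0 * Q 1 1) * z3
  have w3 : G 1 0 * (P 1 1 * (Q 0 1 * R 0 0 - Q 0 0 * R 0 1) -
      P 0 1 * (Q 1 1 * R 0 0 - Q 0 0 * R 1 1) + P 0 0 * (Q 1 1 * R 0 1 - Q 0 1 * R 1 1)) = 0 := by
    linear_combination -(Q 1 1 * R 0 1 - Q 0 1 * R 1 1) * z1 +
      (P 1 1 * R 0 1 - P 0 1 * R 1 1) * z2 - (P 1 1 * Q 0 1 - P 0 1 * Q 1 1) * z3
  refine ⟨?_, ?_, ?_⟩
  · exact (mul_eq_zero.1 w1).resolve_right h1.ne'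
  · exact (mul_eq_zero.1 w3).resolve_right h1.ne'
  · exact sub_eq_zero.1 ((mul_eq_zero.1 w2).resolve_right h1.ne')

theorem cor_neg_axisFun (G Q : Matrix (Fin 2) (Fin 2) ℝ) : axisFun (-G) Q = -axisFun G Q := by
  unfold axisFun
  rw [Matrix.mul_neg, Matrix.neg_mul, Matrix.trace_neg]

theorem cor_not_scalar {G : SpecialLinearGroup (Fin 2) ℝ} (h : 2 < |G.1.trace|)
    (h1 : G.1 0 1 = 0) (h2 : G.1 1 0 = 0) (h3 : G.1 0 0 = G.1 1 1) : False := by
  have hd := sl_det G
  rw [trace_fin_two] at h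
  rw [h1, h3] at hd
  rw [h3] at h
  have h4 : (G.1 1 1) ^ 2 = 1 := by linarith [hd, sq (G.1 1 1), h2]
  rcases sq_eq_one_iff.1 h4 with h5 | h5 <;> rw [h5] at h <;> norm_num at h

namespace CornerModel

variable {N : ℕ} {opp : ZMod N → ZMod N} {Γ : Type} [Group Γ] {s : ZMod N → Γ} {closed : Prop}
  (C : CornerModel opp s closed)
include C

theorem nhyp {g : Γ} (hg : g ≠ 1) : 2 < |(nrm (C.hol g)).1.trace| := by
  rw [nrm_abs_trace]
  exact C.hyp g hg

theorem noAlt {g : Γ} (hg : g ≠ 1) : NoAlt (C.sg g) := by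
  intro i j k l hij hjk hkl h1 h2
  by_contra hne
  have q1 := C.Q_conv i j k hij hjk
  have q2 := C.Q_conv i j l hij (hjk.trans hkl)
  have q3 := C.Q_conv i k l (hij.trans hjk) hkl
  have q4 := C.Q_conv j k l hjk hkl
  cases hi : C.sg g i with
  | true =>
    have hj : C.sg g j = false := by
      rw [hi] at hne
      cases hj : C.sg g j with
      | true => exact absurd hj.symm hne
      | false => rfl
    rw [hi] at h1
    rw [hj] at h2
    obtain ⟨e1, e2, e3⟩ := cor_four (C.Q_symm i) (C.Q_symm j) (C.Q_symm k) (C.Q_symm l) q1 q2 q3 q4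
      (C.sg_true g i hg hi) (C.sg_false g j hg hj) (C.sg_true g k hg h1.symm)
      (C.sg_false g l hg h2.symm)
    exact cor_not_scalar (C.nhyp hg) e1 e2 e3
  | false =>
    have hj : C.sg g j = true := by
      rw [hi] at hne
      cases hj : C.sg g j with
      | false => exact absurd hj.symm hne
      | true => rfl
    rw [hi] at h1
    rw [hj] at h2
    have m1 := C.sg_false g i hg hi
    have m2 := C.sg_true g j hg hj
    have m3 := C.sg_false g k hg h1.symm
    have m4 := C.sg_true g l hg h2.symm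
    obtain ⟨e1, e2, e3⟩ := cor_four (G := -(nrm (C.hol g)).1) (C.Q_symm i) (C.Q_symm j) (C.Q_symm k)
      (C.Q_symm l) q1 q2 q3 q4 (by rw [cor_neg_axisFun]; linarith)
      (by rw [cor_neg_axisFun]; linarith) (by rw [cor_neg_axisFun]; linarith)
      (by rw [cor_neg_axisFun]; linarith)
    simp only [Matrix.neg_apply, neg_eq_zero, neg_inj] at e1 e2 e3
    exact cor_not_scalar (C.nhyp hg) e1 e2 e3

end CornerModel

end Pool.Agent.AMU.Cor
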