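import Pool.Agent.Lib.AMU.Cor2

/-!
# Section D, part 3: disjoint axes have disjoint chords
-/

set_option autoImplicit false

namespace Pool.Agent.AMU.Cor

open Matrix

namespace CornerModel

variable {N : ℕ} {opp : ZMod N → ZMod N} {Γ : Type} [Group Γ] {s : ZMod N → Γ} {closed : Prop}
  (C : CornerModel opp s closed)

/-- The order of the oriented axes of the elements of the group. -/
def Lt (g h : Γ) : Prop := CorLt (nrm (C.hol g)) (nrm (C.hol h))

variable {C}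

theorem Lt.trans {g h k : Γ} (h1 : C.Lt g h) (h2 : C.Lt h k) : C.Lt g k := CorLt.trans h1 h2

theorem Lt.asymm {g h : Γ} (h1 : C.Lt g h) : ¬ C.Lt h g := CorLt.asymm h1

theorem Lt.inv {g h : Γ} (h1 : C.Lt g h) : C.Lt h⁻¹ g⁻¹ := by
  unfold Lt
  rw [map_inv, map_inv, nrm_inv, nrm_inv]
  exact CorLt.inv h1

theorem lt_inv_iff {g h : Γ} : C.Lt h⁻¹ g⁻¹ ↔ C.Lt g h :=
  ⟨fun h1 => by simpa using h1.inv, fun h1 => h1.inv⟩

theorem Lt.conj {g h : Γ} (h1 : C.Lt g h) (k : Γ) : C.Lt (k * g * k⁻¹) (k * h * k⁻¹) := by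
  unfold Lt
  rw [map_mul, map_mul, map_mul, map_mul, map_inv, nrm_conj, nrm_conj]
  exact CorLt.conj h1 _

theorem lt_conj_iff {g h : Γ} (k : Γ) : C.Lt (k⁻¹ * g * k) (k⁻¹ * h * k) ↔ C.Lt g h := by
  constructor
  · intro h1
    have := h1.conj k
    have e : ∀ x : Γ, k * (k⁻¹ * x * k) * k⁻¹ = x := fun x => by group
    rwa [e, e] at this
  · intro h1
    have := h1.conj k⁻¹
    rwa [inv_inv] at this

variable (C)

theorem four_lt {g : Γ} (hg : g ≠ 1) : 4 < (C.hol g).1.trace ^ 2 := by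
  have h1 := C.hyp g hg
  rw [← sq_abs]
  nlinarith

theorem four_lt' {g : Γ} (hg : g ≠ 1) : 4 < (nrm (C.hol g)).1.trace ^ 2 := by
  rw [nrm_trace_sq]
  exact C.four_lt hg

theorem lt_cases {g h : Γ} (hg : g ≠ 1) (hh : h ≠ 1)
    (hc : 2 < (C.hol (g * h * g⁻¹ * h⁻¹)).1.trace) :
    C.Lt g h ∨ C.Lt h g ∨ C.Lt g⁻¹ h ∨ C.Lt h g⁻¹ := by
  have h1 := corLt_cases (C.four_lt' hg) (C.four_lt' hh) (by
    have e : C.hol (g * h * g⁻¹ * h⁻¹) = C.hol g * C.hol h * (C.hol g)⁻¹ * (C.hol h)⁻¹ := by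
      rw [map_mul, map_mul, map_mul, map_inv, map_inv]
    rw [e] at hc
    rw [nrm_comm]
    exact hc)
  unfold Lt
  rw [map_inv, nrm_inv]
  exact h1

/-- Disjoint axes. -/
def Dis (e f : Γ) : Prop := C.Lt e f ∨ C.Lt f e ∨ C.Lt e⁻¹ f ∨ C.Lt f e⁻¹

theorem Q_ne (hN : 3 ≤ N) (i : ZMod N) : ¬ (C.Q i 0 0 = 0 ∧ C.Q i 1 1 = 0) := by
  rintro ⟨h1, h2⟩
  have : NeZero N := ⟨by omega⟩
  have : Fact (1 < N) := ⟨by omega⟩
  have h3 : C.Q i 0 1 = 0 := by
    have h4 := (C.Q_psd i).2.2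
    rw [det_fin_two, h1, C.Q_symm i] at h4
    have : C.Q i 0 1 ^ 2 ≤ 0 := by nlinarith
    exact pow_eq_zero_iff (two_ne_zero) |>.1 (le_antisymm this (sq_nonneg _))
  have v0 : (0 : ZMod N).val = 0 := ZMod.val_zero
  have v1 : (1 : ZMod N).val = 1 := ZMod.val_one N
  have v2 : ((2 : ℕ) : ZMod N).val = 2 := by
    rw [ZMod.val_natCast]
    exact Nat.mod_eq_of_lt hN
  have hz : ∀ P R : Matrix (Fin 2) (Fin 2) ℝ, det3 (C.Q i) P R = 0 ∧ det3 P (C.Q i) R = 0 ∧
      det3 P R (C.Q i) = 0 := by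
    intro P R
    refine ⟨?_, ?_, ?_⟩ <;> rw [cor_det3, h1, h2, h3] <;> ring
  rcases Nat.lt_or_ge i.val 1 with h | h
  · have h5 := C.Q_conv i 1 ((2 : ℕ) : ZMod N) (by omega) (by omega)
    rw [(hz _ _).1] at h5
    exact lt_irrefl _ h5
  · rcases Nat.lt_or_ge i.val 2 with h' | h'
    · have h5 := C.Q_conv 0 i ((2 : ℕ) : ZMod N) (by omega) (by omega)
      rw [(hz _ _).2.1] at h5
      exact lt_irrefl _ h5
    · have h5 := C.Q_conv 0 1 i (by omega) (by omega)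
      rw [(hz _ _).2.2] at h5
      exact lt_irrefl _ h5

variable {C}

theorem Lt.sg_true (hN : 3 ≤ N) {g h : Γ} (hl : C.Lt g h) (hg : g ≠ 1) (hh : h ≠ 1) {i : ZMod N}
    (hi : C.sg g i = true) : C.sg h i = true := by
  by_contra hcon
  have h2 : C.sg h i = false := by simpa using hcon
  exact CorLt.not_corner hl (C.four_lt' hg) (C.four_lt' hh) (C.Q_symm i) (C.Q_psd i)
    (C.Q_ne hN i) (C.sg_true g i hg hi) (C.sg_false h i hh h2)

theorem Lt.sg_false (hN : 3 ≤ N) {g h : Γ} (hl : C.Lt g h) (hg : g ≠ 1) (hh : h ≠ 1) {i : ZMod N}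
    (hi : C.sg h i = false) : C.sg g i = false := by
  by_contra hcon
  have h2 : C.sg g i = true := by simpa using hcon
  rw [hl.sg_true hN hg hh h2] at hi
  exact Bool.noConfusion hi

variable (C)

theorem sg_inv_true {g : Γ} (hg : g ≠ 1) {i : ZMod N} (h : C.sg g i = false) :
    C.sg g⁻¹ i = true := by
  rw [C.sg_inv g i hg, h]
  rfl

theorem sg_inv_false {g : Γ} (hg : g ≠ 1) {i : ZMod N} (h : C.sg g i = true) :
    C.sg g⁻¹ i = false := by
  rw [C.sg_inv g i hg, h]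
  rfl

/-- The side of a point with respect to an axis. -/
theorem arc_of_lt (hN : 3 ≤ N) {e h : Γ} (he : e ≠ 1) (hh : h ≠ 1) {i a b : ZMod N} {x y z : ℤ}
    (e1 : C.sg e i = true) (e2 : C.sg e (i + 1) = false)
    (ha : C.sg h a = false) (ha' : C.sg h (a + 1) = true)
    (hb : C.sg h b = true) (hb' : C.sg h (b + 1) = false)
    (kb : i = b → ((toLex ((i.val : ℤ), z) : ℤ ×ₗ ℤ) < toLex ((b.val : ℤ), y) ↔ C.Lt e h))
    (ka : i = a → ((toLex ((a.val : ℤ), x) : ℤ ×ₗ ℤ) < toLex ((i.val : ℤ), z) ↔ C.Lt h⁻¹ e)) :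
    (C.Lt e h ∨ C.Lt e⁻¹ h →
      KArc (toLex ((a.val : ℤ), x)) (toLex ((b.val : ℤ), y)) (toLex ((i.val : ℤ), z))) ∧
    (C.Lt h e ∨ C.Lt h e⁻¹ →
      ¬ KArc (toLex ((a.val : ℤ), x)) (toLex ((b.val : ℤ), y)) (toLex ((i.val : ℤ), z))) := by
  have : NeZero N := ⟨by omega⟩
  have hno := C.noAlt hh
  have hab : a.val ≠ b.val := cor_val_ne (f := C.sg h) (by rw [ha, hb]; decide)
  have he' : e⁻¹ ≠ 1 := inv_ne_one.2 he
  have cT : C.sg h i = true → C.sg h (i + 1) = true →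
      KArc (toLex ((a.val : ℤ), x)) (toLex ((b.val : ℤ), y)) (toLex ((i.val : ℤ), z)) := by
    intro h1 h2
    have nb : i ≠ b := by
      rintro rfl
      rw [h2] at hb'
      exact Bool.noConfusion hb'
    have na : i ≠ a := by
      rintro rfl
      rw [h1] at ha
      exact Bool.noConfusion ha
    rw [cor_karc_iff hab (fun h => na (ZMod.val_injective N h))
      (fun h => nb (ZMod.val_injective N h))]
    exact cor_arc_true hno ha hb hb' h1 nb
  have cF : C.sg h i = false → C.sg h (i + 1) = false →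
      ¬ KArc (toLex ((a.val : ℤ), x)) (toLex ((b.val : ℤ), y)) (toLex ((i.val : ℤ), z)) := by
    intro h1 h2
    have nb : i ≠ b := by
      rintro rfl
      rw [h1] at hb
      exact Bool.noConfusion hb
    have na : i ≠ a := by
      rintro rfl
      rw [h2] at ha'
      exact Bool.noConfusion ha'
    rw [cor_karc_iff hab (fun h => na (ZMod.val_injective N h))
      (fun h => nb (ZMod.val_injective N h))]
    exact cor_arc_false hno ha ha' hb h1 na
  constructor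
  · rintro (hl | hl)
    · have h1 := hl.sg_true hN he hh e1
      cases h2 : C.sg h (i + 1) with
      | true => exact cT h1 h2
      | false =>
        obtain rfl := cor_unique_exit hno h1 h2 hb hb'
        rw [cor_karc_right hab, kb rfl]
        exact hl
    · have h2 := hl.sg_true hN he' hh (C.sg_inv_true he e2)
      cases h1 : C.sg h i with
      | true => exact cT h1 h2
      | false =>
        obtain rfl := cor_unique_entry hno h1 h2 ha ha'
        rw [cor_karc_left hab, ka rfl]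
        have := hl.inv
        rwa [inv_inv] at this
  · rintro (hl | hl)
    · have h2 := hl.sg_false hN hh he e2
      cases h1 : C.sg h i with
      | false => exact cF h1 h2
      | true =>
        obtain rfl := cor_unique_exit hno h1 h2 hb hb'
        rw [cor_karc_right hab, kb rfl]
        exact hl.asymm
    · have h1 := hl.sg_false hN hh he' (C.sg_inv_false he e1)
      cases h2 : C.sg h (i + 1) with
      | false => exact cF h1 h2
      | true =>
        obtain rfl := cor_unique_entry hno h1 h2 ha ha'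
        rw [cor_karc_left hab, ka rfl]
        have := hl.inv
        rw [inv_inv] at this
        exact this.asymm

/-- The chords of disjoint axes do not cross. -/
theorem noncross (hN : 3 ≤ N) {g h : Γ} (hg : g ≠ 1) (hh : h ≠ 1)
    (hc : C.Dis g h) {a b a' b' : ZMod N} {x y x' y' : ℤ}
    (ga : C.sg g a = false) (ga' : C.sg g (a + 1) = true)
    (gb : C.sg g b = true) (gb' : C.sg g (b + 1) = false)
    (ha : C.sg h a' = false) (ha' : C.sg h (a' + 1) = true)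
    (hb : C.sg h b' = true) (hb' : C.sg h (b' + 1) = false)
    (k1 : b = b' → ((toLex ((b.val : ℤ), y) : ℤ ×ₗ ℤ) < toLex ((b'.val : ℤ), y') ↔ C.Lt g h))
    (k2 : b = a' → ((toLex ((a'.val : ℤ), x') : ℤ ×ₗ ℤ) < toLex ((b.val : ℤ), y) ↔ C.Lt h⁻¹ g))
    (k3 : a = b' → ((toLex ((a.val : ℤ), x) : ℤ ×ₗ ℤ) < toLex ((b'.val : ℤ), y') ↔ C.Lt g⁻¹ h))
    (k4 : a = a' → ((toLex ((a'.val : ℤ), x') : ℤ ×ₗ ℤ) < toLex ((a.val : ℤ), x) ↔
      C.Lt h⁻¹ g⁻¹)) :
    ¬ (min (toLex ((a'.val : ℤ), x') : ℤ ×ₗ ℤ) (toLex ((b'.val : ℤ), y')) <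
        min (toLex ((a.val : ℤ), x)) (toLex ((b.val : ℤ), y)) ∧
      min (toLex ((a.val : ℤ), x) : ℤ ×ₗ ℤ) (toLex ((b.val : ℤ), y)) <
        max (toLex ((a'.val : ℤ), x')) (toLex ((b'.val : ℤ), y')) ∧
      max (toLex ((a'.val : ℤ), x') : ℤ ×ₗ ℤ) (toLex ((b'.val : ℤ), y')) <
        max (toLex ((a.val : ℤ), x)) (toLex ((b.val : ℤ), y))) := by
  obtain ⟨o1, o2⟩ := C.arc_of_lt hN (z := y) (x := x') (y := y') hg hh gb gb' ha ha' hb hb' k1 k2
  obtain ⟨i1, i2⟩ := C.arc_of_lt hN (z := x) (x := x') (y := y') (inv_ne_one.2 hg) hh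
    (C.sg_inv_true hg ga) (C.sg_inv_false hg ga') ha ha' hb hb' k3 k4
  rw [inv_inv] at i1 i2
  refine cor_noncross_of_arc
    (P := KArc (toLex ((a'.val : ℤ), x')) (toLex ((b'.val : ℤ), y'))) (fun x => Iff.rfl) ?_
  rcases hc with hl | hl | hl | hl
  · exact Or.inl ⟨i1 (Or.inr hl), o1 (Or.inl hl)⟩
  · exact Or.inr ⟨i2 (Or.inr hl), o2 (Or.inl hl)⟩
  · exact Or.inl ⟨i1 (Or.inl hl), o1 (Or.inr hl)⟩
  · exact Or.inr ⟨i2 (Or.inl hl), o2 (Or.inr hl)⟩

end CornerModel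

end Pool.Agent.AMU.Cor
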