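import Pool.Agent.Lib.AMU.Cor3

/-!
# Section D, part 4: centralizers of primitive elements
-/

set_option autoImplicit false

namespace Pool.Agent.AMU.Cor

open Matrix

/-- `(x, y)` is an eigenvector of `K` with the eigenvalue `μ`. -/
def CorEig (x y : ℝ) (K : SpecialLinearGroup (Fin 2) ℝ) (μ : ℝ) : Prop :=
  K.1 0 0 * x + K.1 0 1 * y = μ * x ∧ K.1 1 0 * x + K.1 1 1 * y = μ * y

theorem CorEig.one (x y : ℝ) : CorEig x y 1 1 := by
  unfold CorEig
  rw [sl_one]
  simp

theorem CorEig.mul {x y : ℝ} {K L : SpecialLinearGroup (Fin 2) ℝ} {μ ν : ℝ}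
    (h : CorEig x y K μ) (h' : CorEig x y L ν) : CorEig x y (K * L) (μ * ν) := by
  obtain ⟨h1, h2⟩ := h
  obtain ⟨h3, h4⟩ := h'
  unfold CorEig
  rw [sl_mul]
  simp only [mul_apply, Fin.sum_univ_two]
  constructor
  · linear_combination K.1 0 0 * h3 + K.1 0 1 * h4 + ν * h1
  · linear_combination K.1 1 0 * h3 + K.1 1 1 * h4 + ν * h2

/-- The eigenvalue equation. -/
theorem CorEig.char {x y : ℝ} (hne : ¬ (x = 0 ∧ y = 0)) {K : SpecialLinearGroup (Fin 2) ℝ} {μ : ℝ}
    (h : CorEig x y K μ) : μ ^ 2 - K.1.trace * μ + 1 = 0 := by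
  obtain ⟨h1, h2⟩ := h
  have hd := sl_det K
  rw [trace_fin_two]
  have e1 : (μ ^ 2 - (K.1 0 0 + K.1 1 1) * μ + 1) * x = 0 := by
    linear_combination (K.1 1 1 - μ) * h1 - K.1 0 1 * h2 - x * hd
  have e2 : (μ ^ 2 - (K.1 0 0 + K.1 1 1) * μ + 1) * y = 0 := by
    linear_combination (K.1 0 0 - μ) * h2 - K.1 1 0 * h1 - y * hd
  by_contra hcon
  exact hne ⟨(mul_eq_zero.1 e1).resolve_left hcon, (mul_eq_zero.1 e2).resolve_left hcon⟩

theorem CorEig.ne_zero {x y : ℝ} (hne : ¬ (x = 0 ∧ y = 0)) {K : SpecialLinearGroup (Fin 2) ℝ}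
    {μ : ℝ} (h : CorEig x y K μ) : μ ≠ 0 := by
  rintro rfl
  have := h.char hne
  norm_num at this

theorem CorEig.trace {x y : ℝ} (hne : ¬ (x = 0 ∧ y = 0)) {K : SpecialLinearGroup (Fin 2) ℝ}
    {μ : ℝ} (h : CorEig x y K μ) : K.1.trace = μ + μ⁻¹ := by
  have h0 := h.ne_zero hne
  have h1 := h.char hne
  field_simp
  linear_combination -h1

theorem CorEig.inv {x y : ℝ} (hne : ¬ (x = 0 ∧ y = 0)) {K : SpecialLinearGroup (Fin 2) ℝ}
    {μ : ℝ} (h : CorEig x y K μ) : CorEig x y K⁻¹ μ⁻¹ := by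
  have h0 := h.ne_zero hne
  obtain ⟨h1, h2⟩ := h
  have hd := sl_det K
  unfold CorEig
  rw [sl_inv]
  simp only [of_apply, cons_val', cons_val_zero, cons_val_one, empty_val', cons_val_fin_one]
  constructor
  · field_simp
    linear_combination -(K.1 1 1) * h1 + K.1 0 1 * h2 + x * hd
  · field_simp
    linear_combination K.1 1 0 * h1 - (K.1 0 0) * h2 + y * hd

theorem CorEig.zpow {x y : ℝ} (hne : ¬ (x = 0 ∧ y = 0)) {K : SpecialLinearGroup (Fin 2) ℝ}
    {μ : ℝ} (h : CorEig x y K μ) (n : ℤ) : CorEig x y (K ^ n) (μ ^ n) := by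
  have hp : ∀ n : ℕ, CorEig x y (K ^ n) (μ ^ n) := by
    intro n
    induction n with
    | zero => simpa using CorEig.one x y
    | succ n ih =>
      rw [pow_succ, pow_succ]
      exact ih.mul h
  rcases n with n | n
  · simpa using hp n
  · rw [zpow_negSucc, zpow_negSucc]
    exact (hp (n + 1)).inv hne

/-- The eigenvalues and the logarithm. -/
theorem CorEig.abs_trace {x y : ℝ} (hne : ¬ (x = 0 ∧ y = 0)) {K : SpecialLinearGroup (Fin 2) ℝ}
    {μ : ℝ} (h : CorEig x y K μ) :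
    |K.1.trace| = Real.exp (Real.log |μ|) + Real.exp (-Real.log |μ|) := by
  have h0 := h.ne_zero hne
  have h1 : 0 < |μ| := abs_pos.2 h0
  rw [Real.exp_neg, Real.exp_log h1, h.trace hne]
  rcases lt_or_gt_of_ne h0 with h2 | h2
  · rw [abs_of_neg h2, abs_of_neg (add_neg h2 (inv_lt_zero.2 h2)), inv_neg]
    ring
  · rw [abs_of_pos h2, abs_of_pos (add_pos h2 (inv_pos.2 h2))]

theorem cor_exists_eig {G : SpecialLinearGroup (Fin 2) ℝ} (h : 4 < G.1.trace ^ 2) :
    ∃ x y μ : ℝ, ¬ (x = 0 ∧ y = 0) ∧ CorEig x y G μ := by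
  have hd := sl_det G
  set p := Real.sqrt (G.1.trace ^ 2 - 4) with hp
  have hp2 : p ^ 2 = G.1.trace ^ 2 - 4 := Real.sq_sqrt (by linarith)
  set μ := (G.1.trace + p) / 2 with hμ
  have h1 : μ ^ 2 - G.1.trace * μ + 1 = 0 := by
    rw [hμ]
    linear_combination hp2 / 4
  have h2 : (!![G.1 0 0 - μ, G.1 0 1; G.1 1 0, G.1 1 1 - μ] :
      Matrix (Fin 2) (Fin 2) ℝ).det = 0 := by
    rw [det_fin_two_of]
    rw [trace_fin_two] at h1
    linear_combination h1 + hd
  obtain ⟨v, hv, hv2⟩ := Matrix.exists_mulVec_eq_zero_iff.2 h2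
  refine ⟨v 0, v 1, μ, ?_, ?_⟩
  · rintro ⟨h3, h4⟩
    apply hv
    ext i
    fin_cases i
    · exact h3
    · exact h4
  · have e0 := congrFun hv2 0
    have e1 := congrFun hv2 1
    simp only [mulVec, dotProduct, Fin.sum_univ_two, of_apply, cons_val', cons_val_zero,
      cons_val_one, empty_val', cons_val_fin_one, Pi.zero_apply] at e0 e1
    constructor
    · linear_combination e0
    · linear_combination e1

/-- Commuting elements have the same eigenvectors. -/
theorem CorEig.of_comm {x y : ℝ} (hne : ¬ (x = 0 ∧ y = 0)) {G K : SpecialLinearGroup (Fin 2) ℝ}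
    {μ : ℝ} (hG : 2 < |G.1.trace|) (h : CorEig x y G μ) (hc : G * K = K * G) :
    ∃ ν, CorEig x y K ν := by
  obtain ⟨h1, h2⟩ := h
  have hm : G.1 * K.1 = K.1 * G.1 := by rw [← sl_mul, hc, sl_mul]
  have m00 := congrFun (congrFun hm 0) 0
  have m01 := congrFun (congrFun hm 0) 1
  have m10 := congrFun (congrFun hm 1) 0
  have m11 := congrFun (congrFun hm 1) 1
  simp only [mul_apply, Fin.sum_univ_two] at m00 m01 m10 m11
  set u := K.1 0 0 * x + K.1 0 1 * y with hu
  set v := K.1 1 0 * x + K.1 1 1 * y with hv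
  have w1 : G.1 0 0 * u + G.1 0 1 * v = μ * u := by
    rw [hu, hv]
    linear_combination x * m00 + y * m01 + K.1 0 0 * h1 + K.1 0 1 * h2
  have w2 : G.1 1 0 * u + G.1 1 1 * v = μ * v := by
    rw [hu, hv]
    linear_combination x * m10 + y * m11 + K.1 1 0 * h1 + K.1 1 1 * h2
  have hdet : x * v - y * u = 0 := by
    by_contra hcon
    have a1 : (G.1 0 0 - μ) * (x * v - y * u) = 0 := by
      linear_combination v * h1 - y * w1
    have a2 : G.1 0 1 * (x * v - y * u) = 0 := by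
      linear_combination x * w1 - u * h1
    have a3 : G.1 1 0 * (x * v - y * u) = 0 := by
      linear_combination v * h2 - y * w2
    have a4 : (G.1 1 1 - μ) * (x * v - y * u) = 0 := by
      linear_combination x * w2 - u * h2
    have b1 := (mul_eq_zero.1 a1).resolve_right hcon
    have b2 := (mul_eq_zero.1 a2).resolve_right hcon
    have b3 := (mul_eq_zero.1 a3).resolve_right hcon
    have b4 := (mul_eq_zero.1 a4).resolve_right hcon
    exact cor_not_scalar hG b2 b3 (by linarith)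
  by_cases hx : x = 0
  · have hy : y ≠ 0 := fun hy => hne ⟨hx, hy⟩
    refine ⟨v / y, ?_, ?_⟩
    · rw [← hu]
      field_simp
      linear_combination -hdet
    · rw [← hv]
      field_simp
  · refine ⟨u / x, ?_, ?_⟩
    · rw [← hu]
      field_simp
    · rw [← hv]
      field_simp
      linear_combination hdet

namespace CornerModel

variable {N : ℕ} {opp : ZMod N → ZMod N} {Γ : Type} [Group Γ] {s : ZMod N → Γ} {closed : Prop}
  (C : CornerModel opp s closed)
include C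

theorem eq_one_of_log {x y : ℝ} (hne : ¬ (x = 0 ∧ y = 0)) {k : Γ} {μ : ℝ}
    (h : CorEig x y (C.hol k) μ) (h0 : Real.log |μ| = 0) : k = 1 := by
  by_contra hk
  have h1 := C.hyp k hk
  rw [h.abs_trace hne, h0] at h1
  norm_num at h1

/-- The stabilizer of an eigenvector is cyclic. -/
theorem exists_gen {x y : ℝ} (hne : ¬ (x = 0 ∧ y = 0)) :
    ∃ k₀ : Γ, ∀ (k : Γ) (μ : ℝ), CorEig x y (C.hol k) μ → ∃ n : ℤ, k = k₀ ^ n := by
  let H : AddSubgroup ℝ :=
    { carrier := {t | ∃ k μ, CorEig x y (C.hol k) μ ∧ t = Real.log |μ|}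
      zero_mem' := ⟨1, 1, by rw [map_one]; exact CorEig.one x y, by simp⟩
      add_mem' := by
        rintro _ _ ⟨k, μ, h1, rfl⟩ ⟨l, ν, h2, rfl⟩
        refine ⟨k * l, μ * ν, by rw [map_mul]; exact h1.mul h2, ?_⟩
        rw [abs_mul, Real.log_mul (abs_ne_zero.2 (h1.ne_zero hne))
          (abs_ne_zero.2 (h2.ne_zero hne))]
      neg_mem' := by
        rintro _ ⟨k, μ, h1, rfl⟩
        refine ⟨k⁻¹, μ⁻¹, by rw [map_inv]; exact h1.inv hne, ?_⟩
        rw [abs_inv, Real.log_inv] }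
  -- the traces near 2
  have hfin : ({t : ℝ | t ≤ 3 ∧ ∃ g : Γ, |(C.hol g).1.trace| = t} ∩ {t | 2 < t}).Finite :=
    (C.disc 3).inter_of_left _
  have hev : ∀ᶠ t : ℝ in nhds 0, Real.exp t + Real.exp (-t) ∈
      ({t : ℝ | t ≤ 3 ∧ ∃ g : Γ, |(C.hol g).1.trace| = t} ∩ {t | 2 < t})ᶜ ∩ {t | t < 3} := by
    have hcont : ContinuousAt (fun t : ℝ => Real.exp t + Real.exp (-t)) 0 := by fun_prop
    refine hcont.eventually_mem ?_
    refine Filter.inter_mem (hfin.isClosed.isOpen_compl.mem_nhds ?_)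
      ((isOpen_Iio (a := (3 : ℝ))).mem_nhds ?_)
    · rintro ⟨_, h2⟩
      have : (2 : ℝ) < Real.exp 0 + Real.exp (-0) := h2
      norm_num at this
    · change Real.exp 0 + Real.exp (-0) < 3
      norm_num
  obtain ⟨a, ha, hball⟩ := Metric.eventually_nhds_iff.1 hev
  have hiso : Disjoint (H : Set ℝ) (Set.Ioo 0 a) := by
    rw [Set.disjoint_left]
    rintro t ⟨k, μ, h1, rfl⟩ ⟨h2, h3⟩
    have h4 := hball (y := Real.log |μ|) (by
      rw [Real.dist_eq, sub_zero, abs_of_pos h2]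
      exact h3)
    obtain ⟨h5, h6⟩ := h4
    have hk : k ≠ 1 := by
      rintro rfl
      have h7 := h1.abs_trace hne
      rw [map_one, sl_one] at h7
      have h8 : Real.exp (Real.log |μ|) + Real.exp (-Real.log |μ|) = 2 := by
        rw [← h7]
        norm_num
      have h9 : 1 < Real.exp (Real.log |μ|) := Real.one_lt_exp_iff.2 h2
      rw [Real.exp_neg] at h8
      have h10 : (Real.exp (Real.log |μ|) - 1) ^ 2 = 0 := by
        have h11 : Real.exp (Real.log |μ|) ≠ 0 := (Real.exp_pos _).ne'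
        field_simp at h8
        linear_combination h8
      have h12 := pow_eq_zero_iff (two_ne_zero) |>.1 h10
      linarith
    refine h5 ⟨⟨h6.le, k, h1.abs_trace hne⟩, ?_⟩
    have := C.hyp k hk
    rw [h1.abs_trace hne] at this
    exact this
  obtain ⟨b, hb⟩ := AddSubgroup.cyclic_of_isolated_zero ha hiso
  have hbH : b ∈ H := by
    rw [hb]
    exact AddSubgroup.mem_closure_singleton_self b
  obtain ⟨k₀, μ₀, h0, hb0⟩ := hbH
  refine ⟨k₀, fun k μ hk => ?_⟩
  have hkH : Real.log |μ| ∈ H := ⟨k, μ, hk, rfl⟩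
  rw [hb, AddSubgroup.mem_closure_singleton] at hkH
  obtain ⟨n, hn⟩ := hkH
  refine ⟨n, ?_⟩
  have h1 : CorEig x y (C.hol (k * (k₀ ^ n)⁻¹)) (μ * (μ₀ ^ n)⁻¹) := by
    rw [map_mul, map_inv, map_zpow]
    exact hk.mul ((h0.zpow hne n).inv hne)
  have h2 : Real.log |μ * (μ₀ ^ n)⁻¹| = 0 := by
    have hμ₀ := h0.ne_zero hne
    rw [abs_mul, abs_inv, abs_zpow, Real.log_mul (abs_ne_zero.2 (hk.ne_zero hne))
      (inv_ne_zero (zpow_ne_zero _ (abs_ne_zero.2 hμ₀))), Real.log_inv, Real.log_zpow, ← hb0,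
      ← hn, zsmul_eq_mul]
    ring
  have h3 := C.eq_one_of_log hne h1 h2
  exact mul_inv_eq_one.1 h3

omit C in
theorem not_pp_zpow {k : Γ} {n : ℤ} (h : ¬ IsProperPower (k ^ n)) : n = 1 ∨ n = -1 := by
  by_contra hcon
  rw [not_or] at hcon
  apply h
  rcases lt_trichotomy n 0 with h0 | h0 | h0
  · refine ⟨k⁻¹, (-n).toNat, by omega, ?_⟩
    rw [← zpow_natCast, Int.toNat_of_nonneg (by omega), _root_.inv_zpow', neg_neg]
  · subst h0
    exact ⟨1, 2, le_rfl, by simp⟩
  · refine ⟨k, n.toNat, by omega, ?_⟩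
    rw [← zpow_natCast, Int.toNat_of_nonneg (by omega)]

/-- Commuting primitive elements. -/
theorem comm_primitive {g h : Γ} (hg : g ≠ 1) (hpg : ¬ IsProperPower g)
    (hph : ¬ IsProperPower h) (hc : g * h = h * g) : h = g ∨ h = g⁻¹ := by
  obtain ⟨x, y, μ, hne, hE⟩ := cor_exists_eig (C.four_lt hg)
  obtain ⟨ν, hF⟩ := hE.of_comm hne (C.hyp g hg) (K := C.hol h) (by rw [← map_mul, hc, map_mul])
  obtain ⟨k₀, hk⟩ := C.exists_gen hne
  obtain ⟨m, rfl⟩ := hk g μ hE
  obtain ⟨n, rfl⟩ := hk h ν hF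
  rcases not_pp_zpow hpg with rfl | rfl <;> rcases not_pp_zpow hph with rfl | rfl <;> simp

/-- No element is conjugate to its inverse. -/
theorem not_conj_inv {g : Γ} (hg : g ≠ 1) (k : Γ) : k * g * k⁻¹ ≠ g⁻¹ := by
  intro h
  have h1 : C.hol k * C.hol g = (C.hol g)⁻¹ * C.hol k := by
    rw [← map_mul, ← map_inv, ← map_mul, ← h]
    congr 1
    group
  have hm : (C.hol k).1 * (C.hol g).1 = ((C.hol g)⁻¹).1 * (C.hol k).1 := by
    rw [← sl_mul, h1, sl_mul]
  rw [sl_inv] at hm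
  have m00 := congrFun (congrFun hm 0) 0
  have m01 := congrFun (congrFun hm 0) 1
  have m10 := congrFun (congrFun hm 1) 0
  have m11 := congrFun (congrFun hm 1) 1
  simp only [mul_apply, Fin.sum_univ_two, of_apply, cons_val', cons_val_zero, cons_val_one,
    empty_val', cons_val_fin_one] at m00 m01 m10 m11
  have ht : (C.hol k).1.trace = 0 := by
    rw [trace_fin_two]
    by_contra hcon
    have a1 : (C.hol g).1 0 1 * ((C.hol k).1 0 0 + (C.hol k).1 1 1) = 0 := by
      linear_combination m01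
    have a2 : (C.hol g).1 1 0 * ((C.hol k).1 0 0 + (C.hol k).1 1 1) = 0 := by
      linear_combination m10
    have a3 : ((C.hol g).1 0 0 - (C.hol g).1 1 1) *
        ((C.hol k).1 0 0 + (C.hol k).1 1 1) = 0 := by
      linear_combination m00 - m11
    exact cor_not_scalar (C.hyp g hg) ((mul_eq_zero.1 a1).resolve_right hcon)
      ((mul_eq_zero.1 a2).resolve_right hcon)
      (sub_eq_zero.1 ((mul_eq_zero.1 a3).resolve_right hcon))
  by_cases hk : k = 1
  · subst hk
    rw [map_one, sl_one] at ht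
    norm_num at ht
  · have := C.hyp k hk
    rw [ht] at this
    norm_num at this

/-- Different translates of primitive elements. -/
theorem two_lt_comm {g h : Γ} (hg : g ≠ 1) (hpg : ¬ IsProperPower g)
    (hph : ¬ IsProperPower h) (h1 : h ≠ g) (h2 : h ≠ g⁻¹)
    (h3 : 2 ≤ (C.hol (g * h * g⁻¹ * h⁻¹)).1.trace) :
    2 < (C.hol (g * h * g⁻¹ * h⁻¹)).1.trace := by
  by_cases hc : g * h * g⁻¹ * h⁻¹ = 1
  · have h4 : g * h = h * g := by
      have := mul_inv_eq_one.1 hc
      calc g * h = g * h * g⁻¹ * g := by group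
        _ = h * g := by rw [this]
    rcases C.comm_primitive hg hpg hph h4 with h5 | h5
    · exact absurd h5 h1
    · exact absurd h5 h2
  · have h5 := C.hyp _ hc
    rwa [abs_of_nonneg (by linarith)] at h5

end CornerModel

end Pool.Agent.AMU.Cor
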