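import Pool.Agent.Lib.AMU.Cor4

/-!
# Section D, part 5: the cycle of an element which crosses the polygon
-/

set_option autoImplicit false

namespace Pool.Agent.AMU.Cor

open Matrix

namespace CornerModel

variable {N : ℕ} {opp : ZMod N → ZMod N} {Γ : Type} [Group Γ] {s : ZMod N → Γ} {closed : Prop}
  (C : CornerModel opp s closed)

/-- The axis crosses the polygon. -/
def Crosses (g : Γ) : Prop := ∃ i j, C.sg g i ≠ C.sg g j

open Classical in
/-- The exit side. -/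
noncomputable def ex (g : Γ) : ZMod N :=
  if h : ∃ i, C.sg g i = true ∧ C.sg g (i + 1) = false then h.choose else 0

/-- The next element of the cycle. -/
noncomputable def nx (g : Γ) : Γ := (s (C.ex g))⁻¹ * g * s (C.ex g)

theorem ex_spec (hN : 3 ≤ N) {g : Γ} (h : C.Crosses g) :
    C.sg g (C.ex g) = true ∧ C.sg g (C.ex g + 1) = false := by
  have : NeZero N := ⟨by omega⟩
  have h1 := cor_exists_exit h
  unfold ex
  rw [dif_pos h1]
  exact h1.choose_spec

theorem nx_ne {g : Γ} (hg : g ≠ 1) : C.nx g ≠ 1 := by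
  unfold nx
  intro h
  apply hg
  have : g = s (C.ex g) * ((s (C.ex g))⁻¹ * g * s (C.ex g)) * (s (C.ex g))⁻¹ := by group
  rw [this, h]
  group

theorem nx_conj (g : Γ) : IsConj g (C.nx g) :=
  isConj_iff.2 ⟨(s (C.ex g))⁻¹, by unfold nx; group⟩

theorem nx_entry (hN : 3 ≤ N) {g : Γ} (hg : g ≠ 1) (h : C.Crosses g) :
    C.sg (C.nx g) (opp (C.ex g)) = false ∧ C.sg (C.nx g) (opp (C.ex g) + 1) = true := by
  obtain ⟨h1, h2⟩ := C.ex_spec hN h
  exact ⟨(C.sg_end g _ hg).trans h2, (C.sg_start g _ hg).trans h1⟩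

theorem nx_crosses (hN : 3 ≤ N) {g : Γ} (hg : g ≠ 1) (h : C.Crosses g) : C.Crosses (C.nx g) := by
  obtain ⟨h1, h2⟩ := C.nx_entry hN hg h
  exact ⟨opp (C.ex g), opp (C.ex g) + 1, by rw [h1, h2]; decide⟩

theorem nx_inj (hN : 3 ≤ N) (hopp : ∀ i, opp (opp i) = i) {g h : Γ} (hg : g ≠ 1)
    (hcg : C.Crosses g) (hh : h ≠ 1) (hch : C.Crosses h) (he : C.nx g = C.nx h) : g = h := by
  have : NeZero N := ⟨by omega⟩
  obtain ⟨h1, h2⟩ := C.nx_entry hN hg hcg
  obtain ⟨h3, h4⟩ := C.nx_entry hN hh hch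
  rw [← he] at h3 h4
  have h5 := cor_unique_entry (C.noAlt (C.nx_ne hg)) h1 h2 h3 h4
  have h6 : C.ex g = C.ex h := by rw [← hopp (C.ex g), h5, hopp]
  unfold nx at he
  rw [← h6] at he
  have h7 : ∀ x : Γ, x = s (C.ex g) * ((s (C.ex g))⁻¹ * x * s (C.ex g)) * (s (C.ex g))⁻¹ :=
    fun x => by group
  rw [h7 g, he, ← h7 h]

/-- The iterates. -/
theorem iter_spec (hN : 3 ≤ N) {g : Γ} (hg : g ≠ 1) (hc : C.Crosses g) (k : ℕ) :
    C.nx^[k] g ≠ 1 ∧ C.Crosses (C.nx^[k] g) ∧ IsConj g (C.nx^[k] g) := by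
  induction k with
  | zero => exact ⟨hg, hc, IsConj.refl _⟩
  | succ k ih =>
    rw [Function.iterate_succ_apply']
    exact ⟨C.nx_ne ih.1, C.nx_crosses hN ih.1 ih.2.1, ih.2.2.trans (C.nx_conj _)⟩

theorem iter_cancel (hN : 3 ≤ N) (hopp : ∀ i, opp (opp i) = i) {g : Γ} (hg : g ≠ 1)
    (hc : C.Crosses g) (a d : ℕ) (h : C.nx^[a] g = C.nx^[a + d] g) : C.nx^[d] g = g := by
  induction a with
  | zero => rw [zero_add] at h; exact h.symm
  | succ a ih =>
    apply ih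
    have e : a + 1 + d = (a + d) + 1 := by ring
    rw [e, Function.iterate_succ_apply', Function.iterate_succ_apply'] at h
    have i1 := C.iter_spec hN hg hc a
    have i2 := C.iter_spec hN hg hc (a + d)
    exact C.nx_inj hN hopp i1.1 i1.2.1 i2.1 i2.2.1 h

theorem exists_period (hN : 3 ≤ N) (hopp : ∀ i, opp (opp i) = i) {g : Γ} (hg : g ≠ 1)
    (hc : C.Crosses g) :
    ∃ n, 0 < n ∧ C.nx^[n] g = g ∧ ∀ k < n, 0 < k → C.nx^[k] g ≠ g := by
  classical
  have hfin := C.finite_cross g hg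
  have hex : ∃ n, 0 < n ∧ C.nx^[n] g = g := by
    have : Finite {h : Γ | IsConj g h ∧ ∃ i j, C.sg h i ≠ C.sg h j} := hfin
    obtain ⟨a, b, hab, he⟩ := Finite.exists_ne_map_eq_of_infinite
      (fun k : ℕ => (⟨C.nx^[k] g, (C.iter_spec hN hg hc k).2.2, (C.iter_spec hN hg hc k).2.1⟩ :
        {h : Γ | IsConj g h ∧ ∃ i j, C.sg h i ≠ C.sg h j}))
    have he' : C.nx^[a] g = C.nx^[b] g := congrArg Subtype.val he
    rcases lt_or_gt_of_ne hab with h | h
    · refine ⟨b - a, by omega, C.iter_cancel hN hopp hg hc a (b - a) ?_⟩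
      rw [he', show a + (b - a) = b by omega]
    · refine ⟨a - b, by omega, C.iter_cancel hN hopp hg hc b (a - b) ?_⟩
      rw [← he', show b + (a - b) = a by omega]
  refine ⟨Nat.find hex, (Nat.find_spec hex).1, (Nat.find_spec hex).2, fun k hk h0 he => ?_⟩
  exact Nat.find_min hex hk ⟨h0, he⟩

/-- Conjugates of commutators. -/
theorem two_le_of_conj {p q x y : Γ}
    (h : ∀ k, 2 ≤ (C.hol (p * (k * q * k⁻¹) * p⁻¹ * (k * q * k⁻¹)⁻¹)).1.trace)
    (hx : IsConj p x) (hy : IsConj q y) : 2 ≤ (C.hol (x * y * x⁻¹ * y⁻¹)).1.trace := by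
  obtain ⟨a, rfl⟩ := isConj_iff.1 hx
  obtain ⟨b, rfl⟩ := isConj_iff.1 hy
  have h1 := h (a⁻¹ * b)
  have e : (a * p * a⁻¹) * (b * q * b⁻¹) * (a * p * a⁻¹)⁻¹ * (b * q * b⁻¹)⁻¹ =
      a * (p * ((a⁻¹ * b) * q * (a⁻¹ * b)⁻¹) * p⁻¹ * ((a⁻¹ * b) * q * (a⁻¹ * b)⁻¹)⁻¹) * a⁻¹ := by
    group
  rw [e, map_mul, map_mul, map_inv, trace_conj_sl]
  exact h1

variable {C}

theorem Dis.inv_left {e f : Γ} (h : C.Dis e f) : C.Dis e⁻¹ f := by
  unfold Dis at *
  rw [inv_inv]
  tauto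

theorem Dis.inv_right {e f : Γ} (h : C.Dis e f) : C.Dis e f⁻¹ := by
  unfold Dis at *
  rcases h with h | h | h | h
  · exact Or.inr (Or.inr (Or.inr h.inv))
  · exact Or.inr (Or.inr (Or.inl h.inv))
  · have := h.inv
    rw [inv_inv] at this
    exact Or.inr (Or.inl this)
  · have := h.inv
    rw [inv_inv] at this
    exact Or.inl this

theorem Dis.symm {e f : Γ} (h : C.Dis e f) : C.Dis f e := by
  unfold Dis at *
  rcases h with h | h | h | h
  · exact Or.inr (Or.inl h)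
  · exact Or.inl h
  · have := h.inv
    rw [inv_inv] at this
    exact Or.inr (Or.inr (Or.inl this))
  · have := h.inv
    rw [inv_inv] at this
    exact Or.inr (Or.inr (Or.inr this))

/-- Two disjoint axes which cross the same side in the same direction. -/
theorem Dis.total (hN : 3 ≤ N) {e f : Γ} (h : C.Dis e f) (he : e ≠ 1) (hf : f ≠ 1) {i : ZMod N}
    (e1 : C.sg e i = true) (e2 : C.sg e (i + 1) = false)
    (f1 : C.sg f i = true) (f2 : C.sg f (i + 1) = false) : C.Lt e f ∨ C.Lt f e := by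
  have he' : e⁻¹ ≠ 1 := inv_ne_one.2 he
  rcases h with h | h | h | h
  · exact Or.inl h
  · exact Or.inr h
  · have := h.sg_true hN he' hf (C.sg_inv_true he e2)
    rw [f2] at this
    exact Bool.noConfusion this
  · have := h.sg_true hN hf he' f1
    rw [C.sg_inv_false he e1] at this
    exact Bool.noConfusion this

end CornerModel

end Pool.Agent.AMU.Cor
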