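import Pool.Agent.Lib.AMU.Cor5

/-!
# Section D, part 6: the points of a family of disjoint cycles
-/

set_option autoImplicit false

namespace Pool.Agent.AMU.Cor

open Matrix

/-- A family of primitive elements with disjoint axes which cross the polygon. -/
structure CorFam {N : ℕ} {opp : ZMod N → ZMod N} {Γ : Type} [Group Γ] {s : ZMod N → Γ}
    {closed : Prop} (C : CornerModel opp s closed) (r : ℕ) where
  hN : 3 ≤ N
  hopp : ∀ i, opp (opp i) = i
  hne : ∀ i, opp i ≠ i
  hs : ∀ i, s i * s (opp i) = 1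
  G : Fin r → Γ
  n : Fin r → ℕ
  G_ne : ∀ j, G j ≠ 1
  crosses : ∀ j, C.Crosses (G j)
  n_pos : ∀ j, 0 < n j
  per : ∀ j, C.nx^[n j] (G j) = G j
  hmin : ∀ j k, k < n j → 0 < k → C.nx^[k] (G j) ≠ G j
  dis : ∀ i j x y, IsConj (G i) x → IsConj (G j) y → x ≠ y → x ≠ y⁻¹ → C.Dis x y
  diff : ∀ i j, i ≠ j → ¬ IsConj (G i) (G j) ∧ ¬ IsConj (G i) (G j)⁻¹

namespace CorFam

variable {N : ℕ} {opp : ZMod N → ZMod N} {Γ : Type} [Group Γ] {s : ZMod N → Γ}
    {closed : Prop} {C : CornerModel opp s closed} {r : ℕ} (F : CorFam C r)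

/-- The strands. -/
noncomputable def H (j : Fin r) (k : ℕ) : Γ := C.nx^[k] (F.G j)

/-- The words. -/
noncomputable def W (j : Fin r) : List (ZMod N) := (List.range (F.n j)).map fun k => C.ex (F.H j k)

theorem W_len (j : Fin r) : (F.W j).length = F.n j := by simp [W]

theorem W_getD {j : Fin r} {k : ℕ} (h : k < F.n j) : (F.W j).getD k 0 = C.ex (F.H j k) := by
  rw [List.getD_eq_getElem _ _ (by rwa [F.W_len])]
  simp [W]

theorem H_ne (j : Fin r) (k : ℕ) : F.H j k ≠ 1 :=
  (C.iter_spec F.hN (F.G_ne j) (F.crosses j) k).1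

theorem H_crosses (j : Fin r) (k : ℕ) : C.Crosses (F.H j k) :=
  (C.iter_spec F.hN (F.G_ne j) (F.crosses j) k).2.1

theorem H_conj (j : Fin r) (k : ℕ) : IsConj (F.G j) (F.H j k) :=
  (C.iter_spec F.hN (F.G_ne j) (F.crosses j) k).2.2

theorem H_succ (j : Fin r) (k : ℕ) : F.H j (k + 1) = C.nx (F.H j k) := by
  unfold H
  rw [Function.iterate_succ_apply']

theorem H_mod {j : Fin r} {k : ℕ} (h : k < F.n j) : F.H j ((k + 1) % F.n j) = F.H j (k + 1) := by
  rcases Nat.lt_or_ge (k + 1) (F.n j) with h1 | h1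
  · rw [Nat.mod_eq_of_lt h1]
  · have h2 : k + 1 = F.n j := by omega
    rw [h2, Nat.mod_self]
    exact (F.per j).symm

theorem H_inj {j j' : Fin r} {k k' : ℕ} (h : k < F.n j) (h' : k' < F.n j')
    (he : F.H j k = F.H j' k') : j = j' ∧ k = k' := by
  have hj : j = j' := by
    by_contra hcon
    refine (F.diff j j' hcon).1 ((F.H_conj j k).trans ?_)
    rw [he]
    exact (F.H_conj j' k').symm
  subst hj
  refine ⟨rfl, ?_⟩
  rcases lt_trichotomy k k' with h1 | h1 | h1
  · exfalso
    refine F.hmin j (k' - k) (by omega) (by omega)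
      (C.iter_cancel F.hN F.hopp (F.G_ne j) (F.crosses j) k (k' - k) ?_)
    rw [show k + (k' - k) = k' by omega]
    exact he
  · exact h1
  · exfalso
    refine F.hmin j (k - k') (by omega) (by omega)
      (C.iter_cancel F.hN F.hopp (F.G_ne j) (F.crosses j) k' (k - k') ?_)
    rw [show k' + (k - k') = k by omega]
    exact he.symm

theorem conj_inv {p x : Γ} (h : IsConj p x) : IsConj p⁻¹ x⁻¹ := by
  obtain ⟨c, rfl⟩ := isConj_iff.1 h
  exact isConj_iff.2 ⟨c, by group⟩

theorem H_inv (j j' : Fin r) (k k' : ℕ) : F.H j k ≠ (F.H j' k')⁻¹ := by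
  intro he
  have h1 : IsConj (F.G j) (F.G j')⁻¹ := by
    refine (F.H_conj j k).trans ?_
    rw [he]
    exact (conj_inv (F.H_conj j' k')).symm
  by_cases hj : j = j'
  · subst hj
    obtain ⟨c, hc⟩ := isConj_iff.1 h1
    exact C.not_conj_inv (F.G_ne j) c hc
  · exact (F.diff j j' hj).2 h1

theorem H_dis {j j' : Fin r} {k k' : ℕ} (hne : F.H j k ≠ F.H j' k') :
    C.Dis (F.H j k) (F.H j' k') :=
  F.dis j j' _ _ (F.H_conj j k) (F.H_conj j' k') hne (F.H_inv j j' k k')

theorem H_succ_inj {j j' : Fin r} {k k' : ℕ} (he : F.H j (k + 1) = F.H j' (k' + 1)) :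
    F.H j k = F.H j' k' := by
  rw [H_succ, H_succ] at he
  exact C.nx_inj F.hN F.hopp (F.H_ne j k) (F.H_crosses j k) (F.H_ne j' k') (F.H_crosses j' k') he

/-! ### Points -/

/-- The side of a point. -/
noncomputable abbrev side (x : MPt r) : ZMod N := mSide opp F.W x

/-- The point belongs to a letter. -/
def Valid (x : MPt r) : Prop := x.2.1 < F.n x.1

/-- The oriented strand of a point: the first corner of the side is on its right, the second one
is on its left. -/
noncomputable def el (x : MPt r) : Γ :=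
  if x.2.2 then (F.H x.1 (x.2.1 + 1))⁻¹ else F.H x.1 x.2.1

theorem el_ne (x : MPt r) : F.el x ≠ 1 := by
  unfold el
  split_ifs
  · exact inv_ne_one.2 (F.H_ne _ _)
  · exact F.H_ne _ _

theorem side_false {j : Fin r} {k : ℕ} (h : k < F.n j) :
    F.side (j, k, false) = C.ex (F.H j k) := by
  simp [side, mSide, F.W_getD h, -List.getD_eq_getElem?_getD]

theorem side_true {j : Fin r} {k : ℕ} (h : k < F.n j) :
    F.side (j, k, true) = opp (C.ex (F.H j k)) := by
  simp [side, mSide, F.W_getD h, -List.getD_eq_getElem?_getD]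

theorem el_false (j : Fin r) (k : ℕ) : F.el (j, k, false) = F.H j k := by simp [el]

theorem el_true (j : Fin r) (k : ℕ) : F.el (j, k, true) = (F.H j (k + 1))⁻¹ := by simp [el]

theorem el_sg {x : MPt r} (hx : F.Valid x) :
    C.sg (F.el x) (F.side x) = true ∧ C.sg (F.el x) (F.side x + 1) = false := by
  obtain ⟨j, k, b⟩ := x
  cases b with
  | false =>
    rw [F.side_false hx, F.el_false]
    exact C.ex_spec F.hN (F.H_crosses j k)
  | true =>
    rw [F.side_true hx, F.el_true, H_succ]
    obtain ⟨h1, h2⟩ := C.nx_entry F.hN (F.H_ne j k) (F.H_crosses j k)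
    exact ⟨C.sg_inv_true (C.nx_ne (F.H_ne j k)) h1, C.sg_inv_false (C.nx_ne (F.H_ne j k)) h2⟩

/-- The glued point. -/
def pr (x : MPt r) : MPt r := (x.1, x.2.1, !x.2.2)

theorem pr_pr (x : MPt r) : pr (pr x) = x := by simp [pr]

theorem valid_pr {x : MPt r} (hx : F.Valid x) : F.Valid (pr x) := hx

theorem side_pr (x : MPt r) : F.side (pr x) = opp (F.side x) := by
  obtain ⟨j, k, b⟩ := x
  cases b with
  | false => simp [side, mSide, pr]
  | true => simp [side, mSide, pr, F.hopp]

include F in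
theorem s_opp (i : ZMod N) : s (opp i) = (s i)⁻¹ :=
  eq_inv_of_mul_eq_one_right (F.hs i)

theorem el_pr {x : MPt r} (hx : F.Valid x) :
    F.el (pr x) = (s (F.side x))⁻¹ * (F.el x)⁻¹ * s (F.side x) := by
  obtain ⟨j, k, b⟩ := x
  cases b with
  | false =>
    rw [F.side_false hx, F.el_false]
    change F.el (j, k, true) = _
    rw [F.el_true, H_succ]
    unfold CornerModel.nx
    group
  | true =>
    rw [F.side_true hx, F.el_true]
    change F.el (j, k, false) = _
    rw [F.el_false, H_succ, F.s_opp]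
    unfold CornerModel.nx
    group

theorem el_dis {x y : MPt r} (hx : F.Valid x) (hy : F.Valid y) (hne : x ≠ y)
    (hside : F.side x = F.side y) : C.Dis (F.el x) (F.el y) := by
  have hsx := F.el_sg hx
  have hsy := F.el_sg hy
  obtain ⟨j, k, b⟩ := x
  obtain ⟨j', k', b'⟩ := y
  cases b <;> cases b'
  · rw [F.el_false, F.el_false]
    refine F.H_dis fun he => hne ?_
    obtain ⟨rfl, rfl⟩ := F.H_inj hx hy he
    rfl
  · rw [F.el_false] at hsx ⊢
    rw [F.el_true] at hsy ⊢
    refine (F.H_dis fun he => ?_).inv_right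
    have h1 := C.sg_inv_false (F.H_ne j k) hsx.1
    rw [he, hside, hsy.1] at h1
    exact Bool.noConfusion h1
  · rw [F.el_true] at hsx ⊢
    rw [F.el_false] at hsy ⊢
    refine (F.H_dis fun he => ?_).inv_left
    have h1 := C.sg_inv_false (F.H_ne j' k') hsy.1
    rw [← he, ← hside, hsx.1] at h1
    exact Bool.noConfusion h1
  · rw [F.el_true, F.el_true]
    refine (F.H_dis fun he => hne ?_).inv_left.inv_right
    obtain ⟨rfl, rfl⟩ := F.H_inj hx hy (F.H_succ_inj he)
    rfl

theorem total {x y : MPt r} (hx : F.Valid x) (hy : F.Valid y) (hne : x ≠ y)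
    (hside : F.side x = F.side y) : C.Lt (F.el x) (F.el y) ∨ C.Lt (F.el y) (F.el x) := by
  have hsx := F.el_sg hx
  have hsy := F.el_sg hy
  rw [← hside] at hsy
  exact (F.el_dis hx hy hne hside).total F.hN (F.el_ne x) (F.el_ne y) hsx.1 hsx.2 hsy.1 hsy.2

theorem lt_pr {x y : MPt r} (hx : F.Valid x) (hy : F.Valid y) (hside : F.side x = F.side y) :
    C.Lt (F.el (pr y)) (F.el (pr x)) ↔ C.Lt (F.el x) (F.el y) := by
  rw [F.el_pr hx, F.el_pr hy, ← hside, CornerModel.lt_conj_iff, CornerModel.lt_inv_iff]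

/-! ### Positions -/

include F in
theorem can_opp (i : ZMod N) : (opp i).val < (opp (opp i)).val ↔ ¬ i.val < (opp i).val := by
  have : NeZero N := ⟨by have := F.hN; omega⟩
  rw [F.hopp]
  have h1 : i.val ≠ (opp i).val := fun h => F.hne i (ZMod.val_injective N h).symm
  omega

open Classical in
/-- The point of a letter on the canonical side. -/
noncomputable def cp (j : Fin r) (k : ℕ) : MPt r :=
  (j, k, decide (¬ (F.side (j, k, false)).val < (opp (F.side (j, k, false))).val))

theorem cp_eq {x : MPt r} (h : (F.side x).val < (opp (F.side x)).val) : F.cp x.1 x.2.1 = x := by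
  obtain ⟨j, k, b⟩ := x
  cases b with
  | false => simp [cp, h]
  | true =>
    have h1 : F.side (j, k, true) = opp (F.side (j, k, false)) := F.side_pr (j, k, false)
    rw [h1, F.can_opp] at h
    simp only [cp, h, not_false_eq_true, decide_true]

open Classical in
/-- The rank of a letter on its side. -/
noncomputable def rk (j : Fin r) (k : ℕ) : ℕ :=
  (((Finset.univ : Finset (Fin r)).sigma fun j => Finset.range (F.n j)).filter
    fun p : (_ : Fin r) × ℕ => F.side (F.cp p.1 p.2) = F.side (F.cp j k) ∧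
      C.Lt (F.el (F.cp p.1 p.2)) (F.el (F.cp j k))).card

theorem rk_lt {j j' : Fin r} {k k' : ℕ} (h : k < F.n j)
    (hside : F.side (F.cp j k) = F.side (F.cp j' k'))
    (hl : C.Lt (F.el (F.cp j k)) (F.el (F.cp j' k'))) : F.rk j k < F.rk j' k' := by
  classical
  unfold rk
  refine Finset.card_lt_card (Finset.ssubset_iff_subset_ne.2 ⟨?_, ?_⟩)
  · intro p hp
    rw [Finset.mem_filter] at hp ⊢
    exact ⟨hp.1, hp.2.1.trans hside, hp.2.2.trans hl⟩
  · intro he
    have h1 : (⟨j, k⟩ : (_ : Fin r) × ℕ) ∈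
        ((Finset.univ : Finset (Fin r)).sigma fun j => Finset.range (F.n j)).filter
        fun p : (_ : Fin r) × ℕ => F.side (F.cp p.1 p.2) = F.side (F.cp j' k') ∧
          C.Lt (F.el (F.cp p.1 p.2)) (F.el (F.cp j' k')) := by
      rw [Finset.mem_filter, Finset.mem_sigma]
      exact ⟨⟨Finset.mem_univ _, Finset.mem_range.2 h⟩, hside, hl⟩
    have h2 : (⟨j, k⟩ : (_ : Fin r) × ℕ) ∈
        ((Finset.univ : Finset (Fin r)).sigma fun j => Finset.range (F.n j)).filter
        fun p : (_ : Fin r) × ℕ => F.side (F.cp p.1 p.2) = F.side (F.cp j k) ∧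
          C.Lt (F.el (F.cp p.1 p.2)) (F.el (F.cp j k)) := by
      convert h1
    exact CorLt.irrefl _ (Finset.mem_filter.1 h2).2.2

/-- The position of a letter. -/
noncomputable def pos (j : Fin r) (k : ℕ) : ℤ :=
  ((N * F.rk j k + (F.side (F.cp j k)).val : ℕ) : ℤ)

theorem pos_lt {j j' : Fin r} {k k' : ℕ} (hside : F.side (F.cp j k) = F.side (F.cp j' k'))
    (hl : F.rk j k < F.rk j' k') : F.pos j k < F.pos j' k' := by
  unfold pos
  rw [hside]
  have hN := F.hN
  have : N * F.rk j k < N * F.rk j' k' := Nat.mul_lt_mul_of_pos_left hl (by omega)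
  exact_mod_cast Nat.add_lt_add_right this _

theorem pos_inj {j j' : Fin r} {k k' : ℕ} (h : k < F.n j) (h' : k' < F.n j')
    (he : F.pos j k = F.pos j' k') : j = j' ∧ k = k' := by
  have : NeZero N := ⟨by have := F.hN; omega⟩
  unfold pos at he
  have he' : N * F.rk j k + (F.side (F.cp j k)).val = N * F.rk j' k' + (F.side (F.cp j' k')).val := by
    exact_mod_cast he
  have h1 := ZMod.val_lt (F.side (F.cp j k))
  have h2 := ZMod.val_lt (F.side (F.cp j' k'))
  have h3 : (F.side (F.cp j k)).val = (F.side (F.cp j' k')).val := by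
    have := congrArg (· % N) he'
    simpa only [Nat.mul_add_mod, Nat.mod_eq_of_lt h1, Nat.mod_eq_of_lt h2] using this
  have h4 : F.rk j k = F.rk j' k' := by
    rw [h3] at he'
    have := Nat.add_right_cancel he'
    exact Nat.eq_of_mul_eq_mul_left (by omega) this
  have h5 := ZMod.val_injective N h3
  by_contra hcon
  have hne : F.cp j k ≠ F.cp j' k' := by
    intro he
    apply hcon
    have e1 : j = j' := congrArg Prod.fst he
    have e2 : k = k' := congrArg (fun x : MPt r => x.2.1) he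
    exact ⟨e1, e2⟩
  rcases F.total (x := F.cp j k) (y := F.cp j' k') h h' hne h5 with hl | hl
  · exact absurd h4 (F.rk_lt h h5 hl).ne
  · exact absurd h4 (F.rk_lt h' h5.symm hl).ne'

/-- The key of a point. -/
noncomputable abbrev key (x : MPt r) : ℤ ×ₗ ℤ := mKey opp F.W F.pos x

theorem key_eq (x : MPt r) : F.key x = toLex (((F.side x).val : ℤ),
    if (F.side x).val < (opp (F.side x)).val then F.pos x.1 x.2.1 else -F.pos x.1 x.2.1) := rfl

theorem key_lt {x y : MPt r} (hx : F.Valid x) (hy : F.Valid y) (hside : F.side x = F.side y)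
    (hl : C.Lt (F.el x) (F.el y)) : F.key x < F.key y := by
  rw [key_eq, key_eq, ← hside, Prod.Lex.toLex_lt_toLex]
  right
  refine ⟨rfl, ?_⟩
  by_cases hc : (F.side x).val < (opp (F.side x)).val
  · simp only [hc, if_true]
    have ex := F.cp_eq hc
    have ey := F.cp_eq (x := y) (by rw [← hside]; exact hc)
    have h1 : F.side (F.cp x.1 x.2.1) = F.side (F.cp y.1 y.2.1) := by rw [ex, ey, hside]
    refine F.pos_lt h1 (F.rk_lt hx h1 ?_)
    rw [ex, ey]
    exact hl
  · simp only [hc, if_false]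
    have hc' := (F.can_opp (F.side x)).2 hc
    have ex := F.cp_eq (x := pr x) (by rw [side_pr]; exact hc')
    have ey := F.cp_eq (x := pr y) (by rw [side_pr, ← hside]; exact hc')
    have ex' : F.cp x.1 x.2.1 = pr x := ex
    have ey' : F.cp y.1 y.2.1 = pr y := ey
    have h1 : F.side (F.cp y.1 y.2.1) = F.side (F.cp x.1 x.2.1) := by
      rw [ex', ey', side_pr, side_pr, hside]
    refine neg_lt_neg (F.pos_lt h1 (F.rk_lt hy h1 ?_))
    rw [ex', ey']
    exact (F.lt_pr hx hy hside).2 hl

theorem key_iff {x y : MPt r} (hx : F.Valid x) (hy : F.Valid y) (hside : F.side x = F.side y) :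
    F.key x < F.key y ↔ C.Lt (F.el x) (F.el y) := by
  refine ⟨fun h => ?_, F.key_lt hx hy hside⟩
  have hne : x ≠ y := by
    rintro rfl
    exact lt_irrefl _ h
  rcases F.total hx hy hne hside with hl | hl
  · exact hl
  · exact absurd (F.key_lt hy hx hside.symm hl) h.asymm

theorem key_pr {x y : MPt r} (hx : F.Valid x) (hy : F.Valid y) (hside : F.side x = F.side y) :
    F.key (pr y) < F.key (pr x) ↔ F.key x < F.key y := by
  rw [F.key_iff hx hy hside, F.key_iff (F.valid_pr hy) (F.valid_pr hx)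
    (by rw [side_pr, side_pr, hside]), F.lt_pr hx hy hside]

end CorFam

end Pool.Agent.AMU.Cor
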