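import Pool.Agent.Lib.AMU.Cor6

/-!
# Section D, part 7: the hyperbolic model of a corner model
-/

set_option autoImplicit false

namespace Pool.Agent.AMU.Cor

open Matrix

namespace CorFam

variable {N : ℕ} {opp : ZMod N → ZMod N} {Γ : Type} [Group Γ] {s : ZMod N → Γ}
    {closed : Prop} {C : CornerModel opp s closed} {r : ℕ} (F : CorFam C r)

theorem valid_chS {j : Fin r} {k : ℕ} (h : k < F.n j) : F.Valid (chS j k) := h

theorem valid_chE {j : Fin r} (k : ℕ) : F.Valid (chE F.W j k) := by
  unfold Valid chE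
  rw [W_len]
  exact Nat.mod_lt _ (F.n_pos j)

theorem el_chS (j : Fin r) (k : ℕ) : F.el (chS j k) = (F.H j (k + 1))⁻¹ := F.el_true j k

theorem el_chE {j : Fin r} {k : ℕ} (h : k < F.n j) : F.el (chE F.W j k) = F.H j (k + 1) := by
  unfold chE
  rw [F.el_false, W_len, F.H_mod h]

theorem noncross {j j' : Fin r} {k k' : ℕ} (h : k < F.n j) (h' : k' < F.n j') :
    ¬ (min (F.key (chS j k)) (F.key (chE F.W j k)) <
        min (F.key (chS j' k')) (F.key (chE F.W j' k')) ∧
      min (F.key (chS j' k')) (F.key (chE F.W j' k')) <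
        max (F.key (chS j k)) (F.key (chE F.W j k)) ∧
      max (F.key (chS j k)) (F.key (chE F.W j k)) <
        max (F.key (chS j' k')) (F.key (chE F.W j' k'))) := by
  by_cases he : F.H j' (k' + 1) = F.H j (k + 1)
  · obtain ⟨rfl, rfl⟩ := F.H_inj h' h (F.H_succ_inj he)
    rintro ⟨h1, _, _⟩
    exact lt_irrefl _ h1
  · have vS := F.valid_chS h
    have vE := F.valid_chE (j := j) k
    have vS' := F.valid_chS h'
    have vE' := F.valid_chE (j := j') k'
    have sS := F.el_sg vS
    have sE := F.el_sg vE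
    have sS' := F.el_sg vS'
    have sE' := F.el_sg vE'
    rw [F.el_chS] at sS sS'
    rw [F.el_chE h] at sE
    rw [F.el_chE h'] at sE'
    have hg := F.H_ne j' (k' + 1)
    have hh := F.H_ne j (k + 1)
    have inv1 : ∀ {x : Γ} {i : ZMod N}, x ≠ 1 → C.sg x⁻¹ i = true → C.sg x i = false := by
      intro x i hx hi
      have := C.sg_inv_false (inv_ne_one.2 hx) hi
      rwa [inv_inv] at this
    have inv2 : ∀ {x : Γ} {i : ZMod N}, x ≠ 1 → C.sg x⁻¹ i = false → C.sg x i = true := by
      intro x i hx hi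
      have := C.sg_inv_true (inv_ne_one.2 hx) hi
      rwa [inv_inv] at this
    refine C.noncross F.hN hg hh (F.H_dis he) (inv1 hg sS'.1) (inv2 hg sS'.2) sE'.1 sE'.2
      (inv1 hh sS.1) (inv2 hh sS.2) sE.1 sE.2 ?_ ?_ ?_ ?_
    · intro hside
      have := F.key_iff vE' vE hside
      rw [F.el_chE h, F.el_chE h'] at this
      exact this
    · intro hside
      have := F.key_iff vS vE' hside.symm
      rw [F.el_chS, F.el_chE h'] at this
      exact this
    · intro hside
      have := F.key_iff vS' vE hside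
      rw [F.el_chS, F.el_chE h] at this
      exact this
    · intro hside
      have := F.key_iff vS vS' hside.symm
      rw [F.el_chS, F.el_chS] at this
      exact this

theorem reduced {j : Fin r} {k : ℕ} (h : k < F.n j) :
    (F.W j).getD ((k + 1) % (F.W j).length) 0 ≠ opp ((F.W j).getD k 0) := by
  rw [W_len, F.W_getD (Nat.mod_lt _ (F.n_pos j)), F.W_getD h, F.H_mod h, H_succ]
  intro he
  have h1 := (C.ex_spec F.hN (C.nx_crosses F.hN (F.H_ne j k) (F.H_crosses j k))).1
  have h2 := (C.nx_entry F.hN (F.H_ne j k) (F.H_crosses j k)).1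
  rw [← he, h1] at h2
  exact Bool.noConfusion h2

/-- Keys are different. -/
theorem key_inj {x y : MPt r} (hx : F.Valid x) (hy : F.Valid y) (hside : F.side x = F.side y)
    (he : F.key x = F.key y) : x = y := by
  by_contra hne
  rcases F.total hx hy hne hside with hl | hl
  · exact absurd he (F.key_lt hx hy hside hl).ne
  · exact absurd he (F.key_lt hy hx hside.symm hl).ne'

theorem first_pr {x : MPt r} (hx : F.Valid x) (h : IsLast opp F.W F.pos x) :
    IsFirst opp F.W F.pos (pr x) := by
  intro y hy hside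
  have hyv : F.Valid y := by
    have := hy
    rwa [W_len] at this
  rw [← not_lt]
  intro hlt
  have hs1 : F.side (pr y) = F.side x := by
    rw [side_pr]
    have : F.side y = F.side (pr x) := hside
    rw [this, side_pr, F.hopp]
  have h1 := (F.key_pr (x := pr y) (y := x) (F.valid_pr hyv) hx hs1)
  rw [pr_pr] at h1
  -- h1 : key (pr x) < key y ↔ key (pr y) < key x
  have h2 := (F.key_pr (x := x) (y := pr y) hx (F.valid_pr hyv) hs1.symm)
  rw [pr_pr] at h2
  have h3 : F.key x < F.key (pr y) := h2.1 hlt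
  have h4 := h (pr y) (by rw [W_len]; exact hyv) hs1
  exact absurd h3 (not_lt.2 h4)

theorem uncut (hc : closed) : ∃ i : ZMod N, ∀ j k, k < (F.W j).length →
    ¬ Cuts opp F.W F.pos (chS j k) (chE F.W j k) i ∧
    ¬ Cuts opp F.W F.pos (chE F.W j k) (chS j k) i := by
  by_contra hcon
  have hpts : ∀ i : ZMod N, ∃ x z : MPt r, F.Valid x ∧ F.Valid z ∧
      F.el x = (F.el z)⁻¹ ∧ Cuts opp F.W F.pos x z i := by
    intro i
    have h1 : ∃ j k, k < (F.W j).length ∧ (Cuts opp F.W F.pos (chS j k) (chE F.W j k) i ∨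
        Cuts opp F.W F.pos (chE F.W j k) (chS j k) i) := by
      by_contra h2
      apply hcon
      refine ⟨i, fun j k hk => ⟨fun h3 => h2 ⟨j, k, hk, Or.inl h3⟩,
        fun h3 => h2 ⟨j, k, hk, Or.inr h3⟩⟩⟩
    obtain ⟨j, k, hk, h2⟩ := h1
    rw [W_len] at hk
    rcases h2 with h2 | h2
    · exact ⟨_, _, F.valid_chS hk, F.valid_chE k, by rw [F.el_chS, F.el_chE hk], h2⟩
    · exact ⟨_, _, F.valid_chE k, F.valid_chS hk, by rw [F.el_chS, F.el_chE hk, inv_inv], h2⟩
  choose x z vx vz hxz hcut using hpts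
  have sx : ∀ i, F.side (x i) = i - 1 := fun i => (hcut i).1
  have sz : ∀ i, F.side (z i) = i := fun i => (hcut i).2.2.1
  have hz1 : ∀ i, C.sg (F.el (z i)) i = true := by
    intro i
    have := (F.el_sg (vz i)).1
    rwa [sz] at this
  have hz2 : ∀ i, C.sg (F.el (z i)) (i + 1) = false := by
    intro i
    have := (F.el_sg (vz i)).2
    rwa [sz] at this
  have hz3 : ∀ i, C.sg (F.el (z i)) (i - 1) = false := by
    intro i
    have h1 := (F.el_sg (vx i)).1
    rw [sx, hxz] at h1
    have h2 := C.sg_inv_false (inv_ne_one.2 (F.el_ne _)) h1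
    rwa [inv_inv] at h2
  obtain ⟨i, hi⟩ := C.uncut hc (fun i => F.el (z i)) (fun i => F.el_ne _) (by
    intro i
    have h1 := F.first_pr (vx i) (hcut i).2.1
    have hs1 : F.side (pr (x i)) = opp (i - 1) := by rw [side_pr, sx]
    have h2 := (hcut (opp (i - 1))).2.2.2
    have h3 : F.key (z (opp (i - 1))) = F.key (pr (x i)) := by
      refine le_antisymm ?_ ?_
      · refine h2 (pr (x i)) ?_ ?_
        · rw [W_len]
          exact F.valid_pr (vx i)
        · exact hs1.trans (sz _).symm
      · refine h1 (z (opp (i - 1))) ?_ ?_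
        · rw [W_len]
          exact vz _
        · exact (sz _).trans hs1.symm
    have h4 := F.key_inj (vz _) (F.valid_pr (vx i)) ((sz _).trans hs1.symm) h3
    have h5 := F.el_pr (vx i)
    rw [← h4, sx, hxz, inv_inv] at h5
    exact h5) (fun i => hz1 i)
  rcases hi with hi | hi
  · rw [hz3] at hi
    exact Bool.noConfusion hi
  · rw [hz2] at hi
    exact Bool.noConfusion hi

/-- The words of a family are good. -/
theorem goodWords : GoodWords opp F.W F.pos closed where
  ne j h := by
    have h1 := F.W_len j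
    rw [h] at h1
    exact absurd (F.n_pos j) (by rw [← h1]; simp)
  inj j k j' k' h h' he := by
    rw [W_len] at h h'
    exact F.pos_inj h h' he
  noncross j k j' k' h h' := by
    rw [W_len] at h h'
    exact F.noncross h h'
  reduced j k h := by
    rw [W_len] at h
    exact F.reduced h
  uncut := F.uncut

end CorFam

theorem cor_list_prod {M : Type*} [CommMonoid M] (n : ℕ) (f : ℕ → M) :
    ((List.range n).map f).prod = ∏ k ∈ Finset.range n, f k := by
  induction n with
  | zero => simp
  | succ n ih => rw [List.range_succ, List.map_append, List.prod_append, ih,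
      Finset.prod_range_succ]; simp

namespace CornerModel

variable {N : ℕ} {opp : ZMod N → ZMod N} {Γ : Type} [Group Γ] {s : ZMod N → Γ} {closed : Prop}
  (C : CornerModel opp s closed)

theorem not_pp_conj {p x : Γ} (h : IsConj p x) (hp : ¬ IsProperPower p) : ¬ IsProperPower x := by
  rintro ⟨δ, k, hk, he⟩
  obtain ⟨c, hc⟩ := isConj_iff.1 h.symm
  refine hp ⟨c * δ * c⁻¹, k, hk, ?_⟩
  rw [conj_pow, ← he, hc]

/-- The combinatorial part of the interface. -/
theorem exists_good (hN : 3 ≤ N) (hopp : ∀ i, opp (opp i) = i) (hne : ∀ i, opp i ≠ i)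
    (hs : ∀ i, s i * s (opp i) = 1) (r : ℕ) (l : Fin r → Γ) (hl : ∀ j, l j ≠ 1)
    (hlP : ∀ j, C.P (l j)) (hpp : ∀ j, ¬ IsProperPower (l j))
    (htr : ∀ i j k, 2 ≤ (C.hol (l i * (k * l j * k⁻¹) * (l i)⁻¹ * (k * l j * k⁻¹)⁻¹)).1.trace)
    (hdiff : ∀ i j, i ≠ j → ¬ IsConj (l i) (l j) ∧ ¬ IsConj (l i) (l j)⁻¹) :
    ∃ (w : Fin r → List (ZMod N)) (pos : Fin r → ℕ → ℤ), GoodWords opp w pos closed ∧
      (∀ j, IsConj ((w j).map s).prod (l j)) ∧
      ∃ θ : ZMod N → ℤ, (∀ i, θ (opp i) = θ i ∧ (θ i = 1 ∨ θ i = -1)) ∧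
        ∀ j, 0 < ((wordSign opp (w j) * ((w j).map θ).prod : ℤ) : ℝ) *
          (C.hol (l j)).1.trace := by
  choose c hcr using fun j => C.exists_cross (l j) (hl j)
  have hG1 : ∀ j, c j * l j * (c j)⁻¹ ≠ 1 := by
    intro j h
    apply hl j
    have : l j = (c j)⁻¹ * (c j * l j * (c j)⁻¹) * c j := by group
    rw [this, h]
    group
  have hGc : ∀ j, IsConj (l j) (c j * l j * (c j)⁻¹) := fun j => isConj_iff.2 ⟨c j, rfl⟩
  choose n hn0 hper hmin using fun j => C.exists_period hN hopp (hG1 j) (hcr j)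
  have hppc : ∀ j x, IsConj (c j * l j * (c j)⁻¹) x → ¬ IsProperPower x :=
    fun j x hx => not_pp_conj ((hGc j).trans hx) (hpp j)
  have hne1 : ∀ j x, IsConj (c j * l j * (c j)⁻¹) x → x ≠ 1 := by
    rintro j x hx rfl
    exact hG1 j (isConj_one_left.1 hx)
  have htr' : ∀ i j x y, IsConj (c i * l i * (c i)⁻¹) x → IsConj (c j * l j * (c j)⁻¹) y →
      2 ≤ (C.hol (x * y * x⁻¹ * y⁻¹)).1.trace :=
    fun i j x y hx hy => C.two_le_of_conj (htr i j) ((hGc i).trans hx) ((hGc j).trans hy)
  let F : CorFam C r :=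
    { hN := hN
      hopp := hopp
      hne := hne
      hs := hs
      G := fun j => c j * l j * (c j)⁻¹
      n := n
      G_ne := hG1
      crosses := hcr
      n_pos := hn0
      per := hper
      hmin := hmin
      dis := by
        intro i j x y hx hy h1 h2
        refine C.lt_cases (hne1 i x hx) (hne1 j y hy) ?_
        refine C.two_lt_comm (hne1 i x hx) (hppc i x hx) (hppc j y hy) h1.symm ?_
          (htr' i j x y hx hy)
        intro h3
        exact h2 (by rw [h3, inv_inv])
      diff := by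
        intro i j hij
        refine ⟨fun h => (hdiff i j hij).1 (((hGc i).trans h).trans (hGc j).symm),
          fun h => (hdiff i j hij).2 (((hGc i).trans h).trans (CorFam.conj_inv (hGc j)).symm)⟩ }
  have hprod : ∀ j, ((List.range (n j)).map fun k => s (C.ex (F.H j k))).prod =
      c j * l j * (c j)⁻¹ := by
    intro j
    refine C.cycle (c j * l j * (c j)⁻¹) (n j) (fun k => C.ex (F.H j k)) (F.H j) (hG1 j)
      (C.P_conj _ _ (hGc j) (hlP j)) (hppc j _ (IsConj.refl _)) (hn0 j) rfl (hper j) ?_ ?_ ?_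
    · intro k hk h0
      exact hmin j k hk h0
    · intro k _
      exact C.ex_spec hN (F.H_crosses j k)
    · intro k _
      rw [F.H_succ]
      rfl
  have hWprod : ∀ j, ((F.W j).map s).prod = c j * l j * (c j)⁻¹ := by
    intro j
    rw [← hprod j]
    unfold CorFam.W
    rw [List.map_map]
    rfl
  refine ⟨F.W, F.pos, F.goodWords, ?_, fun i =>
    -(if i.val < (opp i).val then 1 else -1) * C.θ i, ?_, ?_⟩
  · intro j
    rw [hWprod]
    exact (hGc j).symm
  · intro i
    beta_reduce
    constructor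
    · by_cases h : i.val < (opp i).val
      · have h' : ¬ (opp i).val < (opp (opp i)).val := by
          rw [F.can_opp]
          exact not_not.2 h
        rw [if_pos h, if_neg h', C.θ_opp]
        ring
      · have h' : (opp i).val < (opp (opp i)).val := (F.can_opp i).2 h
        rw [if_neg h, if_pos h', C.θ_opp]
        ring
    · rcases C.θ_sq i with h | h <;> rw [h] <;> split_ifs <;> simp
  · intro j
    have h1 := C.sign (c j * l j * (c j)⁻¹) (n j) (fun k => C.ex (F.H j k)) (F.H j) (hG1 j)
      (C.P_conj _ _ (hGc j) (hlP j)) (hn0 j) rfl (hper j) (fun k _ => C.ex_spec hN (F.H_crosses j k))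
      (fun k _ => by rw [F.H_succ]; rfl) (hprod j)
    have h2 : (C.hol (c j * l j * (c j)⁻¹)).1.trace = (C.hol (l j)).1.trace := by
      rw [map_mul, map_mul, map_inv, trace_conj_sl]
    rw [h2] at h1
    have h3 : wordSign opp (F.W j) * ((F.W j).map fun i =>
        -(if i.val < (opp i).val then 1 else -1) * C.θ i).prod =
        ∏ k ∈ Finset.range (n j), C.θ (C.ex (F.H j k)) *
          (if (opp (C.ex (F.H j k))).val < (C.ex (F.H j ((k + 1) % n j))).val then 1
            else -1) := by
      have e1 : ((F.W j).map fun i : ZMod N =>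
          -(if i.val < (opp i).val then 1 else -1) * C.θ i).prod =
          ∏ k ∈ Finset.range (n j), (-(if (C.ex (F.H j k)).val < (opp (C.ex (F.H j k))).val
            then 1 else -1) * C.θ (C.ex (F.H j k))) := by
        unfold CorFam.W
        rw [List.map_map, cor_list_prod]
        rfl
      rw [e1]
      unfold wordSign
      rw [F.W_len, ← Finset.prod_mul_distrib]
      refine Finset.prod_congr rfl fun k hk => ?_
      have hk' : k < F.n j := Finset.mem_range.1 hk
      have hk'' : (k + 1) % F.n j < F.n j := Nat.mod_lt _ (F.n_pos j)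
      rw [F.W_getD hk', F.W_getD hk'']
      change -1 * _ * (if _ < (C.ex (F.H j ((k + 1) % n j))).val then (1 : ℤ) else -1) * _ = _
      split_ifs <;> ring
    rw [h3]
    exact h1

end CornerModel

end Pool.Agent.AMU.Cor
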