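import Pool.Agent.Lib.AMU.Cor7

/-!
# Section D, part 8: the final model gives a hyperbolic model

The signs of a `CModel` are not antisymmetric under `g ↦ g⁻¹` (ties count as left); for a family
`l` of elements we choose a set `S` of group elements, invariant under conjugation, which contains
the `l j` and exactly one of `g`, `g⁻¹` for every `g ≠ 1`, and define the signs by the elements of
`S`.
-/

set_option autoImplicit false

namespace Pool.Agent.AMU.Cor

open Matrix

section choice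

variable {Γ : Type} [Group Γ] {r : ℕ}

/-- The elements which are conjugate to an element of the family. -/
def FamC (l : Fin r → Γ) (g : Γ) : Prop := ∃ j, IsConj (l j) g

open Classical in
/-- The chosen orientations. -/
def Ori (l : Fin r → Γ) (g : Γ) : Prop :=
  FamC l g ∨ (¬ FamC l g⁻¹ ∧ WellOrderingRel (ConjClasses.mk g) (ConjClasses.mk g⁻¹))

theorem isConj_inv {g h : Γ} (hc : IsConj g h) : IsConj g⁻¹ h⁻¹ := by
  obtain ⟨c, hc⟩ := isConj_iff.1 hc
  refine isConj_iff.2 ⟨c, ?_⟩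
  rw [← hc]
  group

theorem FamC.conj {l : Fin r → Γ} {g h : Γ} (hc : IsConj g h) (hg : FamC l g) : FamC l h := by
  obtain ⟨j, hj⟩ := hg
  exact ⟨j, hj.trans hc⟩

theorem famC_iff {l : Fin r → Γ} {g h : Γ} (hc : IsConj g h) : FamC l g ↔ FamC l h :=
  ⟨fun h1 => h1.conj hc, fun h1 => h1.conj hc.symm⟩

theorem ori_iff {l : Fin r → Γ} {g h : Γ} (hc : IsConj g h) : Ori l g ↔ Ori l h := by
  unfold Ori
  rw [famC_iff hc, famC_iff (isConj_inv hc), ConjClasses.mk_eq_mk_iff_isConj.2 hc,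
    ConjClasses.mk_eq_mk_iff_isConj.2 (isConj_inv hc)]

theorem ori_inv {l : Fin r → Γ} (hnc : ∀ g : Γ, g ≠ 1 → ¬ IsConj g g⁻¹) (hl : ∀ j, l j ≠ 1)
    (hdiff : ∀ i j, i ≠ j → ¬ IsConj (l i) (l j)⁻¹) {g : Γ} (hg : g ≠ 1) :
    Ori l g⁻¹ ↔ ¬ Ori l g := by
  have hno : FamC l g → ¬ FamC l g⁻¹ := by
    rintro ⟨i, hi⟩ ⟨j, hj⟩
    have h1 : IsConj (l i) (l j)⁻¹ := by
      have := isConj_inv hj
      rw [inv_inv] at this
      exact hi.trans this.symm
    by_cases hij : i = j
    · subst hij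
      exact hnc (l i) (hl i) h1
    · exact hdiff i j hij h1
  have hne : ConjClasses.mk g ≠ ConjClasses.mk g⁻¹ := fun h =>
    hnc g hg (ConjClasses.mk_eq_mk_iff_isConj.1 h)
  unfold Ori
  rw [inv_inv]
  constructor
  · rintro (h | ⟨h, h'⟩)
    · rintro (h1 | ⟨h1, -⟩)
      · exact hno h1 h
      · exact h1 h
    · rintro (h1 | ⟨-, h1⟩)
      · exact h h1
      · exact asymm_of WellOrderingRel h1 h'
  · intro h
    rw [not_or, not_and_or, not_not] at h
    obtain ⟨h1, h2 | h2⟩ := h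
    · exact Or.inl h2
    · by_cases h3 : FamC l g⁻¹
      · exact Or.inl h3
      · refine Or.inr ⟨h1, ?_⟩
        rcases trichotomous_of WellOrderingRel (ConjClasses.mk g) (ConjClasses.mk g⁻¹) with
          h4 | h4 | h4
        · exact absurd h4 h2
        · exact absurd h4 hne
        · exact h4

end choice

theorem axN_eq (g Q : Matrix (Fin 2) (Fin 2) ℝ) : axN g Q = g.trace * axisFun g Q := rfl

theorem not_conj_inv' {Γ : Type} [Group Γ] {hol : Γ →* SpecialLinearGroup (Fin 2) ℝ}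
    (hyp : ∀ g : Γ, g ≠ 1 → 2 < |(hol g).1.trace|) {g : Γ} (hg : g ≠ 1) : ¬ IsConj g g⁻¹ := by
  intro hcon
  obtain ⟨k, h⟩ := isConj_iff.1 hcon
  have h1 : hol k * hol g = (hol g)⁻¹ * hol k := by
    rw [← map_mul, ← map_inv, ← map_mul, ← h]
    congr 1
    group
  have hm : (hol k).1 * (hol g).1 = ((hol g)⁻¹).1 * (hol k).1 := by
    rw [← sl_mul, h1, sl_mul]
  rw [sl_inv] at hm
  have m00 := congrFun (congrFun hm 0) 0
  have m01 := congrFun (congrFun hm 0) 1
  have m10 := congrFun (congrFun hm 1) 0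
  have m11 := congrFun (congrFun hm 1) 1
  simp only [mul_apply, Fin.sum_univ_two, of_apply, cons_val', cons_val_zero, cons_val_one,
    empty_val', cons_val_fin_one] at m00 m01 m10 m11
  have ht : (hol k).1.trace = 0 := by
    rw [trace_fin_two]
    by_contra hcon
    have a1 : (hol g).1 0 1 * ((hol k).1 0 0 + (hol k).1 1 1) = 0 := by
      linear_combination m01
    have a2 : (hol g).1 1 0 * ((hol k).1 0 0 + (hol k).1 1 1) = 0 := by
      linear_combination m10
    have a3 : ((hol g).1 0 0 - (hol g).1 1 1) *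
        ((hol k).1 0 0 + (hol k).1 1 1) = 0 := by
      linear_combination m00 - m11
    exact cor_not_scalar (hyp g hg) ((mul_eq_zero.1 a1).resolve_right hcon)
      ((mul_eq_zero.1 a2).resolve_right hcon)
      (sub_eq_zero.1 ((mul_eq_zero.1 a3).resolve_right hcon))
  by_cases hk : k = 1
  · subst hk
    rw [map_one, sl_one] at ht
    norm_num at ht
  · have := hyp k hk
    rw [ht] at this
    norm_num at this

theorem axisFun_nrm_nonneg {G : SpecialLinearGroup (Fin 2) ℝ} {Q : Matrix (Fin 2) (Fin 2) ℝ}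
    (hG : 2 < |G.1.trace|) (h : 0 ≤ axN G.1 Q) : 0 ≤ axisFun (nrm G).1 Q := by
  rw [axN_eq] at h
  by_cases h0 : 0 ≤ G.1.trace
  · rw [nrm_pos h0]
    rw [abs_of_nonneg h0] at hG
    exact nonneg_of_mul_nonneg_right h (by linarith)
  · rw [nrm_neg h0, cor_neg_axisFun]
    have h1 : G.1.trace < 0 := not_le.1 h0
    by_contra h2
    have h3 : 0 < axisFun G.1 Q := by linarith
    have := mul_neg_of_neg_of_pos h1 h3
    linarith

theorem axisFun_nrm_nonpos {G : SpecialLinearGroup (Fin 2) ℝ} {Q : Matrix (Fin 2) (Fin 2) ℝ}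
    (hG : 2 < |G.1.trace|) (h : axN G.1 Q ≤ 0) : axisFun (nrm G).1 Q ≤ 0 := by
  rw [axN_eq] at h
  by_cases h0 : 0 ≤ G.1.trace
  · rw [nrm_pos h0]
    rw [abs_of_nonneg h0] at hG
    by_contra h2
    have := mul_pos (show 0 < G.1.trace by linarith) (not_le.1 h2)
    linarith
  · rw [nrm_neg h0, cor_neg_axisFun]
    have h1 : G.1.trace < 0 := not_le.1 h0
    by_contra h2
    have h3 : axisFun G.1 Q < 0 := by linarith
    have := mul_pos_of_neg_of_neg h1 h3
    linarith

theorem axN_inv (G : SpecialLinearGroup (Fin 2) ℝ) {Q : Matrix (Fin 2) (Fin 2) ℝ}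
    (hQ : Q 1 0 = Q 0 1) : axN (G⁻¹).1 Q = -axN G.1 Q := by
  rw [axN_eq, axN_eq, trace_inv_sl, cor_axisFun _ _ hQ, cor_axisFun _ _ hQ, sl_inv]
  simp only [of_apply, cons_val', cons_val_zero, cons_val_one, empty_val', cons_val_fin_one]
  ring

/-- The axis functional under conjugation. -/
theorem axN_conj (G K : SpecialLinearGroup (Fin 2) ℝ) (Q : Matrix (Fin 2) (Fin 2) ℝ) :
    axN (K⁻¹ * G * K).1 Q = axN G.1 (K.1 * Q * K.1ᵀ) := by
  have ht : (K⁻¹ * G * K).1.trace = G.1.trace := by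
    have := trace_conj_sl G K⁻¹
    rwa [inv_inv] at this
  have hd := sl_det K
  rw [axN_eq, axN_eq, ht]
  congr 1
  have h1 : (K⁻¹ * G * K).1 = !![K.1 1 1, -K.1 0 1; -K.1 1 0, K.1 0 0] * G.1 * K.1 := by
    rw [← sl_inv]
    rfl
  unfold axisFun
  rw [h1]
  simp only [trace_fin_two, mul_apply, Fin.sum_univ_two, of_apply, cons_val', cons_val_zero,
    cons_val_one, empty_val', cons_val_fin_one, transpose_apply]
  ring

theorem axN_smul (G Q : Matrix (Fin 2) (Fin 2) ℝ) (c : ℝ) : axN G (c • Q) = c * axN G Q := by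
  unfold axN
  rw [Matrix.mul_smul, Matrix.trace_smul, smul_eq_mul]
  ring

end Pool.Agent.AMU.Cor
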