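import Pool.Agent.Lib.AMU.Iface

/-!
# The interface between the geometry (sections H, I) and the combinatorics of diagrams (section D)

The polygon has the sides `i : ZMod N`, in counterclockwise order; the side `i` goes from the point
`A i` to the point `B i`; the points are symmetric positive semidefinite matrices, interior or
boundary points of the hyperbolic plane up to positive scalars: `Q = (|z|^2, x; x, 1) / y`,
`g` acts by `Q ↦ g Q gᵀ`. In the closed case `B i = A (i + 1)`, in the Schottky case there is a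
gap between `B i` and `A (i + 1)` which contains no end point of an axis.

`0 < axN g Q`: the point `Q` is strictly on the right of the oriented axis of `g`. `OnR`: the start
of the side `i` is strictly on the right (ties count as left). Exit side `e` of `g`: `OnR g e`,
`¬ OnR g (e + 1)`; entry side `f`: `¬ OnR g f`, `OnR g (f + 1)`. The next element of the strand is
`(s e)⁻¹ * g * s e`, whose entry side is `opp e`.
-/

set_option autoImplicit false

namespace Pool.Agent.AMU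

open Matrix

/-- The axis functional: positive strictly on the right of the oriented axis of the hyperbolic
matrix `g`, linear in `Q`, `axN (k g k⁻¹) (k Q kᵀ) = axN g Q`, `axN g⁻¹ Q = - axN g Q`. -/
def axN (g Q : Matrix (Fin 2) (Fin 2) ℝ) : ℝ := g.trace * (!![0, -1; 1, 0] * g * Q).trace

/-- The start of the side `i` is strictly on the right of the axis of `g`. -/
def OnR {N : ℕ} {Γ : Type} [Group Γ] (hol : Γ →* SpecialLinearGroup (Fin 2) ℝ)
    (A : ZMod N → Matrix (Fin 2) (Fin 2) ℝ) (g : Γ) (i : ZMod N) : Prop :=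
  0 < axN (hol g).1 (A i)

/-- The axis of `g` crosses the polygon. -/
def Crosses {N : ℕ} {Γ : Type} [Group Γ] (hol : Γ →* SpecialLinearGroup (Fin 2) ℝ)
    (A : ZMod N → Matrix (Fin 2) (Fin 2) ℝ) (g : Γ) : Prop :=
  ∃ i j, OnR hol A g i ∧ ¬ OnR hol A g j

/-- The strand of `g`: `u` is the sequence of the exit sides. -/
structure IsStrand {N : ℕ} {Γ : Type} [Group Γ] (s : ZMod N → Γ)
    (hol : Γ →* SpecialLinearGroup (Fin 2) ℝ) (A : ZMod N → Matrix (Fin 2) (Fin 2) ℝ)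
    (n : ℕ) (u : ℕ → ZMod N) (h : ℕ → Γ) : Prop where
  exitR : ∀ k < n, OnR hol A (h k) (u k)
  exitL : ∀ k < n, ¬ OnR hol A (h k) (u k + 1)
  next : ∀ k < n, h (k + 1) = (s (u k))⁻¹ * h k * s (u k)

/-- The geometric model of a surface. -/
structure CModel {N : ℕ} (opp : ZMod N → ZMod N) {Γ : Type} [Group Γ] (s : ZMod N → Γ)
    (closed : Prop) where
  hol : Γ →* SpecialLinearGroup (Fin 2) ℝ
  hyp : ∀ g : Γ, g ≠ 1 → 2 < |(hol g).1.trace|
  disc : ∀ T : ℝ, {t : ℝ | t ≤ T ∧ ∃ g : Γ, |(hol g).1.trace| = t}.Finite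
  A : ZMod N → Matrix (Fin 2) (Fin 2) ℝ
  B : ZMod N → Matrix (Fin 2) (Fin 2) ℝ
  A_symm : ∀ i, A i 1 0 = A i 0 1
  B_symm : ∀ i, B i 1 0 = B i 0 1
  A_psd : ∀ i, 0 ≤ A i 0 0 ∧ 0 ≤ A i 1 1 ∧ 0 ≤ (A i).det
  B_psd : ∀ i, 0 ≤ B i 0 0 ∧ 0 ≤ B i 1 1 ∧ 0 ≤ (B i).det
  A_ne : ∀ i, A i ≠ 0
  B_ne : ∀ i, B i ≠ 0
  conv : ∀ i j k : ZMod N, i.val < j.val → j.val < k.val → 0 < det3 (A i) (A j) (A k)
  glueA : ∀ i, ∃ c : ℝ, 0 < c ∧ (hol (s i)).1 * B (opp i) * (hol (s i)).1ᵀ = c • A i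
  glueB : ∀ i, ∃ c : ℝ, 0 < c ∧ (hol (s i)).1 * A (opp i) * (hol (s i)).1ᵀ = c • B i
  corner : ∀ g i, g ≠ 1 → (0 < axN (hol g).1 (B i) ↔ 0 < axN (hol g).1 (A (i + 1)))
  /-- Every element has a conjugate which crosses the polygon. -/
  exists_cross : ∀ g : Γ, g ≠ 1 → ∃ k : Γ, Crosses hol A (k * g * k⁻¹)
  /-- Finitely many conjugates cross the polygon. -/
  finite_cross : ∀ g : Γ, g ≠ 1 → {h : Γ | IsConj g h ∧ Crosses hol A h}.Finite
  /-- The product of the letters of the cycle of a primitive element is the element. -/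
  cycle : ∀ (g : Γ) (n : ℕ) (u : ℕ → ZMod N) (h : ℕ → Γ), g ≠ 1 → ¬ IsProperPower g →
    0 < n → h 0 = g → h n = g → (∀ k < n, 0 < k → h k ≠ g) → IsStrand s hol A n u h →
    ((List.range n).map fun k => s (u k)).prod = g
  /-- The sign of the trace along the cycle. -/
  θ : ZMod N → ℤ
  θ_opp : ∀ i, θ (opp i) = -θ i
  θ_sq : ∀ i, θ i = 1 ∨ θ i = -1
  sign : ∀ (g : Γ) (n : ℕ) (u : ℕ → ZMod N) (h : ℕ → Γ), g ≠ 1 →
    0 < n → h 0 = g → h n = g → IsStrand s hol A n u h →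
    ((List.range n).map fun k => s (u k)).prod = g →
    0 < ((∏ k ∈ Finset.range n, θ (u k) *
      (if (opp (u k)).val < (u ((k + 1) % n)).val then 1 else -1) : ℤ) : ℝ) * (hol g).1.trace
  /-- Closed case: no strand cuts off all corners (on its right or on its left). -/
  uncutR : closed → ∀ g : ZMod N → Γ, (∀ i, g i ≠ 1) →
    (∀ i, g (opp (i - 1)) = (s (i - 1))⁻¹ * g i * s (i - 1)) →
    (∀ i, OnR hol A (g i) i) → ∃ i, OnR hol A (g i) (i - 1) ∨ OnR hol A (g i) (i + 1)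
  uncutL : closed → ∀ g : ZMod N → Γ, (∀ i, g i ≠ 1) →
    (∀ i, g (opp (i - 1)) = (s (i - 1))⁻¹ * g i * s (i - 1)) →
    (∀ i, ¬ OnR hol A (g i) i) → ∃ i, ¬ OnR hol A (g i) (i - 1) ∨ ¬ OnR hol A (g i) (i + 1)

end Pool.Agent.AMU
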