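import Mathlib

/-!
# The quantum representations of surface groups: definitions

## Surfaces

An oriented surface is given by a polygon with `N` sides, numbered counterclockwise by `ZMod N`,
and by an involution `opp` without fixed points: the side `i` is glued with the side `opp i`
(reversing the orientation). The corner `i` is the starting point of the side `i`. The starting
point of the side `i` is glued with the end point of the side `opp i`, i.e. with the corner
`opp i + 1`.

* The closed surface of genus `g` is the regular `4g`-gon with opposite sides glued; all corners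
  are one point.
* The surfaces with punctures: all corners are removed.

The letter `i` stands for crossing the side `i` from the inside of the polygon to the outside,
i.e. re-entering the polygon through the side `opp i`; homotopy classes of loops are words.
-/

set_option autoImplicit false

namespace Pool.Agent.AMU

/-! ## Fundamental groups -/

/-- The gluing of the opposite sides of the `4g`-gon. -/
def closedOpp (g : ℕ) (i : ZMod (4 * g)) : ZMod (4 * g) := i + ((2 * g : ℕ) : ZMod (4 * g))

/-- The word read around the only vertex of the closed surface: `0, 2g+1, 2(2g+1), ..`. -/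
def vertexWord (g : ℕ) : List (ZMod (4 * g)) :=
  (List.range (4 * g)).map fun k => ((k * (2 * g + 1) : ℕ) : ZMod (4 * g))

/-- The relations of the fundamental group of the punctured surface. -/
def puncturedRels {N : ℕ} (opp : ZMod N → ZMod N) : Set (FreeGroup (ZMod N)) :=
  {r | ∃ i, r = FreeGroup.of i * FreeGroup.of (opp i)}

/-- The fundamental group of the punctured surface. -/
abbrev PuncturedGroup {N : ℕ} (opp : ZMod N → ZMod N) : Type := PresentedGroup (puncturedRels opp)

/-- The relations of the fundamental group of the closed surface. -/
def closedRels (g : ℕ) : Set (FreeGroup (ZMod (4 * g))) :=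
  puncturedRels (closedOpp g) ∪ {((vertexWord g).map FreeGroup.of).prod}

/-- The fundamental group of the closed surface of genus `g`. -/
abbrev SurfaceGroup (g : ℕ) : Type := PresentedGroup (closedRels g)

/-! ## Diagrams -/

/-- A boundary point of the polygon: `(k, u, b)` is the `u`-th parallel strand (counted from the
left) of the `k`-th letter of the word, at its departure side (`b = false`) or at its arrival side
(`b = true`). -/
abbrev Pt : Type := ℕ × ℕ × Bool

section diagrams

variable {N : ℕ} (opp : ZMod N → ZMod N) (w : List (ZMod N)) (ord : ℕ → ℤ)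

/-- The side of a point. -/
def ptSide (x : Pt) : ZMod N := if x.2.2 then opp (w.getD x.1 0) else w.getD x.1 0

/-- The position of a point on the boundary of the polygon: the side, the position of the letter
on the side (`ord` gives the order of the letters on the first side of every pair of sides; on the
second side the order is reversed), the position of the strand. The order is lexicographic. -/
def ptKey (x : Pt) : ℤ ×ₗ ℤ ×ₗ ℤ :=
  toLex (((ptSide opp w x).val : ℤ),
    toLex (if (ptSide opp w x).val < (opp (ptSide opp w x)).val then ord x.1 else -ord x.1,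
      if x.2.2 then (x.2.1 : ℤ) else -(x.2.1 : ℤ)))

/-- The chords of the diagram, from the top to the bottom: the chord `k` goes from the arrival
point of the letter `k` to the departure point of the letter `k + 1` (cyclically); the later chord
is above the earlier one; every chord is replaced by `m` parallel strands. -/
def chords (m : ℕ) : List (Pt × Pt) :=
  (List.range w.length).reverse.flatMap fun k =>
    (List.range m).map fun u => ((k, u, true), ((k + 1) % w.length, u, false))

/-- The end points of a list of chords. -/
def ends (L : List (Pt × Pt)) : List Pt := L.flatMap fun c => [c.1, c.2]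

/-- The number of points of `P` before `x`. -/
def rank (P : List Pt) (x : Pt) : ℕ :=
  P.countP fun y => decide (ptKey opp w ord y < ptKey opp w ord x)

/-- The number of points of `P` on the sides before `i`. -/
def corner (P : List Pt) (i : ℕ) : ℕ := P.countP fun y => decide ((ptSide opp w y).val < i)

/-- No two chords of the diagram of the word cross. -/
def Noncrossing : Prop :=
  ∀ c ∈ chords w 1, ∀ d ∈ chords w 1,
    ¬ (min (ptKey opp w ord c.1) (ptKey opp w ord c.2) <
        min (ptKey opp w ord d.1) (ptKey opp w ord d.2) ∧
      min (ptKey opp w ord d.1) (ptKey opp w ord d.2) <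
        max (ptKey opp w ord c.1) (ptKey opp w ord c.2) ∧
      max (ptKey opp w ord c.1) (ptKey opp w ord c.2) <
        max (ptKey opp w ord d.1) (ptKey opp w ord d.2))

end diagrams

/-- The free homotopy class of `γ` contains a simple closed curve. -/
def IsSimple {N : ℕ} (opp : ZMod N → ZMod N) {Γ : Type} [Group Γ] (s : ZMod N → Γ) (γ : Γ) :
    Prop :=
  ∃ w : List (ZMod N), w ≠ [] ∧ IsConj (w.map s).prod γ ∧
    ∃ ord : ℕ → ℤ, Function.Injective ord ∧ Noncrossing opp w ord

/-- A proper power. -/
def IsProperPower {Γ : Type} [Group Γ] (γ : Γ) : Prop := ∃ (δ : Γ) (k : ℕ), 2 ≤ k ∧ γ = δ ^ k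

/-! ## The state sum -/

/-- Amplitudes of the polygon: functions of the colour of the corner `0` and of the list of the
steps (`1` or `-1`) of the colours at the boundary points. -/
abbrev Amp (K : Type) : Type := ℤ → List ℤ → K

/-- The colour before the `i`-th point. -/
def col (n : ℤ) (s : List ℤ) (i : ℕ) : ℤ := n + (s.take i).sum

section ops

variable {K : Type} [Field K] (Δ : ℤ → K) (A : K)

/-- Insert a cup which joins the new adjacent points `i`, `i + 1`. -/
def cup (i : ℕ) (f : Amp K) : Amp K := fun n s =>
  if s.getD i 0 + s.getD (i + 1) 0 = 0 then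
    Δ (col n s (i + 1)) * f n (s.take i ++ s.drop (i + 2)) else 0

/-- The Temperley-Lieb generator at the adjacent points `i`, `i + 1`. -/
def tl (i : ℕ) (f : Amp K) : Amp K := fun n s =>
  if s.getD i 0 + s.getD (i + 1) 0 = 0 then
    Δ (col n s (i + 1)) / Δ (col n s i) *
      (f n (s.take i ++ [1, -1] ++ s.drop (i + 2)) + f n (s.take i ++ [-1, 1] ++ s.drop (i + 2)))
  else 0

/-- A crossing at the adjacent points `i`, `i + 1` (Kauffman relation). -/
def cross (i : ℕ) (f : Amp K) : Amp K := fun n s => A * f n s + A⁻¹ * tl Δ i f n s

/-- Insert a chord which joins the new points `i < j` and passes over everything. -/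
def insertChord (i j : ℕ) (f : Amp K) : Amp K :=
  (List.range' (i + 1) (j - 1 - i)).foldl (fun h k => cross Δ A k h) (cup Δ i f)

/-- The amplitude of a list of chords (from the top to the bottom) with given positions. -/
def amp (rk : List Pt → Pt → ℕ) : List (Pt × Pt) → Amp K
  | [] => fun n _ => Δ n
  | c :: L =>
    insertChord Δ A (min (rk (ends (c :: L)) c.1) (rk (ends (c :: L)) c.2))
      (max (rk (ends (c :: L)) c.1) (rk (ends (c :: L)) c.2)) (amp rk L)

end ops

section colours

variable {K : Type} [Field K] (A : K)

/-- The entries of the S-matrix (up to normalization); the colour with dimension label `1` is the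
trivial one. -/
def smat (a n : ℤ) : K :=
  (-1) ^ (a + n) * ((A ^ (2 * a * n) - A ^ (-(2 * a * n))) / (A ^ (2 : ℤ) - A ^ (-2 : ℤ)))

/-- The quantum dimensions. -/
def qdim (n : ℤ) : K := smat A 1 n

/-- The twists. -/
def twist (n : ℤ) : K := (-1) ^ (n - 1) * A ^ (n ^ 2 - 1)

end colours

/-- The step of a Boolean. -/
def sgn (b : Bool) : ℤ := if b then 1 else -1

section statesum

variable {N : ℕ} (opp : ZMod N → ZMod N) (w : List (ZMod N)) (ord : ℕ → ℤ) (m : ℕ)

/-- The admissible colourings of the boundary intervals of the polygon: the colours are between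
`0` and `p`, and they agree on glued intervals. -/
def Admissible (p : ℕ) (n : ℤ) (s : List ℤ) : Prop :=
  (∀ i ≤ s.length, 0 < col n s i ∧ col n s i < p) ∧ s.sum = 0 ∧
  (∀ j < N, col n s (corner opp w (ends (chords w m)) j) =
    col n s (corner opp w (ends (chords w m)) ((opp (j : ZMod N)).val + 1))) ∧
  ∀ k < w.length, ∀ u < m,
    s.getD (rank opp w ord (ends (chords w m)) (k, u, false)) 0 =
      -s.getD (rank opp w ord (ends (chords w m)) (k, u, true)) 0

instance (p : ℕ) (n : ℤ) (s : List ℤ) : Decidable (Admissible opp w ord m p n s) := by
  unfold Admissible; infer_instance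

/-- The smallest corners of the classes of glued corners. -/
def vertices : List ℕ :=
  (List.range N).filter fun i =>
    (List.range N).all fun k => decide (i ≤ (((fun j => opp j + 1)^[k]) (i : ZMod N)).val)

variable {K : Type} [Field K]

/-- The weight of a colouring, `lam` gives the labels of the vertices. -/
def weight (A : K) (lam : ZMod N → ℕ) (n : ℤ) (s : List ℤ) : K :=
  ((vertices opp).map fun i : ℕ =>
    smat A (lam (i : ZMod N)) (col n s (corner opp w (ends (chords w m)) i))).prod *
  (∏ i ∈ (Finset.range N).filter (fun i : ℕ => i < (opp (i : ZMod N)).val),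
    ∏ j ∈ Finset.Icc (corner opp w (ends (chords w m)) i)
      (corner opp w (ends (chords w m)) (i + 1)), (qdim A (col n s j))⁻¹) *
  ∏ u ∈ Finset.range m,
    (twist A (col n s (rank opp w ord (ends (chords w m)) (0, u, false))) /
      twist A (col n s (rank opp w ord (ends (chords w m)) (0, u, false) + 1)))

/-- The state sum without normalization. -/
def rawZ (p : ℕ) (A : K) (lam : ZMod N → ℕ) : K :=
  ∑ n ∈ Finset.range p, ∑ e : Fin (2 * (w.length * m)) → Bool,
    if Admissible opp w ord m p n (List.ofFn fun i => sgn (e i)) then
      weight opp w ord m A lam n (List.ofFn fun i => sgn (e i)) *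
        amp (qdim A) A (rank opp w ord) (chords w m) n (List.ofFn fun i => sgn (e i))
    else 0

/-- The Euler characteristic of the surface obtained by filling all punctures. -/
def eulerChar : ℤ := ((vertices opp).length : ℤ) - (N / 2 : ℕ) + 1

/-- The invariant of the closed braid of the word `w` in (surface) × (circle), with the colour
`c`. -/
def Z (p : ℕ) (A : K) (lam : ZMod N → ℕ) (c : ℕ) : K :=
  (-(A ^ (2 : ℤ) - A ^ (-2 : ℤ)) ^ 2 / p) ^ (eulerChar opp / 2) / 2 *
    ∑ i ∈ Finset.range (c / 2 + 1), (-1) ^ i * ((c - i).choose i : K) *
      rawZ opp w ord (c - 2 * i) p A lam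

end statesum

/-! ## The representations -/

/-- The projective linear group. -/
abbrev PGL (d : ℕ) : Type := GL (Fin d) ℂ ⧸ Subgroup.center (GL (Fin d) ℂ)

/-- `ρ` is the projective representation of the fundamental group `Γ` on the space associated
by the `SO(3)` Witten-Reshetikhin-Turaev theory to the surface, with the colour `c` at the base
point: its character is given by the invariants of the closed braids. -/
def IsWRT {N : ℕ} (opp : ZMod N → ZMod N) {Γ : Type} [Group Γ] (s : ZMod N → Γ) (c p : ℕ) (A : ℂ)
    (lam : ZMod N → ℕ) {d : ℕ} (ρ : Γ →* PGL d) : Prop :=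
  ∀ γ : Γ, ∃ T : GL (Fin d) ℂ, (T : PGL d) = ρ γ ∧
    (∃ k : ℕ, 0 < k ∧ (T : Matrix (Fin d) (Fin d) ℂ).det ^ k = 1) ∧
    ∀ w : List (ZMod N), w ≠ [] → (w.map s).prod = γ →
      ∀ ord : ℕ → ℤ, Function.Injective ord →
        ∃ ε : ℂ, (∃ k : ℕ, 0 < k ∧ ε ^ k = 1) ∧
          (T : Matrix (Fin d) (Fin d) ℂ).trace = ε * Z opp w ord p A lam c

/-- The colourings of the punctures, given by the dimension labels. -/
def IsColouring {N : ℕ} (opp : ZMod N → ZMod N) (p : ℕ) (lam : ZMod N → ℕ) : Prop :=
  ∀ i, lam (opp i + 1) = lam i ∧ Odd (lam i) ∧ lam i < p

end Pool.Agent.AMU
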