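import Pool.Agent.Lib.AMU.Tau

/-!
# The classical functional on lists of strands; exchange of strands (section F2)
-/

set_option autoImplicit false

namespace Pool.Agent.AMU

/-- A strand: the canonical side which it crosses, the label there, the label on the other side. -/
abbrev Strand (N : ℕ) : Type := ZMod N × Bool × Bool

section

variable {N : ℕ} (opp : ZMod N → ZMod N)

/-- The steps of the strands on the side `i`. -/
def steps (S : List (Strand N × Bool)) (i : ZMod N) : List Bool :=
  (S.filter (fun t => decide (t.1.1 = i))).map Prod.snd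

/-- The boundary word on the side `j`. -/
def sideWord (S : List (Strand N × Bool)) (j : ZMod N) : List (Bool × Bool) :=
  if j.val < (opp j).val then
    (S.filter (fun t => decide (t.1.1 = j))).map (fun t => (t.2, t.1.2.1))
  else ((S.filter (fun t => decide (t.1.1 = opp j))).map (fun t => (!t.2, t.1.2.2))).reverse

/-- The product of the inverse quantum dimensions of the intervals. -/
noncomputable def wprod (y : ℝ) : ℤ → List Bool → ℝ
  | s, [] => (dl y s)⁻¹
  | s, b :: l => (dl y s)⁻¹ * wprod y (s + sgn b) l

/-- The operator of the boundary of the polygon. -/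
noncomputable def bdry (y : ℝ) (S : List (Strand N × Bool)) : Module.End ℝ Fn :=
  ((List.range N).map fun j : ℕ => (W y 0 (sideWord opp S (j : ZMod N)) : Module.End ℝ Fn)).prod

/-- The steps on every canonical side sum to `0`. -/
def Bal (S : List (Strand N × Bool)) : Prop :=
  ∀ i : ZMod N, i.val < (opp i).val → stepSum (steps S i) = 0

variable [NeZero N]

/-- The canonical sides. -/
def canon : Finset (ZMod N) := Finset.univ.filter fun i : ZMod N => i.val < (opp i).val

open Classical in
/-- The summand of the state sum. -/
noncomputable def termS (y : ℝ) (e : ℤ) (S : List (Strand N × Bool)) : ℝ :=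
  if Bal opp S then
    (dl y 0) ^ (e + 1) * (∏ i ∈ canon opp, wprod y 0 (steps S i)) * tau y (bdry opp y S)
  else 0

end

/-- The sum over the steps of the elements of a list. -/
def sumSteps {α : Type} : List α → (List (α × Bool) → ℝ) → ℝ
  | [], f => f []
  | a :: L, f => sumSteps L (fun S => f ((a, true) :: S)) + sumSteps L (fun S => f ((a, false) :: S))

theorem sumSteps_add {α : Type} (L : List α) (f g : List (α × Bool) → ℝ) :
    sumSteps L (fun S => f S + g S) = sumSteps L f + sumSteps L g := by
  induction L generalizing f g with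
  | nil => rfl
  | cons a L ih => simp only [sumSteps, ih]; ring

theorem sumSteps_congr {α : Type} (L : List α) {f g : List (α × Bool) → ℝ}
    (h : ∀ S, f S = g S) : sumSteps L f = sumSteps L g := by
  rw [show f = g from funext h]

theorem sumSteps_perm {α : Type} (F : List (α × Bool) → ℝ)
    (H : ∀ pre a b post,
      F (pre ++ (a, true) :: (b, true) :: post) + F (pre ++ (a, true) :: (b, false) :: post) +
      (F (pre ++ (a, false) :: (b, true) :: post) + F (pre ++ (a, false) :: (b, false) :: post)) =
      F (pre ++ (b, true) :: (a, true) :: post) + F (pre ++ (b, true) :: (a, false) :: post) +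
      (F (pre ++ (b, false) :: (a, true) :: post) + F (pre ++ (b, false) :: (a, false) :: post)))
    {L L' : List α} (h : L.Perm L') :
    ∀ pre, sumSteps L (fun S => F (pre ++ S)) = sumSteps L' (fun S => F (pre ++ S)) := by
  induction h with
  | nil => intro pre; rfl
  | cons a _ ih =>
    intro pre
    simp only [sumSteps]
    have h1 := ih (pre ++ [(a, true)])
    have h2 := ih (pre ++ [(a, false)])
    simp only [List.append_assoc, List.singleton_append] at h1 h2
    rw [h1, h2]
  | swap a b L =>
    intro pre
    simp only [sumSteps, ← sumSteps_add]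
    exact sumSteps_congr _ fun S => H pre b a S
  | trans _ _ ih1 ih2 => intro pre; rw [ih1, ih2]

section

variable {N : ℕ} (opp : ZMod N → ZMod N)

theorem filter_swap {α : Type} (p : α → Bool) (pre post : List α) (x z : α)
    (h : ¬ (p x = true ∧ p z = true)) :
    (pre ++ x :: z :: post).filter p = (pre ++ z :: x :: post).filter p := by
  simp only [List.filter_append, List.filter_cons]
  by_cases hx : p x = true
  · have hz : ¬ p z = true := fun hz => h ⟨hx, hz⟩
    simp [hx, hz]
  · simp [hx]

variable [NeZero N]

theorem termS_swap_of_ne (y : ℝ) (e : ℤ) (pre post : List (Strand N × Bool)) (a b : Strand N)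
    (ε ε' : Bool) (hinv : ∀ i, opp (opp i) = i) (hne : ∀ i, opp i ≠ i)
    (h : ¬ (a.1 = b.1 ∧ a.1.val < (opp a.1).val)) :
    termS opp y e (pre ++ (a, ε) :: (b, ε') :: post) =
      termS opp y e (pre ++ (b, ε') :: (a, ε) :: post) := by
  have hs : ∀ i : ZMod N, i.val < (opp i).val →
      steps (pre ++ (a, ε) :: (b, ε') :: post) i = steps (pre ++ (b, ε') :: (a, ε) :: post) i := by
    intro i hi
    unfold steps
    rw [filter_swap]
    rintro ⟨h1, h2⟩
    simp only [decide_eq_true_eq] at h1 h2
    exact h ⟨h1.trans h2.symm, by rw [h1]; exact hi⟩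
  have hw : ∀ j : ZMod N, sideWord opp (pre ++ (a, ε) :: (b, ε') :: post) j =
      sideWord opp (pre ++ (b, ε') :: (a, ε) :: post) j := by
    intro j
    unfold sideWord
    split_ifs with hj
    · rw [filter_swap]
      rintro ⟨h1, h2⟩
      simp only [decide_eq_true_eq] at h1 h2
      exact h ⟨h1.trans h2.symm, by rw [h1]; exact hj⟩
    · rw [filter_swap]
      rintro ⟨h1, h2⟩
      simp only [decide_eq_true_eq] at h1 h2
      refine h ⟨h1.trans h2.symm, ?_⟩
      rw [h1, hinv]
      have : j.val ≠ (opp j).val := fun hh => hne j (ZMod.val_injective N hh.symm)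
      omega
  have hB : Bal opp (pre ++ (a, ε) :: (b, ε') :: post) ↔
      Bal opp (pre ++ (b, ε') :: (a, ε) :: post) := by
    unfold Bal
    refine forall_congr' fun i => forall_congr' fun hi => ?_
    rw [hs i hi]
  have hb : bdry opp y (pre ++ (a, ε) :: (b, ε') :: post) =
      bdry opp y (pre ++ (b, ε') :: (a, ε) :: post) := by
    unfold bdry
    simp only [hw]
  have hp : ∏ i ∈ canon opp, wprod y 0 (steps (pre ++ (a, ε) :: (b, ε') :: post) i) =
      ∏ i ∈ canon opp, wprod y 0 (steps (pre ++ (b, ε') :: (a, ε) :: post) i) := by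
    refine Finset.prod_congr rfl fun i hi => ?_
    rw [hs i (by simpa [canon] using hi)]
  unfold termS
  by_cases h1 : Bal opp (pre ++ (a, ε) :: (b, ε') :: post)
  · rw [if_pos h1, if_pos (hB.1 h1), hb, hp]
  · rw [if_neg h1, if_neg (fun h2 => h1 (hB.2 h2))]

end

/-- The partial product of the weights. -/
noncomputable def wpre (y : ℝ) : ℤ → List Bool → ℝ
  | _, [] => 1
  | s, b :: l => (dl y s)⁻¹ * wpre y (s + sgn b) l

theorem wprod_append (y : ℝ) (s : ℤ) (l l' : List Bool) :
    wprod y s (l ++ l') = wpre y s l * wprod y (s + stepSum l) l' := by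
  induction l generalizing s with
  | nil => simp [wpre]
  | cons b l ih =>
    simp only [List.cons_append, wprod, wpre, ih, stepSum_cons]
    rw [← add_assoc]; ring

/-- Splitting of an ordered product at two places. -/
theorem prod_split (n i0 i1 : ℕ) (h01 : i0 < i1) (h1 : i1 < n) (f0 : ℕ → Module.End ℝ Fn) :
    ∃ A B C : Module.End ℝ Fn, ∀ f : ℕ → Module.End ℝ Fn,
      (∀ j < n, j ≠ i0 → j ≠ i1 → f j = f0 j) →
      ((List.range n).map f).prod = A * f i0 * B * f i1 * C := by
  obtain ⟨a, rfl⟩ : ∃ a, i1 = i0 + 1 + a := ⟨i1 - i0 - 1, by omega⟩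
  obtain ⟨b, rfl⟩ : ∃ b, n = i0 + 1 + a + 1 + b := ⟨n - (i0 + 1 + a) - 1, by omega⟩
  refine ⟨((List.range i0).map f0).prod,
    ((List.range a).map fun k => f0 (i0 + 1 + k)).prod,
    ((List.range b).map fun k => f0 (i0 + 1 + a + 1 + k)).prod, fun f hf => ?_⟩
  rw [List.range_add, List.range_succ, List.range_add, List.range_succ]
  simp only [List.map_append, List.map_map, List.prod_append, List.map_cons, List.map_nil,
    List.prod_cons, List.prod_nil, mul_one]
  have e1 : (List.range i0).map f = (List.range i0).map f0 := by
    refine List.map_congr_left fun k hk => hf k ?_ ?_ ?_ <;>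
      have := List.mem_range.1 hk <;> omega
  have e2 : (List.range a).map (f ∘ fun x => i0 + 1 + x) =
      (List.range a).map fun k => f0 (i0 + 1 + k) := by
    refine List.map_congr_left fun k hk => ?_
    have := List.mem_range.1 hk
    show f (i0 + 1 + k) = f0 (i0 + 1 + k)
    exact hf _ (by omega) (by omega) (by omega)
  have e3 : (List.range b).map (f ∘ fun x => i0 + 1 + a + 1 + x) =
      (List.range b).map fun k => f0 (i0 + 1 + a + 1 + k) := by
    refine List.map_congr_left fun k hk => ?_
    have := List.mem_range.1 hk
    show f (i0 + 1 + a + 1 + k) = f0 (i0 + 1 + a + 1 + k)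
    exact hf _ (by omega) (by omega) (by omega)
  rw [e1, e2, e3]

end Pool.Agent.AMU
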