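import Pool.Agent.Lib.AMU.Fun1

/-!
# Exchange of strands and the determinant relation (sections F2, F3)
-/

set_option autoImplicit false

namespace Pool.Agent.AMU

section

variable {N : ℕ} (opp : ZMod N → ZMod N)

theorem steps_append (S S' : List (Strand N × Bool)) (i : ZMod N) :
    steps (S ++ S') i = steps S i ++ steps S' i := by simp [steps]

theorem steps_cons_eq (a : Strand N) (ε : Bool) (S : List (Strand N × Bool)) :
    steps ((a, ε) :: S) a.1 = ε :: steps S a.1 := by simp [steps]

theorem steps_cons_ne (a : Strand N) (ε : Bool) (S : List (Strand N × Bool)) (i : ZMod N)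
    (h : a.1 ≠ i) : steps ((a, ε) :: S) i = steps S i := by simp [steps, h]

theorem sideWord_append_can (S S' : List (Strand N × Bool)) (i : ZMod N)
    (hi : i.val < (opp i).val) :
    sideWord opp (S ++ S') i = sideWord opp S i ++ sideWord opp S' i := by
  simp [sideWord, hi]

theorem sideWord_append_opp (hinv : ∀ i, opp (opp i) = i) (S S' : List (Strand N × Bool))
    (i : ZMod N) (hi : i.val < (opp i).val) :
    sideWord opp (S ++ S') (opp i) = sideWord opp S' (opp i) ++ sideWord opp S (opp i) := by
  have h : ¬ ((opp i).val < (opp (opp i)).val) := by rw [hinv]; omega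
  simp [sideWord, h]

theorem sideWord_cons_can (a : Strand N) (ε : Bool) (S : List (Strand N × Bool))
    (hi : a.1.val < (opp a.1).val) :
    sideWord opp ((a, ε) :: S) a.1 = (ε, a.2.1) :: sideWord opp S a.1 := by
  simp [sideWord, hi]

theorem sideWord_cons_opp (hinv : ∀ i, opp (opp i) = i) (a : Strand N) (ε : Bool)
    (S : List (Strand N × Bool)) (hi : a.1.val < (opp a.1).val) :
    sideWord opp ((a, ε) :: S) (opp a.1) = sideWord opp S (opp a.1) ++ [(!ε, a.2.2)] := by
  have h : ¬ ((opp a.1).val < a.1.val) := by omega
  simp [sideWord, h, hinv]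

theorem sideWord_cons_ne (hinv : ∀ i, opp (opp i) = i) (a : Strand N) (ε : Bool)
    (S : List (Strand N × Bool)) (j : ZMod N) (h1 : a.1 ≠ j) (h2 : opp a.1 ≠ j) :
    sideWord opp ((a, ε) :: S) j = sideWord opp S j := by
  have h3 : a.1 ≠ opp j := fun h => h2 (by rw [h, hinv])
  unfold sideWord
  split_ifs <;> simp [h1, h3]

theorem sideWord_append_comm (S S' T T' : List (Strand N × Bool)) (j : ZMod N)
    (h1 : sideWord opp S j = sideWord opp T j) (h2 : sideWord opp S' j = sideWord opp T' j) :
    sideWord opp (S ++ S') j = sideWord opp (T ++ T') j := by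
  unfold sideWord at *
  split_ifs at * with h
  · simp only [List.filter_append, List.map_append, h1, h2]
  · simp only [List.filter_append, List.map_append, List.reverse_append, h1, h2]

theorem fst_sideWord_can (S : List (Strand N × Bool)) (i : ZMod N) (hi : i.val < (opp i).val) :
    (sideWord opp S i).map Prod.fst = steps S i := by
  simp [sideWord, hi, steps, Function.comp_def]

theorem fst_sideWord_opp (hinv : ∀ i, opp (opp i) = i) (S : List (Strand N × Bool)) (i : ZMod N)
    (hi : i.val < (opp i).val) :
    (sideWord opp S (opp i)).map Prod.fst = ((steps S i).map (!·)).reverse := by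
  have h : ¬ ((opp i).val < i.val) := by omega
  simp [sideWord, h, steps, Function.comp_def, hinv]

variable [NeZero N]

/-- The summand at two adjacent strands on the same canonical side. -/
theorem termS_local (y : ℝ) (e : ℤ) (hinv : ∀ i, opp (opp i) = i)
    (pre post : List (Strand N × Bool)) (i : ZMod N) (hi : i.val < (opp i).val) :
    ∃ (P : Prop) (K : ℝ) (A B C : Module.End ℝ Fn), ∀ (mid : List (Strand N × Bool)),
      (∀ a ∈ mid, a.1.1 = i) →
      ((Bal opp (pre ++ mid ++ post) ↔ P ∧
        stepSum (steps pre i) + stepSum (mid.map Prod.snd) + stepSum (steps post i) = 0) ∧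
      ((dl y 0) ^ (e + 1) * (∏ i ∈ canon opp, wprod y 0 (steps (pre ++ mid ++ post) i)) *
        tau y (bdry opp y (pre ++ mid ++ post)) =
        K * wprod y 0 (steps pre i ++ (mid.map Prod.snd) ++ steps post i) *
          tau y (A * W y 0 (sideWord opp pre i ++ (mid.map fun t => (t.2, t.1.2.1)) ++
            sideWord opp post i) * B * W y 0 (sideWord opp post (opp i) ++
              (mid.map fun t => (!t.2, t.1.2.2)).reverse ++ sideWord opp pre (opp i)) * C))) := by
  have h1 : (opp i).val < N := ZMod.val_lt _
  obtain ⟨A, B, C, hABC⟩ := prod_split N i.val (opp i).val hi h1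
    (fun j : ℕ => (W y 0 (sideWord opp (pre ++ post) (j : ZMod N)) : Module.End ℝ Fn))
  refine ⟨∀ i' : ZMod N, i'.val < (opp i').val → i' ≠ i → stepSum (steps (pre ++ post) i') = 0,
    (dl y 0) ^ (e + 1) * ∏ i' ∈ (canon opp).erase i, wprod y 0 (steps (pre ++ post) i'),
    A, B, C, fun mid hmid => ?_⟩
  have hsteps : ∀ i' ≠ i, steps (pre ++ mid ++ post) i' = steps (pre ++ post) i' := by
    intro i' hi'
    have : steps mid i' = [] := by
      unfold steps
      rw [List.map_eq_nil_iff, List.filter_eq_nil_iff]
      intro t ht
      rw [hmid t ht]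
      simpa using hi'.symm
    simp [steps_append, this]
  have hmidi : steps mid i = mid.map Prod.snd := by
    unfold steps
    rw [List.filter_eq_self.2]
    intro t ht
    simpa using hmid t ht
  have hsi : steps (pre ++ mid ++ post) i = steps pre i ++ mid.map Prod.snd ++ steps post i := by
    rw [steps_append, steps_append, hmidi]
  have hmw : sideWord opp mid i = mid.map fun t => (t.2, t.1.2.1) := by
    unfold sideWord
    rw [if_pos hi, List.filter_eq_self.2]
    intro t ht
    simpa using hmid t ht
  have hopp : ¬ ((opp i).val < (opp (opp i)).val) := by rw [hinv]; omega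
  have hmo : sideWord opp mid (opp i) = (mid.map fun t => (!t.2, t.1.2.2)).reverse := by
    unfold sideWord
    rw [if_neg hopp, List.filter_eq_self.2]
    intro t ht
    simpa [hinv] using hmid t ht
  have hmne : ∀ j, j ≠ i → j ≠ opp i → sideWord opp mid j = [] := by
    intro j hj1 hj2
    unfold sideWord
    split_ifs
    · rw [List.map_eq_nil_iff, List.filter_eq_nil_iff]
      intro t ht
      rw [hmid t ht]
      simpa using hj1.symm
    · rw [List.reverse_eq_nil_iff, List.map_eq_nil_iff, List.filter_eq_nil_iff]
      intro t ht
      rw [hmid t ht]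
      simp only [decide_eq_true_eq]
      intro h
      exact hj2 (by rw [h, hinv])
  constructor
  · unfold Bal
    constructor
    · intro h
      refine ⟨fun i' h1 h2 => ?_, ?_⟩
      · rw [← hsteps i' h2]; exact h i' h1
      · have := h i hi
        rw [hsi] at this
        simpa [add_assoc] using this
    · rintro ⟨h1, h2⟩ i' h3
      by_cases h4 : i' = i
      · subst h4
        rw [hsi]
        simpa [add_assoc] using h2
      · rw [hsteps i' h4]; exact h1 i' h3 h4
  · have hprod : (∏ i' ∈ canon opp, wprod y 0 (steps (pre ++ mid ++ post) i')) =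
        (∏ i' ∈ (canon opp).erase i, wprod y 0 (steps (pre ++ post) i')) *
          wprod y 0 (steps pre i ++ (mid.map Prod.snd) ++ steps post i) := by
      rw [← Finset.prod_erase_mul (canon opp) _ (show i ∈ canon opp by simpa [canon] using hi), hsi]
      congr 1
      refine Finset.prod_congr rfl fun i' hi' => ?_
      rw [hsteps i' (Finset.ne_of_mem_erase hi')]
    have hb : bdry opp y (pre ++ mid ++ post) =
        A * W y 0 (sideWord opp pre i ++ (mid.map fun t => (t.2, t.1.2.1)) ++
            sideWord opp post i) * B * W y 0 (sideWord opp post (opp i) ++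
              (mid.map fun t => (!t.2, t.1.2.2)).reverse ++ sideWord opp pre (opp i)) * C := by
      unfold bdry
      rw [hABC (fun j : ℕ => (W y 0 (sideWord opp (pre ++ mid ++ post) (j : ZMod N)) :
        Module.End ℝ Fn))]
      · simp only [ZMod.natCast_zmod_val]
        rw [sideWord_append_can opp _ _ i hi, sideWord_append_can opp _ _ i hi,
          sideWord_append_opp opp hinv _ _ i hi, sideWord_append_opp opp hinv _ _ i hi, hmw, hmo,
          List.append_assoc (sideWord opp post (opp i))]
      · intro j hj hj1 hj2
        have hji : (j : ZMod N) ≠ i := by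
          intro h
          exact hj1 (by rw [← h, ZMod.val_cast_of_lt hj])
        have hjo : (j : ZMod N) ≠ opp i := by
          intro h
          exact hj2 (by rw [← h, ZMod.val_cast_of_lt hj])
        show W y 0 (sideWord opp (pre ++ mid ++ post) (j : ZMod N)) =
          W y 0 (sideWord opp (pre ++ post) (j : ZMod N))
        congr 1
        refine sideWord_append_comm opp _ _ _ _ _ ?_ rfl
        have : sideWord opp (pre ++ mid) (j : ZMod N) = sideWord opp (pre ++ []) (j : ZMod N) :=
          sideWord_append_comm opp _ _ _ _ _ rfl (by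
            rw [hmne _ hji hjo]; unfold sideWord; split_ifs <;> simp)
        simpa using this
    rw [hprod, hb]
    ring

end

end Pool.Agent.AMU
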