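import Pool.Agent.Lib.AMU.Defs

/-!
# Interfaces between the sections of the proof (see the blueprint)
-/

set_option autoImplicit false

namespace Pool.Agent.AMU

/-! ## Trace functionals (sections F, R) -/

/-- A functional on products of traces. -/
structure TraceFun {Γ : Type} [Group Γ] (F : Multiset Γ → ℝ) : Prop where
  mul : ∀ (g h : Γ) (M : Multiset Γ),
    F (g ::ₘ h ::ₘ M) = F ((g * h) ::ₘ M) + F ((g * h⁻¹) ::ₘ M)
  one : ∀ M : Multiset Γ, F (1 ::ₘ M) = 2 * F M

/-! ## The general state sum (sections C, P, K) -/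

section core

variable {N : ℕ} (opp : ZMod N → ZMod N) (w : List (ZMod N)) (ord : ℕ → ℤ) (m : ℕ)

/-- The level before the `i`-th point. -/
def lev (s : List ℤ) (i : ℕ) : ℤ := (s.take i).sum

/-- The admissible steps of the general state sum: all corners have the level `0`. -/
def CoreAdm (ok : ℤ → Prop) (s : List ℤ) : Prop :=
  (∀ i ≤ s.length, ok (lev s i)) ∧ s.sum = 0 ∧
  (∀ j < N, lev s (corner opp w (ends (chords w m)) j) = 0) ∧
  ∀ k < w.length, ∀ u < m,
    s.getD (rank opp w ord (ends (chords w m)) (k, u, false)) 0 =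
      -s.getD (rank opp w ord (ends (chords w m)) (k, u, true)) 0

variable {K : Type} [Field K]

open Classical in
/-- The general state sum: `d` = quantum dimensions of the levels, `t` = twists of the levels. -/
noncomputable def coreG (e : ℤ) (d : ℤ → K) (A : K) (t : ℤ → K) (ok : ℤ → Prop) : K :=
  ∑ b : Fin (2 * (w.length * m)) → Bool,
    if CoreAdm opp w ord m ok (List.ofFn fun i => sgn (b i)) then
      d 0 ^ e *
      (∏ i ∈ (Finset.range N).filter (fun i : ℕ => i < (opp (i : ZMod N)).val),
        ∏ j ∈ Finset.Icc (corner opp w (ends (chords w m)) i)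
          (corner opp w (ends (chords w m)) (i + 1)),
            (d (lev (List.ofFn fun i => sgn (b i)) j))⁻¹) *
      (∏ u ∈ Finset.range m,
        (t (lev (List.ofFn fun i => sgn (b i))
            (rank opp w ord (ends (chords w m)) (0, u, false))) /
          t (lev (List.ofFn fun i => sgn (b i))
            (rank opp w ord (ends (chords w m)) (0, u, false) + 1)))) *
      amp d A (rank opp w ord) (chords w m) 0 (List.ofFn fun i => sgn (b i))
    else 0

/-- The classical state sum (`q = 1`, `A = -1`). -/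
noncomputable def core (e : ℤ) (y : ℝ) : ℝ :=
  coreG opp w ord m e (fun s : ℤ => (-1) ^ s * (y + s)) (-1) (fun _ => 1) (fun _ => True)

/-- The sum over the colours. -/
noncomputable def coreSum (e : ℤ) (x : ℝ) : ℝ := ∑' k : ℤ, core opp w ord m e (x + k)

/-- The combination for the colour `c`. -/
noncomputable def coreCol (c : ℕ) (e : ℤ) (x : ℝ) : ℝ :=
  ∑ i ∈ Finset.range (c / 2 + 1), (-1) ^ i * ((c - i).choose i : ℝ) *
    coreSum opp w ord (c - 2 * i) e x

end core

/-! ## Diagrams of several words (sections T, D) -/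

/-- `(j, k, b)`: the departure (`b = false`) or arrival (`b = true`) point of the letter `k` of the
word `j`. -/
abbrev MPt (r : ℕ) : Type := Fin r × ℕ × Bool

section multi

variable {N r : ℕ} (opp : ZMod N → ZMod N) (w : Fin r → List (ZMod N)) (pos : Fin r → ℕ → ℤ)

/-- The side of a point. -/
def mSide (x : MPt r) : ZMod N :=
  if x.2.2 then opp ((w x.1).getD x.2.1 0) else (w x.1).getD x.2.1 0

/-- The position of a point. -/
def mKey (x : MPt r) : ℤ ×ₗ ℤ :=
  toLex (((mSide opp w x).val : ℤ),
    if (mSide opp w x).val < (opp (mSide opp w x)).val then pos x.1 x.2.1 else -pos x.1 x.2.1)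

/-- The start of the chord after the letter `k`. -/
def chS (j : Fin r) (k : ℕ) : MPt r := (j, k, true)

/-- The end of the chord after the letter `k`. -/
def chE (j : Fin r) (k : ℕ) : MPt r := (j, (k + 1) % (w j).length, false)

/-- The point is the last one on its side. -/
def IsLast (x : MPt r) : Prop :=
  ∀ y : MPt r, y.2.1 < (w y.1).length → mSide opp w y = mSide opp w x →
    mKey opp w pos y ≤ mKey opp w pos x

/-- The point is the first one on its side. -/
def IsFirst (x : MPt r) : Prop :=
  ∀ y : MPt r, y.2.1 < (w y.1).length → mSide opp w y = mSide opp w x →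
    mKey opp w pos x ≤ mKey opp w pos y

/-- The chord of `x` and `z` cuts off the corner `i`. -/
def Cuts (x z : MPt r) (i : ZMod N) : Prop :=
  mSide opp w x = i - 1 ∧ IsLast opp w pos x ∧ mSide opp w z = i ∧ IsFirst opp w pos z

/-- Reduced noncrossing diagrams of several words. -/
structure GoodWords (closed : Prop) : Prop where
  ne : ∀ j, w j ≠ []
  inj : ∀ j k j' k', k < (w j).length → k' < (w j').length → pos j k = pos j' k' →
    j = j' ∧ k = k'
  noncross : ∀ j k j' k', k < (w j).length → k' < (w j').length →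
    ¬ (min (mKey opp w pos (chS j k)) (mKey opp w pos (chE w j k)) <
        min (mKey opp w pos (chS j' k')) (mKey opp w pos (chE w j' k')) ∧
      min (mKey opp w pos (chS j' k')) (mKey opp w pos (chE w j' k')) <
        max (mKey opp w pos (chS j k)) (mKey opp w pos (chE w j k)) ∧
      max (mKey opp w pos (chS j k)) (mKey opp w pos (chE w j k)) <
        max (mKey opp w pos (chS j' k')) (mKey opp w pos (chE w j' k')))
  reduced : ∀ j k, k < (w j).length →
    (w j).getD ((k + 1) % (w j).length) 0 ≠ opp ((w j).getD k 0)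
  uncut : closed → ∃ i : ZMod N, ∀ j k, k < (w j).length →
    ¬ Cuts opp w pos (chS j k) (chE w j k) i ∧ ¬ Cuts opp w pos (chE w j k) (chS j k) i

end multi

/-- The sign of a word. -/
def wordSign {N : ℕ} (opp : ZMod N → ZMod N) (w : List (ZMod N)) : ℤ :=
  ∏ k ∈ Finset.range w.length,
    (-1) * (if (w.getD k 0).val < (opp (w.getD k 0)).val then 1 else -1) *
      (if (opp (w.getD k 0)).val < (w.getD ((k + 1) % w.length) 0).val then 1 else -1)

/-- The terminal evaluation (section T): the limit of `x ^ κ * F x M` for products `M` of the words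
of a noncrossing diagram; `Λ d` is the contribution of the colourings whose level changes by `d j`
across the cable of the word `j`. -/
def TermEval {N : ℕ} (opp : ZMod N → ZMod N) {Γ : Type} [Group Γ] (s : ZMod N → Γ)
    (closed : Prop) (F : ℝ → Multiset Γ → ℝ) (κ : ℕ) : Prop :=
  ∀ (r : ℕ) (w : Fin r → List (ZMod N)) (pos : Fin r → ℕ → ℤ), GoodWords opp w pos closed →
    ∃ Λ : (Fin r → ℤ) → ℝ, (∀ d, 0 ≤ Λ d) ∧ 1 ≤ Λ 0 ∧
      ∀ m : Fin r → ℕ,
        Filter.Tendsto
          (fun x : ℝ => x ^ κ * F x (∑ j, Multiset.replicate (m j) ((w j).map s).prod))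
          (nhdsWithin 0 {0}ᶜ)
          (nhds ((∏ j, (wordSign opp (w j) : ℝ) ^ m j) *
            ∑ d ∈ Fintype.piFinset (fun j => Finset.Icc (-(m j : ℤ)) (m j)),
              (∏ j, if Even ((m j : ℤ) + d j) then ((m j).choose (((m j : ℤ) + d j) / 2).toNat : ℝ)
                else 0) * Λ d)) ∧
        ((∃ i : ZMod N, Odd (∑ j, m j * ((w j).count i + (w j).count (opp i)))) →
          ∑ d ∈ Fintype.piFinset (fun j => Finset.Icc (-(m j : ℤ)) (m j)),
              (∏ j, if Even ((m j : ℤ) + d j) then ((m j).choose (((m j : ℤ) + d j) / 2).toNat : ℝ)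
                else 0) * Λ d = 0)

/-! ## Hyperbolic models (sections R, D, H, I) -/

open Matrix in
/-- The interface between the geometry and the recursion. -/
structure HypModel {N : ℕ} (opp : ZMod N → ZMod N) {Γ : Type} [Group Γ] (s : ZMod N → Γ)
    (closed : Prop) where
  hol : Γ →* SpecialLinearGroup (Fin 2) ℝ
  hyp : ∀ g : Γ, g ≠ 1 → 2 < |(hol g).1.trace|
  disc : ∀ T : ℝ, {t : ℝ | t ≤ T ∧ ∃ g : Γ, |(hol g).1.trace| = t}.Finite
  good : ∀ (r : ℕ) (l : Fin r → Γ), (∀ j, l j ≠ 1) → (∀ j, ¬ IsProperPower (l j)) →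
    (∀ i j k, 2 ≤ (hol (l i * (k * l j * k⁻¹) * (l i)⁻¹ * (k * l j * k⁻¹)⁻¹)).1.trace) →
    (∀ i j, i ≠ j → ¬ IsConj (l i) (l j) ∧ ¬ IsConj (l i) (l j)⁻¹) →
    ∃ (w : Fin r → List (ZMod N)) (pos : Fin r → ℕ → ℤ), GoodWords opp w pos closed ∧
      (∀ j, IsConj ((w j).map s).prod (l j)) ∧
      ∃ θ : ZMod N → ℤ, (∀ i, θ (opp i) = θ i ∧ (θ i = 1 ∨ θ i = -1)) ∧
        ∀ j, 0 < ((wordSign opp (w j) * ((w j).map θ).prod : ℤ) : ℝ) * (hol (l j)).1.trace

/-- The orientation of three symmetric matrices, positive for three points in counterclockwise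
order in the closed upper half plane. -/
def det3 (P Q R : Matrix (Fin 2) (Fin 2) ℝ) : ℝ :=
  (!![P 1 1, P 0 1, P 0 0; Q 1 1, Q 0 1, Q 0 0; R 1 1, R 0 1, R 0 0] :
    Matrix (Fin 3) (Fin 3) ℝ).det

end Pool.Agent.AMU
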