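import Pool.Agent.Lib.AMU.Fun1
import Pool.Agent.Lib.AMU.Iface

/-!
# The functional of section F: definitions
-/

set_option autoImplicit false

namespace Pool.Agent.AMU

open MvPolynomial Matrix

section

variable {N : ℕ} [NeZero N] (opp : ZMod N → ZMod N)

/-- The state sum of a list of labelled strands at `y`. -/
noncomputable def term (y : ℝ) (e : ℤ) (L : List (Strand N)) : ℝ :=
  sumSteps L (fun S => termS opp y e S)

/-- The functional on polynomials in the entries of the matrices of the canonical sides. -/
noncomputable def polyF (y : ℝ) (e : ℤ) : MvPolynomial (Strand N) ℝ →ₗ[ℝ] ℝ :=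
  (MvPolynomial.basisMonomials (Strand N) ℝ).constr ℝ
    (fun m => term opp y e (Finsupp.toMultiset m).toList)

omit [NeZero N] in
/-- The entries of the letters: departure label, arrival label. -/
noncomputable def glet (i : ZMod N) (a b : Bool) : MvPolynomial (Strand N) ℝ :=
  if i.val < (opp i).val then X (i, a, b) else -X (opp i, b, a)

omit [NeZero N] in
/-- The matrices of the letters. -/
noncomputable def mlet (i : ZMod N) : Matrix Bool Bool (MvPolynomial (Strand N) ℝ) :=
  fun a c => ∑ b, glet opp i a b * C (ep b c)

omit [NeZero N] in
/-- The trace of a word. -/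
noncomputable def trw (w : List (ZMod N)) : MvPolynomial (Strand N) ℝ :=
  ((w.map (mlet opp)).prod).trace

omit [NeZero N] in
/-- The ideal of the determinant relations. -/
noncomputable def detIdeal : Ideal (MvPolynomial (Strand N) ℝ) :=
  Ideal.span {p | ∃ i : ZMod N, i.val < (opp i).val ∧
    p = X (i, false, false) * X (i, true, true) - X (i, false, true) * X (i, true, false) - 1}

omit [NeZero N] in
/-- The coordinate ring of `SL_2 ^ r`. -/
abbrev Rq : Type := MvPolynomial (Strand N) ℝ ⧸ detIdeal opp

end

end Pool.Agent.AMU
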