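import Pool.Agent.Lib.AMU.Fun2
import Pool.Agent.Lib.AMU.FunDef

/-!
# Exchange of strands and the determinant relation (sections F2, F3), continued
-/

set_option autoImplicit false

namespace Pool.Agent.AMU

/-- The pair with equal steps. -/
theorem W_pair_same (y : ℝ) (q1 q2 : List (Bool × Bool)) (ε x x' : Bool) :
    W y 0 (q1 ++ [(ε, x), (ε, x')] ++ q2) = W y 0 (q1 ++ [(ε, x'), (ε, x)] ++ q2) := by
  refine LinearMap.ext fun φ => ?_
  simp only [List.append_assoc, W_append, List.cons_append, List.nil_append, W,
    LinearMap.comp_apply]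
  rw [opL_comm]

/-- The pair with opposite steps. -/
theorem W_pair (y : ℝ) (q1 q2 : List (Bool × Bool)) (ε x x' : Bool) :
    (W y 0 (q1 ++ [(ε, x), (!ε, x')] ++ q2) : Module.End ℝ Fn) =
      W y 0 q1 * (pr y (stepSum (q1.map Prod.fst)) ε x x' *
        W y (stepSum (q1.map Prod.fst)) q2) := by
  have h : stepSum (q1.map Prod.fst) + sgn ε + sgn (!ε) = stepSum (q1.map Prod.fst) := by
    rw [sgn_not]; ring
  refine LinearMap.ext fun φ => ?_
  simp only [List.append_assoc, W_append, List.cons_append, List.nil_append, W,
    LinearMap.comp_apply, zero_add, pr, h, Module.End.mul_apply]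

/-- The exchange of two strands, for operators. -/
theorem exchange_op (y : ℝ) (s : ℤ) (h1 : dl y (s + 1) ≠ 0) (h2 : dl y (s - 1) ≠ 0)
    (B : Module.End ℝ Fn) (a b b' a' : Bool) :
    (dl y (s + 1))⁻¹ • ((pr y s true a b : Module.End ℝ Fn) * B * pr y s true b' a') +
      (dl y (s - 1))⁻¹ • ((pr y s false a b : Module.End ℝ Fn) * B * pr y s false b' a') =
    (dl y (s + 1))⁻¹ • ((pr y s true b a : Module.End ℝ Fn) * B * pr y s true a' b') +
      (dl y (s - 1))⁻¹ • ((pr y s false b a : Module.End ℝ Fn) * B * pr y s false a' b') :=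
  LinearMap.ext fun φ => exchange y s h1 h2 B a b b' a' φ

theorem wprod_pair (y : ℝ) (p1 p2 : List Bool) (ε : Bool) :
    wprod y 0 (p1 ++ [ε, !ε] ++ p2) =
      wpre y 0 p1 * (dl y (stepSum p1))⁻¹ * (dl y (stepSum p1 + sgn ε))⁻¹ *
        wprod y (stepSum p1) p2 := by
  have h : stepSum p1 + sgn ε + sgn (!ε) = stepSum p1 := by rw [sgn_not]; ring
  simp only [List.append_assoc, wprod_append, List.cons_append, List.nil_append, wprod, zero_add, h]
  ring

section

variable {N : ℕ} [NeZero N] (opp : ZMod N → ZMod N)

theorem exch_same (y : ℝ) (hy : ∀ k : ℤ, y ≠ k) (e : ℤ) (hinv : ∀ i, opp (opp i) = i)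
    (pre post : List (Strand N × Bool)) (a b : Strand N) (hab : a.1 = b.1)
    (hi : a.1.val < (opp a.1).val) :
    termS opp y e (pre ++ (a, true) :: (b, true) :: post) +
      termS opp y e (pre ++ (a, true) :: (b, false) :: post) +
      (termS opp y e (pre ++ (a, false) :: (b, true) :: post) +
      termS opp y e (pre ++ (a, false) :: (b, false) :: post)) =
    termS opp y e (pre ++ (b, true) :: (a, true) :: post) +
      termS opp y e (pre ++ (b, true) :: (a, false) :: post) +
      (termS opp y e (pre ++ (b, false) :: (a, true) :: post) +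
      termS opp y e (pre ++ (b, false) :: (a, false) :: post)) := by
  obtain ⟨P, K, A, B, C, h⟩ := termS_local opp y e hinv pre post a.1 hi
  have key : ∀ (c d : Strand N) (ε ε' : Bool), c.1 = a.1 → d.1 = a.1 →
      (Bal opp (pre ++ (c, ε) :: (d, ε') :: post) ↔ P ∧
        stepSum (steps pre a.1) + (sgn ε + sgn ε') + stepSum (steps post a.1) = 0) ∧
      ((dl y 0) ^ (e + 1) *
          (∏ i ∈ canon opp, wprod y 0 (steps (pre ++ (c, ε) :: (d, ε') :: post) i)) *
        tau y (bdry opp y (pre ++ (c, ε) :: (d, ε') :: post)) =
        K * wprod y 0 (steps pre a.1 ++ [ε, ε'] ++ steps post a.1) *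
          tau y (A * W y 0 (sideWord opp pre a.1 ++ [(ε, c.2.1), (ε', d.2.1)] ++
            sideWord opp post a.1) * B * W y 0 (sideWord opp post (opp a.1) ++
              [(!ε', d.2.2), (!ε, c.2.2)] ++ sideWord opp pre (opp a.1)) * C)) := by
    intro c d ε ε' hc hd
    have := h [(c, ε), (d, ε')] (by
      intro t ht
      simp only [List.mem_cons, List.not_mem_nil, or_false] at ht
      rcases ht with rfl | rfl
      · exact hc
      · exact hd)
    simpa [List.append_assoc] using this
  have hsame : ∀ ε : Bool, termS opp y e (pre ++ (a, ε) :: (b, ε) :: post) =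
      termS opp y e (pre ++ (b, ε) :: (a, ε) :: post) := by
    intro ε
    obtain ⟨h1, h2⟩ := key a b ε ε rfl hab.symm
    obtain ⟨h3, h4⟩ := key b a ε ε hab.symm rfl
    unfold termS
    rw [h2, h4]
    by_cases hB : P ∧ stepSum (steps pre a.1) + (sgn ε + sgn ε) + stepSum (steps post a.1) = 0
    · rw [if_pos (h1.2 hB), if_pos (h3.2 hB), W_pair_same y (sideWord opp pre a.1),
        W_pair_same y (sideWord opp post (opp a.1))]
    · rw [if_neg (fun hh => hB (h1.1 hh)), if_neg (fun hh => hB (h3.1 hh))]
  have hmix : termS opp y e (pre ++ (a, true) :: (b, false) :: post) +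
      termS opp y e (pre ++ (a, false) :: (b, true) :: post) =
      termS opp y e (pre ++ (b, true) :: (a, false) :: post) +
      termS opp y e (pre ++ (b, false) :: (a, true) :: post) := by
    by_cases hB : P ∧ stepSum (steps pre a.1) + stepSum (steps post a.1) = 0
    · have hs : stepSum (steps post a.1) = -stepSum (steps pre a.1) := by linarith [hB.2]
      have hval : ∀ (c d : Strand N) (ε : Bool), c.1 = a.1 → d.1 = a.1 →
          termS opp y e (pre ++ (c, ε) :: (d, !ε) :: post) =
          K * (wpre y 0 (steps pre a.1) * (dl y (stepSum (steps pre a.1)))⁻¹ *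
            wprod y (stepSum (steps pre a.1)) (steps post a.1)) *
            tau y ((A * W y 0 (sideWord opp pre a.1)) *
              ((dl y (stepSum (steps pre a.1) + sgn ε))⁻¹ •
                ((pr y (stepSum (steps pre a.1)) ε c.2.1 d.2.1 : Module.End ℝ Fn) *
                (W y (stepSum (steps pre a.1)) (sideWord opp post a.1) * B *
                  W y 0 (sideWord opp post (opp a.1))) *
                  pr y (stepSum (steps pre a.1)) ε d.2.2 c.2.2)) *
                    (W y (stepSum (steps pre a.1)) (sideWord opp pre (opp a.1)) * C))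
          := by
        intro c d ε hc hd
        obtain ⟨h1, h2⟩ := key c d ε (!ε) hc hd
        have hz : sgn ε + sgn (!ε) = 0 := by rw [sgn_not]; ring
        unfold termS
        rw [if_pos (h1.2 ⟨hB.1, by rw [hz, add_zero]; exact hB.2⟩), h2, wprod_pair]
        have e1 : stepSum ((sideWord opp pre a.1).map Prod.fst) = stepSum (steps pre a.1) := by
          rw [fst_sideWord_can opp _ _ hi]
        have e2 : stepSum ((sideWord opp post (opp a.1)).map Prod.fst) =
            stepSum (steps pre a.1) := by
          rw [fst_sideWord_opp opp hinv _ _ hi, stepSum_reverse, stepSum_map_not, hs, neg_neg]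
        have hnn : [(!!ε, d.2.2), (!ε, c.2.2)] = [(ε, d.2.2), (!ε, c.2.2)] := by
          rw [Bool.not_not]
        rw [hnn, W_pair, W_pair, e1, e2, mul_smul_comm, smul_mul_assoc, map_smul, smul_eq_mul]
        simp only [mul_assoc]
        ring
      have v1 := hval a b true rfl hab.symm
      have v2 := hval a b false rfl hab.symm
      have v3 := hval b a true hab.symm rfl
      have v4 := hval b a false hab.symm rfl
      simp only [Bool.not_true, Bool.not_false] at v1 v2 v3 v4
      have hst : sgn true = 1 := rfl
      have hsf : stepSum (steps pre a.1) + sgn false = stepSum (steps pre a.1) - 1 := rfl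
      rw [v1, v2, v3, v4, ← mul_add, ← mul_add, ← map_add, ← map_add, ← add_mul, ← add_mul,
        ← mul_add, ← mul_add, hst, hsf, exchange_op y _ (dl_ne hy _) (dl_ne hy _)]
    · have hz : ∀ (c d : Strand N) (ε ε' : Bool), c.1 = a.1 → d.1 = a.1 → sgn ε + sgn ε' = 0 →
          termS opp y e (pre ++ (c, ε) :: (d, ε') :: post) = 0 := by
        intro c d ε ε' hc hd hε
        obtain ⟨h1, -⟩ := key c d ε ε' hc hd
        unfold termS
        rw [if_neg]
        intro hh
        have := h1.1 hh
        rw [hε, add_zero] at this
        exact hB this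
      rw [hz a b true false rfl hab.symm rfl, hz a b false true rfl hab.symm rfl,
        hz b a true false hab.symm rfl rfl, hz b a false true hab.symm rfl rfl]
  have e1 := hsame true
  have e2 := hsame false
  linarith

theorem exch (y : ℝ) (hy : ∀ k : ℤ, y ≠ k) (e : ℤ) (hinv : ∀ i, opp (opp i) = i)
    (hne : ∀ i, opp i ≠ i) (pre : List (Strand N × Bool)) (a b : Strand N)
    (post : List (Strand N × Bool)) :
    termS opp y e (pre ++ (a, true) :: (b, true) :: post) +
      termS opp y e (pre ++ (a, true) :: (b, false) :: post) +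
      (termS opp y e (pre ++ (a, false) :: (b, true) :: post) +
      termS opp y e (pre ++ (a, false) :: (b, false) :: post)) =
    termS opp y e (pre ++ (b, true) :: (a, true) :: post) +
      termS opp y e (pre ++ (b, true) :: (a, false) :: post) +
      (termS opp y e (pre ++ (b, false) :: (a, true) :: post) +
      termS opp y e (pre ++ (b, false) :: (a, false) :: post)) := by
  by_cases h : a.1 = b.1 ∧ a.1.val < (opp a.1).val
  · exact exch_same opp y hy e hinv pre post a b h.1 h.2
  · rw [termS_swap_of_ne opp y e pre post a b true true hinv hne h,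
      termS_swap_of_ne opp y e pre post a b true false hinv hne h,
      termS_swap_of_ne opp y e pre post a b false true hinv hne h,
      termS_swap_of_ne opp y e pre post a b false false hinv hne h]
    ring

/-- The state sum does not depend on the order of the strands. -/
theorem term_perm (y : ℝ) (hy : ∀ k : ℤ, y ≠ k) (e : ℤ) (hinv : ∀ i, opp (opp i) = i)
    (hne : ∀ i, opp i ≠ i) {L L' : List (Strand N)} (h : L.Perm L') :
    term opp y e L = term opp y e L' := by
  have := sumSteps_perm (fun S => termS opp y e S) (exch opp y hy e hinv hne) h []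
  simpa [term] using this

/-- The functional on a product of variables. -/
theorem polyF_prod (y : ℝ) (hy : ∀ k : ℤ, y ≠ k) (e : ℤ) (hinv : ∀ i, opp (opp i) = i)
    (hne : ∀ i, opp i ≠ i) (L : List (Strand N)) :
    polyF opp y e (L.map MvPolynomial.X).prod = term opp y e L := by
  classical
  have h : (L.map (MvPolynomial.X : Strand N → MvPolynomial (Strand N) ℝ)).prod =
      MvPolynomial.basisMonomials (Strand N) ℝ (Multiset.toFinsupp (L : Multiset (Strand N))) := by
    rw [MvPolynomial.coe_basisMonomials]
    induction L with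
    | nil => simp
    | cons a L ih =>
      rw [List.map_cons, List.prod_cons, ih, ← Multiset.cons_coe, ← Multiset.singleton_add,
        map_add, Multiset.toFinsupp_singleton, MvPolynomial.X, MvPolynomial.monomial_mul, one_mul]
  rw [h, polyF, Module.Basis.constr_basis]
  apply term_perm opp y hy e hinv hne
  rw [← Multiset.coe_eq_coe, Multiset.coe_toList]
  simp

end

end Pool.Agent.AMU
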