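import Pool.Agent.Lib.AMU.Fun3

/-!
# The determinant relation (section F3)
-/

set_option autoImplicit false

namespace Pool.Agent.AMU

theorem tau_diff (y : ℝ) (A P Q C x z : Module.End ℝ Fn) (c t : ℝ)
    (h : x - z = t • (1 : Module.End ℝ Fn)) (hc : c * t = 1) :
    tau y (A * (c • (P * Q * x)) * C) - tau y (A * (c • (P * Q * z)) * C) =
      tau y (A * (P * Q) * C) := by
  obtain rfl : x = z + t • (1 : Module.End ℝ Fn) := by rw [← h]; abel
  simp only [mul_add, add_mul, smul_add, map_add, mul_smul_comm, smul_mul_assoc, mul_one,
    smul_smul, map_smul, smul_eq_mul, hc]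
  ring

section

variable {N : ℕ} [NeZero N] (opp : ZMod N → ZMod N)

/-- The determinant relation for the summands. -/
theorem det_rel (y : ℝ) (hy : ∀ k : ℤ, y ≠ k) (e : ℤ) (hinv : ∀ i, opp (opp i) = i)
    (i : ZMod N) (hi : i.val < (opp i).val) (S : List (Strand N × Bool)) :
    (termS opp y e (((i, false, false), true) :: ((i, true, true), true) :: S) +
      termS opp y e (((i, false, false), true) :: ((i, true, true), false) :: S) +
      (termS opp y e (((i, false, false), false) :: ((i, true, true), true) :: S) +
      termS opp y e (((i, false, false), false) :: ((i, true, true), false) :: S))) -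
    (termS opp y e (((i, false, true), true) :: ((i, true, false), true) :: S) +
      termS opp y e (((i, false, true), true) :: ((i, true, false), false) :: S) +
      (termS opp y e (((i, false, true), false) :: ((i, true, false), true) :: S) +
      termS opp y e (((i, false, true), false) :: ((i, true, false), false) :: S))) =
    termS opp y e S := by
  obtain ⟨P, K, A, B, C, h⟩ := termS_local opp y e hinv [] S i hi
  have key : ∀ (a b a' b' : Bool) (ε ε' : Bool),
      (Bal opp (((i, a, b), ε) :: ((i, a', b'), ε') :: S) ↔ P ∧
        (sgn ε + sgn ε') + stepSum (steps S i) = 0) ∧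
      ((dl y 0) ^ (e + 1) *
          (∏ i' ∈ canon opp, wprod y 0 (steps (((i, a, b), ε) :: ((i, a', b'), ε') :: S) i')) *
        tau y (bdry opp y (((i, a, b), ε) :: ((i, a', b'), ε') :: S)) =
        K * wprod y 0 ([] ++ [ε, ε'] ++ steps S i) *
          tau y (A * W y 0 ([] ++ [(ε, a), (ε', a')] ++ sideWord opp S i) * B *
            W y 0 (sideWord opp S (opp i) ++ [(!ε', b'), (!ε, b)] ++ []) * C)) := by
    intro a b a' b' ε ε'
    have := h [((i, a, b), ε), ((i, a', b'), ε')] (by
      intro t ht
      simp only [List.mem_cons, List.not_mem_nil, or_false] at ht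
      rcases ht with rfl | rfl <;> rfl)
    simpa [steps, sideWord, List.append_assoc] using this
  have key0 : (Bal opp S ↔ P ∧ stepSum (steps S i) = 0) ∧
      ((dl y 0) ^ (e + 1) * (∏ i' ∈ canon opp, wprod y 0 (steps S i')) *
        tau y (bdry opp y S) =
        K * wprod y 0 (steps S i) *
          tau y (A * W y 0 (sideWord opp S i) * B * W y 0 (sideWord opp S (opp i)) * C)) := by
    have := h [] (by simp)
    simpa [steps, sideWord, List.append_assoc] using this
  have hsame : ∀ ε : Bool,
      termS opp y e (((i, false, false), ε) :: ((i, true, true), ε) :: S) =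
      termS opp y e (((i, false, true), ε) :: ((i, true, false), ε) :: S) := by
    intro ε
    obtain ⟨h1, h2⟩ := key false false true true ε ε
    obtain ⟨h3, h4⟩ := key false true true false ε ε
    unfold termS
    rw [h2, h4]
    by_cases hB : P ∧ (sgn ε + sgn ε) + stepSum (steps S i) = 0
    · rw [if_pos (h1.2 hB), if_pos (h3.2 hB), W_pair_same y (sideWord opp S (opp i))]
    · rw [if_neg (fun hh => hB (h1.1 hh)), if_neg (fun hh => hB (h3.1 hh))]
  by_cases hB : P ∧ stepSum (steps S i) = 0
  · have hval : ∀ (a b a' b' : Bool) (ε : Bool),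
        termS opp y e (((i, a, b), ε) :: ((i, a', b'), !ε) :: S) =
        K * ((dl y 0)⁻¹ * wprod y 0 (steps S i)) *
          tau y (A * ((dl y (sgn ε))⁻¹ • ((pr y 0 ε a a' : Module.End ℝ Fn) *
            (W y 0 (sideWord opp S i) * B *
            W y 0 (sideWord opp S (opp i))) * pr y 0 ε b' b)) * C) := by
      intro a b a' b' ε
      obtain ⟨h1, h2⟩ := key a b a' b' ε (!ε)
      have hz : sgn ε + sgn (!ε) = 0 := by rw [sgn_not]; ring
      unfold termS
      rw [if_pos (h1.2 ⟨hB.1, by rw [hz, zero_add]; exact hB.2⟩), h2, wprod_pair]
      have e2 : stepSum ((sideWord opp S (opp i)).map Prod.fst) = 0 := by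
        rw [fst_sideWord_opp opp hinv _ _ hi, stepSum_reverse, stepSum_map_not, hB.2, neg_zero]
      have hnn : [(!!ε, b'), (!ε, b)] = [(ε, b'), (!ε, b)] := by rw [Bool.not_not]
      have hW : (W y 0 [] : Module.End ℝ Fn) = 1 := rfl
      rw [hnn, W_pair, W_pair, e2, mul_smul_comm, smul_mul_assoc, map_smul, smul_eq_mul]
      simp only [wpre, List.map_nil, stepSum_nil, zero_add, hW, one_mul, mul_one, mul_assoc]
      ring
    have v1 := hval false false true true true
    have v2 := hval false false true true false
    have v3 := hval false true true false true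
    have v4 := hval false true true false false
    simp only [Bool.not_true, Bool.not_false] at v1 v2 v3 v4
    have hd : ∀ ε : Bool,
        K * ((dl y 0)⁻¹ * wprod y 0 (steps S i)) *
          tau y (A * ((dl y (sgn ε))⁻¹ • ((pr y 0 ε false true : Module.End ℝ Fn) *
            (W y 0 (sideWord opp S i) * B *
            W y 0 (sideWord opp S (opp i))) * pr y 0 ε true false)) * C) -
        K * ((dl y 0)⁻¹ * wprod y 0 (steps S i)) *
          tau y (A * ((dl y (sgn ε))⁻¹ • ((pr y 0 ε false true : Module.End ℝ Fn) *
            (W y 0 (sideWord opp S i) * B *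
            W y 0 (sideWord opp S (opp i))) * pr y 0 ε false true)) * C) =
        K * ((dl y 0)⁻¹ * wprod y 0 (steps S i)) *
          tau y (A * ((pr y 0 ε false true : Module.End ℝ Fn) *
            (W y 0 (sideWord opp S i) * B *
            W y 0 (sideWord opp S (opp i)))) * C) := by
      intro ε
      have hps : (pr y 0 ε true false : Module.End ℝ Fn) - pr y 0 ε false true =
          dl y (sgn ε) • (1 : Module.End ℝ Fn) := by
        refine LinearMap.ext fun φ => ?_
        have := pr_sub y 0 ε φ
        rw [zero_add, neg_smul] at this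
        rw [LinearMap.sub_apply, LinearMap.smul_apply, Module.End.one_apply, ← neg_eq_iff_eq_neg.2 this]
        simp
      rw [← mul_sub, tau_diff y A _ _ C _ _ _ _ hps (inv_mul_cancel₀ (dl_ne hy _))]
    have h0 : termS opp y e S = K * wprod y 0 (steps S i) *
          tau y (A * W y 0 (sideWord opp S i) * B * W y 0 (sideWord opp S (opp i)) * C) := by
      unfold termS
      rw [if_pos (key0.1.2 hB), key0.2]
    have e1 := hsame true
    have e2 := hsame false
    have d1 := hd true
    have d2 := hd false
    rw [← v1, ← v3] at d1
    rw [← v2, ← v4] at d2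
    have hsum : K * ((dl y 0)⁻¹ * wprod y 0 (steps S i)) *
          tau y (A * ((pr y 0 true false true : Module.End ℝ Fn) *
            (W y 0 (sideWord opp S i) * B *
            W y 0 (sideWord opp S (opp i)))) * C) +
        K * ((dl y 0)⁻¹ * wprod y 0 (steps S i)) *
          tau y (A * ((pr y 0 false false true : Module.End ℝ Fn) *
            (W y 0 (sideWord opp S i) * B *
            W y 0 (sideWord opp S (opp i)))) * C) = termS opp y e S := by
      have hpa : (pr y 0 true false true : Module.End ℝ Fn) + pr y 0 false false true =
          dl y 0 • (1 : Module.End ℝ Fn) := by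
        refine LinearMap.ext fun φ => ?_
        have := pr_add y 0 false true φ
        simpa [ep] using this
      rw [← mul_add, ← map_add, ← add_mul, ← mul_add, ← add_mul, hpa, h0, smul_mul_assoc, one_mul,
        mul_smul_comm, smul_mul_assoc, map_smul, smul_eq_mul]
      have := dl_ne hy 0
      simp only [mul_assoc]
      field_simp
    linarith
  · have hz : ∀ (a b a' b' : Bool) (ε ε' : Bool), sgn ε + sgn ε' = 0 →
        termS opp y e (((i, a, b), ε) :: ((i, a', b'), ε') :: S) = 0 := by
      intro a b a' b' ε ε' hε
      obtain ⟨h1, -⟩ := key a b a' b' ε ε'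
      unfold termS
      rw [if_neg]
      intro hh
      have := h1.1 hh
      rw [hε, zero_add] at this
      exact hB this
    have h0 : termS opp y e S = 0 := by
      unfold termS
      rw [if_neg (fun hh => hB (key0.1.1 hh))]
    have e1 := hsame true
    have e2 := hsame false
    rw [hz _ _ _ _ true false rfl, hz _ _ _ _ false true rfl, hz _ _ _ _ true false rfl,
      hz _ _ _ _ false true rfl, h0]
    linarith

theorem term_cons2 (y : ℝ) (e : ℤ) (a b : Strand N) (L : List (Strand N)) :
    term opp y e (a :: b :: L) = sumSteps L (fun S =>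
      termS opp y e ((a, true) :: (b, true) :: S) + termS opp y e ((a, true) :: (b, false) :: S) +
      (termS opp y e ((a, false) :: (b, true) :: S) +
        termS opp y e ((a, false) :: (b, false) :: S))) := by
  simp only [term, sumSteps, sumSteps_add]

/-- The determinant relation. -/
theorem term_det (y : ℝ) (hy : ∀ k : ℤ, y ≠ k) (e : ℤ) (hinv : ∀ i, opp (opp i) = i)
    (i : ZMod N) (hi : i.val < (opp i).val) (L : List (Strand N)) :
    term opp y e ((i, false, false) :: (i, true, true) :: L) -
      term opp y e ((i, false, true) :: (i, true, false) :: L) = term opp y e L := by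
  rw [term_cons2, term_cons2, sub_eq_iff_eq_add, term, ← sumSteps_add]
  refine sumSteps_congr _ fun S => ?_
  have := det_rel opp y hy e hinv i hi S
  linarith

omit [NeZero N] in
/-- Products of variables are monomials. -/
theorem prod_X_eq (L : List (Strand N)) :
    (L.map (MvPolynomial.X : Strand N → MvPolynomial (Strand N) ℝ)).prod =
      MvPolynomial.basisMonomials (Strand N) ℝ (Multiset.toFinsupp (L : Multiset (Strand N))) := by
  rw [MvPolynomial.coe_basisMonomials]
  induction L with
  | nil => simp
  | cons a L ih =>
    rw [List.map_cons, List.prod_cons, ih, ← Multiset.cons_coe, ← Multiset.singleton_add,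
      map_add, Multiset.toFinsupp_singleton, MvPolynomial.X, MvPolynomial.monomial_mul, one_mul]

omit [NeZero N] in
/-- Every polynomial is a combination of products of variables. -/
theorem poly_induction {M : Type} [AddCommGroup M] [Module ℝ M]
    (f : MvPolynomial (Strand N) ℝ →ₗ[ℝ] M)
    (h : ∀ L : List (Strand N), f (L.map MvPolynomial.X).prod = 0) : f = 0 := by
  classical
  refine (MvPolynomial.basisMonomials (Strand N) ℝ).ext fun m => ?_
  rw [LinearMap.zero_apply]
  have := h (Finsupp.toMultiset m).toList
  rw [prod_X_eq, Multiset.coe_toList] at this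
  simpa using this

/-- The functional vanishes on the ideal of the determinant relations. -/
theorem polyF_ideal (y : ℝ) (hy : ∀ k : ℤ, y ≠ k) (e : ℤ) (hinv : ∀ i, opp (opp i) = i)
    (hne : ∀ i, opp i ≠ i) (p : MvPolynomial (Strand N) ℝ) (hp : p ∈ detIdeal opp) :
    polyF opp y e p = 0 := by
  unfold detIdeal at hp
  refine Submodule.span_induction (p := fun p _ => ∀ q, polyF opp y e (q * p) = 0) ?_ ?_ ?_ ?_ hp 1
    |> (by simpa using ·)
  · rintro _ ⟨i, hi, rfl⟩ q
    have : (polyF opp y e) ∘ₗ (LinearMap.mulRight ℝ
        (MvPolynomial.X (i, false, false) * MvPolynomial.X (i, true, true) -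
        MvPolynomial.X (i, false, true) * MvPolynomial.X (i, true, false) - 1)) = 0 := by
      refine poly_induction _ fun L => ?_
      have e1 := polyF_prod opp y hy e hinv hne ((i, false, false) :: (i, true, true) :: L)
      have e2 := polyF_prod opp y hy e hinv hne ((i, false, true) :: (i, true, false) :: L)
      have e3 := polyF_prod opp y hy e hinv hne L
      have := term_det opp y hy e hinv i hi L
      rw [← e1, ← e2, ← e3, ← map_sub] at this
      rw [LinearMap.comp_apply, LinearMap.mulRight_apply, ← sub_eq_zero.2 this, ← map_sub]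
      congr 1
      simp only [List.map_cons, List.prod_cons]
      ring
    exact LinearMap.congr_fun this q
  · intro q; simp
  · intro a b _ _ ha hb q
    rw [mul_add, map_add, ha, hb, add_zero]
  · intro a b _ hb q
    rw [smul_eq_mul, ← mul_assoc]
    exact hb _

end

end Pool.Agent.AMU
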