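import Pool.Agent.Lib.AMU.Fun4

/-!
# The representation over the coordinate ring (section F4)
-/

set_option autoImplicit false

namespace Pool.Agent.AMU

open Matrix

section two

variable {R : Type} [CommRing R]

theorem det_bool (A : Matrix Bool Bool R) :
    A.det = A false false * A true true - A false true * A true false := by
  rw [← Matrix.det_reindex_self finTwoEquiv.symm A, Matrix.det_fin_two]
  rfl

theorem adjugate_bool (A : Matrix Bool Bool R) (a b : Bool) :
    A.adjugate a b = if a = b then A (!a) (!a) else -A a b := by
  have h := Matrix.adjugate_reindex finTwoEquiv.symm A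
  have h2 : A.adjugate a b = (Matrix.reindex finTwoEquiv.symm finTwoEquiv.symm A).adjugate
      (finTwoEquiv.symm a) (finTwoEquiv.symm b) := by
    rw [h]; simp
  rw [h2, Matrix.adjugate_fin_two]
  cases a <;> cases b <;> rfl

theorem add_adjugate_bool (A : Matrix Bool Bool R) :
    A + A.adjugate = A.trace • (1 : Matrix Bool Bool R) := by
  ext a b
  rw [Matrix.add_apply, adjugate_bool, Matrix.smul_apply, Matrix.trace, Fintype.sum_bool]
  cases a <;> cases b <;> simp
  ring

theorem trace_mul_bool (A B : Matrix Bool Bool R) :
    A.trace * B.trace = (A * B).trace + (A * B.adjugate).trace := by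
  rw [← Matrix.trace_add, ← mul_add, add_adjugate_bool, Matrix.mul_smul, mul_one,
    Matrix.trace_smul, smul_eq_mul, mul_comm]

end two

section

variable {N : ℕ} [NeZero N] (opp : ZMod N → ZMod N)

omit [NeZero N] in
theorem mlet_apply (i : ZMod N) (a c : Bool) :
    mlet opp i a c = if c then glet opp i a false else -glet opp i a true := by
  unfold mlet
  rw [Fintype.sum_bool]
  cases c <;> simp [ep]

omit [NeZero N] in
theorem det_rel_mem (i : ZMod N) (hi : i.val < (opp i).val) :
    Ideal.Quotient.mk (detIdeal opp)
      (MvPolynomial.X (i, false, false) * MvPolynomial.X (i, true, true) -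
        MvPolynomial.X (i, false, true) * MvPolynomial.X (i, true, false)) = 1 := by
  rw [← sub_eq_zero, ← map_one (Ideal.Quotient.mk (detIdeal opp)), ← map_sub,
    Ideal.Quotient.eq_zero_iff_mem]
  exact Ideal.subset_span ⟨i, hi, rfl⟩

variable (hinv : ∀ i, opp (opp i) = i) (hne : ∀ i, opp i ≠ i)

/-- The matrices of the letters over the coordinate ring. -/
noncomputable def mletQ (i : ZMod N) : Matrix Bool Bool (Rq opp) :=
  (mlet opp i).map (Ideal.Quotient.mk (detIdeal opp))

omit [NeZero N] in
theorem val_ne (hne : ∀ i, opp i ≠ i) [NeZero N] (i : ZMod N) : i.val ≠ (opp i).val :=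
  fun h => hne i (ZMod.val_injective N h.symm)

include hinv hne

theorem det_mletQ (i : ZMod N) : (mletQ opp i).det = 1 := by
  have h := val_ne opp hne i
  rw [det_bool]
  simp only [mletQ, Matrix.map_apply, mlet_apply]
  by_cases hi : i.val < (opp i).val
  · rw [← det_rel_mem opp i hi]
    simp only [glet, if_pos hi, map_sub, map_mul, if_true, Bool.false_eq_true, if_false, map_neg]
    ring
  · have hi' : (opp i).val < (opp (opp i)).val := by rw [hinv]; omega
    rw [← det_rel_mem opp (opp i) hi']
    simp only [glet, if_neg hi, map_sub, map_mul, if_true, Bool.false_eq_true, if_false, map_neg]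
    ring

/-- The elements of the special linear group. -/
noncomputable def slet (i : ZMod N) : SpecialLinearGroup Bool (Rq opp) :=
  ⟨mletQ opp i, det_mletQ opp hinv hne i⟩

theorem slet_mul (i : ZMod N) : slet opp hinv hne i * slet opp hinv hne (opp i) = 1 := by
  have key : ∀ i : ZMod N, i.val < (opp i).val →
      slet opp hinv hne i * slet opp hinv hne (opp i) = 1 := by
    intro i hi
    have hi' : ¬ ((opp i).val < i.val) := by omega
    have hd := det_rel_mem opp i hi
    simp only [map_sub, map_mul] at hd
    apply Matrix.SpecialLinearGroup.ext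
    intro a b
    have e1 : (slet opp hinv hne i * slet opp hinv hne (opp i)) a b =
        ∑ c, mletQ opp i a c * mletQ opp (opp i) c b := rfl
    rw [e1, Matrix.SpecialLinearGroup.coe_one]
    simp only [Fintype.sum_bool, mletQ, Matrix.map_apply, mlet_apply, glet, if_pos hi, hinv,
      if_neg hi']
    cases a <;> cases b <;> simp
    · rw [← hd]; ring
    · ring
    · ring
    · rw [← hd]; ring
  by_cases hi : i.val < (opp i).val
  · exact key i hi
  · have h := val_ne opp hne i
    have := key (opp i) (by rw [hinv]; omega)
    rw [hinv] at this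
    rw [mul_eq_one_iff_eq_inv] at this ⊢
    rw [this, inv_inv]

/-- The universal representation. -/
noncomputable def homR : PuncturedGroup opp →* SpecialLinearGroup Bool (Rq opp) :=
  PresentedGroup.toGroup (f := slet opp hinv hne) (by
    rintro _ ⟨i, rfl⟩
    simpa using slet_mul opp hinv hne i)

theorem homR_of (i : ZMod N) :
    homR opp hinv hne (PresentedGroup.of i) = slet opp hinv hne i :=
  PresentedGroup.toGroup.of _

theorem trace_homR (w : List (ZMod N)) :
    (homR opp hinv hne ((w.map PresentedGroup.of).prod)).1.trace =
      Ideal.Quotient.mk (detIdeal opp) (trw opp w) := by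
  have h : (homR opp hinv hne ((w.map PresentedGroup.of).prod)).1 =
      ((w.map (mlet opp)).prod).map (Ideal.Quotient.mk (detIdeal opp)) := by
    induction w with
    | nil =>
      rw [List.map_nil, List.prod_nil, map_one, List.map_nil, List.prod_nil,
        Matrix.map_one _ (map_zero _) (map_one _)]
      rfl
    | cons i w ih =>
      have e1 : (homR opp hinv hne (((i :: w).map PresentedGroup.of).prod)).1 =
          mletQ opp i * (homR opp hinv hne ((w.map PresentedGroup.of).prod)).1 := by
        rw [List.map_cons, List.prod_cons, map_mul, homR_of]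
        rfl
      rw [e1, ih, List.map_cons, List.prod_cons, Matrix.map_mul]
      rfl
  rw [h, trw, Matrix.trace, Matrix.trace, map_sum]
  rfl

open Classical in
omit hinv hne in
/-- The functional on the coordinate ring. -/
noncomputable def rF (y : ℝ) (e : ℤ) : Rq opp →ₗ[ℝ] ℝ :=
  if h : ∀ p ∈ (detIdeal opp).restrictScalars ℝ, polyF opp y e p = 0 then
    Submodule.liftQ ((detIdeal opp).restrictScalars ℝ) (polyF opp y e) (fun p hp => h p hp)
  else 0

theorem rF_mk (y : ℝ) (hy : ∀ k : ℤ, y ≠ k) (e : ℤ) (p : MvPolynomial (Strand N) ℝ) :
    rF opp y e (Ideal.Quotient.mk (detIdeal opp) p) = polyF opp y e p := by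
  unfold rF
  rw [dif_pos]
  · exact Submodule.liftQ_apply _ _ _
  · intro q hq
    exact polyF_ideal opp y hy e hinv hne q hq

/-- The functional. -/
noncomputable def Fun (e : ℤ) (x : ℝ) (M : Multiset (PuncturedGroup opp)) : ℝ :=
  ∑' k : ℤ, rF opp (x + k) e (M.map fun g => (homR opp hinv hne g).1.trace).prod

end

end Pool.Agent.AMU
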