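import Pool.Agent.Lib.AMU.Tau

/-!
# The growth of the regularized trace of a word
-/

set_option autoImplicit false

namespace Pool.Agent.AMU

open Polynomial

/-- The polynomials in `y` and `X` of degree at most `n`. -/
noncomputable def Vn (n : ℕ) : Submodule ℝ (ℝ → ℝ[X]) :=
  Submodule.span ℝ {f | ∃ a b : ℕ, a + b ≤ n ∧ f = fun y => C (y ^ a) * X ^ b}

theorem Vn_gen (n a b : ℕ) (h : a + b ≤ n) : (fun y : ℝ => C (y ^ a) * X ^ b) ∈ Vn n :=
  Submodule.subset_span ⟨a, b, h, rfl⟩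

theorem Vn_map {n m : ℕ} (T : (ℝ → ℝ[X]) →ₗ[ℝ] (ℝ → ℝ[X]))
    (h : ∀ a b : ℕ, a + b ≤ n → T (fun y => C (y ^ a) * X ^ b) ∈ Vn m) {f : ℝ → ℝ[X]}
    (hf : f ∈ Vn n) : T f ∈ Vn m := by
  refine Submodule.span_induction (p := fun f _ => T f ∈ Vn m) ?_ ?_ ?_ ?_ hf
  · rintro _ ⟨a, b, hab, rfl⟩
    exact h a b hab
  · rw [map_zero]; exact Submodule.zero_mem _
  · intro f g _ _ hf hg
    rw [map_add]; exact Submodule.add_mem _ hf hg
  · intro c f _ hf
    rw [map_smul]; exact Submodule.smul_mem _ _ hf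

theorem Vn_mono {n m : ℕ} (h : n ≤ m) {f : ℝ → ℝ[X]} (hf : f ∈ Vn n) : f ∈ Vn m :=
  Vn_map LinearMap.id (fun a b hab => Vn_gen m a b (hab.trans h)) hf

/-- Multiplication by a fixed family. -/
noncomputable def mulT (g : ℝ → ℝ[X]) : (ℝ → ℝ[X]) →ₗ[ℝ] (ℝ → ℝ[X]) where
  toFun f := fun y => g y * f y
  map_add' f f' := by funext y; simp [mul_add]
  map_smul' c f := by funext y; simp

/-- Translation of the variable. -/
noncomputable def compT (m : ℝ) : (ℝ → ℝ[X]) →ₗ[ℝ] (ℝ → ℝ[X]) where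
  toFun f := fun y => (f y).comp (X + C m)
  map_add' f f' := by funext y; simp
  map_smul' c f := by funext y; simp

theorem Vn_mulX {n : ℕ} {f : ℝ → ℝ[X]} (hf : f ∈ Vn n) : (fun y => X * f y) ∈ Vn (n + 1) := by
  refine Vn_map (mulT fun _ => X) (fun a b hab => ?_) hf
  have : (mulT (fun _ => X)) (fun y : ℝ => C (y ^ a) * X ^ b) =
      fun y : ℝ => C (y ^ a) * X ^ (b + 1) := by
    funext y
    show X * (C (y ^ a) * X ^ b) = _
    ring
  rw [this]
  exact Vn_gen _ _ _ (by omega)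

theorem Vn_mulY {n : ℕ} {f : ℝ → ℝ[X]} (hf : f ∈ Vn n) : (fun y => C y * f y) ∈ Vn (n + 1) := by
  refine Vn_map (mulT fun y => C y) (fun a b hab => ?_) hf
  have : (mulT (fun y => C y)) (fun y : ℝ => C (y ^ a) * X ^ b) =
      fun y : ℝ => C (y ^ (a + 1)) * X ^ b := by
    funext y
    show C y * (C (y ^ a) * X ^ b) = _
    rw [pow_succ, C_mul]
    ring
  rw [this]
  exact Vn_gen _ _ _ (by omega)

theorem Vn_mulC {n : ℕ} (c : ℝ) {f : ℝ → ℝ[X]} (hf : f ∈ Vn n) : (fun y => C c * f y) ∈ Vn n := by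
  have := Submodule.smul_mem _ c hf
  convert this using 1
  funext y
  rw [Pi.smul_apply, smul_eq_C_mul]

theorem Vn_comp {n : ℕ} (m : ℝ) {f : ℝ → ℝ[X]} (hf : f ∈ Vn n) :
    (fun y => (f y).comp (X + C m)) ∈ Vn n := by
  refine Vn_map (compT m) (fun a b hab => ?_) hf
  have : (compT m) (fun y : ℝ => C (y ^ a) * X ^ b) =
      ∑ i ∈ Finset.range (b + 1), (m ^ (b - i) * (b.choose i : ℝ)) •
        fun y : ℝ => C (y ^ a) * X ^ i := by
    funext y
    show (C (y ^ a) * X ^ b).comp (X + C m) = _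
    rw [mul_comp, C_comp, X_pow_comp, add_pow, Finset.mul_sum, Finset.sum_apply]
    refine Finset.sum_congr rfl fun i _ => ?_
    rw [Pi.smul_apply, smul_eq_C_mul]
    simp only [C_mul, C_pow, C_eq_natCast]
    ring
  rw [this]
  refine Submodule.sum_mem _ fun i hi => Submodule.smul_mem _ _ (Vn_gen _ _ _ ?_)
  have := Finset.mem_range.1 hi
  omega

theorem wc_mem (s : ℤ) (l : List (Bool × Bool)) : (fun y => wc y s l) ∈ Vn (down l) := by
  induction l generalizing s with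
  | nil =>
    have := Vn_gen (down []) 0 0 (by simp)
    simpa [wc] using this
  | cons st l ih =>
    have h := Vn_comp (om st : ℝ) (ih (s + sgn st.1))
    rcases st with ⟨_ | _, _ | _⟩
    · have e : down ((false, false) :: l) = down l + 1 := by simp [down]; ring
      rw [e]
      have h2 := Vn_mulC ((-1) ^ s) (Vn_mulX h)
      convert h2 using 1
      funext y
      rw [wc, oc, mul_assoc]
    · have e : down ((false, true) :: l) = down l + 1 := by simp [down]; ring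
      rw [e]
      have h2 := Vn_mulC (-(-1) ^ s) (Vn_mulY h)
      have h3 := Vn_mulC (-((-1) ^ s * (s - 1))) (Vn_mono (Nat.le_succ _) h)
      have h4 := Vn_mulC ((-1) ^ s) (Vn_mulX h)
      have h5 := Submodule.add_mem _ (Submodule.add_mem _ h2 h3) h4
      convert h5 using 1
      funext y
      simp only [Pi.add_apply, wc, oc, map_add, map_sub, map_neg, map_mul]
      ring
    · have e : down ((true, false) :: l) = down l := by simp [down]
      rw [e]
      simpa [wc, oc] using h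
    · have e : down ((true, true) :: l) = down l := by simp [down]
      rw [e]
      simpa [wc, oc] using h

theorem eval_bound (R : ℝ[X]) (b : ℕ) (h : R.natDegree ≤ b) (y : ℝ) :
    |R.eval y| ≤ (∑ i ∈ Finset.range (b + 1), |R.coeff i|) * (1 + |y|) ^ b := by
  have hy := abs_nonneg y
  rw [eval_eq_sum_range' (Nat.lt_succ_of_le h), Finset.sum_mul]
  refine (Finset.abs_sum_le_sum_abs _ _).trans (Finset.sum_le_sum fun i hi => ?_)
  rw [abs_mul, abs_pow]
  refine mul_le_mul_of_nonneg_left ?_ (abs_nonneg _)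
  have h1 : |y| ^ i ≤ (1 + |y|) ^ i := pow_le_pow_left₀ hy (by linarith) i
  have h2 : i ≤ b := by
    have := Finset.mem_range.1 hi
    omega
  exact h1.trans (pow_le_pow_right₀ (le_add_of_nonneg_right hy) h2)

theorem adX_bound (b : ℕ) :
    ∃ K : ℝ, 0 ≤ K ∧ ∀ y : ℝ, |(adX b).eval y| ≤ K * (|y| * (1 + |y|) ^ b) := by
  refine ⟨∑ i ∈ Finset.range (b + 1), |(adX b).divX.coeff i|,
    Finset.sum_nonneg fun _ _ => abs_nonneg _, fun y => ?_⟩
  have h1 : (adX b).coeff 0 = 0 := by rw [coeff_zero_eq_eval_zero, adX_eval_zero]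
  have h2 := divX_mul_X_add (adX b)
  rw [h1, C_0, add_zero] at h2
  have h3 : (adX b).divX.natDegree ≤ b := by
    rw [natDegree_divX_eq_natDegree_tsub_one]
    have := adX_natDegree b
    omega
  have h4 := eval_bound _ b h3 y
  have h5 : (adX b).eval y = (adX b).divX.eval y * y := by
    conv_lhs => rw [← h2]
    simp
  rw [h5, abs_mul]
  nlinarith [abs_nonneg y]

/-- The growth of the antidifference. -/
def AdB (n : ℕ) (f : ℝ → ℝ[X]) : Prop :=
  ∃ K : ℝ, 0 ≤ K ∧ ∀ y : ℝ, |(ad (f y)).eval y| ≤ K * (|y| * (1 + |y|) ^ n)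

theorem AdB_gen (n a b : ℕ) (hab : a + b ≤ n) : AdB n (fun y => C (y ^ a) * X ^ b) := by
  obtain ⟨K, hK, h⟩ := adX_bound b
  refine ⟨K, hK, fun y => ?_⟩
  have hy := abs_nonneg y
  have e : ad (C (y ^ a) * X ^ b) = y ^ a • adX b := by
    rw [← smul_eq_C_mul, map_smul, ad_X_pow]
  have h1 : |y| ^ a ≤ (1 + |y|) ^ a := pow_le_pow_left₀ hy (by linarith) a
  have h2 : (1 + |y|) ^ (a + b) ≤ (1 + |y|) ^ n :=
    pow_le_pow_right₀ (le_add_of_nonneg_right hy) hab
  show |(ad (C (y ^ a) * X ^ b)).eval y| ≤ _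
  rw [e, eval_smul, smul_eq_mul, abs_mul, abs_pow]
  calc |y| ^ a * |(adX b).eval y| ≤ (1 + |y|) ^ a * (K * (|y| * (1 + |y|) ^ b)) :=
        mul_le_mul h1 (h y) (abs_nonneg _) (by positivity)
    _ = K * (|y| * (1 + |y|) ^ (a + b)) := by rw [pow_add]; ring
    _ ≤ K * (|y| * (1 + |y|) ^ n) :=
        mul_le_mul_of_nonneg_left (mul_le_mul_of_nonneg_left h2 hy) hK

theorem AdB_zero (n : ℕ) : AdB n 0 :=
  ⟨0, le_rfl, fun y => by rw [Pi.zero_apply, map_zero, eval_zero, abs_zero, zero_mul]⟩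

theorem AdB_add (n : ℕ) (f g : ℝ → ℝ[X]) (hf : AdB n f) (hg : AdB n g) : AdB n (f + g) := by
  obtain ⟨K, hK, h⟩ := hf
  obtain ⟨K', hK', h'⟩ := hg
  refine ⟨K + K', by positivity, fun y => ?_⟩
  rw [Pi.add_apply, map_add, eval_add, add_mul]
  exact (abs_add_le _ _).trans (add_le_add (h y) (h' y))

theorem AdB_smul (n : ℕ) (c : ℝ) (f : ℝ → ℝ[X]) (hf : AdB n f) : AdB n (c • f) := by
  obtain ⟨K, hK, h⟩ := hf
  refine ⟨|c| * K, by positivity, fun y => ?_⟩
  rw [Pi.smul_apply, map_smul, eval_smul, smul_eq_mul, abs_mul, mul_assoc]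
  exact mul_le_mul_of_nonneg_left (h y) (abs_nonneg _)

theorem ad_bound {n : ℕ} {f : ℝ → ℝ[X]} (hf : f ∈ Vn n) : AdB n f := by
  refine Submodule.span_induction (p := fun f _ => AdB n f) ?_ (AdB_zero n)
    (fun f g _ _ => AdB_add n f g) (fun c f _ => AdB_smul n c f) hf
  rintro _ ⟨a, b, hab, rfl⟩
  exact AdB_gen n a b hab

/-- The growth of the normalized regularized trace of a word. -/
theorem tau_bound (l : List (Bool × Bool)) :
    ∃ K : ℝ, 0 ≤ K ∧ ∀ y : ℝ, |tau y (W y 0 l)| ≤ K * (1 + |y|) ^ down l := by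
  have hf : (fun y => if wm l = 0 then wc y 0 l else 0) ∈ Vn (down l) := by
    split_ifs
    · exact wc_mem 0 l
    · exact Submodule.zero_mem _
  obtain ⟨K, hK, h⟩ := ad_bound hf
  refine ⟨K, hK, fun y => ?_⟩
  have h1 : tau y (W y 0 l) = y⁻¹ * (ad (if wm l = 0 then wc y 0 l else 0)).eval y := by
    rw [← tr_W]; simp [tau]
  rw [h1, abs_mul, abs_inv]
  by_cases hy : y = 0
  · subst hy
    simp only [abs_zero, inv_zero, zero_mul, add_zero, one_pow, mul_one]
    exact hK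
  · have hy' : 0 < |y| := abs_pos.2 hy
    rw [inv_mul_le_iff₀ hy']
    refine (h y).trans (le_of_eq ?_)
    ring

end Pool.Agent.AMU
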