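import Pool.Agent.Lib.AMU.Fun5
import Pool.Agent.Lib.AMU.TauB

/-!
# Bounds, and the trace functional (section F4)
-/

set_option autoImplicit false

namespace Pool.Agent.AMU

theorem one_le_one_add_abs (y : ℝ) : 1 ≤ 1 + |y| := by
  have := abs_nonneg y
  linarith

theorem abs_m1 (s : ℤ) : |((-1 : ℝ)) ^ s| = 1 := by
  rcases m1_cases s with h | h <;> rw [h] <;> simp

/-- A product of closed words. -/
theorem prod_W {α : Type} (y : ℝ) (s : ℤ) (l : List α) (sw : α → List (Bool × Bool))
    (h : ∀ j ∈ l, stepSum ((sw j).map Prod.fst) = 0) :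
    (l.map fun j => (W y s (sw j) : Module.End ℝ Fn)).prod = W y s (l.flatMap sw) := by
  induction l with
  | nil => rfl
  | cons a l ih =>
    rw [List.map_cons, List.prod_cons, ih (fun j hj => h j (List.mem_cons_of_mem _ hj)),
      List.flatMap_cons, W_append, h a List.mem_cons_self, add_zero]
    rfl

theorem down_flatMap {α : Type} (l : List α) (sw : α → List (Bool × Bool)) :
    down (l.flatMap sw) = (l.map fun j => down (sw j)).sum := by
  induction l with
  | nil => rfl
  | cons a l ih =>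
    rw [List.flatMap_cons, List.map_cons, List.sum_cons, ← ih]
    simp [down]

section

variable {N : ℕ} [NeZero N] (opp : ZMod N → ZMod N)

theorem sum_canon (hinv : ∀ i, opp (opp i) = i) (hne : ∀ i, opp i ≠ i) (f : ZMod N → ℕ) :
    ((List.range N).map fun j : ℕ => f (j : ZMod N)).sum =
      ∑ i ∈ canon opp, (f i + f (opp i)) := by
  have h1 : ((List.range N).map fun j : ℕ => f (j : ZMod N)).sum = ∑ i : ZMod N, f i := by
    rw [← List.sum_toFinset _ List.nodup_range]
    refine Finset.sum_nbij' (fun j => (j : ZMod N)) (fun i => i.val) ?_ ?_ ?_ ?_ ?_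
    · intro j _; exact Finset.mem_univ _
    · intro i _; simpa using ZMod.val_lt i
    · intro j hj
      exact ZMod.val_cast_of_lt (by simpa using hj)
    · intro i _; simp
    · intro j _; rfl
  rw [h1, Finset.sum_add_distrib, ← Finset.sum_filter_add_sum_filter_not Finset.univ
    (fun i : ZMod N => i.val < (opp i).val)]
  congr 1
  refine Finset.sum_nbij' opp opp ?_ ?_ ?_ ?_ ?_
  · intro i hi
    have := val_ne opp hne i
    simp only [Finset.mem_filter, Finset.mem_univ, true_and, canon, hinv] at hi ⊢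
    omega
  · intro i hi
    simp only [Finset.mem_filter, Finset.mem_univ, true_and, canon, hinv] at hi ⊢
    omega
  · intro i _; exact hinv i
  · intro i _; exact hinv i
  · intro i _; rw [hinv]

omit [NeZero N] in
theorem down_side (hinv : ∀ i, opp (opp i) = i) (S : List (Strand N × Bool)) (i : ZMod N)
    (hi : i.val < (opp i).val) :
    down (sideWord opp S i) + down (sideWord opp S (opp i)) = (steps S i).length := by
  have h : ¬ ((opp i).val < i.val) := by omega
  simp only [down, sideWord, steps, if_pos hi, hinv, if_neg h, List.map_reverse, List.map_map,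
    List.sum_reverse, List.length_map]
  induction S.filter (fun t => decide (t.1.1 = i)) with
  | nil => rfl
  | cons t l ih =>
    simp only [List.map_cons, List.sum_cons, List.length_cons, Function.comp_apply] at ih ⊢
    rw [← ih]
    cases t.2 <;> simp <;> ring

/-- The side words of a balanced list of strands are closed. -/
theorem stepSum_side (hinv : ∀ i, opp (opp i) = i) (hne : ∀ i, opp i ≠ i)
    (S : List (Strand N × Bool)) (hB : Bal opp S) (i : ZMod N) :
    stepSum ((sideWord opp S i).map Prod.fst) = 0 := by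
  by_cases hi : i.val < (opp i).val
  · rw [fst_sideWord_can opp _ _ hi]
    exact hB i hi
  · have h := val_ne opp hne i
    have hi' : (opp i).val < (opp (opp i)).val := by rw [hinv]; omega
    have h2 := fst_sideWord_opp opp hinv S (opp i) hi'
    rw [hinv] at h2
    rw [h2, stepSum_reverse, stepSum_map_not, hB (opp i) hi', neg_zero]

theorem bdry_eq_W (hinv : ∀ i, opp (opp i) = i) (hne : ∀ i, opp i ≠ i) (y : ℝ)
    (S : List (Strand N × Bool)) (hB : Bal opp S) :
    bdry opp y S = W y 0 ((List.range N).flatMap fun j : ℕ => sideWord opp S (j : ZMod N)) :=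
  prod_W y 0 _ _ fun _ _ => stepSum_side opp hinv hne S hB _

/-- A point which is not an integer has a positive distance from the integers. -/
theorem exists_dist {x : ℝ} (hx : ∀ k : ℤ, x ≠ k) : ∃ ρ : ℝ, 0 < ρ ∧ ∀ k : ℤ, ρ ≤ |x + k| := by
  have h0 : 0 < Int.fract x := by
    rw [Int.fract_pos]
    exact fun h => hx ⌊x⌋ h
  have h1 := Int.fract_lt_one x
  refine ⟨min (Int.fract x) (1 - Int.fract x), lt_min h0 (by linarith), fun k => ?_⟩
  have hf : x = ⌊x⌋ + Int.fract x := (Int.floor_add_fract x).symm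
  rcases lt_or_ge (⌊x⌋ + k) 0 with h | h
  · have h2 : ((⌊x⌋ : ℝ) + k) ≤ -1 := by exact_mod_cast Int.le_sub_one_of_lt h
    refine (min_le_right _ _).trans (le_trans ?_ (neg_le_abs _))
    linarith
  · have h2 : (0 : ℝ) ≤ (⌊x⌋ : ℝ) + k := by exact_mod_cast h
    refine (min_le_left _ _).trans (le_trans ?_ (le_abs_self _))
    linarith

theorem abs_dl (y : ℝ) (s : ℤ) : |dl y s| = |y + s| := by
  rw [dl, abs_mul, abs_m1, one_mul]

theorem dl_lower {x : ℝ} (hx : ∀ k : ℤ, x ≠ k) (s : ℤ) :
    ∃ c : ℝ, 0 < c ∧ ∀ k : ℤ, c * (1 + |x + k|) ≤ |dl (x + k) s| := by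
  obtain ⟨ρ, hρ, h⟩ := exists_dist hx
  have hs := abs_nonneg (s : ℝ)
  refine ⟨ρ / (1 + |(s : ℝ)| + ρ), by positivity, fun k => ?_⟩
  rw [abs_dl, div_mul_eq_mul_div, div_le_iff₀ (by positivity)]
  have h1 := h (k + s)
  push_cast at h1
  rw [← add_assoc] at h1
  have h2 : |x + k| ≤ |x + k + s| + |(s : ℝ)| := by
    have := abs_add_le (x + k + s) (-(s : ℝ))
    rwa [abs_neg, add_neg_cancel_right] at this
  nlinarith [abs_nonneg (x + k), mul_nonneg hs (abs_nonneg (x + k + s))]

theorem dl_upper (x : ℝ) (k : ℤ) : |dl (x + k) 0| ≤ 1 + |x + k| := by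
  rw [abs_dl]
  simp

theorem wprod_bound {x : ℝ} (hx : ∀ k : ℤ, x ≠ k) (s : ℤ) (l : List Bool) :
    ∃ C : ℝ, 0 ≤ C ∧ ∀ k : ℤ, |wprod (x + k) s l| ≤ C * ((1 + |x + k|)⁻¹) ^ (l.length + 1) := by
  induction l generalizing s with
  | nil =>
    obtain ⟨c, hc, h⟩ := dl_lower hx s
    refine ⟨c⁻¹, by positivity, fun k => ?_⟩
    have h1 : 0 < 1 + |x + k| := by positivity
    simp only [wprod, List.length_nil, zero_add, pow_one]
    rw [abs_inv, ← mul_inv]
    exact inv_anti₀ (by positivity) (h k)
  | cons b l ih =>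
    obtain ⟨c, hc, h⟩ := dl_lower hx s
    obtain ⟨C, hC, h'⟩ := ih (s + sgn b)
    refine ⟨c⁻¹ * C, by positivity, fun k => ?_⟩
    have h1 : 0 < 1 + |x + k| := by positivity
    simp only [wprod, List.length_cons]
    rw [abs_mul, abs_inv]
    calc |dl (x + k) s|⁻¹ * |wprod (x + k) (s + sgn b) l| ≤
        (c * (1 + |x + k|))⁻¹ * (C * ((1 + |x + k|)⁻¹) ^ (l.length + 1)) :=
          mul_le_mul (inv_anti₀ (by positivity) (h k)) (h' k) (abs_nonneg _) (by positivity)
      _ = _ := by rw [mul_inv]; ring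

theorem dl_zpow_bound {x : ℝ} (hx : ∀ k : ℤ, x ≠ k) (n : ℤ) :
    ∃ C : ℝ, 0 ≤ C ∧ ∀ k : ℤ, |dl (x + k) 0 ^ n| ≤ C * (1 + |x + k|) ^ n := by
  obtain ⟨c, hc, h⟩ := dl_lower hx 0
  cases n with
  | ofNat n =>
    refine ⟨1, zero_le_one, fun k => ?_⟩
    simp only [Int.ofNat_eq_natCast, zpow_natCast]
    rw [abs_pow, one_mul]
    exact pow_le_pow_left₀ (abs_nonneg _) (dl_upper x k) n
  | negSucc n =>
    refine ⟨(c⁻¹) ^ (n + 1), by positivity, fun k => ?_⟩
    have h1 : 0 < 1 + |x + k| := by positivity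
    simp only [zpow_negSucc]
    rw [abs_inv, abs_pow, ← inv_pow, ← inv_pow, ← mul_pow, ← mul_inv]
    exact pow_le_pow_left₀ (by positivity) (inv_anti₀ (by positivity) (h k)) _

theorem termS_bound {x : ℝ} (hx : ∀ k : ℤ, x ≠ k) (e : ℤ) (hinv : ∀ i, opp (opp i) = i)
    (hne : ∀ i, opp i ≠ i) (S : List (Strand N × Bool)) :
    ∃ C : ℝ, 0 ≤ C ∧ ∀ k : ℤ,
      |termS opp (x + k) e S| ≤ C * (1 + |x + k|) ^ (e + 1 - (canon opp).card) := by
  obtain ⟨C1, hC1, h1⟩ := dl_zpow_bound hx (e + 1)
  choose C2 hC2 h2 using fun i : ZMod N => wprod_bound hx 0 (steps S i)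
  obtain ⟨C3, hC3, h3⟩ :=
    tau_bound ((List.range N).flatMap fun j : ℕ => sideWord opp S (j : ZMod N))
  have hd : ((List.range N).map fun j : ℕ => down (sideWord opp S (j : ZMod N))).sum =
      ∑ i ∈ canon opp, (steps S i).length := by
    rw [sum_canon opp hinv hne (fun j => down (sideWord opp S j))]
    refine Finset.sum_congr rfl fun i hi => down_side opp hinv S i (by simpa [canon] using hi)
  rw [down_flatMap, hd] at h3
  refine ⟨C1 * (∏ i ∈ canon opp, C2 i) * C3, ?_, fun k => ?_⟩
  · have := Finset.prod_nonneg (s := canon opp) (fun i _ => hC2 i)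
    positivity
  have hy : 0 < 1 + |x + k| := by positivity
  have hP := Finset.prod_nonneg (s := canon opp) (fun i _ => hC2 i)
  unfold termS
  split_ifs with hB
  · rw [abs_mul, abs_mul, Finset.abs_prod, bdry_eq_W opp hinv hne _ S hB]
    calc |dl (x + k) 0 ^ (e + 1)| * (∏ i ∈ canon opp, |wprod (x + k) 0 (steps S i)|) *
          |tau (x + k) (W (x + k) 0
            ((List.range N).flatMap fun j : ℕ => sideWord opp S (j : ZMod N)))| ≤
        (C1 * (1 + |x + k|) ^ (e + 1)) *
          (∏ i ∈ canon opp, C2 i * ((1 + |x + k|)⁻¹) ^ ((steps S i).length + 1)) *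
          (C3 * (1 + |x + k|) ^ (∑ i ∈ canon opp, (steps S i).length)) := by
            refine mul_le_mul (mul_le_mul (h1 k) ?_ ?_ ?_) (h3 (x + k)) (abs_nonneg _) ?_
            · exact Finset.prod_le_prod (fun _ _ => abs_nonneg _) fun i _ => h2 i k
            · exact Finset.prod_nonneg fun _ _ => abs_nonneg _
            · positivity
            · refine mul_nonneg (by positivity) (Finset.prod_nonneg fun i _ => ?_)
              have := hC2 i
              positivity
      _ = C1 * (∏ i ∈ canon opp, C2 i) * C3 * ((1 + |x + k|) ^ (e + 1) *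
          (((1 + |x + k|)⁻¹) ^ (∑ i ∈ canon opp, (steps S i).length + (canon opp).card) *
          (1 + |x + k|) ^ (∑ i ∈ canon opp, (steps S i).length))) := by
            rw [Finset.prod_mul_distrib, Finset.prod_pow_eq_pow_sum, Finset.sum_add_distrib,
              Finset.sum_const, smul_eq_mul, mul_one]
            ring
      _ = C1 * (∏ i ∈ canon opp, C2 i) * C3 * (1 + |x + k|) ^ (e + 1 - (canon opp).card) := by
            congr 1
            rw [pow_add, inv_pow, inv_pow, mul_right_comm, inv_mul_cancel₀ (by positivity),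
              one_mul, zpow_sub₀ hy.ne', zpow_natCast, div_eq_mul_inv]
  · rw [abs_zero]
    positivity

theorem sumSteps_bound {α : Type} (L : List α) (f : ℝ → List (α × Bool) → ℝ) (g : ℤ → ℝ) (x : ℝ)
    (h : ∀ S, ∃ C : ℝ, 0 ≤ C ∧ ∀ k : ℤ, |f (x + k) S| ≤ C * g k) :
    ∃ C : ℝ, 0 ≤ C ∧ ∀ k : ℤ, |sumSteps L (f (x + k))| ≤ C * g k := by
  induction L generalizing f with
  | nil => exact h []
  | cons a L ih =>
    obtain ⟨C, hC, h1⟩ := ih (fun y S => f y ((a, true) :: S)) (fun S => h _)
    obtain ⟨C', hC', h2⟩ := ih (fun y S => f y ((a, false) :: S)) (fun S => h _)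
    refine ⟨C + C', by positivity, fun k => ?_⟩
    rw [sumSteps, add_mul]
    exact (abs_add_le _ _).trans (add_le_add (h1 k) (h2 k))

theorem term_bound {x : ℝ} (hx : ∀ k : ℤ, x ≠ k) (e : ℤ) (hinv : ∀ i, opp (opp i) = i)
    (hne : ∀ i, opp i ≠ i) (L : List (Strand N)) :
    ∃ C : ℝ, 0 ≤ C ∧ ∀ k : ℤ,
      |term opp (x + k) e L| ≤ C * (1 + |x + k|) ^ (e + 1 - (canon opp).card) :=
  sumSteps_bound L (fun y S => termS opp y e S)
    (fun k => (1 + |x + k|) ^ (e + 1 - (canon opp).card)) x
    (fun S => termS_bound opp hx e hinv hne S)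

theorem summable_shift (x : ℝ) (n : ℤ) (hn : n ≤ -2) :
    Summable fun k : ℤ => (1 + |x + k|) ^ n := by
  have hs : Summable fun k : ℤ => 1 / (k : ℝ) ^ 2 + if k = 0 then 1 else 0 := by
    refine ((Real.summable_one_div_int_pow (p := 2)).2 (by norm_num)).add ?_
    exact summable_of_ne_finset_zero (s := {0}) (by
      intro b hb
      rw [if_neg (by simpa using hb)])
  refine Summable.of_nonneg_of_le (fun k => by positivity) (fun k => ?_)
    (hs.mul_left ((1 + |x|) ^ 2))
  have hy : 0 < 1 + |x + k| := by positivity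
  have h1 : (1 + |x + k|) ^ n ≤ ((1 + |x + k|) ^ 2)⁻¹ := by
    rw [← zpow_natCast, ← zpow_neg]
    exact zpow_le_zpow_right₀ (one_le_one_add_abs _) (by push_cast; exact hn)
  refine h1.trans ?_
  have h2 : 1 + |(k : ℝ)| ≤ (1 + |x|) * (1 + |x + k|) := by
    have h3 : |(k : ℝ)| ≤ |x + k| + |x| := by
      have := abs_add_le (x + k) (-x)
      rwa [abs_neg, add_neg_cancel_comm] at this
    nlinarith [abs_nonneg x, abs_nonneg (x + k)]
  have h4 : ((1 + |x + k|) ^ 2)⁻¹ ≤ (1 + |x|) ^ 2 * ((1 + |(k : ℝ)|) ^ 2)⁻¹ := by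
    rw [inv_le_iff_one_le_mul₀ (by positivity), mul_assoc, inv_mul_eq_div, mul_div_assoc',
      le_div_iff₀ (by positivity), one_mul, ← mul_pow]
    exact pow_le_pow_left₀ (by positivity) h2 2
  refine h4.trans (mul_le_mul_of_nonneg_left ?_ (by positivity))
  by_cases hk : k = 0
  · subst hk; simp
  · rw [if_neg hk, add_zero, one_div]
    have : (0 : ℝ) < |(k : ℝ)| := by
      rw [abs_pos]; exact_mod_cast hk
    refine inv_anti₀ ?_ ?_
    · have : (k : ℝ) ≠ 0 := by exact_mod_cast hk
      positivity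
    · rw [← sq_abs (k : ℝ)]
      exact pow_le_pow_left₀ (abs_nonneg _) (by linarith) 2

variable (hinv : ∀ i, opp (opp i) = i) (hne : ∀ i, opp i ≠ i)

theorem ne_shift {x : ℝ} (hx : ∀ k : ℤ, x ≠ k) (k l : ℤ) : x + k ≠ l := by
  intro h
  exact hx (l - k) (by push_cast; linarith)

include hinv hne

theorem summable_rF {x : ℝ} (hx : ∀ k : ℤ, x ≠ k) (e : ℤ) (he : e + 1 - (canon opp).card ≤ -2)
    (p : Rq opp) : Summable fun k : ℤ => rF opp (x + k) e p := by
  obtain ⟨p, rfl⟩ := Ideal.Quotient.mk_surjective p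
  have hp : ∀ p : MvPolynomial (Strand N) ℝ, Summable fun k : ℤ => polyF opp (x + k) e p := by
    intro p
    have hmem : p ∈ Submodule.span ℝ (Set.range (MvPolynomial.basisMonomials (Strand N) ℝ)) := by
      rw [(MvPolynomial.basisMonomials (Strand N) ℝ).span_eq]
      trivial
    refine Submodule.span_induction
      (p := fun p _ => Summable fun k : ℤ => polyF opp (x + k) e p) ?_ ?_ ?_ ?_ hmem
    · rintro _ ⟨m, rfl⟩
      obtain ⟨C, hC, h⟩ := term_bound opp hx e hinv hne (Finsupp.toMultiset m).toList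
      refine Summable.of_norm_bounded ((summable_shift x _ he).mul_left C) fun k => ?_
      rw [polyF, Module.Basis.constr_basis]
      exact h k
    · simp
    · intro a b _ _ ha hb
      simpa only [map_add] using ha.add hb
    · intro c a _ ha
      simpa only [map_smul, smul_eq_mul] using ha.mul_left c
  refine (hp p).congr fun k => ?_
  exact (rF_mk opp hinv hne (x + k) (ne_shift hx k) e p).symm

/-- The functional `Fun` is a trace functional. -/
theorem traceFun_Fun {x : ℝ} (hx : ∀ k : ℤ, x ≠ k) (e : ℤ)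
    (he : e + 1 - (canon opp).card ≤ -2) : TraceFun (Fun opp hinv hne e x) := by
  constructor
  · intro g h M
    unfold Fun
    rw [← (summable_rF opp hinv hne hx e he _).tsum_add (summable_rF opp hinv hne hx e he _)]
    refine tsum_congr fun k => ?_
    rw [← map_add]
    congr 1
    simp only [Multiset.map_cons, Multiset.prod_cons]
    rw [← mul_assoc, ← add_mul]
    congr 1
    rw [trace_mul_bool, map_mul, map_mul, map_inv]
    rfl
  · intro M
    unfold Fun
    rw [← tsum_mul_left]
    refine tsum_congr fun k => ?_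
    simp only [Multiset.map_cons, Multiset.prod_cons, map_one]
    have h1 : ((1 : Matrix.SpecialLinearGroup Bool (Rq opp)).1).trace = 2 := by
      show (1 : Matrix Bool Bool (Rq opp)).trace = 2
      rw [Matrix.trace_one]
      simp
    rw [h1]
    have h2 : ∀ p : Rq opp, (2 : Rq opp) * p = (2 : ℝ) • p := by
      intro p
      rw [two_mul, two_smul]
    rw [h2, map_smul, smul_eq_mul]

end

end Pool.Agent.AMU
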