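import Pool.Agent.Lib.AMU.GeoDef

/-!
# Row H01: forms (PROVED, no row)
-/

set_option autoImplicit false

namespace Pool.Agent.AMU.Geo

open Matrix

theorem act_act (h k X : M2) : act h (act k X) = act (h * k) X := by
  simp only [act, Matrix.transpose_mul, Matrix.mul_assoc]

theorem act_one (X : M2) : act 1 X = X := by simp [act]

theorem act_add (h X Y : M2) : act h (X + Y) = act h X + act h Y := by
  simp only [act, Matrix.mul_add, Matrix.add_mul]

theorem act_smul (h : M2) (c : ℝ) (X : M2) : act h (c • X) = c • act h X := by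
  simp only [act, Matrix.mul_smul, Matrix.smul_mul]

theorem act_neg (h X : M2) : act h (-X) = -act h X := by
  simp only [act, Matrix.mul_neg, Matrix.neg_mul]

theorem act_neg_left (h X : M2) : act (-h) X = act h X := by
  simp only [act, Matrix.transpose_neg, Matrix.mul_neg, Matrix.neg_mul, neg_neg]

theorem act_sym (h : M2) {X : M2} (hX : Sym X) : Sym (act h X) := by
  unfold Sym at *
  simp only [act, Matrix.mul_apply, Fin.sum_univ_two, Matrix.transpose_apply]
  rw [hX]; ring

theorem sym_add {X Y : M2} (hX : Sym X) (hY : Sym Y) : Sym (X + Y) := by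
  unfold Sym at *; simp [hX, hY]

theorem sym_smul {X : M2} (c : ℝ) (hX : Sym X) : Sym (c • X) := by
  unfold Sym at *; simp [hX]

theorem sym_neg {X : M2} (hX : Sym X) : Sym (-X) := by
  unfold Sym at *; simp [hX]

theorem sym_one : Sym (1 : M2) := by simp [Sym]

theorem lor_comm (P X : M2) : lor P X = lor X P := by unfold lor; ring

theorem lor_self {X : M2} (hX : Sym X) : lor X X = X.det := by
  unfold lor Sym at *
  rw [Matrix.det_fin_two]; rw [hX]; ring

theorem lor_add_right (P X Y : M2) : lor P (X + Y) = lor P X + lor P Y := by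
  unfold lor; simp only [Matrix.add_apply]; ring

theorem lor_smul_right (c : ℝ) (P X : M2) : lor P (c • X) = c * lor P X := by
  unfold lor; simp only [Matrix.smul_apply, smul_eq_mul]; ring

theorem lor_neg_right (P X : M2) : lor P (-X) = -lor P X := by
  unfold lor; simp only [Matrix.neg_apply]; ring

theorem lor_add_left (P X Y : M2) : lor (P + X) Y = lor P Y + lor X Y := by
  unfold lor; simp only [Matrix.add_apply]; ring

theorem lor_smul_left (c : ℝ) (P X : M2) : lor (c • P) X = c * lor P X := by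
  unfold lor; simp only [Matrix.smul_apply, smul_eq_mul]; ring

theorem lor_neg_left (P X : M2) : lor (-P) X = -lor P X := by
  unfold lor; simp only [Matrix.neg_apply]; ring

theorem lor_act (h P X : M2) : lor (act h P) (act h X) = h.det ^ 2 * lor P X := by
  unfold lor
  rw [Matrix.det_fin_two]
  simp only [act, Matrix.mul_apply, Fin.sum_univ_two, Matrix.transpose_apply]
  ring

theorem lor_act_one {h : M2} (hh : h.det = 1) (P X : M2) : lor (act h P) (act h X) = lor P X := by
  rw [lor_act, hh]; ring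

theorem det_act (h X : M2) : (act h X).det = h.det ^ 2 * X.det := by
  simp only [act, Matrix.det_mul, Matrix.det_transpose]; ring

theorem act_inv_left {h : M2} (hh : h.det = 1) (X : M2) : act h⁻¹ (act h X) = X := by
  rw [act_act, Matrix.nonsing_inv_mul _ (by rw [hh]; exact isUnit_one), act_one]

theorem act_inv_right {h : M2} (hh : h.det = 1) (X : M2) : act h (act h⁻¹ X) = X := by
  rw [act_act, Matrix.mul_nonsing_inv _ (by rw [hh]; exact isUnit_one), act_one]

theorem det_inv_one {h : M2} (hh : h.det = 1) : h⁻¹.det = 1 := by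
  rw [Matrix.det_nonsing_inv, hh]; simp

/-- Moving the group element to the other side of the Lorentz form. -/
theorem lor_act_left {h : M2} (hh : h.det = 1) (P X : M2) :
    lor (act h P) X = lor P (act h⁻¹ X) := by
  conv_lhs => rw [← act_inv_right hh X]
  rw [lor_act_one hh]

theorem pd_sym {X : M2} (hX : PD X) : Sym X := hX.1

theorem pd_pos' {X : M2} (hX : PD X) : 0 < X 1 1 := by
  obtain ⟨h1, h2, h3⟩ := hX
  rw [Matrix.det_fin_two, h1] at h3
  by_contra hc
  push Not at hc
  nlinarith [mul_nonneg h2.le (neg_nonneg.mpr hc), mul_self_nonneg (X 0 1)]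

theorem pd_one : PD (1 : M2) := by simp [PD]

theorem pd_smul {X : M2} (hX : PD X) {c : ℝ} (hc : 0 < c) : PD (c • X) := by
  obtain ⟨h1, h2, h3⟩ := hX
  refine ⟨by simp [h1], by simpa using mul_pos hc h2, ?_⟩
  rw [Matrix.det_smul]
  simp only [Fintype.card_fin]
  positivity

theorem lor_pd_pos {X Y : M2} (hX : PD X) (hY : PD Y) : 0 < lor X Y := by
  have hX' := pd_pos' hX
  have hY' := pd_pos' hY
  obtain ⟨h1, h2, h3⟩ := hX
  obtain ⟨k1, k2, k3⟩ := hY
  rw [Matrix.det_fin_two, h1] at h3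
  rw [Matrix.det_fin_two, k1] at k3
  unfold lor
  rw [h1, k1]
  have e1 : (X 0 1 * Y 0 1) ^ 2 < (X 0 0 * X 1 1) * (Y 0 0 * Y 1 1) := by
    have h4 : X 0 1 * X 0 1 < X 0 0 * X 1 1 := by linarith
    have h5 : Y 0 1 * Y 0 1 < Y 0 0 * Y 1 1 := by linarith
    have := mul_lt_mul'' h4 h5 (mul_self_nonneg _) (mul_self_nonneg _)
    nlinarith [this]
  have e2 : (2 * (X 0 1 * Y 0 1)) ^ 2 < (X 0 0 * Y 1 1 + X 1 1 * Y 0 0) ^ 2 := by
    nlinarith [sq_nonneg (X 0 0 * Y 1 1 - X 1 1 * Y 0 0)]
  have e3 : 0 < X 0 0 * Y 1 1 + X 1 1 * Y 0 0 := by positivity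
  have := abs_lt_of_sq_lt_sq e2 e3.le
  have := le_abs_self (2 * (X 0 1 * Y 0 1))
  linarith

theorem pd_add {X Y : M2} (hX : PD X) (hY : PD Y) : PD (X + Y) := by
  have h := lor_pd_pos hX hY
  obtain ⟨h1, h2, h3⟩ := hX
  obtain ⟨k1, k2, k3⟩ := hY
  refine ⟨by simp [h1, k1], by simpa using add_pos h2 k2, ?_⟩
  have e : (X + Y).det = X.det + Y.det + 2 * lor X Y := by
    unfold lor; simp only [Matrix.det_fin_two, Matrix.add_apply]; ring
  rw [e]; linarith

theorem pd_comb {X Y : M2} (hX : PD X) (hY : PD Y) {s t : ℝ} (hs : 0 ≤ s) (ht : 0 ≤ t)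
    (hst : 0 < s + t) : PD (s • X + t • Y) := by
  rcases hs.eq_or_lt with h | h
  · rw [← h, zero_smul, zero_add]; exact pd_smul hY (by linarith)
  · rcases ht.eq_or_lt with h' | h'
    · rw [← h', zero_smul, add_zero]; exact pd_smul hX h
    · exact pd_add (pd_smul hX h) (pd_smul hY h')

theorem pd_act {h X : M2} (hh : h.det ≠ 0) (hX : PD X) : PD (act h X) := by
  have hs := act_sym h (pd_sym hX)
  have h11 := pd_pos' hX
  obtain ⟨h1, h2, h3⟩ := hX
  refine ⟨hs, ?_, ?_⟩
  · simp only [act, Matrix.mul_apply, Fin.sum_univ_two, Matrix.transpose_apply]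
    rw [Matrix.det_fin_two] at hh h3
    rw [h1] at h3 ⊢
    have hne : h 0 0 ≠ 0 ∨ h 0 1 ≠ 0 := by
      by_contra hc; push Not at hc; apply hh; rw [hc.1, hc.2]; ring
    have key : X 0 0 * ((h 0 0 * X 0 0 + h 0 1 * X 0 1) * h 0 0 +
        (h 0 0 * X 0 1 + h 0 1 * X 1 1) * h 0 1) =
        (X 0 0 * h 0 0 + X 0 1 * h 0 1) ^ 2 + (X 0 0 * X 1 1 - X 0 1 * X 0 1) * (h 0 1) ^ 2 := by
      ring
    have hpos : 0 < X 0 0 * ((h 0 0 * X 0 0 + h 0 1 * X 0 1) * h 0 0 +
        (h 0 0 * X 0 1 + h 0 1 * X 1 1) * h 0 1) := by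
      rw [key]
      by_cases h01 : h 0 1 = 0
      · have h00 : h 0 0 ≠ 0 := by rcases hne with h | h; exacts [h, absurd h01 h]
        rw [h01]; simp only [mul_zero, add_zero, ne_eq, OfNat.ofNat_ne_zero, not_false_eq_true,
          zero_pow]
        positivity
      · have : 0 < (h 0 1) ^ 2 := by positivity
        nlinarith [sq_nonneg (X 0 0 * h 0 0 + X 0 1 * h 0 1), mul_pos h3 this]
    exact (mul_pos_iff_of_pos_left h2).mp hpos
  · rw [det_act]; positivity

/-- A positive definite matrix with determinant one is `h hᵀ`. -/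
theorem exists_factor {X : M2} (hX : PD X) (hd : X.det = 1) :
    ∃ h : M2, h.det = 1 ∧ X = act h 1 := by
  obtain ⟨h1, h2, h3⟩ := hX
  set s := Real.sqrt (X 0 0) with hs
  have hs0 : 0 < s := Real.sqrt_pos.mpr h2
  have hs2 : s * s = X 0 0 := Real.mul_self_sqrt h2.le
  rw [Matrix.det_fin_two, h1] at hd
  refine ⟨!![s, 0; X 0 1 / s, 1 / s], ?_, ?_⟩
  · rw [Matrix.det_fin_two_of]; field_simp; ring
  · ext i j
    fin_cases i <;> fin_cases j <;>
      simp [act, Matrix.mul_apply, Fin.sum_univ_two, Matrix.transpose_apply]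
    · exact hs2.symm
    · field_simp
    · rw [h1]; field_simp
    · field_simp
      rw [pow_two, hs2]
      linarith

theorem axN_add (M X Y : M2) : axN M (X + Y) = axN M X + axN M Y := by
  unfold axN; rw [Matrix.mul_add, Matrix.trace_add]; ring

theorem axN_smul (M : M2) (c : ℝ) (X : M2) : axN M (c • X) = c * axN M X := by
  unfold axN; rw [Matrix.mul_smul, Matrix.trace_smul, smul_eq_mul]; ring

/-- `axN M` as a linear map. -/
noncomputable def axL (M : M2) : M2 →ₗ[ℝ] ℝ where
  toFun := axN M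
  map_add' := axN_add M
  map_smul' := fun c X => by simp [axN_smul]

/-- `lor v` as a linear map. -/
noncomputable def lorL (v : M2) : M2 →ₗ[ℝ] ℝ where
  toFun := lor v
  map_add' := lor_add_right v
  map_smul' := fun c X => by simp [lor_smul_right]

theorem axN_eq (M X : M2) :
    axN M X = (M 0 0 + M 1 1) * (-(M 1 0 * X 0 0) - M 1 1 * X 1 0 + M 0 0 * X 0 1 + M 0 1 * X 1 1) := by
  have : (!![0, -1; 1, 0] * M * X).trace =
      -(M 1 0 * X 0 0) - M 1 1 * X 1 0 + M 0 0 * X 0 1 + M 0 1 * X 1 1 := by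
    rw [Matrix.trace_fin_two]
    simp only [Matrix.mul_apply, Fin.sum_univ_two, Matrix.of_apply, Matrix.cons_val', Matrix.cons_val_zero,
      Matrix.cons_val_one, Matrix.cons_val_fin_one]
    ring
  unfold axN
  rw [this, Matrix.trace_fin_two]

theorem inv_eq {h : M2} (hh : h.det = 1) : h⁻¹ = !![h 1 1, -h 0 1; -h 1 0, h 0 0] := by
  rw [Matrix.inv_def, hh]; simp [Matrix.adjugate_fin_two]

theorem axN_act {h : M2} (hh : h.det = 1) (M X : M2) :
    axN (h * M * h⁻¹) (act h X) = axN M X := by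
  have hJ : hᵀ * !![0, -1; 1, 0] * h = !![0, -1; 1, 0] := by
    rw [Matrix.det_fin_two] at hh
    ext i j
    fin_cases i <;> fin_cases j <;>
      simp [Matrix.mul_apply, Fin.sum_univ_two, Matrix.transpose_apply] <;> linarith
  have hi : h⁻¹ * h = 1 := Matrix.nonsing_inv_mul _ (by rw [hh]; exact isUnit_one)
  unfold axN act
  have e1 : (h * M * h⁻¹).trace = M.trace := by
    rw [Matrix.trace_mul_comm, ← Matrix.mul_assoc, hi, Matrix.one_mul]
  have e2 : (!![0, -1; 1, 0] * (h * M * h⁻¹) * (h * X * hᵀ)).trace =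
      (!![0, -1; 1, 0] * M * X).trace := by
    calc (!![0, -1; 1, 0] * (h * M * h⁻¹) * (h * X * hᵀ)).trace
        = ((!![0, -1; 1, 0] * h * M * (h⁻¹ * h) * X) * hᵀ).trace := by
          congr 1; simp only [Matrix.mul_assoc]
      _ = (hᵀ * (!![0, -1; 1, 0] * h * M * (h⁻¹ * h) * X)).trace := Matrix.trace_mul_comm _ _
      _ = ((hᵀ * !![0, -1; 1, 0] * h) * M * X).trace := by
          rw [hi]; congr 1; simp only [Matrix.mul_assoc, Matrix.one_mul]
      _ = _ := by rw [hJ]
  rw [e1, e2]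

end Pool.Agent.AMU.Geo
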