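import Pool.Agent.Lib.AMU.Geo01

/-!
# Row H02: constants and rotated families
-/

set_option autoImplicit false

namespace Pool.Agent.AMU.Geo

open Matrix

variable {g : ℕ}

theorem xx_pos (hg : 2 ≤ g) : 0 < xx g := by
  unfold xx; have : (0 : ℝ) < g := by exact_mod_cast (by omega : 0 < g)
  positivity

theorem xx_mul (hg : 2 ≤ g) : (4 * g : ℝ) * xx g = Real.pi := by
  unfold xx; have : (0 : ℝ) < g := by exact_mod_cast (by omega : 0 < g)
  field_simp

theorem xx_le (hg : 2 ≤ g) : xx g ≤ Real.pi / 8 := by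
  unfold xx; have : (2 : ℝ) ≤ g := by exact_mod_cast hg
  have h2 : (8 : ℝ) ≤ 4 * g := by linarith
  exact div_le_div_of_nonneg_left Real.pi_pos.le (by norm_num) h2

theorem sin_xx_pos (hg : 2 ≤ g) : 0 < Real.sin (xx g) :=
  Real.sin_pos_of_pos_of_lt_pi (xx_pos hg) (by have := xx_le hg; have := Real.pi_pos; linarith)

theorem cos_xx_pos (hg : 2 ≤ g) : 0 < Real.cos (xx g) :=
  Real.cos_pos_of_mem_Ioo ⟨by have := xx_pos hg; have := Real.pi_pos; linarith,
    by have := xx_le hg; have := Real.pi_pos; linarith⟩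

theorem sin_sq_lt (hg : 2 ≤ g) : 2 * Real.sin (xx g) ^ 2 < 1 := by
  have h : 0 < Real.cos (2 * xx g) := Real.cos_pos_of_mem_Ioo
    ⟨by have := xx_pos hg; have := Real.pi_pos; linarith,
     by have := xx_le hg; have := Real.pi_pos; linarith⟩
  rw [Real.cos_two_mul] at h
  have := Real.sin_sq_add_cos_sq (xx g)
  nlinarith

theorem sin_lt_cos (hg : 2 ≤ g) : Real.sin (xx g) < Real.cos (xx g) := by
  have h1 := sin_sq_lt hg
  have h2 := Real.sin_sq_add_cos_sq (xx g)
  have h3 := cos_xx_pos hg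
  have h4 := sin_xx_pos hg
  nlinarith

theorem kap_sin (hg : 2 ≤ g) : kap g * Real.sin (xx g) = Real.cos (xx g) := by
  unfold kap; have := sin_xx_pos hg; field_simp

theorem one_lt_kap (hg : 2 ≤ g) : 1 < kap g := by
  unfold kap; rw [lt_div_iff₀ (sin_xx_pos hg), one_mul]; exact sin_lt_cos hg

theorem SS_sq (hg : 2 ≤ g) : SS g ^ 2 = kap g ^ 2 - 1 := by
  unfold SS; exact Real.sq_sqrt (by nlinarith [one_lt_kap hg])

theorem SS_pos (hg : 2 ≤ g) : 0 < SS g := by
  unfold SS; exact Real.sqrt_pos.mpr (by nlinarith [one_lt_kap hg])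

theorem SS_lt_kap (hg : 2 ≤ g) : SS g < kap g := by
  have h1 := SS_sq hg; have h2 := SS_pos hg; have h3 := one_lt_kap hg
  nlinarith

theorem aa_mul (hg : 2 ≤ g) : aa g * (kap g - SS g) = 1 := by
  unfold aa; have := SS_sq hg; nlinarith

theorem one_lt_aa (hg : 2 ≤ g) : 1 < aa g := by
  unfold aa; have := SS_pos hg; have := one_lt_kap hg; linarith

theorem ki_pos (hg : 2 ≤ g) : 0 < kap g - SS g := by
  have := SS_lt_kap hg; linarith

theorem Rt_add (s t : ℝ) : Rt (s + t) = Rt s * Rt t := by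
  unfold Rt; rw [Real.cos_add, Real.sin_add]
  ext i j; fin_cases i <;> fin_cases j <;> simp [Matrix.mul_apply, Fin.sum_univ_two] <;> ring

theorem Rt_zero : Rt 0 = 1 := by
  unfold Rt; ext i j; fin_cases i <;> fin_cases j <;> simp

theorem Rt_transpose (t : ℝ) : (Rt t)ᵀ = Rt (-t) := by
  unfold Rt; ext i j; fin_cases i <;> fin_cases j <;> simp

theorem Rt_pi : Rt Real.pi = -1 := by
  unfold Rt; ext i j; fin_cases i <;> fin_cases j <;> simp

theorem Rt_int_pi (n : ℤ) : Rt (n * Real.pi) = 1 ∨ Rt (n * Real.pi) = -1 := by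
  have hp : ∀ m : ℤ, Rt ((m + 1 : ℤ) * Real.pi) = -Rt (m * Real.pi) := by
    intro m
    rw [show ((m + 1 : ℤ) : ℝ) * Real.pi = m * Real.pi + Real.pi by push_cast; ring, Rt_add, Rt_pi]
    simp
  induction n using Int.induction_on with
  | zero => left; simp [Rt_zero]
  | succ i ih => rw [hp]; rcases ih with h | h <;> rw [h] <;> simp
  | pred i ih =>
    have := hp (-(i : ℤ) - 1)
    rw [show (-(i : ℤ) - 1 + 1) = -(i : ℤ) by ring] at this
    rw [this] at ih
    rcases ih with h | h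
    · right; rw [← h]; simp
    · left; rw [neg_eq_iff_eq_neg] at h; rw [h]; simp

theorem det_Rt (t : ℝ) : (Rt t).det = 1 := by
  unfold Rt; rw [Matrix.det_fin_two_of]; have := Real.sin_sq_add_cos_sq t; nlinarith

theorem Rt_inv (t : ℝ) : (Rt t)⁻¹ = Rt (-t) := by
  rw [inv_eq (det_Rt t)]; unfold Rt; simp

theorem act_Rt (t : ℝ) (X : M2) : act (Rt t) X = Rt t * X * Rt (-t) := by
  unfold act; rw [Rt_transpose]

theorem act_Rt_add (s t : ℝ) (X : M2) : act (Rt (s + t)) X = act (Rt s) (act (Rt t) X) := by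
  rw [Rt_add, act_act]

theorem act_Rt_period (t : ℝ) (n : ℤ) (X : M2) : act (Rt (t + n * Real.pi)) X = act (Rt t) X := by
  rw [act_Rt_add]
  rcases Rt_int_pi n with h | h <;> rw [h]
  · rw [act_one]
  · rw [act_neg_left, act_one]

/-- Integer angles. -/
theorem fam_int (hg : 2 ≤ g) (D : M2) (n : ℤ) :
    fam g D (n : ZMod (4 * g)) = act (Rt (n * xx g)) D := by
  haveI : NeZero (4 * g) := ⟨by omega⟩
  unfold fam
  have h1 : (((n : ZMod (4 * g)).val : ℤ)) = n % ((4 * g : ℕ) : ℤ) := ZMod.val_intCast n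
  have h2 : n = n % ((4 * g : ℕ) : ℤ) + ((4 * g : ℕ) : ℤ) * (n / ((4 * g : ℕ) : ℤ)) :=
    (Int.emod_add_mul_ediv n _).symm
  have h3 : (n : ℝ) * xx g = ((n : ZMod (4 * g)).val : ℝ) * xx g +
      ((n / ((4 * g : ℕ) : ℤ) : ℤ) : ℝ) * Real.pi := by
    have h4 : (n : ℝ) = (((n : ZMod (4 * g)).val : ℤ) : ℝ) +
        ((4 * g : ℕ) : ℝ) * ((n / ((4 * g : ℕ) : ℤ) : ℤ) : ℝ) := by
      rw [h1]; exact_mod_cast h2
    rw [h4, ← xx_mul hg]; push_cast; ring
  rw [h3, act_Rt_period]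

theorem fam_add_int (hg : 2 ≤ g) (D : M2) (i : ZMod (4 * g)) (n : ℤ) :
    fam g D (i + (n : ZMod (4 * g))) = act (Rt (i.val * xx g + n * xx g)) D := by
  haveI : NeZero (4 * g) := ⟨by omega⟩
  have h1 : i + (n : ZMod (4 * g)) = ((((i.val : ℤ) + n : ℤ)) : ZMod (4 * g)) := by
    push_cast; rw [ZMod.natCast_zmod_val]
  rw [h1, fam_int hg]; push_cast; ring_nf

theorem det_fam (D : M2) (i : ZMod (4 * g)) : (fam g D i).det = D.det := by
  unfold fam; rw [det_act, det_Rt]; ring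

theorem det_T0 (hg : 2 ≤ g) : (T0 g).det = 1 := by
  unfold T0; rw [Matrix.det_fin_two_of]; have := aa_mul hg; linarith

theorem det_sm (hg : 2 ≤ g) (i : ZMod (4 * g)) : (sm g i).det = 1 := by
  unfold sm; rw [det_fam, det_T0 hg]

theorem sym_fam {D : M2} (hD : Sym D) (i : ZMod (4 * g)) : Sym (fam g D i) := act_sym _ hD

theorem sym_W (i : ZMod (4 * g)) : Sym (W g i) := sym_fam (by simp [Sym, W0]) i

theorem sym_Q (i : ZMod (4 * g)) : Sym (Q g i) := sym_fam (by simp [Sym, Q0]) i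

theorem sm_eq (i : ZMod (4 * g)) :
    sm g i = Rt (i.val * xx g) * T0 g * Rt (-(i.val * xx g)) := by
  unfold sm fam; rw [act_Rt]

/-- Every index is an integer; the index `i + n`. -/
theorem exists_int (hg : 2 ≤ g) (i : ZMod (4 * g)) : ∃ n : ℤ, i = (n : ZMod (4 * g)) := by
  haveI : NeZero (4 * g) := ⟨by omega⟩
  exact ⟨i.val, by push_cast; rw [ZMod.natCast_zmod_val]⟩

theorem h2_int : h2 g = (((2 * g : ℕ) : ℤ) : ZMod (4 * g)) := by unfold h2; push_cast; rfl

theorem h2_add_h2 : h2 g + h2 g = 0 := by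
  unfold h2; rw [← Nat.cast_add, show 2 * g + 2 * g = 4 * g by ring]; exact ZMod.natCast_self _

theorem two_g_xx (hg : 2 ≤ g) : ((2 * g : ℕ) : ℝ) * xx g = Real.pi / 2 := by
  have := xx_mul hg; push_cast; linarith

end Pool.Agent.AMU.Geo
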