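import Pool.Agent.Lib.AMU.Geo02

/-!
# Row H03: the regular polygon: Lorentz products, reflections, gluing
-/

set_option autoImplicit false

namespace Pool.Agent.AMU.Geo

open Matrix

variable {g : ℕ}

theorem W_add (hg : 2 ≤ g) (i : ZMod (4 * g)) (n : ℤ) :
    W g (i + (n : ZMod (4 * g))) = act (Rt (i.val * xx g)) (act (Rt (n * xx g)) (W0 g)) := by
  unfold W; rw [fam_add_int hg, act_Rt_add]

theorem Q_add (hg : 2 ≤ g) (i : ZMod (4 * g)) (n : ℤ) :
    Q g (i + (n : ZMod (4 * g))) = act (Rt (i.val * xx g)) (act (Rt (n * xx g)) (Q0 g)) := by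
  unfold Q; rw [fam_add_int hg, act_Rt_add]

theorem act_sm_act (i : ZMod (4 * g)) (X : M2) :
    act (sm g i) (act (Rt (i.val * xx g)) X) = act (Rt (i.val * xx g)) (act (T0 g) X) := by
  rw [sm_eq, act_act, act_act, Matrix.mul_assoc, ← Rt_add, neg_add_cancel, Rt_zero, Matrix.mul_one]

/-- Explicit form of the rotated diagonal matrix. -/
theorem act_Rt_diag (t a d : ℝ) : act (Rt t) !![a, 0; 0, d] =
    !![a * Real.cos t ^ 2 + d * Real.sin t ^ 2, (d - a) * (Real.sin t * Real.cos t);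
      (d - a) * (Real.sin t * Real.cos t), a * Real.sin t ^ 2 + d * Real.cos t ^ 2] := by
  unfold act Rt
  ext i j
  fin_cases i <;> fin_cases j <;>
    simp [Matrix.mul_apply, Fin.sum_univ_two, Matrix.transpose_apply] <;> ring

theorem act_diag (p q : ℝ) (X : M2) : act !![p, 0; 0, q] X =
    !![p ^ 2 * X 0 0, p * q * X 0 1; p * q * X 1 0, q ^ 2 * X 1 1] := by
  rw [Matrix.eta_fin_two X]
  unfold act
  ext i j
  fin_cases i <;> fin_cases j <;>
    simp [Matrix.mul_apply, Fin.sum_univ_two, Matrix.transpose_apply] <;> ring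

theorem lor_WW (hg : 2 ≤ g) (i : ZMod (4 * g)) (n : ℤ) :
    lor (W g i) (W g (i + (n : ZMod (4 * g)))) =
      -1 + 2 * kap g ^ 2 * Real.sin (n * xx g) ^ 2 := by
  rw [W_add hg]
  unfold W fam
  rw [lor_act_one (det_Rt _)]
  unfold W0
  rw [act_Rt_diag]
  unfold lor
  have h1 := aa_mul hg
  have h2 := Real.sin_sq_add_cos_sq (n * xx g)
  have h3 := SS_sq hg
  simp only [Matrix.of_apply, Matrix.cons_val', Matrix.cons_val_zero, Matrix.cons_val_one,
    Matrix.cons_val_fin_one]
  have h4 : Real.cos (n * xx g) ^ 2 = 1 - Real.sin (n * xx g) ^ 2 := by linarith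
  rw [h4]
  unfold aa at h1 ⊢
  nlinarith

theorem lor_W_self (hg : 2 ≤ g) (i : ZMod (4 * g)) : lor (W g i) (W g i) = -1 := by
  have := lor_WW hg i 0; simpa using this

theorem lor_W_adj (hg : 2 ≤ g) (i : ZMod (4 * g)) :
    lor (W g i) (W g (i + 1)) = Real.cos (2 * xx g) := by
  have h := lor_WW hg i 1
  simp only [Int.cast_one, one_mul] at h
  rw [h, Real.cos_two_mul]
  have := kap_sin hg
  rw [mul_assoc, ← mul_pow, this]; ring

/-- `sin (n x)` is at least `sin (2 x)` for `2 ≤ n ≤ 4g - 2`. -/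
theorem sin_ge (hg : 2 ≤ g) {n k : ℕ} (h1 : k ≤ n) (h2 : n + k ≤ 4 * g) (hk : 2 * k ≤ 4 * g) :
    Real.sin (k * xx g) ≤ Real.sin (n * xx g) := by
  have hx := xx_pos hg
  have hm := xx_mul hg
  have h1' : (k : ℝ) ≤ n := by exact_mod_cast h1
  have h2' : (n : ℝ) + k ≤ 4 * g := by exact_mod_cast h2
  have hk' : 2 * (k : ℝ) ≤ 4 * g := by exact_mod_cast hk
  have hk0 : (0 : ℝ) ≤ k := by positivity
  have e : Real.sin (n * xx g) - Real.sin (k * xx g) =
      2 * Real.sin ((n * xx g - k * xx g) / 2) * Real.cos ((n * xx g + k * xx g) / 2) :=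
    Real.sin_sub_sin _ _
  have a1 : 0 ≤ Real.sin ((n * xx g - k * xx g) / 2) := by
    apply Real.sin_nonneg_of_nonneg_of_le_pi
    · nlinarith
    · nlinarith
  have a2 : 0 ≤ Real.cos ((n * xx g + k * xx g) / 2) := by
    apply Real.cos_nonneg_of_mem_Icc
    constructor
    · have := Real.pi_pos; nlinarith
    · nlinarith
  nlinarith [mul_nonneg a1 a2]

theorem lor_W_far (hg : 2 ≤ g) (i j : ZMod (4 * g)) (h0 : j ≠ i) (h1 : j ≠ i + 1)
    (h2 : j ≠ i - 1) : 1 ≤ lor (W g i) (W g j) := by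
  have : NeZero (4 * g) := ⟨by omega⟩
  set n := (j - i).val with hn
  have hj : j = i + ((n : ℤ) : ZMod (4 * g)) := by
    rw [hn]; push_cast; rw [ZMod.natCast_zmod_val]; ring
  have hlt : n < 4 * g := ZMod.val_lt _
  have n0 : n ≠ 0 := by
    intro h; apply h0; rw [hj, h]; simp
  have n1 : n ≠ 1 := by
    intro h; apply h1; rw [hj, h]; simp
  have n2 : n ≠ 4 * g - 1 := by
    intro h; apply h2; rw [hj, h]
    have : ((4 * g - 1 : ℕ) : ZMod (4 * g)) = -1 := by
      rw [Nat.cast_sub (by omega), ZMod.natCast_self]; simp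
    push_cast
    rw [this]; ring
  rw [hj, lor_WW hg]
  have hs : Real.sin ((2 : ℕ) * xx g) ≤ Real.sin (n * xx g) := sin_ge hg (by omega) (by omega) (by omega)
  have hc := cos_xx_pos hg
  have hsx := sin_xx_pos hg
  have hks := kap_sin hg
  have h5 := sin_sq_lt hg
  have h6 := Real.sin_sq_add_cos_sq (xx g)
  push_cast at hs ⊢
  rw [Real.sin_two_mul] at hs
  have hk : 0 < kap g := by have := one_lt_kap hg; linarith
  have h7 : 2 * Real.cos (xx g) ^ 2 ≤ kap g * Real.sin (n * xx g) := by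
    calc 2 * Real.cos (xx g) ^ 2 = kap g * (2 * Real.sin (xx g) * Real.cos (xx g)) := by
          rw [← hks]; ring
      _ ≤ _ := mul_le_mul_of_nonneg_left hs hk.le
  have h8 : 1 ≤ kap g * Real.sin (n * xx g) := by nlinarith
  nlinarith

/-- Rotation of a symmetric matrix with double angles. -/
private theorem H03a_rot (t p q φ : ℝ) :
    act (Rt t) !![p + q * Real.cos φ, q * Real.sin φ; q * Real.sin φ, p - q * Real.cos φ] =
      !![p + q * Real.cos (φ - 2 * t), q * Real.sin (φ - 2 * t);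
        q * Real.sin (φ - 2 * t), p - q * Real.cos (φ - 2 * t)] := by
  have h := Real.sin_sq_add_cos_sq t
  have e1 : Real.cos (φ - 2 * t) = Real.cos φ * (2 * Real.cos t ^ 2 - 1) +
      Real.sin φ * (2 * Real.sin t * Real.cos t) := by
    rw [Real.cos_sub, Real.cos_two_mul, Real.sin_two_mul]
  have e2 : Real.sin (φ - 2 * t) = Real.sin φ * (2 * Real.cos t ^ 2 - 1) -
      Real.cos φ * (2 * Real.sin t * Real.cos t) := by
    rw [Real.sin_sub, Real.cos_two_mul, Real.sin_two_mul]
  rw [e1, e2]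
  have hs : Real.sin t ^ 2 = 1 - Real.cos t ^ 2 := by linarith
  unfold act Rt
  ext i j
  fin_cases i <;> fin_cases j <;>
    simp [Matrix.mul_apply, Fin.sum_univ_two, Matrix.transpose_apply] <;> ring_nf <;>
    rw [hs] <;> ring

private theorem H03a_Q0 (g : ℕ) : Q0 g = !![kap g * Real.cos (xx g) + SS g * Real.cos (xx g),
    SS g * Real.sin (xx g); SS g * Real.sin (xx g),
    kap g * Real.cos (xx g) - SS g * Real.cos (xx g)] := by
  unfold Q0 aa
  ext i j
  fin_cases i <;> fin_cases j <;> simp <;> ring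

private theorem H03a_W0 (g : ℕ) : W0 g = !![SS g + kap g * Real.cos 0, kap g * Real.sin 0;
    kap g * Real.sin 0, SS g - kap g * Real.cos 0] := by
  unfold W0 aa
  ext i j
  fin_cases i <;> fin_cases j <;> simp <;> ring

private theorem H03a_actQ (g : ℕ) (t : ℝ) : act (Rt t) (Q0 g) =
    !![kap g * Real.cos (xx g) + SS g * Real.cos (2 * t - xx g),
      -(SS g * Real.sin (2 * t - xx g));
      -(SS g * Real.sin (2 * t - xx g)),
      kap g * Real.cos (xx g) - SS g * Real.cos (2 * t - xx g)] := by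
  have e1 : Real.cos (2 * t - xx g) = Real.cos (xx g - 2 * t) := by
    rw [← Real.cos_neg, neg_sub]
  have e2 : -Real.sin (2 * t - xx g) = Real.sin (xx g - 2 * t) := by
    rw [← Real.sin_neg, neg_sub]
  rw [H03a_Q0, H03a_rot, e1, ← mul_neg, e2]

private theorem H03a_actW (g : ℕ) (t : ℝ) : act (Rt t) (W0 g) =
    !![SS g + kap g * Real.cos (2 * t), -(kap g * Real.sin (2 * t));
      -(kap g * Real.sin (2 * t)), SS g - kap g * Real.cos (2 * t)] := by
  rw [H03a_W0, H03a_rot, zero_sub, Real.cos_neg, Real.sin_neg, mul_neg]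

private theorem H03a_Q_eq (i : ZMod (4 * g)) : Q g i =
    !![kap g * Real.cos (xx g) + SS g * Real.cos ((2 * i.val - 1) * xx g),
      -(SS g * Real.sin ((2 * i.val - 1) * xx g));
      -(SS g * Real.sin ((2 * i.val - 1) * xx g)),
      kap g * Real.cos (xx g) - SS g * Real.cos ((2 * i.val - 1) * xx g)] := by
  have e : 2 * ((i.val : ℝ) * xx g) - xx g = (2 * i.val - 1) * xx g := by ring
  unfold Q fam
  rw [H03a_actQ, e]

private theorem H03a_det_Q (hg : 2 ≤ g) (i : ZMod (4 * g)) :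
    (Q g i).det = Real.sin (xx g) ^ 2 := by
  rw [H03a_Q_eq, Matrix.det_fin_two_of]
  have h1 := Real.sin_sq_add_cos_sq ((2 * i.val - 1) * xx g)
  have h2 := SS_sq hg
  have h3 := kap_sin hg
  have h4 := Real.sin_sq_add_cos_sq (xx g)
  have h5 : kap g ^ 2 * Real.sin (xx g) ^ 2 = Real.cos (xx g) ^ 2 := by rw [← h3]; ring
  have h6 : Real.cos (xx g) ^ 2 = 1 - Real.sin (xx g) ^ 2 := by linarith
  have h7 : kap g ^ 2 * Real.cos (xx g) ^ 2 = kap g ^ 2 - Real.cos (xx g) ^ 2 := by
    rw [h6, mul_sub, h5, mul_one, h6]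
  linear_combination h7 - (SS g ^ 2) * h1 - h2 + (-1 : ℝ) * h4

private theorem H03a_pd_Q (hg : 2 ≤ g) (i : ZMod (4 * g)) : PD (Q g i) := by
  have hd := H03a_det_Q hg i
  have hs := sin_xx_pos hg
  have hc := cos_xx_pos hg
  have hS := SS_pos hg
  have hk := one_lt_kap hg
  refine ⟨sym_Q i, ?_, by rw [hd]; positivity⟩
  rw [H03a_Q_eq]
  simp only [Matrix.of_apply, Matrix.cons_val', Matrix.cons_val_zero, Matrix.cons_val_fin_one]
  have h1 := Real.neg_one_le_cos ((2 * i.val - 1) * xx g)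
  have h2 := SS_sq hg
  have h3 := kap_sin hg
  have h4 := Real.sin_sq_add_cos_sq (xx g)
  have h5 : kap g ^ 2 * Real.sin (xx g) ^ 2 = Real.cos (xx g) ^ 2 := by rw [← h3]; ring
  have h6 : SS g ^ 2 < (kap g * Real.cos (xx g)) ^ 2 := by
    have : (kap g * Real.cos (xx g)) ^ 2 = kap g ^ 2 * (1 - Real.sin (xx g) ^ 2) := by
      rw [mul_pow]; congr 1; linarith
    rw [this, mul_sub, h5, mul_one, h2]
    have : 0 < Real.sin (xx g) ^ 2 := by positivity
    linarith
  have h7 : SS g < kap g * Real.cos (xx g) := by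
    have h8 : 0 ≤ kap g * Real.cos (xx g) := by
      have : 0 < kap g := by linarith
      positivity
    exact lt_of_pow_lt_pow_left₀ 2 h8 h6
  nlinarith [mul_nonneg hS.le (by linarith : (0 : ℝ) ≤
    1 + Real.cos ((2 * i.val - 1) * xx g))]

theorem lor_WQ (hg : 2 ≤ g) (i : ZMod (4 * g)) (n : ℤ) :
    lor (W g i) (Q g (i + (n : ZMod (4 * g)))) =
      2 * SS g * kap g * (Real.sin (n * xx g) * Real.sin ((n - 1) * xx g)) := by
  rw [Q_add hg]
  unfold W fam
  rw [lor_act_one (det_Rt _), H03a_actQ]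
  have h1 := Real.cos_sub_cos (xx g) (2 * (n * xx g) - xx g)
  have e1 : (xx g + (2 * (n * xx g) - xx g)) / 2 = n * xx g := by ring
  have e2 : (xx g - (2 * (n * xx g) - xx g)) / 2 = -((n - 1) * xx g) := by ring
  rw [e1, e2, Real.sin_neg] at h1
  unfold W0 lor aa
  simp only [Matrix.of_apply, Matrix.cons_val', Matrix.cons_val_zero, Matrix.cons_val_one,
    Matrix.cons_val_fin_one]
  linear_combination (SS g * kap g) * h1

theorem lor_WQ_self (hg : 2 ≤ g) (i : ZMod (4 * g)) : lor (W g i) (Q g i) = 0 := by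
  have := lor_WQ hg i 0; simpa using this

theorem lor_WQ_succ (hg : 2 ≤ g) (i : ZMod (4 * g)) : lor (W g i) (Q g (i + 1)) = 0 := by
  have := lor_WQ hg i 1; simpa using this

theorem lor_WQ_pos (hg : 2 ≤ g) (i j : ZMod (4 * g)) (h0 : j ≠ i) (h1 : j ≠ i + 1) :
    0 < lor (W g i) (Q g j) := by
  have : NeZero (4 * g) := ⟨by omega⟩
  set n := (j - i).val with hn
  have hj : j = i + ((n : ℤ) : ZMod (4 * g)) := by
    rw [hn]; push_cast; rw [ZMod.natCast_zmod_val]; ring
  have hlt : n < 4 * g := ZMod.val_lt _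
  have n0 : n ≠ 0 := by
    intro h; apply h0; rw [hj, h]; simp
  have n1 : n ≠ 1 := by
    intro h; apply h1; rw [hj, h]; simp
  rw [hj, lor_WQ hg]
  have hx := xx_pos hg
  have hm := xx_mul hg
  have hS := SS_pos hg
  have hk := one_lt_kap hg
  have hn2 : (2 : ℝ) ≤ n := by exact_mod_cast (by omega : 2 ≤ n)
  have hn4 : (n : ℝ) < 4 * g := by exact_mod_cast hlt
  have s1 : 0 < Real.sin ((((n : ℕ) : ℤ) : ℝ) * xx g) := by
    apply Real.sin_pos_of_pos_of_lt_pi
    · push_cast; nlinarith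
    · push_cast; nlinarith
  have s2 : 0 < Real.sin (((((n : ℕ) : ℤ) : ℝ) - 1) * xx g) := by
    apply Real.sin_pos_of_pos_of_lt_pi
    · push_cast; nlinarith
    · push_cast; nlinarith
  have hk' : 0 < kap g := by linarith
  positivity

private theorem H03b_core {a b : ℝ} (hab : a * b = 1) (t : ℝ) :
    act !![a, 0; 0, b] (act (Rt (Real.pi / 2 - t)) !![a, 0; 0, -b]) =
      act (Rt t) !![a, 0; 0, -b] +
        (2 * lor !![a, 0; 0, -b] (act (Rt t) !![a, 0; 0, -b])) • !![a, 0; 0, -b] := by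
  rw [act_Rt_diag, act_Rt_diag, act_diag, Real.cos_pi_div_two_sub, Real.sin_pi_div_two_sub]
  set c := Real.cos t
  set s := Real.sin t
  unfold lor
  ext i j
  fin_cases i <;> fin_cases j <;>
    simp only [Matrix.add_apply, Matrix.smul_apply, smul_eq_mul, Matrix.of_apply,
      Matrix.cons_val', Matrix.cons_val_zero, Matrix.cons_val_one, Matrix.cons_val_fin_one,
      Fin.zero_eta, Fin.mk_one, Fin.isValue]
  · linear_combination (a * c ^ 2 - b * s ^ 2) * hab
  · linear_combination (-(a + b) * s * c) * hab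
  · linear_combination (-(a + b) * s * c) * hab
  · linear_combination (a * s ^ 2 - b * c ^ 2) * hab

private theorem H03b_W0 (hg : 2 ≤ g) : aa g * (kap g - SS g) = 1 := aa_mul hg

/-- Crossing a wall is a reflection, up to the symmetries of the polygon. -/
theorem wall_refl (hg : 2 ≤ g) (j k : ZMod (4 * g)) :
    act (sm g j) (W g (2 * j + h2 g - k)) = W g k + (2 * lor (W g j) (W g k)) • W g j := by
  obtain ⟨n, hn⟩ := exists_int hg (k - j)
  have hk : k = j + (n : ZMod (4 * g)) := by rw [← hn]; ring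
  have hk2 : 2 * j + h2 g - k = j + (((2 * g : ℕ) : ℤ) - n : ℤ) := by
    rw [hk, h2_int]; push_cast; ring
  rw [hk2, W_add hg, act_sm_act, hk, W_add hg]
  have e1 : W g j = act (Rt (j.val * xx g)) (W0 g) := rfl
  rw [e1, lor_act_one (det_Rt _), ← act_smul, ← act_add]
  congr 1
  have e2 : (((((2 * g : ℕ) : ℤ) - n : ℤ) : ℝ) * xx g) = Real.pi / 2 - n * xx g := by
    have := two_g_xx hg
    push_cast at this ⊢
    linarith
  rw [e2]
  exact H03b_core (aa_mul hg) _

private theorem H03b_half (a b : ℝ) : act (Rt (Real.pi / 2)) !![a, 0; 0, b] = !![b, 0; 0, a] := by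
  rw [act_Rt_diag, Real.cos_pi_div_two, Real.sin_pi_div_two]
  ext i j
  fin_cases i <;> fin_cases j <;> simp

private theorem H03b_half' (A B D : ℝ) :
    act (Rt (Real.pi / 2)) !![A, B; B, D] = !![D, -B; -B, A] := by
  unfold act Rt
  rw [Real.cos_pi_div_two, Real.sin_pi_div_two]
  ext i j
  fin_cases i <;> fin_cases j <;>
    simp [Matrix.mul_apply, Fin.sum_univ_two, Matrix.transpose_apply]

theorem sm_opp (hg : 2 ≤ g) (i : ZMod (4 * g)) : sm g i * sm g (i + h2 g) = 1 := by
  have e : sm g (i + h2 g) =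
      Rt (i.val * xx g) * !![kap g - SS g, 0; 0, aa g] * Rt (-(i.val * xx g)) := by
    unfold sm
    rw [h2_int, fam_add_int hg, act_Rt_add]
    have e2 : (((2 * g : ℕ) : ℤ) : ℝ) * xx g = Real.pi / 2 := by
      have := two_g_xx hg; push_cast at this ⊢; linarith
    rw [e2]
    unfold T0
    rw [H03b_half, act_Rt]
  have hT : T0 g * !![kap g - SS g, 0; 0, aa g] = 1 := by
    have h1 := aa_mul hg
    unfold T0
    ext a b
    fin_cases a <;> fin_cases b <;> simp [Matrix.mul_apply, Fin.sum_univ_two] <;> linarith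
  rw [e, sm_eq]
  have h3 : Rt (-(i.val * xx g)) * Rt (i.val * xx g) = 1 := by
    rw [← Rt_add, neg_add_cancel, Rt_zero]
  have h4 : Rt (i.val * xx g) * Rt (-(i.val * xx g)) = 1 := by
    rw [← Rt_add, add_neg_cancel, Rt_zero]
  calc Rt (i.val * xx g) * T0 g * Rt (-(i.val * xx g)) *
        (Rt (i.val * xx g) * !![kap g - SS g, 0; 0, aa g] * Rt (-(i.val * xx g)))
      = Rt (i.val * xx g) * (T0 g * (Rt (-(i.val * xx g)) * Rt (i.val * xx g)) *
          !![kap g - SS g, 0; 0, aa g]) * Rt (-(i.val * xx g)) := by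
        simp only [Matrix.mul_assoc]
    _ = 1 := by rw [h3, Matrix.mul_one, hT, Matrix.mul_one, h4]

/-- The corner `1`. -/
theorem Rt_Q0 (g : ℕ) : act (Rt (xx g)) (Q0 g) =
    !![aa g * Real.cos (xx g), -(SS g * Real.sin (xx g));
      -(SS g * Real.sin (xx g)), (kap g - SS g) * Real.cos (xx g)] := by
  have h := Real.sin_sq_add_cos_sq (xx g)
  unfold Q0 aa act Rt
  set c := Real.cos (xx g)
  set s := Real.sin (xx g)
  ext i j
  fin_cases i <;> fin_cases j <;>
    simp [Matrix.mul_apply, Fin.sum_univ_two, Matrix.transpose_apply]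
  · linear_combination ((kap g + SS g) * c) * h
  · linear_combination (-(SS g * s)) * h
  · linear_combination (-(SS g * s)) * h
  · linear_combination ((kap g - SS g) * c) * h

theorem sm_QA (hg : 2 ≤ g) (i : ZMod (4 * g)) :
    act (sm g i) (Q g (i + h2 g + 1)) = Q g i := by
  have e1 : i + h2 g + 1 = i + ((((2 * g : ℕ) : ℤ) + 1 : ℤ) : ZMod (4 * g)) := by
    rw [h2_int]; push_cast; ring
  have e2 : ((((2 * g : ℕ) : ℤ) + 1 : ℤ) : ℝ) * xx g = Real.pi / 2 + xx g := by
    have := two_g_xx hg; push_cast at this ⊢; linarith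
  rw [e1, Q_add hg, act_sm_act, e2, act_Rt_add, Rt_Q0 g, H03b_half']
  have e3 : Q g i = act (Rt (i.val * xx g)) (Q0 g) := rfl
  rw [e3]
  congr 1
  unfold T0
  rw [act_diag]
  have h1 := aa_mul hg
  unfold Q0
  ext a b
  fin_cases a <;> fin_cases b <;> simp
  · linear_combination (aa g * Real.cos (xx g)) * h1
  · linear_combination (SS g * Real.sin (xx g)) * h1
  · linear_combination (SS g * Real.sin (xx g)) * h1
  · linear_combination ((kap g - SS g) * Real.cos (xx g)) * h1

theorem sm_QB (hg : 2 ≤ g) (i : ZMod (4 * g)) :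
    act (sm g i) (Q g (i + h2 g)) = Q g (i + 1) := by
  have e1 : i + h2 g = i + (((2 * g : ℕ) : ℤ) : ZMod (4 * g)) := by
    rw [h2_int]
  have e2 : (((2 * g : ℕ) : ℤ) : ℝ) * xx g = Real.pi / 2 := by
    have := two_g_xx hg; push_cast at this ⊢; linarith
  have e3 : i + 1 = i + ((1 : ℤ) : ZMod (4 * g)) := by push_cast; ring
  have e4 : ((1 : ℤ) : ℝ) * xx g = xx g := by push_cast; ring
  rw [e1, Q_add hg, act_sm_act, e2, e3, Q_add hg, e4, Rt_Q0 g]
  congr 1
  have h1 := aa_mul hg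
  unfold Q0 T0
  rw [H03b_half', act_diag]
  ext a b
  fin_cases a <;> fin_cases b <;> simp
  · linear_combination (aa g * Real.cos (xx g)) * h1
  · linear_combination (SS g * Real.sin (xx g)) * h1
  · linear_combination (SS g * Real.sin (xx g)) * h1
  · linear_combination ((kap g - SS g) * Real.cos (xx g)) * h1

theorem pd_Q (hg : 2 ≤ g) (i : ZMod (4 * g)) : PD (Q g i) := H03a_pd_Q hg i

theorem det_Q (hg : 2 ≤ g) (i : ZMod (4 * g)) : (Q g i).det = Real.sin (xx g) ^ 2 :=
  H03a_det_Q hg i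

/-- Coordinates of the corners. -/
theorem Q_eq (hg : 2 ≤ g) (i : ZMod (4 * g)) : Q g i =
    !![kap g * Real.cos (xx g) + SS g * Real.cos ((2 * i.val - 1) * xx g),
      -(SS g * Real.sin ((2 * i.val - 1) * xx g));
      -(SS g * Real.sin ((2 * i.val - 1) * xx g)),
      kap g * Real.cos (xx g) - SS g * Real.cos ((2 * i.val - 1) * xx g)] := H03a_Q_eq i

/-- Coordinates of the normals. -/
theorem W_eq (hg : 2 ≤ g) (i : ZMod (4 * g)) : W g i =
    !![SS g + kap g * Real.cos (2 * i.val * xx g), -(kap g * Real.sin (2 * i.val * xx g));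
      -(kap g * Real.sin (2 * i.val * xx g)), SS g - kap g * Real.cos (2 * i.val * xx g)] := by
  unfold W fam
  rw [H03a_actW, mul_assoc]

theorem det3_eq (P R X : M2) : det3 P R X =
    P 1 1 * (R 0 1 * X 0 0 - R 0 0 * X 0 1) - P 0 1 * (R 1 1 * X 0 0 - R 0 0 * X 1 1) +
      P 0 0 * (R 1 1 * X 0 1 - R 0 1 * X 1 1) := by
  unfold det3
  rw [Matrix.det_fin_three]
  simp
  ring

private theorem H03c_trig (p q : ℝ) : Real.sin (2 * p) + Real.sin (2 * q) - Real.sin (2 * p + 2 * q) =
    4 * Real.sin p * Real.sin q * Real.sin (p + q) := by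
  rw [show 2 * p + 2 * q = 2 * (p + q) by ring, Real.sin_two_mul, Real.sin_two_mul,
    Real.sin_two_mul, Real.sin_add, Real.cos_add]
  have hp := Real.sin_sq_add_cos_sq p
  have hq := Real.sin_sq_add_cos_sq q
  have hp' : Real.cos p ^ 2 = 1 - Real.sin p ^ 2 := by linarith
  have hq' : Real.cos q ^ 2 = 1 - Real.sin q ^ 2 := by linarith
  linear_combination (2 * Real.sin q * Real.cos q - 2 * Real.sin q * Real.cos q) * hp +
    (-2 * Real.sin q * Real.cos q) * hp' + (-2 * Real.sin p * Real.cos p) * hq'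

theorem det3_Q (hg : 2 ≤ g) (i j k : ZMod (4 * g)) (hij : i.val < j.val) (hjk : j.val < k.val) :
    0 < det3 (Q g i) (Q g j) (Q g k) := by
  have : NeZero (4 * g) := ⟨by omega⟩
  rw [Q_eq hg i, Q_eq hg j, Q_eq hg k, det3_eq]
  simp only [Matrix.of_apply, Matrix.cons_val', Matrix.cons_val_zero, Matrix.cons_val_one,
    Matrix.cons_val_fin_one]
  set x := xx g
  set A := (2 * (i.val : ℝ) - 1) * x with hA
  set B := (2 * (j.val : ℝ) - 1) * x with hB
  set C := (2 * (k.val : ℝ) - 1) * x with hC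
  set S := SS g
  set τ := kap g * Real.cos x with hτ
  have key : (τ - S * Real.cos A) * (-(S * Real.sin B) * (τ + S * Real.cos C) -
        (τ + S * Real.cos B) * -(S * Real.sin C)) -
      -(S * Real.sin A) * ((τ - S * Real.cos B) * (τ + S * Real.cos C) -
        (τ + S * Real.cos B) * (τ - S * Real.cos C)) +
      (τ + S * Real.cos A) * ((τ - S * Real.cos B) * -(S * Real.sin C) -
        -(S * Real.sin B) * (τ - S * Real.cos C)) =
      2 * τ * S ^ 2 * (Real.sin (B - A) + Real.sin (C - B) - Real.sin (C - A)) := by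
    rw [Real.sin_sub, Real.sin_sub, Real.sin_sub]; ring
  rw [key]
  set p := ((j.val : ℝ) - i.val) * x with hp
  set q := ((k.val : ℝ) - j.val) * x with hq
  have e1 : B - A = 2 * p := by rw [hA, hB, hp]; ring
  have e2 : C - B = 2 * q := by rw [hC, hB, hq]; ring
  have e3 : C - A = 2 * p + 2 * q := by rw [hA, hC, hp, hq]; ring
  rw [e1, e2, e3, H03c_trig]
  have hx : 0 < x := xx_pos hg
  have hpi : (4 * g : ℝ) * x = Real.pi := xx_mul hg
  have hij' : (i.val : ℝ) < j.val := by exact_mod_cast hij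
  have hjk' : (j.val : ℝ) < k.val := by exact_mod_cast hjk
  have hk' : (k.val : ℝ) < 4 * g := by exact_mod_cast ZMod.val_lt k
  have hi0 : (0 : ℝ) ≤ i.val := by positivity
  have hp0 : 0 < p := mul_pos (by linarith) hx
  have hq0 : 0 < q := mul_pos (by linarith) hx
  have hpq : p + q < Real.pi := by
    rw [← hpi, hp, hq, ← add_mul]
    exact mul_lt_mul_of_pos_right (by linarith) hx
  have s1 : 0 < Real.sin p := Real.sin_pos_of_pos_of_lt_pi hp0 (by linarith)
  have s2 : 0 < Real.sin q := Real.sin_pos_of_pos_of_lt_pi hq0 (by linarith)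
  have s3 : 0 < Real.sin (p + q) := Real.sin_pos_of_pos_of_lt_pi (by linarith) hpq
  have hτ0 : 0 < τ := mul_pos (by have := one_lt_kap hg; linarith) (cos_xx_pos hg)
  have hS : 0 < S := SS_pos hg
  positivity

theorem det3_act (h P R X : M2) (hP : Sym P) (hR : Sym R) (hX : Sym X) :
    det3 (act h P) (act h R) (act h X) = h.det ^ 3 * det3 P R X := by
  unfold Sym at hP hR hX
  rw [det3_eq, det3_eq, Matrix.det_fin_two]
  simp only [act, Matrix.mul_apply, Fin.sum_univ_two, Matrix.transpose_apply, hP, hR, hX]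
  ring

private theorem H03c_frame (hg : 2 ≤ g) (i : ZMod (4 * g)) (X : M2) :
    ∃ X' : M2, X = act (Rt (i.val * xx g)) X' ∧ X' = act (Rt (i.val * xx g))⁻¹ X :=
  ⟨_, (act_inv_right (det_Rt _) X).symm, rfl⟩

private theorem H03c_Q1 (hg : 2 ≤ g) (i : ZMod (4 * g)) :
    Q g (i + 1) = act (Rt (i.val * xx g)) !![aa g * Real.cos (xx g), -(SS g * Real.sin (xx g));
      -(SS g * Real.sin (xx g)), (kap g - SS g) * Real.cos (xx g)] := by
  have e3 : i + 1 = i + ((1 : ℤ) : ZMod (4 * g)) := by push_cast; ring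
  have e4 : ((1 : ℤ) : ℝ) * xx g = xx g := by push_cast; ring
  rw [e3, Q_add hg, e4, Rt_Q0 g]

/-- The orientation of the sides. -/
theorem det3_side (hg : 2 ≤ g) (i : ZMod (4 * g)) :
    ∃ c : ℝ, 0 < c ∧ ∀ X : M2, Sym X → det3 (Q g i) (Q g (i + 1)) X = c * lor (W g i) X := by
  refine ⟨4 * SS g * Real.sin (xx g) * Real.cos (xx g), ?_, fun X hX => ?_⟩
  · have := SS_pos hg; have := sin_xx_pos hg; have := cos_xx_pos hg; positivity
  · obtain ⟨X', hX1, hX2⟩ := H03c_frame hg i X
    have hs : Sym X' := by rw [hX2]; exact act_sym _ hX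
    have e1 : Q g i = act (Rt (i.val * xx g)) (Q0 g) := rfl
    have e2 : W g i = act (Rt (i.val * xx g)) (W0 g) := rfl
    rw [H03c_Q1 hg, e1, e2, hX1, det3_act _ _ _ _ (by simp [Sym, Q0]) (by simp [Sym]) hs,
      lor_act, det_Rt, det3_eq]
    unfold lor Q0 W0
    simp only [Matrix.of_apply, Matrix.cons_val', Matrix.cons_val_zero, Matrix.cons_val_one,
      Matrix.cons_val_fin_one]
    ring

/-- A unit normal of the side `i` is `± W i`. -/
theorem wall_unique (hg : 2 ≤ g) (i : ZMod (4 * g)) (v : M2) (hv : Sym v)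
    (h1 : lor v (Q g i) = 0) (h2 : lor v (Q g (i + 1)) = 0) (h3 : lor v v = -1) :
    v = W g i ∨ v = -W g i := by
  obtain ⟨v', hv1, hv2⟩ := H03c_frame hg i v
  have hs : Sym v' := by rw [hv2]; exact act_sym _ hv
  have e1 : Q g i = act (Rt (i.val * xx g)) (Q0 g) := rfl
  have e2 : W g i = act (Rt (i.val * xx g)) (W0 g) := rfl
  rw [hv1, e1, lor_act_one (det_Rt _)] at h1
  rw [hv1, H03c_Q1 hg, lor_act_one (det_Rt _)] at h2
  rw [hv1, lor_act_one (det_Rt _)] at h3
  rw [e2, hv1]
  unfold Sym at hs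
  unfold lor Q0 at h1
  unfold lor at h2 h3
  simp only [Matrix.of_apply, Matrix.cons_val', Matrix.cons_val_zero, Matrix.cons_val_one,
    Matrix.cons_val_fin_one, hs] at h1 h2 h3
  have ha := aa_mul hg
  have hS := SS_pos hg
  have hsx := sin_xx_pos hg
  have hcx := cos_xx_pos hg
  have ha1 := one_lt_aa hg
  have hb := ki_pos hg
  set a := aa g
  set b := kap g - SS g
  set c := Real.cos (xx g)
  set s := Real.sin (xx g)
  have hq : v' 0 1 = 0 := by
    have : 2 * (v' 0 1 * (SS g * s)) = 0 := by linarith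
    have h4 : SS g * s ≠ 0 := by positivity
    have h5 : v' 0 1 * (SS g * s) = 0 := by linarith
    exact (mul_eq_zero.mp h5).resolve_right h4
  have hpr : v' 0 0 * b + v' 1 1 * a = 0 := by
    rw [hq] at h1
    have : (v' 0 0 * b + v' 1 1 * a) * c = 0 := by linarith
    exact (mul_eq_zero.mp this).resolve_right hcx.ne'
  have hp : v' 0 0 = -(v' 1 1) * a ^ 2 := by
    have : v' 0 0 * (a * b) + v' 1 1 * a ^ 2 = 0 := by linear_combination a * hpr
    rw [ha] at this; linarith
  have hdet : v' 0 0 * v' 1 1 = -1 := by rw [hq] at h3; linarith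
  have hr : (v' 1 1 - b) * (v' 1 1 + b) = 0 := by
    have h6 : (v' 1 1) ^ 2 * a ^ 2 = 1 := by rw [hp] at hdet; linarith
    have h7 : (v' 1 1) ^ 2 * (a * b) ^ 2 = b ^ 2 := by
      calc (v' 1 1) ^ 2 * (a * b) ^ 2 = ((v' 1 1) ^ 2 * a ^ 2) * b ^ 2 := by ring
        _ = b ^ 2 := by rw [h6, one_mul]
    rw [ha] at h7
    linarith [h7]
  have hab2 : b * a ^ 2 = a := by linear_combination a * ha
  rcases mul_eq_zero.mp hr with h | h
  · right
    have h8 : v' 1 1 = b := by linarith
    rw [← act_neg]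
    congr 1
    unfold W0
    ext i j
    fin_cases i <;> fin_cases j <;> simp
    · rw [hp, h8]; linarith
    · exact hq
    · rw [hs]; exact hq
    · exact h8
  · left
    have h8 : v' 1 1 = -b := by linarith
    congr 1
    unfold W0
    ext i j
    fin_cases i <;> fin_cases j <;> simp
    · rw [hp, h8]; linarith
    · exact hq
    · rw [hs]; exact hq
    · rw [h8]; simp [b]

theorem Q_inj (hg : 2 ≤ g) (i j : ZMod (4 * g)) (h : Q g i = Q g j) : i = j := by
  by_contra hij
  have h1 : j = i + 1 := by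
    by_contra h1
    have h2 := lor_WQ_pos hg i j (Ne.symm hij) h1
    rw [← h, lor_WQ_self hg] at h2
    exact lt_irrefl _ h2
  have h3 : j = i - 1 := by
    by_contra h3
    have h2 := lor_WQ_pos hg (i - 1) j h3 (by rw [sub_add_cancel]; exact Ne.symm hij)
    have h4 := lor_WQ_succ hg (i - 1)
    rw [sub_add_cancel] at h4
    rw [← h, h4] at h2
    exact lt_irrefl _ h2
  have h5 : ((2 : ℕ) : ZMod (4 * g)) = 0 := by
    have h6 : i + 1 = i - 1 := by rw [← h1, ← h3]
    have h7 : (2 : ZMod (4 * g)) = 0 := by linear_combination h6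
    exact_mod_cast h7
  rw [ZMod.natCast_eq_zero_iff] at h5
  have := Nat.le_of_dvd (by norm_num) h5
  omega

end Pool.Agent.AMU.Geo
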