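import Pool.Agent.Lib.AMU.Geo03

/-!
# Row H04: the holonomy
-/

set_option autoImplicit false

namespace Pool.Agent.AMU.Geo

open Matrix

variable {g : ℕ}

/-- The side pairings in `SL(2, ℝ)`. -/
noncomputable def holS (hg : 2 ≤ g) (i : ZMod (4 * g)) : SpecialLinearGroup (Fin 2) ℝ :=
  ⟨sm g i, det_sm hg i⟩

/-- The matrix `T Rt c`, `c = (2g+1) x`. -/
private noncomputable def H04a_M (g : ℕ) : M2 := T0 g * Rt ((2 * g + 1) * xx g)

private theorem H04a_trace (hg : 2 ≤ g) : (H04a_M g).trace = -2 * Real.cos (xx g) := by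
  have h1 : Real.cos ((2 * g + 1) * xx g) = -Real.sin (xx g) := by
    have h2 := two_g_xx hg
    have h3 : (2 * g + 1) * xx g = xx g + Real.pi / 2 := by
      push_cast at h2
      linear_combination h2
    rw [h3, Real.cos_add_pi_div_two]
  unfold H04a_M T0 Rt aa
  rw [Matrix.trace_fin_two]
  simp only [Matrix.mul_apply, Fin.sum_univ_two, Matrix.of_apply, Matrix.cons_val',
    Matrix.cons_val_zero, Matrix.cons_val_one, Matrix.cons_val_fin_one]
  rw [h1]
  have h4 := kap_sin hg
  linear_combination (-2 : ℝ) * h4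

private theorem H04a_det (hg : 2 ≤ g) : (H04a_M g).det = 1 := by
  unfold H04a_M
  rw [Matrix.det_mul, det_T0 hg, det_Rt, one_mul]

private theorem H04a_CH (M : M2) : M * M = M.trace • M - M.det • (1 : M2) := by
  rw [Matrix.trace_fin_two, Matrix.det_fin_two]
  ext i j
  fin_cases i <;> fin_cases j <;>
    simp [Matrix.mul_apply, Fin.sum_univ_two] <;> ring

private theorem H04a_sq (hg : 2 ≤ g) :
    H04a_M g * H04a_M g = (-2 * Real.cos (xx g)) • H04a_M g - (1 : M2) := by
  rw [H04a_CH, H04a_trace hg, H04a_det hg, one_smul]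

private theorem H04a_pow (hg : 2 ≤ g) (n : ℕ) :
    Real.sin (xx g) • H04a_M g ^ n = ((-1) ^ (n + 1) : ℝ) •
      (Real.sin (n * xx g) • H04a_M g + Real.sin ((n - 1) * xx g) • (1 : M2)) := by
  induction n with
  | zero =>
    have h : ((0 : ℕ) - 1 : ℝ) * xx g = -xx g := by push_cast; ring
    rw [h, Real.sin_neg]
    simp
  | succ n ih =>
    have e1 : Real.sin (((n + 1 : ℕ) : ℝ) * xx g) =
        2 * Real.sin (n * xx g) * Real.cos (xx g) - Real.sin ((n - 1) * xx g) := by
      have a1 : ((n + 1 : ℕ) : ℝ) * xx g = n * xx g + xx g := by push_cast; ring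
      have a2 : ((n : ℝ) - 1) * xx g = n * xx g - xx g := by ring
      rw [a1, a2, Real.sin_add, Real.sin_sub]
      ring
    have e2 : (((n + 1 : ℕ) : ℝ) - 1) * xx g = n * xx g := by push_cast; ring
    rw [pow_succ, ← smul_mul_assoc, ih, e1, e2, smul_mul_assoc, add_mul, smul_mul_assoc,
      smul_mul_assoc, one_mul, H04a_sq hg, pow_succ (-1 : ℝ) (n + 1)]
    module

private theorem H04a_full (hg : 2 ≤ g) : H04a_M g ^ (4 * g) = -1 := by
  have h := H04a_pow hg (4 * g)
  have hm := xx_mul hg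
  have e1 : Real.sin (((4 * g : ℕ) : ℝ) * xx g) = 0 := by
    push_cast
    rw [hm, Real.sin_pi]
  have e2 : Real.sin ((((4 * g : ℕ) : ℝ) - 1) * xx g) = Real.sin (xx g) := by
    have : (((4 * g : ℕ) : ℝ) - 1) * xx g = Real.pi - xx g := by
      push_cast
      rw [sub_mul, hm, one_mul]
    rw [this, Real.sin_pi_sub]
  have e3 : ((-1 : ℝ) ^ (4 * g + 1)) = -1 := by
    rw [pow_succ, pow_mul]
    norm_num
  rw [e1, e2, e3, zero_smul, zero_add, smul_smul] at h
  have hs := (sin_xx_pos hg).ne'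
  have h2 : Real.sin (xx g) • H04a_M g ^ (4 * g) = Real.sin (xx g) • (-1 : M2) := by
    rw [h, smul_neg, neg_mul, one_mul, neg_smul]
  exact smul_right_injective M2 hs h2

private theorem H04a_rot (hg : 2 ≤ g) :
    Rt (-(((4 * g : ℕ) : ℝ) * ((2 * g + 1) * xx g))) = -1 := by
  have hm := xx_mul hg
  have e : ((4 * g : ℕ) : ℝ) * ((2 * g + 1) * xx g) = ((g : ℕ) : ℝ) * (2 * Real.pi) + Real.pi := by
    push_cast
    linear_combination (2 * (g : ℝ) + 1) * hm
  rw [e, ← Rt_transpose]
  unfold Rt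
  rw [Real.cos_add_pi, Real.sin_add_pi, Real.cos_nat_mul_two_pi]
  have hsin : Real.sin (((g : ℕ) : ℝ) * (2 * Real.pi)) = 0 := by
    have : ((g : ℕ) : ℝ) * (2 * Real.pi) = ((2 * g : ℕ) : ℝ) * Real.pi := by push_cast; ring
    rw [this]
    exact Real.sin_nat_mul_pi _
  rw [hsin]
  ext i j
  fin_cases i <;> fin_cases j <;> simp

private theorem H04a_sm (hg : 2 ≤ g) (k : ℕ) :
    sm g ((k * (2 * g + 1) : ℕ) : ZMod (4 * g)) =
      Rt (k * ((2 * g + 1) * xx g)) * T0 g * Rt (-(k * ((2 * g + 1) * xx g))) := by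
  have h := fam_int hg (T0 g) ((k * (2 * g + 1) : ℕ) : ℤ)
  rw [Int.cast_natCast] at h
  have e : ((((k * (2 * g + 1) : ℕ) : ℤ)) : ℝ) * xx g = k * ((2 * g + 1) * xx g) := by
    push_cast; ring
  unfold sm
  rw [h, e, act_Rt]

private theorem H04a_prod (hg : 2 ≤ g) (n : ℕ) :
    (((List.range n).map fun k : ℕ => holS hg ((k * (2 * g + 1) : ℕ) : ZMod (4 * g))).prod :
      SpecialLinearGroup (Fin 2) ℝ).1 =
      H04a_M g ^ n * Rt (-((n : ℝ) * ((2 * g + 1) * xx g))) := by
  induction n with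
  | zero => simp [Rt_zero]
  | succ n ih =>
    rw [List.range_succ, List.map_append, List.prod_append, List.map_singleton,
      List.prod_singleton]
    have h1 : ∀ A B : SpecialLinearGroup (Fin 2) ℝ, (A * B).1 = A.1 * B.1 := fun A B => rfl
    rw [h1, ih]
    have h2 : (holS hg ((n * (2 * g + 1) : ℕ) : ZMod (4 * g))).1 =
        Rt (n * ((2 * g + 1) * xx g)) * T0 g * Rt (-(n * ((2 * g + 1) * xx g))) := H04a_sm hg n
    rw [h2]
    have h3 : Rt (-((n : ℝ) * ((2 * g + 1) * xx g))) * (Rt (n * ((2 * g + 1) * xx g))) = 1 := by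
      rw [← Rt_add, neg_add_cancel, Rt_zero]
    have h4 : Rt (-(n * ((2 * g + 1) * xx g))) =
        Rt ((2 * g + 1) * xx g) * Rt (-(((n + 1 : ℕ) : ℝ) * ((2 * g + 1) * xx g))) := by
      rw [← Rt_add]
      congr 1
      push_cast
      ring
    calc H04a_M g ^ n * Rt (-(n * ((2 * g + 1) * xx g))) *
        (Rt (n * ((2 * g + 1) * xx g)) * T0 g * Rt (-(n * ((2 * g + 1) * xx g))))
        = H04a_M g ^ n * (Rt (-(n * ((2 * g + 1) * xx g))) * Rt (n * ((2 * g + 1) * xx g))) *
            (T0 g * Rt (-(n * ((2 * g + 1) * xx g)))) := by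
          simp only [Matrix.mul_assoc]
      _ = H04a_M g ^ n * (T0 g * (Rt ((2 * g + 1) * xx g) *
            Rt (-(((n + 1 : ℕ) : ℝ) * ((2 * g + 1) * xx g))))) := by
          rw [h3, Matrix.mul_one, h4]
      _ = H04a_M g ^ (n + 1) * Rt (-(((n + 1 : ℕ) : ℝ) * ((2 * g + 1) * xx g))) := by
          rw [pow_succ]
          unfold H04a_M
          simp only [Matrix.mul_assoc]

/-- The relations hold. -/
theorem holS_rel (hg : 2 ≤ g) : ∀ r ∈ closedRels g, FreeGroup.lift (holS hg) r = 1 := by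
  intro r hr
  rcases hr with hr | hr
  · obtain ⟨i, rfl⟩ := hr
    rw [map_mul, FreeGroup.lift_apply_of, FreeGroup.lift_apply_of]
    apply Subtype.ext
    exact sm_opp hg i
  · rw [Set.mem_singleton_iff] at hr
    rw [hr, map_list_prod, List.map_map]
    have h1 : (FreeGroup.lift (holS hg) ∘ FreeGroup.of : ZMod (4 * g) → _) = holS hg := by
      funext i
      simp
    rw [h1]
    unfold vertexWord
    rw [List.map_map]
    apply Subtype.ext
    have h2 := H04a_prod hg (4 * g)
    rw [H04a_full hg, H04a_rot hg] at h2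
    refine Eq.trans ?_ (h2.trans ?_)
    · rfl
    · simp

/-- The holonomy. -/
noncomputable def hol (hg : 2 ≤ g) : SurfaceGroup g →* SpecialLinearGroup (Fin 2) ℝ :=
  PresentedGroup.toGroup (holS_rel hg)

/-- The holonomy as a matrix. -/
noncomputable def Hm (hg : 2 ≤ g) (γ : SurfaceGroup g) : M2 := (hol hg γ).1

theorem Hm_ss (hg : 2 ≤ g) (i : ZMod (4 * g)) : Hm hg (ss g i) = sm g i := by
  unfold Hm hol ss
  rw [PresentedGroup.toGroup.of]
  rfl

theorem Hm_mul (hg : 2 ≤ g) (γ δ : SurfaceGroup g) : Hm hg (γ * δ) = Hm hg γ * Hm hg δ := by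
  unfold Hm; rw [map_mul]; rfl

theorem Hm_one (hg : 2 ≤ g) : Hm hg 1 = 1 := by unfold Hm; rw [map_one]; rfl

theorem det_Hm (hg : 2 ≤ g) (γ : SurfaceGroup g) : (Hm hg γ).det = 1 := (hol hg γ).2

theorem Hm_inv (hg : 2 ≤ g) (γ : SurfaceGroup g) : Hm hg γ⁻¹ = (Hm hg γ)⁻¹ := by
  have h : Hm hg γ⁻¹ * Hm hg γ = 1 := by rw [← Hm_mul, inv_mul_cancel, Hm_one]
  exact (Matrix.inv_eq_left_inv h).symm

/-- The action of the group on forms. -/
noncomputable def ga (hg : 2 ≤ g) (γ : SurfaceGroup g) (X : M2) : M2 := act (Hm hg γ) X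

theorem ga_mul (hg : 2 ≤ g) (γ δ : SurfaceGroup g) (X : M2) :
    ga hg (γ * δ) X = ga hg γ (ga hg δ X) := by
  unfold ga; rw [Hm_mul, act_act]

theorem ga_one (hg : 2 ≤ g) (X : M2) : ga hg 1 X = X := by unfold ga; rw [Hm_one, act_one]

theorem ga_inv_self (hg : 2 ≤ g) (γ : SurfaceGroup g) (X : M2) : ga hg γ⁻¹ (ga hg γ X) = X := by
  rw [← ga_mul, inv_mul_cancel, ga_one]

theorem ga_self_inv (hg : 2 ≤ g) (γ : SurfaceGroup g) (X : M2) : ga hg γ (ga hg γ⁻¹ X) = X := by
  rw [← ga_mul, mul_inv_cancel, ga_one]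

theorem ga_add (hg : 2 ≤ g) (γ : SurfaceGroup g) (X Y : M2) :
    ga hg γ (X + Y) = ga hg γ X + ga hg γ Y := act_add _ _ _

theorem ga_smul (hg : 2 ≤ g) (γ : SurfaceGroup g) (c : ℝ) (X : M2) :
    ga hg γ (c • X) = c • ga hg γ X := act_smul _ _ _

theorem ga_neg (hg : 2 ≤ g) (γ : SurfaceGroup g) (X : M2) : ga hg γ (-X) = -ga hg γ X :=
  act_neg _ _

theorem ga_sym (hg : 2 ≤ g) (γ : SurfaceGroup g) {X : M2} (hX : Sym X) : Sym (ga hg γ X) :=
  act_sym _ hX

theorem ga_pd (hg : 2 ≤ g) (γ : SurfaceGroup g) {X : M2} (hX : PD X) : PD (ga hg γ X) :=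
  pd_act (by rw [det_Hm]; exact one_ne_zero) hX

theorem ga_det (hg : 2 ≤ g) (γ : SurfaceGroup g) (X : M2) : (ga hg γ X).det = X.det := by
  unfold ga; rw [det_act, det_Hm]; ring

theorem lor_ga (hg : 2 ≤ g) (γ : SurfaceGroup g) (X Y : M2) :
    lor (ga hg γ X) (ga hg γ Y) = lor X Y := lor_act_one (det_Hm hg γ) _ _

theorem lor_ga_left (hg : 2 ≤ g) (γ : SurfaceGroup g) (X Y : M2) :
    lor (ga hg γ X) Y = lor X (ga hg γ⁻¹ Y) := by
  rw [← lor_ga hg γ X, ga_self_inv]

theorem axN_ga (hg : 2 ≤ g) (γ δ : SurfaceGroup g) (X : M2) :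
    axN (Hm hg (γ * δ * γ⁻¹)) (ga hg γ X) = axN (Hm hg δ) X := by
  rw [Hm_mul, Hm_mul, Hm_inv]; exact axN_act (det_Hm hg γ) _ _

/-- The generators. -/
theorem ga_ss (hg : 2 ≤ g) (i : ZMod (4 * g)) (X : M2) : ga hg (ss g i) X = act (sm g i) X := by
  unfold ga; rw [Hm_ss]

/-! ## Relations in the surface group -/

theorem ss_opp (i : ZMod (4 * g)) : ss g i * ss g (i + h2 g) = 1 := by
  have h : FreeGroup.of i * FreeGroup.of (closedOpp g i) ∈ closedRels g :=
    Or.inl ⟨i, rfl⟩
  have := (QuotientGroup.eq_one_iff (N := Subgroup.normalClosure (closedRels g))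
    (FreeGroup.of i * FreeGroup.of (closedOpp g i))).mpr (Subgroup.subset_normalClosure h)
  exact this

theorem ss_inv (i : ZMod (4 * g)) : (ss g i)⁻¹ = ss g (i + h2 g) :=
  inv_eq_of_mul_eq_one_right (ss_opp i)

private theorem h04b_rev (w : List (ZMod (4 * g))) :
    ((w.reverse.map (fun i => i + h2 g)).map (ss g)).prod = ((w.map (ss g)).prod)⁻¹ := by
  induction w with
  | nil => simp
  | cons a w ih =>
    simp only [List.reverse_cons, List.map_append, List.prod_append, ih, List.map_cons,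
      List.map_nil, List.prod_cons, List.prod_nil, mul_one, _root_.mul_inv_rev, ss_inv]

/-- The element is a product of generators. -/
theorem exists_word (hg : 2 ≤ g) (γ : SurfaceGroup g) :
    ∃ w : List (ZMod (4 * g)), (w.map (ss g)).prod = γ := by
  have h1 : γ ∈ Subgroup.closure (Set.range (PresentedGroup.of (rels := closedRels g))) := by
    rw [PresentedGroup.closure_range_of]
    exact Subgroup.mem_top γ
  induction h1 using Subgroup.closure_induction with
  | mem x hx =>
    obtain ⟨i, rfl⟩ := hx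
    exact ⟨[i], by simp⟩
  | one => exact ⟨[], by simp⟩
  | mul x y _ _ hx hy =>
    obtain ⟨w, hw⟩ := hx
    obtain ⟨v, hv⟩ := hy
    exact ⟨w ++ v, by rw [List.map_append, List.prod_append, hw, hv]⟩
  | inv x _ hx =>
    obtain ⟨w, rfl⟩ := hx
    exact ⟨w.reverse.map (fun i => i + h2 g), h04b_rev w⟩

theorem arc_zero (j d : ZMod (4 * g)) : arc g j d 0 = 1 := by simp [arc]

theorem arc_succ (j d : ZMod (4 * g)) (n : ℕ) :
    arc g j d (n + 1) = arc g j d n * ss g (j + n * d) := by
  unfold arc; rw [List.range_succ, List.map_append, List.prod_append]; simp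

theorem arc_succ' (j d : ZMod (4 * g)) (n : ℕ) :
    arc g j d (n + 1) = ss g j * arc g (j + d) d n := by
  unfold arc; rw [List.range_succ_eq_map, List.map_cons, List.prod_cons, List.map_map]
  congr 1
  · simp
  · congr 1; apply List.map_congr_left; intro l _
    simp only [Function.comp_apply, Nat.succ_eq_add_one]; push_cast; ring_nf

theorem arc_add (j d : ZMod (4 * g)) (m n : ℕ) :
    arc g j d (m + n) = arc g j d m * arc g (j + m * d) d n := by
  induction n with
  | zero => simp [arc_zero]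
  | succ n ih =>
    rw [← add_assoc, arc_succ, ih, arc_succ, mul_assoc]
    congr 3; push_cast; ring

private theorem h04b_inv (j d : ZMod (4 * g)) (n : ℕ) :
    (arc g j d n)⁻¹ = arc g (j + (n - 1) * d + h2 g) (-d) n := by
  induction n with
  | zero => simp [arc_zero]
  | succ n ih =>
    rw [arc_succ, _root_.mul_inv_rev, ih, ss_inv, arc_succ']
    congr 2
    · push_cast; ring
    · push_cast; ring

private theorem h04b_sq (d : ZMod (4 * g)) (hd : d = h2 g + 1 ∨ d = h2 g - 1) : d * d = 1 := by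
  have h1 := h2_add_h2 (g := g)
  have h3 : h2 g * h2 g = 0 := by
    have h4 : h2 g * h2 g = ((4 * g : ℕ) : ZMod (4 * g)) * g := by
      unfold h2; push_cast; ring
    rw [h4, ZMod.natCast_self, zero_mul]
  rcases hd with rfl | rfl
  · linear_combination h1 + h3
  · linear_combination -h1 + h3

/-- The relation around the vertex, from any starting side, in both directions. -/
theorem arc_full_pos (hg : 2 ≤ g) (j : ZMod (4 * g)) : arc g j (h2 g + 1) (4 * g) = 1 := by
  have : NeZero (4 * g) := ⟨by omega⟩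
  -- the relation from the side 0
  have h0 : arc g 0 (h2 g + 1) (4 * g) = 1 := by
    have h : ((vertexWord g).map FreeGroup.of).prod ∈ closedRels g := Or.inr rfl
    have h1 := (QuotientGroup.eq_one_iff (N := Subgroup.normalClosure (closedRels g))
      (((vertexWord g).map FreeGroup.of).prod)).mpr (Subgroup.subset_normalClosure h)
    have h3 : arc g 0 (h2 g + 1) (4 * g) =
        PresentedGroup.mk (closedRels g) (((vertexWord g).map FreeGroup.of).prod) := by
      rw [map_list_prod, List.map_map]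
      unfold arc vertexWord
      rw [List.map_map]
      congr 1
      apply List.map_congr_left
      intro l _
      simp only [Function.comp_apply]
      show ss g _ = ss g _
      congr 1
      unfold h2
      push_cast
      ring
    rw [h3]
    exact h1
  have hd := h04b_sq (g := g) (h2 g + 1) (Or.inl rfl)
  have hk : (((j * (h2 g + 1)).val : ℕ) : ZMod (4 * g)) * (h2 g + 1) = j := by
    rw [ZMod.natCast_zmod_val, mul_assoc, hd, mul_one]
  have e1 := arc_add (g := g) 0 (h2 g + 1) (j * (h2 g + 1)).val (4 * g)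
  have e2 := arc_add (g := g) 0 (h2 g + 1) (4 * g) (j * (h2 g + 1)).val
  rw [zero_add, hk] at e1
  rw [h0, one_mul, ZMod.natCast_self, zero_mul, add_zero, Nat.add_comm, e1] at e2
  exact mul_eq_left.1 e2

theorem arc_full_neg (hg : 2 ≤ g) (j : ZMod (4 * g)) : arc g j (h2 g - 1) (4 * g) = 1 := by
  have h1 := h04b_inv (g := g) (j + 1) (h2 g + 1) (4 * g)
  rw [arc_full_pos hg, inv_one, ZMod.natCast_self] at h1
  have h3 := h2_add_h2 (g := g)
  have e1 : j + 1 + (0 - 1) * (h2 g + 1) + h2 g = j := by ring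
  have e2 : -(h2 g + 1) = h2 g - 1 := by linear_combination -h3
  rw [e1, e2] at h1
  exact h1.symm

private theorem h04b_full (hg : 2 ≤ g) (j d : ZMod (4 * g)) (hd : d = h2 g + 1 ∨ d = h2 g - 1) :
    arc g j d (4 * g) = 1 := by
  rcases hd with rfl | rfl
  · exact arc_full_pos hg j
  · exact arc_full_neg hg j

/-- The two ways around the vertex. -/
theorem arc_half (hg : 2 ≤ g) (j d : ZMod (4 * g)) (hd : d = 1 ∨ d = -1) :
    arc g j (h2 g - d) (2 * g) = arc g (j + d) (h2 g + d) (2 * g) := by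
  have h1 := h04b_full hg j (h2 g - d) (by
    rcases hd with rfl | rfl
    · exact Or.inr rfl
    · left; ring)
  have h1 := (congrArg (arc g j (h2 g - d)) (show 2 * g + 2 * g = 4 * g by ring)).trans h1
  rw [arc_add] at h1
  have h3 := eq_inv_of_mul_eq_one_left h1
  rw [h04b_inv] at h3
  have h4 := h2_add_h2 (g := g)
  have h5 : ((2 * g : ℕ) : ZMod (4 * g)) + ((2 * g : ℕ) : ZMod (4 * g)) = 0 := h4
  rw [h3]
  congr 1
  · linear_combination (h2 g - d) * h5
  · linear_combination -h4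

theorem arc_mul_full (hg : 2 ≤ g) (j d : ZMod (4 * g)) (hd : d = h2 g + 1 ∨ d = h2 g - 1)
    (n : ℕ) (hn : (n : ZMod (4 * g)) * d = 0) : arc g j d n = 1 := by
  have h1 : (n : ZMod (4 * g)) = 0 := by
    have h3 := h04b_sq d hd
    linear_combination d * hn - (n : ZMod (4 * g)) * h3
  rw [ZMod.natCast_eq_zero_iff] at h1
  obtain ⟨m, rfl⟩ := h1
  clear hn
  induction m generalizing j with
  | zero => simp [arc_zero]
  | succ m ih =>
    rw [Nat.mul_succ, arc_add, ih, one_mul, h04b_full hg _ d hd]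

end Pool.Agent.AMU.Geo
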