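import Pool.Agent.Lib.AMU.Geo04

/-!
# Row H05: word length and the lemma of Tits
-/

set_option autoImplicit false

namespace Pool.Agent.AMU.Geo

open Matrix

variable {g : ℕ}

/-! ## Length -/

theorem len_le (w : List (ZMod (4 * g))) : len g (w.map (ss g)).prod ≤ w.length :=
  Nat.sInf_le ⟨w, rfl, rfl⟩

theorem exists_len (hg : 2 ≤ g) (γ : SurfaceGroup g) :
    ∃ w : List (ZMod (4 * g)), w.length = len g γ ∧ (w.map (ss g)).prod = γ := by
  obtain ⟨w, hw⟩ := exists_word hg γ
  have hne : {n | ∃ w : List (ZMod (4 * g)), w.length = n ∧ (w.map (ss g)).prod = γ}.Nonempty :=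
    ⟨_, w, rfl, hw⟩
  exact Nat.sInf_mem hne

theorem len_one : len g 1 = 0 := by
  have := len_le (g := g) []
  simpa using this

theorem len_eq_zero (hg : 2 ≤ g) {γ : SurfaceGroup g} (h : len g γ = 0) : γ = 1 := by
  obtain ⟨w, h1, h2⟩ := exists_len hg γ
  rw [h] at h1
  rw [List.length_eq_zero_iff.mp h1] at h2
  simpa using h2.symm

/-- The parity of the word length: homomorphism to `ℤˣ`. -/
theorem exists_parity (hg : 2 ≤ g) :
    ∃ f : SurfaceGroup g →* ℤˣ, ∀ i, f (ss g i) = -1 := by
  have hrel : ∀ r ∈ closedRels g, FreeGroup.lift (fun _ : ZMod (4 * g) => (-1 : ℤˣ)) r = 1 := by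
    intro r hr
    rcases hr with ⟨i, rfl⟩ | hr
    · simp
    · rw [Set.mem_singleton_iff] at hr
      subst hr
      rw [map_list_prod, List.map_map]
      have h1 : (vertexWord g).map (⇑(FreeGroup.lift fun _ : ZMod (4 * g) => (-1 : ℤˣ)) ∘
          FreeGroup.of) = List.replicate (4 * g) (-1) := by
        rw [List.eq_replicate_iff]
        constructor
        · simp [vertexWord]
        · intro b hb
          rw [List.mem_map] at hb
          obtain ⟨a, _, rfl⟩ := hb
          simp
      rw [h1, List.prod_replicate, show 4 * g = 2 * (2 * g) by ring, pow_mul]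
      norm_num
  exact ⟨PresentedGroup.toGroup hrel, fun i => by simp [ss, PresentedGroup.toGroup.of]⟩

/-- The length changes by exactly one. -/
theorem len_step (hg : 2 ≤ g) (γ : SurfaceGroup g) (j : ZMod (4 * g)) :
    len g (γ * ss g j) = len g γ + 1 ∨ len g γ = len g (γ * ss g j) + 1 := by
  obtain ⟨f, hf⟩ := exists_parity hg
  have hpar : ∀ δ : SurfaceGroup g, f δ = (-1) ^ len g δ := by
    intro δ
    obtain ⟨w, h1, h2⟩ := exists_len hg δ
    rw [← h1]
    conv_lhs => rw [← h2]
    rw [map_list_prod, List.map_map]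
    have h3 : w.map (⇑f ∘ ss g) = List.replicate w.length (-1) := by
      rw [List.eq_replicate_iff]
      constructor
      · simp
      · intro b hb
        rw [List.mem_map] at hb
        obtain ⟨a, _, rfl⟩ := hb
        exact hf a
    rw [h3, List.prod_replicate]
  have hup : ∀ (δ : SurfaceGroup g) (i : ZMod (4 * g)), len g (δ * ss g i) ≤ len g δ + 1 := by
    intro δ i
    obtain ⟨w, h1, h2⟩ := exists_len hg δ
    have := len_le (w ++ [i])
    rw [List.map_append, List.prod_append, h2] at this
    simpa [h1] using this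
  have h1 := hup γ j
  have h2 := hup (γ * ss g j) (j + h2 g)
  rw [mul_assoc, ss_opp, mul_one] at h2
  have h3 : f (γ * ss g j) = -f γ := by rw [map_mul, hf]; simp
  rw [hpar, hpar] at h3
  have h4 : len g (γ * ss g j) ≠ len g γ := by
    intro h
    rw [h] at h3
    rcases neg_one_pow_eq_or ℤˣ (len g γ) with h5 | h5 <;> rw [h5] at h3 <;> revert h3 <;> decide
  omega

/-- A nontrivial element has a last letter. -/
theorem exists_last (hg : 2 ≤ g) {γ : SurfaceGroup g} (h : γ ≠ 1) :
    ∃ j : ZMod (4 * g), len g γ = len g (γ * ss g j) + 1 := by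
  obtain ⟨w, h1, hw⟩ := exists_len hg γ
  rcases List.eq_nil_or_concat w with h3 | ⟨w', j', h3⟩
  · exfalso; apply h; rw [← hw, h3]; simp
  · refine ⟨j' + h2 g, ?_⟩
    have h4 : γ * ss g (j' + h2 g) = (w'.map (ss g)).prod := by
      rw [← hw, h3, List.concat_eq_append, List.map_append, List.prod_append, mul_assoc]
      simp only [List.map_cons, List.map_nil, List.prod_singleton]
      rw [ss_opp, mul_one]
    have h5 := len_le w'
    rw [← h4] at h5
    have h6 : w.length = w'.length + 1 := by rw [h3]; simp
    rcases len_step hg γ (j' + h2 g) with h7 | h7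
    · omega
    · exact h7

/-! ## The lemma of Tits -/

theorem pos_W (j : ZMod (4 * g)) : Pos g (W g j) := fun _ _ hX => hX j

/-- Chebyshev coefficients. -/
noncomputable def chb (β : ℝ) : ℕ → ℝ
  | 0 => 0
  | 1 => 1
  | (n + 2) => 2 * β * chb β (n + 1) - chb β n

/-- Walking around a corner (or between two walls): `U m` is the wall crossed by the step `m`,
`V m` is the other wall; `U (m+1) = V m + 2 β U m`, `V (m+1) = - U m`, `V 0 = a_(m+1) V m + a_m U m`. -/
theorem walk (hg : 2 ≤ g) (γ : SurfaceGroup g) (j d : ZMod (4 * g)) (m : ℕ) :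
    ga hg γ (W g (j + d)) =
      chb (lor (W g j) (W g (j + d))) (m + 1) •
        ga hg (γ * arc g j (h2 g - d) m) (W g (j + m * (h2 g - d) + d)) +
      chb (lor (W g j) (W g (j + d))) m •
        ga hg (γ * arc g j (h2 g - d) m) (W g (j + m * (h2 g - d))) := by
  obtain ⟨n, hn⟩ := exists_int hg d
  have hβ : ∀ i : ZMod (4 * g), lor (W g i) (W g (i + d)) = lor (W g j) (W g (j + d)) := by
    intro i; rw [hn, lor_WW hg, lor_WW hg]
  set β := lor (W g j) (W g (j + d)) with hβd
  induction m with
  | zero => simp [chb, arc_zero]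
  | succ m ih =>
    set jm := j + (m : ZMod (4 * g)) * (h2 g - d) with hjm
    have e1 : j + ((m + 1 : ℕ) : ZMod (4 * g)) * (h2 g - d) = jm + h2 g - d := by
      rw [hjm]; push_cast; ring
    set δ := γ * arc g j (h2 g - d) m with hδ
    have e2 : γ * arc g j (h2 g - d) (m + 1) = δ * ss g jm := by
      rw [arc_succ, hδ, hjm, mul_assoc]
    have hU : ga hg (δ * ss g jm) (W g (jm + h2 g - d)) =
        ga hg δ (W g (jm + d)) + (2 * β) • ga hg δ (W g jm) := by
      have h := wall_refl hg jm (jm + d)
      rw [show 2 * jm + h2 g - (jm + d) = jm + h2 g - d by ring, hβ jm] at h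
      rw [ga_mul, ga_ss, h, ga_add, ga_smul]
    have hV : ga hg (δ * ss g jm) (W g (jm + h2 g - d + d)) = -ga hg δ (W g jm) := by
      have h := wall_refl hg jm jm
      rw [show 2 * jm + h2 g - jm = jm + h2 g - d + d by ring, lor_W_self hg] at h
      rw [ga_mul, ga_ss, h, ga_add, ga_smul]
      module
    rw [ih, e1, e2, hU, hV]
    rw [show chb β (m + 1 + 1) = 2 * β * chb β (m + 1) - chb β m from rfl]
    module

theorem chb_nonneg_of_one_le {β : ℝ} (hβ : 1 ≤ β) (n : ℕ) : 0 ≤ chb β n := by
  have h : ∀ n, 0 ≤ chb β n ∧ chb β n ≤ chb β (n + 1) := by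
    intro n
    induction n with
    | zero => simp [chb]
    | succ n ih =>
      obtain ⟨h1, h2⟩ := ih
      refine ⟨h1.trans h2, ?_⟩
      rw [show chb β (n + 1 + 1) = 2 * β * chb β (n + 1) - chb β n from rfl]
      nlinarith [mul_nonneg (sub_nonneg.mpr hβ) (h1.trans h2)]
  exact (h n).1

theorem chb_nonneg_adj (hg : 2 ≤ g) {n : ℕ} (hn : n ≤ 2 * g) :
    0 ≤ chb (Real.cos (2 * xx g)) n := by
  have h : ∀ n : ℕ, Real.sin (2 * xx g) * chb (Real.cos (2 * xx g)) n =
        Real.sin (n * (2 * xx g)) ∧
      Real.sin (2 * xx g) * chb (Real.cos (2 * xx g)) (n + 1) =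
        Real.sin ((n + 1 : ℕ) * (2 * xx g)) := by
    intro n
    induction n with
    | zero => simp [chb]
    | succ n ih =>
      obtain ⟨h1, h2⟩ := ih
      refine ⟨h2, ?_⟩
      rw [show chb (Real.cos (2 * xx g)) (n + 1 + 1) = 2 * Real.cos (2 * xx g) *
        chb (Real.cos (2 * xx g)) (n + 1) - chb (Real.cos (2 * xx g)) n from rfl]
      have e1 : Real.sin ((n + 1 + 1 : ℕ) * (2 * xx g)) =
          Real.sin ((n + 1 : ℕ) * (2 * xx g)) * Real.cos (2 * xx g) +
          Real.cos ((n + 1 : ℕ) * (2 * xx g)) * Real.sin (2 * xx g) := by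
        rw [← Real.sin_add]; congr 1; push_cast; ring
      have e2 : Real.sin (n * (2 * xx g)) =
          Real.sin ((n + 1 : ℕ) * (2 * xx g)) * Real.cos (2 * xx g) -
          Real.cos ((n + 1 : ℕ) * (2 * xx g)) * Real.sin (2 * xx g) := by
        rw [← Real.sin_sub]; congr 1; push_cast; ring
      rw [e1]
      have : Real.sin (2 * xx g) * (2 * Real.cos (2 * xx g) * chb (Real.cos (2 * xx g)) (n + 1) -
          chb (Real.cos (2 * xx g)) n) = 2 * Real.cos (2 * xx g) * (Real.sin (2 * xx g) *
          chb (Real.cos (2 * xx g)) (n + 1)) - Real.sin (2 * xx g) *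
          chb (Real.cos (2 * xx g)) n := by ring
      rw [this, h1, h2, e2]
      ring
  have hx := xx_pos hg
  have hx8 := xx_le hg
  have hpi := Real.pi_pos
  have hm := xx_mul hg
  have hs : 0 < Real.sin (2 * xx g) :=
    Real.sin_pos_of_pos_of_lt_pi (by linarith) (by linarith)
  have hn' : (n : ℝ) ≤ 2 * g := by exact_mod_cast hn
  have h0 : 0 ≤ Real.sin (n * (2 * xx g)) := by
    apply Real.sin_nonneg_of_nonneg_of_le_pi
    · positivity
    · nlinarith
  rw [← (h n).1] at h0
  exact nonneg_of_mul_nonneg_right h0 hs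

private theorem H05c_pos_add {v w : M2} (hv : Pos g v) (hw : Pos g w) : Pos g (v + w) :=
  fun X hs hX => by rw [lor_add_left]; exact add_nonneg (hv X hs hX) (hw X hs hX)

private theorem H05c_pos_smul {v : M2} (hv : Pos g v) {c : ℝ} (hc : 0 ≤ c) : Pos g (c • v) :=
  fun X hs hX => by rw [lor_smul_left]; exact mul_nonneg hc (hv X hs hX)

theorem ga_W_opp (hg : 2 ≤ g) (γ : SurfaceGroup g) (j : ZMod (4 * g)) :
    ga hg (γ * ss g j) (W g (j + h2 g)) = -ga hg γ (W g j) := by
  have h := wall_refl hg j j
  rw [show 2 * j + h2 g - j = j + h2 g by ring, lor_W_self hg] at h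
  rw [ga_mul, ga_ss, h, ← ga_neg]
  congr 1
  module

private theorem H05c_len_arc (hg : 2 ≤ g) (γ : SurfaceGroup g) (j d : ZMod (4 * g)) (m : ℕ) :
    len g γ ≤ len g (γ * arc g j d m) + m := by
  induction m with
  | zero => simp [arc_zero]
  | succ m ih =>
    rw [arc_succ, ← mul_assoc]
    have := len_step hg (γ * arc g j d m) (j + m * d)
    omega

private theorem H05c_mono (hg : 2 ≤ g) (γ : SurfaceGroup g) (j d : ZMod (4 * g)) {a b : ℕ}
    (hab : a ≤ b) :
    len g (γ * arc g j d a) + a ≤ len g (γ * arc g j d b) + b := by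
  induction b, hab using Nat.le_induction with
  | base => exact le_rfl
  | succ b _ ih =>
    rw [arc_succ, ← mul_assoc]
    have := len_step hg (γ * arc g j d b) (j + b * d)
    omega

/-- The lemma of Tits. -/
theorem tits (hg : 2 ≤ g) (n : ℕ) : ∀ (γ : SurfaceGroup g) (j : ZMod (4 * g)), len g γ = n →
    (len g (γ * ss g j) = len g γ + 1 → Pos g (ga hg γ (W g j))) ∧
    (len g γ = len g (γ * ss g j) + 1 → Pos g (-ga hg γ (W g j))) := by
  induction n using Nat.strong_induction_on with
  | _ n ih =>
    intro γ j hn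
    refine ⟨fun h => ?_, fun h => ?_⟩
    · rcases Nat.eq_zero_or_pos n with h0 | h0
      · rw [h0] at hn
        rw [len_eq_zero hg hn, ga_one]
        exact pos_W j
      · have hne : γ ≠ 1 := by
          intro h1; rw [h1, len_one] at hn; omega
        obtain ⟨j0, hj0⟩ := exists_last hg hne
        obtain ⟨d, hd⟩ : ∃ d, j = j0 + d := ⟨j - j0, by ring⟩
        have hd0 : d ≠ 0 := by
          intro h1; rw [h1, add_zero] at hd; rw [hd] at h; omega
        have hw := walk hg γ j0 d
        rw [← hd] at hw
        set e := h2 g - d with he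
        -- the length along the walk
        have hL0 : len g (γ * arc g j0 e 0) + 0 = n := by rw [arc_zero, mul_one]; omega
        have hex : ∃ k, (len g (γ * arc g j0 e k) + k = n ∧ 1 ≤ k) ∧
            len g (γ * arc g j0 e (k + 1)) = len g (γ * arc g j0 e k) + 1 := by
          have h1 : len g (γ * arc g j0 e 1) + 1 = n := by
            rw [arc_succ, arc_zero, one_mul, Nat.cast_zero, zero_mul, add_zero]; omega
          have hP := Nat.findGreatest_spec (P := fun k => len g (γ * arc g j0 e k) + k = n)
            (m := 1) (n := n) h0 h1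
          have hk1 := Nat.le_findGreatest (P := fun k => len g (γ * arc g j0 e k) + k = n)
            (m := 1) (n := n) h0 h1
          have hk2 := Nat.findGreatest_le (P := fun k => len g (γ * arc g j0 e k) + k = n) n
          have hmax : ∀ m, Nat.findGreatest (fun k => len g (γ * arc g j0 e k) + k = n) n < m →
              m ≤ n → ¬ (len g (γ * arc g j0 e m) + m = n) := fun m hm hm' =>
            Nat.findGreatest_is_greatest (P := fun k => len g (γ * arc g j0 e k) + k = n) hm hm'
          set k := Nat.findGreatest (fun k => len g (γ * arc g j0 e k) + k = n) n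
          refine ⟨k, ⟨hP, hk1⟩, ?_⟩
          have hs := len_step hg (γ * arc g j0 e k) (j0 + k * e)
          rw [mul_assoc, ← arc_succ] at hs
          rcases hs with hs | hs
          · exact hs
          · exfalso
            refine hmax (k + 1) (by omega) ?_ ?_
            · omega
            · omega
        obtain ⟨k, ⟨hk, hk1⟩, hk'⟩ := hex
        have hlt : len g (γ * arc g j0 e k) < n := by omega
        have hA : Pos g (ga hg (γ * arc g j0 e k) (W g (j0 + k * e))) := by
          refine (ih _ hlt _ _ rfl).1 ?_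
          rw [mul_assoc, ← arc_succ]; exact hk'
        have hB : Pos g (ga hg (γ * arc g j0 e k) (W g (j0 + k * e + d))) := by
          refine (ih _ hlt _ _ rfl).1 ?_
          obtain ⟨k', rfl⟩ : ∃ k', k = k' + 1 := ⟨k - 1, by omega⟩
          have hback : γ * arc g j0 e (k' + 1) * ss g (j0 + ((k' + 1 : ℕ) : ZMod (4 * g)) * e + d) =
              γ * arc g j0 e k' := by
            have h3 : j0 + ((k' + 1 : ℕ) : ZMod (4 * g)) * e + d = (j0 + k' * e) + h2 g := by
              rw [he]; push_cast; ring
            rw [h3, arc_succ, mul_assoc, mul_assoc, ss_opp, mul_one]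
          rw [hback]
          have m1 := H05c_mono hg γ j0 e (Nat.zero_le k')
          have m2 := H05c_mono hg γ j0 e (Nat.le_succ k')
          simp only [Nat.succ_eq_add_one] at m2
          omega
        -- the coefficients
        have hcoef : 0 ≤ chb (lor (W g j0) (W g j)) (k + 1) ∧ 0 ≤ chb (lor (W g j0) (W g j)) k := by
          by_cases hadj : d = 1 ∨ d = -1
          · have hβ : lor (W g j0) (W g j) = Real.cos (2 * xx g) := by
              rcases hadj with h1 | h1
              · rw [hd, h1, lor_W_adj hg]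
              · have h4 := lor_W_adj hg j
                have h5 : j + 1 = j0 := by rw [hd, h1]; ring
                rw [h5] at h4
                rw [lor_comm, h4]
            rw [hβ]
            have hk2 : k + 1 ≤ 2 * g := by
              by_contra hc
              have m1 := H05c_mono hg γ j0 e (a := 2 * g) (b := k) (by omega)
              have m0 := H05c_mono hg γ j0 e (Nat.zero_le (2 * g))
              have h6 := arc_half hg j0 d hadj
              rw [← he, ← hd] at h6
              obtain ⟨m, hm⟩ : ∃ m, 2 * g = m + 1 := ⟨2 * g - 1, by omega⟩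
              rw [h6, hm, arc_succ', ← mul_assoc] at m1 
              have h7 := H05c_len_arc hg (γ * ss g j) (j + (h2 g + d)) (h2 g + d) m
              omega
            exact ⟨chb_nonneg_adj hg hk2, chb_nonneg_adj hg (by omega)⟩
          · have hβ : 1 ≤ lor (W g j0) (W g j) := by
              refine lor_W_far hg j0 j ?_ ?_ ?_
              · intro h1; apply hd0; rw [hd] at h1; simpa using h1
              · intro h1; apply hadj; left; rw [hd] at h1; simpa using h1
              · intro h1; apply hadj; right; rw [hd, sub_eq_add_neg] at h1; simpa using h1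
            exact ⟨chb_nonneg_of_one_le hβ _, chb_nonneg_of_one_le hβ _⟩
        rw [hw k]
        exact H05c_pos_add (H05c_pos_smul hB hcoef.1) (H05c_pos_smul hA hcoef.2)
    · have h1 : len g (γ * ss g j) < n := by omega
      have h2' := (ih _ h1 (γ * ss g j) (j + h2 g) rfl).1 (by
        rw [mul_assoc, ss_opp, mul_one]; exact h)
      rwa [ga_W_opp hg] at h2'

theorem tits_pos (hg : 2 ≤ g) (γ : SurfaceGroup g) (j : ZMod (4 * g))
    (h : len g (γ * ss g j) = len g γ + 1) : Pos g (ga hg γ (W g j)) :=
  (tits hg _ γ j rfl).1 h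

theorem tits_neg (hg : 2 ≤ g) (γ : SurfaceGroup g) (j : ZMod (4 * g))
    (h : len g γ = len g (γ * ss g j) + 1) : Pos g (-ga hg γ (W g j)) :=
  (tits hg _ γ j rfl).2 h

/-- The polygon lies on one side of every wall. -/
theorem side (hg : 2 ≤ g) (γ : SurfaceGroup g) (j : ZMod (4 * g)) :
    Pos g (ga hg γ (W g j)) ∨ Pos g (-ga hg γ (W g j)) := by
  rcases len_step hg γ j with h | h
  · exact Or.inl (tits_pos hg γ j h)
  · exact Or.inr (tits_neg hg γ j h)

end Pool.Agent.AMU.Geo
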