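import Pool.Agent.Lib.AMU.Geo05

/-!
# Row H06: how two tiles meet
-/

set_option autoImplicit false

namespace Pool.Agent.AMU.Geo

open Matrix

variable {g : ℕ}

/-- Wall coordinates after a side pairing. -/
theorem lor_sm (hg : 2 ≤ g) (j k : ZMod (4 * g)) (X : M2) :
    lor (W g k) (ga hg (ss g j) X) =
      lor (W g (2 * j + h2 g - k)) X +
        2 * lor (W g (j + h2 g)) (W g (2 * j + h2 g - k)) * lor (W g (j + h2 g)) X := by
  have hh : h2 g + h2 g = 0 := h2_add_h2
  have h := wall_refl hg (j + h2 g) (2 * j + h2 g - k)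
  rw [show 2 * (j + h2 g) + h2 g - (2 * j + h2 g - k) = k + (h2 g + h2 g) by ring, hh,
    add_zero] at h
  rw [lor_comm, lor_ga_left, ss_inv, ga_ss, h, lor_add_right, lor_smul_right, lor_comm X,
    lor_comm X]

/-- If `X` lies in the polygon and on the side opposite to `j`, then `s_j X` lies in the polygon and
on the side `j`. -/
theorem sm_wall (hg : 2 ≤ g) (j : ZMod (4 * g)) {X : M2} (hX : InP g X)
    (h : lor (W g (j + h2 g)) X = 0) :
    InP g (ga hg (ss g j) X) ∧ lor (W g j) (ga hg (ss g j) X) = 0 ∧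
      ∀ k, lor (W g k) (ga hg (ss g j) X) = lor (W g (2 * j + h2 g - k)) X := by
  have key : ∀ k, lor (W g k) (ga hg (ss g j) X) = lor (W g (2 * j + h2 g - k)) X := by
    intro k; rw [lor_sm hg, h]; ring
  refine ⟨fun k => ?_, ?_, key⟩
  · rw [key]; exact hX _
  · rw [key, show 2 * j + h2 g - j = j + h2 g by ring, h]

/-- If `X` and `γ X` lie in the polygon and `γ` is not `1`, then `γ = γ' s_j` with `γ'` shorter and
`X` on the side opposite to `j`. -/
theorem inter_last (hg : 2 ≤ g) {γ : SurfaceGroup g} (h : γ ≠ 1) {X : M2} (hs : Sym X)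
    (hX : InP g X) (hγ : InP g (ga hg γ X)) :
    ∃ j : ZMod (4 * g), len g γ = len g (γ * ss g (j + h2 g)) + 1 ∧
      lor (W g (j + h2 g)) X = 0 := by
  obtain ⟨k, hk⟩ := exists_last hg h
  have hh : h2 g + h2 g = 0 := h2_add_h2
  refine ⟨k + h2 g, ?_, ?_⟩
  · rw [add_assoc, hh, add_zero]; exact hk
  · rw [add_assoc, hh, add_zero]
    have h1 := tits_neg hg γ k hk (ga hg γ X) (ga_sym hg γ hs) hγ
    rw [lor_neg_left, lor_ga] at h1
    have h2 := hX k
    linarith

/-- Interior points belong to one tile. -/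
theorem interior_lemma (hg : 2 ≤ g) (n : ℕ) : ∀ (γ : SurfaceGroup g) (X : M2), len g γ = n →
    Sym X → InP g X → (∀ k, 0 < lor (W g k) (ga hg γ X)) → γ = 1 := by
  have hh : h2 g + h2 g = 0 := h2_add_h2
  induction n with
  | zero =>
    intro γ X hl _ _ _
    exact len_eq_zero hg hl
  | succ n ih =>
    intro γ X hl hs hX hpos
    by_contra hne
    obtain ⟨j, h1, hj⟩ := inter_last hg hne hs hX (fun k => (hpos k).le)
    obtain ⟨h3, h4, _⟩ := sm_wall hg j hX hj
    have e1 : ss g (j + h2 g) * ss g j = 1 := by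
      have := ss_opp (g := g) (j + h2 g)
      rwa [add_assoc, hh, add_zero] at this
    have e2 : ga hg (γ * ss g (j + h2 g)) (ga hg (ss g j) X) = ga hg γ X := by
      rw [← ga_mul, mul_assoc, e1, mul_one]
    have h5 := ih (γ * ss g (j + h2 g)) (ga hg (ss g j) X) (by omega) (ga_sym hg _ hs) h3
      (by rw [e2]; exact hpos)
    rw [h5, ga_one] at e2
    have h6 := hpos j
    rw [← e2, h4] at h6
    exact lt_irrefl _ h6

/-- Interior points of sides belong to two tiles. -/
theorem edge_lemma (hg : 2 ≤ g) (j : ZMod (4 * g)) (n : ℕ) : ∀ (γ : SurfaceGroup g) (X : M2),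
    len g γ = n → Sym X → InP g X → lor (W g j) (ga hg γ X) = 0 →
    (∀ k, k ≠ j → 0 < lor (W g k) (ga hg γ X)) → γ = 1 ∨ γ = ss g j := by
  induction n with
  | zero =>
    intro γ X hl _ _ _ _
    exact Or.inl (len_eq_zero hg hl)
  | succ n ih =>
    intro γ X hl hs hX h0 hpos
    by_cases h1 : γ = 1
    · exact Or.inl h1
    have hγ : InP g (ga hg γ X) := by
      intro k
      by_cases hk : k = j
      · rw [hk, h0]
      · exact (hpos k hk).le
    obtain ⟨j1, hj1, hj2⟩ := inter_last hg h1 hs hX hγ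
    obtain ⟨k1, k2, _⟩ := sm_wall hg j1 hX hj2
    have hinv : ss g (j1 + h2 g) * ss g j1 = 1 := by
      rw [← ss_inv, inv_mul_cancel]
    have hb : ga hg (γ * ss g (j1 + h2 g)) (ga hg (ss g j1) X) = ga hg γ X := by
      rw [← ga_mul, mul_assoc, hinv, mul_one]
    have hγe : γ = (γ * ss g (j1 + h2 g)) * ss g j1 := by rw [mul_assoc, hinv, mul_one]
    rcases ih (γ * ss g (j1 + h2 g)) (ga hg (ss g j1) X) (by omega) (ga_sym hg _ hs) k1
      (by rw [hb]; exact h0) (by intro k hk; rw [hb]; exact hpos k hk) with h | h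
    · rw [h, ga_one] at hb
      rw [hb] at k2
      have : j1 = j := by
        by_contra hne
        have := hpos j1 hne
        rw [k2] at this
        exact lt_irrefl _ this
      right
      rw [hγe, h, one_mul, this]
    · left
      have hz : lor (W g (j + h2 g + h2 g)) (ga hg γ X) = 0 := by
        rw [add_assoc, h2_add_h2, add_zero]; exact h0
      obtain ⟨_, _, m3⟩ := sm_wall hg (j + h2 g) hγ hz
      have hX' : ga hg (ss g (j + h2 g)) (ga hg γ X) = ga hg (ss g j1) X := by
        rw [← hb, h, ← ga_mul, ← ss_inv, inv_mul_cancel, ga_one]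
      have m4 := m3 j1
      rw [hX', k2] at m4
      have h5 : 2 * (j + h2 g) + h2 g - j1 = j := by
        by_contra hne
        have := hpos _ hne
        rw [← m4] at this
        exact lt_irrefl _ this
      have h6 : j1 = j + h2 g := by
        have e := h2_add_h2 (g := g)
        linear_combination (-1 : ZMod (4 * g)) * h5 + e
      rw [hγe, h, h6, ss_opp]

/-- The corners lie in the polygon. -/
theorem h06_inP_Q (hg : 2 ≤ g) (i : ZMod (4 * g)) : InP g (Q g i) := by
  intro k
  by_cases h0 : i = k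
  · rw [h0, lor_WQ_self hg]
  by_cases h1 : i = k + 1
  · rw [h1, lor_WQ_succ hg]
  · exact (lor_WQ_pos hg k i h0 h1).le

theorem h06_stepB (hg : 2 ≤ g) (k : ZMod (4 * g)) :
    ga hg (ss g (k + h2 g)) (Q g k) = Q g (k + h2 g + 1) := by
  have h := sm_QB hg (k + h2 g)
  rw [add_assoc k, h2_add_h2, add_zero] at h
  rw [ga_ss, h]

theorem h06_stepA (hg : 2 ≤ g) (k : ZMod (4 * g)) :
    ga hg (ss g (k + h2 g)) (Q g (k + 1)) = Q g (k + h2 g) := by
  have h := sm_QA hg (k + h2 g)
  rw [add_assoc k, h2_add_h2, add_zero] at h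
  rw [ga_ss, h]

/-- The tiles at the corner `i`. -/
theorem corner_lemma (hg : 2 ≤ g) (i : ZMod (4 * g)) (m : ℕ) : ∀ (γ : SurfaceGroup g) (X : M2),
    len g γ = m → Sym X → InP g X → ga hg γ X = Q g i →
    ∃ n : ℕ, (γ = arc g i (h2 g + 1) n ∧ X = Q g (i + n * (h2 g + 1))) ∨
      (γ = arc g (i - 1) (h2 g - 1) n ∧ X = Q g (i + n * (h2 g - 1))) := by
  have e2 := h2_add_h2 (g := g)
  induction m with
  | zero =>
    intro γ X hl _ _ hQ
    have h1 := len_eq_zero hg hl
    subst h1
    rw [ga_one] at hQ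
    exact ⟨0, Or.inl ⟨by rw [arc_zero], by rw [hQ]; simp⟩⟩
  | succ m ih =>
    intro γ X hl hs hX hQ
    by_cases h1 : γ = 1
    · rw [h1, ga_one] at hQ
      exact ⟨0, Or.inl ⟨by rw [arc_zero, h1], by rw [hQ]; simp⟩⟩
    have hγ : InP g (ga hg γ X) := by rw [hQ]; exact h06_inP_Q hg i
    obtain ⟨k, hk1, hk2⟩ := inter_last hg h1 hs hX hγ
    obtain ⟨k1, k2, _⟩ := sm_wall hg k hX hk2
    have hinv : ss g (k + h2 g) * ss g k = 1 := by
      rw [← ss_inv, inv_mul_cancel]
    have hb : ga hg (γ * ss g (k + h2 g)) (ga hg (ss g k) X) = Q g i := by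
      rw [← ga_mul, mul_assoc, hinv, mul_one, hQ]
    have hγe : γ = (γ * ss g (k + h2 g)) * ss g k := by rw [mul_assoc, hinv, mul_one]
    have hXe : X = ga hg (ss g (k + h2 g)) (ga hg (ss g k) X) := by
      rw [← ga_mul, hinv, ga_one]
    have hcase : ∀ i' : ZMod (4 * g), ga hg (ss g k) X = Q g i' → k = i' ∨ k = i' - 1 := by
      intro i' hi'
      by_contra hc
      push Not at hc
      have := lor_WQ_pos hg k i' (fun h => hc.1 h.symm) (fun h => hc.2 (by rw [h]; ring))
      rw [hi'] at k2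
      rw [k2] at this
      exact lt_irrefl _ this
    obtain ⟨n, ⟨hn1, hn2⟩ | ⟨hn1, hn2⟩⟩ :=
      ih (γ * ss g (k + h2 g)) (ga hg (ss g k) X) (by omega) (ga_sym hg _ hs) k1 hb
    · rcases hcase _ hn2 with hk | hk
      · refine ⟨n + 1, Or.inl ⟨?_, ?_⟩⟩
        · rw [hγe, hn1, arc_succ, hk]
        · rw [hXe, hn2, ← hk, h06_stepB hg]
          congr 1
          rw [hk]; push_cast; ring
      · rcases n with _ | n
        · refine ⟨1, Or.inr ⟨?_, ?_⟩⟩
          · rw [hγe, hn1, arc_zero, one_mul, hk]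
            rw [arc_succ, arc_zero, one_mul]
            congr 1
            push_cast; ring
          · rw [hXe, hn2]
            have : i + ((0 : ℕ) : ZMod (4 * g)) * (h2 g + 1) = k + 1 := by rw [hk]; ring
            rw [this, h06_stepA hg]
            congr 1
            rw [hk]; push_cast; ring
        · have hkt : k = i + n * (h2 g + 1) + h2 g := by
            rw [hk]; push_cast; ring
          refine ⟨n, Or.inl ⟨?_, ?_⟩⟩
          · rw [hγe, hn1, arc_succ, hkt, mul_assoc, ss_opp, mul_one]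
          · rw [hXe, hn2]
            have : i + ((n + 1 : ℕ) : ZMod (4 * g)) * (h2 g + 1) = k + 1 := by rw [hk]; ring
            rw [this, h06_stepA hg]
            congr 1
            rw [hkt]; linear_combination e2
    · rcases hcase _ hn2 with hk | hk
      · rcases n with _ | n
        · refine ⟨1, Or.inl ⟨?_, ?_⟩⟩
          · rw [hγe, hn1, arc_zero, one_mul, hk]
            rw [arc_succ, arc_zero, one_mul]
            congr 1
            push_cast; ring
          · rw [hXe, hn2, ← hk, h06_stepB hg]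
            congr 1
            rw [hk]; push_cast; ring
        · have hkt : k = i - 1 + n * (h2 g - 1) + h2 g := by
            rw [hk]; push_cast; ring
          refine ⟨n, Or.inr ⟨?_, ?_⟩⟩
          · rw [hγe, hn1, arc_succ, hkt, mul_assoc, ss_opp, mul_one]
          · rw [hXe, hn2, ← hk, h06_stepB hg]
            congr 1
            rw [hkt]; linear_combination e2
      · refine ⟨n + 1, Or.inr ⟨?_, ?_⟩⟩
        · rw [hγe, hn1, arc_succ, hk]
          congr 2; ring
        · rw [hXe, hn2]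
          have : i + (n : ZMod (4 * g)) * (h2 g - 1) = k + 1 := by rw [hk]; ring
          rw [this, h06_stepA hg]
          congr 1
          rw [hk]; push_cast; ring

/-- The stabilizer of a corner is trivial. -/
theorem corner_stab (hg : 2 ≤ g) (i : ZMod (4 * g)) (γ : SurfaceGroup g)
    (h : ga hg γ (Q g i) = Q g i) : γ = 1 := by
  obtain ⟨n, ⟨h1, h3⟩ | ⟨h1, h3⟩⟩ :=
    corner_lemma hg i (len g γ) γ (Q g i) rfl (sym_Q i) (h06_inP_Q hg i) h
  · have h4 := Q_inj hg _ _ h3
    rw [h1]
    exact arc_mul_full hg i _ (Or.inl rfl) n (by linear_combination (-1 : ZMod (4 * g)) * h4)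
  · have h4 := Q_inj hg _ _ h3
    rw [h1]
    exact arc_mul_full hg (i - 1) _ (Or.inr rfl) n (by linear_combination (-1 : ZMod (4 * g)) * h4)

end Pool.Agent.AMU.Geo
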