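import Pool.Agent.Lib.AMU.Geo06

/-!
# Row H07: the polygon is spanned by its corners; compactness
-/

set_option autoImplicit false

namespace Pool.Agent.AMU.Geo

open Matrix

variable {g : ℕ}

/-- Rotation of a symmetric matrix with double angles. -/
private theorem H07a_rot (t p q φ : ℝ) :
    act (Rt t) !![p + q * Real.cos φ, q * Real.sin φ; q * Real.sin φ, p - q * Real.cos φ] =
      !![p + q * Real.cos (φ - 2 * t), q * Real.sin (φ - 2 * t);
        q * Real.sin (φ - 2 * t), p - q * Real.cos (φ - 2 * t)] := by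
  have h := Real.sin_sq_add_cos_sq t
  have e1 : Real.cos (φ - 2 * t) = Real.cos φ * (2 * Real.cos t ^ 2 - 1) +
      Real.sin φ * (2 * Real.sin t * Real.cos t) := by
    rw [Real.cos_sub, Real.cos_two_mul, Real.sin_two_mul]
  have e2 : Real.sin (φ - 2 * t) = Real.sin φ * (2 * Real.cos t ^ 2 - 1) -
      Real.cos φ * (2 * Real.sin t * Real.cos t) := by
    rw [Real.sin_sub, Real.cos_two_mul, Real.sin_two_mul]
  rw [e1, e2]
  have hs : Real.sin t ^ 2 = 1 - Real.cos t ^ 2 := by linarith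
  unfold act Rt
  ext i j
  fin_cases i <;> fin_cases j <;>
    simp [Matrix.mul_apply, Fin.sum_univ_two, Matrix.transpose_apply] <;> ring_nf <;>
    rw [hs] <;> ring

/-- The corner with an integer index. -/
private theorem H07a_Q (hg : 2 ≤ g) (n : ℤ) : Q g (n : ZMod (4 * g)) =
    !![kap g * Real.cos (xx g) + SS g * Real.cos ((2 * n - 1) * xx g),
      -(SS g * Real.sin ((2 * n - 1) * xx g));
      -(SS g * Real.sin ((2 * n - 1) * xx g)),
      kap g * Real.cos (xx g) - SS g * Real.cos ((2 * n - 1) * xx g)] := by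
  have h0 : Q0 g = !![kap g * Real.cos (xx g) + SS g * Real.cos (xx g),
      SS g * Real.sin (xx g); SS g * Real.sin (xx g),
      kap g * Real.cos (xx g) - SS g * Real.cos (xx g)] := by
    unfold Q0 aa
    ext i j
    fin_cases i <;> fin_cases j <;> simp <;> ring
  have e0 : xx g - 2 * (n * xx g) = -((2 * n - 1) * xx g) := by ring
  unfold Q
  rw [fam_int hg, h0, H07a_rot, e0, Real.cos_neg, Real.sin_neg, mul_neg]

/-- The normal with an integer index. -/
private theorem H07a_W (hg : 2 ≤ g) (n : ℤ) : W g (n : ZMod (4 * g)) =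
    !![SS g + kap g * Real.cos (2 * n * xx g), -(kap g * Real.sin (2 * n * xx g));
      -(kap g * Real.sin (2 * n * xx g)), SS g - kap g * Real.cos (2 * n * xx g)] := by
  have h0 : W0 g = !![SS g + kap g * Real.cos 0, kap g * Real.sin 0;
      kap g * Real.sin 0, SS g - kap g * Real.cos 0] := by
    unfold W0 aa
    ext i j
    fin_cases i <;> fin_cases j <;> simp <;> ring
  have e0 : 0 - 2 * ((n : ℝ) * xx g) = -(2 * n * xx g) := by ring
  unfold W
  rw [fam_int hg, h0, H07a_rot, e0, Real.cos_neg, Real.sin_neg, mul_neg]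

/-- Combinations of four corners. -/
private def H07a_C (g : ℕ) (X : M2) : Prop := ∃ c : ℕ → ℝ, (∀ i, 0 ≤ c i) ∧
      X = ∑ i ∈ Finset.range (4 * g), c i • Q g ((i : ℕ) : ZMod (4 * g))

private theorem H07a_add {X Y : M2} (hX : H07a_C g X) (hY : H07a_C g Y) : H07a_C g (X + Y) := by
  obtain ⟨c, hc, hX⟩ := hX
  obtain ⟨d, hd, hY⟩ := hY
  refine ⟨fun i => c i + d i, fun i => add_nonneg (hc i) (hd i), ?_⟩
  rw [hX, hY, ← Finset.sum_add_distrib]
  exact Finset.sum_congr rfl fun i _ => (add_smul _ _ _).symm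

private theorem H07a_corner (hg : 2 ≤ g) {a : ℝ} (ha : 0 ≤ a) (i : ZMod (4 * g)) :
    H07a_C g (a • Q g i) := by
  have : NeZero (4 * g) := ⟨by omega⟩
  refine ⟨fun j => if j = i.val then a else 0, fun j => ?_, ?_⟩
  · dsimp only
    split_ifs
    · exact ha
    · exact le_rfl
  · rw [Finset.sum_eq_single i.val]
    · dsimp only
      rw [if_pos rfl, ZMod.natCast_zmod_val]
    · intro j _ hj
      dsimp only
      rw [if_neg hj, zero_smul]
    · intro h
      exact absurd (Finset.mem_range.2 (ZMod.val_lt i)) h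

private theorem H07a_opp (hg : 2 ≤ g) : Q g ((0 : ℤ) : ZMod (4 * g)) +
    Q g ((((2 * g : ℕ) : ℤ)) : ZMod (4 * g)) = (2 * (kap g * Real.cos (xx g))) • (1 : M2) := by
  rw [H07a_Q hg, H07a_Q hg]
  have h := two_g_xx hg
  have e1 : (2 * (((2 * g : ℕ) : ℤ) : ℝ) - 1) * xx g = (2 * ((0 : ℤ) : ℝ) - 1) * xx g + Real.pi := by
    push_cast at h ⊢
    linear_combination 2 * h
  rw [e1, Real.cos_add_pi, Real.sin_add_pi]
  ext i j
  fin_cases i <;> fin_cases j <;> simp <;> ring

private theorem H07a_one (hg : 2 ≤ g) {a : ℝ} (ha : 0 ≤ a) : H07a_C g (a • (1 : M2)) := by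
  have hk : 0 < kap g * Real.cos (xx g) := by
    have := one_lt_kap hg
    have := cos_xx_pos hg
    have : 0 < kap g := by linarith
    positivity
  have h1 : 0 ≤ a / (2 * (kap g * Real.cos (xx g))) := by positivity
  have h2 := H07a_add (H07a_corner hg h1 ((0 : ℤ) : ZMod (4 * g)))
    (H07a_corner hg h1 ((((2 * g : ℕ) : ℤ)) : ZMod (4 * g)))
  rw [← smul_add, H07a_opp hg, smul_smul, div_mul_cancel₀ _ (by positivity)] at h2
  exact h2

/-- The sector of an angle. -/
private theorem H07a_sector (hg : 2 ≤ g) (φ : ℝ) :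
    ∃ n : ℤ, 0 ≤ φ - (2 * n - 1) * xx g ∧ φ - (2 * n - 1) * xx g ≤ 2 * xx g := by
  have hx := xx_pos hg
  have h2 : 0 < 2 * xx g := by positivity
  refine ⟨⌊(φ + xx g) / (2 * xx g)⌋, ?_, ?_⟩
  · have h := Int.floor_le ((φ + xx g) / (2 * xx g))
    rw [le_div_iff₀ h2] at h
    nlinarith
  · have h := (Int.lt_floor_add_one ((φ + xx g) / (2 * xx g))).le
    rw [div_le_iff₀ h2] at h
    nlinarith

/-- A form in the polygon is a nonnegative combination of the corners. -/
theorem fan (hg : 2 ≤ g) {X : M2} (hs : Sym X) (hX : InP g X) :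
    ∃ c : ℕ → ℝ, (∀ i, 0 ≤ c i) ∧
      X = ∑ i ∈ Finset.range (4 * g), c i • Q g ((i : ℕ) : ZMod (4 * g)) := by
  change H07a_C g X
  have hx := xx_pos hg
  have hxl := xx_le hg
  have hpi := Real.pi_pos
  have hS := SS_pos hg
  have hk : 0 < kap g := by have := one_lt_kap hg; linarith
  have hc := cos_xx_pos hg
  -- polar coordinates
  obtain ⟨τ, u, v, ρ, φ, hρ, h00, h11, h01, hu, hv⟩ : ∃ τ u v ρ φ : ℝ, 0 ≤ ρ ∧
      X 0 0 = τ + u ∧ X 1 1 = τ - u ∧ X 0 1 = -v ∧ u = ρ * Real.cos φ ∧ v = ρ * Real.sin φ := by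
    refine ⟨(X 0 0 + X 1 1) / 2, (X 0 0 - X 1 1) / 2, -X 0 1,
      ‖(⟨(X 0 0 - X 1 1) / 2, -X 0 1⟩ : ℂ)‖, Complex.arg ⟨(X 0 0 - X 1 1) / 2, -X 0 1⟩,
      norm_nonneg _, by ring, by ring, by ring, ?_, ?_⟩
    · exact (Complex.norm_mul_cos_arg ⟨(X 0 0 - X 1 1) / 2, -X 0 1⟩).symm
    · exact (Complex.norm_mul_sin_arg ⟨(X 0 0 - X 1 1) / 2, -X 0 1⟩).symm
  have h10 : X 1 0 = -v := by rw [hs, h01]
  obtain ⟨n, hn0, hn1⟩ := H07a_sector hg φ
  set A : ℝ := (2 * n - 1) * xx g with hA
  have hs2 : 0 < Real.sin (2 * xx g) :=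
    Real.sin_pos_of_pos_of_lt_pi (by linarith) (by linarith)
  have hB : ((2 * ((n + 1 : ℤ) : ℝ)) - 1) * xx g = A + 2 * xx g := by
    rw [hA]; push_cast; ring
  -- the two coefficients
  set c1 : ℝ := ρ * Real.sin (A + 2 * xx g - φ) / Real.sin (2 * xx g) with hc1
  set c2 : ℝ := ρ * Real.sin (φ - A) / Real.sin (2 * xx g) with hc2
  have c1n : 0 ≤ c1 := by
    have : 0 ≤ Real.sin (A + 2 * xx g - φ) :=
      Real.sin_nonneg_of_nonneg_of_le_pi (by linarith) (by linarith)
    positivity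
  have c2n : 0 ≤ c2 := by
    have : 0 ≤ Real.sin (φ - A) :=
      Real.sin_nonneg_of_nonneg_of_le_pi (by linarith) (by linarith)
    positivity
  have e1 : c1 * Real.cos A + c2 * Real.cos (A + 2 * xx g) = u := by
    rw [hc1, hc2, hu]
    have : Real.sin (2 * xx g) = Real.sin (A + 2 * xx g - A) := by congr 1; ring
    rw [div_mul_eq_mul_div, div_mul_eq_mul_div, ← add_div, div_eq_iff hs2.ne', this,
      Real.sin_sub, Real.sin_sub, Real.sin_sub]
    ring
  have e2 : c1 * Real.sin A + c2 * Real.sin (A + 2 * xx g) = v := by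
    rw [hc1, hc2, hv]
    have : Real.sin (2 * xx g) = Real.sin (A + 2 * xx g - A) := by congr 1; ring
    rw [div_mul_eq_mul_div, div_mul_eq_mul_div, ← add_div, div_eq_iff hs2.ne', this,
      Real.sin_sub, Real.sin_sub, Real.sin_sub]
    ring
  -- the wall between the two corners
  have hw := hX (n : ZMod (4 * g))
  rw [H07a_W hg] at hw
  unfold lor at hw
  rw [h00, h11, h01, h10] at hw
  simp only [Matrix.of_apply, Matrix.cons_val', Matrix.cons_val_zero, Matrix.cons_val_one,
    Matrix.cons_val_fin_one] at hw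
  have e3 : u * Real.cos (2 * n * xx g) + v * Real.sin (2 * n * xx g) =
      (c1 + c2) * Real.cos (xx g) := by
    have a1 : 2 * (n : ℝ) * xx g = A + xx g := by rw [hA]; ring
    have a2 : Real.cos (xx g) = Real.cos (A + xx g - A) := by congr 1; ring
    have a3 : Real.cos (xx g) = Real.cos (A + 2 * xx g - (A + xx g)) := by congr 1; ring
    rw [a1, add_mul]
    nth_rewrite 1 [a2]
    rw [a3, Real.cos_sub (A + xx g) A, Real.cos_sub (A + 2 * xx g) (A + xx g), ← e1, ← e2]
    ring
  have hpos : 0 ≤ τ - (c1 + c2) * (kap g * Real.cos (xx g)) / SS g := by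
    have h5 : 0 ≤ SS g * τ - kap g * ((c1 + c2) * Real.cos (xx g)) := by
      rw [← e3]
      nlinarith
    rw [sub_nonneg, div_le_iff₀ hS]
    nlinarith
  have key : X = (τ - (c1 + c2) * (kap g * Real.cos (xx g)) / SS g) • (1 : M2) +
      (c1 / SS g) • Q g ((n : ℤ) : ZMod (4 * g)) +
      (c2 / SS g) • Q g (((n + 1 : ℤ)) : ZMod (4 * g)) := by
    rw [H07a_Q hg, H07a_Q hg, hB, ← hA]
    rw [Matrix.eta_fin_two X, h00, h11, h01, h10]
    ext i j
    fin_cases i <;> fin_cases j
    · simp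
      field_simp
      linear_combination (-(SS g)) * e1
    · simp
      field_simp
      linear_combination e2
    · simp
      field_simp
      linear_combination e2
    · simp
      field_simp
      linear_combination (SS g) * e1
  rw [key]
  exact H07a_add (H07a_add (H07a_one hg hpos) (H07a_corner hg (by positivity) _))
    (H07a_corner hg (by positivity) _)

theorem inP_Q (hg : 2 ≤ g) (i : ZMod (4 * g)) : InP g (Q g i) := by
  intro k
  by_cases h0 : i = k
  · rw [h0, lor_WQ_self hg]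
  · by_cases h1 : i = k + 1
    · rw [h1, lor_WQ_succ hg]
    · exact (lor_WQ_pos hg k i h0 h1).le

theorem inP_one (hg : 2 ≤ g) : ∀ k, 0 < lor (W g k) 1 := by
  intro k
  have h := SS_pos hg
  have e : lor (W g k) 1 = SS g := by
    unfold lor
    rw [W_eq hg k]
    simp only [Matrix.of_apply, Matrix.cons_val', Matrix.cons_val_zero, Matrix.cons_val_one,
      Matrix.cons_val_fin_one, Matrix.one_apply_eq, Matrix.one_apply_ne, ne_eq, Fin.isValue,
      zero_ne_one, one_ne_zero, not_false_eq_true]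
    ring
  rw [e]
  exact h

theorem inP_add {X Y : M2} (hX : InP g X) (hY : InP g Y) : InP g (X + Y) := fun k => by
  rw [lor_add_right]; exact add_nonneg (hX k) (hY k)

theorem inP_smul {X : M2} (hX : InP g X) {c : ℝ} (hc : 0 ≤ c) : InP g (c • X) := fun k => by
  rw [lor_smul_right]; exact mul_nonneg hc (hX k)

/-- A linear functional which is positive somewhere on the polygon is positive at a corner. -/
theorem exists_corner_pos (hg : 2 ≤ g) (f : M2 →ₗ[ℝ] ℝ) {X : M2} (hs : Sym X) (hX : InP g X)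
    (h : 0 < f X) : ∃ i, 0 < f (Q g i) := by
  obtain ⟨c, hc, e⟩ := fan hg hs hX
  by_contra hcon
  push Not at hcon
  rw [e, map_sum] at h
  refine absurd h (not_lt.mpr (Finset.sum_nonpos fun i _ => ?_))
  rw [map_smul, smul_eq_mul]
  exact mul_nonpos_of_nonneg_of_nonpos (hc i) (hcon _)

/-- A nonzero symmetric form in the polygon is positive definite. -/
theorem pd_of_inP (hg : 2 ≤ g) {X : M2} (hs : Sym X) (hX : InP g X) (h0 : X ≠ 0) : PD X := by
  obtain ⟨c, hc, e⟩ := fan hg hs hX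
  have key : (fun Y : M2 => Y = 0 ∨ PD Y)
      (∑ i ∈ Finset.range (4 * g), c i • Q g ((i : ℕ) : ZMod (4 * g))) := by
    refine Finset.sum_induction _ (fun Y : M2 => Y = 0 ∨ PD Y) ?_ (Or.inl rfl) ?_
    · rintro A B (rfl | hA) (rfl | hB)
      · left; simp
      · right; rw [zero_add]; exact hB
      · right; rw [add_zero]; exact hA
      · right; exact pd_add hA hB
    · intro i _
      rcases (hc i).eq_or_lt with h | h
      · left; rw [← h, zero_smul]
      · right; exact pd_smul (pd_Q hg _) h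
  rw [← e] at key
  rcases key with h | h
  · exact absurd h h0
  · exact h

private theorem H07b_cs {a b c d p q : ℝ} (hp : 0 ≤ p) (hq : 0 ≤ q) (h1 : a ^ 2 + b ^ 2 ≤ p ^ 2)
    (h2 : c ^ 2 + d ^ 2 ≤ q ^ 2) : (a + c) ^ 2 + (b + d) ^ 2 ≤ (p + q) ^ 2 := by
  have h3 : (a * c + b * d) ^ 2 ≤ (p * q) ^ 2 := by
    have h4 : (a ^ 2 + b ^ 2) * (c ^ 2 + d ^ 2) ≤ p ^ 2 * q ^ 2 :=
      mul_le_mul h1 h2 (by positivity) (by positivity)
    nlinarith [sq_nonneg (a * d - b * c)]
  have h5 : a * c + b * d ≤ p * q := abs_le_of_sq_le_sq' h3 (mul_nonneg hp hq) |>.2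
  nlinarith

/-- The polygon is bounded. -/
theorem trace_le (hg : 2 ≤ g) {X : M2} (hs : Sym X) (hX : InP g X) (hd : X.det = 1) :
    X.trace ≤ 2 * kap g ^ 2 := by
  obtain ⟨c, hc, e⟩ := fan hg hs hX
  have hS := SS_pos hg
  have hk : 0 < kap g := by have := one_lt_kap hg; linarith
  have hcos := cos_xx_pos hg
  have hsin := sin_xx_pos hg
  have key : (fun Y : M2 => ∃ C : ℝ, 0 ≤ C ∧ Y 0 0 + Y 1 1 = 2 * (C * (kap g * Real.cos (xx g))) ∧
      ((Y 0 0 - Y 1 1) / 2) ^ 2 + (Y 0 1) ^ 2 ≤ (C * SS g) ^ 2)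
      (∑ i ∈ Finset.range (4 * g), c i • Q g ((i : ℕ) : ZMod (4 * g))) := by
    refine Finset.sum_induction _ (fun Y : M2 => ∃ C : ℝ, 0 ≤ C ∧
      Y 0 0 + Y 1 1 = 2 * (C * (kap g * Real.cos (xx g))) ∧
      ((Y 0 0 - Y 1 1) / 2) ^ 2 + (Y 0 1) ^ 2 ≤ (C * SS g) ^ 2) ?_ ?_ ?_
    · rintro A B ⟨C, h1, h2, h3⟩ ⟨C', k1, k2, k3⟩
      refine ⟨C + C', add_nonneg h1 k1, ?_, ?_⟩
      · simp only [Matrix.add_apply]
        linear_combination h2 + k2
      · simp only [Matrix.add_apply]
        have h4 := H07b_cs (mul_nonneg h1 hS.le) (mul_nonneg k1 hS.le) h3 k3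
        have e1 : (A 0 0 + B 0 0 - (A 1 1 + B 1 1)) / 2 =
          (A 0 0 - A 1 1) / 2 + (B 0 0 - B 1 1) / 2 := by ring
        have e2 : (C + C') * SS g = C * SS g + C' * SS g := by ring
        rw [e1, e2]
        exact h4
    · exact ⟨0, le_rfl, by simp, by simp⟩
    · intro i _
      refine ⟨c i, hc i, ?_, ?_⟩
      · rw [Q_eq hg]
        simp only [Matrix.smul_apply, smul_eq_mul, Matrix.of_apply, Matrix.cons_val',
          Matrix.cons_val_zero, Matrix.cons_val_one, Matrix.cons_val_fin_one]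
        ring
      · rw [Q_eq hg]
        simp only [Matrix.smul_apply, smul_eq_mul, Matrix.of_apply, Matrix.cons_val',
          Matrix.cons_val_zero, Matrix.cons_val_one, Matrix.cons_val_fin_one]
        have h5 := Real.sin_sq_add_cos_sq
          ((2 * (((i : ℕ) : ZMod (4 * g)).val : ℝ) - 1) * xx g)
        apply le_of_eq
        linear_combination (c i * SS g) ^ 2 * h5
  rw [← e] at key
  obtain ⟨C, h1, h2, h3⟩ := key
  rw [Matrix.det_fin_two, hs] at hd
  have h6 := kap_sin hg
  have h7 := SS_sq hg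
  have h8 := Real.sin_sq_add_cos_sq (xx g)
  have h9 : (C * Real.sin (xx g)) ^ 2 ≤ 1 := by
    have e1 : (C * Real.sin (xx g)) ^ 2 = (C * (kap g * Real.cos (xx g))) ^ 2 -
        (C * SS g) ^ 2 := by
      have e2 : Real.cos (xx g) ^ 2 = 1 - Real.sin (xx g) ^ 2 := by linarith
      have e3 : kap g ^ 2 * Real.sin (xx g) ^ 2 = Real.cos (xx g) ^ 2 := by
        rw [← h6]; ring
      have e4 : (C * (kap g * Real.cos (xx g))) ^ 2 - (C * SS g) ^ 2 =
        C ^ 2 * (kap g ^ 2 * Real.cos (xx g) ^ 2 - SS g ^ 2) := by ring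
      rw [e4, h7, e2]
      have e5 : kap g ^ 2 * (1 - Real.sin (xx g) ^ 2) - (kap g ^ 2 - 1) =
        1 - kap g ^ 2 * Real.sin (xx g) ^ 2 := by ring
      rw [e5, e3, e2]
      ring
    have e6 : C * (kap g * Real.cos (xx g)) = (X 0 0 + X 1 1) / 2 := by rw [h2]; ring
    rw [e1, e6]
    nlinarith
  have h10 : C * Real.sin (xx g) ≤ 1 := by
    have h11 : 0 ≤ C * Real.sin (xx g) := mul_nonneg h1 hsin.le
    nlinarith
  rw [Matrix.trace_fin_two, h2, ← h6]
  have e7 : 2 * (C * (kap g * (kap g * Real.sin (xx g)))) =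
    2 * kap g ^ 2 * (C * Real.sin (xx g)) := by ring
  rw [e7]
  have h12 : 0 ≤ 2 * kap g ^ 2 := by positivity
  nlinarith

/-- A nonzero form in the polygon on two different sides is a multiple of a corner. -/
theorem two_walls (hg : 2 ≤ g) {X : M2} (hs : Sym X) (hX : InP g X) (h0 : X ≠ 0)
    {j k : ZMod (4 * g)} (hjk : j ≠ k) (hj : lor (W g j) X = 0) (hk : lor (W g k) X = 0) :
    ∃ (i : ZMod (4 * g)) (c : ℝ), 0 < c ∧ X = c • Q g i := by
  have hne : NeZero (4 * g) := ⟨by omega⟩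
  obtain ⟨c, hc, hXc⟩ := fan hg hs hX
  have hlor : ∀ i : ZMod (4 * g), lor (W g i) X =
      ∑ l ∈ Finset.range (4 * g), c l * lor (W g i) (Q g ((l : ℕ) : ZMod (4 * g))) := by
    intro i
    have e : lor (W g i) X = lorL (W g i) X := rfl
    rw [e, hXc, map_sum]
    apply Finset.sum_congr rfl
    intro l _
    rw [map_smul, smul_eq_mul]; rfl
  have hkey : ∀ i : ZMod (4 * g), lor (W g i) X = 0 → ∀ l ∈ Finset.range (4 * g), c l ≠ 0 →
      ((l : ℕ) : ZMod (4 * g)) = i ∨ ((l : ℕ) : ZMod (4 * g)) = i + 1 := by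
    intro i hi l hl hcl
    rw [hlor] at hi
    have h1 := (Finset.sum_eq_zero_iff_of_nonneg (fun l _ =>
      mul_nonneg (hc l) (inP_Q hg _ i))).mp hi l hl
    by_contra hcon
    push Not at hcon
    have h2 := lor_WQ_pos hg i _ hcon.1 hcon.2
    rcases mul_eq_zero.mp h1 with h3 | h3
    · exact hcl h3
    · linarith
  obtain ⟨l0, hl0, hc0⟩ : ∃ l ∈ Finset.range (4 * g), c l ≠ 0 := by
    by_contra hcon
    push Not at hcon
    apply h0
    rw [hXc]
    apply Finset.sum_eq_zero
    intro l hl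
    rw [hcon l hl, zero_smul]
  refine ⟨((l0 : ℕ) : ZMod (4 * g)), c l0, lt_of_le_of_ne (hc l0) (Ne.symm hc0), ?_⟩
  conv_lhs => rw [hXc]
  apply Finset.sum_eq_single_of_mem l0 hl0
  intro l hl hne'
  have htwo : (1 : ZMod (4 * g)) + 1 ≠ 0 := by
    intro h
    have h' : ((2 : ℕ) : ZMod (4 * g)) = 0 := by rw [← h]; push_cast; norm_num
    rw [ZMod.natCast_eq_zero_iff] at h'
    have := Nat.le_of_dvd (by norm_num) h'
    omega
  by_cases hcl : c l = 0
  · rw [hcl, zero_smul]
  · exfalso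
    apply hne'
    have hinj : ((l : ℕ) : ZMod (4 * g)) = ((l0 : ℕ) : ZMod (4 * g)) := by
      rcases hkey j hj l hl hcl with a1 | a1 <;> rcases hkey j hj l0 hl0 hc0 with a2 | a2
      · rw [a1, a2]
      · rcases hkey k hk l hl hcl with a3 | a3 <;> rcases hkey k hk l0 hl0 hc0 with a4 | a4
        · rw [a3, a4]
        · exact absurd (a1.symm.trans a3) hjk
        · exfalso; apply htwo
          have e1 : j = k + 1 := a1.symm.trans a3
          have e2 : j + 1 = k := a2.symm.trans a4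
          rw [e1] at e2
          have : k + (1 + 1) = k + 0 := by rw [add_zero, ← add_assoc]; exact e2
          exact add_left_cancel this
        · rw [a3, a4]
      · rcases hkey k hk l hl hcl with a3 | a3 <;> rcases hkey k hk l0 hl0 hc0 with a4 | a4
        · rw [a3, a4]
        · exfalso; apply htwo
          have e1 : j + 1 = k := a1.symm.trans a3
          have e2 : j = k + 1 := a2.symm.trans a4
          rw [e2] at e1
          have : k + (1 + 1) = k + 0 := by rw [add_zero, ← add_assoc]; exact e1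
          exact add_left_cancel this
        · exact absurd (a2.symm.trans a4) hjk
        · rw [a3, a4]
      · rw [a1, a2]
    have h5 := congrArg ZMod.val hinj
    rw [ZMod.val_natCast, ZMod.val_natCast, Nat.mod_eq_of_lt (Finset.mem_range.mp hl),
      Nat.mod_eq_of_lt (Finset.mem_range.mp hl0)] at h5
    exact h5

/-- No fixed points. -/
theorem no_fix (hg : 2 ≤ g) {γ : SurfaceGroup g} (hγ : γ ≠ 1) {X : M2} (hs : Sym X)
    (hX : InP g X) (h0 : X ≠ 0) : ga hg γ X ≠ X := by
  have hne : NeZero (4 * g) := ⟨by omega⟩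
  intro hfix
  by_cases hall : ∀ k, 0 < lor (W g k) X
  · exact hγ (interior_lemma hg _ γ X rfl hs hX (by rw [hfix]; exact hall))
  · push Not at hall
    obtain ⟨j, hj⟩ := hall
    have hj0 : lor (W g j) X = 0 := le_antisymm hj (hX j)
    by_cases hex : ∃ k, k ≠ j ∧ lor (W g k) X = 0
    · obtain ⟨k, hkj, hk0⟩ := hex
      obtain ⟨i, c, hc, hXi⟩ := two_walls hg hs hX h0 hkj hk0 hj0
      apply hγ
      apply corner_stab hg i
      rw [hXi, ga_smul] at hfix
      exact smul_right_injective _ hc.ne' hfix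
    · push Not at hex
      have hpos : ∀ k, k ≠ j → 0 < lor (W g k) (ga hg γ X) := by
        intro k hk
        rw [hfix]
        exact lt_of_le_of_ne (hX k) (Ne.symm (hex k hk))
      rcases edge_lemma hg j _ γ X rfl hs hX (by rw [hfix]; exact hj0) hpos with h1 | h1
      · exact hγ h1
      · have hh : h2 g + h2 g = 0 := h2_add_h2
        have hfix' : ga hg (ss g (j + h2 g)) X = X := by
          conv_lhs => rw [← hfix]
          rw [h1, ← ss_inv, ga_inv_self]
        have h3 := sm_wall hg (j + h2 g) hX (by rw [add_assoc, hh, add_zero]; exact hj0)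
        rw [hfix'] at h3
        apply hex (j + h2 g) _ h3.2.1
        intro h4
        have h5 : ((2 * g : ℕ) : ZMod (4 * g)) = 0 := by
          have h6 : j + h2 g = j + 0 := by rw [add_zero]; exact h4
          exact add_left_cancel h6
        rw [ZMod.natCast_eq_zero_iff] at h5
        have := Nat.le_of_dvd (by omega) h5
        omega

end Pool.Agent.AMU.Geo
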