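import Pool.Agent.Lib.AMU.Geo07

/-!
# Row H08: discreteness and covering
-/

set_option autoImplicit false

namespace Pool.Agent.AMU.Geo

open Matrix

variable {g : ℕ}

theorem fro_eq (M : M2) : fro M = (act M 1).trace := by
  unfold fro act
  rw [Matrix.trace_fin_two]
  simp only [Matrix.mul_one, Matrix.mul_apply, Fin.sum_univ_two, Matrix.transpose_apply]
  ring

theorem fro_mul_le (M K : M2) : fro (M * K) ≤ fro M * fro K := by
  unfold fro
  simp only [Matrix.mul_apply, Fin.sum_univ_two]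
  have h : ∀ a b c d : ℝ, (a * c + b * d) ^ 2 ≤ (a ^ 2 + b ^ 2) * (c ^ 2 + d ^ 2) := by
    intro a b c d; nlinarith [sq_nonneg (a * d - b * c)]
  have h1 := h (M 0 0) (M 0 1) (K 0 0) (K 1 0)
  have h2 := h (M 0 0) (M 0 1) (K 0 1) (K 1 1)
  have h3 := h (M 1 0) (M 1 1) (K 0 0) (K 1 0)
  have h4 := h (M 1 0) (M 1 1) (K 0 1) (K 1 1)
  linarith

/-- Nontrivial elements move the center of the polygon by a definite amount. -/
theorem norm_ge (hg : 2 ≤ g) {γ : SurfaceGroup g} (hγ : γ ≠ 1) : 2 * kap g ≤ fro (Hm hg γ) := by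
  have h1 : ¬ ∀ k, 0 < lor (W g k) (ga hg γ 1) := fun h =>
    hγ (interior_lemma hg _ γ 1 rfl sym_one (fun k => (inP_one hg k).le) h)
  push Not at h1
  obtain ⟨k, hk⟩ := h1
  rw [fro_eq]
  have hs : Sym (ga hg γ 1) := ga_sym hg γ sym_one
  have hd : (ga hg γ 1).det = 1 := by rw [ga_det]; simp
  have hpd : PD (ga hg γ 1) := ga_pd hg γ pd_one
  have h11 := pd_pos' hpd
  have h00 := hpd.2.1
  change 2 * kap g ≤ (ga hg γ 1).trace
  set X := ga hg γ 1
  rw [W_eq hg] at hk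
  unfold lor at hk
  unfold Sym at hs
  simp only [Matrix.of_apply, Matrix.cons_val', Matrix.cons_val_zero, Matrix.cons_val_one,
    Matrix.cons_val_fin_one, hs] at hk
  rw [Matrix.det_fin_two, hs] at hd
  rw [Matrix.trace_fin_two]
  set c := Real.cos (2 * k.val * xx g)
  set s := Real.sin (2 * k.val * xx g)
  have hcs : s ^ 2 + c ^ 2 = 1 := Real.sin_sq_add_cos_sq _
  have hκ := one_lt_kap hg
  have hS := SS_pos hg
  have hS2 := SS_sq hg
  set κ := kap g
  set S := SS g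
  set t := X 0 0 + X 1 1
  set u := X 0 0 - X 1 1
  have ht : 0 < t := by positivity
  have e1 : S * t ≤ κ * (c * u - 2 * s * X 0 1) := by
    have : ((S + κ * c) * X 1 1 + (S - κ * c) * X 0 0 + 2 * κ * s * X 0 1) ≤ 0 := by linarith
    have e : S * t - κ * (c * u - 2 * s * X 0 1) =
      ((S + κ * c) * X 1 1 + (S - κ * c) * X 0 0 + 2 * κ * s * X 0 1) := by
      simp only [t, u]; ring
    linarith
  have e2 : (c * u - 2 * s * X 0 1) ^ 2 ≤ t ^ 2 - 4 := by
    have : (c * u - 2 * s * X 0 1) ^ 2 ≤ (s ^ 2 + c ^ 2) * (u ^ 2 + 4 * (X 0 1) ^ 2) := by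
      nlinarith [sq_nonneg (s * u + 2 * c * X 0 1)]
    rw [hcs, one_mul] at this
    have e : u ^ 2 + 4 * (X 0 1) ^ 2 = t ^ 2 - 4 := by
      simp only [t, u]; nlinarith
    linarith
  have e3 : (S * t) ^ 2 ≤ κ ^ 2 * (t ^ 2 - 4) := by
    have h0 : 0 ≤ S * t := by positivity
    calc (S * t) ^ 2 ≤ (κ * (c * u - 2 * s * X 0 1)) ^ 2 := by
          apply pow_le_pow_left₀ h0 e1
      _ = κ ^ 2 * (c * u - 2 * s * X 0 1) ^ 2 := by ring
      _ ≤ _ := by apply mul_le_mul_of_nonneg_left e2 (by positivity)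
  have e4 : (2 * κ) ^ 2 ≤ t ^ 2 := by nlinarith
  exact le_of_sq_le_sq e4 ht.le

private theorem H08a_trace (t : ℝ) (X : M2) : (act (Rt t) X).trace = X.trace := by
  have h : (Rt t)ᵀ * Rt t = 1 := by rw [Rt_transpose, ← Rt_add, neg_add_cancel, Rt_zero]
  unfold act
  rw [Matrix.trace_mul_comm, ← Matrix.mul_assoc, h, Matrix.one_mul]

private theorem H08a_sm (hg : 2 ≤ g) (i : ZMod (4 * g)) (X : M2) :
    act (sm g (i + h2 g)) (act (Rt (i.val * xx g)) X) =
      act (Rt (i.val * xx g)) (act !![kap g - SS g, 0; 0, aa g] X) := by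
  have h1 := sm_opp hg i
  have hh := act_sm_act i (act !![kap g - SS g, 0; 0, aa g] X)
  have h3 : act (T0 g) (act !![kap g - SS g, 0; 0, aa g] X) = X := by
    rw [act_act]
    have : T0 g * !![kap g - SS g, 0; 0, aa g] = 1 := by
      have h1 := aa_mul hg
      unfold T0
      ext a b
      fin_cases a <;> fin_cases b <;> simp [Matrix.mul_apply, Fin.sum_univ_two] <;> linarith
    rw [this, act_one]
  rw [h3] at hh
  rw [← hh, act_act]
  have h4 : sm g (i + h2 g) * sm g i = 1 := by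
    have h5 := mul_eq_one_comm.mp h1
    exact h5
  rw [h4, act_one]

/-- A point which is nearer to the center than to its image under the side pairing lies on the inner
side of the wall. -/
theorem trace_sm (hg : 2 ≤ g) (i : ZMod (4 * g)) (X : M2) (hs : Sym X) :
    (act (sm g (i + h2 g)) X).trace - X.trace = 4 * SS g * lor (W g i) X := by
  obtain ⟨X', hX⟩ : ∃ X', X = act (Rt (i.val * xx g)) X' :=
    ⟨_, (act_inv_right (det_Rt _) X).symm⟩
  have e2 : W g i = act (Rt (i.val * xx g)) (W0 g) := rfl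
  rw [hX, H08a_sm hg, H08a_trace, H08a_trace, e2, lor_act_one (det_Rt _), act_diag,
    Matrix.trace_fin_two, Matrix.trace_fin_two]
  have h1 := aa_mul hg
  have h2 := SS_sq hg
  unfold lor W0 aa at *
  simp only [Matrix.of_apply, Matrix.cons_val', Matrix.cons_val_zero, Matrix.cons_val_one,
    Matrix.cons_val_fin_one]
  linear_combination (X' 0 0 + X' 1 1) * h1

theorem fro_inv {M : M2} (h : M.det = 1) : fro M⁻¹ = fro M := by
  rw [inv_eq h]; unfold fro; simp; ring

/-- Discreteness. -/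
theorem fin_norm (hg : 2 ≤ g) (C : ℝ) : {γ : SurfaceGroup g | fro (Hm hg γ) ≤ C}.Finite := by
  classical
  set R : ℝ := C + 1 with hR
  set Bx : Set M2 := {M : M2 | (∀ i j, M i j ∈ Set.Icc (-R) R) ∧ M.det = 1} with hBx
  have hcomp0 : IsCompact {M : M2 | ∀ i j, M i j ∈ Set.Icc (-R) R} := by
    have h := isCompact_univ_pi (fun _ : Fin 2 => isCompact_univ_pi
      (fun _ : Fin 2 => (isCompact_Icc : IsCompact (Set.Icc (-R) R))))
    have e : {M : M2 | ∀ i j, M i j ∈ Set.Icc (-R) R} =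
        (Set.univ.pi fun _ : Fin 2 => Set.univ.pi fun _ : Fin 2 => Set.Icc (-R) R) := by
      ext M
      constructor
      · intro hM i _ j _
        exact hM i j
      · intro hM i j
        exact hM i (Set.mem_univ i) j (Set.mem_univ j)
    rw [e]; exact h
  have hdetc : Continuous fun M : M2 => M.det := Continuous.matrix_det continuous_id
  have hcomp : IsCompact Bx := by
    have : Bx = {M : M2 | ∀ i j, M i j ∈ Set.Icc (-R) R} ∩ {M : M2 | M.det = 1} := by
      ext M; rfl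
    rw [this]
    exact hcomp0.inter_right (isClosed_eq hdetc continuous_const)
  have hentry : ∀ (i j : Fin 2), Continuous fun M : M2 => M i j := fun i j =>
    continuous_id.matrix_elem i j
  -- the quadratic form of the quotient
  let F : M2 × M2 → ℝ := fun p =>
    (p.1 1 1 * p.2 0 0 - p.1 0 1 * p.2 1 0) ^ 2 + (p.1 1 1 * p.2 0 1 - p.1 0 1 * p.2 1 1) ^ 2 +
    (-p.1 1 0 * p.2 0 0 + p.1 0 0 * p.2 1 0) ^ 2 + (-p.1 1 0 * p.2 0 1 + p.1 0 0 * p.2 1 1) ^ 2
  have hF : Continuous F := by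
    have a : ∀ i j : Fin 2, Continuous fun p : M2 × M2 => p.1 i j := fun i j =>
      (hentry i j).comp continuous_fst
    have b : ∀ i j : Fin 2, Continuous fun p : M2 × M2 => p.2 i j := fun i j =>
      (hentry i j).comp continuous_snd
    have a00 := a 0 0
    have a01 := a 0 1
    have a10 := a 1 0
    have a11 := a 1 1
    have b00 := b 0 0
    have b01 := b 0 1
    have b10 := b 1 0
    have b11 := b 1 1
    fun_prop
  have hFq : ∀ γ δ : SurfaceGroup g, F (Hm hg γ, Hm hg δ) = fro (Hm hg (γ⁻¹ * δ)) := by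
    intro γ δ
    rw [Hm_mul, Hm_inv, inv_eq (det_Hm hg γ)]
    simp only [F, fro, Matrix.mul_apply, Fin.sum_univ_two, Matrix.of_apply, Matrix.cons_val',
      Matrix.cons_val_zero, Matrix.cons_val_one, Matrix.cons_val_fin_one]
    ring
  have hFs : ∀ M : M2, M.det = 1 → F (M, M) = 2 := by
    intro M hM
    rw [Matrix.det_fin_two] at hM
    simp only [F]
    have e1 : M 1 1 * M 0 1 - M 0 1 * M 1 1 = 0 := by ring
    have e2 : -M 1 0 * M 0 0 + M 0 0 * M 1 0 = 0 := by ring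
    have e3 : M 1 1 * M 0 0 - M 0 1 * M 1 0 = 1 := by linarith
    have e4 : -M 1 0 * M 0 1 + M 0 0 * M 1 1 = 1 := by linarith
    rw [e1, e2, e3, e4]; norm_num
  have hk := one_lt_kap hg
  have hU : ∀ M ∈ Bx, ∃ U ∈ nhds M, ∀ A ∈ U, ∀ B ∈ U, F (A, B) < 2 * kap g := by
    intro M hM
    have h1 : ∀ᶠ p in nhds (M, M), F p < 2 * kap g :=
      (hF.tendsto (M, M)).eventually_lt_const (by rw [hFs M hM.2]; linarith)
    rw [nhds_prod_eq] at h1
    obtain ⟨U, hU, V, hV, hUV⟩ := Filter.mem_prod_iff.mp h1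
    exact ⟨U ∩ V, Filter.inter_mem hU hV, fun A hA B hB => hUV ⟨hA.1, hB.2⟩⟩
  choose! U hUn hUF using hU
  obtain ⟨t, ht, hcov⟩ := hcomp.elim_nhds_subcover U hUn
  have hsub : ∀ x ∈ t, {γ : SurfaceGroup g | Hm hg γ ∈ U x}.Finite := by
    intro x hx
    apply Set.Subsingleton.finite
    intro γ hγ δ hδ
    have h1 := hUF x (ht x hx) _ hγ _ hδ
    rw [hFq] at h1
    by_contra hne
    have h2 : γ⁻¹ * δ ≠ 1 := by
      intro h; apply hne; rw [inv_mul_eq_one] at h; exact h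
    have := norm_ge hg h2
    linarith
  apply ((t.finite_toSet).biUnion hsub).subset
  intro γ hγ
  change fro (Hm hg γ) ≤ C at hγ
  have hmem : Hm hg γ ∈ Bx := by
    refine ⟨fun i j => ?_, det_Hm hg γ⟩
    have h1 : (Hm hg γ i j) ^ 2 ≤ C := by
      refine le_trans ?_ hγ
      unfold fro
      fin_cases i <;> fin_cases j <;> simp <;> nlinarith [sq_nonneg (Hm hg γ 0 0),
        sq_nonneg (Hm hg γ 0 1), sq_nonneg (Hm hg γ 1 0), sq_nonneg (Hm hg γ 1 1)]
    constructor <;> nlinarith [sq_nonneg (Hm hg γ i j - 1), sq_nonneg (Hm hg γ i j + 1)]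
  have h2 := hcov hmem
  simp only [Set.mem_iUnion] at h2 ⊢
  obtain ⟨x, hx, hxU⟩ := h2
  exact ⟨x, hx, hxU⟩

/-- The tiles cover the plane. -/
theorem cover (hg : 2 ≤ g) {h : M2} (hh : h.det = 1) :
    ∃ γ : SurfaceGroup g, InP g (ga hg γ (act h 1)) := by
  have hφ : ∀ γ : SurfaceGroup g, fro (Hm hg γ * h) = (ga hg γ (act h 1)).trace := by
    intro γ; rw [fro_eq]; unfold ga; rw [act_act]
  have hfin : {γ : SurfaceGroup g | fro (Hm hg γ * h) ≤ fro (Hm hg 1 * h)}.Finite := by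
    apply (fin_norm hg (fro (Hm hg 1 * h) * fro h⁻¹)).subset
    intro γ hγ
    change fro (Hm hg γ * h) ≤ fro (Hm hg 1 * h) at hγ
    change fro (Hm hg γ) ≤ fro (Hm hg 1 * h) * fro h⁻¹
    have e : Hm hg γ = Hm hg γ * h * h⁻¹ := by
      rw [Matrix.mul_assoc, Matrix.mul_nonsing_inv _ (by rw [hh]; exact isUnit_one),
        Matrix.mul_one]
    have h0 : 0 ≤ fro h⁻¹ := by unfold fro; positivity
    calc fro (Hm hg γ) = fro (Hm hg γ * h * h⁻¹) := by rw [← e]
      _ ≤ fro (Hm hg γ * h) * fro h⁻¹ := fro_mul_le _ _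
      _ ≤ _ := mul_le_mul_of_nonneg_right hγ h0
  obtain ⟨γ, hγ, hmin⟩ := Set.exists_min_image _ (fun γ : SurfaceGroup g => fro (Hm hg γ * h))
    hfin ⟨1, le_refl (fro (Hm hg 1 * h))⟩
  refine ⟨γ, fun i => ?_⟩
  have hall : ∀ δ : SurfaceGroup g, fro (Hm hg γ * h) ≤ fro (Hm hg δ * h) := by
    intro δ
    by_cases hδ : fro (Hm hg δ * h) ≤ fro (Hm hg 1 * h)
    · exact hmin δ hδ
    · exact le_trans hγ (not_le.mp hδ).le
  have h1 := hall (ss g (i + h2 g) * γ)
  rw [hφ, hφ, ga_mul, ga_ss] at h1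
  have h2 := trace_sm hg i (ga hg γ (act h 1)) (ga_sym hg γ (act_sym h sym_one))
  have h3 := SS_pos hg
  have h4 : 0 ≤ 4 * SS g * lor (W g i) (ga hg γ (act h 1)) := by rw [← h2]; linarith
  exact nonneg_of_mul_nonneg_right h4 (by positivity)

/-- The tiles cover the plane (for positive definite forms). -/
theorem cover_pd (hg : 2 ≤ g) {X : M2} (hX : PD X) : ∃ γ : SurfaceGroup g, InP g (ga hg γ X) := by
  have hd : 0 < X.det := hX.2.2
  set c := Real.sqrt X.det with hc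
  have hc0 : 0 < c := Real.sqrt_pos.mpr hd
  have hc2 : c ^ 2 = X.det := Real.sq_sqrt hd.le
  have h1 : PD (c⁻¹ • X) := pd_smul hX (inv_pos.mpr hc0)
  have h2 : (c⁻¹ • X).det = 1 := by
    rw [Matrix.det_smul, Fintype.card_fin, ← hc2]
    field_simp
  obtain ⟨h, hh, he⟩ := exists_factor h1 h2
  obtain ⟨γ, hγ⟩ := cover hg hh
  refine ⟨γ, ?_⟩
  have e : X = c • act h 1 := by
    rw [← he, smul_smul, mul_inv_cancel₀ hc0.ne', one_smul]
  rw [e, ga_smul]
  exact inP_smul hγ hc0.le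

end Pool.Agent.AMU.Geo
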