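import Pool.Agent.Lib.AMU.Geo08

/-!
# Row H09: all nontrivial elements are hyperbolic
-/

set_option autoImplicit false

namespace Pool.Agent.AMU.Geo

open Matrix

variable {g : ℕ}

/-- The displacement of a point: `fro (p⁻¹ M p) = 2 lor X (M X)` for `X = p pᵀ`. -/
theorem fro_conj {p M : M2} (hp : p.det = 1) (hM : M.det = 1) :
    fro (p⁻¹ * M * p) = 2 * lor (act p 1) (act M (act p 1)) := by
  rw [inv_eq hp]
  unfold fro lor act
  simp only [Matrix.mul_apply, Fin.sum_univ_two, Matrix.transpose_apply, Matrix.of_apply,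
    Matrix.cons_val', Matrix.cons_val_zero, Matrix.cons_val_one, Matrix.cons_val_fin_one,
    Matrix.one_apply, Fin.isValue]
  simp only [if_true, if_false, Fin.isValue, one_ne_zero, zero_ne_one, reduceCtorEq]
  ring

theorem fro_upper (M : M2) {t x : ℝ} (ht : t ≠ 0) :
    fro ((!![t, x / t; 0, 1 / t] : M2)⁻¹ * M * !![t, x / t; 0, 1 / t]) =
      (M 0 0 - x * M 1 0) ^ 2 + ((M 0 0 - x * M 1 0) * x + M 0 1 - x * M 1 1) ^ 2 / (t ^ 2) ^ 2 +
        M 1 0 ^ 2 * (t ^ 2) ^ 2 + (M 1 0 * x + M 1 1) ^ 2 := by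
  have hd : (!![t, x / t; 0, 1 / t] : M2).det = 1 := by
    rw [Matrix.det_fin_two_of]; field_simp; ring
  rw [inv_eq hd]
  unfold fro
  simp only [Matrix.mul_apply, Fin.sum_univ_two, Matrix.of_apply,
    Matrix.cons_val', Matrix.cons_val_zero, Matrix.cons_val_one, Matrix.cons_val_fin_one,
    Fin.isValue]
  field_simp
  ring

/-- Elements of trace at most two have arbitrarily small displacement. -/
theorem inf_disp {M : M2} (hM : M.det = 1) (ht : |M.trace| ≤ 2) {ε : ℝ} (hε : 0 < ε) :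
    ∃ h : M2, h.det = 1 ∧ fro (h⁻¹ * M * h) < 2 + ε := by
  rw [Matrix.det_fin_two] at hM
  rw [Matrix.trace_fin_two, abs_le] at ht
  -- it is enough to find the square `u = t ^ 4`
  have key : ∀ (x u : ℝ), 0 < u →
      (M 0 0 - x * M 1 0) ^ 2 + ((M 0 0 - x * M 1 0) * x + M 0 1 - x * M 1 1) ^ 2 / u +
        M 1 0 ^ 2 * u + (M 1 0 * x + M 1 1) ^ 2 < 2 + ε →
      ∃ h : M2, h.det = 1 ∧ fro (h⁻¹ * M * h) < 2 + ε := by
    intro x u hu hlt
    have hv : 0 < Real.sqrt u := Real.sqrt_pos.2 hu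
    have ht0 : 0 < Real.sqrt (Real.sqrt u) := Real.sqrt_pos.2 hv
    refine ⟨!![Real.sqrt (Real.sqrt u), x / Real.sqrt (Real.sqrt u); 0,
      1 / Real.sqrt (Real.sqrt u)], ?_, ?_⟩
    · rw [Matrix.det_fin_two_of]; field_simp; ring
    · rw [fro_upper M ht0.ne', Real.sq_sqrt hv.le, Real.sq_sqrt hu.le]
      exact hlt
  by_cases hc : M 1 0 = 0
  · have h1 : M 0 0 * M 1 1 = 1 := by rw [hc] at hM; linarith
    have h2 : (M 0 0 - M 1 1) ^ 2 ≤ 0 := by
      nlinarith [mul_nonneg (sub_nonneg.2 ht.2) (by linarith : 0 ≤ M 0 0 + M 1 1 + 2)]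
    have h3 : M 0 0 = M 1 1 := by
      have h4 : M 0 0 - M 1 1 = 0 := by
        have := pow_eq_zero_iff (two_ne_zero) |>.1 (le_antisymm h2 (sq_nonneg _))
        exact this
      linarith
    refine key 0 ((M 0 1 ^ 2 + 1) / ε) (by positivity) ?_
    rw [hc]
    have h5 : (M 0 1) ^ 2 / ((M 0 1 ^ 2 + 1) / ε) < ε := by
      rw [div_div_eq_mul_div, div_lt_iff₀ (by positivity)]
      nlinarith
    have h6 : M 0 0 ^ 2 = 1 := by rw [← h1]; rw [← h3]; ring
    have h7 : M 1 1 ^ 2 = 1 := by rw [← h3]; exact h6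
    simp only [mul_zero, sub_zero, zero_mul, zero_add]
    nlinarith
  · -- equal diagonal entries
    set x := (M 0 0 - M 1 1) / (2 * M 1 0) with hx
    have hx' : x * M 1 0 = (M 0 0 - M 1 1) / 2 := by rw [hx]; field_simp
    set m := (M 0 0 + M 1 1) / 2 with hm
    have e1 : M 0 0 - x * M 1 0 = m := by rw [hx', hm]; ring
    have e2 : M 1 0 * x + M 1 1 = m := by rw [mul_comm, hx', hm]; ring
    set b := (M 0 0 - x * M 1 0) * x + M 0 1 - x * M 1 1 with hb
    have e3 : b * M 1 0 = m ^ 2 - 1 := by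
      have h8 : M 0 0 * M 1 1 - M 0 1 * M 1 0 = 1 := hM
      have h9 : b * M 1 0 = (M 0 0 - x * M 1 0) * (x * M 1 0) + M 0 1 * M 1 0 -
          (x * M 1 0) * M 1 1 := by rw [hb]; ring
      rw [h9, e1, hx']
      have : M 0 1 * M 1 0 = M 0 0 * M 1 1 - 1 := by linarith
      rw [this, hm]; ring
    have hm1 : m ^ 2 ≤ 1 := by
      rw [hm]; nlinarith [mul_nonneg (sub_nonneg.2 ht.2) (by linarith : 0 ≤ M 0 0 + M 1 1 + 2)]
    have hfin : ∀ u : ℝ, 0 < u → (b + M 1 0 * u) ^ 2 / u < ε →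
        ∃ h : M2, h.det = 1 ∧ fro (h⁻¹ * M * h) < 2 + ε := by
      intro u hu hlt
      refine key x u hu ?_
      rw [← hb, e1, e2]
      have h10 : m ^ 2 + b ^ 2 / u + M 1 0 ^ 2 * u + m ^ 2 = 2 + (b + M 1 0 * u) ^ 2 / u := by
        field_simp
        nlinarith [e3]
      rw [h10]; linarith
    by_cases hb0 : b = 0
    · refine hfin (ε / (2 * M 1 0 ^ 2)) (by positivity) ?_
      rw [hb0, zero_add]
      have h11 : (M 1 0 * (ε / (2 * M 1 0 ^ 2))) ^ 2 / (ε / (2 * M 1 0 ^ 2)) = ε / 2 := by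
        field_simp
      rw [h11]; linarith
    · have h12 : 0 < -(b / M 1 0) := by
        have h13 : b * M 1 0 ≤ 0 := by rw [e3]; linarith
        have h14 : b * M 1 0 ≠ 0 := mul_ne_zero hb0 hc
        have h15 : b * M 1 0 < 0 := lt_of_le_of_ne h13 h14
        have h16 : b / M 1 0 = b * M 1 0 / M 1 0 ^ 2 := by field_simp
        rw [h16, neg_pos]
        exact div_neg_of_neg_of_pos h15 (by positivity)
      refine hfin (-(b / M 1 0)) h12 ?_
      have h17 : b + M 1 0 * -(b / M 1 0) = 0 := by field_simp; ring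
      rw [h17]
      simpa using hε

theorem lor_one_left (Y : M2) : lor 1 Y = (Y 0 0 + Y 1 1) / 2 := by
  unfold lor
  simp
  ring

/-- Reverse Cauchy-Schwarz for two points. -/
theorem one_le_lor {X Y : M2} (hX : PD X) (hY : PD Y) (hx : X.det = 1) (hy : Y.det = 1) :
    1 ≤ lor X Y := by
  obtain ⟨h, hh, rfl⟩ := exists_factor hX hx
  rw [lor_act_left hh, lor_one_left]
  have hY' : PD (act h⁻¹ Y) := pd_act (by rw [det_inv_one hh]; exact one_ne_zero) hY
  have hd : (act h⁻¹ Y).det = 1 := by rw [det_act, det_inv_one hh, hy]; ring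
  set Z := act h⁻¹ Y
  have h11 := pd_pos' hY'
  obtain ⟨h1, h2, _⟩ := hY'
  rw [Matrix.det_fin_two, h1] at hd
  nlinarith [sq_nonneg (Z 0 0 - Z 1 1), sq_nonneg (Z 0 1)]

theorem eq_of_lor_eq_one {X Y : M2} (hX : PD X) (hY : PD Y) (hx : X.det = 1) (hy : Y.det = 1)
    (h : lor X Y = 1) : X = Y := by
  obtain ⟨p, hp, rfl⟩ := exists_factor hX hx
  rw [lor_act_left hp, lor_one_left] at h
  have hY' : PD (act p⁻¹ Y) := pd_act (by rw [det_inv_one hp]; exact one_ne_zero) hY
  have hd : (act p⁻¹ Y).det = 1 := by rw [det_act, det_inv_one hp, hy]; ring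
  have key : act p⁻¹ Y = 1 := by
    set Z := act p⁻¹ Y
    have h11 := pd_pos' hY'
    obtain ⟨h1, h2, _⟩ := hY'
    rw [Matrix.det_fin_two, h1] at hd
    have e1 : Z 1 1 = 2 - Z 0 0 := by linarith
    have e2 : (Z 0 0 - 1) ^ 2 + Z 0 1 ^ 2 = 0 := by rw [e1] at hd; nlinarith
    have e3 : Z 0 0 = 1 := by nlinarith [sq_nonneg (Z 0 0 - 1), sq_nonneg (Z 0 1)]
    have e4 : Z 0 1 = 0 := by
      have : Z 0 1 ^ 2 = 0 := by nlinarith [sq_nonneg (Z 0 0 - 1), sq_nonneg (Z 0 1)]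
      exact pow_eq_zero_iff two_ne_zero |>.1 this
    ext i j
    fin_cases i <;> fin_cases j <;> simp
    · exact e3
    · exact e4
    · rw [h1, e4]
    · rw [e1, e3]; norm_num
  rw [← key, act_inv_right hp]

private theorem H09b_compact (hg : 2 ≤ g) :
    IsCompact {X : M2 | Sym X ∧ InP g X ∧ X.det = 1} := by
  have hentry : ∀ (i j : Fin 2), Continuous fun M : M2 => M i j := fun i j =>
    continuous_id.matrix_elem i j
  set R : ℝ := 2 * kap g ^ 2 with hR
  have hcomp0 : IsCompact {M : M2 | ∀ i j, M i j ∈ Set.Icc (-R) R} := by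
    have h := isCompact_univ_pi (fun _ : Fin 2 => isCompact_univ_pi
      (fun _ : Fin 2 => (isCompact_Icc : IsCompact (Set.Icc (-R) R))))
    have e : {M : M2 | ∀ i j, M i j ∈ Set.Icc (-R) R} =
        (Set.univ.pi fun _ : Fin 2 => Set.univ.pi fun _ : Fin 2 => Set.Icc (-R) R) := by
      ext M
      constructor
      · intro hM i _ j _
        exact hM i j
      · intro hM i j
        exact hM i (Set.mem_univ i) j (Set.mem_univ j)
    rw [e]; exact h
  have hcl : IsClosed {X : M2 | Sym X ∧ InP g X ∧ X.det = 1} := by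
    have h1 : IsClosed {X : M2 | Sym X} := isClosed_eq (hentry 1 0) (hentry 0 1)
    have h2 : IsClosed {X : M2 | InP g X} := by
      have : {X : M2 | InP g X} = ⋂ k : ZMod (4 * g), {X : M2 | 0 ≤ lor (W g k) X} := by
        ext X; simp [InP]
      rw [this]
      refine isClosed_iInter fun k => isClosed_le continuous_const ?_
      unfold lor
      have a := hentry 0 0
      have b := hentry 0 1
      have c := hentry 1 0
      have d := hentry 1 1
      fun_prop
    have h3 : IsClosed {X : M2 | X.det = 1} :=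
      isClosed_eq (Continuous.matrix_det continuous_id) continuous_const
    exact h1.inter (h2.inter h3)
  refine hcomp0.of_isClosed_subset hcl ?_
  rintro X ⟨hs, hX, hd⟩
  have h0 : X ≠ 0 := by rintro rfl; simp at hd
  have hpd := pd_of_inP hg hs hX h0
  have ht := trace_le hg hs hX hd
  have h11 := pd_pos' hpd
  obtain ⟨_, h00, hdet⟩ := hpd
  rw [Matrix.trace_fin_two] at ht
  rw [Matrix.det_fin_two] at hd
  unfold Sym at hs
  have h01 : (X 0 1) ^ 2 < (X 0 0 + X 1 1) ^ 2 := by rw [hs] at hd; nlinarith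
  have h01' : |X 0 1| < X 0 0 + X 1 1 := abs_lt_of_sq_lt_sq h01 (by linarith)
  have h01'' := abs_lt.mp h01'
  intro i j
  fin_cases i <;> fin_cases j
  · exact ⟨by simp only [Fin.zero_eta]; linarith, by simp only [Fin.zero_eta]; linarith⟩
  · exact ⟨by simp only [Fin.zero_eta, Fin.mk_one]; linarith [h01''.1],
      by simp only [Fin.zero_eta, Fin.mk_one]; linarith [h01''.2]⟩
  · refine ⟨?_, ?_⟩
    · simp only [Fin.zero_eta, Fin.mk_one]; rw [hs]; linarith [h01''.1]
    · simp only [Fin.zero_eta, Fin.mk_one]; rw [hs]; linarith [h01''.2]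
  · exact ⟨by simp only [Fin.mk_one]; linarith, by simp only [Fin.mk_one]; linarith⟩

private theorem H09b_fro (hg : 2 ≤ g) (γ : SurfaceGroup g) {X : M2} (hs : Sym X)
    (hX : InP g X) (hd : X.det = 1) :
    fro (Hm hg γ) ≤ (2 * kap g ^ 2) ^ 2 * (2 * lor X (ga hg γ X)) := by
  have h0 : X ≠ 0 := by rintro rfl; simp at hd
  have hpd := pd_of_inP hg hs hX h0
  obtain ⟨p, hp, hXp⟩ := exists_factor hpd hd
  have ht := trace_le hg hs hX hd
  have hu : IsUnit p.det := by rw [hp]; exact isUnit_one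
  have e : Hm hg γ = p * (p⁻¹ * Hm hg γ * p) * p⁻¹ := by
    have h1 : p * p⁻¹ = 1 := Matrix.mul_nonsing_inv _ hu
    calc Hm hg γ = (p * p⁻¹) * Hm hg γ * (p * p⁻¹) := by rw [h1]; simp
      _ = _ := by simp only [Matrix.mul_assoc]
  have hfp : fro p = X.trace := by rw [fro_eq, hXp]
  have hc := fro_conj hp (det_Hm hg γ)
  rw [← hXp] at hc
  have hn : ∀ M : M2, 0 ≤ fro M := fun M => by unfold fro; positivity
  have hXt : 0 ≤ X.trace := by rw [← hfp]; exact hn _
  have hlor : 0 ≤ 2 * lor X (act (Hm hg γ) X) := by rw [← hc]; exact hn _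
  calc fro (Hm hg γ) = fro (p * (p⁻¹ * Hm hg γ * p) * p⁻¹) := by rw [← e]
    _ ≤ fro (p * (p⁻¹ * Hm hg γ * p)) * fro p⁻¹ := fro_mul_le _ _
    _ ≤ (fro p * fro (p⁻¹ * Hm hg γ * p)) * fro p⁻¹ :=
        mul_le_mul_of_nonneg_right (fro_mul_le _ _) (hn _)
    _ = X.trace ^ 2 * (2 * lor X (act (Hm hg γ) X)) := by rw [fro_inv hp, hfp, hc]; ring
    _ ≤ _ := by
        apply mul_le_mul_of_nonneg_right _ hlor
        exact pow_le_pow_left₀ hXt ht 2

private theorem H09b_one (hg : 2 ≤ g) (γ : SurfaceGroup g) (hγ : γ ≠ 1) :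
    ∃ m : ℝ, 1 < m ∧ ∀ X : M2, Sym X → InP g X → X.det = 1 → m ≤ lor X (ga hg γ X) := by
  have hc : ContinuousOn (fun X : M2 => lor X (ga hg γ X)) {X : M2 | Sym X ∧ InP g X ∧ X.det = 1} := by
    apply Continuous.continuousOn
    have hentry : ∀ (i j : Fin 2), Continuous fun M : M2 => M i j := fun i j =>
      continuous_id.matrix_elem i j
    have hact : Continuous fun X : M2 => ga hg γ X := by
      unfold ga act
      fun_prop
    have a := hentry 0 0
    have b := hentry 0 1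
    have c := hentry 1 0
    have d := hentry 1 1
    have a' := (hentry 0 0).comp hact
    have b' := (hentry 0 1).comp hact
    have c' := (hentry 1 0).comp hact
    have d' := (hentry 1 1).comp hact
    simp only [Function.comp_def] at a' b' c' d'
    unfold lor
    fun_prop
  obtain ⟨X, hX, hmin⟩ := (H09b_compact hg).exists_isMinOn
    ⟨1, sym_one, fun k => (inP_one hg k).le, by simp⟩ hc
  obtain ⟨hs, hP, hd⟩ := hX
  have h0 : X ≠ 0 := by rintro rfl; simp at hd
  have hpd := pd_of_inP hg hs hP h0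
  have hpd' : PD (ga hg γ X) := ga_pd hg γ hpd
  have hd' : (ga hg γ X).det = 1 := by rw [ga_det, hd]
  refine ⟨lor X (ga hg γ X), ?_, fun Y hY1 hY2 hY3 => hmin ⟨hY1, hY2, hY3⟩⟩
  refine lt_of_le_of_ne (one_le_lor hpd hpd' hd hd') fun h => ?_
  exact no_fix hg hγ hs hP h0 (eq_of_lor_eq_one hpd hpd' hd hd' h.symm).symm

/-- A uniform lower bound for the displacement on the polygon. -/
theorem disp_bound (hg : 2 ≤ g) : ∃ m : ℝ, 1 < m ∧ ∀ γ : SurfaceGroup g, γ ≠ 1 → ∀ X : M2,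
    Sym X → InP g X → X.det = 1 → m ≤ lor X (ga hg γ X) := by
  have hfin := fin_norm hg ((2 * kap g ^ 2) ^ 2 * 4)
  have key : ∀ S : Set (SurfaceGroup g), S.Finite → ∃ m : ℝ, 1 < m ∧ m ≤ 2 ∧ ∀ γ ∈ S, γ ≠ 1 →
      ∀ X : M2, Sym X → InP g X → X.det = 1 → m ≤ lor X (ga hg γ X) := by
    intro S hS
    induction S, hS using Set.Finite.induction_on with
    | empty => exact ⟨2, by norm_num, le_refl _, by simp⟩
    | @insert γ S _ _ ih =>
      obtain ⟨m, h1, h2, h3⟩ := ih
      by_cases hγ : γ = 1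
      · refine ⟨m, h1, h2, fun δ hδ hne => ?_⟩
        rcases Set.mem_insert_iff.mp hδ with h | h
        · exact absurd (h.trans hγ) hne
        · exact h3 δ h hne
      · obtain ⟨m', h4, h5⟩ := H09b_one hg γ hγ
        refine ⟨min m m', lt_min h1 h4, le_trans (min_le_left _ _) h2, fun δ hδ hne X a b c => ?_⟩
        rcases Set.mem_insert_iff.mp hδ with h | h
        · rw [h]; exact le_trans (min_le_right _ _) (h5 X a b c)
        · exact le_trans (min_le_left _ _) (h3 δ h hne X a b c)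
  obtain ⟨m, h1, h2, h3⟩ := key _ hfin
  refine ⟨m, h1, fun γ hγ X hs hX hd => ?_⟩
  by_cases hle : fro (Hm hg γ) ≤ (2 * kap g ^ 2) ^ 2 * 4
  · exact h3 γ hle hγ X hs hX hd
  · push Not at hle
    have h4 := H09b_fro hg γ hs hX hd
    have hk := one_lt_kap hg
    have h5 : (2 * kap g ^ 2) ^ 2 * 4 < (2 * kap g ^ 2) ^ 2 * (2 * lor X (ga hg γ X)) :=
      lt_of_lt_of_le hle h4
    have h6 : 0 < (2 * kap g ^ 2) ^ 2 := by positivity
    have h7 := lt_of_mul_lt_mul_left h5 h6.le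
    linarith

/-- All nontrivial elements are hyperbolic. -/
theorem hyp (hg : 2 ≤ g) (γ : SurfaceGroup g) (hγ : γ ≠ 1) : 2 < |(Hm hg γ).trace| := by
  by_contra hc
  push Not at hc
  obtain ⟨m, hm, hb⟩ := disp_bound hg
  obtain ⟨h, hh, hf⟩ := inf_disp (det_Hm hg γ) hc (ε := 2 * m - 2) (by linarith)
  rw [fro_conj hh (det_Hm hg γ)] at hf
  obtain ⟨δ, hδ⟩ := cover hg hh
  have hne : δ * γ * δ⁻¹ ≠ 1 := by
    intro h1
    apply hγ
    have : γ = δ⁻¹ * (δ * γ * δ⁻¹) * δ := by group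
    rw [this, h1]; group
  have h2 := hb (δ * γ * δ⁻¹) hne (ga hg δ (act h 1)) (ga_sym hg δ (act_sym _ sym_one)) hδ
    (by rw [ga_det, det_act, hh]; simp)
  rw [← ga_mul, inv_mul_cancel_right, ga_mul, lor_ga] at h2
  change 2 * lor (act h 1) (ga hg γ (act h 1)) < 2 + (2 * m - 2) at hf
  linarith

end Pool.Agent.AMU.Geo
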