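import Pool.Agent.Lib.AMU.Geo09

/-!
# Row H10: elements which cross the polygon
-/

set_option autoImplicit false

namespace Pool.Agent.AMU.Geo

open Matrix

variable {g : ℕ}

theorem onR_iff (hg : 2 ≤ g) (γ : SurfaceGroup g) (i : ZMod (4 * g)) :
    OnR (hol hg) (Q g) γ i ↔ 0 < axN (Hm hg γ) (Q g i) := Iff.rfl

private theorem H10a_pert (f : M2 →ₗ[ℝ] ℝ) {x y : ℝ} (h : 0 < f !![x * x, x * y; x * y, y * y]) :
    ∃ X : M2, PD X ∧ 0 < f X := by
  set q := f !![x * x, x * y; x * y, y * y] with hq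
  obtain ⟨ε, hε⟩ : ∃ ε, ε = q / (2 * (|f 1| + 1)) := ⟨_, rfl⟩
  have hε0 : 0 < ε := by rw [hε]; positivity
  refine ⟨!![x * x, x * y; x * y, y * y] + ε • (1 : M2), ⟨?_, ?_, ?_⟩, ?_⟩
  · simp
  · simp only [Matrix.add_apply, Matrix.smul_apply, Matrix.one_apply_eq, smul_eq_mul, mul_one,
      Matrix.of_apply, Matrix.cons_val', Matrix.cons_val_zero, Matrix.cons_val_fin_one]
    nlinarith [mul_self_nonneg x]
  · rw [Matrix.det_fin_two]
    simp
    nlinarith [mul_self_nonneg x, mul_self_nonneg y, mul_pos hε0 hε0,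
      mul_nonneg hε0.le (mul_self_nonneg x), mul_nonneg hε0.le (mul_self_nonneg y)]
  · rw [map_add, map_smul, smul_eq_mul, ← hq]
    have h1 : ε * |f 1| ≤ q / 2 := by
      rw [hε]
      have h2 : q / (2 * (|f 1| + 1)) * |f 1| = (q / 2) * (|f 1| / (|f 1| + 1)) := by
        field_simp
      have h3 : |f 1| / (|f 1| + 1) ≤ 1 := by
        rw [div_le_one (by positivity)]
        linarith
      rw [h2]
      nlinarith
    have h4 : -(ε * |f 1|) ≤ ε * f 1 := by
      have := neg_abs_le (f 1)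
      nlinarith
    linarith

private theorem H10a_two {M : M2} {x y x' y' : ℝ}
    (h : axN M !![x * x, x * y; x * y, y * y] * axN M !![x' * x', x' * y'; x' * y', y' * y'] < 0) :
    (∃ X : M2, PD X ∧ 0 < axN M X) ∧ (∃ X : M2, PD X ∧ axN M X < 0) := by
  have key : ∀ {s t s' t' : ℝ}, 0 < axN M !![s * s, s * t; s * t, t * t] →
      axN M !![s' * s', s' * t'; s' * t', t' * t'] < 0 →
      (∃ X : M2, PD X ∧ 0 < axN M X) ∧ (∃ X : M2, PD X ∧ axN M X < 0) := by
    intro s t s' t' h1 h2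
    refine ⟨H10a_pert (axL M) h1, ?_⟩
    obtain ⟨X, hX, hf⟩ := H10a_pert (-axL M) (x := s') (y := t') (by
      rw [LinearMap.neg_apply]
      exact neg_pos.2 h2)
    refine ⟨X, hX, ?_⟩
    rw [LinearMap.neg_apply] at hf
    exact neg_pos.1 hf
  rcases mul_neg_iff.1 h with ⟨h1, h2⟩ | ⟨h1, h2⟩
  · exact key h1 h2
  · exact key h2 h1

/-- A hyperbolic matrix has points on both sides of its axis. -/
theorem exists_both {M : M2} (hM : M.det = 1) (ht : 2 < |M.trace|) :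
    (∃ X : M2, PD X ∧ 0 < axN M X) ∧ (∃ X : M2, PD X ∧ axN M X < 0) := by
  rw [Matrix.trace_fin_two] at ht
  rw [Matrix.det_fin_two] at hM
  have hT : 4 < (M 0 0 + M 1 1) ^ 2 := by
    rw [← sq_abs]
    nlinarith
  have hdisc : 0 < (M 0 0 - M 1 1) ^ 2 + 4 * (M 0 1 * M 1 0) := by nlinarith
  have hT0 : 0 < (M 0 0 + M 1 1) ^ 2 := by linarith
  have hF : ∀ x y : ℝ, axN M !![x * x, x * y; x * y, y * y] =
      (M 0 0 + M 1 1) * (-(M 1 0 * (x * x)) + (M 0 0 - M 1 1) * (x * y) + M 0 1 * (y * y)) := by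
    intro x y
    rw [axN_eq]
    simp only [Matrix.of_apply, Matrix.cons_val', Matrix.cons_val_zero, Matrix.cons_val_one,
      Matrix.cons_val_fin_one]
    ring
  by_cases hb : M 0 1 = 0
  · by_cases hc : M 1 0 = 0
    · refine H10a_two (x := 1) (y := 1) (x' := 1) (y' := -1) ?_
      rw [hF, hF, hb, hc]
      rw [hb, zero_mul, mul_zero, add_zero] at hdisc
      have := mul_pos hT0 hdisc
      nlinarith
    · refine H10a_two (x := 1) (y := 0) (x' := M 0 0 - M 1 1) (y' := 2 * M 1 0) ?_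
      rw [hF, hF, hb]
      rw [hb, zero_mul, mul_zero, add_zero] at hdisc
      have hc2 : 0 < (M 1 0) ^ 2 := by positivity
      have := mul_pos (mul_pos hT0 hdisc) hc2
      nlinarith
  · refine H10a_two (x := 0) (y := 1) (x' := 2 * M 0 1) (y' := -(M 0 0 - M 1 1)) ?_
    rw [hF, hF]
    have hb2 : 0 < (M 0 1) ^ 2 := by positivity
    have := mul_pos (mul_pos hT0 hdisc) hb2
    nlinarith

/-- Every element has a conjugate which crosses the polygon. -/
theorem exists_cross (hg : 2 ≤ g) (γ : SurfaceGroup g) (hγ : γ ≠ 1) :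
    ∃ k : SurfaceGroup g, Crosses (hol hg) (Q g) (k * γ * k⁻¹) := by
  by_contra hcon
  push Not at hcon
  have hax : ∀ (k : SurfaceGroup g) (X : M2), axN (Hm hg (k⁻¹ * γ * k⁻¹⁻¹)) X =
      axN (Hm hg γ) (ga hg k X) := by
    intro k X
    have := axN_ga hg k⁻¹ γ (ga hg k X)
    rw [ga_inv_self] at this
    exact this
  have hconst : ∀ (k : SurfaceGroup g) (i j : ZMod (4 * g)),
      0 < axN (Hm hg γ) (ga hg k (Q g i)) → 0 < axN (Hm hg γ) (ga hg k (Q g j)) := by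
    intro k i j hi
    by_contra hj
    apply hcon k⁻¹
    refine ⟨i, j, ?_, ?_⟩
    · change 0 < axN (Hm hg (k⁻¹ * γ * k⁻¹⁻¹)) (Q g i)
      rw [hax]
      exact hi
    · change ¬ 0 < axN (Hm hg (k⁻¹ * γ * k⁻¹⁻¹)) (Q g j)
      rw [hax]
      exact hj
  have hstep : ∀ (k : SurfaceGroup g) (i : ZMod (4 * g)),
      (0 < axN (Hm hg γ) (ga hg (k * ss g i) (Q g 0)) ↔ 0 < axN (Hm hg γ) (ga hg k (Q g 0))) := by
    intro k i
    have e : ga hg (k * ss g i) (Q g (i + h2 g)) = ga hg k (Q g (i + 1)) := by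
      rw [ga_mul, ga_ss, sm_QB hg i]
    constructor
    · intro h
      have h3 := hconst _ 0 (i + h2 g) h
      rw [e] at h3
      exact hconst _ _ 0 h3
    · intro h
      have h3 := hconst _ 0 (i + 1) h
      rw [← e] at h3
      exact hconst _ _ 0 h3
  have hall : ∀ w : List (ZMod (4 * g)), (0 < axN (Hm hg γ) (ga hg (w.map (ss g)).prod (Q g 0)) ↔
      0 < axN (Hm hg γ) (Q g 0)) := by
    intro w
    induction w using List.reverseRecOn with
    | nil => simp [ga_one]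
    | append_singleton w i ih =>
      rw [List.map_append, List.prod_append, List.map_singleton, List.prod_singleton, hstep, ih]
  have hall' : ∀ (k : SurfaceGroup g) (i : ZMod (4 * g)),
      (0 < axN (Hm hg γ) (ga hg k (Q g i)) ↔ 0 < axN (Hm hg γ) (Q g 0)) := by
    intro k i
    obtain ⟨w, hw⟩ := exists_word hg k
    rw [← hall w, hw]
    exact ⟨hconst _ _ _, hconst _ _ _⟩
  obtain ⟨⟨X, hX, hX1⟩, ⟨Y, hY, hY1⟩⟩ := exists_both (det_Hm hg γ) (hyp hg γ hγ)
  -- the linear functionals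
  have hlin : ∀ k : SurfaceGroup g, ∃ f : M2 →ₗ[ℝ] ℝ, ∀ Z, f Z = axN (Hm hg γ) (ga hg k Z) := by
    intro k
    refine ⟨{ toFun := fun Z => axN (Hm hg γ) (ga hg k Z), map_add' := ?_, map_smul' := ?_ },
      fun Z => rfl⟩
    · intro Z Z'
      rw [ga_add, axN_add]
    · intro c Z
      rw [ga_smul, axN_smul]
      rfl
  have hpos : 0 < axN (Hm hg γ) (Q g 0) := by
    obtain ⟨κ, hκ⟩ := cover_pd hg hX
    obtain ⟨f, hf⟩ := hlin κ⁻¹
    obtain ⟨i, hi⟩ := exists_corner_pos hg f (ga_sym hg κ (pd_sym hX)) hκ (by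
      rw [hf, ga_inv_self]
      exact hX1)
    rw [hf] at hi
    exact (hall' _ _).1 hi
  obtain ⟨κ, hκ⟩ := cover_pd hg hY
  obtain ⟨f, hf⟩ := hlin κ⁻¹
  obtain ⟨i, hi⟩ := exists_corner_pos hg (-f) (ga_sym hg κ (pd_sym hY)) hκ (by
    rw [LinearMap.neg_apply, hf, ga_inv_self]
    exact neg_pos.2 hY1)
  rw [LinearMap.neg_apply, hf] at hi
  have := (hall' κ⁻¹ i).2 hpos
  linarith

private theorem conj_back {p : M2} (hp : p.det = 1) (M : M2) :
    p * (p⁻¹ * M * p) * p⁻¹ = M := by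
  have hu : IsUnit p.det := by rw [hp]; exact isUnit_one
  have h1 : p * p⁻¹ = 1 := Matrix.mul_nonsing_inv _ hu
  calc p * (p⁻¹ * M * p) * p⁻¹ = (p * p⁻¹) * M * (p * p⁻¹) := by simp only [Matrix.mul_assoc]
    _ = M := by rw [h1, Matrix.one_mul, Matrix.mul_one]

private theorem conj_trace {p : M2} (hp : p.det = 1) (M : M2) :
    (p⁻¹ * M * p).trace = M.trace := by
  have hu : IsUnit p.det := by rw [hp]; exact isUnit_one
  have h1 : p * p⁻¹ = 1 := Matrix.mul_nonsing_inv _ hu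
  rw [Matrix.trace_mul_comm, ← Matrix.mul_assoc, h1, Matrix.one_mul]

private theorem fro_of_axN {p M : M2} (hp : p.det = 1) (hM : M.det = 1) (ht : M.trace ≠ 0)
    (h : axN M (act p 1) = 0) : fro (p⁻¹ * M * p) = M.trace ^ 2 - 2 := by
  have h1 : axN (p⁻¹ * M * p) 1 = 0 := by
    rw [← axN_act hp, conj_back hp]; exact h
  have h2 : (p⁻¹ * M * p).trace = M.trace := conj_trace hp M
  have h3 : (p⁻¹ * M * p).det = 1 := by
    rw [Matrix.det_mul, Matrix.det_mul, det_inv_one hp, hM, hp]; ring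
  generalize p⁻¹ * M * p = A at h1 h2 h3 ⊢
  rw [axN_eq] at h1
  rw [← h2] at ht ⊢
  rw [Matrix.trace_fin_two] at ht ⊢
  rw [Matrix.det_fin_two] at h3
  have h4 : A 0 1 = A 1 0 := by
    have h5 := (mul_eq_zero.mp h1).resolve_left ht
    simp at h5
    linarith
  unfold fro
  rw [h4] at h3 ⊢
  nlinarith [h3]

/-- The displacement of a point of the axis. -/
theorem lor_of_axN {M X : M2} (hM : M.det = 1) (ht : M.trace ≠ 0) (hX : PD X) (hd : X.det = 1)
    (h : axN M X = 0) : 2 * lor X (act M X) = M.trace ^ 2 - 2 := by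
  obtain ⟨p, hp, rfl⟩ := exists_factor hX hd
  rw [← fro_conj hp hM]
  exact fro_of_axN hp hM ht h

/-- An element which crosses the polygon is bounded in terms of its trace. -/
theorem cross_bound (hg : 2 ≤ g) (γ : SurfaceGroup g) (hγ : γ ≠ 1)
    (h : Crosses (hol hg) (Q g) γ) :
    fro (Hm hg γ) ≤ (2 * kap g ^ 2) ^ 2 * ((Hm hg γ).trace ^ 2 - 2) := by
  obtain ⟨i, j, hi, hj⟩ := h
  rw [onR_iff] at hi hj
  push Not at hj
  have hM := det_Hm hg γ
  have ht : (Hm hg γ).trace ≠ 0 := by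
    intro h0
    have := hyp hg γ hγ
    rw [h0, abs_zero] at this
    linarith
  generalize Hm hg γ = M at hi hj hM ht ⊢
  have hX : PD ((-axN M (Q g j)) • Q g i + axN M (Q g i) • Q g j) :=
    pd_comb (pd_Q hg i) (pd_Q hg j) (by linarith) hi.le (by linarith)
  have hP : InP g ((-axN M (Q g j)) • Q g i + axN M (Q g i) • Q g j) :=
    inP_add (inP_smul (inP_Q hg i) (by linarith)) (inP_smul (inP_Q hg j) hi.le)
  have h0 : axN M ((-axN M (Q g j)) • Q g i + axN M (Q g i) • Q g j) = 0 := by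
    rw [axN_add, axN_smul, axN_smul]; ring
  generalize (-axN M (Q g j)) • Q g i + axN M (Q g i) • Q g j = X at hX hP h0
  have hdet : 0 < X.det := hX.2.2
  have hs : 0 < Real.sqrt X.det := Real.sqrt_pos.mpr hdet
  have hc : 0 < (Real.sqrt X.det)⁻¹ := inv_pos.mpr hs
  have hY : PD ((Real.sqrt X.det)⁻¹ • X) := pd_smul hX hc
  have hYd : ((Real.sqrt X.det)⁻¹ • X).det = 1 := by
    rw [Matrix.det_smul]
    simp only [Fintype.card_fin]
    rw [inv_pow, Real.sq_sqrt hdet.le]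
    exact inv_mul_cancel₀ hdet.ne'
  have hYP : InP g ((Real.sqrt X.det)⁻¹ • X) := inP_smul hP hc.le
  have hY0 : axN M ((Real.sqrt X.det)⁻¹ • X) = 0 := by rw [axN_smul, h0, mul_zero]
  have hYt := trace_le hg (pd_sym hY) hYP hYd
  generalize (Real.sqrt X.det)⁻¹ • X = Y at hY hYd hYP hY0 hYt
  obtain ⟨p, hp, rfl⟩ := exists_factor hY hYd
  rw [← fro_eq] at hYt
  have hA := fro_of_axN hp hM ht hY0
  have hb := conj_back hp M
  have hfro : ∀ N : M2, 0 ≤ fro N := fun N => by unfold fro; positivity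
  calc fro M = fro (p * (p⁻¹ * M * p) * p⁻¹) := by rw [hb]
    _ ≤ fro (p * (p⁻¹ * M * p)) * fro p⁻¹ := fro_mul_le _ _
    _ ≤ (fro p * fro (p⁻¹ * M * p)) * fro p⁻¹ :=
        mul_le_mul_of_nonneg_right (fro_mul_le _ _) (hfro _)
    _ = fro p ^ 2 * (M.trace ^ 2 - 2) := by rw [fro_inv hp, hA]; ring
    _ ≤ (2 * kap g ^ 2) ^ 2 * (M.trace ^ 2 - 2) := by
        apply mul_le_mul_of_nonneg_right _ (by rw [← hA]; exact hfro _)
        exact pow_le_pow_left₀ (hfro _) hYt 2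

private theorem trace_conj (hg : 2 ≤ g) (γ k : SurfaceGroup g) :
    (Hm hg (k * γ * k⁻¹)).trace = (Hm hg γ).trace := by
  have hu : IsUnit (Hm hg k).det := by rw [det_Hm]; exact isUnit_one
  have h1 : (Hm hg k)⁻¹ * Hm hg k = 1 := Matrix.nonsing_inv_mul _ hu
  rw [Hm_mul, Hm_mul, Hm_inv, Matrix.trace_mul_comm, ← Matrix.mul_assoc, h1, Matrix.one_mul]

theorem finite_cross (hg : 2 ≤ g) (γ : SurfaceGroup g) (hγ : γ ≠ 1) :
    {h : SurfaceGroup g | IsConj γ h ∧ Crosses (hol hg) (Q g) h}.Finite := by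
  apply (fin_norm hg ((2 * kap g ^ 2) ^ 2 * ((Hm hg γ).trace ^ 2 - 2))).subset
  rintro h ⟨hc, hx⟩
  obtain ⟨k, rfl⟩ := isConj_iff.mp hc
  have h1 : k * γ * k⁻¹ ≠ 1 := by
    intro h0
    exact hγ (conj_eq_one_iff.mp h0)
  have := cross_bound hg (k * γ * k⁻¹) h1 hx
  rw [trace_conj hg γ k] at this
  exact this

theorem disc (hg : 2 ≤ g) (T : ℝ) :
    {t : ℝ | t ≤ T ∧ ∃ γ : SurfaceGroup g, |(hol hg γ).1.trace| = t}.Finite := by
  have hF := (fin_norm hg ((2 * kap g ^ 2) ^ 2 * (T ^ 2 - 2))).image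
    (fun γ : SurfaceGroup g => |(Hm hg γ).trace|)
  apply (hF.insert 2).subset
  rintro t ⟨htT, γ, hγt⟩
  change |(Hm hg γ).trace| = t at hγt
  by_cases hγ : γ = 1
  · left
    rw [← hγt, hγ, Hm_one, Matrix.trace_one]
    simp
  · right
    obtain ⟨k, hk⟩ := exists_cross hg γ hγ
    have h1 : k * γ * k⁻¹ ≠ 1 := by
      intro h0
      exact hγ (conj_eq_one_iff.mp h0)
    refine ⟨k * γ * k⁻¹, ?_, ?_⟩
    · have h2 := cross_bound hg (k * γ * k⁻¹) h1 hk
      rw [trace_conj hg γ k] at h2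
      have h3 : (Hm hg γ).trace ^ 2 ≤ T ^ 2 := by
        rw [← sq_abs (Hm hg γ).trace, hγt]
        have h0 : 0 ≤ t := by rw [← hγt]; exact abs_nonneg _
        exact pow_le_pow_left₀ h0 htT 2
      refine le_trans h2 ?_
      apply mul_le_mul_of_nonneg_left _ (by positivity)
      linarith
    · change |(Hm hg (k * γ * k⁻¹)).trace| = t
      rw [trace_conj hg γ k]; exact hγt

end Pool.Agent.AMU.Geo
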