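import Pool.Agent.Lib.AMU.Geo10
import Pool.Agent.Lib.AMU.Geo11

/-!
# Row H12: the crossed edge on a wall is unique
-/

set_option autoImplicit false

namespace Pool.Agent.AMU.Geo

open Matrix

variable {g : ℕ}

private theorem H12a_coord {w : M2} (hw : Sym w) (hw0 : w.det < 0) :
    ∃ φ : M2 →ₗ[ℝ] ℝ, ∀ X, Sym X → lor w X = 0 → X 0 0 = 0 → φ X = 0 → X = 0 := by
  have hw' : w 1 0 = w 0 1 := hw
  rw [Matrix.det_fin_two, hw'] at hw0
  by_cases h : w 0 0 = 0
  · have h1 : w 0 1 ≠ 0 := by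
      intro h1
      rw [h, h1] at hw0
      simp at hw0
    refine ⟨Matrix.entryLinearMap ℝ ℝ 1 1, ?_⟩
    intro X hX hl h0 h2
    have hX' : X 1 0 = X 0 1 := hX
    have h2' : X 1 1 = 0 := h2
    unfold lor at hl
    rw [h, h0, h2', hX', hw'] at hl
    have h3 : X 0 1 = 0 := by
      have : w 0 1 * X 0 1 = 0 := by linarith
      exact (mul_eq_zero.1 this).resolve_left h1
    ext i j
    fin_cases i <;> fin_cases j <;> simp [h0, h2', hX', h3]
  · refine ⟨Matrix.entryLinearMap ℝ ℝ 0 1, ?_⟩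
    intro X hX hl h0 h2
    have hX' : X 1 0 = X 0 1 := hX
    have h2' : X 0 1 = 0 := h2
    unfold lor at hl
    rw [h0, hX', h2'] at hl
    have h3 : X 1 1 = 0 := by
      have : w 0 0 * X 1 1 = 0 := by linarith
      exact (mul_eq_zero.1 this).resolve_left h
    ext i j
    fin_cases i <;> fin_cases j <;> simp [h0, h2', hX', h3]

/-- Two segments on a line which both contain the zero of a linear functional and points on its
positive side have a common interior point. -/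
theorem common_point (f : M2 →ₗ[ℝ] ℝ) {w A B C D : M2} (hA : PD A) (hB : PD B) (hC : PD C)
    (hD : PD D) (hw : Sym w) (hw0 : w.det < 0) (wA : lor w A = 0) (wB : lor w B = 0)
    (wC : lor w C = 0) (wD : lor w D = 0) (fA : 0 < f A) (fB : f B ≤ 0) (fC : 0 < f C)
    (fD : f D ≤ 0) :
    ∃ a b c d : ℝ, 0 < a ∧ 0 < b ∧ 0 < c ∧ 0 < d ∧ a • A + b • B = c • C + d • D := by
  obtain ⟨φ, hφ⟩ := H12a_coord hw hw0
  -- combinations of elements of the plane
  have comb : ∀ (s t : ℝ) {X Y : M2}, (Sym X ∧ lor w X = 0) → (Sym Y ∧ lor w Y = 0) →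
      (Sym (s • X + t • Y) ∧ lor w (s • X + t • Y) = 0) := by
    intro s t X Y hX hY
    refine ⟨sym_add (sym_smul _ hX.1) (sym_smul _ hY.1), ?_⟩
    rw [lor_add_right, lor_smul_right, lor_smul_right, hX.2, hY.2, mul_zero, mul_zero, add_zero]
  have PA : Sym A ∧ lor w A = 0 := ⟨hA.1, wA⟩
  have PB : Sym B ∧ lor w B = 0 := ⟨hB.1, wB⟩
  have PC : Sym C ∧ lor w C = 0 := ⟨hC.1, wC⟩
  have PD' : Sym D ∧ lor w D = 0 := ⟨hD.1, wD⟩
  obtain ⟨p1, hp1⟩ : ∃ p1, p1 = (-f B) • A + (f A) • B := ⟨_, rfl⟩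
  obtain ⟨p2, hp2⟩ : ∃ p2, p2 = (-f D) • C + (f C) • D := ⟨_, rfl⟩
  have P1 : Sym p1 ∧ lor w p1 = 0 := by rw [hp1]; exact comb _ _ PA PB
  have P2 : Sym p2 ∧ lor w p2 = 0 := by rw [hp2]; exact comb _ _ PC PD'
  have pd1 : PD p1 := by rw [hp1]; exact pd_comb hA hB (by linarith) fA.le (by linarith)
  have pd2 : PD p2 := by rw [hp2]; exact pd_comb hC hD (by linarith) fC.le (by linarith)
  have f1 : f p1 = 0 := by
    rw [hp1, map_add, map_smul, map_smul, smul_eq_mul, smul_eq_mul]; ring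
  have f2 : f p2 = 0 := by
    rw [hp2, map_add, map_smul, map_smul, smul_eq_mul, smul_eq_mul]; ring
  -- the coordinate determinant
  have hA0 := hA.2.1
  have h10 := pd1.2.1
  have h20 := pd2.2.1
  have hδ : p1 0 0 * φ A - φ p1 * A 0 0 ≠ 0 := by
    intro h0
    have h3 := hφ ((A 0 0) • p1 + (-p1 0 0) • A) (comb _ _ P1 PA).1 (comb _ _ P1 PA).2
      (by simp only [Matrix.add_apply, Matrix.smul_apply, smul_eq_mul]; ring)
      (by rw [map_add, map_smul, map_smul, smul_eq_mul, smul_eq_mul]; linarith)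
    have h4 := congrArg f h3
    rw [map_add, map_smul, map_smul, f1, map_zero, smul_eq_mul, smul_eq_mul] at h4
    nlinarith
  set δ := p1 0 0 * φ A - φ p1 * A 0 0 with hδd
  have span : ∀ Z : M2, Sym Z ∧ lor w Z = 0 → ∃ s t : ℝ, Z = s • p1 + t • A := by
    intro Z PZ
    refine ⟨(Z 0 0 * φ A - φ Z * A 0 0) / δ, (p1 0 0 * φ Z - φ p1 * Z 0 0) / δ, ?_⟩
    have h3 := hφ ((1 : ℝ) • Z + (-1 : ℝ) • (((Z 0 0 * φ A - φ Z * A 0 0) / δ) • p1 +
      ((p1 0 0 * φ Z - φ p1 * Z 0 0) / δ) • A)) (comb _ _ PZ (comb _ _ P1 PA)).1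
      (comb _ _ PZ (comb _ _ P1 PA)).2
      (by
        simp only [Matrix.add_apply, Matrix.smul_apply, smul_eq_mul]
        field_simp
        rw [hδd]
        ring)
      (by
        simp only [map_add, map_smul, smul_eq_mul]
        field_simp
        rw [hδd]
        ring)
    rw [one_smul, neg_one_smul] at h3
    exact (sub_eq_zero.1 (by rw [sub_eq_add_neg]; exact h3))
  obtain ⟨al, be, hCe⟩ := span C PC
  obtain ⟨a2, b2, hp2e⟩ := span p2 P2
  have hbe : f C = be * f A := by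
    rw [hCe, map_add, map_smul, map_smul, f1, smul_eq_mul, smul_eq_mul]; ring
  have hbe0 : 0 < be := by
    by_contra hcon
    push Not at hcon
    nlinarith
  have hb2 : b2 = 0 := by
    have h3 : f p2 = b2 * f A := by
      rw [hp2e, map_add, map_smul, map_smul, f1, smul_eq_mul, smul_eq_mul]; ring
    rw [f2] at h3
    exact (mul_eq_zero.1 h3.symm).resolve_right fA.ne'
  rw [hb2, zero_smul, add_zero] at hp2e
  have ha2 : 0 < a2 := by
    have h3 := congrArg (fun M : M2 => M 0 0) hp2e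
    simp only [Matrix.smul_apply, smul_eq_mul] at h3
    by_contra hcon
    push Not at hcon
    nlinarith
  obtain ⟨ε, hε⟩ : ∃ ε, ε = be / (2 * (|al| + 1)) := ⟨_, rfl⟩
  have hε0 : 0 < ε := by rw [hε]; positivity
  have hε1 : ε * al / be ≤ 1 / 2 := by
    rw [hε]
    have : be / (2 * (|al| + 1)) * al / be = al / (2 * (|al| + 1)) := by field_simp
    rw [this, div_le_div_iff₀ (by positivity) (by norm_num)]
    have := le_abs_self al
    nlinarith [abs_nonneg al]
  refine ⟨-f B + ε, f A, (1 - ε * al / be) / a2 * (-f D) + ε / be,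
    (1 - ε * al / be) / a2 * f C, by linarith, fA, ?_, ?_, ?_⟩
  · have h5 : 0 ≤ (1 - ε * al / be) / a2 * (-f D) :=
      mul_nonneg (div_nonneg (by linarith) ha2.le) (by linarith)
    have h6 : 0 < ε / be := div_pos hε0 hbe0
    linarith
  · exact mul_pos (div_pos (by linarith) ha2) fC
  · have e1 : (-f B + ε) • A + f A • B = p1 + ε • A := by
      rw [hp1, add_smul]; abel
    have e2 : ((1 - ε * al / be) / a2 * (-f D) + ε / be) • C +
        ((1 - ε * al / be) / a2 * f C) • D =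
        ((1 - ε * al / be) / a2) • p2 + (ε / be) • C := by
      rw [hp2, smul_add, smul_smul, smul_smul, add_smul]; abel
    rw [e1, e2, hp2e, hCe, smul_smul, smul_add, smul_smul, smul_smul, ← add_assoc, ← add_smul]
    congr 1
    · rw [show (1 - ε * al / be) / a2 * a2 + ε / be * al = 1 by field_simp; ring, one_smul]
    · rw [show ε / be * be = ε by field_simp]

/-- A positive combination of the two end points of a side lies on this side only. -/
theorem open_side (hg : 2 ≤ g) (j : ZMod (4 * g)) {a b : ℝ} (ha : 0 < a) (hb : 0 < b) :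
    lor (W g j) (a • Q g j + b • Q g (j + 1)) = 0 ∧
    ∀ k, k ≠ j → 0 < lor (W g k) (a • Q g j + b • Q g (j + 1)) := by
  refine ⟨?_, ?_⟩
  · rw [lor_add_right, lor_smul_right, lor_smul_right, lor_WQ_self hg, lor_WQ_succ hg]; ring
  · intro k hk
    have h1 := inP_Q hg j k
    have h2 := inP_Q hg (j + 1) k
    rw [lor_add_right, lor_smul_right, lor_smul_right]
    by_cases hj : j = k + 1
    · have h3 : 0 < lor (W g k) (Q g (j + 1)) := by
        apply lor_WQ_pos hg
        · rw [hj]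
          intro h
          have h4 : ((2 : ℕ) : ZMod (4 * g)) = 0 := by
            have : k + 1 + 1 = k + 2 := by ring
            rw [this] at h
            simpa using h
          rw [ZMod.natCast_eq_zero_iff] at h4
          have := Nat.le_of_dvd (by norm_num) h4
          omega
        · intro h
          exact hk (add_right_cancel h).symm
      have := mul_pos hb h3
      have := mul_nonneg ha.le h1
      linarith
    · have h3 : 0 < lor (W g k) (Q g j) := lor_WQ_pos hg k j (fun h => hk h.symm) hj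
      have := mul_pos ha h3
      have := mul_nonneg hb.le h2
      linarith

private theorem H12b_inP (hg : 2 ≤ g) (k : ZMod (4 * g)) {c d : ℝ} (hc : 0 < c) (hd : 0 < d) :
    InP g (c • Q g k + d • Q g (k + 1)) :=
  inP_add (inP_smul (inP_Q hg k) hc.le) (inP_smul (inP_Q hg (k + 1)) hd.le)

/-- At most one side on a wall is crossed by an axis. -/
theorem same_wall (hg : 2 ≤ g) (f : M2 →ₗ[ℝ] ℝ) (γ δ : SurfaceGroup g) (j k : ZMod (4 * g))
    (hw : ga hg γ (W g j) = ga hg δ (W g k) ∨ ga hg γ (W g j) = -ga hg δ (W g k))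
    (h1 : 0 < f (ga hg γ (Q g j))) (h2 : f (ga hg γ (Q g (j + 1))) ≤ 0)
    (h3 : 0 < f (ga hg δ (Q g k))) (h4 : f (ga hg δ (Q g (k + 1))) ≤ 0) : γ = δ := by
  have hdet : (ga hg γ (W g j)).det < 0 := by
    rw [ga_det, ← lor_self (sym_W j), lor_W_self hg]
    norm_num
  have hC : ∀ X, lor (W g k) X = 0 → lor (ga hg γ (W g j)) (ga hg δ X) = 0 := by
    intro X hX
    rcases hw with h | h
    · rw [h, lor_ga, hX]
    · rw [h, lor_neg_left, lor_ga, hX, neg_zero]
  obtain ⟨a, b, c, d, ha, hb, hc, hd, he⟩ := common_point f (w := ga hg γ (W g j))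
    (ga_pd hg γ (pd_Q hg j)) (ga_pd hg γ (pd_Q hg (j + 1)))
    (ga_pd hg δ (pd_Q hg k)) (ga_pd hg δ (pd_Q hg (k + 1))) (ga_sym hg γ (sym_W j)) hdet
    (by rw [lor_ga, lor_WQ_self hg]) (by rw [lor_ga, lor_WQ_succ hg])
    (hC _ (lor_WQ_self hg k)) (hC _ (lor_WQ_succ hg k)) h1 h2 h3 h4
  set X : M2 := c • Q g k + d • Q g (k + 1) with hX
  have hXs : Sym X := sym_add (sym_smul _ (sym_Q _)) (sym_smul _ (sym_Q _))
  have hXi : InP g X := H12b_inP hg k hc hd
  have hz : ga hg (γ⁻¹ * δ) X = a • Q g j + b • Q g (j + 1) := by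
    have h5 : ga hg δ X = ga hg γ (a • Q g j + b • Q g (j + 1)) := by
      rw [hX, ga_add, ga_smul, ga_smul, ← he, ga_add, ga_smul, ga_smul]
    rw [ga_mul, h5, ga_inv_self]
  obtain ⟨o1, o2⟩ := open_side hg j ha hb
  rw [← hz] at o1 o2
  rcases edge_lemma hg j _ (γ⁻¹ * δ) X rfl hXs hXi o1 o2 with h | h
  · exact (inv_mul_eq_one.1 h)
  · exfalso
    have hδ : δ = γ * ss g j := by rw [← h, mul_inv_cancel_left]
    have hzi : InP g (ga hg (γ⁻¹ * δ) X) := by
      rw [hz]
      exact H12b_inP hg j ha hb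
    have hjj : j + Geo.h2 g + Geo.h2 g = j := by rw [add_assoc, h2_add_h2, add_zero]
    have hw0 : lor (W g (j + Geo.h2 g + Geo.h2 g)) (ga hg (γ⁻¹ * δ) X) = 0 := by rw [hjj]; exact o1
    have h6 := (sm_wall hg (j + Geo.h2 g) hzi hw0).2.1
    have h7 : ga hg (ss g (j + Geo.h2 g)) (ga hg (γ⁻¹ * δ) X) = X := by
      rw [h, ← ss_inv, ga_inv_self]
    rw [h7] at h6
    obtain ⟨-, o4⟩ := open_side hg k hc hd
    have hk : j + Geo.h2 g = k := by
      by_contra hne
      exact absurd h6 (o4 _ hne).ne'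
    rw [← hk, hδ, ga_mul, ga_ss, sm_QB hg j] at h3
    exact absurd h2 (not_le.2 h3)

private theorem H12b_core (hg : 2 ≤ g) (j : ZMod (4 * g)) {v : M2}
    (hv : Sym v) (hvv : lor v v = -1)
    (k1 : Pos g v) (k2 : Pos g (-ga hg (ss g j)⁻¹ v)) : v = W g j ∨ v = -W g j := by
  have hA := k1 _ (sym_Q j) (inP_Q hg j)
  have hB := k1 _ (sym_Q (j + 1)) (inP_Q hg (j + 1))
  have hA' := k2 _ (sym_Q (j + h2 g + 1)) (inP_Q hg _)
  have hB' := k2 _ (sym_Q (j + h2 g)) (inP_Q hg _)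
  rw [lor_neg_left, lor_ga_left, inv_inv, ga_ss, sm_QA hg j] at hA'
  rw [lor_neg_left, lor_ga_left, inv_inv, ga_ss, sm_QB hg j] at hB'
  exact wall_unique hg j v hv (le_antisymm (by linarith) hA) (le_antisymm (by linarith) hB) hvv

/-- If two adjacent tiles lie on different sides of a wall, then their common side lies on it. -/
theorem cross_wall (hg : 2 ≤ g) (γ δ : SurfaceGroup g) (j k : ZMod (4 * g))
    (h1 : Pos g (ga hg (γ⁻¹ * δ) (W g k))) (h2 : Pos g (-ga hg ((γ * ss g j)⁻¹ * δ) (W g k))) :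
    ga hg δ (W g k) = ga hg γ (W g j) ∨ ga hg δ (W g k) = -ga hg γ (W g j) := by
  have hv : ga hg δ (W g k) = ga hg γ (ga hg (γ⁻¹ * δ) (W g k)) := by
    rw [← ga_mul, mul_inv_cancel_left]
  have e : ga hg ((γ * ss g j)⁻¹ * δ) (W g k) = ga hg (ss g j)⁻¹ (ga hg (γ⁻¹ * δ) (W g k)) := by
    rw [← ga_mul, _root_.mul_inv_rev, mul_assoc]
  rw [e] at h2
  rcases H12b_core hg j (ga_sym hg _ (sym_W k)) (by rw [lor_ga, lor_W_self hg]) h1 h2 with h | h
  · left
    rw [hv, h]
  · right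
    rw [hv, h, ga_neg]

/-- The same with exchanged sides. -/
theorem cross_wall' (hg : 2 ≤ g) (γ δ : SurfaceGroup g) (j k : ZMod (4 * g))
    (h1 : Pos g (-ga hg (γ⁻¹ * δ) (W g k))) (h2 : Pos g (ga hg ((γ * ss g j)⁻¹ * δ) (W g k))) :
    ga hg δ (W g k) = ga hg γ (W g j) ∨ ga hg δ (W g k) = -ga hg γ (W g j) := by
  have hv : ga hg δ (W g k) = ga hg γ (ga hg (γ⁻¹ * δ) (W g k)) := by
    rw [← ga_mul, mul_inv_cancel_left]
  have e : ga hg ((γ * ss g j)⁻¹ * δ) (W g k) = -ga hg (ss g j)⁻¹ (-ga hg (γ⁻¹ * δ) (W g k)) := by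
    rw [ga_neg, neg_neg, ← ga_mul, _root_.mul_inv_rev, mul_assoc]
  rw [e] at h2
  rcases H12b_core hg j (sym_neg (ga_sym hg _ (sym_W k)))
    (by rw [lor_neg_left, lor_neg_right, neg_neg, lor_ga, lor_W_self hg]) h1 h2 with h | h
  · right
    rw [hv, ← h, ga_neg, neg_neg]
  · left
    rw [hv]
    rw [neg_inj] at h
    rw [h]

end Pool.Agent.AMU.Geo
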