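import Pool.Agent.Lib.AMU.Geo12

/-!
# Row H13: the cycle of a primitive element
-/

set_option autoImplicit false

namespace Pool.Agent.AMU.Geo

open Matrix

variable {g : ℕ}

/-- An infinite path of tiles along the axis of `γ`: `u` is the sequence of the exit sides. -/
structure IsPath (hg : 2 ≤ g) (γ : SurfaceGroup g) (u : ℕ → ZMod (4 * g))
    (p : ℕ → SurfaceGroup g) : Prop where
  exitR : ∀ k, 0 < axN (Hm hg γ) (ga hg (p k) (Q g (u k)))
  exitL : ∀ k, axN (Hm hg γ) (ga hg (p k) (Q g (u k + 1))) ≤ 0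
  next : ∀ k, p (k + 1) = p k * ss g (u k)

private theorem h13a_not_pos_neg (hg : 2 ≤ g) (j : ZMod (4 * g)) : ¬ Pos g (-W g j) := by
  intro h
  have h1 := h 1 sym_one (fun k => (inP_one hg k).le)
  rw [lor_neg_left] at h1
  have h2 := inP_one hg j
  linarith

private theorem h13a_lor (hg : 2 ≤ g) (δ p : SurfaceGroup g) (X Y : M2) :
    lor (ga hg (p⁻¹ * δ) X) Y = lor (ga hg δ X) (ga hg p Y) := by
  rw [ga_mul, lor_ga_left, inv_inv]

/-- All later tiles lie on the outer side of the first exit wall. -/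
theorem path_side (hg : 2 ≤ g) {γ : SurfaceGroup g} {u : ℕ → ZMod (4 * g)}
    {p : ℕ → SurfaceGroup g} (hp : IsPath hg γ u p) (k : ℕ) (hk : 0 < k) :
    Pos g (-ga hg ((p k)⁻¹ * p 0) (W g (u 0))) := by
  induction k with
  | zero => exact absurd hk (lt_irrefl 0)
  | succ k ih =>
    rcases Nat.eq_zero_or_pos k with rfl | hk0
    · have h1 := wall_refl hg (u 0 + h2 g) (u 0 + h2 g)
      rw [lor_W_self hg] at h1
      have h2' : 2 * (u 0 + h2 g) + h2 g - (u 0 + h2 g) = u 0 := by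
        have := h2_add_h2 (g := g)
        linear_combination this
      rw [h2'] at h1
      have h3 : (p (0 + 1))⁻¹ * p 0 = ss g (u 0 + h2 g) := by
        rw [hp.next, _root_.mul_inv_rev, inv_mul_cancel_right, ss_inv]
      rw [h3, ga_ss, h1]
      have h4 : -(W g (u 0 + h2 g) + (2 * (-1 : ℝ)) • W g (u 0 + h2 g)) = W g (u 0 + h2 g) := by
        module
      rw [h4]
      exact pos_W _
    · have ih := ih hk0
      rcases side hg ((p (k + 1))⁻¹ * p 0) (u 0) with h1 | h1
      · exfalso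
        rw [hp.next] at h1
        have h2 := cross_wall' hg (p k) (p 0) (u k) (u 0) ih h1
        have h3 := same_wall hg (axL (Hm hg γ)) (p 0) (p k) (u 0) (u k) h2 (hp.exitR 0)
          (hp.exitL 0) (hp.exitR k) (hp.exitL k)
        rw [h3, inv_mul_cancel, ga_one] at ih
        exact h13a_not_pos_neg hg _ ih
      · exact h1

/-- A path which crosses the exit wall of a tile `δ` passes through the tile `δ`. -/
theorem path_cross (hg : 2 ≤ g) {γ : SurfaceGroup g} {u : ℕ → ZMod (4 * g)}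
    {p : ℕ → SurfaceGroup g} (hp : IsPath hg γ u p) (δ : SurfaceGroup g) (j : ZMod (4 * g))
    (h1 : 0 < axN (Hm hg γ) (ga hg δ (Q g j))) (h2 : axN (Hm hg γ) (ga hg δ (Q g (j + 1))) ≤ 0)
    (b : ℕ) (h3 : 0 < lor (ga hg δ (W g j)) (ga hg (p 0) 1))
    (h4 : lor (ga hg δ (W g j)) (ga hg (p b) 1) < 0) : ∃ k < b, p k = δ := by
  have hone : InP g (1 : M2) := fun k => (inP_one hg k).le
  have s0 : Pos g (ga hg ((p 0)⁻¹ * δ) (W g j)) := by
    rcases side hg ((p 0)⁻¹ * δ) j with h | h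
    · exact h
    · exfalso
      have h5 := h 1 sym_one hone
      rw [lor_neg_left, h13a_lor] at h5
      linarith
  have sb : ¬ Pos g (ga hg ((p b)⁻¹ * δ) (W g j)) := by
    intro h
    have h5 := h 1 sym_one hone
    rw [h13a_lor] at h5
    linarith
  have hex : ∃ k < b, Pos g (ga hg ((p k)⁻¹ * δ) (W g j)) ∧
      ¬ Pos g (ga hg ((p (k + 1))⁻¹ * δ) (W g j)) := by
    clear h4
    induction b with
    | zero => exact absurd s0 sb
    | succ b ih =>
      by_cases h : Pos g (ga hg ((p b)⁻¹ * δ) (W g j))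
      · exact ⟨b, Nat.lt_succ_self b, h, sb⟩
      · obtain ⟨k, hk, h5⟩ := ih h
        exact ⟨k, hk.trans (Nat.lt_succ_self b), h5⟩
  obtain ⟨k, hk, hS, hS'⟩ := hex
  have hS2 : Pos g (-ga hg ((p k * ss g (u k))⁻¹ * δ) (W g j)) := by
    rcases side hg ((p (k + 1))⁻¹ * δ) j with h | h
    · exact absurd h hS'
    · rwa [hp.next] at h
  have hw := cross_wall hg (p k) δ (u k) j hS hS2
  refine ⟨k, hk, same_wall hg (axL (Hm hg γ)) (p k) δ (u k) j ?_ (hp.exitR k) (hp.exitL k) h1 h2⟩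
  rcases hw with h | h
  · exact Or.inl h.symm
  · right
    rw [h, neg_neg]

private theorem h13b_add {G : Type*} [Group G] {n : ℕ} (u : ℕ → G) (m : ℕ) :
    ((List.range (n + m)).map fun i => u (i % n)).prod =
      ((List.range n).map fun i => u (i % n)).prod *
        ((List.range m).map fun i => u (i % n)).prod := by
  induction m with
  | zero => simp
  | succ m ih =>
    rw [← add_assoc, List.range_succ, List.map_append, List.prod_append, ih,
      List.range_succ (n := m), List.map_append, List.prod_append, mul_assoc]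
    simp

/-- The infinite path of a closed strand. -/
theorem exists_path (hg : 2 ≤ g) {γ : SurfaceGroup g} {n : ℕ} {u : ℕ → ZMod (4 * g)}
    {h : ℕ → SurfaceGroup g} (hn : 0 < n) (h0 : h 0 = γ) (h1 : h n = γ)
    (hs : IsStrand (ss g) (hol hg) (Q g) n u h) :
    ∃ p : ℕ → SurfaceGroup g, p 0 = 1 ∧ IsPath hg γ (fun k => u (k % n)) p ∧
      p n = ((List.range n).map fun k => ss g (u k)).prod ∧
      (∀ k, (p k)⁻¹ * γ * p k = h (k % n)) ∧ ∀ a r, p (a * n + r) = p n ^ a * p r := by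
  obtain ⟨p, hpd⟩ : ∃ p : ℕ → SurfaceGroup g, p = fun k =>
    ((List.range k).map fun i => ss g (u (i % n))).prod := ⟨_, rfl⟩
  have hp0 : p 0 = 1 := by rw [hpd]; simp
  have hps : ∀ k, p (k + 1) = p k * ss g (u (k % n)) := by
    intro k
    rw [hpd]
    show ((List.range (k + 1)).map fun i => ss g (u (i % n))).prod = _
    rw [List.range_succ, List.map_append, List.prod_append]
    simp
  have hpn : p n = ((List.range n).map fun k => ss g (u k)).prod := by
    rw [hpd]
    show ((List.range n).map fun i => ss g (u (i % n))).prod = _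
    congr 1
    apply List.map_congr_left
    intro k hk
    rw [Nat.mod_eq_of_lt (List.mem_range.1 hk)]
  have hadd : ∀ m, p (n + m) = p n * p m := by
    intro m
    rw [hpd]
    exact h13b_add (fun i => ss g (u i)) m
  have hconj : ∀ k, (p k)⁻¹ * γ * p k = h (k % n) := by
    intro k
    induction k with
    | zero => rw [hp0, Nat.zero_mod, h0]; group
    | succ k ih =>
      have hlt := Nat.mod_lt k hn
      have e1 : (p (k + 1))⁻¹ * γ * p (k + 1) = h (k % n + 1) := by
        rw [hs.next _ hlt, ← ih, hps]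
        group
      rw [e1]
      rcases Nat.lt_or_ge (k % n + 1) n with h2 | h2
      · rw [Nat.add_mod, Nat.mod_eq_of_lt (a := 1) (by omega), Nat.mod_eq_of_lt h2]
      · have h3 : k % n + 1 = n := by omega
        have h4 : (k + 1) % n = 0 := by
          rw [← Nat.mod_add_mod, h3, Nat.mod_self]
        rw [h3, h4, h0, h1]
  refine ⟨p, hp0, ⟨fun k => ?_, fun k => ?_, hps⟩, hpn, hconj, fun a r => ?_⟩
  · have e := hs.exitR (k % n) (Nat.mod_lt k hn)
    rw [onR_iff, ← hconj k] at e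
    have e2 := axN_ga hg (p k) ((p k)⁻¹ * γ * p k) (Q g (u (k % n)))
    have e3 : p k * ((p k)⁻¹ * γ * p k) * (p k)⁻¹ = γ := by group
    rw [e3] at e2
    rw [e2]
    exact e
  · have e := hs.exitL (k % n) (Nat.mod_lt k hn)
    rw [onR_iff, ← hconj k] at e
    have e2 := axN_ga hg (p k) ((p k)⁻¹ * γ * p k) (Q g (u (k % n) + 1))
    have e3 : p k * ((p k)⁻¹ * γ * p k) * (p k)⁻¹ = γ := by group
    rw [e3] at e2
    rw [e2]
    exact not_lt.1 e
  · induction a with
    | zero => simp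
    | succ a ih =>
      rw [show (a + 1) * n + r = n + (a * n + r) by ring, hadd, ih, pow_succ', mul_assoc]

private theorem H13c_Hm_pow (hg : 2 ≤ g) (U : SurfaceGroup g) (q : ℕ) :
    Hm hg (U ^ q) = Hm hg U ^ q := by
  induction q with
  | zero => rw [pow_zero, pow_zero, Hm_one]
  | succ q ih => rw [pow_succ, pow_succ, Hm_mul, ih]

private theorem H13c_lt {Γ : Type} [Group Γ] {γ U : Γ} (hc : U * γ = γ * U) (q2 : ℕ) (a : ℕ) {x : Γ}
    (h : (U ^ q2)⁻¹ * (U ^ a * x) = γ) : x = U ^ ((q2 : ℤ) - a) * γ := by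
  rw [← h]
  have e1 : U ^ ((q2 : ℤ) - a) = (U ^ a)⁻¹ * U ^ q2 := by
    rw [sub_eq_neg_add, _root_.zpow_add, _root_.zpow_neg, _root_.zpow_natCast, _root_.zpow_natCast]
  rw [e1]
  group

/-- The product of the letters of the cycle of a primitive element is the element. -/
theorem cycle (hg : 2 ≤ g) (γ : SurfaceGroup g) (n : ℕ) (u : ℕ → ZMod (4 * g))
    (h : ℕ → SurfaceGroup g) (hγ : γ ≠ 1) (hpp : ¬ IsProperPower γ) (hn : 0 < n) (h0 : h 0 = γ)
    (h1 : h n = γ) (hmin : ∀ k < n, 0 < k → h k ≠ γ)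
    (hs : IsStrand (ss g) (hol hg) (Q g) n u h) :
    ((List.range n).map fun k => ss g (u k)).prod = γ := by
  obtain ⟨p, hp0, hp, hpn, hpc, hpa⟩ := exists_path hg hn h0 h1 hs
  rw [← hpn]
  set U := p n with hU
  -- `U` commutes with `γ`
  have hcomm0 : U⁻¹ * γ * U = γ := by
    rw [hU, hpc n, Nat.mod_self, h0]
  have hcomm : U * γ = γ * U := by
    have := congrArg (fun x => U * x) hcomm0
    rw [← mul_assoc, ← mul_assoc, mul_inv_cancel, one_mul] at this
    exact this.symm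
  have hpq : ∀ q : ℕ, p (q * n) = U ^ q := by
    intro q
    have := hpa q 0
    rwa [add_zero, hp0, mul_one] at this
  have hu0 : (fun k => u (k % n)) 0 = u 0 := by simp
  -- path_side for the powers
  have hside : ∀ q : ℕ, 0 < q → lor (W g (u 0)) (ga hg (U ^ q) 1) ≤ 0 := by
    intro q hq
    have h2 := path_side hg hp (q * n) (Nat.mul_pos hq hn)
    have h3 := h2 1 sym_one (fun k => (inP_one hg k).le)
    rw [hp0, mul_one, hpq, lor_neg_left, lor_ga_left, inv_inv] at h3
    simp only [Nat.zero_mod] at h3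
    linarith
  have hU1 : U ≠ 1 := by
    intro hU1
    have h2 := hside 1 one_pos
    rw [hU1, one_pow, ga_one] at h2
    exact absurd (inP_one hg (u 0)) (not_lt.2 h2)
  have hR := hp.exitR 0
  have hL := hp.exitL 0
  simp only [Nat.zero_mod, hp0, ga_one] at hR hL
  have hsideM : ∀ q : ℕ, 0 < q → lor (W g (u 0)) (act (Hm hg U ^ q) 1) ≤ 0 := by
    intro q hq
    have := hside q hq
    rwa [ga, H13c_Hm_pow] at this
  have hcM : Hm hg U * Hm hg γ = Hm hg γ * Hm hg U := by
    rw [← Hm_mul, ← Hm_mul, hcomm]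
  obtain ⟨⟨q1, hq1⟩, ⟨q2, hq2⟩, hne⟩ := attract (det_Hm hg γ) (hyp hg γ hγ) (det_Hm hg U)
    (hyp hg U hU1) hcM (pd_Q hg (u 0)) (pd_Q hg (u 0 + 1)) pd_one (sym_W (u 0))
    (det3_side hg (u 0)) hR hL hsideM
  -- the shifted path
  have hUc : ∀ q : ℕ, U ^ q * γ = γ * U ^ q := fun q => (Commute.pow_left (show Commute U γ from hcomm) q)
  have hκ : (U ^ q2)⁻¹ * γ * ((U ^ q2)⁻¹)⁻¹ = γ := by
    rw [inv_inv, mul_assoc, ← hUc q2, inv_mul_cancel_left]
  have hax : ∀ X, axN (Hm hg γ) (ga hg (U ^ q2)⁻¹ X) = axN (Hm hg γ) X := by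
    intro X
    have := axN_ga hg (U ^ q2)⁻¹ γ X
    rwa [hκ] at this
  have hp' : IsPath hg γ (fun k => u (k % n)) (fun k => (U ^ q2)⁻¹ * p k) := by
    refine ⟨?_, ?_, ?_⟩
    · intro k
      rw [ga_mul, hax]
      exact hp.exitR k
    · intro k
      rw [ga_mul, hax]
      exact hp.exitL k
    · intro k
      rw [hp.next k, mul_assoc]
  have hγax : ∀ X, axN (Hm hg γ) (ga hg γ X) = axN (Hm hg γ) X := by
    intro X
    have := axN_ga hg γ γ X
    rwa [mul_inv_cancel_right] at this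
  have hpw : ∀ q : ℕ, Hm hg (U ^ q)⁻¹ = (Hm hg U ^ q)⁻¹ := by
    intro q
    rw [Hm_inv, H13c_Hm_pow]
  obtain ⟨k, hk, hkγ⟩ := path_cross hg hp' γ (u 0) (by rw [hγax]; exact hR)
    (by rw [hγax]; exact hL) ((q1 + q2) * n)
    (by
      rw [hp0, mul_one]
      have := hq2
      rw [← hpw] at this
      exact this)
    (by
      rw [hpq, add_comm q1 q2, pow_add, inv_mul_cancel_left]
      have := hq1
      rw [← H13c_Hm_pow] at this
      exact this)
  obtain ⟨a, r, hr, rfl⟩ : ∃ a r, r < n ∧ k = a * n + r :=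
    ⟨k / n, k % n, Nat.mod_lt _ hn, (Nat.div_add_mod' k n).symm⟩
  rw [hpa] at hkγ
  have hpr := H13c_lt hcomm q2 a hkγ
  have hzc : ∀ z : ℤ, U ^ z * γ = γ * U ^ z := fun z =>
    (Commute.zpow_left (show Commute U γ from hcomm) z)
  have hr0 : r = 0 := by
    by_contra hr0
    apply hmin r hr (Nat.pos_of_ne_zero hr0)
    have h2 := hpc r
    rw [Nat.mod_eq_of_lt hr, hpr] at h2
    rw [← h2]
    exact ((show Commute (U ^ ((q2 : ℤ) - a)) γ from hzc _).mul_left
      (Commute.refl γ)).inv_mul_cancel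
  rw [hr0, hp0] at hpr
  have hγU : γ = U ^ ((a : ℤ) - q2) := by
    have h2 : γ = (U ^ ((q2 : ℤ) - a))⁻¹ := eq_inv_of_mul_eq_one_right hpr.symm
    rw [h2, ← _root_.zpow_neg]
    congr 1
    ring
  rcases lt_trichotomy ((a : ℤ) - q2) 1 with hlt | heq | hgt
  · exfalso
    obtain ⟨m, hm⟩ : ∃ m : ℕ, (a : ℤ) - q2 = -m := ⟨(q2 - a : ℤ).toNat, by omega⟩
    rw [hm, _root_.zpow_neg, _root_.zpow_natCast] at hγU
    apply hne m
    rw [← hpw, ← hγU]
  · rw [hγU, heq, _root_.zpow_one]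
  · exfalso
    obtain ⟨m, hm⟩ : ∃ m : ℕ, (a : ℤ) - q2 = m := ⟨(a - q2 : ℤ).toNat, by omega⟩
    rw [hm, _root_.zpow_natCast] at hγU
    exact hpp ⟨U, m, by omega, hγU⟩

end Pool.Agent.AMU.Geo
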