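import Pool.Agent.Lib.AMU.Corner

/-!
# Section H: the regular hyperbolic `4g`-gon. Definitions

Symmetric matrices are the points of the Minkowski space: `lor P Q` is the Lorentz form
(`lor Q Q = det Q`, positive for points of the hyperbolic plane), `h` acts by `act h Q = h Q hᵀ`.
`W i`: inner unit normal of the side `i` (`lor (W i) (W i) = -1`), `Q i`: the corner `i`,
`sm i`: the side pairing, which maps the side `i + 2g` to the side `i`.
-/

set_option autoImplicit false

namespace Pool.Agent.AMU.Geo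

open Matrix

/-- 2x2 matrices. -/
abbrev M2 : Type := Matrix (Fin 2) (Fin 2) ℝ

/-- The action on forms. -/
def act (h Q : M2) : M2 := h * Q * hᵀ

/-- The Lorentz form. -/
noncomputable def lor (P Q : M2) : ℝ :=
  (P 0 0 * Q 1 1 + P 1 1 * Q 0 0 - P 0 1 * Q 1 0 - P 1 0 * Q 0 1) / 2

/-- The square of the Frobenius norm. -/
def fro (M : M2) : ℝ := M 0 0 ^ 2 + M 0 1 ^ 2 + M 1 0 ^ 2 + M 1 1 ^ 2

/-- Symmetric matrices. -/
def Sym (Q : M2) : Prop := Q 1 0 = Q 0 1

/-- Positive definite matrices. -/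
def PD (Q : M2) : Prop := Q 1 0 = Q 0 1 ∧ 0 < Q 0 0 ∧ 0 < Q.det

/-- Rotation (clockwise in the plane; a rotation by `2 t` of the hyperbolic plane). -/
noncomputable def Rt (t : ℝ) : M2 := !![Real.cos t, Real.sin t; -Real.sin t, Real.cos t]

/-- `π / 4g`. -/
noncomputable def xx (g : ℕ) : ℝ := Real.pi / (4 * g)

/-- `cot (π / 4g)`. -/
noncomputable def kap (g : ℕ) : ℝ := Real.cos (xx g) / Real.sin (xx g)

/-- `√(κ² - 1)`. -/
noncomputable def SS (g : ℕ) : ℝ := Real.sqrt (kap g ^ 2 - 1)

/-- `a = κ + S`, `a⁻¹ = κ - S`. -/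
noncomputable def aa (g : ℕ) : ℝ := kap g + SS g

/-- The translation with axis through the center and the midpoints of the sides `0`, `2g`. -/
noncomputable def T0 (g : ℕ) : M2 := !![aa g, 0; 0, kap g - SS g]

/-- The inner normal of the side `0`. -/
noncomputable def W0 (g : ℕ) : M2 := !![aa g, 0; 0, -(kap g - SS g)]

/-- The corner `0`. -/
noncomputable def Q0 (g : ℕ) : M2 :=
  !![aa g * Real.cos (xx g), SS g * Real.sin (xx g);
    SS g * Real.sin (xx g), (kap g - SS g) * Real.cos (xx g)]

/-- Rotated copies. -/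
noncomputable def fam (g : ℕ) (D : M2) (i : ZMod (4 * g)) : M2 :=
  act (Rt ((i.val : ℝ) * xx g)) D

/-- The side pairings. -/
noncomputable def sm (g : ℕ) (i : ZMod (4 * g)) : M2 := fam g (T0 g) i

/-- The inner normals of the sides. -/
noncomputable def W (g : ℕ) (i : ZMod (4 * g)) : M2 := fam g (W0 g) i

/-- The corners. -/
noncomputable def Q (g : ℕ) (i : ZMod (4 * g)) : M2 := fam g (Q0 g) i

/-- Half of the circle. -/
abbrev h2 (g : ℕ) : ZMod (4 * g) := ((2 * g : ℕ) : ZMod (4 * g))

/-- The generators of the surface group. -/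
abbrev ss (g : ℕ) (i : ZMod (4 * g)) : SurfaceGroup g := PresentedGroup.of i

/-- Products of letters in arithmetic progression. -/
def arc (g : ℕ) (j d : ZMod (4 * g)) (n : ℕ) : SurfaceGroup g :=
  ((List.range n).map fun l : ℕ => ss g (j + l * d)).prod

/-- The cone over the polygon. -/
def InP (g : ℕ) (X : M2) : Prop := ∀ k : ZMod (4 * g), 0 ≤ lor (W g k) X

/-- The functional of `v` is nonnegative on the polygon. -/
def Pos (g : ℕ) (v : M2) : Prop := ∀ X : M2, Sym X → InP g X → 0 ≤ lor v X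

/-- The word length. -/
noncomputable def len (g : ℕ) (γ : SurfaceGroup g) : ℕ :=
  sInf {n | ∃ w : List (ZMod (4 * g)), w.length = n ∧ (w.map (ss g)).prod = γ}

end Pool.Agent.AMU.Geo
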