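import Pool.Agent.Lib.AMU.LimDefs

/-!
# Row C1: algebra of the amplitudes (shift, ring homomorphisms, homogeneity)
-/

set_option autoImplicit false

open Filter Topology

namespace Pool.Agent.AMU.Lim

variable {K K' : Type} [Field K] [Field K']

private lemma C1_col (n k : ℤ) (s : List ℤ) (i : ℕ) : n + col k s i = col (n + k) s i := by
  unfold col
  ring

private lemma C1_cup_shift (Δ : ℤ → K) (i : ℕ) (f : Amp K) (n : ℤ) :
    cup (fun x => Δ (n + x)) i (fun k s => f (n + k) s) = fun k s => cup Δ i f (n + k) s := by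
  funext k s
  unfold cup
  simp only [C1_col]

private lemma C1_cross_shift (Δ : ℤ → K) (A : K) (i : ℕ) (f : Amp K) (n : ℤ) :
    cross (fun x => Δ (n + x)) A i (fun k s => f (n + k) s) =
      fun k s => cross Δ A i f (n + k) s := by
  funext k s
  unfold cross tl
  simp only [C1_col]

private lemma C1_fold_shift (Δ : ℤ → K) (A : K) (n : ℤ) (l : List ℕ) (f : Amp K) :
    l.foldl (fun h k => cross (fun x => Δ (n + x)) A k h) (fun k s => f (n + k) s) =
      fun k s => l.foldl (fun h k => cross Δ A k h) f (n + k) s := by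
  induction l generalizing f with
  | nil => rfl
  | cons a l ih =>
    rw [List.foldl_cons, List.foldl_cons, C1_cross_shift, ih]

/-- Shift of the levels: induction on `L` (every operator keeps the base colour). -/
theorem amp_shift (Δ : ℤ → K) (A : K) (rk : List Pt → Pt → ℕ) (n : ℤ) (L : List (Pt × Pt))
    (k : ℤ) (s : List ℤ) :
    amp (fun x => Δ (n + x)) A rk L k s = amp Δ A rk L (n + k) s := by
  have h : amp (fun x => Δ (n + x)) A rk L = fun k s => amp Δ A rk L (n + k) s := by
    induction L with
    | nil => rfl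
    | cons c L ih =>
      unfold amp
      rw [ih]
      unfold insertChord
      rw [C1_cup_shift, C1_fold_shift]
  rw [h]

private lemma C1_cup_map (φ : K →+* K') (Δ : ℤ → K) (i : ℕ) (f : Amp K) :
    cup (fun x => φ (Δ x)) i (fun k s => φ (f k s)) = fun k s => φ (cup Δ i f k s) := by
  funext k s
  unfold cup
  split_ifs
  · rw [map_mul]
  · rw [map_zero]

private lemma C1_cross_map (φ : K →+* K') (Δ : ℤ → K) (A : K) (i : ℕ) (f : Amp K) :
    cross (fun x => φ (Δ x)) (φ A) i (fun k s => φ (f k s)) =
      fun k s => φ (cross Δ A i f k s) := by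
  funext k s
  unfold cross tl
  split_ifs
  · rw [map_add, map_mul, map_mul, map_mul, map_inv₀, map_div₀, map_add]
  · rw [map_add, map_mul, map_mul, map_inv₀, map_zero]

private lemma C1_fold_map (φ : K →+* K') (Δ : ℤ → K) (A : K) (l : List ℕ) (f : Amp K) :
    l.foldl (fun h k => cross (fun x => φ (Δ x)) (φ A) k h) (fun k s => φ (f k s)) =
      fun k s => φ (l.foldl (fun h k => cross Δ A k h) f k s) := by
  induction l generalizing f with
  | nil => rfl
  | cons a l ih =>
    rw [List.foldl_cons, List.foldl_cons, C1_cross_map, ih]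

theorem amp_map (φ : K →+* K') (Δ : ℤ → K) (A : K) (rk : List Pt → Pt → ℕ) (L : List (Pt × Pt))
    (n : ℤ) (s : List ℤ) :
    φ (amp Δ A rk L n s) = amp (fun x => φ (Δ x)) (φ A) rk L n s := by
  have h : amp (fun x => φ (Δ x)) (φ A) rk L = fun k s => φ (amp Δ A rk L k s) := by
    induction L with
    | nil => rfl
    | cons c L ih =>
      unfold amp
      rw [ih]
      unfold insertChord
      rw [C1_cup_map, C1_fold_map]
  rw [h]

private lemma C1_cup_smul (c a : K) (Δ : ℤ → K) (i : ℕ) (f : Amp K) :
    cup (fun x => c * Δ x) i (fun k s => a * f k s) = fun k s => c * a * cup Δ i f k s := by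
  funext k s
  unfold cup
  split_ifs
  · ring
  · ring

private lemma C1_cross_smul {c : K} (hc : c ≠ 0) (a : K) (Δ : ℤ → K) (A : K) (i : ℕ) (f : Amp K) :
    cross (fun x => c * Δ x) A i (fun k s => a * f k s) = fun k s => a * cross Δ A i f k s := by
  funext k s
  unfold cross tl
  split_ifs
  · rw [mul_div_mul_left _ _ hc]
    ring
  · ring

private lemma C1_fold_smul {c : K} (hc : c ≠ 0) (a : K) (Δ : ℤ → K) (A : K) (l : List ℕ)
    (f : Amp K) :
    l.foldl (fun h k => cross (fun x => c * Δ x) A k h) (fun k s => a * f k s) =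
      fun k s => a * l.foldl (fun h k => cross Δ A k h) f k s := by
  induction l generalizing f with
  | nil => rfl
  | cons b l ih =>
    rw [List.foldl_cons, List.foldl_cons, C1_cross_smul hc, ih]

/-- Homogeneity: a cup has the degree one, a crossing the degree zero. -/
theorem amp_smul {c : K} (hc : c ≠ 0) (Δ : ℤ → K) (A : K) (rk : List Pt → Pt → ℕ)
    (L : List (Pt × Pt)) (n : ℤ) (s : List ℤ) :
    amp (fun x => c * Δ x) A rk L n s = c ^ (L.length + 1) * amp Δ A rk L n s := by
  have h : amp (fun x => c * Δ x) A rk L =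
      fun k s => c ^ (L.length + 1) * amp Δ A rk L k s := by
    induction L with
    | nil =>
      funext k s
      show c * Δ k = c ^ (0 + 1) * Δ k
      rw [zero_add, pow_one]
    | cons b L ih =>
      unfold amp
      rw [ih]
      unfold insertChord
      rw [C1_cup_smul, C1_fold_smul hc]
      funext k s
      rw [List.length_cons, pow_succ' c (L.length + 1)]
  rw [h]

theorem coreG_map {N : ℕ} (opp : ZMod N → ZMod N) (w : List (ZMod N)) (ord : ℕ → ℤ) (m : ℕ)
    (φ : K →+* K') (e : ℤ) (d : ℤ → K) (A : K) (t : ℤ → K) (ok : ℤ → Prop) :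
    φ (coreG opp w ord m e d A t ok) =
      coreG opp w ord m e (fun s => φ (d s)) (φ A) (fun s => φ (t s)) ok := by
  unfold coreG
  rw [map_sum]
  refine Finset.sum_congr rfl fun b _ => ?_
  split_ifs
  · rw [map_mul, map_mul, map_mul, map_zpow₀, map_prod, map_prod, amp_map]
    simp only [map_prod, map_inv₀, map_div₀]
  · rw [map_zero]

/-- The state sum `core` in `ℂ`. -/
theorem core_eq {N : ℕ} (opp : ZMod N → ZMod N) (w : List (ZMod N)) (ord : ℕ → ℤ) (m : ℕ)
    (e : ℤ) (y : ℝ) : ((core opp w ord m e y : ℝ) : ℂ) =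
      coreG opp w ord m e (fun s : ℤ => (((-1) ^ s * (y + s) : ℝ) : ℂ)) (-1) (fun _ => 1)
        (fun _ => True) := by
  have h := coreG_map opp w ord m Complex.ofRealHom e (fun s : ℤ => (-1) ^ s * (y + s)) (-1)
    (fun _ => 1) (fun _ => True)
  have h1 : Complex.ofRealHom (-1 : ℝ) = -1 := by
    rw [map_neg, map_one]
  have h2 : Complex.ofRealHom (1 : ℝ) = 1 := map_one _
  rw [h1, h2] at h
  exact h

end Pool.Agent.AMU.Lim
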