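import Pool.Agent.Lib.AMU.LimDefs

/-!
# Row C2: counting the points on the sides
-/

set_option autoImplicit false

open Filter Topology

namespace Pool.Agent.AMU.Lim

variable {N : ℕ} (opp : ZMod N → ZMod N) (w : List (ZMod N)) (ord : ℕ → ℤ) (m : ℕ)

private lemma C2_sum_map_const {α : Type} (l : List α) (c : ℕ) :
    (l.map fun _ => c).sum = l.length * c := by
  induction l with
  | nil => simp
  | cons a l ih => rw [List.map_cons, List.sum_cons, ih, List.length_cons]; ring

theorem chords_length : (chords w m).length = w.length * m := by
  unfold chords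
  rw [List.length_flatMap]
  simp only [List.length_map, List.length_range]
  rw [C2_sum_map_const, List.length_reverse, List.length_range]

theorem ends_length (L : List (Pt × Pt)) : (ends L).length = 2 * L.length := by
  unfold ends
  rw [List.length_flatMap]
  simp only [List.length_cons, List.length_nil]
  rw [C2_sum_map_const]
  ring

/-- The points of the diagram. -/
theorem mem_ends_iff (x : Pt) : x ∈ ends (chords w m) ↔ x.1 < w.length ∧ x.2.1 < m := by
  unfold ends chords
  simp only [List.mem_flatMap, List.mem_map, List.mem_range, List.mem_reverse, List.mem_cons,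
    List.not_mem_nil, or_false]
  constructor
  · rintro ⟨c, ⟨k, hk, u, hu, rfl⟩, rfl | rfl⟩
    · exact ⟨hk, hu⟩
    · exact ⟨Nat.mod_lt _ (by omega), hu⟩
  · obtain ⟨k, u, b⟩ := x
    rintro ⟨hk, hu⟩
    dsimp only at hk hu
    cases b
    · have hl : 0 < w.length := by omega
      refine ⟨_, ⟨(k + w.length - 1) % w.length, Nat.mod_lt _ hl, u, hu, rfl⟩, Or.inr ?_⟩
      have h1 : ((k + w.length - 1) % w.length + 1) % w.length = k := by
        rw [Nat.mod_add_mod]
        have h2 : k + w.length - 1 + 1 = k + w.length := by omega
        rw [h2, Nat.add_mod_right, Nat.mod_eq_of_lt hk]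
      show (k, u, false) = (((k + w.length - 1) % w.length + 1) % w.length, u, false)
      rw [h1]
    · exact ⟨_, ⟨k, hk, u, hu, rfl⟩, Or.inl rfl⟩

private def C2_pts (n m : ℕ) : List Pt :=
  (List.range n).flatMap fun k => (List.range m).flatMap fun u =>
      [((k, u, false) : Pt), (k, u, true)]

private lemma C2_mem_pts (n m : ℕ) (x : Pt) : x ∈ C2_pts n m ↔ x.1 < n ∧ x.2.1 < m := by
  unfold C2_pts
  simp only [List.mem_flatMap, List.mem_range, List.mem_cons, List.not_mem_nil, or_false]
  constructor
  · rintro ⟨k, hk, u, hu, rfl | rfl⟩
    · exact ⟨hk, hu⟩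
    · exact ⟨hk, hu⟩
  · obtain ⟨k, u, b⟩ := x
    rintro ⟨hk, hu⟩
    refine ⟨k, hk, u, hu, ?_⟩
    cases b
    · exact Or.inl rfl
    · exact Or.inr rfl

private lemma C2_nodup_pts (n m : ℕ) : (C2_pts n m).Nodup := by
  unfold C2_pts
  rw [List.nodup_flatMap]
  constructor
  · intro k _
    rw [List.nodup_flatMap]
    constructor
    · intro u _
      simp
    · refine List.nodup_range.pairwise_of_forall_ne fun u _ v _ huv => ?_
      intro x hx hy
      simp only [List.mem_cons, List.not_mem_nil, or_false] at hx hy
      rcases hx with rfl | rfl <;> rcases hy with h | h <;> simp at h <;> exact huv h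
  · refine List.nodup_range.pairwise_of_forall_ne fun k _ l _ hkl => ?_
    intro x hx hy
    simp only [List.mem_flatMap, List.mem_range, List.mem_cons, List.not_mem_nil, or_false]
      at hx hy
    obtain ⟨u, _, hu⟩ := hx
    obtain ⟨v, _, hv⟩ := hy
    rcases hu with rfl | rfl <;> rcases hv with h | h <;> simp at h <;> exact hkl h.1

private lemma C2_length_pts (n m : ℕ) : (C2_pts n m).length = 2 * (n * m) := by
  unfold C2_pts
  rw [List.length_flatMap]
  simp only [List.length_flatMap, List.length_cons, List.length_nil]
  simp only [C2_sum_map_const, List.length_range]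
  ring

/-- Up to order, the list of the points is the list of all triples. -/
theorem ends_perm : (ends (chords w m)).Perm
    ((List.range w.length).flatMap fun k => (List.range m).flatMap fun u =>
      [((k, u, false) : Pt), (k, u, true)]) := by
  have h1 : (C2_pts w.length m).Subperm (ends (chords w m)) := by
    refine List.subperm_of_subset (C2_nodup_pts _ _) ?_
    intro x hx
    exact (mem_ends_iff w m x).2 ((C2_mem_pts _ _ x).1 hx)
  have h2 : (ends (chords w m)).length ≤ (C2_pts w.length m).length := by
    rw [ends_length, chords_length, C2_length_pts]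
  exact (h1.perm_of_length_le h2).symm

theorem rank_lt {P : List Pt} {x : Pt} (hx : x ∈ P) : rank opp w ord P x < P.length := by
  unfold rank
  rcases lt_or_eq_of_le (List.countP_le_length (l := P)
    (p := fun y => decide (ptKey opp w ord y < ptKey opp w ord x))) with h | h
  · exact h
  · have h1 := List.countP_eq_length.1 h x hx
    rw [decide_eq_true_eq] at h1
    exact absurd h1 (lt_irrefl _)

theorem corner_zero (P : List Pt) : corner opp w P 0 = 0 := by
  unfold corner
  rw [List.countP_eq_zero]
  intro y _
  simp

theorem corner_top (hN : 0 < N) (P : List Pt) : corner opp w P N = P.length := by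
  have : NeZero N := ⟨hN.ne'⟩
  unfold corner
  rw [List.countP_eq_length]
  intro y _
  rw [decide_eq_true_eq]
  exact ZMod.val_lt _

private lemma C2_val_eq (hN : 0 < N) {i : ℕ} (hi : i < N) (x : ZMod N) :
    x = (i : ZMod N) ↔ x.val = i := by
  have : NeZero N := ⟨hN.ne'⟩
  constructor
  · rintro rfl
    exact ZMod.val_cast_of_lt hi
  · intro h
    rw [← h, ZMod.natCast_zmod_val]

theorem corner_succ (hN : 0 < N) (P : List Pt) {i : ℕ} (hi : i < N) :
    corner opp w P (i + 1) = corner opp w P i +
      P.countP (fun y => decide (ptSide opp w y = (i : ZMod N))) := by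
  unfold corner
  induction P with
  | nil => rfl
  | cons a P ih =>
    rw [List.countP_cons, List.countP_cons, List.countP_cons, ih]
    simp only [decide_eq_true_eq, C2_val_eq hN hi]
    have h1 : (if (ptSide opp w a).val < i + 1 then 1 else 0) =
        (if (ptSide opp w a).val < i then 1 else 0) +
          (if (ptSide opp w a).val = i then 1 else 0) := by
      split_ifs <;> omega
    rw [h1]
    ring

private lemma C2_ptSide_false (k u : ℕ) : ptSide opp w (k, u, false) = w.getD k 0 := rfl

private lemma C2_ptSide_true (k u : ℕ) : ptSide opp w (k, u, true) = opp (w.getD k 0) := rfl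

/-- The number of points on a side. -/
theorem countP_side (i : ZMod N) :
    (ends (chords w m)).countP (fun y => decide (ptSide opp w y = i)) =
      m * ((List.range w.length).countP (fun k => decide (w.getD k 0 = i)) +
        (List.range w.length).countP (fun k => decide (opp (w.getD k 0) = i))) := by
  rw [(ends_perm w m).countP_eq, List.countP_flatMap]
  have h1 : ∀ k : ℕ, ((List.range m).flatMap fun u => [((k, u, false) : Pt), (k, u, true)]).countP
      (fun y => decide (ptSide opp w y = i)) =
      m * ((if w.getD k 0 = i then 1 else 0) + (if opp (w.getD k 0) = i then 1 else 0)) := by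
    intro k
    rw [List.countP_flatMap]
    have e0 : ∀ (p : Pt → Bool) (a b : Pt), List.countP p [a, b] =
        (if p a = true then 1 else 0) + (if p b = true then 1 else 0) := by
      intro p a b
      rw [List.countP_cons, List.countP_cons, List.countP_nil]
      ring
    have key : ∀ x y : ZMod N, x = y → (if decide (x = i) = true then 1 else 0 : ℕ) =
        if y = i then 1 else 0 := by
      rintro x y rfl
      simp only [decide_eq_true_eq]
    have h2 : ((List.countP fun y => decide (ptSide opp w y = i)) ∘
        fun u => [((k, u, false) : Pt), (k, u, true)]) =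
        fun _ : ℕ => ((if w.getD k 0 = i then 1 else 0) +
          (if opp (w.getD k 0) = i then 1 else 0)) := by
      funext u
      show List.countP (fun y => decide (ptSide opp w y = i))
        [((k, u, false) : Pt), (k, u, true)] = _
      rw [e0]
      beta_reduce
      rw [key _ _ (C2_ptSide_false opp w k u), key _ _ (C2_ptSide_true opp w k u)]
    rw [h2, C2_sum_map_const, List.length_range]
  have h3 : ((List.countP fun y => decide (ptSide opp w y = i)) ∘
      fun k : ℕ => (List.range m).flatMap fun u => [((k, u, false) : Pt), (k, u, true)]) =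
      fun k : ℕ => m * ((if w.getD k 0 = i then 1 else 0) +
        (if opp (w.getD k 0) = i then 1 else 0)) := by
    funext k
    exact h1 k
  rw [h3]
  generalize List.range w.length = l
  induction l with
  | nil => simp
  | cons a l ih =>
    rw [List.map_cons, List.sum_cons, ih, List.countP_cons, List.countP_cons]
    simp only [decide_eq_true_eq]
    ring

private lemma C2_corner_sub (hN : 0 < N) {i : ℕ} (hi : i < N) :
    corner opp w (ends (chords w m)) (i + 1) - corner opp w (ends (chords w m)) i =
      m * ((List.range w.length).countP (fun k => decide (w.getD k 0 = (i : ZMod N))) +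
        (List.range w.length).countP (fun k => decide (opp (w.getD k 0) = (i : ZMod N)))) := by
  rw [corner_succ opp w hN _ hi, Nat.add_sub_cancel_left, countP_side]

/-- Every side or its opposite is canonical. -/
private lemma C2_one (hG : Glue opp) (a : ZMod N) :
    ∑ i ∈ canonN opp, ((if a = (i : ZMod N) then 1 else 0) +
      (if opp a = (i : ZMod N) then 1 else 0)) = 1 := by
  have hN := hG.pos
  have : NeZero N := ⟨hN.ne'⟩
  have h1 : ∀ b : ZMod N, ∑ i ∈ canonN opp, (if b = (i : ZMod N) then 1 else 0) =
      if b.val < (opp b).val then 1 else 0 := by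
    intro b
    have h2 : ∀ i ∈ canonN opp, (if b = (i : ZMod N) then 1 else 0) =
        if i = b.val then 1 else 0 := by
      intro i hi
      have h3 := (Finset.mem_range.1 (Finset.mem_filter.1 hi).1)
      simp only [C2_val_eq hN h3, eq_comm]
    rw [Finset.sum_congr rfl h2, Finset.sum_ite_eq']
    have h4 : b.val ∈ canonN opp ↔ b.val < (opp b).val := by
      unfold canonN
      rw [Finset.mem_filter, Finset.mem_range, ZMod.natCast_zmod_val]
      exact ⟨fun h => h.2, fun h => ⟨ZMod.val_lt b, h⟩⟩
    simp only [h4]
  rw [Finset.sum_add_distrib, h1, h1, hG.inv]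
  have h5 : a.val ≠ (opp a).val := by
    intro h
    exact hG.ne a (ZMod.val_injective N h).symm
  split_ifs <;> omega

/-- Every letter has `m` points on one canonical side. -/
theorem sum_corner (hG : Glue opp) :
    ∑ i ∈ canonN opp, (corner opp w (ends (chords w m)) (i + 1) -
      corner opp w (ends (chords w m)) i) = w.length * m := by
  have hN := hG.pos
  have h1 : ∀ i ∈ canonN opp, corner opp w (ends (chords w m)) (i + 1) -
      corner opp w (ends (chords w m)) i =
      m * ((List.range w.length).countP (fun k => decide (w.getD k 0 = (i : ZMod N))) +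
        (List.range w.length).countP (fun k => decide (opp (w.getD k 0) = (i : ZMod N)))) :=
    fun i hi => C2_corner_sub opp w m hN (Finset.mem_range.1 (Finset.mem_filter.1 hi).1)
  rw [Finset.sum_congr rfl h1, ← Finset.mul_sum]
  have h2 : ∀ l : List ℕ, ∑ i ∈ canonN opp,
      (l.countP (fun k => decide (w.getD k 0 = (i : ZMod N))) +
        l.countP (fun k => decide (opp (w.getD k 0) = (i : ZMod N)))) = l.length := by
    intro l
    induction l with
    | nil => simp
    | cons a l ih =>
      have h3 := C2_one opp hG (w.getD a 0)
      rw [List.length_cons, ← ih, ← h3, ← Finset.sum_add_distrib]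
      refine Finset.sum_congr rfl fun i _ => ?_
      rw [List.countP_cons, List.countP_cons]
      simp only [decide_eq_true_eq]
      ring
  rw [h2, List.length_range, mul_comm]

/-- For `m` even the number of points on the sides before a corner is even. -/
theorem corner_even (hm : Even m) (hN : 0 < N) {i : ℕ} (hi : i ≤ N) :
    Even (corner opp w (ends (chords w m)) i) := by
  induction i with
  | zero =>
    rw [corner_zero]
    exact Even.zero
  | succ i ih =>
    rw [corner_succ opp w hN _ (by omega), countP_side]
    exact (ih (by omega)).add (hm.mul_right _)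

theorem canon_card (hG : Glue opp) : 2 * (canonN opp).card = N := by
  have hN := hG.pos
  have : NeZero N := ⟨hN.ne'⟩
  have h1 : ((Finset.range N).filter (fun i : ℕ => ¬ i < (opp (i : ZMod N)).val)).card =
      (canonN opp).card := by
    refine Finset.card_bij (fun i _ => (opp (i : ZMod N)).val) ?_ ?_ ?_
    · intro i hi
      obtain ⟨h2, h3⟩ := Finset.mem_filter.1 hi
      rw [Finset.mem_range] at h2
      unfold canonN
      rw [Finset.mem_filter, Finset.mem_range, ZMod.natCast_zmod_val, hG.inv,
        ZMod.val_cast_of_lt h2]
      refine ⟨ZMod.val_lt _, ?_⟩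
      rcases lt_or_eq_of_le (not_lt.1 h3) with h | h
      · exact h
      · exfalso
        refine hG.ne (i : ZMod N) (ZMod.val_injective N ?_)
        rw [h, ZMod.val_cast_of_lt h2]
    · intro i hi j hj hij
      have h2 := Finset.mem_range.1 (Finset.mem_filter.1 hi).1
      have h3 := Finset.mem_range.1 (Finset.mem_filter.1 hj).1
      have h4 := ZMod.val_injective N hij
      have h5 := congrArg opp h4
      rw [hG.inv, hG.inv] at h5
      have h6 := congrArg ZMod.val h5
      rwa [ZMod.val_cast_of_lt h2, ZMod.val_cast_of_lt h3] at h6
    · intro j hj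
      obtain ⟨h2, h3⟩ := Finset.mem_filter.1 hj
      rw [Finset.mem_range] at h2
      refine ⟨(opp (j : ZMod N)).val, ?_, ?_⟩
      · rw [Finset.mem_filter, Finset.mem_range, ZMod.natCast_zmod_val, hG.inv,
          ZMod.val_cast_of_lt h2]
        exact ⟨ZMod.val_lt _, not_lt.2 h3.le⟩
      · rw [ZMod.natCast_zmod_val, hG.inv, ZMod.val_cast_of_lt h2]
  have h2 := Finset.card_filter_add_card_filter_not (s := Finset.range N)
    (fun i : ℕ => i < (opp (i : ZMod N)).val)
  rw [h1, Finset.card_range] at h2
  change (canonN opp).card + (canonN opp).card = N at h2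
  omega

end Pool.Agent.AMU.Lim
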