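import Pool.Agent.Lib.AMU.LimA1
import Pool.Agent.Lib.AMU.LimA2

/-!
# Row C3: homogeneity and change of the twists
-/

set_option autoImplicit false

open Filter Topology

namespace Pool.Agent.AMU.Lim

variable {K : Type} [Field K] {N : ℕ} {opp : ZMod N → ZMod N} (w : List (ZMod N)) (ord : ℕ → ℤ)
  (m : ℕ)

private lemma C3_icc (hN : 0 < N) {i : ℕ} (hi : i < N) :
    (Finset.Icc (corner opp w (ends (chords w m)) i) (corner opp w (ends (chords w m)) (i + 1))).card
      = (corner opp w (ends (chords w m)) (i + 1) - corner opp w (ends (chords w m)) i) + 1 := by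
  rw [Nat.card_Icc]
  have h := corner_succ opp w hN (ends (chords w m)) hi
  omega

private lemma C3_sum (hG : Glue opp) :
    ∑ i ∈ canonN opp, (Finset.Icc (corner opp w (ends (chords w m)) i)
      (corner opp w (ends (chords w m)) (i + 1))).card = w.length * m + (canonN opp).card := by
  have h1 : ∀ i ∈ canonN opp, (Finset.Icc (corner opp w (ends (chords w m)) i)
      (corner opp w (ends (chords w m)) (i + 1))).card =
      (corner opp w (ends (chords w m)) (i + 1) - corner opp w (ends (chords w m)) i) + 1 :=
    fun i hi => C3_icc w m hG.pos (Finset.mem_range.1 (Finset.mem_filter.1 hi).1)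
  rw [Finset.sum_congr rfl h1, Finset.sum_add_distrib, sum_corner opp w m hG, Finset.sum_const,
    smul_eq_mul, mul_one]

private lemma C3_prod (hG : Glue opp) {c : K} (g : ℕ → K) :
    (∏ i ∈ canonN opp, ∏ j ∈ Finset.Icc (corner opp w (ends (chords w m)) i)
      (corner opp w (ends (chords w m)) (i + 1)), (c * g j)⁻¹) =
    (c⁻¹) ^ (w.length * m + (canonN opp).card) *
      ∏ i ∈ canonN opp, ∏ j ∈ Finset.Icc (corner opp w (ends (chords w m)) i)
        (corner opp w (ends (chords w m)) (i + 1)), (g j)⁻¹ := by
  rw [← C3_sum w m hG, ← Finset.prod_pow_eq_pow_sum, ← Finset.prod_mul_distrib]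
  refine Finset.prod_congr rfl fun i _ => ?_
  rw [← Finset.prod_const, ← Finset.prod_mul_distrib]
  refine Finset.prod_congr rfl fun j _ => ?_
  rw [mul_inv]

/-- Homogeneity: `e`, `- (canonical sides) - w.length * m` (intervals: `card (Icc a b) = b + 1 - a`,
`sum_corner`), `w.length * m + 1` (`amp_smul`, `chords_length`). -/
theorem coreG_smul (hG : Glue opp) {c : K} (hc : c ≠ 0) (e : ℤ) (d : ℤ → K) (A : K) (t : ℤ → K)
    (ok : ℤ → Prop) :
    coreG opp w ord m e (fun s => c * d s) A t ok =
      c ^ chiT opp e * coreG opp w ord m e d A t ok := by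
  unfold coreG
  rw [Finset.mul_sum]
  refine Finset.sum_congr rfl fun b _ => ?_
  split_ifs with h
  · have h1 := C3_prod w m hG (c := c) (fun j => d (lev (List.ofFn fun i => sgn (b i)) j))
    unfold canonN at h1
    rw [h1, amp_smul hc, chords_length, mul_zpow]
    have h2 : c ^ chiT opp e = c ^ e * ((c⁻¹) ^ (w.length * m + (canonN opp).card) *
        c ^ (w.length * m + 1)) := by
      rw [inv_pow, ← zpow_natCast, ← zpow_natCast, ← zpow_neg, ← zpow_add₀ hc, ← zpow_add₀ hc]
      congr 1
      unfold chiT
      push_cast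
      ring
    rw [h2]
    unfold canonN
    ring
  · rw [mul_zero]

/-- For `m` even a common sign of the twist ratios does not matter (`rank_lt`, `mem_ends_iff`: the
step at the point `(0, u, false)` is `1` or `-1`). -/
theorem coreG_twist (hw : w ≠ []) (hm : Even m) {σ : K} (hσ : σ ^ 2 = 1) (e : ℤ) (d : ℤ → K) (A : K)
    (t t' : ℤ → K) (h1 : ∀ l, t l / t (l + 1) = σ * (t' l / t' (l + 1)))
    (h2 : ∀ l, t l / t (l - 1) = σ * (t' l / t' (l - 1))) (ok : ℤ → Prop) :
    coreG opp w ord m e d A t ok = coreG opp w ord m e d A t' ok := by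
  unfold coreG
  refine Finset.sum_congr rfl fun b _ => ?_
  have hlev : ∀ (s : List ℤ) (i : ℕ), lev s (i + 1) = lev s i + s.getD i 0 := by
    intro s i
    unfold lev
    rcases lt_or_ge i s.length with hi | hi
    · rw [List.sum_take_succ s i hi, List.getD_eq_getElem _ _ hi]
    · rw [List.take_of_length_le (by omega), List.take_of_length_le hi,
        List.getD_eq_default _ _ hi, add_zero]
  have hsg : ∀ i < 2 * (w.length * m), (List.ofFn fun i => sgn (b i)).getD i 0 = 1 ∨
      (List.ofFn fun i => sgn (b i)).getD i 0 = -1 := by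
    intro i hi
    have hi' : i < (List.ofFn fun i => sgn (b i)).length := by
      rw [List.length_ofFn]
      exact hi
    rw [List.getD_eq_getElem _ _ hi', List.getElem_ofFn]
    cases b ⟨i, hi⟩
    · exact Or.inr rfl
    · exact Or.inl rfl
  have hpr : (∏ u ∈ Finset.range m,
      (t (lev (List.ofFn fun i => sgn (b i))
          (rank opp w ord (ends (chords w m)) (0, u, false))) /
        t (lev (List.ofFn fun i => sgn (b i))
          (rank opp w ord (ends (chords w m)) (0, u, false) + 1)))) =
      ∏ u ∈ Finset.range m,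
      (t' (lev (List.ofFn fun i => sgn (b i))
          (rank opp w ord (ends (chords w m)) (0, u, false))) /
        t' (lev (List.ofFn fun i => sgn (b i))
          (rank opp w ord (ends (chords w m)) (0, u, false) + 1))) := by
    have h3 : ∀ u ∈ Finset.range m,
        (t (lev (List.ofFn fun i => sgn (b i))
            (rank opp w ord (ends (chords w m)) (0, u, false))) /
          t (lev (List.ofFn fun i => sgn (b i))
            (rank opp w ord (ends (chords w m)) (0, u, false) + 1))) =
        σ * (t' (lev (List.ofFn fun i => sgn (b i))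
            (rank opp w ord (ends (chords w m)) (0, u, false))) /
          t' (lev (List.ofFn fun i => sgn (b i))
            (rank opp w ord (ends (chords w m)) (0, u, false) + 1))) := by
      intro u hu
      have h4 : ((0, u, false) : Pt) ∈ ends (chords w m) :=
        (mem_ends_iff w m _).2 ⟨List.length_pos_of_ne_nil hw, Finset.mem_range.1 hu⟩
      have h5 := rank_lt opp w ord h4
      rw [ends_length, chords_length] at h5
      rw [hlev]
      rcases hsg _ h5 with h6 | h6
      · rw [h6]
        exact h1 _
      · rw [h6, ← sub_eq_add_neg]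
        exact h2 _
    have h7 : σ ^ m = 1 := by
      obtain ⟨k, hk⟩ := hm
      rw [hk, ← two_mul, pow_mul, hσ, one_pow]
    rw [Finset.prod_congr rfl h3, Finset.prod_mul_distrib, Finset.prod_const, Finset.card_range,
      h7, one_mul]
  rw [hpr]

/-- The term `n = 0` vanishes. -/
theorem colG_zero (e : ℤ) (A : ℂ) (p : ℕ) : colG opp w ord m e A p 0 = 0 := by
  unfold colG coreG
  refine Finset.sum_eq_zero fun b _ => ?_
  rw [if_neg]
  intro h
  have h1 := (h.1 0 (Nat.zero_le _)).1
  unfold lev at h1
  rw [List.take_zero, List.sum_nil, add_zero] at h1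
  exact lt_irrefl _ h1

/-- A common sign of the dimensions does not matter up to sign. -/
theorem coreG_sign (hG : Glue opp) (k : ℤ) (e : ℤ) (d : ℤ → K) (A : K) (t : ℤ → K)
    (ok : ℤ → Prop) :
    coreG opp w ord m e (fun s => (-1) ^ k * d s) A t ok =
      ((-1) ^ k) ^ chiT opp e * coreG opp w ord m e d A t ok :=
  coreG_smul w ord m hG (zpow_ne_zero k (neg_ne_zero.2 one_ne_zero)) e d A t ok

end Pool.Agent.AMU.Lim
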