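import Pool.Agent.Lib.AMU.LimDefs

/-!
# Row C4: bounds of the amplitudes and of the state sums
-/

set_option autoImplicit false

open Filter Topology

namespace Pool.Agent.AMU.Lim

/-- A family of amplitudes with uniform bounds. -/
private def Bd (f : (ℤ → ℂ) → ℂ → Amp ℂ) : Prop :=
  ∀ l : ℕ, ∃ S : ℕ, ∀ M : ℝ, 1 ≤ M → ∃ C : ℝ, 0 ≤ C ∧ ∀ (d : ℤ → ℂ) (A : ℂ), ‖A‖ = 1 →
    (∀ s : ℤ, |s| ≤ S → ‖d s‖ ≤ M ∧ ‖(d s)⁻¹‖ ≤ M) →
    ∀ s : List ℤ, s.length ≤ l → (∀ x ∈ s, |x| ≤ 1) → ‖f d A 0 s‖ ≤ C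

private theorem abs_sum_le (s : List ℤ) (hs : ∀ x ∈ s, |x| ≤ 1) : |s.sum| ≤ s.length := by
  induction s with
  | nil => simp
  | cons a s ih =>
    have h1 := hs a (by simp)
    have h2 := ih fun x hx => hs x (by simp [hx])
    rw [List.sum_cons, List.length_cons]
    have := abs_add_le a s.sum
    push_cast
    linarith

private theorem abs_take_sum_le (s : List ℤ) (hs : ∀ x ∈ s, |x| ≤ 1) (i : ℕ) :
    |(s.take i).sum| ≤ s.length := by
  refine (abs_sum_le _ fun x hx => hs x (List.mem_of_mem_take hx)).trans ?_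
  have : (s.take i).length ≤ s.length := List.length_take_le' i s
  exact_mod_cast this

private theorem Bd_base : Bd (fun d _ => fun n _ => d n) := by
  intro l
  refine ⟨0, fun M hM => ⟨M, by linarith, fun d A _ hd s _ _ => ?_⟩⟩
  exact (hd 0 (by simp)).1

private theorem Bd_cup {f : (ℤ → ℂ) → ℂ → Amp ℂ} (hf : Bd f) (i : ℕ) :
    Bd (fun d A => cup d i (f d A)) := by
  intro l
  obtain ⟨S, hS⟩ := hf l
  refine ⟨max S l, fun M hM => ?_⟩
  obtain ⟨C, hC, hb⟩ := hS M hM
  refine ⟨M * C, by positivity, fun d A hA hd s hl hs => ?_⟩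
  have h1 := hb d A hA (fun k hk => hd k (hk.trans (by simp)))
  simp only [cup]
  split_ifs with h
  · rw [norm_mul]
    have h2 : ‖d (col 0 s (i + 1))‖ ≤ M := by
      refine (hd _ ?_).1
      rw [col, zero_add]
      refine (abs_take_sum_le s hs _).trans ?_
      have : s.length ≤ max S l := hl.trans (le_max_right _ _)
      exact_mod_cast this
    have h3 : ‖f d A 0 (s.take i ++ s.drop (i + 2))‖ ≤ C := by
      refine h1 _ ?_ ?_
      · rw [List.length_append, List.length_take, List.length_drop]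
        omega
      · intro x hx
        rcases List.mem_append.1 hx with hx | hx
        · exact hs x (List.mem_of_mem_take hx)
        · exact hs x (List.mem_of_mem_drop hx)
    exact mul_le_mul h2 h3 (norm_nonneg _) (by linarith)
  · rw [norm_zero]; positivity

private theorem Bd_cross {f : (ℤ → ℂ) → ℂ → Amp ℂ} (hf : Bd f) (i : ℕ) :
    Bd (fun d A => cross d A i (f d A)) := by
  intro l
  obtain ⟨S, hS⟩ := hf (l + 2)
  refine ⟨max S l, fun M hM => ?_⟩
  obtain ⟨C, hC, hb⟩ := hS M hM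
  refine ⟨C + M * M * (C + C), by positivity, fun d A hA hd s hl hs => ?_⟩
  have h1 := hb d A hA (fun k hk => hd k (hk.trans (by simp)))
  have hcol : ∀ j, |col 0 s j| ≤ (max S l : ℕ) := by
    intro j
    rw [col, zero_add]
    refine (abs_take_sum_le s hs _).trans ?_
    have : s.length ≤ max S l := hl.trans (le_max_right _ _)
    exact_mod_cast this
  have hlist : ∀ a b : ℤ, |a| ≤ 1 → |b| ≤ 1 →
      ‖f d A 0 (s.take i ++ [a, b] ++ s.drop (i + 2))‖ ≤ C := by
    intro a b ha hb'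
    refine h1 _ ?_ ?_
    · rw [List.length_append, List.length_append, List.length_take, List.length_drop]
      simp only [List.length_cons, List.length_nil]
      omega
    · intro x hx
      rcases List.mem_append.1 hx with hx | hx
      · rcases List.mem_append.1 hx with hx | hx
        · exact hs x (List.mem_of_mem_take hx)
        · simp only [List.mem_cons, List.not_mem_nil, or_false] at hx
          rcases hx with rfl | rfl
          · exact ha
          · exact hb'
      · exact hs x (List.mem_of_mem_drop hx)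
  have hA' : ‖A⁻¹‖ = 1 := by rw [norm_inv, hA, inv_one]
  have htl : ‖tl d i (f d A) 0 s‖ ≤ M * M * (C + C) := by
    simp only [tl]
    split_ifs with h
    · rw [norm_mul, div_eq_mul_inv, norm_mul]
      have h4 : ‖d (col 0 s (i + 1))‖ ≤ M := (hd _ (hcol _)).1
      have h5 : ‖(d (col 0 s i))⁻¹‖ ≤ M := (hd _ (hcol _)).2
      have h6 := norm_add_le (f d A 0 (s.take i ++ [1, -1] ++ s.drop (i + 2)))
        (f d A 0 (s.take i ++ [-1, 1] ++ s.drop (i + 2)))
      have h7 := hlist 1 (-1) (by norm_num) (by norm_num)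
      have h8 := hlist (-1) 1 (by norm_num) (by norm_num)
      refine mul_le_mul (mul_le_mul h4 h5 (norm_nonneg _) (by linarith)) (by linarith)
        (norm_nonneg _) (by positivity)
    · rw [norm_zero]; positivity
  simp only [cross]
  refine (norm_add_le _ _).trans ?_
  rw [norm_mul, norm_mul, hA, hA', one_mul, one_mul]
  exact add_le_add (h1 s (by omega) hs) htl

private theorem Bd_foldl (l : List ℕ) : ∀ {f : (ℤ → ℂ) → ℂ → Amp ℂ}, Bd f →
    Bd (fun d A => l.foldl (fun h k => cross d A k h) (f d A)) := by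
  induction l with
  | nil => intro f hf; exact hf
  | cons k l ih =>
    intro f hf
    exact ih (f := fun d A => cross d A k (f d A)) (Bd_cross hf k)

private theorem Bd_amp (rk : List Pt → Pt → ℕ) (L : List (Pt × Pt)) :
    Bd (fun d A => amp d A rk L) := by
  induction L with
  | nil => exact Bd_base
  | cons c L ih =>
    exact Bd_foldl _ (f := fun d A => cup d _ (amp d A rk L)) (Bd_cup ih _)

/-- Induction on `L`; the levels of a list of steps `≤ 1` are bounded by its length. -/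
theorem amp_bound (rk : List Pt → Pt → ℕ) (L : List (Pt × Pt)) (l : ℕ) :
    ∃ S : ℕ, ∀ M : ℝ, 1 ≤ M → ∃ C : ℝ, 0 ≤ C ∧ ∀ (d : ℤ → ℂ) (A : ℂ), ‖A‖ = 1 →
      (∀ s : ℤ, |s| ≤ S → ‖d s‖ ≤ M ∧ ‖(d s)⁻¹‖ ≤ M) →
      ∀ s : List ℤ, s.length ≤ l → (∀ x ∈ s, |x| ≤ 1) → ‖amp d A rk L 0 s‖ ≤ C :=
  Bd_amp rk L l

private theorem zpow_bound {z : ℂ} {M : ℝ} (h1 : ‖z‖ ≤ M) (h2 : ‖z⁻¹‖ ≤ M)
    (e : ℤ) : ‖z ^ e‖ ≤ M ^ e.natAbs := by
  rcases Int.natAbs_eq e with he | he
  · rw [he, zpow_natCast, norm_pow, Int.natAbs_natCast]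
    exact pow_le_pow_left₀ (norm_nonneg _) h1 _
  · rw [he, zpow_neg, zpow_natCast, ← inv_pow, norm_pow, Int.natAbs_neg, Int.natAbs_natCast]
    exact pow_le_pow_left₀ (norm_nonneg _) h2 _

theorem coreG_bound {N : ℕ} (opp : ZMod N → ZMod N) (w : List (ZMod N)) (ord : ℕ → ℤ) (m : ℕ)
    (e : ℤ) :
    ∃ S : ℕ, ∀ M : ℝ, 1 ≤ M → ∃ C : ℝ, 0 ≤ C ∧ ∀ (d : ℤ → ℂ) (A : ℂ) (t : ℤ → ℂ) (ok : ℤ → Prop),
      ‖A‖ = 1 → (∀ s, ‖t s‖ = 1) → (∀ s : ℤ, |s| ≤ S → ‖d s‖ ≤ M ∧ ‖(d s)⁻¹‖ ≤ M) →
      ‖coreG opp w ord m e d A t ok‖ ≤ C := by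
  classical
  obtain ⟨S, hS⟩ := amp_bound (rank opp w ord) (chords w m) (2 * (w.length * m))
  refine ⟨max S (2 * (w.length * m)), fun M hM => ?_⟩
  obtain ⟨C, hC, hb⟩ := hS M hM
  have hM0 : 0 < M := by linarith
  set B : ℝ := M ^ e.natAbs *
      (∏ i ∈ (Finset.range N).filter (fun i : ℕ => i < (opp (i : ZMod N)).val),
        ∏ _j ∈ Finset.Icc (corner opp w (ends (chords w m)) i)
          (corner opp w (ends (chords w m)) (i + 1)), M) * 1 * C with hB
  have hB0 : 0 ≤ B := by
    rw [hB]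
    have : 0 ≤ ∏ i ∈ (Finset.range N).filter (fun i : ℕ => i < (opp (i : ZMod N)).val),
        ∏ _j ∈ Finset.Icc (corner opp w (ends (chords w m)) i)
          (corner opp w (ends (chords w m)) (i + 1)), M :=
      Finset.prod_nonneg fun _ _ => Finset.prod_nonneg fun _ _ => hM0.le
    positivity
  refine ⟨∑ _b : Fin (2 * (w.length * m)) → Bool, B, Finset.sum_nonneg fun _ _ => hB0,
    fun d A t ok hA ht hd => ?_⟩
  unfold coreG
  refine norm_sum_le_of_le _ fun b _ => ?_
  split_ifs with h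
  · have hlen : (List.ofFn fun i => sgn (b i)).length = 2 * (w.length * m) := by simp
    have hst : ∀ x ∈ (List.ofFn fun i => sgn (b i)), |x| ≤ 1 := by
      intro x hx
      rw [List.mem_ofFn] at hx
      obtain ⟨i, rfl⟩ := hx
      cases b i <;> simp [sgn]
    have hlev : ∀ j, |lev (List.ofFn fun i => sgn (b i)) j| ≤
        ((max S (2 * (w.length * m)) : ℕ) : ℤ) := by
      intro j
      refine (abs_take_sum_le _ hst j).trans ?_
      rw [hlen]
      have : 2 * (w.length * m) ≤ max S (2 * (w.length * m)) := le_max_right _ _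
      exact_mod_cast this
    have h0 := hd 0 (by simp)
    have hS' : ∀ s : ℤ, |s| ≤ S → ‖d s‖ ≤ M ∧ ‖(d s)⁻¹‖ ≤ M := fun s hs =>
      hd s (hs.trans (by simp))
    have h1 : ‖d 0 ^ e‖ ≤ M ^ e.natAbs := zpow_bound h0.1 h0.2 e
    have h2 : ‖∏ i ∈ (Finset.range N).filter (fun i : ℕ => i < (opp (i : ZMod N)).val),
        ∏ j ∈ Finset.Icc (corner opp w (ends (chords w m)) i)
          (corner opp w (ends (chords w m)) (i + 1)),
            (d (lev (List.ofFn fun i => sgn (b i)) j))⁻¹‖ ≤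
        ∏ i ∈ (Finset.range N).filter (fun i : ℕ => i < (opp (i : ZMod N)).val),
        ∏ _j ∈ Finset.Icc (corner opp w (ends (chords w m)) i)
          (corner opp w (ends (chords w m)) (i + 1)), M := by
      rw [norm_prod]
      refine Finset.prod_le_prod (fun _ _ => norm_nonneg _) fun i _ => ?_
      rw [norm_prod]
      exact Finset.prod_le_prod (fun _ _ => norm_nonneg _) fun j _ => (hd _ (hlev j)).2
    have h3 : ‖∏ u ∈ Finset.range m,
        (t (lev (List.ofFn fun i => sgn (b i))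
            (rank opp w ord (ends (chords w m)) (0, u, false))) /
          t (lev (List.ofFn fun i => sgn (b i))
            (rank opp w ord (ends (chords w m)) (0, u, false) + 1)))‖ ≤ 1 := by
      rw [norm_prod]
      refine Finset.prod_le_one (fun _ _ => norm_nonneg _) fun u _ => ?_
      rw [norm_div, ht, ht, div_one]
    have h4 := hb d A hA hS' (List.ofFn fun i => sgn (b i)) hlen.le hst
    rw [norm_mul, norm_mul, norm_mul, hB]
    have hP : 0 ≤ ∏ i ∈ (Finset.range N).filter (fun i : ℕ => i < (opp (i : ZMod N)).val),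
        ∏ _j ∈ Finset.Icc (corner opp w (ends (chords w m)) i)
          (corner opp w (ends (chords w m)) (i + 1)), M :=
      Finset.prod_nonneg fun _ _ => Finset.prod_nonneg fun _ _ => hM0.le
    refine mul_le_mul (mul_le_mul (mul_le_mul h1 h2 (norm_nonneg _) (by positivity)) h3
      (norm_nonneg _) (by positivity)) h4 (norm_nonneg _) (by positivity)
  · rw [norm_zero]; exact hB0

end Pool.Agent.AMU.Lim
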