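import Pool.Agent.Lib.AMU.LimDefs

/-!
# Row C5: continuity of the amplitudes and of the state sums
-/

set_option autoImplicit false

open Filter Topology

namespace Pool.Agent.AMU.Lim

private lemma LimB2_cup {ι : Type} {l : Filter ι} {d : ι → ℤ → ℂ} {d0 : ℤ → ℂ}
    (hd : ∀ s, Tendsto (fun i => d i s) l (𝓝 (d0 s))) (k : ℕ) {f : ι → Amp ℂ} {f0 : Amp ℂ}
    (hf : ∀ n s, Tendsto (fun i => f i n s) l (𝓝 (f0 n s))) (n : ℤ) (s : List ℤ) :
    Tendsto (fun i => cup (d i) k (f i) n s) l (𝓝 (cup d0 k f0 n s)) := by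
  unfold cup
  split_ifs with h
  · exact (hd _).mul (hf _ _)
  · exact tendsto_const_nhds

private lemma LimB2_tl {ι : Type} {l : Filter ι} {d : ι → ℤ → ℂ} {d0 : ℤ → ℂ}
    (hd : ∀ s, Tendsto (fun i => d i s) l (𝓝 (d0 s))) (hd0 : ∀ s, d0 s ≠ 0) (k : ℕ)
    {f : ι → Amp ℂ} {f0 : Amp ℂ}
    (hf : ∀ n s, Tendsto (fun i => f i n s) l (𝓝 (f0 n s))) (n : ℤ) (s : List ℤ) :
    Tendsto (fun i => tl (d i) k (f i) n s) l (𝓝 (tl d0 k f0 n s)) := by
  unfold tl
  split_ifs with h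
  · exact ((hd _).div (hd _) (hd0 _)).mul ((hf _ _).add (hf _ _))
  · exact tendsto_const_nhds

private lemma LimB2_cross {ι : Type} {l : Filter ι} {d : ι → ℤ → ℂ} {d0 : ℤ → ℂ} {A : ι → ℂ}
    {A0 : ℂ} (hd : ∀ s, Tendsto (fun i => d i s) l (𝓝 (d0 s))) (hd0 : ∀ s, d0 s ≠ 0)
    (hA : Tendsto A l (𝓝 A0)) (hA0 : A0 ≠ 0) (k : ℕ) {f : ι → Amp ℂ} {f0 : Amp ℂ}
    (hf : ∀ n s, Tendsto (fun i => f i n s) l (𝓝 (f0 n s))) (n : ℤ) (s : List ℤ) :
    Tendsto (fun i => cross (d i) (A i) k (f i) n s) l (𝓝 (cross d0 A0 k f0 n s)) := by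
  unfold cross
  exact (hA.mul (hf n s)).add ((hA.inv₀ hA0).mul (LimB2_tl hd hd0 k hf n s))

private lemma LimB2_fold {ι : Type} {l : Filter ι} {d : ι → ℤ → ℂ} {d0 : ℤ → ℂ} {A : ι → ℂ}
    {A0 : ℂ} (hd : ∀ s, Tendsto (fun i => d i s) l (𝓝 (d0 s))) (hd0 : ∀ s, d0 s ≠ 0)
    (hA : Tendsto A l (𝓝 A0)) (hA0 : A0 ≠ 0) (ks : List ℕ) {f : ι → Amp ℂ} {f0 : Amp ℂ}
    (hf : ∀ n s, Tendsto (fun i => f i n s) l (𝓝 (f0 n s))) (n : ℤ) (s : List ℤ) :
    Tendsto (fun i => ks.foldl (fun h k => cross (d i) (A i) k h) (f i) n s) l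
      (𝓝 (ks.foldl (fun h k => cross d0 A0 k h) f0 n s)) := by
  induction ks generalizing f f0 with
  | nil => exact hf n s
  | cons k ks ih =>
    simp only [List.foldl_cons]
    exact ih (LimB2_cross hd hd0 hA hA0 k hf)

theorem amp_tendsto {ι : Type} {l : Filter ι} (d : ι → ℤ → ℂ) (A : ι → ℂ) (d0 : ℤ → ℂ) (A0 : ℂ)
    (hd : ∀ s, Tendsto (fun i => d i s) l (𝓝 (d0 s))) (hA : Tendsto A l (𝓝 A0)) (hA0 : A0 ≠ 0)
    (hd0 : ∀ s, d0 s ≠ 0) (rk : List Pt → Pt → ℕ) (L : List (Pt × Pt)) (n : ℤ) (s : List ℤ) :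
    Tendsto (fun i => amp (d i) (A i) rk L n s) l (𝓝 (amp d0 A0 rk L n s)) := by
  induction L generalizing n s with
  | nil =>
    unfold amp
    exact hd n
  | cons c L ih =>
    unfold amp insertChord
    exact LimB2_fold hd hd0 hA hA0 _ (LimB2_cup hd _ ih) n s

theorem coreG_tendsto {N : ℕ} (opp : ZMod N → ZMod N) (w : List (ZMod N)) (ord : ℕ → ℤ) (m : ℕ)
    (e : ℤ) {ι : Type} {l : Filter ι} (d : ι → ℤ → ℂ) (A : ι → ℂ) (t : ι → ℤ → ℂ)
    (ok : ι → ℤ → Prop) (d0 : ℤ → ℂ) (A0 : ℂ) (t0 : ℤ → ℂ)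
    (hd : ∀ s, Tendsto (fun i => d i s) l (𝓝 (d0 s))) (hA : Tendsto A l (𝓝 A0)) (hA0 : A0 ≠ 0)
    (hd0 : ∀ s, d0 s ≠ 0) (ht : ∀ s, Tendsto (fun i => t i s) l (𝓝 (t0 s))) (ht0 : ∀ s, t0 s ≠ 0)
    (hok : ∀ s, ∀ᶠ i in l, ok i s) :
    Tendsto (fun i => coreG opp w ord m e (d i) (A i) (t i) (ok i)) l
      (𝓝 (coreG opp w ord m e d0 A0 t0 (fun _ => True))) := by
  classical
  unfold coreG
  refine tendsto_finsetSum _ fun b _ => ?_
  by_cases h : CoreAdm opp w ord m (fun _ => True) (List.ofFn fun i => sgn (b i))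
  · rw [if_pos h]
    have hev : ∀ᶠ i in l, ∀ j ≤ (List.ofFn fun i => sgn (b i)).length,
        ok i (lev (List.ofFn fun i => sgn (b i)) j) := by
      have h1 : ∀ᶠ i in l, ∀ j ∈ Finset.range ((List.ofFn fun i => sgn (b i)).length + 1),
          ok i (lev (List.ofFn fun i => sgn (b i)) j) :=
        (Filter.eventually_all_finset _).2 fun j _ => hok _
      filter_upwards [h1] with i hi j hj
      exact hi j (Finset.mem_range.2 (Nat.lt_succ_of_le hj))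
    refine Tendsto.congr' (f₁ := fun i => d i 0 ^ e *
      (∏ i' ∈ (Finset.range N).filter (fun i : ℕ => i < (opp (i : ZMod N)).val),
        ∏ j ∈ Finset.Icc (corner opp w (ends (chords w m)) i')
          (corner opp w (ends (chords w m)) (i' + 1)),
            (d i (lev (List.ofFn fun i => sgn (b i)) j))⁻¹) *
      (∏ u ∈ Finset.range m,
        (t i (lev (List.ofFn fun i => sgn (b i))
            (rank opp w ord (ends (chords w m)) (0, u, false))) /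
          t i (lev (List.ofFn fun i => sgn (b i))
            (rank opp w ord (ends (chords w m)) (0, u, false) + 1)))) *
      amp (d i) (A i) (rank opp w ord) (chords w m) 0 (List.ofFn fun i => sgn (b i))) ?_ ?_
    · filter_upwards [hev] with i hi
      rw [if_pos (show CoreAdm opp w ord m (ok i) (List.ofFn fun i => sgn (b i)) from
        ⟨hi, h.2⟩)]
    · refine Tendsto.mul (Tendsto.mul (Tendsto.mul ?_ ?_) ?_) ?_
      · exact (hd 0).zpow₀ e (Or.inl (hd0 0))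
      · refine tendsto_finsetProd _ fun i' _ => tendsto_finsetProd _ fun j _ => ?_
        exact (hd _).inv₀ (hd0 _)
      · refine tendsto_finsetProd _ fun u _ => ?_
        exact (ht _).div (ht _) (ht0 _)
      · exact amp_tendsto d A d0 A0 hd hA hA0 hd0 _ _ _ _
  · rw [if_neg h]
    have h2 : ∀ i, ¬ CoreAdm opp w ord m (ok i) (List.ofFn fun i => sgn (b i)) := by
      intro i hi
      exact h ⟨fun _ _ => trivial, hi.2⟩
    simp only [h2, if_false]
    exact tendsto_const_nhds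

end Pool.Agent.AMU.Lim
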