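import Pool.Agent.Lib.AMU.Iface

/-!
# Sections C, P: definitions

`chiT` is the degree of homogeneity of the general state sum, `Aj a p` the root of unity
`-exp (2 pi i 2^a / p)`, `th a p = 4 pi 2^a / p`, `locG` the state sum near a zero of the quantum
integer.
-/

set_option autoImplicit false

open Filter Topology

namespace Pool.Agent.AMU.Lim

/-- A gluing without fixed points. -/
structure Glue {N : ℕ} (opp : ZMod N → ZMod N) : Prop where
  pos : 0 < N
  inv : ∀ i, opp (opp i) = i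
  ne : ∀ i, opp i ≠ i

/-- The canonical sides (first sides of the pairs of sides). -/
def canonN {N : ℕ} (opp : ZMod N → ZMod N) : Finset ℕ :=
  (Finset.range N).filter (fun i : ℕ => i < (opp (i : ZMod N)).val)

/-- The degree of homogeneity of `coreG` in `d`. -/
def chiT {N : ℕ} (opp : ZMod N → ZMod N) (e : ℤ) : ℤ := e + 1 - (canonN opp).card

/-- The combination of the cables for the colour `c`. -/
def colComb {K : Type} [Field K] (c : ℕ) (G : ℕ → K) : K :=
  ∑ i ∈ Finset.range (c / 2 + 1), (-1) ^ i * ((c - i).choose i : K) * G (c - 2 * i)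

/-- The angle `4 pi 2^a / p`. -/
noncomputable def th (a p : ℕ) : ℝ := 4 * Real.pi * 2 ^ a / p

/-- The root of unity `-exp (2 pi i 2^a / p)`. -/
noncomputable def Aj (a p : ℕ) : ℂ := -Complex.exp (Complex.I * (th a p) / 2)

/-- The position of the colour `n` relative to the `k`-th zero `k p / (4 * 2^a)`. -/
noncomputable def yk (a p k : ℕ) (n : ℤ) : ℝ := n - k * p / (4 * 2 ^ a)

section

variable {N : ℕ} (opp : ZMod N → ZMod N) (w : List (ZMod N)) (ord : ℕ → ℤ) (m : ℕ)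

/-- The local state sum. -/
noncomputable def locG (e : ℤ) (θ y : ℝ) (A : ℂ) (ok : ℤ → Prop) : ℂ :=
  coreG opp w ord m e
    (fun s : ℤ => (((-1) ^ s * (Real.sin (θ * (y + s)) / Real.sin θ) : ℝ) : ℂ)) A
    (fun s : ℤ => Complex.exp (Complex.I * (θ * (y + s) ^ 2 / 2 : ℝ))) ok

/-- The term of the colour `n` of the state sum of level `p`. -/
noncomputable def colG (e : ℤ) (A : ℂ) (p : ℕ) (n : ℤ) : ℂ :=
  coreG opp w ord m e (fun s => qdim A (n + s)) A (fun s => twist A (n + s))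
    (fun s => 0 < n + s ∧ n + s < p)

/-- The combination for the colour `c`. -/
noncomputable def colT (c : ℕ) (e : ℤ) (A : ℂ) (p : ℕ) (n : ℤ) : ℂ :=
  colComb c fun m => colG opp w ord m e A p n

end

/-- The sum over the points `k / J`, `0 < k < J`, `J = 4 * 2 ^ a`. -/
noncomputable def zs {E : Type} [AddCommMonoid E] (f : ℝ → E) (a : ℕ) : E :=
  ∑ k ∈ Finset.Ico (1 : ℕ) (4 * 2 ^ a), f ((k : ℝ) / (4 * 2 ^ a))

/-- The analytic data which give the limit of a sum over the colours. -/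
structure PoleData (T : ℕ → ℕ → ℤ → ℂ) (F : ℝ → ℂ) : Prop where
  bound : ∀ δ : ℝ, 0 < δ → ∃ C : ℝ, 0 ≤ C ∧ ∀ a : ℕ, ∀ᶠ p : ℕ in atTop, Odd p →
    ∀ (n : ℤ) (k : ℕ), k ≤ 4 * 2 ^ a → 0 < n → n < p →
      |yk a p k n| ≤ p / (2 * (4 * 2 ^ a)) → δ ≤ |yk a p k n| →
      (∀ s : ℤ, yk a p k n + s = 0 ∨ δ ≤ |yk a p k n + s|) → ‖T a p n‖ ≤ C / (yk a p k n) ^ 2
  lim : ∀ (a k : ℕ) (y : ℝ), 0 < k → k < 4 * 2 ^ a → (∀ s : ℤ, y + s ≠ 0) →
    ∀ (ν : ℕ → ℤ) (l : Filter ℕ), l ≤ atTop → (∀ᶠ p in l, Odd p ∧ yk a p k (ν p) = y) →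
      Tendsto (fun p => T a p (ν p)) l (𝓝 (F y))

/-- The word of value `1`. -/
def w1 {N : ℕ} (opp : ZMod N → ZMod N) : List (ZMod N) := [0, opp 0]

/-- The order for the word `w1`. -/
def ord1 : ℕ → ℤ := fun k => k

/-- The constant of the orthogonality relation. -/
noncomputable def kap (A : ℂ) (p : ℕ) : ℂ := -(p : ℂ) / (A ^ (2 : ℤ) - A ^ (-2 : ℤ)) ^ 2

open Classical in
/-- The colourings of the punctures. -/
noncomputable def cols {N : ℕ} [NeZero N] (opp : ZMod N → ZMod N) (p : ℕ) :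
    Finset (ZMod N → ℕ) :=
  (Fintype.piFinset fun _ : ZMod N => (Finset.range p).filter Odd).filter
    fun lam => ∀ i, lam (opp i + 1) = lam i

end Pool.Agent.AMU.Lim
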