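import Pool.Agent.Lib.AMU.LimDefs

/-!
# Row C7: elementary bounds of the sine
-/

set_option autoImplicit false

open Filter Topology

namespace Pool.Agent.AMU.Lim

private theorem sin_lower {u : ℝ} (h0 : 0 ≤ u) (h1 : u ≤ 3 * Real.pi / 4) :
    u / 5 ≤ Real.sin u := by
  have hpi := Real.pi_pos
  have hpi3 := Real.pi_gt_three
  have hpi4 := Real.pi_le_four
  have hpi5 := Real.pi_lt_d2
  rcases le_or_gt u (Real.pi / 2) with h | h
  · have h2 := Real.mul_le_sin h0 h
    have h3 : u / 5 ≤ 2 / Real.pi * u := by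
      rw [div_eq_inv_mul]
      refine mul_le_mul_of_nonneg_right ?_ h0
      rw [le_div_iff₀ hpi]
      norm_num
      linarith
    linarith
  · have h2 : Real.sin u = Real.sin (Real.pi - u) := (Real.sin_pi_sub u).symm
    have h3 := Real.mul_le_sin (x := Real.pi - u) (by linarith) (by linarith)
    have h4 : (1 : ℝ) / 2 ≤ 2 / Real.pi * (Real.pi - u) := by
      have : (1 : ℝ) / 2 = 2 / Real.pi * (Real.pi / 4) := by field_simp; norm_num
      rw [this]
      refine mul_le_mul_of_nonneg_left (by linarith) (by positivity)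
    rw [h2]
    linarith

/-- `sin (θ z) / sin θ` is comparable with `z`. -/
theorem sin_ratio_bounds {θ z : ℝ} (h0 : 0 < θ) (h1 : θ ≤ Real.pi / 2)
    (hz : θ * |z| ≤ 3 * Real.pi / 4) :
    |z| / 5 ≤ |Real.sin (θ * z) / Real.sin θ| ∧ |Real.sin (θ * z) / Real.sin θ| ≤ 2 * |z| := by
  have hpi := Real.pi_pos
  have hpi4 := Real.pi_le_four
  have hs1 : Real.sin θ ≤ θ := Real.sin_le h0.le
  have hs2 := Real.mul_le_sin h0.le h1
  have hs0 : 0 < Real.sin θ := lt_of_lt_of_le (by positivity) hs2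
  have hu0 : 0 ≤ θ * |z| := by positivity
  have e1 : |Real.sin (θ * z)| = Real.sin (θ * |z|) := by
    have h3 : 0 ≤ Real.sin (θ * |z|) := le_trans (by positivity) (sin_lower hu0 hz)
    rcases abs_cases z with ⟨h4, _⟩ | ⟨h4, _⟩
    · rw [h4] at h3 ⊢
      exact abs_of_nonneg h3
    · rw [h4] at h3 ⊢
      rw [mul_neg, Real.sin_neg] at h3 ⊢
      exact abs_of_nonpos (by linarith)
  rw [abs_div, e1, abs_of_pos hs0]
  constructor
  · rw [le_div_iff₀ hs0]
    calc |z| / 5 * Real.sin θ ≤ |z| / 5 * θ := by gcongr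
      _ = θ * |z| / 5 := by ring
      _ ≤ _ := sin_lower hu0 hz
  · rw [div_le_iff₀ hs0]
    have h5 : Real.sin (θ * |z|) ≤ θ * |z| := Real.sin_le hu0
    have h6 : θ * |z| ≤ 2 * |z| * (2 / Real.pi * θ) := by
      have h7 : (1 : ℝ) ≤ 2 * (2 / Real.pi) := by
        rw [← mul_div_assoc, le_div_iff₀ hpi]
        linarith
      calc θ * |z| = 1 * (θ * |z|) := by ring
        _ ≤ 2 * (2 / Real.pi) * (θ * |z|) := by gcongr
        _ = _ := by ring
    have h8 : 2 * |z| * (2 / Real.pi * θ) ≤ 2 * |z| * Real.sin θ := by gcongr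
    linarith

theorem sin_ratio_tendsto (z : ℝ) {ι : Type} {l : Filter ι} (θ : ι → ℝ)
    (hθ : Tendsto θ l (𝓝[>] 0)) :
    Tendsto (fun i => Real.sin (θ i * z) / Real.sin (θ i)) l (𝓝 z) := by
  have h1 : HasDerivAt (fun t : ℝ => Real.sin (t * z)) z 0 := by
    have h2 : HasDerivAt (fun t : ℝ => t * z) z 0 := by
      simpa using (hasDerivAt_id (0 : ℝ)).mul_const z
    have h3 := (Real.hasDerivAt_sin ((0 : ℝ) * z)).comp (0 : ℝ) h2
    rw [zero_mul, Real.cos_zero, one_mul] at h3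
    exact h3
  have h2 : HasDerivAt (fun t : ℝ => Real.sin t) 1 0 := by
    simpa using Real.hasDerivAt_sin (0 : ℝ)
  rw [hasDerivAt_iff_tendsto_slope_zero] at h1 h2
  have h3 := h1.div h2 one_ne_zero
  rw [div_one] at h3
  have h4 : Tendsto θ l (𝓝[≠] 0) := hθ.mono_right (nhdsWithin_mono _ fun x hx => ne_of_gt hx)
  refine (h3.comp h4).congr' ?_
  have h5 : ∀ᶠ i in l, θ i ∈ Set.Ioi (0 : ℝ) := hθ.eventually self_mem_nhdsWithin
  filter_upwards [h5] with i hi
  have h6 : θ i ≠ 0 := ne_of_gt hi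
  simp only [Function.comp, Pi.div_apply, zero_add, zero_mul, Real.sin_zero, sub_zero, smul_eq_mul]
  rw [mul_div_mul_left _ _ (inv_ne_zero h6)]

end Pool.Agent.AMU.Lim
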