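import Pool.Agent.Lib.AMU.LimA3
import Pool.Agent.Lib.AMU.LimB1
import Pool.Agent.Lib.AMU.LimT2

/-!
# Row C9: the bound of the local state sum
-/

set_option autoImplicit false

open Filter Topology

namespace Pool.Agent.AMU.Lim

variable {N : ℕ} {opp : ZMod N → ZMod N} (w : List (ZMod N)) (ord : ℕ → ℤ) (m : ℕ)

/-- Divide all dimensions by the one of level `0` (`coreG_smul`) and use `coreG_bound` with
`M = 10 * (1 + S / δ)` (or larger). -/
theorem locG_bound (hG : Glue opp) (e : ℤ) :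
    ∃ S : ℕ, ∀ δ : ℝ, 0 < δ → ∃ C : ℝ, 0 ≤ C ∧ ∀ (θ y : ℝ) (A : ℂ) (ok : ℤ → Prop), ‖A‖ = 1 →
      0 < θ → θ ≤ Real.pi / 2 → θ * (|y| + S) ≤ 3 * Real.pi / 4 → δ ≤ |y| →
      (∀ s : ℤ, y + s = 0 ∨ δ ≤ |y + s|) →
      ‖locG opp w ord m e θ y A ok‖ ≤ C * |y| ^ chiT opp e := by
  obtain ⟨S, hS⟩ := coreG_bound opp w ord m e
  refine ⟨S, fun δ hδ => ?_⟩
  have hSδ : (0 : ℝ) ≤ S / δ := by positivity
  obtain ⟨C, hC0, hC⟩ := hS (10 * (1 + S / δ)) (by linarith)
  set χ : ℤ := chiT opp e with hχ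
  refine ⟨5 ^ |χ| * C, by positivity, ?_⟩
  intro θ y A ok hA hθ0 hθ1 hθS hδy hy
  have hy0 : 0 < |y| := lt_of_lt_of_le hδ hδy
  have hsy : ∀ s : ℤ, |s| ≤ S → |y + s| ≤ |y| + S := by
    intro s hs
    have h1 : |(s : ℝ)| ≤ S := by
      rw [← Int.cast_abs]
      exact_mod_cast hs
    exact (abs_add_le y s).trans (by linarith)
  have hrb : ∀ s : ℤ, |s| ≤ S → |y + s| / 5 ≤ |Real.sin (θ * (y + s)) / Real.sin θ| ∧
      |Real.sin (θ * (y + s)) / Real.sin θ| ≤ 2 * |y + s| := by
    intro s hs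
    refine sin_ratio_bounds hθ0 hθ1 (le_trans ?_ hθS)
    exact mul_le_mul_of_nonneg_left (hsy s hs) hθ0.le
  have hrb0 : |y| / 5 ≤ |Real.sin (θ * y) / Real.sin θ| ∧
      |Real.sin (θ * y) / Real.sin θ| ≤ 2 * |y| := by
    have := hrb 0 (by simp)
    simpa using this
  set d0 : ℝ := Real.sin (θ * y) / Real.sin θ with hd0
  have hd0pos : 0 < |d0| := lt_of_lt_of_le (by positivity) hrb0.1
  have hd0ne : d0 ≠ 0 := abs_pos.1 hd0pos
  have hd0ne' : (d0 : ℂ) ≠ 0 := by exact_mod_cast hd0ne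
  set d : ℤ → ℂ := fun s : ℤ => (((-1) ^ s * (Real.sin (θ * (y + s)) / Real.sin θ) : ℝ) : ℂ)
    with hd
  set t : ℤ → ℂ := fun s : ℤ => Complex.exp (Complex.I * (θ * (y + s) ^ 2 / 2 : ℝ)) with ht
  have hdn : ∀ s : ℤ, ‖d s‖ = |Real.sin (θ * (y + s)) / Real.sin θ| := by
    intro s
    rw [hd]
    simp only
    rw [Complex.norm_real, Real.norm_eq_abs, abs_mul, abs_zpow, abs_neg, abs_one, one_zpow, one_mul]
  have h1 : locG opp w ord m e θ y A ok = (d0 : ℂ) ^ χ *
      coreG opp w ord m e (fun s => d s / d0) A t ok := by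
    rw [← coreG_smul w ord m hG hd0ne']
    unfold locG
    congr 1
    funext s
    rw [hd]
    simp only
    rw [mul_div_cancel₀ _ hd0ne']
  rw [h1, norm_mul, norm_zpow, Complex.norm_real, Real.norm_eq_abs]
  have h2 : ‖coreG opp w ord m e (fun s => d s / d0) A t ok‖ ≤ C := by
    refine hC _ A t ok hA ?_ ?_
    · intro s
      rw [ht]
      simp only
      rw [mul_comm, Complex.norm_exp_ofReal_mul_I]
    · intro s hs
      obtain ⟨hb1, hb2⟩ := hrb s hs
      have hn : ‖(d0 : ℂ)‖ = |d0| := by rw [Complex.norm_real, Real.norm_eq_abs]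
      constructor
      · rw [norm_div, hdn, hn, div_le_iff₀ hd0pos]
        have h3 : (|y| + S) ≤ (1 + S / δ) * |y| := by
          have : (S : ℝ) ≤ S / δ * |y| := by
            calc (S : ℝ) = S / δ * δ := by field_simp
              _ ≤ S / δ * |y| := by gcongr
          linarith
        calc |Real.sin (θ * (y + s)) / Real.sin θ| ≤ 2 * |y + s| := hb2
          _ ≤ 2 * (|y| + S) := by linarith [hsy s hs]
          _ ≤ 2 * ((1 + S / δ) * |y|) := by linarith
          _ = 10 * (1 + S / δ) * (|y| / 5) := by ring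
          _ ≤ 10 * (1 + S / δ) * |d0| := by
            refine mul_le_mul_of_nonneg_left hrb0.1 (by linarith)
      · rcases hy s with h0 | hδs
        · have : d s = 0 := by
            rw [← norm_eq_zero, hdn, h0]
            simp
          rw [this]
          simp only [zero_div, inv_zero, norm_zero]
          linarith
        · have hys : 0 < |y + s| := lt_of_lt_of_le hδ hδs
          have hdspos : 0 < ‖d s‖ := by
            rw [hdn]
            exact lt_of_lt_of_le (by positivity) hb1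
          rw [norm_inv, norm_div, hn, inv_div, div_le_iff₀ hdspos, hdn]
          have h3 : |y| ≤ |y + s| + S := by
            have h4 : |(s : ℝ)| ≤ S := by
              rw [← Int.cast_abs]
              exact_mod_cast hs
            have h5 : |y| = |(y + s) - s| := by congr 1; ring
            rw [h5]
            exact (abs_sub _ _).trans (by linarith)
          have h6 : |y + s| + S ≤ (1 + S / δ) * |y + s| := by
            have : (S : ℝ) ≤ S / δ * |y + s| := by
              calc (S : ℝ) = S / δ * δ := by field_simp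
                _ ≤ S / δ * |y + s| := by gcongr
            linarith
          calc |d0| ≤ 2 * |y| := hrb0.2
            _ ≤ 2 * ((1 + S / δ) * |y + s|) := by linarith
            _ = 10 * (1 + S / δ) * (|y + s| / 5) := by ring
            _ ≤ 10 * (1 + S / δ) * |Real.sin (θ * (y + s)) / Real.sin θ| := by
              refine mul_le_mul_of_nonneg_left hb1 (by linarith)
  have h3 : |d0| ^ χ ≤ 5 ^ |χ| * |y| ^ χ := by
    rcases le_or_gt 0 χ with hp | hn
    · obtain ⟨n, hn⟩ := Int.eq_ofNat_of_zero_le hp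
      rw [hn]
      rw [abs_of_nonneg (by positivity : (0 : ℤ) ≤ (n : ℤ)), zpow_natCast, zpow_natCast, zpow_natCast,
        ← mul_pow]
      exact pow_le_pow_left₀ hd0pos.le (by linarith [hrb0.2]) n
    · obtain ⟨n, hn'⟩ := Int.eq_ofNat_of_zero_le (by omega : 0 ≤ -χ)
      have hχn : χ = -(n : ℤ) := by omega
      rw [hχn, abs_neg, abs_of_nonneg (by positivity : (0 : ℤ) ≤ (n : ℤ)), zpow_neg, zpow_neg,
        zpow_natCast, zpow_natCast, zpow_natCast, ← inv_pow, ← inv_pow, ← mul_pow]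
      refine pow_le_pow_left₀ (by positivity) ?_ n
      have h5 : (|d0|)⁻¹ ≤ (|y| / 5)⁻¹ := inv_anti₀ (by positivity) hrb0.1
      refine h5.trans (le_of_eq ?_)
      rw [inv_div]
      rfl
  calc |d0| ^ χ * ‖coreG opp w ord m e (fun s => d s / d0) A t ok‖
      ≤ (5 ^ |χ| * |y| ^ χ) * C := by
        refine mul_le_mul h3 h2 (norm_nonneg _) (by positivity)
    _ = 5 ^ |χ| * C * |y| ^ χ := by ring

end Pool.Agent.AMU.Lim
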