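import Pool.Agent.Lib.AMU.LimL1
import Pool.Agent.Lib.AMU.LimB2

/-!
# Row C10: the limit of the local state sum, bounds of `core`
-/

set_option autoImplicit false

open Filter Topology

namespace Pool.Agent.AMU.Lim

variable {N : ℕ} {opp : ZMod N → ZMod N} (w : List (ZMod N)) (ord : ℕ → ℤ) (m : ℕ)

theorem locG_tendsto (e : ℤ) {y : ℝ} (hy : ∀ s : ℤ, y + s ≠ 0) {ι : Type} {l : Filter ι}
    (θ : ι → ℝ) (A : ι → ℂ) (ok : ι → ℤ → Prop) (hθ : Tendsto θ l (𝓝[>] 0))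
    (hA : Tendsto A l (𝓝 (-1))) (hok : ∀ s, ∀ᶠ i in l, ok i s) :
    Tendsto (fun i => locG opp w ord m e (θ i) y (A i) (ok i)) l
      (𝓝 ((core opp w ord m e y : ℝ) : ℂ)) := by
  rw [core_eq]
  refine coreG_tendsto opp w ord m e
    (fun i s => (((-1) ^ s * (Real.sin (θ i * (y + s)) / Real.sin (θ i)) : ℝ) : ℂ)) A
    (fun i s => Complex.exp (Complex.I * (θ i * (y + s) ^ 2 / 2 : ℝ))) ok _ _ _ ?_ hA
    (by norm_num) ?_ ?_ (fun _ => one_ne_zero) hok
  · intro s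
    exact (Complex.continuous_ofReal.tendsto _).comp
      ((sin_ratio_tendsto (y + s) θ hθ).const_mul ((-1) ^ s))
  · intro s
    rw [Ne, Complex.ofReal_eq_zero]
    exact mul_ne_zero (zpow_ne_zero _ (by norm_num)) (hy s)
  · intro s
    have h0 : Tendsto θ l (𝓝 0) := hθ.mono_right nhdsWithin_le_nhds
    have h1 : Tendsto (fun i => θ i * (y + s) ^ 2 / 2) l (𝓝 (0 * (y + s) ^ 2 / 2)) :=
      (h0.mul_const _).div_const 2
    have h2 : Tendsto (fun i => Complex.exp (Complex.I * (θ i * (y + s) ^ 2 / 2 : ℝ))) l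
        (𝓝 (Complex.exp (Complex.I * ((0 * (y + s) ^ 2 / 2 : ℝ) : ℂ)))) :=
      (Complex.continuous_exp.tendsto _).comp
        (((Complex.continuous_ofReal.tendsto _).comp h1).const_mul Complex.I)
    rw [zero_mul, zero_div, Complex.ofReal_zero, mul_zero, Complex.exp_zero] at h2
    exact h2

/-- Limit of `locG_bound` (`A = -1`, `θ → 0`). -/
theorem core_bound (hG : Glue opp) (e : ℤ) :
    ∀ δ : ℝ, 0 < δ → ∃ C : ℝ, 0 ≤ C ∧ ∀ y : ℝ, (∀ s : ℤ, δ ≤ |y + s|) →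
      |core opp w ord m e y| ≤ C * |y| ^ chiT opp e := by
  obtain ⟨S, hS⟩ := locG_bound (opp := opp) w ord m hG e
  intro δ hδ
  obtain ⟨C, hC, h⟩ := hS δ hδ
  refine ⟨C, hC, fun y hy => ?_⟩
  have hy0 : ∀ s : ℤ, y + s ≠ 0 := fun s h0 => by
    have h1 := hy s
    rw [h0, abs_zero] at h1
    linarith
  have h1 := (locG_tendsto (opp := opp) w ord m e hy0 (l := 𝓝[>] (0 : ℝ)) (fun θ => θ)
    (fun _ => (-1 : ℂ)) (fun _ _ => True) tendsto_id tendsto_const_nhds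
    (fun _ => Eventually.of_forall fun _ => trivial)).norm
  rw [Complex.norm_real, Real.norm_eq_abs] at h1
  refine le_of_tendsto h1 ?_
  have hpi := Real.pi_pos
  have h2 : ∀ᶠ θ : ℝ in 𝓝[>] 0, θ < min (Real.pi / 2) (3 * Real.pi / 4 / (|y| + S + 1)) := by
    refine nhdsWithin_le_nhds (Iio_mem_nhds ?_)
    refine lt_min (by positivity) ?_
    positivity
  filter_upwards [self_mem_nhdsWithin, h2] with θ hθ hθ2
  have hθ0 : (0 : ℝ) < θ := hθ
  have h3 : θ < 3 * Real.pi / 4 / (|y| + S + 1) := lt_of_lt_of_le hθ2 (min_le_right _ _)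
  rw [lt_div_iff₀ (by positivity)] at h3
  refine h θ y (-1) (fun _ => True) (by simp) hθ0 (hθ2.le.trans (min_le_left _ _)) ?_ ?_
    (fun s => Or.inr (hy s))
  · nlinarith
  · simpa using hy 0

/-- Comparison of the powers. -/
theorem C10_pow_le {χ : ℤ} (hχ : χ ≤ -2) {δ y : ℝ} (hδ : 0 < δ) (hy : δ ≤ |y|) :
    |y| ^ χ ≤ δ ^ (χ + 2) * (y ^ 2)⁻¹ := by
  have hy0 : 0 < |y| := lt_of_lt_of_le hδ hy
  have h1 : |y| ^ χ = |y| ^ (χ + 2) * (y ^ 2)⁻¹ := by
    rw [zpow_add₀ hy0.ne', ← sq_abs y, mul_assoc]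
    have h2 : |y| ^ (2 : ℤ) * (|y| ^ 2)⁻¹ = 1 := by
      rw [zpow_ofNat]
      exact mul_inv_cancel₀ (pow_ne_zero 2 hy0.ne')
    rw [h2, mul_one]
  rw [h1]
  refine mul_le_mul_of_nonneg_right ?_ (by positivity)
  obtain ⟨k, hk⟩ : ∃ k : ℕ, χ + 2 = -(k : ℤ) := ⟨(-(χ + 2)).toNat, by omega⟩
  rw [hk, zpow_neg, zpow_neg, zpow_natCast, zpow_natCast]
  exact inv_anti₀ (by positivity) (pow_le_pow_left₀ hδ.le hy k)

theorem C10_summable : Summable fun k : ℤ => ((|(k : ℝ)| + 1) ^ 2)⁻¹ := by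
  have h1 := (Real.summable_one_div_int_add_rpow (1 / 2) 2).2 (by norm_num)
  refine Summable.of_nonneg_of_le (fun k => by positivity) (fun k => ?_) h1
  have h2 : 0 < |(k : ℝ) + 1 / 2| := by
    rw [abs_pos]
    intro h3
    have h4 : (2 * k + 1 : ℤ) = 0 := by
      have h5 : ((2 * k + 1 : ℤ) : ℝ) = 0 := by
        push_cast
        linarith
      exact_mod_cast h5
    omega
  have h3 : |(k : ℝ) + 1 / 2| ≤ |(k : ℝ)| + 1 := by
    have h4 := abs_add_le (k : ℝ) (1 / 2)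
    have h5 : |(1 / 2 : ℝ)| = 1 / 2 := abs_of_pos (by norm_num)
    rw [h5] at h4
    linarith
  rw [one_div, Real.rpow_two]
  exact inv_anti₀ (by positivity) (pow_le_pow_left₀ h2.le h3 2)

/-- The distance of `x` to the integers. -/
theorem C10_dist {x δ : ℝ} (hδ : 0 < δ) (h1 : δ ≤ x) (h2 : x ≤ 1 - δ) (k : ℤ) :
    δ / 2 * (|(k : ℝ)| + 1) ≤ |x + k| := by
  rcases le_or_gt 0 k with hk | hk
  · have h3 : (0 : ℝ) ≤ k := by exact_mod_cast hk
    rw [abs_of_nonneg h3, abs_of_nonneg (by linarith)]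
    nlinarith
  · have h3 : (k : ℝ) ≤ -1 := by exact_mod_cast (by omega : k ≤ -1)
    rw [abs_of_nonpos (by linarith : (k : ℝ) ≤ 0), abs_of_nonpos (by linarith)]
    nlinarith

theorem C10_bound (hG : Glue opp) {e : ℤ} (he : chiT opp e ≤ -2) {δ : ℝ} (hδ : 0 < δ) :
    ∃ C : ℝ, 0 ≤ C ∧ ∀ x : ℝ, δ ≤ x → x ≤ 1 - δ → ∀ k : ℤ,
      |core opp w ord m e (x + k)| ≤ C * ((|(k : ℝ)| + 1) ^ 2)⁻¹ := by
  obtain ⟨C, hC, h⟩ := core_bound (opp := opp) w ord m hG e (δ / 2) (by linarith)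
  refine ⟨C * ((δ / 2) ^ (chiT opp e + 2) * ((δ / 2) ^ 2)⁻¹), by positivity,
    fun x h1 h2 k => ?_⟩
  have hd : ∀ s : ℤ, δ / 2 ≤ |x + k + s| := by
    intro s
    have h3 := C10_dist hδ h1 h2 (k + s)
    rw [Int.cast_add, ← add_assoc] at h3
    refine le_trans ?_ h3
    have h4 := abs_nonneg ((k : ℝ) + s)
    nlinarith
  have h3 := h (x + k) hd
  have h4 : δ / 2 ≤ |x + k| := by simpa using hd 0
  have h5 := C10_pow_le he (by linarith : 0 < δ / 2) h4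
  have h6 : ((x + k) ^ 2)⁻¹ ≤ ((δ / 2) ^ 2)⁻¹ * ((|(k : ℝ)| + 1) ^ 2)⁻¹ := by
    rw [← mul_inv, ← mul_pow, ← sq_abs (x + k)]
    exact inv_anti₀ (by positivity) (pow_le_pow_left₀ (by positivity) (C10_dist hδ h1 h2 k) 2)
  calc |core opp w ord m e (x + k)| ≤ C * |x + k| ^ chiT opp e := h3
    _ ≤ C * ((δ / 2) ^ (chiT opp e + 2) * ((x + k) ^ 2)⁻¹) :=
        mul_le_mul_of_nonneg_left h5 hC
    _ ≤ C * ((δ / 2) ^ (chiT opp e + 2) * (((δ / 2) ^ 2)⁻¹ * ((|(k : ℝ)| + 1) ^ 2)⁻¹)) :=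
        mul_le_mul_of_nonneg_left (mul_le_mul_of_nonneg_left h6 (by positivity)) hC
    _ = _ := by ring

/-- The state sum over all colours converges. -/
theorem core_summable (hG : Glue opp) {e : ℤ} (he : chiT opp e ≤ -2) {x : ℝ}
    (hx : ∀ s : ℤ, x + s ≠ 0) : Summable fun k : ℤ => core opp w ord m e (x + k) := by
  -- reduce to the fractional part
  have h0 : 0 < Int.fract x := by
    rcases (Int.fract_nonneg x).lt_or_eq with h | h
    · exact h
    · exfalso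
      apply hx (-⌊x⌋)
      rw [Int.cast_neg, ← sub_eq_add_neg, Int.self_sub_floor]
      exact h.symm
  have h1 : Int.fract x < 1 := Int.fract_lt_one x
  obtain ⟨C, hC, h⟩ := C10_bound (opp := opp) w ord m hG he
    (lt_min h0 (by linarith : 0 < 1 - Int.fract x))
  have h2 : Summable fun k : ℤ => core opp w ord m e (Int.fract x + k) := by
    refine Summable.of_norm_bounded (C10_summable.mul_left C) fun k => ?_
    rw [Real.norm_eq_abs]
    exact h (Int.fract x) (min_le_left _ _) (by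
      have := min_le_right (Int.fract x) (1 - Int.fract x)
      linarith) k
  have h3 := (Equiv.addLeft ⌊x⌋).summable_iff.2 h2
  refine h3.congr fun k => ?_
  show core opp w ord m e (Int.fract x + ((⌊x⌋ + k : ℤ) : ℝ)) = _
  congr 1
  rw [Int.cast_add, ← add_assoc, Int.fract_add_floor]

theorem coreSum_periodic (e : ℤ) (x : ℝ) :
    coreSum opp w ord m e (x + 1) = coreSum opp w ord m e x := by
  unfold coreSum
  rw [← (Equiv.addLeft (1 : ℤ)).tsum_eq (fun k : ℤ => core opp w ord m e (x + k))]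
  refine tsum_congr fun k => ?_
  show core opp w ord m e (x + 1 + k) = core opp w ord m e (x + ((1 + k : ℤ) : ℝ))
  congr 1
  push_cast
  ring

/-- Bounded away from the integers. -/
theorem coreSum_bound (hG : Glue opp) {e : ℤ} (he : chiT opp e ≤ -2) :
    ∀ δ : ℝ, 0 < δ → ∃ C : ℝ, ∀ x : ℝ, δ ≤ x → x ≤ 1 - δ → |coreSum opp w ord m e x| ≤ C := by
  intro δ hδ
  obtain ⟨C, hC, h⟩ := C10_bound (opp := opp) w ord m hG he hδ
  refine ⟨∑' k : ℤ, C * ((|(k : ℝ)| + 1) ^ 2)⁻¹, fun x h1 h2 => ?_⟩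
  rw [← Real.norm_eq_abs]
  exact tsum_of_norm_bounded (C10_summable.mul_left C).hasSum fun k => h x h1 h2 k

end Pool.Agent.AMU.Lim
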