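import Pool.Agent.Lib.AMU.LimDefs

/-!
# Row C11: sums over the colours, one block around every zero
-/

set_option autoImplicit false

open Filter Topology

namespace Pool.Agent.AMU.Lim

namespace C11

theorem summable_sq (x C : ℝ) : Summable fun i : ℤ => C / ((i : ℝ) + x) ^ 2 := by
  have h := (Real.summable_one_div_int_add_rpow x 2).2 (by norm_num)
  refine (h.mul_left C).congr fun i => ?_
  rw [show (2 : ℝ) = ((2 : ℕ) : ℝ) by norm_num, Real.rpow_natCast, sq_abs, mul_one_div]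

theorem norm_sum_le_tsum {s : Finset ℕ} {φ : ℕ → ℤ} (hφ : Set.InjOn φ s) {t : ℕ → ℂ} {b : ℤ → ℝ}
    (hb : Summable b) (hb0 : ∀ i, 0 ≤ b i) (h : ∀ n ∈ s, ‖t n‖ ≤ b (φ n)) :
    ‖∑ n ∈ s, t n‖ ≤ ∑' i, b i := by
  classical
  calc ‖∑ n ∈ s, t n‖ ≤ ∑ n ∈ s, ‖t n‖ := norm_sum_le _ _
    _ ≤ ∑ n ∈ s, b (φ n) := Finset.sum_le_sum h
    _ = ∑ i ∈ s.image φ, b i := (Finset.sum_image hφ).symm
    _ ≤ ∑' i, b i := hb.sum_le_tsum _ (fun i _ => hb0 i)

/-- The `k`-th block. -/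
def blk (J p k : ℕ) : Finset ℕ := (Finset.range p).filter fun n => (2 * J * n + p) / (2 * p) = k

theorem mem_blk {J p k n : ℕ} :
    n ∈ blk J p k ↔ n < p ∧ 2 * p * k ≤ 2 * J * n + p ∧ 2 * J * n + p < 2 * p * (k + 1) := by
  rw [blk, Finset.mem_filter, Finset.mem_range]
  constructor
  · rintro ⟨h1, h2⟩
    have hp : 0 < 2 * p := by omega
    refine ⟨h1, ?_, ?_⟩
    · have := (Nat.le_div_iff_mul_le hp).1 (le_of_eq h2.symm)
      linarith [mul_comm k (2 * p)]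
    · have := (Nat.div_lt_iff_lt_mul hp).1 (lt_of_eq_of_lt h2 (Nat.lt_succ_self k))
      have h3 : (k + 1) * (2 * p) = 2 * p * (k + 1) := mul_comm _ _
      rw [← h3]
      exact this
  · rintro ⟨h1, h2, h3⟩
    have hp : 0 < 2 * p := by omega
    refine ⟨h1, le_antisymm ?_ ?_⟩
    · refine Nat.lt_succ_iff.1 ((Nat.div_lt_iff_lt_mul hp).2 ?_)
      rw [Nat.mul_comm (Nat.succ k)]
      exact h3
    · refine (Nat.le_div_iff_mul_le hp).2 ?_
      rw [Nat.mul_comm k]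
      exact h2

theorem sum_blk (J p : ℕ) (t : ℕ → ℂ) :
    ∑ k ∈ Finset.range (J + 1), ∑ n ∈ blk J p k, t n = ∑ n ∈ Finset.range p, t n := by
  unfold blk
  refine Finset.sum_fiberwise_of_maps_to (fun n hn => ?_) t
  rw [Finset.mem_range] at hn ⊢
  have hp : 0 < 2 * p := by omega
  rw [Nat.div_lt_iff_lt_mul hp]
  rcases Nat.eq_zero_or_pos J with hJ | hJ
  · subst hJ
    omega
  · have h1 : J * n < J * p := Nat.mul_lt_mul_of_pos_left hn hJ
    nlinarith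

/-- Numbers in the block are close to the zero. -/
theorem yk_le {a p k n : ℕ} (hn : n ∈ blk (4 * 2 ^ a) p k) :
    |yk a p k n| ≤ p / (2 * (4 * 2 ^ a)) := by
  obtain ⟨_, h2, h3⟩ := mem_blk.1 hn
  have hJ : (0 : ℝ) < 4 * 2 ^ a := by positivity
  have h2' : (2 * p * k : ℝ) ≤ 2 * (4 * 2 ^ a) * n + p := by exact_mod_cast h2
  have h3' : (2 * (4 * 2 ^ a) * n + p : ℝ) < 2 * p * (k + 1) := by exact_mod_cast h3
  have e : yk a p k n * (2 * (4 * 2 ^ a)) = 2 * (4 * 2 ^ a) * n - 2 * p * k := by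
    unfold yk
    field_simp
    push_cast
    ring
  rw [le_div_iff₀ (by positivity), ← abs_of_pos (show (0 : ℝ) < 2 * (4 * 2 ^ a) by positivity),
    ← abs_mul, e, abs_le]
  constructor <;> linarith

theorem int_alt (z : ℤ) : (z : ℝ) = 0 ∨ 1 ≤ |(z : ℝ)| := by
  by_cases h : z = 0
  · left
    rw [h]
    simp
  · right
    have := Int.one_le_abs h
    exact_mod_cast this

section

variable {T : ℕ → ℕ → ℤ → ℂ} {F : ℝ → ℂ}

/-- The block `k = 0`. -/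
theorem first_blk (h0 : ∀ a p, T a p 0 = 0) {C : ℝ} (hC : 0 ≤ C) {a p : ℕ}
    (hb : ∀ (n : ℤ) (k : ℕ), k ≤ 4 * 2 ^ a → 0 < n → n < p →
      |yk a p k n| ≤ p / (2 * (4 * 2 ^ a)) → 1 ≤ |yk a p k n| →
      (∀ s : ℤ, yk a p k n + s = 0 ∨ 1 ≤ |yk a p k n + s|) → ‖T a p n‖ ≤ C / (yk a p k n) ^ 2) :
    ‖∑ n ∈ blk (4 * 2 ^ a) p 0, T a p n‖ ≤ ∑' i : ℤ, C / ((i : ℝ) + 0) ^ 2 := by
  refine norm_sum_le_tsum (φ := fun n : ℕ => (n : ℤ)) (fun x _ y _ hxy => by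
    have : (x : ℤ) = y := hxy
    omega) (summable_sq 0 C) (fun i => div_nonneg hC (sq_nonneg _)) (fun n hn => ?_)
  rcases Nat.eq_zero_or_pos n with hn0 | hn0
  · subst hn0
    simp [h0]
  · have hy : yk a p 0 n = ((n : ℤ) : ℝ) := by simp [yk]
    have hb' := hb n 0 (Nat.zero_le _) (by exact_mod_cast hn0)
      (by exact_mod_cast (mem_blk.1 hn).1) (yk_le hn)
    rw [hy] at hb'
    have h1 : (1 : ℝ) ≤ |((n : ℤ) : ℝ)| := by
      rcases int_alt (n : ℤ) with h | h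
      · exfalso
        have : (n : ℤ) = 0 := by exact_mod_cast h
        omega
      · exact h
    have h2 := hb' h1 (fun s => by
      have := int_alt ((n : ℤ) + s)
      push_cast at this ⊢
      exact this)
    simpa using h2

/-- The block `k = J`. -/
theorem last_blk {C : ℝ} (hC : 0 ≤ C) (h0 : ∀ a p, T a p 0 = 0) {a p : ℕ}
    (hb : ∀ (n : ℤ) (k : ℕ), k ≤ 4 * 2 ^ a → 0 < n → n < p →
      |yk a p k n| ≤ p / (2 * (4 * 2 ^ a)) → 1 ≤ |yk a p k n| →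
      (∀ s : ℤ, yk a p k n + s = 0 ∨ 1 ≤ |yk a p k n + s|) → ‖T a p n‖ ≤ C / (yk a p k n) ^ 2) :
    ‖∑ n ∈ blk (4 * 2 ^ a) p (4 * 2 ^ a), T a p n‖ ≤ ∑' i : ℤ, C / ((i : ℝ) + 0) ^ 2 := by
  refine norm_sum_le_tsum (φ := fun n : ℕ => (n : ℤ) - p) (fun x _ y _ hxy => by
    have : (x : ℤ) - p = y - p := hxy
    omega) (summable_sq 0 C) (fun i => div_nonneg hC (sq_nonneg _)) (fun n hn => ?_)
  have hnp := (mem_blk.1 hn).1
  rcases Nat.eq_zero_or_pos n with hn0 | hn0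
  · subst hn0
    simp only [Nat.cast_zero, h0, norm_zero]
    exact div_nonneg hC (sq_nonneg _)
  · have hJ : (4 * 2 ^ a : ℝ) ≠ 0 := by positivity
    have hy : yk a p (4 * 2 ^ a) n = (((n : ℤ) - p : ℤ) : ℝ) := by
      unfold yk
      push_cast
      field_simp
    have hb' := hb n (4 * 2 ^ a) le_rfl (by exact_mod_cast hn0)
      (by exact_mod_cast hnp) (yk_le hn)
    rw [hy] at hb'
    have h1 : (1 : ℝ) ≤ |(((n : ℤ) - p : ℤ) : ℝ)| := by
      rcases int_alt ((n : ℤ) - p) with h | h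
      · exfalso
        have : (n : ℤ) - p = 0 := by exact_mod_cast h
        omega
      · exact h
    have h2 := hb' h1 (fun s => by
      have := int_alt ((n : ℤ) - p + s)
      push_cast at this ⊢
      exact this)
    simpa using h2

end

/-! ### The inner blocks -/

section

variable {a k r0 : ℕ}

theorem rr_ne (hk0 : 0 < k) (hkJ : k < 4 * 2 ^ a) (hr : Odd r0) : (k * r0) % (4 * 2 ^ a) ≠ 0 := by
  intro h
  have h1 : 4 * 2 ^ a ∣ k * r0 := Nat.dvd_of_mod_eq_zero h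
  have h2 : (4 * 2 ^ a) = 2 ^ (a + 2) := by ring
  have hc : Nat.Coprime (2 ^ (a + 2)) r0 := Nat.Coprime.pow_left _ (Nat.coprime_two_left.2 hr)
  rw [h2] at h1
  have h3 := hc.dvd_of_dvd_mul_right h1
  have h4 := Nat.le_of_dvd hk0 h3
  rw [← h2] at h4
  omega

/-- The points of the block are at distance at least `1 / J` from the integers. -/
theorem yy_far (hk0 : 0 < k) (hkJ : k < 4 * 2 ^ a) (hr : Odd r0) (i : ℤ) :
    1 / (4 * 2 ^ a : ℝ) ≤ |(i : ℝ) - ((k * r0) % (4 * 2 ^ a) : ℕ) / (4 * 2 ^ a)| := by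
  have hJ : (0 : ℝ) < 4 * 2 ^ a := by positivity
  set r := (k * r0) % (4 * 2 ^ a) with hrdef
  have hr1 : r ≠ 0 := rr_ne hk0 hkJ hr
  have hr2 : r < 4 * 2 ^ a := Nat.mod_lt _ (by positivity)
  have hne : i * (4 * 2 ^ a : ℕ) - (r : ℤ) ≠ 0 := by
    intro h
    have h1 : i * (4 * 2 ^ a : ℕ) = (r : ℤ) := by linarith
    have h2 : ((4 * 2 ^ a : ℕ) : ℤ) ∣ (r : ℤ) := ⟨i, by rw [← h1]; ring⟩
    have h3 := Int.natCast_dvd_natCast.1 h2
    have h4 := Nat.le_of_dvd (Nat.pos_of_ne_zero hr1) h3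
    omega
  have h1 := Int.one_le_abs hne
  have h2 : (1 : ℝ) ≤ |(i : ℝ) * (4 * 2 ^ a) - r| := by exact_mod_cast h1
  have e : (i : ℝ) - (r : ℝ) / (4 * 2 ^ a) = ((i : ℝ) * (4 * 2 ^ a) - r) / (4 * 2 ^ a) := by
    field_simp
  rw [e, abs_div, abs_of_pos hJ]
  exact div_le_div_of_nonneg_right h2 hJ.le

variable {T : ℕ → ℕ → ℤ → ℂ} {F : ℝ → ℂ}

/-- The colour with index `i` in the block. -/
def nu (a k p : ℕ) (i : ℤ) : ℤ := ((k * p / (4 * 2 ^ a) : ℕ) : ℤ) + i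

theorem nu_mul (p : ℕ) (hp : p % (4 * 2 ^ a) = r0) (i : ℤ) :
    ((4 * 2 ^ a : ℕ) : ℤ) * nu a k p i =
      k * p - ((k * r0) % (4 * 2 ^ a) : ℕ) + ((4 * 2 ^ a : ℕ) : ℤ) * i := by
  have h1 : (k * p) % (4 * 2 ^ a) = (k * r0) % (4 * 2 ^ a) := by
    rw [Nat.mul_mod, hp, Nat.mul_mod k r0]
    congr 2
    rw [← hp, Nat.mod_mod]
  have h2 := Nat.div_add_mod (k * p) (4 * 2 ^ a)
  rw [h1] at h2
  unfold nu
  have h3 : ((4 * 2 ^ a : ℕ) : ℤ) * ((k * p / (4 * 2 ^ a) : ℕ) : ℤ) +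
      (((k * r0) % (4 * 2 ^ a) : ℕ) : ℤ) = k * p := by exact_mod_cast h2
  rw [mul_add]
  linarith

theorem yk_nu (p : ℕ) (hp : p % (4 * 2 ^ a) = r0) (i : ℤ) :
    yk a p k (nu a k p i) = (i : ℝ) - ((k * r0) % (4 * 2 ^ a) : ℕ) / (4 * 2 ^ a) := by
  have h := nu_mul (a := a) (k := k) p hp i
  have h' : ((4 * 2 ^ a : ℕ) : ℝ) * (nu a k p i : ℝ) =
      k * p - (((k * r0) % (4 * 2 ^ a) : ℕ) : ℝ) + ((4 * 2 ^ a : ℕ) : ℝ) * i := by
    exact_mod_cast h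
  unfold yk
  have hJ : (4 * 2 ^ a : ℝ) ≠ 0 := by positivity
  push_cast at h' ⊢
  field_simp
  linarith

theorem odd_of_mod {p : ℕ} (hr : Odd r0) (hp : p % (4 * 2 ^ a) = r0) : Odd p := by
  rw [Nat.odd_iff] at hr ⊢
  have h := Nat.div_add_mod p (4 * 2 ^ a)
  rw [hp] at h
  rw [← h]
  have : 4 * 2 ^ a * (p / (4 * 2 ^ a)) = 2 * (2 * 2 ^ a * (p / (4 * 2 ^ a))) := by ring
  omega

/-- Far from the ends all indices are in the block. -/
theorem nu_mem (hk0 : 0 < k) (hkJ : k < 4 * 2 ^ a) (i : ℤ) {p : ℕ}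
    (hp : p % (4 * 2 ^ a) = r0) (hbig : 2 * (4 * 2 ^ a) * (i.natAbs + 1) < p) :
    ∃ n ∈ blk (4 * 2 ^ a) p k, (n : ℤ) = nu a k p i := by
  set J : ℕ := 4 * 2 ^ a with hJdef
  have hJ : 0 < J := by rw [hJdef]; positivity
  have h := nu_mul (a := a) (k := k) p hp i
  rw [← hJdef] at h
  set r : ℕ := (k * r0) % J with hrdef
  have hrJ : r < J := Nat.mod_lt _ hJ
  have hbig' : 2 * (J : ℤ) * (|i| + 1) < p := by
    have : ((2 * J * (i.natAbs + 1) : ℕ) : ℤ) < (p : ℤ) := by exact_mod_cast hbig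
    push_cast at this
    exact this
  have hJz : (0 : ℤ) < J := by exact_mod_cast hJ
  have hrz : (r : ℤ) < J := by exact_mod_cast hrJ
  have hr0 : (0 : ℤ) ≤ r := by positivity
  have hi1 : (J : ℤ) * i ≤ J * |i| := mul_le_mul_of_nonneg_left (le_abs_self i) hJz.le
  have hi2 : -((J : ℤ) * |i|) ≤ J * i := by
    have := mul_le_mul_of_nonneg_left (neg_abs_le i) hJz.le
    linarith
  have hi0 : (0 : ℤ) ≤ J * |i| := by positivity
  have hkz : (1 : ℤ) ≤ k := by exact_mod_cast hk0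
  have hkJz : (k : ℤ) + 1 ≤ J := by exact_mod_cast hkJ
  have hp0 : (0 : ℤ) < p := by nlinarith
  have hkp : (p : ℤ) ≤ k * p := by nlinarith
  have hkp2 : (k : ℤ) * p + p ≤ J * p := by nlinarith
  have hnn : 0 ≤ nu a k p i := by
    by_contra hcon
    push Not at hcon
    have : (J : ℤ) * nu a k p i ≤ -J := by nlinarith
    nlinarith
  obtain ⟨n, hn⟩ := Int.eq_ofNat_of_zero_le hnn
  rw [hn] at h
  refine ⟨n, mem_blk.2 ⟨?_, ?_, ?_⟩, hn.symm⟩
  · have h5 : (J : ℤ) * (n : ℤ) < J * p := by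
      nlinarith
    have := lt_of_mul_lt_mul_left h5 hJz.le
    exact_mod_cast this
  · have h5 : (2 * p * k : ℤ) ≤ 2 * J * n + p := by
      nlinarith
    exact_mod_cast h5
  · have h5 : (2 * J * n + p : ℤ) < 2 * p * (k + 1) := by
      nlinarith
    exact_mod_cast h5

open Classical in
/-- The block as a sum over the integers. -/
theorem blk_tsum (T : ℕ → ℕ → ℤ → ℂ) (a k p : ℕ) :
    ∑ n ∈ blk (4 * 2 ^ a) p k, T a p n = ∑' i : ℤ,
      if ∃ n ∈ blk (4 * 2 ^ a) p k, (n : ℤ) = nu a k p i then T a p (nu a k p i) else 0 := by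
  rw [tsum_eq_sum (s := (blk (4 * 2 ^ a) p k).image
    (fun n : ℕ => (n : ℤ) - ((k * p / (4 * 2 ^ a) : ℕ) : ℤ)))]
  · rw [Finset.sum_image (fun x _ y _ hxy => by
      have : (x : ℤ) - ((k * p / (4 * 2 ^ a) : ℕ) : ℤ) =
        (y : ℤ) - ((k * p / (4 * 2 ^ a) : ℕ) : ℤ) := hxy
      omega)]
    refine Finset.sum_congr rfl fun n hn => ?_
    have e : nu a k p ((n : ℤ) - ((k * p / (4 * 2 ^ a) : ℕ) : ℤ)) = n := by
      unfold nu
      ring
    rw [e, if_pos ⟨n, hn, rfl⟩]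
  · intro i hi
    rw [if_neg]
    rintro ⟨n, hn, he⟩
    refine hi (Finset.mem_image.2 ⟨n, hn, ?_⟩)
    rw [he]
    unfold nu
    ring

/-- The limit of an inner block along a residue class. -/
theorem mid_blk (h : PoleData T F) (hk0 : 0 < k) (hkJ : k < 4 * 2 ^ a) (hr : Odd r0) :
    Tendsto (fun p => ∑ n ∈ blk (4 * 2 ^ a) p k, T a p n)
      (atTop ⊓ 𝓟 {p : ℕ | p % (4 * 2 ^ a) = r0})
      (𝓝 (∑' i : ℤ, F ((i : ℝ) - ((k * r0) % (4 * 2 ^ a) : ℕ) / (4 * 2 ^ a)))) := by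
  classical
  simp_rw [blk_tsum]
  have hJ : (0 : ℝ) < 4 * 2 ^ a := by positivity
  obtain ⟨C, hC, hb⟩ := h.bound (1 / (4 * 2 ^ a)) (by positivity)
  have hb' : ∀ᶠ p : ℕ in (atTop ⊓ 𝓟 {p : ℕ | p % (4 * 2 ^ a) = r0}), Odd p →
    ∀ (n : ℤ) (k : ℕ), k ≤ 4 * 2 ^ a → 0 < n → n < p →
      |yk a p k n| ≤ p / (2 * (4 * 2 ^ a)) → 1 / (4 * 2 ^ a) ≤ |yk a p k n| →
      (∀ s : ℤ, yk a p k n + s = 0 ∨ 1 / (4 * 2 ^ a) ≤ |yk a p k n + s|) →
      ‖T a p n‖ ≤ C / (yk a p k n) ^ 2 := (hb a).filter_mono inf_le_left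
  have hmem : ∀ᶠ p : ℕ in (atTop ⊓ 𝓟 {p : ℕ | p % (4 * 2 ^ a) = r0}), p % (4 * 2 ^ a) = r0 :=
    eventually_inf_principal.2 (Eventually.of_forall fun p hp => hp)
  refine tendsto_tsum_of_dominated_convergence
    (bound := fun i : ℤ => C / ((i : ℝ) + -(((k * r0) % (4 * 2 ^ a) : ℕ) / (4 * 2 ^ a))) ^ 2)
    (summable_sq _ C) (fun i => ?_) ?_
  · have hlim := h.lim a k ((i : ℝ) - ((k * r0) % (4 * 2 ^ a) : ℕ) / (4 * 2 ^ a)) hk0 hkJ
      (fun s => by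
        have h1 := yy_far hk0 hkJ hr (i + s)
        intro h2
        have h3 : ((i + s : ℤ) : ℝ) - ((k * r0) % (4 * 2 ^ a) : ℕ) / (4 * 2 ^ a) = 0 := by
          push_cast
          push_cast at h2
          linarith
        rw [h3, abs_zero] at h1
        exact absurd h1 (not_le.2 (by positivity)))
      (fun p => nu a k p i) (atTop ⊓ 𝓟 {p : ℕ | p % (4 * 2 ^ a) = r0}) inf_le_left
      (hmem.mono fun p hp => ⟨odd_of_mod hr hp, yk_nu p hp i⟩)
    refine hlim.congr' ?_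
    filter_upwards [hmem, (eventually_gt_atTop (2 * (4 * 2 ^ a) * (i.natAbs + 1))).filter_mono
      inf_le_left] with p hp hbig
    rw [if_pos (nu_mem hk0 hkJ i hp hbig)]
  · filter_upwards [hmem, hb'] with p hp hbp i
    split_ifs with hex
    · obtain ⟨n, hn, he⟩ := hex
      rw [← he]
      have hyk : yk a p k n = (i : ℝ) - ((k * r0) % (4 * 2 ^ a) : ℕ) / (4 * 2 ^ a) := by
        rw [he]
        exact yk_nu p hp i
      have hnp := (mem_blk.1 hn).1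
      have hn0 : 0 < n := by
        obtain ⟨_, h2, _⟩ := mem_blk.1 hn
        rcases Nat.eq_zero_or_pos n with h0 | h0
        · subst h0
          nlinarith
        · exact h0
      have h1 := hbp (odd_of_mod hr hp) n k hkJ.le (by exact_mod_cast hn0)
        (by exact_mod_cast hnp) (yk_le hn) (by rw [hyk]; exact yy_far hk0 hkJ hr i)
        (fun s => Or.inr (by
          rw [hyk]
          have := yy_far hk0 hkJ hr (i + s)
          push_cast at this ⊢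
          rwa [show (i : ℝ) - ((k * r0) % (4 * 2 ^ a) : ℕ) / (4 * 2 ^ a) + s =
            (i : ℝ) + s - ((k * r0) % (4 * 2 ^ a) : ℕ) / (4 * 2 ^ a) by ring]))
      rw [hyk] at h1
      rw [← sub_eq_add_neg]
      exact h1
    · rw [norm_zero]
      exact div_nonneg hC (sq_nonneg _)

end

/-- The sum of the limits of the inner blocks. -/
theorem zs_eq {a r0 : ℕ} (hr : Odd r0) (F : ℝ → ℂ) :
    ∑ k ∈ Finset.Ico (1 : ℕ) (4 * 2 ^ a),
      (∑' i : ℤ, F ((i : ℝ) - ((k * r0) % (4 * 2 ^ a) : ℕ) / (4 * 2 ^ a))) =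
    zs (fun x => ∑' i : ℤ, F (x + i)) a := by
  classical
  set J : ℕ := 4 * 2 ^ a with hJdef
  have hJ : 0 < J := by rw [hJdef]; positivity
  have hJR : (4 * 2 ^ a : ℝ) = (J : ℝ) := by rw [hJdef]; push_cast; rfl
  have hmaps : ∀ k ∈ Finset.Ico 1 J, J - (k * r0) % J ∈ Finset.Ico 1 J := by
    intro k hk
    rw [Finset.mem_Ico] at hk ⊢
    have h1 : (k * r0) % J ≠ 0 := rr_ne (by omega) hk.2 hr
    have h2 : (k * r0) % J < J := Nat.mod_lt _ hJ
    omega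
  have hinj : Set.InjOn (fun k : ℕ => J - (k * r0) % J) (Finset.Ico 1 J : Finset ℕ) := by
    intro k hk l hl hkl
    rw [Finset.mem_coe, Finset.mem_Ico] at hk hl
    have h2 : (k * r0) % J < J := Nat.mod_lt _ hJ
    have h3 : (l * r0) % J < J := Nat.mod_lt _ hJ
    have h4 : (k * r0) % J = (l * r0) % J := by
      have : J - (k * r0) % J = J - (l * r0) % J := hkl
      omega
    have hc : Nat.Coprime J r0 := by
      have h5 : J = 2 ^ (a + 2) := by rw [hJdef]; ring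
      rw [h5]
      exact Nat.Coprime.pow_left _ (Nat.coprime_two_left.2 hr)
    have h6 : k ≡ l [MOD J] := Nat.ModEq.cancel_right_of_coprime hc h4
    have h7 : k % J = l % J := h6
    rwa [Nat.mod_eq_of_lt hk.2, Nat.mod_eq_of_lt hl.2] at h7
  have himg : (Finset.Ico 1 J).image (fun k : ℕ => J - (k * r0) % J) = Finset.Ico 1 J := by
    refine Finset.eq_of_subset_of_card_le ?_ ?_
    · intro x hx
      obtain ⟨k, hk, rfl⟩ := Finset.mem_image.1 hx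
      exact hmaps k hk
    · rw [Finset.card_image_of_injOn hinj]
  have hzs : zs (fun x => ∑' i : ℤ, F (x + i)) a =
      ∑ k ∈ Finset.Ico 1 J, ∑' i : ℤ, F (((J - (k * r0) % J : ℕ) : ℝ) / (4 * 2 ^ a) + i) := by
    unfold zs
    rw [← hJdef]
    conv_lhs => rw [← himg]
    rw [Finset.sum_image hinj]
  rw [hzs]
  refine Finset.sum_congr rfl fun k hk => ?_
  have h2 : (k * r0) % J ≤ J := (Nat.mod_lt _ hJ).le
  rw [← (Equiv.addRight (1 : ℤ)).tsum_eq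
    (fun i : ℤ => F ((i : ℝ) - ((k * r0) % J : ℕ) / (4 * 2 ^ a)))]
  refine tsum_congr fun i => ?_
  congr 1
  rw [hJR, Equiv.coe_addRight, Nat.cast_sub h2]
  have hJ' : (J : ℝ) ≠ 0 := by
    have : (0 : ℝ) < J := by exact_mod_cast hJ
    exact this.ne'
  push_cast
  field_simp
  ring

/-- The inner blocks together. -/
theorem mid_sum {T : ℕ → ℕ → ℤ → ℂ} {F : ℝ → ℂ} (h : PoleData T F) (a : ℕ) {r0 : ℕ}
    (hr : Odd r0) :
    Tendsto (fun p => ∑ k ∈ Finset.Ico (1 : ℕ) (4 * 2 ^ a), ∑ n ∈ blk (4 * 2 ^ a) p k, T a p n)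
      (atTop ⊓ 𝓟 {p : ℕ | p % (4 * 2 ^ a) = r0}) (𝓝 (zs (fun x => ∑' i : ℤ, F (x + i)) a)) := by
  rw [← zs_eq hr F]
  refine tendsto_finsetSum _ fun k hk => ?_
  rw [Finset.mem_Ico] at hk
  exact mid_blk h hk.1 hk.2 hr

/-- Splitting off the two outer blocks. -/
theorem sum_split (J p : ℕ) (hJ : 0 < J) (t : ℕ → ℂ) :
    ∑ n ∈ Finset.range p, t n = ∑ n ∈ blk J p 0, t n +
      ∑ k ∈ Finset.Ico (1 : ℕ) J, ∑ n ∈ blk J p k, t n + ∑ n ∈ blk J p J, t n := by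
  rw [← sum_blk J p t, Finset.sum_range_succ, Finset.range_eq_Ico,
    Finset.sum_eq_sum_Ico_succ_bot hJ]

end C11

theorem pole_sum {T : ℕ → ℕ → ℤ → ℂ} {F : ℝ → ℂ} (h : PoleData T F) (h0 : ∀ a p, T a p 0 = 0) :
    ∃ C : ℝ, ∀ a : ℕ, ∀ᶠ p : ℕ in atTop, Odd p →
      ‖∑ n ∈ Finset.range p, T a p n - zs (fun x => ∑' i : ℤ, F (x + i)) a‖ ≤ C := by
  obtain ⟨C1, hC1, hb⟩ := h.bound 1 one_pos
  set D : ℝ := ∑' i : ℤ, C1 / ((i : ℝ) + 0) ^ 2 with hD
  refine ⟨D + 1 + D, fun a => ?_⟩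
  have hJ : 0 < 4 * 2 ^ a := by positivity
  have key : ∀ r0 ∈ (Finset.range (4 * 2 ^ a)), ∀ᶠ p : ℕ in atTop, Odd p → p % (4 * 2 ^ a) = r0 →
      ‖∑ k ∈ Finset.Ico (1 : ℕ) (4 * 2 ^ a), ∑ n ∈ C11.blk (4 * 2 ^ a) p k, T a p n -
        zs (fun x => ∑' i : ℤ, F (x + i)) a‖ ≤ 1 := by
    intro r0 _
    by_cases hr : Odd r0
    · have h1 := (C11.mid_sum h a hr)
      rw [Metric.tendsto_nhds] at h1
      have h2 := h1 1 one_pos
      rw [eventually_inf_principal] at h2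
      filter_upwards [h2] with p hp _ hpr
      have h3 := hp hpr
      rw [dist_eq_norm] at h3
      exact h3.le
    · refine Eventually.of_forall fun p hp hpr => ?_
      exfalso
      apply hr
      rw [Nat.odd_iff] at hp ⊢
      have h3 := Nat.div_add_mod p (4 * 2 ^ a)
      rw [hpr] at h3
      have : 4 * 2 ^ a * (p / (4 * 2 ^ a)) = 2 * (2 * 2 ^ a * (p / (4 * 2 ^ a))) := by ring
      omega
  have key' := (Filter.eventually_all_finset _).2 key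
  filter_upwards [key', hb a] with p hp hbp hodd
  have h1 := hp (p % (4 * 2 ^ a)) (Finset.mem_range.2 (Nat.mod_lt _ hJ)) hodd rfl
  have h2 := C11.first_blk h0 hC1 (hbp hodd)
  have h3 := C11.last_blk hC1 h0 (hbp hodd)
  rw [C11.sum_split (4 * 2 ^ a) p hJ (fun n => T a p n)]
  have e : ∀ x y z w : ℂ, x + y + z - w = x + (y - w) + z := fun x y z w => by ring
  rw [e]
  refine (norm_add₃_le).trans ?_
  exact add_le_add (add_le_add h2 h1) h3

end Pool.Agent.AMU.Lim
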