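import Pool.Agent.Lib.AMU.LimDefs

/-!
# Row C6: the root of unity `Aj a p`
-/

set_option autoImplicit false

open Filter Topology

namespace Pool.Agent.AMU.Lim

theorem Aj_norm (a p : ℕ) : ‖Aj a p‖ = 1 := by
  unfold Aj
  rw [norm_neg, show Complex.I * (th a p : ℂ) / 2 = ((th a p / 2 : ℝ) : ℂ) * Complex.I by
    push_cast; ring]
  exact Complex.norm_exp_ofReal_mul_I _

theorem Aj_prim {a p : ℕ} (hp : Odd p) : IsPrimitiveRoot (Aj a p) (2 * p) := by
  have hp0 : 0 < p := hp.pos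
  have h1 : IsPrimitiveRoot (Complex.exp (2 * Real.pi * Complex.I * ((2 ^ a : ℕ) / (p : ℂ)))) p :=
    Complex.isPrimitiveRoot_exp_of_coprime _ _ hp0.ne' (by
      exact Nat.Coprime.pow_left _ (Nat.coprime_two_left.2 hp))
  have h2 : IsPrimitiveRoot (-1 : ℂ) 2 := IsPrimitiveRoot.neg_one 0 (by norm_num)
  have h3 : Aj a p = -1 * Complex.exp (2 * Real.pi * Complex.I * ((2 ^ a : ℕ) / (p : ℂ))) := by
    unfold Aj th
    rw [neg_one_mul]
    congr 2
    push_cast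
    ring
  rw [h3]
  have h4 : IsPrimitiveRoot (-1 * Complex.exp (2 * Real.pi * Complex.I *
      ((2 ^ a : ℕ) / (p : ℂ)))) (2 * p) := by
    rw [IsPrimitiveRoot.iff_orderOf, Commute.orderOf_mul_eq_mul_orderOf_of_coprime]
    · rw [← h2.eq_orderOf, ← h1.eq_orderOf]
    · exact Commute.all _ _
    · rw [← h2.eq_orderOf, ← h1.eq_orderOf]
      exact Nat.coprime_two_left.2 hp
  exact h4

theorem Aj_ne (a p : ℕ) : Aj a p ≠ 0 := by
  rw [← norm_ne_zero_iff, Aj_norm]; norm_num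

/-- Powers of `Aj`. -/
theorem Aj_zpow (a p : ℕ) (k : ℤ) :
    Aj a p ^ k = (-1) ^ k * Complex.exp (Complex.I * (th a p * k / 2 : ℝ)) := by
  unfold Aj
  rw [neg_eq_neg_one_mul, mul_zpow, ← Complex.exp_int_mul]
  congr 2
  push_cast
  ring

theorem Aj_zpow_even (a p : ℕ) (k : ℤ) :
    Aj a p ^ (2 * k) = Complex.exp (Complex.I * (th a p * k : ℝ)) := by
  rw [Aj_zpow, zpow_mul, show ((-1 : ℂ)) ^ (2 : ℤ) = 1 by norm_num, one_zpow, one_mul]
  congr 2
  push_cast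
  ring

theorem exp_sub_exp (x : ℝ) : Complex.exp (Complex.I * (x : ℝ)) -
    Complex.exp (Complex.I * ((-x : ℝ) : ℂ)) = 2 * Complex.I * (Real.sin x : ℝ) := by
  rw [mul_comm Complex.I, mul_comm Complex.I, Complex.exp_mul_I, Complex.exp_mul_I]
  push_cast
  rw [Complex.cos_neg, Complex.sin_neg]
  ring

/-- `Aj ^ 2 = exp (i th)`. -/
theorem qdim_Aj (a p : ℕ) (n : ℤ) : qdim (Aj a p) n =
    (((-1) ^ (n + 1) * (Real.sin (th a p * n) / Real.sin (th a p)) : ℝ) : ℂ) := by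
  unfold qdim smat
  rw [show (2 * 1 * n : ℤ) = 2 * n by ring, show (-(2 * n) : ℤ) = 2 * (-n) by ring,
    Aj_zpow_even, Aj_zpow_even, show ((2 : ℤ)) = 2 * 1 by norm_num,
    show (-(2 * 1) : ℤ) = 2 * (-1) by norm_num, Aj_zpow_even, Aj_zpow_even,
    show (th a p * ((-n : ℤ) : ℝ)) = -(th a p * n) by push_cast; ring,
    show (th a p * ((-1 : ℤ) : ℝ)) = -(th a p) by push_cast; ring,
    show (th a p * ((1 : ℤ) : ℝ)) = th a p by push_cast; ring, exp_sub_exp, exp_sub_exp,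
    mul_div_mul_left _ _ (by simp : (2 * Complex.I) ≠ 0), add_comm 1 n]
  push_cast
  ring

/-- `(-1) ^ (n - 1) * (-1) ^ (n ^ 2 - 1) = 1`. -/
theorem twist_Aj (a p : ℕ) (n : ℤ) :
    twist (Aj a p) n = Complex.exp (Complex.I * (th a p * ((n : ℝ) ^ 2 - 1) / 2 : ℝ)) := by
  unfold twist
  rw [Aj_zpow, ← mul_assoc, ← zpow_add₀ (by norm_num : (-1 : ℂ) ≠ 0)]
  have h1 : Even (n - 1 + (n ^ 2 - 1)) := by
    have h2 : n - 1 + (n ^ 2 - 1) = n * (n + 1) - 2 := by ring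
    rw [h2]
    exact (Int.even_mul_succ_self n).sub (by decide)
  rw [h1.neg_one_zpow, one_mul]
  congr 2
  push_cast
  ring

theorem th_tendsto (a : ℕ) : Tendsto (fun p : ℕ => th a p) atTop (𝓝[>] 0) := by
  rw [tendsto_nhdsWithin_iff]
  refine ⟨?_, ?_⟩
  · unfold th
    exact tendsto_const_div_atTop_nhds_zero_nat _
  · filter_upwards [eventually_gt_atTop 0] with p hp
    unfold th
    have : (0 : ℝ) < p := by exact_mod_cast hp
    exact Set.mem_Ioi.2 (by positivity)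

theorem Aj_tendsto (a : ℕ) : Tendsto (fun p : ℕ => Aj a p) atTop (𝓝 (-1)) := by
  have h1 : Tendsto (fun p : ℕ => th a p) atTop (𝓝 0) :=
    (tendsto_nhdsWithin_iff.1 (th_tendsto a)).1
  have h2 : Continuous fun x : ℝ => -Complex.exp (Complex.I * x / 2) := by fun_prop
  have h3 := (h2.tendsto 0).comp h1
  have h4 : -Complex.exp (Complex.I * ((0 : ℝ) : ℂ) / 2) = -1 := by simp
  rw [h4] at h3
  exact h3

/-- `th a p * n = pi k + th a p * y` for `y = yk a p k n`. -/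
theorem th_mul (a k : ℕ) {p : ℕ} (hp : 0 < p) (n s : ℤ) :
    th a p * ((n + s : ℤ) : ℝ) = Real.pi * k + th a p * (yk a p k n + s) := by
  unfold th yk
  have h1 : (p : ℝ) ≠ 0 := by
    have : p ≠ 0 := hp.ne'
    exact_mod_cast this
  push_cast
  field_simp
  ring

end Pool.Agent.AMU.Lim
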