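import Pool.Agent.Lib.AMU.LimA3
import Pool.Agent.Lib.AMU.LimT1

/-!
# Row C8: the state sum near a zero of the quantum integers
-/

set_option autoImplicit false

open Filter Topology

namespace Pool.Agent.AMU.Lim

variable {N : ℕ} {opp : ZMod N → ZMod N} (w : List (ZMod N)) (ord : ℕ → ℤ) (m : ℕ)

theorem sin_pi_mul_add_loc (k : ℕ) (z : ℝ) :
    Real.sin (Real.pi * k + z) = (-1) ^ k * Real.sin z := by
  have h := Real.sin_add_nat_mul_pi z k
  rw [show Real.pi * (k : ℝ) + z = z + (k : ℝ) * Real.pi by ring]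
  exact h

theorem exp_pi_mul_loc (k : ℕ) :
    Complex.exp (Complex.I * ((Real.pi * k : ℝ) : ℂ)) = (-1) ^ k := by
  rw [show Complex.I * ((Real.pi * k : ℝ) : ℂ) = (k : ℂ) * (Real.pi * Complex.I) by
    push_cast; ring]
  rw [Complex.exp_nat_mul, Complex.exp_pi_mul_I]

theorem qdim_loc (a k : ℕ) {p : ℕ} (hp : 0 < p) (n s : ℤ) :
    qdim (Aj a p) (n + s) = (-1) ^ (n + 1 + k) *
      (((-1) ^ s * (Real.sin (th a p * (yk a p k n + s)) / Real.sin (th a p)) : ℝ) : ℂ) := by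
  rw [qdim_Aj, th_mul a k hp n s, sin_pi_mul_add_loc]
  have h1 : ((-1 : ℝ)) ^ (n + s + 1) * ((-1) ^ k * Real.sin (th a p * (yk a p k n + s)) /
      Real.sin (th a p)) = (-1) ^ (n + 1 + k) *
        ((-1) ^ s * (Real.sin (th a p * (yk a p k n + s)) / Real.sin (th a p))) := by
    rw [show n + s + 1 = n + 1 + s by ring, zpow_add₀ (by norm_num : (-1 : ℝ) ≠ 0) (n + 1) s,
      zpow_add₀ (by norm_num : (-1 : ℝ) ≠ 0) (n + 1) (k : ℤ), zpow_natCast]
    ring
  rw [h1]
  push_cast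
  ring

theorem twist_ratio_loc (a k : ℕ) {p : ℕ} (hp : 0 < p) (n l j : ℤ) :
    twist (Aj a p) (n + l) / twist (Aj a p) (n + (l + j)) = ((-1) ^ k) ^ j *
      (Complex.exp (Complex.I * (th a p * (yk a p k n + l) ^ 2 / 2 : ℝ)) /
        Complex.exp (Complex.I * (th a p * (yk a p k n + ((l + j : ℤ) : ℝ)) ^ 2 / 2 : ℝ))) := by
  have h := th_mul a k hp n l
  have hC : (th a p : ℂ) * ((n : ℂ) + l) = Real.pi * k + th a p * (yk a p k n + l) := by
    have h2 := congrArg (fun x : ℝ => (x : ℂ)) h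
    push_cast at h2
    exact h2
  have hs : (((-1 : ℂ)) ^ k) ^ j =
      Complex.exp (((-j : ℤ) : ℂ) * (Complex.I * ((Real.pi * k : ℝ) : ℂ))) := by
    rw [Complex.exp_int_mul, exp_pi_mul_loc, zpow_neg, ← inv_zpow]
    congr 1
    rw [← inv_pow]
    norm_num
  rw [twist_Aj, twist_Aj, ← Complex.exp_sub, ← Complex.exp_sub, hs, ← Complex.exp_add]
  congr 1
  push_cast
  linear_combination (-(Complex.I * j)) * hC

/-- `qdim (n + s) = (-1) ^ (n + 1 + k) * ((-1) ^ s * sin (θ (y + s)) / sin θ)` and the twist ratios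
are `(-1) ^ k` times the ratios of `exp (i θ (y + s) ^ 2 / 2)`: `th_mul`, `coreG_sign`,
`coreG_twist`. -/
theorem colG_eq_loc (hG : Glue opp) (hw : w ≠ []) (hm : Even m) (e : ℤ) (a k : ℕ) {p : ℕ}
    (hp : 0 < p) (n : ℤ) :
    colG opp w ord m e (Aj a p) p n = ((-1) ^ (n + 1 + k)) ^ chiT opp e *
      locG opp w ord m e (th a p) (yk a p k n) (Aj a p) (fun s => 0 < n + s ∧ n + s < p) := by
  unfold colG locG
  have h0 : (fun s => qdim (Aj a p) (n + s)) = fun s : ℤ => (-1) ^ (n + 1 + k) *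
      (((-1) ^ s * (Real.sin (th a p * (yk a p k n + s)) / Real.sin (th a p)) : ℝ) : ℂ) := by
    funext s
    exact qdim_loc a k hp n s
  rw [h0, coreG_sign (opp := opp) w ord m hG (n + 1 + k) e]
  congr 1
  refine coreG_twist (opp := opp) w ord m hw hm (σ := (-1) ^ k) ?_ e _ _ _ _ ?_ ?_ _
  · rw [← pow_mul, mul_comm, pow_mul]
    norm_num
  · intro l
    have h := twist_ratio_loc a k hp n l 1
    rw [zpow_one] at h
    exact h
  · intro l
    have h := twist_ratio_loc a k hp n l (-1)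
    rw [zpow_neg_one] at h
    have h2 : (((-1 : ℂ) ^ k)⁻¹) = (-1) ^ k := by
      rw [← inv_pow]; norm_num
    rw [h2] at h
    exact h

end Pool.Agent.AMU.Lim
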