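import Pool.Agent.Lib.AMU.LimL2
import Pool.Agent.Lib.AMU.LimT3
import Pool.Agent.Lib.AMU.LimS1

/-!
# Row C13: the analytic data of the state sum
-/

set_option autoImplicit false

open Filter Topology

namespace Pool.Agent.AMU.Lim

variable {N : ℕ} {opp : ZMod N → ZMod N} (w : List (ZMod N)) (ord : ℕ → ℤ)

theorem C13_comb_eq {c : ℕ} (G : ℕ → ℂ) (σ : ℂ) (H : ℕ → ℂ)
    (h : ∀ i ∈ Finset.range (c / 2 + 1), G (c - 2 * i) = σ * H (c - 2 * i)) :
    colComb c G = σ * colComb c H := by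
  unfold colComb
  rw [Finset.mul_sum]
  refine Finset.sum_congr rfl fun i hi => ?_
  rw [h i hi]
  ring

theorem C13_comb_norm {c : ℕ} (G : ℕ → ℂ) (B : ℕ → ℝ)
    (h : ∀ i ∈ Finset.range (c / 2 + 1), ‖G (c - 2 * i)‖ ≤ B (c - 2 * i)) :
    ‖colComb c G‖ ≤ ∑ i ∈ Finset.range (c / 2 + 1), ((c - i).choose i : ℝ) * B (c - 2 * i) := by
  unfold colComb
  refine (norm_sum_le _ _).trans (Finset.sum_le_sum fun i hi => ?_)
  rw [norm_mul, norm_mul, norm_pow, norm_neg, norm_one, one_pow, one_mul, Complex.norm_natCast]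
  exact mul_le_mul_of_nonneg_left (h i hi) (by positivity)

theorem C13_comb_ofReal {c : ℕ} (G : ℕ → ℝ) :
    ((colComb c G : ℝ) : ℂ) = colComb c fun m => ((G m : ℝ) : ℂ) := by
  unfold colComb
  push_cast
  rfl

theorem C13_comb_tendsto {ι : Type} {l : Filter ι} {c : ℕ} {G : ι → ℕ → ℂ} {G0 : ℕ → ℂ}
    (h : ∀ i ∈ Finset.range (c / 2 + 1), Tendsto (fun x => G x (c - 2 * i)) l
      (𝓝 (G0 (c - 2 * i)))) :
    Tendsto (fun x => colComb c (G x)) l (𝓝 (colComb c G0)) := by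
  unfold colComb
  exact tendsto_finset_sum _ fun i hi => (h i hi).const_mul _

theorem C13_even {c i : ℕ} (hc : Even c) (hi : i ∈ Finset.range (c / 2 + 1)) :
    Even (c - 2 * i) := by
  obtain ⟨k, rfl⟩ := hc
  rw [Finset.mem_range] at hi
  exact ⟨k - i, by omega⟩

/-- The common sign. -/
theorem C13_colT (hG : Glue opp) (hw : w ≠ []) {c : ℕ} (hc : Even c) (e : ℤ) (a k : ℕ) {p : ℕ}
    (hp : 0 < p) (n : ℤ) :
    colT opp w ord c e (Aj a p) p n = ((-1) ^ (n + 1 + k)) ^ chiT opp e *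
      colComb c fun m => locG opp w ord m e (th a p) (yk a p k n) (Aj a p)
        (fun s => 0 < n + s ∧ n + s < p) := by
  unfold colT
  exact C13_comb_eq _ _ _ fun i hi => colG_eq_loc w ord _ hG hw (C13_even hc hi) e a k hp n

theorem C13_sign (z χ : ℤ) : ‖(((-1 : ℂ) ^ z) ^ χ)‖ = 1 := by
  rw [norm_zpow, norm_zpow, norm_neg, norm_one, one_zpow, one_zpow]

/-- The bound of all terms. -/
theorem C13_bound (hG : Glue opp) (hw : w ≠ []) {c : ℕ} (hc : Even c) (e : ℤ) :
    ∀ δ : ℝ, 0 < δ → ∃ C : ℝ, 0 ≤ C ∧ ∀ a : ℕ, ∀ᶠ p : ℕ in atTop, Odd p →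
    ∀ (n : ℤ) (k : ℕ), k ≤ 4 * 2 ^ a → 0 < n → n < p →
      |yk a p k n| ≤ p / (2 * (4 * 2 ^ a)) → δ ≤ |yk a p k n| →
      (∀ s : ℤ, yk a p k n + s = 0 ∨ δ ≤ |yk a p k n + s|) →
      ‖colT opp w ord c e (Aj a p) p n‖ ≤ C * |yk a p k n| ^ chiT opp e := by
  intro δ hδ
  choose S hS using fun m => locG_bound (opp := opp) w ord m hG e
  choose C hC h using fun m => hS m δ hδ
  have hpi := Real.pi_pos
  refine ⟨∑ i ∈ Finset.range (c / 2 + 1), ((c - i).choose i : ℝ) * C (c - 2 * i),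
    Finset.sum_nonneg fun i _ => mul_nonneg (by positivity) (hC _), fun a => ?_⟩
  have h0 := th_tendsto a
  have h1 : ∀ᶠ p : ℕ in atTop, ∀ i ∈ Finset.range (c / 2 + 1),
      th a p < min (Real.pi / 2) (Real.pi / 4 / (S (c - 2 * i) + 1)) := by
    rw [Finset.eventually_all]
    intro i _
    exact h0.eventually (nhdsWithin_le_nhds (Iio_mem_nhds (lt_min (by positivity)
      (by positivity))))
  have h2 : ∀ᶠ p : ℕ in atTop, 0 < th a p := h0.eventually self_mem_nhdsWithin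
  filter_upwards [h1, h2, eventually_gt_atTop 0] with p h1 h2 hp _ n k _ _ _ hy1 hy2 hy3
  rw [C13_colT w ord hG hw hc e a k hp n, norm_mul, C13_sign, one_mul, Finset.sum_mul]
  refine (C13_comb_norm _ (fun m => C m * |yk a p k n| ^ chiT opp e) fun i hi => ?_).trans
    (le_of_eq (Finset.sum_congr rfl fun i _ => by ring))
  have h3 := h1 i hi
  have h4 : th a p < Real.pi / 4 / (S (c - 2 * i) + 1) := lt_of_lt_of_le h3 (min_le_right _ _)
  rw [lt_div_iff₀ (by positivity)] at h4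
  refine h (c - 2 * i) (th a p) (yk a p k n) (Aj a p) _ (Aj_norm a p) h2
    (h3.le.trans (min_le_left _ _)) ?_ hy2 hy3
  have hp0 : (0 : ℝ) < p := by exact_mod_cast hp
  have h5 : th a p * |yk a p k n| ≤ Real.pi / 2 := by
    calc th a p * |yk a p k n| ≤ th a p * (p / (2 * (4 * 2 ^ a))) :=
          mul_le_mul_of_nonneg_left hy1 h2.le
      _ = Real.pi / 2 := by
          unfold th
          field_simp
  nlinarith

/-- The limit of the combinations of the local state sums. -/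
theorem C13_lim (e : ℤ) (c a k : ℕ) {y : ℝ} (hk0 : 0 < k) (hk1 : k < 4 * 2 ^ a)
    (hy : ∀ s : ℤ, y + s ≠ 0) (ν : ℕ → ℤ) {l : Filter ℕ} (hl : l ≤ atTop)
    (hν : ∀ᶠ p in l, Odd p ∧ yk a p k (ν p) = y) :
    Tendsto (fun p => colComb c fun m => locG opp w ord m e (th a p) (yk a p k (ν p)) (Aj a p)
        (fun s => 0 < ν p + s ∧ ν p + s < p)) l
      (𝓝 (((colComb c fun m => core opp w ord m e y : ℝ) : ℂ))) := by
  rw [C13_comb_ofReal]
  have hok : ∀ s : ℤ, ∀ᶠ p in l, 0 < ν p + s ∧ ν p + s < (p : ℤ) := by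
    intro s
    obtain ⟨B, hB⟩ := exists_nat_gt ((|y| + |(s : ℝ)|) * (4 * 2 ^ a))
    filter_upwards [hν, hl (eventually_gt_atTop B)] with p hp hpB
    obtain ⟨-, hp1⟩ := hp
    unfold yk at hp1
    have hpB' : (B : ℝ) < p := by exact_mod_cast hpB
    have hJ : (0 : ℝ) < 4 * 2 ^ a := by positivity
    have h1 : (p : ℝ) / (4 * 2 ^ a) ≤ k * p / (4 * 2 ^ a) := by
      rw [div_le_div_iff_of_pos_right hJ]
      have : (1 : ℝ) ≤ k := by exact_mod_cast hk0
      nlinarith [(by positivity : (0 : ℝ) ≤ p)]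
    have h2 : (k : ℝ) * p / (4 * 2 ^ a) + p / (4 * 2 ^ a) ≤ p := by
      rw [← add_div, div_le_iff₀ hJ]
      have h3 : (k : ℝ) + 1 ≤ 4 * 2 ^ a := by
        have : k + 1 ≤ 4 * 2 ^ a := hk1
        exact_mod_cast this
      nlinarith [(by positivity : (0 : ℝ) ≤ p)]
    have h3 : |y| + |(s : ℝ)| < p / (4 * 2 ^ a) := by
      rw [lt_div_iff₀ hJ]
      linarith
    have h4 := neg_abs_le y
    have h5 := neg_abs_le (s : ℝ)
    have h6 := le_abs_self y
    have h7 := le_abs_self (s : ℝ)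
    constructor
    · have h8 : (0 : ℝ) < ((ν p + s : ℤ) : ℝ) := by
        push_cast
        linarith
      exact_mod_cast h8
    · have h8 : ((ν p + s : ℤ) : ℝ) < p := by
        push_cast
        linarith
      exact_mod_cast h8
  refine C13_comb_tendsto fun i _ => ?_
  have h1 := locG_tendsto (opp := opp) w ord (c - 2 * i) e hy (l := l) (fun p => th a p)
    (fun p => Aj a p) (fun p s => 0 < ν p + s ∧ ν p + s < (p : ℤ))
    ((th_tendsto a).mono_left hl) ((Aj_tendsto a).mono_left hl) hok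
  refine h1.congr' ?_
  filter_upwards [hν] with p hp
  rw [hp.2]

/-- `locG_bound` (`th * p / (2 * J) = pi / 2`, `th * S → 0`; `|y| ^ chi ≤ δ ^ (chi + 2) / y ^ 2`),
`colG_eq_loc`, `locG_tendsto` (`Even (chiT opp e)`: the signs are `1`). -/
theorem poleData_colT (hG : Glue opp) (hw : w ≠ []) {c : ℕ} (hc : Even c) {e : ℤ}
    (he : chiT opp e ≤ -2) (hee : Even (chiT opp e)) :
    PoleData (fun a p n => colT opp w ord c e (Aj a p) p n)
      (fun y => ((colComb c fun m => core opp w ord m e y : ℝ) : ℂ)) where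
  bound := by
    intro δ hδ
    obtain ⟨C, hC, h⟩ := C13_bound w ord hG hw hc e δ hδ
    refine ⟨C * δ ^ (chiT opp e + 2), by positivity, fun a => ?_⟩
    filter_upwards [h a] with p hp hodd n k hk hn hnp hy1 hy2 hy3
    refine (hp hodd n k hk hn hnp hy1 hy2 hy3).trans ?_
    rw [mul_div_assoc, div_eq_mul_inv]
    exact mul_le_mul_of_nonneg_left (C10_pow_le he hδ hy2) hC
  lim := by
    intro a k y hk0 hk1 hy ν l hl hν
    refine (C13_lim (opp := opp) w ord e c a k hk0 hk1 hy ν hl hν).congr' ?_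
    filter_upwards [hν, hl (eventually_gt_atTop 0)] with p hp hp0
    rw [C13_colT w ord hG hw hc e a k hp0 (ν p)]
    obtain ⟨j, hj⟩ := hee
    have h1 : (((-1 : ℂ) ^ (ν p + 1 + k)) ^ chiT opp e) = 1 := by
      rw [hj, ← zpow_mul, mul_add, zpow_add₀ (by norm_num), ← mul_zpow]
      have h2 : ((-1 : ℂ) * -1) = 1 := by norm_num
      rw [h2, one_zpow]
    rw [h1, one_mul]

/-- The same for the squares (all signs have absolute value one). -/
theorem poleData_sq (hG : Glue opp) (hw : w ≠ []) {c : ℕ} (hc : Even c) {e : ℤ}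
    (he : chiT opp e ≤ -1) :
    PoleData (fun a p n => ((‖colT opp w ord c e (Aj a p) p n‖ ^ 2 : ℝ) : ℂ))
      (fun y => (((colComb c fun m => core opp w ord m e y) ^ 2 : ℝ) : ℂ)) where
  bound := by
    intro δ hδ
    obtain ⟨C, hC, h⟩ := C13_bound w ord hG hw hc e δ hδ
    refine ⟨C ^ 2 * δ ^ (2 * chiT opp e + 2), by positivity, fun a => ?_⟩
    filter_upwards [h a] with p hp hodd n k hk hn hnp hy1 hy2 hy3
    have h1 := hp hodd n k hk hn hnp hy1 hy2 hy3
    rw [Complex.norm_real, Real.norm_eq_abs, abs_of_nonneg (sq_nonneg _)]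
    have h2 := pow_le_pow_left₀ (norm_nonneg _) h1 2
    refine h2.trans ?_
    rw [mul_pow, mul_div_assoc, div_eq_mul_inv]
    refine mul_le_mul_of_nonneg_left ?_ (sq_nonneg C)
    have h3 : (|yk a p k n| ^ chiT opp e) ^ 2 = |yk a p k n| ^ (2 * chiT opp e) := by
      rw [← zpow_natCast, ← zpow_mul, mul_comm]
      rfl
    rw [h3]
    exact C10_pow_le (by omega) hδ hy2
  lim := by
    intro a k y hk0 hk1 hy ν l hl hν
    have h1 := (C13_lim (opp := opp) w ord e c a k hk0 hk1 hy ν hl hν).norm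
    rw [Complex.norm_real, Real.norm_eq_abs] at h1
    have h2 := h1.pow 2
    rw [sq_abs] at h2
    refine ((Complex.continuous_ofReal.tendsto _).comp h2).congr' ?_
    filter_upwards [hl (eventually_gt_atTop 0)] with p hp0
    show ((‖_‖ ^ 2 : ℝ) : ℂ) = _
    rw [C13_colT w ord hG hw hc e a k hp0 (ν p), norm_mul, C13_sign, one_mul]

/-- The sum over the colours of the combination. -/
theorem coreCol_eq (hG : Glue opp) {c : ℕ} {e : ℤ} (he : chiT opp e ≤ -2) {x : ℝ}
    (hx : ∀ s : ℤ, x + s ≠ 0) :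
    coreCol opp w ord c e x = ∑' i : ℤ, colComb c fun m => core opp w ord m e (x + i) := by
  unfold coreCol colComb coreSum
  rw [Summable.tsum_finsetSum fun i _ =>
    (core_summable (opp := opp) w ord (c - 2 * i) hG he hx).mul_left _]
  exact Finset.sum_congr rfl fun i _ => (tsum_mul_left).symm

/-- `pole_sum` for `colT`. -/
theorem main_lim (hG : Glue opp) (hw : w ≠ []) {c : ℕ} (hc : Even c) {e : ℤ}
    (he : chiT opp e ≤ -2) (hee : Even (chiT opp e)) :
    ∃ C : ℝ, ∀ a : ℕ, ∀ᶠ p : ℕ in atTop, Odd p →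
      ‖∑ n ∈ Finset.range p, colT opp w ord c e (Aj a p) p n -
        ((zs (coreCol opp w ord c e) a : ℝ) : ℂ)‖ ≤ C := by
  obtain ⟨C, hC⟩ := pole_sum (poleData_colT w ord hG hw hc he hee) (fun a p => by
    unfold colT colComb
    refine Finset.sum_eq_zero fun i _ => ?_
    show _ * colG opp w ord (c - 2 * i) e (Aj a p) p 0 = 0
    rw [colG_zero, mul_zero])
  refine ⟨C, fun a => ?_⟩
  filter_upwards [hC a] with p hp hodd
  have h1 := hp hodd
  have h2 : zs (fun x => ∑' i : ℤ, ((colComb c fun m => core opp w ord m e (x + i) : ℝ) : ℂ)) a =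
      ((zs (coreCol opp w ord c e) a : ℝ) : ℂ) := by
    unfold zs
    rw [Complex.ofReal_sum]
    refine Finset.sum_congr rfl fun k hk => ?_
    rw [Finset.mem_Ico] at hk
    rw [coreCol_eq w ord hG he, Complex.ofReal_tsum]
    intro s h3
    have hJ : (0 : ℝ) < 4 * 2 ^ a := by positivity
    have h4 : (k : ℝ) + s * (4 * 2 ^ a) = 0 := by
      field_simp at h3
      linarith
    have h5 : (k : ℤ) + s * (4 * 2 ^ a) = 0 := by exact_mod_cast h4
    have h6 : (0 : ℤ) < k := by exact_mod_cast hk.1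
    have h7 : (k : ℤ) < 4 * 2 ^ a := by exact_mod_cast hk.2
    have h8 : (0 : ℤ) < 4 * 2 ^ a := by positivity
    have h9 : s < 0 := by nlinarith
    have h10 : s ≤ -1 := by omega
    nlinarith
  rw [h2] at h1
  exact h1

end Pool.Agent.AMU.Lim
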