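import Pool.Agent.Lib.AMU.LimDefs

/-!
# Row C12: the leading term of the sum over the zeros
-/

set_option autoImplicit false

open Filter Topology

namespace Pool.Agent.AMU.Lim

private theorem s2_summ {κ : ℕ} (hκ : 2 ≤ κ) : Summable fun k : ℕ => 1 / ((k : ℝ) + 1) ^ κ := by
  have h1 := (summable_nat_add_iff (f := fun n : ℕ => 1 / (n : ℝ) ^ κ) 1).2
    (Real.summable_one_div_nat_pow.2 (by omega))
  refine h1.congr fun k => ?_
  push_cast
  rfl

private theorem s2_bound {κ : ℕ} {f : ℝ → ℝ} (hper : ∀ x, f (x + 1) = f x)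
    (hb : ∀ δ : ℝ, 0 < δ → ∃ C : ℝ, ∀ x : ℝ, δ ≤ x → x ≤ 1 - δ → |f x| ≤ C) {L : ℝ}
    (hL : Tendsto (fun x : ℝ => x ^ κ * f x) (𝓝[≠] 0) (𝓝 L)) :
    ∃ C : ℝ, ∀ x : ℝ, x ≠ 0 → |x| ≤ 1 / 2 → |x ^ κ * f x| ≤ C := by
  have h1 : ∀ᶠ x in 𝓝[≠] (0 : ℝ), |x ^ κ * f x| < |L| + 1 := by
    have h2 := hL.abs
    exact h2.eventually_lt_const (by linarith)
  rw [eventually_nhdsWithin_iff, Metric.eventually_nhds_iff] at h1
  obtain ⟨δ, hδ, h1⟩ := h1
  obtain ⟨C, hC⟩ := hb (min δ (1 / 2)) (lt_min hδ (by norm_num))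
  refine ⟨max (|L| + 1) C, fun x hx hx2 => ?_⟩
  by_cases hxδ : |x| < δ
  · exact (h1 (by rwa [Real.dist_0_eq_abs]) hx).le.trans (le_max_left _ _)
  · push Not at hxδ
    have h3 : |f x| ≤ C := by
      rcases lt_or_gt_of_ne hx with hneg | hpos
      · rw [← hper x]
        rw [abs_of_neg hneg] at hxδ hx2
        have e1 := min_le_left δ (1 / 2)
        have e2 := min_le_right δ (1 / 2)
        exact hC (x + 1) (by linarith) (by linarith)
      · rw [abs_of_pos hpos] at hxδ hx2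
        have e1 := min_le_left δ (1 / 2)
        have e2 := min_le_right δ (1 / 2)
        exact hC x (by linarith) (by linarith)
    have h4 : |x ^ κ| ≤ 1 := by
      rw [abs_pow]
      exact pow_le_one₀ (abs_nonneg _) (by linarith)
    rw [abs_mul]
    calc |x ^ κ| * |f x| ≤ 1 * |f x| := by gcongr
      _ ≤ max (|L| + 1) C := by rw [one_mul]; exact h3.trans (le_max_right _ _)

/-- one half of the sum -/
private theorem s2_half {κ : ℕ} (hκ : 2 ≤ κ) {g : ℝ → ℝ} {L C : ℝ}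
    (hC : ∀ x : ℝ, x ≠ 0 → |x| ≤ 1 / 2 → |g x| ≤ C)
    (hL : Tendsto g (𝓝[≠] 0) (𝓝 L)) (ε : ℝ) (hε : |ε| = 1) (M : ℕ → ℕ)
    (hM : ∀ a, M a ≤ 2 * 2 ^ a) (hM2 : ∀ a, 2 ^ a ≤ M a) :
    Tendsto (fun a : ℕ => ∑ k ∈ Finset.range (M a),
      1 / ((k : ℝ) + 1) ^ κ * g (ε * (((k : ℝ) + 1) / ((4 * 2 ^ a : ℕ) : ℝ)))) atTop
      (𝓝 ((∑' k : ℕ, 1 / ((k : ℝ) + 1) ^ κ) * L)) := by
  have h1 : Tendsto (fun a : ℕ => ∑' k : ℕ, if k < M a then
      1 / ((k : ℝ) + 1) ^ κ * g (ε * (((k : ℝ) + 1) / ((4 * 2 ^ a : ℕ) : ℝ))) else 0) atTop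
      (𝓝 (∑' k : ℕ, 1 / ((k : ℝ) + 1) ^ κ * L)) := by
    refine tendsto_tsum_of_dominated_convergence (bound := fun k => 1 / ((k : ℝ) + 1) ^ κ * |C|)
      ((s2_summ hκ).mul_right _) ?_ ?_
    · intro k
      have h2 : Tendsto (fun a : ℕ => ε * (((k : ℝ) + 1) / ((4 * 2 ^ a : ℕ) : ℝ))) atTop
          (𝓝[≠] 0) := by
        rw [tendsto_nhdsWithin_iff]
        constructor
        · have h3 : Tendsto (fun a : ℕ => ((4 * 2 ^ a : ℕ) : ℝ)) atTop atTop := by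
            push_cast
            exact (tendsto_pow_atTop_atTop_of_one_lt (by norm_num : (1 : ℝ) < 2)).const_mul_atTop
              (by norm_num)
          have h4 := (h3.const_div_atTop ((k : ℝ) + 1)).const_mul ε
          rwa [mul_zero] at h4
        · refine Eventually.of_forall fun a => ?_
          have : ε ≠ 0 := by
            rintro rfl
            simp at hε
          have h5 : (0 : ℝ) < ((k : ℝ) + 1) / ((4 * 2 ^ a : ℕ) : ℝ) := by positivity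
          exact mul_ne_zero this h5.ne'
      have h6 := (hL.comp h2).const_mul (1 / ((k : ℝ) + 1) ^ κ)
      refine h6.congr' ?_
      have h7 : ∀ᶠ a : ℕ in atTop, k < M a := by
        filter_upwards [eventually_ge_atTop k] with a ha
        exact lt_of_lt_of_le (lt_of_le_of_lt ha Nat.lt_two_pow_self) (hM2 a)
      filter_upwards [h7] with a ha
      rw [if_pos ha]
      rfl
    · refine Eventually.of_forall fun a k => ?_
      split_ifs with h
      · rw [Real.norm_eq_abs, abs_mul, abs_of_nonneg (by positivity)]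
        have h8 : |g (ε * (((k : ℝ) + 1) / ((4 * 2 ^ a : ℕ) : ℝ)))| ≤ |C| := by
          refine (hC _ ?_ ?_).trans (le_abs_self C)
          · have : ε ≠ 0 := by
              rintro rfl
              simp at hε
            have h5 : (0 : ℝ) < ((k : ℝ) + 1) / ((4 * 2 ^ a : ℕ) : ℝ) := by positivity
            exact mul_ne_zero this h5.ne'
          · rw [abs_mul, hε, one_mul, abs_of_nonneg (by positivity), div_le_iff₀ (by positivity)]
            have h9 : k + 1 ≤ 2 * 2 ^ a := (Nat.succ_le_of_lt h).trans (hM a)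
            have h10 : (k : ℝ) + 1 ≤ 2 * 2 ^ a := by exact_mod_cast h9
            push_cast
            linarith
        gcongr
      · rw [norm_zero]
        positivity
  rw [tsum_mul_right] at h1
  refine h1.congr fun a => ?_
  rw [tsum_eq_sum (s := Finset.range (M a))]
  · exact Finset.sum_congr rfl fun k hk => if_pos (Finset.mem_range.1 hk)
  · intro k hk
    exact if_neg fun h => hk (Finset.mem_range.2 h)

/-- Dominated convergence on `k ≤ J / 2` and on `J - k < J / 2`. -/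
theorem zeta_lim {κ : ℕ} (hκ : 2 ≤ κ) (hκe : Even κ) {f : ℝ → ℝ} (hper : ∀ x, f (x + 1) = f x)
    (hb : ∀ δ : ℝ, 0 < δ → ∃ C : ℝ, ∀ x : ℝ, δ ≤ x → x ≤ 1 - δ → |f x| ≤ C) {L : ℝ}
    (hL : Tendsto (fun x : ℝ => x ^ κ * f x) (𝓝[≠] 0) (𝓝 L)) :
    Tendsto (fun a : ℕ => (((4 * 2 ^ a : ℕ) : ℝ) ^ κ)⁻¹ * zs f a) atTop
      (𝓝 (2 * (∑' k : ℕ, 1 / ((k : ℝ) + 1) ^ κ) * L)) := by
  obtain ⟨C, hC⟩ := s2_bound hper hb hL
  have h1 := s2_half hκ hC hL 1 (by norm_num) (fun a => 2 * 2 ^ a) (fun a => le_rfl)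
    (fun a => by omega)
  have h2 := s2_half hκ hC hL (-1) (by norm_num) (fun a => 2 * 2 ^ a - 1) (fun a => by omega)
    (fun a => by have := Nat.one_le_two_pow (n := a); omega)
  have h3 := h1.add h2
  rw [show 2 * (∑' k : ℕ, 1 / ((k : ℝ) + 1) ^ κ) * L = (∑' k : ℕ, 1 / ((k : ℝ) + 1) ^ κ) * L +
    (∑' k : ℕ, 1 / ((k : ℝ) + 1) ^ κ) * L by ring]
  refine h3.congr fun a => ?_
  have hp : 1 ≤ 2 ^ a := Nat.one_le_two_pow
  have hJ : (0 : ℝ) < ((4 * 2 ^ a : ℕ) : ℝ) := by positivity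
  have hterm : ∀ (ε : ℝ), ε ^ κ = 1 → ∀ k : ℕ, 1 / ((k : ℝ) + 1) ^ κ *
      ((ε * (((k : ℝ) + 1) / ((4 * 2 ^ a : ℕ) : ℝ))) ^ κ *
        f (ε * (((k : ℝ) + 1) / ((4 * 2 ^ a : ℕ) : ℝ)))) =
      (((4 * 2 ^ a : ℕ) : ℝ) ^ κ)⁻¹ * f (ε * (((k : ℝ) + 1) / ((4 * 2 ^ a : ℕ) : ℝ))) := by
    intro ε hε k
    have hk : ((k : ℝ) + 1) ^ κ ≠ 0 := by positivity
    rw [mul_pow, hε, one_mul, div_pow]
    field_simp
  have e1 : ∑ k ∈ Finset.range (2 * 2 ^ a), 1 / ((k : ℝ) + 1) ^ κ *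
      ((1 * (((k : ℝ) + 1) / ((4 * 2 ^ a : ℕ) : ℝ))) ^ κ *
        f (1 * (((k : ℝ) + 1) / ((4 * 2 ^ a : ℕ) : ℝ)))) =
      (((4 * 2 ^ a : ℕ) : ℝ) ^ κ)⁻¹ * ∑ k ∈ Finset.Ico (1 : ℕ) (2 * 2 ^ a + 1),
        f ((k : ℝ) / (4 * 2 ^ a)) := by
    rw [Finset.sum_congr rfl fun k _ => hterm 1 (one_pow κ) k, ← Finset.mul_sum,
      Finset.sum_Ico_eq_sum_range]
    congr 1
    refine Finset.sum_congr (by congr 1) fun k _ => ?_
    congr 1
    push_cast
    ring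
  have e2 : ∑ k ∈ Finset.range (2 * 2 ^ a - 1), 1 / ((k : ℝ) + 1) ^ κ *
      ((-1 * (((k : ℝ) + 1) / ((4 * 2 ^ a : ℕ) : ℝ))) ^ κ *
        f (-1 * (((k : ℝ) + 1) / ((4 * 2 ^ a : ℕ) : ℝ)))) =
      (((4 * 2 ^ a : ℕ) : ℝ) ^ κ)⁻¹ * ∑ k ∈ Finset.Ico (2 * 2 ^ a + 1 : ℕ) (4 * 2 ^ a),
        f ((k : ℝ) / (4 * 2 ^ a)) := by
    rw [Finset.sum_congr rfl fun k _ => hterm (-1) (hκe.neg_one_pow) k, ← Finset.mul_sum,
      Finset.sum_Ico_eq_sum_range, ← Finset.sum_range_reflect]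
    congr 1
    have hlen : 4 * 2 ^ a - (2 * 2 ^ a + 1) = 2 * 2 ^ a - 1 := by omega
    refine Finset.sum_congr (by rw [hlen]) fun k hk => ?_
    rw [Finset.mem_range] at hk
    have hk2 : 2 * 2 ^ a - 1 - 1 - k + (k + 1) = 2 * 2 ^ a - 1 := by omega
    have hk3 : ((2 * 2 ^ a - 1 - 1 - k : ℕ) : ℝ) = 2 * 2 ^ a - 1 - (k + 1) := by
      have h5 : ((2 * 2 ^ a - 1 - 1 - k : ℕ) : ℝ) + ((k : ℝ) + 1) = ((2 * 2 ^ a - 1 : ℕ) : ℝ) := by
        exact_mod_cast hk2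
      have h6 : ((2 * 2 ^ a - 1 : ℕ) : ℝ) = 2 * 2 ^ a - 1 := by
        rw [Nat.cast_sub (by omega)]
        push_cast
        ring
      linarith
    rw [hk3, ← hper]
    congr 1
    push_cast
    have : (2 : ℝ) ^ a ≠ 0 := by positivity
    field_simp
    ring
  show (∑ k ∈ Finset.range (2 * 2 ^ a), _) + (∑ k ∈ Finset.range (2 * 2 ^ a - 1), _) = _
  rw [e1, e2, ← mul_add, Finset.sum_Ico_consecutive _ (by omega) (by omega)]
  rfl

theorem zeta_pos {κ : ℕ} (hκ : 2 ≤ κ) : 0 < ∑' k : ℕ, 1 / ((k : ℝ) + 1) ^ κ :=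
  (s2_summ hκ).tsum_pos (fun k => by positivity) 0 (by positivity)

private theorem s2_summ_int {κ : ℕ} (hκ : 2 ≤ κ) :
    Summable fun i : ℤ => 1 / (|(i : ℝ)| + 1) ^ κ := by
  refine Summable.of_nat_of_neg ?_ ?_
  · refine (s2_summ hκ).congr fun k => ?_
    simp
  · refine (s2_summ hκ).congr fun k => ?_
    simp

/-- The sum of the inverse powers. -/
theorem invSum_tendsto {κ : ℕ} (hκ : 2 ≤ κ) :
    Tendsto (fun x : ℝ => x ^ κ * ∑' i : ℤ, ((x + i) ^ κ)⁻¹) (𝓝[≠] 0) (𝓝 1) := by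
  have h1 : Tendsto (fun x : ℝ => ∑' i : ℤ, x ^ κ * ((x + i) ^ κ)⁻¹) (𝓝[≠] 0)
      (𝓝 (∑' i : ℤ, if i = 0 then (1 : ℝ) else 0)) := by
    refine tendsto_tsum_of_dominated_convergence
      (bound := fun i : ℤ => 4 ^ κ * (1 / (|(i : ℝ)| + 1) ^ κ)) ((s2_summ_int hκ).mul_left _) ?_ ?_
    · intro i
      split_ifs with hi
      · subst hi
        refine Tendsto.congr' ?_ tendsto_const_nhds
        filter_upwards [self_mem_nhdsWithin] with x hx
        have : x ^ κ ≠ 0 := pow_ne_zero _ hx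
        simp [this]
      · have h2 : Tendsto (fun x : ℝ => x ^ κ * ((x + i) ^ κ)⁻¹) (𝓝 0) (𝓝 ((0 : ℝ) ^ κ * (((0 : ℝ) + i) ^ κ)⁻¹)) := by
          refine ((continuous_pow κ).tendsto 0).mul ?_
          refine Tendsto.inv₀ ?_ ?_
          · exact (((continuous_id.add continuous_const).pow κ).tendsto (0 : ℝ))
          · rw [zero_add]
            exact pow_ne_zero _ (by exact_mod_cast hi)
        rw [zero_pow (by omega), zero_mul] at h2
        exact h2.mono_left nhdsWithin_le_nhds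
    · have h3 : ∀ᶠ x : ℝ in 𝓝[≠] 0, |x| < 1 / 2 := by
        refine mem_nhdsWithin_of_mem_nhds ?_
        have : Metric.ball (0 : ℝ) (1 / 2) ∈ 𝓝 (0 : ℝ) := Metric.ball_mem_nhds 0 (by norm_num)
        filter_upwards [this] with x hx
        rwa [Metric.mem_ball, Real.dist_0_eq_abs] at hx
      filter_upwards [h3, self_mem_nhdsWithin] with x hx hx0 i
      rw [Real.norm_eq_abs, abs_mul, abs_inv, abs_pow, abs_pow, ← inv_pow, ← mul_pow, one_div,
        ← inv_pow, ← mul_pow]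
      refine pow_le_pow_left₀ (by positivity) ?_ κ
      by_cases hi : i = 0
      · subst hi
        have : |x| ≠ 0 := abs_ne_zero.2 hx0
        simp only [Int.cast_zero, add_zero, abs_zero, zero_add, inv_one, mul_one]
        rw [mul_inv_cancel₀ this]
        norm_num
      · have hi1 : (1 : ℝ) ≤ |(i : ℝ)| := by
          rw [← Int.cast_abs]
          exact_mod_cast Int.one_le_abs hi
        have h4 : |(i : ℝ)| ≤ |x + i| + |x| := by
          have := abs_sub (x + i) x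
          rwa [add_sub_cancel_left] at this
        have h5 : (|(i : ℝ)| + 1) / 4 ≤ |x + i| := by linarith
        have h6 : (0 : ℝ) < |x + i| := by linarith
        have h7 : |x| * |x + ↑i|⁻¹ ≤ 1 * ((|(i : ℝ)| + 1) / 4)⁻¹ := by
          refine mul_le_mul (by linarith) ?_ (by positivity) (by norm_num)
          exact inv_anti₀ (by positivity) h5
        refine h7.trans (le_of_eq ?_)
        rw [inv_div]
        ring
  rw [tsum_ite_eq] at h1
  refine h1.congr fun x => ?_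
  rw [tsum_mul_left]

theorem invSum_periodic (κ : ℕ) (x : ℝ) :
    ∑' i : ℤ, ((x + 1 + i) ^ κ)⁻¹ = ∑' i : ℤ, ((x + i) ^ κ)⁻¹ := by
  rw [← (Equiv.addRight (1 : ℤ)).tsum_eq (fun i : ℤ => ((x + i) ^ κ)⁻¹)]
  refine tsum_congr fun i => ?_
  rw [Equiv.coe_addRight]
  push_cast
  congr 2
  ring

theorem invSum_bound {κ : ℕ} (hκ : 2 ≤ κ) :
    ∀ δ : ℝ, 0 < δ → ∃ C : ℝ, ∀ x : ℝ, δ ≤ x → x ≤ 1 - δ →
      |∑' i : ℤ, ((x + i) ^ κ)⁻¹| ≤ C := by
  intro δ hδ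
  refine ⟨∑' i : ℤ, (2 / δ) ^ κ * (1 / (|(i : ℝ)| + 1) ^ κ), fun x hx1 hx2 => ?_⟩
  rw [← Real.norm_eq_abs]
  refine tsum_of_norm_bounded ((s2_summ_int hκ).mul_left _).hasSum fun i => ?_
  rw [Real.norm_eq_abs, abs_inv, abs_pow, one_div, ← inv_pow, ← inv_pow, ← mul_pow]
  refine pow_le_pow_left₀ (by positivity) ?_ κ
  have hδ1 : δ ≤ 1 / 2 := by linarith
  have key : δ * (|(i : ℝ)| + 1) / 2 ≤ |x + i| := by
    rcases le_or_gt 0 i with hi | hi
    · have hi' : (0 : ℝ) ≤ i := by exact_mod_cast hi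
      rw [abs_of_nonneg hi', abs_of_nonneg (by linarith)]
      nlinarith
    · have hi' : (i : ℝ) ≤ -1 := by exact_mod_cast (by omega : i ≤ -1)
      rw [abs_of_nonpos (by linarith : (i : ℝ) ≤ 0), abs_of_nonpos (by linarith)]
      nlinarith
  have h6 : (0 : ℝ) < δ * (|(i : ℝ)| + 1) / 2 := by positivity
  refine (inv_anti₀ h6 key).trans (le_of_eq ?_)
  rw [inv_div]
  field_simp

end Pool.Agent.AMU.Lim
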