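import Pool.Agent.Lib.AMU.LimA2

/-!
# Row C15: the amplitude of the word `w1 = [0, opp 0]`

With `ord1 k = k` the points are, in this order: side `0`: `(0, m-1, false), .., (0, 0, false),
(1, 0, true), .., (1, m-1, true)`, side `opp 0`: `(1, m-1, false), .., (1, 0, false), (0, 0, true),
.., (0, m-1, true)`. The list of chords is `(1, 0), .., (1, m-1), (0, 0), .., (0, m-1)` (the last
one is inserted first): every chord is inserted in the middle, its end points are adjacent, there
are no crossings.
-/

set_option autoImplicit false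

open Filter Topology

namespace Pool.Agent.AMU.Lim

variable {N : ℕ} {opp : ZMod N → ZMod N} (m : ℕ)

/-! ### The keys -/

section keys

private lemma C15_val (hG : Glue opp) : 0 < (opp 0).val := by
  have := hG.pos
  have : NeZero N := ⟨this.ne'⟩
  rcases Nat.eq_zero_or_pos (opp 0).val with h | h
  · exact absurd ((ZMod.val_eq_zero _).1 h) (hG.ne 0)
  · exact h

private lemma C15_v0 (hG : Glue opp) : (0 : ZMod N).val = 0 := ZMod.val_zero

private lemma C15_key_0f (hG : Glue opp) (u : ℕ) : ptKey opp (w1 opp) ord1 (0, u, false) =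
    toLex ((0 : ℤ), toLex ((0 : ℤ), -(u : ℤ))) := by
  have h1 : ptSide opp (w1 opp) (0, u, false) = 0 := rfl
  unfold ptKey
  rw [h1, C15_v0 hG, if_pos (C15_val hG), if_neg (by simp)]
  rfl

private lemma C15_key_0t (hG : Glue opp) (u : ℕ) : ptKey opp (w1 opp) ord1 (0, u, true) =
    toLex (((opp 0).val : ℤ), toLex ((0 : ℤ), (u : ℤ))) := by
  have h1 : ptSide opp (w1 opp) (0, u, true) = opp 0 := rfl
  unfold ptKey
  rw [h1, hG.inv, C15_v0 hG, if_neg (by omega), if_pos (by simp)]
  rfl

private lemma C15_key_1f (hG : Glue opp) (u : ℕ) : ptKey opp (w1 opp) ord1 (1, u, false) =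
    toLex (((opp 0).val : ℤ), toLex ((-1 : ℤ), -(u : ℤ))) := by
  have h1 : ptSide opp (w1 opp) (1, u, false) = opp 0 := rfl
  unfold ptKey
  rw [h1, hG.inv, C15_v0 hG, if_neg (by omega), if_neg (by simp)]
  rfl

private lemma C15_key_1t (hG : Glue opp) (u : ℕ) : ptKey opp (w1 opp) ord1 (1, u, true) =
    toLex ((0 : ℤ), toLex ((1 : ℤ), (u : ℤ))) := by
  have h1 : ptSide opp (w1 opp) (1, u, true) = 0 := hG.inv 0
  unfold ptKey
  rw [h1, C15_v0 hG, if_pos (C15_val hG), if_pos (by simp)]
  rfl

end keys

/-! ### Counting -/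

private lemma C15_ends_append (L L' : List (Pt × Pt)) : ends (L ++ L') = ends L ++ ends L' := by
  unfold ends
  rw [List.flatMap_append]

private lemma C15_countP_map (p : Pt → Bool) (l : List ℕ) (f : ℕ → Pt × Pt) :
    (ends (l.map f)).countP p = l.countP (fun u => p (f u).1) + l.countP (fun u => p (f u).2) := by
  induction l with
  | nil => rfl
  | cons a l ih =>
    have h1 : ends ((a :: l).map f) = (f a).1 :: (f a).2 :: ends (l.map f) := rfl
    rw [h1, List.countP_cons, List.countP_cons, ih, List.countP_cons, List.countP_cons]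
    ring

/-- The last chords. -/
private def T2 (m j : ℕ) : List (Pt × Pt) :=
  (List.range' j (m - j)).map fun u => ((0, u, true), (1, u, false))

/-- The first chords. -/
private def T1 (m j : ℕ) : List (Pt × Pt) :=
  (List.range' j (m - j)).map (fun u => ((1, u, true), (0, u, false))) ++ T2 m 0

private lemma C15_chords : chords (w1 opp) m = T1 m 0 := by
  unfold chords T1 T2
  have h1 : (w1 opp).length = 2 := rfl
  have h2 : (List.range 2).reverse = [1, 0] := rfl
  rw [h1, h2, List.flatMap_cons, List.flatMap_cons, List.flatMap_nil, List.append_nil,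
    Nat.sub_zero, List.range_eq_range']

private lemma C15_range' {j : ℕ} (hj : j < m) :
    List.range' j (m - j) = j :: List.range' (j + 1) (m - (j + 1)) := by
  have h1 : m - j = (m - (j + 1)) + 1 := by omega
  rw [h1, List.range'_succ]

private lemma C15_T2_cons {j : ℕ} (hj : j < m) :
    T2 m j = ((0, j, true), (1, j, false)) :: T2 m (j + 1) := by
  unfold T2
  rw [C15_range' m hj, List.map_cons]

private lemma C15_T1_cons {j : ℕ} (hj : j < m) :
    T1 m j = ((1, j, true), (0, j, false)) :: T1 m (j + 1) := by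
  unfold T1
  rw [C15_range' m hj, List.map_cons, List.cons_append]

private lemma C15_cnt_all (l : List ℕ) (q : ℕ → Bool) (h : ∀ u ∈ l, q u = true) :
    l.countP q = l.length := List.countP_eq_length.2 h

private lemma C15_cnt_none (l : List ℕ) (q : ℕ → Bool) (h : ∀ u ∈ l, ¬ q u = true) :
    l.countP q = 0 := List.countP_eq_zero.2 h

private lemma C15_cnt_lt (a : ℕ) (q : ℕ → Bool) (h : ∀ u, q u = true ↔ u < a) (n s : ℕ) :
    (List.range' s n).countP q = min n (a - s) := by
  induction n generalizing s with
  | zero => simp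
  | succ n ih =>
    rw [List.range'_succ, List.countP_cons, ih]
    simp only [h]
    split_ifs <;> omega

private lemma C15_cnt_gt (a : ℕ) (q : ℕ → Bool) (h : ∀ u, q u = true ↔ a < u) (n s : ℕ) :
    (List.range' s n).countP q = n - (a + 1 - s) := by
  induction n generalizing s with
  | zero => simp
  | succ n ih =>
    rw [List.range'_succ, List.countP_cons, ih]
    simp only [h]
    split_ifs <;> omega

private lemma C15_T2_count (p : Pt → Bool) (j : ℕ) :
    (ends (T2 m j)).countP p = (List.range' j (m - j)).countP (fun u => p (0, u, true)) +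
      (List.range' j (m - j)).countP (fun u => p (1, u, false)) := by
  unfold T2
  rw [C15_countP_map]

private lemma C15_T1_count (p : Pt → Bool) (j : ℕ) :
    (ends (T1 m j)).countP p = (List.range' j (m - j)).countP (fun u => p (1, u, true)) +
      (List.range' j (m - j)).countP (fun u => p (0, u, false)) +
      ((List.range' 0 (m - 0)).countP (fun u => p (0, u, true)) +
      (List.range' 0 (m - 0)).countP (fun u => p (1, u, false))) := by
  unfold T1
  rw [C15_ends_append, List.countP_append, C15_countP_map, C15_T2_count]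

section ranks

private lemma C15_rk_0f (hG : Glue opp) {j u : ℕ} (hj : j ≤ u) (hu : u < m) :
    rank opp (w1 opp) ord1 (ends (T1 m j)) (0, u, false) = m - 1 - u := by
  have hv : (0 : ℤ) < ((opp 0).val : ℤ) := by exact_mod_cast C15_val hG
  unfold rank
  rw [C15_T1_count, C15_cnt_none (List.range' j (m - j)), C15_cnt_gt u,
    C15_cnt_none (List.range' 0 (m - 0)), C15_cnt_none (List.range' 0 (m - 0))]
  · omega
  all_goals
    intro u'
    try intro _
    simp only [decide_eq_true_eq, C15_key_0f hG, C15_key_0t hG, C15_key_1f hG, C15_key_1t hG,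
      Prod.Lex.toLex_lt_toLex, lt_self_iff_false, false_or, true_and, and_true]
    omega

private lemma C15_rk_1t (hG : Glue opp) {j u : ℕ} (hj : j ≤ u) (hu : u < m) :
    rank opp (w1 opp) ord1 (ends (T1 m j)) (1, u, true) = (m - j) + (u - j) := by
  have hv : (0 : ℤ) < ((opp 0).val : ℤ) := by exact_mod_cast C15_val hG
  unfold rank
  rw [C15_T1_count, C15_cnt_lt u, C15_cnt_all, List.length_range',
    C15_cnt_none (List.range' 0 (m - 0)), C15_cnt_none (List.range' 0 (m - 0))]
  · omega
  all_goals
    intro u'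
    try intro _
    simp only [decide_eq_true_eq, C15_key_0f hG, C15_key_0t hG, C15_key_1f hG, C15_key_1t hG,
      Prod.Lex.toLex_lt_toLex, lt_self_iff_false, false_or, true_and, and_true]
    omega

private lemma C15_rk_1f (hG : Glue opp) {u : ℕ} (hu : u < m) :
    rank opp (w1 opp) ord1 (ends (T1 m 0)) (1, u, false) = 2 * m + (m - 1 - u) := by
  have hv : (0 : ℤ) < ((opp 0).val : ℤ) := by exact_mod_cast C15_val hG
  unfold rank
  rw [C15_T1_count, C15_cnt_all (List.range' 0 (m - 0)) (fun u' => decide
      (ptKey opp (w1 opp) ord1 (1, u', true) < ptKey opp (w1 opp) ord1 (1, u, false))),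
    C15_cnt_all (List.range' 0 (m - 0)) (fun u' => decide
      (ptKey opp (w1 opp) ord1 (0, u', false) < ptKey opp (w1 opp) ord1 (1, u, false))),
    C15_cnt_none (List.range' 0 (m - 0)), C15_cnt_gt u, List.length_range']
  · omega
  all_goals
    intro u'
    try intro _
    simp only [decide_eq_true_eq, C15_key_0f hG, C15_key_0t hG, C15_key_1f hG, C15_key_1t hG,
      Prod.Lex.toLex_lt_toLex, lt_self_iff_false, false_or, true_and, and_true]
    omega

private lemma C15_rk_0t (hG : Glue opp) {u : ℕ} (hu : u < m) :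
    rank opp (w1 opp) ord1 (ends (T1 m 0)) (0, u, true) = 3 * m + u := by
  have hv : (0 : ℤ) < ((opp 0).val : ℤ) := by exact_mod_cast C15_val hG
  unfold rank
  rw [C15_T1_count, C15_cnt_all (List.range' 0 (m - 0)) (fun u' => decide
      (ptKey opp (w1 opp) ord1 (1, u', true) < ptKey opp (w1 opp) ord1 (0, u, true))),
    C15_cnt_all (List.range' 0 (m - 0)) (fun u' => decide
      (ptKey opp (w1 opp) ord1 (0, u', false) < ptKey opp (w1 opp) ord1 (0, u, true))),
    C15_cnt_lt u, C15_cnt_all (List.range' 0 (m - 0)), List.length_range']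
  · omega
  all_goals
    intro u'
    try intro _
    simp only [decide_eq_true_eq, C15_key_0f hG, C15_key_0t hG, C15_key_1f hG, C15_key_1t hG,
      Prod.Lex.toLex_lt_toLex, lt_self_iff_false, false_or, true_and, and_true]
    omega

private lemma C15_rk2_1f (hG : Glue opp) {j u : ℕ} (hj : j ≤ u) (hu : u < m) :
    rank opp (w1 opp) ord1 (ends (T2 m j)) (1, u, false) = m - 1 - u := by
  have hv : (0 : ℤ) < ((opp 0).val : ℤ) := by exact_mod_cast C15_val hG
  unfold rank
  rw [C15_T2_count, C15_cnt_none (List.range' j (m - j)), C15_cnt_gt u]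
  · omega
  all_goals
    intro u'
    try intro _
    simp only [decide_eq_true_eq, C15_key_0f hG, C15_key_0t hG, C15_key_1f hG, C15_key_1t hG,
      Prod.Lex.toLex_lt_toLex, lt_self_iff_false, false_or, true_and, and_true]
    omega

private lemma C15_rk2_0t (hG : Glue opp) {j u : ℕ} (hj : j ≤ u) (hu : u < m) :
    rank opp (w1 opp) ord1 (ends (T2 m j)) (0, u, true) = (m - j) + (u - j) := by
  have hv : (0 : ℤ) < ((opp 0).val : ℤ) := by exact_mod_cast C15_val hG
  unfold rank
  rw [C15_T2_count, C15_cnt_lt u, C15_cnt_all, List.length_range']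
  · omega
  all_goals
    intro u'
    try intro _
    simp only [decide_eq_true_eq, C15_key_0f hG, C15_key_0t hG, C15_key_1f hG, C15_key_1t hG,
      Prod.Lex.toLex_lt_toLex, lt_self_iff_false, false_or, true_and, and_true]
    omega

end ranks

/-! ### The amplitude -/

section amps

variable {K : Type} [Field K]

/-- Nested cups. -/
private def Bk (Δ : ℤ → K) : ℕ → Amp K → Amp K
  | 0, f => f
  | k + 1, f => cup Δ k (Bk Δ k f)

private lemma C15_insert (Δ : ℤ → K) (A : K) (i : ℕ) (f : Amp K) :
    insertChord Δ A i (i + 1) f = cup Δ i f := by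
  unfold insertChord
  have h1 : i + 1 - 1 - i = 0 := by omega
  rw [h1]
  rfl

private lemma C15_amp2 (hG : Glue opp) (Δ : ℤ → K) (A : K) (k : ℕ) : ∀ j, j + k = m →
    amp Δ A (rank opp (w1 opp) ord1) (T2 m j) = Bk Δ k (fun n _ => Δ n) := by
  induction k with
  | zero =>
    intro j hj
    have h1 : T2 m j = [] := by
      unfold T2
      have h2 : m - j = 0 := by omega
      rw [h2]
      rfl
    rw [h1]
    rfl
  | succ k ih =>
    intro j hj
    have hjm : j < m := by omega
    have h1 := C15_rk2_1f m hG (le_refl j) hjm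
    have h2 := C15_rk2_0t m hG (le_refl j) hjm
    have h3 := C15_T2_cons m hjm
    rw [h3] at h1 h2 ⊢
    show insertChord Δ A (min (rank opp (w1 opp) ord1 (ends (((0, j, true), (1, j, false)) ::
      T2 m (j + 1))) (0, j, true)) (rank opp (w1 opp) ord1 (ends (((0, j, true), (1, j, false)) ::
      T2 m (j + 1))) (1, j, false))) (max (rank opp (w1 opp) ord1 (ends
      (((0, j, true), (1, j, false)) :: T2 m (j + 1))) (0, j, true)) (rank opp (w1 opp) ord1
      (ends (((0, j, true), (1, j, false)) :: T2 m (j + 1))) (1, j, false)))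
      (amp Δ A (rank opp (w1 opp) ord1) (T2 m (j + 1))) = _
    rw [h1, h2, ih (j + 1) (by omega)]
    have h4 : min (m - j + (j - j)) (m - 1 - j) = k := by omega
    have h5 : max (m - j + (j - j)) (m - 1 - j) = k + 1 := by omega
    rw [h4, h5, C15_insert]
    rfl

private lemma C15_amp1 (hG : Glue opp) (Δ : ℤ → K) (A : K) (k : ℕ) : ∀ j, j + k = m →
    amp Δ A (rank opp (w1 opp) ord1) (T1 m j) = Bk Δ k (Bk Δ m (fun n _ => Δ n)) := by
  induction k with
  | zero =>
    intro j hj
    have h1 : T1 m j = T2 m 0 := by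
      unfold T1
      have h2 : m - j = 0 := by omega
      rw [h2]
      rfl
    rw [h1, C15_amp2 m hG Δ A m 0 (by omega)]
    rfl
  | succ k ih =>
    intro j hj
    have hjm : j < m := by omega
    have h1 := C15_rk_0f m hG (le_refl j) hjm
    have h2 := C15_rk_1t m hG (le_refl j) hjm
    have h3 := C15_T1_cons m hjm
    rw [h3] at h1 h2 ⊢
    show insertChord Δ A (min (rank opp (w1 opp) ord1 (ends (((1, j, true), (0, j, false)) ::
      T1 m (j + 1))) (1, j, true)) (rank opp (w1 opp) ord1 (ends (((1, j, true), (0, j, false)) ::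
      T1 m (j + 1))) (0, j, false))) (max (rank opp (w1 opp) ord1 (ends
      (((1, j, true), (0, j, false)) :: T1 m (j + 1))) (1, j, true)) (rank opp (w1 opp) ord1
      (ends (((1, j, true), (0, j, false)) :: T1 m (j + 1))) (0, j, false)))
      (amp Δ A (rank opp (w1 opp) ord1) (T1 m (j + 1))) = _
    rw [h1, h2, ih (j + 1) (by omega)]
    have h4 : min (m - j + (j - j)) (m - 1 - j) = k := by omega
    have h5 : max (m - j + (j - j)) (m - 1 - j) = k + 1 := by omega
    rw [h4, h5, C15_insert]
    rfl

private lemma C15_getD_left (s : List ℤ) {k i : ℕ} (hk : k ≤ s.length) (hi : i < k) (l : List ℤ) :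
    (s.take k ++ l).getD i 0 = s.getD i 0 := by
  have h1 : i < (s.take k).length := by
    rw [List.length_take]
    omega
  rw [List.getD_append _ _ _ _ h1, List.getD_eq_getElem _ _ h1, List.getElem_take,
    List.getD_eq_getElem _ _ (by omega)]

private lemma C15_getD_right (s : List ℤ) {k i : ℕ} (hk : k ≤ s.length) (hi : k ≤ i) :
    (s.take k ++ s.drop (k + 2)).getD i 0 = s.getD (i + 2) 0 := by
  have h1 : (s.take k).length = k := by
    rw [List.length_take]
    omega
  rw [List.getD_append_right _ _ _ _ (by omega), h1, List.getD_eq_getElem?_getD,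
    List.getD_eq_getElem?_getD, List.getElem?_drop]
  congr 2
  omega

private lemma C15_take_left (s : List ℤ) {k i : ℕ} (hk : k ≤ s.length) (hi : i ≤ k) (l : List ℤ) :
    (s.take k ++ l).take i = s.take i := by
  rw [List.take_append_of_le_length (by rw [List.length_take]; omega), List.take_take]
  congr 1
  omega

private lemma C15_Bk (Δ : ℤ → K) (f : Amp K) (n : ℤ) (k : ℕ) : ∀ s : List ℤ, 2 * k ≤ s.length →
    Bk Δ k f n s = if ∀ i < k, s.getD i 0 + s.getD (2 * k - 1 - i) 0 = 0 then
      (∏ i ∈ Finset.range k, Δ (col n s (i + 1))) * f n (s.drop (2 * k)) else 0 := by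
  induction k with
  | zero =>
    intro s _
    rw [if_pos (fun i hi => absurd hi (Nat.not_lt_zero i))]
    simp [Bk]
  | succ k ih =>
    intro s hs
    show (if s.getD k 0 + s.getD (k + 1) 0 = 0 then
      Δ (col n s (k + 1)) * Bk Δ k f n (s.take k ++ s.drop (k + 2)) else 0) = _
    have hks : k ≤ s.length := by omega
    have hlen : 2 * k ≤ (s.take k ++ s.drop (k + 2)).length := by
      rw [List.length_append, List.length_take, List.length_drop]
      omega
    rw [ih _ hlen]
    have h1 : (∀ i < k, (s.take k ++ s.drop (k + 2)).getD i 0 +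
        (s.take k ++ s.drop (k + 2)).getD (2 * k - 1 - i) 0 = 0) ↔
        ∀ i < k, s.getD i 0 + s.getD (2 * (k + 1) - 1 - i) 0 = 0 := by
      refine forall₂_congr fun i hi => ?_
      rw [C15_getD_left s hks hi, C15_getD_right s hks (by omega)]
      have h2 : 2 * k - 1 - i + 2 = 2 * (k + 1) - 1 - i := by omega
      rw [h2]
    have h3 : (s.take k ++ s.drop (k + 2)).drop (2 * k) = s.drop (2 * (k + 1)) := by
      rw [List.drop_append, List.drop_eq_nil_of_le (by rw [List.length_take]; omega),
        List.nil_append, List.drop_drop, List.length_take]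
      congr 1
      omega
    have h4 : ∏ i ∈ Finset.range k, Δ (col n (s.take k ++ s.drop (k + 2)) (i + 1)) =
        ∏ i ∈ Finset.range k, Δ (col n s (i + 1)) := by
      refine Finset.prod_congr rfl fun i hi => ?_
      rw [Finset.mem_range] at hi
      unfold col
      rw [C15_take_left s hks (by omega)]
    have h5 : (∀ i < k + 1, s.getD i 0 + s.getD (2 * (k + 1) - 1 - i) 0 = 0) ↔
        (s.getD k 0 + s.getD (k + 1) 0 = 0) ∧
          ∀ i < k, s.getD i 0 + s.getD (2 * (k + 1) - 1 - i) 0 = 0 := by
      have h6 : 2 * (k + 1) - 1 - k = k + 1 := by omega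
      constructor
      · intro h
        have h7 := h k (by omega)
        rw [h6] at h7
        exact ⟨h7, fun i hi => h i (by omega)⟩
      · rintro ⟨h7, h8⟩ i hi
        rcases Nat.lt_succ_iff_lt_or_eq.1 hi with h | rfl
        · exact h8 i h
        · rw [h6]
          exact h7
    simp only [h1, h3, h4, h5]
    by_cases c1 : s.getD k 0 + s.getD (k + 1) 0 = 0
    · by_cases c2 : ∀ i < k, s.getD i 0 + s.getD (2 * (k + 1) - 1 - i) 0 = 0
      · rw [if_pos c1, if_pos c2, if_pos ⟨c1, c2⟩, Finset.prod_range_succ]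
        ring
      · rw [if_pos c1, if_neg c2, if_neg (fun h => c2 h.2), mul_zero]
    · rw [if_neg c1, if_neg (fun h => c1 h.1)]

private lemma C15_sum_take (s : List ℤ) (k : ℕ) :
    (s.take k).sum = ∑ i ∈ Finset.range k, s.getD i 0 := by
  induction k with
  | zero => simp
  | succ k ih =>
    rw [Finset.sum_range_succ, ← ih]
    rcases lt_or_ge k s.length with hk | hk
    · rw [List.sum_take_succ s k hk, List.getD_eq_getElem _ _ hk]
    · rw [List.take_of_length_le (by omega), List.take_of_length_le hk,
        List.getD_eq_default _ _ hk, add_zero]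

private lemma C15_sum_zero (s : List ℤ)
    (h : ∀ i < m, s.getD i 0 + s.getD (2 * m - 1 - i) 0 = 0) : (s.take (2 * m)).sum = 0 := by
  rw [C15_sum_take, two_mul, Finset.sum_range_add]
  have h1 : ∑ x ∈ Finset.range m, s.getD (m + x) 0 =
      ∑ x ∈ Finset.range m, s.getD (2 * m - 1 - x) 0 := by
    rw [← Finset.sum_range_reflect]
    refine Finset.sum_congr rfl fun x hx => ?_
    rw [Finset.mem_range] at hx
    congr 1
    omega
  rw [h1, ← Finset.sum_add_distrib]
  exact Finset.sum_eq_zero fun x hx => h x (Finset.mem_range.1 hx)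

end amps

/-- The positions of the points. -/
theorem rank_w1 (hG : Glue opp) {u : ℕ} (hu : u < m) :
    rank opp (w1 opp) ord1 (ends (chords (w1 opp) m)) (0, u, false) = m - 1 - u ∧
    rank opp (w1 opp) ord1 (ends (chords (w1 opp) m)) (1, u, true) = m + u ∧
    rank opp (w1 opp) ord1 (ends (chords (w1 opp) m)) (1, u, false) = 3 * m - 1 - u ∧
    rank opp (w1 opp) ord1 (ends (chords (w1 opp) m)) (0, u, true) = 3 * m + u := by
  rw [C15_chords]
  refine ⟨C15_rk_0f m hG (Nat.zero_le u) hu, ?_, ?_, C15_rk_0t m hG hu⟩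
  · rw [C15_rk_1t m hG (Nat.zero_le u) hu]
    omega
  · rw [C15_rk_1f m hG hu]
    omega

/-- The corners. -/
theorem corner_w1 (hG : Glue opp) (i : ℕ) (hi : i ≤ N) :
    corner opp (w1 opp) (ends (chords (w1 opp) m)) i =
      if i = 0 then 0 else if i ≤ (opp 0).val then 2 * m else 4 * m := by
  have hv := C15_val hG
  have h1 : ∀ u, ptSide opp (w1 opp) (0, u, false) = 0 := fun _ => rfl
  have h2 : ∀ u, ptSide opp (w1 opp) (0, u, true) = opp 0 := fun _ => rfl
  have h3 : ∀ u, ptSide opp (w1 opp) (1, u, false) = opp 0 := fun _ => rfl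
  have h4 : ∀ u, ptSide opp (w1 opp) (1, u, true) = 0 := fun _ => hG.inv 0
  rw [C15_chords]
  unfold corner
  rw [C15_T1_count]
  simp only [h1, h2, h3, h4, C15_v0 hG]
  split_ifs with h5 h6
  · subst h5
    simp
  · rw [C15_cnt_all (List.range' 0 (m - 0)) (fun _ => decide (0 < i)),
      C15_cnt_none (List.range' 0 (m - 0)) (fun _ => decide ((opp 0).val < i)), List.length_range']
    · omega
    · intro u _
      rw [decide_eq_true_eq]
      omega
    · intro u _
      rw [decide_eq_true_eq]
      omega
  · rw [C15_cnt_all (List.range' 0 (m - 0)) (fun _ => decide (0 < i)),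
      C15_cnt_all (List.range' 0 (m - 0)) (fun _ => decide ((opp 0).val < i)), List.length_range']
    · omega
    · intro u _
      rw [decide_eq_true_eq]
      omega
    · intro u _
      rw [decide_eq_true_eq]
      omega

theorem amp_w1 (hG : Glue opp) {K : Type} [Field K] (Δ : ℤ → K) (A : K) (n : ℤ) (s : List ℤ)
    (hs : s.length = 4 * m) :
    amp Δ A (rank opp (w1 opp) ord1) (chords (w1 opp) m) n s =
      if ∀ i < m, s.getD i 0 + s.getD (2 * m - 1 - i) 0 = 0 ∧
          s.getD (2 * m + i) 0 + s.getD (4 * m - 1 - i) 0 = 0 then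
        Δ n * ∏ i ∈ Finset.range m, (Δ (col n s (i + 1)) * Δ (col n s (2 * m + i + 1)))
      else 0 := by
  rw [C15_chords, C15_amp1 m hG Δ A m 0 (by omega), C15_Bk Δ _ n m s (by omega),
    C15_Bk Δ _ n m (s.drop (2 * m)) (by rw [List.length_drop]; omega)]
  have h1 : (∀ i < m, (s.drop (2 * m)).getD i 0 + (s.drop (2 * m)).getD (2 * m - 1 - i) 0 = 0) ↔
      ∀ i < m, s.getD (2 * m + i) 0 + s.getD (4 * m - 1 - i) 0 = 0 := by
    refine forall₂_congr fun i hi => ?_
    have e1 : ∀ j, (s.drop (2 * m)).getD j 0 = s.getD (2 * m + j) 0 := by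
      intro j
      rw [List.getD_eq_getElem?_getD, List.getD_eq_getElem?_getD, List.getElem?_drop]
    have e2 : 2 * m + (2 * m - 1 - i) = 4 * m - 1 - i := by omega
    rw [e1, e1, e2]
  simp only [h1]
  by_cases c1 : ∀ i < m, s.getD i 0 + s.getD (2 * m - 1 - i) 0 = 0
  · by_cases c2 : ∀ i < m, s.getD (2 * m + i) 0 + s.getD (4 * m - 1 - i) 0 = 0
    · rw [if_pos c1, if_pos c2, if_pos (fun i hi => ⟨c1 i hi, c2 i hi⟩), Finset.prod_mul_distrib]
      have h2 : ∏ i ∈ Finset.range m, Δ (col n (s.drop (2 * m)) (i + 1)) =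
          ∏ i ∈ Finset.range m, Δ (col n s (2 * m + i + 1)) := by
        refine Finset.prod_congr rfl fun i _ => ?_
        unfold col
        have e3 : s.take (2 * m + i + 1) = s.take (2 * m) ++ (s.drop (2 * m)).take (i + 1) := by
          rw [add_assoc, List.take_add]
        rw [e3, List.sum_append, C15_sum_zero m s c1, zero_add]
      rw [h2]
      ring
    · rw [if_pos c1, if_neg c2, if_neg (fun h => c2 fun i hi => (h i hi).2), mul_zero]
  · rw [if_neg c1, if_neg (fun h => c1 fun i hi => (h i hi).1)]

end Pool.Agent.AMU.Lim
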