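import Pool.Agent.Lib.AMU.LimW1
import Pool.Agent.Lib.AMU.LimW2
import Pool.Agent.Lib.AMU.LimA1

/-!
# Row C17: the weights of `w1` for general colours of the vertices
-/

set_option autoImplicit false

open Filter Topology

namespace Pool.Agent.AMU.Lim

variable {N : ℕ} {opp : ZMod N → ZMod N}

/-- Pairwise cancelling steps. -/
private theorem W3_lev (m : ℕ) (s : List ℤ)
    (hc : ∀ i < m, s.getD i 0 + s.getD (2 * m - 1 - i) 0 = 0 ∧
      s.getD (2 * m + i) 0 + s.getD (4 * m - 1 - i) 0 = 0) :
    lev s (2 * m) = 0 ∧ lev s (4 * m) = 0 := by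
  have h1 : lev s (2 * m) = 0 := by
    rw [W2_lev, two_mul, Finset.sum_range_add, ← Finset.sum_range_reflect (fun x => s.getD (m + x) 0),
      ← Finset.sum_add_distrib]
    refine Finset.sum_eq_zero fun i hi => ?_
    have hi' := Finset.mem_range.1 hi
    have := (hc i hi').1
    rw [show m + (m - 1 - i) = 2 * m - 1 - i by omega]
    exact this
  refine ⟨h1, ?_⟩
  rw [W2_lev, show 4 * m = 2 * m + (m + m) by ring, Finset.sum_range_add, ← W2_lev, h1, zero_add,
    Finset.sum_range_add, ← Finset.sum_range_reflect (fun x => s.getD (2 * m + (m + x)) 0),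
    ← Finset.sum_add_distrib]
  refine Finset.sum_eq_zero fun i hi => ?_
  have hi' := Finset.mem_range.1 hi
  have := (hc i hi').2
  rw [show 2 * m + (m + (m - 1 - i)) = 4 * m - 1 - i by omega]
  exact this

/-- If the amplitude of an admissible colouring does not vanish then the steps on the side `0` have
the sum `0` (`amp_w1`), so all corners have the colour `n` (`corner_w1`). -/
theorem rawZ_w1 (hG : Glue opp) (m p : ℕ) (A : ℂ) (lam : ZMod N → ℕ) :
    rawZ opp (w1 opp) ord1 m p A lam = ∑ n ∈ Finset.range p,
      ((vertices opp).map fun i : ℕ => smat A (lam (i : ZMod N)) n).prod *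
        colG opp (w1 opp) ord1 m 0 A p n := by
  classical
  have hN : 0 < N := hG.pos
  have : NeZero N := ⟨hN.ne'⟩
  unfold rawZ colG coreG
  refine Finset.sum_congr rfl fun n _ => ?_
  rw [Finset.mul_sum]
  refine Finset.sum_congr rfl fun b _ => ?_
  set s : List ℤ := List.ofFn fun i => sgn (b i) with hs
  have hlen : s.length = 4 * m := by
    rw [hs, List.length_ofFn]
    show 2 * (2 * m) = 4 * m
    ring
  have hshift : amp (fun x => qdim A ((n : ℤ) + x)) A (rank opp (w1 opp) ord1)
      (chords (w1 opp) m) 0 s = amp (qdim A) A (rank opp (w1 opp) ord1) (chords (w1 opp) m) n s := by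
    rw [amp_shift, add_zero]
  rw [hshift]
  by_cases hamp : amp (qdim A) A (rank opp (w1 opp) ord1) (chords (w1 opp) m) n s = 0
  · rw [hamp]
    simp
  · have hc : ∀ i < m, s.getD i 0 + s.getD (2 * m - 1 - i) 0 = 0 ∧
        s.getD (2 * m + i) 0 + s.getD (4 * m - 1 - i) 0 = 0 := by
      by_contra hcon
      apply hamp
      rw [amp_w1 m hG _ A n s hlen, if_neg hcon]
    obtain ⟨l2, l4⟩ := W3_lev m s hc
    have hcor : ∀ i ≤ N, (s.take (corner opp (w1 opp) (ends (chords (w1 opp) m)) i)).sum = 0 := by
      intro i hi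
      rw [corner_w1 m hG i hi]
      split_ifs
      · simp
      · exact l2
      · exact l4
    have hiff : Admissible opp (w1 opp) ord1 m p n s ↔
        CoreAdm opp (w1 opp) ord1 m (fun x => 0 < (n : ℤ) + x ∧ (n : ℤ) + x < p) s := by
      constructor
      · rintro ⟨h1, h2, _, h4⟩
        exact ⟨h1, h2, fun j hj => hcor j hj.le, h4⟩
      · rintro ⟨h1, h2, _, h4⟩
        refine ⟨h1, h2, fun j hj => ?_, h4⟩
        rw [col, col, hcor j hj.le, hcor _ (ZMod.val_lt _)]
    by_cases hadm : Admissible opp (w1 opp) ord1 m p n s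
    · rw [if_pos hadm, if_pos (hiff.1 hadm), zpow_zero, one_mul, weight]
      have hv : ((vertices opp).map fun i : ℕ => smat A (lam (i : ZMod N))
          (col n s (corner opp (w1 opp) (ends (chords (w1 opp) m)) i))) =
          (vertices opp).map fun i : ℕ => smat A (lam (i : ZMod N)) n := by
        refine List.map_congr_left fun i hi => ?_
        have hi' : i < N := by
          rw [vertices, List.mem_filter, List.mem_range] at hi
          exact hi.1
        rw [col, hcor i hi'.le, add_zero]
      rw [hv]
      simp only [col, lev]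
      ring
    · rw [if_neg hadm, if_neg (fun h => hadm (hiff.2 h)), mul_zero]

/-- The state sum without strands does not depend on the word. -/
theorem colG_nil {w w' : List (ZMod N)} {ord ord' : ℕ → ℤ} (e : ℤ) (A : ℂ) (p : ℕ) (n : ℤ) :
    colG opp w ord 0 e A p n = colG opp w' ord' 0 e A p n := by
  classical
  have key : ∀ (w : List (ZMod N)) (ord : ℕ → ℤ) (d : ℤ → ℂ) (t : ℤ → ℂ) (ok : ℤ → Prop),
      coreG opp w ord 0 e d A t ok = if ok 0 then
        d 0 ^ e * (∏ i ∈ (Finset.range N).filter (fun i : ℕ => i < (opp (i : ZMod N)).val),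
          (d 0)⁻¹) * d 0 else 0 := by
    intro w ord d t ok
    have hch : chords w 0 = [] := by simp [chords]
    unfold coreG
    rw [hch]
    have hs : ∀ b : Fin (2 * (w.length * 0)) → Bool, (List.ofFn fun i => sgn (b i)) = [] := by
      intro b
      rw [← List.length_eq_zero_iff, List.length_ofFn, Nat.mul_zero, Nat.mul_zero]
    simp only [hs]
    rw [Finset.sum_const, Finset.card_univ]
    have hcard : Fintype.card (Fin (2 * (w.length * 0)) → Bool) = 1 := by
      simp
    rw [hcard, one_smul]
    have hiff : CoreAdm opp w ord 0 ok [] ↔ ok 0 := by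
      constructor
      · intro h
        exact h.1 0 le_rfl
      · intro h
        refine ⟨fun i hi => ?_, rfl, fun j _ => ?_, fun k _ u hu => absurd hu (Nat.not_lt_zero _)⟩
        · simpa [lev] using h
        · simp [lev]
    by_cases h : ok 0
    · rw [if_pos (hiff.2 h), if_pos h]
      simp [ends, corner, lev, amp]
    · rw [if_neg (fun h' => h (hiff.1 h')), if_neg h]
  unfold colG
  rw [key, key]

end Pool.Agent.AMU.Lim
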