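import Pool.Agent.Lib.AMU.Defs

/-!
# The operators of the classical state sum (section F1 of the blueprint)

`opL y s (b, a)` is the operator of a step up (`b = true`) or down (`b = false`) from the level `s`
with the label `a`.
-/

set_option autoImplicit false

namespace Pool.Agent.AMU

/-- The functions of the exponent. -/
abbrev Fn : Type := ℤ → ℝ

/-- The classical quantum dimension at the level `s`. -/
noncomputable def dl (y : ℝ) (s : ℤ) : ℝ := (-1) ^ s * (y + s)

theorem m1_succ (s : ℤ) : ((-1 : ℝ)) ^ (s + 1) = -(-1) ^ s := by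
  rw [zpow_add₀ (by norm_num), zpow_one]; ring

theorem m1_pred (s : ℤ) : ((-1 : ℝ)) ^ (s - 1) = -(-1) ^ s := by
  rw [zpow_sub₀ (by norm_num), zpow_one]; ring

theorem m1_sq (s : ℤ) : ((-1 : ℝ)) ^ s * (-1) ^ s = 1 := by
  rw [← mul_zpow]; norm_num

theorem m1_cases (s : ℤ) : ((-1 : ℝ)) ^ s = 1 ∨ ((-1 : ℝ)) ^ s = -1 := by
  rcases Int.even_or_odd s with h | h
  · left; exact h.neg_one_zpow
  · right; exact h.neg_one_zpow

theorem dl_ne {y : ℝ} (hy : ∀ k : ℤ, y ≠ k) (s : ℤ) : dl y s ≠ 0 := by
  unfold dl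
  refine mul_ne_zero (zpow_ne_zero _ (by norm_num)) ?_
  intro h
  exact hy (-s) (by push_cast; linarith)

/-- One step. -/
noncomputable def opL (y : ℝ) (s : ℤ) (st : Bool × Bool) : Fn →ₗ[ℝ] Fn where
  toFun φ := fun j =>
    match st with
    | (true, false) => φ j
    | (true, true) => φ (j + 1)
    | (false, false) => (-1) ^ s * j * φ (j - 1)
    | (false, true) => -((-1) ^ s * (y - 1 + s - j) * φ j)
  map_add' φ ψ := by
    funext j
    rcases st with ⟨_ | _, _ | _⟩ <;> simp <;> ring
  map_smul' c φ := by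
    funext j
    rcases st with ⟨_ | _, _ | _⟩ <;> simp <;> ring

theorem opL_tf (y : ℝ) (s : ℤ) (φ : Fn) (j : ℤ) : opL y s (true, false) φ j = φ j := rfl
theorem opL_tt (y : ℝ) (s : ℤ) (φ : Fn) (j : ℤ) : opL y s (true, true) φ j = φ (j + 1) := rfl
theorem opL_ff (y : ℝ) (s : ℤ) (φ : Fn) (j : ℤ) :
    opL y s (false, false) φ j = (-1) ^ s * j * φ (j - 1) := rfl
theorem opL_ft (y : ℝ) (s : ℤ) (φ : Fn) (j : ℤ) :
    opL y s (false, true) φ j = -((-1) ^ s * (y - 1 + s - j) * φ j) := rfl

/-- The operator of a word. -/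
noncomputable def W (y : ℝ) : ℤ → List (Bool × Bool) → (Fn →ₗ[ℝ] Fn)
  | _, [] => LinearMap.id
  | s, st :: l => opL y s st ∘ₗ W y (s + sgn st.1) l

/-- The sum of the steps. -/
def stepSum (l : List Bool) : ℤ := (l.map sgn).sum

@[simp] theorem stepSum_nil : stepSum [] = 0 := rfl
@[simp] theorem stepSum_cons (b : Bool) (l : List Bool) :
    stepSum (b :: l) = sgn b + stepSum l := by simp [stepSum]
@[simp] theorem stepSum_append (l l' : List Bool) :
    stepSum (l ++ l') = stepSum l + stepSum l' := by simp [stepSum]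
@[simp] theorem sgn_not (b : Bool) : sgn (!b) = -sgn b := by cases b <;> rfl
theorem stepSum_reverse (l : List Bool) : stepSum l.reverse = stepSum l := by
  simp [stepSum]
theorem stepSum_map_not (l : List Bool) : stepSum (l.map (!·)) = -stepSum l := by
  induction l with
  | nil => simp
  | cons b l ih => simp [ih]; ring

theorem W_append (y : ℝ) (s : ℤ) (l l' : List (Bool × Bool)) :
    W y s (l ++ l') = W y s l ∘ₗ W y (s + stepSum (l.map Prod.fst)) l' := by
  induction l generalizing s with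
  | nil => simp [W]
  | cons st l ih =>
    simp only [List.cons_append, W, List.map_cons, stepSum_cons, ih]
    rw [LinearMap.comp_assoc, ← add_assoc]

/-- The antisymmetric form. -/
def ep (a b : Bool) : ℝ :=
  match a, b with
  | false, true => 1
  | true, false => -1
  | _, _ => 0

theorem ep_symm (a b : Bool) : ep a b = -ep b a := by cases a <;> cases b <;> simp [ep]

/-- The pair of steps up and down (`b = true`) or down and up (`b = false`) at the level `s`. -/
noncomputable def pr (y : ℝ) (s : ℤ) (b : Bool) (a a' : Bool) : Fn →ₗ[ℝ] Fn :=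
  opL y s (b, a) ∘ₗ opL y (s + sgn b) (!b, a')

/-- The symmetric part. -/
noncomputable def sy (y : ℝ) (s : ℤ) (a a' : Bool) : Fn →ₗ[ℝ] Fn where
  toFun φ := fun j =>
    match a, a' with
    | false, false => j * φ (j - 1)
    | true, true => -((y + s - 1 - j) * φ (j + 1))
    | _, _ => (j - (y + s - 1) / 2) * φ j
  map_add' φ ψ := by
    funext j
    rcases a with _ | _ <;> rcases a' with _ | _ <;> simp <;> ring
  map_smul' c φ := by
    funext j
    rcases a with _ | _ <;> rcases a' with _ | _ <;> simp <;> ring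

theorem sy_symm (y : ℝ) (s : ℤ) (a a' : Bool) : sy y s a a' = sy y s a' a := by
  ext φ j
  cases a <;> cases a' <;> rfl

theorem pr_eq (y : ℝ) (s : ℤ) (b a a' : Bool) (φ : Fn) :
    pr y s b a a' φ = (-(sgn b : ℝ) * (-1) ^ s) • sy y s a a' φ -
      (dl y (s + sgn b) / 2 * ep a a') • φ := by
  funext j
  cases b <;> cases a <;> cases a' <;>
    simp [pr, sy, opL, sgn, ep, dl, ← sub_eq_add_neg, m1_succ, m1_pred] <;> ring

/-- The sum rule. -/
theorem pr_add (y : ℝ) (s : ℤ) (a a' : Bool) (φ : Fn) :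
    pr y s true a a' φ + pr y s false a a' φ = (dl y s * ep a a') • φ := by
  rw [pr_eq, pr_eq]
  funext j
  simp [sgn, dl, ← sub_eq_add_neg, m1_succ, m1_pred]
  ring

/-- The contraction of a pair. -/
theorem pr_sub (y : ℝ) (s : ℤ) (b : Bool) (φ : Fn) :
    pr y s b false true φ - pr y s b true false φ = -dl y (s + sgn b) • φ := by
  rw [pr_eq, pr_eq, sy_symm y s true false]
  funext j
  simp [ep]
  ring

/-- Exchange of the labels of a pair. -/
theorem pr_swap (y : ℝ) (s : ℤ) (b a a' : Bool) (φ : Fn) :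
    pr y s b a' a φ = pr y s b a a' φ + (dl y (s + sgn b) * ep a a') • φ := by
  rw [pr_eq, pr_eq, sy_symm y s a' a, ep_symm a' a]
  funext j
  simp
  ring

/-- Equal steps commute. -/
theorem opL_comm (y : ℝ) (s : ℤ) (b a a' : Bool) (φ : Fn) :
    opL y s (b, a) (opL y (s + sgn b) (b, a') φ) =
      opL y s (b, a') (opL y (s + sgn b) (b, a) φ) := by
  funext j
  cases b <;> cases a <;> cases a' <;>
    simp [opL, sgn, ← sub_eq_add_neg, m1_succ, m1_pred] <;> ring

/-- The exchange of two strands. -/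
theorem exchange (y : ℝ) (s : ℤ) (h1 : dl y (s + 1) ≠ 0) (h2 : dl y (s - 1) ≠ 0)
    (B : Fn →ₗ[ℝ] Fn) (a b b' a' : Bool) (φ : Fn) :
    (dl y (s + 1))⁻¹ • pr y s true a b (B (pr y s true b' a' φ)) +
      (dl y (s - 1))⁻¹ • pr y s false a b (B (pr y s false b' a' φ)) =
    (dl y (s + 1))⁻¹ • pr y s true b a (B (pr y s true a' b' φ)) +
      (dl y (s - 1))⁻¹ • pr y s false b a (B (pr y s false a' b' φ)) := by
  have hs : sgn true = 1 := rfl
  have hf : sgn false = -1 := rfl
  simp only [pr_eq, map_sub, map_smul, hs, hf, ← sub_eq_add_neg]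
  rw [sy_symm y s b a, sy_symm y s a' b', ep_symm b a, ep_symm a' b']
  have hm := m1_sq s
  funext j
  simp only [Pi.add_apply, Pi.smul_apply, Pi.sub_apply, smul_eq_mul]
  generalize ((-1 : ℝ)) ^ s = m at hm ⊢
  push_cast
  field_simp
  ring

end Pool.Agent.AMU
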