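import Pool.Agent.Lib.AMU.LimA2

/-!
# Row P2: colourings of the punctures
-/

set_option autoImplicit false

open Filter Topology

namespace Pool.Agent.AMU.Lim

variable {N : ℕ} {opp : ZMod N → ZMod N}

theorem mem_cols [NeZero N] (p : ℕ) (lam : ZMod N → ℕ) : lam ∈ cols opp p ↔ IsColouring opp p lam := by
  classical
  unfold cols IsColouring
  rw [Finset.mem_filter, Fintype.mem_piFinset]
  constructor
  · rintro ⟨h1, h2⟩ i
    have h3 := h1 i
    rw [Finset.mem_filter, Finset.mem_range] at h3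
    exact ⟨h2 i, h3.2, h3.1⟩
  · intro h
    refine ⟨fun i => ?_, fun i => (h i).1⟩
    rw [Finset.mem_filter, Finset.mem_range]
    exact ⟨(h i).2.2, (h i).2.1⟩

private theorem pb_inj [NeZero N] (hG : Glue opp) :
    Function.Injective (fun j : ZMod N => opp j + 1) := by
  intro i j h
  have h1 : opp i = opp j := add_right_cancel (b := (1 : ZMod N)) h
  rw [← hG.inv i, ← hG.inv j, h1]

/-- the orbit returns within `N` steps -/
private theorem pb_period [NeZero N] (hG : Glue opp) (i : ZMod N) :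
    ∃ q : ℕ, 0 < q ∧ q ≤ N ∧ ((fun j : ZMod N => opp j + 1)^[q]) i = i := by
  classical
  set σ : ZMod N → ZMod N := fun j => opp j + 1 with hσ
  have hinj := pb_inj hG
  have h1 : ∃ a ∈ Finset.range (N + 1), ∃ b ∈ Finset.range (N + 1), a ≠ b ∧
      (σ^[a]) i = (σ^[b]) i := by
    refine Finset.exists_ne_map_eq_of_card_lt_of_maps_to (t := (Finset.univ : Finset (ZMod N))) ?_
      (fun a _ => Finset.mem_univ _)
    rw [Finset.card_univ, ZMod.card, Finset.card_range]
    omega
  obtain ⟨a, ha, b, hb, hab, h2⟩ := h1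
  rw [Finset.mem_range] at ha hb
  have key : ∀ a b : ℕ, a < b → b < N + 1 → (σ^[a]) i = (σ^[b]) i →
      ∃ q : ℕ, 0 < q ∧ q ≤ N ∧ (σ^[q]) i = i := by
    intro a b hab hb h
    refine ⟨b - a, by omega, by omega, ?_⟩
    have h3 : (σ^[a]) ((σ^[b - a]) i) = (σ^[a]) i := by
      rw [← Function.iterate_add_apply, h]
      congr 1
      congr 1
      omega
    exact (hinj.iterate a) h3
  rcases lt_or_gt_of_ne hab with h | h
  · exact key a b h hb h2
  · exact key b a h ha h2.symm

/-- all iterates occur within the first `N` -/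
private theorem pb_mod [NeZero N] (hG : Glue opp) (i : ZMod N) (k : ℕ) :
    ∃ k' : ℕ, k' < N ∧ ((fun j : ZMod N => opp j + 1)^[k']) i =
      ((fun j : ZMod N => opp j + 1)^[k]) i := by
  obtain ⟨q, hq, hqN, h⟩ := pb_period hG i
  refine ⟨k % q, (Nat.mod_lt _ hq).trans_le hqN, ?_⟩
  set σ : ZMod N → ZMod N := fun j => opp j + 1 with hσ
  have h1 : ∀ t : ℕ, (σ^[q * t]) i = i := by
    intro t
    induction t with
    | zero => rfl
    | succ t ih => rw [Nat.mul_succ, Function.iterate_add_apply, h, ih]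
  conv_rhs => rw [← Nat.mod_add_div k q, Function.iterate_add_apply, h1]

/-- the orbit relation is symmetric -/
private theorem pb_symm [NeZero N] (hG : Glue opp) (i : ZMod N) (k : ℕ) :
    ∃ k' : ℕ, ((fun j : ZMod N => opp j + 1)^[k']) (((fun j : ZMod N => opp j + 1)^[k]) i) = i := by
  obtain ⟨q, hq, hqN, h⟩ := pb_period hG i
  set σ : ZMod N → ZMod N := fun j => opp j + 1 with hσ
  have h1 : ∀ t : ℕ, (σ^[q * t]) i = i := by
    intro t
    induction t with
    | zero => rfl
    | succ t ih => rw [Nat.mul_succ, Function.iterate_add_apply, h, ih]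
  refine ⟨q * k - k, ?_⟩
  rw [← Function.iterate_add_apply]
  have h2 : q * k - k + k = q * k := Nat.sub_add_cancel (Nat.le_mul_of_pos_left k hq)
  rw [h2, h1]

private theorem pb_mem [NeZero N] (hG : Glue opp) (v : ℕ) : v ∈ vertices opp ↔ v < N ∧
    ∀ k : ℕ, v ≤ (((fun j : ZMod N => opp j + 1)^[k]) (v : ZMod N)).val := by
  unfold vertices
  rw [List.mem_filter, List.mem_range, List.all_eq_true]
  constructor
  · rintro ⟨h1, h2⟩
    refine ⟨h1, fun k => ?_⟩
    obtain ⟨k', hk', h3⟩ := pb_mod hG (v : ZMod N) k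
    have h4 := h2 k' (List.mem_range.2 hk')
    rw [decide_eq_true_eq, h3] at h4
    exact h4
  · rintro ⟨h1, h2⟩
    refine ⟨h1, fun k _ => ?_⟩
    rw [decide_eq_true_eq]
    exact h2 k

/-- Every orbit of `i ↦ opp i + 1` (a permutation) contains exactly one element of `vertices`. -/
theorem vertices_spec [NeZero N] (hG : Glue opp) (i : ZMod N) :
    ∃! v : ℕ, v ∈ vertices opp ∧ ∃ k : ℕ, ((fun j => opp j + 1)^[k]) (v : ZMod N) = i := by
  classical
  set σ : ZMod N → ZMod N := fun j => opp j + 1 with hσ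
  have hne : ∃ v : ℕ, v < N ∧ ∃ k : ℕ, (σ^[k]) (v : ZMod N) = i := by
    refine ⟨i.val, ZMod.val_lt i, 0, ?_⟩
    show ((i.val : ℕ) : ZMod N) = i
    exact ZMod.natCast_zmod_val i
  obtain ⟨hv1, k, hk⟩ := Nat.find_spec hne
  have hmin := fun m => Nat.find_min' hne (m := m)
  set v := Nat.find hne with hv
  refine ⟨v, ⟨(pb_mem hG v).2 ⟨hv1, fun k' => ?_⟩, k, hk⟩, ?_⟩
  · apply hmin
    refine ⟨ZMod.val_lt _, ?_⟩
    rw [ZMod.natCast_zmod_val]
    obtain ⟨k2, hk2⟩ := pb_symm hG (v : ZMod N) k'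
    refine ⟨k + k2, ?_⟩
    rw [Function.iterate_add_apply]
    show (σ^[k]) ((σ^[k2]) ((σ^[k']) (v : ZMod N))) = i
    rw [hk2, hk]
  · rintro u ⟨hu, k', hk'⟩
    rw [pb_mem hG] at hu
    apply le_antisymm
    · -- u ≤ v
      obtain ⟨k2, hk2⟩ := pb_symm hG (v : ZMod N) k
      have h1 := hu.2 (k2 + k')
      rw [Function.iterate_add_apply] at h1
      change u ≤ ((σ^[k2]) ((σ^[k']) (u : ZMod N))).val at h1
      rw [hk', ← hk, hk2, ZMod.val_natCast, Nat.mod_eq_of_lt hv1] at h1
      exact h1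
    · exact hmin u ⟨hu.1, k', hk'⟩

theorem zero_mem_vertices [NeZero N] : 0 ∈ vertices opp := by
  unfold vertices
  rw [List.mem_filter, List.mem_range, List.all_eq_true]
  refine ⟨Nat.pos_of_ne_zero (NeZero.ne N), fun k _ => ?_⟩
  rw [decide_eq_true_eq]
  exact Nat.zero_le _

private theorem pb_iter {p : ℕ} {lam : ZMod N → ℕ} (h : IsColouring opp p lam) (k : ℕ)
    (i : ZMod N) : lam (((fun j : ZMod N => opp j + 1)^[k]) i) = lam i := by
  induction k with
  | zero => rfl
  | succ k ih => rw [Function.iterate_succ_apply', (h _).1, ih]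

/-- The sum over the colourings of a product over the vertices. -/
theorem sum_cols [NeZero N] (hG : Glue opp) (p : ℕ) (h : ℕ → ℕ → ℂ) :
    ∑ lam ∈ cols opp p, ((vertices opp).map fun i : ℕ => h i (lam (i : ZMod N))).prod =
      ((vertices opp).map fun i : ℕ => ∑ a ∈ (Finset.range p).filter Odd, h i a).prod := by
  classical
  have hnd : (vertices opp).Nodup := by
    unfold vertices
    exact List.nodup_range.filter _
  have hprod : ∀ f : ℕ → ℂ, ((vertices opp).map f).prod = ∏ v ∈ (vertices opp).toFinset, f v :=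
    fun f => (List.prod_toFinset f hnd).symm
  simp_rw [hprod]
  rw [Finset.prod_sum]
  choose rep hrep huniq using fun i : ZMod N => vertices_spec (opp := opp) hG i
  have hrep1 : ∀ i, rep i ∈ (vertices opp).toFinset := fun i => List.mem_toFinset.2 (hrep i).1
  have hrepv : ∀ v ∈ (vertices opp).toFinset, rep (v : ZMod N) = v := by
    intro v hv
    exact (huniq (v : ZMod N) v ⟨List.mem_toFinset.1 hv, 0, rfl⟩).symm
  have hreps : ∀ i, rep (opp i + 1) = rep i := by
    intro i
    obtain ⟨h1, k, hk⟩ := hrep i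
    refine (huniq (opp i + 1) (rep i) ⟨h1, k + 1, ?_⟩).symm
    rw [Function.iterate_succ_apply', hk]
  refine Finset.sum_bij'
    (i := fun lam _ => fun v _ => lam (v : ZMod N))
    (j := fun g _ => fun i => g (rep i) (hrep1 i)) ?_ ?_ ?_ ?_ ?_
  · intro lam hlam
    rw [mem_cols] at hlam
    rw [Finset.mem_pi]
    intro v hv
    rw [Finset.mem_filter, Finset.mem_range]
    exact ⟨(hlam _).2.2, (hlam _).2.1⟩
  · intro g hg
    rw [Finset.mem_pi] at hg
    rw [mem_cols]
    intro i
    have h1 := hg (rep i) (hrep1 i)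
    rw [Finset.mem_filter, Finset.mem_range] at h1
    refine ⟨?_, h1.2, h1.1⟩
    have h2 : ∀ (u u' : ℕ) (hu : u ∈ (vertices opp).toFinset)
        (hu' : u' ∈ (vertices opp).toFinset), u = u' → g u hu = g u' hu' := by
      rintro u u' hu hu' rfl
      rfl
    exact h2 _ _ _ _ (hreps i)
  · intro lam hlam
    rw [mem_cols] at hlam
    funext i
    obtain ⟨h1, k, hk⟩ := hrep i
    show lam ((rep i : ℕ) : ZMod N) = lam i
    rw [← pb_iter hlam k, hk]
  · intro g hg
    funext v hv
    have h2 : ∀ (u u' : ℕ) (hu : u ∈ (vertices opp).toFinset)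
        (hu' : u' ∈ (vertices opp).toFinset), u = u' → g u hu = g u' hu' := by
      rintro u u' hu hu' rfl
      rfl
    exact h2 _ _ _ _ (hrepv v hv)
  · intro lam hlam
    rw [← Finset.prod_attach]

end Pool.Agent.AMU.Lim
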