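import Pool.Agent.Lib.AMU.PunA
import Pool.Agent.Lib.AMU.PunB
import Pool.Agent.Lib.AMU.LimA1

/-!
# Row P3: the sum over the puncture colours
-/

set_option autoImplicit false

open Filter Topology

namespace Pool.Agent.AMU.Lim

variable {N : ℕ} {opp : ZMod N → ZMod N} (w : List (ZMod N)) (ord : ℕ → ℤ)

private theorem P3_chords0 : chords w 0 = [] := by simp [chords]

private theorem P3_ofFn0 (f : Fin (2 * (w.length * 0)) → ℤ) : List.ofFn f = [] :=
  List.eq_nil_of_length_eq_zero (by simp)

private theorem P3_corner0 (i : ℕ) : corner opp w (ends (chords w 0)) i = 0 := by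
  simp [P3_chords0, corner, ends]

open Classical in
private theorem P3_coreG0 (e : ℤ) (d : ℤ → ℂ) (A : ℂ) (t : ℤ → ℂ) (ok : ℤ → Prop) :
    coreG opp w ord 0 e d A t ok =
      if ok 0 then d 0 ^ e * (d 0)⁻¹ ^ (canonN opp).card * d 0 else 0 := by
  have hadm : CoreAdm opp w ord 0 ok [] ↔ ok 0 := by
    simp [CoreAdm, lev]
  unfold coreG
  simp only [P3_ofFn0, hadm, P3_corner0]
  rw [Finset.sum_const]
  have hc : (Finset.univ : Finset (Fin (2 * (w.length * 0)) → Bool)).card = 1 := by
    rw [Finset.card_univ]
    simp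
  rw [hc, one_smul]
  congr 1
  rw [P3_chords0]
  simp [lev, amp, canonN]

/-- Without strands all corners have the level `0`. -/
theorem rawZ_nil [NeZero N] (hG : Glue opp) (p : ℕ) (A : ℂ) (lam : ZMod N → ℕ) :
    rawZ opp w ord 0 p A lam = ∑ n ∈ Finset.range p,
      ((vertices opp).map fun i : ℕ => smat A (lam (i : ZMod N)) n).prod *
        colG opp w ord 0 0 A p n := by
  unfold rawZ
  refine Finset.sum_congr rfl fun n _ => ?_
  have hadm : Admissible opp w ord 0 p n [] ↔ (0 < (n : ℤ) + 0 ∧ (n : ℤ) + 0 < p) := by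
    simp [Admissible, P3_corner0, col]
  simp only [P3_ofFn0]
  rw [Finset.sum_const]
  have hc : (Finset.univ : Finset (Fin (2 * (w.length * 0)) → Bool)).card = 1 := by
    rw [Finset.card_univ]
    simp
  rw [hc, one_smul, colG, P3_coreG0]
  by_cases h : (0 < (n : ℤ) + 0 ∧ (n : ℤ) + 0 < p)
  · rw [if_pos h, if_pos (hadm.2 h)]
    unfold weight
    simp only [P3_corner0]
    rw [P3_chords0]
    simp [col, amp, canonN]
    ring
  · rw [if_neg h, if_neg (fun h' => h (hadm.1 h'))]
    simp

theorem colG_nil_eq [NeZero N] (hG : Glue opp) {p : ℕ} (hp : Odd p) {A : ℂ}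
    (hA : IsPrimitiveRoot A (2 * p)) {n : ℤ} (hn : 0 < n) (hnp : n < p) :
    colG opp w ord 0 0 A p n = qdim A n ^ (1 - ((canonN opp).card : ℤ)) := by
  rw [colG, P3_coreG0, if_pos (by simpa using ⟨hn, hnp⟩)]
  have hne := qdim_ne hp hA hn hnp
  rw [add_zero, zpow_sub₀ hne, zpow_one, zpow_natCast, zpow_zero, inv_pow]
  field_simp

private theorem P3_parity (s : List ℤ) (hs : ∀ x ∈ s, Odd x) (i : ℕ) (hi : i ≤ s.length) :
    Even ((s.take i).sum + i) := by
  induction s generalizing i with
  | nil =>
    have : i = 0 := by simpa using hi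
    subst this
    simp
  | cons x s ih =>
    rcases i with _ | i
    · simp
    · have h1 := ih (fun y hy => hs y (List.mem_cons_of_mem _ hy)) i (by simpa using hi)
      have h2 := hs x List.mem_cons_self
      rw [List.take_succ_cons, List.sum_cons]
      have : x + (s.take i).sum + ((i + 1 : ℕ) : ℤ) = ((s.take i).sum + i) + (x + 1) := by
        push_cast
        ring
      rw [this]
      exact h1.add (h2.add_odd odd_one)

private theorem P3_corner_le (m i : ℕ) :
    corner opp w (ends (chords w m)) i ≤ 2 * (w.length * m) := by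
  unfold corner
  refine (List.countP_le_length).trans ?_
  rw [ends_length, chords_length]

private theorem P3_col_top {m : ℕ} [NeZero N] {n : ℤ} {s : List ℤ}
    (hlen : s.length = 2 * (w.length * m)) (hs : s.sum = 0) :
    col n s (corner opp w (ends (chords w m)) N) = n := by
  rw [corner_top opp w (NeZero.pos N), ends_length, chords_length, ← hlen]
  simp [col, hs]

private theorem P3_const [NeZero N] {m p : ℕ} {n : ℤ} {s : List ℤ}
    (hlen : s.length = 2 * (w.length * m)) (h : Admissible opp w ord m p n s) (x : ZMod N) :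
    col n s (corner opp w (ends (chords w m)) (opp x + 1).val) =
      col n s (corner opp w (ends (chords w m)) x.val) := by
  have h3 := h.2.2.1 x.val (ZMod.val_lt x)
  rw [ZMod.natCast_zmod_val] at h3
  rw [h3]
  have e : (opp x + 1 : ZMod N) = (((opp x).val + 1 : ℕ) : ZMod N) := by simp
  have hlt := ZMod.val_lt (opp x)
  rw [e, ZMod.val_natCast]
  rcases Nat.lt_or_ge ((opp x).val + 1) N with h4 | h4
  · rw [Nat.mod_eq_of_lt h4]
  · have h5 : (opp x).val + 1 = N := by omega
    rw [h5, Nat.mod_self, corner_zero, P3_col_top w hlen h.2.1]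
    simp [col]

private theorem P3_core_iff [NeZero N] (hG : Glue opp) {m p : ℕ} {n : ℤ} {s : List ℤ}
    (hlen : s.length = 2 * (w.length * m)) :
    CoreAdm opp w ord m (fun l => 0 < n + l ∧ n + l < p) s ↔
      Admissible opp w ord m p n s ∧
        ∀ v ∈ vertices opp, col n s (corner opp w (ends (chords w m)) v) = n := by
  constructor
  · rintro ⟨h1, h2, h3, h4⟩
    have h5 : ∀ j ≤ N, col n s (corner opp w (ends (chords w m)) j) = n := by
      intro j hj
      rcases hj.lt_or_eq with hj | rfl
      · have := h3 j hj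
        show n + (s.take _).sum = n
        have h6 : (s.take (corner opp w (ends (chords w m)) j)).sum = 0 := this
        rw [h6, add_zero]
      · exact P3_col_top w hlen h2
    refine ⟨⟨h1, h2, fun j hj => ?_, h4⟩, fun v hv => ?_⟩
    · rw [h5 j hj.le, h5 _ (ZMod.val_lt _)]
    · have : v < N := by
        have := (List.mem_filter.1 hv).1
        exact List.mem_range.1 this
      exact h5 v this.le
  · rintro ⟨h, hv⟩
    have h5 : ∀ x : ZMod N, col n s (corner opp w (ends (chords w m)) x.val) = n := by
      intro x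
      obtain ⟨v, ⟨hv1, k, hk⟩, -⟩ := vertices_spec hG x
      have hvN : v < N := List.mem_range.1 (List.mem_filter.1 hv1).1
      have key : ∀ k : ℕ, col n s (corner opp w (ends (chords w m))
          (((fun j => opp j + 1)^[k]) (v : ZMod N)).val) = n := by
        intro k
        induction k with
        | zero =>
          show col n s (corner opp w (ends (chords w m)) ((v : ZMod N)).val) = n
          rw [ZMod.val_natCast, Nat.mod_eq_of_lt hvN]
          exact hv v hv1
        | succ k ih =>
          rw [Function.iterate_succ_apply']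
          rw [P3_const w ord hlen h]
          exact ih
      rw [← hk]
      exact key k
    refine ⟨h.1, h.2.1, fun j hj => ?_, h.2.2.2⟩
    have h6 := h5 (j : ZMod N)
    rw [ZMod.val_natCast, Nat.mod_eq_of_lt hj] at h6
    have h7 : n + lev s (corner opp w (ends (chords w m)) j) = n := h6
    linarith

/-- The factor of a vertex. -/
private noncomputable def P3_chi (p : ℕ) (n' : ℕ) (x : ℤ) : ℂ :=
  (if x = n' then 1 else 0) + (if x + n' = p then 1 else 0)

private theorem P3_orth {p : ℕ} (hp : Odd p) {A : ℂ} (hA : IsPrimitiveRoot A (2 * p)) {c : ℤ}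
    (hc : 0 < c) (hcp : c < p) {n' : ℕ} (hn' : 0 < n') (hnp' : n' < p) :
    ∑ a ∈ (Finset.range p).filter Odd, smat A a c * smat A a n' = kap A p * P3_chi p n' c := by
  obtain ⟨k, rfl⟩ : ∃ k : ℕ, c = k := ⟨c.toNat, by omega⟩
  rw [smat_orth hp hA (by omega) (by omega) hn' hnp', P3_chi]
  congr 2
  · by_cases h : k = n'
    · rw [if_pos h, if_pos (by exact_mod_cast h)]
    · rw [if_neg h, if_neg (by exact_mod_cast h)]
  · by_cases h : k + n' = p
    · rw [if_pos h, if_pos (by exact_mod_cast h)]
    · rw [if_neg h, if_neg (by exact_mod_cast h)]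

private theorem P3_chi_pow {p : ℕ} (hp : Odd p) (n' : ℕ) (x : ℤ) {k : ℕ} (hk : k ≠ 0) :
    P3_chi p n' x ^ k = P3_chi p n' x := by
  unfold P3_chi
  by_cases h1 : x = n'
  · have h2 : ¬ x + n' = p := by
      intro h
      obtain ⟨j, hj⟩ := hp
      rw [h1, hj] at h
      push_cast at h
      omega
    rw [if_pos h1, if_neg h2]
    simp
  · rw [if_neg h1]
    by_cases h2 : x + n' = p
    · rw [if_pos h2]
      simp
    · rw [if_neg h2]
      simp [hk]

private theorem P3_prod [NeZero N] {p : ℕ} (hp : Odd p) {A : ℂ}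
    (hA : IsPrimitiveRoot A (2 * p)) {n : ℤ} {n' : ℕ} (hn' : 0 < n') (hnp' : n' < p) (c : ℕ → ℤ)
    (hc : ∀ v ∈ vertices opp, 0 < c v ∧ c v < p ∧ Even (c v - n)) (h0 : c 0 = n) :
    ((vertices opp).map fun v : ℕ => ∑ a ∈ (Finset.range p).filter Odd,
      smat A a (c v) * smat A a n').prod = kap A p ^ (vertices opp).length *
        (if ∀ v ∈ vertices opp, c v = n then P3_chi p n' n else 0) := by
  have h1 : ((vertices opp).map fun v : ℕ => ∑ a ∈ (Finset.range p).filter Odd,
      smat A a (c v) * smat A a n') =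
      (vertices opp).map fun v : ℕ => kap A p * P3_chi p n' (c v) := by
    refine List.map_congr_left fun v hv => ?_
    obtain ⟨h2, h3, _⟩ := hc v hv
    exact P3_orth hp hA h2 h3 hn' hnp'
  rw [h1, List.prod_map_mul, List.map_const', List.prod_replicate]
  congr 1
  split_ifs with hall
  · have h2 : ((vertices opp).map fun v : ℕ => P3_chi p n' (c v)) =
        (vertices opp).map fun _ : ℕ => P3_chi p n' n := by
      refine List.map_congr_left fun v hv => ?_
      rw [hall v hv]
    rw [h2, List.map_const', List.prod_replicate, P3_chi_pow hp]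
    intro h3
    have h4 := List.length_pos_of_mem (zero_mem_vertices (opp := opp))
    omega
  · rw [List.prod_eq_zero_iff]
    push Not at hall
    obtain ⟨v, hv, hvn⟩ := hall
    rw [List.mem_map]
    by_cases hz : P3_chi p n' n = 0
    · exact ⟨0, zero_mem_vertices, by rw [h0, hz]⟩
    · refine ⟨v, hv, ?_⟩
      obtain ⟨_, _, j, hj⟩ := hc v hv
      obtain ⟨l, hl⟩ := hp
      unfold P3_chi at hz ⊢
      have h5 : ¬ c v = n' := by
        intro h
        apply hz
        rw [if_neg (fun h6 => hvn (by rw [h, h6])), if_neg (fun h6 => by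
          rw [hl] at h6
          push_cast at h6
          omega)]
        ring
      have h6 : ¬ c v + n' = p := by
        intro h
        apply hz
        rw [if_neg (fun h6 => by
          rw [hl] at h
          push_cast at h
          omega), if_neg (fun h6 => hvn (by linarith))]
        ring
      rw [if_neg h5, if_neg h6]
      ring

/-- The sum over the colourings of the products of two colourings of the corners. -/
private theorem P3_sum_prod [NeZero N] (hG : Glue opp) {p : ℕ} {A : ℂ} (c : ℕ → ℤ) (n' : ℤ) :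
    ∑ lam ∈ cols opp p, ((vertices opp).map fun i : ℕ => smat A (lam (i : ZMod N)) (c i)).prod *
      ((vertices opp).map fun i : ℕ => smat A (lam (i : ZMod N)) n').prod =
      ((vertices opp).map fun v : ℕ => ∑ a ∈ (Finset.range p).filter Odd,
        smat A a (c v) * smat A a n').prod := by
  rw [← sum_cols hG p (fun i a => smat A a (c i) * smat A a n')]
  refine Finset.sum_congr rfl fun lam _ => ?_
  rw [← List.prod_map_mul]

private theorem P3_colG0 (A : ℂ) (p : ℕ) : colG opp w ord 0 0 A p 0 = 0 := by
  rw [colG, P3_coreG0, if_neg (by simp)]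

private theorem P3_two [NeZero N] (hG : Glue opp) {p : ℕ} (hp : Odd p) {A : ℂ}
    (hA : IsPrimitiveRoot A (2 * p)) {n : ℕ} (hn : 0 < n) (hnp : n < p) :
    ∑ n' ∈ Finset.range p, P3_chi p n' n * colG opp w ord 0 0 A p n' =
      2 * qdim A n ^ (1 - ((canonN opp).card : ℤ)) := by
  have h1 : ∀ n' ∈ Finset.range p, P3_chi p n' n * colG opp w ord 0 0 A p n' =
      (if n' = n then colG opp w ord 0 0 A p n' else 0) +
        (if n' = p - n then colG opp w ord 0 0 A p n' else 0) := by
    intro n' hn'
    rw [Finset.mem_range] at hn'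
    unfold P3_chi
    rw [add_mul]
    congr 1
    · by_cases h : n' = n
      · rw [if_pos h, if_pos (by exact_mod_cast h.symm), one_mul]
      · rw [if_neg h, if_neg (by
          intro h'
          exact h (by exact_mod_cast h'.symm)), zero_mul]
    · by_cases h : n' = p - n
      · rw [if_pos h, if_pos (by
          have : n + n' = p := by omega
          exact_mod_cast this), one_mul]
      · rw [if_neg h, if_neg (by
          intro h'
          have : n + n' = p := by exact_mod_cast h'
          omega), zero_mul]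
  rw [Finset.sum_congr rfl h1, Finset.sum_add_distrib, Finset.sum_ite_eq', Finset.sum_ite_eq',
    if_pos (Finset.mem_range.2 hnp), if_pos (Finset.mem_range.2 (by omega)),
    colG_nil_eq w ord hG hp hA (by exact_mod_cast hn) (by exact_mod_cast hnp),
    colG_nil_eq w ord hG hp hA (by exact_mod_cast (by omega : 0 < p - n))
      (by exact_mod_cast (by omega : p - n < p))]
  have h2 : ((p - n : ℕ) : ℤ) = (p : ℤ) - n := by
    rw [Nat.cast_sub hnp.le]
  rw [h2, qdim_refl hp hA]
  ring

private theorem P3_term [NeZero N] (hG : Glue opp) {m : ℕ} (hm : Even m) {p : ℕ} (hp : Odd p)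
    {A : ℂ} (hA : IsPrimitiveRoot A (2 * p)) {n : ℕ} {s : List ℤ}
    (hlen : s.length = 2 * (w.length * m)) (hs : ∀ x ∈ s, Odd x)
    (h : Admissible opp w ord m p n s) :
    ∑ n' ∈ Finset.range p, (∑ lam ∈ cols opp p,
      ((vertices opp).map fun i : ℕ => smat A (lam (i : ZMod N))
        (col n s (corner opp w (ends (chords w m)) i))).prod *
      ((vertices opp).map fun i : ℕ => smat A (lam (i : ZMod N)) n').prod) *
        colG opp w ord 0 0 A p n' =
      if ∀ v ∈ vertices opp, col n s (corner opp w (ends (chords w m)) v) = n then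
        2 * kap A p ^ (vertices opp).length * qdim A n ^ (1 - ((canonN opp).card : ℤ)) else 0 := by
  have hc0 : col (n : ℤ) s (corner opp w (ends (chords w m)) 0) = n := by
    rw [corner_zero]
    simp [col]
  have hn : 0 < n ∧ n < p := by
    have := h.1 0 (Nat.zero_le _)
    simp only [col, List.take_zero, List.sum_nil, add_zero] at this
    exact ⟨by exact_mod_cast this.1, by exact_mod_cast this.2⟩
  have hcv : ∀ v ∈ vertices opp, 0 < col (n : ℤ) s (corner opp w (ends (chords w m)) v) ∧
      col (n : ℤ) s (corner opp w (ends (chords w m)) v) < p ∧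
      Even (col (n : ℤ) s (corner opp w (ends (chords w m)) v) - n) := by
    intro v hv
    have hvN : v < N := List.mem_range.1 (List.mem_filter.1 hv).1
    have hle : corner opp w (ends (chords w m)) v ≤ s.length := by
      rw [hlen]
      exact P3_corner_le w m v
    obtain ⟨h1, h2⟩ := h.1 _ hle
    refine ⟨h1, h2, ?_⟩
    have h3 := P3_parity s hs _ hle
    have h4 : Even ((corner opp w (ends (chords w m)) v : ℕ) : ℤ) := by
      have := corner_even opp w m hm (NeZero.pos N) hvN.le
      exact_mod_cast this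
    have h5 : col (n : ℤ) s (corner opp w (ends (chords w m)) v) - n =
        ((s.take (corner opp w (ends (chords w m)) v)).sum +
          (corner opp w (ends (chords w m)) v : ℕ)) -
          ((corner opp w (ends (chords w m)) v : ℕ) : ℤ) := by
      unfold col
      ring
    rw [h5]
    exact h3.sub h4
  have h1 : ∀ n' ∈ Finset.range p, (∑ lam ∈ cols opp p,
      ((vertices opp).map fun i : ℕ => smat A (lam (i : ZMod N))
        (col n s (corner opp w (ends (chords w m)) i))).prod *
      ((vertices opp).map fun i : ℕ => smat A (lam (i : ZMod N)) n').prod) *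
        colG opp w ord 0 0 A p n' =
      (if ∀ v ∈ vertices opp, col n s (corner opp w (ends (chords w m)) v) = n then
        kap A p ^ (vertices opp).length else 0) *
          (P3_chi p n' n * colG opp w ord 0 0 A p n') := by
    intro n' hn'
    rw [Finset.mem_range] at hn'
    rcases Nat.eq_zero_or_pos n' with rfl | hpos
    · rw [Nat.cast_zero, P3_colG0]
      simp
    · rw [P3_sum_prod hG (fun i => col n s (corner opp w (ends (chords w m)) i)),
        P3_prod hp hA hpos hn' _ hcv hc0]
      split_ifs <;> ring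
  rw [Finset.sum_congr rfl h1, ← Finset.mul_sum, P3_two w ord hG hp hA hn.1 hn.2]
  split_ifs <;> ring

/-- `sum_cols`, `smat_orth`: the product over the vertices of `[n_v = n'] + [n_v + n' = p]`; for
`m` even all `n_v` have the parity of `n` (`corner_even`), so it vanishes unless all `n_v` are
equal to `n = n_0` (`zero_mem_vertices`), i.e. all corners have the level `0` (`vertices_spec` and
the corner condition of `Admissible`), and then it is `[n = n'] + [n + n' = p]`;
`qdim_refl`. -/
theorem sum_cols_rawZ [NeZero N] (hG : Glue opp) {m : ℕ} (hm : Even m) {p : ℕ} (hp : Odd p)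
    {A : ℂ} (hA : IsPrimitiveRoot A (2 * p)) :
    ∑ lam ∈ cols opp p, rawZ opp w ord m p A lam * rawZ opp w ord 0 p A lam =
      2 * kap A p ^ (vertices opp).length *
        ∑ n ∈ Finset.range p, colG opp w ord m (1 - ((canonN opp).card : ℤ)) A p n := by
  classical
  simp only [rawZ_nil w ord hG]
  unfold rawZ
  simp_rw [Finset.sum_mul, Finset.mul_sum]
  rw [Finset.sum_comm]
  refine Finset.sum_congr rfl fun n _ => ?_
  rw [Finset.sum_comm]
  unfold colG coreG
  rw [Finset.mul_sum]
  refine Finset.sum_congr rfl fun e _ => ?_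
  rw [Finset.sum_comm]
  obtain ⟨s, hs⟩ : ∃ s : List ℤ, s = List.ofFn fun i => sgn (e i) := ⟨_, rfl⟩
  rw [← hs]
  have hlen : s.length = 2 * (w.length * m) := by
    rw [hs]
    simp
  have hodd : ∀ x ∈ s, Odd x := by
    intro x hx
    rw [hs, List.mem_ofFn] at hx
    obtain ⟨i, rfl⟩ := hx
    unfold sgn
    split_ifs
    · exact odd_one
    · exact odd_neg_one
  by_cases hadm : Admissible opp w ord m p n s
  · simp only [if_pos hadm]
    obtain ⟨G, hGd⟩ : ∃ G : ℂ, G = (∏ i ∈ (Finset.range N).filter (fun i : ℕ =>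
        i < (opp (i : ZMod N)).val),
        ∏ j ∈ Finset.Icc (corner opp w (ends (chords w m)) i)
          (corner opp w (ends (chords w m)) (i + 1)), (qdim A (col n s j))⁻¹) *
        (∏ u ∈ Finset.range m,
          (twist A (col n s (rank opp w ord (ends (chords w m)) (0, u, false))) /
            twist A (col n s (rank opp w ord (ends (chords w m)) (0, u, false) + 1)))) *
        amp (qdim A) A (rank opp w ord) (chords w m) n s := ⟨_, rfl⟩
    have hL : ∀ lam : ZMod N → ℕ, ∀ n' : ℕ,
        weight opp w ord m A lam n s * amp (qdim A) A (rank opp w ord) (chords w m) n s *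
          (((vertices opp).map fun i : ℕ => smat A (lam (i : ZMod N)) n').prod *
            colG opp w ord 0 0 A p n') =
        G * ((((vertices opp).map fun i : ℕ => smat A (lam (i : ZMod N))
          (col n s (corner opp w (ends (chords w m)) i))).prod *
          ((vertices opp).map fun i : ℕ => smat A (lam (i : ZMod N)) n').prod) *
            colG opp w ord 0 0 A p n') := by
      intro lam n'
      rw [hGd]
      unfold weight
      ring
    have hL' : ∑ n' ∈ Finset.range p, ∑ lam ∈ cols opp p,
        weight opp w ord m A lam n s * amp (qdim A) A (rank opp w ord) (chords w m) n s *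
          (((vertices opp).map fun i : ℕ => smat A (lam (i : ZMod N)) n').prod *
            colG opp w ord 0 0 A p n') =
        G * ∑ n' ∈ Finset.range p, (∑ lam ∈ cols opp p,
          ((vertices opp).map fun i : ℕ => smat A (lam (i : ZMod N))
            (col n s (corner opp w (ends (chords w m)) i))).prod *
          ((vertices opp).map fun i : ℕ => smat A (lam (i : ZMod N)) n').prod) *
            colG opp w ord 0 0 A p n' := by
      rw [Finset.mul_sum]
      refine Finset.sum_congr rfl fun n' _ => ?_
      rw [Finset.sum_mul, Finset.mul_sum]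
      exact Finset.sum_congr rfl fun lam _ => hL lam n'
    unfold colG coreG at hL'
    refine hL'.trans ?_
    have hterm := P3_term w ord hG hm hp hA hlen hodd hadm
    unfold colG coreG at hterm
    rw [hterm]
    have hiff := P3_core_iff (p := p) (n := (n : ℤ)) (s := s) w ord hG hlen
    by_cases hall : ∀ v ∈ vertices opp, col n s (corner opp w (ends (chords w m)) v) = n
    · rw [if_pos hall, if_pos (hiff.2 ⟨hadm, hall⟩), amp_shift, add_zero, hGd]
      have hcol : ∀ i, (n : ℤ) + lev s i = col n s i := fun _ => rfl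
      simp only [hcol]
      ring
    · rw [if_neg hall, if_neg (fun h => hall (hiff.1 h).2)]
      ring
  · have hiff := P3_core_iff (p := p) (n := (n : ℤ)) (s := s) w ord hG hlen
    rw [if_neg (fun h => hadm (hiff.1 h).1)]
    simp only [if_neg hadm, zero_mul, mul_zero, Finset.sum_const_zero]

private theorem P3_bound {p : ℕ} (g : ℕ → ℂ) :
    ∑ n ∈ Finset.range p, ∑ n' ∈ Finset.range p, ‖P3_chi p n' n‖ * (‖g n‖ * ‖g n'‖) ≤
      2 * ∑ n ∈ Finset.range p, ‖g n‖ ^ 2 := by
  have hchi : ∀ n n' : ℕ, ‖P3_chi p n' n‖ ≤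
      (if n = n' then 1 else 0) + (if n + n' = p then (1 : ℝ) else 0) := by
    intro n n'
    unfold P3_chi
    refine (norm_add_le _ _).trans (add_le_add ?_ ?_)
    · by_cases h : n = n'
      · rw [if_pos h, if_pos (by exact_mod_cast h)]
        simp
      · rw [if_neg h, if_neg (by exact_mod_cast h)]
        simp
    · by_cases h : n + n' = p
      · rw [if_pos h, if_pos (by exact_mod_cast h)]
        simp
      · rw [if_neg h, if_neg (by exact_mod_cast h)]
        simp
  obtain ⟨x, hx⟩ : ∃ x : ℕ → ℕ → ℝ, x = fun n n' =>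
      (if n = n' then 1 else 0) + (if n + n' = p then (1 : ℝ) else 0) := ⟨_, rfl⟩
  have hx0 : ∀ n n', 0 ≤ x n n' := by
    intro n n'
    rw [hx]
    dsimp only
    split_ifs <;> norm_num
  have hxs : ∀ n n', x n n' = x n' n := by
    intro n n'
    rw [hx]
    dsimp only
    congr 1
    · simp only [eq_comm]
    · rw [add_comm]
  have hxsum : ∀ n, ∑ n' ∈ Finset.range p, x n n' ≤ 2 := by
    intro n
    rw [hx]
    dsimp only
    rw [Finset.sum_add_distrib]
    have h1 : ∑ n' ∈ Finset.range p, (if n = n' then (1 : ℝ) else 0) ≤ 1 := by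
      rw [Finset.sum_ite_eq]
      split_ifs <;> norm_num
    have h2 : ∑ n' ∈ Finset.range p, (if n + n' = p then (1 : ℝ) else 0) ≤ 1 := by
      have : ∑ n' ∈ Finset.range p, (if n + n' = p then (1 : ℝ) else 0) ≤
          ∑ n' ∈ Finset.range p, (if n' = p - n then (1 : ℝ) else 0) := by
        refine Finset.sum_le_sum fun n' _ => ?_
        by_cases h : n + n' = p
        · rw [if_pos h, if_pos (by omega)]
        · rw [if_neg h]
          split_ifs <;> norm_num
      refine this.trans ?_
      rw [Finset.sum_ite_eq']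
      split_ifs <;> norm_num
    linarith
  calc ∑ n ∈ Finset.range p, ∑ n' ∈ Finset.range p, ‖P3_chi p n' n‖ * (‖g n‖ * ‖g n'‖)
      ≤ ∑ n ∈ Finset.range p, ∑ n' ∈ Finset.range p,
          (x n n' * (‖g n‖ ^ 2 / 2) + x n' n * (‖g n'‖ ^ 2 / 2)) := by
        refine Finset.sum_le_sum fun n _ => Finset.sum_le_sum fun n' _ => ?_
        rw [hxs n' n, ← mul_add]
        have h1 : ‖P3_chi p n' n‖ ≤ x n n' := by
          rw [hx]
          exact hchi n n'
        have h2 : ‖g n‖ * ‖g n'‖ ≤ ‖g n‖ ^ 2 / 2 + ‖g n'‖ ^ 2 / 2 := by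
          have := sq_nonneg (‖g n‖ - ‖g n'‖)
          nlinarith
        exact mul_le_mul h1 h2 (by positivity) (hx0 n n')
    _ = ∑ n ∈ Finset.range p, (∑ n' ∈ Finset.range p, x n n') * (‖g n‖ ^ 2 / 2) +
        ∑ n' ∈ Finset.range p, (∑ n ∈ Finset.range p, x n' n) * (‖g n'‖ ^ 2 / 2) := by
        simp_rw [Finset.sum_add_distrib, Finset.sum_mul]
        congr 1
        rw [Finset.sum_comm]
    _ ≤ ∑ n ∈ Finset.range p, 2 * (‖g n‖ ^ 2 / 2) +
        ∑ n ∈ Finset.range p, 2 * (‖g n‖ ^ 2 / 2) := by
        refine add_le_add ?_ ?_ <;>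
        exact Finset.sum_le_sum fun n _ =>
          mul_le_mul_of_nonneg_right (hxsum n) (by positivity)
    _ = 2 * ∑ n ∈ Finset.range p, ‖g n‖ ^ 2 := by
        rw [← Finset.sum_add_distrib, Finset.mul_sum]
        refine Finset.sum_congr rfl fun n _ => ?_
        ring

/-- Squares (`smat_conj`, `smat_orth`, `2 |g n g (p - n)| ≤ |g n|^2 + |g (p - n)|^2`). -/
theorem sum_cols_sq [NeZero N] (hG : Glue opp) {p : ℕ} (hp : Odd p) {A : ℂ}
    (hA : IsPrimitiveRoot A (2 * p)) (g : ℕ → ℂ) (h0 : g 0 = 0) :
    ∑ lam ∈ cols opp p, ‖∑ n ∈ Finset.range p,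
      ((vertices opp).map fun i : ℕ => smat A (lam (i : ZMod N)) n).prod * g n‖ ^ 2 ≤
      2 * ‖kap A p‖ ^ (vertices opp).length * ∑ n ∈ Finset.range p, ‖g n‖ ^ 2 := by
  have hA1 : ‖A‖ = 1 := hA.norm'_eq_one (by have := hp.pos; omega)
  obtain ⟨X, hX⟩ : ∃ X : (ZMod N → ℕ) → ℕ → ℂ, X = fun (lam : ZMod N → ℕ) (n : ℕ) =>
      ((vertices opp).map fun i : ℕ => smat A (lam (i : ZMod N)) n).prod := ⟨_, rfl⟩
  have hXc : ∀ lam n, (starRingEnd ℂ) (X lam n) = X lam n := by
    intro lam n
    rw [hX]
    dsimp only
    rw [map_list_prod, List.map_map]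
    congr 1
    refine List.map_congr_left fun v _ => ?_
    exact smat_conj hA1 _ _
  have hXX : ∀ lam n, X lam n =
    ((vertices opp).map fun i : ℕ => smat A (lam (i : ZMod N)) n).prod := by
    intro lam n
    rw [hX]
  have hsq : ∀ lam, ((‖∑ n ∈ Finset.range p, X lam n * g n‖ ^ 2 : ℝ) : ℂ) =
      ∑ n ∈ Finset.range p, ∑ n' ∈ Finset.range p,
        (X lam n * X lam n') * (g n * (starRingEnd ℂ) (g n')) := by
    intro lam
    have h1 : ((‖∑ n ∈ Finset.range p, X lam n * g n‖ ^ 2 : ℝ) : ℂ) =
        (∑ n ∈ Finset.range p, X lam n * g n) *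
          (starRingEnd ℂ) (∑ n ∈ Finset.range p, X lam n * g n) := by
      rw [Complex.mul_conj, Complex.normSq_eq_norm_sq]
    rw [h1, map_sum, Finset.sum_mul_sum]
    refine Finset.sum_congr rfl fun n _ => Finset.sum_congr rfl fun n' _ => ?_
    rw [map_mul, hXc]
    ring
  have hmain : ((∑ lam ∈ cols opp p, ‖∑ n ∈ Finset.range p, X lam n * g n‖ ^ 2 : ℝ) : ℂ) =
      ∑ n ∈ Finset.range p, ∑ n' ∈ Finset.range p,
        kap A p ^ (vertices opp).length * (P3_chi p n' n * (g n * (starRingEnd ℂ) (g n'))) := by
    rw [Complex.ofReal_sum]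
    simp_rw [hsq]
    rw [Finset.sum_comm]
    refine Finset.sum_congr rfl fun n hn => ?_
    rw [Finset.sum_comm]
    refine Finset.sum_congr rfl fun n' hn' => ?_
    rw [Finset.mem_range] at hn hn'
    rw [← Finset.sum_mul]
    rcases Nat.eq_zero_or_pos n with rfl | hpos
    · rw [h0]
      simp
    rcases Nat.eq_zero_or_pos n' with rfl | hpos'
    · rw [h0]
      simp
    have h2 := P3_sum_prod hG (p := p) (A := A) (fun _ => (n : ℤ)) (n' : ℤ)
    have h3 := P3_prod (opp := opp) hp hA (n := (n : ℤ)) hpos' hn' (fun _ => (n : ℤ)) (by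
      intro v _
      refine ⟨by exact_mod_cast hpos, by exact_mod_cast hn, ?_⟩
      simp) rfl
    rw [h3] at h2
    simp only [hXX]
    rw [h2]
    simp only [implies_true, if_true]
    ring
  have hnn : 0 ≤ ∑ lam ∈ cols opp p, ‖∑ n ∈ Finset.range p, X lam n * g n‖ ^ 2 :=
    Finset.sum_nonneg fun _ _ => by positivity
  have hfin : ∑ lam ∈ cols opp p, ‖∑ n ∈ Finset.range p, X lam n * g n‖ ^ 2 ≤
      ‖kap A p‖ ^ (vertices opp).length * (2 * ∑ n ∈ Finset.range p, ‖g n‖ ^ 2) := by
    have h4 : ∑ lam ∈ cols opp p, ‖∑ n ∈ Finset.range p, X lam n * g n‖ ^ 2 =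
        ‖((∑ lam ∈ cols opp p, ‖∑ n ∈ Finset.range p, X lam n * g n‖ ^ 2 : ℝ) : ℂ)‖ := by
      rw [Complex.norm_real, Real.norm_of_nonneg hnn]
    rw [h4, hmain]
    refine (norm_sum_le _ _).trans ?_
    refine (Finset.sum_le_sum fun n _ => norm_sum_le _ _).trans ?_
    refine le_trans (le_of_eq ?_) (mul_le_mul_of_nonneg_left (P3_bound g)
      (by positivity : (0 : ℝ) ≤ ‖kap A p‖ ^ (vertices opp).length))
    simp_rw [Finset.mul_sum]
    refine Finset.sum_congr rfl fun n _ => Finset.sum_congr rfl fun n' _ => ?_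
    rw [norm_mul, norm_pow, norm_mul, norm_mul, RCLike.norm_conj]
  simp only [hXX] at hfin
  linarith

end Pool.Agent.AMU.Lim
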