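import Pool.Agent.Lib.AMU.PunC
import Pool.Agent.Lib.AMU.LimW3
import Pool.Agent.Lib.AMU.LimM1

/-!
# Row P4: the Cauchy-Schwarz inequality for the state sums
-/

set_option autoImplicit false

open Filter Topology

namespace Pool.Agent.AMU.Lim

variable {N : ℕ} {opp : ZMod N → ZMod N} (w : List (ZMod N)) (ord : ℕ → ℤ)

private theorem P4_colT_zero (c : ℕ) (e : ℤ) (A : ℂ) (p : ℕ) :
    colT opp w ord c e A p 0 = 0 := by
  unfold colT colComb
  refine Finset.sum_eq_zero fun i _ => ?_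
  show (-1 : ℂ) ^ i * ((c - i).choose i : ℂ) * colG opp w ord (c - 2 * i) e A p 0 = 0
  rw [colG_zero, mul_zero]

private theorem P4_colT_nil (e : ℤ) (A : ℂ) (p : ℕ) (n : ℤ) :
    colT opp (w1 opp) ord1 0 e A p n = colG opp w ord 0 e A p n := by
  unfold colT colComb
  simp [colG_nil (w := w1 opp) (w' := w) (ord := ord1) (ord' := ord) e A p n]

private theorem P4_Z (p : ℕ) (A : ℂ) (lam : ZMod N → ℕ) (c : ℕ) :
    Z opp w ord p A lam c = (-(A ^ (2 : ℤ) - A ^ (-2 : ℤ)) ^ 2 / p) ^ (eulerChar opp / 2) / 2 *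
      colComb c fun m => rawZ opp w ord m p A lam := rfl

/-- Divide the hypothesis by the normalization; multiply by `rawZ m = 0` and sum over `cols`
(`sum_cols_rawZ`); Cauchy-Schwarz; `sum_cols_sq` with `rawZ_w1` (`c` and `c = 0`); cancel
`(2 * |kap| ^ V) ^ 2`. -/
theorem pun_ineq [NeZero N] (hG : Glue opp) {c : ℕ} (hc : Even c) {p : ℕ} (hp : Odd p)
    (hp3 : 3 ≤ p) {A : ℂ} (hA : IsPrimitiveRoot A (2 * p))
    (h : ∀ lam, IsColouring opp p lam →
      ‖Z opp w ord p A lam c‖ ≤ ‖Z opp (w1 opp) ord1 p A lam c‖) :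
    ‖∑ n ∈ Finset.range p, colT opp w ord c (1 - ((canonN opp).card : ℤ)) A p n‖ ^ 2 ≤
      (∑ n ∈ Finset.range p, ‖colT opp (w1 opp) ord1 c 0 A p n‖ ^ 2) *
        ∑ n ∈ Finset.range p, ‖colT opp (w1 opp) ord1 0 0 A p n‖ ^ 2 := by
  have hk := kap_ne hp hp3 hA
  have hD : (A ^ (2 : ℤ) - A ^ (-2 : ℤ)) ≠ 0 := by
    intro h0
    apply hk
    unfold kap
    rw [h0]
    simp
  have hp0 : (p : ℂ) ≠ 0 := by exact_mod_cast (by omega : p ≠ 0)
  have hcst : ((-(A ^ (2 : ℤ) - A ^ (-2 : ℤ)) ^ 2 / p) ^ (eulerChar opp / 2) / 2 : ℂ) ≠ 0 := by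
    refine div_ne_zero (zpow_ne_zero _ (div_ne_zero (neg_ne_zero.2 (pow_ne_zero _ hD)) hp0)) ?_
    norm_num
  have hR : ∀ lam ∈ cols opp p, ‖colComb c fun m => rawZ opp w ord m p A lam‖ ≤
      ‖colComb c fun m => rawZ opp (w1 opp) ord1 m p A lam‖ := by
    intro lam hlam
    have h1 := h lam ((mem_cols p lam).1 hlam)
    rw [P4_Z, P4_Z, norm_mul, norm_mul] at h1
    exact le_of_mul_le_mul_left h1 (norm_pos_iff.2 hcst)
  -- the sum
  have hsum : ∑ lam ∈ cols opp p, (colComb c fun m => rawZ opp w ord m p A lam) *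
      rawZ opp w ord 0 p A lam = 2 * kap A p ^ (vertices opp).length *
        ∑ n ∈ Finset.range p, colT opp w ord c (1 - ((canonN opp).card : ℤ)) A p n := by
    unfold colT colComb
    simp_rw [Finset.sum_mul]
    rw [Finset.sum_comm, Finset.mul_sum]
    simp_rw [Finset.mul_sum]
    rw [Finset.sum_comm (s := Finset.range p)]
    refine Finset.sum_congr rfl fun i _ => ?_
    have hev : Even (c - 2 * i) := by
      rcases le_or_gt (2 * i) c with h2 | h2
      · exact (Nat.even_sub h2).2 ⟨fun _ => even_two_mul i, fun _ => hc⟩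
      · rw [Nat.sub_eq_zero_of_le h2.le]
        exact Even.zero
    have h3 := sum_cols_rawZ w ord hG hev hp hA
    have h4 : ∀ lam, (-1 : ℂ) ^ i * ((c - i).choose i : ℂ) * rawZ opp w ord (c - 2 * i) p A lam *
        rawZ opp w ord 0 p A lam = (-1 : ℂ) ^ i * ((c - i).choose i : ℂ) *
          (rawZ opp w ord (c - 2 * i) p A lam * rawZ opp w ord 0 p A lam) := fun lam => by ring
    simp_rw [h4]
    rw [← Finset.mul_sum, h3, Finset.mul_sum, Finset.mul_sum]
    refine Finset.sum_congr rfl fun n _ => ?_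
    ring
  -- the squares
  have hw1 : ∀ lam, (colComb c fun m => rawZ opp (w1 opp) ord1 m p A lam) =
      ∑ n ∈ Finset.range p, ((vertices opp).map fun i : ℕ => smat A (lam (i : ZMod N)) n).prod *
        colT opp (w1 opp) ord1 c 0 A p n := by
    intro lam
    unfold colT colComb
    simp_rw [rawZ_w1 hG, Finset.mul_sum]
    rw [Finset.sum_comm]
    refine Finset.sum_congr rfl fun n _ => Finset.sum_congr rfl fun i _ => ?_
    ring
  have hw0 : ∀ lam, rawZ opp w ord 0 p A lam =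
      ∑ n ∈ Finset.range p, ((vertices opp).map fun i : ℕ => smat A (lam (i : ZMod N)) n).prod *
        colT opp (w1 opp) ord1 0 0 A p n := by
    intro lam
    rw [rawZ_nil w ord hG]
    simp_rw [P4_colT_nil w ord]
  have hs1 := sum_cols_sq hG hp hA (fun n : ℕ => colT opp (w1 opp) ord1 c 0 A p n) (by
    show colT opp (w1 opp) ord1 c 0 A p ((0 : ℕ) : ℤ) = 0
    rw [Nat.cast_zero, P4_colT_zero])
  have hs0 := sum_cols_sq hG hp hA (fun n : ℕ => colT opp (w1 opp) ord1 0 0 A p n) (by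
    show colT opp (w1 opp) ord1 0 0 A p ((0 : ℕ) : ℤ) = 0
    rw [Nat.cast_zero, P4_colT_zero])
  simp_rw [← hw1] at hs1
  simp_rw [← hw0] at hs0
  obtain ⟨K, hK⟩ : ∃ K : ℝ, K = 2 * ‖kap A p‖ ^ (vertices opp).length := ⟨_, rfl⟩
  have hKpos : 0 < K := by
    rw [hK]
    have := norm_pos_iff.2 hk
    positivity
  rw [← hK] at hs1 hs0
  obtain ⟨S, hS⟩ : ∃ S : ℂ, S =
    ∑ n ∈ Finset.range p, colT opp w ord c (1 - ((canonN opp).card : ℤ)) A p n := ⟨_, rfl⟩
  rw [← hS] at hsum ⊢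
  have h5 : (K * ‖S‖) ^ 2 ≤ (K * ∑ n ∈ Finset.range p, ‖colT opp (w1 opp) ord1 c 0 A p n‖ ^ 2) *
      (K * ∑ n ∈ Finset.range p, ‖colT opp (w1 opp) ord1 0 0 A p n‖ ^ 2) := by
    have h6 : K * ‖S‖ = ‖∑ lam ∈ cols opp p, (colComb c fun m => rawZ opp w ord m p A lam) *
        rawZ opp w ord 0 p A lam‖ := by
      rw [hsum, norm_mul, norm_mul, norm_pow, hK]
      simp
    rw [h6]
    have h7 : ‖∑ lam ∈ cols opp p, (colComb c fun m => rawZ opp w ord m p A lam) *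
        rawZ opp w ord 0 p A lam‖ ≤ ∑ lam ∈ cols opp p,
          ‖colComb c fun m => rawZ opp (w1 opp) ord1 m p A lam‖ *
            ‖rawZ opp w ord 0 p A lam‖ := by
      refine (norm_sum_le _ _).trans (Finset.sum_le_sum fun lam hlam => ?_)
      rw [norm_mul]
      exact mul_le_mul_of_nonneg_right (hR lam hlam) (norm_nonneg _)
    calc _ ≤ (∑ lam ∈ cols opp p,
          ‖colComb c fun m => rawZ opp (w1 opp) ord1 m p A lam‖ *
            ‖rawZ opp w ord 0 p A lam‖) ^ 2 := pow_le_pow_left₀ (norm_nonneg _) h7 2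
      _ ≤ (∑ lam ∈ cols opp p, ‖colComb c fun m => rawZ opp (w1 opp) ord1 m p A lam‖ ^ 2) *
          ∑ lam ∈ cols opp p, ‖rawZ opp w ord 0 p A lam‖ ^ 2 :=
        Finset.sum_mul_sq_le_sq_mul_sq _ _ _
      _ ≤ _ := mul_le_mul hs1 hs0 (Finset.sum_nonneg fun _ _ => by positivity)
          (le_trans (Finset.sum_nonneg fun _ _ => by positivity) hs1)
  have h8 : (K * ‖S‖) ^ 2 = K ^ 2 * ‖S‖ ^ 2 := by ring
  have h9 : (K * ∑ n ∈ Finset.range p, ‖colT opp (w1 opp) ord1 c 0 A p n‖ ^ 2) *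
      (K * ∑ n ∈ Finset.range p, ‖colT opp (w1 opp) ord1 0 0 A p n‖ ^ 2) =
      K ^ 2 * ((∑ n ∈ Finset.range p, ‖colT opp (w1 opp) ord1 c 0 A p n‖ ^ 2) *
        ∑ n ∈ Finset.range p, ‖colT opp (w1 opp) ord1 0 0 A p n‖ ^ 2) := by ring
  rw [h8, h9] at h5
  exact le_of_mul_le_mul_left h5 (by positivity)

end Pool.Agent.AMU.Lim
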