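import Pool.Agent.Lib.AMU.RecF

/-!
# Section R of the AMU proof: the Chebyshev combination

Row RR9 (helper24).
-/

set_option autoImplicit false

namespace Pool.Agent.AMU.Rec

variable {Γ : Type} [Group Γ] {F : Multiset Γ → ℝ}

/-- The combination for the colour `c`, with an infinite range of summation made finite. -/
private noncomputable def Gc (F : Multiset Γ → ℝ) (γ : Γ) (c : ℕ) (M : Multiset Γ) : ℝ :=
  ∑ i ∈ Finset.range (c + 1), (-1) ^ i * ((c - i).choose i : ℝ) *
    F (Multiset.replicate (c - 2 * i) γ + M)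

omit [Group Γ] in
private theorem Gc_term_zero (F : Multiset Γ → ℝ) (γ : Γ) (c : ℕ) (M : Multiset Γ) {i : ℕ}
    (hi : c < 2 * i) : (-1) ^ i * ((c - i).choose i : ℝ) *
      F (Multiset.replicate (c - 2 * i) γ + M) = 0 := by
  rw [Nat.choose_eq_zero_of_lt (by omega)]
  simp

omit [Group Γ] in
private theorem Gc_eq (F : Multiset Γ → ℝ) (γ : Γ) (c n : ℕ) (M : Multiset Γ)
    (hn : c / 2 < n) : ∑ i ∈ Finset.range n, (-1) ^ i * ((c - i).choose i : ℝ) *
      F (Multiset.replicate (c - 2 * i) γ + M) = Gc F γ c M := by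
  unfold Gc
  have key : ∀ k, c / 2 < k → ∑ i ∈ Finset.range k, (-1) ^ i * ((c - i).choose i : ℝ) *
      F (Multiset.replicate (c - 2 * i) γ + M) =
      ∑ i ∈ Finset.range (c / 2 + 1), (-1) ^ i * ((c - i).choose i : ℝ) *
      F (Multiset.replicate (c - 2 * i) γ + M) := by
    intro k hk
    symm
    refine Finset.sum_subset (Finset.range_subset_range.2 hk) fun i _ hi => ?_
    rw [Finset.mem_range, not_lt] at hi
    exact Gc_term_zero F γ c M (by omega)
  rw [key n hn, key (c + 1) (by omega)]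

omit [Group Γ] in
private theorem Gc_rec (F : Multiset Γ → ℝ) (γ : Γ) (c : ℕ) (M : Multiset Γ) :
    Gc F γ (c + 2) M = Gc F γ (c + 1) (γ ::ₘ M) - Gc F γ c M := by
  rw [← Gc_eq F γ (c + 2) (c + 3) M (by omega), ← Gc_eq F γ (c + 1) (c + 3) _ (by omega),
    ← Gc_eq F γ c (c + 2) M (by omega)]
  rw [Finset.sum_range_succ' _ (c + 2), Finset.sum_range_succ' _ (c + 2)]
  have h1 : ∀ i ∈ Finset.range (c + 2),
      (-1) ^ (i + 1) * ((c + 2 - (i + 1)).choose (i + 1) : ℝ) *
        F (Multiset.replicate (c + 2 - 2 * (i + 1)) γ + M) =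
      (-1) ^ (i + 1) * ((c + 1 - (i + 1)).choose (i + 1) : ℝ) *
        F (Multiset.replicate (c + 1 - 2 * (i + 1)) γ + (γ ::ₘ M)) -
      (-1) ^ i * ((c - i).choose i : ℝ) * F (Multiset.replicate (c - 2 * i) γ + M) := by
    intro i _
    by_cases hi : c < 2 * i
    · rw [Nat.choose_eq_zero_of_lt (show c + 2 - (i + 1) < i + 1 by omega),
        Nat.choose_eq_zero_of_lt (show c + 1 - (i + 1) < i + 1 by omega),
        Nat.choose_eq_zero_of_lt (show c - i < i by omega)]
      simp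
    · have e1 : c + 2 - (i + 1) = (c - i) + 1 := by omega
      have e2 : c + 1 - (i + 1) = c - i := by omega
      have e3 : c + 2 - 2 * (i + 1) = c - 2 * i := by omega
      rw [e1, e2, e3, Nat.choose_succ_succ]
      by_cases hi2 : c = 2 * i
      · rw [Nat.choose_eq_zero_of_lt (show c - i < i + 1 by omega)]
        push_cast
        ring
      · have e4 : Multiset.replicate (c - 2 * i) γ + M =
            Multiset.replicate (c + 1 - 2 * (i + 1)) γ + (γ ::ₘ M) := by
          rw [show c - 2 * i = (c + 1 - 2 * (i + 1)) + 1 by omega, Multiset.replicate_succ,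
            Multiset.cons_add, Multiset.add_cons]
        rw [← e4]
        push_cast
        ring
  rw [Finset.sum_congr rfl h1, Finset.sum_sub_distrib]
  have h2 : F (Multiset.replicate (c + 2 - 2 * 0) γ + M) =
      F (Multiset.replicate (c + 1 - 2 * 0) γ + (γ ::ₘ M)) := by
    rw [show c + 2 - 2 * 0 = (c + 1 - 2 * 0) + 1 by omega, Multiset.replicate_succ,
      Multiset.cons_add, Multiset.add_cons]
  rw [h2]
  simp
  ring

omit [Group Γ] in
private theorem Gc_zero (F : Multiset Γ → ℝ) (γ : Γ) (M : Multiset Γ) : Gc F γ 0 M = F M := by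
  simp [Gc]

omit [Group Γ] in
private theorem Gc_one (F : Multiset Γ → ℝ) (γ : Γ) (M : Multiset Γ) :
    Gc F γ 1 M = F (γ ::ₘ M) := by
  simp [Gc, Finset.sum_range_succ]

private theorem Gc_diff (hF : TraceFun F) (γ : Γ) (c : ℕ) :
    (∀ M, Gc F γ (c + 2) M - Gc F γ c M = F (γ ^ (c + 2) ::ₘ M)) ∧
      ∀ M, Gc F γ (c + 3) M - Gc F γ (c + 1) M = F (γ ^ (c + 3) ::ₘ M) := by
  induction c with
  | zero =>
    have h2 : ∀ M, Gc F γ 2 M = F (γ ::ₘ γ ::ₘ M) - F M := by
      intro M
      rw [Gc_rec, Gc_one, Gc_zero]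
    have h3 : ∀ M, Gc F γ 3 M = F (γ ::ₘ γ ::ₘ γ ::ₘ M) - F (γ ::ₘ M) - F (γ ::ₘ M) := by
      intro M
      rw [Gc_rec, h2, Gc_one]
    have p2 : ∀ M, F (γ ^ 2 ::ₘ M) = F (γ ::ₘ γ ::ₘ M) - 2 * F M := by
      intro M
      have := F_pow_add_two hF γ 0 M
      simp only [zero_add, pow_one, pow_zero, hF.one] at this
      exact this
    refine ⟨fun M => ?_, fun M => ?_⟩
    · rw [Gc_zero, zero_add, h2, p2]; ring
    · have := F_pow_add_two hF γ 1 M
      simp only [zero_add, pow_one] at this ⊢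
      rw [h3, Gc_one, this, p2]
      ring
  | succ c ih =>
    refine ⟨ih.2, fun M => ?_⟩
    have h1 := Gc_rec F γ (c + 2) M
    have h2 := Gc_rec F γ c M
    have h3 := F_pow_add_two hF γ (c + 2) M
    have h4 := ih.1 M
    have h5 := ih.2 (γ ::ₘ M)
    rw [show c + 1 + 3 = c + 2 + 2 by omega, show c + 1 + 1 = c + 2 by omega, h1, h3, h2,
      ← h5, ← h4]
    rw [show c + 2 + 1 = c + 3 by omega, h2]
    ring

theorem cheb (hF : TraceFun F) (γ : Γ) {c : ℕ} (hc : Even c) :
    ∑ i ∈ Finset.range (c / 2 + 1), (-1) ^ i * ((c - i).choose i : ℝ) *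
      F (Multiset.replicate (c - 2 * i) γ) =
    F 0 + ∑ k ∈ Finset.range (c / 2), F {γ ^ (2 * (k + 1))} := by
  have h1 := Gc_eq F γ c (c / 2 + 1) 0 (by omega)
  simp only [add_zero] at h1
  rw [h1]
  obtain ⟨d, rfl⟩ := hc
  rw [show (d + d) / 2 = d by omega, ← two_mul]
  induction d with
  | zero => simp [Gc_zero]
  | succ d ih =>
    have h2 := (Gc_diff hF γ (2 * d)).1 0
    rw [Finset.sum_range_succ, ← add_assoc, ← ih (by
      have := Gc_eq F γ (d + d) ((d + d) / 2 + 1) 0 (by omega)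
      simpa only [add_zero] using this)]
    rw [show 2 * (d + 1) = 2 * d + 2 by ring, ← Multiset.cons_zero, ← h2]
    ring

end Pool.Agent.AMU.Rec
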