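import Pool.Agent.Lib.AMU.RecTr2

/-!
# Section R of the AMU proof: consequences of the trace identity

Row RR3. Recipes:
* `F_inv`: `hF.mul 1 g M` and `hF.one`.
* `F_mul_comm`: `Multiset.cons_swap`, `hF.mul g h M`, `hF.mul h g M`, `F_inv` (`g * h⁻¹` is the
  inverse of `h * g⁻¹`). `F_conj` follows.
* `F_rel`: prove `∀ N, F (M + N) = F (M' + N)` by induction on `Multiset.Rel`.
* `F_pow_succ`: `hF.mul (g ^ (n + 1)) g M`.
* `prod_sg_rel`: induction on `Multiset.Rel`, `TrFun.conj`, `TrFun.inv` (`sg` depends on `T g`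
  only).
-/

set_option autoImplicit false

namespace Pool.Agent.AMU.Rec

variable {Γ : Type} [Group Γ] {T : Γ → ℝ} {F : Multiset Γ → ℝ}

/-- Conjugate up to inversion. -/
def CE (g g' : Γ) : Prop := IsConj g g' ∨ IsConj g⁻¹ g'

theorem F_inv (hF : TraceFun F) (g : Γ) (M : Multiset Γ) : F (g⁻¹ ::ₘ M) = F (g ::ₘ M) := by
  have h1 := hF.mul 1 g M
  rw [hF.one, one_mul, one_mul] at h1
  linarith

theorem F_mul_comm (hF : TraceFun F) (g h : Γ) (M : Multiset Γ) :
    F ((g * h) ::ₘ M) = F ((h * g) ::ₘ M) := by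
  have h1 := hF.mul g h M
  have h2 := hF.mul h g M
  have h3 := F_inv hF (g * h⁻¹) M
  rw [mul_inv_rev, inv_inv] at h3
  rw [Multiset.cons_swap] at h1
  linarith

theorem F_conj (hF : TraceFun F) (k g : Γ) (M : Multiset Γ) :
    F ((k * g * k⁻¹) ::ₘ M) = F (g ::ₘ M) := by
  rw [F_mul_comm hF, ← mul_assoc, inv_mul_cancel, one_mul]

theorem F_pow_add_two (hF : TraceFun F) (g : Γ) (n : ℕ) (M : Multiset Γ) :
    F (g ^ (n + 2) ::ₘ M) = F (g ^ (n + 1) ::ₘ g ::ₘ M) - F (g ^ n ::ₘ M) := by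
  have h1 := hF.mul (g ^ (n + 1)) g M
  rw [← pow_succ, pow_succ g n, mul_inv_cancel_right] at h1
  have e : g ^ n * g = g ^ (n + 1) := (pow_succ g n).symm
  rw [e] at h1
  rw [h1, add_sub_cancel_right]

theorem F_pow_two_mul (hF : TraceFun F) (g : Γ) (k : ℕ) (M : Multiset Γ) :
    F (g ^ (2 * k) ::ₘ M) = F (g ^ k ::ₘ g ^ k ::ₘ M) - 2 * F M := by
  have h1 := hF.mul (g ^ k) (g ^ k) M
  rw [mul_inv_cancel, hF.one, ← pow_add, ← two_mul] at h1
  linarith

theorem CE.refl (g : Γ) : CE g g := Or.inl (IsConj.refl g)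

theorem CE.symm {g g' : Γ} (h : CE g g') : CE g' g := by
  rcases h with h | h
  · exact Or.inl h.symm
  · obtain ⟨c, hc⟩ := isConj_iff.1 h
    refine Or.inr (isConj_iff.2 ⟨c⁻¹, ?_⟩)
    rw [← hc]
    group

theorem CE.trans {g g' g'' : Γ} (h : CE g g') (h' : CE g' g'') : CE g g'' := by
  rcases h with h | h <;> rcases h' with h' | h'
  · exact Or.inl (h.trans h')
  · obtain ⟨c, hc⟩ := isConj_iff.1 h
    obtain ⟨d, hd⟩ := isConj_iff.1 h'
    refine Or.inr (isConj_iff.2 ⟨d * c, ?_⟩)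
    rw [← hd, ← hc]
    group
  · exact Or.inr (h.trans h')
  · obtain ⟨c, hc⟩ := isConj_iff.1 h
    obtain ⟨d, hd⟩ := isConj_iff.1 h'
    refine Or.inl (isConj_iff.2 ⟨d * c, ?_⟩)
    rw [← hd, ← hc]
    group

theorem CE.pow {g g' : Γ} (h : CE g g') (n : ℕ) : CE (g ^ n) (g' ^ n) := by
  rcases h with h | h
  · obtain ⟨c, hc⟩ := isConj_iff.1 h
    exact Or.inl (isConj_iff.2 ⟨c, by rw [← hc, conj_pow]⟩)
  · obtain ⟨c, hc⟩ := isConj_iff.1 h
    exact Or.inr (isConj_iff.2 ⟨c, by rw [← hc, conj_pow, inv_pow]⟩)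

theorem CE.T_eq (hT : TrFun T) {g g' : Γ} (h : CE g g') : T g = T g' := by
  rcases h with h | h
  · obtain ⟨c, hc⟩ := isConj_iff.1 h
    rw [← hc, hT.conj]
  · obtain ⟨c, hc⟩ := isConj_iff.1 h
    rw [← hc, hT.conj, hT.inv]

private theorem RR3_cons (hF : TraceFun F) {a b : Γ} (h : CE a b) (X : Multiset Γ) :
    F (a ::ₘ X) = F (b ::ₘ X) := by
  rcases h with h | h
  · obtain ⟨c, hc⟩ := isConj_iff.1 h
    rw [← hc, F_conj hF]
  · obtain ⟨c, hc⟩ := isConj_iff.1 h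
    rw [← hc, F_conj hF, F_inv hF]

private theorem RR3_rel (hF : TraceFun F) {M M' : Multiset Γ} (h : Multiset.Rel CE M M') :
    ∀ N : Multiset Γ, F (M + N) = F (M' + N) := by
  induction h with
  | zero => intro N; rfl
  | @cons a b as bs hab _ ih =>
    intro N
    rw [Multiset.cons_add, RR3_cons hF hab, Multiset.cons_add, ← Multiset.add_cons, ih,
      Multiset.add_cons]

theorem F_rel (hF : TraceFun F) {M M' : Multiset Γ} (h : Multiset.Rel CE M M') : F M = F M' := by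
  have h1 := RR3_rel hF h 0
  rwa [add_zero, add_zero] at h1

theorem prod_sg_rel (hT : TrFun T) {M M' : Multiset Γ} (h : Multiset.Rel CE M M') :
    (M.map (sg T)).prod = (M'.map (sg T)).prod := by
  induction h with
  | zero => rfl
  | @cons a b as bs hab _ ih =>
    rw [Multiset.map_cons, Multiset.map_cons, Multiset.prod_cons, Multiset.prod_cons, ih]
    congr 1
    unfold sg
    rw [hab.T_eq hT]

end Pool.Agent.AMU.Rec
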