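import Mathlib

/-!
# Section R of the AMU proof: Laurent polynomials

Row RR6 (pure Mathlib). Recipes:
* `uu_zero`, `uu_add_two`: `single_mul_single`, `Pi.single_add`.
* `ev_monomial`: `(z + z⁻¹) ^ m = ∑ over d in Icc (-m) m, [m + d even] choose m ((m + d) / 2) z ^ d`
  (induction on `m` or `add_pow` and reindexing), `Finset.prod_univ_sum`, the product of the
  `z_j ^ (d j)` is the monomial of `d`; linearity.
* `ev_nonneg`: the elements with nonnegative coefficients form a subsemiring; `ev` is `≥ 0` on them.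
* `ev_sq`: induction on `P`; `u ^ 2 = z ^ (2 n) + z ^ (- 2 n) + 2`, so
  `ev (a ^ 2 u ^ 2) ≥ 2 ev (a ^ 2)`.
-/

set_option autoImplicit false

namespace Pool.Agent.AMU.Rec

variable {r : ℕ}

/-- The Laurent polynomials. -/
abbrev LA (r : ℕ) : Type := AddMonoidAlgebra ℝ (Fin r → ℤ)

/-- The power `z_j ^ n`. -/
noncomputable def zz (j : Fin r) (n : ℤ) : LA r := AddMonoidAlgebra.single (Pi.single j n) 1

/-- `z_j ^ n + z_j ^ (-n)`. -/
noncomputable def uu (j : Fin r) (n : ℕ) : LA r := zz j n + zz j (-n)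

/-- The linear functional with given values on the monomials. -/
noncomputable def ev (Λ : (Fin r → ℤ) → ℝ) : LA r →ₗ[ℝ] ℝ where
  toFun p := p.coeff.sum fun d a => a * Λ d
  map_add' p q := by
    rw [AddMonoidAlgebra.coeff_add]
    exact Finsupp.sum_add_index' (fun d => by simp) (fun d a b => by ring)
  map_smul' c p := by
    rw [AddMonoidAlgebra.coeff_smul, Finsupp.sum_smul_index' (fun d => by simp)]
    simp only [Finsupp.sum, smul_eq_mul, RingHom.id_apply, Finset.mul_sum, mul_assoc]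

theorem ev_single (Λ : (Fin r → ℤ) → ℝ) (d : Fin r → ℤ) (a : ℝ) :
    ev Λ (AddMonoidAlgebra.single d a) = a * Λ d := by
  show (AddMonoidAlgebra.single d a).coeff.sum (fun d a => a * Λ d) = a * Λ d
  rw [AddMonoidAlgebra.coeff_single, Finsupp.sum_single_index (by simp)]

theorem ev_one (Λ : (Fin r → ℤ) → ℝ) : ev Λ 1 = Λ 0 := by
  rw [AddMonoidAlgebra.one_def, ev_single, one_mul]

private theorem RR6_zz_zero (j : Fin r) : zz j 0 = 1 := by
  unfold zz
  rw [Pi.single_zero, AddMonoidAlgebra.one_def]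

private theorem RR6_zz_mul (j : Fin r) (a b : ℤ) : zz j a * zz j b = zz j (a + b) := by
  unfold zz
  rw [AddMonoidAlgebra.single_mul_single, one_mul, ← Pi.single_add]

private theorem RR6_zz_pow (j : Fin r) (a : ℤ) (k : ℕ) : zz j a ^ k = zz j (k * a) := by
  induction k with
  | zero => rw [pow_zero, Nat.cast_zero, zero_mul, RR6_zz_zero]
  | succ k ih =>
    rw [pow_succ, ih, RR6_zz_mul]
    congr 1
    push_cast
    ring

theorem uu_zero (j : Fin r) : uu j 0 = 2 := by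
  unfold uu
  rw [Nat.cast_zero, neg_zero, RR6_zz_zero]
  norm_num

theorem uu_add_two (j : Fin r) (n : ℕ) : uu j (n + 2) = uu j (n + 1) * uu j 1 - uu j n := by
  unfold uu
  rw [add_mul, mul_add, mul_add, RR6_zz_mul, RR6_zz_mul, RR6_zz_mul, RR6_zz_mul]
  have h1 : ((n + 1 : ℕ) : ℤ) + ((1 : ℕ) : ℤ) = ((n + 2 : ℕ) : ℤ) := by push_cast; ring
  have h2 : ((n + 1 : ℕ) : ℤ) + -((1 : ℕ) : ℤ) = (n : ℤ) := by push_cast; ring
  have h3 : -((n + 1 : ℕ) : ℤ) + ((1 : ℕ) : ℤ) = -(n : ℤ) := by push_cast; ring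
  have h4 : -((n + 1 : ℕ) : ℤ) + -((1 : ℕ) : ℤ) = -((n + 2 : ℕ) : ℤ) := by push_cast; ring
  rw [h1, h2, h3, h4]
  ring

private theorem RR6_pow (j : Fin r) (m : ℕ) : uu j 1 ^ m =
    ∑ d ∈ Finset.Icc (-(m : ℤ)) m, AddMonoidAlgebra.single (Pi.single j d : Fin r → ℤ)
      (if Even ((m : ℤ) + d) then (m.choose (((m : ℤ) + d) / 2).toNat : ℝ) else 0) := by
  have h1 : ∑ d ∈ Finset.Icc (-(m : ℤ)) m, AddMonoidAlgebra.single (Pi.single j d : Fin r → ℤ)
      (if Even ((m : ℤ) + d) then (m.choose (((m : ℤ) + d) / 2).toNat : ℝ) else 0) =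
      ∑ d ∈ (Finset.Icc (-(m : ℤ)) m).filter (fun d => Even ((m : ℤ) + d)),
        AddMonoidAlgebra.single (Pi.single j d : Fin r → ℤ)
          (m.choose (((m : ℤ) + d) / 2).toNat : ℝ) := by
    rw [Finset.sum_filter]
    refine Finset.sum_congr rfl fun d _ => ?_
    split_ifs
    · rfl
    · exact AddMonoidAlgebra.single_zero _
  rw [h1]
  unfold uu
  rw [add_pow]
  refine Finset.sum_nbij' (fun k : ℕ => 2 * (k : ℤ) - m) (fun d => (((m : ℤ) + d) / 2).toNat)
    ?_ ?_ ?_ ?_ ?_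
  · intro k hk
    rw [Finset.mem_range] at hk
    rw [Finset.mem_filter, Finset.mem_Icc]
    refine ⟨⟨by omega, by omega⟩, ⟨k, by ring⟩⟩
  · intro d hd
    rw [Finset.mem_filter, Finset.mem_Icc] at hd
    rw [Finset.mem_range]
    omega
  · intro k _
    show (((m : ℤ) + (2 * (k : ℤ) - m)) / 2).toNat = k
    omega
  · intro d hd
    rw [Finset.mem_filter, Finset.mem_Icc] at hd
    obtain ⟨⟨h2, h3⟩, c, hc⟩ := hd
    show 2 * ((((m : ℤ) + d) / 2).toNat : ℤ) - m = d
    omega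
  · intro k hk
    rw [Finset.mem_range] at hk
    have h2 : (((m : ℤ) + (2 * (k : ℤ) - m)) / 2).toNat = k := by omega
    show zz j ((1 : ℕ) : ℤ) ^ k * zz j (-((1 : ℕ) : ℤ)) ^ (m - k) * (m.choose k : LA r) =
      AddMonoidAlgebra.single (Pi.single j (2 * (k : ℤ) - m) : Fin r → ℤ)
        (m.choose (((m : ℤ) + (2 * (k : ℤ) - m)) / 2).toNat : ℝ)
    rw [h2, RR6_zz_pow, RR6_zz_pow, RR6_zz_mul]
    have h3 : (k : ℤ) * ((1 : ℕ) : ℤ) + ((m - k : ℕ) : ℤ) * -((1 : ℕ) : ℤ) = 2 * (k : ℤ) - m := by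
      push_cast [Nat.cast_sub (by omega : k ≤ m)]
      ring
    rw [h3]
    have h4 : (m.choose k : LA r) = AddMonoidAlgebra.single 0 (m.choose k : ℝ) := by
      generalize m.choose k = c
      induction c with
      | zero => simp
      | succ c ih =>
        rw [Nat.cast_succ, Nat.cast_succ, ih, AddMonoidAlgebra.one_def,
          ← AddMonoidAlgebra.single_add]
    rw [h4]
    unfold zz
    rw [AddMonoidAlgebra.single_mul_single, add_zero, one_mul]

private theorem RR6_prod (s : Finset (Fin r)) (d : Fin r → ℤ) (c : Fin r → ℝ) :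
    ∏ j ∈ s, AddMonoidAlgebra.single (Pi.single j (d j) : Fin r → ℤ) (c j) =
      (AddMonoidAlgebra.single (∑ j ∈ s, (Pi.single j (d j) : Fin r → ℤ)) (∏ j ∈ s, c j) :
        LA r) := by
  classical
  induction s using Finset.induction_on with
  | empty =>
    rw [Finset.prod_empty, Finset.sum_empty, Finset.prod_empty, AddMonoidAlgebra.one_def]
  | insert j s hj ih =>
    rw [Finset.prod_insert hj, Finset.sum_insert hj, Finset.prod_insert hj, ih,
      AddMonoidAlgebra.single_mul_single]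

theorem ev_monomial (Λ : (Fin r → ℤ) → ℝ) (m : Fin r → ℕ) :
    ev Λ (∏ j, uu j 1 ^ m j) =
      ∑ d ∈ Fintype.piFinset (fun j => Finset.Icc (-(m j : ℤ)) (m j)),
        (∏ j, if Even ((m j : ℤ) + d j) then ((m j).choose (((m j : ℤ) + d j) / 2).toNat : ℝ)
          else 0) * Λ d := by
  rw [Finset.prod_congr rfl fun j _ => RR6_pow j (m j), Finset.prod_univ_sum, map_sum]
  refine Finset.sum_congr rfl fun d _ => ?_
  rw [RR6_prod, ev_single, Finset.univ_sum_single]

/-- The positive monomials. -/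
private noncomputable def RR6_M (r : ℕ) : Submonoid (LA r) where
  carrier := {x | ∃ (d : Fin r → ℤ) (a : ℝ), 0 ≤ a ∧ x = AddMonoidAlgebra.single d a}
  one_mem' := ⟨0, 1, zero_le_one, AddMonoidAlgebra.one_def⟩
  mul_mem' := by
    rintro x y ⟨d, a, ha, rfl⟩ ⟨e, b, hb, rfl⟩
    exact ⟨d + e, a * b, mul_nonneg ha hb, AddMonoidAlgebra.single_mul_single _ _ _ _⟩

private theorem RR6_uu_mem (j : Fin r) (n : ℕ) : uu j n ∈ Subsemiring.closure (RR6_M r : Set (LA r)) :=
  add_mem (Subsemiring.subset_closure ⟨_, 1, zero_le_one, rfl⟩)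
    (Subsemiring.subset_closure ⟨_, 1, zero_le_one, rfl⟩)

private theorem RR6_nonneg {Λ : (Fin r → ℤ) → ℝ} (hΛ : ∀ d, 0 ≤ Λ d) {x : LA r}
    (hx : x ∈ Subsemiring.closure (RR6_M r : Set (LA r))) : 0 ≤ ev Λ x := by
  rw [Subsemiring.mem_closure_iff, Submonoid.closure_eq] at hx
  induction hx using AddSubmonoid.closure_induction with
  | mem x hx =>
    obtain ⟨d, a, ha, rfl⟩ := hx
    rw [ev_single]
    exact mul_nonneg ha (hΛ d)
  | zero => rw [map_zero]
  | add x y _ _ h1 h2 =>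
    rw [map_add]
    exact add_nonneg h1 h2

private theorem RR6_prod_mem (P : Multiset (Fin r × ℕ)) :
    (P.map fun p => uu p.1 p.2).prod ∈ Subsemiring.closure (RR6_M r : Set (LA r)) := by
  refine multiset_prod_mem _ fun x hx => ?_
  obtain ⟨p, _, rfl⟩ := Multiset.mem_map.1 hx
  exact RR6_uu_mem _ _

theorem ev_nonneg {Λ : (Fin r → ℤ) → ℝ} (hΛ : ∀ d, 0 ≤ Λ d) (P : Multiset (Fin r × ℕ)) :
    0 ≤ ev Λ ((P.map fun p => uu p.1 p.2).prod) :=
  RR6_nonneg hΛ (RR6_prod_mem P)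

theorem ev_sq {Λ : (Fin r → ℤ) → ℝ} (hΛ : ∀ d, 0 ≤ Λ d) (h0 : 1 ≤ Λ 0)
    (P : Multiset (Fin r × ℕ)) :
    2 ^ P.card ≤ ev Λ ((P.map fun p => uu p.1 p.2).prod * (P.map fun p => uu p.1 p.2).prod) := by
  induction P using Multiset.induction_on with
  | empty =>
    rw [Multiset.map_zero, Multiset.prod_zero, mul_one, ev_one, Multiset.card_zero, pow_zero]
    exact h0
  | cons p P ih =>
    rw [Multiset.map_cons, Multiset.prod_cons, Multiset.card_cons, pow_succ]
    have hm := RR6_prod_mem (r := r) P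
    set a := (P.map fun p => uu p.1 p.2).prod with ha
    have h1 : uu p.1 p.2 * a * (uu p.1 p.2 * a) =
        zz p.1 (p.2 + p.2) * (a * a) + zz p.1 (-p.2 + -p.2) * (a * a) + (a * a + a * a) := by
      rw [← RR6_zz_mul, ← RR6_zz_mul]
      have h2 : zz p.1 (p.2 : ℤ) * zz p.1 (-(p.2 : ℤ)) = 1 := by
        rw [RR6_zz_mul, add_neg_cancel, RR6_zz_zero]
      unfold uu
      linear_combination (2 * (a * a)) * h2
    rw [h1, map_add, map_add, map_add]
    have h3 : 0 ≤ ev Λ (zz p.1 (p.2 + p.2) * (a * a)) := RR6_nonneg hΛ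
      (mul_mem (Subsemiring.subset_closure ⟨_, 1, zero_le_one, rfl⟩) (mul_mem hm hm))
    have h4 : 0 ≤ ev Λ (zz p.1 (-p.2 + -p.2) * (a * a)) := RR6_nonneg hΛ
      (mul_mem (Subsemiring.subset_closure ⟨_, 1, zero_le_one, rfl⟩) (mul_mem hm hm))
    linarith

end Pool.Agent.AMU.Rec
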