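import Pool.Agent.Lib.AMU.RecSelf
import Pool.Agent.Lib.AMU.RecF

/-!
# Section R of the AMU proof: terminal multisets and roots

Row RR5. Recipes:
* `exists_root`: the values `|T l|`, `l ^ n = g` for some `n ≥ 1`, are `≤ |T g|` (`abs_pow_lt`), hence
  in a finite set; take `l` with `|T l|` minimal (or induct on the number of the values below). If
  `l = δ ^ k`, `k ≥ 2`, then `|T δ| < |T l|` and `g = δ ^ (k n)`.
* `terminal_roots`: choose roots `l_g ^ (n_g) = g` for `g ∈ M`; `CE` is an equivalence relation; take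
  one representative of every class of the roots of the members of `M` (a representative which is
  itself such a root; e.g. induct on `M`, or use the image of the finite set of roots in the quotient
  and `Finset.equivFin`). `CE.pow` gives the relation. The inequality for the commutators:
  `phi g (k g' k⁻¹) ≤ 0` and two applications of `phi_pow` (with `phi_symm`) for `g = l ^ n`,
  `k g' k⁻¹ = (k l' k⁻¹) ^ n'`.
-/

set_option autoImplicit false

namespace Pool.Agent.AMU.Rec

variable {Γ : Type} [Group Γ] {T : Γ → ℝ}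

/-- No crossings. -/
def Terminal (T : Γ → ℝ) (M : Multiset Γ) : Prop :=
  ∀ g ∈ M, ∀ g' ∈ M, ∀ k : Γ, phi T g (k * g' * k⁻¹) ≤ 0

private theorem conj_inv' {a b : Γ} (h : IsConj a b) : IsConj a⁻¹ b⁻¹ := by
  rw [isConj_iff] at h ⊢
  obtain ⟨c, hc⟩ := h
  exact ⟨c, by rw [← hc]; group⟩

private theorem not_CE {a b : Γ} (h : ¬ CE a b) : ¬ IsConj a b ∧ ¬ IsConj a b⁻¹ := by
  refine ⟨fun h' => h (Or.inl h'), fun h' => h (Or.inr ?_)⟩
  have := conj_inv' h'
  rwa [inv_inv] at this

theorem exists_root (hT : TrFun T) {g : Γ} (hg : g ≠ 1) :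
    ∃ (l : Γ) (n : ℕ), 1 ≤ n ∧ l ≠ 1 ∧ ¬ IsProperPower l ∧ g = l ^ n := by
  classical
  have key : ∀ (k : ℕ) (g : Γ), g ≠ 1 → (hT.disc |T g|).toFinset.card ≤ k →
      ∃ (l : Γ) (n : ℕ), 1 ≤ n ∧ l ≠ 1 ∧ ¬ IsProperPower l ∧ g = l ^ n := by
    intro k
    induction k with
    | zero =>
      intro g hg hk
      exfalso
      rw [Nat.le_zero, Finset.card_eq_zero] at hk
      have : |T g| ∈ (hT.disc |T g|).toFinset := by
        rw [Set.Finite.mem_toFinset]
        exact ⟨le_rfl, g, rfl⟩
      rw [hk] at this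
      exact absurd this (Finset.notMem_empty _)
    | succ k ih =>
      intro g hg hk
      by_cases hp : IsProperPower g
      · obtain ⟨δ, m, hm, rfl⟩ := hp
        have hδ : δ ≠ 1 := by
          rintro rfl
          exact hg (one_pow m)
        have hlt := abs_pow_lt hT hδ hm
        have hcard : (hT.disc |T δ|).toFinset.card < (hT.disc |T (δ ^ m)|).toFinset.card := by
          apply Finset.card_lt_card
          rw [Finset.ssubset_iff_of_subset]
          · refine ⟨|T (δ ^ m)|, ?_, ?_⟩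
            · rw [Set.Finite.mem_toFinset]
              exact ⟨le_rfl, _, rfl⟩
            · rw [Set.Finite.mem_toFinset]
              rintro ⟨h1, _⟩
              exact absurd h1 (not_le.2 hlt)
          · intro t ht
            rw [Set.Finite.mem_toFinset] at ht ⊢
            exact ⟨ht.1.trans hlt.le, ht.2⟩
        obtain ⟨l, n, hn, hl, hlp, hδl⟩ := ih δ hδ (by omega)
        refine ⟨l, n * m, ?_, hl, hlp, by rw [pow_mul, ← hδl]⟩
        exact Nat.mul_pos hn (by omega)
      · exact ⟨g, 1, le_rfl, hg, hp, (pow_one g).symm⟩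
  exact key _ g hg le_rfl

private theorem roots_aux (hT : TrFun T) (M : Multiset Γ) (hM : ∀ g ∈ M, g ≠ 1) :
    ∃ (r : ℕ) (l : Fin r → Γ) (P : Multiset (Fin r × ℕ)),
      (∀ j, l j ≠ 1) ∧ (∀ j, ¬ IsProperPower (l j)) ∧
      (∀ j, ∃ n, 1 ≤ n ∧ l j ^ n ∈ M) ∧
      (∀ i j, i ≠ j → ¬ CE (l i) (l j)) ∧
      (∀ p ∈ P, 1 ≤ p.2) ∧ Multiset.Rel CE M (P.map fun p => l p.1 ^ p.2) := by
  induction M using Multiset.induction_on with
  | empty =>
    refine ⟨0, Fin.elim0, 0, fun j => j.elim0, fun j => j.elim0, fun j => j.elim0,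
      fun i => i.elim0, fun p hp => absurd hp (Multiset.notMem_zero p), ?_⟩
    rw [Multiset.map_zero]
    exact Multiset.Rel.zero
  | cons g M ih =>
    obtain ⟨r, l, P, h1, h2, h3, h4, h5, h6⟩ := ih fun g' hg' => hM g' (Multiset.mem_cons_of_mem hg')
    obtain ⟨d, n, hn, hd, hdp, hgd⟩ := exists_root hT (hM g (Multiset.mem_cons_self g M))
    by_cases hc : ∃ j, CE d (l j)
    · obtain ⟨j, hj⟩ := hc
      refine ⟨r, l, (j, n) ::ₘ P, h1, h2, fun i => ?_, h4, ?_, ?_⟩
      · obtain ⟨m, hm, hmM⟩ := h3 i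
        exact ⟨m, hm, Multiset.mem_cons_of_mem hmM⟩
      · intro p hp
        rw [Multiset.mem_cons] at hp
        rcases hp with rfl | hp
        · exact hn
        · exact h5 p hp
      · rw [Multiset.map_cons]
        refine Multiset.Rel.cons ?_ h6
        rw [hgd]
        exact hj.pow n
    · push Not at hc
      refine ⟨r + 1, Fin.cons d l, (0, n) ::ₘ P.map (fun p => (p.1.succ, p.2)), ?_, ?_, ?_, ?_, ?_,
        ?_⟩
      · refine Fin.cases ?_ fun j => ?_
        · rwa [Fin.cons_zero]
        · rw [Fin.cons_succ]; exact h1 j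
      · refine Fin.cases ?_ fun j => ?_
        · rwa [Fin.cons_zero]
        · rw [Fin.cons_succ]; exact h2 j
      · refine Fin.cases ?_ fun j => ?_
        · refine ⟨n, hn, ?_⟩
          rw [Fin.cons_zero, ← hgd]
          exact Multiset.mem_cons_self g M
        · obtain ⟨m, hm, hmM⟩ := h3 j
          refine ⟨m, hm, ?_⟩
          rw [Fin.cons_succ]
          exact Multiset.mem_cons_of_mem hmM
      · refine Fin.cases ?_ fun i => ?_
        · refine Fin.cases ?_ fun j => ?_
          · intro h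
            exact absurd rfl h
          · intro _
            rw [Fin.cons_zero, Fin.cons_succ]
            exact hc j
        · refine Fin.cases ?_ fun j => ?_
          · intro _
            rw [Fin.cons_zero, Fin.cons_succ]
            exact fun h => hc i h.symm
          · intro h
            rw [Fin.cons_succ, Fin.cons_succ]
            exact h4 i j fun he => h (by rw [he])
      · intro p hp
        rw [Multiset.mem_cons, Multiset.mem_map] at hp
        rcases hp with rfl | ⟨q, hq, rfl⟩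
        · exact hn
        · exact h5 q hq
      · rw [Multiset.map_cons, Multiset.map_map]
        refine Multiset.Rel.cons ?_ ?_
        · rw [Fin.cons_zero, ← hgd]
          exact CE.refl g
        · simpa only [Function.comp_def, Fin.cons_succ] using h6

theorem terminal_roots (hT : TrFun T) (M : Multiset Γ) (hM : ∀ g ∈ M, g ≠ 1)
    (ht : Terminal T M) :
    ∃ (r : ℕ) (l : Fin r → Γ) (P : Multiset (Fin r × ℕ)),
      (∀ j, l j ≠ 1) ∧ (∀ j, ¬ IsProperPower (l j)) ∧
      (∀ i j k, 2 ≤ T (l i * (k * l j * k⁻¹) * (l i)⁻¹ * (k * l j * k⁻¹)⁻¹)) ∧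
      (∀ i j, i ≠ j → ¬ IsConj (l i) (l j) ∧ ¬ IsConj (l i) (l j)⁻¹) ∧
      (∀ p ∈ P, 1 ≤ p.2) ∧ Multiset.Rel CE M (P.map fun p => l p.1 ^ p.2) := by
  obtain ⟨r, l, P, h1, h2, h3, h4, h5, h6⟩ := roots_aux hT M hM
  refine ⟨r, l, P, h1, h2, ?_, fun i j hij => not_CE (h4 i j hij), h5, h6⟩
  intro i j k
  obtain ⟨n, hn, hnM⟩ := h3 i
  obtain ⟨m, hm, hmM⟩ := h3 j
  have h := ht _ hnM _ hmM k
  obtain ⟨u, hu, hu'⟩ := phi_pow hT (h1 i) hn
  have hk : k * l j * k⁻¹ ≠ 1 := by
    intro he
    apply h1 j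
    rw [mul_inv_eq_one] at he
    exact mul_left_cancel (a := k) (by rw [he, mul_one])
  obtain ⟨v, hv, hv'⟩ := phi_pow hT hk hm
  rw [hu', ← conj_pow, phi_symm hT, hv', phi_symm hT] at h
  have h7 : phi T (l i) (k * l j * k⁻¹) ≤ 0 := by
    by_contra hcon
    push Not at hcon
    have : 0 < u ^ 2 * (v ^ 2 * phi T (l i) (k * l j * k⁻¹)) := by positivity
    linarith
  unfold phi at h7
  linarith

end Pool.Agent.AMU.Rec
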