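import Pool.Agent.Lib.AMU.RecTr

/-!
# Section R of the AMU proof: a primitive element without self-crossings is simple

Row RR8. Recipe: `H.good` with `r = 1`, `l = fun _ => γ` gives `w = w 0` and `pos`. Put
`ord k = 2 * pos 0 k` for `k < w.length`, `ord k = 2 * k + 1` otherwise (injective by
`GoodWords.inj`). The map `f (a, b) = (a, (2 b, 0))` from `ℤ ×ₗ ℤ` to `ℤ ×ₗ ℤ ×ₗ ℤ` is strictly
monotone and `ptKey opp w ord (k, 0, b) = f (mKey opp w pos (0, k, b))` for `k < w.length`, so the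
condition `Noncrossing` is `GoodWords.noncross` (`StrictMono.monotone.map_min`, `StrictMono.lt_iff_lt`).
The members of `chords w 1` are `((k, 0, true), ((k + 1) % w.length, 0, false))`, `k < w.length`.
-/

set_option autoImplicit false

namespace Pool.Agent.AMU.Rec

variable {Γ : Type} [Group Γ]

private def RR8_f (x : ℤ ×ₗ ℤ) : ℤ ×ₗ ℤ ×ₗ ℤ :=
  toLex ((ofLex x).1, toLex (2 * (ofLex x).2, (0 : ℤ)))

private theorem RR8_f_mono : StrictMono RR8_f := by
  intro x y h
  unfold RR8_f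
  rw [Prod.Lex.lt_iff] at h
  rw [Prod.Lex.toLex_lt_toLex]
  rcases h with h | ⟨h1, h2⟩
  · exact Or.inl h
  · refine Or.inr ⟨h1, ?_⟩
    rw [Prod.Lex.toLex_lt_toLex]
    left
    show 2 * (ofLex x).2 < 2 * (ofLex y).2
    omega

private theorem RR8_key {N : ℕ} (opp : ZMod N → ZMod N) (w : Fin 1 → List (ZMod N))
    (pos : Fin 1 → ℕ → ℤ) (ord : ℕ → ℤ) (k : ℕ) (b : Bool) (h : ord k = 2 * pos 0 k) :
    ptKey opp (w 0) ord (k, 0, b) = RR8_f (mKey opp w pos (0, k, b)) := by
  have hs : ptSide opp (w 0) (k, 0, b) = mSide opp w (0, k, b) := rfl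
  unfold ptKey RR8_f mKey
  rw [hs]
  dsimp only [ofLex_toLex]
  rw [h]
  congr 2
  congr 1
  ext1
  · dsimp only
    split_ifs
    · rfl
    · ring
  · dsimp only
    split_ifs <;> simp

private theorem RR8_mem {N : ℕ} (w : List (ZMod N)) {c : Pt × Pt} (hc : c ∈ chords w 1) :
    ∃ k < w.length, c = ((k, 0, true), ((k + 1) % w.length, 0, false)) := by
  unfold chords at hc
  rw [List.mem_flatMap] at hc
  obtain ⟨k, hk, hc⟩ := hc
  rw [List.mem_reverse, List.mem_range] at hk
  rw [List.mem_map] at hc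
  obtain ⟨u, hu, rfl⟩ := hc
  rw [List.mem_range, Nat.lt_one_iff] at hu
  subst hu
  exact ⟨k, hk, rfl⟩

theorem isSimple_of_good {N : ℕ} {opp : ZMod N → ZMod N} {s : ZMod N → Γ} {closed : Prop}
    (H : HypModel opp s closed) {γ : Γ} (h1 : γ ≠ 1) (hp : ¬ IsProperPower γ)
    (ht : ∀ k, phi (fun g => (H.hol g).1.trace) γ (k * γ * k⁻¹) ≤ 0) :
    IsSimple opp s γ := by
  obtain ⟨w, pos, hg, hc, -⟩ := H.good 1 (fun _ => γ) (fun _ => h1) (fun _ => hp)
    (fun _ _ k => by
      have := ht k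
      unfold phi at this
      linarith)
    (fun i j hij => absurd (Subsingleton.elim i j) hij)
  refine ⟨w 0, hg.ne 0, hc 0,
    fun k => if k < (w 0).length then 2 * pos 0 k else 2 * (k : ℤ) + 1, ?_, ?_⟩
  · intro k k' h
    dsimp only at h
    split_ifs at h with h2 h3 h3
    · exact (hg.inj 0 k 0 k' h2 h3 (by omega)).2
    · omega
    · omega
    · omega
  · have hlen : 0 < (w 0).length := List.length_pos_iff.2 (hg.ne 0)
    intro c hc' d hd'
    obtain ⟨k, hk, rfl⟩ := RR8_mem _ hc'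
    obtain ⟨k', hk', rfl⟩ := RR8_mem _ hd'
    have hm : ∀ j, (j + 1) % (w 0).length < (w 0).length := fun j => Nat.mod_lt _ hlen
    dsimp only
    rw [RR8_key opp w pos _ k true (if_pos hk), RR8_key opp w pos _ k' true (if_pos hk'),
      RR8_key opp w pos _ _ false (if_pos (hm k)), RR8_key opp w pos _ _ false (if_pos (hm k')),
      ← RR8_f_mono.monotone.map_min, ← RR8_f_mono.monotone.map_min,
      ← RR8_f_mono.monotone.map_max, ← RR8_f_mono.monotone.map_max,
      RR8_f_mono.lt_iff_lt, RR8_f_mono.lt_iff_lt, RR8_f_mono.lt_iff_lt]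
    exact hg.noncross 0 k 0 k' hk hk'

end Pool.Agent.AMU.Rec
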