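import Pool.Agent.Lib.AMU.Iface

/-!
# Section R of the AMU proof: signs

Row RR7a (helper24).
-/

set_option autoImplicit false

namespace Pool.Agent.AMU.Rec

theorem wordSign_cases {N : ℕ} (opp : ZMod N → ZMod N) (w : List (ZMod N)) :
    wordSign opp w = 1 ∨ wordSign opp w = -1 := by
  unfold wordSign
  refine Finset.prod_induction _ (fun x : ℤ => x = 1 ∨ x = -1) ?_ (Or.inl rfl) ?_
  · rintro a b (rfl | rfl) (rfl | rfl) <;> simp
  · intro k _
    split_ifs <;> simp

private theorem prod_map_eq {N : ℕ} [NeZero N] (θ : ZMod N → ℤ) (w : List (ZMod N)) :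
    (w.map θ).prod = ∏ i : ZMod N, θ i ^ w.count i := by
  induction w with
  | nil => simp
  | cons a w ih =>
    rw [List.map_cons, List.prod_cons, ih]
    have h1 : ∀ i, θ i ^ (a :: w).count i = (if i = a then θ i else 1) * θ i ^ w.count i := by
      intro i
      rw [List.count_cons]
      by_cases h : i = a
      · subst h; simp [pow_succ, mul_comm]
      · have : (a == i) = false := by simpa using Ne.symm h
        simp [h, this]
    simp_rw [h1, Finset.prod_mul_distrib]
    rw [Finset.prod_ite_eq' Finset.univ a θ]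
    simp

theorem prod_theta_even {N : ℕ} [NeZero N] (opp : ZMod N → ZMod N) (hopp : ∀ i, opp (opp i) = i)
    (hfix : ∀ i, opp i ≠ i) (θ : ZMod N → ℤ) (hθ : ∀ i, θ (opp i) = θ i ∧ (θ i = 1 ∨ θ i = -1))
    {r : ℕ} (w : Fin r → List (ZMod N)) (m : Fin r → ℕ)
    (he : ∀ i : ZMod N, Even (∑ j, m j * ((w j).count i + (w j).count (opp i)))) :
    ∏ j, ((w j).map θ).prod ^ m j = 1 := by
  have h1 : ∏ j, ((w j).map θ).prod ^ m j = ∏ i : ZMod N, θ i ^ (∑ j, m j * (w j).count i) := by
    simp_rw [prod_map_eq, ← Finset.prod_pow]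
    rw [Finset.prod_comm]
    refine Finset.prod_congr rfl fun i _ => ?_
    rw [← Finset.prod_pow_eq_pow_sum]
    refine Finset.prod_congr rfl fun j _ => ?_
    rw [← pow_mul, mul_comm]
  rw [h1]
  refine Finset.prod_involution (fun i _ => opp i) ?_ ?_ ?_ ?_
  · intro i _
    rw [(hθ i).1, ← pow_add, ← Finset.sum_add_distrib]
    have h2 : ∑ j, (m j * (w j).count i + m j * (w j).count (opp i)) =
        ∑ j, m j * ((w j).count i + (w j).count (opp i)) :=
      Finset.sum_congr rfl fun j _ => by ring
    rw [h2]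
    rcases (hθ i).2 with h | h
    · rw [h, one_pow]
    · rw [h]; exact (he i).neg_one_pow
  · intro i _ _
    exact hfix i
  · intro i _
    exact Finset.mem_univ _
  · intro i _
    exact hopp i

end Pool.Agent.AMU.Rec
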