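import Pool.Agent.Lib.AMU.RecF
import Pool.Agent.Lib.AMU.RecLaurent
import Pool.Agent.Lib.AMU.RecTheta

/-!
# Section R of the AMU proof: the limit for terminal multisets

Row RR7b.

Recipe for `terminal_limit`: `H.good` gives words `w j`, positions and `θ`; `TermEval` gives `Λ`.
`sg T (l j) = wordSign (w j) * (∏ θ)` since both are signs and `0 < wordSign * ∏ θ * T (l j)`. Claim
`C P`: for all `m : Fin r → ℕ`, for `x → 0`, `x ≠ 0`,
`x ^ κ * (∏_{p ∈ P} σ_{p.1} ^ p.2 * ∏_j σ_j ^ m j * F x (P.map (l ^ n) + ∑_j replicate (m j) (l j)))`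
tends to `ev Λ ((P.map uu).prod * ∏_j uu j 1 ^ m j)`.
`C 0`: `F_rel` (conjugate members), `TermEval`, `ev_monomial`; the signs: if the sum is not `0` then
all the numbers of strands are even and `prod_theta_even` applies.
`C ((j, n) ::ₘ P)` from `C P`, by induction on `n` (two steps), for all `m`: `n = 0`: `TraceFun.one` and
`uu_zero`; `n = 1`: `m + Pi.single j 1`; `n + 2`: `F_pow_add_two` and `uu_add_two`.
Near `0` the numbers `x ≠ 0` are not integers.
-/

set_option autoImplicit false

namespace Pool.Agent.AMU.Rec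

variable {Γ : Type} [Group Γ]

private theorem rel_add {M M' N N' : Multiset Γ} (h : Multiset.Rel CE M M')
    (h' : Multiset.Rel CE N N') : Multiset.Rel CE (M + N) (M' + N') := Multiset.Rel.add h h'

private theorem rel_replicate {a b : Γ} (h : CE a b) (n : ℕ) :
    Multiset.Rel CE (Multiset.replicate n a) (Multiset.replicate n b) := by
  induction n with
  | zero => rw [Multiset.replicate_zero, Multiset.replicate_zero]; exact Multiset.Rel.zero
  | succ n ih =>
    rw [Multiset.replicate_succ, Multiset.replicate_succ]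
    exact Multiset.Rel.cons h ih

private theorem rel_sum {ι : Type} (S : Finset ι) {a b : ι → Γ} (h : ∀ j, CE (a j) (b j))
    (m : ι → ℕ) : Multiset.Rel CE (∑ j ∈ S, Multiset.replicate (m j) (a j))
      (∑ j ∈ S, Multiset.replicate (m j) (b j)) := by
  classical
  induction S using Finset.induction_on with
  | empty => rw [Finset.sum_empty, Finset.sum_empty]; exact Multiset.Rel.zero
  | insert j S hj ih =>
    rw [Finset.sum_insert hj, Finset.sum_insert hj]
    exact rel_add (rel_replicate (h j) (m j)) ih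

private theorem sum_single {r : ℕ} (l : Fin r → Γ) (m : Fin r → ℕ) (j : Fin r) :
    ∑ i, Multiset.replicate ((m + Pi.single j 1 : Fin r → ℕ) i) (l i) =
      l j ::ₘ ∑ i, Multiset.replicate (m i) (l i) := by
  classical
  have h1 : ∀ i, Multiset.replicate ((m + Pi.single j 1 : Fin r → ℕ) i) (l i) =
      Multiset.replicate (m i) (l i) + Multiset.replicate ((Pi.single j 1 : Fin r → ℕ) i) (l i) := by
    intro i
    rw [Pi.add_apply, Multiset.replicate_add]
  rw [Finset.sum_congr rfl fun i _ => h1 i, Finset.sum_add_distrib,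
    Finset.sum_eq_single (s := Finset.univ)
      (f := fun i => Multiset.replicate ((Pi.single j 1 : Fin r → ℕ) i) (l i)) j]
  · rw [Pi.single_eq_same, Multiset.replicate_one, add_comm, Multiset.singleton_add]
  · intro i _ hi
    rw [Pi.single_eq_of_ne hi, Multiset.replicate_zero]
  · intro hj
    exact absurd (Finset.mem_univ j) hj

private theorem prod_single {r : ℕ} {R : Type} [CommRing R] (a : Fin r → R) (m : Fin r → ℕ)
    (j : Fin r) : ∏ i, a i ^ ((m + Pi.single j 1 : Fin r → ℕ) i) = a j * ∏ i, a i ^ m i := by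
  classical
  have h1 : ∀ i, a i ^ ((m + Pi.single j 1 : Fin r → ℕ) i) =
      a i ^ ((Pi.single j 1 : Fin r → ℕ) i) * a i ^ m i := by
    intro i
    rw [Pi.add_apply, pow_add, mul_comm]
  rw [Finset.prod_congr rfl fun i _ => h1 i, Finset.prod_mul_distrib,
    Finset.prod_eq_single (s := Finset.univ)
      (f := fun i => a i ^ ((Pi.single j 1 : Fin r → ℕ) i)) j]
  · rw [Pi.single_eq_same, pow_one]
  · intro i _ hi
    rw [Pi.single_eq_of_ne hi, pow_zero]
  · intro hj
    exact absurd (Finset.mem_univ j) hj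

private theorem ev_not_int : ∀ᶠ x : ℝ in nhdsWithin 0 {0}ᶜ, ∀ n : ℤ, x ≠ n := by
  have h1 : ∀ᶠ x : ℝ in nhdsWithin 0 {0}ᶜ, x ∈ Set.Ioo (-1 : ℝ) 1 :=
    mem_nhdsWithin_of_mem_nhds (Ioo_mem_nhds (by norm_num) (by norm_num))
  filter_upwards [h1, self_mem_nhdsWithin] with x hx hx0 n hn
  subst hn
  have h2 : (-1 : ℤ) < n := by exact_mod_cast hx.1
  have h3 : n < (1 : ℤ) := by exact_mod_cast hx.2
  have h4 : n = 0 := by omega
  apply hx0
  rw [h4]
  simp

theorem terminal_limit {N : ℕ} [NeZero N] {opp : ZMod N → ZMod N} {s : ZMod N → Γ}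
    {closed : Prop} {F : ℝ → Multiset Γ → ℝ} {κ : ℕ}
    (hopp : ∀ i, opp (opp i) = i) (hfix : ∀ i, opp i ≠ i)
    (H : HypModel opp s closed)
    (hF : ∀ x : ℝ, (∀ n : ℤ, x ≠ n) → TraceFun (F x))
    (hTE : TermEval opp s closed F κ)
    (r : ℕ) (l : Fin r → Γ) (h1 : ∀ j, l j ≠ 1) (h2 : ∀ j, ¬ IsProperPower (l j))
    (h3 : ∀ i j k, 2 ≤ (H.hol (l i * (k * l j * k⁻¹) * (l i)⁻¹ * (k * l j * k⁻¹)⁻¹)).1.trace)
    (h4 : ∀ i j, i ≠ j → ¬ IsConj (l i) (l j) ∧ ¬ IsConj (l i) (l j)⁻¹) :
    ∃ Λ : (Fin r → ℤ) → ℝ, (∀ d, 0 ≤ Λ d) ∧ 1 ≤ Λ 0 ∧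
      ∀ P : Multiset (Fin r × ℕ),
        Filter.Tendsto
          (fun x : ℝ => x ^ κ *
            ((P.map fun p => sg (fun g => (H.hol g).1.trace) (l p.1) ^ p.2).prod *
              F x (P.map fun p => l p.1 ^ p.2)))
          (nhdsWithin 0 {0}ᶜ) (nhds (ev Λ ((P.map fun p => uu p.1 p.2).prod))) := by
  classical
  set T : Γ → ℝ := fun g => (H.hol g).1.trace with hTdef
  have hT : TrFun T := trFun_hol H
  obtain ⟨w, pos, hGW, hconj, θ, hθ, hpos⟩ := H.good r l h1 h2 h3 h4
  obtain ⟨Λ, hΛ, hΛ0, hlim⟩ := hTE r w pos hGW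
  refine ⟨Λ, hΛ, hΛ0, ?_⟩
  set σ : Fin r → ℝ := fun j => sg T (l j) with hσ
  have hσσ : ∀ j, σ j * σ j = 1 := fun j => sg_mul_self (l j)
  -- the signs
  have hws : ∀ j, ((wordSign opp (w j) : ℤ) : ℝ) = 1 ∨ ((wordSign opp (w j) : ℤ) : ℝ) = -1 := by
    intro j
    rcases wordSign_cases opp (w j) with h | h <;> rw [h] <;> simp
  have hth : ∀ j, (((((w j).map θ).prod : ℤ)) : ℝ) = 1 ∨ (((((w j).map θ).prod : ℤ)) : ℝ) = -1 := by
    intro j
    have : ∀ u : List (ZMod N), (u.map θ).prod = 1 ∨ (u.map θ).prod = -1 := by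
      intro u
      induction u with
      | nil => left; rfl
      | cons a u ih =>
        rw [List.map_cons, List.prod_cons]
        rcases (hθ a).2 with h | h <;> rcases ih with h' | h' <;> rw [h, h'] <;> simp
    rcases this (w j) with h | h <;> rw [h] <;> simp
  have hsg : ∀ j, σ j = ((wordSign opp (w j) : ℤ) : ℝ) * ((((w j).map θ).prod : ℤ) : ℝ) := by
    intro j
    have h5 := hpos j
    rw [Int.cast_mul] at h5
    change sg T (l j) = _
    change 0 < _ * T (l j) at h5
    unfold sg
    rcases hws j with h | h <;> rcases hth j with h' | h' <;> rw [h, h'] at h5 ⊢ <;>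
      split_ifs with h6 <;> first | (exfalso; linarith) | norm_num
  -- the base
  have C0 : ∀ m : Fin r → ℕ, Filter.Tendsto (fun x : ℝ => x ^ κ *
      ((∏ j, σ j ^ m j) * F x (∑ j, Multiset.replicate (m j) (l j))))
      (nhdsWithin 0 {0}ᶜ) (nhds (ev Λ (∏ j, uu j 1 ^ m j))) := by
    intro m
    obtain ⟨hl1, hl2⟩ := hlim m
    rw [← ev_monomial] at hl1 hl2
    have h5 := hl1.const_mul (∏ j, σ j ^ m j)
    have h6 : (∏ j, σ j ^ m j) * ((∏ j, (wordSign opp (w j) : ℝ) ^ m j) *
        ev Λ (∏ j, uu j 1 ^ m j)) = ev Λ (∏ j, uu j 1 ^ m j) := by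
      by_cases hz : ev Λ (∏ j, uu j 1 ^ m j) = 0
      · rw [hz]; simp
      · have he : ∀ i : ZMod N, Even (∑ j, m j * ((w j).count i + (w j).count (opp i))) := by
          intro i
          by_contra hcon
          rw [Nat.not_even_iff_odd] at hcon
          exact hz (hl2 ⟨i, hcon⟩)
        have h7 := prod_theta_even opp hopp hfix θ hθ w m he
        have h8 : ∏ j, ((((w j).map θ).prod : ℤ) : ℝ) ^ m j = 1 := by
          have := congrArg (fun z : ℤ => (z : ℝ)) h7
          push_cast at this
          push_cast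
          exact this
        have h9 : (∏ j, σ j ^ m j) * (∏ j, (wordSign opp (w j) : ℝ) ^ m j) = 1 := by
          rw [← Finset.prod_mul_distrib, ← h8]
          refine Finset.prod_congr rfl fun j _ => ?_
          rw [hsg j, ← mul_pow]
          congr 1
          have : ((wordSign opp (w j) : ℤ) : ℝ) * ((wordSign opp (w j) : ℤ) : ℝ) = 1 := by
            rcases hws j with h | h <;> rw [h] <;> norm_num
          linear_combination ((((w j).map θ).prod : ℤ) : ℝ) * this
        rw [← mul_assoc, h9, one_mul]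
    rw [h6] at h5
    refine h5.congr' ?_
    filter_upwards [ev_not_int] with x hx
    rw [F_rel (hF x hx) (rel_sum Finset.univ (fun j => Or.inl (hconj j)) m)]
    ring
  -- the claim
  have C : ∀ (P : Multiset (Fin r × ℕ)) (m : Fin r → ℕ), Filter.Tendsto (fun x : ℝ => x ^ κ *
      (((P.map fun p => σ p.1 ^ p.2).prod * ∏ j, σ j ^ m j) *
        F x ((P.map fun p => l p.1 ^ p.2) + ∑ j, Multiset.replicate (m j) (l j))))
      (nhdsWithin 0 {0}ᶜ)
      (nhds (ev Λ ((P.map fun p => uu p.1 p.2).prod * ∏ j, uu j 1 ^ m j))) := by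
    intro P
    induction P using Multiset.induction_on with
    | empty =>
      intro m
      simpa only [Multiset.map_zero, Multiset.prod_zero, one_mul, zero_add] using C0 m
    | cons p P ih =>
      obtain ⟨j, n⟩ := p
      have key : ∀ n : ℕ, ∀ m : Fin r → ℕ, Filter.Tendsto (fun x : ℝ => x ^ κ *
          ((σ j ^ n * ((P.map fun p => σ p.1 ^ p.2).prod * ∏ j, σ j ^ m j)) *
            F x (l j ^ n ::ₘ ((P.map fun p => l p.1 ^ p.2) +
              ∑ j, Multiset.replicate (m j) (l j)))))
          (nhdsWithin 0 {0}ᶜ)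
          (nhds (ev Λ (uu j n * ((P.map fun p => uu p.1 p.2).prod * ∏ j, uu j 1 ^ m j)))) := by
        intro n
        induction n using Nat.twoStepInduction with
        | zero =>
          intro m
          have h5 := (ih m).const_mul 2
          have h6 : ev Λ (uu j 0 * ((P.map fun p => uu p.1 p.2).prod * ∏ j, uu j 1 ^ m j)) =
              2 * ev Λ ((P.map fun p => uu p.1 p.2).prod * ∏ j, uu j 1 ^ m j) := by
            rw [uu_zero, two_mul, map_add, two_mul]
          rw [h6]
          refine h5.congr' ?_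
          filter_upwards [ev_not_int] with x hx
          rw [pow_zero, pow_zero, (hF x hx).one]
          ring
        | one =>
          intro m
          have h5 := ih (m + Pi.single j 1)
          rw [prod_single, prod_single, sum_single] at h5
          have h6 : ev Λ (uu j 1 * ((P.map fun p => uu p.1 p.2).prod * ∏ j, uu j 1 ^ m j)) =
              ev Λ ((P.map fun p => uu p.1 p.2).prod * (uu j 1 * ∏ j, uu j 1 ^ m j)) := by
            congr 1; ring
          rw [h6]
          refine h5.congr' ?_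
          filter_upwards [ev_not_int] with x hx
          rw [pow_one, pow_one, Multiset.add_cons]
          ring
        | more n ih0 ih1 =>
          intro m
          have h5 := (ih1 (m + Pi.single j 1)).sub (ih0 m)
          rw [prod_single, prod_single, sum_single, ← map_sub] at h5
          have h6 : uu j (n + 2) * ((P.map fun p => uu p.1 p.2).prod * ∏ j, uu j 1 ^ m j) =
              uu j (n + 1) * ((P.map fun p => uu p.1 p.2).prod * (uu j 1 * ∏ j, uu j 1 ^ m j)) -
              uu j n * ((P.map fun p => uu p.1 p.2).prod * ∏ j, uu j 1 ^ m j) := by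
            rw [uu_add_two]; ring
          rw [h6]
          refine h5.congr' ?_
          filter_upwards [ev_not_int] with x hx
          rw [F_pow_add_two (hF x hx), Multiset.add_cons]
          have h7 := hσσ j
          have h8 : σ j ^ (n + 2) = σ j ^ n := by
            rw [pow_add, pow_two, h7, mul_one]
          have h9 : σ j ^ (n + 1) * σ j = σ j ^ n := by
            rw [pow_succ, mul_assoc, h7, mul_one]
          rw [h8]
          linear_combination (x ^ κ * ((P.map fun p => σ p.1 ^ p.2).prod * ∏ j, σ j ^ m j) *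
            F x (l j ^ (n + 1) ::ₘ l j ::ₘ ((P.map fun p => l p.1 ^ p.2) +
              ∑ j, Multiset.replicate (m j) (l j)))) * h9
      intro m
      have h5 := key n m
      simpa only [Multiset.map_cons, Multiset.prod_cons, Multiset.cons_add, mul_assoc] using h5
  intro P
  have h5 := C P 0
  simpa using h5

end Pool.Agent.AMU.Rec
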