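import Pool.Agent.Lib.AMU.RecRank
import Pool.Agent.Lib.AMU.RecRoot
import Pool.Agent.Lib.AMU.RecTerm
import Pool.Agent.Lib.AMU.RecSimple
import Pool.Agent.Lib.AMU.RecCheb

/-!
# Section R of the AMU proof: the recursion

Row RR10 (helper24): the main theorems.
-/

set_option autoImplicit false

namespace Pool.Agent.AMU.Rec

open Filter Topology

variable {Γ : Type} [Group Γ]

/-! ## Splittings -/

/-- `F (X + N) = F (X1 + N) + F (X2 + N)` up to signs. -/
structure Split (T : Γ → ℝ) (X X1 X2 : Multiset Γ) : Prop where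
  adm1 : Adm X1
  adm2 : Adm X2
  lt1 : mu T X1 < mu T X
  lt2 : mu T X2 < mu T X
  card : (2 : ℝ) ^ X.card ≤ 2 ^ X1.card + 2 ^ X2.card
  eq : ∀ (F : Multiset Γ → ℝ), TraceFun F → ∀ N,
    ((X + N).map (sg T)).prod * F (X + N) =
      ((X1 + N).map (sg T)).prod * F (X1 + N) + ((X2 + N).map (sg T)).prod * F (X2 + N)

theorem adm_add {M N : Multiset Γ} : Adm (M + N) ↔ Adm M ∧ Adm N := by
  unfold Adm
  simp only [Multiset.mem_add]
  exact ⟨fun h => ⟨fun g hg => h g (Or.inl hg), fun g hg => h g (Or.inr hg)⟩,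
    fun h g hg => hg.elim (h.1 g) (h.2 g)⟩

omit [Group Γ] in
theorem mu_single (T : Γ → ℝ) (g : Γ) : mu T {g} = |T g| := by simp [mu]

omit [Group Γ] in
theorem mu_pair (T : Γ → ℝ) (g g' : Γ) : mu T {g, g'} = |T g| * |T g'| := by simp [mu]

omit [Group Γ] in
theorem mu_add (T : Γ → ℝ) (M N : Multiset Γ) : mu T (M + N) = mu T M * mu T N := by
  simp [mu]

theorem mu_rel {T : Γ → ℝ} (hT : TrFun T) {M M' : Multiset Γ} (h : Multiset.Rel CE M M') :
    mu T M = mu T M' := by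
  induction h with
  | zero => rfl
  | cons hab _ ih => rw [mu_cons, mu_cons, ih, CE.T_eq hT hab]

theorem CE.ne_one {g g' : Γ} (h : CE g g') (hg : g ≠ 1) : g' ≠ 1 := by
  rintro rfl
  rcases h with h | h
  · rw [isConj_comm, isConj_one_right] at h
    exact hg h
  · rw [isConj_comm, isConj_one_right] at h
    exact hg (inv_eq_one.1 h)

theorem adm_rel {M M' : Multiset Γ} (h : Multiset.Rel CE M M') (hM : Adm M) : Adm M' := by
  induction h with
  | zero => exact hM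
  | cons hab _ ih =>
    rw [adm_cons] at hM ⊢
    exact ⟨hab.ne_one hM.1, ih hM.2⟩

theorem rel_refl (M : Multiset Γ) : Multiset.Rel CE M M :=
  Multiset.rel_refl_of_refl_on fun g _ => CE.refl g

theorem split_pair {T : Γ → ℝ} (hT : TrFun T) {g g' : Γ} (hg : g ≠ 1) (hg' : g' ≠ 1)
    (hφ : 0 < phi T g g') : Split T {g, g'} {g * g'} {g * g'⁻¹} := by
  obtain ⟨h1, h2, h3, h4, h5⟩ := cross_split hT hg hg' hφ
  have e1 := hT.hyp _ h1
  have e2 := hT.hyp _ h2
  refine ⟨fun x hx => ?_, fun x hx => ?_, ?_, ?_, ?_, ?_⟩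
  · rw [Multiset.mem_singleton] at hx; rw [hx]; exact h1
  · rw [Multiset.mem_singleton] at hx; rw [hx]; exact h2
  · rw [mu_single, mu_pair, ← h5]; linarith
  · rw [mu_single, mu_pair, ← h5]; linarith
  · simp; norm_num
  · intro F hF N
    have := hF.mul g g' N
    simp only [Multiset.insert_eq_cons, Multiset.cons_add, Multiset.singleton_add,
      Multiset.map_cons, Multiset.prod_cons, this, h3, h4]
    ring

theorem split_self {T : Γ → ℝ} (hT : TrFun T) {h : Γ} (hh : h ≠ 1) (hs : SelfCross T h) :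
    ∃ a b : Γ, Split T {h} {a, b} {a * b⁻¹} := by
  obtain ⟨a, b, ha, hb, hab, hab1, h3, h4, h5⟩ := self_split hT hh hs
  have e1 := hT.hyp _ ha
  have e2 := hT.hyp _ hb
  have e3 := hT.hyp _ hab1
  refine ⟨a, b, fun x hx => ?_, fun x hx => ?_, ?_, ?_, ?_, ?_⟩
  · simp only [Multiset.insert_eq_cons, Multiset.mem_cons, Multiset.mem_singleton] at hx
    rcases hx with rfl | rfl
    · exact ha
    · exact hb
  · rw [Multiset.mem_singleton] at hx; rw [hx]; exact hab1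
  · rw [mu_single, mu_pair, h5]; linarith
  · rw [mu_single, mu_single, h5]; nlinarith
  · simp
  · intro F hF N
    have := hF.mul a b N
    simp only [Multiset.insert_eq_cons, Multiset.cons_add, Multiset.singleton_add,
      Multiset.map_cons, Multiset.prod_cons, this, hab]
    have h6 : sg T (a * b⁻¹) = -sg T h := by rw [h4]; ring
    rw [h6, h3]
    ring

theorem exists_split {T : Γ → ℝ} (hT : TrFun T) {M : Multiset Γ} (hM : Adm M)
    (hnt : ¬ Terminal T M) :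
    ∃ X X1 X2 M0 : Multiset Γ, Split T X X1 X2 ∧ Multiset.Rel CE M (X + M0) := by
  unfold Terminal at hnt
  push Not at hnt
  obtain ⟨g, hg, g', hg', k, hk⟩ := hnt
  obtain ⟨M1, rfl⟩ := Multiset.exists_cons_of_mem hg
  have hg1 : g ≠ 1 := hM g hg
  have hg1' : g' ≠ 1 := hM g' hg'
  by_cases hgg : g' = g
  · subst hgg
    obtain ⟨a, b, hab⟩ := split_self hT hg1 ⟨k, hk⟩
    exact ⟨{g'}, {a, b}, {a * b⁻¹}, M1, hab, by
      rw [Multiset.singleton_add]; exact rel_refl _⟩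
  · have hmem : g' ∈ M1 := by
      rcases Multiset.mem_cons.1 hg' with h | h
      · exact absurd h hgg
      · exact h
    obtain ⟨M2, rfl⟩ := Multiset.exists_cons_of_mem hmem
    have hk1 : k * g' * k⁻¹ ≠ 1 := by
      intro e
      apply hg1'
      simpa using e
    refine ⟨{g, k * g' * k⁻¹}, {g * (k * g' * k⁻¹)}, {g * (k * g' * k⁻¹)⁻¹}, M2,
      split_pair hT hg1 hk1 hk, ?_⟩
    rw [Multiset.insert_eq_cons, Multiset.cons_add, Multiset.singleton_add]
    refine Multiset.Rel.cons (CE.refl g) (Multiset.Rel.cons (Or.inl ?_) (rel_refl _))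
    rw [isConj_iff]
    exact ⟨k, rfl⟩

/-! ## Limits -/

/-- The limit of the multiset `M`. -/
def Lm (T : Γ → ℝ) (F : ℝ → Multiset Γ → ℝ) (κ : ℕ) (M : Multiset Γ) (L : ℝ) : Prop :=
  Tendsto (fun x : ℝ => x ^ κ * ((M.map (sg T)).prod * F x M)) (𝓝[≠] 0) (𝓝 L)

variable {T : Γ → ℝ} {F : ℝ → Multiset Γ → ℝ} {κ : ℕ}

theorem eventually_not_int : ∀ᶠ x : ℝ in 𝓝[≠] 0, ∀ n : ℤ, x ≠ n := by
  have h1 : ∀ᶠ x : ℝ in 𝓝[≠] 0, x ∈ Set.Ioo (-1 : ℝ) 1 :=
    nhdsWithin_le_nhds (Ioo_mem_nhds (by norm_num) (by norm_num))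
  have h2 : ∀ᶠ x : ℝ in 𝓝[≠] 0, x ≠ 0 := self_mem_nhdsWithin
  filter_upwards [h1, h2] with x hx hx0 n hn
  rw [hn] at hx hx0
  have h3 : (-1 : ℤ) < n := by exact_mod_cast hx.1
  have h4 : n < (1 : ℤ) := by exact_mod_cast hx.2
  have h5 : n = 0 := by omega
  rw [h5] at hx0
  simp at hx0

theorem Lm.rel (hT : TrFun T) (hF : ∀ x : ℝ, (∀ n : ℤ, x ≠ n) → TraceFun (F x))
    {M M' : Multiset Γ} (h : Multiset.Rel CE M M') {L : ℝ} (hL : Lm T F κ M' L) :
    Lm T F κ M L := by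
  refine Tendsto.congr' ?_ hL
  filter_upwards [eventually_not_int] with x hx
  rw [F_rel (hF x hx) h, prod_sg_rel hT h]

theorem Lm.split (hF : ∀ x : ℝ, (∀ n : ℤ, x ≠ n) → TraceFun (F x))
    {X X1 X2 : Multiset Γ} (hX : Split T X X1 X2) {N : Multiset Γ} {L1 L2 : ℝ}
    (h1 : Lm T F κ (X1 + N) L1) (h2 : Lm T F κ (X2 + N) L2) : Lm T F κ (X + N) (L1 + L2) := by
  refine Tendsto.congr' ?_ (h1.add h2)
  filter_upwards [eventually_not_int] with x hx
  rw [hX.eq _ (hF x hx) N]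
  ring

section main

variable {N : ℕ} [NeZero N] {opp : ZMod N → ZMod N} {s : ZMod N → Γ} {closed : Prop}

theorem terminal_case
    (hopp : ∀ i, opp (opp i) = i) (hfix : ∀ i, opp i ≠ i)
    (H : HypModel opp s closed)
    (hF : ∀ x : ℝ, (∀ n : ℤ, x ≠ n) → TraceFun (F x))
    (hTE : TermEval opp s closed F κ) {M : Multiset Γ} (hM : Adm M)
    (ht : Terminal (fun g => (H.hol g).1.trace) M) :
    ∃ L L' : ℝ, 0 ≤ L ∧ 2 ^ M.card ≤ L' ∧ Lm (fun g => (H.hol g).1.trace) F κ M L ∧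
      Lm (fun g => (H.hol g).1.trace) F κ (M + M) L' := by
  have hT := trFun_hol H
  obtain ⟨r, l, P, h1, h2, h3, h4, h5, h6⟩ := terminal_roots hT M hM ht
  obtain ⟨Λ, hΛ, hΛ0, hlim⟩ := terminal_limit hopp hfix H hF hTE r l h1 h2 h3 h4
  have key : ∀ Q : Multiset (Fin r × ℕ),
      Lm (fun g => (H.hol g).1.trace) F κ (Q.map fun p => l p.1 ^ p.2)
        (ev Λ ((Q.map fun p => uu p.1 p.2).prod)) := by
    intro Q
    have e : ((Q.map fun p => l p.1 ^ p.2).map (sg fun g => (H.hol g).1.trace)) =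
        Q.map fun p => sg (fun g => (H.hol g).1.trace) (l p.1) ^ p.2 := by
      rw [Multiset.map_map]
      refine Multiset.map_congr rfl fun p _ => ?_
      exact sg_pow hT (h1 p.1) p.2
    unfold Lm
    rw [e]
    exact hlim Q
  have hcard : P.card = M.card := by
    have := Multiset.card_eq_card_of_rel h6
    rw [Multiset.card_map] at this
    exact this.symm
  refine ⟨_, ev Λ ((P.map fun p => uu p.1 p.2).prod * (P.map fun p => uu p.1 p.2).prod),
    ev_nonneg hΛ P, ?_, (key P).rel hT hF h6, ?_⟩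
  · rw [← hcard]
    exact ev_sq hΛ hΛ0 P
  · have h7 := key (P + P)
    rw [Multiset.map_add, Multiset.map_add, Multiset.prod_add] at h7
    exact h7.rel hT hF (h6.add h6)

theorem lim_nonneg
    (hopp : ∀ i, opp (opp i) = i) (hfix : ∀ i, opp i ≠ i)
    (H : HypModel opp s closed)
    (hF : ∀ x : ℝ, (∀ n : ℤ, x ≠ n) → TraceFun (F x))
    (hTE : TermEval opp s closed F κ) :
    ∀ M : Multiset Γ, Adm M → ∃ L : ℝ, 0 ≤ L ∧ Lm (fun g => (H.hol g).1.trace) F κ M L := by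
  have hT := trFun_hol H
  refine rank_induction hT _ ?_
  intro M hM ih
  by_cases ht : Terminal (fun g => (H.hol g).1.trace) M
  · obtain ⟨L, _, hL, _, hL2, _⟩ := terminal_case hopp hfix H hF hTE hM ht
    exact ⟨L, hL, hL2⟩
  · obtain ⟨X, X1, X2, M0, hX, hrel⟩ := exists_split hT hM ht
    have hadm := adm_rel hrel hM
    rw [adm_add] at hadm
    have hmu : mu (fun g => (H.hol g).1.trace) M =
        mu (fun g => (H.hol g).1.trace) X * mu (fun g => (H.hol g).1.trace) M0 := by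
      rw [mu_rel hT hrel, mu_add]
    have h0 := mu_pos hT hadm.2
    obtain ⟨L1, hL1, hl1⟩ := ih (X1 + M0) (adm_add.2 ⟨hX.adm1, hadm.2⟩) (by
      rw [hmu, mu_add]; exact mul_lt_mul_of_pos_right hX.lt1 h0)
    obtain ⟨L2, hL2, hl2⟩ := ih (X2 + M0) (adm_add.2 ⟨hX.adm2, hadm.2⟩) (by
      rw [hmu, mu_add]; exact mul_lt_mul_of_pos_right hX.lt2 h0)
    exact ⟨L1 + L2, by linarith, (Lm.split hF hX hl1 hl2).rel hT hF hrel⟩

theorem sq_split
    (hopp : ∀ i, opp (opp i) = i) (hfix : ∀ i, opp i ≠ i)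
    (H : HypModel opp s closed)
    (hF : ∀ x : ℝ, (∀ n : ℤ, x ≠ n) → TraceFun (F x))
    (hTE : TermEval opp s closed F κ) {X X1 X2 M0 : Multiset Γ}
    (hX : Split (fun g => (H.hol g).1.trace) X X1 X2) (hM0 : Adm M0) {q1 q2 : ℝ}
    (h1 : ∃ L, q1 ≤ L ∧ Lm (fun g => (H.hol g).1.trace) F κ (X1 + M0 + (X1 + M0)) L)
    (h2 : ∃ L, q2 ≤ L ∧ Lm (fun g => (H.hol g).1.trace) F κ (X2 + M0 + (X2 + M0)) L) :
    ∃ L, q1 + q2 ≤ L ∧ Lm (fun g => (H.hol g).1.trace) F κ (X + M0 + (X + M0)) L := by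
  obtain ⟨L1, hL1, hl1⟩ := h1
  obtain ⟨L2, hL2, hl2⟩ := h2
  obtain ⟨L3, hL3, hl3⟩ := lim_nonneg hopp hfix H hF hTE (X1 + (X2 + (M0 + M0)))
    (adm_add.2 ⟨hX.adm1, adm_add.2 ⟨hX.adm2, adm_add.2 ⟨hM0, hM0⟩⟩⟩)
  have e1 : X1 + M0 + (X1 + M0) = X1 + (X1 + (M0 + M0)) := by
    simp only [add_left_comm, add_comm]
  have e2 : X2 + M0 + (X2 + M0) = X2 + (X2 + (M0 + M0)) := by
    simp only [add_left_comm, add_comm]
  have e3 : X1 + (X2 + (M0 + M0)) = X2 + (X1 + (M0 + M0)) := by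
    simp only [add_left_comm]
  have e4 : ∀ Y : Multiset Γ, Y + (X + (M0 + M0)) = X + (Y + (M0 + M0)) := by
    intro Y
    simp only [add_left_comm]
  have e5 : X + M0 + (X + M0) = X + (X + (M0 + M0)) := by
    simp only [add_left_comm, add_comm]
  rw [e1] at hl1
  rw [e2] at hl2
  have h3' := hl3
  rw [e3] at h3'
  have a1 := Lm.split hF hX (N := X1 + (M0 + M0)) hl1 h3'
  have a2 := Lm.split hF hX (N := X2 + (M0 + M0)) hl3 hl2
  rw [← e4] at a1 a2
  have a3 := Lm.split hF hX a1 a2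
  rw [e5]
  exact ⟨_, by linarith, a3⟩

theorem lim_sq
    (hopp : ∀ i, opp (opp i) = i) (hfix : ∀ i, opp i ≠ i)
    (H : HypModel opp s closed)
    (hF : ∀ x : ℝ, (∀ n : ℤ, x ≠ n) → TraceFun (F x))
    (hTE : TermEval opp s closed F κ) :
    ∀ M : Multiset Γ, Adm M →
      ∃ L : ℝ, 2 ^ M.card ≤ L ∧ Lm (fun g => (H.hol g).1.trace) F κ (M + M) L := by
  have hT := trFun_hol H
  refine rank_induction hT _ ?_
  intro M hM ih
  by_cases ht : Terminal (fun g => (H.hol g).1.trace) M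
  · obtain ⟨_, L, _, hL, _, hL2⟩ := terminal_case hopp hfix H hF hTE hM ht
    exact ⟨L, hL, hL2⟩
  · obtain ⟨X, X1, X2, M0, hX, hrel⟩ := exists_split hT hM ht
    have hadm := adm_rel hrel hM
    rw [adm_add] at hadm
    have hmu : mu (fun g => (H.hol g).1.trace) M =
        mu (fun g => (H.hol g).1.trace) X * mu (fun g => (H.hol g).1.trace) M0 := by
      rw [mu_rel hT hrel, mu_add]
    have h0 := mu_pos hT hadm.2
    obtain ⟨L, hL, hl⟩ := sq_split hopp hfix H hF hTE hX hadm.2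
      (ih (X1 + M0) (adm_add.2 ⟨hX.adm1, hadm.2⟩) (by
        rw [hmu, mu_add]; exact mul_lt_mul_of_pos_right hX.lt1 h0))
      (ih (X2 + M0) (adm_add.2 ⟨hX.adm2, hadm.2⟩) (by
        rw [hmu, mu_add]; exact mul_lt_mul_of_pos_right hX.lt2 h0))
    refine ⟨L, le_trans ?_ hL, hl.rel hT hF (hrel.add hrel)⟩
    rw [Multiset.card_eq_card_of_rel hrel, Multiset.card_add, Multiset.card_add,
      Multiset.card_add, pow_add, pow_add, pow_add, ← add_mul]
    exact mul_le_mul_of_nonneg_right hX.card (by positivity)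

theorem self_ge_six
    (hopp : ∀ i, opp (opp i) = i) (hfix : ∀ i, opp i ≠ i)
    (H : HypModel opp s closed)
    (hF : ∀ x : ℝ, (∀ n : ℤ, x ≠ n) → TraceFun (F x))
    (hTE : TermEval opp s closed F κ) {h : Γ} (hh : h ≠ 1)
    (hs : SelfCross (fun g => (H.hol g).1.trace) h) :
    ∃ L : ℝ, 6 ≤ L ∧ Tendsto (fun x : ℝ => x ^ κ * F x (h ::ₘ {h})) (𝓝[≠] 0) (𝓝 L) := by
  have hT := trFun_hol H
  obtain ⟨a, b, hab⟩ := split_self hT hh hs
  have hq1 := lim_sq hopp hfix H hF hTE _ hab.adm1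
  have hq2 := lim_sq hopp hfix H hF hTE _ hab.adm2
  obtain ⟨L, hL, hl⟩ := sq_split hopp hfix H hF hTE (M0 := 0) hab (by intro g hg; simp at hg)
    (by simpa only [add_zero] using hq1) (by simpa only [add_zero] using hq2)
  refine ⟨L, ?_, ?_⟩
  · simp at hL
    linarith
  · refine Tendsto.congr (fun x => ?_) hl
    simp only [add_zero, Multiset.singleton_add, Multiset.map_cons, Multiset.map_singleton,
      Multiset.prod_cons, Multiset.prod_singleton, sg_mul_self, one_mul]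

end main

theorem recursion {N : ℕ} [NeZero N] {opp : ZMod N → ZMod N} {s : ZMod N → Γ}
    {closed : Prop} {F : ℝ → Multiset Γ → ℝ} {κ : ℕ}
    (hopp : ∀ i, opp (opp i) = i) (hfix : ∀ i, opp i ≠ i)
    (H : HypModel opp s closed)
    (hF : ∀ x : ℝ, (∀ n : ℤ, x ≠ n) → TraceFun (F x))
    (hTE : TermEval opp s closed F κ)
    (h0 : Tendsto (fun x : ℝ => x ^ κ * F x 0) (𝓝[≠] 0) (𝓝 1))
    {c : ℕ} (hc : Even c) (hc0 : 0 < c) {γ : Γ} (hγ : γ ≠ 1) (hs : ¬ IsSimple opp s γ)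
    (hp : ¬ IsProperPower γ) :
    ∃ L : ℝ, (c : ℝ) + 1 < L ∧
      Tendsto (fun x : ℝ => x ^ κ * ∑ i ∈ Finset.range (c / 2 + 1),
        (-1) ^ i * ((c - i).choose i : ℝ) * F x (Multiset.replicate (c - 2 * i) γ))
        (𝓝[≠] 0) (𝓝 L) := by
  have hT := trFun_hol H
  have hself : SelfCross (fun g => (H.hol g).1.trace) γ := by
    by_contra hcon
    apply hs
    refine isSimple_of_good H hγ hp fun k => ?_
    unfold SelfCross at hcon
    push Not at hcon
    exact hcon k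
  have hk : ∀ k : ℕ, ∃ L : ℝ, 6 ≤ L ∧
      Tendsto (fun x : ℝ => x ^ κ * F x (γ ^ (k + 1) ::ₘ {γ ^ (k + 1)})) (𝓝[≠] 0) (𝓝 L) :=
    fun k => self_ge_six hopp hfix H hF hTE (pow_ne_one hT hγ (by omega))
      (hself.pow hT hγ (by omega))
  choose L hL hl using hk
  refine ⟨1 + ∑ k ∈ Finset.range (c / 2), (L k - 2 * 1), ?_, ?_⟩
  · have h1 : ∑ k ∈ Finset.range (c / 2), (4 : ℝ) ≤
        ∑ k ∈ Finset.range (c / 2), (L k - 2 * 1) :=
      Finset.sum_le_sum fun k _ => by linarith [hL k]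
    rw [Finset.sum_const, Finset.card_range, nsmul_eq_mul] at h1
    obtain ⟨d, hd⟩ := hc
    have h2 : c / 2 = d := by omega
    rw [h2] at h1 ⊢
    have h3 : (c : ℝ) = d + d := by rw [hd]; push_cast; ring
    have h4 : (0 : ℝ) < d := by
      have : 0 < d := by omega
      exact_mod_cast this
    rw [h3]
    linarith
  · have h1 : Tendsto (fun x : ℝ => x ^ κ * F x 0 + ∑ k ∈ Finset.range (c / 2),
        (x ^ κ * F x (γ ^ (k + 1) ::ₘ {γ ^ (k + 1)}) - 2 * (x ^ κ * F x 0))) (𝓝[≠] 0)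
        (𝓝 (1 + ∑ k ∈ Finset.range (c / 2), (L k - 2 * 1))) :=
      h0.add (tendsto_finsetSum _ fun k _ => (hl k).sub (h0.const_mul 2))
    refine Tendsto.congr' ?_ h1
    filter_upwards [eventually_not_int] with x hx
    rw [cheb (hF x hx) γ hc, mul_add, Finset.mul_sum]
    congr 1
    refine Finset.sum_congr rfl fun k _ => ?_
    have := F_pow_two_mul (hF x hx) γ (k + 1) 0
    rw [Multiset.cons_zero] at this
    rw [this, Multiset.cons_zero]
    ring

theorem recursion_one {F : ℝ → Multiset Γ → ℝ} {κ : ℕ}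
    (hF : ∀ x : ℝ, (∀ n : ℤ, x ≠ n) → TraceFun (F x))
    (h0 : Tendsto (fun x : ℝ => x ^ κ * F x 0) (𝓝[≠] 0) (𝓝 1))
    {c : ℕ} (hc : Even c) :
    Tendsto (fun x : ℝ => x ^ κ * ∑ i ∈ Finset.range (c / 2 + 1),
      (-1) ^ i * ((c - i).choose i : ℝ) * F x (Multiset.replicate (c - 2 * i) (1 : Γ)))
      (𝓝[≠] 0) (𝓝 ((c : ℝ) + 1)) := by
  have h1 := h0.const_mul ((c : ℝ) + 1)
  rw [mul_one] at h1
  refine Tendsto.congr' ?_ h1
  filter_upwards [eventually_not_int] with x hx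
  rw [cheb (hF x hx) 1 hc]
  have h2 : ∀ k ∈ Finset.range (c / 2), F x {(1 : Γ) ^ (2 * (k + 1))} = 2 * F x 0 := by
    intro k _
    rw [one_pow, ← Multiset.cons_zero, (hF x hx).one]
  rw [Finset.sum_congr rfl h2, Finset.sum_const, Finset.card_range, nsmul_eq_mul]
  obtain ⟨d, hd⟩ := hc
  have h3 : c / 2 = d := by omega
  have h4 : (c : ℝ) = d + d := by rw [hd]; push_cast; ring
  rw [h3, h4]
  ring

end Pool.Agent.AMU.Rec
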