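import Pool.Agent.Lib.AMU.RecTr2

/-!
# Section R of the AMU proof: induction on the product of the traces

Row RR4. Recipe: for `M` admissible with `mu T M ≤ B` every member has `|T g| ≤ mu T M ≤ B`
(the other factors are `≥ 1`) and `2 ^ card M ≤ B`. So `mu T M` is a product of at most `n`
elements of the finite set of `TrFun.disc B` (for example the image of
`{s : Multiset ℝ | s ≤ n • V.val}` under `Multiset.prod`, which is finite), hence the set of the
values `{mu T M | M admissible, mu T M ≤ B}` is finite. Strong induction on the number of the values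
below `mu T M` (`Set.ncard`, or: `Set.Finite` and `Set.WellFoundedOn`).
-/

set_option autoImplicit false

namespace Pool.Agent.AMU.Rec

variable {Γ : Type} [Group Γ] {T : Γ → ℝ}

/-- The rank: the product of the traces. -/
noncomputable def mu (T : Γ → ℝ) (M : Multiset Γ) : ℝ := (M.map fun g => |T g|).prod

/-- All members are nontrivial. -/
def Adm (M : Multiset Γ) : Prop := ∀ g ∈ M, g ≠ 1

theorem adm_cons {g : Γ} {M : Multiset Γ} : Adm (g ::ₘ M) ↔ g ≠ 1 ∧ Adm M := by
  unfold Adm
  exact Multiset.forall_mem_cons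

theorem mu_cons (g : Γ) (M : Multiset Γ) : mu T (g ::ₘ M) = |T g| * mu T M := by
  simp [mu]

private theorem RR4_pow (hT : TrFun T) {M : Multiset Γ} (hM : Adm M) :
    (2 : ℝ) ^ Multiset.card M ≤ mu T M := by
  induction M using Multiset.induction_on with
  | empty => simp [mu]
  | cons g M ih =>
    rw [adm_cons] at hM
    rw [mu_cons, Multiset.card_cons, pow_succ, mul_comm]
    exact mul_le_mul (hT.hyp g hM.1).le (ih hM.2) (by positivity) (abs_nonneg _)

theorem mu_pos (hT : TrFun T) {M : Multiset Γ} (hM : Adm M) : 0 < mu T M :=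
  lt_of_lt_of_le (by positivity) (RR4_pow hT hM)

private theorem RR4_one (hT : TrFun T) {M : Multiset Γ} (hM : Adm M) : 1 ≤ mu T M :=
  le_trans (one_le_pow₀ (by norm_num)) (RR4_pow hT hM)

private theorem RR4_le (hT : TrFun T) {M : Multiset Γ} (hM : Adm M) {g : Γ} (hg : g ∈ M) :
    |T g| ≤ mu T M := by
  obtain ⟨N, rfl⟩ := Multiset.exists_cons_of_mem hg
  rw [adm_cons] at hM
  rw [mu_cons]
  exact le_mul_of_one_le_right (abs_nonneg _) (RR4_one hT hM.2)

private theorem RR4_fin (hT : TrFun T) (B : ℝ) :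
    {r : ℝ | r ≤ B ∧ ∃ M : Multiset Γ, Adm M ∧ mu T M = r}.Finite := by
  classical
  obtain ⟨n, hn⟩ := pow_unbounded_of_one_lt B (by norm_num : (1 : ℝ) < 2)
  let V : Finset ℝ := (hT.disc B).toFinset
  refine ((Multiset.finite_toSet (Multiset.powerset (n • V.val))).image Multiset.prod).subset ?_
  rintro r ⟨hr, M, hM, rfl⟩
  refine ⟨M.map fun g => |T g|, ?_, rfl⟩
  rw [Set.mem_ofPred_eq, Multiset.mem_powerset, Multiset.le_iff_count]
  intro a
  by_cases ha : a ∈ M.map fun g => |T g|
  · have haV : a ∈ V := by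
      obtain ⟨g, hg, rfl⟩ := Multiset.mem_map.mp ha
      simp only [V, Set.Finite.mem_toFinset, Set.mem_ofPred_eq]
      exact ⟨(RR4_le hT hM hg).trans hr, g, rfl⟩
    have h1 : Multiset.count a V.val = 1 := Multiset.count_eq_one_of_mem V.nodup haV
    rw [Multiset.count_nsmul, h1, mul_one]
    refine (Multiset.count_le_card _ _).trans ?_
    rw [Multiset.card_map]
    by_contra hlt
    push Not at hlt
    have h2 : (2 : ℝ) ^ n ≤ 2 ^ Multiset.card M := pow_le_pow_right₀ (by norm_num) hlt.le
    exact absurd (lt_of_lt_of_le hn (h2.trans ((RR4_pow hT hM).trans hr))) (lt_irrefl _)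
  · rw [Multiset.count_eq_zero_of_notMem ha]
    exact Nat.zero_le _

theorem rank_induction (hT : TrFun T) (P : Multiset Γ → Prop)
    (step : ∀ M, Adm M → (∀ M', Adm M' → mu T M' < mu T M → P M') → P M) :
    ∀ M, Adm M → P M := by
  have key : ∀ k : ℕ, ∀ M : Multiset Γ, Adm M →
      {r : ℝ | r ≤ mu T M ∧ ∃ M : Multiset Γ, Adm M ∧ mu T M = r}.ncard ≤ k → P M := by
    intro k
    induction k with
    | zero =>
      intro M hM hk
      rw [Nat.le_zero, Set.ncard_eq_zero (RR4_fin hT _)] at hk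
      have h0 : mu T M ∈ {r : ℝ | r ≤ mu T M ∧ ∃ M : Multiset Γ, Adm M ∧ mu T M = r} :=
        ⟨le_refl _, M, hM, rfl⟩
      rw [hk] at h0
      exact absurd h0 (Set.notMem_empty _)
    | succ k ih =>
      intro M hM hk
      refine step M hM fun M' hM' hlt => ih M' hM' ?_
      have hss : {r : ℝ | r ≤ mu T M' ∧ ∃ M : Multiset Γ, Adm M ∧ mu T M = r} ⊂
          {r : ℝ | r ≤ mu T M ∧ ∃ M : Multiset Γ, Adm M ∧ mu T M = r} := by
        refine ⟨fun r hr => ⟨hr.1.trans hlt.le, hr.2⟩, fun hcon => ?_⟩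
        have h0 : mu T M ∈ {r : ℝ | r ≤ mu T M ∧ ∃ M : Multiset Γ, Adm M ∧ mu T M = r} :=
          ⟨le_refl _, M, hM, rfl⟩
        exact absurd (hcon h0).1 (not_le.mpr hlt)
      have := Set.ncard_lt_ncard hss (RR4_fin hT _)
      omega
  exact fun M hM => key _ M hM (le_refl _)

end Pool.Agent.AMU.Rec
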