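import Pool.Agent.Lib.AMU.RecTr2

/-!
# Section R of the AMU proof: splitting a self-crossing

Row RR2 (helper24).
-/

set_option autoImplicit false

namespace Pool.Agent.AMU.Rec

variable {Γ : Type} [Group Γ] {T : Γ → ℝ}

/-- The curve crosses itself. -/
def SelfCross (T : Γ → ℝ) (h : Γ) : Prop := ∃ k : Γ, 0 < phi T h (k * h * k⁻¹)

theorem SelfCross.pow (hT : TrFun T) {h : Γ} (hh : h ≠ 1) (hs : SelfCross T h) {n : ℕ}
    (hn : 1 ≤ n) : SelfCross T (h ^ n) := by
  obtain ⟨k, hk⟩ := hs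
  refine ⟨k, ?_⟩
  obtain ⟨u, hu, hu'⟩ := phi_pow hT hh hn
  have hh' : k * h * k⁻¹ ≠ 1 := by
    intro e
    apply hh
    simpa using e
  obtain ⟨w, hw, hw'⟩ := phi_pow hT hh' hn
  rw [hu', ← conj_pow, phi_symm hT, hw', phi_symm hT]
  have : 0 < u ^ 2 := by linarith
  have : 0 < w ^ 2 := by linarith
  positivity

omit [Group Γ] in
private theorem exists_min (S : Set Γ) (f : Γ → ℝ) (hS : S.Nonempty)
    (hfin : ∀ B : ℝ, {t : ℝ | t ≤ B ∧ ∃ k ∈ S, f k = t}.Finite) :
    ∃ k ∈ S, ∀ k' ∈ S, f k ≤ f k' := by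
  obtain ⟨k0, hk0⟩ := hS
  obtain ⟨t, ⟨ht1, k, hk, hkt⟩, ht⟩ :=
    Set.exists_min_image {t : ℝ | t ≤ f k0 ∧ ∃ k ∈ S, f k = t} id (hfin _)
      ⟨f k0, le_refl _, k0, hk0, rfl⟩
  refine ⟨k, hk, fun k' hk' => ?_⟩
  by_cases hle : f k' ≤ f k0
  · have := ht (f k') ⟨hle, k', hk', rfl⟩
    simp only [id] at this
    rw [hkt]; exact this
  · rw [hkt]; linarith

private theorem real_core {x p q q' w : ℝ} (hx : 2 < x) (hp : 0 < p) (hq : p ≤ q') (hqq : q' ≤ q)
    (h1 : q + q' = x * p) (h2 : q * q' - p ^ 2 = w)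
    (h3 : x ^ 2 - 4 ≤ p ^ 2 * (x ^ 2 - 4 - w)) : p * q' - x < 1 := by
  obtain ⟨l, m, hl, hm, hlm, hxl⟩ : ∃ l m : ℝ, 1 < l ∧ 0 < m ∧ l * m = 1 ∧ x = l + m := by
    refine ⟨(x + √(x ^ 2 - 4)) / 2, (x - √(x ^ 2 - 4)) / 2, ?_, ?_, ?_, by ring⟩
    · have := Real.sqrt_nonneg (x ^ 2 - 4)
      linarith
    · have h : √(x ^ 2 - 4) < x := by
        rw [Real.sqrt_lt' (by linarith)]
        linarith
      linarith
    · have h : √(x ^ 2 - 4) ^ 2 = x ^ 2 - 4 := Real.sq_sqrt (by nlinarith)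
      nlinarith
  have hm1 : m < 1 := by
    by_contra hcon
    have : 1 ≤ m := not_lt.1 hcon
    nlinarith
  have hE : 0 < l - m := by linarith
  obtain ⟨α, hα⟩ : ∃ α, α * (l - m) = q - m * p := ⟨(q - m * p) / (l - m), by field_simp⟩
  obtain ⟨δ, hδ⟩ : ∃ δ, δ * (l - m) = l * p - q := ⟨(l * p - q) / (l - m), by field_simp⟩
  have hsum : α + δ = p := by
    have : (α + δ - p) * (l - m) = 0 := by linear_combination hα + hδ
    rcases mul_eq_zero.1 this with h | h
    · linarith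
    · linarith
  have hq1 : l * α + m * δ = q := by
    have : (l * α + m * δ - q) * (l - m) = 0 := by
      linear_combination l * hα + m * hδ
    rcases mul_eq_zero.1 this with h | h
    · linarith
    · linarith
  have hq2 : m * α + l * δ = q' := by
    have : q' = x * p - q := by linarith
    rw [this, hxl, ← hsum, ← hq1]; ring
  have hle : δ ≤ α := by
    have : 0 ≤ (α - δ) * (l - m) := by
      have : (α - δ) * (l - m) = q - q' := by rw [← hq1, ← hq2]; ring
      rw [this]; linarith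
    have := nonneg_of_mul_nonneg_left this hE
    linarith
  have hle2 : α ≤ l * δ := by
    have h4 : 0 ≤ (l * δ - α) * (1 - m) := by
      have : (l * δ - α) * (1 - m) = q' - p := by
        rw [← hq2, ← hsum]; linear_combination (-δ) * hlm
      rw [this]; linarith
    have := nonneg_of_mul_nonneg_left h4 (by linarith)
    linarith
  have hw : w = α * δ * (l - m) ^ 2 := by
    rw [← h2, ← hq1, ← hq2, ← hsum]
    linear_combination (α ^ 2 + δ ^ 2) * hlm + (2 * α * δ) * hlm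
  have hD : x ^ 2 - 4 = (l - m) ^ 2 := by rw [hxl]; linear_combination (4 : ℝ) * hlm
  have h5 : 1 ≤ p ^ 2 * (1 - α * δ) := by
    rw [hD, hw] at h3
    have hE2 : 0 < (l - m) ^ 2 := by positivity
    have : (l - m) ^ 2 * 1 ≤ (l - m) ^ 2 * (p ^ 2 * (1 - α * δ)) := by
      calc (l - m) ^ 2 * 1 = (l - m) ^ 2 := by ring
        _ ≤ _ := h3
        _ = _ := by ring
    exact le_of_mul_le_mul_left this hE2
  have h6 : 0 ≤ (α * p - 1) * (1 - δ * p) := by
    have : (α * p - 1) * (1 - δ * p) = p ^ 2 * (1 - α * δ) - 1 := by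
      rw [← hsum]; ring
    rw [this]; linarith
  have hd1 : δ * p ≤ 1 := by
    by_contra hcon
    have hcon : 1 < δ * p := not_le.1 hcon
    have : δ * p ≤ α * p := by nlinarith
    nlinarith
  have h7 : p * q' - x = m * (α * p - 1) + l * (δ * p - 1) := by
    rw [← hq2, hxl]; ring
  have h8 : α * p ≤ l := by
    have : α * p ≤ l * (δ * p) := by nlinarith
    nlinarith
  rw [h7]
  have h9 : m * (α * p - 1) ≤ m * (l - 1) := by nlinarith
  have h10 : l * (δ * p - 1) ≤ 0 := by nlinarith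
  nlinarith

private theorem v_eq (hT : TrFun T) (h k : Γ) :
    T (h * (k * h * k⁻¹)) = T (h * k) * T (h⁻¹ * k) - T k ^ 2 + 2 := by
  have h1 := hT.add (h * k) (h * k⁻¹)
  have e1 : h * k * (h * k⁻¹) = h * (k * h * k⁻¹) := by group
  have e2 : h * k * (h * k⁻¹)⁻¹ = h * (k * k) * h⁻¹ := by group
  have h2 := hT.add k k
  rw [mul_inv_cancel, hT.one] at h2
  have e3 : T (h * k⁻¹) = T (h⁻¹ * k) := by
    rw [← hT.inv, show (h * k⁻¹)⁻¹ = k * h⁻¹ by group, hT.comm]
  rw [e1, e2, hT.conj, e3] at h1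
  linear_combination h1 - h2

private theorem q_add (hT : TrFun T) (h k : Γ) : T (h * k) + T (h⁻¹ * k) = T k * T h := by
  rw [hT.comm h k, hT.comm h⁻¹ k]
  exact hT.add k h

private theorem phi_v (hT : TrFun T) (h k : Γ) :
    phi T h (k * h * k⁻¹) =
      (T (h * (k * h * k⁻¹)) - 2) * (T h ^ 2 - 2 - T (h * (k * h * k⁻¹))) := by
  rw [phi_eq hT, hT.conj]; ring

private theorem v_sq (hT : TrFun T) (h k : Γ) :
    T (h * (k * k * h * (k * k)⁻¹)) - 2 =
      (T h ^ 2 - 4) - T k ^ 2 * ((T h ^ 2 - 4) - (T (h * (k * h * k⁻¹)) - 2)) := by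
  have h1 := v_eq hT h (k * k)
  have h2 := v_eq hT h k
  have h3 := hT.add k k
  rw [mul_inv_cancel, hT.one] at h3
  have h4 := hT.add (h * k) k
  have h5 := hT.add (h⁻¹ * k) k
  have h6 := q_add hT h k
  rw [mul_assoc, mul_assoc h, mul_inv_cancel, mul_one] at h4
  rw [mul_assoc, mul_assoc h⁻¹, mul_inv_cancel, mul_one, hT.inv] at h5
  have e4 : T (h * (k * k)) = T (h * k) * T k - T h := by linarith
  have e5 : T (h⁻¹ * (k * k)) = T (h⁻¹ * k) * T k - T h := by linarith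
  have e3 : T (k * k) = T k ^ 2 - 2 := by linear_combination h3
  rw [h1, h2, e4, e5, e3]
  linear_combination (-(T k * T h)) * h6

theorem self_split (hT : TrFun T) {h : Γ} (hh : h ≠ 1) (hs : SelfCross T h) :
    ∃ a b : Γ, a ≠ 1 ∧ b ≠ 1 ∧ a * b = h ∧ a * b⁻¹ ≠ 1 ∧ sg T h = sg T a * sg T b ∧
      sg T h = -sg T (a * b⁻¹) ∧ |T h| = |T a| * |T b| + |T (a * b⁻¹)| := by
  -- the admissible set
  set v : Γ → ℝ := fun k => T (h * (k * h * k⁻¹)) with hv
  have hx := hT.hyp h hh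
  have hx2 : 4 < T h ^ 2 := by nlinarith [sq_abs (T h), abs_nonneg (T h)]
  have hcr : ∀ k, 0 < phi T h (k * h * k⁻¹) ↔ 2 < v k ∧ v k < T h ^ 2 - 2 := by
    intro k
    rw [phi_v hT]
    constructor
    · intro hpos
      rcases pos_and_pos_or_neg_and_neg_of_mul_pos hpos with ⟨h1, h2⟩ | ⟨h1, h2⟩
      · exact ⟨by simp only [hv]; linarith, by simp only [hv]; linarith⟩
      · linarith
    · rintro ⟨h1, h2⟩
      simp only [hv] at h1 h2
      exact mul_pos (by linarith) (by linarith)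
  have hvone : v 1 = T h ^ 2 - 2 := by
    have h3 := hT.add h h
    rw [mul_inv_cancel, hT.one] at h3
    simp only [hv, one_mul, inv_one, mul_one]
    linear_combination h3
  obtain ⟨k1, hk1⟩ := hs
  obtain ⟨k2, hk2, hmin⟩ := exists_min {k : Γ | 2 < v k ∧ v k < T h ^ 2 - 2} v
    ⟨k1, (hcr k1).1 hk1⟩ (by
      intro B
      refine (hT.disc (T h ^ 2 - 2)).subset ?_
      rintro t ⟨_, k, ⟨ha, hb⟩, rfl⟩
      refine ⟨hb.le, h * (k * h * k⁻¹), ?_⟩
      simp only [hv] at ha ⊢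
      exact abs_of_pos (by linarith))
  obtain ⟨k3, hk3, hmin3⟩ := exists_min {k : Γ | v k = v k2} (fun k => |T k|) ⟨k2, rfl⟩ (by
      intro B
      refine (hT.disc B).subset ?_
      rintro t ⟨hB, k, _, rfl⟩
      exact ⟨hB, k, rfl⟩)
  have hvinv : ∀ k, v k⁻¹ = v k := by
    intro k
    simp only [hv, inv_inv]
    have e1 : h * (k⁻¹ * h * k) = k⁻¹ * (k * h * k⁻¹ * h) * k := by group
    rw [e1]
    have := hT.conj k⁻¹ (k * h * k⁻¹ * h)
    rw [inv_inv] at this
    rw [this, hT.comm]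
  have hvmul : ∀ k, v (h * k) = v k := by
    intro k
    simp only [hv]
    have e1 : h * (h * k * h * (h * k)⁻¹) = h * (h * (k * h * k⁻¹)) * h⁻¹ := by group
    rw [e1, hT.conj]
  have hvmul' : ∀ k, v (h⁻¹ * k) = v k := by
    intro k
    simp only [hv]
    have e1 : h * (h⁻¹ * k * h * (h⁻¹ * k)⁻¹) = h⁻¹ * (h * (k * h * k⁻¹)) * h⁻¹⁻¹ := by group
    rw [e1, hT.conj]
  -- WLOG
  obtain ⟨k, hk, hmink, hqq⟩ : ∃ k, v k = v k2 ∧ (∀ k', v k' = v k2 → |T k| ≤ |T k'|) ∧
      |T (h⁻¹ * k)| ≤ |T (h * k)| := by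
    rcases le_total |T (h⁻¹ * k3)| |T (h * k3)| with hle | hle
    · exact ⟨k3, hk3, fun k' hk' => hmin3 k' hk', hle⟩
    · refine ⟨k3⁻¹, (hvinv k3).trans hk3, fun k' hk' => ?_, ?_⟩
      · rw [hT.inv]; exact hmin3 k' hk'
      · have e1 : T (h⁻¹ * k3⁻¹) = T (h * k3) := by
          rw [← hT.inv, show (h⁻¹ * k3⁻¹)⁻¹ = k3 * h by group, hT.comm]
        have e2 : T (h * k3⁻¹) = T (h⁻¹ * k3) := by
          rw [← hT.inv, show (h * k3⁻¹)⁻¹ = k3 * h⁻¹ by group, hT.comm]
        rw [e1, e2]; exact hle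
  obtain ⟨hv1, hv2⟩ := hk2
  rw [← hk] at hv1 hv2
  have hk1' : k ≠ 1 := by
    rintro rfl
    rw [hvone] at hv2
    exact lt_irrefl _ hv2
  have hkh : k ≠ h := by
    rintro rfl
    have := hvmul 1
    rw [mul_one] at this
    rw [this, hvone] at hv2
    exact lt_irrefl _ hv2
  have hp := hT.hyp k hk1'
  set p := T k with hpdef
  set q := T (h * k) with hqdef
  set q' := T (h⁻¹ * k) with hq'def
  have hvk : v k = q * q' - p ^ 2 + 2 := v_eq hT h k
  have hqs : q + q' = p * T h := q_add hT h k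
  have hpq : 0 < q * q' := by nlinarith [sq_nonneg p]
  -- signs
  set σ := sg T h with hσ
  have hσ2 : σ * σ = 1 := sg_mul_self h
  have hσT : σ * |T h| = T h := sg_mul_abs h
  set τ := sg T k with hτ
  have hτ2 : τ * τ = 1 := sg_mul_self k
  have hτT : τ * |p| = p := sg_mul_abs k
  have hqabs : |q| + |q'| = |T h| * |p| := by
    have : |q + q'| = |q| + |q'| := by
      rcases pos_and_pos_or_neg_and_neg_of_mul_pos hpq with ⟨h1, h2⟩ | ⟨h1, h2⟩
      · rw [abs_of_pos h1, abs_of_pos h2, abs_of_pos (by linarith)]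
      · rw [abs_of_neg h1, abs_of_neg h2, abs_of_neg (by linarith)]; ring
    rw [← this, hqs, abs_mul, mul_comm]
  have hqq2 : |q| * |q'| = q * q' := by rw [← abs_mul, abs_of_pos hpq]
  -- the square
  have hsq := v_sq hT h k
  have hksq : k * k * h * (k * k)⁻¹ = k * k * h * (k * k)⁻¹ := rfl
  have hvsq : v (k * k) - 2 = (T h ^ 2 - 4) - p ^ 2 * ((T h ^ 2 - 4) - (v k - 2)) := hsq
  have hp2 : 4 < p ^ 2 := by nlinarith [sq_abs p, abs_nonneg p]
  have hlt : v (k * k) < v k := by nlinarith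
  have hle2 : v (k * k) ≤ 2 := by
    by_contra hcon
    have hcon : 2 < v (k * k) := not_le.1 hcon
    have := hmin (k * k) ⟨hcon, by linarith⟩
    linarith
  have hcore : |p| * |q'| - |T h| < 1 := by
    refine real_core (x := |T h|) (p := |p|) (q := |q|) (q' := |q'|)
      (w := v k - 2) hx (by linarith) ?_ hqq hqabs ?_ ?_
    · exact hmink _ ((hvmul' k).trans hk)
    · rw [hqq2, sq_abs, hvk]; ring
    · rw [sq_abs, sq_abs]; linarith
  -- the element
  have hb1 : k⁻¹ * h ≠ 1 := by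
    intro e
    apply hkh
    rw [inv_mul_eq_one] at e
    exact e
  have hab : k * (k⁻¹ * h)⁻¹ = k * h⁻¹ * k := by group
  have hab1 : k * h⁻¹ * k ≠ 1 := by
    intro e
    have e2 : h = k * k := by
      have : k * h⁻¹ * k = 1 := e
      have h3 : h⁻¹ = k⁻¹ * k⁻¹ := by
        calc h⁻¹ = k⁻¹ * (k * h⁻¹ * k) * k⁻¹ := by group
          _ = k⁻¹ * k⁻¹ := by rw [this]; group
      rw [← inv_inv h, h3, mul_inv_rev, inv_inv]
    have h5 : v k = v 1 := by
      simp only [hv]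
      rw [show k * h * k⁻¹ = h by rw [e2]; group]
      simp
    rw [h5, hvone] at hv2
    exact lt_irrefl _ hv2
  have hTb : T (k⁻¹ * h) = q' := by
    rw [← hT.inv, show (k⁻¹ * h)⁻¹ = h⁻¹ * k by group]
  have hadd := hT.add k (k⁻¹ * h)
  rw [hab, show k * (k⁻¹ * h) = h by group, hTb, ← hpdef] at hadd
  -- signs of p, q'
  have hsq' : σ * (p * q') = |p| * |q'| := by
    rw [← abs_mul]
    have h1 : 0 < (T h * p) * q' := by
      have : (T h * p) * q' = q * q' + q' ^ 2 := by linear_combination (-q') * hqs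
      rw [this]; positivity
    have h2 : 0 < σ * (p * q') := by
      have h3 : 0 < |T h| * (σ * (p * q')) := by
        have : |T h| * (σ * (p * q')) = (T h * p) * q' := by
          linear_combination (p * q') * hσT
        rw [this]; exact h1
      exact (pos_iff_pos_of_mul_pos h3).1 (by linarith)
    rcases sg_cases (T := T) h with h4 | h4
    · rw [← hσ] at h4
      rw [h4, one_mul] at h2 ⊢
      exact (abs_of_pos h2).symm
    · rw [← hσ] at h4
      rw [h4] at h2 ⊢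
      rw [abs_of_neg (by linarith)]; ring
  have hσT' : σ * T h = |T h| := by linear_combination (-σ) * hσT + |T h| * hσ2
  have hTab : σ * T (k * h⁻¹ * k) = |p| * |q'| - |T h| := by
    linear_combination σ * hadd + hsq' - hσT'
  have hlt2 : σ * T (k * h⁻¹ * k) < 1 := by rw [hTab]; exact hcore
  have habs := hT.hyp _ hab1
  have hneg : σ * T (k * h⁻¹ * k) < -2 := by
    have h6 : |σ * T (k * h⁻¹ * k)| = |T (k * h⁻¹ * k)| := by
      rw [abs_mul]
      rcases sg_cases (T := T) h with h4 | h4 <;> rw [hσ, h4] <;> simp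
    rw [← h6] at habs
    rcases lt_abs.1 habs with h7 | h7 <;> linarith
  have hsgn : sg T (k * h⁻¹ * k) = -σ := by
    unfold sg at hσ ⊢
    split_ifs at hσ ⊢ with h8 h9 h9
    · rw [hσ] at hneg; linarith
    · rw [hσ]; norm_num
    · rw [hσ]
    · rw [hσ] at hneg; linarith
  have habs2 : |T (k * h⁻¹ * k)| = -(σ * T (k * h⁻¹ * k)) := by
    rw [← sg_mul_abs (T := T) (k * h⁻¹ * k), hsgn]
    rw [abs_mul, abs_neg, abs_abs]
    have : |σ| = 1 := by
      rcases sg_cases (T := T) h with h4 | h4 <;> rw [hσ, h4] <;> simp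
    rw [this]
    linear_combination (-|T (k * h⁻¹ * k)|) * hσ2
  refine ⟨k, k⁻¹ * h, hk1', hb1, by group, by rw [hab]; exact hab1, ?_, ?_, ?_⟩
  · -- sg T h = sg k * sg b
    set β := sg T (k⁻¹ * h) with hβ
    have hβ2 : β * β = 1 := sg_mul_self _
    have hβT : β * |q'| = q' := by rw [← hTb]; exact sg_mul_abs _
    have hq'pos : 0 < |q'| := by
      rw [← hTb]; linarith [hT.hyp _ hb1]
    have h10 : σ * (τ * β) * (|p| * |q'|) = |p| * |q'| := by
      calc σ * (τ * β) * (|p| * |q'|) = σ * ((τ * |p|) * (β * |q'|)) := by ring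
        _ = σ * (p * q') := by rw [hτT, hβT]
        _ = _ := hsq'
    have h11 : σ * (τ * β) = 1 := by
      have hne : |p| * |q'| ≠ 0 := by positivity
      exact mul_right_cancel₀ hne (by rw [h10, one_mul])
    calc σ = σ * (σ * (τ * β)) := by rw [h11, mul_one]
      _ = (σ * σ) * (τ * β) := by ring
      _ = τ * β := by rw [hσ2, one_mul]
  · rw [hab, hsgn]; ring
  · rw [hab, hTb, habs2, hTab]; ring

end Pool.Agent.AMU.Rec
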