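import Pool.Agent.Lib.AMU.Iface

/-!
# Section R of the AMU proof: trace functions

`TrFun T`: the properties of the trace of a discrete purely hyperbolic representation which are
used in the recursion. Everything in section R is deduced from these algebraic properties.
`phi T a b = 2 - T [a, b]` is positive if and only if the axes cross.

Row RR1a (this file). Recipes:
* `trFun_hol`: `HypModel.hyp`, `HypModel.disc`; the trace identity for `2 × 2` matrices of
  determinant one (`Matrix.SpecialLinearGroup`, `Matrix.adjugate_fin_two`).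
* `inv`: `add 1 b`. `conj`: `comm`.
* `phi_eq`: `add (a * b * a⁻¹) b` and `add (a * b) (a⁻¹ * b)` (the second product is `a * a` up to
  `comm`), `add a a`, `add b a` for `T (b * a⁻¹)`.
-/

set_option autoImplicit false

namespace Pool.Agent.AMU.Rec

/-- The properties of the trace function. -/
structure TrFun {Γ : Type} [Group Γ] (T : Γ → ℝ) : Prop where
  one : T 1 = 2
  comm : ∀ a b, T (a * b) = T (b * a)
  add : ∀ a b, T (a * b) + T (a * b⁻¹) = T a * T b
  hyp : ∀ g, g ≠ 1 → 2 < |T g|
  disc : ∀ B : ℝ, {t : ℝ | t ≤ B ∧ ∃ g, |T g| = t}.Finite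

/-- `2 - T [a, b]`. -/
def phi {Γ : Type} [Group Γ] (T : Γ → ℝ) (a b : Γ) : ℝ := 2 - T (a * b * a⁻¹ * b⁻¹)

open Classical in
/-- The sign. -/
noncomputable def sg {Γ : Type} (T : Γ → ℝ) (g : Γ) : ℝ := if 0 < T g then 1 else -1

variable {Γ : Type} [Group Γ] {T : Γ → ℝ}

theorem trFun_hol {N : ℕ} {opp : ZMod N → ZMod N} {s : ZMod N → Γ} {closed : Prop}
    (H : HypModel opp s closed) : TrFun (fun g => (H.hol g).1.trace) := by
  refine ⟨?_, ?_, ?_, H.hyp, H.disc⟩
  · change (H.hol 1).1.trace = 2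
    rw [map_one, Matrix.SpecialLinearGroup.coe_one, Matrix.trace_one, Fintype.card_fin]
    norm_num
  · intro a b
    change (H.hol (a * b)).1.trace = (H.hol (b * a)).1.trace
    rw [map_mul, map_mul, Matrix.SpecialLinearGroup.coe_mul, Matrix.SpecialLinearGroup.coe_mul,
      Matrix.trace_mul_comm]
  · intro a b
    change (H.hol (a * b)).1.trace + (H.hol (a * b⁻¹)).1.trace =
      (H.hol a).1.trace * (H.hol b).1.trace
    rw [map_mul, map_mul, map_inv, Matrix.SpecialLinearGroup.coe_mul,
      Matrix.SpecialLinearGroup.coe_mul, Matrix.SpecialLinearGroup.coe_inv,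
      Matrix.adjugate_fin_two, Matrix.trace_fin_two, Matrix.trace_fin_two, Matrix.trace_fin_two,
      Matrix.trace_fin_two]
    simp only [Matrix.mul_apply, Fin.sum_univ_two, Matrix.of_apply, Matrix.cons_val',
      Matrix.cons_val_zero, Matrix.cons_val_one, Matrix.empty_val', Matrix.cons_val_fin_one]
    ring

theorem TrFun.inv (h : TrFun T) (a : Γ) : T a⁻¹ = T a := by
  have h1 := h.add 1 a
  rw [one_mul, one_mul, h.one] at h1
  linarith

theorem TrFun.conj (h : TrFun T) (k a : Γ) : T (k * a * k⁻¹) = T a := by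
  rw [h.comm, ← mul_assoc, inv_mul_cancel, one_mul]

theorem phi_eq (h : TrFun T) (a b : Γ) :
    phi T a b = 4 - T a ^ 2 - T b ^ 2 - T (a * b) ^ 2 + T a * T b * T (a * b) := by
  have h1 := h.add (a * b * a⁻¹) b
  have h2 := h.add (a * b) (a⁻¹ * b)
  have h3 := h.add a a
  have h4 := h.add b a
  have e1 : a * b * (a⁻¹ * b) = a * b * a⁻¹ * b := by group
  have e2 : a * b * (a⁻¹ * b)⁻¹ = a * a := by group
  have e3 : T (a⁻¹ * b) = T (b * a⁻¹) := h.comm _ _
  have e4 : T (b * a) = T (a * b) := h.comm _ _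
  have e5 : T (a * b * a⁻¹) = T b := h.conj a b
  rw [e1, e2, e3] at h2
  rw [mul_inv_cancel, h.one] at h3
  rw [e4] at h4
  rw [e5] at h1
  have h5 : T (b * a⁻¹) = T b * T a - T (a * b) := by linarith
  have h6 : T (a * a) = T a * T a - 2 := by linarith
  have h7 : T (a * b * a⁻¹ * b) = T (a * b) * (T b * T a - T (a * b)) - (T a * T a - 2) := by
    rw [← h5, ← h6]
    linarith
  have h8 : T (a * b * a⁻¹ * b⁻¹) = T b * T b -
      (T (a * b) * (T b * T a - T (a * b)) - (T a * T a - 2)) := by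
    rw [← h7]
    linarith
  rw [phi, h8]
  ring

theorem phi_symm (h : TrFun T) (a b : Γ) : phi T a b = phi T b a := by
  rw [phi_eq h, phi_eq h, h.comm b a]
  ring

theorem phi_inv_left (h : TrFun T) (a b : Γ) : phi T a⁻¹ b = phi T a b := by
  have h1 := h.add b a
  have e3 : T (a⁻¹ * b) = T (b * a⁻¹) := h.comm _ _
  have e4 : T (b * a) = T (a * b) := h.comm _ _
  have h5 : T (a⁻¹ * b) = T b * T a - T (a * b) := by
    rw [e3, ← e4]
    linarith
  rw [phi_eq h, phi_eq h, h5, h.inv]
  ring

theorem phi_inv_right (h : TrFun T) (a b : Γ) : phi T a b⁻¹ = phi T a b := by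
  rw [phi_symm h, phi_inv_left h, phi_symm h]

theorem phi_conj (h : TrFun T) (k a b : Γ) : phi T (k * a * k⁻¹) (k * b * k⁻¹) = phi T a b := by
  have e : k * a * k⁻¹ * (k * b * k⁻¹) = k * (a * b) * k⁻¹ := by group
  rw [phi_eq h, phi_eq h, e, h.conj, h.conj, h.conj]

end Pool.Agent.AMU.Rec
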