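import Pool.Agent.Lib.AMU.RecTr

/-!
# Section R of the AMU proof: trace functions, continued

Row RR1b (this file). Recipes:
* `phi_pow`: let `u 0 = 0, u 1 = 1, u (m + 1) = x u m - u (m - 1)` for `x = T a`, `v = u (m - 1)`;
  `T (a ^ m) = x u - 2 v`, `T (a ^ m * b) = u T (a * b) - v T b`, `u ^ 2 - x u v + v ^ 2 = 1`; then
  `phi_eq` and `ring` (use the relation for `u, v`) give `phi (a ^ m) b = u ^ 2 * phi a b`. By
  induction `|v| ≤ |u| `, `1 ≤ |u|` since `2 < |x|`.
* `sg_pow`, `abs_pow_lt`: `T (g ^ n) = σ ^ n t n`, `t 0 = 2, t 1 = |T g|,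
  t (n + 2) = |T g| t (n + 1) - t n`, `t` is strictly increasing.
* `cross_split`: `z z' = x ^ 2 + y ^ 2 - 4 + phi a b > 0` and `z + z' = x y` for `z = T (a * b)`,
  `z' = T (a * b⁻¹)`. If `a * b = 1` or `a * b⁻¹ = 1` then `phi a b = 2 - T 1 = 0`.
-/

set_option autoImplicit false

namespace Pool.Agent.AMU.Rec

variable {Γ : Type} [Group Γ] {T : Γ → ℝ}

private theorem rr1b_uv (h : TrFun T) {a : Γ} (ha : a ≠ 1) {m : ℕ} (hm : 1 ≤ m) :
    ∃ u v : ℝ, (∀ b, T (a ^ m * b) = u * T (a * b) - v * T b) ∧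
      u ^ 2 - T a * u * v + v ^ 2 = 1 ∧ |v| ≤ |u| ∧ 1 ≤ u ^ 2 := by
  induction m, hm using Nat.le_induction with
  | base =>
    refine ⟨1, 0, fun b => ?_, ?_, ?_, ?_⟩
    · rw [pow_one]
      ring
    · ring
    · simp
    · norm_num
  | succ m hm ih =>
    obtain ⟨u, v, h1, h2, h3, h4⟩ := ih
    have hx : 2 < |T a| := h.hyp a ha
    have h5 : |u| ≤ |T a * u - v| := by
      have h6 : |T a * u| - |v| ≤ |T a * u - v| := abs_sub_abs_le_abs_sub _ _
      rw [abs_mul] at h6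
      have h7 : 2 * |u| ≤ |T a| * |u| := mul_le_mul_of_nonneg_right hx.le (abs_nonneg u)
      linarith
    refine ⟨T a * u - v, u, fun b => ?_, ?_, h5, ?_⟩
    · have e1 : a ^ (m + 1) * b = a ^ m * (a * b) := by rw [pow_succ, mul_assoc]
      have e2 : T (a * (a * b)) = T a * T (a * b) - T b := by
        have e3 := h.add a (a * b)
        have e4 : T (a * (a * b)⁻¹) = T b := by
          have e5 : a * (a * b)⁻¹ = a * b⁻¹ * a⁻¹ := by group
          rw [e5, h.conj, h.inv]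
        linarith
      rw [e1, h1, e2]
      ring
    · linear_combination h2
    · have h8 : u ^ 2 ≤ (T a * u - v) ^ 2 := sq_le_sq.2 h5
      linarith

theorem phi_pow (h : TrFun T) {a : Γ} (ha : a ≠ 1) {m : ℕ} (hm : 1 ≤ m) :
    ∃ u : ℝ, 1 ≤ u ^ 2 ∧ ∀ b, phi T (a ^ m) b = u ^ 2 * phi T a b := by
  obtain ⟨u, v, h1, h2, h3, h4⟩ := rr1b_uv h ha hm
  refine ⟨u, h4, fun b => ?_⟩
  have e1 : T (a ^ m) = u * T a - v * 2 := by
    have := h1 1
    rwa [mul_one, mul_one, h.one] at this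
  rw [phi_eq h, phi_eq h, e1, h1 b]
  linear_combination (-(4 - T b ^ 2)) * h2

omit [Group Γ] in
theorem sg_cases (g : Γ) : sg T g = 1 ∨ sg T g = -1 := by
  unfold sg
  split_ifs
  · exact Or.inl rfl
  · exact Or.inr rfl

omit [Group Γ] in
theorem sg_mul_self (g : Γ) : sg T g * sg T g = 1 := by
  rcases sg_cases (T := T) g with h | h <;> rw [h] <;> norm_num

omit [Group Γ] in
theorem sg_mul_abs (g : Γ) : sg T g * |T g| = T g := by
  unfold sg
  split_ifs with h
  · rw [one_mul, abs_of_pos h]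
  · rw [abs_of_nonpos (not_lt.1 h)]
    ring

/-- The positive Chebyshev sequence. -/
private def rr1b_t (y : ℝ) : ℕ → ℝ
  | 0 => 2
  | 1 => y
  | (n + 2) => y * rr1b_t y (n + 1) - rr1b_t y n

private theorem rr1b_t_mono {y : ℝ} (hy : 2 < y) (n : ℕ) :
    2 ≤ rr1b_t y n ∧ rr1b_t y n < rr1b_t y (n + 1) := by
  induction n with
  | zero => exact ⟨le_refl _, hy⟩
  | succ n ih =>
    obtain ⟨h1, h2⟩ := ih
    refine ⟨h1.trans h2.le, ?_⟩
    change rr1b_t y (n + 1) < y * rr1b_t y (n + 1) - rr1b_t y n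
    have h3 : 2 * rr1b_t y (n + 1) ≤ y * rr1b_t y (n + 1) :=
      mul_le_mul_of_nonneg_right hy.le (by linarith)
    linarith

private theorem rr1b_T (h : TrFun T) (g : Γ) (n : ℕ) :
    T (g ^ n) = sg T g ^ n * rr1b_t |T g| n := by
  induction n using Nat.strong_induction_on with
  | _ n ih =>
    match n, ih with
    | 0, _ =>
      rw [pow_zero, pow_zero, h.one, one_mul]
      rfl
    | 1, _ =>
      rw [pow_one, pow_one]
      exact (sg_mul_abs (T := T) g).symm
    | (n + 2), ih =>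
      have h1 := ih (n + 1) (by omega)
      have h2 := ih n (by omega)
      have h3 := h.add (g ^ (n + 1)) g
      have e1 : g ^ (n + 1) * g = g ^ (n + 2) := (pow_succ g (n + 1)).symm
      have e2 : g ^ (n + 1) * g⁻¹ = g ^ n := by
        rw [pow_succ, mul_assoc, mul_inv_cancel, mul_one]
      rw [e1, e2, h1, h2] at h3
      have h4 : T g = sg T g * |T g| := (sg_mul_abs (T := T) g).symm
      have h5 : sg T g * sg T g = 1 := sg_mul_self (T := T) g
      have h6 : T (g ^ (n + 2)) = sg T g ^ (n + 1) * rr1b_t |T g| (n + 1) * (sg T g * |T g|) -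
          sg T g ^ n * rr1b_t |T g| n := by
        rw [← h4]
        linarith
      rw [h6]
      change _ = sg T g ^ (n + 2) * (|T g| * rr1b_t |T g| (n + 1) - rr1b_t |T g| n)
      have h7 : sg T g ^ (n + 2) = sg T g ^ n := by
        rw [pow_add, pow_two, h5, mul_one]
      have h8 : sg T g ^ (n + 1) * sg T g = sg T g ^ n := by
        rw [pow_succ, mul_assoc, h5, mul_one]
      rw [h7]
      linear_combination (rr1b_t |T g| (n + 1) * |T g|) * h8

private theorem rr1b_abs (h : TrFun T) {g : Γ} (hg : g ≠ 1) (n : ℕ) :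
    |T (g ^ n)| = rr1b_t |T g| n := by
  have h2 : 2 ≤ rr1b_t |T g| n := (rr1b_t_mono (h.hyp g hg) n).1
  rw [rr1b_T h g n, abs_mul, abs_pow]
  have h3 : |sg T g| = 1 := by
    rcases sg_cases (T := T) g with h4 | h4 <;> rw [h4] <;> norm_num
  rw [h3, one_pow, one_mul, abs_of_pos (by linarith)]

theorem sg_pow (h : TrFun T) {g : Γ} (hg : g ≠ 1) (n : ℕ) : sg T (g ^ n) = sg T g ^ n := by
  have h1 := rr1b_T h g n
  have h2 : 2 ≤ rr1b_t |T g| n := (rr1b_t_mono (h.hyp g hg) n).1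
  have h3 : sg T g ^ n = 1 ∨ sg T g ^ n = -1 := by
    rcases sg_cases (T := T) g with h4 | h4
    · rw [h4, one_pow]
      exact Or.inl rfl
    · rw [h4]
      exact neg_one_pow_eq_or ℝ n
  rcases h3 with h3 | h3
  · rw [h3, one_mul] at h1
    rw [h3]
    unfold sg
    rw [if_pos (by rw [h1]; linarith)]
  · rw [h3] at h1
    rw [h3]
    unfold sg
    rw [if_neg (by rw [h1]; linarith)]

theorem pow_ne_one (h : TrFun T) {g : Γ} (hg : g ≠ 1) {n : ℕ} (hn : 1 ≤ n) : g ^ n ≠ 1 := by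
  intro h1
  have h2 := rr1b_abs h hg n
  rw [h1, h.one] at h2
  have hm : StrictMono (rr1b_t |T g|) :=
    strictMono_nat_of_lt_succ fun n => (rr1b_t_mono (h.hyp g hg) n).2
  have h3 : rr1b_t |T g| 0 < rr1b_t |T g| n := hm hn
  rw [← h2] at h3
  have h4 : rr1b_t |T g| 0 = 2 := rfl
  rw [h4] at h3
  norm_num at h3

theorem abs_pow_lt (h : TrFun T) {g : Γ} (hg : g ≠ 1) {n : ℕ} (hn : 2 ≤ n) :
    |T g| < |T (g ^ n)| := by
  rw [rr1b_abs h hg n]
  have hm : StrictMono (rr1b_t |T g|) :=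
    strictMono_nat_of_lt_succ fun n => (rr1b_t_mono (h.hyp g hg) n).2
  exact hm (show 1 < n by omega)

theorem cross_split (h : TrFun T) {a b : Γ} (ha : a ≠ 1) (hb : b ≠ 1) (hφ : 0 < phi T a b) :
    a * b ≠ 1 ∧ a * b⁻¹ ≠ 1 ∧ sg T (a * b) = sg T a * sg T b ∧
      sg T (a * b⁻¹) = sg T a * sg T b ∧
      |T (a * b)| + |T (a * b⁻¹)| = |T a| * |T b| := by
  have hx : 2 < |T a| := h.hyp a ha
  have hy : 2 < |T b| := h.hyp b hb
  have h1 : a * b ≠ 1 := by
    intro h1
    have h2 : a * b * a⁻¹ * b⁻¹ = 1 := by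
      have h3 : b = a⁻¹ := (inv_eq_of_mul_eq_one_right h1).symm
      rw [h3]
      group
    rw [phi, h2, h.one] at hφ
    norm_num at hφ
  have h1' : a * b⁻¹ ≠ 1 := by
    intro h1
    have h2 : a * b * a⁻¹ * b⁻¹ = 1 := by
      have h3 : a = b := mul_inv_eq_one.1 h1
      rw [h3]
      group
    rw [phi, h2, h.one] at hφ
    norm_num at hφ
  have hadd := h.add a b
  have hx2 : 4 < T a ^ 2 := by
    rw [← sq_abs]
    nlinarith
  have hy2 : 4 < T b ^ 2 := by
    rw [← sq_abs]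
    nlinarith
  have hzz : T (a * b) * T (a * b⁻¹) = T a ^ 2 + T b ^ 2 - 4 + phi T a b := by
    rw [phi_eq h]
    have h2 : T (a * b⁻¹) = T a * T b - T (a * b) := by linarith
    rw [h2]
    ring
  have hzz0 : 0 < T (a * b) * T (a * b⁻¹) := by
    rw [hzz]
    linarith
  have hsa := sg_mul_abs (T := T) a
  have hsb := sg_mul_abs (T := T) b
  have hab : T a * T b = sg T a * sg T b * (|T a| * |T b|) := by
    rw [← hsa, ← hsb, hsa, hsb]
    linear_combination (- |T b| * sg T b) * hsa - T a * hsb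
  have hpos : 0 < |T a| * |T b| := by positivity
  have hss : sg T a * sg T b = 1 ∨ sg T a * sg T b = -1 := by
    rcases sg_cases (T := T) a with h4 | h4 <;> rcases sg_cases (T := T) b with h5 | h5 <;>
      rw [h4, h5] <;> norm_num
  rcases pos_and_pos_or_neg_and_neg_of_mul_pos hzz0 with ⟨hz, hz'⟩ | ⟨hz, hz'⟩
  · have h6 : sg T a * sg T b = 1 := by
      rcases hss with h6 | h6
      · exact h6
      · exfalso
        rw [h6] at hab
        linarith
    refine ⟨h1, h1', ?_, ?_, ?_⟩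
    · rw [h6, sg, if_pos hz]
    · rw [h6, sg, if_pos hz']
    · rw [abs_of_pos hz, abs_of_pos hz', hadd, hab, h6, one_mul]
  · have h6 : sg T a * sg T b = -1 := by
      rcases hss with h6 | h6
      · exfalso
        rw [h6] at hab
        linarith
      · exact h6
    refine ⟨h1, h1', ?_, ?_, ?_⟩
    · rw [h6, sg, if_neg (not_lt.2 hz.le)]
    · rw [h6, sg, if_neg (not_lt.2 hz'.le)]
    · rw [abs_of_neg hz, abs_of_neg hz']
      have h7 : -T (a * b) + -T (a * b⁻¹) = -(T a * T b) := by linarith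
      rw [h7, hab, h6]
      ring

end Pool.Agent.AMU.Rec
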