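import Pool.Agent.Lib.AMU.Iface

/-!
# Schottky geometry, part 1: the matrices of the generators, the action on the line

The side `i` of the polygon is the geodesic with the end points `i - 1/4`, `i + 1/4` (in the upper
half plane), `s_i` maps the outside of the side `opp i` onto the inside of the side `i`.
-/

set_option autoImplicit false

namespace Pool.Agent.AMU.Sch

open Matrix

abbrev SL2 : Type := Matrix.SpecialLinearGroup (Fin 2) ℝ

theorem mul_val (g h : SL2) : (g * h).1 = g.1 * h.1 := Matrix.SpecialLinearGroup.coe_mul g h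

theorem mul_app (g h : SL2) (a b : Fin 2) :
    (g * h).1 a b = g.1 a 0 * h.1 0 b + g.1 a 1 * h.1 1 b := by
  rw [mul_val, mul_apply, Fin.sum_univ_two]

theorem one_val : (1 : SL2).1 = 1 := rfl

theorem inv_val (k : SL2) : (k⁻¹).1 = !![k.1 1 1, -k.1 0 1; -k.1 1 0, k.1 0 0] := by
  have h : (k⁻¹).1 = k.1.adjugate := Matrix.SpecialLinearGroup.coe_inv k
  rw [h, adjugate_fin_two]

/-! ## The action on the line -/

/-- `g (x, 1) = μ (y, 1)`. -/
def Act (g : SL2) (x μ y : ℝ) : Prop :=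
  g.1 0 0 * x + g.1 0 1 = μ * y ∧ g.1 1 0 * x + g.1 1 1 = μ

theorem act_mul {g h : SL2} {x μ y ν z : ℝ} (h1 : Act h x μ y) (h2 : Act g y ν z) :
    Act (g * h) x (μ * ν) z := by
  obtain ⟨a1, a2⟩ := h1
  obtain ⟨b1, b2⟩ := h2
  unfold Act
  rw [mul_app, mul_app, mul_app, mul_app]
  constructor
  · linear_combination g.1 0 0 * a1 + g.1 0 1 * a2 + μ * b1
  · linear_combination g.1 1 0 * a1 + g.1 1 1 * a2 + μ * b2

theorem act_one (x : ℝ) : Act 1 x 1 x := by
  unfold Act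
  rw [one_val]
  simp

theorem act_unique {g : SL2} {x μ y μ' y' : ℝ} (h : Act g x μ y) (h' : Act g x μ' y')
    (hμ : μ ≠ 0) : μ = μ' ∧ y = y' := by
  obtain ⟨a1, a2⟩ := h
  obtain ⟨b1, b2⟩ := h'
  have e : μ = μ' := by rw [← a2, ← b2]
  refine ⟨e, ?_⟩
  subst e
  exact mul_left_cancel₀ hμ (by rw [← a1, ← b1])

/-- The axis functional at the boundary point `x`. -/
def nf (g : SL2) (x : ℝ) : ℝ := g.1 0 1 + (g.1 0 0 - g.1 1 1) * x - g.1 1 0 * x ^ 2

theorem nf_act {g : SL2} {x μ y : ℝ} (h : Act g x μ y) : nf g x = μ * (y - x) := by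
  obtain ⟨a1, a2⟩ := h
  unfold nf
  linear_combination a1 - x * a2

theorem nf_one (x : ℝ) : nf 1 x = 0 := by
  unfold nf
  rw [one_val]
  simp

/-- The form of a boundary point. -/
def pf (x : ℝ) : Matrix (Fin 2) (Fin 2) ℝ := !![x ^ 2, x; x, 1]

theorem trace_pf (g : SL2) (x : ℝ) :
    (!![0, -1; 1, 0] * g.1 * pf x).trace = nf g x := by
  unfold nf pf
  rw [trace_fin_two]
  simp only [mul_apply, Fin.sum_univ_two]
  simp
  ring

theorem det_eq (g : SL2) : g.1 0 0 * g.1 1 1 - g.1 0 1 * g.1 1 0 = 1 := by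
  have := g.2
  rw [det_fin_two] at this
  exact this

theorem inv_apply00 (k : SL2) : (k⁻¹).1 0 0 = k.1 1 1 := by
  rw [inv_val]; simp

theorem inv_apply01 (k : SL2) : (k⁻¹).1 0 1 = -k.1 0 1 := by
  rw [inv_val]; simp

theorem inv_apply10 (k : SL2) : (k⁻¹).1 1 0 = -k.1 1 0 := by
  rw [inv_val]; simp

theorem inv_apply11 (k : SL2) : (k⁻¹).1 1 1 = k.1 0 0 := by
  rw [inv_val]; simp

theorem nf_conj (k g : SL2) {x μ y : ℝ} (h : Act k x μ y) :
    nf (k * g * k⁻¹) y * μ ^ 2 = nf g x := by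
  obtain ⟨a1, a2⟩ := h
  have hd := det_eq k
  have e1 : (k * g * k⁻¹).1 0 0 = (k.1 0 0 * g.1 0 0 + k.1 0 1 * g.1 1 0) * k.1 1 1 -
      (k.1 0 0 * g.1 0 1 + k.1 0 1 * g.1 1 1) * k.1 1 0 := by
    rw [mul_app, mul_app, mul_app, inv_apply00, inv_apply10]
    ring
  have e2 : (k * g * k⁻¹).1 0 1 = -(k.1 0 0 * g.1 0 0 + k.1 0 1 * g.1 1 0) * k.1 0 1 +
      (k.1 0 0 * g.1 0 1 + k.1 0 1 * g.1 1 1) * k.1 0 0 := by
    rw [mul_app, mul_app, mul_app, inv_apply01, inv_apply11]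
    ring
  have e3 : (k * g * k⁻¹).1 1 0 = (k.1 1 0 * g.1 0 0 + k.1 1 1 * g.1 1 0) * k.1 1 1 -
      (k.1 1 0 * g.1 0 1 + k.1 1 1 * g.1 1 1) * k.1 1 0 := by
    rw [mul_app, mul_app, mul_app, inv_apply00, inv_apply10]
    ring
  have e4 : (k * g * k⁻¹).1 1 1 = -(k.1 1 0 * g.1 0 0 + k.1 1 1 * g.1 1 0) * k.1 0 1 +
      (k.1 1 0 * g.1 0 1 + k.1 1 1 * g.1 1 1) * k.1 0 0 := by
    rw [mul_app, mul_app, mul_app, inv_apply01, inv_apply11]
    ring
  have key : nf (k * g * k⁻¹) y * μ ^ 2 =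
      (k * g * k⁻¹).1 0 1 * μ ^ 2 + ((k * g * k⁻¹).1 0 0 - (k * g * k⁻¹).1 1 1) * (μ * y) * μ -
        (k * g * k⁻¹).1 1 0 * (μ * y) ^ 2 := by
    unfold nf; ring
  rw [key, ← a1, ← a2, e1, e2, e3, e4]
  unfold nf
  linear_combination (k.1 0 0 * k.1 1 1 - k.1 0 1 * k.1 1 0 + 1) *
    (g.1 0 1 + (g.1 0 0 - g.1 1 1) * x - g.1 1 0 * x ^ 2) * hd

theorem trace_conj (k g : SL2) : (k * g * k⁻¹).1.trace = g.1.trace := by
  rw [mul_val, mul_val, trace_mul_cycle, ← mul_val, inv_mul_cancel, one_val, one_mul]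

/-- An eigenvector with a large eigenvalue. -/
theorem trace_of_fix {g : SL2} {x μ : ℝ} (h : Act g x μ x) : g.1.trace * μ = μ ^ 2 + 1 := by
  obtain ⟨a1, a2⟩ := h
  have hd := det_eq g
  rw [trace_fin_two]
  have e : (g.1 0 0 - μ) * (g.1 1 1 - μ) = g.1 0 1 * g.1 1 0 := by
    linear_combination (g.1 0 0 - μ) * a2 - g.1 1 0 * a1
  linear_combination -e + hd

/-! ## The generators -/

variable {N : ℕ} (opp : ZMod N → ZMod N)

/-- The centre of the side. -/
noncomputable def rp (i : ZMod N) : ℝ := (i.val : ℝ)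

/-- The sign of the side. -/
noncomputable def ep (i : ZMod N) : ℝ := if i.val < (opp i).val then 1 else -1

theorem ep_sq (i : ZMod N) : ep opp i * ep opp i = 1 := by
  unfold ep; split_ifs <;> norm_num

theorem ep_cases (i : ZMod N) : ep opp i = 1 ∨ ep opp i = -1 := by
  unfold ep; split_ifs <;> simp

/-- The generator. -/
noncomputable def gen (i : ZMod N) : SL2 :=
  ⟨!![ep opp i * (4 * rp i), ep opp i * (-(4 * rp i * rp (opp i)) - 1 / 4);
      ep opp i * 4, ep opp i * (-(4 * rp (opp i)))], by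
    rw [det_fin_two_of]
    linear_combination ep_sq opp i⟩

theorem gen00 (i : ZMod N) : (gen opp i).1 0 0 = ep opp i * (4 * rp i) := rfl

theorem gen01 (i : ZMod N) :
    (gen opp i).1 0 1 = ep opp i * (-(4 * rp i * rp (opp i)) - 1 / 4) := rfl

theorem gen10 (i : ZMod N) : (gen opp i).1 1 0 = ep opp i * 4 := rfl

theorem gen11 (i : ZMod N) : (gen opp i).1 1 1 = ep opp i * (-(4 * rp (opp i))) := rfl

theorem act_gen (i : ZMod N) {y : ℝ} (hy : y - rp (opp i) ≠ 0) :
    Act (gen opp i) y (ep opp i * (4 * (y - rp (opp i))))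
      (rp i - 1 / (16 * (y - rp (opp i)))) := by
  unfold Act
  rw [gen00, gen01, gen10, gen11]
  constructor
  · field_simp
    ring
  · ring

section basic

variable [NeZero N]

theorem rp_diff {i j : ZMod N} (h : i ≠ j) : 1 ≤ |(rp i : ℝ) - rp j| := by
  have hv : i.val ≠ j.val := fun e => h (ZMod.val_injective N e)
  unfold rp
  rcases Nat.lt_or_gt_of_ne hv with h1 | h1
  · have : (i.val : ℝ) + 1 ≤ j.val := by exact_mod_cast h1
    rw [abs_of_nonpos (by linarith)]
    linarith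
  · have : (j.val : ℝ) + 1 ≤ i.val := by exact_mod_cast h1
    rw [abs_of_nonneg (by linarith)]
    linarith

theorem rp_inj {i j : ZMod N} (h : |(rp i : ℝ) - rp j| < 1) : i = j := by
  by_contra hne
  exact absurd (rp_diff hne) (not_le.mpr h)

omit [NeZero N] in
theorem rp_nonneg (i : ZMod N) : (0 : ℝ) ≤ rp i := Nat.cast_nonneg _

theorem rp_lt (i : ZMod N) : (rp i : ℝ) + 1 ≤ N := by
  have := ZMod.val_lt i
  unfold rp
  exact_mod_cast this

variable (hop : ∀ i, opp (opp i) = i) (hne : ∀ i, opp i ≠ i)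

include hop hne in
theorem ep_opp (i : ZMod N) : ep opp (opp i) = -ep opp i := by
  unfold ep
  rw [hop]
  have hv : (opp i).val ≠ i.val := fun e => hne i (ZMod.val_injective N e)
  rcases Nat.lt_or_gt_of_ne hv with h1 | h1
  · rw [if_pos h1, if_neg (by omega)]; norm_num
  · rw [if_neg (by omega), if_pos h1]

include hop hne in
theorem gen_mul (i : ZMod N) : gen opp i * gen opp (opp i) = 1 := by
  have h1 := ep_opp opp hop hne i
  have h2 := ep_sq opp i
  apply Matrix.SpecialLinearGroup.ext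
  intro a b
  rw [mul_app, one_val]
  fin_cases a <;> fin_cases b <;>
    simp only [Fin.zero_eta, Fin.mk_one, gen00, gen01, gen10, gen11, h1, hop, one_apply_eq,
      Fin.isValue, ne_eq, zero_ne_one, one_ne_zero, not_false_eq_true, one_apply_ne]
  · linear_combination h2
  · ring
  · ring
  · linear_combination h2

end basic

end Pool.Agent.AMU.Sch
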