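import Pool.Agent.Lib.AMU.Sch1

/-!
# Schottky geometry, part 2: reduced words
-/

set_option autoImplicit false

namespace Pool.Agent.AMU.Sch

open Matrix

variable {N : ℕ} (opp : ZMod N → ZMod N)

/-! ## Words -/

/-- The generator of the group. -/
def st (i : ZMod N) : PuncturedGroup opp := PresentedGroup.of i

theorem st_mul (i : ZMod N) : st opp i * st opp (opp i) = 1 := by
  have h : (PresentedGroup.mk (puncturedRels opp))
      (FreeGroup.of i * FreeGroup.of (opp i)) = 1 :=
    PresentedGroup.one_of_mem ⟨i, rfl⟩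
  rw [map_mul] at h
  exact h

/-- The value of a word. -/
def ev (w : List (ZMod N)) : PuncturedGroup opp := (w.map (st opp)).prod

theorem ev_nil : ev opp [] = 1 := rfl

theorem ev_cons (a : ZMod N) (w : List (ZMod N)) : ev opp (a :: w) = st opp a * ev opp w := by
  unfold ev; rw [List.map_cons, List.prod_cons]

theorem ev_append (u v : List (ZMod N)) : ev opp (u ++ v) = ev opp u * ev opp v := by
  unfold ev; rw [List.map_append, List.prod_append]

/-- Reduced words. -/
def Rd (w : List (ZMod N)) : Prop := w.IsChain (fun a b => b ≠ opp a)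

theorem Rd_nil : Rd opp [] := List.isChain_nil

theorem Rd_single (a : ZMod N) : Rd opp [a] := List.isChain_singleton a

theorem Rd_cons_cons (a b : ZMod N) (w : List (ZMod N)) :
    Rd opp (a :: b :: w) ↔ b ≠ opp a ∧ Rd opp (b :: w) := List.isChain_cons_cons

theorem Rd_tail {a : ZMod N} {w : List (ZMod N)} (h : Rd opp (a :: w)) : Rd opp w :=
  List.IsChain.tail h

theorem st_inv (i : ZMod N) : (st opp i)⁻¹ = st opp (opp i) :=
  inv_eq_of_mul_eq_one_right (st_mul opp i)

/-- Left multiplication by a letter. -/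
theorem Rd_mul (i : ZMod N) {w : List (ZMod N)} (h : Rd opp w) :
    ∃ w', Rd opp w' ∧ ev opp w' = st opp i * ev opp w := by
  match w, h with
  | [], _ => exact ⟨[i], Rd_single opp i, by rw [ev_cons]⟩
  | b :: t, h =>
    by_cases hb : b = opp i
    · refine ⟨t, Rd_tail opp h, ?_⟩
      rw [ev_cons, hb, ← mul_assoc, st_mul, one_mul]
    · exact ⟨i :: b :: t, (Rd_cons_cons opp i b t).mpr ⟨hb, h⟩, by rw [ev_cons]⟩

/-- Every element is the value of a reduced word. -/
theorem exists_Rd (g : PuncturedGroup opp) : ∃ w, Rd opp w ∧ ev opp w = g := by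
  have key : ∀ x : FreeGroup (ZMod N), ∀ w, Rd opp w →
      ∃ w', Rd opp w' ∧ ev opp w' = (PresentedGroup.mk (puncturedRels opp)) x * ev opp w := by
    intro x
    induction x using FreeGroup.induction_on with
    | C1 => intro w hw; exact ⟨w, hw, by rw [map_one, one_mul]⟩
    | of i =>
      intro w hw
      exact Rd_mul opp i hw
    | inv_of i _ =>
      intro w hw
      obtain ⟨w', h1, h2⟩ := Rd_mul opp (opp i) hw
      refine ⟨w', h1, ?_⟩
      rw [h2, map_inv]
      congr 1
      exact (st_inv opp i).symm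
    | mul x y hx hy =>
      intro w hw
      obtain ⟨w1, h1, h2⟩ := hy w hw
      obtain ⟨w2, h3, h4⟩ := hx w1 h1
      exact ⟨w2, h3, by rw [h4, h2, map_mul, mul_assoc]⟩
  obtain ⟨x, hx⟩ := PresentedGroup.mk_surjective (puncturedRels opp) g
  obtain ⟨w, h1, h2⟩ := key x [] (Rd_nil opp)
  exact ⟨w, h1, by rw [h2, ev_nil, mul_one, hx]⟩

/-! ## The holonomy -/

section

variable [NeZero N] (hop : ∀ i, opp (opp i) = i) (hne : ∀ i, opp i ≠ i)

/-- The Schottky representation. -/
noncomputable def hol : PuncturedGroup opp →* SL2 :=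
  PresentedGroup.toGroup (f := gen opp) (by
    rintro r ⟨i, rfl⟩
    rw [map_mul, FreeGroup.lift_apply_of, FreeGroup.lift_apply_of]
    exact gen_mul opp hop hne i)

theorem hol_st (i : ZMod N) : hol opp hop hne (st opp i) = gen opp i := by
  unfold hol st
  exact PresentedGroup.toGroup.of _

end

/-- The last letter. -/
def lst (a : ZMod N) (t : List (ZMod N)) : ZMod N := t.getLastD a

theorem lst_nil (a : ZMod N) : lst a [] = a := rfl

theorem lst_cons (a b : ZMod N) (t : List (ZMod N)) : lst a (b :: t) = lst b t := by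
  unfold lst
  rw [List.getLastD_cons]

/-- The sign of a word. -/
noncomputable def cs : ZMod N → List (ZMod N) → ℝ
  | a, [] => ep opp a
  | a, b :: t => ep opp a * (if (opp a).val < b.val then 1 else -1) * cs b t

theorem cs_sq (a : ZMod N) (t : List (ZMod N)) : cs opp a t * cs opp a t = 1 := by
  induction t generalizing a with
  | nil => exact ep_sq opp a
  | cons b t ih =>
    have h1 := ep_sq opp a
    have h2 := ih b
    unfold cs
    split_ifs
    · linear_combination cs opp b t * cs opp b t * h1 + h2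
    · linear_combination cs opp b t * cs opp b t * h1 + h2

theorem cs_ne (a : ZMod N) (t : List (ZMod N)) : cs opp a t ≠ 0 := by
  intro h
  have := cs_sq opp a t
  rw [h] at this
  norm_num at this

/-- The sign of `rp i - rp j`. -/
noncomputable def sgv (j i : ZMod N) : ℝ := if j.val < i.val then 1 else -1

theorem sgv_sq (j i : ZMod N) : sgv j i * sgv j i = 1 := by
  unfold sgv; split_ifs <;> norm_num

theorem cs_cons (a b : ZMod N) (t : List (ZMod N)) :
    cs opp a (b :: t) = ep opp a * sgv (opp a) b * cs opp b t := rfl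

section

variable [NeZero N]

theorem sgv_spec {j i : ZMod N} (h : i ≠ j) {y : ℝ} (hy : |y - rp i| ≤ 1 / 4) :
    y - rp j = sgv j i * |y - rp j| ∧ 3 / 4 ≤ |y - rp j| := by
  have hv : i.val ≠ j.val := fun e => h (ZMod.val_injective N e)
  obtain ⟨h1, h2⟩ := abs_le.mp hy
  unfold sgv
  unfold rp at h1 h2 ⊢
  rcases Nat.lt_or_gt_of_ne hv with h3 | h3
  · have h4 : (i.val : ℝ) + 1 ≤ j.val := by exact_mod_cast h3
    rw [if_neg (by omega), abs_of_nonpos (by linarith)]
    constructor <;> linarith
  · have h4 : (j.val : ℝ) + 1 ≤ i.val := by exact_mod_cast h3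
    rw [if_pos h3, abs_of_nonneg (by linarith)]
    constructor <;> linarith

theorem sgv_rp {j i : ZMod N} (h : i ≠ j) : 0 < sgv j i * (rp i - rp j) := by
  have h0 : |(rp i : ℝ) - rp i| ≤ 1 / 4 := by rw [sub_self, abs_zero]; norm_num
  obtain ⟨h1, h2⟩ := sgv_spec h h0
  have h3 := sgv_sq j i
  rw [h1, ← mul_assoc, h3, one_mul]
  linarith

end

theorem inv_bd {d c : ℝ} (hc : 0 < c) (h : c ≤ |d|) : |1 / (16 * d)| ≤ 1 / (16 * c) := by
  rw [abs_div, abs_one, abs_mul, abs_of_pos (by norm_num : (0 : ℝ) < 16)]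
  exact one_div_le_one_div_of_le (by positivity) (by linarith)

section

variable [NeZero N] (hop : ∀ i, opp (opp i) = i) (hne : ∀ i, opp i ≠ i)

/-- The action of a reduced word. -/
theorem act_word (t : List (ZMod N)) : ∀ (a : ZMod N), Rd opp (a :: t) → ∀ x : ℝ,
    1 / 4 ≤ |x - rp (opp (lst a t))| →
    ∃ P μ y : ℝ, 0 < P ∧ Act (hol opp hop hne (ev opp (a :: t))) x μ y ∧
      |y - rp a| ≤ 1 / 4 ∧
      μ = P * cs opp a t * (x - rp (opp (lst a t))) ∧
      (3 / 4 ≤ |x - rp (opp (lst a t))| → 3 ^ (t.length + 1) ≤ |μ|) ∧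
      ((t ≠ [] ∨ 3 / 4 ≤ |x - rp (opp (lst a t))|) → |y - rp a| ≤ 1 / 12) := by
  induction t with
  | nil =>
    intro a _ x hx
    rw [lst_nil] at hx ⊢
    have hne0 : x - rp (opp a) ≠ 0 := by
      intro h
      rw [h] at hx
      norm_num at hx
    refine ⟨4, ep opp a * (4 * (x - rp (opp a))), rp a - 1 / (16 * (x - rp (opp a))),
      by norm_num, ?_, ?_, ?_, ?_, ?_⟩
    · rw [ev_cons, ev_nil, mul_one, hol_st]
      exact act_gen opp a hne0
    · rw [show rp a - 1 / (16 * (x - rp (opp a))) - rp a = -(1 / (16 * (x - rp (opp a)))) by ring,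
        abs_neg]
      exact (inv_bd (by norm_num) hx).trans (by norm_num)
    · show _ = 4 * ep opp a * (x - rp (opp a))
      ring
    · intro h
      rw [abs_mul, abs_mul]
      have h1 : |ep opp a| = 1 := by
        rcases ep_cases opp a with h | h <;> rw [h] <;> norm_num
      rw [h1, abs_of_pos (by norm_num : (0 : ℝ) < 4)]
      have h2 : (3 : ℝ) ^ (([] : List (ZMod N)).length + 1) = 3 := by
        rw [List.length_nil]; norm_num
      rw [h2]
      linarith
    · intro h
      rcases h with h | h
      · exact absurd rfl h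
      · rw [show rp a - 1 / (16 * (x - rp (opp a))) - rp a =
          -(1 / (16 * (x - rp (opp a)))) by ring, abs_neg]
        exact (inv_bd (by norm_num) h).trans (by norm_num)
  | cons b t ih =>
    intro a hr x hx
    obtain ⟨hb, hr'⟩ := (Rd_cons_cons opp a b t).mp hr
    rw [lst_cons] at hx ⊢
    obtain ⟨P, μ, y, hP, hact, hy, hμ, hbig, -⟩ := ih b hr' x hx
    obtain ⟨s1, s2⟩ := sgv_spec hb hy
    have hne0 : y - rp (opp a) ≠ 0 := by
      intro h
      rw [h] at s2
      norm_num at s2
    refine ⟨P * (4 * |y - rp (opp a)|), μ * (ep opp a * (4 * (y - rp (opp a)))),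
      rp a - 1 / (16 * (y - rp (opp a))), by positivity, ?_, ?_, ?_, ?_, ?_⟩
    · rw [ev_cons, map_mul, hol_st]
      exact act_mul hact (act_gen opp a hne0)
    · rw [show rp a - 1 / (16 * (y - rp (opp a))) - rp a = -(1 / (16 * (y - rp (opp a)))) by ring,
        abs_neg]
      exact (inv_bd (by norm_num) s2).trans (by norm_num)
    · rw [cs_cons, hμ]
      linear_combination P * cs opp b t * (x - rp (opp (lst b t))) * ep opp a * 4 * s1
    · intro h
      have h0 := hbig h
      rw [abs_mul, abs_mul, abs_mul]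
      have h1 : |ep opp a| = 1 := by
        rcases ep_cases opp a with h | h <;> rw [h] <;> norm_num
      rw [h1, abs_of_pos (by norm_num : (0 : ℝ) < 4), one_mul, List.length_cons, pow_succ]
      exact mul_le_mul h0 (by linarith) (by norm_num) (abs_nonneg _)
    · intro _
      rw [show rp a - 1 / (16 * (y - rp (opp a))) - rp a =
          -(1 / (16 * (y - rp (opp a)))) by ring, abs_neg]
      exact (inv_bd (by norm_num) s2).trans (by norm_num)

end

end Pool.Agent.AMU.Sch
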