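import Pool.Agent.Lib.AMU.Sch2

/-!
# Schottky geometry, part 3: signs at the points outside the intervals, uniqueness of words
-/

set_option autoImplicit false

namespace Pool.Agent.AMU.Sch

open Matrix

variable {N : ℕ} (opp : ZMod N → ZMod N)

/-- The point is outside of all intervals. -/
def Out (N : ℕ) (x : ℝ) : Prop := ∀ k : ZMod N, 1 / 4 ≤ |x - rp k|

theorem factor_pos {d e : ℝ} (h : |e| < |d|) : ∃ R, 0 < R ∧ d + e = R * d := by
  have hd : d ≠ 0 := by
    intro h0
    rw [h0, abs_zero] at h
    exact absurd (abs_nonneg e) (not_le.mpr h)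
  refine ⟨1 + e / d, ?_, by field_simp⟩
  have h1 : |e / d| < 1 := by
    rw [abs_div, div_lt_one (abs_pos.mpr hd)]
    exact h
  have := (abs_lt.mp h1).1
  linarith

section

variable [NeZero N] (hop : ∀ i, opp (opp i) = i) (hne : ∀ i, opp i ≠ i)

omit [NeZero N] in
theorem out_neg : Out N (-1 / 2) := by
  intro k
  have := rp_nonneg k
  rw [abs_of_nonpos (by linarith)]
  linarith

/-- The axis functional of a reduced word. -/
theorem nf_word {a : ZMod N} {t : List (ZMod N)} (hr : Rd opp (a :: t)) {x : ℝ} (hx : Out N x) :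
    ∃ P : ℝ, 0 < P ∧ nf (hol opp hop hne (ev opp (a :: t))) x =
      P * (cs opp a t * (x - rp (opp (lst a t))) * (rp a - x)) := by
  obtain ⟨P, μ, y, hP, hact, hy, hμ, -, hy'⟩ :=
    act_word opp hop hne t a hr x (hx (opp (lst a t)))
  have hlt : |y - rp a| < |rp a - x| := by
    rw [abs_sub_comm (rp a) x]
    by_cases ht : t = []
    · subst ht
      rw [lst_nil] at *
      by_cases h34 : 3 / 4 ≤ |x - rp (opp a)|
      · exact lt_of_le_of_lt (hy' (Or.inr h34)) (lt_of_lt_of_le (by norm_num) (hx a))
      · have h1 := rp_diff (hne a)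
        have h2 : |(rp (opp a) : ℝ) - rp a| ≤ |x - rp (opp a)| + |x - rp a| := by
          have := abs_sub_le (rp (opp a)) x (rp a)
          rw [abs_sub_comm (rp (opp a)) x] at this
          exact this
        rw [not_le] at h34
        linarith
    · exact lt_of_le_of_lt (hy' (Or.inl ht)) (lt_of_lt_of_le (by norm_num) (hx a))
  obtain ⟨R, hR, hRe⟩ := factor_pos hlt
  refine ⟨P * R, by positivity, ?_⟩
  rw [nf_act hact, hμ, show y - x = rp a - x + (y - rp a) by ring, hRe]
  ring

omit [NeZero N] in
theorem out_ne {x : ℝ} (hx : Out N x) (k : ZMod N) : x - rp k ≠ 0 := by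
  intro h
  have := hx k
  rw [h] at this
  norm_num at this

theorem nf_word_ne {a : ZMod N} {t : List (ZMod N)} (hr : Rd opp (a :: t)) {x : ℝ}
    (hx : Out N x) : nf (hol opp hop hne (ev opp (a :: t))) x ≠ 0 := by
  obtain ⟨P, hP, h⟩ := nf_word opp hop hne hr hx
  rw [h]
  have h1 := out_ne hx (opp (lst a t))
  have h2 := out_ne hx a
  have h3 := cs_ne opp a t
  have h4 : rp a - x ≠ 0 := fun e => h2 (by linarith)
  positivity

theorem hol_ev_ne {a : ZMod N} {t : List (ZMod N)} (hr : Rd opp (a :: t)) :
    hol opp hop hne (ev opp (a :: t)) ≠ 1 := by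
  intro h
  have h1 := nf_word_ne opp hop hne hr (out_neg (N := N))
  rw [h, nf_one] at h1
  exact h1 rfl

include hop hne in
/-- The values of nonempty reduced words are nontrivial. -/
theorem ev_ne_one {a : ZMod N} {t : List (ZMod N)} (hr : Rd opp (a :: t)) :
    ev opp (a :: t) ≠ 1 := by
  intro h
  apply hol_ev_ne opp hop hne hr
  rw [h, map_one]

include hop hne in
/-- Uniqueness of reduced words. -/
theorem ev_inj (w : List (ZMod N)) : ∀ w', Rd opp w → Rd opp w' → ev opp w = ev opp w' →
    w = w' := by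
  induction w with
  | nil =>
    intro w' _ h2 h3
    match w', h2, h3 with
    | [], _, _ => rfl
    | b :: t, h2, h3 => exact absurd h3.symm (by rw [ev_nil]; exact ev_ne_one opp hop hne h2)
  | cons a t ih =>
    intro w' h1 h2 h3
    match w', h2, h3 with
    | [], _, h3 => exact absurd h3 (by rw [ev_nil]; exact ev_ne_one opp hop hne h1)
    | b :: t', h2, h3 =>
      have e : a = b := by
        obtain ⟨P, μ, y, hP, hact, hy, hμ, -, -⟩ :=
          act_word opp hop hne t a h1 (-1 / 2) (out_neg _)
        obtain ⟨P', μ', y', hP', hact', hy', hμ', -, -⟩ :=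
          act_word opp hop hne t' b h2 (-1 / 2) (out_neg _)
        have hμ0 : μ ≠ 0 := by
          rw [hμ]
          have h4 := out_ne (out_neg (N := N)) (opp (lst a t))
          have h5 := cs_ne opp a t
          positivity
        rw [h3] at hact
        obtain ⟨-, e⟩ := act_unique hact hact' hμ0
        subst e
        apply rp_inj
        have h6 : (rp a : ℝ) - rp b = -(y - rp a) + (y - rp b) := by ring
        rw [h6]
        refine lt_of_le_of_lt (abs_add_le _ _) ?_
        rw [abs_neg]
        linarith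
      subst e
      rw [ev_cons, ev_cons] at h3
      rw [ih t' (Rd_tail opp h1) (Rd_tail opp h2) (mul_left_cancel h3)]

omit [NeZero N] in
theorem exists_word {g : PuncturedGroup opp} (hg : g ≠ 1) :
    ∃ a t, Rd opp (a :: t) ∧ ev opp (a :: t) = g := by
  obtain ⟨w, h1, h2⟩ := exists_Rd opp g
  match w, h1, h2 with
  | [], _, h2 => exact absurd h2.symm (by rw [ev_nil]; exact hg)
  | a :: t, h1, h2 => exact ⟨a, t, h1, h2⟩

theorem nf_ne {g : PuncturedGroup opp} (hg : g ≠ 1) {x : ℝ} (hx : Out N x) :
    nf (hol opp hop hne g) x ≠ 0 := by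
  obtain ⟨a, t, h1, rfl⟩ := exists_word opp hg
  exact nf_word_ne opp hop hne h1 hx

/-! ## Gaps -/

/-- The points are in the same gap between the intervals (on the projective line). -/
def Same (N : ℕ) (x x' : ℝ) : Prop :=
  (∀ k : ZMod N, 0 < (x - rp k) * (x' - rp k)) ∨ (∀ k : ZMod N, (x - rp k) * (x' - rp k) < 0)

theorem nf_same {g : PuncturedGroup opp} (hg : g ≠ 1) {x x' : ℝ} (hx : Out N x)
    (hx' : Out N x') (hs : Same N x x') :
    0 < nf (hol opp hop hne g) x * nf (hol opp hop hne g) x' := by
  obtain ⟨a, t, h1, rfl⟩ := exists_word opp hg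
  obtain ⟨P, hP, h2⟩ := nf_word opp hop hne h1 hx
  obtain ⟨P', hP', h3⟩ := nf_word opp hop hne h1 hx'
  rw [h2, h3]
  have hc := cs_sq opp a t
  have e : P * (cs opp a t * (x - rp (opp (lst a t))) * (rp a - x)) *
      (P' * (cs opp a t * (x' - rp (opp (lst a t))) * (rp a - x'))) =
      P * P' * (cs opp a t * cs opp a t) *
        (((x - rp (opp (lst a t))) * (x' - rp (opp (lst a t)))) *
          ((x - rp a) * (x' - rp a))) := by ring
  rw [e, hc]
  have h4 : 0 < ((x - rp (opp (lst a t))) * (x' - rp (opp (lst a t)))) *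
      ((x - rp a) * (x' - rp a)) := by
    rcases hs with hs | hs
    · exact mul_pos (hs _) (hs _)
    · exact mul_pos_of_neg_of_neg (hs _) (hs _)
  positivity

/-- The points between the intervals. -/
theorem out_of_add {i : ZMod N} {d : ℝ} (h1 : 1 / 4 ≤ |d|) (h2 : |d| ≤ 1 / 2) :
    Out N (rp i + d) := by
  intro k
  by_cases h : i = k
  · subst h
    rw [show (rp i : ℝ) + d - rp i = d by ring]
    exact h1
  · have h3 := rp_diff h
    have h4 : |(rp i : ℝ) - rp k| ≤ |rp i + d - rp k| + |d| := by
      have := abs_add_le (rp i + d - rp k) (-d)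
      rw [show (rp i : ℝ) + d - rp k + -d = rp i - rp k by ring, abs_neg] at this
      exact this
    linarith

/-- Points on the same side of `rp i`. -/
theorem same_add {i : ZMod N} {d e : ℝ} (h1 : |d| ≤ 1 / 2) (h2 : |e| ≤ 1 / 2)
    (h3 : 0 < d * e) : Same N (rp i + d) (rp i + e) := by
  left
  intro k
  by_cases h : i = k
  · subst h
    rw [show (rp i : ℝ) + d - rp i = d by ring, show (rp i : ℝ) + e - rp i = e by ring]
    exact h3
  · have hv : i.val ≠ k.val := fun e => h (ZMod.val_injective N e)
    obtain ⟨a1, a2⟩ := abs_le.mp h1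
    obtain ⟨b1, b2⟩ := abs_le.mp h2
    unfold rp
    rcases Nat.lt_or_gt_of_ne hv with h3 | h3
    · have h4 : (i.val : ℝ) + 1 ≤ k.val := by exact_mod_cast h3
      exact mul_pos_of_neg_of_neg (by linarith) (by linarith)
    · have h4 : (k.val : ℝ) + 1 ≤ i.val := by exact_mod_cast h3
      exact mul_pos (by linarith) (by linarith)

/-- The gap between the interval `i` and the interval `i + 1`. -/
theorem same_next {i : ZMod N} {d e : ℝ} (h1 : 0 < d) (h2 : d ≤ 1 / 2) (h3 : 0 < e)
    (h4 : e ≤ 1 / 2) : Same N (rp i + d) (rp (i + 1) - e) := by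
  by_cases hi : i.val + 1 = N
  · right
    intro k
    have hz : (i + 1).val = 0 := by
      rw [ZMod.val_add]
      have : ((1 : ZMod N).val) = 1 % N := ZMod.val_one_eq_one_mod N
      rw [this, Nat.add_mod_mod, hi, Nat.mod_self]
    have hk := ZMod.val_lt k
    have hk' : k.val ≤ i.val := by omega
    have hk2 : (k.val : ℝ) ≤ i.val := by exact_mod_cast hk'
    have hk3 : (0 : ℝ) ≤ k.val := Nat.cast_nonneg _
    unfold rp
    rw [hz]
    push_cast
    exact mul_neg_of_pos_of_neg (by linarith) (by linarith)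
  · left
    intro k
    have hlt := ZMod.val_lt i
    have hz : (i + 1).val = i.val + 1 := by
      rw [ZMod.val_add]
      have : ((1 : ZMod N).val) = 1 % N := ZMod.val_one_eq_one_mod N
      rw [this, Nat.add_mod_mod]
      exact Nat.mod_eq_of_lt (by omega)
    unfold rp
    rw [hz]
    push_cast
    rcases Nat.lt_or_ge i.val k.val with h5 | h5
    · have h6 : (i.val : ℝ) + 1 ≤ k.val := by exact_mod_cast h5
      exact mul_pos_of_neg_of_neg (by linarith) (by linarith)
    · have h6 : (k.val : ℝ) ≤ i.val := by exact_mod_cast h5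
      exact mul_pos (by linarith) (by linarith)

/-! ## The gluing of the sides -/

/-- The inverse of the generator on the end points of the side. -/
theorem act_side (i : ZMod N) {d : ℝ} (hd : d = 1 / 4 ∨ d = -1 / 4) :
    Act (hol opp hop hne (st opp i)⁻¹) (rp i + d) (ep opp (opp i) * (4 * d)) (rp (opp i) - d) := by
  have hd0 : d ≠ 0 := by rcases hd with h | h <;> rw [h] <;> norm_num
  have h := act_gen opp (opp i) (y := rp i + d) (by rw [hop]; simpa using hd0)
  rw [hop, show (rp i : ℝ) + d - rp i = d by ring] at h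
  rw [st_inv, hol_st]
  have e : 1 / (16 * d) = d := by
    rcases hd with h | h <;> rw [h] <;> norm_num
  rw [e] at h
  exact h

theorem nf_side (i : ZMod N) (g : PuncturedGroup opp) {d : ℝ} (hd : d = 1 / 4 ∨ d = -1 / 4) :
    nf (hol opp hop hne ((st opp i)⁻¹ * g * st opp i)) (rp (opp i) - d) =
      nf (hol opp hop hne g) (rp i + d) := by
  have h := nf_conj (hol opp hop hne (st opp i)⁻¹) (hol opp hop hne g)
    (act_side opp hop hne i hd)
  have e : (ep opp (opp i) * (4 * d)) ^ 2 = 1 := by
    have h1 := ep_sq opp (opp i)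
    rcases hd with h | h <;> rw [h] <;> linear_combination h1
  rw [e, mul_one, ← map_inv, inv_inv, ← map_mul, ← map_mul] at h
  exact h

end

end Pool.Agent.AMU.Sch
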