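import Pool.Agent.Lib.AMU.Sch3

/-!
# Schottky geometry, part 4: cyclically reduced words, traces
-/

set_option autoImplicit false

namespace Pool.Agent.AMU.Sch

open Matrix

variable {N : ℕ} (opp : ZMod N → ZMod N)

/-- Cyclically reduced words. -/
def CR (a : ZMod N) (t : List (ZMod N)) : Prop := Rd opp (a :: t) ∧ a ≠ opp (lst a t)

theorem lst_append (a z : ZMod N) (t : List (ZMod N)) : lst a (t ++ [z]) = z := by
  unfold lst
  simp

section

variable [NeZero N] (hop : ∀ i, opp (opp i) = i) (hne : ∀ i, opp i ≠ i)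

/-- The axis of a cyclically reduced word has its attracting point in the interval of the first
letter; the trace. -/
theorem trace_cyc {a : ZMod N} {t : List (ZMod N)} (hc : CR opp a t) :
    3 ^ (t.length + 1) < |(hol opp hop hne (ev opp (a :: t))).1.trace| ∧
    0 < cs opp a t * (rp a - rp (opp (lst a t))) *
      (hol opp hop hne (ev opp (a :: t))).1.trace := by
  obtain ⟨hr, hz⟩ := hc
  set G := hol opp hop hne (ev opp (a :: t)) with hG
  set z' := opp (lst a t) with hz'
  have hI : ∀ x : ℝ, |x - rp a| ≤ 1 / 4 → 0 < (rp a - rp z') * (x - rp z') ∧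
      3 / 4 ≤ |x - rp z'| := by
    intro x hx
    obtain ⟨s1, s2⟩ := sgv_spec hz hx
    refine ⟨?_, s2⟩
    have h1 := sgv_rp hz
    rw [s1]
    have h2 : (rp a - rp z') * (sgv z' a * |x - rp z'|) =
      (sgv z' a * (rp a - rp z')) * |x - rp z'| := by ring
    rw [h2]
    have : 0 < |x - rp z'| := by linarith
    positivity
  have key : ∀ x : ℝ, |x - rp a| ≤ 1 / 4 → ∃ P μ y : ℝ, 0 < P ∧ Act G x μ y ∧
      μ = P * cs opp a t * (x - rp z') ∧ 3 ^ (t.length + 1) ≤ |μ| ∧ |y - rp a| ≤ 1 / 12 := by
    intro x hx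
    have h1 := (hI x hx).2
    obtain ⟨P, μ, y, hP, hact, -, hμ, h2, h3⟩ :=
      act_word opp hop hne t a hr x (le_trans (by norm_num) h1)
    exact ⟨P, μ, y, hP, hact, hμ, h2 h1, h3 (Or.inr h1)⟩
  have hcont : Continuous (nf G) := by
    unfold nf
    fun_prop
  -- the signs at the ends
  have hend : 0 < cs opp a t * (rp a - rp z') * nf G (rp a - 1 / 4) ∧
      cs opp a t * (rp a - rp z') * nf G (rp a + 1 / 4) < 0 := by
    have hcs := cs_sq opp a t
    constructor
    · have hx : |(rp a : ℝ) - 1 / 4 - rp a| ≤ 1 / 4 := by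
        rw [show (rp a : ℝ) - 1 / 4 - rp a = -(1 / 4) by ring, abs_neg]
        norm_num
      obtain ⟨P, μ, y, hP, hact, hμ, -, hy⟩ := key _ hx
      rw [nf_act hact, hμ]
      have e : cs opp a t * (rp a - rp z') * (P * cs opp a t * (rp a - 1 / 4 - rp z') *
          (y - (rp a - 1 / 4))) = (cs opp a t * cs opp a t) * P *
            ((rp a - rp z') * (rp a - 1 / 4 - rp z')) * (y - (rp a - 1 / 4)) := by ring
      rw [e, hcs]
      have h1 := (hI _ hx).1
      have h2 : 0 < y - (rp a - 1 / 4) := by
        have := (abs_le.mp hy).1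
        linarith
      positivity
    · have hx : |(rp a : ℝ) + 1 / 4 - rp a| ≤ 1 / 4 := by
        rw [show (rp a : ℝ) + 1 / 4 - rp a = 1 / 4 by ring]
        norm_num
      obtain ⟨P, μ, y, hP, hact, hμ, -, hy⟩ := key _ hx
      rw [nf_act hact, hμ]
      have e : cs opp a t * (rp a - rp z') * (P * cs opp a t * (rp a + 1 / 4 - rp z') *
          (y - (rp a + 1 / 4))) = -((cs opp a t * cs opp a t) * P *
            ((rp a - rp z') * (rp a + 1 / 4 - rp z')) * (rp a + 1 / 4 - y)) := by ring
      rw [e, hcs, neg_lt_zero]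
      have h1 := (hI _ hx).1
      have h2 : 0 < rp a + 1 / 4 - y := by
        have := (abs_le.mp hy).2
        linarith
      positivity
  obtain ⟨x, hx, hx0⟩ : ∃ x ∈ Set.Icc (rp a - 1 / 4 : ℝ) (rp a + 1 / 4),
      cs opp a t * (rp a - rp z') * nf G x = 0 := by
    have := intermediate_value_Icc' (a := (rp a - 1 / 4 : ℝ)) (b := rp a + 1 / 4) (by linarith)
      (f := fun x => cs opp a t * (rp a - rp z') * nf G x)
      (Continuous.continuousOn (by fun_prop))
    have h0 : (0 : ℝ) ∈ Set.Icc (cs opp a t * (rp a - rp z') * nf G (rp a + 1 / 4))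
        (cs opp a t * (rp a - rp z') * nf G (rp a - 1 / 4)) := ⟨hend.2.le, hend.1.le⟩
    obtain ⟨x, hx, h⟩ := this h0
    exact ⟨x, hx, h⟩
  have hxa : |x - rp a| ≤ 1 / 4 := by
    rw [abs_le]
    exact ⟨by linarith [hx.1], by linarith [hx.2]⟩
  obtain ⟨P, μ, y, hP, hact, hμ, hbig, -⟩ := key x hxa
  have h3 : (3 : ℝ) ≤ 3 ^ (t.length + 1) := by
    have : (1 : ℝ) ≤ 3 ^ t.length := one_le_pow₀ (by norm_num)
    rw [pow_succ]; linarith
  have hμ0 : μ ≠ 0 := by
    intro h
    rw [h, abs_zero] at hbig
    linarith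
  have hne0 : cs opp a t * (rp a - rp z') ≠ 0 := by
    intro h
    have := hend.1
    rw [h, zero_mul] at this
    exact lt_irrefl _ this
  have hnf0 : nf G x = 0 := by
    rcases mul_eq_zero.mp hx0 with h | h
    · exact absurd h hne0
    · exact h
  rw [nf_act hact] at hnf0
  have hyx : y = x := by
    rcases mul_eq_zero.mp hnf0 with h | h
    · exact absurd h hμ0
    · linarith
  rw [hyx] at hact
  have htr := trace_of_fix hact
  have hμ2 : 0 < μ ^ 2 := by positivity
  constructor
  · have h4 : |G.1.trace| * |μ| = |μ| ^ 2 + 1 := by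
      rw [← abs_mul, htr, sq_abs, abs_of_pos (by positivity)]
    have h5 : |μ| < |G.1.trace| := by
      by_contra h
      rw [not_lt] at h
      have h6 : |G.1.trace| * |μ| ≤ |μ| * |μ| := mul_le_mul_of_nonneg_right h (abs_nonneg _)
      nlinarith
    linarith
  · have h4 : 0 < G.1.trace * μ := by rw [htr]; positivity
    have h5 : 0 < μ * (cs opp a t * (rp a - rp z')) := by
      rw [hμ]
      have e : P * cs opp a t * (x - rp z') * (cs opp a t * (rp a - rp z')) =
        P * (cs opp a t * cs opp a t) * ((rp a - rp z') * (x - rp z')) := by ring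
      rw [e, cs_sq]
      have := (hI x hxa).1
      positivity
    have h6 : 0 < (G.1.trace * μ) * (μ * (cs opp a t * (rp a - rp z'))) := mul_pos h4 h5
    have h7 : (G.1.trace * μ) * (μ * (cs opp a t * (rp a - rp z'))) =
      μ ^ 2 * (cs opp a t * (rp a - rp z') * G.1.trace) := by ring
    rw [h7] at h6
    exact (mul_pos_iff_of_pos_left hμ2).mp h6

omit [NeZero N] in
include hne in
/-- Every nontrivial element is conjugate to a cyclically reduced word. -/
theorem exists_CR_aux (n : ℕ) : ∀ w : List (ZMod N), w.length ≤ n → Rd opp w →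
    ev opp w ≠ 1 → ∃ a t, CR opp a t ∧ IsConj (ev opp w) (ev opp (a :: t)) := by
  induction n with
  | zero =>
    intro w hw _ h
    rw [Nat.le_zero, List.length_eq_zero_iff] at hw
    subst hw
    exact absurd (ev_nil opp) h
  | succ n ih =>
    intro w hw hr h
    match w, hw, hr, h with
    | [], _, _, h => exact absurd (ev_nil opp) h
    | a :: t, hw, hr, h =>
      by_cases ha : a = opp (lst a t)
      · rcases List.eq_nil_or_concat t with ht | ⟨t', z, ht⟩
        · subst ht
          exact absurd ha.symm (hne a)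
        · rw [List.concat_eq_append] at ht
          subst ht
          rw [lst_append] at ha
          have hr' : Rd opp t' := List.IsChain.left_of_append (Rd_tail opp hr)
          have e : ev opp (a :: (t' ++ [z])) = st opp a * ev opp t' * (st opp a)⁻¹ := by
            rw [ev_cons, ev_append, ev_cons, ev_nil, mul_one, ← mul_assoc]
            congr 1
            have h1 := st_mul opp z
            rw [← ha] at h1
            exact eq_inv_of_mul_eq_one_left h1
          have hcj : IsConj (ev opp t') (ev opp (a :: (t' ++ [z]))) :=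
            isConj_iff.mpr ⟨st opp a, e.symm⟩
          have h' : ev opp t' ≠ 1 := by
            intro h0
            rw [e, h0, mul_one, mul_inv_cancel] at h
            exact h rfl
          have hlen : t'.length ≤ n := by
            rw [List.length_cons, List.length_append] at hw
            omega
          obtain ⟨b, s, h1, h2⟩ := ih t' hlen hr' h'
          exact ⟨b, s, h1, hcj.symm.trans h2⟩
      · exact ⟨a, t, ⟨hr, ha⟩, IsConj.refl _⟩

omit [NeZero N] in
include hne in
theorem exists_CR {g : PuncturedGroup opp} (hg : g ≠ 1) :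
    ∃ a t, CR opp a t ∧ IsConj g (ev opp (a :: t)) := by
  obtain ⟨w, h1, h2⟩ := exists_Rd opp g
  obtain ⟨a, t, h3, h4⟩ := exists_CR_aux opp hne w.length w le_rfl h1 (by rw [h2]; exact hg)
  exact ⟨a, t, h3, by rw [← h2]; exact h4⟩

theorem trace_isConj {g h : PuncturedGroup opp} (hc : IsConj g h) :
    (hol opp hop hne h).1.trace = (hol opp hop hne g).1.trace := by
  obtain ⟨k, hk⟩ := isConj_iff.mp hc
  rw [← hk, map_mul, map_mul, map_inv, trace_conj]

theorem hyp {g : PuncturedGroup opp} (hg : g ≠ 1) : 2 < |(hol opp hop hne g).1.trace| := by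
  obtain ⟨a, t, h1, h2⟩ := exists_CR opp hne hg
  rw [← trace_isConj opp hop hne h2]
  have h3 := (trace_cyc opp hop hne h1).1
  have : (1 : ℝ) ≤ 3 ^ t.length := one_le_pow₀ (by norm_num)
  rw [pow_succ] at h3
  linarith

theorem pow_bound (T : ℝ) : ∃ n : ℕ, ∀ m : ℕ, (3 : ℝ) ^ m < T → m < n := by
  obtain ⟨n, hn⟩ := pow_unbounded_of_one_lt T (by norm_num : (1 : ℝ) < 3)
  refine ⟨n, fun m hm => ?_⟩
  by_contra h
  rw [not_lt] at h
  have : (3 : ℝ) ^ n ≤ 3 ^ m := pow_le_pow_right₀ (by norm_num) h
  linarith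

theorem disc (T : ℝ) :
    {t : ℝ | t ≤ T ∧ ∃ g : PuncturedGroup opp, |(hol opp hop hne g).1.trace| = t}.Finite := by
  obtain ⟨n, hn⟩ := pow_bound T
  have hf := (List.finite_length_lt (ZMod N) n).image
    (fun w => |(hol opp hop hne (ev opp w)).1.trace|)
  refine (hf.union (Set.finite_singleton (|(hol opp hop hne 1).1.trace|))).subset ?_
  rintro t ⟨ht, g, hg⟩
  by_cases hg1 : g = 1
  · right
    rw [← hg, hg1]
    rfl
  · left
    obtain ⟨a, s, h1, h2⟩ := exists_CR opp hne hg1
    refine ⟨a :: s, ?_, ?_⟩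
    · have h3 := (trace_cyc opp hop hne h1).1
      rw [trace_isConj opp hop hne h2, hg] at h3
      have := hn _ (lt_of_lt_of_le h3 ht)
      simpa using this
    · show |(hol opp hop hne (ev opp (a :: s))).1.trace| = t
      rw [trace_isConj opp hop hne h2, hg]

end

end Pool.Agent.AMU.Sch
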