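import Pool.Agent.Lib.AMU.Sch4
import Pool.Agent.Lib.AMU.Corner

/-!
# Schottky geometry, part 5: the sides, crossing, the exit side is the first letter
-/

set_option autoImplicit false

namespace Pool.Agent.AMU.Sch

open Matrix

variable {N : ℕ} (opp : ZMod N → ZMod N)

/-- The start of the side. -/
noncomputable def AA (i : ZMod N) : Matrix (Fin 2) (Fin 2) ℝ := pf (rp i - 1 / 4)

/-- The end of the side. -/
noncomputable def BB (i : ZMod N) : Matrix (Fin 2) (Fin 2) ℝ := pf (rp i + 1 / 4)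

theorem pf00 (x : ℝ) : pf x 0 0 = x ^ 2 := rfl
theorem pf01 (x : ℝ) : pf x 0 1 = x := rfl
theorem pf10 (x : ℝ) : pf x 1 0 = x := rfl
theorem pf11 (x : ℝ) : pf x 1 1 = 1 := rfl

theorem pf_psd (x : ℝ) : 0 ≤ pf x 0 0 ∧ 0 ≤ pf x 1 1 ∧ 0 ≤ (pf x).det := by
  rw [pf00, pf11, det_fin_two, pf00, pf11, pf01, pf10]
  refine ⟨sq_nonneg x, zero_le_one, le_of_eq ?_⟩
  ring

theorem pf_ne (x : ℝ) : pf x ≠ 0 := by
  intro h
  have h1 : pf x 1 1 = (0 : Matrix (Fin 2) (Fin 2) ℝ) 1 1 := by rw [h]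
  rw [pf11, Matrix.zero_apply] at h1
  exact one_ne_zero h1

theorem det3_pf (x y z : ℝ) : det3 (pf x) (pf y) (pf z) = (y - x) * (z - x) * (z - y) := by
  unfold det3
  rw [det_fin_three]
  simp only [pf00, pf01, pf11, of_apply, cons_val', cons_val_zero, cons_val_one, cons_val_two,
    empty_val', cons_val_fin_one, head_cons, tail_cons, head_fin_const]
  ring

theorem act_pf {g : SL2} {x μ y : ℝ} (h : Act g x μ y) :
    g.1 * pf x * g.1ᵀ = (μ ^ 2) • pf y := by
  obtain ⟨h1, h2⟩ := h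
  ext a b
  rw [Matrix.smul_apply, mul_apply, Fin.sum_univ_two, mul_apply, mul_apply, Fin.sum_univ_two,
    Fin.sum_univ_two, transpose_apply, transpose_apply, pf00, pf01, pf10, pf11, smul_eq_mul]
  fin_cases a <;> fin_cases b <;> simp only [Fin.zero_eta, Fin.mk_one, Fin.isValue, pf00, pf01,
    pf10, pf11]
  · linear_combination (g.1 0 0 * x + g.1 0 1 + μ * y) * h1
  · linear_combination (g.1 1 0 * x + g.1 1 1) * h1 + μ * y * h2
  · linear_combination (g.1 1 0 * x + g.1 1 1) * h1 + μ * y * h2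
  · linear_combination (g.1 1 0 * x + g.1 1 1 + μ) * h2

theorem axN_pf (g : SL2) (x : ℝ) : axN g.1 (pf x) = g.1.trace * nf g x := by
  unfold axN
  rw [trace_pf]

section

variable [NeZero N] (hop : ∀ i, opp (opp i) = i) (hne : ∀ i, opp i ≠ i)

omit [NeZero N] in
theorem rp_lt_rp {i j : ZMod N} (h : i.val < j.val) : (rp i : ℝ) + 1 ≤ rp j := by
  unfold rp
  exact_mod_cast h

omit [NeZero N] in
theorem conv_AA (i j k : ZMod N) (h1 : i.val < j.val) (h2 : j.val < k.val) :
    0 < det3 (AA i) (AA j) (AA k) := by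
  unfold AA
  rw [det3_pf]
  have h3 := rp_lt_rp h1
  have h4 := rp_lt_rp h2
  have a1 : (0 : ℝ) < rp j - 1 / 4 - (rp i - 1 / 4) := by linarith
  have a2 : (0 : ℝ) < rp k - 1 / 4 - (rp i - 1 / 4) := by linarith
  have a3 : (0 : ℝ) < rp k - 1 / 4 - (rp j - 1 / 4) := by linarith
  positivity

theorem glueAA (i : ZMod N) : ∃ c : ℝ, 0 < c ∧
    (hol opp hop hne (st opp i)).1 * BB (opp i) * (hol opp hop hne (st opp i)).1ᵀ =
      c • AA i := by
  have h := act_gen opp i (y := rp (opp i) + 1 / 4) (by ring_nf; norm_num)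
  rw [show (rp (opp i) : ℝ) + 1 / 4 - rp (opp i) = 1 / 4 by ring] at h
  have h1 := act_pf h
  refine ⟨(ep opp i * (4 * (1 / 4))) ^ 2, ?_, ?_⟩
  · have := ep_sq opp i
    nlinarith
  · rw [hol_st]
    unfold BB AA
    rw [h1]
    norm_num

theorem glueBB (i : ZMod N) : ∃ c : ℝ, 0 < c ∧
    (hol opp hop hne (st opp i)).1 * AA (opp i) * (hol opp hop hne (st opp i)).1ᵀ =
      c • BB i := by
  have h := act_gen opp i (y := rp (opp i) - 1 / 4) (by ring_nf; norm_num)
  rw [show (rp (opp i) : ℝ) - 1 / 4 - rp (opp i) = -1 / 4 by ring] at h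
  have h1 := act_pf h
  refine ⟨(ep opp i * (4 * (-1 / 4))) ^ 2, ?_, ?_⟩
  · have := ep_sq opp i
    nlinarith
  · rw [hol_st]
    unfold BB AA
    rw [h1]
    norm_num

theorem outA (i : ZMod N) : Out N (rp i - 1 / 4) := by
  have := out_of_add (i := i) (d := -(1 / 4)) (by norm_num) (by norm_num)
  rw [← sub_eq_add_neg] at this
  exact this

theorem outB (i : ZMod N) : Out N (rp i + 1 / 4) :=
  out_of_add (i := i) (d := 1 / 4) (by norm_num) (by norm_num)

theorem corner (g : PuncturedGroup opp) (i : ZMod N) (hg : g ≠ 1) :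
    0 < axN (hol opp hop hne g).1 (BB i) ↔ 0 < axN (hol opp hop hne g).1 (AA (i + 1)) := by
  unfold AA BB
  rw [axN_pf, axN_pf]
  have hs := nf_same opp hop hne hg (outB i) (outA (i + 1))
    (same_next (by norm_num) (by norm_num) (by norm_num) (by norm_num))
  have ht : (hol opp hop hne g).1.trace ≠ 0 := by
    intro h
    have := hyp opp hop hne hg
    rw [h] at this
    norm_num at this
  generalize (hol opp hop hne g).1.trace = T at *
  generalize nf (hol opp hop hne g) (rp i + 1 / 4) = X at *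
  generalize nf (hol opp hop hne g) (rp (i + 1) - 1 / 4) = Y at *
  have hT : 0 < T * T := mul_self_pos.mpr ht
  have hXY : 0 < (T * X) * (T * Y) := by
    have e : (T * X) * (T * Y) = (T * T) * (X * Y) := by ring
    rw [e]
    exact mul_pos hT hs
  constructor
  · intro h
    exact (mul_pos_iff_of_pos_left h).mp hXY
  · intro h
    exact (mul_pos_iff_of_pos_right h).mp hXY

/-- The sign function of a cyclically reduced word. -/
theorem ax_CR {a : ZMod N} {t : List (ZMod N)} (hc : CR opp a t) {x : ℝ} (hx : Out N x) :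
    ∃ R : ℝ, 0 < R ∧ axN (hol opp hop hne (ev opp (a :: t))).1 (pf x) =
      R * ((rp a - rp (opp (lst a t))) * (x - rp (opp (lst a t))) * (rp a - x)) := by
  obtain ⟨P, hP, h1⟩ := nf_word opp hop hne hc.1 hx
  have h2 := (trace_cyc opp hop hne hc).2
  have h4 : (rp a : ℝ) - rp (opp (lst a t)) ≠ 0 := by
    intro h
    have := rp_diff hc.2
    rw [h, abs_zero] at this
    linarith
  have h3 : (0 : ℝ) < (rp a - rp (opp (lst a t))) ^ 2 := by positivity
  rw [axN_pf, h1]
  refine ⟨P * (cs opp a t * (rp a - rp (opp (lst a t))) *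
    (hol opp hop hne (ev opp (a :: t))).1.trace) / (rp a - rp (opp (lst a t))) ^ 2,
    by positivity, ?_⟩
  field_simp

theorem side_pos {u k : ZMod N} (h : u ≠ k) :
    0 < ((rp u : ℝ) - 1 / 4 - rp k) * (rp u + 1 / 4 - rp k) := by
  have h1 := rp_diff h
  have h2 : 1 ≤ ((rp u : ℝ) - rp k) ^ 2 := by
    rw [← sq_abs]
    nlinarith
  nlinarith

theorem side_pos' {a k : ZMod N} (h : a ≠ k) :
    0 < ((rp a : ℝ) - rp k) * (rp a + 1 / 4 - rp k) ∧
      0 < ((rp a : ℝ) - rp k) * (rp a - 1 / 4 - rp k) := by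
  have h1 := rp_diff h
  rcases le_total 0 ((rp a : ℝ) - rp k) with h2 | h2
  · rw [abs_of_nonneg h2] at h1
    exact ⟨mul_pos (by linarith) (by linarith), mul_pos (by linarith) (by linarith)⟩
  · rw [abs_of_nonpos h2] at h1
    exact ⟨mul_pos_of_neg_of_neg (by linarith) (by linarith),
      mul_pos_of_neg_of_neg (by linarith) (by linarith)⟩

/-- The exit side of a cyclically reduced word is the first letter. -/
theorem exit_CR {a : ZMod N} {t : List (ZMod N)} (hc : CR opp a t) :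
    OnR (hol opp hop hne) AA (ev opp (a :: t)) a ∧
      ¬ OnR (hol opp hop hne) AA (ev opp (a :: t)) (a + 1) := by
  have hg := ev_ne_one opp hop hne hc.1
  unfold OnR
  rw [← corner opp hop hne _ _ hg]
  constructor
  · obtain ⟨R, hR, h⟩ := ax_CR opp hop hne hc (outA a)
    unfold AA
    rw [h]
    have h1 := (side_pos' hc.2).2
    have e : (rp a : ℝ) - (rp a - 1 / 4) = 1 / 4 := by ring
    rw [e]
    positivity
  · obtain ⟨R, hR, h⟩ := ax_CR opp hop hne hc (outB a)
    unfold BB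
    rw [h, not_lt]
    have h1 := (side_pos' hc.2).1
    have e : (rp a : ℝ) - (rp a + 1 / 4) = -(1 / 4) := by ring
    rw [e]
    have e2 : R * ((rp a - rp (opp (lst a t))) * (rp a + 1 / 4 - rp (opp (lst a t))) *
      -(1 / 4)) = -(R * ((rp a - rp (opp (lst a t))) * (rp a + 1 / 4 - rp (opp (lst a t)))) *
        (1 / 4)) := by ring
    rw [e2, neg_nonpos]
    positivity

theorem exit_unique {a : ZMod N} {t : List (ZMod N)} (hc : CR opp a t) {u : ZMod N}
    (h1 : OnR (hol opp hop hne) AA (ev opp (a :: t)) u)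
    (h2 : ¬ OnR (hol opp hop hne) AA (ev opp (a :: t)) (u + 1)) : u = a := by
  have hg := ev_ne_one opp hop hne hc.1
  unfold OnR at h1 h2
  rw [← corner opp hop hne _ _ hg] at h2
  obtain ⟨R, hR, h3⟩ := ax_CR opp hop hne hc (outA u)
  obtain ⟨R', hR', h4⟩ := ax_CR opp hop hne hc (outB u)
  unfold AA at h1
  unfold BB at h2
  rw [h3] at h1
  rw [h4] at h2
  by_contra hne'
  have h5 : 0 < ((rp a - rp (opp (lst a t))) * (rp u - 1 / 4 - rp (opp (lst a t))) *
      (rp a - (rp u - 1 / 4)) : ℝ) := (mul_pos_iff_of_pos_left hR).mp h1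
  have h6 : ((rp a - rp (opp (lst a t))) * (rp u + 1 / 4 - rp (opp (lst a t))) *
      (rp a - (rp u + 1 / 4)) : ℝ) ≤ 0 := by
    by_contra h
    rw [not_le] at h
    exact h2 (mul_pos hR' h)
  by_cases hu : u = opp (lst a t)
  · rw [← hu] at h5
    have h7 := (side_pos' (Ne.symm hne')).1
    have e : ((rp a - rp u) * (rp u - 1 / 4 - rp u) * (rp a - (rp u - 1 / 4)) : ℝ) =
      -((rp a - rp u) * (rp a + 1 / 4 - rp u) * (1 / 4)) := by ring
    rw [e] at h5
    linarith
  · have h7 := side_pos hu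
    have h8 := side_pos hne'
    set d := (rp a - rp (opp (lst a t)) : ℝ) with hd
    have h9 : 0 < (d * (rp u - 1 / 4 - rp (opp (lst a t))) * (rp a - (rp u - 1 / 4))) *
        ((rp u - 1 / 4 - rp (opp (lst a t))) * (rp u + 1 / 4 - rp (opp (lst a t)))) *
        ((rp u - 1 / 4 - rp a) * (rp u + 1 / 4 - rp a)) := by positivity
    have e : (d * (rp u - 1 / 4 - rp (opp (lst a t))) * (rp a - (rp u - 1 / 4))) *
        ((rp u - 1 / 4 - rp (opp (lst a t))) * (rp u + 1 / 4 - rp (opp (lst a t)))) *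
        ((rp u - 1 / 4 - rp a) * (rp u + 1 / 4 - rp a)) =
        (d * (rp u + 1 / 4 - rp (opp (lst a t))) * (rp a - (rp u + 1 / 4))) *
        ((rp u - 1 / 4 - rp (opp (lst a t))) * (rp a - (rp u - 1 / 4))) ^ 2 := by ring
    rw [e] at h9
    have h10 : (d * (rp u + 1 / 4 - rp (opp (lst a t))) * (rp a - (rp u + 1 / 4))) *
        ((rp u - 1 / 4 - rp (opp (lst a t))) * (rp a - (rp u - 1 / 4))) ^ 2 ≤ 0 :=
      mul_nonpos_of_nonpos_of_nonneg h6 (sq_nonneg _)
    linarith

/-- An element whose axis crosses the polygon is a cyclically reduced word. -/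
theorem CR_of_cross {g : PuncturedGroup opp} {i j : ZMod N}
    (hi : OnR (hol opp hop hne) AA g i) (hj : ¬ OnR (hol opp hop hne) AA g j) :
    ∃ a t, CR opp a t ∧ ev opp (a :: t) = g := by
  have hg : g ≠ 1 := by
    rintro rfl
    unfold OnR AA at hi
    rw [axN_pf, map_one, nf_one, mul_zero] at hi
    exact lt_irrefl _ hi
  obtain ⟨a, t, h1, rfl⟩ := exists_word opp hg
  refine ⟨a, t, ⟨h1, ?_⟩, rfl⟩
  intro ha
  obtain ⟨P, hP, h2⟩ := nf_word opp hop hne h1 (outA i)
  obtain ⟨P', hP', h3⟩ := nf_word opp hop hne h1 (outA j)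
  unfold OnR AA at hi hj
  rw [axN_pf, h2, ← ha] at hi
  rw [axN_pf, h3, ← ha] at hj
  apply hj
  have n1 := out_ne (outA i) a
  have n2 := out_ne (outA j) a
  generalize (hol opp hop hne (ev opp (a :: t))).1.trace = T at *
  have e1 : T * (P * (cs opp a t * ((rp i : ℝ) - 1 / 4 - rp a) * (rp a - (rp i - 1 / 4)))) =
    -(T * cs opp a t) * (P * (rp i - 1 / 4 - rp a) ^ 2) := by ring
  have e2 : T * (P' * (cs opp a t * ((rp j : ℝ) - 1 / 4 - rp a) * (rp a - (rp j - 1 / 4)))) =
    -(T * cs opp a t) * (P' * (rp j - 1 / 4 - rp a) ^ 2) := by ring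
  rw [e1] at hi
  rw [e2]
  have h4 : 0 < P * ((rp i : ℝ) - 1 / 4 - rp a) ^ 2 := by positivity
  have h5 : 0 < P' * ((rp j : ℝ) - 1 / 4 - rp a) ^ 2 := by positivity
  have h6 := (mul_pos_iff_of_pos_right h4).mp hi
  exact mul_pos h6 h5

theorem exists_cross (g : PuncturedGroup opp) (hg : g ≠ 1) :
    ∃ k : PuncturedGroup opp, Crosses (hol opp hop hne) (AA (N := N)) (k * g * k⁻¹) := by
  obtain ⟨a, t, h1, h2⟩ := exists_CR opp hne hg
  obtain ⟨k, hk⟩ := isConj_iff.mp h2
  refine ⟨k, a, a + 1, ?_⟩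
  rw [hk]
  exact exit_CR opp hop hne h1

theorem finite_cross (g : PuncturedGroup opp) :
    {h : PuncturedGroup opp | IsConj g h ∧ Crosses (hol opp hop hne) (AA (N := N)) h}.Finite := by
  obtain ⟨n, hn⟩ := pow_bound |(hol opp hop hne g).1.trace|
  refine ((List.finite_length_lt (ZMod N) n).image (ev opp)).subset ?_
  rintro h ⟨h1, i, j, h2, h3⟩
  obtain ⟨a, t, h4, rfl⟩ := CR_of_cross opp hop hne h2 h3
  refine ⟨a :: t, ?_, rfl⟩
  have h5 := (trace_cyc opp hop hne h4).1
  rw [trace_isConj opp hop hne h1] at h5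
  have := hn _ h5
  simpa using this

end

end Pool.Agent.AMU.Sch
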