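import Pool.Agent.Lib.AMU.Sch5

/-!
# Schottky geometry, part 6: strands are the rotations of a cyclically reduced word
-/

set_option autoImplicit false

namespace Pool.Agent.AMU.Sch

open Matrix

variable {N : ℕ} (opp : ZMod N → ZMod N)

/-! ## Commuting words -/

/-- Two elements are powers of a common element, with positive exponents if the words are not
empty. -/
def Pw (u v : List (ZMod N)) : Prop :=
  ∃ (c : PuncturedGroup opp) (i j : ℕ), ev opp u = c ^ i ∧ ev opp v = c ^ j ∧
    (u ≠ [] → 1 ≤ i) ∧ (v ≠ [] → 1 ≤ j)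

theorem Pw_symm {u v : List (ZMod N)} (h : Pw opp u v) : Pw opp v u := by
  obtain ⟨c, i, j, h1, h2, h3, h4⟩ := h
  exact ⟨c, j, i, h2, h1, h4, h3⟩

theorem Pw_step {u v : List (ZMod N)} (hu : u ≠ []) (hle : u.length ≤ v.length)
    (hc : u ++ v = v ++ u)
    (ih : ∀ v', v'.length < v.length → u ++ v' = v' ++ u → Pw opp u v') : Pw opp u v := by
  have hp : u <+: v := by
    refine List.prefix_of_prefix_length_le (l₃ := u ++ v) (List.prefix_append u v) ?_ hle
    rw [hc]
    exact List.prefix_append v u
  obtain ⟨v', rfl⟩ := hp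
  have hpos : 0 < u.length := List.length_pos_of_ne_nil hu
  have h1 : v'.length < (u ++ v').length := by
    rw [List.length_append]; omega
  have h2 : u ++ v' = v' ++ u := by
    rw [List.append_assoc] at hc
    exact List.append_cancel_left hc
  obtain ⟨c, i, j, h3, h4, h5, -⟩ := ih v' h1 h2
  refine ⟨c, i, i + j, h3, ?_, h5, ?_⟩
  · rw [ev_append, h3, h4, pow_add]
  · intro _
    have := h5 hu
    omega

theorem Pw_of_comm (n : ℕ) : ∀ u v : List (ZMod N), u.length + v.length ≤ n →
    u ++ v = v ++ u → Pw opp u v := by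
  induction n with
  | zero =>
    intro u v h _
    have hu : u = [] := List.length_eq_zero_iff.mp (by omega)
    have hv : v = [] := List.length_eq_zero_iff.mp (by omega)
    subst hu hv
    exact ⟨1, 0, 0, by rw [ev_nil, pow_zero], by rw [ev_nil, pow_zero], fun h => absurd rfl h,
      fun h => absurd rfl h⟩
  | succ n ih =>
    intro u v h hc
    by_cases hu : u = []
    · subst hu
      exact ⟨ev opp v, 0, 1, by rw [ev_nil, pow_zero], by rw [pow_one], fun h => absurd rfl h,
        fun _ => le_rfl⟩
    by_cases hv : v = []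
    · subst hv
      exact ⟨ev opp u, 1, 0, by rw [pow_one], by rw [ev_nil, pow_zero], fun _ => le_rfl,
        fun h => absurd rfl h⟩
    rcases le_total u.length v.length with hle | hle
    · refine Pw_step opp hu hle hc ?_
      intro v' h1 h2
      exact ih u v' (by omega) h2
    · refine Pw_symm opp (Pw_step opp hv hle hc.symm ?_)
      intro u' h1 h2
      exact ih v u' (by omega) h2

/-- A rotation invariant word is a proper power. -/
theorem power_of_rotate {w : List (ZMod N)} {n : ℕ} (h0 : 0 < n) (h1 : n < w.length)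
    (h2 : w.rotate n = w) : IsProperPower (ev opp w) := by
  have h3 : w.take n ++ w.drop n = w := List.take_append_drop n w
  have h4 : w.drop n ++ w.take n = w := by
    rw [← List.rotate_eq_drop_append_take h1.le, h2]
  obtain ⟨c, i, j, h5, h6, h7, h8⟩ := Pw_of_comm opp _ (w.take n) (w.drop n) le_rfl
    (by rw [h3, h4])
  have h9 : w.take n ≠ [] := by
    intro h
    have := congrArg List.length h
    rw [List.length_take, List.length_nil] at this
    omega
  have h10 : w.drop n ≠ [] := by
    intro h
    have := congrArg List.length h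
    rw [List.length_drop, List.length_nil] at this
    omega
  refine ⟨c, i + j, ?_, ?_⟩
  · have := h7 h9
    have := h8 h10
    omega
  · rw [← h3, ev_append, h5, h6, pow_add]

/-! ## Rotations -/

theorem Rd_concat {s : List (ZMod N)} : ∀ {b z : ZMod N}, Rd opp (b :: s) →
    z ≠ opp (lst b s) → Rd opp (b :: (s ++ [z])) := by
  induction s with
  | nil =>
    intro b z _ h
    rw [lst_nil] at h
    exact (Rd_cons_cons opp b z []).mpr ⟨h, Rd_single opp z⟩
  | cons c s ih =>
    intro b z h1 h2
    rw [lst_cons] at h2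
    obtain ⟨h3, h4⟩ := (Rd_cons_cons opp b c s).mp h1
    exact (Rd_cons_cons opp b c (s ++ [z])).mpr ⟨h3, ih h4 h2⟩

/-- Cyclically reduced nonempty words. -/
def CW (w : List (ZMod N)) : Prop := ∃ a t, w = a :: t ∧ CR opp a t

theorem CW_rotate {w : List (ZMod N)} (h : CW opp w) : CW opp (w.rotate 1) := by
  obtain ⟨a, t, rfl, h1, h2⟩ := h
  rw [List.rotate_cons_succ, List.rotate_zero]
  match t, h1, h2 with
  | [], h1, h2 => exact ⟨a, [], rfl, h1, h2⟩
  | b :: s, h1, h2 =>
    obtain ⟨h3, h4⟩ := (Rd_cons_cons opp a b s).mp h1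
    refine ⟨b, s ++ [a], rfl, Rd_concat opp h4 ?_, ?_⟩
    · rw [lst_cons] at h2
      exact h2
    · rw [lst_append]
      exact h3

section

variable [NeZero N] (hop : ∀ i, opp (opp i) = i) (hne : ∀ i, opp i ≠ i)

/-- One step of a strand. -/
theorem strand_step {w : List (ZMod N)} (hw : CW opp w) {u : ZMod N}
    (h1 : OnR (hol opp hop hne) AA (ev opp w) u)
    (h2 : ¬ OnR (hol opp hop hne) AA (ev opp w) (u + 1)) :
    w.head? = some u ∧ (st opp u)⁻¹ * ev opp w * st opp u = ev opp (w.rotate 1) := by
  obtain ⟨a, t, rfl, hc⟩ := hw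
  have e := exit_unique opp hop hne hc h1 h2
  subst e
  refine ⟨rfl, ?_⟩
  rw [List.rotate_cons_succ, List.rotate_zero, ev_cons, ev_append, ev_cons, ev_nil, mul_one]
  group

/-- The strand of a cyclically reduced word. -/
theorem strand {w : List (ZMod N)} (hw : CW opp w) {n : ℕ} {u : ℕ → ZMod N}
    {h : ℕ → PuncturedGroup opp} (h0 : h 0 = ev opp w)
    (hs : IsStrand (st opp) (hol opp hop hne) AA n u h) :
    ∀ k ≤ n, CW opp (w.rotate k) ∧ h k = ev opp (w.rotate k) ∧
      (k < n → (w.rotate k).head? = some (u k)) := by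
  have key : ∀ k, k ≤ n → CW opp (w.rotate k) ∧ h k = ev opp (w.rotate k) := by
    intro k
    induction k with
    | zero =>
      intro _
      rw [List.rotate_zero]
      exact ⟨hw, h0⟩
    | succ k ih =>
      intro hk
      obtain ⟨h1, h2⟩ := ih (by omega)
      have h3 := hs.exitR k (by omega)
      have h4 := hs.exitL k (by omega)
      rw [h2] at h3 h4
      obtain ⟨-, h5⟩ := strand_step opp hop hne h1 h3 h4
      rw [← List.rotate_rotate]
      refine ⟨CW_rotate opp h1, ?_⟩
      rw [hs.next k (by omega), h2, h5]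
  intro k hk
  obtain ⟨h1, h2⟩ := key k hk
  refine ⟨h1, h2, ?_⟩
  intro hk'
  have h3 := hs.exitR k hk'
  have h4 := hs.exitL k hk'
  rw [h2] at h3 h4
  exact (strand_step opp hop hne h1 h3 h4).1

/-- A strand starts with a cyclically reduced word. -/
theorem strand_start {g : PuncturedGroup opp} {n : ℕ} (hn : 0 < n) {u : ℕ → ZMod N}
    {h : ℕ → PuncturedGroup opp} (h0 : h 0 = g)
    (hs : IsStrand (st opp) (hol opp hop hne) AA n u h) :
    ∃ w, CW opp w ∧ ev opp w = g := by
  have h1 := hs.exitR 0 hn
  have h2 := hs.exitL 0 hn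
  rw [h0] at h1 h2
  obtain ⟨a, t, h3, h4⟩ := CR_of_cross opp hop hne h1 h2
  exact ⟨a :: t, ⟨a, t, rfl, h3⟩, h4⟩

/-- The letters of the strand. -/
theorem strand_letter {w : List (ZMod N)} (hw : CW opp w) {n : ℕ} {u : ℕ → ZMod N}
    {h : ℕ → PuncturedGroup opp} (h0 : h 0 = ev opp w)
    (hs : IsStrand (st opp) (hol opp hop hne) AA n u h) (k : ℕ) (hk : k < n)
    (hk' : k < w.length) : w[k]? = some (u k) := by
  obtain ⟨-, -, h1⟩ := strand opp hop hne hw h0 hs k hk.le
  rw [← h1 hk, List.head?_rotate hk']

theorem cycle (g : PuncturedGroup opp) (n : ℕ) (u : ℕ → ZMod N) (h : ℕ → PuncturedGroup opp)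
    (hp : ¬ IsProperPower g) (hn : 0 < n) (h0 : h 0 = g) (hn' : h n = g)
    (hmin : ∀ k < n, 0 < k → h k ≠ g) (hs : IsStrand (st opp) (hol opp hop hne) AA n u h) :
    ((List.range n).map fun k => st opp (u k)).prod = g := by
  obtain ⟨w, hw, rfl⟩ := strand_start opp hop hne hn h0 hs
  have hlen : 0 < w.length := by
    obtain ⟨a, t, rfl, -⟩ := hw
    simp
  have hstr := strand opp hop hne hw h0 hs
  have h1 : n ≤ w.length := by
    by_contra hlt
    rw [not_le] at hlt
    apply hmin w.length hlt hlen
    rw [(hstr w.length hlt.le).2.1, List.rotate_length]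
  have h2 : n = w.length := by
    by_contra hne'
    have hlt : n < w.length := lt_of_le_of_ne h1 hne'
    apply hp
    refine power_of_rotate opp hn hlt ?_
    obtain ⟨h3, h4, -⟩ := hstr n le_rfl
    rw [hn'] at h4
    obtain ⟨a, t, e1, h5⟩ := h3
    obtain ⟨b, s, e2, h6⟩ := hw
    refine (ev_inj opp hop hne w (w.rotate n) ?_ ?_ h4).symm
    · rw [e2]; exact h6.1
    · rw [e1]; exact h5.1
  have h3 : (List.range n).map u = w := by
    apply List.ext_getElem?
    intro k
    by_cases hk : k < n
    · rw [strand_letter opp hop hne hw h0 hs k hk (by omega), List.getElem?_map,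
        List.getElem?_range hk]
      rfl
    · rw [List.getElem?_eq_none (by rw [List.length_map, List.length_range]; omega),
        List.getElem?_eq_none (by omega)]
  have h4 : ((List.range n).map fun k => st opp (u k)) = ((List.range n).map u).map (st opp) := by
    rw [List.map_map]; rfl
  rw [h4, h3]
  rfl

end

end Pool.Agent.AMU.Sch
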