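import Pool.Agent.Lib.AMU.Ops

/-!
# The regularized trace of the operators

`tau y Z` is `1 / y` times the polynomial continuation of `∑ j < y, Z j j`; it is a linear
functional of the operator `Z`, `tau y 1 = 1`, and it is cyclic (`tr_cyc`).
-/

set_option autoImplicit false

namespace Pool.Agent.AMU

open Polynomial

/-! ## The antidifference of a polynomial -/

/-- The antidifference of `X ^ n`. -/
noncomputable def adX (n : ℕ) : ℝ[X] :=
  C ((n + 1 : ℝ)⁻¹) * ((Polynomial.bernoulli (n + 1)).map (algebraMap ℚ ℝ) -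
    C ((algebraMap ℚ ℝ) ((Polynomial.bernoulli (n + 1)).eval 0)))

theorem adX_comp (n : ℕ) : (adX n).comp (X + 1) = adX n + X ^ n := by
  have h := congrArg (Polynomial.map (algebraMap ℚ ℝ)) (bernoulli_comp_one_add_X (n + 1))
  rw [Polynomial.map_comp, Polynomial.map_add, Polynomial.map_one, Polynomial.map_X,
    Polynomial.map_add, add_comm 1] at h
  have hn : (n + 1 : ℝ) ≠ 0 := by positivity
  unfold adX
  rw [mul_comp, C_comp, sub_comp, C_comp, h]
  simp only [Nat.add_sub_cancel, nsmul_eq_mul, Polynomial.map_mul, Polynomial.map_pow,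
    Polynomial.map_X, Polynomial.map_natCast]
  have h2 : C ((n + 1 : ℝ)⁻¹) * ((n + 1 : ℕ) : ℝ[X]) = 1 := by
    rw [← C_eq_natCast, ← C_mul]
    push_cast
    rw [inv_mul_cancel₀ hn, C_1]
  linear_combination (X ^ n) * h2

theorem adX_eval_zero (n : ℕ) : (adX n).eval 0 = 0 := by
  unfold adX
  rw [eval_mul, eval_sub, eval_C]
  have : eval (0 : ℝ) ((Polynomial.bernoulli (n + 1)).map (algebraMap ℚ ℝ)) =
      (algebraMap ℚ ℝ) ((Polynomial.bernoulli (n + 1)).eval 0) := by
    rw [eval_map_algebraMap]
    rw [← map_zero (algebraMap ℚ ℝ), aeval_algebraMap_apply, coe_aeval_eq_eval]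
  rw [this, eval_C, sub_self, mul_zero]

theorem adX_natDegree (n : ℕ) : (adX n).natDegree ≤ n + 1 := by
  unfold adX
  refine (natDegree_C_mul_le _ _).trans ?_
  refine (natDegree_sub_le _ _).trans ?_
  rw [natDegree_C, max_le_iff]
  refine ⟨(natDegree_map_le).trans ?_, by omega⟩
  rw [natDegree_le_iff_coeff_eq_zero]
  intro i hi
  rw [coeff_bernoulli, if_neg (by omega)]

/-- The antidifference. -/
noncomputable def ad : ℝ[X] →ₗ[ℝ] ℝ[X] := (Polynomial.basisMonomials ℝ).constr ℝ adX

theorem ad_X_pow (n : ℕ) : ad (X ^ n) = adX n := by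
  have h : (Polynomial.basisMonomials ℝ) n = X ^ n := by
    rw [coe_basisMonomials]
    exact (X_pow_eq_monomial n).symm
  rw [← h]
  exact (Polynomial.basisMonomials ℝ).constr_basis ℝ adX n

theorem ad_comp (P : ℝ[X]) : (ad P).comp (X + 1) = ad P + P := by
  induction P using Polynomial.induction_on' with
  | add p q hp hq =>
    rw [map_add, add_comp, hp, hq]
    ring
  | monomial n a =>
    rw [← C_mul_X_pow_eq_monomial, ← smul_eq_C_mul, map_smul, smul_comp, ad_X_pow, adX_comp,
      smul_add]

theorem ad_eval_zero (P : ℝ[X]) : (ad P).eval 0 = 0 := by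
  induction P using Polynomial.induction_on' with
  | add p q hp hq => rw [map_add, eval_add, hp, hq, add_zero]
  | monomial n a =>
    rw [← C_mul_X_pow_eq_monomial, ← smul_eq_C_mul, map_smul, eval_smul, ad_X_pow, adX_eval_zero,
      smul_zero]

theorem eq_C_of_comp {R : ℝ[X]} (h : R.comp (X + 1) = R) : R = C (R.eval 0) := by
  have h1 : ∀ n : ℕ, R.eval (n : ℝ) = R.eval 0 := by
    intro n
    induction n with
    | zero => simp
    | succ n ih =>
      rw [← ih]
      conv_rhs => rw [← h]
      simp
  refine eq_of_infinite_eval_eq _ _ ?_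
  refine Set.Infinite.mono (s := Set.range fun n : ℕ => (n : ℝ)) ?_
    (Set.infinite_range_of_injective Nat.cast_injective)
  rintro _ ⟨n, rfl⟩
  simp [h1 n]

theorem ad_succ (P : ℝ[X]) (y : ℝ) : (ad P).eval (y + 1) = (ad P).eval y + P.eval y := by
  have := congrArg (eval y) (ad_comp P)
  simpa using this

theorem ad_shift (P : ℝ[X]) (y : ℝ) :
    (ad (P.comp (X - 1))).eval (y + 1) = (ad P).eval y + P.eval (-1) := by
  have h1 := ad_comp (P.comp (X - 1))
  have h3 : ((ad (P.comp (X - 1))).comp (X + 1) - ad P).comp (X + 1) =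
      (ad (P.comp (X - 1))).comp (X + 1) - ad P := by
    rw [sub_comp, h1, add_comp, h1, ad_comp]
    have : (P.comp (X - 1)).comp (X + 1) = P := by
      rw [comp_assoc]; simp
    rw [this]
    ring
  have h4 := eq_C_of_comp h3
  have h5 := congrArg (eval y) h4
  have h6 := congrArg (eval 0) h1
  have h7 : eval 0 (ad (P.comp (X - 1)) + P.comp (X - 1)) = P.eval (-1) := by
    rw [eval_add, ad_eval_zero (P.comp (X - 1))]
    simp
  rw [eval_sub, eval_comp, eval_C, eval_sub, ad_eval_zero, h6, h7] at h5
  simp at h5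
  linarith

/-! ## The regularized trace -/

/-- The function of a polynomial. -/
noncomputable def evZ : ℝ[X] →ₗ[ℝ] (ℤ → ℝ) where
  toFun P := fun j => P.eval (j : ℝ)
  map_add' P Q := by funext j; simp
  map_smul' c P := by funext j; simp

theorem evZ_ker : LinearMap.ker evZ = ⊥ := by
  rw [LinearMap.ker_eq_bot']
  intro P hP
  refine eq_zero_of_infinite_isRoot P ?_
  refine Set.Infinite.mono (s := Set.range fun n : ℤ => (n : ℝ)) ?_
    (Set.infinite_range_of_injective Int.cast_injective)
  rintro _ ⟨n, rfl⟩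
  exact congrFun hP n

/-- A left inverse of `evZ`. -/
noncomputable def unZ : (ℤ → ℝ) →ₗ[ℝ] ℝ[X] :=
  (LinearMap.exists_leftInverse_of_injective evZ evZ_ker).choose

theorem unZ_evZ (P : ℝ[X]) : unZ (evZ P) = P :=
  LinearMap.congr_fun (LinearMap.exists_leftInverse_of_injective evZ evZ_ker).choose_spec P

/-- The diagonal of an operator. -/
noncomputable def diagZ : Module.End ℝ Fn →ₗ[ℝ] (ℤ → ℝ) where
  toFun Z := fun j => Z (Pi.single j 1) j
  map_add' _ _ := rfl
  map_smul' _ _ := rfl

/-- The regularized trace. -/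
noncomputable def tr (y : ℝ) : Module.End ℝ Fn →ₗ[ℝ] ℝ :=
  leval y ∘ₗ ad ∘ₗ unZ ∘ₗ diagZ

/-- The normalized regularized trace. -/
noncomputable def tau (y : ℝ) : Module.End ℝ Fn →ₗ[ℝ] ℝ := y⁻¹ • tr y

theorem tr_of_diag (y : ℝ) (Z : Module.End ℝ Fn) (P : ℝ[X])
    (h : ∀ j : ℤ, Z (Pi.single j 1) j = P.eval (j : ℝ)) : tr y Z = (ad P).eval y := by
  have : diagZ Z = evZ P := funext h
  simp [tr, this, unZ_evZ]

theorem tr_one (y : ℝ) : tr y 1 = y := by
  rw [tr_of_diag y 1 1 (fun j => by simp)]
  have := ad_X_pow 0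
  rw [pow_zero] at this
  rw [this]
  simp [adX]

theorem tau_one {y : ℝ} (hy : y ≠ 0) : tau y 1 = 1 := by
  simp [tau, tr_one, hy]

theorem mul_tau {y : ℝ} (hy : y ≠ 0) (Z : Module.End ℝ Fn) : y * tau y Z = tr y Z := by
  simp [tau, hy]

/-! ## Word operators -/

/-- The coefficient of a letter. -/
noncomputable def oc (y : ℝ) (s : ℤ) : Bool × Bool → ℝ[X]
  | (true, _) => 1
  | (false, false) => C ((-1) ^ s) * X
  | (false, true) => -(C ((-1) ^ s) * (C (y - 1 + s) - X))

/-- The shift of a letter. -/
def om : Bool × Bool → ℤ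
  | (true, false) => 0
  | (true, true) => 1
  | (false, false) => -1
  | (false, true) => 0

theorem opL_eq (y : ℝ) (s : ℤ) (st : Bool × Bool) (φ : Fn) (j : ℤ) :
    opL y s st φ j = (oc y s st).eval (j : ℝ) * φ (j + om st) := by
  rcases st with ⟨_ | _, _ | _⟩ <;> simp [opL, oc, om, sub_eq_add_neg]

/-- The coefficient of a word. -/
noncomputable def wc (y : ℝ) : ℤ → List (Bool × Bool) → ℝ[X]
  | _, [] => 1
  | s, st :: l => oc y s st * (wc y (s + sgn st.1) l).comp (X + C (om st : ℝ))

/-- The shift of a word. -/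
def wm (l : List (Bool × Bool)) : ℤ := (l.map om).sum

@[simp] theorem wm_nil : wm [] = 0 := rfl
@[simp] theorem wm_cons (st : Bool × Bool) (l : List (Bool × Bool)) :
    wm (st :: l) = om st + wm l := by simp [wm]
@[simp] theorem wm_append (l l' : List (Bool × Bool)) : wm (l ++ l') = wm l + wm l' := by
  simp [wm]

theorem W_eq (y : ℝ) (s : ℤ) (l : List (Bool × Bool)) (φ : Fn) (j : ℤ) :
    W y s l φ j = (wc y s l).eval (j : ℝ) * φ (j + wm l) := by
  induction l generalizing s j with
  | nil => simp [W, wc]
  | cons st l ih =>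
    rw [W, LinearMap.comp_apply, opL_eq, ih, wc, eval_mul, eval_comp, wm_cons]
    simp only [eval_add, eval_X, eval_C, Int.cast_add]
    rw [← add_assoc, mul_assoc]

theorem wc_append (y : ℝ) (s : ℤ) (l l' : List (Bool × Bool)) :
    wc y s (l ++ l') =
      wc y s l * (wc y (s + stepSum (l.map Prod.fst)) l').comp (X + C (wm l : ℝ)) := by
  induction l generalizing s with
  | nil => simp [wc]
  | cons st l ih =>
    simp only [List.cons_append, wc, ih, List.map_cons, stepSum_cons, wm_cons, mul_comp, comp_assoc,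
      add_comp, X_comp, C_comp]
    rw [add_assoc s, mul_assoc]
    congr 3
    rw [add_assoc, ← C_add, Int.cast_add, add_comm X]

theorem tr_W (y y' : ℝ) (s : ℤ) (l : List (Bool × Bool)) :
    tr y' (W y s l) = (ad (if wm l = 0 then wc y s l else 0)).eval y' := by
  refine tr_of_diag y' _ _ fun j => ?_
  rw [W_eq]
  split_ifs with h
  · rw [h, add_zero]; simp
  · rw [Pi.single_eq_of_ne (by omega)]
    simp

/-- Paths which cross the boundary `n_1 = 0`. -/
theorem wc_zero1 (y : ℝ) (s : ℤ) (l : List (Bool × Bool)) (j : ℤ) (hj : 0 ≤ j)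
    (h : j + wm l < 0) : (wc y s l).eval (j : ℝ) = 0 := by
  induction l generalizing s j with
  | nil => simp at h; omega
  | cons st l ih =>
    rw [wc, eval_mul, eval_comp]
    simp only [eval_add, eval_X, eval_C]
    rw [wm_cons, ← add_assoc] at h
    by_cases h0 : 0 ≤ j + om st
    · have := ih (s + sgn st.1) (j + om st) h0 h
      rw [Int.cast_add] at this
      rw [this, mul_zero]
    · have h2 : j = 0 ∧ st = (false, false) := by
        rcases st with ⟨_ | _, _ | _⟩ <;> simp [om] at h0 ⊢ <;> omega
      obtain ⟨rfl, rfl⟩ := h2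
      simp [oc]

/-- Paths which cross the boundary `n_0 = 0`. -/
theorem wc_zero0 (y : ℝ) (s : ℤ) (l : List (Bool × Bool)) (t : ℝ) (n : ℤ) (hn : 0 ≤ n)
    (ht : y - 1 + s - t = n) (h : n + stepSum (l.map Prod.fst) - wm l < 0) :
    (wc y s l).eval t = 0 := by
  induction l generalizing s t n with
  | nil => simp at h; omega
  | cons st l ih =>
    rw [wc, eval_mul, eval_comp]
    simp only [eval_add, eval_X, eval_C]
    rw [wm_cons, List.map_cons, stepSum_cons] at h
    by_cases h0 : 0 ≤ n + sgn st.1 - om st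
    · have := ih (s + sgn st.1) (t + om st) (n + sgn st.1 - om st) h0 (by
        push_cast
        rw [← ht]
        ring) (by linarith)
      rw [this, mul_zero]
    · have h2 : n = 0 ∧ st = (false, true) := by
        rcases st with ⟨_ | _, _ | _⟩ <;> simp [om, sgn] at h0 ⊢ <;> omega
      obtain ⟨rfl, rfl⟩ := h2
      have h3 : y - 1 + s - t = 0 := by rw [ht]; simp
      have h4 : (oc y s (false, true)).eval t = 0 := by
        simp only [oc, eval_neg, eval_mul, eval_C, eval_sub, eval_X]
        rw [h3, mul_zero, neg_zero]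
      rw [h4, zero_mul]

/-- The regularized trace is cyclic. -/
theorem tr_cyc (y : ℝ) (st : Bool × Bool) (l : List (Bool × Bool))
    (h : sgn st.1 + stepSum (l.map Prod.fst) = 0) :
    tr y (W y 0 (st :: l)) = tr (y + sgn st.1) (W y (sgn st.1) (l ++ [st])) := by
  rw [tr_W, tr_W, wm_cons, wm_append, wm_cons, wm_nil, add_zero, add_comm (wm l)]
  by_cases hm : om st + wm l = 0
  · rw [if_pos hm, if_pos hm]
    have hl : wm l = -om st := by omega
    have hP : wc y (sgn st.1) (l ++ [st]) = (wc y 0 (st :: l)).comp (X - C (om st : ℝ)) := by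
      have e1 : (wc y (sgn st.1) l).comp ((X + C (om st : ℝ)).comp (X - C (om st : ℝ))) =
          wc y (sgn st.1) l := by
        rw [add_comp, X_comp, C_comp, sub_add_cancel, comp_X]
      have e2 : wc y 0 [st] = oc y 0 st := by simp [wc]
      have e3 : (X + C ((-om st : ℤ) : ℝ) : ℝ[X]) = X - C (om st : ℝ) := by
        rw [Int.cast_neg, map_neg, sub_eq_add_neg]
      rw [wc_append, h, hl, e2, e3, wc, mul_comp, comp_assoc, zero_add, e1, mul_comm]
    rw [hP]
    rcases st with ⟨_ | _, _ | _⟩
    · -- (false, false)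
      have h1 : (wc y 0 ((false, false) :: l)).comp (X - C (om (false, false) : ℝ)) =
          (wc y 0 ((false, false) :: l)).comp (X + 1) := by
        simp [om]
      rw [h1]
      have h2 := ad_shift ((wc y 0 ((false, false) :: l)).comp (X + 1)) (y - 1)
      rw [comp_assoc] at h2
      have h3 : (X + 1 : ℝ[X]).comp (X - 1) = X := by simp
      rw [h3, comp_X, sub_add_cancel, eval_comp] at h2
      have h4 : (wc y 0 ((false, false) :: l)).eval (eval (-1) (X + 1 : ℝ[X])) = 0 := by
        rw [wc, eval_mul]
        simp [oc]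
      rw [h4, add_zero] at h2
      rw [h2]
      simp [sgn, sub_eq_add_neg]
    · -- (false, true)
      have h1 : (wc y 0 ((false, true) :: l)).comp (X - C (om (false, true) : ℝ)) =
          wc y 0 ((false, true) :: l) := by
        simp [om]
      rw [h1]
      have h2 := ad_succ (wc y 0 ((false, true) :: l)) (y - 1)
      have h4 : (wc y 0 ((false, true) :: l)).eval (y - 1) = 0 := by
        rw [wc, eval_mul]
        simp [oc]
      rw [h4, add_zero, sub_add_cancel] at h2
      rw [h2]
      simp [sgn, sub_eq_add_neg]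
    · -- (true, false)
      have h1 : (wc y 0 ((true, false) :: l)).comp (X - C (om (true, false) : ℝ)) =
          wc y 0 ((true, false) :: l) := by
        simp [om]
      rw [h1]
      have h2 := ad_succ (wc y 0 ((true, false) :: l)) y
      have h4 : (wc y 0 ((true, false) :: l)).eval y = 0 := by
        rw [wc, eval_mul, eval_comp]
        have h5 := wc_zero0 y (0 + sgn true) l (y + om (true, false)) 0 le_rfl (by
          simp [sgn, om]) (by
          simp only [sgn, om, if_true] at h hl ⊢
          omega)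
        simp only [eval_add, eval_X, eval_C]
        rw [h5, mul_zero]
      rw [h4, add_zero] at h2
      rw [← h2]
      simp [sgn]
    · -- (true, true)
      have h1 : (wc y 0 ((true, true) :: l)).comp (X - C (om (true, true) : ℝ)) =
          (wc y 0 ((true, true) :: l)).comp (X - 1) := by
        simp [om]
      rw [h1]
      have h2 := ad_shift (wc y 0 ((true, true) :: l)) y
      have h4 : (wc y 0 ((true, true) :: l)).eval (-1) = 0 := by
        rw [wc, eval_mul, eval_comp]
        have h5 := wc_zero1 y (0 + sgn true) l 0 le_rfl (by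
          simp only [om] at hl
          omega)
        simp only [eval_add, eval_X, eval_C, om, Int.cast_one]
        rw [Int.cast_zero] at h5
        rw [neg_add_cancel, h5, mul_zero]
      rw [h4, add_zero] at h2
      rw [← h2]
      simp [sgn]
  · rw [if_neg hm, if_neg hm]
    simp

/-- The number of steps down. -/
def down (l : List (Bool × Bool)) : ℕ := (l.map fun st => if st.1 then 0 else 1).sum

/-- The shift of the levels. -/
theorem W_shift (y : ℝ) (s t : ℤ) (l : List (Bool × Bool)) :
    W y (s + t) l = ((-1 : ℝ) ^ (t * down l)) • W (y + t) s l := by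
  induction l generalizing s with
  | nil => simp [W, down]
  | cons st l ih =>
    rw [W, W, add_right_comm, ih]
    have h : opL y (s + t) st = ((-1 : ℝ) ^ (t * (if st.1 then 0 else 1 : ℕ))) •
        opL (y + t) s st := by
      refine LinearMap.ext fun φ => ?_
      funext j
      rcases st with ⟨_ | _, _ | _⟩ <;>
        simp [opL, zpow_add₀] <;> ring
    rw [h, LinearMap.comp_smul, LinearMap.smul_comp, smul_smul]
    congr 1
    rw [← zpow_add₀ (by norm_num)]
    congr 1
    simp only [down, List.map_cons, List.sum_cons, Nat.cast_add]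
    ring

end Pool.Agent.AMU
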