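import Pool.Agent.Lib.AMU.TerDefs

/-!
# Row TA: noncrossing words from a noncrossing matching of a sorted list

Strong induction on the length of `A`. `A = .inl c :: A'`: clear. `A = .inr p :: A'`: `τ p ∈ pts A'`
(`key (τ p) ≠ key p`), so `A' = A₁ ++ .inr (τ p) :: A₂`; a point `x` of `A₁` has `key p < key x < key (τ p)`,
`τ x` is a point of `A`, different from `p` and `τ p`; it is not in `A₂` (`hnc p x`); a point `x` of `A₂`
has `τ x ∈ pts A₂`, since otherwise `τ x ∈ pts A₁` and `τ (τ x) = x ∈ pts A₁`, against sortedness.
-/

set_option autoImplicit false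

namespace Pool.Agent.AMU.Ter

theorem pts_append {C P : Type} (A B : List (C ⊕ P)) : pts (A ++ B) = pts A ++ pts B := by
  induction A with
  | nil => rfl
  | cons a A ih =>
    cases a with
    | inl c => simpa [pts] using ih
    | inr p => simpa [pts] using ih

theorem mem_pts {C P : Type} {A : List (C ⊕ P)} {p : P} : p ∈ pts A ↔ Sum.inr p ∈ A := by
  induction A with
  | nil => simp [pts]
  | cons a A ih =>
    cases a with
    | inl c => simp [pts, ih]
    | inr q => simp [pts, ih]

private theorem TA_main {C P K : Type} [LinearOrder K] (key : P → K) (τ : P → P)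
    (hττ : ∀ p, τ (τ p) = p) (hne : ∀ p, key (τ p) ≠ key p)
    (hnc : ∀ x z, ¬ (key x < key z ∧ key z < key (τ x) ∧ key (τ x) < key (τ z))) (n : ℕ) :
    ∀ A : List (C ⊕ P), A.length = n → (pts A).Pairwise (fun a b => key a < key b) →
      (∀ p ∈ pts A, τ p ∈ pts A) → NCw τ (fun p => decide (key p < key (τ p))) A := by
  induction n using Nat.strong_induction_on with
  | h n ih =>
    intro A hlen hs hcl
    match A, hlen, hs, hcl with
    | [], _, _, _ => exact NCw.nil
    | .inl c :: A', hlen, hs, hcl =>
      rw [List.length_cons] at hlen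
      exact NCw.corner c (ih A'.length (by omega) A' rfl hs hcl)
    | .inr p :: A', hlen, hs, hcl =>
      rw [List.length_cons] at hlen
      simp only [pts] at hs hcl
      rw [List.pairwise_cons] at hs
      have hτp : τ p ∈ pts A' := by
        rcases List.mem_cons.1 (hcl p List.mem_cons_self) with h | h
        · exact absurd (congrArg key h) (hne p)
        · exact h
      obtain ⟨A₁, A₂, rfl⟩ := List.append_of_mem (mem_pts.1 hτp)
      rw [pts_append] at hs hcl
      simp only [pts] at hs hcl
      obtain ⟨hs1, hs2⟩ := hs
      rw [List.pairwise_append, List.pairwise_cons] at hs2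
      obtain ⟨hsA, ⟨hτA2, hsB⟩, hcross⟩ := hs2
      have hpτ : key p < key (τ p) := hs1 _ (by simp)
      rw [List.length_append, List.length_cons] at hlen
      have hc1 : ∀ x ∈ pts A₁, τ x ∈ pts A₁ := by
        intro x hx
        have h1 : key p < key x := hs1 x (by simp [hx])
        have h2 : key x < key (τ p) := hcross x hx _ (by simp)
        have h3 := hcl x (by simp [hx])
        rw [List.mem_cons, List.mem_append, List.mem_cons] at h3
        rcases h3 with h3 | h3 | h3 | h3
        · have h4 : x = τ p := by rw [← h3, hττ]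
          rw [← h4] at h2
          exact absurd h2 (lt_irrefl _)
        · exact h3
        · have h4 : x = p := by rw [← hττ x, h3, hττ]
          rw [h4] at h1
          exact absurd h1 (lt_irrefl _)
        · exact absurd ⟨h1, h2, hτA2 _ h3⟩ (hnc p x)
      have hc2 : ∀ x ∈ pts A₂, τ x ∈ pts A₂ := by
        intro x hx
        have h1 : key (τ p) < key x := hτA2 x hx
        have h3 := hcl x (by simp [hx])
        rw [List.mem_cons, List.mem_append, List.mem_cons] at h3
        rcases h3 with h3 | h3 | h3 | h3
        · have h4 : x = τ p := by rw [← h3, hττ]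
          rw [← h4] at h1
          exact absurd h1 (lt_irrefl _)
        · have h4 := hc1 _ h3
          rw [hττ] at h4
          exact absurd (h1.trans (hcross x h4 _ (by simp))) (lt_irrefl _)
        · have h4 : x = p := by rw [← hττ x, h3, hττ]
          rw [h4] at h1
          exact absurd (h1.trans hpτ) (lt_irrefl _)
        · exact h3
      refine NCw.arc p ?_ ?_ (ih _ (by omega) A₁ rfl hsA hc1) (ih _ (by omega) A₂ rfl hsB hc2)
      · exact decide_eq_true hpτ
      · rw [decide_eq_false_iff_not, hττ]
        exact hpτ.le.not_gt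

theorem ncw_of_sorted {C P K : Type} [LinearOrder K] (key : P → K) (τ : P → P)
    (hττ : ∀ p, τ (τ p) = p) (hne : ∀ p, key (τ p) ≠ key p)
    (hnc : ∀ x z, ¬ (key x < key z ∧ key z < key (τ x) ∧ key (τ x) < key (τ z)))
    (A : List (C ⊕ P)) (hs : (pts A).Pairwise (fun a b => key a < key b))
    (hcl : ∀ p ∈ pts A, τ p ∈ pts A) : NCw τ (fun p => decide (key p < key (τ p))) A :=
  TA_main key τ hττ hne hnc _ A rfl hs hcl

end Pool.Agent.AMU.Ter
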