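import Pool.Agent.Lib.AMU.TerA

/-!
# Row TB: contraction of a noncrossing matching

Useful facts on `sumL` (prove them first): `sumL (M ++ M') f lab = sumL M (sumL M' f) lab`; `sumL M f lab`
depends only on the values of `f` at labellings which agree with `lab` outside `M`; a linear map commutes
with `sumL`; a scalar factor that does not depend on the labels of `M` can be taken out.

`contract`: induction on `NCw`. For `p :: (A ++ τ p :: B)` the word is
`opL (st p, lab p) ∘ W A ∘ opL (st (τ p), lab (τ p)) ∘ W B` (`W_append`, Ops.lean). Sum over the labels of `B`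
first (induction, as functions), then over the labels of `A`, then over `lab p`, `lab (τ p)`: if
`st (τ p) = !st p` this is `pr_sub`: the factor `-dl y (s + sgn (st p))`; if `st (τ p) = st p` it is `0` by
`opL_comm` (the level before `τ p` is `s + sgn (st p)` since the steps of `A` cancel, or the factor of `A` is `0`).
-/

set_option autoImplicit false

namespace Pool.Agent.AMU.Ter

section sumL

variable {P E : Type} [DecidableEq P]

theorem sumL_append [Add E] (M M' : List P) (f : (P → Bool) → E) (lab : P → Bool) :
    sumL (M ++ M') f lab = sumL M (fun l => sumL M' f l) lab := by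
  induction M generalizing lab with
  | nil => rfl
  | cons p M ih => simp only [List.cons_append, sumL, ih]

theorem sumL_congr [Add E] (M : List P) {f g : (P → Bool) → E} (lab : P → Bool)
    (h : ∀ l : P → Bool, (∀ q, q ∉ M → l q = lab q) → f l = g l) :
    sumL M f lab = sumL M g lab := by
  induction M generalizing lab with
  | nil => exact h lab fun _ _ => rfl
  | cons p M ih =>
    simp only [sumL]
    have key : ∀ b : Bool, sumL M f (Function.update lab p b) =
        sumL M g (Function.update lab p b) := by
      intro b
      refine ih _ fun l hl => h l fun q hq => ?_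
      rw [List.mem_cons, not_or] at hq
      rw [hl q hq.2, Function.update_of_ne hq.1]
    rw [key, key]

theorem sumL_map {E' : Type} [Add E] [Add E'] (X : E → E') (hX : ∀ a b, X (a + b) = X a + X b)
    (M : List P) (f : (P → Bool) → E) (lab : P → Bool) :
    X (sumL M f lab) = sumL M (fun l => X (f l)) lab := by
  induction M generalizing lab with
  | nil => rfl
  | cons p M ih => simp only [sumL, hX, ih]

end sumL

theorem sumL_univ {P E : Type} [Fintype P] [DecidableEq P] [AddCommMonoid E] (F : (P → Bool) → E)
    (M : List P)
    (hM : M.Nodup) (hall : ∀ p, p ∈ M) (lab0 : P → Bool) :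
    sumL M F lab0 = ∑ lab : P → Bool, F lab := by
  classical
  have key : ∀ (M : List P), M.Nodup → ∀ lab0 : P → Bool, sumL M F lab0 =
      ∑ lab ∈ Finset.univ.filter (fun lab : P → Bool => ∀ q, q ∉ M → lab q = lab0 q), F lab := by
    intro M
    induction M with
    | nil =>
      intro _ lab0
      have h1 : (Finset.univ.filter fun lab : P → Bool => ∀ q, q ∉ ([] : List P) → lab q = lab0 q) =
          {lab0} := by
        ext lab
        simp [funext_iff]
      rw [h1, Finset.sum_singleton]
      rfl
    | cons p M ih =>
      intro hnd lab0
      rw [List.nodup_cons] at hnd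
      simp only [sumL]
      rw [ih hnd.2, ih hnd.2, ← Finset.sum_union]
      · refine Finset.sum_congr ?_ fun _ _ => rfl
        ext lab
        simp only [Finset.mem_union, Finset.mem_filter, Finset.mem_univ, true_and, List.mem_cons,
          not_or]
        constructor
        · rintro (h | h)
          · intro q hq
            rw [h q hq.2, Function.update_of_ne hq.1]
          · intro q hq
            rw [h q hq.2, Function.update_of_ne hq.1]
        · intro h
          cases hp : lab p with
          | false =>
            left
            intro q hq
            by_cases hqp : q = p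
            · rw [hqp, hp, Function.update_self]
            · rw [Function.update_of_ne hqp]
              exact h q ⟨hqp, hq⟩
          | true =>
            right
            intro q hq
            by_cases hqp : q = p
            · rw [hqp, hp, Function.update_self]
            · rw [Function.update_of_ne hqp]
              exact h q ⟨hqp, hq⟩
      · rw [Finset.disjoint_left]
        intro lab h1 h2
        rw [Finset.mem_filter] at h1 h2
        have h3 := h1.2 p hnd.1
        have h4 := h2.2 p hnd.1
        rw [Function.update_self] at h3 h4
        rw [h3] at h4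
        exact Bool.noConfusion h4
  rw [key M hM lab0]
  refine Finset.sum_congr ?_ fun _ _ => rfl
  ext lab
  simp [hall]

theorem plvl_append {P : Type} (δ : P → ℤ) (s : ℤ) (M M' : List P) :
    plvl δ s (M ++ M') = plvl δ s M ++ plvl δ (s + (M.map δ).sum) M' := by
  induction M generalizing s with
  | nil => simp [plvl]
  | cons p M ih =>
    simp only [List.cons_append, plvl, ih, List.map_cons, List.sum_cons]
    rw [← add_assoc]

theorem ncw_closed {C P : Type} {τ : P → P} {fs : P → Bool} {A : List (C ⊕ P)}
    (hA : NCw τ fs A) : ∀ x ∈ pts A, fs x = true → τ x ∈ pts A := by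
  induction hA with
  | nil => intro x hx; simp [pts] at hx
  | corner c _ ih => exact ih
  | arc p h1 h2 _ _ ih1 ih2 =>
    intro x hx hf
    simp only [pts, pts_append, List.mem_cons, List.mem_append] at hx ⊢
    rcases hx with rfl | hx | rfl | hx
    · right; right; left; trivial
    · right; left; exact ih1 x hx hf
    · rw [h2] at hf; exact absurd hf (by simp)
    · right; right; right; exact ih2 x hx hf

private theorem TB_sum {C P : Type} {τ : P → P} {fs : P → Bool} {A : List (C ⊕ P)}
    (hA : NCw τ fs A) (st : P → Bool)
    (h : ∀ p ∈ pts A, fs p = true → st (τ p) = !st p) :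
    ((pts A).map fun p => sgn (st p)).sum = 0 := by
  induction hA with
  | nil => rfl
  | corner c _ ih => exact ih h
  | arc p h1 h2 _ _ ih1 ih2 =>
    simp only [pts, pts_append, List.mem_cons, List.mem_append] at h
    simp only [pts, pts_append, List.map_cons, List.map_append, List.sum_cons, List.sum_append]
    rw [ih1 fun q hq => h q (Or.inr (Or.inl hq)), ih2 fun q hq => h q (Or.inr (Or.inr (Or.inr hq))),
      h p (Or.inl rfl) h1, sgn_not]
    ring

private theorem TB_cup (y : ℝ) (s : ℤ) (b : Bool) :
    ∑ a : Bool, ∑ a' : Bool, ep a a' • ((opL y s (b, a) : Module.End ℝ Fn) *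
      (opL y (s + sgn b) (!b, a') : Module.End ℝ Fn)) = (-dl y (s + sgn b)) • 1 := by
  rw [Fintype.sum_bool, Fintype.sum_bool, Fintype.sum_bool]
  refine LinearMap.ext fun φ => ?_
  have h := pr_sub y s b φ
  simp only [ep, zero_smul, add_zero, zero_add, one_smul, neg_smul, LinearMap.add_apply,
    LinearMap.smul_apply, Module.End.mul_apply, Module.End.one_apply]
  simp only [pr, LinearMap.comp_apply] at h
  rw [neg_smul] at h
  rw [← h]
  abel

private theorem TB_cup0 (y : ℝ) (s : ℤ) (b : Bool) :
    ∑ a : Bool, ∑ a' : Bool, ep a a' • ((opL y s (b, a) : Module.End ℝ Fn) *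
      (opL y (s + sgn b) (b, a') : Module.End ℝ Fn)) = 0 := by
  rw [Fintype.sum_bool, Fintype.sum_bool, Fintype.sum_bool]
  refine LinearMap.ext fun φ => ?_
  have h := opL_comm y s b true false φ
  simp only [ep, zero_smul, add_zero, zero_add, one_smul, neg_smul, LinearMap.add_apply,
    LinearMap.smul_apply, Module.End.mul_apply, LinearMap.zero_apply]
  rw [h]
  abel

theorem contract {C P : Type} [DecidableEq P] {τ : P → P} {fs : P → Bool} {A : List (C ⊕ P)}
    (hA : NCw τ fs A) (hnd : (pts A).Nodup) (y : ℝ) (st : P → Bool) (s : ℤ)
    (lab : P → Bool) :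
    sumL (pts A) (fun lab => (((pts A).filter fs).map fun p => ep (lab p) (lab (τ p))).prod •
      (W y s ((pts A).map fun p => (st p, lab p)) : Module.End ℝ Fn)) lab =
    (if ∀ p ∈ pts A, fs p = true → st (τ p) = !st p then
      (((plvl (fun p => sgn (st p)) s (pts A)).filter (fun x => fs x.1)).map
        fun x => -dl y x.2).prod else 0) • (1 : Module.End ℝ Fn) := by
  induction hA generalizing s lab with
  | nil =>
    simp only [pts, sumL, List.filter_nil, List.map_nil, List.prod_nil, plvl, W]
    rw [if_pos (by simp)]
    rfl
  | corner c _ ih => exact ih hnd s lab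
  | @arc p A B h1 h2 hA hB ih1 ih2 =>
    have hP : pts (Sum.inr p :: (A ++ Sum.inr (τ p) :: B) : List (C ⊕ P)) =
        p :: (pts A ++ τ p :: pts B) := by
      simp only [pts, pts_append]
    rw [hP] at hnd ⊢
    rw [List.nodup_cons, List.nodup_append, List.nodup_cons, List.mem_append, List.mem_cons] at hnd
    obtain ⟨hp, hndA, ⟨hqB, hndB⟩, hdis⟩ := hnd
    rw [not_or, not_or] at hp
    obtain ⟨hpA, hpq, hpB⟩ := hp
    have hclA := ncw_closed hA
    have hclB := ncw_closed hB
    have hqA : τ p ∉ pts A := fun h => hdis _ h _ (List.mem_cons_self) rfl
    have hAB : ∀ x ∈ pts A, x ∉ pts B := fun x hx hx' =>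
      hdis _ hx _ (List.mem_cons_of_mem _ hx') rfl
    set δ : P → ℤ := fun p => sgn (st p) with hδ
    set κA := (if ∀ x ∈ pts A, fs x = true → st (τ x) = !st x then
      (((plvl δ (s + sgn (st p)) (pts A)).filter (fun x => fs x.1)).map
        fun x => -dl y x.2).prod else 0) with hκA
    set s2 := s + sgn (st p) + ((pts A).map δ).sum with hs2
    set κB := (if ∀ x ∈ pts B, fs x = true → st (τ x) = !st x then
      (((plvl δ (s2 + sgn (st (τ p))) (pts B)).filter (fun x => fs x.1)).map
        fun x => -dl y x.2).prod else 0) with hκB
    -- the operators
    have hW : ∀ l : P → Bool, (W y s ((p :: (pts A ++ τ p :: pts B)).map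
        fun x => (st x, l x)) : Module.End ℝ Fn) =
        (opL y s (st p, l p) : Module.End ℝ Fn) *
        (W y (s + sgn (st p)) ((pts A).map fun x => (st x, l x)) : Module.End ℝ Fn) *
        (opL y s2 (st (τ p), l (τ p)) : Module.End ℝ Fn) *
        (W y (s2 + sgn (st (τ p))) ((pts B).map fun x => (st x, l x)) : Module.End ℝ Fn) := by
      intro l
      have h3 : stepSum (((pts A).map fun x => (st x, l x)).map Prod.fst) =
          ((pts A).map δ).sum := by
        rw [stepSum, List.map_map, List.map_map]
        rfl
      rw [List.map_cons, List.map_append, List.map_cons]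
      show W y s ((st p, l p) :: _) = _
      rw [W, W_append, h3]
      show _ = _ * _ * _ * _
      rw [mul_assoc, mul_assoc]
      rfl
    have hE : ∀ l : P → Bool, (((p :: (pts A ++ τ p :: pts B)).filter fs).map
        fun x => ep (l x) (l (τ x))).prod =
        ep (l p) (l (τ p)) * (((pts A).filter fs).map fun x => ep (l x) (l (τ x))).prod *
        (((pts B).filter fs).map fun x => ep (l x) (l (τ x))).prod := by
      intro l
      rw [List.filter_cons_of_pos h1, List.filter_append, List.filter_cons_of_neg (by simp [h2]),
        List.map_cons, List.map_append, List.prod_cons, List.prod_append]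
      ring
    -- the sum over the labels of B
    have hB1 : ∀ l : P → Bool, sumL (pts B) (fun lab =>
        (((p :: (pts A ++ τ p :: pts B)).filter fs).map
          fun x => ep (lab x) (lab (τ x))).prod •
        (W y s ((p :: (pts A ++ τ p :: pts B)).map fun x => (st x, lab x)) :
          Module.End ℝ Fn)) l =
        (κB * (ep (l p) (l (τ p)) *
          (((pts A).filter fs).map fun x => ep (l x) (l (τ x))).prod)) •
        ((opL y s (st p, l p) : Module.End ℝ Fn) *
        (W y (s + sgn (st p)) ((pts A).map fun x => (st x, l x)) : Module.End ℝ Fn) *
        (opL y s2 (st (τ p), l (τ p)) : Module.End ℝ Fn)) := by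
      intro l
      have h3 : sumL (pts B) (fun lab =>
          (((p :: (pts A ++ τ p :: pts B)).filter fs).map
            fun x => ep (lab x) (lab (τ x))).prod •
          (W y s ((p :: (pts A ++ τ p :: pts B)).map fun x => (st x, lab x)) :
            Module.End ℝ Fn)) l =
          sumL (pts B) (fun lab => (ep (l p) (l (τ p)) *
          (((pts A).filter fs).map fun x => ep (l x) (l (τ x))).prod) •
          (((opL y s (st p, l p) : Module.End ℝ Fn) *
          (W y (s + sgn (st p)) ((pts A).map fun x => (st x, l x)) : Module.End ℝ Fn) *
          (opL y s2 (st (τ p), l (τ p)) : Module.End ℝ Fn)) *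
          ((((pts B).filter fs).map fun p => ep (lab p) (lab (τ p))).prod •
      (W y (s2 + sgn (st (τ p))) ((pts B).map fun p => (st p, lab p)) : Module.End ℝ Fn)))) l := by
        refine sumL_congr _ _ fun l' hl' => ?_
        have e1 : l' p = l p := hl' p hpB
        have e2 : l' (τ p) = l (τ p) := hl' _ hqB
        have e3 : ((pts A).map fun x => (st x, l' x)) = (pts A).map fun x => (st x, l x) := by
          refine List.map_congr_left fun x hx => ?_
          rw [hl' x (hAB x hx)]
        have e4 : (((pts A).filter fs).map fun x => ep (l' x) (l' (τ x))) =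
            ((pts A).filter fs).map fun x => ep (l x) (l (τ x)) := by
          refine List.map_congr_left fun x hx => ?_
          rw [List.mem_filter] at hx
          rw [hl' x (hAB x hx.1), hl' (τ x) (hAB _ (hclA x hx.1 hx.2))]
        rw [hW l', hE l', e1, e2, e3, e4, mul_smul_comm, smul_smul]
      rw [h3, ← sumL_map (fun X : Module.End ℝ Fn => (ep (l p) (l (τ p)) *
          (((pts A).filter fs).map fun x => ep (l x) (l (τ x))).prod) •
          (((opL y s (st p, l p) : Module.End ℝ Fn) *
          (W y (s + sgn (st p)) ((pts A).map fun x => (st x, l x)) : Module.End ℝ Fn) *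
          (opL y s2 (st (τ p), l (τ p)) : Module.End ℝ Fn)) * X))
        (by intro a b; rw [mul_add, smul_add]), ih2 hndB (s2 + sgn (st (τ p))) l, mul_smul_comm,
        mul_one, smul_smul, mul_comm]
    -- the sum over the labels of A
    have hA1 : ∀ a a' : Bool, sumL (pts A) (fun l =>
        (κB * (ep a a' *
          (((pts A).filter fs).map fun x => ep (l x) (l (τ x))).prod)) •
        ((opL y s (st p, a) : Module.End ℝ Fn) *
        (W y (s + sgn (st p)) ((pts A).map fun x => (st x, l x)) : Module.End ℝ Fn) *
        (opL y s2 (st (τ p), a') : Module.End ℝ Fn))) (Function.update lab p a) =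
        (κA * κB) • (ep a a' • ((opL y s (st p, a) : Module.End ℝ Fn) *
          (opL y s2 (st (τ p), a') : Module.End ℝ Fn))) := by
      intro a a'
      have h3 : sumL (pts A) (fun l =>
          (κB * (ep a a' *
            (((pts A).filter fs).map fun x => ep (l x) (l (τ x))).prod)) •
          ((opL y s (st p, a) : Module.End ℝ Fn) *
          (W y (s + sgn (st p)) ((pts A).map fun x => (st x, l x)) : Module.End ℝ Fn) *
          (opL y s2 (st (τ p), a') : Module.End ℝ Fn))) (Function.update lab p a) =
          sumL (pts A) (fun l => (κB * ep a a') •
          ((opL y s (st p, a) : Module.End ℝ Fn) *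
          ((((pts A).filter fs).map fun x => ep (l x) (l (τ x))).prod •
          (W y (s + sgn (st p)) ((pts A).map fun x => (st x, l x)) : Module.End ℝ Fn)) *
          (opL y s2 (st (τ p), a') : Module.End ℝ Fn))) (Function.update lab p a) := by
        refine sumL_congr _ _ fun l _ => ?_
        rw [mul_smul_comm, smul_mul_assoc, smul_smul, mul_assoc κB]
      rw [h3, ← sumL_map (fun X : Module.End ℝ Fn => (κB * ep a a') •
          ((opL y s (st p, a) : Module.End ℝ Fn) * X *
          (opL y s2 (st (τ p), a') : Module.End ℝ Fn)))
        (by intro a b; rw [mul_add, add_mul, smul_add]), ih1 hndA (s + sgn (st p)) _]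
      rw [mul_smul_comm, mul_one, smul_mul_assoc, smul_smul, smul_smul]
      congr 1
      ring
    have hsum : sumL (p :: (pts A ++ τ p :: pts B)) (fun lab =>
        (((p :: (pts A ++ τ p :: pts B)).filter fs).map
          fun x => ep (lab x) (lab (τ x))).prod •
        (W y s ((p :: (pts A ++ τ p :: pts B)).map fun x => (st x, lab x)) :
          Module.End ℝ Fn)) lab =
        (κA * κB) • ∑ a : Bool, ∑ a' : Bool, ep a a' • ((opL y s (st p, a) : Module.End ℝ Fn) *
          (opL y s2 (st (τ p), a') : Module.End ℝ Fn)) := by
      have h3 : ∀ a : Bool, sumL (pts A ++ τ p :: pts B) (fun lab =>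
          (((p :: (pts A ++ τ p :: pts B)).filter fs).map
            fun x => ep (lab x) (lab (τ x))).prod •
          (W y s ((p :: (pts A ++ τ p :: pts B)).map fun x => (st x, lab x)) :
            Module.End ℝ Fn)) (Function.update lab p a) =
          ∑ a' : Bool, (κA * κB) • (ep a a' • ((opL y s (st p, a) : Module.End ℝ Fn) *
          (opL y s2 (st (τ p), a') : Module.End ℝ Fn))) := by
        intro a
        rw [sumL_append]
        have h4 : sumL (pts A) (fun l => sumL (τ p :: pts B) (fun lab =>
            (((p :: (pts A ++ τ p :: pts B)).filter fs).map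
              fun x => ep (lab x) (lab (τ x))).prod •
            (W y s ((p :: (pts A ++ τ p :: pts B)).map fun x => (st x, lab x)) :
              Module.End ℝ Fn)) l) (Function.update lab p a) =
            sumL (pts A) (fun l =>
            ((κB * (ep a false *
              (((pts A).filter fs).map fun x => ep (l x) (l (τ x))).prod)) •
            ((opL y s (st p, a) : Module.End ℝ Fn) *
            (W y (s + sgn (st p)) ((pts A).map fun x => (st x, l x)) : Module.End ℝ Fn) *
            (opL y s2 (st (τ p), false) : Module.End ℝ Fn))) +
            ((κB * (ep a true *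
              (((pts A).filter fs).map fun x => ep (l x) (l (τ x))).prod)) •
            ((opL y s (st p, a) : Module.End ℝ Fn) *
            (W y (s + sgn (st p)) ((pts A).map fun x => (st x, l x)) : Module.End ℝ Fn) *
            (opL y s2 (st (τ p), true) : Module.End ℝ Fn)))) (Function.update lab p a) := by
          refine sumL_congr _ _ fun l hl => ?_
          have hlp : l p = a := by rw [hl p hpA, Function.update_self]
          simp only [sumL]
          rw [hB1, hB1]
          have e1 : ∀ b : Bool, Function.update l (τ p) b p = a := by
            intro b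
            rw [Function.update_of_ne hpq, hlp]
          have e2 : ∀ b : Bool, Function.update l (τ p) b (τ p) = b := by
            intro b
            rw [Function.update_self]
          have e3 : ∀ b : Bool, ((pts A).map fun x => (st x, Function.update l (τ p) b x)) =
              (pts A).map fun x => (st x, l x) := by
            intro b
            refine List.map_congr_left fun x hx => ?_
            have hne : x ≠ τ p := fun h => hqA (h ▸ hx)
            rw [Function.update_of_ne hne]
          have e4 : ∀ b : Bool, (((pts A).filter fs).map fun x =>
              ep (Function.update l (τ p) b x) (Function.update l (τ p) b (τ x))) =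
              ((pts A).filter fs).map fun x => ep (l x) (l (τ x)) := by
            intro b
            refine List.map_congr_left fun x hx => ?_
            rw [List.mem_filter] at hx
            have hne : x ≠ τ p := fun h => hqA (h ▸ hx.1)
            have hne' : τ x ≠ τ p := fun h => hqA (h ▸ hclA x hx.1 hx.2)
            rw [Function.update_of_ne hne, Function.update_of_ne hne']
          rw [e1, e1, e2, e2, e3, e3, e4, e4]
        rw [h4]
        have h5 : ∀ (f g : (P → Bool) → Module.End ℝ Fn) (M : List P) (l : P → Bool),
            sumL M (fun l => f l + g l) l = sumL M f l + sumL M g l := by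
          intro f g M
          induction M with
          | nil => intro l; rfl
          | cons q M ih => intro l; simp only [sumL, ih]; abel
        rw [h5, hA1, hA1, Fintype.sum_bool, add_comm]
      simp only [sumL]
      rw [h3, h3, add_comm]
      simp only [Finset.smul_sum]
      exact (Fintype.sum_bool (fun a : Bool => ∑ a' : Bool, (κA * κB) • (ep a a' •
        ((opL y s (st p, a) : Module.End ℝ Fn) *
          (opL y s2 (st (τ p), a') : Module.End ℝ Fn))))).symm
    rw [hsum]
    by_cases hcA : ∀ x ∈ pts A, fs x = true → st (τ x) = !st x
    · have hz : ((pts A).map δ).sum = 0 := TB_sum hA st hcA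
      have hs2' : s2 = s + sgn (st p) := by rw [hs2, hz, add_zero]
      by_cases hst : st (τ p) = !st p
      · rw [hs2', hst, TB_cup, smul_smul]
        congr 1
        have hs3 : s2 + sgn (st (τ p)) = s := by
          rw [hs2', hst, sgn_not]
          ring
        by_cases hcB : ∀ x ∈ pts B, fs x = true → st (τ x) = !st x
        · have hc : ∀ x ∈ p :: (pts A ++ τ p :: pts B), fs x = true → st (τ x) = !st x := by
            intro x hx hf
            rw [List.mem_cons, List.mem_append, List.mem_cons] at hx
            rcases hx with rfl | hx | rfl | hx
            · exact hst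
            · exact hcA x hx hf
            · rw [h2] at hf; exact absurd hf (by simp)
            · exact hcB x hx hf
          rw [if_pos hc, hκA, if_pos hcA, hκB, if_pos hcB, hs3]
          have h6 : plvl δ s (p :: (pts A ++ τ p :: pts B)) =
              (p, s + sgn (st p)) :: (plvl δ (s + sgn (st p)) (pts A) ++
                (τ p, s) :: plvl δ s (pts B)) := by
            have h7 : s + sgn (st p) + sgn (st (τ p)) = s := by
              rw [hst, sgn_not]
              ring
            rw [plvl, plvl_append, hz, add_zero, plvl]
            show _ :: (_ ++ (τ p, s + sgn (st p) + sgn (st (τ p))) ::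
              plvl δ (s + sgn (st p) + sgn (st (τ p))) (pts B)) = _
            rw [h7]
          rw [h6, List.filter_cons_of_pos (by exact h1), List.filter_append,
            List.filter_cons_of_neg (by simp [h2]), List.map_cons, List.map_append,
            List.prod_cons, List.prod_append]
          ring
        · have hc : ¬ ∀ x ∈ p :: (pts A ++ τ p :: pts B), fs x = true → st (τ x) = !st x := by
            intro h
            exact hcB fun x hx => h x (List.mem_cons_of_mem _ (List.mem_append_right _
              (List.mem_cons_of_mem _ hx)))
          rw [if_neg hc, hκB, if_neg hcB]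
          ring
      · have hst' : st (τ p) = st p := by
          cases h8 : st p <;> cases h9 : st (τ p) <;> simp_all
        have hc : ¬ ∀ x ∈ p :: (pts A ++ τ p :: pts B), fs x = true → st (τ x) = !st x := by
          intro h
          exact hst (h p List.mem_cons_self h1)
        rw [hs2', hst', TB_cup0, if_neg hc, smul_zero, zero_smul]
    · have hc : ¬ ∀ x ∈ p :: (pts A ++ τ p :: pts B), fs x = true → st (τ x) = !st x := by
        intro h
        exact hcA fun x hx => h x (List.mem_cons_of_mem _ (List.mem_append_left _ hx))
      rw [if_neg hc, hκA, if_neg hcA, zero_mul, zero_smul, zero_smul]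

theorem contract_univ {C P : Type} [Fintype P] [DecidableEq P] {τ : P → P} {fs : P → Bool}
    {A : List (C ⊕ P)} (hA : NCw τ fs A) (hnd : (pts A).Nodup) (hall : ∀ p, p ∈ pts A) (y : ℝ)
    (st : P → Bool) :
    ∑ lab : P → Bool, (∏ p, if fs p = true then ep (lab p) (lab (τ p)) else 1) •
      (W y 0 ((pts A).map fun p => (st p, lab p)) : Module.End ℝ Fn) =
    (if ∀ p, fs p = true → st (τ p) = !st p then
      (((plvl (fun p => sgn (st p)) 0 (pts A)).filter (fun x => fs x.1)).map
        fun x => -dl y x.2).prod else 0) • (1 : Module.End ℝ Fn) := by
  have h1 := contract hA hnd y st 0 (fun _ => false)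
  rw [sumL_univ _ _ hnd hall] at h1
  have h2 : (∀ p ∈ pts A, fs p = true → st (τ p) = !st p) ↔
      ∀ p, fs p = true → st (τ p) = !st p :=
    ⟨fun h p => h p (hall p), fun h p _ => h p⟩
  simp only [h2] at h1
  rw [← h1]
  refine Finset.sum_congr rfl fun lab _ => ?_
  congr 1
  have h3 : (Finset.univ : Finset P) = (pts A).toFinset := by
    ext x
    simp [hall]
  rw [h3, List.prod_toFinset _ hnd]
  clear h1
  induction (pts A) with
  | nil => rfl
  | cons a l ih =>
    rw [List.map_cons, List.prod_cons, ih]
    by_cases hf : fs a = true
    · rw [if_pos hf, List.filter_cons_of_pos hf, List.map_cons, List.prod_cons]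
    · rw [if_neg hf, List.filter_cons_of_neg hf, one_mul]

end Pool.Agent.AMU.Ter
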