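import Pool.Agent.Lib.AMU.TerA

/-!
# Row TC: counting the intervals of the pieces

Induction on `NCw`. For `A = p :: (A' ++ τ p :: B)`, `s' = s + δ p`: the level after `τ p` is `s` (the steps of
`A'` cancel) and
`cF A t = [s' = t] + cF A' t + cF B t`, `cA A t = [s' = t] + cA A' t + [s = t] + cA B t` (`A'` from the level `s'`,
`B` from the level `s`); `A'` is not empty by `hadj`. `cnt_lt`: the corner `i` is in `A'` or `B`; if `A' = [.inl i]`,
the word contains `[p, i, τ p]`, against `hcut`; if `B = [.inl i]`, use the term `[s = t]` of `τ p` and `cA B`.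
`cnt_two`: `A` consists of at least two items (an item is a corner or an arc).
-/

set_option autoImplicit false

namespace Pool.Agent.AMU.Ter

variable {C P : Type} {τ : P → P} {fs : P → Bool} {A : List (C ⊕ P)} {δ : P → ℤ}

private theorem TC_app (A B : List (C ⊕ P)) : ∀ s t : ℤ,
    cA δ s (A ++ B) t = cA δ s A t + cA δ (s + ((pts A).map δ).sum) B t ∧
    cF δ fs s (A ++ B) t = cF δ fs s A t + cF δ fs (s + ((pts A).map δ).sum) B t ∧
    (CornersAt δ t s (A ++ B) ↔ CornersAt δ t s A ∧ CornersAt δ t (s + ((pts A).map δ).sum) B) := by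
  induction A with
  | nil =>
    intro s t
    simp [pts, cA, cF, CornersAt]
  | cons x A ih =>
    intro s t
    rcases x with c | p
    · obtain ⟨h1, h2, h3⟩ := ih s t
      refine ⟨?_, ?_, ?_⟩
      · simp only [List.cons_append, cA, pts, h1, add_assoc]
      · simp only [List.cons_append, cF, pts, h2]
      · simp only [List.cons_append, CornersAt, pts, h3, and_assoc]
    · obtain ⟨h1, h2, h3⟩ := ih (s + δ p) t
      have e : s + ((pts (Sum.inr p :: A)).map δ).sum = s + δ p + ((pts A).map δ).sum := by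
        simp only [pts, List.map_cons, List.sum_cons, add_assoc]
      rw [e]
      refine ⟨?_, ?_, ?_⟩
      · simp only [List.cons_append, cA, h1, add_assoc]
      · simp only [List.cons_append, cF, h2, add_assoc]
      · simp only [List.cons_append, CornersAt, h3]

private theorem TC_sum (hA : NCw τ fs A) (hδ : ∀ p, δ (τ p) = -δ p) :
    ((pts A).map δ).sum = 0 := by
  induction hA with
  | nil => rfl
  | corner c _ ih => exact ih
  | arc p _ _ _ _ ihA ihB =>
    simp only [pts, pts_append, List.map_cons, List.map_append, List.sum_cons, List.sum_append,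
      ihA, ihB, hδ]
    ring

private theorem TC_arc {p : P} {A' B : List (C ⊕ P)} (h1 : fs p = true) (h2 : fs (τ p) = false)
    (hA : NCw τ fs A') (hδ : ∀ p, δ (τ p) = -δ p) (s t : ℤ) :
    cA δ s (.inr p :: (A' ++ .inr (τ p) :: B)) t = (if s + δ p = t then 1 else 0) +
      (cA δ (s + δ p) A' t + ((if s = t then 1 else 0) + cA δ s B t)) ∧
    cF δ fs s (.inr p :: (A' ++ .inr (τ p) :: B)) t = (if s + δ p = t then 1 else 0) +
      (cF δ fs (s + δ p) A' t + cF δ fs s B t) ∧
    (CornersAt δ t s (.inr p :: (A' ++ .inr (τ p) :: B)) ↔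
      CornersAt δ t (s + δ p) A' ∧ CornersAt δ t s B) := by
  obtain ⟨e1, e2, e3⟩ := TC_app (fs := fs) (δ := δ) A' (Sum.inr (τ p) :: B) (s + δ p) t
  have e0 : s + δ p + ((pts A').map δ).sum = s + δ p := by rw [TC_sum hA hδ, add_zero]
  have e4 : s + δ p + δ (τ p) = s := by rw [hδ]; ring
  rw [e0] at e1 e2 e3
  refine ⟨?_, ?_, ?_⟩
  · simp only [cA, e1, e4]
  · simp only [cF, e2, e4, h1, h2, true_and]
    simp
  · simp only [CornersAt, e3, e4]

private theorem TC_tail {x : C ⊕ P} {L A : List (C ⊕ P)} (h : L <:+: A) : L <:+: x :: A :=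
  h.trans (List.suffix_cons x A).isInfix

private theorem TC_left {x y : C ⊕ P} {L A' B : List (C ⊕ P)} (h : L <:+: A') :
    L <:+: x :: (A' ++ y :: B) :=
  TC_tail (h.trans (List.prefix_append A' _).isInfix)

private theorem TC_right {x y : C ⊕ P} {L A' B : List (C ⊕ P)} (h : L <:+: B) :
    L <:+: x :: (A' ++ y :: B) :=
  TC_tail ((TC_tail h).trans (List.suffix_append A' _).isInfix)

theorem cnt_le (hA : NCw τ fs A) (hadj : ∀ p, ¬ [(Sum.inr p : C ⊕ P), Sum.inr (τ p)] <:+: A)
    (hδ : ∀ p, δ (τ p) = -δ p) (s t : ℤ) :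
    2 * cF δ fs s A t + (if A ≠ [] ∧ s = t then 1 else 0) ≤ cA δ s A t := by
  induction hA generalizing s with
  | nil => simp [cF, cA]
  | @corner c A _ ih =>
    have h1 := ih (fun p h => hadj p (TC_tail h)) s
    simp only [cF, cA]
    have h2 : (if (Sum.inl c :: A : List (C ⊕ P)) ≠ [] ∧ s = t then 1 else 0) =
        (if s = t then 1 else 0 : ℕ) := by simp
    rw [h2]
    omega
  | @arc p A' B hp1 hp2 hA' hB ihA ihB =>
    have h1 := ihA (fun q h => hadj q (TC_left h)) (s + δ p)
    have h2 := ihB (fun q h => hadj q (TC_right h)) s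
    obtain ⟨e1, e2, -⟩ := TC_arc (B := B) hp1 hp2 hA' hδ s t
    rw [e1, e2]
    have hne : A' ≠ [] := by
      rintro rfl
      exact hadj p ⟨[], B, rfl⟩
    have h3 : (if (Sum.inr p :: (A' ++ Sum.inr (τ p) :: B) : List (C ⊕ P)) ≠ [] ∧ s = t then 1
        else 0) = (if s = t then 1 else 0 : ℕ) := by simp
    have h4 : (if A' ≠ [] ∧ s + δ p = t then 1 else 0) =
        (if s + δ p = t then 1 else 0 : ℕ) := by simp [hne]
    rw [h3]
    rw [h4] at h1
    omega

theorem cnt_lt (hA : NCw τ fs A) (hadj : ∀ p, ¬ [(Sum.inr p : C ⊕ P), Sum.inr (τ p)] <:+: A)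
    (hδ : ∀ p, δ (τ p) = -δ p) (i : C) (hi : Sum.inl i ∈ A)
    (hcut : ∀ p, ¬ [(Sum.inr p : C ⊕ P), Sum.inl i, Sum.inr (τ p)] <:+: A)
    (hne : A ≠ [Sum.inl i]) (s t : ℤ) (hlev : CornersAt δ t s A) :
    2 * cF δ fs s A t + (if s = t then 1 else 0) + 1 ≤ cA δ s A t := by
  induction hA generalizing s with
  | nil => exact absurd hi (List.not_mem_nil)
  | @corner c A hA' _ =>
    obtain ⟨hst, hlev'⟩ := hlev
    have h0 : A ≠ [] := by
      rintro rfl
      apply hne
      have h1 : (Sum.inl i : C ⊕ P) = Sum.inl c := by simpa using hi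
      rw [h1]
    have h1 := cnt_le hA' (fun p h => hadj p (TC_tail h)) hδ s t
    rw [if_pos ⟨h0, hst⟩] at h1
    simp only [cF, cA, if_pos hst]
    omega
  | @arc p A' B hp1 hp2 hA' hB ihA ihB =>
    obtain ⟨e1, e2, e3⟩ := TC_arc (B := B) hp1 hp2 hA' hδ s t
    obtain ⟨hl1, hl2⟩ := e3.1 hlev
    rw [e1, e2]
    have hA'ne : A' ≠ [] := by
      rintro rfl
      exact hadj p ⟨[], B, rfl⟩
    have hi' : Sum.inl i ∈ A' ∨ Sum.inl i ∈ B := by
      rw [List.mem_cons, List.mem_append, List.mem_cons] at hi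
      rcases hi with h | h | h | h
      · exact absurd h (by simp)
      · exact Or.inl h
      · exact absurd h (by simp)
      · exact Or.inr h
    have hadA : ∀ q, ¬ [(Sum.inr q : C ⊕ P), Sum.inr (τ q)] <:+: A' :=
      fun q h => hadj q (TC_left h)
    have hadB : ∀ q, ¬ [(Sum.inr q : C ⊕ P), Sum.inr (τ q)] <:+: B :=
      fun q h => hadj q (TC_right h)
    have hleA := cnt_le hA' hadA hδ (s + δ p) t
    have hleB := cnt_le hB hadB hδ s t
    have h4 : (if A' ≠ [] ∧ s + δ p = t then 1 else 0) =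
        (if s + δ p = t then 1 else 0 : ℕ) := by simp [hA'ne]
    rw [h4] at hleA
    rcases hi' with h | h
    · have hneA : A' ≠ [Sum.inl i] := by
        rintro rfl
        exact hcut p ⟨[], B, rfl⟩
      have h5 := ihA hadA h (fun q h => hcut q (TC_left h)) hneA (s + δ p) hl1
      omega
    · by_cases hBi : B = [Sum.inl i]
      · rw [hBi] at hl2 ⊢
        have hst : s = t := hl2.1
        simp only [cF, cA, if_pos hst]
        omega
      · have h5 := ihB hadB h (fun q h => hcut q (TC_right h)) hBi s hl2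
        omega

theorem cnt_two (hA : NCw τ fs A) (hadj : ∀ p, ¬ [(Sum.inr p : C ⊕ P), Sum.inr (τ p)] <:+: A)
    (hδ : ∀ p, δ (τ p) = -δ p) (hne : A ≠ []) (h1 : ∀ c : C, A ≠ [Sum.inl c])
    (h2 : ∀ p B, A ≠ Sum.inr p :: (B ++ [Sum.inr (τ p)])) (s : ℤ) :
    2 * cF δ fs s A s + 2 ≤ cA δ s A s := by
  cases hA with
  | nil => exact absurd rfl hne
  | @corner c A hA' =>
    have h0 : A ≠ [] := by
      rintro rfl
      exact h1 c rfl
    have h3 := cnt_le hA' (fun p h => hadj p (TC_tail h)) hδ s s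
    rw [if_pos ⟨h0, rfl⟩] at h3
    simp only [cF, cA, if_true]
    omega
  | @arc p A' B hp1 hp2 hA' hB =>
    obtain ⟨e1, e2, -⟩ := TC_arc (B := B) hp1 hp2 hA' hδ s s
    rw [e1, e2]
    have hA'ne : A' ≠ [] := by
      rintro rfl
      exact hadj p ⟨[], B, rfl⟩
    have hBne : B ≠ [] := by
      rintro rfl
      exact h2 p A' rfl
    have hleA := cnt_le hA' (fun q h => hadj q (TC_left h)) hδ (s + δ p) s
    have hleB := cnt_le hB (fun q h => hadj q (TC_right h)) hδ s s
    have h4 : (if A' ≠ [] ∧ s + δ p = s then 1 else 0) =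
        (if s + δ p = s then 1 else 0 : ℕ) := by simp [hA'ne]
    rw [h4] at hleA
    rw [if_pos ⟨hBne, rfl⟩] at hleB
    simp only [if_true]
    omega

end Pool.Agent.AMU.Ter
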