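import Pool.Agent.Lib.AMU.TerA

/-!
# Row TD: levels of sorted lists

`plvl_eq`: generalize to `M = M₁ ++ M₂` (the level before `M₂` is the sum of `δ` over `M₁`; for `x` the head of
`M₂` the points `z` with `key z ≤ key x` are the elements of `M₁` and `x`). `cF_eq`: `cF δ fs s A t` counts
the elements (x, t) of `plvl δ s (pts A)` with `fs x`.
-/

set_option autoImplicit false

namespace Pool.Agent.AMU.Ter

variable {C P K : Type} [Fintype P] [LinearOrder K] (key : P → K) (δ : P → ℤ)

omit [Fintype P] in
private theorem TD_lt_append {M₁ M₂ : List P}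
    (hs : (M₁ ++ M₂).Pairwise (fun a b => key a < key b)) {a b : P} (ha : a ∈ M₁) (hb : b ∈ M₂) :
    key a < key b :=
  (List.pairwise_append.1 hs).2.2 a ha b hb

private theorem TD_sum [DecidableEq P] (M : List P) (hnd : M.Nodup) :
    (M.map δ).sum = ∑ z, if z ∈ M then δ z else 0 := by
  rw [Finset.sum_ite, Finset.sum_const_zero, add_zero]
  have h : (Finset.univ.filter fun z => z ∈ M) = M.toFinset := by
    ext z
    simp
  rw [h, List.sum_toFinset _ hnd]

omit [Fintype P] in
private theorem TD_nodup {M : List P} (hs : M.Pairwise (fun a b => key a < key b)) : M.Nodup :=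
  hs.imp fun h e => absurd h (by rw [e]; exact lt_irrefl _)

private theorem TD_aux (M₁ M₂ : List P)
    (hs : (M₁ ++ M₂).Pairwise (fun a b => key a < key b)) (hall : ∀ p, p ∈ M₁ ++ M₂) :
    plvl δ (M₁.map δ).sum M₂ = M₂.map (fun x => (x, levA key δ x)) := by
  classical
  induction M₂ generalizing M₁ with
  | nil => rfl
  | cons p M₂ ih =>
    have hs' : (M₁ ++ [p] ++ M₂).Pairwise (fun a b => key a < key b) := by
      simpa using hs
    have hall' : ∀ q, q ∈ M₁ ++ [p] ++ M₂ := by
      intro q
      have := hall q
      simpa using this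
    have h1 : (M₁.map δ).sum + δ p = ((M₁ ++ [p]).map δ).sum := by
      simp
    have hnd : (M₁ ++ [p]).Nodup := TD_nodup key (hs'.sublist (List.sublist_append_left _ _))
    have h2 : levA key δ p = ((M₁ ++ [p]).map δ).sum := by
      rw [TD_sum δ _ hnd]
      unfold levA
      refine Finset.sum_congr rfl fun z _ => ?_
      by_cases hz : z ∈ M₁ ++ [p]
      · rw [if_pos hz]
        rw [List.mem_append, List.mem_singleton] at hz
        rcases hz with hz | rfl
        · rw [if_pos (TD_lt_append key hs hz List.mem_cons_self).le]
        · rw [if_pos le_rfl]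
      · rw [if_neg hz]
        have hz2 : z ∈ M₂ := by
          have := hall' z
          rw [List.mem_append] at this
          exact this.resolve_left hz
        rw [if_neg (not_le.2 (TD_lt_append key hs' (List.mem_append_right _
          (List.mem_singleton_self p)) hz2))]
    rw [plvl, List.map_cons, h2, h1, ih (M₁ ++ [p]) hs' hall']

theorem plvl_eq (M : List P) (hs : M.Pairwise (fun a b => key a < key b)) (hall : ∀ p, p ∈ M) :
    plvl δ 0 M = M.map (fun x => (x, levA key δ x)) :=
  TD_aux key δ [] M hs hall

theorem levA_eq_levB_add (hinj : Function.Injective key) (x : P) :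
    levA key δ x = levB key δ x + δ x := by
  classical
  have h1 : δ x = ∑ z, if z = x then δ z else 0 := by
    rw [Finset.sum_ite_eq' Finset.univ x δ, if_pos (Finset.mem_univ x)]
  conv_rhs => rw [h1]
  unfold levA levB
  rw [← Finset.sum_add_distrib]
  refine Finset.sum_congr rfl fun z _ => ?_
  by_cases h : z = x
  · subst h
    rw [if_pos le_rfl, if_neg (lt_irrefl _), if_pos rfl, zero_add]
  · rw [if_neg h, add_zero]
    have h2 : key z ≠ key x := fun e => h (hinj e)
    by_cases h3 : key z < key x
    · rw [if_pos h3, if_pos h3.le]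
    · rw [if_neg h3, if_neg (fun h4 => h3 (lt_of_le_of_ne h4 h2))]

omit [Fintype P] in
private theorem TD_cF (fs : P → Bool) (A : List (C ⊕ P)) (s t : ℤ) :
    cF δ fs s A t = (plvl δ s (pts A)).countP (fun x => fs x.1 && decide (x.2 = t)) := by
  induction A generalizing s with
  | nil => rfl
  | cons o A ih =>
    rcases o with c | p
    · simp only [cF, pts, ih]
    · simp only [cF, pts, plvl, ih, List.countP_cons]
      rw [add_comm]
      congr 1
      by_cases h1 : fs p = true <;> by_cases h2 : s + δ p = t <;> simp [h1, h2]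

theorem cF_eq (fs : P → Bool) (A : List (C ⊕ P))
    (hs : (pts A).Pairwise (fun a b => key a < key b)) (hall : ∀ p, p ∈ pts A) (t : ℤ) :
    cF δ fs 0 A t = (Finset.univ.filter fun x => fs x = true ∧ levA key δ x = t).card := by
  classical
  rw [TD_cF, plvl_eq key δ _ hs hall, List.countP_map, List.countP_eq_length_filter]
  have h1 : (Finset.univ.filter fun x => fs x = true ∧ levA key δ x = t) =
      ((pts A).filter ((fun x : P × ℤ => fs x.1 && decide (x.2 = t)) ∘
        fun x => (x, levA key δ x))).toFinset := by
    ext x
    simp [hall]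
  rw [h1, List.toFinset_card_of_nodup ((TD_nodup key hs).filter _)]

end Pool.Agent.AMU.Ter
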