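import Pool.Agent.Lib.AMU.FunDef

/-!
# Section T (terminal evaluation): definitions (helper79)

* `NCw τ fs A`: `A` is a word of corners (`.inl c`) and points (`.inr p`), and the matching `τ` of the
  points of `A` is noncrossing; `fs p = true` iff `p` comes before `τ p`.
* `plvl δ s M`: the points of `M` with the levels after them, starting with the level `s`; the
  level changes by `δ p` at the point `p`.
* `cA δ s A t`, `cF δ fs s A t`: the number of all objects (corners and points) of `A`, or of the
  first points of `A`, such that the level after them is `t`.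
* strands `ST w m`: (j, (k, u)) is the `u`-th parallel strand of the letter `k` of the word `j`;
  points `PT w m`: (i, false) departure point of the strand `i` (on the side `letr i`),
  (i, true) arrival point (on the side `opp (letr i)`).
-/

set_option autoImplicit false

namespace Pool.Agent.AMU.Ter

/-! ## Words of corners and points -/

section words

variable {C P : Type}

/-- Noncrossing words. -/
inductive NCw (τ : P → P) (fs : P → Bool) : List (C ⊕ P) → Prop
  | nil : NCw τ fs []
  | corner (c : C) {A : List (C ⊕ P)} : NCw τ fs A → NCw τ fs (.inl c :: A)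
  | arc (p : P) {A B : List (C ⊕ P)} : fs p = true → fs (τ p) = false → NCw τ fs A →
      NCw τ fs B → NCw τ fs (.inr p :: (A ++ .inr (τ p) :: B))

/-- The points of a word. -/
def pts : List (C ⊕ P) → List P
  | [] => []
  | .inl _ :: A => pts A
  | .inr p :: A => p :: pts A

/-- The points with the levels after them. -/
def plvl (δ : P → ℤ) : ℤ → List P → List (P × ℤ)
  | _, [] => []
  | s, p :: M => (p, s + δ p) :: plvl δ (s + δ p) M

/-- The number of objects with the level `t` after them. -/
def cA (δ : P → ℤ) : ℤ → List (C ⊕ P) → ℤ → ℕ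
  | _, [], _ => 0
  | s, .inl _ :: A, t => (if s = t then 1 else 0) + cA δ s A t
  | s, .inr p :: A, t => (if s + δ p = t then 1 else 0) + cA δ (s + δ p) A t

/-- The number of first points with the level `t` after them. -/
def cF (δ : P → ℤ) (fs : P → Bool) : ℤ → List (C ⊕ P) → ℤ → ℕ
  | _, [], _ => 0
  | s, .inl _ :: A, t => cF δ fs s A t
  | s, .inr p :: A, t => (if fs p = true ∧ s + δ p = t then 1 else 0) + cF δ fs (s + δ p) A t

/-- All corners have the level `t`. -/
def CornersAt (δ : P → ℤ) (t : ℤ) : ℤ → List (C ⊕ P) → Prop
  | _, [] => True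
  | s, .inl _ :: A => s = t ∧ CornersAt δ t s A
  | s, .inr p :: A => CornersAt δ t (s + δ p) A

/-- The sum over the labels of the points of a list. -/
def sumL {E : Type} [DecidableEq P] [Add E] : List P → ((P → Bool) → E) → (P → Bool) → E
  | [], f, lab => f lab
  | p :: M, f, lab => sumL M f (Function.update lab p false) + sumL M f (Function.update lab p true)

end words

/-! ## Levels -/

section levels

variable {P K : Type} [Fintype P] [LinearOrder K] (key : P → K) (δ : P → ℤ)

/-- The level after the point `x`. -/
def levA (x : P) : ℤ := ∑ z, if key z ≤ key x then δ z else 0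

/-- The level before the point `x`. -/
def levB (x : P) : ℤ := ∑ z, if key z < key x then δ z else 0

end levels

/-! ## Diagrams -/

/-- The strands. -/
abbrev ST {N r : ℕ} (w : Fin r → List (ZMod N)) (m : Fin r → ℕ) : Type :=
  Σ j : Fin r, Fin (w j).length × Fin (m j)

/-- The points. -/
abbrev PT {N r : ℕ} (w : Fin r → List (ZMod N)) (m : Fin r → ℕ) : Type := ST w m × Bool

section diagram

variable {N r : ℕ} (opp : ZMod N → ZMod N) {w : Fin r → List (ZMod N)} (pos : Fin r → ℕ → ℤ)
  {m : Fin r → ℕ}

/-- Canonical sides. -/
abbrev can (i : ZMod N) : Prop := i.val < (opp i).val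

/-- The letter of a strand. -/
def letr (i : ST w m) : ZMod N := (w i.1).getD i.2.1.val 0

/-- The next strand of the same closed curve. -/
def nxt (i : ST w m) : ST w m :=
  ⟨i.1, (⟨(i.2.1.val + 1) % (w i.1).length, Nat.mod_lt _ i.2.1.pos⟩, i.2.2)⟩

/-- The previous strand of the same closed curve. -/
def prv (i : ST w m) : ST w m :=
  ⟨i.1, (⟨(i.2.1.val + ((w i.1).length - 1)) % (w i.1).length, Nat.mod_lt _ i.2.1.pos⟩, i.2.2)⟩

/-- The other end of the chord. -/
def mate (x : PT w m) : PT w m := if x.2 then (nxt x.1, false) else (prv x.1, true)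

/-- The other end of the strand. -/
def flp (x : PT w m) : PT w m := (x.1, !x.2)

/-- The side of a point. -/
def pside (x : PT w m) : ZMod N := if x.2 then opp (letr x.1) else letr x.1

/-- The position of a point on the boundary. -/
def pkey (x : PT w m) : ℕ ×ₗ ℤ ×ₗ ℤ :=
  toLex ((pside opp x).val,
    toLex (if can opp (pside opp x) then pos x.1.1 x.1.2.1.val else -pos x.1.1 x.1.2.1.val,
      if x.2 then (x.1.2.2.val : ℤ) else -(x.1.2.2.val : ℤ)))

/-- The first points of the chords. -/
def fstp (x : PT w m) : Bool := decide (pkey opp pos x < pkey opp pos (mate x))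

/-- The points on a side, in their order. -/
noncomputable def sideL (i : ZMod N) : List (PT w m) :=
  ((Finset.univ.filter fun x : PT w m => pside opp x = i).toList).insertionSort
    (fun a b => pkey opp pos a ≤ pkey opp pos b)

/-- The points in their order. -/
noncomputable def ptL : List (PT w m) :=
  (List.range N).flatMap fun j : ℕ => sideL opp pos (j : ZMod N)

/-- The corners and the points in their order. -/
noncomputable def objL : List (ZMod N ⊕ PT w m) :=
  (List.range N).flatMap fun j : ℕ => .inl (j : ZMod N) :: (sideL opp pos (j : ZMod N)).map .inr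

/-- The strands, in the order of their ends on the canonical sides. -/
noncomputable def strandL : List (ST w m) :=
  ((List.range N).filter fun j : ℕ => decide (can opp (j : ZMod N))).flatMap fun j : ℕ =>
    (sideL opp pos (j : ZMod N)).map Prod.fst

/-- The labelled strand. -/
def strandOf (lab : PT w m → Bool) (i : ST w m) : Strand N :=
  if can opp (letr i) then (letr i, lab (i, false), lab (i, true))
  else (opp (letr i), lab (i, true), lab (i, false))

/-- The coefficient of the labels in the product of the traces. -/
noncomputable def coefL (lab : PT w m → Bool) : ℝ :=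
  ∏ i : ST w m, (if can opp (letr i) then (1 : ℝ) else -1) * ep (lab (i, true)) (lab (nxt i, false))

/-- The steps of the points given by the integers `D j`. -/
def dst (D : Fin r → ℤ) (x : PT w m) : ℤ := if x.2 then -D x.1.1 else D x.1.1

/-- The steps of the points given by the signs of the closed curves. -/
def sst (σ : (Σ j : Fin r, Fin (m j)) → Bool) (x : PT w m) : ℤ :=
  if x.2 then -sgn (σ ⟨x.1.1, x.1.2.2⟩) else sgn (σ ⟨x.1.1, x.1.2.2⟩)

/-- The steps of the points given by the departure steps. -/
def stp (ρ : ST w m → Bool) (x : PT w m) : Bool := if x.2 then !ρ x.1 else ρ x.1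

/-- The signs of the word `j` add up to `D j`. -/
def Dsum (σ : (Σ j : Fin r, Fin (m j)) → Bool) (j : Fin r) : ℤ := ∑ u : Fin (m j), sgn (σ ⟨j, u⟩)

/-- The steps on every side add up to `0`. -/
def BalP (δ : PT w m → ℤ) : Prop :=
  ∀ i : ZMod N, ∑ x : PT w m, (if pside opp x = i then δ x else 0) = 0

noncomputable instance (δ : PT w m → ℤ) : Decidable (BalP opp δ) := Classical.propDecidable _

/-- The expansion of the functional `F` into labelled strands (input of section T). -/
def ExpHyp {N : ℕ} [NeZero N] (opp : ZMod N → ZMod N) {Γ : Type} [Group Γ] (s : ZMod N → Γ) (e : ℤ)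
    (F : ℝ → Multiset Γ → ℝ) : Prop :=
  ∀ (r : ℕ) (w : Fin r → List (ZMod N)) (m : Fin r → ℕ) (L : List (ST w m)), (∀ j, w j ≠ []) →
    L.Nodup → (∀ i, i ∈ L) → ∀ x : ℝ, (∀ k : ℤ, x ≠ k) →
    F x (∑ j, Multiset.replicate (m j) ((w j).map s).prod) =
      ∑' k : ℤ, ∑ lab : PT w m → Bool,
        coefL opp lab * term opp (x + k) e (L.map (strandOf opp lab))

variable [NeZero N]

/-- The weight of the levels of a diagram. -/
noncomputable def wt (y : ℝ) (e : ℤ) (δ : PT w m → ℤ) : ℝ :=
  dl y 0 ^ (e + 1) * ((dl y 0)⁻¹) ^ (canon opp).card *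
    (∏ x : PT w m, if can opp (pside opp x) then (dl y (levA (pkey opp pos) δ x))⁻¹ else 1) *
    ∏ x : PT w m, if fstp opp pos x = true then dl y (levA (pkey opp pos) δ x) else 1

/-- The exponent of the quantum dimension of the level `t`, for the diagram with `m = 1`. -/
noncomputable def ex (w : Fin r → List (ZMod N)) (e : ℤ) (D : Fin r → ℤ) (t : ℤ) : ℤ :=
  (if t = 0 then e + 1 - (canon opp).card else 0) +
    ((Finset.univ.filter fun x : PT w (fun _ => 1) =>
      fstp opp pos x = true ∧ levA (pkey opp pos) (dst D) x = t).card : ℤ) -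
    ((Finset.univ.filter fun x : PT w (fun _ => 1) =>
      can opp (pside opp x) ∧ levA (pkey opp pos) (dst D) x = t).card : ℤ)

/-- The levels of the diagram with `m = 1`. -/
noncomputable def lvS (w : Fin r → List (ZMod N)) (D : Fin r → ℤ) : Finset ℤ :=
  insert 0 (Finset.univ.image fun x : PT w (fun _ => 1) => levA (pkey opp pos) (dst D) x)

end diagram

end Pool.Agent.AMU.Ter
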