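import Pool.Agent.Lib.AMU.Ops

/-!
# Row TE: the limit

`dl y t = (-1) ^ t * (y + t)`. For `0 < |x| ≤ 1/2`, `k : ℤ`: `|x + k + t| ≥ 1/2` if `t ≠ -k`, hence
`|x ^ κ * ∏ ..| ≤ |x| ^ (κ + ex (-k)) * 2 ^ κ ≤ 2 ^ κ` (`ex (-k) ≥ -κ`), and for `|k| ≥ 2 max |t| + 2` it is
at most (|k| / 4) ^ (-κ) ≤ 16 / k ^ 2 times `|x| ^ κ`. Dominated convergence
(`tendsto_tsum_of_dominated_convergence`); the summand `k` tends to `1` if `-k ∈ T` and `ex (-k) = -κ`
(then all other exponents are `0`, `x ^ κ * ((-1) ^ k * x) ^ (-κ) = 1` since `κ` is even), and to `0`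
otherwise (`κ + ex (-k) > 0`). At most one `t` has `ex t = -κ`.
-/

set_option autoImplicit false

namespace Pool.Agent.AMU.Ter

open Filter Topology

private theorem TE_prod (S : Finset ℤ) (a : ℝ) (ha : a ≠ 0) (e : ℤ → ℤ) :
    ∏ t ∈ S, a ^ e t = a ^ (∑ t ∈ S, e t) := by
  classical
  induction S using Finset.induction_on with
  | empty => simp
  | insert t S ht ih => rw [Finset.prod_insert ht, Finset.sum_insert ht, zpow_add₀ ha, ih]

private theorem TE_abs (y : ℝ) (t : ℤ) : |dl y t| = |y + t| := by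
  unfold dl
  rw [abs_mul, abs_zpow, abs_neg, abs_one, one_zpow, one_mul]

private theorem TE_inv {a b : ℝ} (ha : 0 < a) (hab : a ≤ b) {n : ℤ} (hn : n ≤ 0) :
    b ^ n ≤ a ^ n := by
  obtain ⟨m, rfl⟩ : ∃ m : ℤ, n = -m := ⟨-n, (neg_neg n).symm⟩
  rw [zpow_neg, zpow_neg]
  exact inv_anti₀ (zpow_pos ha _) (zpow_le_zpow_left₀ (by omega) ha.le hab)

private theorem TE_absprod (T : Finset ℤ) (ex : ℤ → ℤ) (y : ℝ) :
    |∏ t ∈ T, dl y t ^ ex t| = ∏ t ∈ T, |y + t| ^ ex t := by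
  rw [Finset.abs_prod]
  refine Finset.prod_congr rfl fun t _ => ?_
  rw [abs_zpow, TE_abs]

private theorem TE_far (T : Finset ℤ) (ex : ℤ → ℤ) (hle : ∀ t ∈ T, ex t ≤ 0) (κ : ℕ) (hκ : 2 ≤ κ)
    (hsum : ∑ t ∈ T, ex t = -(κ : ℤ)) (M : ℝ) (hM : ∀ t ∈ T, |(t : ℝ)| ≤ M) (x : ℝ) (k : ℤ)
    (hk : 2 * (|x| + M) ≤ |(k : ℝ)|) (hk2 : 2 ≤ |(k : ℝ)|) :
    |∏ t ∈ T, dl (x + k) t ^ ex t| ≤ 4 / (k : ℝ) ^ 2 := by
  rw [TE_absprod]
  have h0 : 0 < |(k : ℝ)| / 2 := by linarith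
  calc ∏ t ∈ T, |x + k + t| ^ ex t ≤ ∏ t ∈ T, (|(k : ℝ)| / 2) ^ ex t := by
        refine Finset.prod_le_prod (fun t _ => zpow_nonneg (abs_nonneg _) _) fun t ht => ?_
        refine TE_inv h0 ?_ (hle t ht)
        have h1 : |(k : ℝ)| ≤ |x + k + t| + |x| + |(t : ℝ)| := by
          calc |(k : ℝ)| = |(x + k + t) + (-x) + (-(t : ℝ))| := by congr 1; ring
            _ ≤ |(x + k + t) + (-x)| + |-(t : ℝ)| := abs_add_le _ _
            _ ≤ |x + k + t| + |-x| + |-(t : ℝ)| := by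
                have := abs_add_le (x + k + t) (-x)
                linarith
            _ = |x + k + t| + |x| + |(t : ℝ)| := by rw [abs_neg, abs_neg]
        have h2 := hM t ht
        linarith
    _ = (|(k : ℝ)| / 2) ^ (-(κ : ℤ)) := by rw [TE_prod T _ h0.ne', hsum]
    _ ≤ (|(k : ℝ)| / 2) ^ (-2 : ℤ) := zpow_le_zpow_right₀ (by linarith) (by omega)
    _ = 4 / (k : ℝ) ^ 2 := by
        have h3 : (|(k : ℝ)| / 2) ^ (-2 : ℤ) = ((|(k : ℝ)| / 2) ^ 2)⁻¹ := by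
          rw [zpow_neg]
          norm_cast
        rw [h3, div_pow, sq_abs, inv_div]
        norm_num

private theorem TE_M (T : Finset ℤ) : ∃ M : ℝ, 0 ≤ M ∧ ∀ t ∈ T, |(t : ℝ)| ≤ M := by
  refine ⟨∑ t ∈ T, |(t : ℝ)|, Finset.sum_nonneg fun t _ => abs_nonneg _, fun t ht => ?_⟩
  exact Finset.single_le_sum (f := fun t : ℤ => |(t : ℝ)|) (fun t _ => abs_nonneg _) ht

private theorem TE_sum4 : Summable fun k : ℤ => 4 / (k : ℝ) ^ 2 := by
  have h := (Real.summable_one_div_int_pow (p := 2)).2 (by norm_num)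
  have h2 := h.mul_left 4
  refine h2.congr fun k => ?_
  ring

theorem ter_summable (T : Finset ℤ) (ex : ℤ → ℤ) (hle : ∀ t ∈ T, ex t ≤ 0) (κ : ℕ) (hκ : 2 ≤ κ)
    (hsum : ∑ t ∈ T, ex t = -(κ : ℤ)) (x : ℝ) :
    Summable fun k : ℤ => ∏ t ∈ T, dl (x + k) t ^ ex t := by
  obtain ⟨M, hM0, hM⟩ := TE_M T
  refine Summable.of_norm_bounded_eventually TE_sum4 ?_
  have hfin : {k : ℤ | ¬ ‖∏ t ∈ T, dl (x + k) t ^ ex t‖ ≤ 4 / (k : ℝ) ^ 2}.Finite := by
    refine (Set.finite_Icc (-⌈2 * (|x| + M) + 2⌉) ⌈2 * (|x| + M) + 2⌉).subset fun k hk => ?_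
    by_contra hcon
    refine hk ?_
    rw [Real.norm_eq_abs]
    have h1 : 2 * (|x| + M) + 2 ≤ |(k : ℝ)| := by
      rw [Set.mem_Icc, not_and_or, not_le, not_le] at hcon
      have h2 : ⌈2 * (|x| + M) + 2⌉ < |k| := by
        rcases hcon with h | h
        · exact lt_of_lt_of_le (by omega) (neg_le_abs k)
        · exact h.trans_le (le_abs_self k)
      have h3 : 2 * (|x| + M) + 2 ≤ (⌈2 * (|x| + M) + 2⌉ : ℝ) := Int.le_ceil _
      have h4 : ((⌈2 * (|x| + M) + 2⌉ : ℤ) : ℝ) ≤ ((|k| : ℤ) : ℝ) := by exact_mod_cast h2.le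
      rw [Int.cast_abs] at h4
      linarith
    have h5 := abs_nonneg x
    exact TE_far T ex hle κ hκ hsum M hM x k (by linarith) (by linarith)
  exact hfin

private theorem TE_near (T : Finset ℤ) (ex : ℤ → ℤ) (hle : ∀ t ∈ T, ex t ≤ 0) (κ : ℕ)
    (hsum : ∑ t ∈ T, ex t = -(κ : ℤ)) (x : ℝ) (hx0 : x ≠ 0) (hx : |x| ≤ 1 / 2) (k : ℤ) :
    |x ^ κ * ∏ t ∈ T, dl (x + k) t ^ ex t| ≤ 2 ^ κ := by
  classical
  have hxp : 0 < |x| := abs_pos.2 hx0
  have hge : ∀ t : ℤ, t ≠ -k → (1 : ℝ) / 2 ≤ |x + k + t| := by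
    intro t ht
    have h1 : (1 : ℝ) ≤ |(k : ℝ) + t| := by
      have h2 : (1 : ℤ) ≤ |k + t| := Int.one_le_abs (by omega)
      have h3 : ((1 : ℤ) : ℝ) ≤ ((|k + t| : ℤ) : ℝ) := by exact_mod_cast h2
      rw [Int.cast_abs, Int.cast_add] at h3
      simpa using h3
    have h2 : |(k : ℝ) + t| ≤ |x + k + t| + |x| := by
      calc |(k : ℝ) + t| = |(x + k + t) + (-x)| := by congr 1; ring
        _ ≤ |x + k + t| + |-x| := abs_add_le _ _
        _ = _ := by rw [abs_neg]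
    linarith
  have hpart : ∀ S : Finset ℤ, S ⊆ T → (∀ t ∈ S, t ≠ -k) →
      ∏ t ∈ S, |x + k + t| ^ ex t ≤ 2 ^ κ := by
    intro S hS hSk
    have hsumS : -(κ : ℤ) ≤ ∑ t ∈ S, ex t := by
      rw [← hsum, ← Finset.sum_sdiff hS]
      have h1 : ∑ t ∈ T \ S, ex t ≤ 0 :=
        Finset.sum_nonpos fun t ht => hle t (Finset.sdiff_subset ht)
      linarith
    calc ∏ t ∈ S, |x + k + t| ^ ex t ≤ ∏ t ∈ S, (1 / 2 : ℝ) ^ ex t :=
          Finset.prod_le_prod (fun t _ => zpow_nonneg (abs_nonneg _) _) fun t ht =>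
            TE_inv (by norm_num) (hge t (hSk t ht)) (hle t (hS ht))
      _ = (1 / 2 : ℝ) ^ (∑ t ∈ S, ex t) := TE_prod S _ (by norm_num) _
      _ = (2 : ℝ) ^ (-∑ t ∈ S, ex t) := by rw [one_div, inv_zpow, zpow_neg]
      _ ≤ (2 : ℝ) ^ (κ : ℤ) := zpow_le_zpow_right₀ (by norm_num) (by linarith)
      _ = 2 ^ κ := zpow_natCast _ _
  rw [abs_mul, TE_absprod, abs_pow]
  by_cases hk : -k ∈ T
  · rw [← Finset.mul_prod_erase T _ hk, ← mul_assoc]
    have h1 : |x + (k : ℝ) + ((-k : ℤ) : ℝ)| = |x| := by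
      congr 1
      push_cast
      ring
    rw [h1]
    have h2 : |x| ^ κ * |x| ^ ex (-k) ≤ 1 := by
      rw [← zpow_natCast, ← zpow_add₀ hxp.ne']
      have h3 : -(κ : ℤ) ≤ ex (-k) := by
        rw [← hsum, ← Finset.add_sum_erase T _ hk]
        have h4 : ∑ t ∈ T.erase (-k), ex t ≤ 0 :=
          Finset.sum_nonpos fun t ht => hle t (Finset.erase_subset _ _ ht)
        linarith
      obtain ⟨n, hn⟩ : ∃ n : ℕ, (κ : ℤ) + ex (-k) = n := ⟨((κ : ℤ) + ex (-k)).toNat, by omega⟩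
      rw [hn, zpow_natCast]
      exact pow_le_one₀ hxp.le (by linarith)
    have h3 := hpart (T.erase (-k)) (Finset.erase_subset _ _) (fun t ht => Finset.ne_of_mem_erase ht)
    have h4 : 0 ≤ ∏ t ∈ T.erase (-k), |x + k + t| ^ ex t :=
      Finset.prod_nonneg fun t _ => zpow_nonneg (abs_nonneg _) _
    calc |x| ^ κ * |x| ^ ex (-k) * ∏ t ∈ T.erase (-k), |x + k + t| ^ ex t
        ≤ 1 * ∏ t ∈ T.erase (-k), |x + k + t| ^ ex t := mul_le_mul_of_nonneg_right h2 h4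
      _ ≤ 2 ^ κ := by rw [one_mul]; exact h3
  · have h3 := hpart T subset_rfl (fun t ht h => hk (h ▸ ht))
    have h4 : 0 ≤ ∏ t ∈ T, |x + k + t| ^ ex t :=
      Finset.prod_nonneg fun t _ => zpow_nonneg (abs_nonneg _) _
    have h5 : |x| ^ κ ≤ 1 := pow_le_one₀ hxp.le (by linarith)
    calc |x| ^ κ * ∏ t ∈ T, |x + k + t| ^ ex t
        ≤ 1 * ∏ t ∈ T, |x + k + t| ^ ex t := mul_le_mul_of_nonneg_right h5 h4
      _ ≤ 2 ^ κ := by rw [one_mul]; exact h3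

/-- continuity of the factors without a pole -/
private theorem TE_cont (S : Finset ℤ) (ex : ℤ → ℤ) (k : ℤ) (hS : ∀ t ∈ S, t ≠ -k) :
    Tendsto (fun x : ℝ => ∏ t ∈ S, dl (x + k) t ^ ex t) (𝓝[≠] 0)
      (𝓝 (∏ t ∈ S, dl (0 + k) t ^ ex t)) := by
  refine tendsto_finsetProd S fun t ht => ?_
  have h0 : dl (0 + k) t ≠ 0 := by
    unfold dl
    refine mul_ne_zero (zpow_ne_zero _ (by norm_num)) ?_
    intro h
    apply hS t ht
    have h1 : ((k + t : ℤ) : ℝ) = 0 := by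
      push_cast
      linarith
    have h2 : k + t = 0 := by exact_mod_cast h1
    omega
  have h1 : Tendsto (fun x : ℝ => dl (x + k) t) (𝓝[≠] 0) (𝓝 (dl (0 + k) t)) := by
    have h2 : Continuous fun x : ℝ => dl (x + k) t := by
      unfold dl
      fun_prop
    exact (h2.tendsto 0).mono_left nhdsWithin_le_nhds
  exact h1.zpow₀ _ (Or.inl h0)

private theorem TE_point (T : Finset ℤ) (ex : ℤ → ℤ) (hle : ∀ t ∈ T, ex t ≤ 0) (κ : ℕ)
    (hκ : 2 ≤ κ) (hev : Even κ) (hsum : ∑ t ∈ T, ex t = -(κ : ℤ)) (k : ℤ)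
    [Decidable (-k ∈ T ∧ ex (-k) = -(κ : ℤ))] :
    Tendsto (fun x : ℝ => x ^ κ * ∏ t ∈ T, dl (x + k) t ^ ex t) (𝓝[≠] 0)
      (𝓝 (if -k ∈ T ∧ ex (-k) = -(κ : ℤ) then 1 else 0)) := by
  classical
  by_cases hk : -k ∈ T
  · have hge : -(κ : ℤ) ≤ ex (-k) := by
      rw [← hsum, ← Finset.add_sum_erase T _ hk]
      have h4 : ∑ t ∈ T.erase (-k), ex t ≤ 0 :=
        Finset.sum_nonpos fun t ht => hle t (Finset.erase_subset _ _ ht)
      linarith
    obtain ⟨n, hn⟩ : ∃ n : ℕ, (κ : ℤ) + ex (-k) = n := ⟨((κ : ℤ) + ex (-k)).toNat, by omega⟩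
    have hform : ∀ x : ℝ, x ≠ 0 → x ^ κ * ∏ t ∈ T, dl (x + k) t ^ ex t =
        (((-1 : ℝ) ^ (-k)) ^ ex (-k) * x ^ n) * ∏ t ∈ T.erase (-k), dl (x + k) t ^ ex t := by
      intro x hx
      rw [← Finset.mul_prod_erase T _ hk, ← mul_assoc]
      congr 1
      have h1 : dl (x + k) (-k) = (-1) ^ (-k) * x := by
        unfold dl
        push_cast
        ring
      rw [h1, mul_zpow, ← zpow_natCast x n, ← hn, zpow_add₀ hx, zpow_natCast]
      ring
    have hev2 : (fun x : ℝ => (((-1 : ℝ) ^ (-k)) ^ ex (-k) * x ^ n) *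
        ∏ t ∈ T.erase (-k), dl (x + k) t ^ ex t) =ᶠ[𝓝[≠] 0]
        fun x : ℝ => x ^ κ * ∏ t ∈ T, dl (x + k) t ^ ex t := by
      filter_upwards [self_mem_nhdsWithin] with x hx
      exact (hform x hx).symm
    refine Tendsto.congr' hev2 ?_
    have hc := TE_cont (T.erase (-k)) ex k (fun t ht => Finset.ne_of_mem_erase ht)
    by_cases he : ex (-k) = -(κ : ℤ)
    · rw [if_pos ⟨hk, he⟩]
      have hn0 : n = 0 := by omega
      subst hn0
      have hz : ∀ t ∈ T.erase (-k), ex t = 0 := by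
        have h1 : ∑ t ∈ T.erase (-k), ex t = 0 := by
          have h2 := Finset.add_sum_erase T ex hk
          rw [hsum, he] at h2
          linarith
        exact (Finset.sum_eq_zero_iff_of_nonpos fun t ht =>
          hle t (Finset.erase_subset _ _ ht)).1 h1
      have h2 : ∀ x : ℝ, (((-1 : ℝ) ^ (-k)) ^ ex (-k) * x ^ 0) *
          ∏ t ∈ T.erase (-k), dl (x + k) t ^ ex t = 1 := by
        intro x
        rw [Finset.prod_congr rfl fun t ht => by rw [hz t ht, zpow_zero], Finset.prod_const_one,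
          pow_zero, mul_one, mul_one, he, ← zpow_mul]
        have h3 : Even (-k * -(κ : ℤ)) := by
          obtain ⟨m, hm⟩ := hev
          exact ⟨k * m, by rw [hm]; push_cast; ring⟩
        exact h3.neg_one_zpow
      simp only [h2]
      exact tendsto_const_nhds
    · rw [if_neg (fun h => he h.2)]
      have hn0 : n ≠ 0 := by omega
      have h1 : Tendsto (fun x : ℝ => ((-1 : ℝ) ^ (-k)) ^ ex (-k) * x ^ n) (𝓝[≠] 0) (𝓝 0) := by
        have h2 : Tendsto (fun x : ℝ => ((-1 : ℝ) ^ (-k)) ^ ex (-k) * x ^ n) (𝓝 0)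
            (𝓝 (((-1 : ℝ) ^ (-k)) ^ ex (-k) * 0 ^ n)) :=
          ((continuous_const.mul (continuous_pow n)).tendsto 0)
        rw [zero_pow hn0, mul_zero] at h2
        exact h2.mono_left nhdsWithin_le_nhds
      have h3 := h1.mul hc
      rwa [zero_mul] at h3
  · rw [if_neg (fun h => hk h.1)]
    have hc := TE_cont T ex k (fun t ht h => hk (h ▸ ht))
    have h1 : Tendsto (fun x : ℝ => x ^ κ) (𝓝[≠] 0) (𝓝 0) := by
      have h2 : Tendsto (fun x : ℝ => x ^ κ) (𝓝 0) (𝓝 (0 ^ κ)) := (continuous_pow κ).tendsto 0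
      rw [zero_pow (by omega)] at h2
      exact h2.mono_left nhdsWithin_le_nhds
    have h3 := h1.mul hc
    rwa [zero_mul] at h3

theorem ter_lim (T : Finset ℤ) (ex : ℤ → ℤ) (hle : ∀ t ∈ T, ex t ≤ 0) (κ : ℕ) (hκ : 2 ≤ κ)
    (hev : Even κ) (hsum : ∑ t ∈ T, ex t = -(κ : ℤ)) :
    Tendsto (fun x : ℝ => x ^ κ * ∑' k : ℤ, ∏ t ∈ T, dl (x + k) t ^ ex t) (𝓝[≠] 0)
      (𝓝 (if ∃ t ∈ T, ex t = -(κ : ℤ) then 1 else 0)) := by
  classical
  obtain ⟨M, hM0, hM⟩ := TE_M T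
  have hlim : (∑' k : ℤ, if -k ∈ T ∧ ex (-k) = -(κ : ℤ) then (1 : ℝ) else 0) =
      if ∃ t ∈ T, ex t = -(κ : ℤ) then 1 else 0 := by
    by_cases h : ∃ t ∈ T, ex t = -(κ : ℤ)
    · rw [if_pos h]
      obtain ⟨t₀, ht₀, he₀⟩ := h
      rw [tsum_eq_single (-t₀)]
      · rw [neg_neg, if_pos ⟨ht₀, he₀⟩]
      · intro k hk
        refine if_neg ?_
        rintro ⟨h1, h2⟩
        have hne : -k ≠ t₀ := fun h => hk (by omega)
        have h3 : ∑ t ∈ ({-k, t₀} : Finset ℤ), ex t = -(κ : ℤ) + -(κ : ℤ) := by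
          rw [Finset.sum_pair hne, h2, he₀]
        have h4 : ({-k, t₀} : Finset ℤ) ⊆ T := by
          intro t ht
          rw [Finset.mem_insert, Finset.mem_singleton] at ht
          rcases ht with rfl | rfl
          · exact h1
          · exact ht₀
        have h5 := Finset.sum_sdiff (f := ex) h4
        have h6 : ∑ t ∈ T \ {-k, t₀}, ex t ≤ 0 :=
          Finset.sum_nonpos fun t ht => hle t (Finset.sdiff_subset ht)
        rw [h3, hsum] at h5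
        omega
    · rw [if_neg h]
      push Not at h
      rw [show (fun k : ℤ => if -k ∈ T ∧ ex (-k) = -(κ : ℤ) then (1 : ℝ) else 0) = fun _ => 0 from
        funext fun k => if_neg fun h' => h _ h'.1 h'.2, tsum_zero]
  rw [← hlim]
  simp only [← tsum_mul_left]
  have hK : ∃ K : ℤ, ∀ k : ℤ, k ∉ Finset.Icc (-K) K → 2 * (1 / 2 + M) ≤ |(k : ℝ)| ∧
      2 ≤ |(k : ℝ)| := by
    refine ⟨⌈2 * (1 / 2 + M) + 2⌉, fun k hk => ?_⟩
    rw [Finset.mem_Icc, not_and_or, not_le, not_le] at hk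
    have h2 : ⌈2 * (1 / 2 + M) + 2⌉ < |k| := by
      rcases hk with h | h
      · exact lt_of_lt_of_le (by omega) (neg_le_abs k)
      · exact h.trans_le (le_abs_self k)
    have h3 : 2 * (1 / 2 + M) + 2 ≤ (⌈2 * (1 / 2 + M) + 2⌉ : ℝ) := Int.le_ceil _
    have h4 : ((⌈2 * (1 / 2 + M) + 2⌉ : ℤ) : ℝ) ≤ ((|k| : ℤ) : ℝ) := by exact_mod_cast h2.le
    rw [Int.cast_abs] at h4
    exact ⟨by linarith, by linarith⟩
  obtain ⟨K, hK⟩ := hK
  refine tendsto_tsum_of_dominated_convergence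
    (bound := fun k : ℤ => (if k ∈ Finset.Icc (-K) K then (2 : ℝ) ^ κ else 0) + 4 / (k : ℝ) ^ 2)
    ?_ (fun k => TE_point T ex hle κ hκ hev hsum k) ?_
  · refine Summable.add ?_ TE_sum4
    exact summable_of_ne_finset_zero (s := Finset.Icc (-K) K) fun k hk => if_neg hk
  · have h1 : ∀ᶠ x : ℝ in 𝓝[≠] 0, |x| ≤ 1 / 2 := by
      have h2 : Tendsto (fun x : ℝ => |x|) (𝓝 0) (𝓝 |(0 : ℝ)|) := (continuous_abs.tendsto 0)
      rw [abs_zero] at h2
      exact (h2.mono_left nhdsWithin_le_nhds).eventually (Iic_mem_nhds (by norm_num))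
    filter_upwards [h1, self_mem_nhdsWithin] with x hx hx0 k
    rw [Real.norm_eq_abs]
    by_cases hk : k ∈ Finset.Icc (-K) K
    · rw [if_pos hk]
      have h2 := TE_near T ex hle κ hsum x hx0 hx k
      have h3 : 0 ≤ 4 / (k : ℝ) ^ 2 := by positivity
      linarith
    · rw [if_neg hk, zero_add, abs_mul, abs_pow]
      obtain ⟨h2, h3⟩ := hK k hk
      have h4 := TE_far T ex hle κ hκ hsum M hM x k (by linarith) h3
      have h5 : |x| ^ κ ≤ 1 := pow_le_one₀ (abs_nonneg _) (by linarith)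
      calc |x| ^ κ * |∏ t ∈ T, dl (x + k) t ^ ex t|
          ≤ 1 * |∏ t ∈ T, dl (x + k) t ^ ex t| := mul_le_mul_of_nonneg_right h5 (abs_nonneg _)
        _ ≤ 4 / (k : ℝ) ^ 2 := by rw [one_mul]; exact h4

end Pool.Agent.AMU.Ter
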