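import Pool.Agent.Lib.AMU.TerA

/-!
# Row TG: the points of a diagram: keys, mates, noncrossing

`reduced` of `GoodWords` says `side (nxt i, false) ≠ side (i, true)`. `inj`: the positions of different letters
are different. `noncross_mate`: compare the keys (side, ± pos) of the corresponding points of `MPt r`
(`mKey`): if the three inequalities are strict for `mKey`, apply `noncross`; if two of the keys coincide, the
points belong to the same cable (or the chord joins a cable with itself, impossible), and the order of the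
parallel strands is reversed at the other end.
-/

set_option autoImplicit false

namespace Pool.Agent.AMU.Ter

variable {N r : ℕ} {opp : ZMod N → ZMod N} {w : Fin r → List (ZMod N)} {pos : Fin r → ℕ → ℤ}
  {m : Fin r → ℕ} {closed : Prop}

private theorem TG_mod1 {k l : ℕ} (hk : k < l) : ((k + (l - 1)) % l + 1) % l = k := by
  rw [Nat.mod_add_mod, show k + (l - 1) + 1 = k + l by omega, Nat.add_mod_right,
    Nat.mod_eq_of_lt hk]

private theorem TG_mod2 {k l : ℕ} (hk : k < l) : ((k + 1) % l + (l - 1)) % l = k := by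
  rw [Nat.mod_add_mod, show k + 1 + (l - 1) = k + l by omega, Nat.add_mod_right,
    Nat.mod_eq_of_lt hk]

theorem nxt_prv (i : ST w m) : nxt (prv i) = i := by
  obtain ⟨j, ⟨k, hk⟩, u⟩ := i
  simp only [nxt, prv, TG_mod1 hk]

theorem prv_nxt (i : ST w m) : prv (nxt i) = i := by
  obtain ⟨j, ⟨k, hk⟩, u⟩ := i
  simp only [nxt, prv, TG_mod2 hk]

theorem mate_mate (x : PT w m) : mate (mate x) = x := by
  obtain ⟨i, b⟩ := x
  cases b
  · simp [mate, nxt_prv]
  · simp [mate, prv_nxt]

theorem flp_flp (x : PT w m) : flp (flp x) = x := by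
  obtain ⟨i, b⟩ := x
  simp [flp]

theorem pside_flp (hinv : ∀ i, opp (opp i) = i) (x : PT w m) :
    pside opp (flp x) = opp (pside opp x) := by
  obtain ⟨i, b⟩ := x
  cases b
  · simp [flp, pside]
  · simp [flp, pside, hinv]

/-- the corresponding point of `MPt r` -/
private def TG_mp (x : PT w m) : MPt r := (x.1.1, x.1.2.1.val, x.2)

/-- the last component of the key -/
private def TG_th (x : PT w m) : ℤ := if x.2 then (x.1.2.2.val : ℤ) else -(x.1.2.2.val : ℤ)

private theorem TG_lt (x z : PT w m) : pkey opp pos x < pkey opp pos z ↔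
    mKey opp w pos (TG_mp x) < mKey opp w pos (TG_mp z) ∨
      (mKey opp w pos (TG_mp x) = mKey opp w pos (TG_mp z) ∧ TG_th x < TG_th z) := by
  have h1 : mSide opp w (TG_mp x) = pside opp x := rfl
  have h2 : mSide opp w (TG_mp z) = pside opp z := rfl
  unfold pkey mKey
  rw [h1, h2]
  simp only [Prod.Lex.lt_iff, ofLex_toLex, TG_th, TG_mp, EmbeddingLike.apply_eq_iff_eq,
    Prod.mk.injEq]
  constructor
  · rintro (h | ⟨h, h' | ⟨h', h''⟩⟩)
    · exact Or.inl (Or.inl (by exact_mod_cast h))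
    · exact Or.inl (Or.inr ⟨by exact_mod_cast h, h'⟩)
    · exact Or.inr ⟨⟨by exact_mod_cast h, h'⟩, h''⟩
  · rintro ((h | ⟨h, h'⟩) | ⟨⟨h, h'⟩, h''⟩)
    · exact Or.inl (by exact_mod_cast h)
    · exact Or.inr ⟨by exact_mod_cast h, Or.inl h'⟩
    · exact Or.inr ⟨by exact_mod_cast h, Or.inr ⟨h', h''⟩⟩

private theorem TG_th_mate (x : PT w m) : TG_th (mate x) = -TG_th x := by
  obtain ⟨i, b⟩ := x
  cases b
  · simp [TG_th, mate, prv]
  · simp [TG_th, mate, nxt]

private theorem TG_mp_mate {x z : PT w m} (h : TG_mp x = TG_mp z) :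
    TG_mp (mate x) = TG_mp (mate z) := by
  obtain ⟨⟨j, ⟨k, hk⟩, u⟩, b⟩ := x
  obtain ⟨⟨j', ⟨k', hk'⟩, u'⟩, b'⟩ := z
  simp only [TG_mp, Prod.mk.injEq] at h
  obtain ⟨rfl, rfl, rfl⟩ := h
  cases b
  · rfl
  · rfl

private theorem TG_chord (x : PT w m) : ∃ (j : Fin r) (k : ℕ), k < (w j).length ∧
    ((TG_mp x = chS j k ∧ TG_mp (mate x) = chE w j k) ∨
      (TG_mp x = chE w j k ∧ TG_mp (mate x) = chS j k)) := by
  obtain ⟨⟨j, ⟨k, hk⟩, u⟩, b⟩ := x
  cases b
  · refine ⟨j, (k + ((w j).length - 1)) % (w j).length, Nat.mod_lt _ (by omega), Or.inr ⟨?_, rfl⟩⟩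
    simp only [TG_mp, chE, TG_mod1 hk]
  · exact ⟨j, k, hk, Or.inl ⟨rfl, rfl⟩⟩

private theorem TG_side_mate (hG : GoodWords opp w pos closed)
    (x : PT w m) : pside opp (mate x) ≠ pside opp x := by
  obtain ⟨⟨j, ⟨k, hk⟩, u⟩, b⟩ := x
  cases b
  · have h1 := hG.reduced j ((k + ((w j).length - 1)) % (w j).length) (Nat.mod_lt _ (by omega))
    rw [TG_mod1 hk] at h1
    exact h1.symm
  · exact hG.reduced j k hk

variable [NeZero N]

private theorem TG_side_of_key {a b : MPt r} (h : mKey opp w pos a = mKey opp w pos b) :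
    mSide opp w a = mSide opp w b := by
  unfold mKey at h
  have h1 := congrArg (fun t => (ofLex t).1) h
  simp only [ofLex_toLex] at h1
  exact ZMod.val_injective N (by exact_mod_cast h1)

private theorem TG_mp_of_key (hne : ∀ i, opp i ≠ i)
    (hG : GoodWords opp w pos closed) {x z : PT w m}
    (h : mKey opp w pos (TG_mp x) = mKey opp w pos (TG_mp z)) : TG_mp x = TG_mp z := by
  have hs := TG_side_of_key h
  have hp : pos x.1.1 x.1.2.1.val = pos z.1.1 z.1.2.1.val := by
    unfold mKey at h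
    rw [hs] at h
    have h1 := congrArg (fun t => (ofLex t).2) h
    simp only [ofLex_toLex] at h1
    by_cases hc : (mSide opp w (TG_mp z)).val < (opp (mSide opp w (TG_mp z))).val
    · rw [if_pos hc, if_pos hc] at h1
      exact h1
    · rw [if_neg hc, if_neg hc] at h1
      exact neg_injective h1
  obtain ⟨⟨j, ⟨k, hk⟩, u⟩, b⟩ := x
  obtain ⟨⟨j', ⟨k', hk'⟩, u'⟩, b'⟩ := z
  obtain ⟨rfl, rfl⟩ := hG.inj _ _ _ _ hk hk' hp
  have hb : b = b' := by
    cases b <;> cases b'
    · rfl
    · exact absurd hs.symm (hne _)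
    · exact absurd hs (hne _)
    · rfl
  subst hb
  rfl

theorem pkey_inj (hinv : ∀ i, opp (opp i) = i) (hne : ∀ i, opp i ≠ i)
    (hG : GoodWords opp w pos closed) :
    Function.Injective (pkey opp pos : PT w m → ℕ ×ₗ ℤ ×ₗ ℤ) := by
  intro x z h
  have hmk : mKey opp w pos (TG_mp x) = mKey opp w pos (TG_mp z) := by
    have h1 : ¬ pkey opp pos x < pkey opp pos z := by rw [h]; exact lt_irrefl _
    have h2 : ¬ pkey opp pos z < pkey opp pos x := by rw [h]; exact lt_irrefl _
    rw [TG_lt, not_or] at h1 h2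
    exact le_antisymm (not_lt.1 h2.1) (not_lt.1 h1.1)
  have hmp := TG_mp_of_key hne hG hmk
  have hth : TG_th x = TG_th z := by
    have h1 : ¬ pkey opp pos x < pkey opp pos z := by rw [h]; exact lt_irrefl _
    have h2 : ¬ pkey opp pos z < pkey opp pos x := by rw [h]; exact lt_irrefl _
    rw [TG_lt, not_or, not_and] at h1 h2
    exact le_antisymm (not_lt.1 (h2.2 hmk.symm)) (not_lt.1 (h1.2 hmk))
  obtain ⟨⟨j, ⟨k, hk⟩, u⟩, b⟩ := x
  obtain ⟨⟨j', ⟨k', hk'⟩, u'⟩, b'⟩ := z
  simp only [TG_mp, Prod.mk.injEq] at hmp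
  obtain ⟨rfl, rfl, rfl⟩ := hmp
  have hu : u = u' := by
    simp only [TG_th] at hth
    apply Fin.ext
    cases b
    · simpa using hth
    · simpa using hth
  subst hu
  rfl

theorem pside_mate_ne (hinv : ∀ i, opp (opp i) = i) (hG : GoodWords opp w pos closed)
    (x : PT w m) : pside opp (mate x) ≠ pside opp x := TG_side_mate hG x

theorem pkey_flp_lt (hinv : ∀ i, opp (opp i) = i) (hne : ∀ i, opp i ≠ i)
    (hG : GoodWords opp w pos closed) (x z : PT w m) (h : pside opp x = pside opp z) :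
    pkey opp pos (flp x) < pkey opp pos (flp z) ↔ pkey opp pos z < pkey opp pos x := by
  have h1 : pside opp (flp x) = opp (pside opp z) := by rw [pside_flp hinv, h]
  have h2 : pside opp (flp z) = opp (pside opp z) := pside_flp hinv z
  have hcan : can opp (opp (pside opp z)) ↔ ¬ can opp (pside opp z) := by
    have h3 : (opp (pside opp z)).val ≠ (pside opp z).val := fun h' =>
      hne _ (ZMod.val_injective N h')
    simp only [can, hinv]
    omega
  have h3 : ∀ y : PT w m, (if (flp y).2 = true then ((flp y).1.2.2.val : ℤ)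
      else -((flp y).1.2.2.val : ℤ)) = -(if y.2 = true then (y.1.2.2.val : ℤ)
      else -(y.1.2.2.val : ℤ)) := by
    intro y
    obtain ⟨i, b⟩ := y
    cases b <;> simp [flp]
  have h4 : ∀ y : PT w m, (flp y).1 = y.1 := fun y => rfl
  unfold pkey
  rw [h1, h2, h, h3 x, h3 z, h4 x, h4 z]
  simp only [hcan, Prod.Lex.lt_iff, ofLex_toLex, lt_self_iff_false, true_and, false_or]
  by_cases hc : can opp (pside opp z)
  · rw [if_neg (not_not.2 hc), if_neg (not_not.2 hc), if_pos hc, if_pos hc]
    constructor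
    · rintro (h5 | ⟨h5, h6⟩)
      · exact Or.inl (by linarith)
      · exact Or.inr ⟨by linarith, by linarith⟩
    · rintro (h5 | ⟨h5, h6⟩)
      · exact Or.inl (by linarith)
      · exact Or.inr ⟨by linarith, by linarith⟩
  · rw [if_pos hc, if_pos hc, if_neg hc, if_neg hc]
    constructor
    · rintro (h5 | ⟨h5, h6⟩)
      · exact Or.inl (by linarith)
      · exact Or.inr ⟨by linarith, by linarith⟩
    · rintro (h5 | ⟨h5, h6⟩)
      · exact Or.inl (by linarith)
      · exact Or.inr ⟨by linarith, by linarith⟩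

theorem noncross_mate (hinv : ∀ i, opp (opp i) = i) (hne : ∀ i, opp i ≠ i)
    (hG : GoodWords opp w pos closed) (x z : PT w m) :
    ¬ (pkey opp pos x < pkey opp pos z ∧ pkey opp pos z < pkey opp pos (mate x) ∧
      pkey opp pos (mate x) < pkey opp pos (mate z)) := by
  rintro ⟨h1, h2, h3⟩
  have hX : mKey opp w pos (TG_mp x) ≠ mKey opp w pos (TG_mp (mate x)) := fun h =>
    TG_side_mate hG x (TG_side_of_key h).symm
  have hsame : TG_mp x ≠ TG_mp z := by
    intro h
    have h4 := TG_mp_mate h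
    rw [TG_lt, h] at h1
    rw [TG_lt, h4] at h3
    rcases h1 with h1 | ⟨-, h1⟩
    · exact lt_irrefl _ h1
    rcases h3 with h3 | ⟨-, h3⟩
    · exact lt_irrefl _ h3
    rw [TG_th_mate, TG_th_mate] at h3
    linarith
  have hsame2 : TG_mp (mate x) ≠ TG_mp (mate z) := by
    intro h
    have h4 := TG_mp_mate h
    rw [mate_mate, mate_mate] at h4
    exact hsame h4
  have g1 : mKey opp w pos (TG_mp x) < mKey opp w pos (TG_mp z) := by
    rcases (TG_lt x z).1 h1 with h | ⟨h, -⟩
    · exact h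
    · exact absurd (TG_mp_of_key hne hG h) hsame
  have g3 : mKey opp w pos (TG_mp (mate x)) < mKey opp w pos (TG_mp (mate z)) := by
    rcases (TG_lt _ _).1 h3 with h | ⟨h, -⟩
    · exact h
    · exact absurd (TG_mp_of_key hne hG h) hsame2
  have g2 : mKey opp w pos (TG_mp z) < mKey opp w pos (TG_mp (mate x)) := by
    rcases (TG_lt _ _).1 h2 with h | ⟨h, -⟩
    · exact h
    · have h4 := TG_mp_mate (TG_mp_of_key hne hG h)
      rw [mate_mate] at h4
      rw [h4] at g3
      rw [h] at g1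
      exact absurd (g3.trans g1) (lt_irrefl _)
  obtain ⟨j, k, hk, hc⟩ := TG_chord x
  obtain ⟨j', k', hk', hc'⟩ := TG_chord z
  refine hG.noncross j k j' k' hk hk' ?_
  have e1 : min (mKey opp w pos (chS j k)) (mKey opp w pos (chE w j k)) =
      mKey opp w pos (TG_mp x) := by
    rcases hc with ⟨ha, hb⟩ | ⟨ha, hb⟩
    · rw [← ha, ← hb]
      exact min_eq_left (g1.trans g2).le
    · rw [← ha, ← hb]
      exact min_eq_right (g1.trans g2).le
  have e2 : max (mKey opp w pos (chS j k)) (mKey opp w pos (chE w j k)) =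
      mKey opp w pos (TG_mp (mate x)) := by
    rcases hc with ⟨ha, hb⟩ | ⟨ha, hb⟩
    · rw [← ha, ← hb]
      exact max_eq_right (g1.trans g2).le
    · rw [← ha, ← hb]
      exact max_eq_left (g1.trans g2).le
  have e3 : min (mKey opp w pos (chS j' k')) (mKey opp w pos (chE w j' k')) =
      mKey opp w pos (TG_mp z) := by
    rcases hc' with ⟨ha, hb⟩ | ⟨ha, hb⟩
    · rw [← ha, ← hb]
      exact min_eq_left (g2.trans g3).le
    · rw [← ha, ← hb]
      exact min_eq_right (g2.trans g3).le
  have e4 : max (mKey opp w pos (chS j' k')) (mKey opp w pos (chE w j' k')) =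
      mKey opp w pos (TG_mp (mate z)) := by
    rcases hc' with ⟨ha, hb⟩ | ⟨ha, hb⟩
    · rw [← ha, ← hb]
      exact max_eq_right (g2.trans g3).le
    · rw [← ha, ← hb]
      exact max_eq_left (g2.trans g3).le
  rw [e1, e2, e3, e4]
  exact ⟨g1, g2, g3⟩

end Pool.Agent.AMU.Ter
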