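import Pool.Agent.Lib.AMU.TerG
import Pool.Agent.Lib.AMU.TerD

/-!
# Row TG2: the sorted lists of points

`sideL`: insertion sort of a duplicate free list, `pkey_inj` gives strictness. `sideL_opp`: both sides are
strictly sorted and have the same elements (`List.Perm.eq_of_pairwise` or similar). `strandL`: every strand
has exactly one end on a canonical side.
-/

set_option autoImplicit false

namespace Pool.Agent.AMU.Ter

variable {N r : ℕ} [NeZero N] {opp : ZMod N → ZMod N} {w : Fin r → List (ZMod N)}
  {pos : Fin r → ℕ → ℤ} {m : Fin r → ℕ} {closed : Prop}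

theorem mem_sideL {i : ZMod N} {x : PT w m} : x ∈ sideL opp pos i ↔ pside opp x = i := by
  unfold sideL
  rw [List.mem_insertionSort, Finset.mem_toList, Finset.mem_filter]
  simp

private theorem TG2_key_lt {x y : PT w m} (h : (pside opp x).val < (pside opp y).val) :
    pkey opp pos x < pkey opp pos y := by
  rw [Prod.Lex.lt_iff]
  exact Or.inl h

private theorem TG2_nodup (i : ZMod N) : (sideL opp pos i : List (PT w m)).Nodup := by
  unfold sideL
  exact (List.perm_insertionSort _ _).nodup_iff.2 (Finset.nodup_toList _)

theorem sideL_sorted (hinv : ∀ i, opp (opp i) = i) (hne : ∀ i, opp i ≠ i)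
    (hG : GoodWords opp w pos closed) (i : ZMod N) :
    (sideL opp pos i : List (PT w m)).Pairwise fun a b => pkey opp pos a < pkey opp pos b := by
  haveI h1 : Std.Total (fun a b : PT w m => pkey opp pos a ≤ pkey opp pos b) :=
    ⟨fun a b => le_total _ _⟩
  haveI h2 : IsTrans (PT w m) (fun a b : PT w m => pkey opp pos a ≤ pkey opp pos b) :=
    ⟨fun a b c => le_trans⟩
  have h3 : (sideL opp pos i : List (PT w m)).Pairwise
      fun a b => pkey opp pos a ≤ pkey opp pos b := by
    unfold sideL
    exact List.pairwise_insertionSort _ _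
  have h4 : (sideL opp pos i : List (PT w m)).Pairwise fun a b => a ≠ b := TG2_nodup i
  refine (h3.and h4).imp ?_
  rintro a b ⟨hab, hab'⟩
  exact lt_of_le_of_ne hab fun e => hab' (pkey_inj hinv hne hG e)

theorem sideL_opp (hinv : ∀ i, opp (opp i) = i) (hne : ∀ i, opp i ≠ i)
    (hG : GoodWords opp w pos closed) (i : ZMod N) :
    (sideL opp pos (opp i) : List (PT w m)) = ((sideL opp pos i).map flp).reverse := by
  haveI h1 : Std.Irrefl (fun a b : PT w m => pkey opp pos a < pkey opp pos b) :=
    ⟨fun a => lt_irrefl _⟩
  haveI h2 : Std.Antisymm (fun a b : PT w m => pkey opp pos a < pkey opp pos b) :=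
    ⟨fun a b hab hba => absurd (lt_trans hab hba) (lt_irrefl _)⟩
  refine List.Pairwise.eq_of_mem_iff (sideL_sorted hinv hne hG (opp i)) ?_ ?_
  · rw [List.pairwise_reverse, List.pairwise_map]
    refine (sideL_sorted hinv hne hG i).imp_of_mem ?_
    intro a b ha hb hab
    rw [mem_sideL] at ha hb
    exact (pkey_flp_lt hinv hne hG b a (hb.trans ha.symm)).2 hab
  · intro a
    rw [mem_sideL, List.mem_reverse, List.mem_map]
    constructor
    · intro h
      refine ⟨flp a, ?_, flp_flp a⟩
      rw [mem_sideL, pside_flp hinv, h, hinv]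
    · rintro ⟨b, hb, rfl⟩
      rw [mem_sideL] at hb
      rw [pside_flp hinv, hb]

theorem ptL_sorted (hinv : ∀ i, opp (opp i) = i) (hne : ∀ i, opp i ≠ i)
    (hG : GoodWords opp w pos closed) :
    (ptL opp pos : List (PT w m)).Pairwise fun a b => pkey opp pos a < pkey opp pos b := by
  unfold ptL
  rw [List.pairwise_flatMap]
  refine ⟨fun a _ => sideL_sorted hinv hne hG _, ?_⟩
  refine (List.pairwise_lt_range (n := N)).imp_of_mem ?_
  intro j k hj hk hjk x hx y hy
  rw [mem_sideL] at hx hy
  rw [List.mem_range] at hj hk
  apply TG2_key_lt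
  rw [hx, hy, ZMod.val_natCast_of_lt hj, ZMod.val_natCast_of_lt hk]
  exact hjk

theorem mem_ptL (x : PT w m) : x ∈ (ptL opp pos : List (PT w m)) := by
  unfold ptL
  rw [List.mem_flatMap]
  refine ⟨(pside opp x).val, List.mem_range.2 (ZMod.val_lt _), ?_⟩
  rw [mem_sideL, ZMod.natCast_zmod_val]

private theorem TG2_pts_map {C P : Type} (L : List P) :
    pts (L.map (Sum.inr : P → C ⊕ P)) = L := by
  induction L with
  | nil => rfl
  | cons a L ih => simp only [List.map_cons, pts, ih]

theorem pts_objL : pts (objL opp pos : List (ZMod N ⊕ PT w m)) = ptL opp pos := by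
  unfold objL ptL
  induction List.range N with
  | nil => rfl
  | cons a L ih =>
    simp only [List.flatMap_cons, pts_append, pts, TG2_pts_map, ih]

private theorem TG2_same (hinv : ∀ i, opp (opp i) = i) {x z : PT w m} (hx : can opp (pside opp x))
    (hz : can opp (pside opp z)) (h : x.1 = z.1) : x = z := by
  by_cases h2 : x.2 = z.2
  · exact Prod.ext h h2
  · exfalso
    have h3 : z = flp x := by
      refine Prod.ext h.symm ?_
      show z.2 = !x.2
      cases hx2 : x.2 <;> cases hz2 : z.2 <;> simp_all
    rw [h3] at hz
    unfold can at hx hz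
    rw [pside_flp hinv, hinv] at hz
    exact lt_asymm hx hz

theorem strandL_nodup (hinv : ∀ i, opp (opp i) = i) (hne : ∀ i, opp i ≠ i)
    (hG : GoodWords opp w pos closed) : (strandL opp pos : List (ST w m)).Nodup := by
  have h0 : (strandL opp pos : List (ST w m)) =
      (((List.range N).filter fun j : ℕ => decide (can opp (j : ZMod N))).flatMap fun j : ℕ =>
        (sideL opp pos (j : ZMod N))).map Prod.fst := by
    unfold strandL
    rw [List.map_flatMap]
  have hcan : ∀ x ∈ (((List.range N).filter fun j : ℕ => decide (can opp (j : ZMod N))).flatMap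
      fun j : ℕ => (sideL opp pos (j : ZMod N) : List (PT w m))), can opp (pside opp x) := by
    intro x hx
    rw [List.mem_flatMap] at hx
    obtain ⟨j, hj, hx⟩ := hx
    rw [List.mem_filter] at hj
    rw [mem_sideL] at hx
    rw [hx]
    exact of_decide_eq_true hj.2
  rw [h0]
  refine List.Nodup.map_on ?_ ?_
  · intro x hx z hz h
    exact TG2_same hinv (hcan x hx) (hcan z hz) h
  · rw [List.nodup_flatMap]
    refine ⟨fun j _ => TG2_nodup _, ?_⟩
    have h1 : ((List.range N).filter fun j : ℕ => decide (can opp (j : ZMod N))).Pairwise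
        (· < ·) := List.pairwise_lt_range.filter _
    refine h1.imp_of_mem ?_
    intro j k hj hk hjk x hx hy
    rw [mem_sideL] at hx hy
    rw [List.mem_filter, List.mem_range] at hj hk
    have h2 : ((j : ZMod N)).val = ((k : ZMod N)).val := by rw [← hx, ← hy]
    rw [ZMod.val_natCast_of_lt hj.1, ZMod.val_natCast_of_lt hk.1] at h2
    omega

theorem mem_strandL (hinv : ∀ i, opp (opp i) = i) (hne : ∀ i, opp i ≠ i) (i : ST w m) :
    i ∈ (strandL opp pos : List (ST w m)) := by
  have key : ∀ x : PT w m, can opp (pside opp x) → x.1 ∈ (strandL opp pos : List (ST w m)) := by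
    intro x hx
    unfold strandL
    rw [List.mem_flatMap]
    refine ⟨(pside opp x).val, ?_, ?_⟩
    · rw [List.mem_filter, List.mem_range, ZMod.natCast_zmod_val]
      exact ⟨ZMod.val_lt _, decide_eq_true hx⟩
    · rw [ZMod.natCast_zmod_val, List.mem_map]
      exact ⟨x, mem_sideL.2 rfl, rfl⟩
  by_cases h : can opp (letr i)
  · exact key (i, false) h
  · refine key (i, true) ?_
    show (opp (letr i)).val < (opp (opp (letr i))).val
    rw [hinv]
    have h1 : (opp (letr i)).val ≠ (letr i).val := fun e => hne _ (ZMod.val_injective N e)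
    unfold can at h
    omega

/-- The word of all points is a noncrossing word. -/
theorem ncw_objL (hinv : ∀ i, opp (opp i) = i) (hne : ∀ i, opp i ≠ i)
    (hG : GoodWords opp w pos closed) :
    NCw mate (fstp opp pos) (objL opp pos : List (ZMod N ⊕ PT w m)) := by
  have h := ncw_of_sorted (C := ZMod N) (pkey opp pos : PT w m → _) mate mate_mate ?_
    (noncross_mate hinv hne hG) (objL opp pos) ?_ ?_
  · exact h
  · intro p e
    apply pside_mate_ne hinv hG p
    apply ZMod.val_injective N
    have h1 := congrArg (fun q => (ofLex q).1) e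
    exact h1
  · rw [pts_objL]
    exact ptL_sorted hinv hne hG
  · intro p _
    rw [pts_objL]
    exact mem_ptL _

private theorem TG2_corners_app {C P : Type} (δ : P → ℤ) (t : ℤ) (A B : List (C ⊕ P)) : ∀ s : ℤ,
    CornersAt δ t s (A ++ B) ↔
      CornersAt δ t s A ∧ CornersAt δ t (s + ((pts A).map δ).sum) B := by
  induction A with
  | nil =>
    intro s
    simp [pts, CornersAt]
  | cons x A ih =>
    intro s
    rcases x with c | p
    · simp only [List.cons_append, CornersAt, pts, ih, and_assoc]
    · simp only [List.cons_append, CornersAt, pts, ih, List.map_cons, List.sum_cons, add_assoc]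

private theorem TG2_corners_map {C P : Type} (δ : P → ℤ) (t : ℤ) (L : List P) : ∀ s : ℤ,
    CornersAt δ t s (L.map (Sum.inr : P → C ⊕ P)) := by
  induction L with
  | nil =>
    intro s
    trivial
  | cons a L ih =>
    intro s
    exact ih _

private theorem TG2_side_sum (δ : PT w m → ℤ) (hb : BalP opp δ) (i : ZMod N) :
    ((sideL opp pos i : List (PT w m)).map δ).sum = 0 := by
  have h1 : ((sideL opp pos i : List (PT w m)).map δ).sum =
      (((Finset.univ.filter fun x : PT w m => pside opp x = i).toList).map δ).sum := by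
    unfold sideL
    exact ((List.perm_insertionSort _ _).map δ).sum_eq
  rw [h1, Finset.sum_map_toList, Finset.sum_filter]
  exact hb i

/-- For balanced steps all corners have the level `0`. -/
theorem cornersAt_objL (δ : PT w m → ℤ) (hb : BalP opp δ) :
    CornersAt δ 0 0 (objL opp pos : List (ZMod N ⊕ PT w m)) := by
  unfold objL
  induction List.range N with
  | nil => trivial
  | cons a L ih =>
    rw [List.flatMap_cons, TG2_corners_app]
    refine ⟨⟨rfl, TG2_corners_map _ _ _ _⟩, ?_⟩
    simp only [pts, TG2_pts_map]
    rw [TG2_side_sum δ hb]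
    exact ih

private theorem TG2_cA {C P : Type} (δ : P → ℤ) (A : List (C ⊕ P)) (t : ℤ) : ∀ s : ℤ,
    CornersAt δ 0 s A → cA δ s A t = (if t = 0 then A.countP (fun x => x.isLeft) else 0) +
      cF δ (fun _ => true) s A t := by
  induction A with
  | nil =>
    intro s _
    simp [cA, cF]
  | cons x A ih =>
    intro s hs
    rcases x with c | p
    · obtain ⟨h1, h2⟩ := hs
      have h3 := ih s h2
      simp only [cA, cF, h3]
      subst h1
      by_cases ht : t = 0
      · subst ht
        simp only [if_true, List.countP_cons, Sum.isLeft]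
        omega
      · simp only [if_neg ht, if_neg (Ne.symm ht)]
        omega
    · have h3 := ih (s + δ p) hs
      simp only [cA, cF, h3, true_and, List.countP_cons, Sum.isLeft]
      simp only [Bool.false_eq_true, if_false, add_zero]
      omega

private theorem TG2_count_map {C P : Type} (L : List P) :
    (L.map (Sum.inr : P → C ⊕ P)).countP (fun x => x.isLeft) = 0 := by
  induction L with
  | nil => rfl
  | cons a L ih => simp [List.countP_cons, ih]

private theorem TG2_count :
    (objL opp pos : List (ZMod N ⊕ PT w m)).countP (fun x => x.isLeft) = N := by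
  have h : ∀ L : List ℕ, (L.flatMap fun j : ℕ => (Sum.inl (j : ZMod N) : ZMod N ⊕ PT w m) ::
      (sideL opp pos (j : ZMod N)).map Sum.inr).countP (fun x => x.isLeft) = L.length := by
    intro L
    induction L with
    | nil => rfl
    | cons a L ih =>
      rw [List.flatMap_cons, List.countP_append, ih, List.countP_cons, TG2_count_map,
        List.length_cons]
      simp only [Sum.isLeft, if_true]
      omega
  unfold objL
  rw [h, List.length_range]

theorem cA_objL (hinv : ∀ i, opp (opp i) = i) (hne : ∀ i, opp i ≠ i)
    (hG : GoodWords opp w pos closed) (δ : PT w m → ℤ) (hb : BalP opp δ) (t : ℤ) :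
    cA δ 0 (objL opp pos : List (ZMod N ⊕ PT w m)) t = (if t = 0 then N else 0) +
      (Finset.univ.filter fun x => levA (pkey opp pos) δ x = t).card := by
  rw [TG2_cA δ _ t 0 (cornersAt_objL δ hb), TG2_count,
    cF_eq (pkey opp pos) δ (fun _ => true) (objL opp pos) ?_ ?_ t]
  · simp only [true_and]
  · rw [pts_objL]
    exact ptL_sorted hinv hne hG
  · intro p
    rw [pts_objL]
    exact mem_ptL _

end Pool.Agent.AMU.Ter
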