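import Pool.Agent.Lib.AMU.TerG2

/-!
# Row TH: the boundary word of the sorted list of strands

`S = strandL.map fun i => (strandOf lab i, if can (letr i) then ρ i else !ρ i)`. A point `x` on a canonical side `j`
has (strandOf lab x.1).1 = j, its step is the step of the strand, its label is the first label. So the elements
of `S` on the canonical side `j` are the images of `sideL j`. For a side `opp j` use `sideL_opp`.
-/

set_option autoImplicit false

namespace Pool.Agent.AMU.Ter

variable {N r : ℕ} [NeZero N] {opp : ZMod N → ZMod N} {w : Fin r → List (ZMod N)}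
  {pos : Fin r → ℕ → ℤ} {m : Fin r → ℕ} {closed : Prop}

theorem stp_flp (ρ : ST w m → Bool) (x : PT w m) : stp ρ (flp x) = !stp ρ x := by
  obtain ⟨i, b⟩ := x
  unfold stp flp
  cases b <;> simp

private theorem th_flatMap {α : Type} (J : List ℕ) (hJ : J.Nodup) (j : ℕ) (hj : j ∈ J)
    (G : ℕ → List α) (hG : ∀ j' ∈ J, j' ≠ j → G j' = []) : J.flatMap G = G j := by
  induction J with
  | nil => exact absurd hj (List.not_mem_nil)
  | cons a J ih =>
    rw [List.nodup_cons] at hJ
    rw [List.flatMap_cons]
    by_cases h : j = a
    · subst h
      have : J.flatMap G = [] := by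
        rw [List.flatMap_eq_nil_iff]
        intro j' hj'
        refine hG j' (List.mem_cons_of_mem _ hj') ?_
        rintro rfl
        exact hJ.1 hj'
      rw [this, List.append_nil]
    · have hj2 : j ∈ J := by
        rcases List.mem_cons.1 hj with h2 | h2
        · exact absurd h2 h
        · exact h2
      rw [hG a List.mem_cons_self (fun h' => h h'.symm), List.nil_append]
      exact ih hJ.2 hj2 fun j' hj' => hG j' (List.mem_cons_of_mem _ hj')

/-- the data of a point on a canonical side -/
private theorem th_point (hinv : ∀ i, opp (opp i) = i) (lab : PT w m → Bool) (ρ : ST w m → Bool)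
    (x : PT w m) (hx : can opp (pside opp x)) :
    (strandOf opp lab x.1).1 = pside opp x ∧
      (if can opp (letr x.1) then ρ x.1 else !ρ x.1) = stp ρ x ∧
      (strandOf opp lab x.1).2.1 = lab x ∧ (strandOf opp lab x.1).2.2 = lab (flp x) := by
  obtain ⟨i, b⟩ := x
  unfold can pside at hx
  unfold strandOf pside stp flp
  cases b
  · simp only [Bool.false_eq_true, if_false] at hx
    have h1 : can opp (letr i) := hx
    simp only [if_pos h1, Bool.false_eq_true, if_false, Bool.not_false, and_self]
  · simp only [if_true] at hx
    rw [hinv] at hx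
    have h1 : ¬ can opp (letr i) := by
      intro h
      exact absurd h (not_lt.2 hx.le)
    simp only [if_neg h1, if_true, Bool.not_true, and_self]

/-- the strands on a canonical side -/
private theorem th_filter (hinv : ∀ i, opp (opp i) = i) (lab : PT w m → Bool) (j : ZMod N)
    (hj : can opp j) :
    (strandL opp pos).filter (fun i : ST w m => decide ((strandOf opp lab i).1 = j)) =
      (sideL opp pos j).map Prod.fst := by
  unfold strandL
  rw [List.filter_flatMap, th_flatMap _ (List.nodup_range.filter _) j.val]
  · rw [ZMod.natCast_zmod_val, List.filter_map]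
    congr 1
    rw [List.filter_eq_self]
    intro x hx
    rw [mem_sideL] at hx
    have := (th_point hinv lab (fun _ => true) x (by rw [hx]; exact hj)).1
    simp only [Function.comp, decide_eq_true_eq]
    rw [this, hx]
  · rw [List.mem_filter, List.mem_range, decide_eq_true_eq]
    refine ⟨ZMod.val_lt j, ?_⟩
    rwa [ZMod.natCast_zmod_val]
  · intro j' hj' hne
    rw [List.mem_filter, List.mem_range, decide_eq_true_eq] at hj'
    rw [List.filter_eq_nil_iff]
    intro i hi
    rw [List.mem_map] at hi
    obtain ⟨x, hx, rfl⟩ := hi
    rw [mem_sideL] at hx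
    have h1 := (th_point hinv lab (fun _ => true) x (by rw [hx]; exact hj'.2)).1
    rw [h1, hx, decide_eq_true_eq]
    intro h2
    apply hne
    rw [← h2, ZMod.val_natCast, Nat.mod_eq_of_lt hj'.1]

theorem steps_strandL (hinv : ∀ i, opp (opp i) = i) (hne : ∀ i, opp i ≠ i)
    (hG : GoodWords opp w pos closed) (lab : PT w m → Bool) (ρ : ST w m → Bool) (j : ZMod N)
    (hj : can opp j) :
    steps ((strandL opp pos).map fun i => (strandOf opp lab i,
      if can opp (letr i) then ρ i else !ρ i)) j = (sideL opp pos j).map (stp ρ) := by
  unfold steps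
  rw [List.filter_map, List.map_map]
  have h1 := th_filter (pos := pos) hinv lab j hj
  simp only [Function.comp_def]
  rw [h1, List.map_map]
  refine List.map_congr_left fun x hx => ?_
  rw [mem_sideL] at hx
  exact (th_point hinv lab ρ x (by rw [hx]; exact hj)).2.1

theorem sideWord_strandL (hinv : ∀ i, opp (opp i) = i) (hne : ∀ i, opp i ≠ i)
    (hG : GoodWords opp w pos closed) (lab : PT w m → Bool) (ρ : ST w m → Bool) (j : ZMod N) :
    sideWord opp ((strandL opp pos).map fun i => (strandOf opp lab i,
      if can opp (letr i) then ρ i else !ρ i)) j =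
      (sideL opp pos j).map (fun x => (stp ρ x, lab x)) := by
  unfold sideWord
  by_cases hj : can opp j
  · rw [if_pos hj, List.filter_map, List.map_map]
    have h1 := th_filter (pos := pos) hinv lab j hj
    simp only [Function.comp_def]
    rw [h1, List.map_map]
    refine List.map_congr_left fun x hx => ?_
    rw [mem_sideL] at hx
    obtain ⟨_, h2, h3, _⟩ := th_point hinv lab ρ x (by rw [hx]; exact hj)
    simp only [Function.comp]
    rw [h2, h3]
  · have hj' : can opp (opp j) := by
      have h2 : j.val ≠ (opp j).val := fun h => hne j (ZMod.val_injective N h.symm)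
      show (opp j).val < (opp (opp j)).val
      rw [hinv]
      change ¬ j.val < (opp j).val at hj
      omega
    rw [if_neg hj, List.filter_map, List.map_map]
    have h1 := th_filter (pos := pos) hinv lab (opp j) hj'
    simp only [Function.comp_def]
    rw [h1, List.map_map]
    have h3 := sideL_opp (m := m) hinv hne hG (opp j)
    rw [hinv] at h3
    rw [h3, List.map_reverse, List.map_map]
    congr 1
    refine List.map_congr_left fun x hx => ?_
    rw [mem_sideL] at hx
    obtain ⟨_, h4, _, h5⟩ := th_point hinv lab ρ x (by rw [hx]; exact hj')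
    simp only [Function.comp]
    rw [h4, h5, stp_flp]

private theorem th_sum (hinv : ∀ i, opp (opp i) = i) (hne : ∀ i, opp i ≠ i)
    (hG : GoodWords opp w pos closed) (δ : PT w m → ℤ) (i : ZMod N) :
    ((sideL opp pos i).map δ).sum = ∑ x : PT w m, (if pside opp x = i then δ x else 0) := by
  classical
  have hnd : (sideL opp pos i : List (PT w m)).Nodup := by
    refine (sideL_sorted hinv hne hG i).imp ?_
    rintro a b h rfl
    exact lt_irrefl _ h
  rw [← List.sum_toFinset _ hnd, ← Finset.sum_filter]
  refine Finset.sum_congr ?_ fun _ _ => rfl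
  ext x
  rw [List.mem_toFinset, mem_sideL, Finset.mem_filter]
  simp

theorem bal_strandL (hinv : ∀ i, opp (opp i) = i) (hne : ∀ i, opp i ≠ i)
    (hG : GoodWords opp w pos closed) (lab : PT w m → Bool) (ρ : ST w m → Bool) :
    Bal opp ((strandL opp pos).map fun i => (strandOf opp lab i,
      if can opp (letr i) then ρ i else !ρ i)) ↔ BalP opp (fun x => sgn (stp ρ x)) := by
  have h1 : ∀ j : ZMod N, can opp j → stepSum (steps ((strandL opp pos).map fun i =>
      (strandOf opp lab i, if can opp (letr i) then ρ i else !ρ i)) j) =
      ∑ x : PT w m, (if pside opp x = j then sgn (stp ρ x) else 0) := by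
    intro j hj
    rw [steps_strandL hinv hne hG lab ρ j hj, ← th_sum hinv hne hG]
    unfold stepSum
    rw [List.map_map]
    rfl
  have h2 : ∀ j : ZMod N, ∑ x : PT w m, (if pside opp x = opp j then sgn (stp ρ x) else 0) =
      -∑ x : PT w m, (if pside opp x = j then sgn (stp ρ x) else 0) := by
    intro j
    rw [← th_sum hinv hne hG (fun x => sgn (stp ρ x)) (opp j),
      ← th_sum hinv hne hG (fun x => sgn (stp ρ x)) j, sideL_opp hinv hne hG j, List.map_reverse,
      List.sum_reverse, List.map_map]
    have h3 : (fun x : PT w m => sgn (stp ρ x)) ∘ flp = fun x => -sgn (stp ρ x) := by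
      funext x
      simp only [Function.comp]
      rw [stp_flp, sgn_not]
    rw [h3]
    induction (sideL opp pos j : List (PT w m)) with
    | nil => simp
    | cons a l ih => simp only [List.map_cons, List.sum_cons, ih]; ring
  unfold Bal BalP
  constructor
  · intro h i
    by_cases hi : can opp i
    · rw [← h1 i hi]
      exact h i hi
    · have hi' : can opp (opp i) := by
        have h2 : i.val ≠ (opp i).val := fun h => hne i (ZMod.val_injective N h.symm)
        show (opp i).val < (opp (opp i)).val
        rw [hinv]
        change ¬ i.val < (opp i).val at hi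
        omega
      have h3 := h2 i
      rw [← h1 (opp i) hi', h (opp i) hi'] at h3
      linarith
  · intro h i hi
    rw [h1 i hi]
    exact h i

end Pool.Agent.AMU.Ter
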