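import Pool.Agent.Lib.AMU.TerH

/-!
# Row TH2: the summand of the state sum for the sorted list of strands

Under `BalP` the level before every side is `0`; `wprod` of a side is the product over the levels before the
first point (`0`) and after every point (`plvl_eq` for `ptL = flatMap sideL`, or directly for one side:
`levA x` is the sum over the points of the same side, because the other sides are balanced).
`bdry`: product over the sides of `W y 0 (..)` = `W y 0` of the concatenation (`W_append`, the steps of every side
cancel).
-/

set_option autoImplicit false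

namespace Pool.Agent.AMU.Ter

variable {N r : ℕ} [NeZero N] {opp : ZMod N → ZMod N} {w : Fin r → List (ZMod N)}
  {pos : Fin r → ℕ → ℤ} {m : Fin r → ℕ} {closed : Prop}

private theorem th2_length {P : Type} (δ : P → ℤ) (s : ℤ) (M : List P) :
    (plvl δ s M).length = M.length := by
  induction M generalizing s with
  | nil => rfl
  | cons p M ih => simp only [plvl, List.length_cons, ih]

private theorem th2_append {P : Type} (δ : P → ℤ) (s : ℤ) (M M' : List P) :
    plvl δ s (M ++ M') = plvl δ s M ++ plvl δ (s + (M.map δ).sum) M' := by
  induction M generalizing s with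
  | nil => simp [plvl]
  | cons p M ih =>
    simp only [List.cons_append, plvl, ih, List.map_cons, List.sum_cons]
    rw [add_assoc]

private theorem th2_sum (hinv : ∀ i, opp (opp i) = i) (hne : ∀ i, opp i ≠ i)
    (hG : GoodWords opp w pos closed) (δ : PT w m → ℤ) (i : ZMod N) :
    ((sideL opp pos i).map δ).sum = ∑ x : PT w m, (if pside opp x = i then δ x else 0) := by
  classical
  have hnd : (sideL opp pos i : List (PT w m)).Nodup := by
    refine (sideL_sorted hinv hne hG i).imp ?_
    rintro a b h rfl
    exact lt_irrefl _ h
  rw [← List.sum_toFinset _ hnd, ← Finset.sum_filter]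
  refine Finset.sum_congr ?_ fun _ _ => rfl
  ext x
  rw [List.mem_toFinset, mem_sideL, Finset.mem_filter]
  simp

private theorem th2_flat (hinv : ∀ i, opp (opp i) = i) (hne : ∀ i, opp i ≠ i)
    (hG : GoodWords opp w pos closed) (δ : PT w m → ℤ) (hb : BalP opp δ) (J : List ℕ) :
    ((J.flatMap fun j : ℕ => sideL opp pos (j : ZMod N)).map δ).sum = 0 := by
  induction J with
  | nil => simp
  | cons j J ih =>
    rw [List.flatMap_cons, List.map_append, List.sum_append, ih, add_zero,
      th2_sum hinv hne hG]
    exact hb _

/-- One side of a balanced diagram. -/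
theorem plvl_sideL (hinv : ∀ i, opp (opp i) = i) (hne : ∀ i, opp i ≠ i)
    (hG : GoodWords opp w pos closed) (δ : PT w m → ℤ) (hb : BalP opp δ) (i : ZMod N) :
    plvl δ 0 (sideL opp pos i) =
      (sideL opp pos i).map (fun x => (x, levA (pkey opp pos) δ x)) := by
  have h0 := plvl_eq (pkey opp pos) δ (ptL opp pos : List (PT w m)) (ptL_sorted hinv hne hG)
    mem_ptL
  obtain ⟨b, hb2⟩ : ∃ b, N = i.val + 1 + b := ⟨N - (i.val + 1), by have := ZMod.val_lt i; omega⟩
  have h1 : (ptL opp pos : List (PT w m)) =
      ((List.range i.val).flatMap fun j : ℕ => sideL opp pos (j : ZMod N)) ++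
        (sideL opp pos i ++ (((List.range b).map (i.val + 1 + ·)).flatMap
          fun j : ℕ => sideL opp pos (j : ZMod N))) := by
    unfold ptL
    have h2 : List.range N = List.range i.val ++ (i.val :: (List.range b).map (i.val + 1 + ·)) := by
      conv_lhs => rw [hb2]
      rw [List.range_add, List.range_succ, List.append_assoc, List.singleton_append]
    rw [h2, List.flatMap_append, List.flatMap_cons, ZMod.natCast_zmod_val]
  rw [h1, th2_append, th2_flat hinv hne hG δ hb, add_zero, th2_append, List.map_append,
    List.map_append] at h0
  have h3 := List.append_inj h0 (by rw [th2_length, List.length_map])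
  exact (List.append_inj h3.2 (by rw [th2_length, List.length_map])).1

private theorem th2_wprod {P : Type} (y : ℝ) (st : P → Bool) (s : ℤ) (M : List P) :
    wprod y s (M.map st) = (dl y s)⁻¹ *
      ((plvl (fun x => sgn (st x)) s M).map fun z => (dl y z.2)⁻¹).prod := by
  induction M generalizing s with
  | nil => simp [wprod, plvl]
  | cons p M ih => simp only [List.map_cons, wprod, plvl, ih, List.prod_cons]

theorem wprod_side (hinv : ∀ i, opp (opp i) = i) (hne : ∀ i, opp i ≠ i)
    (hG : GoodWords opp w pos closed) (ρ : ST w m → Bool)
    (hb : BalP opp (fun x : PT w m => sgn (stp ρ x))) (y : ℝ) (i : ZMod N) :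
    wprod y 0 ((sideL opp pos i).map (stp ρ)) = (dl y 0)⁻¹ * ((sideL opp pos i).map fun x =>
      (dl y (levA (pkey opp pos) (fun x => sgn (stp ρ x)) x))⁻¹).prod := by
  rw [th2_wprod, plvl_sideL hinv hne hG _ hb, List.map_map]
  rfl

private theorem th2_prod (y : ℝ) (J : List ℕ) (G : ℕ → List (Bool × Bool))
    (hG : ∀ j ∈ J, stepSum ((G j).map Prod.fst) = 0) :
    (J.map fun j => (W y 0 (G j) : Module.End ℝ Fn)).prod = W y 0 (J.flatMap G) := by
  induction J with
  | nil => rfl
  | cons j J ih =>
    rw [List.map_cons, List.prod_cons, List.flatMap_cons, W_append,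
      hG j List.mem_cons_self, add_zero, ih fun j' hj' => hG j' (List.mem_cons_of_mem _ hj')]
    rfl

theorem termS_eq (hinv : ∀ i, opp (opp i) = i) (hne : ∀ i, opp i ≠ i)
    (hG : GoodWords opp w pos closed) (lab : PT w m → Bool) (ρ : ST w m → Bool) (y : ℝ) (e : ℤ) :
    termS opp y e ((strandL opp pos).map fun i => (strandOf opp lab i,
      if can opp (letr i) then ρ i else !ρ i)) =
    if BalP opp (fun x : PT w m => sgn (stp ρ x)) then
      dl y 0 ^ (e + 1) * ((dl y 0)⁻¹) ^ (canon opp).card *
      (∏ x : PT w m, if can opp (pside opp x) then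
        (dl y (levA (pkey opp pos) (fun x => sgn (stp ρ x)) x))⁻¹ else 1) *
      tau y (W y 0 ((ptL opp pos).map fun x => (stp ρ x, lab x)))
    else 0 := by
  classical
  unfold termS
  have hbal := bal_strandL hinv hne hG lab ρ
  by_cases hb : BalP opp (fun x : PT w m => sgn (stp ρ x))
  · rw [if_pos (hbal.2 hb), if_pos hb]
    have hnd : ∀ i : ZMod N, (sideL opp pos i : List (PT w m)).Nodup := by
      intro i
      refine (sideL_sorted hinv hne hG i).imp ?_
      rintro a b h rfl
      exact lt_irrefl _ h
    have h1 : bdry opp y ((strandL opp pos).map fun i => (strandOf opp lab i,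
        if can opp (letr i) then ρ i else !ρ i)) =
        W y 0 ((ptL opp pos).map fun x => (stp ρ x, lab x)) := by
      unfold bdry ptL
      simp only [sideWord_strandL hinv hne hG lab ρ]
      rw [th2_prod, List.map_flatMap]
      intro j _
      rw [List.map_map]
      have h2 : (Prod.fst ∘ fun x : PT w m => (stp ρ x, lab x)) = stp ρ := rfl
      rw [h2]
      unfold stepSum
      rw [List.map_map]
      have h3 := hb (j : ZMod N)
      rw [← th2_sum hinv hne hG] at h3
      exact h3
    have h4 : ∏ i ∈ canon opp, wprod y 0 (steps ((strandL opp pos).map fun i =>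
        (strandOf opp lab i, if can opp (letr i) then ρ i else !ρ i)) i) =
        ((dl y 0)⁻¹) ^ (canon opp).card * ∏ x : PT w m, if can opp (pside opp x) then
          (dl y (levA (pkey opp pos) (fun x => sgn (stp ρ x)) x))⁻¹ else 1 := by
      have h5 : ∀ i ∈ canon opp, wprod y 0 (steps ((strandL opp pos).map fun i =>
          (strandOf opp lab i, if can opp (letr i) then ρ i else !ρ i)) i) =
          (dl y 0)⁻¹ * ∏ x ∈ Finset.univ.filter (fun x : PT w m => pside opp x = i),
            (dl y (levA (pkey opp pos) (fun x => sgn (stp ρ x)) x))⁻¹ := by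
        intro i hi
        have hi' : can opp i := by simpa [canon] using hi
        rw [steps_strandL hinv hne hG lab ρ i hi', wprod_side hinv hne hG ρ hb,
          ← List.prod_toFinset _ (hnd i)]
        congr 2
        ext x
        rw [List.mem_toFinset, mem_sideL, Finset.mem_filter]
        simp
      rw [Finset.prod_congr rfl h5, Finset.prod_mul_distrib, Finset.prod_const]
      congr 1
      rw [← Finset.prod_filter]
      rw [← Finset.prod_fiberwise_of_maps_to (s := Finset.univ.filter fun x : PT w m =>
        can opp (pside opp x)) (t := canon opp) (g := fun x => pside opp x)]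
      · refine Finset.prod_congr rfl fun i hi => ?_
        have hi' : can opp i := by simpa [canon] using hi
        refine Finset.prod_congr ?_ fun _ _ => rfl
        ext x
        simp only [Finset.mem_filter, Finset.mem_univ, true_and]
        constructor
        · intro h
          exact ⟨by rw [h]; exact hi', h⟩
        · intro h
          exact h.2
      · intro x hx
        rw [Finset.mem_filter] at hx
        simpa [canon] using hx.2
    rw [h1, h4]
    ring
  · rw [if_neg (fun h => hb (hbal.1 h)), if_neg hb]

end Pool.Agent.AMU.Ter
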