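import Pool.Agent.Lib.AMU.TerG2

/-!
# Row TI: sums over steps

`sumSteps_map`: induction on `L` after replacing the sum over `ρ : α → Bool` by a sum over the values at the
elements of `L` (for instance `Function.update`, or compare with `sumL_univ` of TerB). `term_strandL`: then the
bijection `ρ i ↦ !ρ i` for the strands with `¬ can (letr i)`.
-/

set_option autoImplicit false

namespace Pool.Agent.AMU.Ter

private theorem TI_aux {α β : Type} [Fintype α] [DecidableEq α] (f : α → β) (L : List α) :
    L.Nodup → ∀ F : List (β × Bool) → ℝ, sumSteps (L.map f) F =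
      ∑ ρ ∈ (Finset.univ : Finset (α → Bool)).filter (fun ρ => ∀ a, a ∉ L → ρ a = false),
        F (L.map fun i => (f i, ρ i)) := by
  induction L with
  | nil =>
    intro _ F
    have h1 : (Finset.univ : Finset (α → Bool)).filter
        (fun ρ => ∀ a, a ∉ ([] : List α) → ρ a = false) = {fun _ => false} := by
      ext ρ
      simp only [Finset.mem_filter, Finset.mem_univ, true_and, Finset.mem_singleton]
      constructor
      · intro h
        funext a
        exact h a List.not_mem_nil
      · rintro rfl a _
        rfl
    rw [h1, Finset.sum_singleton]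
    rfl
  | cons a L ih =>
    intro hnd F
    rw [List.nodup_cons] at hnd
    obtain ⟨ha, hnd⟩ := hnd
    have hmap : ∀ (ρ ρ' : α → Bool), (∀ b, b ≠ a → ρ b = ρ' b) →
        (L.map fun i => (f i, ρ i)) = L.map fun i => (f i, ρ' i) := by
      intro ρ ρ' h
      refine List.map_congr_left fun i hi => ?_
      rw [h i (fun hia => ha (hia ▸ hi))]
    simp only [List.map_cons, sumSteps]
    rw [ih hnd, ih hnd, ← Finset.sum_filter_add_sum_filter_not
      ((Finset.univ : Finset (α → Bool)).filter (fun ρ => ∀ b, b ∉ a :: L → ρ b = false))
      (fun ρ => ρ a = true)]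
    congr 1
    · refine Finset.sum_nbij' (fun ρ => Function.update ρ a true)
        (fun ρ => Function.update ρ a false) ?_ ?_ ?_ ?_ ?_
      · intro ρ hρ
        simp only [Finset.mem_filter, Finset.mem_univ, true_and] at hρ ⊢
        refine ⟨fun b hb => ?_, Function.update_self _ _ _⟩
        rw [List.mem_cons, not_or] at hb
        rw [Function.update_of_ne hb.1]
        exact hρ b hb.2
      · intro ρ hρ
        simp only [Finset.mem_filter, Finset.mem_univ, true_and] at hρ ⊢
        intro b hb
        by_cases hba : b = a
        · rw [hba, Function.update_self]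
        · rw [Function.update_of_ne hba]
          exact hρ.1 b (by rw [List.mem_cons, not_or]; exact ⟨hba, hb⟩)
      · intro ρ hρ
        simp only [Finset.mem_filter, Finset.mem_univ, true_and] at hρ
        rw [Function.update_idem, ← hρ a ha, Function.update_eq_self]
      · intro ρ hρ
        simp only [Finset.mem_filter, Finset.mem_univ, true_and] at hρ
        rw [Function.update_idem]
        have h2 := hρ.2
        rw [← h2, Function.update_eq_self]
      · intro ρ hρ
        rw [Function.update_self, hmap ρ (Function.update ρ a true)
          (fun b hb => (Function.update_of_ne hb _ _).symm)]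
    · refine Finset.sum_congr ?_ ?_
      · ext ρ
        simp only [Finset.mem_filter, Finset.mem_univ, true_and]
        constructor
        · intro h
          refine ⟨fun b hb => h b (fun h' => hb (List.mem_cons_of_mem _ h')), ?_⟩
          rw [h a ha]
          exact Bool.false_ne_true
        · rintro ⟨h1, h2⟩ b hb
          by_cases hba : b = a
          · rw [hba]
            exact Bool.eq_false_iff.2 h2
          · exact h1 b (by rw [List.mem_cons, not_or]; exact ⟨hba, hb⟩)
      · intro ρ hρ
        simp only [Finset.mem_filter, Finset.mem_univ, true_and] at hρ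
        have h2 : ρ a = false := Bool.eq_false_iff.2 hρ.2
        rw [h2]

theorem sumSteps_map {α β : Type} [Fintype α] [DecidableEq α] (L : List α) (hnd : L.Nodup)
    (hall : ∀ a, a ∈ L) (f : α → β) (F : List (β × Bool) → ℝ) :
    sumSteps (L.map f) F = ∑ ρ : α → Bool, F (L.map fun i => (f i, ρ i)) := by
  rw [TI_aux f L hnd F]
  refine Finset.sum_congr ?_ fun _ _ => rfl
  exact Finset.filter_true_of_mem fun ρ _ a ha => absurd (hall a) ha

variable {N r : ℕ} [NeZero N] {opp : ZMod N → ZMod N} {w : Fin r → List (ZMod N)}
  {pos : Fin r → ℕ → ℤ} {m : Fin r → ℕ} {closed : Prop}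

theorem term_strandL (hinv : ∀ i, opp (opp i) = i) (hne : ∀ i, opp i ≠ i)
    (hG : GoodWords opp w pos closed) (lab : PT w m → Bool) (y : ℝ) (e : ℤ) :
    term opp y e ((strandL opp pos).map (strandOf opp lab)) =
      ∑ ρ : ST w m → Bool, termS opp y e ((strandL opp pos).map fun i => (strandOf opp lab i,
        if can opp (letr i) then ρ i else !ρ i)) := by
  unfold term
  rw [sumSteps_map (strandL opp pos) (strandL_nodup hinv hne hG) (mem_strandL hinv hne)]
  let E : (ST w m → Bool) → (ST w m → Bool) := fun ρ i => if can opp (letr i) then ρ i else !ρ i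
  have hE : Function.Involutive E := by
    intro ρ
    funext i
    simp only [E]
    split_ifs
    · rfl
    · exact Bool.not_not _
  exact (Equiv.sum_comp (Function.Involutive.toPerm E hE) (fun ρ : ST w m → Bool =>
    termS opp y e ((strandL opp pos).map fun i => (strandOf opp lab i, ρ i)))).symm

end Pool.Agent.AMU.Ter
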