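import Pool.Agent.Lib.AMU.TerG2

/-!
# Row TI1: the coefficient of the labels

`coefL_eq`: the chord of the strand `i` joins (i, true) and (nxt i, false); one of these two points is the
first one: if (i, true) is first, the factor is `ep (lab x) (lab (mate x))` with `x = (i, true)`, otherwise it is
`- ep (lab x) (lab (mate x))` with `x = (nxt i, false)`; the sides of the two points are different
(`pside_mate_ne`), so (i, true) is first iff (opp w_k).val < (w_(k+1)).val. The product of the signs over the
strands (j, (k, u)) is `∏ j, (wordSign (w j) * (-1) ^ length) ^ m j`.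
-/

set_option autoImplicit false

namespace Pool.Agent.AMU.Ter

variable {N r : ℕ} [NeZero N] {opp : ZMod N → ZMod N} {w : Fin r → List (ZMod N)}
  {pos : Fin r → ℕ → ℤ} {m : Fin r → ℕ} {closed : Prop}

private theorem TI1_lt
    (x z : PT w m) (h : pside opp x ≠ pside opp z) :
    pkey opp pos x < pkey opp pos z ↔ (pside opp x).val < (pside opp z).val := by
  unfold pkey
  rw [Prod.Lex.toLex_lt_toLex]
  constructor
  · rintro (h1 | ⟨h1, -⟩)
    · exact h1
    · exact absurd (ZMod.val_injective N h1) h
  · intro h1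
    exact Or.inl h1

omit [NeZero N] in
private theorem TI1_mate1 (i : ST w m) : mate ((i, true) : PT w m) = (nxt i, false) := rfl

omit [NeZero N] in
private theorem TI1_mate2 (i : ST w m) : mate ((nxt i, false) : PT w m) = (i, true) := by
  show (prv (nxt i), true) = _
  rw [prv_nxt]

private theorem TI1_ne (hinv : ∀ i, opp (opp i) = i) (hG : GoodWords opp w pos closed)
    (i : ST w m) : pside opp ((nxt i, false) : PT w m) ≠ pside opp ((i, true) : PT w m) := by
  have h := pside_mate_ne hinv hG ((i, true) : PT w m)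
  rwa [TI1_mate1] at h

private theorem TI1_fst1 (hinv : ∀ i, opp (opp i) = i) (hG : GoodWords opp w pos closed)
    (i : ST w m) : fstp opp pos ((i, true) : PT w m) =
      decide ((opp (letr i)).val < (letr (nxt i)).val) := by
  unfold fstp
  rw [TI1_mate1, decide_eq_decide, TI1_lt _ _ (TI1_ne hinv hG i).symm]
  rfl

private theorem TI1_fst2 (hinv : ∀ i, opp (opp i) = i) (hG : GoodWords opp w pos closed)
    (i : ST w m) : fstp opp pos ((nxt i, false) : PT w m) = !fstp opp pos ((i, true) : PT w m) := by
  have h1 := TI1_ne hinv hG i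
  rw [TI1_fst1 hinv hG]
  unfold fstp
  rw [TI1_mate2, ← decide_not, decide_eq_decide, TI1_lt _ _ h1]
  have h2 : (pside opp ((nxt i, false) : PT w m)).val ≠ (pside opp ((i, true) : PT w m)).val :=
    fun h => h1 (ZMod.val_injective N h)
  have e1 : pside opp ((nxt i, false) : PT w m) = letr (nxt i) := rfl
  have e2 : pside opp ((i, true) : PT w m) = opp (letr i) := rfl
  rw [e1, e2] at h2 ⊢
  omega

omit [NeZero N] in
private theorem TI1_reindex {M : Type} [CommMonoid M] (f : ST w m → M) :
    ∏ i, f (nxt i) = ∏ i, f i :=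
  Fintype.prod_bijective nxt
    ⟨fun a b h => by rw [← prv_nxt a, h, prv_nxt], fun b => ⟨prv b, nxt_prv b⟩⟩ _ _
    (fun _ => rfl)

omit [NeZero N] in
private theorem TI1_prod (f : PT w m → ℝ) :
    ∏ x, f x = ∏ i : ST w m, (f (i, true) * f (nxt i, false)) := by
  rw [Fintype.prod_prod_type, Finset.prod_mul_distrib, TI1_reindex (fun i => f (i, false)),
    ← Finset.prod_mul_distrib]
  refine Finset.prod_congr rfl fun i _ => ?_
  rw [Fintype.prod_bool]

private theorem TI1_neg {n : ℕ} (c : Fin n → ℝ) :
    ∏ k, c k = (∏ k, (-1) * c k) * (-1) ^ n := by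
  rw [Finset.prod_mul_distrib, Finset.prod_const, Finset.card_univ, Fintype.card_fin, mul_comm,
    ← mul_assoc, ← mul_pow]
  norm_num

omit [NeZero N] in
private theorem TI1_sign : (∏ i : ST w m, ((if can opp (letr i) then (1 : ℝ) else -1) *
    (if (opp (letr i)).val < (letr (nxt i)).val then 1 else -1))) =
    (∏ j, (wordSign opp (w j) : ℝ) ^ m j) * (-1) ^ Fintype.card (ST w m) := by
  have hcard : Fintype.card (ST w m) = ∑ j, (w j).length * m j := by
    simp [Fintype.card_sigma, Fintype.card_prod]
  have hpow : ((-1 : ℝ)) ^ Fintype.card (ST w m) = ∏ j, ((-1 : ℝ) ^ (w j).length) ^ m j := by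
    rw [hcard, ← Finset.prod_pow_eq_pow_sum]
    refine Finset.prod_congr rfl fun j _ => ?_
    rw [pow_mul]
  rw [hpow, ← Finset.prod_mul_distrib, Fintype.prod_sigma]
  refine Finset.prod_congr rfl fun j _ => ?_
  rw [Fintype.prod_prod_type, ← mul_pow]
  have h1 : ∀ k : Fin (w j).length, ∏ u : Fin (m j),
      ((if can opp (letr (⟨j, (k, u)⟩ : ST w m)) then (1 : ℝ) else -1) *
      (if (opp (letr (⟨j, (k, u)⟩ : ST w m))).val <
        (letr (nxt (⟨j, (k, u)⟩ : ST w m))).val then 1 else -1)) =
      ((if can opp ((w j).getD k.val 0) then (1 : ℝ) else -1) *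
      (if (opp ((w j).getD k.val 0)).val < ((w j).getD ((k.val + 1) % (w j).length) 0).val
        then 1 else -1)) ^ m j := by
    intro k
    have h3 := Finset.prod_const (s := (Finset.univ : Finset (Fin (m j))))
      ((if can opp ((w j).getD k.val 0) then (1 : ℝ) else -1) *
      (if (opp ((w j).getD k.val 0)).val < ((w j).getD ((k.val + 1) % (w j).length) 0).val
        then 1 else -1))
    rw [Finset.card_univ, Fintype.card_fin] at h3
    exact h3
  rw [Finset.prod_congr rfl (fun k _ => h1 k), Finset.prod_pow]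
  congr 1
  have h2 : (wordSign opp (w j) : ℝ) = ∏ k : Fin (w j).length,
      (-1) * ((if can opp ((w j).getD k.val 0) then (1 : ℝ) else -1) *
      (if (opp ((w j).getD k.val 0)).val < ((w j).getD ((k.val + 1) % (w j).length) 0).val
        then 1 else -1)) := by
    rw [wordSign, ← Fin.prod_univ_eq_prod_range (fun k =>
      (-1) * (if ((w j).getD k 0).val < (opp ((w j).getD k 0)).val then 1 else -1) *
      (if (opp ((w j).getD k 0)).val < ((w j).getD ((k + 1) % (w j).length) 0).val
        then (1 : ℤ) else -1))]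
    push_cast
    refine Finset.prod_congr rfl fun k _ => ?_
    split_ifs <;> norm_num
  rw [h2]
  exact TI1_neg _

theorem coefL_eq (hinv : ∀ i, opp (opp i) = i) (hne : ∀ i, opp i ≠ i)
    (hG : GoodWords opp w pos closed) (lab : PT w m → Bool) :
    coefL opp lab = (∏ j, (wordSign opp (w j) : ℝ) ^ m j) * (-1) ^ Fintype.card (ST w m) *
      ∏ x : PT w m, if fstp opp pos x = true then ep (lab x) (lab (mate x)) else 1 := by
  rw [← TI1_sign, TI1_prod, ← Finset.prod_mul_distrib]
  unfold coefL
  refine Finset.prod_congr rfl fun i _ => ?_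
  rw [TI1_fst2 hinv hG, TI1_mate1, TI1_mate2, TI1_fst1 hinv hG]
  by_cases h : (opp (letr i)).val < (letr (nxt i)).val
  · rw [if_pos h, decide_eq_true h, if_pos rfl]
    simp
  · rw [if_neg h, decide_eq_false h, ep_symm (lab (i, true))]
    simp

theorem card_fstp (hinv : ∀ i, opp (opp i) = i) (hG : GoodWords opp w pos closed) :
    (Finset.univ.filter fun x : PT w m => fstp opp pos x = true).card =
      Fintype.card (ST w m) := by
  rw [Finset.card_filter]
  rw [Fintype.sum_prod_type, ← Finset.card_univ, Finset.card_eq_sum_ones]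
  have h1 : ∑ i : ST w m, ∑ b : Bool, (if fstp opp pos ((i, b) : PT w m) = true then 1 else 0) =
      ∑ i : ST w m, (if fstp opp pos ((i, true) : PT w m) = true then 1 else 0) +
      ∑ i : ST w m, (if fstp opp pos ((i, false) : PT w m) = true then 1 else 0) := by
    rw [← Finset.sum_add_distrib]
    refine Finset.sum_congr rfl fun i _ => ?_
    rw [Fintype.sum_bool]
  have h2 : ∑ i : ST w m, (if fstp opp pos ((i, false) : PT w m) = true then 1 else 0) =
      ∑ i : ST w m, (if fstp opp pos ((nxt i, false) : PT w m) = true then 1 else 0) :=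
    (Fintype.sum_bijective nxt
      ⟨fun a b h => by rw [← prv_nxt a, h, prv_nxt], fun b => ⟨prv b, nxt_prv b⟩⟩ _ _
      (fun _ => rfl)).symm
  rw [h1, h2, ← Finset.sum_add_distrib]
  refine Finset.sum_congr rfl fun i _ => ?_
  rw [TI1_fst2 hinv hG]
  cases fstp opp pos ((i, true) : PT w m) <;> simp

end Pool.Agent.AMU.Ter
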