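import Pool.Agent.Lib.AMU.TerG2

/-!
# Row TI3: compatible steps

`stp ρ (mate x) = !stp ρ x` (for the first points, equivalently for all points) means `ρ (nxt i) = ρ i` for all
`i`, so `ρ (j, (k, u))` does not depend on `k`: `ρ = fun i => σ ⟨i.1, i.2.2⟩`; all words are nonempty
(`hG.ne`), so this is a bijection with the functions `σ`; `sst σ x = sgn (stp ρ x)`.
-/

set_option autoImplicit false

namespace Pool.Agent.AMU.Ter

variable {N r : ℕ} [NeZero N] {opp : ZMod N → ZMod N} {w : Fin r → List (ZMod N)}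
  {pos : Fin r → ℕ → ℤ} {m : Fin r → ℕ} {closed : Prop}

private theorem TI3_all (hinv : ∀ i, opp (opp i) = i) (hG : GoodWords opp w pos closed)
    (ρ : ST w m → Bool)
    (h : ∀ x : PT w m, fstp opp pos x = true → stp ρ (mate x) = !stp ρ x) (x : PT w m) :
    stp ρ (mate x) = !stp ρ x := by
  by_cases hx : fstp opp pos x = true
  · exact h x hx
  · have h1 : ¬ pkey opp pos x < pkey opp pos (mate x) := by
      intro h2
      exact hx (decide_eq_true h2)
    have h2 : pkey opp pos (mate x) ≠ pkey opp pos x := by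
      intro h3
      refine pside_mate_ne hinv hG x (ZMod.val_injective N ?_)
      exact congrArg (fun z : ℕ ×ₗ ℤ ×ₗ ℤ => (ofLex z).1) h3
    have h3 : pkey opp pos (mate x) < pkey opp pos (mate (mate x)) := by
      rw [mate_mate]
      exact lt_of_le_of_ne (not_lt.1 h1) h2
    have h4 := h (mate x) (decide_eq_true h3)
    rw [mate_mate] at h4
    rw [h4, Bool.not_not]

omit [NeZero N] in
private theorem TI3_const (ρ : ST w m → Bool) (h : ∀ i, ρ (nxt i) = ρ i) (j : Fin r)
    (u : Fin (m j)) (k : ℕ) (hk : k < (w j).length) (h0 : 0 < (w j).length) :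
    ρ ⟨j, (⟨k, hk⟩, u)⟩ = ρ ⟨j, (⟨0, h0⟩, u)⟩ := by
  induction k with
  | zero => rfl
  | succ k ih =>
    have hk' : k < (w j).length := Nat.lt_of_succ_lt hk
    rw [← ih hk', ← h ⟨j, (⟨k, hk'⟩, u)⟩]
    congr 1
    unfold nxt
    simp only [Nat.mod_eq_of_lt hk]

theorem sum_compat (hinv : ∀ i, opp (opp i) = i) (hG : GoodWords opp w pos closed)
    (g : (PT w m → ℤ) → ℝ) :
    ∑ ρ : ST w m → Bool, (if ∀ x : PT w m, fstp opp pos x = true →
      stp ρ (mate x) = !stp ρ x then g (fun x => sgn (stp ρ x)) else 0) =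
    ∑ σ : (Σ j : Fin r, Fin (m j)) → Bool, g (sst σ) := by
  symm
  refine Fintype.sum_of_injective
    (fun (σ : (Σ j : Fin r, Fin (m j)) → Bool) (i : ST w m) => σ ⟨i.1, i.2.2⟩) ?_ _ _ ?_ ?_
  · intro σ σ' h
    funext p
    obtain ⟨j, u⟩ := p
    have h0 : 0 < (w j).length := List.length_pos_iff.2 (hG.ne j)
    exact congrFun h (⟨j, (⟨0, h0⟩, u)⟩ : ST w m)
  · intro ρ hρ
    refine if_neg fun h => hρ ?_
    have h1 := TI3_all hinv hG ρ h
    have h2 : ∀ i, ρ (nxt i) = ρ i := by
      intro i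
      have h3 := h1 (i, true)
      simpa [mate, stp] using h3
    refine ⟨fun p => ρ ⟨p.1, (⟨0, List.length_pos_iff.2 (hG.ne p.1)⟩, p.2)⟩, ?_⟩
    funext i
    obtain ⟨j, k, u⟩ := i
    exact (TI3_const ρ h2 j u k.val k.2 _).symm
  · intro σ
    rw [if_pos]
    · congr 1
      funext x
      obtain ⟨i, b⟩ := x
      cases b <;> simp [sst, stp]
    · intro x _
      obtain ⟨i, b⟩ := x
      cases b
      · simp [mate, stp, prv]
      · simp [mate, stp, nxt]

end Pool.Agent.AMU.Ter
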