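import Pool.Agent.Lib.AMU.TerH2
import Pool.Agent.Lib.AMU.TerI
import Pool.Agent.Lib.AMU.TerI1
import Pool.Agent.Lib.AMU.TerI3
import Pool.Agent.Lib.AMU.TerB

/-!
# Row TI2: the sum over the labels

`tau y` is a linear functional on operators with `tau_one : y ≠ 0 → tau y 1 = 1`; apply it to
`contract_univ`. `term_strandL`, `termS_eq`, exchange the sums over `lab` and `ρ`, `coefL_eq`, `contract_univ` with
`A = objL` (`ncw_objL`, `pts_objL`; `ptL_sorted`, `mem_ptL`), `plvl_eq` to get
`∏ (x first), -dl y (levA x)`, `card_fstp` (the two factors (-1) ^ card cancel), `sum_compat`.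
-/

set_option autoImplicit false

namespace Pool.Agent.AMU.Ter

variable {N r : ℕ} [NeZero N] {opp : ZMod N → ZMod N} {w : Fin r → List (ZMod N)}
  {pos : Fin r → ℕ → ℤ} {m : Fin r → ℕ} {closed : Prop}

private theorem ti2_nodup (hinv : ∀ i, opp (opp i) = i) (hne : ∀ i, opp i ≠ i)
    (hG : GoodWords opp w pos closed) : (ptL opp pos : List (PT w m)).Nodup := by
  refine (ptL_sorted hinv hne hG).imp ?_
  rintro a b h rfl
  exact lt_irrefl _ h

/-- the product over the first points -/
private theorem ti2_prod (hinv : ∀ i, opp (opp i) = i) (hne : ∀ i, opp i ≠ i)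
    (hG : GoodWords opp w pos closed) (y : ℝ) (δ : PT w m → ℤ) :
    (((plvl δ 0 (ptL opp pos : List (PT w m))).filter (fun x => fstp opp pos x.1)).map
      fun x => -dl y x.2).prod = (-1) ^ Fintype.card (ST w m) *
      ∏ x : PT w m, if fstp opp pos x = true then dl y (levA (pkey opp pos) δ x) else 1 := by
  classical
  rw [plvl_eq (pkey opp pos) δ _ (ptL_sorted hinv hne hG) mem_ptL, List.filter_map, List.map_map,
    ← List.prod_toFinset _ ((ti2_nodup hinv hne hG).filter _)]
  have h1 : ((ptL opp pos : List (PT w m)).filter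
      ((fun x : PT w m × ℤ => fstp opp pos x.1) ∘ fun x => (x, levA (pkey opp pos) δ x))).toFinset =
      Finset.univ.filter fun x : PT w m => fstp opp pos x = true := by
    ext x
    rw [List.mem_toFinset, List.mem_filter, Finset.mem_filter]
    simp only [Function.comp, Finset.mem_univ, true_and]
    exact ⟨fun h => h.2, fun h => ⟨mem_ptL x, h⟩⟩
  rw [h1]
  simp only [Function.comp]
  have h2 : ∀ x : PT w m, -dl y (levA (pkey opp pos) δ x) =
      (-1) * dl y (levA (pkey opp pos) δ x) := fun x => by ring
  rw [Finset.prod_congr rfl fun x _ => h2 x, Finset.prod_mul_distrib, Finset.prod_const,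
    card_fstp hinv hG, Finset.prod_filter]

theorem ter_sum (hinv : ∀ i, opp (opp i) = i) (hne : ∀ i, opp i ≠ i)
    (hG : GoodWords opp w pos closed) (y : ℝ) (hy : y ≠ 0) (e : ℤ) :
    ∑ lab : PT w m → Bool,
      coefL opp lab * term opp y e ((strandL opp pos).map (strandOf opp lab)) =
    (∏ j, (wordSign opp (w j) : ℝ) ^ m j) *
      ∑ σ : (Σ j : Fin r, Fin (m j)) → Bool,
        if BalP opp (sst σ : PT w m → ℤ) then wt opp pos y e (sst σ : PT w m → ℤ) else 0 := by
  classical
  set S : ℝ := ∏ j, (wordSign opp (w j) : ℝ) ^ m j with hS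
  set g : (PT w m → ℤ) → ℝ := fun δ => if BalP opp δ then wt opp pos y e δ else 0 with hg
  have key : ∀ ρ : ST w m → Bool, ∑ lab : PT w m → Bool, coefL opp lab *
      termS opp y e ((strandL opp pos).map fun i => (strandOf opp lab i,
        if can opp (letr i) then ρ i else !ρ i)) =
      S * (if ∀ x : PT w m, fstp opp pos x = true → stp ρ (mate x) = !stp ρ x then
        g (fun x => sgn (stp ρ x)) else 0) := by
    intro ρ
    by_cases hb : BalP opp (fun x : PT w m => sgn (stp ρ x))
    swap
    · have h1 : g (fun x => sgn (stp ρ x)) = 0 := by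
        rw [hg]
        simp only
        rw [if_neg hb]
      rw [h1, ite_self, mul_zero]
      refine Finset.sum_eq_zero fun lab _ => ?_
      rw [termS_eq hinv hne hG, if_neg hb, mul_zero]
    · set δ : PT w m → ℤ := fun x => sgn (stp ρ x) with hδ
      set c : ℝ := dl y 0 ^ (e + 1) * ((dl y 0)⁻¹) ^ (canon opp).card *
        (∏ x : PT w m, if can opp (pside opp x) then
          (dl y (levA (pkey opp pos) δ x))⁻¹ else 1) with hc
      have h1 : ∀ lab : PT w m → Bool, coefL opp lab *
          termS opp y e ((strandL opp pos).map fun i => (strandOf opp lab i,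
            if can opp (letr i) then ρ i else !ρ i)) =
          (S * (-1) ^ Fintype.card (ST w m) * c) * tau y
            ((∏ x : PT w m, if fstp opp pos x = true then ep (lab x) (lab (mate x)) else 1) •
              (W y 0 ((ptL opp pos).map fun x => (stp ρ x, lab x)) : Module.End ℝ Fn)) := by
        intro lab
        rw [termS_eq hinv hne hG, if_pos hb, coefL_eq hinv hne hG, map_smul, smul_eq_mul]
        ring
      rw [Finset.sum_congr rfl fun lab _ => h1 lab, ← Finset.mul_sum, ← map_sum]
      have h2 := contract_univ (A := (objL opp pos : List (ZMod N ⊕ PT w m)))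
        (ncw_objL hinv hne hG) (by rw [pts_objL]; exact ti2_nodup hinv hne hG)
        (by intro p; rw [pts_objL]; exact mem_ptL p) y (stp ρ)
      rw [pts_objL] at h2
      rw [h2, map_smul, tau_one hy, smul_eq_mul, mul_one]
      by_cases hcomp : ∀ x : PT w m, fstp opp pos x = true → stp ρ (mate x) = !stp ρ x
      · rw [if_pos hcomp, if_pos hcomp, ti2_prod hinv hne hG]
        have h3 : g δ = wt opp pos y e δ := by
          rw [hg]
          simp only
          rw [if_pos hb]
        rw [h3]
        unfold wt
        have h4 : ((-1 : ℝ)) ^ Fintype.card (ST w m) * (-1) ^ Fintype.card (ST w m) = 1 := by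
          rw [← mul_pow]; norm_num
        rw [hc]
        linear_combination (S * (dl y 0 ^ (e + 1) * ((dl y 0)⁻¹) ^ (canon opp).card *
          (∏ x : PT w m, if can opp (pside opp x) then
            (dl y (levA (pkey opp pos) δ x))⁻¹ else 1)) *
          ∏ x : PT w m, if fstp opp pos x = true then dl y (levA (pkey opp pos) δ x) else 1) * h4
      · rw [if_neg hcomp, if_neg hcomp, mul_zero, mul_zero]
  have h5 : ∀ lab : PT w m → Bool,
      coefL opp lab * term opp y e ((strandL opp pos).map (strandOf opp lab)) =
      ∑ ρ : ST w m → Bool, coefL opp lab *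
        termS opp y e ((strandL opp pos).map fun i => (strandOf opp lab i,
          if can opp (letr i) then ρ i else !ρ i)) := by
    intro lab
    rw [term_strandL hinv hne hG, Finset.mul_sum]
  rw [Finset.sum_congr rfl fun lab _ => h5 lab, Finset.sum_comm,
    Finset.sum_congr rfl fun ρ _ => key ρ, ← Finset.mul_sum]
  congr 1
  exact sum_compat hinv hG g

end Pool.Agent.AMU.Ter
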