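import Pool.Agent.Lib.AMU.TerG2

/-!
# Row TJ: the levels along a closed curve

`levB_mate`: for `x` with `key x < key (mate x)` the points strictly between are permuted by `mate` (noncrossing,
`noncross_mate`), and `δ (mate z) = -δ z`, so their `δ` add up to `0`. The other case follows.
`levB_flp`: the sides are balanced, so `levA x` is the sum of `δ z` over the points `z` of the same side with
`key z ≤ key x`, and `levB (flp x)` is the sum of `δ (flp z)` over `z` on the side of `x` with `key z > key x`
(`pkey_flp_lt`).
-/

set_option autoImplicit false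

namespace Pool.Agent.AMU.Ter

variable {N r : ℕ} [NeZero N] {opp : ZMod N → ZMod N} {w : Fin r → List (ZMod N)}
  {pos : Fin r → ℕ → ℤ} {m : Fin r → ℕ} {closed : Prop}

/-- The level after a point. -/
theorem levA_eq_add {P K : Type} [Fintype P] [LinearOrder K] {key : P → K}
    (hk : Function.Injective key) (δ : P → ℤ) (x : P) : levA key δ x = levB key δ x + δ x := by
  classical
  unfold levA levB
  have h1 : ∀ z, (if key z ≤ key x then δ z else 0) =
      (if key z < key x then δ z else 0) + (if z = x then δ z else 0) := by
    intro z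
    by_cases hz : z = x
    · subst hz; simp
    · have h2 : key z ≤ key x ↔ key z < key x :=
        ⟨fun h => lt_of_le_of_ne h fun h' => hz (hk h'), le_of_lt⟩
      simp [hz, h2]
  rw [Finset.sum_congr rfl fun z _ => h1 z, Finset.sum_add_distrib]
  simp

private theorem levB_mate_aux (hinv : ∀ i, opp (opp i) = i) (hne : ∀ i, opp i ≠ i)
    (hG : GoodWords opp w pos closed) (δ : PT w m → ℤ) (hδ : ∀ x, δ (mate x) = -δ x)
    (x : PT w m) (hx : pkey opp pos x < pkey opp pos (mate x)) :
    levB (pkey opp pos) δ (mate x) = levA (pkey opp pos) δ x := by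
  classical
  have hK := pkey_inj (m := m) hinv hne hG
  have hB : ∀ z : PT w m, (pkey opp pos x < pkey opp pos z ∧ pkey opp pos z < pkey opp pos (mate x)) →
      (pkey opp pos x < pkey opp pos (mate z) ∧
        pkey opp pos (mate z) < pkey opp pos (mate x)) := by
    rintro z ⟨h1, h2⟩
    have hzx : mate z ≠ x := by
      rintro rfl
      rw [mate_mate] at h2
      exact lt_irrefl _ h2
    have hzx' : mate z ≠ mate x := by
      intro h
      have := congrArg mate h
      rw [mate_mate, mate_mate] at this
      rw [this] at h1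
      exact lt_irrefl _ h1
    constructor
    · rcases lt_trichotomy (pkey opp pos x) (pkey opp pos (mate z)) with h | h | h
      · exact h
      · exact absurd (hK h).symm hzx
      · exfalso
        have := noncross_mate hinv hne hG (mate z) x
        rw [mate_mate] at this
        exact this ⟨h, h1, h2⟩
    · rcases lt_trichotomy (pkey opp pos (mate z)) (pkey opp pos (mate x)) with h | h | h
      · exact h
      · exact absurd (hK h) hzx'
      · exact absurd ⟨h1, h2, h⟩ (noncross_mate hinv hne hG x z)
  have hzero : ∑ z, (if pkey opp pos x < pkey opp pos z ∧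
      pkey opp pos z < pkey opp pos (mate x) then δ z else 0) = 0 := by
    have h1 : ∑ z, (if pkey opp pos x < pkey opp pos z ∧
        pkey opp pos z < pkey opp pos (mate x) then δ z else 0) =
        ∑ z, (if pkey opp pos x < pkey opp pos (mate z) ∧
        pkey opp pos (mate z) < pkey opp pos (mate x) then δ (mate z) else 0) := by
      refine (Fintype.sum_equiv ⟨mate, mate, mate_mate, mate_mate⟩ _ _ fun z => ?_)
      show _ = if pkey opp pos x < pkey opp pos (mate (mate z)) ∧
        pkey opp pos (mate (mate z)) < pkey opp pos (mate x) then δ (mate (mate z)) else 0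
      rw [mate_mate]
    have h2 : ∀ z, (if pkey opp pos x < pkey opp pos (mate z) ∧
        pkey opp pos (mate z) < pkey opp pos (mate x) then δ (mate z) else 0) =
        -(if pkey opp pos x < pkey opp pos z ∧
        pkey opp pos z < pkey opp pos (mate x) then δ z else 0) := by
      intro z
      by_cases hz : pkey opp pos x < pkey opp pos z ∧ pkey opp pos z < pkey opp pos (mate x)
      · rw [if_pos hz, if_pos (hB z hz), hδ]
      · rw [if_neg hz, if_neg, neg_zero]
        intro h
        have := hB (mate z) h
        rw [mate_mate] at this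
        exact hz this
    rw [Finset.sum_congr rfl fun z _ => h2 z, Finset.sum_neg_distrib] at h1
    linarith
  have h3 : levB (pkey opp pos) δ (mate x) = levA (pkey opp pos) δ x +
      ∑ z, (if pkey opp pos x < pkey opp pos z ∧
        pkey opp pos z < pkey opp pos (mate x) then δ z else 0) := by
    unfold levB levA
    rw [← Finset.sum_add_distrib]
    refine Finset.sum_congr rfl fun z _ => ?_
    by_cases h1 : pkey opp pos z ≤ pkey opp pos x
    · rw [if_pos h1, if_pos (lt_of_le_of_lt h1 hx), if_neg (fun h => not_lt.2 h1 h.1), add_zero]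
    · rw [if_neg h1]
      have h1' := not_le.1 h1
      by_cases h2 : pkey opp pos z < pkey opp pos (mate x)
      · rw [if_pos h2, if_pos ⟨h1', h2⟩, zero_add]
      · rw [if_neg h2, if_neg (fun h => h2 h.2), add_zero]
  rw [h3, hzero, add_zero]

theorem levB_mate (hinv : ∀ i, opp (opp i) = i) (hne : ∀ i, opp i ≠ i)
    (hG : GoodWords opp w pos closed) (δ : PT w m → ℤ) (hδ : ∀ x, δ (mate x) = -δ x)
    (x : PT w m) : levB (pkey opp pos) δ (mate x) = levA (pkey opp pos) δ x := by
  have hK := pkey_inj (m := m) hinv hne hG
  rcases lt_trichotomy (pkey opp pos x) (pkey opp pos (mate x)) with h | h | h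
  · exact levB_mate_aux hinv hne hG δ hδ x h
  · exfalso
    have := hK h
    exact pside_mate_ne hinv hG x (by rw [← this])
  · have h1 := levB_mate_aux hinv hne hG δ hδ (mate x) (by rw [mate_mate]; exact h)
    rw [mate_mate] at h1
    rw [levA_eq_add hK] at h1
    rw [levA_eq_add hK, h1, hδ]
    ring

omit [NeZero N] in
private theorem pkey_lt_of_side {x z : PT w m}
    (h : (pside opp z).val < (pside opp x).val) : pkey opp pos z < pkey opp pos x := by
  unfold pkey
  rw [Prod.Lex.toLex_lt_toLex]
  exact Or.inl h

/-- The sum over a side. -/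
private theorem lev_side (δ : PT w m → ℤ) (hb : BalP opp δ) (x : PT w m)
    (q : PT w m → Prop) [DecidablePred q]
    (hq1 : ∀ z, (pside opp z).val < (pside opp x).val → q z)
    (hq2 : ∀ z, (pside opp x).val < (pside opp z).val → ¬ q z) :
    ∑ z, (if q z then δ z else 0) =
      ∑ z, (if pside opp z = pside opp x ∧ q z then δ z else 0) := by
  classical
  have h1 : ∀ z, (if q z then δ z else 0) =
      (if pside opp z = pside opp x ∧ q z then δ z else 0) +
      ∑ i : ZMod N, (if i.val < (pside opp x).val then (if pside opp z = i then δ z else 0)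
        else 0) := by
    intro z
    have h2 : ∑ i : ZMod N, (if i.val < (pside opp x).val then
        (if pside opp z = i then δ z else 0) else 0) =
        if (pside opp z).val < (pside opp x).val then δ z else 0 := by
      rw [Finset.sum_eq_single (pside opp z)]
      · simp
      · intro i _ hi
        rw [if_neg (Ne.symm hi), ite_self]
      · intro h; exact absurd (Finset.mem_univ _) h
    rw [h2]
    rcases lt_trichotomy (pside opp z).val (pside opp x).val with h | h | h
    · rw [if_pos (hq1 z h), if_pos h, if_neg, zero_add]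
      rintro ⟨h3, _⟩
      rw [h3] at h
      exact lt_irrefl _ h
    · have h3 : pside opp z = pside opp x := ZMod.val_injective N h
      rw [if_neg (by omega : ¬ (pside opp z).val < (pside opp x).val), add_zero]
      simp [h3]
    · rw [if_neg (hq2 z h), if_neg (by omega : ¬ (pside opp z).val < (pside opp x).val), if_neg,
        add_zero]
      rintro ⟨_, h3⟩
      exact hq2 z h h3
  rw [Finset.sum_congr rfl fun z _ => h1 z, Finset.sum_add_distrib, Finset.sum_comm]
  have h4 : ∑ i : ZMod N, ∑ z : PT w m, (if i.val < (pside opp x).val then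
      (if pside opp z = i then δ z else 0) else 0) = 0 := by
    refine Finset.sum_eq_zero fun i _ => ?_
    by_cases hi : i.val < (pside opp x).val
    · simp only [hi, if_true]
      exact hb i
    · simp [hi]
  rw [h4, add_zero]

theorem levB_flp (hinv : ∀ i, opp (opp i) = i) (hne : ∀ i, opp i ≠ i)
    (hG : GoodWords opp w pos closed) (δ : PT w m → ℤ) (hδ : ∀ x, δ (flp x) = -δ x)
    (hb : BalP opp δ) (x : PT w m) :
    levB (pkey opp pos) δ (flp x) = levA (pkey opp pos) δ x := by
  classical
  have hK := pkey_inj (m := m) hinv hne hG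
  have e1 : levB (pkey opp pos) δ (flp x) = ∑ z, (if pside opp z = pside opp (flp x) ∧
      pkey opp pos z < pkey opp pos (flp x) then δ z else 0) := by
    unfold levB
    refine lev_side δ hb (flp x) (fun z => pkey opp pos z < pkey opp pos (flp x)) ?_ ?_
    · intro z hz; exact pkey_lt_of_side hz
    · intro z hz; exact not_lt.2 (pkey_lt_of_side hz).le
  have e2 : levA (pkey opp pos) δ x = ∑ z, (if pside opp z = pside opp x ∧
      pkey opp pos z ≤ pkey opp pos x then δ z else 0) := by
    unfold levA
    refine lev_side δ hb x (fun z => pkey opp pos z ≤ pkey opp pos x) ?_ ?_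
    · intro z hz; exact (pkey_lt_of_side hz).le
    · intro z hz; exact not_le.2 (pkey_lt_of_side hz)
  have e3 : ∑ z, (if pside opp z = pside opp (flp x) ∧
      pkey opp pos z < pkey opp pos (flp x) then δ z else 0) =
      ∑ z, (if pside opp z = pside opp x ∧ pkey opp pos x < pkey opp pos z then -δ z else 0) := by
    refine (Fintype.sum_equiv ⟨flp, flp, flp_flp, flp_flp⟩ _ _ fun z => ?_)
    show _ = if pside opp (flp z) = pside opp x ∧ pkey opp pos x < pkey opp pos (flp z) then
      -δ (flp z) else 0
    have h1 : pside opp z = pside opp (flp x) ↔ pside opp (flp z) = pside opp x := by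
      rw [pside_flp hinv, pside_flp hinv]
      constructor
      · intro h; rw [h, hinv]
      · intro h; rw [← h, hinv]
    by_cases h2 : pside opp (flp z) = pside opp x
    · have h3 := pkey_flp_lt hinv hne hG (flp z) x h2
      rw [flp_flp] at h3
      rw [hδ, neg_neg]
      by_cases h4 : pkey opp pos x < pkey opp pos (flp z)
      · rw [if_pos ⟨h1.2 h2, h3.2 h4⟩, if_pos ⟨h2, h4⟩]
      · rw [if_neg (fun h => h4 (h3.1 h.2)), if_neg (fun h => h4 h.2)]
    · rw [if_neg (fun h => h2 (h1.1 h.1)), if_neg (fun h => h2 h.1)]
  have e4 := hb (pside opp x)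
  rw [e1, e3, e2]
  have e5 : ∑ z, (if pside opp z = pside opp x then δ z else 0) =
      ∑ z, (if pside opp z = pside opp x ∧ pkey opp pos z ≤ pkey opp pos x then δ z else 0) -
      ∑ z, (if pside opp z = pside opp x ∧ pkey opp pos x < pkey opp pos z then -δ z else 0) := by
    rw [← Finset.sum_sub_distrib]
    refine Finset.sum_congr rfl fun z _ => ?_
    by_cases h1 : pside opp z = pside opp x
    · by_cases h2 : pkey opp pos z ≤ pkey opp pos x
      · simp [h1, h2, not_lt.2 h2]
      · simp [h1, h2, not_le.1 h2]
    · simp [h1]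
  linarith

/-- The level on the left of the word `j` is constant (single strands). -/
theorem exists_lam (hinv : ∀ i, opp (opp i) = i) (hne : ∀ i, opp i ≠ i)
    (hG : GoodWords opp w pos closed) (D : Fin r → ℤ)
    (hb : BalP opp (dst D : PT w (fun _ => 1) → ℤ)) :
    ∃ lam : Fin r → ℤ, ∀ x : PT w (fun _ => 1),
      levA (pkey opp pos) (dst D) x = (if x.2 then lam x.1.1 - D x.1.1 else lam x.1.1) ∧
      levB (pkey opp pos) (dst D) x = (if x.2 then lam x.1.1 else lam x.1.1 - D x.1.1) := by
  have hK := pkey_inj (m := fun _ => 1) hinv hne hG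
  have hmate : ∀ x : PT w (fun _ => 1), dst D (mate x) = -dst D x := by
    rintro ⟨i, b⟩
    cases b <;> simp [dst, mate, nxt, prv]
  have hflp : ∀ x : PT w (fun _ => 1), dst D (flp x) = -dst D x := by
    rintro ⟨i, b⟩
    cases b <;> simp [dst, flp]
  have hA := fun x => levA_eq_add (P := PT w (fun _ => 1)) hK (dst D) x
  have h1 : ∀ i : ST w (fun _ => 1), levB (pkey opp pos) (dst D) (i, true) =
      levB (pkey opp pos) (dst D) (i, false) + D i.1 := by
    intro i
    have := levB_flp hinv hne hG (dst D) hflp hb (i, false)
    rw [hA] at this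
    simpa [flp, dst] using this
  have h2 : ∀ i : ST w (fun _ => 1), levB (pkey opp pos) (dst D) (nxt i, false) =
      levB (pkey opp pos) (dst D) (i, false) := by
    intro i
    have := levB_mate hinv hne hG (dst D) hmate (i, true)
    rw [hA, h1] at this
    simpa [mate, dst] using this
  have h3 : ∀ (j : Fin r) (k : ℕ) (hk : k < (w j).length),
      levB (pkey opp pos) (dst D) ((⟨j, (⟨k, hk⟩, 0)⟩, false) : PT w (fun _ => 1)) =
      levB (pkey opp pos) (dst D)
        ((⟨j, (⟨0, lt_of_le_of_lt (Nat.zero_le _) hk⟩, 0)⟩, false) : PT w (fun _ => 1)) := by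
    intro j k
    induction k with
    | zero => intro hk; rfl
    | succ k ih =>
      intro hk
      have hk' : k < (w j).length := by omega
      have e1 : (⟨j, (⟨k + 1, hk⟩, 0)⟩ : ST w (fun _ => 1)) = nxt ⟨j, (⟨k, hk'⟩, 0)⟩ := by
        simp [nxt, Nat.mod_eq_of_lt hk]
      rw [← ih hk', ← h2 ⟨j, (⟨k, hk'⟩, 0)⟩, e1]
  refine ⟨fun j => levB (pkey opp pos) (dst D) ((⟨j, (⟨0, List.length_pos_iff.2 (hG.ne j)⟩, 0)⟩,
    false) : PT w (fun _ => 1)) + D j, ?_⟩
  have h4 : ∀ i : ST w (fun _ => 1), levB (pkey opp pos) (dst D) (i, false) =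
      levB (pkey opp pos) (dst D) ((⟨i.1, (⟨0, List.length_pos_iff.2 (hG.ne i.1)⟩, 0)⟩,
        false) : PT w (fun _ => 1)) := by
    rintro ⟨j, ⟨k, hk⟩, u⟩
    have hu : u = 0 := Subsingleton.elim _ _
    subst hu
    exact h3 j k hk
  rintro ⟨i, b⟩
  cases b
  · simp only [Bool.false_eq_true, if_false]
    rw [hA, h4]
    simp [dst]
  · simp only [if_true]
    rw [hA, h1, h4]
    simp [dst]

end Pool.Agent.AMU.Ter
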