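import Pool.Agent.Lib.AMU.TerJ

/-!
# Row TJ1: levels in cables

`z = ((j', (k', u')), b')` is before `x = ((j, (k, u)), b)` iff the corresponding points of the diagram with single
strands satisfy `pkey z₁ < pkey x₁`, or `z₁ = x₁` and `u' < u` (`b = true`), `u' > u` (`b = false`) (`pkey_inj`
for `m` and for the single diagram, definition of `pkey`). Sum over `u'` first.
-/

set_option autoImplicit false

namespace Pool.Agent.AMU.Ter

variable {N r : ℕ} [NeZero N] {opp : ZMod N → ZMod N} {w : Fin r → List (ZMod N)}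
  {pos : Fin r → ℕ → ℤ} {m : Fin r → ℕ} {closed : Prop}

/-- The point of the single diagram. -/
def TJ1_one (x : PT w m) : PT w (fun _ => 1) := (⟨x.1.1, (x.1.2.1, 0)⟩, x.2)

omit [NeZero N] in
theorem TJ1_pside (x : PT w m) : pside opp (TJ1_one x) = pside opp x := rfl

omit [NeZero N] in
/-- The points of the cables over the points of the single diagram. -/
theorem TJ1_sum {E : Type} [AddCommMonoid E] (f : PT w m → E) :
    ∑ x, f x = ∑ x₁ : PT w (fun _ => 1), ∑ u : Fin (m x₁.1.1), f (⟨x₁.1.1, (x₁.1.2.1, u)⟩, x₁.2) := by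
  rw [Fintype.sum_prod_type, Fintype.sum_prod_type, Fintype.sum_sigma, Fintype.sum_sigma]
  refine Finset.sum_congr rfl fun j _ => ?_
  rw [Fintype.sum_prod_type, Fintype.sum_prod_type]
  refine Finset.sum_congr rfl fun k _ => ?_
  rw [Finset.sum_comm]
  exact (Fintype.sum_unique (fun _ : Fin 1 => ∑ b : Bool, ∑ u : Fin (m j),
    f (⟨j, (k, u)⟩, b))).symm

private theorem TJ1_lex (a b : ℕ) (c d e f : ℤ) :
    (toLex (a, toLex (c, e)) : ℕ ×ₗ ℤ ×ₗ ℤ) ≤ toLex (b, toLex (d, f)) ↔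
      (toLex (a, toLex (c, (0 : ℤ))) : ℕ ×ₗ ℤ ×ₗ ℤ) < toLex (b, toLex (d, (0 : ℤ))) ∨
      ((toLex (a, toLex (c, (0 : ℤ))) : ℕ ×ₗ ℤ ×ₗ ℤ) = toLex (b, toLex (d, (0 : ℤ))) ∧ e ≤ f) := by
  simp only [Prod.Lex.toLex_le_toLex, Prod.Lex.toLex_lt_toLex, EmbeddingLike.apply_eq_iff_eq,
    Prod.mk.injEq, lt_irrefl, and_false, or_false, and_true]
  tauto

omit [NeZero N] in
theorem TJ1_key (x z : PT w m) : pkey opp pos z ≤ pkey opp pos x ↔
    pkey opp pos (TJ1_one z) < pkey opp pos (TJ1_one x) ∨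
      (pkey opp pos (TJ1_one z) = pkey opp pos (TJ1_one x) ∧
        (if z.2 then (z.1.2.2.val : ℤ) else -(z.1.2.2.val : ℤ)) ≤
          (if x.2 then (x.1.2.2.val : ℤ) else -(x.1.2.2.val : ℤ))) := by
  have e1 : ∀ y : PT w m, pkey opp pos y = toLex ((pside opp y).val,
    toLex (if can opp (pside opp y) then pos y.1.1 y.1.2.1.val else -pos y.1.1 y.1.2.1.val,
      if y.2 then (y.1.2.2.val : ℤ) else -(y.1.2.2.val : ℤ))) := fun _ => rfl
  have e2 : ∀ y : PT w m, pkey opp pos (TJ1_one y) = toLex ((pside opp y).val,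
    toLex (if can opp (pside opp y) then pos y.1.1 y.1.2.1.val else -pos y.1.1 y.1.2.1.val,
      (0 : ℤ))) := by
    intro y
    unfold pkey
    rw [TJ1_pside]
    simp [TJ1_one]
  rw [e1, e1, e2, e2]
  exact TJ1_lex _ _ _ _ _ _

theorem balP_cab (σ : (Σ j : Fin r, Fin (m j)) → Bool) :
    BalP opp (sst σ : PT w m → ℤ) ↔ BalP opp (dst (Dsum σ) : PT w (fun _ => 1) → ℤ) := by
  unfold BalP
  refine forall_congr' fun i => ?_
  rw [TJ1_sum]
  have h : ∀ x₁ : PT w (fun _ => 1), ∑ u : Fin (m x₁.1.1),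
      (if pside opp ((⟨x₁.1.1, (x₁.1.2.1, u)⟩, x₁.2) : PT w m) = i then
        sst σ ((⟨x₁.1.1, (x₁.1.2.1, u)⟩, x₁.2) : PT w m) else 0) =
      if pside opp x₁ = i then dst (Dsum σ) x₁ else 0 := by
    rintro ⟨⟨j, k, u0⟩, b⟩
    have hps : ∀ u, pside opp ((⟨j, (k, u)⟩, b) : PT w m) =
        pside opp ((⟨j, (k, u0)⟩, b) : PT w (fun _ => 1)) := fun _ => rfl
    simp only [hps]
    by_cases hi : pside opp ((⟨j, (k, u0)⟩, b) : PT w (fun _ => 1)) = i
    · simp only [hi, if_true]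
      cases b
      · simp [sst, dst, Dsum]
      · simp [sst, dst, Dsum]
    · simp [hi]
  rw [Finset.sum_congr rfl fun x₁ _ => h x₁]

theorem levA_cab (hinv : ∀ i, opp (opp i) = i) (hne : ∀ i, opp i ≠ i)
    (hG : GoodWords opp w pos closed) (σ : (Σ j : Fin r, Fin (m j)) → Bool) (x : PT w m) :
    levA (pkey opp pos) (sst σ) x =
      levB (pkey opp pos) (dst (Dsum σ)) ((⟨x.1.1, (x.1.2.1, 0)⟩, x.2) : PT w (fun _ => 1)) +
      (if x.2 then -∑ u : Fin (m x.1.1), (if u ≤ x.1.2.2 then sgn (σ ⟨x.1.1, u⟩) else 0)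
        else ∑ u : Fin (m x.1.1), (if x.1.2.2 ≤ u then sgn (σ ⟨x.1.1, u⟩) else 0)) := by
  classical
  have hK := pkey_inj (m := fun _ => 1) hinv hne hG
  obtain ⟨⟨j, k, u⟩, b⟩ := x
  unfold levA levB
  rw [TJ1_sum]
  have h : ∀ x₁ : PT w (fun _ => 1), ∑ u' : Fin (m x₁.1.1),
      (if pkey opp pos ((⟨x₁.1.1, (x₁.1.2.1, u')⟩, x₁.2) : PT w m) ≤
          pkey opp pos ((⟨j, (k, u)⟩, b) : PT w m) then
        sst σ ((⟨x₁.1.1, (x₁.1.2.1, u')⟩, x₁.2) : PT w m) else 0) =
      (if pkey opp pos x₁ < pkey opp pos ((⟨j, (k, 0)⟩, b) : PT w (fun _ => 1)) then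
        dst (Dsum σ) x₁ else 0) +
      (if x₁ = ((⟨j, (k, 0)⟩, b) : PT w (fun _ => 1)) then
        (if b then -∑ u' : Fin (m j), (if u' ≤ u then sgn (σ ⟨j, u'⟩) else 0)
        else ∑ u' : Fin (m j), (if u ≤ u' then sgn (σ ⟨j, u'⟩) else 0)) else 0) := by
    rintro ⟨⟨j', k', u0⟩, b'⟩
    have hu0 : u0 = 0 := Subsingleton.elim _ _
    subst hu0
    simp only [TJ1_key]
    have e1 : ∀ u', TJ1_one ((⟨j', (k', u')⟩, b') : PT w m) = (⟨j', (k', 0)⟩, b') := fun _ => rfl
    have e2 : TJ1_one ((⟨j, (k, u)⟩, b) : PT w m) = (⟨j, (k, 0)⟩, b) := rfl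
    simp only [e1, e2]
    by_cases heq : ((⟨j', (k', 0)⟩, b') : PT w (fun _ => 1)) = (⟨j, (k, 0)⟩, b)
    · have hj : j' = j := by
        have := congrArg (fun y : PT w (fun _ => 1) => y.1.1) heq
        exact this
      subst hj
      have hb : b' = b := congrArg (fun y : PT w (fun _ => 1) => y.2) heq
      subst hb
      have hk : k' = k := by
        have h5 := (Prod.mk.inj heq).1
        have h6 := eq_of_heq (Sigma.mk.inj h5).2
        exact (Prod.mk.inj h6).1
      subst hk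
      simp only [lt_irrefl, false_or, true_and, if_false, zero_add, if_true]
      cases b'
      · simp only [Bool.false_eq_true, if_false, sst]
        refine Finset.sum_congr rfl fun u' _ => ?_
        have h6 : -((u' : ℕ) : ℤ) ≤ -((u : ℕ) : ℤ) ↔ u ≤ u' := by
          rw [neg_le_neg_iff, Fin.le_def]
          exact_mod_cast Iff.rfl
        simp [h6]
      · simp only [if_true, sst]
        rw [← Finset.sum_neg_distrib]
        refine Finset.sum_congr rfl fun u' _ => ?_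
        have h6 : ((u' : ℕ) : ℤ) ≤ ((u : ℕ) : ℤ) ↔ u' ≤ u := by
          rw [Fin.le_def]
          exact_mod_cast Iff.rfl
        by_cases h7 : u' ≤ u
        · simp [h6, h7]
        · simp [h6, h7]
    · have hkne : pkey opp pos ((⟨j', (k', 0)⟩, b') : PT w (fun _ => 1)) ≠
          pkey opp pos ((⟨j, (k, 0)⟩, b) : PT w (fun _ => 1)) := fun h => heq (hK h)
      rw [if_neg heq, add_zero]
      simp only [hkne, false_and, or_false]
      by_cases hlt : pkey opp pos ((⟨j', (k', 0)⟩, b') : PT w (fun _ => 1)) <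
          pkey opp pos ((⟨j, (k, 0)⟩, b) : PT w (fun _ => 1))
      · simp only [hlt, if_true]
        cases b'
        · simp [sst, dst, Dsum]
        · simp [sst, dst, Dsum]
      · simp [hlt]
  rw [Finset.sum_congr rfl fun x₁ _ => h x₁, Finset.sum_add_distrib]
  congr 1
  rw [Finset.sum_ite_eq' Finset.univ]
  simp

end Pool.Agent.AMU.Ter
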