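import Pool.Agent.Lib.AMU.Ops

/-!
# Row TJ3: the product over a cable

With `L t = lam - ∑_(v < t) τ v`, `t = 0 .. n`: the first product is `∏_(t = 1..n) dl y (L t)`, the second one is
`∏_(t = 0..n-1) dl y (L t)` (all sums over `v : Fin n` with conditions; `Finset.prod_range_succ`,
`Finset.prod_range_succ'`, `Fin.prod_univ_eq_prod_range`); `dl y t ≠ 0` by `dl_ne`.
-/

set_option autoImplicit false

namespace Pool.Agent.AMU.Ter

private theorem TJ3_succ {n : ℕ} (τ : Fin n → ℤ) (u : Fin n) :
    (∑ v : Fin n, if v ≤ u then τ v else 0) = ∑ v : Fin n, if v.val < u.val + 1 then τ v else 0 := by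
  refine Finset.sum_congr rfl fun v _ => ?_
  by_cases h : v ≤ u
  · rw [if_pos h, if_pos (Nat.lt_succ_of_le h)]
  · rw [if_neg h, if_neg (fun h2 => h (Nat.le_of_lt_succ h2))]

private theorem TJ3_split {n : ℕ} (τ : Fin n → ℤ) (u : Fin n) :
    (∑ v : Fin n, if u ≤ v then τ v else 0) =
      ∑ v, τ v - ∑ v : Fin n, if v.val < u.val then τ v else 0 := by
  rw [← Finset.sum_sub_distrib]
  refine Finset.sum_congr rfl fun v _ => ?_
  by_cases h : u ≤ v
  · have h2 : ¬ v.val < u.val := not_lt.2 h
    rw [if_pos h, if_neg h2, sub_zero]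
  · have h2 : v.val < u.val := not_le.1 h
    rw [if_neg h, if_pos h2, sub_self]

/-- The product over a cable. -/
theorem prod_cable {n : ℕ} (y : ℝ) (hy : ∀ k : ℤ, y ≠ k) (lam : ℤ) (τ : Fin n → ℤ) :
    (∏ u : Fin n, dl y (lam - ∑ v : Fin n, if v ≤ u then τ v else 0) =
      (∏ t ∈ Finset.range (n + 1), dl y (lam - ∑ v : Fin n, if v.val < t then τ v else 0)) /
        dl y lam) ∧
    (∏ u : Fin n, dl y (lam - ∑ v, τ v + ∑ v : Fin n, if u ≤ v then τ v else 0) =
      (∏ t ∈ Finset.range (n + 1), dl y (lam - ∑ v : Fin n, if v.val < t then τ v else 0)) /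
        dl y (lam - ∑ v, τ v)) := by
  constructor
  · rw [eq_div_iff (dl_ne hy _), Finset.prod_range_succ']
    have h0 : (lam - ∑ v : Fin n, if v.val < 0 then τ v else 0) = lam := by simp
    rw [h0]
    congr 1
    rw [← Fin.prod_univ_eq_prod_range
      (fun t => dl y (lam - ∑ v : Fin n, if v.val < t + 1 then τ v else 0)) n]
    refine Finset.prod_congr rfl fun u _ => ?_
    rw [TJ3_succ]
  · rw [eq_div_iff (dl_ne hy _), Finset.prod_range_succ]
    have h0 : (lam - ∑ v : Fin n, if v.val < n then τ v else 0) = lam - ∑ v, τ v := by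
      congr 1
      exact Finset.sum_congr rfl fun v _ => if_pos v.2
    rw [h0]
    congr 1
    rw [← Fin.prod_univ_eq_prod_range
      (fun t => dl y (lam - ∑ v : Fin n, if v.val < t then τ v else 0)) n]
    refine Finset.prod_congr rfl fun u _ => ?_
    rw [TJ3_split]
    congr 1
    ring

end Pool.Agent.AMU.Ter
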