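import Pool.Agent.Lib.AMU.TerJ1
import Pool.Agent.Lib.AMU.TerJ3

/-!
# Row TJ2: the weight of the cables

With `ell j t = lam j - ∑_(u < t) sgn σ(j, u)` (`t = 0 .. m j`, `lam` from `exists_lam`) and
`G j = ∏_(t = 0..m j) dl y (ell j t)` one has for every point `x₁` of the single diagram
`∏_u dl y (levA (x₁, u)) = G j / dl y (levB x₁)` (`levA_cab`, `prod_cable`), for `m j = 0` too; hence the product over
the canonical points of the inverses and the product over the first points differ from those of the single diagram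
by `∏_j (G j / (dl y (lam j) * dl y (lam j - D j))) ^ (∓ length (w j))` (every word `j` has `length (w j)` canonical
points, one for each letter, and `length (w j)` first points, one for each chord, in the single diagram;
`levA x₁`, `levB x₁` are `lam j`, `lam j - D j` in some order).
-/

set_option autoImplicit false

namespace Pool.Agent.AMU.Ter

variable {N r : ℕ} [NeZero N] {opp : ZMod N → ZMod N} {w : Fin r → List (ZMod N)}
  {pos : Fin r → ℕ → ℤ} {m : Fin r → ℕ} {closed : Prop}

omit [NeZero N] in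
private theorem TJ2_prod {E : Type} [CommMonoid E] (f : PT w m → E) :
    ∏ x, f x = ∏ x₁ : PT w (fun _ => 1), ∏ u : Fin (m x₁.1.1), f (⟨x₁.1.1, (x₁.1.2.1, u)⟩, x₁.2) :=
  TJ1_sum (E := Additive E) f

private theorem TJ2_fst (hinv : ∀ i, opp (opp i) = i) (hG : GoodWords opp w pos closed)
    (x : PT w m) : fstp opp pos x = true ↔ fstp opp pos (TJ1_one x) = true := by
  have key : ∀ {m' : Fin r → ℕ} (x : PT w m'), fstp opp pos x = true ↔
      (pside opp x).val < (pside opp (mate x)).val := by
    intro m' x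
    unfold fstp
    rw [decide_eq_true_iff]
    have hne' : (pside opp x).val ≠ (pside opp (mate x)).val := fun h =>
      pside_mate_ne hinv hG x (ZMod.val_injective N h).symm
    unfold pkey
    rw [Prod.Lex.toLex_lt_toLex]
    constructor
    · rintro (h | ⟨h, _⟩)
      · exact h
      · exact absurd h hne'
    · intro h; exact Or.inl h
  rw [key, key]
  have h1 : pside opp (mate (TJ1_one x)) = pside opp (mate x) := by
    obtain ⟨i, b⟩ := x
    cases b <;> rfl
  rw [h1, TJ1_pside]

/-- One canonical point for each letter. -/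
private theorem TJ2_can (hinv : ∀ i, opp (opp i) = i) (hne : ∀ i, opp i ≠ i) (c : Fin r → ℝ) :
    ∏ x : PT w (fun _ => 1), (if can opp (pside opp x) then c x.1.1 else 1) =
      ∏ i : ST w (fun _ => 1), c i.1 := by
  rw [Fintype.prod_prod_type]
  refine Finset.prod_congr rfl fun i _ => ?_
  rw [Fintype.prod_bool]
  have e1 : pside opp ((i, true) : PT w (fun _ => 1)) = opp (letr i) := rfl
  have e2 : pside opp ((i, false) : PT w (fun _ => 1)) = letr i := rfl
  rw [e1, e2]
  unfold can
  rw [hinv]
  have hne' : (letr i).val ≠ (opp (letr i)).val := fun h =>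
    hne _ (ZMod.val_injective N h).symm
  rcases lt_or_gt_of_ne hne' with h | h
  · rw [if_neg (by omega), if_pos h, one_mul]
  · rw [if_pos h, if_neg (by omega), mul_one]

/-- One first point for each chord. -/
private theorem TJ2_chord (hinv : ∀ i, opp (opp i) = i) (hne : ∀ i, opp i ≠ i)
    (hG : GoodWords opp w pos closed) (c : Fin r → ℝ) :
    ∏ x : PT w (fun _ => 1), (if fstp opp pos x = true then c x.1.1 else 1) =
      ∏ i : ST w (fun _ => 1), c i.1 := by
  have hK := pkey_inj (m := fun _ => 1) hinv hne hG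
  rw [Fintype.prod_prod_type]
  simp only [Fintype.prod_bool]
  rw [Finset.prod_mul_distrib]
  have h1 : ∏ i : ST w (fun _ => 1),
      (if fstp opp pos ((i, false) : PT w (fun _ => 1)) = true then c i.1 else 1) =
      ∏ i : ST w (fun _ => 1),
      (if fstp opp pos ((nxt i, false) : PT w (fun _ => 1)) = true then c i.1 else 1) := by
    refine Fintype.prod_equiv ⟨prv, nxt, nxt_prv, prv_nxt⟩ _ _ fun i => ?_
    show _ = if fstp opp pos ((nxt (prv i), false) : PT w (fun _ => 1)) = true then
      c (prv i).1 else 1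
    rw [nxt_prv]
    rfl
  rw [h1, ← Finset.prod_mul_distrib]
  refine Finset.prod_congr rfl fun i _ => ?_
  have e1 : mate ((i, true) : PT w (fun _ => 1)) = (nxt i, false) := rfl
  have e2 : mate ((nxt i, false) : PT w (fun _ => 1)) = (i, true) := by
    rw [← e1, mate_mate]
  unfold fstp
  rw [e1, e2]
  have hne' : pkey opp pos ((i, true) : PT w (fun _ => 1)) ≠
      pkey opp pos ((nxt i, false) : PT w (fun _ => 1)) := by
    intro h
    have := hK h
    have h2 : true = false := congrArg Prod.snd this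
    exact absurd h2 (by decide)
  rcases lt_or_gt_of_ne hne' with h | h
  · rw [if_pos (decide_eq_true h), if_neg (by simpa using h.le), mul_one]
  · rw [if_neg (by simpa using h.le), if_pos (decide_eq_true h), one_mul]

theorem wt_cab (hinv : ∀ i, opp (opp i) = i) (hne : ∀ i, opp i ≠ i)
    (hG : GoodWords opp w pos closed) (y : ℝ) (hy : ∀ k : ℤ, y ≠ k) (e : ℤ)
    (σ : (Σ j : Fin r, Fin (m j)) → Bool)
    (hb : BalP opp (dst (Dsum σ) : PT w (fun _ => 1) → ℤ)) :
    wt opp pos y e (sst σ : PT w m → ℤ) =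
      wt opp pos y e (dst (Dsum σ) : PT w (fun _ => 1) → ℤ) := by
  classical
  obtain ⟨lam, hlam⟩ := exists_lam hinv hne hG (Dsum σ) hb
  set G : Fin r → ℝ := fun j => ∏ t ∈ Finset.range (m j + 1),
    dl y (lam j - ∑ v : Fin (m j), if v.val < t then sgn (σ ⟨j, v⟩) else 0) with hGdef
  set H : Fin r → ℝ := fun j => dl y (lam j) * dl y (lam j - Dsum σ j) with hHdef
  have hdl : ∀ s, dl y s ≠ 0 := dl_ne hy
  have hH0 : ∀ j, H j ≠ 0 := fun j => mul_ne_zero (hdl _) (hdl _)
  have hG0 : ∀ j, G j ≠ 0 := fun j => Finset.prod_ne_zero_iff.2 fun _ _ => hdl _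
  -- the product over a cable
  have hcab : ∀ x₁ : PT w (fun _ => 1), ∏ u : Fin (m x₁.1.1),
      dl y (levA (pkey opp pos) (sst σ) ((⟨x₁.1.1, (x₁.1.2.1, u)⟩, x₁.2) : PT w m)) =
      G x₁.1.1 / H x₁.1.1 * dl y (levA (pkey opp pos) (dst (Dsum σ)) x₁) := by
    rintro ⟨⟨j, k, u0⟩, b⟩
    have hu0 : u0 = 0 := Subsingleton.elim _ _
    subst hu0
    obtain ⟨l1, l2⟩ := hlam ((⟨j, (k, 0)⟩, b) : PT w (fun _ => 1))
    obtain ⟨p1, p2⟩ := prod_cable y hy (lam j) (fun v : Fin (m j) => sgn (σ ⟨j, v⟩))
    have hlev : ∀ u : Fin (m j), levA (pkey opp pos) (sst σ) ((⟨j, (k, u)⟩, b) : PT w m) =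
        levB (pkey opp pos) (dst (Dsum σ)) ((⟨j, (k, 0)⟩, b) : PT w (fun _ => 1)) +
        (if b then -∑ v : Fin (m j), (if v ≤ u then sgn (σ ⟨j, v⟩) else 0)
          else ∑ v : Fin (m j), (if u ≤ v then sgn (σ ⟨j, v⟩) else 0)) := fun u =>
      levA_cab hinv hne hG σ ((⟨j, (k, u)⟩, b) : PT w m)
    simp only [hlev]
    rw [l1]
    simp only [l2]
    have hD : Dsum σ j = ∑ v : Fin (m j), sgn (σ ⟨j, v⟩) := rfl
    cases b
    · simp only [Bool.false_eq_true, if_false]
      rw [← hD] at p2
      rw [p2]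
      show G j / dl y (lam j - Dsum σ j) = G j / H j * dl y (lam j)
      rw [hHdef]
      have := hdl (lam j)
      have := hdl (lam j - Dsum σ j)
      field_simp
    · simp only [if_true, ← sub_eq_add_neg]
      rw [p1]
      show G j / dl y (lam j) = G j / H j * dl y (lam j - Dsum σ j)
      rw [hHdef]
      have := hdl (lam j)
      have := hdl (lam j - Dsum σ j)
      field_simp
  have hprod : ∀ (P : PT w (fun _ => 1) → Prop) [DecidablePred P],
      ∏ x : PT w m, (if P (TJ1_one x) then dl y (levA (pkey opp pos) (sst σ) x) else 1) =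
      (∏ x : PT w (fun _ => 1), (if P x then G x.1.1 / H x.1.1 else 1)) *
      ∏ x : PT w (fun _ => 1),
        (if P x then dl y (levA (pkey opp pos) (dst (Dsum σ)) x) else 1) := by
    intro P _
    rw [TJ2_prod, ← Finset.prod_mul_distrib]
    refine Finset.prod_congr rfl fun x₁ _ => ?_
    have h1 : ∀ u : Fin (m x₁.1.1),
        TJ1_one ((⟨x₁.1.1, (x₁.1.2.1, u)⟩, x₁.2) : PT w m) = x₁ := by
      intro u
      obtain ⟨⟨j, k, u0⟩, b⟩ := x₁
      have hu0 : u0 = 0 := Subsingleton.elim _ _
      subst hu0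
      rfl
    simp only [h1]
    by_cases hP : P x₁
    · simp only [hP, if_true]
      exact hcab x₁
    · simp only [hP, if_false, Finset.prod_const_one, mul_one]
  have hcan := hprod (fun x => can opp (pside opp x))
  have hfst := hprod (fun x => fstp opp pos x = true)
  rw [TJ2_can hinv hne (fun j => G j / H j)] at hcan
  rw [TJ2_chord hinv hne hG (fun j => G j / H j)] at hfst
  have hR : ∏ i : ST w (fun _ => 1), G i.1 / H i.1 ≠ 0 :=
    Finset.prod_ne_zero_iff.2 fun i _ => div_ne_zero (hG0 _) (hH0 _)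
  have e1 : ∏ x : PT w m, (if can opp (pside opp x) then
      (dl y (levA (pkey opp pos) (sst σ) x))⁻¹ else 1) =
      (∏ x : PT w m, (if can opp (pside opp (TJ1_one x)) then
        dl y (levA (pkey opp pos) (sst σ) x) else 1))⁻¹ := by
    rw [← Finset.prod_inv_distrib]
    refine Finset.prod_congr rfl fun x _ => ?_
    rw [TJ1_pside]
    split_ifs
    · rfl
    · exact inv_one.symm
  have e2 : ∏ x : PT w (fun _ => 1), (if can opp (pside opp x) then
      (dl y (levA (pkey opp pos) (dst (Dsum σ)) x))⁻¹ else 1) =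
      (∏ x : PT w (fun _ => 1), (if can opp (pside opp x) then
        dl y (levA (pkey opp pos) (dst (Dsum σ)) x) else 1))⁻¹ := by
    rw [← Finset.prod_inv_distrib]
    refine Finset.prod_congr rfl fun x _ => ?_
    split_ifs
    · rfl
    · exact inv_one.symm
  have e3 : ∏ x : PT w m, (if fstp opp pos x = true then
      dl y (levA (pkey opp pos) (sst σ) x) else 1) =
      ∏ x : PT w m, (if fstp opp pos (TJ1_one x) = true then
        dl y (levA (pkey opp pos) (sst σ) x) else 1) := by
    refine Finset.prod_congr rfl fun x _ => ?_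
    simp only [TJ2_fst hinv hG x]
  unfold wt
  rw [e1, e2, e3, hcan, hfst]
  rw [mul_inv]
  field_simp

end Pool.Agent.AMU.Ter
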