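import Pool.Agent.Lib.AMU.TerDefs

/-!
# Row TK: counting sign patterns

For every `j` the number of `τ : Fin (m j) → Bool` with `∑ u, sgn (τ u) = d` is (m j).choose ((m j + d) / 2) if
`m j + d` is even and `|d| ≤ m j` (number of subsets with (m j + d) / 2 elements), and `0` otherwise.
-/

set_option autoImplicit false

namespace Pool.Agent.AMU.Ter

private theorem tk_sgn {n : ℕ} (τ : Fin n → Bool) :
    ∑ u, sgn (τ u) = 2 * ((Finset.univ.filter fun u => τ u = true).card : ℤ) - n := by
  have h1 : ∀ u, sgn (τ u) = 2 * (if τ u = true then (1 : ℤ) else 0) - 1 := by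
    intro u
    unfold sgn
    cases τ u <;> simp
  rw [Finset.sum_congr rfl fun u _ => h1 u, Finset.sum_sub_distrib, ← Finset.mul_sum,
    Finset.sum_boole]
  simp

private theorem tk_card (n k : ℕ) :
    (Finset.univ.filter fun τ : Fin n → Bool =>
      (Finset.univ.filter fun u => τ u = true).card = k).card = n.choose k := by
  classical
  have h1 : (Finset.powersetCard k (Finset.univ : Finset (Fin n))).card = n.choose k := by
    rw [Finset.card_powersetCard, Finset.card_univ, Fintype.card_fin]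
  rw [← h1]
  refine Finset.card_nbij' (fun τ => Finset.univ.filter fun u => τ u = true)
    (fun s => fun u => decide (u ∈ s)) ?_ ?_ ?_ ?_
  · intro τ hτ
    rw [Finset.mem_coe, Finset.mem_filter] at hτ
    rw [Finset.mem_coe, Finset.mem_powersetCard]
    exact ⟨Finset.subset_univ _, hτ.2⟩
  · intro s hs
    rw [Finset.mem_coe, Finset.mem_powersetCard] at hs
    rw [Finset.mem_coe, Finset.mem_filter]
    refine ⟨Finset.mem_univ _, ?_⟩
    rw [← hs.2]
    congr 1
    ext u
    simp
  · intro τ _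
    funext u
    simp
  · intro s _
    ext u
    simp

private theorem tk_count (n : ℕ) (d : ℤ) (h1 : -(n : ℤ) ≤ d) :
    ((Finset.univ.filter fun τ : Fin n → Bool => ∑ u, sgn (τ u) = d).card : ℝ) =
      if Even ((n : ℤ) + d) then (n.choose (((n : ℤ) + d) / 2).toNat : ℝ) else 0 := by
  split_ifs with he
  · obtain ⟨k, hk⟩ := he
    have hk0 : 0 ≤ k := by omega
    obtain ⟨k', rfl⟩ := Int.eq_ofNat_of_zero_le hk0
    have h2 : (((n : ℤ) + d) / 2).toNat = k' := by omega
    rw [h2, ← tk_card n k']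
    congr 2
    ext τ
    rw [Finset.mem_filter, Finset.mem_filter, tk_sgn]
    constructor
    · rintro ⟨h, h3⟩
      exact ⟨h, by omega⟩
    · rintro ⟨h, h3⟩
      exact ⟨h, by omega⟩
  · rw [Nat.cast_eq_zero, Finset.card_eq_zero, Finset.filter_eq_empty_iff]
    intro τ _ h3
    rw [tk_sgn] at h3
    apply he
    exact ⟨((Finset.univ.filter fun u => τ u = true).card : ℤ), by omega⟩

private theorem tk_bound {n : ℕ} (τ : Fin n → Bool) :
    ∑ u, sgn (τ u) ∈ Finset.Icc (-(n : ℤ)) n := by
  rw [Finset.mem_Icc, tk_sgn]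
  have h1 : (Finset.univ.filter fun u => τ u = true).card ≤ n := by
    have := Finset.card_filter_le (Finset.univ : Finset (Fin n)) (fun u => τ u = true)
    rwa [Finset.card_univ, Fintype.card_fin] at this
  constructor <;> omega

theorem ter_binom {r : ℕ} (m : Fin r → ℕ) (f : (Fin r → ℤ) → ℝ) :
    ∑ σ : (Σ j : Fin r, Fin (m j)) → Bool, f (Dsum σ) =
      ∑ d ∈ Fintype.piFinset (fun j => Finset.Icc (-(m j : ℤ)) (m j)),
        (∏ j, if Even ((m j : ℤ) + d j) then ((m j).choose (((m j : ℤ) + d j) / 2).toNat : ℝ)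
          else 0) * f d := by
  classical
  have hmem : ∀ σ : (Σ j : Fin r, Fin (m j)) → Bool,
      Dsum σ ∈ Fintype.piFinset (fun j => Finset.Icc (-(m j : ℤ)) (m j)) := by
    intro σ
    rw [Fintype.mem_piFinset]
    intro j
    exact tk_bound fun u => σ ⟨j, u⟩
  rw [← Finset.sum_fiberwise_of_maps_to (s := Finset.univ)
    (t := Fintype.piFinset (fun j => Finset.Icc (-(m j : ℤ)) (m j))) (g := fun σ => Dsum σ)
    (fun σ _ => hmem σ)]
  refine Finset.sum_congr rfl fun d hd => ?_
  rw [Fintype.mem_piFinset] at hd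
  have h1 : ∑ σ ∈ Finset.univ.filter (fun σ : (Σ j : Fin r, Fin (m j)) → Bool => Dsum σ = d),
      f (Dsum σ) = ((Finset.univ.filter
        (fun σ : (Σ j : Fin r, Fin (m j)) → Bool => Dsum σ = d)).card : ℝ) * f d := by
    rw [Finset.sum_congr rfl (g := fun _ => f d), Finset.sum_const, nsmul_eq_mul]
    intro σ hσ
    rw [(Finset.mem_filter.1 hσ).2]
  rw [h1]
  congr 1
  have h2 : ∀ j, (if Even ((m j : ℤ) + d j) then
      ((m j).choose (((m j : ℤ) + d j) / 2).toNat : ℝ) else 0) =
      ((Finset.univ.filter fun τ : Fin (m j) → Bool => ∑ u, sgn (τ u) = d j).card : ℝ) :=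
    fun j => (tk_count (m j) (d j) (Finset.mem_Icc.1 (hd j)).1).symm
  rw [Finset.prod_congr rfl fun j _ => h2 j, ← Nat.cast_prod, ← Fintype.card_piFinset]
  congr 1
  refine Finset.card_nbij' (fun σ => fun j u => σ ⟨j, u⟩) (fun τ => fun x => τ x.1 x.2) ?_ ?_ ?_ ?_
  · intro σ hσ
    rw [Finset.mem_coe, Finset.mem_filter] at hσ
    rw [Finset.mem_coe, Fintype.mem_piFinset]
    intro j
    rw [Finset.mem_filter]
    refine ⟨Finset.mem_univ _, ?_⟩
    exact congrFun hσ.2 j
  · intro τ hτ
    rw [Finset.mem_coe, Fintype.mem_piFinset] at hτ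
    rw [Finset.mem_coe, Finset.mem_filter]
    refine ⟨Finset.mem_univ _, ?_⟩
    funext j
    exact (Finset.mem_filter.1 (hτ j)).2
  · intro σ _
    rfl
  · intro τ _
    rfl

end Pool.Agent.AMU.Ter
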