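import Pool.Agent.Lib.AMU.TerI1

/-!
# Row TL: the exponents of the weight

`wt_eq_prod`: group the factors of `wt` by the level `levA x ∈ lvS` (`Finset.prod_fiberwise`-type lemmas), the factor
`dl y 0 ^ (e + 1) * ((dl y 0)⁻¹) ^ card` belongs to `t = 0`. `ex_sum`: the number of first points is the number of
strands (`card_fstp`), and so is the number of points on canonical sides (one end of every strand). `ex_zero`: all
levels are `0` for `D = 0`.
-/

set_option autoImplicit false

namespace Pool.Agent.AMU.Ter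

variable {N r : ℕ} [NeZero N] {opp : ZMod N → ZMod N} {w : Fin r → List (ZMod N)}
  {pos : Fin r → ℕ → ℤ} {closed : Prop}

omit [NeZero N] in
private theorem TL_fib (c : ℤ → ℝ) (S : Finset (PT w (fun _ => 1)))
    (L : PT w (fun _ => 1) → ℤ) (T : Finset ℤ) (hT : ∀ x ∈ S, L x ∈ T) :
    ∏ x ∈ S, c (L x) = ∏ t ∈ T, c t ^ (S.filter fun x => L x = t).card := by
  rw [← Finset.prod_fiberwise_of_maps_to hT]
  refine Finset.prod_congr rfl fun t _ => ?_
  rw [Finset.prod_congr rfl (g := fun _ => c t), Finset.prod_const]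
  intro x hx
  rw [(Finset.mem_filter.1 hx).2]

omit [NeZero N] in
private theorem TL_fibsum (S : Finset (PT w (fun _ => 1)))
    (L : PT w (fun _ => 1) → ℤ) (T : Finset ℤ) (hT : ∀ x ∈ S, L x ∈ T) :
    ∑ t ∈ T, ((S.filter fun x => L x = t).card : ℤ) = S.card := by
  rw [Finset.card_eq_sum_card_fiberwise hT]
  push_cast
  rfl

omit [NeZero N] in
private theorem TL_mem (D : Fin r → ℤ) (x : PT w (fun _ => 1)) :
    levA (pkey opp pos) (dst D) x ∈ lvS opp pos w D := by
  unfold lvS
  exact Finset.mem_insert_of_mem (Finset.mem_image_of_mem _ (Finset.mem_univ x))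

theorem wt_eq_prod (D : Fin r → ℤ) (y : ℝ) (hy : ∀ k : ℤ, y ≠ k) (e : ℤ) :
    wt opp pos y e (dst D : PT w (fun _ => 1) → ℤ) =
      ∏ t ∈ lvS opp pos w D, dl y t ^ ex opp pos w e D t := by
  have hd : ∀ t, dl y t ≠ 0 := dl_ne hy
  have h0 : (0 : ℤ) ∈ lvS opp pos w D := Finset.mem_insert_self _ _
  have e1 : ∏ t ∈ lvS opp pos w D, dl y t ^ ex opp pos w e D t =
      (∏ t ∈ lvS opp pos w D, dl y t ^ (if t = 0 then e + 1 - (canon opp).card else 0 : ℤ)) *
      (∏ t ∈ lvS opp pos w D, dl y t ^ (Finset.univ.filter fun x : PT w (fun _ => 1) =>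
        fstp opp pos x = true ∧ levA (pkey opp pos) (dst D) x = t).card) *
      (∏ t ∈ lvS opp pos w D, (dl y t)⁻¹ ^ (Finset.univ.filter fun x : PT w (fun _ => 1) =>
        can opp (pside opp x) ∧ levA (pkey opp pos) (dst D) x = t).card) := by
    rw [← Finset.prod_mul_distrib, ← Finset.prod_mul_distrib]
    refine Finset.prod_congr rfl fun t _ => ?_
    unfold ex
    rw [zpow_sub₀ (hd t), zpow_add₀ (hd t), zpow_natCast, zpow_natCast, div_eq_mul_inv, inv_pow]
  have e2 : (∏ t ∈ lvS opp pos w D,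
      dl y t ^ (if t = 0 then e + 1 - (canon opp).card else 0 : ℤ)) =
      dl y 0 ^ (e + 1) * ((dl y 0)⁻¹) ^ (canon opp).card := by
    rw [Finset.prod_eq_single_of_mem 0 h0 (fun t _ ht => by rw [if_neg ht, zpow_zero]),
      if_pos rfl, zpow_sub₀ (hd 0), zpow_natCast, div_eq_mul_inv, inv_pow]
  have e3 := TL_fib (c := fun t => dl y t)
    (Finset.univ.filter fun x : PT w (fun _ => 1) => fstp opp pos x = true)
    (levA (pkey opp pos) (dst D)) (lvS opp pos w D) (fun x _ => TL_mem D x)
  have e4 := TL_fib (c := fun t => (dl y t)⁻¹)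
    (Finset.univ.filter fun x : PT w (fun _ => 1) => can opp (pside opp x))
    (levA (pkey opp pos) (dst D)) (lvS opp pos w D) (fun x _ => TL_mem D x)
  simp only [Finset.filter_filter] at e3 e4
  rw [e1, e2, ← e3, ← e4]
  unfold wt
  rw [Finset.prod_filter, Finset.prod_filter]
  ring

theorem TL_card_can (hinv : ∀ i, opp (opp i) = i) (hne : ∀ i, opp i ≠ i) :
    (Finset.univ.filter fun x : PT w (fun _ => 1) => can opp (pside opp x)).card =
      Fintype.card (ST w (fun _ => 1)) := by
  rw [Finset.card_filter, Fintype.sum_prod_type, ← Finset.card_univ, Finset.card_eq_sum_ones]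
  refine Finset.sum_congr rfl fun i _ => ?_
  rw [Fintype.sum_bool]
  have e1 : pside opp ((i, true) : PT w (fun _ => 1)) = opp (letr i) := rfl
  have e2 : pside opp ((i, false) : PT w (fun _ => 1)) = letr i := rfl
  rw [e1, e2]
  unfold can
  rw [hinv]
  have h : (opp (letr i)).val ≠ (letr i).val := fun h => hne _ (ZMod.val_injective N h)
  by_cases h1 : (opp (letr i)).val < (letr i).val
  · rw [if_pos h1, if_neg (by omega)]
  · rw [if_neg h1, if_pos (by omega)]

theorem ex_sum (hinv : ∀ i, opp (opp i) = i) (hne : ∀ i, opp i ≠ i)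
    (hG : GoodWords opp w pos closed) (e : ℤ) (D : Fin r → ℤ) :
    ∑ t ∈ lvS opp pos w D, ex opp pos w e D t = e + 1 - (canon opp).card := by
  have h0 : (0 : ℤ) ∈ lvS opp pos w D := Finset.mem_insert_self _ _
  have e3 := TL_fibsum
    (Finset.univ.filter fun x : PT w (fun _ => 1) => fstp opp pos x = true)
    (levA (pkey opp pos) (dst D)) (lvS opp pos w D) (fun x _ => TL_mem D x)
  have e4 := TL_fibsum
    (Finset.univ.filter fun x : PT w (fun _ => 1) => can opp (pside opp x))
    (levA (pkey opp pos) (dst D)) (lvS opp pos w D) (fun x _ => TL_mem D x)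
  simp only [Finset.filter_filter] at e3 e4
  unfold ex
  rw [Finset.sum_sub_distrib, Finset.sum_add_distrib, e3, e4, card_fstp hinv hG,
    TL_card_can hinv hne, Finset.sum_ite_eq' _ (0 : ℤ) (fun _ => e + 1 - ((canon opp).card : ℤ)),
    if_pos h0]
  ring

theorem ex_zero (hinv : ∀ i, opp (opp i) = i) (hne : ∀ i, opp i ≠ i)
    (hG : GoodWords opp w pos closed) (e : ℤ) :
    ex opp pos w e 0 0 = e + 1 - (canon opp).card := by
  have h1 : ∀ x : PT w (fun _ => 1), levA (pkey opp pos) (dst (0 : Fin r → ℤ)) x = 0 := by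
    intro x
    unfold levA
    refine Finset.sum_eq_zero fun z _ => ?_
    simp [dst]
  unfold ex
  simp only [h1, and_true]
  rw [card_fstp hinv hG, TL_card_can hinv hne, if_pos trivial]
  ring

end Pool.Agent.AMU.Ter
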