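import Pool.Agent.Lib.AMU.TerJ
import Pool.Agent.Lib.AMU.TerH2

/-!
# Row TL1: points on canonical sides

`levA (flp x) = levB x` (`levB_flp` for `flp x`), so the number of points with `levA = t` on non canonical sides is the
number of points with `levB = t` on canonical sides. On every side (balanced) the numbers of points with
`levA = t` and with `levB = t` are equal: the levels are `0 = L_0, L_1, .., L_n = 0` (`sideL_sorted`; the level before the
first point and after the last point of a side is `0` since all sides are balanced).
-/

set_option autoImplicit false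

namespace Pool.Agent.AMU.Ter

variable {N r : ℕ} [NeZero N] {opp : ZMod N → ZMod N} {w : Fin r → List (ZMod N)}
  {pos : Fin r → ℕ → ℤ} {closed : Prop}

theorem card_canon (hinv : ∀ i, opp (opp i) = i) (hne : ∀ i, opp i ≠ i) :
    2 * (canon opp).card = N := by
  classical
  have h1 : (canon opp).card = (Finset.univ.filter fun i : ZMod N => ¬ i.val < (opp i).val).card := by
    refine Finset.card_nbij' opp opp ?_ ?_ ?_ ?_
    · intro i hi
      simp only [canon, Finset.coe_filter, Finset.mem_univ, true_and, Set.mem_ofPred_eq] at hi ⊢
      rw [hinv]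
      omega
    · intro i hi
      simp only [canon, Finset.coe_filter, Finset.mem_univ, true_and, Set.mem_ofPred_eq] at hi ⊢
      rw [hinv]
      have h2 : (opp i).val ≠ i.val := fun h => hne i (ZMod.val_injective N h)
      omega
    · intro i _
      exact hinv i
    · intro i _
      exact hinv i
  have h2 := Finset.card_filter_add_card_filter_not (s := (Finset.univ : Finset (ZMod N)))
    (fun i : ZMod N => i.val < (opp i).val)
  rw [Finset.card_univ, ZMod.card, ← h1] at h2
  have h3 : (Finset.univ.filter fun i : ZMod N => i.val < (opp i).val) = canon opp := rfl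
  rw [h3] at h2
  omega

private theorem TL1_plvl {P : Type} (δ : P → ℤ) (t : ℤ) (M : List P) : ∀ s : ℤ,
    (plvl δ s M).countP (fun z => decide (z.2 = t)) + (if s = t then 1 else 0) =
      (plvl δ s M).countP (fun z => decide (z.2 - δ z.1 = t)) +
        (if s + (M.map δ).sum = t then 1 else 0) := by
  induction M with
  | nil => intro s; simp [plvl]
  | cons p M ih =>
    intro s
    have h := ih (s + δ p)
    simp only [plvl, List.countP_cons, List.map_cons, List.sum_cons, decide_eq_true_eq,
      add_sub_cancel_right]
    rw [← add_assoc s]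
    omega

private theorem TL1_count {P : Type} [Fintype P] (M : List P) (hnd : M.Nodup) (p q : P → Prop)
    [DecidablePred p] [DecidablePred q] (hM : ∀ x, x ∈ M ↔ p x) :
    M.countP (fun x => decide (q x)) = (Finset.univ.filter fun x => p x ∧ q x).card := by
  classical
  rw [List.countP_eq_length_filter, ← List.toFinset_card_of_nodup (hnd.filter _)]
  congr 1
  ext x
  simp only [List.mem_toFinset, List.mem_filter, hM, decide_eq_true_eq, Finset.mem_filter,
    Finset.mem_univ, true_and]

private theorem TL1_side (hinv : ∀ i, opp (opp i) = i) (hne : ∀ i, opp i ≠ i)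
    (hG : GoodWords opp w pos closed) {m : Fin r → ℕ} (δ : PT w m → ℤ)
    (hb : BalP opp δ) (i : ZMod N) (t : ℤ) :
    (Finset.univ.filter fun x : PT w m => pside opp x = i ∧ levA (pkey opp pos) δ x = t).card =
      (Finset.univ.filter fun x : PT w m =>
        pside opp x = i ∧ levB (pkey opp pos) δ x = t).card := by
  classical
  have hnd : (sideL opp pos i : List (PT w m)).Nodup :=
    (sideL_sorted hinv hne hG i).imp fun h => by
      rintro rfl
      exact lt_irrefl _ h
  have h1 := TL1_plvl δ t (sideL opp pos i : List (PT w m)) 0
  rw [plvl_sideL hinv hne hG δ hb i] at h1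
  have hsum : ((sideL opp pos i : List (PT w m)).map δ).sum = 0 := by
    rw [← List.sum_toFinset δ hnd, ← hb i, ← Finset.sum_filter]
    refine Finset.sum_congr ?_ fun _ _ => rfl
    ext x
    simp [mem_sideL]
  rw [hsum, zero_add, List.countP_map, List.countP_map] at h1
  have h2 := TL1_count (sideL opp pos i : List (PT w m)) hnd (fun x => pside opp x = i)
    (fun x => levA (pkey opp pos) δ x = t) (fun x => mem_sideL)
  have h3 := TL1_count (sideL opp pos i : List (PT w m)) hnd (fun x => pside opp x = i)
    (fun x => levB (pkey opp pos) δ x = t) (fun x => mem_sideL)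
  rw [← h2, ← h3]
  have h4 : ((fun z : PT w m × ℤ => decide (z.2 = t)) ∘ fun x => (x, levA (pkey opp pos) δ x)) =
      fun x => decide (levA (pkey opp pos) δ x = t) := rfl
  have h5 : ((fun z : PT w m × ℤ => decide (z.2 - δ z.1 = t)) ∘
      fun x => (x, levA (pkey opp pos) δ x)) =
      fun x => decide (levB (pkey opp pos) δ x = t) := by
    funext x
    simp only [Function.comp_apply]
    rw [levA_eq_levB_add (pkey opp pos) δ (pkey_inj hinv hne hG) x, add_sub_cancel_right]
  rw [h4, h5] at h1
  omega

theorem card_can (hinv : ∀ i, opp (opp i) = i) (hne : ∀ i, opp i ≠ i)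
    (hG : GoodWords opp w pos closed) (D : Fin r → ℤ)
    (hb : BalP opp (dst D : PT w (fun _ => 1) → ℤ)) (t : ℤ) :
    (Finset.univ.filter fun x : PT w (fun _ => 1) =>
      levA (pkey opp pos) (dst D) x = t).card =
    2 * (Finset.univ.filter fun x : PT w (fun _ => 1) =>
      can opp (pside opp x) ∧ levA (pkey opp pos) (dst D) x = t).card := by
  classical
  have hδ : ∀ x : PT w (fun _ => 1), dst D (flp x) = -dst D x := by
    rintro ⟨i, b⟩
    cases b <;> simp [dst, flp]
  have hcanflp : ∀ x : PT w (fun _ => 1), can opp (pside opp (flp x)) ↔
      ¬ can opp (pside opp x) := by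
    intro x
    have h3 : (opp (pside opp x)).val ≠ (pside opp x).val := fun h' =>
      hne _ (ZMod.val_injective N h')
    simp only [can, pside_flp hinv, hinv]
    omega
  -- the points on the non canonical sides
  have h1 : (Finset.univ.filter fun x : PT w (fun _ => 1) =>
      ¬ can opp (pside opp x) ∧ levA (pkey opp pos) (dst D) x = t).card =
      (Finset.univ.filter fun x : PT w (fun _ => 1) =>
        can opp (pside opp x) ∧ levB (pkey opp pos) (dst D) x = t).card := by
    refine Finset.card_nbij' flp flp ?_ ?_ ?_ ?_
    · intro x hx
      simp only [Finset.coe_filter, Finset.mem_univ, true_and, Set.mem_ofPred_eq] at hx ⊢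
      rw [hcanflp, levB_flp hinv hne hG _ hδ hb]
      exact hx
    · intro x hx
      simp only [Finset.coe_filter, Finset.mem_univ, true_and, Set.mem_ofPred_eq] at hx ⊢
      rw [hcanflp, not_not, ← levB_flp hinv hne hG _ hδ hb (flp x), flp_flp]
      exact hx
    · intro x _
      exact flp_flp x
    · intro x _
      exact flp_flp x
  have hfib : ∀ q : PT w (fun _ => 1) → Prop, ∀ [DecidablePred q],
      (Finset.univ.filter fun x : PT w (fun _ => 1) => can opp (pside opp x) ∧ q x).card =
      ∑ i ∈ canon opp, (Finset.univ.filter fun x : PT w (fun _ => 1) =>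
        pside opp x = i ∧ q x).card := by
    intro q _
    rw [Finset.card_eq_sum_card_fiberwise (f := fun x => pside opp x) (t := canon opp)]
    · refine Finset.sum_congr rfl fun i hi => ?_
      rw [Finset.filter_filter]
      congr 1
      ext x
      simp only [Finset.mem_filter, Finset.mem_univ, true_and]
      simp only [canon, Finset.mem_filter, Finset.mem_univ, true_and] at hi
      constructor
      · rintro ⟨⟨-, h⟩, h'⟩
        exact ⟨h', h⟩
      · rintro ⟨h', h⟩
        refine ⟨⟨?_, h⟩, h'⟩
        rw [h']
        exact hi
    · intro x hx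
      simp only [Finset.coe_filter, Finset.mem_univ, true_and, Set.mem_ofPred_eq] at hx
      simp only [canon, Finset.coe_filter, Finset.mem_univ, true_and, Set.mem_ofPred_eq]
      exact hx.1
  have h2 : (Finset.univ.filter fun x : PT w (fun _ => 1) =>
      can opp (pside opp x) ∧ levB (pkey opp pos) (dst D) x = t).card =
      (Finset.univ.filter fun x : PT w (fun _ => 1) =>
      can opp (pside opp x) ∧ levA (pkey opp pos) (dst D) x = t).card := by
    rw [hfib, hfib]
    exact Finset.sum_congr rfl fun i _ => (TL1_side hinv hne hG _ hb i t).symm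
  have h3 := Finset.card_filter_add_card_filter_not (s := (Finset.univ.filter
    fun x : PT w (fun _ => 1) => levA (pkey opp pos) (dst D) x = t))
    (fun x => can opp (pside opp x))
  rw [Finset.filter_filter, Finset.filter_filter] at h3
  have h4 : (Finset.univ.filter fun x : PT w (fun _ => 1) =>
      levA (pkey opp pos) (dst D) x = t ∧ can opp (pside opp x)) =
      Finset.univ.filter fun x : PT w (fun _ => 1) =>
      can opp (pside opp x) ∧ levA (pkey opp pos) (dst D) x = t := by
    ext x
    simp only [Finset.mem_filter, and_comm]
  have h5 : (Finset.univ.filter fun x : PT w (fun _ => 1) =>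
      levA (pkey opp pos) (dst D) x = t ∧ ¬ can opp (pside opp x)) =
      Finset.univ.filter fun x : PT w (fun _ => 1) =>
      ¬ can opp (pside opp x) ∧ levA (pkey opp pos) (dst D) x = t := by
    ext x
    simp only [Finset.mem_filter, and_comm]
  rw [h4, h5, h1, h2] at h3
  omega

end Pool.Agent.AMU.Ter
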