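import Pool.Agent.Lib.AMU.TerG2
import Pool.Agent.Lib.AMU.TerC

/-!
# Row TL2: counting the levels of the pieces

Apply `cnt_le` and `cnt_lt`, `cnt_two` to the word `B` with `objL = .inl 0 :: B` (`m = 1`). Two consecutive points
of `objL` are on the same side (a new side starts with a corner), so `hadj` holds by `pside_mate_ne`. If
`[.inr p, .inl i, .inr (mate p)]` occurs in `objL`, then `p` is the last point of the side `i - 1` and `mate p` is the
first point of the side `i`, and the corner `i` is cut (`Cuts`); if `B = .inr p :: (B' ++ [.inr (mate p)])`, the corner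
`0` is cut. `uncut` of `GoodWords` gives an uncut corner `i`: for `i ≠ 0` use `cnt_lt`, for `i = 0` use
`cnt_two`. `N ≥ 3`: `B` contains the corners `1`, `2`. Then `cF_eq`, `cA_objL`.
-/

set_option autoImplicit false

namespace Pool.Agent.AMU.Ter

variable {N r : ℕ} [NeZero N] {opp : ZMod N → ZMod N} {w : Fin r → List (ZMod N)}
  {pos : Fin r → ℕ → ℤ} {closed : Prop}

section

variable {m : Fin r → ℕ}

/-- The side of an object. -/
private def TL2_g (opp : ZMod N → ZMod N) (x : ZMod N ⊕ PT w m) : ZMod N :=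
  match x with
  | .inl i => i
  | .inr p => pside opp p

/-- Consecutive objects. -/
private def TL2_R (opp : ZMod N → ZMod N) (x y : ZMod N ⊕ PT w m) : Prop :=
  match y with
  | .inl i => i = TL2_g opp x + 1
  | .inr q => pside opp q = TL2_g opp x

private theorem TL2_chain1 (a : ZMod N) (rest : List (ZMod N ⊕ PT w m))
    (hr : List.IsChain (TL2_R opp) rest)
    (hh : rest = [] ∨ ∃ rest', rest = .inl (a + 1) :: rest') (L : List (PT w m)) :
    ∀ x : ZMod N ⊕ PT w m, TL2_g opp x = a → (∀ q ∈ L, pside opp q = a) →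
      List.IsChain (TL2_R opp) (x :: (L.map Sum.inr ++ rest)) := by
  induction L with
  | nil =>
    intro x hx _
    rcases hh with rfl | ⟨rest', rfl⟩
    · simp
    · rw [List.map_nil, List.nil_append, List.isChain_cons_cons]
      refine ⟨?_, hr⟩
      show a + 1 = TL2_g opp x + 1
      rw [hx]
  | cons q L ih =>
    intro x hx hL
    rw [List.map_cons, List.cons_append, List.isChain_cons_cons]
    have hq : pside opp q = a := hL q List.mem_cons_self
    refine ⟨?_, ih (.inr q) hq fun z hz => hL z (List.mem_cons_of_mem _ hz)⟩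
    show pside opp q = TL2_g opp x
    rw [hx, hq]

private theorem TL2_chain2 : ∀ n a : ℕ,
    List.IsChain (TL2_R opp) ((List.range' a n).flatMap fun j : ℕ =>
      (.inl (j : ZMod N) : ZMod N ⊕ PT w m) :: (sideL opp pos (j : ZMod N)).map .inr) := by
  intro n
  induction n with
  | zero => intro a; simp
  | succ n ih =>
    intro a
    rw [List.range'_succ, List.flatMap_cons, List.cons_append]
    refine TL2_chain1 (a : ZMod N) _ (ih (a + 1)) ?_ _ _ rfl fun q hq => mem_sideL.1 hq
    cases n with
    | zero => exact Or.inl rfl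
    | succ n =>
      right
      rw [List.range'_succ, List.flatMap_cons, List.cons_append, Nat.cast_succ]
      exact ⟨_, rfl⟩

private theorem TL2_chain : List.IsChain (TL2_R opp) (objL opp pos : List (ZMod N ⊕ PT w m)) := by
  unfold objL
  rw [List.range_eq_range']
  exact TL2_chain2 N 0

private theorem TL2_key_val {x y : PT w m} (h : pkey opp pos x ≤ pkey opp pos y) :
    (pside opp x).val ≤ (pside opp y).val := by
  by_contra hlt
  rw [not_le] at hlt
  refine absurd h (not_le.2 ?_)
  rw [Prod.Lex.lt_iff]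
  exact Or.inl hlt

private theorem TL2_mem_corner (j : ZMod N) :
    .inl j ∈ (objL opp pos : List (ZMod N ⊕ PT w m)) := by
  unfold objL
  rw [List.mem_flatMap]
  refine ⟨j.val, List.mem_range.2 (ZMod.val_lt _), ?_⟩
  rw [ZMod.natCast_zmod_val]
  exact List.mem_cons_self

private theorem TL2_dec : ∃ B : List (ZMod N ⊕ PT w m), objL opp pos = .inl 0 :: B := by
  unfold objL
  have h1 : ∀ M : ℕ, M ≠ 0 → List.range M = 0 :: List.range' 1 (M - 1) := by
    intro M hM
    obtain ⟨n, rfl⟩ := Nat.exists_eq_succ_of_ne_zero hM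
    rw [List.range_eq_range', List.range'_succ]
    rfl
  rw [h1 N (NeZero.ne N), List.flatMap_cons, List.cons_append, Nat.cast_zero]
  exact ⟨_, rfl⟩

private theorem TL2_last {Y : List (ZMod N ⊕ PT w m)} {q : PT w m}
    (h : objL opp pos = Y ++ [.inr q]) : pside opp q = 0 - 1 := by
  have h1 : ∀ M : ℕ, M ≠ 0 → List.range M = List.range (M - 1) ++ [M - 1] := by
    intro M hM
    obtain ⟨n, rfl⟩ := Nat.exists_eq_succ_of_ne_zero hM
    rw [List.range_succ]
    rfl
  unfold objL at h
  rw [h1 N (NeZero.ne N), List.flatMap_append] at h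
  rw [List.flatMap_cons, List.flatMap_nil, List.append_nil] at h
  have h2 := congrArg List.getLast? h
  rw [List.getLast?_append, List.getLast?_append] at h2
  have h3 : ((Sum.inl (((N - 1 : ℕ)) : ZMod N) : ZMod N ⊕ PT w m) ::
      (sideL opp pos (((N - 1 : ℕ)) : ZMod N)).map Sum.inr).getLast? = some (.inr q) := by
    cases h4 : ((Sum.inl (((N - 1 : ℕ)) : ZMod N) : ZMod N ⊕ PT w m) ::
      (sideL opp pos (((N - 1 : ℕ)) : ZMod N)).map Sum.inr).getLast? with
    | none => rw [List.getLast?_eq_none_iff] at h4; exact absurd h4 (List.cons_ne_nil _ _)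
    | some z =>
      rw [h4] at h2
      simpa using h2
  have h5 := List.mem_of_getLast? h3
  rw [List.mem_cons, List.mem_map] at h5
  rcases h5 with h5 | ⟨z, hz, hzq⟩
  · exact absurd h5 (by simp)
  · have h6 : z = q := by simpa using hzq
    rw [h6, mem_sideL] at hz
    rw [hz, Nat.cast_sub (Nat.one_le_iff_ne_zero.2 (NeZero.ne N)), ZMod.natCast_self,
      Nat.cast_one]

private theorem TL2_dst (D : Fin r → ℤ) (p : PT w m) : dst D (mate p) = -dst D p := by
  rcases p with ⟨i, b⟩
  cases b
  · rfl
  · show D i.1 = - -D i.1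
    rw [neg_neg]

omit [NeZero N] in
private theorem TL2_inf {α : Type} {R : α → α → Prop} {l l' : List α} (h : l <:+: l')
    (hc : l'.IsChain R) : l.IsChain R := by
  obtain ⟨u, v, rfl⟩ := h
  exact (List.isChain_append.1 (List.isChain_append.1 hc).1).2.1

private theorem TL2_adj (hinv : ∀ i, opp (opp i) = i) (hG : GoodWords opp w pos closed)
    (p : PT w m) : ¬ [(Sum.inr p : ZMod N ⊕ PT w m), Sum.inr (mate p)] <:+: objL opp pos := by
  intro h
  have h1 := TL2_inf h TL2_chain
  rw [List.isChain_pair] at h1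
  exact pside_mate_ne hinv hG p h1

private theorem TL2_three (hN : 3 ≤ N) : (1 : ZMod N) ≠ 0 ∧ (2 : ZMod N) ≠ 0 := by
  constructor
  · intro h
    have h1 : ((1 : ℕ) : ZMod N) = 0 := by rw [Nat.cast_one]; exact h
    rw [ZMod.natCast_eq_zero_iff] at h1
    have := Nat.le_of_dvd Nat.one_pos h1
    omega
  · intro h
    have h1 : ((2 : ℕ) : ZMod N) = 0 := by rw [Nat.cast_ofNat]; exact h
    rw [ZMod.natCast_eq_zero_iff] at h1
    have := Nat.le_of_dvd (by norm_num) h1
    omega

/-- The points before and after a corner between two points. -/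
private theorem TL2_between (hinv : ∀ i, opp (opp i) = i) (hne : ∀ i, opp i ≠ i) (hN : 3 ≤ N)
    (hG : GoodWords opp w pos closed) {p q : PT w m} {i : ZMod N}
    (h : [(Sum.inr p : ZMod N ⊕ PT w m), Sum.inl i, Sum.inr q] <:+: objL opp pos) :
    (pside opp p = i - 1 ∧ ∀ y : PT w m, pside opp y = i - 1 → pkey opp pos y ≤ pkey opp pos p) ∧
    (pside opp q = i ∧ ∀ y : PT w m, pside opp y = i → pkey opp pos q ≤ pkey opp pos y) := by
  have h1 := TL2_inf h TL2_chain
  rw [List.isChain_cons_cons, List.isChain_pair] at h1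
  obtain ⟨h2, h3⟩ := h1
  have h2' : i = pside opp p + 1 := h2
  have h3' : pside opp q = i := h3
  have hp : pside opp p = i - 1 := by rw [h2', add_sub_cancel_right]
  obtain ⟨u, v, huv⟩ := h
  have hs := ptL_sorted (m := m) hinv hne hG
  have hpt : (ptL opp pos : List (PT w m)) = pts u ++ p :: q :: pts v := by
    rw [← pts_objL, ← huv, pts_append, pts_append]
    simp [pts]
  rw [hpt, List.pairwise_append, List.pairwise_cons, List.pairwise_cons] at hs
  obtain ⟨-, ⟨hs1, hs2, -⟩, hs3⟩ := hs
  have hpq : pkey opp pos p < pkey opp pos q := hs1 q List.mem_cons_self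
  have hall : ∀ y : PT w m, pkey opp pos y ≤ pkey opp pos p ∨ pkey opp pos q ≤ pkey opp pos y := by
    intro y
    have hy := mem_ptL (opp := opp) (pos := pos) y
    rw [hpt, List.mem_append, List.mem_cons, List.mem_cons] at hy
    rcases hy with hy | hy | hy | hy
    · exact Or.inl (hs3 y hy p List.mem_cons_self).le
    · rw [hy]; exact Or.inl le_rfl
    · rw [hy]; exact Or.inr le_rfl
    · exact Or.inr (hs2 y hy).le
  have hii : (i - 1).val ≤ i.val := by
    have := TL2_key_val hpq.le
    rw [hp, h3'] at this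
    exact this
  have hne1 : i.val ≤ (i - 1).val → False := by
    intro h4
    have h5 : i = i - 1 := ZMod.val_injective N (le_antisymm h4 hii)
    have h6 : (1 : ZMod N) = 0 := by
      have := sub_eq_zero.2 h5
      rwa [sub_sub_cancel] at this
    exact (TL2_three hN).1 h6
  refine ⟨⟨hp, ?_⟩, h3', ?_⟩
  · intro y hy
    rcases hall y with h4 | h4
    · exact h4
    · exfalso
      apply hne1
      have := TL2_key_val h4
      rw [hy, h3'] at this
      exact this
  · intro y hy
    rcases hall y with h4 | h4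
    · exfalso
      apply hne1
      have := TL2_key_val h4
      rw [hy, hp] at this
      exact this
    · exact h4

end

/-- The point of the diagram of words. -/
private def TL2_toM (x : PT w (fun _ => 1)) : MPt r := (x.1.1, x.1.2.1.val, x.2)

private theorem TL2_side (x : PT w (fun _ => 1)) : mSide opp w (TL2_toM x) = pside opp x := rfl

private theorem TL2_mKey {x y : PT w (fun _ => 1)} (hs : pside opp x = pside opp y)
    (h : pkey opp pos x ≤ pkey opp pos y) :
    mKey opp w pos (TL2_toM x) ≤ mKey opp w pos (TL2_toM y) := by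
  by_contra hlt
  rw [not_le, Prod.Lex.lt_iff] at hlt
  refine absurd h (not_le.2 ?_)
  rw [Prod.Lex.lt_iff]
  rcases hlt with hlt | ⟨-, hlt⟩
  · exfalso
    have h2 : ((pside opp y).val : ℤ) < ((pside opp x).val : ℤ) := hlt
    rw [hs] at h2
    exact lt_irrefl _ h2
  · refine Or.inr ⟨congrArg ZMod.val hs.symm, ?_⟩
    rw [Prod.Lex.lt_iff]
    exact Or.inl hlt

private theorem TL2_lift (y : MPt r) (hy : y.2.1 < (w y.1).length) :
    ∃ z : PT w (fun _ => 1), TL2_toM z = y :=
  ⟨(⟨y.1, (⟨y.2.1, hy⟩, ⟨0, Nat.one_pos⟩)⟩, y.2.2), rfl⟩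

private theorem TL2_cuts {x z : PT w (fun _ => 1)} {i : ZMod N}
    (h1 : pside opp x = i - 1 ∧
      ∀ y : PT w (fun _ => 1), pside opp y = i - 1 → pkey opp pos y ≤ pkey opp pos x)
    (h2 : pside opp z = i ∧
      ∀ y : PT w (fun _ => 1), pside opp y = i → pkey opp pos z ≤ pkey opp pos y) :
    Cuts opp w pos (TL2_toM x) (TL2_toM z) i := by
  refine ⟨h1.1, ?_, h2.1, ?_⟩
  · intro y hy hys
    obtain ⟨y', rfl⟩ := TL2_lift y hy
    have h3 : pside opp y' = pside opp x := hys
    exact TL2_mKey h3 (h1.2 y' (h3.trans h1.1))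
  · intro y hy hys
    obtain ⟨y', rfl⟩ := TL2_lift y hy
    have h3 : pside opp y' = pside opp z := hys
    exact TL2_mKey h3.symm (h2.2 y' (h3.trans h2.1))

private theorem TL2_uncut {i : ZMod N}
    (hu : ∀ j k, k < (w j).length →
      ¬ Cuts opp w pos (chS j k) (chE w j k) i ∧ ¬ Cuts opp w pos (chE w j k) (chS j k) i)
    {p : PT w (fun _ => 1)}
    (h1 : pside opp p = i - 1 ∧
      ∀ y : PT w (fun _ => 1), pside opp y = i - 1 → pkey opp pos y ≤ pkey opp pos p)
    (h2 : pside opp (mate p) = i ∧
      ∀ y : PT w (fun _ => 1), pside opp y = i → pkey opp pos (mate p) ≤ pkey opp pos y) :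
    False := by
  have h3 := TL2_cuts h1 h2
  have h4 : ∃ s : ST w (fun _ => 1), p = (s, true) ∨ p = mate (s, true) := by
    rcases p with ⟨s, b⟩
    cases b
    · refine ⟨prv s, Or.inr ?_⟩
      show (s, false) = (nxt (prv s), false)
      rw [nxt_prv]
    · exact ⟨s, Or.inl rfl⟩
  obtain ⟨s, hp | hp⟩ := h4
  · rw [hp] at h3
    exact (hu s.1 s.2.1.val s.2.1.isLt).1 h3
  · rw [hp, mate_mate] at h3
    exact (hu s.1 s.2.1.val s.2.1.isLt).2 h3

private theorem TL2_cF (hinv : ∀ i, opp (opp i) = i) (hne : ∀ i, opp i ≠ i)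
    (hG : GoodWords opp w pos closed) (D : Fin r → ℤ) (t : ℤ) :
    cF (dst D) (fstp opp pos) 0 (objL opp pos : List (ZMod N ⊕ PT w (fun _ => 1))) t =
      (Finset.univ.filter fun x : PT w (fun _ => 1) =>
        fstp opp pos x = true ∧ levA (pkey opp pos) (dst D) x = t).card := by
  refine cF_eq (pkey opp pos) (dst D) (fstp opp pos) _ ?_ ?_ t
  · rw [pts_objL]
    exact ptL_sorted hinv hne hG
  · intro p
    rw [pts_objL]
    exact mem_ptL _

private theorem TL2_ncw (hinv : ∀ i, opp (opp i) = i) (hne : ∀ i, opp i ≠ i)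
    (hG : GoodWords opp w pos closed) {B : List (ZMod N ⊕ PT w (fun _ => 1))}
    (hB : objL opp pos = .inl 0 :: B) : NCw mate (fstp opp pos) B := by
  have h := ncw_objL (m := fun _ => 1) hinv hne hG
  rw [hB] at h
  cases h with
  | corner _ h => exact h

theorem pieces_le (hinv : ∀ i, opp (opp i) = i) (hne : ∀ i, opp i ≠ i) (hN : 3 ≤ N)
    (hG : GoodWords opp w pos closed) (D : Fin r → ℤ)
    (hb : BalP opp (dst D : PT w (fun _ => 1) → ℤ)) (t : ℤ) :
    2 * (Finset.univ.filter fun x : PT w (fun _ => 1) =>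
      fstp opp pos x = true ∧ levA (pkey opp pos) (dst D) x = t).card +
      (if t = 0 then 2 else 0) ≤
    (if t = 0 then N else 0) + (Finset.univ.filter fun x : PT w (fun _ => 1) =>
      levA (pkey opp pos) (dst D) x = t).card := by
  obtain ⟨B, hB⟩ := TL2_dec (opp := opp) (pos := pos) (w := w) (m := fun _ => 1)
  have hBne : B ≠ [] := by
    rintro rfl
    have h1 := TL2_mem_corner (opp := opp) (pos := pos) (w := w) (m := fun _ => 1) 1
    rw [hB, List.mem_singleton] at h1
    have h2 : (1 : ZMod N) = 0 := by simpa using h1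
    exact (TL2_three hN).1 h2
  have hadj : ∀ p : PT w (fun _ => 1),
      ¬ [(Sum.inr p : ZMod N ⊕ PT w (fun _ => 1)), Sum.inr (mate p)] <:+: B := by
    intro p h
    apply TL2_adj hinv hG p
    rw [hB]
    exact h.trans (List.suffix_cons _ B).isInfix
  have h1 := cnt_le (TL2_ncw hinv hne hG hB) hadj (TL2_dst D) 0 t
  have h2 := cA_objL hinv hne hG (dst D) hb t
  have h3 := TL2_cF hinv hne hG D t
  rw [hB] at h2 h3
  rw [← h3, ← h2]
  simp only [cA, cF]
  by_cases ht : t = 0
  · rw [if_pos ⟨hBne, ht.symm⟩] at h1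
    rw [if_pos ht, if_pos ht.symm]
    omega
  · rw [if_neg (fun e => ht e.2.symm)] at h1
    rw [if_neg ht, if_neg (Ne.symm ht)]
    omega

theorem pieces_lt (hinv : ∀ i, opp (opp i) = i) (hne : ∀ i, opp i ≠ i) (hN : 3 ≤ N)
    (hG : GoodWords opp w pos closed) (hc : closed) (D : Fin r → ℤ)
    (hb : BalP opp (dst D : PT w (fun _ => 1) → ℤ)) :
    2 * (Finset.univ.filter fun x : PT w (fun _ => 1) =>
      fstp opp pos x = true ∧ levA (pkey opp pos) (dst D) x = 0).card + 3 ≤
    N + (Finset.univ.filter fun x : PT w (fun _ => 1) =>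
      levA (pkey opp pos) (dst D) x = 0).card := by
  obtain ⟨B, hB⟩ := TL2_dec (opp := opp) (pos := pos) (w := w) (m := fun _ => 1)
  have hmem : ∀ j : ZMod N, j ≠ 0 → .inl j ∈ B := by
    intro j hj
    have h1 := TL2_mem_corner (opp := opp) (pos := pos) (w := w) (m := fun _ => 1) j
    rw [hB, List.mem_cons] at h1
    rcases h1 with h1 | h1
    · exact absurd (by simpa using h1) hj
    · exact h1
  obtain ⟨h01, h02⟩ := TL2_three hN
  have hBne : B ≠ [] := by
    rintro rfl
    exact absurd (hmem 1 h01) List.not_mem_nil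
  have hBone : ∀ c : ZMod N, B ≠ [.inl c] := by
    rintro c rfl
    have h1 := hmem 1 h01
    have h2 := hmem 2 h02
    rw [List.mem_singleton] at h1 h2
    have h3 : (1 : ZMod N) = c := by simpa using h1
    have h4 : (2 : ZMod N) = c := by simpa using h2
    have h5 : (1 : ZMod N) = 2 := h3.trans h4.symm
    apply h01
    calc (1 : ZMod N) = 2 - 1 := by ring
      _ = 0 := by rw [← h5, sub_self]
  have hinf : B <:+: objL opp pos := by
    rw [hB]
    exact (List.suffix_cons _ B).isInfix
  have hadj : ∀ p : PT w (fun _ => 1),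
      ¬ [(Sum.inr p : ZMod N ⊕ PT w (fun _ => 1)), Sum.inr (mate p)] <:+: B :=
    fun p h => TL2_adj hinv hG p (h.trans hinf)
  have hlev : CornersAt (dst D) 0 0 B := by
    have h := cornersAt_objL (pos := pos) (dst D) hb
    rw [hB] at h
    exact h.2
  have h2 := cA_objL hinv hne hG (dst D) hb 0
  have h3 := TL2_cF hinv hne hG D 0
  rw [hB] at h2 h3
  simp only [if_true] at h2
  rw [← h3, ← h2]
  simp only [cA, cF, if_true]
  obtain ⟨i, hu⟩ := hG.uncut hc
  by_cases hi : i = 0
  · have h5 : ∀ p B', B ≠ Sum.inr p :: (B' ++ [Sum.inr (mate p)]) := by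
      intro p B' hBp
      have h6 : objL opp pos = (.inl 0 :: .inr p :: B') ++ [Sum.inr (mate p)] := by
        rw [hB, hBp]
        rfl
      have h7 := TL2_last h6
      have h8 : pside opp p = 0 := by
        have h9 := TL2_chain (opp := opp) (pos := pos) (w := w) (m := fun _ => 1)
        rw [hB, hBp, List.isChain_cons_cons] at h9
        exact h9.1
      have hs := ptL_sorted (m := fun _ => 1) hinv hne hG
      have hpt : (ptL opp pos : List (PT w (fun _ => 1))) = p :: (pts B' ++ [mate p]) := by
        rw [← pts_objL, hB, hBp]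
        simp [pts, pts_append]
      rw [hpt, List.pairwise_cons, List.pairwise_append] at hs
      obtain ⟨hs1, -, -, hs2⟩ := hs
      have hall : ∀ y : PT w (fun _ => 1),
          pkey opp pos p ≤ pkey opp pos y ∧ pkey opp pos y ≤ pkey opp pos (mate p) := by
        intro y
        have hy := mem_ptL (opp := opp) (pos := pos) y
        rw [hpt, List.mem_cons] at hy
        rcases hy with hy | hy
        · rw [hy]
          exact ⟨le_rfl, (hs1 _ (List.mem_append_right _ List.mem_cons_self)).le⟩
        · refine ⟨(hs1 _ hy).le, ?_⟩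
          rw [List.mem_append, List.mem_singleton] at hy
          rcases hy with hy | hy
          · exact (hs2 y hy _ List.mem_cons_self).le
          · rw [hy]
      rw [hi] at hu
      refine TL2_uncut hu (p := mate p) ⟨h7, fun y _ => (hall y).2⟩ ?_
      rw [mate_mate]
      exact ⟨h8, fun y _ => (hall y).1⟩
    have h1 := cnt_two (TL2_ncw hinv hne hG hB) hadj (TL2_dst D) hBne hBone h5 0
    omega
  · have hcut : ∀ p : PT w (fun _ => 1),
        ¬ [(Sum.inr p : ZMod N ⊕ PT w (fun _ => 1)), Sum.inl i, Sum.inr (mate p)] <:+: B := by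
      intro p h
      obtain ⟨h6, h7⟩ := TL2_between hinv hne hN hG (h.trans hinf)
      exact TL2_uncut hu h6 h7
    have h1 := cnt_lt (TL2_ncw hinv hne hG hB) hadj (TL2_dst D) i (hmem i hi) hcut (hBone i) 0 0
      hlev
    rw [if_pos rfl] at h1
    omega

end Pool.Agent.AMU.Ter
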