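import Pool.Agent.Lib.AMU.TerI2
import Pool.Agent.Lib.AMU.TerJ2
import Pool.Agent.Lib.AMU.TerK
import Pool.Agent.Lib.AMU.TerL
import Pool.Agent.Lib.AMU.TerL1
import Pool.Agent.Lib.AMU.TerL2
import Pool.Agent.Lib.AMU.TerE

/-!
# Row TM: the terminal evaluation (assembly, helper79)
-/

set_option autoImplicit false

namespace Pool.Agent.AMU.Ter

open Filter Topology

section

variable {N r : ℕ} [NeZero N] {opp : ZMod N → ZMod N} {w : Fin r → List (ZMod N)}
  {pos : Fin r → ℕ → ℤ} {closed : Prop}

theorem ex_le (hinv : ∀ i, opp (opp i) = i) (hne : ∀ i, opp i ≠ i) (hN : 3 ≤ N)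
    (hG : GoodWords opp w pos closed) (e : ℤ) (he1 : closed → e = 1) (he0 : ¬ closed → e ≤ 0)
    (D : Fin r → ℤ) (hb : BalP opp (dst D : PT w (fun _ => 1) → ℤ)) (t : ℤ) :
    ex opp pos w e D t ≤ 0 := by
  have h1 := pieces_le hinv hne hN hG D hb t
  have h2 := card_can hinv hne hG D hb t
  have h3 : 2 * (canon opp).card = N := card_canon hinv hne
  unfold ex
  by_cases ht : t = 0
  · subst ht
    simp only [if_true] at h1 ⊢
    by_cases hc : closed
    · have h4 := pieces_lt hinv hne hN hG hc D hb
      have h5 := he1 hc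
      omega
    · have h5 := he0 hc
      omega
  · simp only [if_neg ht] at h1 ⊢
    omega

private theorem TM_sum_getD {α : Type} (l : List α) (a0 : α) (f : α → ℤ) :
    ∑ k : Fin l.length, f (l.getD k.val a0) = (l.map f).sum := by
  induction l with
  | nil => simp
  | cons a l ih =>
    rw [List.map_cons, List.sum_cons, ← ih]
    show ∑ k : Fin (l.length + 1), f ((a :: l).getD k.val a0) = _
    rw [Fin.sum_univ_succ]
    simp

private theorem TM_sum_ite {α : Type} [DecidableEq α] (l : List α) (i : α) :
    (l.map fun x => if x = i then (1 : ℤ) else 0).sum = l.count i := by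
  induction l with
  | nil => simp
  | cons a l ih =>
    rw [List.map_cons, List.sum_cons, ih, List.count_cons]
    by_cases h : a = i
    · simp [h]; ring
    · simp [h]

omit [NeZero N] in
theorem bal_parity (hinv : ∀ i, opp (opp i) = i) (_hne : ∀ i, opp i ≠ i) (m : Fin r → ℕ)
    (d : Fin r → ℤ) (hd : ∀ j, Even ((m j : ℤ) + d j))
    (hb : BalP opp (dst d : PT w (fun _ => 1) → ℤ)) (i : ZMod N) :
    ¬ Odd (∑ j, m j * ((w j).count i + (w j).count (opp i))) := by
  have h1 := hb i
  have h2 : ∑ x : PT w (fun _ => 1), (if pside opp x = i then dst d x else 0) =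
      ∑ j, d j * (((w j).count i : ℤ) - (w j).count (opp i)) := by
    rw [Fintype.sum_prod_type, Fintype.sum_sigma]
    refine Finset.sum_congr rfl fun j _ => ?_
    rw [Fintype.sum_prod_type]
    have h3 : ∀ k : Fin (w j).length, ∑ u : Fin 1, ∑ b : Bool,
        (if pside opp ((⟨j, (k, u)⟩, b) : PT w (fun _ => 1)) = i then
          dst d ((⟨j, (k, u)⟩, b) : PT w (fun _ => 1)) else 0) =
        d j * (if (w j).getD k.val 0 = i then 1 else 0) -
          d j * (if (w j).getD k.val 0 = opp i then 1 else 0) := by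
      intro k
      rw [Fin.sum_univ_one, Fintype.sum_bool]
      have h4 : (opp ((w j).getD k.val 0) = i) ↔ (w j).getD k.val 0 = opp i := by
        constructor
        · intro h; rw [← h, hinv]
        · intro h; rw [h, hinv]
      simp only [pside, dst, letr, if_true, Bool.false_eq_true, if_false, h4]
      split_ifs <;> ring
    rw [Finset.sum_congr rfl (fun k _ => h3 k), Finset.sum_sub_distrib, ← Finset.mul_sum,
      ← Finset.mul_sum, TM_sum_getD (w j) 0 (fun x => if x = i then (1 : ℤ) else 0),
      TM_sum_getD (w j) 0 (fun x => if x = opp i then (1 : ℤ) else 0), TM_sum_ite, TM_sum_ite]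
    ring
  rw [h2] at h1
  rw [Nat.not_odd_iff_even]
  have h3 : Even ((∑ j, m j * ((w j).count i + (w j).count (opp i)) : ℕ) : ℤ) := by
    have h4 : ((∑ j, m j * ((w j).count i + (w j).count (opp i)) : ℕ) : ℤ) =
        ∑ j, (((m j : ℤ) + d j) * ((w j).count i + (w j).count (opp i)) -
          2 * (d j * (w j).count i)) +
        ∑ j, d j * (((w j).count i : ℤ) - (w j).count (opp i)) := by
      rw [← Finset.sum_add_distrib]
      push_cast
      refine Finset.sum_congr rfl fun j _ => ?_
      ring
    rw [h4, h1, add_zero]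
    refine Finset.even_sum _ fun j _ => ?_
    refine Even.sub ((hd j).mul_right _) ?_
    exact even_two_mul _
  exact_mod_cast h3

end

/-- The terminal evaluation. -/
theorem termEval_of_exp {N : ℕ} [NeZero N] (opp : ZMod N → ZMod N) (hinv : ∀ i, opp (opp i) = i)
    (hne : ∀ i, opp i ≠ i) (hN : 3 ≤ N) {Γ : Type} [Group Γ] (s : ZMod N → Γ) (closed : Prop)
    (e : ℤ) (he1 : closed → e = 1) (he0 : ¬ closed → e ≤ 0) (F : ℝ → Multiset Γ → ℝ)
    (hF : ExpHyp opp s e F) (κ : ℕ) (hκ : (κ : ℤ) = (canon opp).card - e - 1) (hκ2 : 2 ≤ κ)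
    (hκe : Even κ) : TermEval opp s closed F κ := by
  classical
  intro r w pos hG
  have hsum : ∀ d : Fin r → ℤ, ∑ t ∈ lvS opp pos w d, ex opp pos w e d t = -(κ : ℤ) := by
    intro d
    rw [ex_sum hinv hne hG e d]
    omega
  let Λ : (Fin r → ℤ) → ℝ := fun d =>
    if BalP opp (dst d : PT w (fun _ => 1) → ℤ) then
      (if ∃ t ∈ lvS opp pos w d, ex opp pos w e d t = -(κ : ℤ) then 1 else 0) else 0
  let gg : ℝ → (Fin r → ℤ) → ℤ → ℝ := fun x d k =>
    if BalP opp (dst d : PT w (fun _ => 1) → ℤ) then
      ∏ t ∈ lvS opp pos w d, dl (x + k) t ^ ex opp pos w e d t else 0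
  have hlim : ∀ d, Tendsto (fun x : ℝ => x ^ κ * ∑' k : ℤ, gg x d k) (𝓝[≠] 0) (𝓝 (Λ d)) := by
    intro d
    by_cases hb : BalP opp (dst d : PT w (fun _ => 1) → ℤ)
    · simp only [gg, Λ, if_pos hb]
      exact ter_lim _ _ (fun t _ => ex_le hinv hne hN hG e he1 he0 d hb t) κ hκ2 hκe (hsum d)
    · simp only [gg, Λ, if_neg hb, tsum_zero, mul_zero]
      exact tendsto_const_nhds
  have hsummable : ∀ x d, Summable (gg x d) := by
    intro x d
    by_cases hb : BalP opp (dst d : PT w (fun _ => 1) → ℤ)
    · simp only [gg, if_pos hb]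
      exact ter_summable _ _ (fun t _ => ex_le hinv hne hN hG e he1 he0 d hb t) κ hκ2 (hsum d) x
    · simp only [gg, if_neg hb]
      exact summable_zero
  refine ⟨Λ, ?_, ?_, ?_⟩
  · intro d
    simp only [Λ]
    split_ifs <;> norm_num
  · have hb : BalP opp (dst (0 : Fin r → ℤ) : PT w (fun _ => 1) → ℤ) := by
      intro i
      refine Finset.sum_eq_zero fun x _ => ?_
      simp [dst]
    have h0 : ∃ t ∈ lvS opp pos w 0, ex opp pos w e 0 t = -(κ : ℤ) := by
      refine ⟨0, Finset.mem_insert_self _ _, ?_⟩
      rw [ex_zero hinv hne hG e]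
      omega
    simp only [Λ, if_pos hb, if_pos h0]
    exact le_refl _
  · intro m
    constructor
    · have hval : ∀ x : ℝ, (∀ k : ℤ, x ≠ k) →
          F x (∑ j, Multiset.replicate (m j) ((w j).map s).prod) =
          (∏ j, (wordSign opp (w j) : ℝ) ^ m j) *
            ∑ d ∈ Fintype.piFinset (fun j => Finset.Icc (-(m j : ℤ)) (m j)),
              (∏ j, if Even ((m j : ℤ) + d j) then
                ((m j).choose (((m j : ℤ) + d j) / 2).toNat : ℝ) else 0) * ∑' k : ℤ, gg x d k := by
        intro x hx
        rw [hF r w m (strandL opp pos) hG.ne (strandL_nodup hinv hne hG)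
          (mem_strandL hinv hne) x hx]
        have h1 : ∀ k : ℤ, ∑ lab : PT w m → Bool,
            coefL opp lab * term opp (x + k) e ((strandL opp pos).map (strandOf opp lab)) =
            (∏ j, (wordSign opp (w j) : ℝ) ^ m j) *
            ∑ d ∈ Fintype.piFinset (fun j => Finset.Icc (-(m j : ℤ)) (m j)),
              (∏ j, if Even ((m j : ℤ) + d j) then
                ((m j).choose (((m j : ℤ) + d j) / 2).toNat : ℝ) else 0) * gg x d k := by
          intro k
          have hxk : ∀ k' : ℤ, x + k ≠ k' := by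
            intro k' h
            refine hx (k' - k) ?_
            push_cast
            linarith
          have hxk0 : x + k ≠ 0 := by
            have := hxk 0
            rwa [Int.cast_zero] at this
          rw [ter_sum hinv hne hG (x + k) hxk0 e]
          congr 1
          rw [← ter_binom m (fun d => gg x d k)]
          refine Finset.sum_congr rfl fun σ _ => ?_
          by_cases hb : BalP opp (dst (Dsum σ) : PT w (fun _ => 1) → ℤ)
          · have hb' : BalP opp (sst σ : PT w m → ℤ) := (balP_cab σ).2 hb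
            simp only [gg, if_pos hb, if_pos hb']
            rw [wt_cab hinv hne hG (x + k) hxk e σ hb, wt_eq_prod (Dsum σ) (x + k) hxk e]
          · have hb' : ¬ BalP opp (sst σ : PT w m → ℤ) := fun h => hb ((balP_cab σ).1 h)
            simp only [gg, if_neg hb, if_neg hb']
        rw [tsum_congr h1, tsum_mul_left, Summable.tsum_finsetSum]
        · congr 1
          refine Finset.sum_congr rfl fun d _ => ?_
          rw [tsum_mul_left]
        · intro d _
          exact (hsummable x d).mul_left _
      have hlim2 : Tendsto (fun x : ℝ => (∏ j, (wordSign opp (w j) : ℝ) ^ m j) *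
            ∑ d ∈ Fintype.piFinset (fun j => Finset.Icc (-(m j : ℤ)) (m j)),
              (∏ j, if Even ((m j : ℤ) + d j) then
                ((m j).choose (((m j : ℤ) + d j) / 2).toNat : ℝ) else 0) *
                (x ^ κ * ∑' k : ℤ, gg x d k)) (𝓝[≠] 0)
          (𝓝 ((∏ j, (wordSign opp (w j) : ℝ) ^ m j) *
            ∑ d ∈ Fintype.piFinset (fun j => Finset.Icc (-(m j : ℤ)) (m j)),
              (∏ j, if Even ((m j : ℤ) + d j) then
                ((m j).choose (((m j : ℤ) + d j) / 2).toNat : ℝ) else 0) * Λ d)) := by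
        refine Tendsto.const_mul _ ?_
        refine tendsto_finsetSum _ fun d _ => ?_
        exact (hlim d).const_mul _
      refine hlim2.congr' ?_
      have hev : ∀ᶠ x : ℝ in 𝓝[≠] 0, ∀ k : ℤ, x ≠ k := by
        have h1 : ∀ᶠ x : ℝ in 𝓝[≠] 0, x ∈ Set.Ioo (-1 : ℝ) 1 :=
          mem_nhdsWithin_of_mem_nhds (Ioo_mem_nhds (by norm_num) (by norm_num))
        filter_upwards [h1, self_mem_nhdsWithin] with x hx hx0 k hk
        rw [hk] at hx
        have h2 : (-1 : ℤ) < k := by exact_mod_cast hx.1
        have h3 : k < (1 : ℤ) := by exact_mod_cast hx.2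
        have h4 : k = 0 := by omega
        rw [h4, Int.cast_zero] at hk
        exact hx0 hk
      filter_upwards [hev] with x hx
      rw [hval x hx]
      simp only [Finset.mul_sum]
      refine Finset.sum_congr rfl fun d _ => ?_
      ring
    · rintro ⟨i, hi⟩
      refine Finset.sum_eq_zero fun d _ => ?_
      by_cases hd : ∀ j, Even ((m j : ℤ) + d j)
      · by_cases hb : BalP opp (dst d : PT w (fun _ => 1) → ℤ)
        · exact absurd hi (bal_parity hinv hne m d hd hb i)
        · simp only [Λ, if_neg hb, mul_zero]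
      · push Not at hd
        obtain ⟨j, hj⟩ := hd
        rw [Finset.prod_eq_zero (Finset.mem_univ j) (if_neg hj), zero_mul]

end Pool.Agent.AMU.Ter
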