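import Pool.Agent.Lib.AMU.Asm2

/-!
# The unconditional part: the state sums themselves

For every element which is not trivial, not simple and not a proper power and for all large odd
levels there is a root of unity at which the invariant of the closed braid of the element is
larger, in absolute value, than the invariant of the closed braid of the trivial element. No
representation occurs in the statements.
-/

set_option autoImplicit false

open Filter Topology

namespace Pool.Agent.AMU.Lim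

/-- `closed_bound` with the inequality of the state sums as hypothesis. -/
theorem closed_boundU {g : ℕ} (hg : 2 ≤ g) {c : ℕ} (hc : Even c)
    {w : List (ZMod (4 * g))} (hw : w ≠ []) {ord : ℕ → ℤ}
    (hinf : ∀ p0 : ℕ, ∃ p, p0 ≤ p ∧ Odd p ∧ ∀ A : ℂ, IsPrimitiveRoot A (2 * p) →
      ‖Z (closedOpp g) w ord p A (fun _ => 1) c‖ ≤
        ‖Z (closedOpp g) (w1 (closedOpp g)) ord1 p A (fun _ => 1) c‖)
    {L : ℝ} (hL : Tendsto (fun x : ℝ => x ^ (2 * g - 2) * coreCol (closedOpp g) w ord c 1 x)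
      (𝓝[≠] 0) (𝓝 L)) : |L| ≤ c + 1 := by
  have hg1 : 1 ≤ g := by omega
  have hG := glue_closed hg1
  have hχ := chiT_closed hg1
  have hχκ : chiT (closedOpp g) 1 = -((2 * g - 2 : ℕ) : ℤ) := by
    rw [hχ]; omega
  have hχ2 : chiT (closedOpp g) 1 ≤ -2 := by omega
  have hχe : Even (chiT (closedOpp g) 1) := by
    rw [hχ]; exact ⟨1 - g, by ring⟩
  have hκ : 2 ≤ 2 * g - 2 := by omega
  have hκe : Even (2 * g - 2) := ⟨g - 1, by omega⟩
  obtain ⟨C, hC⟩ := main_lim w ord hG hw hc hχ2 hχe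
  obtain ⟨C1, hC1⟩ := main_lim (w1 (closedOpp g)) ord1 hG (w1_ne _) hc hχ2 hχe
  set f1 : ℝ → ℝ := fun x => (c + 1) * ∑' i : ℤ, ((x + i) ^ (2 * g - 2))⁻¹ with hf1
  have hf1nn : ∀ x, 0 ≤ f1 x := by
    intro x
    refine mul_nonneg (by positivity) (tsum_nonneg fun i => ?_)
    exact inv_nonneg.2 (hκe.pow_nonneg _)
  have hzs : ∀ a, zs (coreCol (closedOpp g) (w1 (closedOpp g)) ord1 c 1) a = zs f1 a :=
    fun a => zs_congr fun x hx => coreCol_w1 hG hc hκ hχκ hx
  have hzsnn : ∀ a, 0 ≤ zs f1 a := fun a => Finset.sum_nonneg fun k _ => hf1nn _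
  have hper1 : ∀ x, f1 (x + 1) = f1 x := by
    intro x
    simp only [hf1, invSum_periodic]
  have hb1 : ∀ δ : ℝ, 0 < δ → ∃ C : ℝ, ∀ x : ℝ, δ ≤ x → x ≤ 1 - δ → |f1 x| ≤ C := by
    intro δ hδ
    obtain ⟨B, hB⟩ := invSum_bound hκ δ hδ
    refine ⟨(c + 1) * B, fun x hx1 hx2 => ?_⟩
    simp only [hf1]
    rw [abs_mul, abs_of_nonneg (by positivity : (0 : ℝ) ≤ (c : ℝ) + 1)]
    exact mul_le_mul_of_nonneg_left (hB x hx1 hx2) (by positivity)
  have hL1 : Tendsto (fun x : ℝ => x ^ (2 * g - 2) * f1 x) (𝓝[≠] 0) (𝓝 (c + 1)) := by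
    have h1 := (invSum_tendsto hκ).const_mul ((c : ℝ) + 1)
    rw [mul_one] at h1
    refine h1.congr fun x => ?_
    simp only [hf1]
    ring
  let X : ℕ → ℕ → ℂ := fun a p =>
    ∑ n ∈ Finset.range p, colT (closedOpp g) w ord c 1 (Aj a p) p n
  let X1 : ℕ → ℕ → ℂ := fun a p =>
    ∑ n ∈ Finset.range p, colT (closedOpp g) (w1 (closedOpp g)) ord1 c 1 (Aj a p) p n
  have hY : ∀ a : ℕ, ∀ᶠ p : ℕ in atTop, Odd p → |‖X1 a p‖ - zs f1 a| ≤ C1 := by
    intro a
    filter_upwards [hC1 a] with p hp hodd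
    have h1 := hp hodd
    rw [hzs] at h1
    refine le_trans ?_ h1
    have h2 := abs_norm_sub_norm_le (X1 a p) ((zs f1 a : ℝ) : ℂ)
    rw [Complex.norm_real, Real.norm_of_nonneg (hzsnn a)] at h2
    exact h2
  have key := compare hκ hκe (coreCol_periodic w ord c 1) hper1 hper1
    (coreCol_bound w ord hG c hχ2) hb1 hb1 hL hL1 hL1 X (fun a p => ‖X1 a p‖)
    (fun a p => ‖X1 a p‖) hC hY hY (fun _ _ => norm_nonneg _) (fun _ _ => norm_nonneg _) (by
      intro p0
      obtain ⟨p, hp, hodd, hall⟩ := hinf (max p0 3)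
      have hp3 : 3 ≤ p := (le_max_right _ _).trans hp
      refine ⟨p, (le_max_left _ _).trans hp, hodd, fun a => ?_⟩
      have h1 := hall _ (Aj_prim (a := a) hodd)
      rw [Z_closed hg1, Z_closed hg1, norm_mul, norm_mul] at h1
      have h2 : ‖X a p‖ ≤ ‖X1 a p‖ := le_of_mul_le_mul_left h1
        (norm_pos_iff.2 (Np_ne _ hodd hp3 (Aj_prim hodd)))
      rw [← sq]
      exact pow_le_pow_left₀ (norm_nonneg _) h2 2)
  have h3 : |L| ^ 2 ≤ ((c : ℝ) + 1) ^ 2 := by
    rw [sq_abs, sq ((c : ℝ) + 1)]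
    exact key
  exact (sq_le_sq₀ (abs_nonneg L) (by positivity)).1 h3

/-- `punctured_bound` with the inequality of the state sums as hypothesis. -/
theorem punctured_boundU {N : ℕ} [NeZero N] {opp : ZMod N → ZMod N} (hG : Glue opp) (hN : 4 ≤ N)
    {c : ℕ} (hc : Even c) {w : List (ZMod N)} (hw : w ≠ []) {ord : ℕ → ℤ}
    (hinf : ∀ p0 : ℕ, ∃ p, p0 ≤ p ∧ Odd p ∧ ∀ A : ℂ, IsPrimitiveRoot A (2 * p) →
      ∀ lam, IsColouring opp p lam →
        ‖Z opp w ord p A lam c‖ ≤ ‖Z opp (w1 opp) ord1 p A lam c‖)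
    {L : ℝ} (hL : Tendsto (fun x : ℝ => x ^ (N - 2) *
      coreCol opp w ord c (1 - ((canonN opp).card : ℤ)) x) (𝓝[≠] 0) (𝓝 L)) : |L| ≤ c + 1 := by
  have hcard := canon_card opp hG
  have hχκ : chiT opp (1 - ((canonN opp).card : ℤ)) = -((N - 2 : ℕ) : ℤ) := by
    unfold chiT; omega
  have hχ2 : chiT opp (1 - ((canonN opp).card : ℤ)) ≤ -2 := by omega
  have hχe : Even (chiT opp (1 - ((canonN opp).card : ℤ))) :=
    ⟨1 - (canonN opp).card, by unfold chiT; ring⟩
  have hχ0 : 2 * chiT opp 0 = -((N - 2 : ℕ) : ℤ) := by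
    unfold chiT; omega
  have hκ : 2 ≤ N - 2 := by omega
  have hκe : Even (N - 2) := ⟨(canonN opp).card - 1, by omega⟩
  obtain ⟨C, hC⟩ := main_lim w ord hG hw hc hχ2 hχe
  obtain ⟨C1, hC1⟩ := sq_lim hG hc hκ hχ0
  obtain ⟨C2, hC2⟩ := sq_lim hG (c := 0) ⟨0, rfl⟩ hκ hχ0
  have hper : ∀ b : ℝ, ∀ x : ℝ, b * ∑' i : ℤ, ((x + 1 + i) ^ (N - 2))⁻¹ =
      b * ∑' i : ℤ, ((x + i) ^ (N - 2))⁻¹ := by
    intro b x
    rw [invSum_periodic]
  have hb : ∀ b : ℝ, ∀ δ : ℝ, 0 < δ → ∃ C : ℝ, ∀ x : ℝ, δ ≤ x → x ≤ 1 - δ →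
      |b * ∑' i : ℤ, ((x + i) ^ (N - 2))⁻¹| ≤ C := by
    intro b δ hδ
    obtain ⟨B, hB⟩ := invSum_bound hκ δ hδ
    refine ⟨|b| * B, fun x hx1 hx2 => ?_⟩
    rw [abs_mul]
    exact mul_le_mul_of_nonneg_left (hB x hx1 hx2) (abs_nonneg b)
  have hLb : ∀ b : ℝ, Tendsto (fun x : ℝ => x ^ (N - 2) *
      (b * ∑' i : ℤ, ((x + i) ^ (N - 2))⁻¹)) (𝓝[≠] 0) (𝓝 b) := by
    intro b
    have h1 := (invSum_tendsto hκ).const_mul b
    rw [mul_one] at h1
    refine h1.congr fun x => ?_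
    ring
  have key := compare hκ hκe (coreCol_periodic w ord c _) (hper (((c : ℝ) + 1) ^ 2))
    (hper ((((0 : ℕ) : ℝ) + 1) ^ 2)) (coreCol_bound w ord hG c hχ2) (hb _) (hb _) hL (hLb _)
    (hLb _) (fun a p => ∑ n ∈ Finset.range p,
      colT opp w ord c (1 - ((canonN opp).card : ℤ)) (Aj a p) p n)
    (fun a p => ∑ n ∈ Finset.range p, ‖colT opp (w1 opp) ord1 c 0 (Aj a p) p n‖ ^ 2)
    (fun a p => ∑ n ∈ Finset.range p, ‖colT opp (w1 opp) ord1 0 0 (Aj a p) p n‖ ^ 2)
    hC hC1 hC2 (fun _ _ => Finset.sum_nonneg fun _ _ => by positivity)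
    (fun _ _ => Finset.sum_nonneg fun _ _ => by positivity) (by
      intro p0
      obtain ⟨p, hp, hodd, hall⟩ := hinf (max p0 3)
      have hp3 : 3 ≤ p := (le_max_right _ _).trans hp
      exact ⟨p, (le_max_left _ _).trans hp, hodd, fun a =>
        pun_ineq w ord hG hc hodd hp3 (Aj_prim hodd) (hall _ (Aj_prim hodd))⟩)
  have h3 : |L| ^ 2 ≤ ((c : ℝ) + 1) ^ 2 := by
    rw [sq_abs]
    simpa using key
  exact (sq_le_sq₀ (abs_nonneg L) (by positivity)).1 h3

end Pool.Agent.AMU.Lim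

namespace Pool.Agent.AMU.Asm

/-- The closed surfaces, without representations. -/
theorem closed_uncond {g : ℕ} (hg : 2 ≤ g) {c : ℕ} (hc : Even c) (hc0 : 0 < c)
    {γ : SurfaceGroup g} (hγ : γ ≠ 1)
    (hs : ¬ IsSimple (closedOpp g) (fun i => (PresentedGroup.of i : SurfaceGroup g)) γ)
    (hp : ¬ IsProperPower γ) {w : List (ZMod (4 * g))} (hw : w ≠ [])
    (hwγ : (w.map fun i => (PresentedGroup.of i : SurfaceGroup g)).prod = γ) {ord : ℕ → ℤ}
    (ho : Function.Injective ord) :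
    ∃ p₀ : ℕ, ∀ p, p₀ ≤ p → Odd p → ∃ A : ℂ, IsPrimitiveRoot A (2 * p) ∧
      ‖Z (closedOpp g) [0, closedOpp g 0] (fun k => (k : ℤ)) p A (fun _ => 1) c‖ <
        ‖Z (closedOpp g) w ord p A (fun _ => 1) c‖ := by
  have : NeZero (4 * g) := ⟨by omega⟩
  have H : HypModel (closedOpp g) (fun i => (PresentedGroup.of i : SurfaceGroup g)) True :=
    CModel.toHyp (closedModel hg) (by omega) closed_inv (closed_ne (show 1 ≤ g by omega))
      closed_rel (fun _ => Cor.closed_orb g (by omega))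
  have hK := fun (w : List (ZMod (4 * g))) (hw : w ≠ []) (ord : ℕ → ℤ)
    (hord : Function.Injective ord) (m : ℕ) (hm : Even m) (e : ℤ) (x : ℝ)
    (hx : ∀ k : ℤ, x ≠ k) =>
      Fun_eq_coreSum (closedOpp g) closed_inv (closed_ne (show 1 ≤ g by omega)) w hw ord hord m hm
        e x hx
  by_contra hcon
  push Not at hcon
  obtain ⟨L, hL1, hL2⟩ := Rec.recursion closed_inv (closed_ne (show 1 ≤ g by omega)) H
    (fun x hx => traceFun_FunC hg hx) (termEval_closed hg) (lim_zero_closed hg) hc hc0 hγ hs hp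
  have hb := Lim.closed_boundU hg hc hw (ord := ord) hcon (L := L) (by
      refine hL2.congr' ?_
      filter_upwards [Rec.eventually_not_int] with x hx
      congr 1
      symm
      refine coreCol_eq (closedOpp g) w _ c _ x (FunC hg x) γ fun i hi => ?_
      have h1 := FunC_map hg hx
        (Multiset.replicate (c - 2 * i) ((w.map PresentedGroup.of).prod))
      rw [Multiset.map_replicate, map_list_prod, List.map_map] at h1
      have h2 : (proj g ∘ PresentedGroup.of) =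
          (fun i => (PresentedGroup.of i : SurfaceGroup g)) := funext fun i => proj_of g i
      rw [h2, hwγ] at h1
      rw [h1]
      exact hK w hw _ ho _ (by
        obtain ⟨d, rfl⟩ := hc
        exact ⟨d - i, by omega⟩) _ x hx)
  have := le_abs_self L
  linarith

/-- The punctured surfaces, without representations. -/
theorem punctured_uncond {N : ℕ} (hN : 4 ≤ N) (opp : ZMod N → ZMod N)
    (hinv : ∀ i, opp (opp i) = i) (hne : ∀ i, opp i ≠ i) {c : ℕ} (hc : Even c) (hc0 : 0 < c)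
    {γ : PuncturedGroup opp} (hγ : γ ≠ 1)
    (hs : ¬ IsSimple opp (fun i => (PresentedGroup.of i : PuncturedGroup opp)) γ)
    (hp : ¬ IsProperPower γ) {w : List (ZMod N)} (hw : w ≠ [])
    (hwγ : (w.map fun i => (PresentedGroup.of i : PuncturedGroup opp)).prod = γ) {ord : ℕ → ℤ}
    (ho : Function.Injective ord) :
    ∃ p₀ : ℕ, ∀ p, p₀ ≤ p → Odd p → ∃ A : ℂ, IsPrimitiveRoot A (2 * p) ∧
      ∃ lam, IsColouring opp p lam ∧
        ‖Z opp [0, opp 0] (fun k => (k : ℤ)) p A lam c‖ < ‖Z opp w ord p A lam c‖ := by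
  have : NeZero N := ⟨by omega⟩
  obtain ⟨M⟩ := schottky opp hinv hne
  have H : HypModel opp (fun i => (PresentedGroup.of i : PuncturedGroup opp)) False :=
    CModel.toHyp M (by omega) hinv hne (punctured_rel opp) (fun h => h.elim)
  by_contra hcon
  push Not at hcon
  have hG : Lim.Glue opp := ⟨by omega, hinv, hne⟩
  have hcard := card_eq opp hinv hne
  have he : (1 - ((canon opp).card : ℤ)) + 1 - (canon opp).card ≤ -2 := by omega
  obtain ⟨L, hL1, hL2⟩ := Rec.recursion hinv hne H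
    (fun x hx => traceFun_Fun opp hinv hne hx (1 - ((canon opp).card : ℤ)) he)
    (termEval_punctured opp hinv hne hN)
    (lim_zero opp hinv hne (1 - ((canon opp).card : ℤ)) (N - 2) (by omega) (by omega)
      ⟨(canon opp).card - 1, by omega⟩) hc hc0 hγ hs hp
  have hb := Lim.punctured_boundU hG hN hc hw (ord := ord) hcon (L := L) (by
      refine hL2.congr' ?_
      filter_upwards [Rec.eventually_not_int] with x hx
      congr 1
      rw [canonN_card opp hG]
      symm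
      refine coreCol_eq opp w _ c _ x (Fun opp hinv hne (1 - ((canon opp).card : ℤ)) x) γ
        fun i hi => ?_
      rw [← hwγ]
      exact Fun_eq_coreSum opp hinv hne w hw _ ho _ (by
        obtain ⟨d, rfl⟩ := hc
        exact ⟨d - i, by omega⟩) _ x hx)
  have := le_abs_self L
  linarith

end Pool.Agent.AMU.Asm
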