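import Pool.Agent.Lib.AMU.Fun7

/-!
# Preparations for the relation at the vertex: ordered products and sums over steps
-/

set_option autoImplicit false

namespace Pool.Agent.AMU

section nc

variable {A : Type} [Ring A] [Algebra ℝ A]

omit [Algebra ℝ A] in
/-- Expansion of an ordered product of sums. -/
theorem ncprod {Z : Type} [Fintype Z] (n : ℕ) (f : Fin n → Z → A) :
    ∑ μ : Fin n → Z, (List.ofFn fun i => f i (μ i)).prod =
      (List.ofFn fun i => ∑ z, f i z).prod := by
  induction n with
  | zero => simp
  | succ n ih =>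
    rw [← (Fin.consEquiv (fun _ : Fin (n + 1) => Z)).sum_comp, Fintype.sum_prod_type,
      List.ofFn_succ, List.prod_cons, ← ih, Finset.sum_mul]
    refine Finset.sum_congr rfl fun z _ => ?_
    rw [Finset.mul_sum]
    refine Finset.sum_congr rfl fun μ _ => ?_
    rw [List.ofFn_succ, List.prod_cons]
    simp [Fin.consEquiv]

theorem smul_prod_ofFn (n : ℕ) (c : Fin n → ℝ) (f : Fin n → A) :
    (∏ i, c i) • (List.ofFn f).prod = (List.ofFn fun i => c i • f i).prod := by
  induction n with
  | zero => simp
  | succ n ih =>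
    rw [Fin.prod_univ_succ, List.ofFn_succ, List.prod_cons, List.ofFn_succ, List.prod_cons, ← ih]
    rw [smul_mul_assoc, mul_smul_comm, smul_smul]

omit [Algebra ℝ A] in
/-- Regrouping at the corners. -/
theorem regroup (n : ℕ) (F L R : ℕ → A) :
    ((List.range (n + 1)).map fun j => F j * L j * R j).prod =
      F 0 * L 0 * (List.ofFn fun i : Fin n => R i * F (i + 1) * L (i + 1)).prod * R n := by
  induction n with
  | zero => simp
  | succ n ih =>
    rw [List.range_succ, List.map_append, List.prod_append, ih, List.ofFn_succ',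
      List.concat_eq_append, List.prod_append]
    simp only [List.map_cons, List.map_nil, List.prod_cons, List.prod_nil, mul_one,
      Fin.val_castSucc, Fin.val_last, mul_assoc]

/-- The sum over the labels at the corners. -/
theorem corner_sum (n : ℕ) (F R : ℕ → Bool → A) (L : ℕ → A) (κ0 κ : Bool × Bool → ℝ) :
    ∑ lab : ZMod (n + 1) → Bool × Bool,
      (κ0 (lab 0) * ∏ j ∈ Finset.univ.erase (0 : ZMod (n + 1)), κ (lab j)) •
        ((List.range (n + 1)).map fun j : ℕ =>
          F j (lab (j : ZMod (n + 1))).2 * L j * R j (lab ((j : ZMod (n + 1)) + 1)).1).prod =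
      ∑ z : Bool × Bool, κ0 z • (F 0 z.2 * L 0 *
        (List.ofFn fun i : Fin n => (∑ z' : Bool × Bool, κ z' • (R i z'.1 * F (i + 1) z'.2)) *
          L (i + 1)).prod * R n z.1) := by
  have hcast : ∀ i : Fin n, ((i.val + 1 : ℕ) : ZMod (n + 1)) = (Fin.succ i : Fin (n + 1)) := by
    intro i
    apply ZMod.val_injective
    rw [ZMod.val_cast_of_lt (by have := i.isLt; omega)]
    rfl
  have hreg : ∀ lab : ZMod (n + 1) → Bool × Bool,
      ((List.range (n + 1)).map fun j : ℕ =>
          F j (lab (j : ZMod (n + 1))).2 * L j * R j (lab ((j : ZMod (n + 1)) + 1)).1).prod =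
      F 0 (lab 0).2 * L 0 * (List.ofFn fun i : Fin n => R i (lab (Fin.succ i : Fin (n + 1))).1 *
        F (i + 1) (lab (Fin.succ i : Fin (n + 1))).2 * L (i + 1)).prod * R n (lab 0).1 := by
    intro lab
    rw [regroup n (fun j => F j (lab (j : ZMod (n + 1))).2) L
      (fun j => R j (lab ((j : ZMod (n + 1)) + 1)).1)]
    have h0 : ((n : ZMod (n + 1)) + 1) = 0 := by
      have := ZMod.natCast_self (n + 1)
      push_cast at this
      exact this
    rw [h0, Nat.cast_zero]
    congr 4
    funext i
    have := hcast i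
    rw [← Nat.cast_succ, Nat.succ_eq_add_one, this]
  have hprod : ∀ lab : Fin (n + 1) → Bool × Bool,
      ∏ j ∈ Finset.univ.erase (0 : ZMod (n + 1)), κ (lab j) = ∏ i : Fin n, κ (lab (Fin.succ i)) := by
    intro lab
    symm
    refine Finset.prod_nbij (fun i : Fin n => (Fin.succ i : Fin (n + 1))) ?_ ?_ ?_ ?_
    · intro i _
      refine Finset.mem_erase.2 ⟨?_, Finset.mem_univ _⟩
      exact Fin.succ_ne_zero i
    · intro i _ j _ h
      exact Fin.succ_injective _ h
    · intro j hj
      have hj0 : (j : Fin (n + 1)) ≠ 0 := (Finset.mem_erase.1 hj).1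
      exact ⟨Fin.pred j hj0, by simp, Fin.succ_pred j hj0⟩
    · intro i _; rfl
  simp_rw [hreg]
  have key : ∑ lab : Fin (n + 1) → Bool × Bool,
      (κ0 (lab 0) * ∏ i : Fin n, κ (lab (Fin.succ i))) •
        (F 0 (lab 0).2 * L 0 * (List.ofFn fun i : Fin n => R i (lab (Fin.succ i)).1 *
        F (i + 1) (lab (Fin.succ i)).2 * L (i + 1)).prod * R n (lab 0).1) =
      ∑ z : Bool × Bool, κ0 z • (F 0 z.2 * L 0 *
        (List.ofFn fun i : Fin n => (∑ z' : Bool × Bool, κ z' • (R i z'.1 * F (i + 1) z'.2)) *
          L (i + 1)).prod * R n z.1) := by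
    rw [← (Fin.consEquiv (fun _ : Fin (n + 1) => Bool × Bool)).sum_comp, Fintype.sum_prod_type]
    refine Finset.sum_congr rfl fun z _ => ?_
    simp only [Fin.consEquiv, Equiv.coe_fn_mk, Fin.cons_zero, Fin.cons_succ]
    have h1 : ∀ μ : Fin n → Bool × Bool,
        (κ0 z * ∏ i : Fin n, κ (μ i)) •
          (F 0 z.2 * L 0 * (List.ofFn fun i : Fin n => R i (μ i).1 *
            F (i + 1) (μ i).2 * L (i + 1)).prod * R n z.1) =
        κ0 z • (F 0 z.2 * L 0 * (List.ofFn fun i : Fin n =>
          κ (μ i) • (R i (μ i).1 * F (i + 1) (μ i).2 * L (i + 1))).prod * R n z.1) := by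
      intro μ
      rw [← smul_prod_ofFn, mul_smul, mul_smul_comm, smul_mul_assoc]
    simp_rw [h1]
    rw [← Finset.smul_sum, ← Finset.sum_mul, ← Finset.mul_sum,
      ncprod n (fun i z' => κ z' • (R i z'.1 * F (i + 1) z'.2 * L (i + 1)))]
    congr 5
    funext i
    rw [Finset.sum_mul]
    refine Finset.sum_congr rfl fun z' _ => ?_
    rw [smul_mul_assoc]
  rw [← key]
  refine Finset.sum_congr rfl fun lab _ => ?_
  rw [hprod]
  rfl

end nc

/-! ## Sums over steps -/

theorem sumSteps_append {α : Type} (A B : List α) (f : List (α × Bool) → ℝ) :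
    sumSteps (A ++ B) f = sumSteps A (fun S => sumSteps B (fun S' => f (S ++ S'))) := by
  induction A generalizing f with
  | nil => rfl
  | cons a A ih =>
    simp only [List.cons_append, sumSteps, ih]

theorem sumSteps_comm {α : Type} (A B : List α) (f : List (α × Bool) → List (α × Bool) → ℝ) :
    sumSteps A (fun S => sumSteps B (fun S' => f S S')) =
      sumSteps B (fun S' => sumSteps A (fun S => f S S')) := by
  induction A generalizing f with
  | nil => rfl
  | cons a A ih =>
    simp only [sumSteps, ih, sumSteps_add]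

theorem sumSteps_mul {α : Type} (A : List α) (c : ℝ) (f : List (α × Bool) → ℝ) :
    sumSteps A (fun S => c * f S) = c * sumSteps A f := by
  induction A generalizing f with
  | nil => rfl
  | cons a A ih => simp only [sumSteps, ih]; ring

theorem sumSteps_sum {α ι : Type} (s : Finset ι) (A : List α) (f : ι → List (α × Bool) → ℝ) :
    sumSteps A (fun S => ∑ i ∈ s, f i S) = ∑ i ∈ s, sumSteps A (f i) := by
  induction A generalizing f with
  | nil => rfl
  | cons a A ih => simp only [sumSteps, ih, Finset.sum_add_distrib]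

theorem sumSteps_ofFn {α : Type} (n : ℕ) (s : Fin n → α) (G : List (α × Bool) → ℝ) :
    sumSteps (List.ofFn s) G = ∑ δ : Fin n → Bool, G (List.ofFn fun k => (s k, δ k)) := by
  induction n generalizing G with
  | zero => simp [sumSteps]
  | succ n ih =>
    rw [List.ofFn_succ, sumSteps, ih, ih, ← (Fin.consEquiv (fun _ : Fin (n + 1) => Bool)).sum_comp,
      Fintype.sum_prod_type, Fintype.sum_bool]
    congr 1 <;>
    · refine Finset.sum_congr rfl fun δ _ => ?_
      rw [List.ofFn_succ]
      simp [Fin.consEquiv]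

/-- The sum over the steps as a sum over functions. -/
theorem sumSteps_list {α ι : Type} [Fintype ι] [DecidableEq ι] (l : List ι) (hl : l.Nodup)
    (hl2 : ∀ i, i ∈ l) (s : ι → α) (G : List (α × Bool) → ℝ) :
    sumSteps (l.map s) G = ∑ ε : ι → Bool, G (l.map fun i => (s i, ε i)) := by
  have h1 : ∀ {β : Type} (t : ι → β), l.map t = List.ofFn fun k : Fin l.length => t (l.get k) := by
    intro β t
    apply List.ext_getElem
    · simp
    · intro i h1 h2
      simp
  rw [h1, sumSteps_ofFn]
  let e : Fin l.length ≃ ι := List.Nodup.getEquivOfForallMemList l hl hl2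
  rw [← (e.arrowCongr (Equiv.refl Bool)).sum_comp]
  refine Finset.sum_congr rfl fun δ _ => ?_
  rw [h1]
  congr 2
  funext k
  congr 1
  show δ k = δ (e.symm (e k))
  rw [e.symm_apply_apply]

theorem sumSteps_two {α ι : Type} [Fintype ι] [DecidableEq ι] (l l' : List ι)
    (hl : (l ++ l').Nodup) (hl2 : ∀ i, i ∈ l ++ l') (s : ι → α)
    (G : List (α × Bool) → List (α × Bool) → ℝ) :
    sumSteps (l.map s) (fun S => sumSteps (l'.map s) (fun S' => G S S')) =
      ∑ ε : ι → Bool, G (l.map fun i => (s i, ε i)) (l'.map fun i => (s i, ε i)) := by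
  have hlen : ∀ (A : List α) (f f' : List (α × Bool) → ℝ),
      (∀ S : List (α × Bool), S.length = A.length → f S = f' S) →
      sumSteps A f = sumSteps A f' := by
    intro A
    induction A with
    | nil => intro f f' h; exact h [] rfl
    | cons a A ih =>
      intro f f' h
      simp only [sumSteps]
      rw [ih (fun S => f ((a, true) :: S)) (fun S => f' ((a, true) :: S))
        (fun S hS => h _ (by simp [hS])),
        ih (fun S => f ((a, false) :: S)) (fun S => f' ((a, false) :: S))
        (fun S hS => h _ (by simp [hS]))]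
  have h := sumSteps_list (l ++ l') hl hl2 s
    (fun S => G (S.take l.length) (S.drop l.length))
  rw [List.map_append, sumSteps_append] at h
  have h2 : sumSteps (l.map s) (fun S => sumSteps (l'.map s) (fun S' => G S S')) =
      sumSteps (l.map s) (fun S => sumSteps (l'.map s) (fun S' =>
        G ((S ++ S').take l.length) ((S ++ S').drop l.length))) := by
    refine hlen _ _ _ fun S hS => ?_
    rw [List.length_map] at hS
    simp [← hS]
  rw [h2, h]
  refine Finset.sum_congr rfl fun ε _ => ?_
  simp

/-- Exchange of the sum over the steps and a series. -/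
theorem tsum_sumSteps {α : Type} (A : List α) (F : ℤ → List (α × Bool) → ℝ)
    (h : ∀ S, Summable fun k => F k S) :
    (Summable fun k => sumSteps A (F k)) ∧
      ∑' k, sumSteps A (F k) = sumSteps A (fun S => ∑' k, F k S) := by
  induction A generalizing F with
  | nil => exact ⟨h [], rfl⟩
  | cons a A ih =>
    obtain ⟨h1, h2⟩ := ih (fun k S => F k ((a, true) :: S)) (fun S => h _)
    obtain ⟨h3, h4⟩ := ih (fun k S => F k ((a, false) :: S)) (fun S => h _)
    refine ⟨h1.add h3, ?_⟩
    simp only [sumSteps]
    rw [h1.tsum_add h3, h2, h4]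

end Pool.Agent.AMU
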