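import Pool.Agent.Lib.AMU.Vert1

/-!
# The strands around the vertex
-/

set_option autoImplicit false

namespace Pool.Agent.AMU

section

variable {N : ℕ} [NeZero N] (opp : ZMod N → ZMod N)

/-- The strand of the letter `v` of the word of the vertex; `lab j` are the labels of the two
points at the corner `j`. -/
def vstr (lab : ZMod N → Bool × Bool) (v : ZMod N) : Strand N :=
  if v.val < (opp v).val then (v, (lab v).2, (lab (opp v + 1)).1)
  else (opp v, (lab (opp v + 1)).1, (lab v).2)

/-- The list of the canonical sides. -/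
noncomputable def canL : List (ZMod N) := (canon opp).toList

/-- The list of the other sides. -/
noncomputable def ncL : List (ZMod N) := (canL opp).map opp

/-- The strands which depart from canonical sides; `ε v` is the step at the side `v`. -/
noncomputable def vfst (lab : ZMod N → Bool × Bool) (ε : ZMod N → Bool) :
    List (Strand N × Bool) := (canL opp).map fun v => (vstr opp lab v, ε v)

/-- The strands which depart from the other sides. -/
noncomputable def vlst (lab : ZMod N → Bool × Bool) (ε : ZMod N → Bool) :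
    List (Strand N × Bool) := (ncL opp).map fun v => (vstr opp lab v, !ε v)

theorem mem_canL (v : ZMod N) : v ∈ canL opp ↔ v.val < (opp v).val := by
  simp [canL, canon]

theorem nodup_canL : (canL opp).Nodup := Finset.nodup_toList _

theorem filter_single {ι β : Type} [DecidableEq ι] (l : List ι) (hl : l.Nodup) (i : ι)
    (hi : i ∈ l) (f : ι → β) (p : β → Bool) (h : ∀ v ∈ l, p (f v) = decide (v = i)) :
    (l.map f).filter p = [f i] := by
  rw [List.filter_map]
  have : l.filter (p ∘ f) = [i] := by
    have h1 : l.filter (p ∘ f) = l.filter (fun v => v == i) := by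
      refine List.filter_congr (fun v hv => ?_)
      rw [Function.comp_apply, h v hv]
      rfl
    rw [h1, List.filter_beq, List.count_eq_one_of_mem hl hi]
    rfl
  rw [this]
  rfl

variable (hinv : ∀ i, opp (opp i) = i) (hne : ∀ i, opp i ≠ i)

omit [NeZero N] in
theorem vstr_can (lab : ZMod N → Bool × Bool) (v : ZMod N) (hv : v.val < (opp v).val) :
    vstr opp lab v = (v, (lab v).2, (lab (opp v + 1)).1) := by
  rw [vstr, if_pos hv]

omit [NeZero N] in
include hinv in
theorem vstr_opp (lab : ZMod N → Bool × Bool) (i : ZMod N) (hi : i.val < (opp i).val) :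
    vstr opp lab (opp i) = (i, (lab (i + 1)).1, (lab (opp i)).2) := by
  rw [vstr, hinv, if_neg (by omega)]

theorem filter_vfst (lab : ZMod N → Bool × Bool) (ε : ZMod N → Bool) (i : ZMod N)
    (hi : i.val < (opp i).val) :
    (vfst opp lab ε).filter (fun t => decide (t.1.1 = i)) =
      [((i, (lab i).2, (lab (opp i + 1)).1), ε i)] := by
  rw [← vstr_can opp lab i hi]
  refine filter_single _ (nodup_canL opp) i ((mem_canL opp i).2 hi) _ _ fun v hv => ?_
  rw [mem_canL] at hv
  rw [vstr_can opp lab v hv]

include hinv in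
theorem filter_vlst (lab : ZMod N → Bool × Bool) (ε : ZMod N → Bool) (i : ZMod N)
    (hi : i.val < (opp i).val) :
    (vlst opp lab ε).filter (fun t => decide (t.1.1 = i)) =
      [((i, (lab (i + 1)).1, (lab (opp i)).2), !ε (opp i))] := by
  unfold vlst ncL
  rw [List.map_map, ← vstr_opp opp hinv lab i hi]
  refine filter_single (canL opp) (nodup_canL opp) i ((mem_canL opp i).2 hi)
    ((fun v => (vstr opp lab v, !ε v)) ∘ opp) _ fun v hv => ?_
  rw [mem_canL] at hv
  rw [Function.comp_apply, vstr_opp opp hinv lab v hv]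

include hinv in
theorem steps_v (lab : ZMod N → Bool × Bool) (ε : ZMod N → Bool) (S : List (Strand N × Bool))
    (i : ZMod N) (hi : i.val < (opp i).val) :
    steps (vfst opp lab ε ++ S ++ vlst opp lab ε) i =
      ε i :: (steps S i ++ [!ε (opp i)]) := by
  unfold steps
  rw [List.filter_append, List.filter_append, filter_vfst opp lab ε i hi,
    filter_vlst opp hinv lab ε i hi]
  simp

include hinv hne in
theorem side_v (lab : ZMod N → Bool × Bool) (ε : ZMod N → Bool) (S : List (Strand N × Bool))
    (j : ZMod N) :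
    sideWord opp (vfst opp lab ε ++ S ++ vlst opp lab ε) j =
      (ε j, (lab j).2) :: (sideWord opp S j ++ [(!ε (opp j), (lab (j + 1)).1)]) := by
  by_cases hj : j.val < (opp j).val
  · unfold sideWord
    rw [if_pos hj, if_pos hj, List.filter_append, List.filter_append,
      filter_vfst opp lab ε j hj, filter_vlst opp hinv lab ε j hj]
    simp
  · have h := val_ne opp hne j
    have hj' : (opp j).val < (opp (opp j)).val := by rw [hinv]; omega
    unfold sideWord
    rw [if_neg hj, if_neg hj, List.filter_append, List.filter_append,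
      filter_vfst opp lab ε _ hj', filter_vlst opp hinv lab ε _ hj']
    simp [hinv]

/-- The balance condition for the strands around the vertex. -/
def VBal (ε : ZMod N → Bool) (S : List (Strand N × Bool)) : Prop :=
  ∀ i : ZMod N, i.val < (opp i).val →
    sgn (ε i) + (stepSum (steps S i) - sgn (ε (opp i))) = 0

include hinv in
theorem bal_v (lab : ZMod N → Bool × Bool) (ε : ZMod N → Bool) (S : List (Strand N × Bool)) :
    Bal opp (vfst opp lab ε ++ S ++ vlst opp lab ε) ↔ VBal opp ε S := by
  unfold Bal VBal
  refine forall_congr' fun i => forall_congr' fun hi => ?_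
  rw [steps_v opp hinv lab ε S i hi]
  simp [sub_eq_add_neg]

include hinv hne in
theorem stepSum_v (ε : ZMod N → Bool) (S : List (Strand N × Bool)) (h : VBal opp ε S)
    (j : ZMod N) :
    sgn (ε j) + stepSum ((sideWord opp S j).map Prod.fst) = sgn (ε (opp j)) := by
  by_cases hj : j.val < (opp j).val
  · rw [fst_sideWord_can opp _ _ hj]
    have := h j hj
    linarith
  · have h0 := val_ne opp hne j
    have hj' : (opp j).val < (opp (opp j)).val := by rw [hinv]; omega
    have h2 := fst_sideWord_opp opp hinv S (opp j) hj'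
    rw [hinv] at h2
    rw [h2, stepSum_reverse, stepSum_map_not]
    have := h (opp j) hj'
    rw [hinv] at this
    linarith

/-- The operator of a side. -/
theorem W_side (y : ℝ) (a b : Bool) (x x' : Bool) (w : List (Bool × Bool))
    (h : sgn a + stepSum (w.map Prod.fst) = sgn b) :
    (W y 0 ((a, x) :: (w ++ [(!b, x')])) : Module.End ℝ Fn) =
      opL y 0 (a, x) * W y (sgn a) w * opL y (sgn b) (!b, x') := by
  rw [W, W_append, zero_add, h]
  rfl

/-- The contraction at a corner. -/
theorem corner_eq (y : ℝ) (b : Bool) :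
    ∑ z : Bool × Bool, ep z.1 z.2 •
      ((opL y (sgn b) (!b, z.1) : Module.End ℝ Fn) * opL y 0 (b, z.2)) =
      (-dl y 0) • (1 : Module.End ℝ Fn) := by
  refine LinearMap.ext fun φ => ?_
  have h := pr_sub y (sgn b) (!b) φ
  have e1 : sgn b + sgn (!b) = 0 := by rw [sgn_not]; ring
  unfold pr at h
  rw [e1, Bool.not_not] at h
  rw [Fintype.sum_prod_type, Fintype.sum_bool, Fintype.sum_bool, Fintype.sum_bool]
  simp only [ep, zero_smul, zero_add, add_zero, one_smul, neg_smul, LinearMap.add_apply,
    LinearMap.smul_apply, Module.End.mul_apply, Module.End.one_apply] at h ⊢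
  rw [← h]
  simp only [LinearMap.comp_apply]
  abel

/-- The contraction at a corner with equal steps. -/
theorem corner_ne (y : ℝ) (b : Bool) :
    ∑ z : Bool × Bool, ep z.1 z.2 •
      ((opL y (sgn b) (!b, z.1) : Module.End ℝ Fn) * opL y 0 (!b, z.2)) = 0 := by
  refine LinearMap.ext fun φ => ?_
  have h := opL_comm y (sgn b) (!b) false true φ
  have e1 : sgn b + sgn (!b) = 0 := by rw [sgn_not]; ring
  rw [e1] at h
  rw [Fintype.sum_prod_type, Fintype.sum_bool, Fintype.sum_bool, Fintype.sum_bool]
  simp [ep, h]

/-- The weight of the labels at the corners; the labels at the corner `0` are given. -/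
noncomputable def kap (β α : Bool) (lab : ZMod N → Bool × Bool) : ℝ :=
  (if lab 0 = (β, α) then 1 else 0) *
    ∏ j ∈ Finset.univ.erase (0 : ZMod N), ep (lab j).1 (lab j).2

include hinv hne in
/-- The sum over the labels. -/
theorem vsum (y : ℝ) (β α : Bool) (ε : ZMod N → Bool) (S : List (Strand N × Bool))
    (h : VBal opp ε S) :
    ∃ n : ℕ, N = n + 1 ∧
    ∑ lab : ZMod N → Bool × Bool,
      kap β α lab • bdry opp y (vfst opp lab ε ++ S ++ vlst opp lab ε) =
      (opL y 0 (ε 0, α) : Module.End ℝ Fn) * W y (sgn (ε 0)) (sideWord opp S 0) *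
        (List.ofFn fun i : Fin n => (∑ z : Bool × Bool, ep z.1 z.2 •
          ((opL y (sgn (ε (opp ((i : ℕ) : ZMod N)))) (!ε (opp ((i : ℕ) : ZMod N)), z.1) :
            Module.End ℝ Fn) * opL y 0 (ε ((i + 1 : ℕ) : ZMod N), z.2))) *
          W y (sgn (ε ((i + 1 : ℕ) : ZMod N))) (sideWord opp S ((i + 1 : ℕ) : ZMod N))).prod *
        opL y (sgn (ε (opp ((n : ℕ) : ZMod N)))) (!ε (opp ((n : ℕ) : ZMod N)), β) := by
  obtain ⟨n, rfl⟩ : ∃ n, N = n + 1 := ⟨N - 1, by have := NeZero.ne N; omega⟩
  refine ⟨n, rfl, ?_⟩
  have hb : ∀ lab : ZMod (n + 1) → Bool × Bool,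
      bdry opp y (vfst opp lab ε ++ S ++ vlst opp lab ε) =
      ((List.range (n + 1)).map fun j : ℕ =>
          (opL y 0 (ε (j : ZMod (n + 1)), (lab (j : ZMod (n + 1))).2) : Module.End ℝ Fn) *
          W y (sgn (ε (j : ZMod (n + 1)))) (sideWord opp S (j : ZMod (n + 1))) *
          opL y (sgn (ε (opp (j : ZMod (n + 1))))) (!ε (opp (j : ZMod (n + 1))),
            (lab ((j : ZMod (n + 1)) + 1)).1)).prod := by
    intro lab
    unfold bdry
    congr 1
    refine List.map_congr_left fun j _ => ?_
    rw [side_v opp hinv hne, W_side y _ _ _ _ _ (stepSum_v opp hinv hne ε S h _)]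
  have hc := corner_sum n
    (fun j x => (opL y 0 (ε (j : ZMod (n + 1)), x) : Module.End ℝ Fn))
    (fun j x => opL y (sgn (ε (opp (j : ZMod (n + 1))))) (!ε (opp (j : ZMod (n + 1))), x))
    (fun j => W y (sgn (ε (j : ZMod (n + 1)))) (sideWord opp S (j : ZMod (n + 1))))
    (fun z => if z = (β, α) then 1 else 0) (fun z => ep z.1 z.2)
  simp only [kap, hb]
  rw [hc, Fintype.sum_eq_single (β, α)]
  · simp
  · intro z hz
    rw [if_neg hz, zero_smul]

end

end Pool.Agent.AMU
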