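import Pool.Agent.Lib.AMU.Vert2

/-!
# The relation at the vertex for fixed steps of the other strands
-/

set_option autoImplicit false

namespace Pool.Agent.AMU

theorem ofFn_range {A : Type} (n : ℕ) (L : ℕ → A) :
    (List.range (n + 1)).map L = L 0 :: List.ofFn fun i : Fin n => L (i + 1) := by
  apply List.ext_getElem
  · simp
  · intro i h1 h2
    rcases i with _ | i
    · simp
    · simp

theorem wprod_concat (y : ℝ) (s : ℤ) (l : List Bool) (b : Bool) :
    wprod y s (l ++ [b]) = wprod y s l * (dl y (s + stepSum l + sgn b))⁻¹ := by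
  induction l generalizing s with
  | nil => simp [wprod]
  | cons c l ih =>
    simp only [List.cons_append, wprod, ih, stepSum_cons]
    rw [← add_assoc, mul_assoc]

theorem dl_shift (y : ℝ) (s : ℤ) (f : Bool) : dl y (s + sgn f) = -dl (y + sgn f) s := by
  cases f
  · rw [show sgn false = -1 from rfl, ← sub_eq_add_neg]
    simp only [dl, m1_pred]
    push_cast
    ring
  · rw [show sgn true = 1 from rfl]
    simp only [dl, m1_succ]
    push_cast
    ring

theorem wprod_shift (y : ℝ) (s : ℤ) (f : Bool) (l : List Bool) :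
    wprod y (s + sgn f) l = (-1) ^ (l.length + 1) * wprod (y + sgn f) s l := by
  induction l generalizing s with
  | nil =>
    simp only [wprod, List.length_nil, zero_add, pow_one, dl_shift]
    rw [inv_neg]
    ring
  | cons c l ih =>
    simp only [wprod, List.length_cons]
    rw [add_right_comm, ih, dl_shift, inv_neg, pow_succ (-1 : ℝ) (l.length + 1)]
    ring

theorem dl_zero (y : ℝ) : dl y 0 = y := by simp [dl]

section

variable {N : ℕ} [NeZero N] (opp : ZMod N → ZMod N)

/-- The boundary word. -/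
noncomputable def wall (S : List (Strand N × Bool)) : List (Bool × Bool) :=
  (List.range N).flatMap fun j : ℕ => sideWord opp S (j : ZMod N)

variable (hinv : ∀ i, opp (opp i) = i) (hne : ∀ i, opp i ≠ i)

include hinv hne

theorem stepSum_wall (S : List (Strand N × Bool)) (hS : Bal opp S) :
    stepSum ((wall opp S).map Prod.fst) = 0 := by
  unfold wall
  induction List.range N with
  | nil => rfl
  | cons a l ih =>
    rw [List.flatMap_cons, List.map_append, stepSum_append, ih,
      stepSum_side opp hinv hne S hS, add_zero]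

theorem down_wall (S : List (Strand N × Bool)) :
    down (wall opp S) = ∑ i ∈ canon opp, (steps S i).length := by
  unfold wall
  rw [down_flatMap, sum_canon opp hinv hne (fun j => down (sideWord opp S j))]
  exact Finset.sum_congr rfl fun i hi => down_side opp hinv S i (by simpa [canon] using hi)

theorem card_eq : N = 2 * (canon opp).card := by
  have := sum_canon opp hinv hne (fun _ => 1)
  simp at this
  omega

theorem vsum_zero (y : ℝ) (β α : Bool) (ε : ZMod N → Bool) (S : List (Strand N × Bool))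
    (h : VBal opp ε S) (hj : ∃ j : ZMod N, j ≠ 0 ∧ ε j ≠ ε (opp (j - 1))) :
    ∑ lab : ZMod N → Bool × Bool,
      kap β α lab • bdry opp y (vfst opp lab ε ++ S ++ vlst opp lab ε) = 0 := by
  obtain ⟨n, hn, hsum⟩ := vsum opp hinv hne y β α ε S h
  rw [hsum]
  obtain ⟨j, hj0, hj⟩ := hj
  have hz : (List.ofFn fun i : Fin n => (∑ z : Bool × Bool, ep z.1 z.2 •
          ((opL y (sgn (ε (opp ((i : ℕ) : ZMod N)))) (!ε (opp ((i : ℕ) : ZMod N)), z.1) :
            Module.End ℝ Fn) * opL y 0 (ε ((i + 1 : ℕ) : ZMod N), z.2))) *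
          W y (sgn (ε ((i + 1 : ℕ) : ZMod N))) (sideWord opp S ((i + 1 : ℕ) : ZMod N))).prod = 0 := by
    apply List.prod_eq_zero
    rw [List.mem_ofFn]
    have hv : 0 < j.val := by
      rw [Nat.pos_iff_ne_zero]
      intro h0
      exact hj0 ((ZMod.val_eq_zero j).1 h0)
    have hlt := ZMod.val_lt j
    refine ⟨⟨j.val - 1, by omega⟩, ?_⟩
    have e1 : ((j.val - 1 + 1 : ℕ) : ZMod N) = j := by
      rw [Nat.sub_add_cancel hv]; simp
    have e2 : ((j.val - 1 : ℕ) : ZMod N) = j - 1 := by
      rw [Nat.cast_sub hv]; simp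
    simp only [e1, e2]
    have e3 : ε j = !ε (opp (j - 1)) := by
      cases h1 : ε j <;> cases h2 : ε (opp (j - 1)) <;> simp_all
    rw [e3, corner_ne, zero_mul]
  rw [hz, mul_zero, zero_mul]

omit [NeZero N] hinv hne in
theorem VBal_const (f : Bool) (S : List (Strand N × Bool)) :
    VBal opp (fun _ => f) S ↔ Bal opp S := by
  unfold VBal Bal
  refine forall_congr' fun i => forall_congr' fun _ => ?_
  constructor <;> intro h <;> linarith

theorem vsum_const (y : ℝ) (β α f : Bool) (S : List (Strand N × Bool)) (hS : Bal opp S) :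
    ∑ lab : ZMod N → Bool × Bool,
      kap β α lab • bdry opp y (vfst opp lab (fun _ => f) ++ S ++ vlst opp lab (fun _ => f)) =
      (-dl y 0) ^ (N - 1) • (W y 0 ((f, α) :: (wall opp S ++ [(!f, β)])) : Module.End ℝ Fn) := by
  obtain ⟨n, hn, hsum⟩ := vsum opp hinv hne y β α (fun _ => f) S ((VBal_const opp f S).2 hS)
  rw [hsum]
  simp only [corner_eq, smul_mul_assoc, one_mul]
  have hsm := smul_prod_ofFn n (fun _ => -dl y 0) (fun i : Fin n =>
    (W y (sgn f) (sideWord opp S ((i + 1 : ℕ) : ZMod N)) : Module.End ℝ Fn))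
  rw [Finset.prod_const, Finset.card_univ, Fintype.card_fin] at hsm
  have hn' : N - 1 = n := by omega
  rw [← hsm, mul_smul_comm, smul_mul_assoc, hn']
  congr 1
  rw [W_side y f f α β (wall opp S) (by rw [stepSum_wall opp hinv hne S hS, add_zero])]
  congr 1
  rw [mul_assoc]
  congr 1
  have h1 : (W y (sgn f) (wall opp S) : Module.End ℝ Fn) =
      ((List.range N).map fun j : ℕ =>
        (W y (sgn f) (sideWord opp S (j : ZMod N)) : Module.End ℝ Fn)).prod :=
    (prod_W y (sgn f) _ _ fun _ _ => stepSum_side opp hinv hne S hS _).symm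
  rw [h1]
  have h2 : List.range N = List.range (n + 1) := by rw [hn]
  rw [h2, ofFn_range n (fun j : ℕ => (W y (sgn f) (sideWord opp S (j : ZMod N)) :
    Module.End ℝ Fn)), List.prod_cons]
  simp

/-- The value after the contraction of the strands around the vertex. -/
noncomputable def VV (y : ℝ) (f β α : Bool) (S : List (Strand N × Bool)) : ℝ :=
  (∏ i ∈ canon opp, wprod y 0 (steps S i)) *
    tr y ((W y 0 (wall opp S) : Module.End ℝ Fn) * pr y 0 (!f) β α)

theorem V_key (y : ℝ) (hy : ∀ k : ℤ, y ≠ k) (f β α : Bool) (S : List (Strand N × Bool))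
    (hS : Bal opp S) (hr : Even (canon opp).card) :
    dl y 0 ^ (1 + 1 : ℤ) * (∏ i ∈ canon opp, wprod y 0 (f :: (steps S i ++ [!f]))) *
      ((-dl y 0) ^ (N - 1) * tau y (W y 0 ((f, α) :: (wall opp S ++ [(!f, β)])))) =
      VV opp (y + sgn f) f β α S := by
  have hy0 : y ≠ 0 := by simpa using hy 0
  have hN := card_eq opp hinv hne
  have hNpos : 0 < N := Nat.pos_of_ne_zero (NeZero.ne N)
  -- the weights
  have hw : ∀ i ∈ canon opp, wprod y 0 (f :: (steps S i ++ [!f])) =
      (y⁻¹) ^ 2 * ((-1) ^ ((steps S i).length + 1) * wprod (y + sgn f) 0 (steps S i)) := by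
    intro i hi
    have h0 : stepSum (steps S i) = 0 := hS i (by simpa [canon] using hi)
    rw [wprod, wprod_concat, h0, sgn_not]
    have h1 := wprod_shift y 0 f (steps S i)
    have e1 : (0 : ℤ) + sgn f + 0 + -sgn f = 0 := by ring
    rw [e1, h1, dl_zero]
    ring
  rw [Finset.prod_congr rfl hw, Finset.prod_mul_distrib, Finset.prod_mul_distrib,
    Finset.prod_const, Finset.prod_pow_eq_pow_sum, Finset.sum_add_distrib, Finset.sum_const,
    smul_eq_mul, mul_one, ← down_wall opp hinv hne S]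
  -- the trace
  have hc := tr_cyc y (f, α) (wall opp S ++ [(!f, β)]) (by
    rw [List.map_append, stepSum_append, stepSum_wall opp hinv hne S hS]
    simp)
  have hs := W_shift y 0 (sgn f) (wall opp S ++ [(!f, β)] ++ [(f, α)])
  have hd : down (wall opp S ++ [(!f, β)] ++ [(f, α)]) = down (wall opp S) + 1 := by
    cases f <;> simp [down]
  have hp := W_pair (y + sgn f) (wall opp S) [] (!f) β α
  have hnn : [(!f, β), (!!f, α)] = [(!f, β)] ++ [(f, α)] := by rw [Bool.not_not]; rfl
  have hW : (W (y + sgn f) 0 [] : Module.End ℝ Fn) = 1 := rfl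
  rw [List.append_nil, hnn, stepSum_wall opp hinv hne S hS, hW, mul_one, ← List.append_assoc] at hp
  have hsg : (-1 : ℝ) ^ (sgn f * ((down (wall opp S) + 1 : ℕ) : ℤ)) =
      (-1) ^ (down (wall opp S) + 1) := by
    cases f
    · simp only [sgn]
      rw [show (if false = true then 1 else -1 : ℤ) = -1 from rfl, neg_one_mul, zpow_neg,
        zpow_natCast]
      rcases neg_one_pow_eq_or ℝ (down (wall opp S) + 1) with h | h <;> rw [h] <;> norm_num
    · rw [show sgn true = 1 from rfl, one_mul, zpow_natCast]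
  rw [zero_add] at hs
  rw [hs, map_smul, smul_eq_mul, hd, hsg, hp] at hc
  have htau : tau y (W y 0 ((f, α) :: (wall opp S ++ [(!f, β)]))) =
      y⁻¹ * tr y (W y 0 ((f, α) :: (wall opp S ++ [(!f, β)]))) := by simp [tau]
  rw [htau, hc, dl_zero]
  unfold VV
  obtain ⟨m, hm⟩ := hr
  have hN1 : N - 1 = 4 * m - 1 := by omega
  have hm0 : 0 < m := by omega
  obtain ⟨m, rfl⟩ : ∃ m', m = m' + 1 := ⟨m - 1, by omega⟩
  have hN2 : N - 1 = 2 * (2 * m + 1) + 1 := by omega
  have hcard : (canon opp).card = 2 * (m + 1) := by omega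
  have hneg : (-y) ^ (N - 1) = -y ^ (N - 1) := by
    rw [hN2]
    exact Odd.neg_pow ⟨_, rfl⟩ y
  rw [hneg, hN2, hcard]
  have hsq : (-1 : ℝ) ^ (down (wall opp S) + 2 * (m + 1)) * (-1) ^ (down (wall opp S) + 1) = -1 := by
    rw [← pow_add]
    exact Odd.neg_one_pow ⟨down (wall opp S) + m + 1, by ring⟩
  have hy4 : y ^ (1 + 1 : ℤ) * ((y⁻¹ ^ 2) ^ (2 * (m + 1))) * y ^ (2 * (2 * m + 1) + 1) * y⁻¹ = 1 := by
    rw [show (1 + 1 : ℤ) = ((2 : ℕ) : ℤ) from rfl, zpow_natCast]
    have e1 : y ^ 2 * ((y⁻¹ ^ 2) ^ (2 * (m + 1))) * y ^ (2 * (2 * m + 1) + 1) * y⁻¹ =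
        y ^ (4 * m + 5) * y⁻¹ ^ (4 * m + 5) := by
      rw [← pow_mul, show 4 * m + 5 = 2 + (2 * (2 * m + 1) + 1) by ring, pow_add y,
        show 2 + (2 * (2 * m + 1) + 1) = 2 * (2 * (m + 1)) + 1 by ring, pow_succ (y⁻¹)]
      ring
    rw [e1, ← mul_pow, mul_inv_cancel₀ hy0, one_pow]
  linear_combination (-(∏ i ∈ canon opp, wprod (y + sgn f) 0 (steps S i)) *
    tr (y + sgn f) ((W (y + sgn f) 0 (wall opp S) : Module.End ℝ Fn) *
      pr (y + sgn f) 0 (!f) β α) * (y ^ (1 + 1 : ℤ) * ((y⁻¹ ^ 2) ^ (2 * (m + 1))) *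
        y ^ (2 * (2 * m + 1) + 1) * y⁻¹)) * hsq +
    ((∏ i ∈ canon opp, wprod (y + sgn f) 0 (steps S i)) *
    tr (y + sgn f) ((W (y + sgn f) 0 (wall opp S) : Module.End ℝ Fn) *
      pr (y + sgn f) 0 (!f) β α)) * hy4

open Classical in
theorem vterm_const (y : ℝ) (hy : ∀ k : ℤ, y ≠ k) (f β α : Bool) (S : List (Strand N × Bool))
    (hr : Even (canon opp).card) :
    ∑ lab : ZMod N → Bool × Bool, kap β α lab *
      termS opp y 1 (vfst opp lab (fun _ => f) ++ S ++ vlst opp lab (fun _ => f)) =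
      if Bal opp S then VV opp (y + sgn f) f β α S else 0 := by
  by_cases hS : Bal opp S
  · rw [if_pos hS, ← V_key opp hinv hne y hy f β α S hS hr]
    have h1 : ∀ lab : ZMod N → Bool × Bool,
        termS opp y 1 (vfst opp lab (fun _ => f) ++ S ++ vlst opp lab (fun _ => f)) =
        dl y 0 ^ (1 + 1 : ℤ) * (∏ i ∈ canon opp, wprod y 0 (f :: (steps S i ++ [!f]))) *
          tau y (bdry opp y (vfst opp lab (fun _ => f) ++ S ++ vlst opp lab (fun _ => f))) := by
      intro lab
      unfold termS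
      rw [if_pos ((bal_v opp hinv lab _ S).2 ((VBal_const opp f S).2 hS))]
      congr 2
      refine Finset.prod_congr rfl fun i hi => ?_
      rw [steps_v opp hinv lab _ S i (by simpa [canon] using hi)]
    simp only [h1]
    have h2 := congrArg (tau y) (vsum_const opp hinv hne y β α f S hS)
    rw [map_sum, map_smul, smul_eq_mul] at h2
    rw [← h2, Finset.mul_sum]
    refine Finset.sum_congr rfl fun lab _ => ?_
    rw [map_smul, smul_eq_mul]
    ring
  · rw [if_neg hS]
    refine Finset.sum_eq_zero fun lab _ => ?_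
    unfold termS
    rw [if_neg, mul_zero]
    intro hB
    exact hS ((VBal_const opp f S).1 ((bal_v opp hinv lab _ S).1 hB))

theorem vterm_zero (y : ℝ) (β α : Bool) (ε : ZMod N → Bool) (S : List (Strand N × Bool))
    (hj : ∃ j : ZMod N, j ≠ 0 ∧ ε j ≠ ε (opp (j - 1))) :
    ∑ lab : ZMod N → Bool × Bool, kap β α lab *
      termS opp y 1 (vfst opp lab ε ++ S ++ vlst opp lab ε) = 0 := by
  by_cases hS : VBal opp ε S
  · have h1 : ∀ lab : ZMod N → Bool × Bool,
        termS opp y 1 (vfst opp lab ε ++ S ++ vlst opp lab ε) =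
        dl y 0 ^ (1 + 1 : ℤ) *
          (∏ i ∈ canon opp, wprod y 0 (ε i :: (steps S i ++ [!ε (opp i)]))) *
          tau y (bdry opp y (vfst opp lab ε ++ S ++ vlst opp lab ε)) := by
      intro lab
      unfold termS
      rw [if_pos ((bal_v opp hinv lab _ S).2 hS)]
      congr 2
      refine Finset.prod_congr rfl fun i hi => ?_
      rw [steps_v opp hinv lab _ S i (by simpa [canon] using hi)]
    simp only [h1]
    have h2 := congrArg (tau y) (vsum_zero opp hinv hne y β α ε S hS hj)
    rw [map_sum, map_zero] at h2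
    rw [← mul_zero (dl y 0 ^ (1 + 1 : ℤ) *
          (∏ i ∈ canon opp, wprod y 0 (ε i :: (steps S i ++ [!ε (opp i)])))), ← h2, Finset.mul_sum]
    refine Finset.sum_congr rfl fun lab _ => ?_
    rw [map_smul, smul_eq_mul]
    ring
  · refine Finset.sum_eq_zero fun lab _ => ?_
    unfold termS
    rw [if_neg, mul_zero]
    intro hB
    exact hS ((bal_v opp hinv lab _ S).1 hB)

theorem VV_sum (y : ℝ) (hy : ∀ k : ℤ, y ≠ k) (β α : Bool) (S : List (Strand N × Bool))
    (hS : Bal opp S) :
    VV opp y true β α S + VV opp y false β α S = ep β α * termS opp y 1 S := by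
  have hy0 : y ≠ 0 := by simpa using hy 0
  have hpa : (pr y 0 true β α : Module.End ℝ Fn) + pr y 0 false β α =
      (dl y 0 * ep β α) • (1 : Module.End ℝ Fn) :=
    LinearMap.ext fun φ => pr_add y 0 β α φ
  unfold VV
  rw [← mul_add, ← map_add, ← mul_add]
  have e : (pr y 0 (!true) β α : Module.End ℝ Fn) + pr y 0 (!false) β α =
      (dl y 0 * ep β α) • (1 : Module.End ℝ Fn) := by
    rw [← hpa]; exact add_comm _ _
  rw [e, mul_smul_comm, mul_one, map_smul, smul_eq_mul, ← mul_tau hy0]
  unfold termS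
  rw [if_pos hS, bdry_eq_W opp hinv hne y S hS, dl_zero,
    show (1 + 1 : ℤ) = ((2 : ℕ) : ℤ) from rfl, zpow_natCast]
  unfold wall
  ring

end

end Pool.Agent.AMU
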