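import Pool.Agent.Lib.AMU.Vert3

/-!
# The relation at the vertex for the series
-/

set_option autoImplicit false

namespace Pool.Agent.AMU

section

variable {N : ℕ} [NeZero N] (opp : ZMod N → ZMod N)

/-- A function of the sides which is constant around the vertex is constant. -/
def Conn : Prop :=
  ∀ ε : ZMod N → Bool, (∀ j : ZMod N, j ≠ 0 → ε j = ε (opp (j - 1))) → ∀ j, ε j = ε 0

variable (hinv : ∀ i, opp (opp i) = i) (hne : ∀ i, opp i ≠ i)

include hinv hne

open Classical in
theorem veps (hconn : Conn opp) (hr : Even (canon opp).card) (y : ℝ) (hy : ∀ k : ℤ, y ≠ k)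
    (β α : Bool) (S : List (Strand N × Bool)) :
    ∑ ε : ZMod N → Bool, ∑ lab : ZMod N → Bool × Bool, kap β α lab *
        termS opp y 1 (vfst opp lab ε ++ S ++ vlst opp lab ε) =
      (if Bal opp S then VV opp (y + 1) true β α S else 0) +
        (if Bal opp S then VV opp (y + (-1)) false β α S else 0) := by
  have h1 := vterm_const opp hinv hne y hy true β α S hr
  have h2 := vterm_const opp hinv hne y hy false β α S hr
  have e1 : ((sgn true : ℤ) : ℝ) = 1 := by simp [sgn]
  have e2 : ((sgn false : ℤ) : ℝ) = -1 := by simp [sgn]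
  rw [e1] at h1
  rw [e2] at h2
  rw [← h1, ← h2]
  have hsub : ({fun _ => true, fun _ => false} : Finset (ZMod N → Bool)) ⊆ Finset.univ :=
    Finset.subset_univ _
  rw [← Finset.sum_subset hsub, Finset.sum_pair]
  · intro h
    have := congrFun h 0
    simp at this
  · intro ε _ hε
    refine vterm_zero opp hinv hne y β α ε S ?_
    by_contra hc
    push Not at hc
    have h3 := hconn ε (fun j hj => hc j hj)
    apply hε
    rw [Finset.mem_insert, Finset.mem_singleton]
    cases h4 : ε 0
    · right; funext j; rw [h3 j, h4]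
    · left; funext j; rw [h3 j, h4]

theorem vseries (hconn : Conn opp) (hr : Even (canon opp).card)
    (hc : (1 : ℤ) + 1 - (canon opp).card ≤ -2) {x : ℝ} (hx : ∀ k : ℤ, x ≠ k)
    (β α : Bool) (S : List (Strand N × Bool)) :
    (Summable fun k : ℤ => ∑ ε : ZMod N → Bool, ∑ lab : ZMod N → Bool × Bool, kap β α lab *
        termS opp (x + k) 1 (vfst opp lab ε ++ S ++ vlst opp lab ε)) ∧
    ∑' k : ℤ, ∑ ε : ZMod N → Bool, ∑ lab : ZMod N → Bool × Bool, kap β α lab *
        termS opp (x + k) 1 (vfst opp lab ε ++ S ++ vlst opp lab ε) =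
      ep β α * ∑' k : ℤ, termS opp (x + k) 1 S := by
  classical
  have hsumm : ∀ S : List (Strand N × Bool), Summable fun k : ℤ => termS opp (x + k) 1 S := by
    intro S
    obtain ⟨C, hC, h⟩ := termS_bound opp hx 1 hinv hne S
    exact Summable.of_norm_bounded ((summable_shift x _ hc).mul_left C) h
  have hall : Summable fun k : ℤ => ∑ ε : ZMod N → Bool, ∑ lab : ZMod N → Bool × Bool,
      kap β α lab * termS opp (x + k) 1 (vfst opp lab ε ++ S ++ vlst opp lab ε) :=
    summable_sum fun ε _ => summable_sum fun lab _ => (hsumm _).mul_left _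
  refine ⟨hall, ?_⟩
  have hb : ∀ f : Bool, Summable fun k : ℤ =>
      (if Bal opp S then VV opp (x + k + sgn f) f β α S else 0) := by
    intro f
    have : Summable fun k : ℤ => ∑ lab : ZMod N → Bool × Bool,
      kap β α lab * termS opp (x + k) 1 (vfst opp lab (fun _ => f) ++ S ++
        vlst opp lab (fun _ => f)) := summable_sum fun lab _ => (hsumm _).mul_left _
    refine this.congr fun k => ?_
    exact vterm_const opp hinv hne (x + k) (ne_shift hx k) f β α S hr
  have hb' : ∀ f : Bool,
      (Summable fun k : ℤ => (if Bal opp S then VV opp (x + k) f β α S else 0)) ∧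
      ∑' k : ℤ, (if Bal opp S then VV opp (x + k + sgn f) f β α S else 0) =
      ∑' k : ℤ, (if Bal opp S then VV opp (x + k) f β α S else 0) := by
    intro f
    have e : ∀ k : ℤ, (if Bal opp S then VV opp (x + k + sgn f) f β α S else 0) =
        (fun k : ℤ => if Bal opp S then VV opp (x + k) f β α S else 0)
          ((Equiv.addRight (sgn f)) k) := by
      intro k
      simp only [Equiv.coe_addRight]
      push_cast
      rw [add_assoc]
    constructor
    · rw [← (Equiv.addRight (sgn f)).summable_iff]
      exact (hb f).congr fun k => (e k)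
    · rw [← (Equiv.addRight (sgn f)).tsum_eq
        (fun k : ℤ => if Bal opp S then VV opp (x + k) f β α S else 0)]
      exact tsum_congr e
  have h1 : ∀ k : ℤ, ∑ ε : ZMod N → Bool, ∑ lab : ZMod N → Bool × Bool, kap β α lab *
        termS opp (x + k) 1 (vfst opp lab ε ++ S ++ vlst opp lab ε) =
      (if Bal opp S then VV opp (x + k + sgn true) true β α S else 0) +
        (if Bal opp S then VV opp (x + k + sgn false) false β α S else 0) := by
    intro k
    rw [veps opp hinv hne hconn hr (x + k) (ne_shift hx k) β α S]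
    simp [sgn]
  rw [tsum_congr h1, (hb true).tsum_add (hb false), (hb' true).2, (hb' false).2,
    ← (hb' true).1.tsum_add (hb' false).1, ← tsum_mul_left]
  refine tsum_congr fun k => ?_
  by_cases hS : Bal opp S
  · rw [if_pos hS, if_pos hS, VV_sum opp hinv hne (x + k) (ne_shift hx k) β α S hS]
  · rw [if_neg hS, if_neg hS]
    unfold termS
    rw [if_neg hS, mul_zero, add_zero]

omit hne in
theorem nodup_all : (canL opp ++ ncL opp).Nodup := by
  refine List.Nodup.append (nodup_canL opp) ?_ ?_
  · exact (nodup_canL opp).map (fun a b hab => by rw [← hinv a, hab, hinv b])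
  · intro v hv hv'
    rw [mem_canL] at hv
    obtain ⟨u, hu, rfl⟩ := List.mem_map.1 hv'
    rw [mem_canL] at hu
    rw [hinv] at hv
    omega

theorem mem_all (i : ZMod N) : i ∈ canL opp ++ ncL opp := by
  rw [List.mem_append, mem_canL]
  by_cases hi : i.val < (opp i).val
  · left; exact hi
  · right
    have h := val_ne opp hne i
    refine List.mem_map.2 ⟨opp i, (mem_canL opp _).2 ?_, hinv i⟩
    rw [hinv]
    omega

/-- The sum over the steps of the strands around the vertex. -/
theorem term_vertex (y : ℝ) (lab : ZMod N → Bool × Bool) (L : List (Strand N)) :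
    term opp y 1 ((canL opp).map (vstr opp lab) ++ L ++ (ncL opp).map (vstr opp lab)) =
      sumSteps L (fun S => ∑ ε : ZMod N → Bool,
        termS opp y 1 (vfst opp lab ε ++ S ++ vlst opp lab ε)) := by
  classical
  have hnd : (canL opp ++ ncL opp).Nodup := nodup_all opp hinv
  unfold term
  rw [sumSteps_append, sumSteps_append, sumSteps_sum]
  have h1 : ∀ S : List (Strand N × Bool),
      sumSteps L (fun S' => sumSteps ((ncL opp).map (vstr opp lab))
        (fun S'' => termS opp y 1 (S ++ S' ++ S''))) =
      sumSteps ((ncL opp).map (vstr opp lab)) (fun S'' => sumSteps L (fun S' =>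
        termS opp y 1 (S ++ S' ++ S''))) := fun S => sumSteps_comm _ _ _
  simp only [h1]
  rw [sumSteps_two (canL opp) (ncL opp) hnd (mem_all opp hinv hne) (vstr opp lab)
    (fun S S'' => sumSteps L (fun S' => termS opp y 1 (S ++ S' ++ S'')))]
  let E : (ZMod N → Bool) ≃ (ZMod N → Bool) :=
    Equiv.piCongrRight fun v => if v.val < (opp v).val then Equiv.refl Bool else Equiv.boolNot
  rw [← E.sum_comp]
  refine Finset.sum_congr rfl fun ε _ => ?_
  refine sumSteps_congr _ fun S => ?_
  have e1 : (canL opp).map (fun i => (vstr opp lab i, E ε i)) = vfst opp lab ε := by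
    refine List.map_congr_left fun v hv => ?_
    rw [mem_canL] at hv
    simp [E, hv]
  have e2 : (ncL opp).map (fun i => (vstr opp lab i, E ε i)) = vlst opp lab ε := by
    refine List.map_congr_left fun v hv => ?_
    obtain ⟨u, hu, rfl⟩ := List.mem_map.1 hv
    rw [mem_canL] at hu
    have : ¬ ((opp u).val < (opp (opp u)).val) := by rw [hinv]; omega
    simp [E, this]
  rw [e1, e2]

/-- The relation at the vertex for lists of strands. -/
theorem vterm_series (hconn : Conn opp) (hr : Even (canon opp).card)
    (hc : (1 : ℤ) + 1 - (canon opp).card ≤ -2) {x : ℝ} (hx : ∀ k : ℤ, x ≠ k)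
    (β α : Bool) (L : List (Strand N)) :
    ∑' k : ℤ, ∑ lab : ZMod N → Bool × Bool, kap β α lab *
        term opp (x + k) 1 ((canL opp).map (vstr opp lab) ++ L ++
          (ncL opp).map (vstr opp lab)) =
      ep β α * ∑' k : ℤ, term opp (x + k) 1 L := by
  have hsumm : ∀ S : List (Strand N × Bool), Summable fun k : ℤ => termS opp (x + k) 1 S := by
    intro S
    obtain ⟨C, hC, h⟩ := termS_bound opp hx 1 hinv hne S
    exact Summable.of_norm_bounded ((summable_shift x _ hc).mul_left C) h
  have h1 : ∀ k : ℤ, ∑ lab : ZMod N → Bool × Bool, kap β α lab *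
        term opp (x + k) 1 ((canL opp).map (vstr opp lab) ++ L ++
          (ncL opp).map (vstr opp lab)) =
      sumSteps L (fun S => ∑ ε : ZMod N → Bool, ∑ lab : ZMod N → Bool × Bool, kap β α lab *
        termS opp (x + k) 1 (vfst opp lab ε ++ S ++ vlst opp lab ε)) := by
    intro k
    have h2 : ∀ S : List (Strand N × Bool),
        ∑ ε : ZMod N → Bool, ∑ lab : ZMod N → Bool × Bool, kap β α lab *
          termS opp (x + k) 1 (vfst opp lab ε ++ S ++ vlst opp lab ε) =
        ∑ lab : ZMod N → Bool × Bool, kap β α lab * ∑ ε : ZMod N → Bool,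
          termS opp (x + k) 1 (vfst opp lab ε ++ S ++ vlst opp lab ε) := by
      intro S
      rw [Finset.sum_comm]
      refine Finset.sum_congr rfl fun lab _ => ?_
      rw [Finset.mul_sum]
    simp only [h2]
    rw [sumSteps_sum]
    refine Finset.sum_congr rfl fun lab _ => ?_
    rw [sumSteps_mul, term_vertex opp hinv hne]
  rw [tsum_congr h1, (tsum_sumSteps L _ fun S => (vseries opp hinv hne hconn hr hc hx β α S).1).2]
  have h3 : ∀ S : List (Strand N × Bool),
      ∑' k : ℤ, ∑ ε : ZMod N → Bool, ∑ lab : ZMod N → Bool × Bool, kap β α lab *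
        termS opp (x + k) 1 (vfst opp lab ε ++ S ++ vlst opp lab ε) =
      ep β α * ∑' k : ℤ, termS opp (x + k) 1 S :=
    fun S => (vseries opp hinv hne hconn hr hc hx β α S).2
  simp only [h3]
  rw [sumSteps_mul]
  congr 1
  exact (tsum_sumSteps L (fun k S => termS opp (x + k) 1 S) hsumm).2.symm

end

end Pool.Agent.AMU
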