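import Pool.Agent.Lib.AMU.Vert4

/-!
# The relation at the vertex in the coordinate ring
-/

set_option autoImplicit false

namespace Pool.Agent.AMU

open Matrix

section

variable {N : ℕ} [NeZero N] (opp : ZMod N → ZMod N)

/-- The entries of the word of the vertex (without the last form). -/
noncomputable def Gv (β α : Bool) : MvPolynomial (Strand N) ℝ :=
  ∑ lab : ZMod N → Bool × Bool, MvPolynomial.C (kap β α lab) *
    ∏ v : ZMod N, glet opp v (lab v).2 (lab (opp v + 1)).1

/-- The entries of the word of the vertex. -/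
theorem word_entry (e : Fin N ≃ ZMod N) (he0 : ∀ k : Fin N, k.val = 0 → e k = 0)
    (hes : ∀ (k : Fin N) (h : k.val + 1 < N), e ⟨k.val + 1, h⟩ = opp (e k) + 1)
    (hlast : ∀ k : Fin N, k.val + 1 = N → opp (e k) + 1 = 0)
    (hσ : Function.Bijective fun v => opp v + 1) (α γ : Bool) :
    (List.ofFn fun k : Fin N => mlet opp (e k)).prod α γ =
      ∑ β, MvPolynomial.C (ep β γ) * Gv opp β α := by
  obtain ⟨n, rfl⟩ : ∃ n, N = n + 1 := ⟨N - 1, by have := NeZero.ne N; omega⟩
  rw [prod_entry]
  -- the left side as a sum over the labels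
  have hb : Function.Bijective fun k : Fin (n + 1) => opp (e k) + 1 := hσ.comp e.bijective
  have hL : ∀ a : Fin (n + 1) → Bool,
      (if a 0 = α then ∏ k : Fin (n + 1), mlet opp (e k) (a k)
        (if h : k.val + 1 < n + 1 then a ⟨k.val + 1, h⟩ else γ) else 0) =
      ∑ b : Fin (n + 1) → Bool, if a 0 = α then ∏ k : Fin (n + 1),
        (glet opp (e k) (a k) (b k) * MvPolynomial.C (ep (b k)
          (if h : k.val + 1 < n + 1 then a ⟨k.val + 1, h⟩ else γ))) else 0 := by
    intro a
    split_ifs with h
    · simp only [mlet]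
      rw [Finset.prod_univ_sum, Fintype.piFinset_univ]
    · simp
  simp_rw [hL]
  rw [← Fintype.sum_prod_type']
  -- the bijection
  let E : (ZMod (n + 1) → Bool × Bool) ≃ (Fin (n + 1) → Bool) × (Fin (n + 1) → Bool) :=
    { toFun := fun lab => (fun k => (lab (e k)).2, fun k => (lab (opp (e k) + 1)).1)
      invFun := fun ab j => (ab.2 ((Equiv.ofBijective _ hb).symm j), ab.1 (e.symm j))
      left_inv := by
        intro lab
        funext j
        have h1 : opp (e ((Equiv.ofBijective _ hb).symm j)) + 1 = j :=
          (Equiv.ofBijective _ hb).apply_symm_apply j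
        simp [h1]
      right_inv := by
        intro ab
        refine Prod.ext ?_ ?_
        · funext k; simp
        · funext k
          have h1 : (Equiv.ofBijective _ hb).symm (opp (e k) + 1) = k :=
            (Equiv.ofBijective _ hb).symm_apply_apply k
          simp [h1] }
  rw [← E.sum_comp]
  -- the right side
  have hR : ∑ β, MvPolynomial.C (ep β γ) * Gv opp β α =
      ∑ lab : ZMod (n + 1) → Bool × Bool, MvPolynomial.C ((if (lab 0).2 = α then ep (lab 0).1 γ
        else 0) * ∏ j ∈ Finset.univ.erase (0 : ZMod (n + 1)), ep (lab j).1 (lab j).2) *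
        ∏ v : ZMod (n + 1), glet opp v (lab v).2 (lab (opp v + 1)).1 := by
    simp only [Gv, Finset.mul_sum]
    rw [Finset.sum_comm]
    refine Finset.sum_congr rfl fun lab _ => ?_
    simp only [← mul_assoc, ← MvPolynomial.C_mul]
    rw [← Finset.sum_mul, ← map_sum]
    congr 2
    simp only [kap, ← mul_assoc]
    rw [← Finset.sum_mul]
    congr 1
    rw [Fintype.sum_bool]
    rcases h : lab 0 with ⟨_ | _, a⟩ <;> by_cases ha : a = α <;> simp [ha]
  rw [hR]
  refine Finset.sum_congr rfl fun lab _ => ?_
  show (if (lab (e 0)).2 = α then ∏ k : Fin (n + 1),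
        (glet opp (e k) (lab (e k)).2 (lab (opp (e k) + 1)).1 * MvPolynomial.C (ep
          (lab (opp (e k) + 1)).1
          (if h : k.val + 1 < n + 1 then (lab (e ⟨k.val + 1, h⟩)).2 else γ))) else 0) = _
  rw [he0 0 rfl]
  by_cases hα : (lab 0).2 = α
  · rw [if_pos hα, if_pos hα, Finset.prod_mul_distrib, mul_comm]
    congr 1
    · have h1 : ∀ k : Fin (n + 1), MvPolynomial.C (ep (lab (opp (e k) + 1)).1
          (if h : k.val + 1 < n + 1 then (lab (e ⟨k.val + 1, h⟩)).2 else γ)) =
          (fun j : ZMod (n + 1) => (MvPolynomial.C (if j = 0 then ep (lab 0).1 γ else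
            ep (lab j).1 (lab j).2) : MvPolynomial (Strand (n + 1)) ℝ)) (opp (e k) + 1) := by
        intro k
        by_cases hk : k.val + 1 < n + 1
        · have h2 : opp (e k) + 1 ≠ 0 := by
            rw [← hes k hk, ← he0 0 rfl]
            intro h
            have := congrArg Fin.val (e.injective h)
            simp at this
          simp only [dif_pos hk, if_neg h2, hes k hk]
        · have h2 : opp (e k) + 1 = 0 := hlast k (by have := k.isLt; omega)
          simp only [dif_neg hk, h2, if_true]
      rw [Finset.prod_congr rfl fun k _ => h1 k,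
        hb.prod_comp (fun j : ZMod (n + 1) => (MvPolynomial.C (if j = 0 then ep (lab 0).1 γ else
            ep (lab j).1 (lab j).2) : MvPolynomial (Strand (n + 1)) ℝ)),
        ← Finset.mul_prod_erase Finset.univ _ (Finset.mem_univ (0 : ZMod (n + 1))), if_pos rfl,
        MvPolynomial.C_mul, map_prod]
      congr 1
      refine Finset.prod_congr rfl fun j hj => ?_
      rw [if_neg (Finset.ne_of_mem_erase hj)]
    · exact e.bijective.prod_comp (fun v : ZMod (n + 1) =>
        glet opp v (lab v).2 (lab (opp v + 1)).1)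
  · rw [if_neg hα, if_neg hα, zero_mul, map_zero, zero_mul]

variable (hinv : ∀ i, opp (opp i) = i) (hne : ∀ i, opp i ≠ i)

include hinv hne

theorem prod_glet (hr : Even (canon opp).card) (lab : ZMod N → Bool × Bool) :
    ∏ v : ZMod N, glet opp v (lab v).2 (lab (opp v + 1)).1 =
      (((canL opp).map (vstr opp lab) ++ (ncL opp).map (vstr opp lab)).map
        MvPolynomial.X).prod := by
  have h1 : ∀ v : ZMod N, glet opp v (lab v).2 (lab (opp v + 1)).1 =
      (if v.val < (opp v).val then 1 else -1) *
        (MvPolynomial.X (vstr opp lab v) : MvPolynomial (Strand N) ℝ) := by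
    intro v
    unfold glet vstr
    split_ifs <;> ring
  rw [Finset.prod_congr rfl fun v _ => h1 v, Finset.prod_mul_distrib]
  have h2 : ∏ v : ZMod N, (if v.val < (opp v).val then 1 else -1 : MvPolynomial (Strand N) ℝ) =
      1 := by
    rw [Finset.prod_ite, Finset.prod_const_one, one_mul, Finset.prod_const]
    have h3 : (Finset.univ.filter fun v : ZMod N => ¬ v.val < (opp v).val).card =
        (canon opp).card := by
      refine Finset.card_nbij' opp opp ?_ ?_ ?_ ?_
      · intro v hv
        have := val_ne opp hne v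
        simp only [Finset.coe_filter, Finset.mem_univ, true_and, Set.mem_ofPred_eq, canon,
          hinv] at hv ⊢
        omega
      · intro v hv
        simp only [Finset.coe_filter, Finset.mem_univ, true_and, Set.mem_ofPred_eq, canon,
          hinv] at hv ⊢
        omega
      · intro v _; exact hinv v
      · intro v _; exact hinv v
    rw [h3, hr.neg_one_pow]
  rw [h2, one_mul, ← List.map_append, List.map_map, ← List.prod_toFinset _ (nodup_all opp hinv)]
  refine Finset.prod_congr ?_ fun _ _ => rfl
  ext v
  simp only [Finset.mem_univ, List.mem_toFinset, true_iff]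
  exact mem_all opp hinv hne v

/-- The functional of the series. -/
noncomputable def FF (e : ℤ) (he : e + 1 - (canon opp).card ≤ -2) {x : ℝ}
    (hx : ∀ k : ℤ, x ≠ k) : Rq opp →ₗ[ℝ] ℝ where
  toFun p := ∑' k : ℤ, rF opp (x + k) e p
  map_add' p q := by
    simp only [map_add]
    exact (summable_rF opp hinv hne hx e he p).tsum_add (summable_rF opp hinv hne hx e he q)
  map_smul' c p := by
    simp only [map_smul, smul_eq_mul, RingHom.id_apply]
    exact tsum_mul_left

theorem Fun_eq_FF (e : ℤ) (he : e + 1 - (canon opp).card ≤ -2) {x : ℝ} (hx : ∀ k : ℤ, x ≠ k)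
    (M : Multiset (PuncturedGroup opp)) :
    Fun opp hinv hne e x M =
      FF opp hinv hne e he hx (M.map fun g => (homR opp hinv hne g).1.trace).prod := rfl

theorem Gv_rel (hconn : Conn opp) (hr : Even (canon opp).card)
    (hc : (1 : ℤ) + 1 - (canon opp).card ≤ -2) {x : ℝ} (hx : ∀ k : ℤ, x ≠ k) (β α : Bool)
    (q : Rq opp) :
    FF opp hinv hne 1 hc hx (Ideal.Quotient.mk (detIdeal opp) (Gv opp β α) * q) =
      ep β α * FF opp hinv hne 1 hc hx q := by
  obtain ⟨q, rfl⟩ := Ideal.Quotient.mk_surjective q
  have h : (FF opp hinv hne 1 hc hx) ∘ₗ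
      ((Ideal.Quotient.mkₐ ℝ (detIdeal opp)).toLinearMap ∘ₗ LinearMap.mulLeft ℝ (Gv opp β α)) -
      ep β α • ((FF opp hinv hne 1 hc hx) ∘ₗ (Ideal.Quotient.mkₐ ℝ (detIdeal opp)).toLinearMap) =
      0 := by
    refine poly_induction _ fun L => ?_
    rw [LinearMap.sub_apply, LinearMap.smul_apply, LinearMap.comp_apply, LinearMap.comp_apply,
      LinearMap.comp_apply, LinearMap.mulLeft_apply, AlgHom.toLinearMap_apply,
      AlgHom.toLinearMap_apply, Ideal.Quotient.mkₐ_eq_mk, smul_eq_mul, sub_eq_zero]
    show ∑' k : ℤ, rF opp (x + k) 1 _ = ep β α * ∑' k : ℤ, rF opp (x + k) 1 _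
    have h1 : ∀ k : ℤ, rF opp (x + k) 1 (Ideal.Quotient.mk (detIdeal opp)
        (Gv opp β α * (L.map MvPolynomial.X).prod)) =
        ∑ lab : ZMod N → Bool × Bool, kap β α lab *
        term opp (x + k) 1 ((canL opp).map (vstr opp lab) ++ L ++
          (ncL opp).map (vstr opp lab)) := by
      intro k
      rw [rF_mk opp hinv hne (x + k) (ne_shift hx k), Gv, Finset.sum_mul, map_sum]
      refine Finset.sum_congr rfl fun lab _ => ?_
      rw [mul_assoc, MvPolynomial.C_mul', map_smul, smul_eq_mul, prod_glet opp hinv hne hr lab,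
        ← List.prod_append, ← List.map_append,
        polyF_prod opp (x + k) (ne_shift hx k) 1 hinv hne]
      congr 1
      apply term_perm opp (x + k) (ne_shift hx k) 1 hinv hne
      rw [List.append_assoc, List.append_assoc]
      exact List.Perm.append_left _ List.perm_append_comm
    have h2 : ∀ k : ℤ, rF opp (x + k) 1 (Ideal.Quotient.mk (detIdeal opp)
        (L.map MvPolynomial.X).prod) = term opp (x + k) 1 L := by
      intro k
      rw [rF_mk opp hinv hne (x + k) (ne_shift hx k),
        polyF_prod opp (x + k) (ne_shift hx k) 1 hinv hne]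
    rw [tsum_congr h1, tsum_congr h2, vterm_series opp hinv hne hconn hr hc hx β α L]
  have h2 := LinearMap.congr_fun h q
  rw [LinearMap.sub_apply, LinearMap.smul_apply, LinearMap.comp_apply, LinearMap.comp_apply,
      LinearMap.comp_apply, LinearMap.mulLeft_apply, AlgHom.toLinearMap_apply,
      AlgHom.toLinearMap_apply, Ideal.Quotient.mkₐ_eq_mk, smul_eq_mul, LinearMap.zero_apply,
      sub_eq_zero] at h2
  rw [← map_mul (Ideal.Quotient.mk (detIdeal opp))]
  exact h2

end

end Pool.Agent.AMU
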