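import Pool.Agent.Lib.AMU.Vert5

/-!
# The functional of the closed surface group
-/

set_option autoImplicit false

namespace Pool.Agent.AMU

open Matrix

section general

variable {N : ℕ} [NeZero N] (opp : ZMod N → ZMod N)
variable (hinv : ∀ i, opp (opp i) = i) (hne : ∀ i, opp i ≠ i)

/-- The elements which act trivially for the functional. -/
noncomputable def KF (e : ℤ) (he : e + 1 - (canon opp).card ≤ -2) {x : ℝ}
    (hx : ∀ k : ℤ, x ≠ k) : Subgroup (PuncturedGroup opp) where
  carrier := {n | ∀ (A : Matrix Bool Bool (Rq opp)) (p : Rq opp),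
    FF opp hinv hne e he hx ((A * (homR opp hinv hne n).1).trace * p) =
      FF opp hinv hne e he hx (A.trace * p)}
  one_mem' := by
    intro A p
    rw [map_one]
    show FF opp hinv hne e he hx ((A * 1).trace * p) = _
    rw [mul_one]
  mul_mem' := by
    intro a b ha hb A p
    rw [map_mul (homR opp hinv hne)]
    show FF opp hinv hne e he hx
      ((A * ((homR opp hinv hne a).1 * (homR opp hinv hne b).1)).trace * p) = _
    rw [← mul_assoc, hb, ha]
  inv_mem' := by
    intro a ha A p
    have h := ha (A * (homR opp hinv hne a⁻¹).1) p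
    have h1 : (homR opp hinv hne a⁻¹).1 * (homR opp hinv hne a).1 = 1 := by
      have h2 : homR opp hinv hne a⁻¹ * homR opp hinv hne a = 1 := by
        rw [← map_mul, inv_mul_cancel, map_one]
      exact congrArg Subtype.val h2
    rw [mul_assoc, h1, mul_one] at h
    exact h.symm

theorem KF_normal (e : ℤ) (he : e + 1 - (canon opp).card ≤ -2) {x : ℝ}
    (hx : ∀ k : ℤ, x ≠ k) : (KF opp hinv hne e he hx).Normal := by
  constructor
  intro n hn c A p
  have h := hn ((homR opp hinv hne c⁻¹).1 * A * (homR opp hinv hne c).1) p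
  have h1 : (homR opp hinv hne c).1 * (homR opp hinv hne c⁻¹).1 = 1 := by
    have h2 : homR opp hinv hne c * homR opp hinv hne c⁻¹ = 1 := by
      rw [← map_mul, mul_inv_cancel, map_one]
    exact congrArg Subtype.val h2
  have h3 : (A * (homR opp hinv hne (c * n * c⁻¹)).1).trace =
      ((homR opp hinv hne c⁻¹).1 * A * (homR opp hinv hne c).1 * (homR opp hinv hne n).1).trace := by
    rw [map_mul, map_mul]
    show (A * ((homR opp hinv hne c).1 * (homR opp hinv hne n).1 *
      (homR opp hinv hne c⁻¹).1)).trace = _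
    rw [← mul_assoc, Matrix.trace_mul_comm]
    simp only [mul_assoc]
  have h4 : ((homR opp hinv hne c⁻¹).1 * A * (homR opp hinv hne c).1).trace = A.trace := by
    rw [mul_assoc, Matrix.trace_mul_comm, mul_assoc, h1, mul_one]
  rw [h3, h, h4]

/-- Replacement of one element. -/
theorem FF_replace (e : ℤ) (he : e + 1 - (canon opp).card ≤ -2) {x : ℝ}
    (hx : ∀ k : ℤ, x ≠ k) (a b : PuncturedGroup opp) (h : b⁻¹ * a ∈ KF opp hinv hne e he hx)
    (M : Multiset (PuncturedGroup opp)) :
    Fun opp hinv hne e x (a ::ₘ M) = Fun opp hinv hne e x (b ::ₘ M) := by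
  rw [Fun_eq_FF opp hinv hne e he hx, Fun_eq_FF opp hinv hne e he hx, Multiset.map_cons,
    Multiset.map_cons, Multiset.prod_cons, Multiset.prod_cons]
  have h1 := h (homR opp hinv hne b).1 (M.map fun g => (homR opp hinv hne g).1.trace).prod
  have h2 : (homR opp hinv hne b).1 * (homR opp hinv hne (b⁻¹ * a)).1 = (homR opp hinv hne a).1 := by
    have h3 : homR opp hinv hne b * homR opp hinv hne (b⁻¹ * a) = homR opp hinv hne a := by
      rw [← map_mul, mul_inv_cancel_left]
    exact congrArg Subtype.val h3
  rw [h2] at h1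
  exact h1

/-- The functional of a quotient group. -/
noncomputable def FunQ (e : ℤ) (x : ℝ) {Γ : Type} (lift : Γ → PuncturedGroup opp)
    (M : Multiset Γ) : ℝ := Fun opp hinv hne e x (M.map lift)

theorem Fun_congr {Γ : Type} (e : ℤ) (he : e + 1 - (canon opp).card ≤ -2) {x : ℝ}
    (hx : ∀ k : ℤ, x ≠ k) (f f' : Γ → PuncturedGroup opp)
    (h : ∀ g, (f' g)⁻¹ * f g ∈ KF opp hinv hne e he hx) (M : Multiset Γ)
    (M' : Multiset (PuncturedGroup opp)) :
    Fun opp hinv hne e x (M.map f + M') = Fun opp hinv hne e x (M.map f' + M') := by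
  induction M using Multiset.induction_on generalizing M' with
  | empty => rfl
  | cons a M ih =>
    rw [Multiset.map_cons, Multiset.map_cons, Multiset.cons_add, Multiset.cons_add,
      FF_replace opp hinv hne e he hx _ _ (h a), ← Multiset.add_cons, ih, Multiset.add_cons]

/-- The functional of the quotient is compatible with the projection. -/
theorem FunQ_map {Γ : Type} [Group Γ] (e : ℤ) (he : e + 1 - (canon opp).card ≤ -2) {x : ℝ}
    (hx : ∀ k : ℤ, x ≠ k) (π : PuncturedGroup opp →* Γ) (lift : Γ → PuncturedGroup opp)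
    (hlift : ∀ g, π (lift g) = g) (hker : ∀ n, π n = 1 → n ∈ KF opp hinv hne e he hx)
    (M : Multiset (PuncturedGroup opp)) :
    FunQ opp hinv hne e x lift (M.map π) = Fun opp hinv hne e x M := by
  unfold FunQ
  rw [Multiset.map_map]
  have h := Fun_congr opp hinv hne e he hx (lift ∘ π) id (fun g => hker _ (by
    rw [map_mul, map_inv, Function.comp_apply, hlift]; simp)) M 0
  rw [add_zero, add_zero, Multiset.map_id] at h
  exact h

theorem traceFun_FunQ {Γ : Type} [Group Γ] (e : ℤ) (he : e + 1 - (canon opp).card ≤ -2) {x : ℝ}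
    (hx : ∀ k : ℤ, x ≠ k) (π : PuncturedGroup opp →* Γ) (lift : Γ → PuncturedGroup opp)
    (hlift : ∀ g, π (lift g) = g) (hker : ∀ n, π n = 1 → n ∈ KF opp hinv hne e he hx) :
    TraceFun (FunQ opp hinv hne e x lift) := by
  have hT := traceFun_Fun opp hinv hne hx e he
  constructor
  · intro g h M
    unfold FunQ
    rw [Multiset.map_cons, Multiset.map_cons, hT.mul, Multiset.map_cons, Multiset.map_cons]
    congr 1
    · exact FF_replace opp hinv hne e he hx _ _ (hker _ (by simp [hlift])) _
    · exact FF_replace opp hinv hne e he hx _ _ (hker _ (by simp [hlift])) _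
  · intro M
    unfold FunQ
    rw [Multiset.map_cons, ← hT.one]
    exact FF_replace opp hinv hne e he hx _ _ (hker _ (by simp [hlift])) _

/-- The word of the vertex acts trivially. -/
theorem vertex_mem (hconn : Conn opp) (hr : Even (canon opp).card)
    (hc : (1 : ℤ) + 1 - (canon opp).card ≤ -2) {x : ℝ} (hx : ∀ k : ℤ, x ≠ k)
    (e : Fin N ≃ ZMod N) (he0 : ∀ k : Fin N, k.val = 0 → e k = 0)
    (hes : ∀ (k : Fin N) (h : k.val + 1 < N), e ⟨k.val + 1, h⟩ = opp (e k) + 1)
    (hlast : ∀ k : Fin N, k.val + 1 = N → opp (e k) + 1 = 0)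
    (hσ : Function.Bijective fun v => opp v + 1) :
    ((List.ofFn fun k : Fin N => e k).map PresentedGroup.of).prod ∈ KF opp hinv hne 1 hc hx := by
  intro A p
  have h1 : ∀ w : List (ZMod N), (homR opp hinv hne ((w.map PresentedGroup.of).prod)).1 =
      ((w.map (mlet opp)).prod).map (Ideal.Quotient.mk (detIdeal opp)) := by
    intro w
    induction w with
    | nil =>
      rw [List.map_nil, List.prod_nil, map_one, List.map_nil, List.prod_nil,
        Matrix.map_one _ (map_zero _) (map_one _)]
      rfl
    | cons i w ih =>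
      have e1 : (homR opp hinv hne (((i :: w).map PresentedGroup.of).prod)).1 =
          mletQ opp i * (homR opp hinv hne ((w.map PresentedGroup.of).prod)).1 := by
        rw [List.map_cons, List.prod_cons, map_mul, homR_of]
        rfl
      rw [e1, ih, List.map_cons, List.prod_cons, Matrix.map_mul]
      rfl
  have h2 : ∀ α γ : Bool, ∀ q : Rq opp,
      FF opp hinv hne 1 hc hx
        ((homR opp hinv hne (((List.ofFn fun k : Fin N => e k).map PresentedGroup.of).prod)).1 α γ *
          q) = if α = γ then FF opp hinv hne 1 hc hx q else 0 := by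
    intro α γ q
    have h3 := word_entry opp e he0 hes hlast hσ α γ
    rw [h1, List.map_ofFn, Matrix.map_apply]
    have h4 : (List.ofFn (mlet opp ∘ fun k : Fin N => e k)).prod α γ =
        ∑ β, MvPolynomial.C (ep β γ) * Gv opp β α := h3
    rw [h4, map_sum, Finset.sum_mul, map_sum]
    have h5 : ∀ β : Bool, FF opp hinv hne 1 hc hx
        (Ideal.Quotient.mk (detIdeal opp) (MvPolynomial.C (ep β γ) * Gv opp β α) * q) =
        ep β γ * (ep β α * FF opp hinv hne 1 hc hx q) := by
      intro β
      rw [← Gv_rel opp hinv hne hconn hr hc hx β α q, ← smul_eq_mul (ep β γ), ← map_smul]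
      congr 1
      rw [map_mul, mul_assoc, ← MvPolynomial.algebraMap_eq]
      have h6 : (Ideal.Quotient.mk (detIdeal opp))
          ((algebraMap ℝ (MvPolynomial (Strand N) ℝ)) (ep β γ)) =
          algebraMap ℝ (Rq opp) (ep β γ) := rfl
      rw [h6, ← Algebra.smul_def]
    simp only [h5]
    rw [Fintype.sum_bool]
    cases α <;> cases γ <;> simp [ep]
  rw [Matrix.trace, Matrix.trace]
  simp only [Matrix.diag_apply, Matrix.mul_apply, Finset.sum_mul]
  rw [map_sum, map_sum]
  refine Finset.sum_congr rfl fun i _ => ?_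
  rw [map_sum, Finset.sum_eq_single i]
  · rw [mul_comm (A i i), mul_assoc, h2 i i, if_pos rfl]
  · intro j _ hj
    rw [mul_comm (A i j), mul_assoc, h2 j i, if_neg hj]
  · intro h; exact absurd (Finset.mem_univ i) h

end general

end Pool.Agent.AMU
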